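import Pool.Agent.Lib.MP_557161_ag.HG.Fin2

/-!
Exponential sums with integral multiplicities, a congruence modulo two, and the number of rational
zeros of binary forms: definitions and statements.
-/

namespace Pool.Agent.Lib.MP_557161_ag.HG.TW.P2

open Pool.Agent.Lib.MP_557161_ag.DL

/-- Exponential sums with integral multiplicities. -/
def ES (a : ℕ → ℂ) : Prop :=
  ∃ ν : ℂ →₀ ℤ, ν 0 = 0 ∧ ∀ m : ℕ, 0 < m → a m = ν.sum fun z c => c * z ^ m

/-- The number of points fixed by the power `m` of a permutation with orbits of lengths `dg i`. -/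
def sN {ι : Type} [Fintype ι] (dg : ι → ℕ) (m : ℕ) : ℕ := ∑ i, if dg i ∣ m then dg i else 0

/-- The case of one orbit. -/
def rN (e m : ℕ) : ℕ := if e ∣ m then e else 0

/-- Normalised homogeneous coordinates of the points of the projective line. -/
def Nm {K : Type} [Field K] (x : Fin 2 → K) : Prop := x 1 = 1 ∨ (x 1 = 0 ∧ x 0 = 1)

/-- The number of zeros of a binary form that are fixed by the power `Q`. -/
noncomputable def rt {K : Type} [Field K] (Q : ℕ) (F : MvPolynomial (Fin 2) K) : ℕ :=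
  Nat.card {x : Fin 2 → K // Nm x ∧ (∀ i, x i ^ Q = x i) ∧ MvPolynomial.aeval x F = 0}

/-- Operations on exponential sums. -/
class ZES : Prop where
  add : ∀ {a b : ℕ → ℂ}, ES a → ES b → ES fun m => a m + b m
  sub : ∀ {a b : ℕ → ℂ}, ES a → ES b → ES fun m => a m - b m
  mul : ∀ {a b : ℕ → ℂ}, ES a → ES b → ES fun m => a m * b m
  geo : ∀ {z : ℂ}, z ≠ 0 → ES fun m => z ^ m
  sN : ∀ {ι : Type} [Fintype ι] (dg : ι → ℕ), (∀ i, 0 < dg i) → ES fun m => (sN dg m : ℂ)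
  rN : ∀ e : ℕ, 0 < e → ES fun m => (rN e m : ℂ)
  rc : ∀ {a : ℕ → ℂ}, ES a → Fn2.Rc fun m => a (m + 1)

/-- The multiplicities when the form of Frobenius vanishes. -/
class ZB2 : Prop where
  cnt : ∀ (σ : Polynomial ℂ →ₗ[ℂ] ℂ) (r₀ : ℕ), (∀ a, phi σ r₀ (chD a) = 0) → ∀ ν : ℂ →₀ ℤ,
    ν 0 = 0 → (∀ m : ℕ, 0 < m → σ (chC m) = ν.sum fun z c => c * z ^ m) →
    (∀ z, z ≠ 1 → z ≠ -1 → 0 ≤ ν z) ∧ (ν.sum fun _ c => c) - ν 1 - ν (-1) ≤ 2 * r₀ - 2

/-- The congruence modulo two. -/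
class ZM : Prop where
  mod2 : ∀ (q e : ℕ), Odd q → Odd e → ∀ {ι : Type} [Fintype ι] (dg : ι → ℕ), (∀ i, 0 < dg i) →
    (∀ i, Nat.Coprime (dg i) e) → ∀ c : ℕ → ℤ,
    (∀ m v : ℕ, 0 < m → 2 ^ v ∣ m → (2 : ℤ) ^ (v + 1) ∣ c m) → ∀ ν : ℂ →₀ ℤ, ν 0 = 0 →
    (∀ z, z ≠ 1 → z ≠ -1 → 0 ≤ ν z) →
    (∀ m : ℕ, 0 < m → ((q : ℂ) ^ m) ^ 2 + (q : ℂ) ^ m + sN dg m * rN e m -
      (sN dg m + rN e m) * (q : ℂ) ^ m - c m = (q : ℂ) ^ m * ν.sum fun z c => c * z ^ m) →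
    ((e : ℤ) - 1) * ((∑ i, dg i : ℕ) - 1) ≤ (ν.sum fun _ c => c) - ν 1 - ν (-1)

/-- The rational zeros of binary forms. -/
class ZN : Prop where
  sqf : ∀ {k : Type} [Field k] [Finite k] (f : Polynomial k) (n : ℕ), Squarefree f →
    f.natDegree ≤ n → n ≤ f.natDegree + 1 → ∃ (ι : Type) (_ : Fintype ι) (dg : ι → ℕ),
      ∑ i, dg i = n ∧ (∀ i, 0 < dg i) ∧
      (∀ i, dg i = 1 ∨ ∃ u : Polynomial k, Irreducible u ∧ u ∣ f ∧ dg i = u.natDegree) ∧
      ∀ m : ℕ, 0 < m → rt (Nat.card k ^ m)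
        (MvPolynomial.map (algebraMap k (AlgebraicClosure k)) (f.homogenize n)) = sN dg m
  irr : ∀ {k : Type} [Field k] [Finite k] (D : Polynomial k), Irreducible D →
    ∀ m : ℕ, 0 < m → rt (Nat.card k ^ m)
      (MvPolynomial.map (algebraMap k (AlgebraicClosure k)) (D.homogenize D.natDegree)) =
        rN D.natDegree m

/-- Points that a power of a map sends to their image under a free involution. -/
class ZO2 : Prop where
  dvd : ∀ {α : Type} (F ι : α → α), (∀ x, ι (ι x) = x) → (∀ x, ι x ≠ x) →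
    (∀ x, F (ι x) = ι (F x)) → ∀ m v : ℕ, 0 < m → 2 ^ v ∣ m →
    2 ^ (v + 1) ∣ Nat.card {x // F^[m] x = ι x}

end Pool.Agent.Lib.MP_557161_ag.HG.TW.P2
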