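import Pool.Agent.Lib.MP_557161_ag.TW.StW

/-!
Slices of functionals.
-/

namespace Pool.Agent.Lib.MP_557161_ag.HG.TW.P2

open Pool.Agent.Lib.MP_557161_ag.DL

variable {K : Type} [Field K] {c d : Cd} {Γ : Wt c}

namespace SLa

section
variable {L L' : Type} [Field L] [Field L']

lemma nz_fst {x : c.X L} {w : d.X L} (h : (Γ.prod (.triv d)).nz (x, w)) : Γ.nz x :=
  Γ.nz_iff.2 fun s => by
    obtain ⟨i, h1, h2⟩ := (Γ.prod (.triv d)).nz_iff.1 h s
    cases i with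
    | inl i => exact ⟨i, h1, h2⟩
    | inr i => exact h1.elim

/-- The class of a pair. -/
def pr (Γ : Wt c) (w : d.X L) : Quotient (Γ.st L) → Quotient ((Γ.prod (.triv d)).st L) :=
  Quotient.map (fun x => (x, w)) (by
    rintro x y (h | ⟨a, h, rfl⟩)
    · exact .inl ⟨fun e => h.1 (nz_fst e), fun e => h.2 (nz_fst e)⟩
    · exact .inr ⟨a, h, rfl⟩)

lemma pr_pt (x : c.X L) (w : d.X L) : pr Γ w (Γ.pt x) = (Γ.prod (.triv d)).pt (x, w) := rfl

end

variable {M L : Fld K}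

lemma map_pr (ι : M →ₐ[K] L) (E : (Γ.amb K).pt M) (w : d.X M) :
    ((Γ.prod (.triv d)).amb K).map ι (pr Γ w E) = pr Γ (d.map ι w) ((Γ.amb K).map ι E) := by
  obtain ⟨x, rfl⟩ := Γ.pt_surj E
  rfl

lemma red_pr (O : Pl M) (E : (Γ.amb K).pt M) {w : d.X M} {w' : d.X O.res}
    (e : d.lift (Rel.ofPl O).r w w') :
    ((Γ.prod (.triv d)).amb K).red O (pr Γ w E) = pr Γ w' ((Γ.amb K).red O E) := by
  obtain ⟨x, rfl⟩ := Γ.pt_surj E
  obtain ⟨y, hy⟩ := Γ.pt_surj (Γ.qred O (Γ.pt x))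
  show _ = pr Γ w' (Γ.qred O (Γ.pt x))
  rw [← hy, pr_pt, pr_pt]
  by_cases h1 : Γ.nz y
  · obtain ⟨u, x', hu, e1, h2, e'⟩ := Γ.qred_nz hy.symm h1
    rw [(Γ.prod (.triv d)).red_pt (Wt.nm_un hu) (x := (x, w)) (x' := (x', w')) ⟨e1, e⟩
      (Γ.nz_prod _ h2 _), ← pr_pt, ← pr_pt, e']
  · obtain ⟨z, hz⟩ := (Γ.prod (.triv d)).pt_surj
      ((Γ.prod (.triv d)).qred O ((Γ.prod (.triv d)).pt (x, w)))
    refine hz.symm.trans (Wt.pt_not _ (fun h2 => h1 ?_) fun h2 => h1 (nz_fst h2))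
    obtain ⟨u, z', hu, e1, h3, -⟩ := (Γ.prod (.triv d)).qred_nz hz.symm h2
    have h4 : Γ.nz z'.1 := nz_fst (w := z'.2) h3
    exact Γ.nz_pt ((Γ.red_pt (Wt.nm_un hu) e1.1 h4).symm.trans hy.symm) h4

lemma hasS_of_inj {α β : Type} {G : α → ℂ} {G' : β → ℂ} (E : α → β) (hE : Function.Injective E)
    (h1 : ∀ a, G a = G' (E a)) (h2 : ∀ b, G' b ≠ 0 → b ∈ Set.range E) {r : ℂ} (h : HasS G' r) :
    HasS G r := by
  refine ⟨(h.1.preimage hE.injOn).subset fun a ha => ?_, ?_⟩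
  · rw [Function.mem_support, h1] at ha
    exact ha
  · rw [← h.2, finsum_congr h1, ← finsum_mem_range hE, ← finsum_mem_univ G']
    refine finsum_mem_inter_support_eq G' _ _ ?_
    ext b
    exact ⟨fun e => ⟨trivial, e.2⟩, fun e => ⟨h2 b e.2, e.2⟩⟩

lemma nat_of_lt {t : Cardinal} {n : ℕ} (h : t < n) : ∃ m : ℕ, t = m ∧ m < n := by
  obtain ⟨m, rfl⟩ := Cardinal.lt_aleph0.1 (h.trans Cardinal.natCast_lt_aleph0)
  exact ⟨m, rfl, by exact_mod_cast h⟩

lemma deg_zero [Base K] {A A' : Fld K} (ι : A →ₐ[K] A') (h : Good 0 A') : deg ι = 1 := by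
  have h1 : Fin' (L := .base K) (Algebra.ofId K A') := h.fin _ (by rw [tr_base, Nat.cast_zero])
  have h2 : Module.Finite K A' := RingHom.finite_algebraMap.1 h1
  refine deg_of_surj fun y => ?_
  obtain ⟨a, rfl⟩ := (IsAlgClosed.algebraMap_bijective_of_isIntegral (k := K) (K := A')).2 y
  exact ⟨_, ι.commutes a⟩

variable [CE K] {S : QS K Γ} {W : ASp K d} {k j : ℕ} (θ : QF (k + j) (S.pw W)) {B : Fld K}
  (w : d.X B) (hB : Good j B)

open Classical in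
/-- The value of the slice. -/
noncomputable def val (A : Fld K) (E : (Γ.amb K).pt A) : ℂ :=
  if h : Good k A then
    θ.v (CE.ex h hB).choose (pr Γ (d.map (CE.ex h hB).choose_spec.choose_spec.choose w)
      ((Γ.amb K).map (CE.ex h hB).choose_spec.choose E))
  else 0

omit [CE K] in
lemma ext_lift {A A' N N' : Fld K} {ι : A →ₐ[K] N} {α : B →ₐ[K] N} {ι' : A' →ₐ[K] N'}
    {α' : B →ₐ[K] N'} (h : Cmp k j ι α) (h' : Cmp k j ι' α') (κ : A →ₐ[K] A') (ρ : N →ₐ[K] N')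
    (e1 : ρ.comp ι = ι'.comp κ) (e2 : ρ.comp α = α') (E : (Γ.amb K).pt A) :
    θ.v N' (pr Γ (d.map α' w) ((Γ.amb K).map ι' ((Γ.amb K).map κ E))) =
      deg ρ * θ.v N (pr Γ (d.map α w) ((Γ.amb K).map ι E)) := by
  rw [← θ.ext ρ _ h.gN h'.gN, map_pr, ← (Γ.amb K).map_comp, ← (Γ.amb K).map_comp, e1, d.map_map,
    ← e2]
  rfl

lemma val_eq {A N : Fld K} {ι : A →ₐ[K] N} {α : B →ₐ[K] N} (h : Cmp k j ι α)
    (E : (Γ.amb K).pt A) :
    val θ w hB A E = θ.v N (pr Γ (d.map α w) ((Γ.amb K).map ι E)) := by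
  have h0 := (CE.ex h.gA hB).choose_spec.choose_spec.choose_spec
  obtain ⟨ρ, e1, e2, e3⟩ := CE.lift h0 h (AlgHom.id K A)
  have := ext_lift θ w h0 h _ ρ e1 e2 E
  rw [(Γ.amb K).map_id, e3 rfl, deg_of_surj (ι := AlgHom.id K A) Function.surjective_id,
    Nat.cast_one, one_mul] at this
  rw [this, val, dif_pos h.gA]

variable [WB K]

lemma val_ne {A : Fld K} {x : c.X A} (h : val θ w hB A (Γ.pt x) ≠ 0) :
    Good k A ∧ S.mem A x ∧ W.mem B w := by
  by_cases hA : Good k A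
  · obtain ⟨N, ι, α, hc⟩ := CE.ex hA hB
    rw [val_eq θ w hB hc] at h
    have := (WB.mem θ.toPre (x := (c.map ι x, d.map α w)) h).2
    exact ⟨hA, (S.S.map_iff ι x).1 this.1, (W.map_iff α w).1 this.2⟩
  · rw [val, dif_neg hA] at h
    exact absurd rfl h

variable [FW0 K]

omit [CE K] in
lemma low {A₀ B₀ N : Fld K} (ι : A₀ →ₐ[K] N) (α : B₀ →ₐ[K] N) (E : (Γ.amb K).pt A₀) (w₀ : d.X B₀)
    {m m' : ℕ} (h : A₀.tr ≤ m) (h' : B₀.tr ≤ m') (e : m + m' < k + j) :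
    θ.v N (pr Γ (d.map α w₀) ((Γ.amb K).map ι E)) = 0 := by
  obtain ⟨x, rfl⟩ := Γ.pt_surj E
  exact WB.low θ.toPre (x := (c.map ι x, d.map α w₀)) (FA3.dm_pair
    ((FA3.dm_map ι).2 (FA3.dm_tr x h)) ((FA3.dm_map α).2 (FA3.dm_tr w₀ h'))) e

variable [CP K]

lemma transfer {A N : Fld K} {ι : A →ₐ[K] N} {α : B →ₐ[K] N} (E : (Γ.amb K).pt A) (t : A)
    (g : ℤ → ℂ) (r : ℂ) (hc : Cmp (k + 1) j ι α) (ht : t ≠ 0) (g0 : g 0 = 0)
    (h : HasS (fun O : Dv N (k + j) => g (O.1.ord (ι t)) * θ.v O.1.res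
      (((Γ.prod (.triv d)).amb K).red O.1 (pr Γ (d.map α w) ((Γ.amb K).map ι E)))) r) :
    HasS (fun O : Dv A k => g (O.1.ord t) * val θ w hB O.1.res ((Γ.amb K).red O.1 E)) r := by
  obtain ⟨F, h1, h2⟩ := CP.pl hc
  refine hasS_of_inj F (fun O O₂ e => ?_) (fun O => ?_) (fun O' hO' => ?_) h
  · obtain ⟨a, -⟩ := h1 O
    obtain ⟨b, -⟩ := h1 O₂
    exact Subtype.ext (a.eq_comap.trans (e ▸ b.eq_comap.symm))
  · obtain ⟨a, b, e1, e2⟩ := h1 O
    rw [e1, val_eq θ w hB e2, red_pr _ _ (Cd.lift_triv b w), (Γ.amb K).red_map a]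
  · have n1 : ¬ Pl.Triv ι O'.1 := fun e => left_ne_zero_of_mul hO' (by
      rw [Pl.ord_eq_zero_of_mem ((map_ne_zero ι).2 ht) (e t) (map_inv₀ ι t ▸ e t⁻¹), g0])
    have n2 := right_ne_zero_of_mul hO'
    have n3 : ∃ w', d.lift (Rel.ofPl O'.1).r (d.map α w) w' := by
      obtain ⟨x, rfl⟩ := Γ.pt_surj E
      obtain ⟨u, z, -, e, -⟩ := WB.r_ne θ.toPre (x := (c.map ι x, d.map α w)) n2
      exact ⟨z.2, e.2⟩
    obtain ⟨w', e⟩ := n3
    rw [red_pr _ _ e, (Γ.amb K).red_map (Pl.over_comap ι O'.1)] at n2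
    by_cases h' : Pl.Triv α O'.1
    · refine (h2 O' h' n1).resolve_right fun ⟨m, hm, e1⟩ => n2 ?_
      obtain ⟨y, hy⟩ := Γ.pt_surj ((Γ.amb K).red (Pl.comap ι O'.1) E)
      rw [← hy, Cd.lift_eq e (Cd.lift_triv h' w) rfl]
      refine WB.low θ.toPre (x := (c.map _ y, d.map h'.hom w)) ⟨_, ?_, e1⟩ hm
      refine ⟨(c.all_iff _ _).2 fun i => ?_, (d.all_iff _ _).2 fun i => ?_⟩
      · rw [c.co_map]
        exact IntermediateField.subset_adjoin _ _ (.inl ⟨_, rfl⟩)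
      · rw [d.co_map]
        exact IntermediateField.subset_adjoin _ _ (.inr ⟨_, rfl⟩)
    · refine absurd ?_ n2
      obtain ⟨m, e1, hm⟩ := nat_of_lt (Pl.tr_res_lt (Pl.comap α O'.1) (fun e2 => h' fun b =>
        (Pl.over_comap α O'.1 b).1 (e2 ▸ ValuationSubring.mem_top b)) hB.2.le)
      have e2 : w' = d.map (Pl.over_comap α O'.1).resHom (d.map (Pl.comap α O'.1).rd w) := by
        rw [← ((Cd.lift_pl O'.1).1 e).2, d.map_map, d.map_map]
        simp only [Pl.Over.resHom_rd]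
      rw [e2]
      exact low θ _ _ _ _ (FA2.res_lt n1 hc.gA.2.le) e1.le (by omega)

/-- The slice. -/
noncomputable def slc : QF k S where
  v := val θ w hB
  supp A E h := by
    obtain ⟨x, rfl⟩ := Γ.pt_surj E
    exact ⟨(val_ne θ w hB h).1, S.sp_pt.2 (val_ne θ w hB h).2.1⟩
  ext {A A'} κ E h h' := by
    obtain ⟨N, ι, α, hc⟩ := CE.ex h hB
    obtain ⟨N', ι', α', hc'⟩ := CE.ex h' hB
    obtain ⟨ρ, e1, e2, e3⟩ := CE.lift hc hc' κ
    rw [val_eq θ w hB hc, val_eq θ w hB hc', ext_lift θ w hc hc' κ ρ e1 e2, e3 rfl]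
  low {A A'} κ E h := by
    by_cases h' : Good k A'
    · obtain ⟨N, ι, α, hc⟩ := CE.ex h' hB
      obtain ⟨m, e, hm⟩ := nat_of_lt h
      rw [val_eq θ w hB hc, ← (Γ.amb K).map_comp]
      exact low θ _ _ _ _ e.le hB.2.le (by omega)
    · exact dif_neg h'
  rat M E f hM hE hf := by
    by_cases hw : W.mem B w
    · obtain ⟨N, ι, α, hc⟩ := CE.ex hM hB
      refine transfer θ w hB E f (fun n => (n : ℂ)) 0 hc hf Int.cast_zero
        (θ.rat N _ (ι f) (by rw [Nat.add_right_comm]; exact hc.gN) ?_ ((map_ne_zero ι).2 hf))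
      obtain ⟨x, hx, rfl⟩ := hE
      exact ⟨(c.map ι x, d.map α w), ⟨(S.S.map_iff ι x).2 hx, (W.map_iff α w).2 hw⟩, rfl⟩
    · have e : ∀ (A : Fld K) (E : (Γ.amb K).pt A), val θ w hB A E = 0 := fun A E => by
        obtain ⟨x, rfl⟩ := Γ.pt_surj E
        exact not_not.1 fun h => hw (val_ne θ w hB h).2.2
      simp [HasS, e]

end SLa

namespace SLa

variable [Base K]

open Classical in
/-- A multiple of the degree of zero cycles on the point. -/
noncomputable def cst (K : Type) [Field K] [Base K] (r : ℂ) : AF 0 (ASp.univ K c0) where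
  v L y := if Good 0 L ∧ y ≠ none then r else 0
  supp L y h := by
    split_ifs at h with e
    · obtain ⟨x, rfl⟩ := Option.ne_none_iff_exists'.1 e.2
      exact ⟨e.1, x, rfl, trivial⟩
    · exact absurd rfl h
  ext ι y h h' := by
    rw [deg_zero ι h', Nat.cast_one, one_mul]
    cases y with
    | none => exact (if_neg fun e => e.2 rfl).trans (if_neg fun e => e.2 rfl).symm
    | some x =>
      exact (if_pos ⟨h', Option.some_ne_none _⟩).trans (if_pos ⟨h, Option.some_ne_none _⟩).symm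
  low ι y h := absurd h (by simp)
  rat M y f hM hy hf := by
    obtain ⟨x, rfl, -⟩ := hy
    have e : ∀ O : Dv M 0, (if Good 0 O.1.res ∧ (c0.amb K).red O.1 (some x) ≠ none then r else 0)
        = r := fun O => if_pos ⟨O.2.good hM, by
      rw [Cd.red_some (x' := fun i => i.elim) fun i => i.elim]
      exact Option.some_ne_none _⟩
    simp only [e]
    obtain ⟨h1, h2⟩ := Pl.degree_zero (L := .base K) (Algebra.ofId K M) good_base hM hf
    have dv : ∀ O : Pl M, O.IsDVR → O.IsDiv 0 := fun O h => ⟨h, by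
      obtain ⟨m, e1, hm⟩ := nat_of_lt (O.tr_res_lt h.ne_top hM.2.le)
      rw [e1, show m = 0 by omega]⟩
    have h3 : (Function.support fun O : {O : Pl M // Pl.Triv (L := .base K) (Algebra.ofId K M) O ∧
        O.IsDVR} => O.1.ord f * (deg O.2.1.hom : ℤ)).Finite :=
      (h1.preimage Subtype.val_injective.injOn).subset fun O hO =>
        ⟨O.2.1, O.2.2, left_ne_zero_of_mul hO⟩
    refine hasS_of_inj (fun O : Dv M 0 => (⟨O.1, O.1.const, O.2.1⟩ :
        {O : Pl M // Pl.Triv (L := .base K) (Algebra.ofId K M) O ∧ O.IsDVR}))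
      (fun _ _ e => Subtype.ext (congrArg Subtype.val e :))
      (G' := fun O => ((O.1.ord f * (deg O.2.1.hom : ℤ) : ℤ) : ℂ) * r) (fun O => ?_)
      (fun O _ => ⟨⟨O.1, dv _ O.2.2⟩, rfl⟩) ⟨h3.subset fun O hO => ?_, ?_⟩
    · rw [deg_zero _ (O.2.good hM), Nat.cast_one, mul_one]
    · exact fun e => left_ne_zero_of_mul hO (Int.cast_eq_zero.2 e)
    · have h4 := (Int.castAddHom ℂ).map_finsum h3
      rw [h2, map_zero] at h4
      rw [← finsum_mul]
      exact mul_eq_zero_of_left h4.symm r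

end SLa

theorem SL_thm [Base K] [FW0 K] [WB K] [CE K] [CP K] : SL K where
  qs θ _ w hB := ⟨SLa.slc θ w hB, fun _ _ _ _ x h => SLa.val_eq θ w hB h (Wt.pt _ x),
    fun _ _ _ _ x t g r h ht g0 e => SLa.transfer θ w hB (Wt.pt _ x) t g r h ht g0 e⟩
  pt φ B w _ := ⟨SLa.cst K (φ.a B w), fun _ _ h => if_pos ⟨h, Option.some_ne_none _⟩⟩

end Pool.Agent.Lib.MP_557161_ag.HG.TW.P2
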