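import Pool.Agent.Lib.MP_557161_ag.TW.StY
import Pool.Agent.Lib.MP_557161_ag.HG.XG

/-!
Generic points of the double cover.
-/

namespace Pool.Agent.Lib.MP_557161_ag.HG.TW.P2

open Pool.Agent.Lib.MP_557161_ag.DL MvPolynomial

variable {K : Type} [Field K]

namespace XGa

variable {L M M₀ M' : Fld K} {j : ℕ}

lemma om_map (T : TD K) (β : M₀ →ₐ[K] M) (x : Fin 2 → M₀) :
    β (T.om M₀ x) = T.om M fun i => β (x i) := by
  simp only [TD.om, map_mul, map_sub, map_one, map_prod, AlgHom.commutes]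

lemma card_two : Nat.card (Fin 2) = 2 := Nat.card_fin 2

lemma lift_sq {β : M₀ →ₐ[K] M} {θ : M} {c : M₀} (h : θ ^ 2 = β c) (hg : Gen β θ)
    (hc : ∀ z : M₀, z ^ 2 ≠ c) {γ : M₀ →ₐ[K] M'} {θ' : M'} (h' : θ' ^ 2 = γ c) :
    ∃ ρ : M →ₐ[K] M', ρ.comp β = γ ∧ ρ θ = θ' := by
  let _ := ValA.alg β
  let _ := ValA.alg γ
  have := ValA.tower β
  have := ValA.tower γ
  have : Module.Finite M₀ M := Xg.fin_sq h hg
  have hi : IsIntegral M₀ θ := Algebra.IsIntegral.isIntegral θ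
  have h1 : minpoly M₀ θ = Polynomial.X ^ 2 - Polynomial.C c := by
    refine (minpoly.eq_of_irreducible_of_monic
      (X_pow_sub_C_irreducible_of_prime Nat.prime_two hc) ?_
      (Polynomial.monic_X_pow_sub_C c two_ne_zero)).symm
    rw [map_sub, map_pow, Polynomial.aeval_X, Polynomial.aeval_C, h]
    exact sub_self _
  have h2 := (IntermediateField.adjoin_simple_eq_top_iff_of_isAlgebraic hi.isAlgebraic).1
    ((ValA.gen_iff β θ).1 hg)
  have h3 := PowerBasis.ofAdjoinEqTop_gen hi h2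
  have h4 : Polynomial.aeval θ' (minpoly M₀ (PowerBasis.ofAdjoinEqTop hi h2).gen) = 0 := by
    rw [h3, h1, map_sub, map_pow, Polynomial.aeval_X, Polynomial.aeval_C, h']
    exact sub_self _
  refine ⟨((PowerBasis.ofAdjoinEqTop hi h2).lift θ' h4).restrictScalars K,
    AlgHom.ext fun a => ((PowerBasis.ofAdjoinEqTop hi h2).lift θ' h4).commutes a, ?_⟩
  have h5 := (PowerBasis.ofAdjoinEqTop hi h2).lift_gen θ' h4
  rwa [h3] at h5

theorem ex [XA K] (G : GD K) (hL : Good j L) :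
    ∃ (M : Fld K) (α : L →ₐ[K] M) (y : xz.X M), G.GenU j α y := by
  obtain ⟨M₀, α₀, T, hf⟩ : ∃ (M₀ : Fld K) (α₀ : L →ₐ[K] M₀) (T : Fin 2 → M₀),
      Free j α₀ T := ⟨_, _, _, Fa1.fr_free _ hL⟩
  obtain ⟨z, hz⟩ := IsAlgClosed.exists_pow_nat_eq (M₀.toCl (G.om M₀ T)) two_pos
  obtain ⟨M, β, ρ, θ, hc, hθ, hg⟩ := exists_gen M₀.toCl z
  have h1 : θ ^ 2 = β (G.om M₀ T) := ρ.injective (by
    show ρ (θ ^ 2) = (ρ.comp β) _
    rw [map_pow, hθ, hz, hc])
  have h2 := hf.gM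
  rw [card_two] at h2
  refine ⟨M, β.comp α₀, (fun i => β (T i), θ), hL, h2.of_fin (Xg.fin_sq h1 hg),
    G.UU_iff.2 ⟨fun h0 => XA.nsq G hf 0 (β.injective ?_), h1.trans (om_map _ β T)⟩, ?_⟩
  · show β (0 ^ 2) = β _
    rw [← h1, show θ = 0 from h0, map_pow, map_zero]
  · rw [eq_top_iff, ← (Xg.gen_one β θ).2 hg]
    refine Fa1.gen_le (fun a => ?_) fun _ => Fa1.right_mem _ _ (Sum.inr ())
    have h3 : gen α₀ T ≤ (gen (β.comp α₀) (xz.co (fun i => β (T i), θ))).comap β :=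
      Fa1.gen_le (fun a => Fa1.left_mem (β.comp α₀) _ a) fun i =>
        Fa1.right_mem (β.comp α₀) (xz.co (fun i => β (T i), θ)) (Sum.inl i)
    rw [hf.top] at h3
    exact h3 IntermediateField.mem_top

variable {G : GD K} {α : L →ₐ[K] M} {y : xz.X M}

theorem neg (h : G.GenU j α y) (ε : Bool) : G.GenU j α (sg ε M y) := by
  cases ε
  · exact h
  · refine ⟨h.gL, h.gM, G.UU_iff.2 ⟨neg_ne_zero.2 h.mem.1.2, (neg_sq y.2).trans h.mem.2⟩, ?_⟩
    rw [eq_top_iff, ← h.top]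
    refine Fa1.gen_le (Fa1.left_mem _ _) ?_
    rintro (i | i)
    · exact Fa1.right_mem α (xz.co (ngz M y)) (Sum.inl i)
    · exact neg_mem_iff.1 (Fa1.right_mem α (xz.co (ngz M y)) (Sum.inr i))

lemma sq (h : G.GenU j α y) {β : M₀ →ₐ[K] M} {x : Fin 2 → M₀} (hx : ∀ i, β (x i) = y.1 i) :
    y.2 ^ 2 = β (G.om M₀ x) := by
  rw [om_map, funext hx]
  exact h.mem.2

theorem chart [XA K] (h : G.GenU j α y) :
    ∃ (M₀ : Fld K) (α₀ : L →ₐ[K] M₀) (β : M₀ →ₐ[K] M) (x : Fin 2 → M₀),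
      β.comp α₀ = α ∧ (∀ i, β (x i) = y.1 i) ∧ Free j α₀ x ∧ deg β = 2 ∧ Gen β y.2 := by
  obtain ⟨α₀, β, T, hc, hT, ht⟩ := Fa1.exists_sub α y.1
  have hs := sq h hT
  have hg : Gen β y.2 := by
    rw [← Xg.gen_one, eq_top_iff, ← h.top]
    refine Fa1.gen_le (fun a => ?_) ?_
    · rw [← show β (α₀ a) = α a from AlgHom.congr_fun hc a]; exact Fa1.left_mem β _ _
    · rintro (i | i)
      · show y.1 i ∈ _
        rw [← hT]; exact Fa1.left_mem β _ _
      · exact Fa1.right_mem β (fun _ : Unit => y.2) ()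
  have hf : Free j α₀ T := by
    refine ⟨h.gL, ?_, ht⟩
    rw [card_two]
    exact h.gM.down (ι := β) ((Xg.fin_sq hs hg).tr_eq.symm.trans h.gM.2)
  exact ⟨_, α₀, β, T, hc, hT, hf, Xg.deg_sq hs hg (XA.nsq G hf), hg⟩

theorem iso [XA K] {j' : ℕ} {L' : Fld K} {α' : L' →ₐ[K] M'} {y' : xz.X M'} (h : G.GenU j α y)
    (h' : G.GenU j' α' y') (ι : L →ₐ[K] L') :
    ∃ ρ : M →ₐ[K] M', ρ.comp α = α'.comp ι ∧ xz.map ρ y = y' ∧ (j = j' → deg ρ = deg ι) := by
  obtain ⟨M₀, α₀, β, x, hc, hx, hF, hd, hg⟩ := chart h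
  obtain ⟨M₁, α₁, β', x', hc', hx', hF', hd', -⟩ := chart h'
  obtain ⟨ρ₀, h1, h2, h3⟩ := Fa1.lift hF hF' ι
  obtain ⟨ρ, h4, h5⟩ := lift_sq (sq h hx) hg (XA.nsq G hF) (γ := β'.comp ρ₀)
    (sq h' fun i => (congrArg β' (h2 i)).trans (hx' i))
  refine ⟨ρ, by rw [← hc, ← AlgHom.comp_assoc, h4, AlgHom.comp_assoc, h1, ← AlgHom.comp_assoc, hc'],
    Prod.ext (funext fun i => ?_) h5, fun _ => ?_⟩
  · show ρ (y.1 i) = y'.1 i
    rw [← hx, ← hx', ← h2]
    exact AlgHom.congr_fun h4 (x i)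
  · have h6 := congrArg deg h4
    rw [deg_comp, deg_comp, hd, hd', h3] at h6
    omega

theorem dgr [XA K] (h : G.GenU j α y) (s : Set L) :
    Bridge.dg (IntermediateField.adjoin K (α '' s ∪ Set.range y.1)) =
      2 * Bridge.dg (IntermediateField.adjoin K s) := by
  obtain ⟨M₀, α₀, β, x, hc, hx, hF, hd, -⟩ := chart h
  let ι : L.sub (IntermediateField.adjoin K s) →ₐ[K] L := (IntermediateField.adjoin K s).val
  obtain ⟨α₁, ρ, T, hc', hT, ht⟩ := Fa1.exists_sub (α₀.comp ι) x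
  have h1 : deg ρ = deg ι := Xg.deg_free (by rw [funext hT]; exact hF) ht hc'
  have h2 : ∀ a, β (ρ (α₁ a)) = α (ι a) := fun a => by
    rw [← hc]; exact congrArg β (AlgHom.congr_fun hc' a)
  have h3 : IntermediateField.adjoin K (α '' s ∪ Set.range y.1) =
      IntermediateField.map (β.comp ρ) ⊤ := by
    refine le_antisymm (IntermediateField.adjoin_le_iff.2 ?_) ?_
    · rintro _ (⟨a, ha, rfl⟩ | ⟨i, rfl⟩)
      · exact ⟨α₁ ⟨a, IntermediateField.subset_adjoin K s ha⟩, trivial, h2 _⟩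
      · exact ⟨T i, trivial, (congrArg β (hT i)).trans (hx i)⟩
    · rw [IntermediateField.map_le_iff_le_comap, ← ht]
      refine Fa1.gen_le (fun a => ?_) fun i => ?_
      · show β (ρ (α₁ a)) ∈ IntermediateField.adjoin K (α '' s ∪ Set.range y.1)
        have h4 : IntermediateField.adjoin K s ≤
            (IntermediateField.adjoin K (α '' s ∪ Set.range y.1)).comap α :=
          IntermediateField.adjoin_le_iff.2 fun b hb =>
            IntermediateField.subset_adjoin K _ (Or.inl ⟨b, hb, rfl⟩)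
        rw [h2]
        exact h4 a.2
      · show β (ρ (T i)) ∈ IntermediateField.adjoin K (α '' s ∪ Set.range y.1)
        rw [hT, hx]
        exact IntermediateField.subset_adjoin K _ (Or.inr ⟨i, rfl⟩)
  rw [h3, Bridge.dg_map, Bridge.dg_top, one_mul, deg_comp, h1, hd, mul_comm]
  rfl

end XGa

theorem XG_thm {K : Type} [Field K] [XA K] : XG K where
  ex G _ _ hL := XGa.ex G hL
  neg := XGa.neg
  chart := XGa.chart
  iso := XGa.iso
  dgr := XGa.dgr

end Pool.Agent.Lib.MP_557161_ag.HG.TW.P2
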