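import Pool.Agent.Lib.MP_557161_ag.TW.StY
import Pool.Agent.Lib.MP_557161_ag.DL.ModelC

/-!
The charts of the surface are smooth.
-/

namespace Pool.Agent.Lib.MP_557161_ag.HG.TW.P2

open Pool.Agent.Lib.MP_557161_ag.DL MvPolynomial

namespace XKa

variable {k : Type} [Field k] {g h : ℕ} {P Q : MvPolynomial (Fin 2) k} {s : Ix g h}

theorem homog {σ B : Type} [CommRing B] [Algebra k B] {f : MvPolynomial σ k} {n : ℕ}
    (hf : f.IsHomogeneous n) (c : B) (x : σ → B) :
    aeval (fun s => c * x s) f = c ^ n * aeval x f := by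
  rw [aeval_def, aeval_def, eval₂_eq, eval₂_eq, Finset.mul_sum]
  refine Finset.sum_congr rfl fun d hd => ?_
  simp only [mul_pow, Finset.prod_mul_distrib, Finset.prod_pow_eq_pow_sum]
  rw [← hf.degree_eq_sum_deg_support hd]
  ring

theorem taylor {σ B : Type} [Fintype σ] [DecidableEq σ] [CommRing B] [Algebra k B] (x δ : σ → B)
    (hδ : ∀ i j, δ i * δ j = 0) (p : MvPolynomial σ k) :
    aeval (fun j => x j + δ j) p = aeval x p + ∑ j, δ j * aeval x (pderiv j p) := by
  induction p using MvPolynomial.induction_on with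
  | C r => simp
  | add p q hp hq =>
    simp only [map_add, hp, hq, mul_add, Finset.sum_add_distrib]
    ring
  | mul_X p i hp =>
    have h : ∑ j, δ j * aeval x (pderiv j (p * X i)) =
        (∑ j, δ j * aeval x (pderiv j p)) * x i + δ i * aeval x p := by
      simp only [Derivation.leibniz, smul_eq_mul, map_add, map_mul, aeval_X, mul_add,
        Finset.sum_add_distrib, pderiv_X, Finset.sum_mul]
      rw [add_comm]
      congr 1
      · exact Finset.sum_congr rfl fun j _ => by ring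
      · rw [Finset.sum_eq_single i (fun j _ hj => by simp [hj.symm]) (by simp)]
        simp
    have h' : (∑ j, δ j * aeval x (pderiv j p)) * δ i = 0 := by
      rw [Finset.sum_mul]
      exact Finset.sum_eq_zero fun j _ => by rw [mul_right_comm, hδ, zero_mul]
    rw [map_mul, map_mul, hp, aeval_X, aeval_X, h]
    linear_combination h'

section
variable {R S : Type} [CommRing R] [CommRing S] {F : Type} [FunLike F R S] [RingHomClass F R S]
  (f : F)

theorem map_tm (w : Vr → R) (i : (Fin g → Fin 2) ⊕ (Fin (h + 1) → Fin 2)) :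
    f (tm w i) = tm (fun l => f (w l)) i := by
  cases i <;> simp [tm]

theorem map_sm (w : Vr → R) (i : (Fin h → Fin 2) ⊕ (Fin (g + 1) → Fin 2)) :
    f (sm w i) = sm (fun l => f (w l)) i := by
  cases i <;> simp [sm]

theorem map_nu (w : Vr → R) (i : Ix g h) : f (nu g h w i) = nu g h (fun l => f (w l)) i := by
  simp only [nu_eq, map_mul, map_tm, map_sm]

/-- The action of the torus over a ring. -/
def sc (g h : ℕ) (a b c d : R) (w : Vr → R) : Vr → R :=
  mk4 (fun i => a * w (0, i)) (fun i => b * w (1, i))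
    ![a ^ g * c * w (2, 0), b ^ (h + 1) * c * w (2, 1)]
    ![b ^ h * d * w (3, 0), a ^ (g + 1) * d * w (3, 1)]

variable (a b c d : R) (w : Vr → R)

theorem tm_sc (i : (Fin g → Fin 2) ⊕ (Fin (h + 1) → Fin 2)) :
    tm (sc g h a b c d w) i = c * (a ^ g * b ^ (h + 1) * tm w i) := by
  cases i <;> simp [tm, sc, mk4, Finset.prod_mul_distrib] <;> ring

theorem sm_sc (i : (Fin h → Fin 2) ⊕ (Fin (g + 1) → Fin 2)) :
    sm (sc g h a b c d w) i = d * (a ^ (g + 1) * b ^ h * sm w i) := by
  cases i <;> simp [sm, sc, mk4, Finset.prod_mul_distrib] <;> ring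

theorem eqs_sc [Algebra k R] (hP : P.IsHomogeneous (2 * g + 1)) (hQ : Q.IsHomogeneous (2 * h + 1))
    (e : ∀ r, aeval w (eqs P Q r) = 0) (r : Fin 2) : aeval (sc g h a b c d w) (eqs P Q r) = 0 := by
  have e0 := e 0
  have e1 := e 1
  rw [eqs0] at e0
  rw [eqs1] at e1
  fin_cases r
  · refine (eqs0 P Q _).trans ?_
    simp only [dt, pc] at e0 ⊢
    change b ^ (h + 1) * c * _ * (a ^ (g + 1) * d * _) -
      (a * _ * (b * _) - a * _ * (b * _)) * (a ^ g * c * _) * (b ^ h * d * _) = 0
    linear_combination a ^ (g + 1) * b ^ (h + 1) * c * d * e0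
  · refine (eqs1 P Q _).trans ?_
    change b ^ (h + 1) * c * _ * (b ^ h * d * _) * aeval (fun i => a * pc w 0 i) P -
      a ^ (g + 1) * d * _ * (a ^ g * c * _) * aeval (fun i => b * pc w 1 i) Q = 0
    rw [homog hP, homog hQ]
    linear_combination a ^ (2 * g + 1) * b ^ (2 * h + 1) * c * d * e1

end

variable (P Q s) in
/-- The ideal of the normalised points. -/
noncomputable def JB : Ideal (MvPolynomial Vr k) :=
  Ideal.span ({X (0, s.2.2.1) - 1, X (1, s.2.2.2) - 1, tm X s.1 - 1, sm X s.2.1 - 1} ∪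
    Set.range (eqs P Q))

theorem jb_iff {R : Type} [CommRing R] [Algebra k R] (w : Vr → R) :
    (∀ f ∈ JB P Q s, aeval w f = 0) ↔ Nrm s w ∧ ∀ r, aeval w (eqs P Q r) = 0 := by
  have : (∀ f ∈ JB P Q s, aeval w f = 0) ↔ JB P Q s ≤ RingHom.ker (aeval w) := Iff.rfl
  rw [this, JB, Ideal.span_le]
  simp only [Set.union_subset_iff, Set.insert_subset_iff, Set.singleton_subset_iff,
    Set.range_subset_iff, SetLike.mem_coe, RingHom.mem_ker, map_sub, map_one, map_tm, map_sm, aeval_X,
    sub_eq_zero, Nrm]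

theorem lift_pt (hP : P.IsHomogeneous (2 * g + 1)) (hQ : Q.IsHomogeneous (2 * h + 1))
    {a : Vr × Vr → MvPolynomial Vr k}
    (ha : 1 - ∑ j, a j * mnr (fun r l => pderiv l (eqs P Q r)) j.1 j.2 ∈ JB P Q s)
    {B : Type} [CommRing B] [Algebra k B] {N : Ideal B} (hN : N ^ 2 = ⊥)
    {x : Vr → B ⧸ N} (hx : ∀ f ∈ JB P Q s, aeval x f = 0) :
    ∃ x' : Vr → B, (∀ j, Ideal.Quotient.mk N (x' j) = x j) ∧ ∀ f ∈ JB P Q s, aeval x' f = 0 := by
  choose w hw using fun j => Ideal.Quotient.mk_surjective (x j)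
  have hm : ∀ p : MvPolynomial Vr k, Ideal.Quotient.mk N (aeval w p) = aeval x p := fun p => by
    rw [← Ideal.Quotient.mkₐ_eq_mk k, ← AlgHom.comp_apply, comp_aeval]
    simp only [Ideal.Quotient.mkₐ_eq_mk, hw]
  have sq : ∀ u ∈ N, ∀ v ∈ N, u * v = 0 := fun u hu v hv => by
    rw [← Ideal.mem_bot, ← hN, pow_two]
    exact Ideal.mul_mem_mul hu hv
  have mem : ∀ f ∈ JB P Q s, aeval w f ∈ N := fun f hf => by
    rw [← Ideal.Quotient.eq_zero_iff_mem, hm, hx f hf]
  obtain ⟨⟨n1, n2, n3, n4⟩, n5⟩ := (jb_iff x).1 hx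
  have he : ∀ r, aeval w (eqs P Q r) ∈ N := fun r => by
    rw [← Ideal.Quotient.eq_zero_iff_mem, hm, n5]
  have h1 := mem _ ha
  simp only [map_sub, map_one, map_sum, map_mul, mnr] at h1
  generalize hD : (fun r l => aeval w (pderiv l (eqs P Q r))) = D
  have hD' : ∀ r l, aeval w (pderiv l (eqs P Q r)) = D r l := fun r l => by rw [← hD]
  simp only [hD'] at h1
  let δ : Vr → B := fun l => ∑ j : Vr × Vr, aeval w (a j) *
    ((if l = j.1 then aeval w (eqs P Q 1) * D 0 j.2 - aeval w (eqs P Q 0) * D 1 j.2 else 0) +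
      if l = j.2 then aeval w (eqs P Q 0) * D 1 j.1 - aeval w (eqs P Q 1) * D 0 j.1 else 0)
  have hδ : ∀ l, δ l ∈ N := fun l => sum_mem fun j _ => Ideal.mul_mem_left _ _ (add_mem
    (by split_ifs
        exacts [sub_mem (N.mul_mem_right _ (he _)) (N.mul_mem_right _ (he _)), zero_mem _])
    (by split_ifs
        exacts [sub_mem (N.mul_mem_right _ (he _)) (N.mul_mem_right _ (he _)), zero_mem _]))
  have e1 : ∀ r, aeval (fun l => w l + δ l) (eqs P Q r) = 0 := fun r => by
    rw [taylor _ _ fun i j => sq _ (hδ i) _ (hδ j), ← sq _ (he r) _ h1, mul_sub, mul_one,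
      sub_eq_add_neg, Finset.mul_sum, ← Finset.sum_neg_distrib]
    congr 1
    simp only [δ, hD', Finset.sum_mul]
    rw [Finset.sum_comm]
    refine Finset.sum_congr rfl fun j _ => ?_
    simp only [mul_add, add_mul, Finset.sum_add_distrib, mul_ite, ite_mul, mul_zero, zero_mul,
      Finset.sum_ite_eq', Finset.mem_univ, if_true]
    fin_cases r <;> simp only [Fin.zero_eta, Fin.mk_one] <;> ring
  have e2 : ∀ l, Ideal.Quotient.mk N (w l + δ l) = x l := fun l => by
    rw [map_add, hw, Ideal.Quotient.eq_zero_iff_mem.2 (hδ l), add_zero]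
  obtain ⟨v, e1, e2⟩ : ∃ v : Vr → B, (∀ r, aeval v (eqs P Q r) = 0) ∧
    ∀ l, Ideal.Quotient.mk N (v l) = x l := ⟨_, e1, e2⟩
  have un : ∀ u : B, Ideal.Quotient.mk N u = 1 → ∃ a, a * u = 1 ∧ Ideal.Quotient.mk N a = 1 :=
    fun u hu => by
      have m : u - 1 ∈ N := by rw [← Ideal.Quotient.eq_zero_iff_mem, map_sub, hu, map_one, sub_self]
      refine ⟨1 - (u - 1), by linear_combination -sq _ m _ m, ?_⟩
      rw [map_sub, Ideal.Quotient.eq_zero_iff_mem.2 m, map_one, sub_zero]
  obtain ⟨a0, a1, a2⟩ := un (v (0, s.2.2.1)) (by rw [e2, n1])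
  obtain ⟨b0, b1, b2⟩ := un (v (1, s.2.2.2)) (by rw [e2, n2])
  obtain ⟨c0, c1, c2⟩ := un (a0 ^ g * b0 ^ (h + 1) * tm v s.1)
    (by simp only [map_mul, map_pow, a2, b2, map_tm, e2, n3, one_pow, one_mul])
  obtain ⟨d0, d1, d2⟩ := un (a0 ^ (g + 1) * b0 ^ h * sm v s.2.1)
    (by simp only [map_mul, map_pow, a2, b2, map_sm, e2, n4, one_pow, one_mul])
  refine ⟨sc g h a0 b0 c0 d0 v, fun ⟨l, i⟩ => ?_, (jb_iff _).2
    ⟨⟨a1, b1, (tm_sc ..).trans c1, (sm_sc ..).trans d1⟩, eqs_sc _ _ _ _ _ hP hQ e1⟩⟩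
  fin_cases l <;> fin_cases i <;> simp [sc, mk4, a2, b2, c2, d2, e2]

theorem eqs_map {K : Type} [Field K] [Algebra k K] (r : Fin 2) :
    eqs (map (algebraMap k K) P) (map (algebraMap k K) Q) r = map (algebraMap k K) (eqs P Q r) := by
  fin_cases r <;> simp [eqs, dt, pc, map_rename]

theorem mem_map {K : Type} [Field K] [Algebra k K] {F : MvPolynomial (Ix g h) k}
    (hF : F ∈ twI g h P Q) :
    map (algebraMap k K) F ∈ twI g h (map (algebraMap k K) P) (map (algebraMap k K) Q) := by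
  let φ : Rz k →ₐ[k] Rz K := mapAlgHom (Algebra.ofId k K)
  have e : ∀ (v : Fin 2 → Option (Fin 2 ⊕ Fin 2)) (P : MvPolynomial (Fin 2) k),
      φ (aeval (fun i => X (v i)) P) = aeval (fun i => X (v i)) (map (algebraMap k K) P) :=
    fun v P => by
      rw [aeval_map_algebraMap, ← AlgHom.comp_apply, comp_aeval]
      simp [φ]
  have ex : φ (aeval vx P) = aeval vx (map (algebraMap k K) P) := e _ P
  have ey : φ (aeval vy Q) = aeval vy (map (algebraMap k K) Q) := e _ Q
  have eX : ∀ i, φ (X i) = X i := fun i => by simp [φ]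
  rw [twI, Ideal.mem_comap, Ideal.mem_span_singleton] at hF ⊢
  have h1 : φ (twF P Q) = twF (map (algebraMap k K) P) (map (algebraMap k K) Q) := by
    simp only [twF, map_sub, map_mul, map_pow, ex, ey, vx, vy, eX]
  have h2 : (fun i => φ (twN g h P Q i)) =
      twN g h (map (algebraMap k K) P) (map (algebraMap k K) Q) := funext fun i => by
    obtain ⟨i | i, j | j, l⟩ := i <;>
      simp [twN, mon, -aeval_eq_bind₁, -coe_aeval_eq_eval, ex, ey, show ∀ i, φ (vx i) = vx i from
        fun i => eX _, show ∀ i, φ (vy i) = vy i from fun i => eX _, eX]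
  have := map_dvd φ hF
  rw [h1, ← AlgHom.comp_apply, comp_aeval, h2] at this
  rwa [aeval_map_algebraMap]

end XKa

open XKa in
/-- The surface is smooth. -/
theorem XK_thm {k : Type} [Field k] [h0 : X0 (AlgebraicClosure k)] [hL : XL (AlgebraicClosure k)]
    [hU : XU] : XK k where
  smooth G P Q eP eQ s := by
    have hP : P.IsHomogeneous (2 * G.g + 1) :=
      .of_map (algebraMap k (AlgebraicClosure k)).injective (eP ▸ G.homP)
    have hQ : Q.IsHomogeneous (2 * G.h + 1) :=
      .of_map (algebraMap k (AlgebraicClosure k)).injective (eQ ▸ G.homQ)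
    have eE : ∀ r, G.E r = map (algebraMap k _) (eqs P Q r) := fun r => by
      rw [← eqs_map, eP, eQ]
    have nrm : ∀ {R : Type} [CommRing R] {w : Vr → R}, Nrm s w → nu G.g G.h w s = 1 :=
      fun h => by rw [nu_eq, h.1, h.2.1, h.2.2.1, h.2.2.2]; simp
    have cn : ∀ x : Vr → AlgebraicClosure k, (∀ f ∈ JB P Q s, aeval x f = 0) →
        G.Cn (.base _) x := fun x hx => by
      obtain ⟨h1, h2⟩ := (jb_iff x).1 hx
      exact ⟨hU.nz.1 fun e => one_ne_zero ((nrm h1).symm.trans (congrFun e s)),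
        fun r => by rw [eE]; exact (aeval_map_algebraMap _ x _).trans (h2 r)⟩
    have top : Ideal.span (Set.range fun j : Vr × Vr =>
        mnr (fun r l => pderiv l (eqs P Q r)) j.1 j.2) ⊔ JB P Q s = ⊤ := by
      rw [← Ideal.radical_eq_top, ← vanishingIdeal_zeroLocus_eq_radical (K := AlgebraicClosure k),
        eq_top_iff]
      intro f _ x hx
      obtain ⟨μ, ν, hm⟩ := h0.sm G (.base _) x (cn x fun f hf => hx f (Ideal.mem_sup_right hf))
      have := hx _ (Ideal.mem_sup_left (Ideal.subset_span ⟨(μ, ν), rfl⟩))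
      have e : ∀ r l, G.row (.base _) x r l = aeval x (pderiv l (eqs P Q r)) := fun r l => by
        rw [GD.row, eE, pderiv_map]
        exact aeval_map_algebraMap _ x _
      simp only [mnr, map_sub, map_mul, e] at hm this
      exact (hm this).elim
    obtain ⟨u, hu, v, hv, huv⟩ := Submodule.mem_sup.1 ((Ideal.eq_top_iff_one _).1 top)
    obtain ⟨a, rfl⟩ := Ideal.mem_span_range_iff_exists_fun.1 hu
    have ha := eq_sub_of_add_eq' huv ▸ hv
    have ev : ∀ {σ R : Type} [CommRing R] [Algebra k R] {J : Ideal (MvPolynomial σ k)}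
        (φ : (MvPolynomial σ k ⧸ J) →ₐ[k] R), ∀ f ∈ J,
        aeval (fun l => φ (Ideal.Quotient.mk J (X l))) f = 0 := fun {σ R} _ _ J φ f hf => by
      have := comp_aeval (f := X) (φ.comp (Ideal.Quotient.mkₐ k J))
      rw [aeval_X_left] at this
      refine (AlgHom.congr_fun this f).symm.trans ?_
      change φ (Ideal.Quotient.mk J f) = 0
      rw [Ideal.Quotient.eq_zero_iff_mem.2 hf, map_zero]
    have sB : Algebra.Smooth k (MvPolynomial Vr k ⧸ JB P Q s) :=
      ⟨.of_comp_surjective fun B _ _ N hN φ => by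
        obtain ⟨w, h1, h2⟩ := lift_pt hP hQ ha hN (ev φ)
        refine ⟨Ideal.Quotient.liftₐ _ (aeval w) h2, Ideal.Quotient.algHom_ext k
          (MvPolynomial.algHom_ext fun l => ?_)⟩
        exact (congrArg (Ideal.Quotient.mk N) (aeval_X w l)).trans (h1 l),
      Algebra.FinitePresentation.of_finiteType.1 inferInstance⟩
    have rad : (JB P Q s).radical = JB P Q s :=
      ((Ideal.isRadical_iff_quotient_reduced _).2 (Model.smooth_reduced k _)).radical
    have key : ∀ F ∈ twI G.g G.h P Q, aeval (nu G.g G.h X) F ∈ JB P Q s := fun F hF => by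
      rw [← rad, ← vanishingIdeal_zeroLocus_eq_radical (K := AlgebraicClosure k)]
      intro x hx
      have := hL.zl (cn x hx) (map (algebraMap k _) F) (by
        have := mem_map (K := AlgebraicClosure k) hF
        rwa [eP, eQ] at this)
      rw [← AlgHom.comp_apply, comp_aeval]
      simp only [map_nu, aeval_X]
      exact (aeval_map_algebraMap _ _ _).symm.trans this
    refine ⟨.of_comp_surjective fun B _ _ N hN φ => ?_,
      Algebra.FinitePresentation.of_finiteType.1 inferInstance⟩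
    have z := ev φ
    obtain ⟨r1, r2, r3⟩ := hU.ring hP hQ s _ (fun F hF => z F (Ideal.mem_sup_left hF))
      (by simpa [sub_eq_zero] using z _ (Ideal.mem_sup_right (Ideal.mem_span_singleton_self _)))
    obtain ⟨w, h1, h2⟩ := lift_pt hP hQ ha hN ((jb_iff _).2 ⟨r3, r1⟩)
    refine ⟨Ideal.Quotient.liftₐ _ (aeval (nu G.g G.h w)) fun f hf => ?_,
      Ideal.Quotient.algHom_ext k (MvPolynomial.algHom_ext fun l => ?_)⟩
    · refine (sup_le (fun F hF => ?_) (Ideal.span_le.2 ?_) :
        _ ≤ RingHom.ker (aeval (nu G.g G.h w))) hf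
      · have := h2 _ (key F hF)
        rw [← AlgHom.comp_apply, comp_aeval] at this
        simp only [map_nu, aeval_X] at this
        exact this
      · rintro _ rfl
        simpa [sub_eq_zero] using nrm ((jb_iff w).1 h2).1
    · refine (congrArg (Ideal.Quotient.mk N) (aeval_X _ l)).trans ?_
      rw [map_nu]
      simp only [h1]
      exact congrFun r2 l

end Pool.Agent.Lib.MP_557161_ag.HG.TW.P2
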