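import Pool.Agent.Lib.MP_557161_ag.TW.StV
import Pool.Agent.Lib.MP_557161_ag.HN.YP1

/-!
Elimination of a variable, and a simple root of a polynomial over a discrete valuation ring.
-/

namespace Pool.Agent.Lib.MP_557161_ag.HG.TW.P2.YPa

open Pool.Agent.Lib.MP_557161_ag.DL MvPolynomial

variable {K : Type} [Field K] {σ : Type} [DecidableEq σ]

/-- The shift of a point in one coordinate. -/
def sh {S : Type} [CommRing S] (z : σ → S) (μ : σ) (c : S) : σ → S :=
  fun s => z s + c * if s = μ then 1 else 0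

lemma sh_self {S : Type} [CommRing S] (z : σ → S) (μ : σ) (c : S) : sh z μ c μ = z μ + c := by
  simp [sh]

lemma sh_ne {S : Type} [CommRing S] (z : σ → S) {μ s : σ} (c : S) (h : s ≠ μ) :
    sh z μ c s = z s := by
  simp [sh, h]

lemma sh_zero {S : Type} [CommRing S] (z : σ → S) (μ : σ) : sh z μ 0 = z :=
  funext fun s => by simp [sh]

lemma sh_rel {M L : Fld K} {R : Rel M L} {z : σ → M} {z' : σ → L} (h : ∀ s, R.r (z s) (z' s))
    (μ : σ) {c : M} (hc : R.r c 0) (s : σ) : R.r (sh z μ c s) (z' s) := by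
  simpa [sh] using R.add (h s) (R.mul hc (Rel.ite (s = μ) R.one R.zero))

lemma elim (A E P : MvPolynomial σ K) (μ : σ) : ∃ (N : ℕ) (F : MvPolynomial σ K),
    ∀ (S : Type) [CommRing S] [Algebra K S] (z : σ → S) (c : S), aeval z E + c * aeval z A = 0 →
      aeval z F = aeval z A ^ N * aeval (sh z μ c) P := by
  induction P using MvPolynomial.induction_on with
  | C a => exact ⟨0, C a, fun S _ _ z c _ => by simp⟩
  | add f g hf hg =>
    obtain ⟨N, F, h⟩ := hf
    obtain ⟨N', F', h'⟩ := hg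
    refine ⟨N + N', A ^ N' * F + A ^ N * F', fun S _ _ z c e => ?_⟩
    simp only [map_add, map_mul, map_pow, h S z c e, h' S z c e]
    ring
  | mul_X f i hf =>
    obtain ⟨N, F, h⟩ := hf
    refine ⟨N + 1, F * (A * X i - if i = μ then E else 0), fun S _ _ z c e => ?_⟩
    rw [map_mul, map_mul, map_sub, map_mul, aeval_X, aeval_X, h S z c e]
    by_cases hi : i = μ
    · rw [if_pos hi, hi, sh_self]
      linear_combination (-(aeval z A ^ N * aeval (sh z μ c) f)) * e
    · rw [if_neg hi, sh_ne _ _ hi, map_zero]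
      ring

variable [Fintype σ]

lemma dual {L : Type} [Field L] [Algebra K L] (R v : σ → L) (P : MvPolynomial σ K) :
    aeval (fun s => TrivSqZeroExt.inl (R s) + DualNumber.eps * TrivSqZeroExt.inl (v s) :
      σ → DualNumber L) P = TrivSqZeroExt.inl (aeval R P) +
        DualNumber.eps * TrivSqZeroExt.inl (∑ s, aeval R (pderiv s P) * v s) := by
  obtain ⟨t, -, ht⟩ := YP_taylor (⊤ : Subring (DualNumber L)) (fun _ => trivial)
    (x := fun s => TrivSqZeroExt.inl (R s)) (v := fun s => TrivSqZeroExt.inl (v s))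
    (ρ := DualNumber.eps) (fun _ => trivial) (fun _ => trivial) trivial P
  have e : ∀ f, aeval (fun s => TrivSqZeroExt.inl (R s) : σ → DualNumber L) f =
      TrivSqZeroExt.inl (aeval R f) := fun f =>
    (comp_aeval_apply _ (TrivSqZeroExt.inlAlgHom K L L) f).symm
  rw [ht, pow_two, DualNumber.eps_mul_eps, zero_mul, add_zero, TrivSqZeroExt.inl_sum]
  simp only [e, TrivSqZeroExt.inl_mul]

lemma der {L : Type} [Field L] [Algebra K L] {E P F : MvPolynomial σ K} {μ : σ} (ν : σ) {N : ℕ}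
    (hF : ∀ (S : Type) [CommRing S] [Algebra K S] (z : σ → S) (c : S),
      aeval z E + c * aeval z (pderiv μ E) = 0 →
      aeval z F = aeval z (pderiv μ E) ^ N * aeval (sh z μ c) P) {R : σ → L} (hE : aeval R E = 0)
    (hP : aeval R P = 0) (hA : aeval R (pderiv μ E) ≠ 0)
    (hm : aeval R (pderiv μ E) * aeval R (pderiv ν P) -
      aeval R (pderiv ν E) * aeval R (pderiv μ P) ≠ 0) :
    aeval R F = 0 ∧ aeval R (pderiv ν F) ≠ 0 := by
  refine ⟨by rw [hF L R 0 (by rw [hE, zero_mul, add_zero]), sh_zero, hP, mul_zero], fun h0 => ?_⟩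
  set a := aeval R (pderiv μ E)
  set b := aeval R (pderiv ν E)
  have h := hF (DualNumber L) (fun s => TrivSqZeroExt.inl (R s) +
    DualNumber.eps * TrivSqZeroExt.inl (if s = ν then 1 else 0))
    (DualNumber.eps * TrivSqZeroExt.inl (-(b / a))) (by
      rw [dual, dual, hE]
      ext <;> simp [a, b, hA])
  have e : sh (fun s => TrivSqZeroExt.inl (R s) +
      DualNumber.eps * TrivSqZeroExt.inl (if s = ν then 1 else 0) : σ → DualNumber L) μ
      (DualNumber.eps * TrivSqZeroExt.inl (-(b / a))) = fun s => TrivSqZeroExt.inl (R s) +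
        DualNumber.eps * TrivSqZeroExt.inl ((if s = ν then 1 else 0) -
          b / a * if s = μ then 1 else 0) := funext fun s => by
    simp only [sh]
    generalize (if s = ν then 1 else 0 : L) = u
    by_cases h1 : s = μ
    · rw [if_pos h1, if_pos h1]
      ext <;> simp [sub_eq_add_neg]
    · rw [if_neg h1, if_neg h1]
      ext <;> simp
  rw [e, dual, dual, dual, hP] at h
  have h1 := congrArg TrivSqZeroExt.snd h
  simp [h0, mul_sub, Finset.sum_sub_distrib] at h1
  change 0 = a ^ N * _ - a ^ N * _ at h1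
  refine hm (mul_left_cancel₀ (pow_ne_zero N hA) ?_)
  linear_combination (-a) * h1 + a ^ N * aeval R (pderiv μ P) * b * mul_inv_cancel₀ hA

lemma factor {O k : Type} [CommRing O] [IsDomain O] [UniqueFactorizationMonoid O] [Field k]
    (φ : O →+* k) (h : Polynomial O) (h0 : φ (h.coeff 0) = 0) (h1 : φ (h.coeff 1) ≠ 0) :
    ∃ g : Polynomial O, Irreducible g ∧ g ∣ h ∧ φ (g.coeff 0) = 0 ∧ φ (g.coeff 1) ≠ 0 := by
  induction h using WfDvdMonoid.induction_on_irreducible with
  | zero => simp at h1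
  | unit u hu =>
    obtain ⟨r, -, rfl⟩ := Polynomial.isUnit_iff.1 hu
    simp at h1
  | mul a i _ hi ih =>
    rw [Polynomial.mul_coeff_zero, map_mul, mul_eq_zero] at h0
    rw [Polynomial.mul_coeff_one, map_add, map_mul, map_mul] at h1
    rcases h0 with h0 | h0
    · exact ⟨i, hi, dvd_mul_right _ _, h0, fun e => h1 (by rw [h0, e]; ring)⟩
    · obtain ⟨g, g1, g2, g3⟩ := ih h0 fun e => h1 (by rw [h0, e]; ring)
      exact ⟨g, g1, g2.mul_left _, g3⟩

lemma root {M₀ : Fld K} (O : Pl M₀) (hO : O.IsDVR) (h : Polynomial M₀) (hc : ∀ n, h.coeff n ∈ O.O)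
    (h0 : O.rd (h.coeff 0) = 0) (h1 : O.rd (h.coeff 1) ≠ 0) :
    ∃ (M : Fld K) (β : M₀ →ₐ[K] M) (Θ : M) (g : Polynomial M₀), Gen β Θ ∧
      (∀ n, g.coeff n ∈ O.O) ∧ O.rd (g.coeff 0) = 0 ∧ O.rd (g.coeff 1) ≠ 0 ∧
      (∀ f : Polynomial M₀, f.eval₂ β.toRingHom Θ = 0 ↔ g ∣ f) ∧ g ∣ h := by
  have : IsDiscreteValuationRing O.O := hO
  obtain ⟨h', rfl⟩ := (Polynomial.mem_lifts (f := algebraMap O.O M₀) h).1
    ((Polynomial.lifts_iff_coeff_lifts _).2 fun n => ⟨⟨_, hc n⟩, rfl⟩)
  have e : ∀ (f : Polynomial O.O) n, O.rd ((f.map (algebraMap O.O M₀)).coeff n) =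
      O.rh (f.coeff n) := fun f n => by
    rw [Polynomial.coeff_map]
    exact O.rd_coe _
  rw [e] at h0 h1
  obtain ⟨g, g1, g2, g3, g4⟩ := factor O.rh h' h0 h1
  have g5 : g.natDegree ≠ 0 := fun e' => g4 (by
    rw [Polynomial.coeff_eq_zero_of_natDegree_lt (by omega), map_zero])
  have : Fact (Irreducible (g.map (algebraMap O.O M₀))) :=
    ⟨((g1.isPrimitive g5).irreducible_iff_irreducible_map_fraction_map).1 g1⟩
  refine ⟨⟨AdjoinRoot (g.map (algebraMap O.O M₀))⟩, IsScalarTower.toAlgHom K M₀ _,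
    AdjoinRoot.root _, _, fun x => ?_, fun n => ?_, (e g 0).trans g3, (e g 1).trans_ne g4,
    fun f => ?_, Polynomial.map_dvd _ g2⟩
  · obtain ⟨P, rfl⟩ := AdjoinRoot.mk_surjective x
    refine ⟨P, 1, by simp, ?_⟩
    rw [Polynomial.eval₂_one, mul_one]
    exact (AdjoinRoot.aeval_eq P).symm
  · rw [Polynomial.coeff_map]
    exact (g.coeff n).2
  · exact (AdjoinRoot.aeval_eq f).congr_left.trans AdjoinRoot.mk_eq_zero

lemma poly {M₀ : Fld K} (x : σ → M₀) (ν : σ) (F : MvPolynomial σ K) : ∃ h : Polynomial M₀,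
    h.coeff 0 = aeval x F ∧ h.coeff 1 = aeval x (pderiv ν F) ∧
    (∀ O : Pl M₀, (∀ s, x s ∈ O.O) → ∀ n, h.coeff n ∈ O.O) ∧
    ∀ (M : Fld K) (β : M₀ →ₐ[K] M) (Θ : M),
      h.eval₂ β.toRingHom Θ = aeval (sh (fun s => β (x s)) ν Θ) F := by
  let P : σ → Polynomial M₀ := fun s => Polynomial.C (x s) + Polynomial.X * if s = ν then 1 else 0
  obtain ⟨t, -, ht⟩ := YP_taylor (⊤ : Subring (Polynomial M₀)) (fun _ => trivial)
    (x := fun s => Polynomial.C (x s)) (v := fun s => if s = ν then 1 else 0) (ρ := Polynomial.X)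
    (fun _ => trivial) (fun _ => trivial) trivial F
  have eC : ∀ f, aeval (fun s => Polynomial.C (x s)) f = Polynomial.C (aeval x f) := fun f =>
    (comp_aeval_apply _ (Polynomial.CAlgHom : M₀ →ₐ[K] _) f).symm
  simp only [eC, mul_ite, mul_one, mul_zero, Finset.sum_ite_eq', Finset.mem_univ, if_true] at ht
  refine ⟨aeval P F, ?_, ?_, fun O hO n => ?_, fun M β Θ => ?_⟩
  · simp only [P, mul_ite, mul_one, mul_zero]
    rw [ht]
    generalize aeval x F = a, aeval x (pderiv ν F) = b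
    simp [pow_two, mul_assoc]
  · simp only [P, mul_ite, mul_one, mul_zero]
    rw [ht]
    generalize aeval x F = a, aeval x (pderiv ν F) = b
    simp [pow_two, mul_assoc, Polynomial.coeff_X_mul, Polynomial.coeff_C]
  · have hC : ∀ c ∈ O.O, Polynomial.C c ∈ Polynomial.lifts O.O.subtype := fun c h =>
      Polynomial.C_mem_lifts O.O.subtype ⟨c, h⟩
    have : aeval P F ∈ Polynomial.lifts O.O.subtype :=
      eval₂_mem (f := algebraMap K _) (v := P) (p := F) (fun _ _ => hC _ (O.const _))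
        fun s => add_mem (hC _ (hO s))
        (mul_mem (Polynomial.X_mem_lifts _) (by split_ifs; exacts [one_mem _, zero_mem _]))
    obtain ⟨c, hc⟩ := (Polynomial.lifts_iff_coeff_lifts _).1 this n
    exact hc ▸ c.2
  · refine (comp_aeval_apply _ (Polynomial.aevalTower β Θ) _).trans ?_
    congr 2
    funext s
    simp only [P, sh, map_add, map_mul, Polynomial.aevalTower_C, Polynomial.aevalTower_X]
    split_ifs <;> simp

end Pool.Agent.Lib.MP_557161_ag.HG.TW.P2.YPa
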