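import Pool.Agent.Lib.MP_557161_ag.TW.StW
import Pool.Agent.Lib.MP_557161_ag.DL.PD4

/-!
Composita of fields over an algebraically closed field.
-/

namespace Pool.Agent.Lib.MP_557161_ag.HG.TW.P2

open Pool.Agent.Lib.MP_557161_ag.DL Algebra.TensorProduct
open scoped TensorProduct

namespace CEa

section Alg

variable {K A A' B C N N' : Type} [Field K] [Field A] [Field A'] [Field B] [Field N] [Field N']
  [Algebra K A] [Algebra K A'] [Algebra K B] [Algebra K N] [Algebra K N'] [CommRing C] [Algebra K C]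
  {σ τ : Type} {S : σ → A} {T : τ → B}

lemma fin_sub (z : A ⊗[K] B) : ∃ s : Finset A, ∀ R : Subalgebra K A, (s : Set A) ⊆ R →
    z ∈ (map R.val (AlgHom.id K B)).range := by
  classical
  induction z with
  | zero => exact ⟨∅, fun _ _ => zero_mem _⟩
  | tmul a b => exact ⟨{a}, fun R h => ⟨(⟨a, h (by simp)⟩ : R) ⊗ₜ b, rfl⟩⟩
  | add u v hu hv =>
    obtain ⟨s, hs⟩ := hu
    obtain ⟨t, ht⟩ := hv
    exact ⟨s ∪ t, fun R h => add_mem (hs R fun x hx => h (by simp [Finset.mem_coe.1 hx]))
      (ht R fun x hx => h (by simp [Finset.mem_coe.1 hx]))⟩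

lemma map_inj {X Y X' Y' : Type} [CommRing X] [CommRing Y] [CommRing X'] [CommRing Y']
    [Algebra K X] [Algebra K Y] [Algebra K X'] [Algebra K Y'] {f : X →ₐ[K] X'} {g : Y →ₐ[K] Y'}
    (hf : Function.Injective f) (hg : Function.Injective g) : Function.Injective (map f g) :=
  TensorProduct.map_injective_of_flat_flat f.toLinearMap g.toLinearMap hf hg

variable (K A B) in
lemma dom [IsAlgClosed K] : IsDomain (A ⊗[K] B) := by
  classical
  have : NoZeroDivisors (A ⊗[K] B) := ⟨fun {z w} h => by
    obtain ⟨s, hs⟩ := fin_sub z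
    obtain ⟨t, ht⟩ := fin_sub w
    let R := Algebra.adjoin K ((s ∪ t : Finset A) : Set A)
    have : Algebra.FiniteType K R := (Subalgebra.fg_iff_finiteType _).1 ⟨_, rfl⟩
    have := PD.tensor_isDomain (K := K) (A := R) (B := B)
    obtain ⟨z, rfl⟩ := hs R fun x hx => Algebra.subset_adjoin (by simp [Finset.mem_coe.1 hx])
    obtain ⟨w, rfl⟩ := ht R fun x hx => Algebra.subset_adjoin (by simp [Finset.mem_coe.1 hx])
    have e : z * w = 0 := map_inj (f := R.val) (g := AlgHom.id K B) Subtype.val_injective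
      Function.injective_id (by rw [map_mul, map_zero]; exact h)
    rcases mul_eq_zero.1 e with rfl | rfl
    exacts [Or.inl (map_zero _), Or.inr (map_zero _)]⟩
  exact NoZeroDivisors.to_isDomain _

lemma alg1 [IsDomain C] (φ : A →ₐ[K] C) (hS : IsTranscendenceBasis K S) (R : Subalgebra K C)
    (h : ∀ i, φ (S i) ∈ R) (a : A) : IsAlgebraic R (φ a) := by
  have e : ∀ x : Algebra.adjoin K (Set.range S), φ x ∈ R := fun x =>
    (Algebra.adjoin_le (S := R.comap φ) (by rintro _ ⟨i, rfl⟩; exact h i)) x.2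
  let f : Algebra.adjoin K (Set.range S) →+* R :=
    (φ.toRingHom.comp (Algebra.adjoin K (Set.range S)).val.toRingHom).codRestrict R e
  exact (hS.isAlgebraic.1 a).ringHom_of_comp_eq f φ.toRingHom
    (fun x y e => Subtype.ext (φ.toRingHom.injective (congrArg Subtype.val e))) rfl

/-- The union of two families. -/
def un (φ : A →ₐ[K] C) (ψ : B →ₐ[K] C) (S : σ → A) (T : τ → B) : σ ⊕ τ → C :=
  Sum.elim (fun i => φ (S i)) fun i => ψ (T i)

lemma alg2 [IsDomain C] (φ : A →ₐ[K] C) (ψ : B →ₐ[K] C) (hS : IsTranscendenceBasis K S)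
    (hT : IsTranscendenceBasis K T) (z : A ⊗[K] B) :
    IsAlgebraic (Algebra.adjoin K (Set.range (un φ ψ S T))) (productMap φ ψ z) := by
  induction z with
  | zero => rw [map_zero]; exact isAlgebraic_zero
  | tmul a b =>
    exact (alg1 φ hS _
      (fun i => Algebra.subset_adjoin (Set.mem_range_self (f := un φ ψ S T) (.inl i))) a).mul
      (alg1 ψ hT _
        (fun i => Algebra.subset_adjoin (Set.mem_range_self (f := un φ ψ S T) (.inr i))) b)
  | add u v hu hv => rw [map_add]; exact hu.add hv

/-- Every element is a quotient. -/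
def Qt (φ : A →ₐ[K] N) (ψ : B →ₐ[K] N) : Prop :=
  ∀ x : N, ∃ a b, x = productMap φ ψ a / productMap φ ψ b

lemma alg3 {φ : A →ₐ[K] N} {ψ : B →ₐ[K] N} (h : Qt φ ψ) (hS : IsTranscendenceBasis K S)
    (hT : IsTranscendenceBasis K T) :
    Algebra.IsAlgebraic (Algebra.adjoin K (Set.range (un φ ψ S T))) N := ⟨fun x => by
  obtain ⟨a, b, rfl⟩ := h x
  rw [div_eq_mul_inv]
  exact (alg2 φ ψ hS hT a).mul (alg2 φ ψ hS hT b).inv⟩

lemma pm_id (z : A ⊗[K] B) : productMap includeLeft includeRight z = z := by
  induction z with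
  | zero => exact map_zero _
  | tmul a b => simp
  | add u v hu hv => rw [map_add, hu, hv]

lemma aeval_un (φ : A →ₐ[K] C) (ψ : B →ₐ[K] C) (P : MvPolynomial (σ ⊕ τ) K) :
    productMap φ ψ (MvPolynomial.aeval (un includeLeft includeRight S T) P) =
      MvPolynomial.aeval (un φ ψ S T) P := by
  rw [← AlgHom.comp_apply, MvPolynomial.comp_aeval]
  congr 2
  funext i
  cases i <;> simp [un]

lemma inj [IsAlgClosed K] {φ : A →ₐ[K] N} {ψ : B →ₐ[K] N} (hS : IsTranscendenceBasis K S)
    (hT : IsTranscendenceBasis K T) (h : AlgebraicIndependent K (un φ ψ S T)) :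
    Function.Injective (productMap φ ψ) := by
  have := dom K A B
  refine (injective_iff_map_eq_zero _).2 fun z hz => by_contra fun h0 => ?_
  have h1 := alg2 (C := A ⊗[K] B) includeLeft includeRight hS hT z
  rw [pm_id] at h1
  obtain ⟨⟨r, hr⟩, h2, w, h3⟩ := h1.exists_nonzero_dvd (mem_nonZeroDivisors_of_ne_zero h0)
  have hr' := hr
  rw [Algebra.adjoin_range_eq_range_aeval] at hr'
  obtain ⟨P, hP⟩ := hr'
  have h4 : MvPolynomial.aeval (un φ ψ S T) P = 0 := by
    rw [← aeval_un, show MvPolynomial.aeval _ P = z * w from hP.trans h3, map_mul, hz, zero_mul]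
  obtain rfl : P = 0 := h (h4.trans (map_zero _).symm)
  exact h2 (Subtype.ext (hP.symm.trans (map_zero _)))

lemma indep (hS : AlgebraicIndependent K S) (hT : AlgebraicIndependent K T) :
    AlgebraicIndependent K (un (C := A ⊗[K] B) includeLeft includeRight S T) := by
  have e : (MvPolynomial.aeval (un (C := A ⊗[K] B) includeLeft includeRight S T)).comp
      (MvPolynomial.tensorEquivSum K σ τ K).toAlgHom =
      map (MvPolynomial.aeval S) (MvPolynomial.aeval T) := by
    ext i <;> simp [un]
  have h : Function.Injective ((MvPolynomial.aeval (un (C := A ⊗[K] B) includeLeft includeRight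
      S T)).comp (MvPolynomial.tensorEquivSum K σ τ K).toAlgHom) := e ▸ map_inj hS hT
  exact Function.Injective.of_comp_right (g := MvPolynomial.tensorEquivSum K σ τ K) h
    (MvPolynomial.tensorEquivSum K σ τ K).surjective

lemma qt_iff (φ : A →ₐ[K] N) (ψ : B →ₐ[K] N) :
    IntermediateField.adjoin K (Set.range φ ∪ Set.range ψ) = ⊤ ↔ Qt φ ψ := by
  have e : Algebra.adjoin K (Set.range φ ∪ Set.range ψ) = (productMap φ ψ).range := by
    rw [productMap_range, Algebra.adjoin_union, ← AlgHom.coe_range, ← AlgHom.coe_range,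
      Algebra.adjoin_eq, Algebra.adjoin_eq]
  simp only [eq_top_iff, SetLike.le_def, IntermediateField.mem_top, forall_const,
    IntermediateField.mem_adjoin_iff_div, e, AlgHom.mem_range, exists_exists_eq_and]
  rfl

lemma pm_map (φ : A' →ₐ[K] N') (ψ : B →ₐ[K] N') (κ : A →ₐ[K] A') (z : A ⊗[K] B) :
    productMap φ ψ (map κ (AlgHom.id K B) z) = productMap (φ.comp κ) ψ z := by
  induction z with
  | zero => simp
  | tmul a b => simp
  | add u v hu hv => simp only [map_add, hu, hv]

lemma ex_lift {φ : A →ₐ[K] N} {ψ : B →ₐ[K] N} (h : Qt φ ψ)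
    (hi : Function.Injective (productMap φ ψ)) {g : A ⊗[K] B →ₐ[K] N'}
    (hg : Function.Injective g) : ∃ ρ : N →ₐ[K] N', ∀ z, ρ (productMap φ ψ z) = g z := by
  let := (productMap φ ψ).toRingHom.toAlgebra
  have : IsScalarTower K (A ⊗[K] B) N :=
    IsScalarTower.of_algebraMap_eq fun x => ((productMap φ ψ).commutes x).symm
  have : FaithfulSMul (A ⊗[K] B) N := (faithfulSMul_iff_algebraMap_injective _ _).2 hi
  have : IsFractionRing (A ⊗[K] B) N := .of_field _ _ h
  exact ⟨IsFractionRing.liftAlgHom hg, fun z => IsFractionRing.lift_algebraMap hg z⟩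

lemma rank_eq [Algebra A A'] [IsScalarTower K A A'] [Algebra N N'] [IsScalarTower K N N']
    [Module.Finite A A'] [Module.Finite N N'] {φ : A →ₐ[K] N} {ψ : B →ₐ[K] N} {φ' : A' →ₐ[K] N'}
    {ψ' : B →ₐ[K] N'} (h : Qt φ ψ) (hi : Function.Injective (productMap φ ψ)) (h' : Qt φ' ψ')
    (hi' : Function.Injective (productMap φ' ψ'))
    (e₁ : ∀ a, algebraMap N N' (φ a) = φ' (algebraMap A A' a))
    (e₂ : ∀ b, algebraMap N N' (ψ b) = ψ' b) : Module.finrank N N' = Module.finrank A A' := by
  classical
  let b := Module.finBasis A A'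
  let κ := IsScalarTower.toAlgHom K A A'
  have e : ∀ z, algebraMap N N' (productMap φ ψ z) = productMap φ' ψ' (map κ (AlgHom.id K B) z) := by
    intro z
    induction z with
    | zero => simp
    | tmul a b => simp [e₁, e₂, κ]
    | add u v hu hv => simp only [map_add, hu, hv]
  have hc : ∀ i j (z : A ⊗[K] B), LinearMap.rTensor B ((b.coord i).restrictScalars K)
      (map κ (AlgHom.id K B) z * (b j ⊗ₜ 1)) = if j = i then z else 0 := by
    intro i j z
    induction z with
    | zero => simp
    | tmul a c =>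
      simp only [map_tmul, κ, IsScalarTower.coe_toAlgHom', AlgHom.id_apply, tmul_mul_tmul, mul_one,
        LinearMap.rTensor_tmul, LinearMap.coe_restrictScalars, ← Algebra.smul_def, map_smul,
        Module.Basis.coord_apply, Module.Basis.repr_self, Finsupp.single_apply, smul_eq_mul]
      split_ifs <;> simp
    | add u v hu hv =>
      rw [map_add, add_mul, map_add, hu, hv]
      split_ifs <;> simp
  have li : LinearIndependent N fun i => φ' (b i) := by
    let := (productMap φ ψ).toRingHom.toAlgebra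
    let := ((algebraMap N N').comp (productMap φ ψ).toRingHom).toAlgebra
    have : IsScalarTower (A ⊗[K] B) N N' := IsScalarTower.of_algebraMap_eq fun _ => rfl
    have : FaithfulSMul (A ⊗[K] B) N := (faithfulSMul_iff_algebraMap_injective _ _).2 hi
    have : IsFractionRing (A ⊗[K] B) N := .of_field _ _ h
    refine (LinearIndependent.iff_fractionRing (A ⊗[K] B) N).1
      (Fintype.linearIndependent_iff.2 fun z hz i => ?_)
    have h1 : ∑ j, map κ (AlgHom.id K B) (z j) * (b j ⊗ₜ 1) = 0 := hi' (by
      rw [map_zero, ← hz, map_sum]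
      refine Finset.sum_congr rfl fun j _ => ?_
      rw [map_mul, ← e, productMap_apply_tmul, map_one, mul_one]
      rfl)
    have h2 := congrArg (LinearMap.rTensor B ((b.coord i).restrictScalars K)) h1
    rwa [map_sum, map_zero, Finset.sum_congr rfl fun j _ => hc i j (z j), Finset.sum_ite_eq',
      if_pos (Finset.mem_univ _)] at h2
  have sp : ⊤ ≤ Submodule.span N (Set.range fun i => φ' (b i)) := by
    have h1 : IntermediateField.adjoin N (Set.range φ') = ⊤ := by
      refine top_unique fun x _ => ?_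
      have h2 : ∀ z, productMap φ' ψ' z ∈ IntermediateField.adjoin N (Set.range φ') := by
        intro z
        induction z with
        | zero => rw [map_zero]; exact zero_mem _
        | tmul a c =>
          rw [productMap_apply_tmul, ← e₂]
          exact mul_mem (IntermediateField.subset_adjoin _ _ ⟨a, rfl⟩)
            (IntermediateField.algebraMap_mem _ _)
        | add u v hu hv => rw [map_add]; exact add_mem hu hv
      obtain ⟨u, w, rfl⟩ := h' x
      exact div_mem (h2 u) (h2 w)
    have h3 := congrArg Subalgebra.toSubmodule ((IntermediateField.adjoin_eq_top_iff_of_isAlgebraic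
      fun x _ => Algebra.IsAlgebraic.isAlgebraic x).1 h1)
    rw [Algebra.adjoin_eq_span, Algebra.top_toSubmodule] at h3
    rw [← h3, Submodule.span_le]
    intro x hx
    obtain ⟨a, rfl⟩ : x ∈ MonoidHom.mrange φ'.toMonoidHom :=
      (Submonoid.closure_le.2 (by rintro _ ⟨a, rfl⟩; exact ⟨a, rfl⟩)) hx
    change φ' a ∈ Submodule.span N _
    rw [← b.sum_repr a, map_sum]
    refine Submodule.sum_mem _ fun i _ => ?_
    rw [Algebra.smul_def, map_mul, ← e₁, ← Algebra.smul_def]
    exact Submodule.smul_mem _ _ (Submodule.subset_span ⟨i, rfl⟩)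
  rw [Module.finrank_eq_card_basis (Module.Basis.mk li sp), Fintype.card_fin]

end Alg

variable {K : Type} [Field K] [Base K]

omit [Base K] in
lemma basis {k : ℕ} {A : Fld K} (h : Good k A) :
    ∃ (σ : Type) (_ : Finite σ) (S : σ → A), IsTranscendenceBasis K S ∧ Cardinal.mk σ = k := by
  obtain ⟨σ, S, hS⟩ := exists_isTranscendenceBasis' K A
  have e : Cardinal.mk σ = k := hS.cardinalMk_eq_trdeg.trans h.2
  exact ⟨σ, Cardinal.lt_aleph0_iff_finite.1 (e ▸ Cardinal.natCast_lt_aleph0), S, hS, e⟩

lemma cmp_inj {k j : ℕ} {A B N : Fld K} {ι : A →ₐ[K] N} {α : B →ₐ[K] N} (h : Cmp k j ι α) :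
    Qt ι α ∧ Function.Injective (productMap ι α) := by
  have q : Qt ι α := (qt_iff ι α).1 h.top
  obtain ⟨σ, _, S, hS, e⟩ := basis h.gA
  obtain ⟨τ, _, T, hT, e'⟩ := basis h.gB
  have := alg3 q hS hT
  refine ⟨q, inj hS hT
    (Algebra.IsAlgebraic.isTranscendenceBasis_of_le_trdeg_of_finite K (un ι α S T) ?_).1⟩
  have e'' : Algebra.trdeg K N = (k + j : ℕ) := h.gN.2
  simp [e, e', e'']

end CEa

open CEa in
theorem CE_thm {K : Type} [Field K] [Base K] : CE K where
  ex {k j A B} hA hB := by
    have := dom K A B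
    obtain ⟨σ, _, S, hS, e⟩ := basis hA
    obtain ⟨τ, _, T, hT, e'⟩ := basis hB
    let N : Fld K := ⟨FractionRing (A ⊗[K] B)⟩
    let μ : A ⊗[K] B →ₐ[K] N := IsScalarTower.toAlgHom K (A ⊗[K] B) (FractionRing (A ⊗[K] B))
    have hμ : Function.Injective μ := IsFractionRing.injective (A ⊗[K] B) _
    have e1 : ∀ z, productMap (μ.comp includeLeft) (μ.comp includeRight) z = μ z := by
      intro z
      induction z with
      | zero => simp
      | tmul a b => simp [← map_mul]
      | add u v hu hv => simp only [map_add, hu, hv]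
    have q : Qt (μ.comp includeLeft) (μ.comp includeRight) := fun x => by
      obtain ⟨a, b, -, h⟩ := IsFractionRing.div_surjective (A := A ⊗[K] B) x
      exact ⟨a, b, by rw [e1, e1]; exact h.symm⟩
    refine ⟨N, μ.comp includeLeft, μ.comp includeRight, hA, hB, ⟨?_, ?_⟩, (qt_iff _ _).2 q⟩
    · have := hA.1
      have := hB.1
      have : Algebra.EssFiniteType K (A ⊗[K] B) := .comp K A (A ⊗[K] B)
      exact inferInstanceAs (Algebra.EssFiniteType K (Localization _))
    · have h1 : AlgebraicIndependent K (un (μ.comp includeLeft) (μ.comp includeRight) S T) := by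
        have h2 := (indep hS.1 hT.1).map' (f := μ) hμ
        convert h2 using 1
        funext i
        cases i <;> rfl
      have h2 := (h1.isTranscendenceBasis_iff_isAlgebraic.2 (alg3 q hS hT)).cardinalMk_eq_trdeg
      refine h2.symm.trans ?_
      simp [e, e']
  lift {k k' j A A' B N N' ι α ι' α'} h h' κ := by
    obtain ⟨q, hi⟩ := cmp_inj h
    obtain ⟨q', hi'⟩ := cmp_inj h'
    obtain ⟨ρ, hρ⟩ := ex_lift q hi (g := (productMap ι' α').comp (map κ (AlgHom.id K B)))
      (hi'.comp (map_inj κ.toRingHom.injective Function.injective_id))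
    have e₁ : ∀ a, ρ (ι a) = ι' (κ a) := fun a => by simpa using hρ (a ⊗ₜ 1)
    have e₂ : ∀ b, ρ (α b) = α' b := fun b => by simpa using hρ (1 ⊗ₜ b)
    refine ⟨ρ, AlgHom.ext e₁, AlgHom.ext e₂, fun hk => ?_⟩
    subst hk
    let := κ.toRingHom.toAlgebra
    let := ρ.toRingHom.toAlgebra
    have : IsScalarTower K A A' := .of_algebraMap_eq fun x => (κ.commutes x).symm
    have : IsScalarTower K N N' := .of_algebraMap_eq fun x => (ρ.commutes x).symm
    have : Module.Finite A A' := Good.fin κ h'.gA h.gA.2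
    have : Module.Finite N N' := Good.fin ρ h'.gN h.gN.2
    exact rank_eq q hi q' hi' e₁ e₂

end Pool.Agent.Lib.MP_557161_ag.HG.TW.P2
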