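import Pool.Agent.Lib.MP_557161_ag.TW.StZ2
import Pool.Agent.Lib.MP_557161_ag.HG.ZB

/-!
The multiplicities when the form of Frobenius vanishes.
-/

namespace Pool.Agent.Lib.MP_557161_ag.HG.TW.P2

open Polynomial Finset ZBa

namespace ZB2a

lemma nat_of {σ : ℂ[X] →ₗ[ℂ] ℂ} {U : Finset ℂ} {μ : ℂ → ℂ} (hU : ∀ u ∈ U, u ^ 2 - 4 ≠ 0)
    (hσ : ∀ h, X ^ 2 - 4 ∣ h → σ h = ∑ u ∈ U, μ u * h.eval u) {r : ℕ} (hr : Zr σ r) {u : ℂ}
    (hu : u ∈ U) : ∃ n : ℕ, μ u = n := by
  by_contra h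
  push Not at h
  obtain ⟨c, c0, hc⟩ := val hσ r (fun _ => u) (fun _ => hu) fun v _ n hn => by
    obtain ⟨i, hi⟩ := card_pos.1 (hn.trans_le' (Nat.zero_le n))
    exact (mem_filter.1 hi).2 ▸ h n
  refine c0 ((hc (fun _ => (X ^ 2 - 4) * (C (u ^ 2 - 4)⁻¹ * Lagrange.basis U id u))
    fun i => ⟨dvd_mul_right _ _, fun v hv => ?_⟩).symm.trans (hr _ fun i => dvd_mul_right _ _))
  split_ifs with e
  · subst e
    have := Lagrange.eval_basis_self (v := id) (Set.injOn_id _) hv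
    simp only [id] at this
    simp [this, mul_inv_cancel₀ (hU _ hv)]
  · have := Lagrange.eval_basis_of_ne (v := id) (Ne.symm e) hv
    simp only [id] at this
    simp [this]

lemma sym {ν : ℂ →₀ ℤ}
    (h : ∀ m : ℕ, ∑ z ∈ ν.support, (ν z : ℂ) * z ^ (m : ℤ) =
      ∑ z ∈ ν.support, (ν z : ℂ) * z ^ (-m : ℤ)) (z : ℂ) : ν z⁻¹ = ν z := by
  let ν' : ℂ →₀ ℤ := ν - ν.equivMapDomain (Equiv.inv ℂ)
  have e : ∀ z, ν' z = ν z - ν z⁻¹ := fun _ => rfl
  have h1 := DL.T0.vanish ν'.support (fun z => (ν' z : ℂ)) 1 fun t _ => by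
    have h2 : (ν'.sum fun z c => (c : ℂ) * z ^ t) = 0 := by
      rw [Finsupp.sum_sub_index fun z a b => by rw [Int.cast_sub, sub_mul],
        Finsupp.sum_equivMapDomain, sub_eq_zero]
      simpa [Finsupp.sum] using h t
    rw [← C_1, sum_C_index (f := fun j (a : ℂ) => a * ∑ z ∈ ν'.support, (ν' z : ℂ) * z ^ (j + t))
      (zero_mul _), one_mul, zero_add]
    exact h2
  by_contra n
  have n1 : ν' z ≠ 0 := fun e' => n (by rw [e] at e'; omega)
  have n2 : z ≠ 0 := by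
    rintro rfl
    exact n (by rw [inv_zero])
  simpa using h1 z (Finsupp.mem_support_iff.2 n1) n2 (Int.cast_ne_zero.2 n1)

lemma disc {z : ℂ} (h : z ≠ 0) : (z + z⁻¹) ^ 2 - 4 = 0 ↔ z = 1 ∨ z = -1 := by
  constructor
  · intro a2
    have a4 : (z ^ 2 - 1) ^ 2 = 0 := by
      rw [← mul_zero (z ^ 2), ← a2]; field_simp; ring
    exact sq_eq_one_iff.1 (sub_eq_zero.1 (pow_eq_zero_iff two_ne_zero |>.1 a4))
  · rintro (rfl | rfl) <;> norm_num

end ZB2a

open ZB2a in
theorem ZB2_thm : ZB2 where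
  cnt σ r h ν ν0 hν := by
    obtain ⟨G, g0, g1⟩ := ann σ (zr σ h)
    obtain ⟨g, g2, g3⟩ := rec_of σ g0 g1
    have n0 : ∀ z ∈ ν.support, z ≠ 0 := fun z hz e => Finsupp.mem_support_iff.1 hz (e ▸ ν0)
    have h1 := all_int (ν := fun z => ν z) (s := fun m => σ (chC m)) n0 g2 g3 hν
    have h0 := sym (ν := ν) fun m => by rw [← h1, ← h1, chC, chC, Chebyshev.C_neg]
    have h2 : ∀ p, σ p = ∑ z ∈ ν.support, ν z / 2 * p.eval (z + z⁻¹) := fun p => by
      refine (ext_c (τ := ∑ z ∈ ν.support, ((ν z : ℂ) / 2) • leval (z + z⁻¹)) (fun m => ?_) p).trans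
        (by simp)
      have e := h1 (-m)
      rw [chC, Chebyshev.C_neg] at e
      refine Eq.trans (b := (σ (chC m) + σ (chC m)) / 2) (by ring) ?_
      nth_rewrite 1 [h1 m]
      rw [e, ← sum_add_distrib, sum_div, LinearMap.sum_apply]
      refine sum_congr rfl fun z hz => ?_
      rw [LinearMap.smul_apply, leval_apply, smul_eq_mul, eval_c (n0 z hz)]
      ring
    let S := ν.support.filter fun z => (z + z⁻¹) ^ 2 - 4 ≠ 0
    have h3 : ∀ f : ℂ → ℂ, ∑ u ∈ S.image (fun z => z + z⁻¹),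
        (∑ z ∈ S with z + z⁻¹ = u, (ν z : ℂ) / 2) * f u = ∑ z ∈ S, ν z / 2 * f (z + z⁻¹) := fun f => by
      refine (sum_congr rfl fun u _ => ?_).trans (sum_fiberwise_of_maps_to (g := fun z => z + z⁻¹)
        (fun z hz => mem_image_of_mem _ hz) _)
      rw [sum_mul]
      exact sum_congr rfl fun z hz => by rw [(mem_filter.1 hz).2]
    have k1 : ∀ u ∈ S.image fun z => z + z⁻¹, u ^ 2 - 4 ≠ 0 := fun u hu => by
      obtain ⟨z, hz, rfl⟩ := mem_image.1 hu
      exact (mem_filter.1 hz).2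
    have k2 : ∀ p : ℂ[X], X ^ 2 - 4 ∣ p → σ p = ∑ u ∈ S.image fun z => z + z⁻¹,
        (∑ z ∈ S with z + z⁻¹ = u, (ν z : ℂ) / 2) * p.eval u := fun p ⟨r, hr⟩ => by
      rw [h3 fun u => p.eval u, h2]
      refine (sum_filter_of_ne fun z _ e => ?_).symm
      exact fun e' => e (by simp [hr, e'])
    refine ⟨fun z z1 z2 => ?_, ?_⟩
    · by_cases hz : z ∈ ν.support
      swap
      · exact (Finsupp.notMem_support_iff.1 hz).ge
      have z0 := n0 z hz
      have z3 : z ∈ S := mem_filter.2 ⟨hz, fun e => ((disc z0).1 e).elim z1 z2⟩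
      have z4 : z ≠ z⁻¹ := fun e => (sq_eq_one_iff.1 (by
        rw [sq]; nth_rewrite 2 [e]; exact mul_inv_cancel₀ z0)).elim z1 z2
      obtain ⟨n, hn⟩ := nat_of k1 k2 (zr σ h) (mem_image_of_mem _ z3)
      have z5 : (S.filter fun w => w + w⁻¹ = z + z⁻¹) = {z, z⁻¹} := by
        ext w
        rw [mem_filter, mem_insert, mem_singleton]
        constructor
        · rintro ⟨a1, a2⟩
          have a3 := n0 w (mem_filter.1 a1).1
          have a4 : (w - z) * (w - z⁻¹) = 0 := by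
            linear_combination w * a2 - mul_inv_cancel₀ a3 + mul_inv_cancel₀ z0
          simpa only [mul_eq_zero, sub_eq_zero] using a4
        · rintro (rfl | rfl)
          · exact ⟨z3, rfl⟩
          · refine ⟨mem_filter.2 ⟨?_, ?_⟩, by rw [inv_inv, add_comm]⟩
            · rw [Finsupp.mem_support_iff, h0]
              exact Finsupp.mem_support_iff.1 hz
            · rw [inv_inv, add_comm]
              exact (mem_filter.1 z3).2
      rw [z5, sum_pair z4, h0, add_halves] at hn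
      have : ν z = n := by exact_mod_cast hn
      omega
    obtain ⟨n, hn, h4⟩ := core k1 k2 (zr σ h)
    have h5 := h3 fun _ => 1
    simp only [mul_one] at h5
    have h6 : ∑ z ∈ ν.support with ¬ (z + z⁻¹) ^ 2 - 4 ≠ 0, ν z = ν 1 + ν (-1) := by
      rw [← sum_pair (f := fun z => ν z) (by norm_num)]
      refine sum_subset (fun z hz => ?_) fun z hz hz' => ?_
      · obtain ⟨a1, a2⟩ := mem_filter.1 hz
        simpa using (disc (n0 z a1)).1 (not_not.1 a2)
      · by_contra e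
        have e1 := Finsupp.mem_support_iff.2 e
        exact hz' (mem_filter.2 ⟨e1, not_not.2 ((disc (n0 z e1)).2 (by simpa using hz))⟩)
    have h8 : ((∑ z ∈ S, ν z : ℤ) : ℂ) = 2 * n := by
      rw [← h4, h5, mul_sum, Int.cast_sum]
      exact sum_congr rfl fun z _ => by ring
    have h9 : ∑ z ∈ S, ν z = 2 * n := by exact_mod_cast h8
    rw [Finsupp.sum, ← sum_filter_add_sum_filter_not _ fun z => (z + z⁻¹) ^ 2 - 4 ≠ 0, h6, h9]
    omega

end Pool.Agent.Lib.MP_557161_ag.HG.TW.P2
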