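import Pool.Agent.Lib.MP_557161_ag.TW.StF

/-!
From companion matrices to matrices with a cyclic vector.
-/

namespace Pool.Agent.Lib.MP_557161_ag.HG.TW

open Pool.Agent.Lib.MP_557161_ag.DL Matrix

namespace F0a

variable {L : Type} [Field L] {τ : Type} [Fintype τ] [DecidableEq τ] {m : ℕ}

/-- The matrices that fix the first basis vector. -/
def pm (r : τ → L) (g : Matrix τ τ L) : Matrix (Option τ) (Option τ) L :=
  ccn (Pi.single none 1) (rc r g)

lemma pm_det (r : τ → L) (g : Matrix τ τ L) : (pm r g).det = g.det := by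
  have : (pm r g).submatrix (Equiv.optionEquivSumPUnit.{0} τ).symm
      (Equiv.optionEquivSumPUnit.{0} τ).symm = fromBlocks g 0 (of fun _ t => r t) 1 := by
    ext (i | i) (j | j) <;> simp [pm, ccn, rc]
  rw [← det_submatrix_equiv_self (Equiv.optionEquivSumPUnit.{0} τ).symm, this,
    det_fromBlocks_zero₁₂, det_one, mul_one]

lemma pm_none (r : τ → L) (g : Matrix τ τ L) : pm r g *ᵥ Pi.single none 1 = Pi.single none 1 := by
  rw [mulVec_single_one]
  rfl

variable (o : Option τ ≃ Fin (m + 1))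

/-- Conjugation. -/
noncomputable def cj (Q : Matrix (Option τ) (Option τ) L)
    (A : Matrix (Fin (m + 1)) (Fin (m + 1)) L) : Matrix (Option τ) (Option τ) L :=
  Q * A.submatrix o o * Q⁻¹

/-- The inverse conjugation. -/
noncomputable def jc (Q B : Matrix (Option τ) (Option τ) L) :
    Matrix (Fin (m + 1)) (Fin (m + 1)) L := (Q⁻¹ * B * Q).submatrix o.symm o.symm

/-- The Krylov matrix. -/
noncomputable abbrev kr (Y : Matrix (Option τ) (Option τ) L) : Matrix (Option τ) (Option τ) L :=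
  kry (fun x => (o x).1) Y

lemma kr_pm (h0 : o none = 0) (Y : Matrix (Option τ) (Option τ) L) :
    pm (fun t => kr o Y none (some t)) ((kr o Y).submatrix some some) = kr o Y := by
  ext (_ | i) (_ | j) <;> simp [pm, ccn, rc, kry, h0]

variable {Q : Matrix (Option τ) (Option τ) L} (h : Q.det ≠ 0)
  (A B : Matrix (Fin (m + 1)) (Fin (m + 1)) L)
include h

lemma jc_cj : jc o Q (cj o Q A) = A := by
  rw [jc, cj, Matrix.mul_assoc, nonsing_inv_mul_cancel_right _ _ h.isUnit,
    nonsing_inv_mul_cancel_left _ _ h.isUnit]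
  simp

lemma cj_jc (B : Matrix (Option τ) (Option τ) L) : cj o Q (jc o Q B) = B := by
  rw [jc, cj, submatrix_submatrix, o.symm_comp_self, submatrix_id_id, Matrix.mul_assoc,
    mul_nonsing_inv_cancel_right _ _ h.isUnit, mul_nonsing_inv_cancel_left _ _ h.isUnit]

lemma cj_det : (cj o Q A).det = A.det := by
  rw [cj, det_conj ((isUnit_iff_isUnit_det _).2 h.isUnit), det_submatrix_equiv_self]

lemma cj_one : cj o Q 1 = 1 := by
  rw [cj, submatrix_one_equiv, Matrix.mul_one, mul_nonsing_inv _ h.isUnit]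

lemma cj_mul : cj o Q (A * B) = cj o Q A * cj o Q B := by
  simp only [cj, ← submatrix_mul_equiv _ _ _ o, Matrix.mul_assoc,
    nonsing_inv_mul_cancel_left _ _ h.isUnit]

omit h in
lemma cj_sub : cj o Q (A - B) = cj o Q A - cj o Q B := by
  rw [cj, cj, cj, ← Matrix.sub_mul, ← Matrix.mul_sub]
  rfl

omit h in
lemma cj_smul (c : L) : cj o Q (c • A) = c • cj o Q A := by
  rw [cj, cj, ← Matrix.smul_mul, ← Matrix.mul_smul]
  rfl

lemma kr_cj (h0 : o none = 0) (e : Q *ᵥ Pi.single none 1 = Pi.single none 1)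
    (y : Fin (m + 1) → L) : kr o (cj o Q (cmp y)) = Q := by
  have key (n : ℕ) : ∀ hn : n < m + 1, cj o Q (cmp y) ^ n *ᵥ Pi.single none 1 =
      Q *ᵥ Pi.single (o.symm ⟨n, hn⟩) 1 := by
    induction n with
    | zero =>
      intro hn
      rw [pow_zero, one_mulVec, show o.symm ⟨0, hn⟩ = none from o.symm_apply_eq.2 h0.symm, e]
    | succ n ih =>
      intro hn
      rw [pow_succ', ← mulVec_mulVec, ih (by omega), mulVec_mulVec, cj,
        nonsing_inv_mul_cancel_right _ _ h.isUnit, ← mulVec_mulVec]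
      congr 1
      ext i
      have : n ≠ m := by omega
      simp [cmp, Pi.single_apply, Fin.ext_iff, this, o.eq_symm_apply]
  ext i k
  rw [kr, kry, of_apply, key _ (o k).2, mulVec_single_one]
  simp

omit h in
lemma cmp_jc (Y : Matrix (Option τ) (Option τ) L) (h : (kr o Y).det ≠ 0) :
    cmp (fun i => jc o (kr o Y) Y i (Fin.last m)) = jc o (kr o Y) Y := by
  ext i k
  rw [cmp, of_apply]
  split_ifs with h1 h2
  · rw [h1]
  all_goals
    have hk : k.1 + 1 < m + 1 := Nat.succ_lt_succ (Fin.val_lt_last h1)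
    have e (j : Option τ) : (Y * kr o Y) j (o.symm k) = kr o Y j (o.symm ⟨_, hk⟩) := by
      simp [kry, pow_succ', Matrix.mul_apply, mulVec, dotProduct]
    rw [jc, submatrix_apply, Matrix.mul_assoc, Matrix.mul_apply]
    simp only [e]
    rw [← Matrix.mul_apply, nonsing_inv_mul _ h.isUnit]
    simp [Matrix.one_apply, Fin.ext_iff, h2]

end F0a

open F0a

variable {K : Type} [Field K] {p : ℕ}

theorem F0_thm [V3 K p] [V5 K p] : F0 K p where
  imp {ρ σ τ} _ _ _ _ _ _ F T m o ea eb h0 ha hb := by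
    have rp : ∀ {M L : Fld K} {R : Rel M L} {r : τ → M} {r' : τ → L} {g : Matrix τ τ M}
        {g' : Matrix τ τ L}, (∀ i, R.r (r i) (r' i)) → R.m' g g' → R.m' (pm r g) (pm r' g') :=
      fun h h' => Rel.mccn (Rel.vsingle _ (Rel.one _)) (Rel.mrc h h')
    have d : ∀ {L : Fld K} (r : τ → L) {g : Matrix τ τ L}, g.det ≠ 0 → (pm r g).det ≠ 0 :=
      fun r _ h => pm_det r _ ▸ h
    have hf : Mp (((T.CX m).prod (Aff K (.vec τ))).prod (GLo K τ)).S (F.CP fun x => (o x).1).S
        fun _ z => (cj o (pm z.1.2 z.2) z.1.1.1, cj o (pm z.1.2 z.2) (cmp z.1.1.2)) := by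
      refine ⟨fun M L R x x' _ m' e => ?_, fun L x m => ⟨trivial, ?_⟩⟩
      · have h1 := rp e.1.2 e.2
        have h2 := Rel.minv h1 (d _ m'.2.2)
        exact ⟨Rel.mmul (Rel.mmul h1 (Rel.msubm e.1.1.1 _ _)) h2,
          Rel.mmul (Rel.mmul h1 (Rel.msubm (rel_cmp e.1.1.2) _ _)) h2⟩
      · exact (congrArg det (kr_cj o (d _ m.2.2) h0 (pm_none _ _) _)).trans_ne (d _ m.2.2)
    have hi : Iso (((T.CX m).prod (Aff K (.vec τ))).prod (GLo K τ)).S (F.CP fun x => (o x).1).S
        (fun _ z => (cj o (pm z.1.2 z.2) z.1.1.1, cj o (pm z.1.2 z.2) (cmp z.1.1.2)))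
        fun _ z => (((jc o (kr o z.2) z.1, fun i => jc o (kr o z.2) z.2 i (Fin.last m)),
          fun t => kr o z.2 none (some t)), (kr o z.2).submatrix some some) := by
      refine ⟨hf, ⟨fun M L R x x' _ m' e => ?_, fun L x m => ⟨⟨trivial, trivial⟩, trivial, ?_⟩⟩,
        fun L x m => ?_, fun L x m => ?_⟩
      · have h1 := Rel.mkry (fun x => (o x).1) e.2
        have h2 := Rel.minv h1 m'.2
        exact ⟨⟨⟨Rel.msubm (Rel.mmul (Rel.mmul h2 e.1) h1) _ _,
          fun i => Rel.msubm (Rel.mmul (Rel.mmul h2 e.2) h1) _ _ i _⟩, fun _ => h1 _ _⟩,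
          Rel.msubm h1 _ _⟩
      · exact ((pm_det _ _).symm.trans (congrArg det (kr_pm o h0 x.2))).trans_ne m.2
      · simp only [kr_cj o (d _ m.2.2) h0 (pm_none _ _), jc_cj o (d _ m.2.2)]
        refine Prod.ext (Prod.ext (Prod.ext rfl (funext fun i => ?_)) rfl) rfl
        simp [cmp]
      · simp only [kr_pm o h0, cmp_jc o _ m.2, cj_jc o m.2]
    have rm : ∀ {c d : Cd} (X : WD K c) {Y : WD K d}, Imp p Y (Pt K) → Imp p (X.prod Y) X :=
      fun X _ h => Imp.trans (V3.prodL X h) (V3.pt X).2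
    have w : ∀ (L : Fld K) (Q : Matrix (Option τ) (Option τ) L) A B, Q.det ≠ 0 →
        (F.CP fun x => (o x).1).g L (cj o Q A, cj o Q B) = T.Om L A B := fun L Q A B h => by
      show (∏ l, (1 - cv L F.a (some l) • cj o Q A).det) * (1 - cj o Q B * cj o Q A).det *
        ∏ j, (cj o Q B - cv L F.b j • (1 : Matrix _ _ L)).det = _
      simp only [← cj_one o h, ← cj_smul, ← cj_mul o h, ← cj_sub, cj_det o h, cv, ha, hb]
      rw [TD.Om, TD.fm, TD.dm, ← ea.prod_comp, ← eb.prod_comp]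
    intro cc dd
    refine Imp.trans (V3.iso (p := p) (h := fun _ _ => 1) (a := 1) ⟨⟨hf, fun L x _ => ?_⟩,
      fun _ _ R _ _ _ _ _ => R.one, fun _ _ _ => one_ne_zero, one_ne_zero, fun L x m => ?_⟩ hi).2
      (Imp.trans (rm _ (V5.glo τ).2) (rm _ (V3.aff _).2))
    · show (0 : L) = 0 + 0 + 0
      simp
    · show T.Om L x.1.1.1 (cmp x.1.1.2) * 1 * 1 = _
      rw [w L _ _ _ (d x.1.2 m.2.2)]
      simp

end Pool.Agent.Lib.MP_557161_ag.HG.TW
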