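import Pool.Agent.Lib.MP_557161_ag.TW.StF

/-!
The matrix Gauss sum turns the middle determinant into a phase.
-/

namespace Pool.Agent.Lib.MP_557161_ag.HG.TW

open Pool.Agent.Lib.MP_557161_ag.DL Matrix

namespace F1

variable {L : Type} [Field L] {n : Type} [Fintype n] [DecidableEq n]

lemma mul_x0 {A Z : Matrix n n L} (h : A.det ≠ 0) : A * (A⁻¹ * Z) = Z := by
  rw [← Matrix.mul_assoc, mul_nonsing_inv _ h.isUnit, Matrix.one_mul]

lemma sub_x0 {X Y Z : Matrix n n L} (h : (1 - Y * X).det ≠ 0) :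
    (1 - Y * X)⁻¹ * Z - Y * (X * ((1 - Y * X)⁻¹ * Z)) = Z := by
  conv_rhs => rw [← mul_x0 (Z := Z) h]
  rw [Matrix.sub_mul, Matrix.one_mul, Matrix.mul_assoc]

lemma det_x0 (A Z : Matrix n n L) : (A⁻¹ * Z).det = A.det⁻¹ * Z.det := by
  rw [det_mul, det_nonsing_inv, Ring.inverse_eq_inv']

lemma one_sub {X0 X1 Y : Matrix n n L} (h : X0.det ≠ 0) :
    1 - Y * (X1 * X0⁻¹) = (X0 - Y * X1) * X0⁻¹ := by
  rw [Matrix.sub_mul, mul_nonsing_inv _ h.isUnit, Matrix.mul_assoc]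

lemma one_sub_det {X0 X1 Y : Matrix n n L} (h : X0.det ≠ 0) (h' : (X0 - Y * X1).det ≠ 0) :
    (1 - Y * (X1 * X0⁻¹)).det ≠ 0 := by
  rw [one_sub h, det_mul, det_nonsing_inv, Ring.inverse_eq_inv']
  exact mul_ne_zero h' (inv_ne_zero h)

lemma inv_x0 {X0 X1 Y : Matrix n n L} (h : X0.det ≠ 0) (h' : (X0 - Y * X1).det ≠ 0) :
    (1 - Y * (X1 * X0⁻¹))⁻¹ * (X0 - Y * X1) = X0 := by
  have u := (one_sub_det h h').isUnit
  have : X0 - Y * X1 = (1 - Y * (X1 * X0⁻¹)) * X0 := by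
    rw [one_sub h, Matrix.mul_assoc, nonsing_inv_mul _ h.isUnit, Matrix.mul_one]
  rw [this, ← Matrix.mul_assoc, nonsing_inv_mul _ u, Matrix.one_mul]

lemma det_pen (a : L) (X X0 : Matrix n n L) :
    (X0 - a • (X * X0)).det = (1 - a • X).det * X0.det := by
  rw [← det_mul, Matrix.sub_mul, Matrix.one_mul, Matrix.smul_mul]

end F1

open F1 in
theorem F1_thm {K : Type} [Field K] {p : ℕ} [V3 K p] : F1 K p where
  imp {ρ σ τ} _ _ _ _ _ _ F o := by
    obtain ⟨k, hk⟩ := F.ha.ev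
    let X₀ := ((F.CP o).prod (GLw K (Option τ))).nz
      (fun _ x => (1 - x.1.2 * x.1.1).det * x.2.det)
      fun _ _ R _ _ _ _ e => R.mul (Rel.det (Rel.msub Rel.mone (Rel.mmul e.1.2 e.1.1)))
        (Rel.det e.2)
    have hq : ∀ ⦃M L : Fld K⦄ (R : Rel M L) ⦃x⦄ ⦃x'⦄, (F.CF o).S.mem M x →
        (F.CF o).S.mem L x' → Cd.lift _ R.r x x' →
        (x'.1.1.det ≠ 0 ∧ (x'.1.1 - x'.2 * x'.1.2).det ≠ 0) →
          x.1.1.det ≠ 0 ∧ (x.1.1 - x.2 * x.1.2).det ≠ 0 :=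
      fun _ _ _ _ _ _ _ e h => ⟨Rel.ne_zero (Rel.det e.1.1) h.1,
        Rel.ne_zero (Rel.det (Rel.msub e.1.1 (Rel.mmul e.2 e.1.2))) h.2⟩
    have iso : Iso X₀.S ((F.CF o).S.opn _ hq)
        (fun _ x => (((1 - x.1.2 * x.1.1)⁻¹ * x.2, x.1.1 * ((1 - x.1.2 * x.1.1)⁻¹ * x.2)), x.1.2))
        fun _ x => ((x.1.2 * x.1.1⁻¹, x.2), x.1.1 - x.2 * x.1.2) := by
      refine ⟨⟨fun _ _ R _ _ _ m e => ?_, fun L x m => ?_⟩,
        ⟨fun _ _ R _ _ _ m e => ⟨⟨Rel.mmul e.1.2 (Rel.minv e.1.1 m.2.1), e.2⟩,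
          Rel.msub e.1.1 (Rel.mmul e.2 e.1.2)⟩, fun L x m => ?_⟩,
        fun L x m => ?_, fun L x m => ?_⟩
      · have h := Rel.mmul (Rel.minv (Rel.msub Rel.mone (Rel.mmul e.1.2 e.1.1))
          (left_ne_zero_of_mul m.2)) e.2
        exact ⟨⟨h, Rel.mmul e.1.1 h⟩, e.1.2⟩
      · have h1 := left_ne_zero_of_mul m.2
        have h2 := right_ne_zero_of_mul m.2
        refine ⟨m.1.1, ?_, ?_⟩
        · exact (det_x0 _ _).trans_ne (mul_ne_zero (inv_ne_zero h1) h2)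
        · exact (congrArg det (sub_x0 h1)).trans_ne h2
      · exact ⟨⟨m.1, trivial⟩, mul_ne_zero (one_sub_det m.2.1 m.2.2) m.2.2⟩
      · have h1 := left_ne_zero_of_mul m.2
        have h2 := right_ne_zero_of_mul m.2
        have h3 := (det_x0 _ _).trans_ne (mul_ne_zero (inv_ne_zero h1) h2)
        refine Prod.ext (Prod.ext ?_ rfl) (sub_x0 h1)
        exact (Matrix.mul_assoc _ _ _).trans
          (by rw [mul_nonsing_inv _ h3.isUnit, Matrix.mul_one])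
      · refine Prod.ext (Prod.ext (inv_x0 m.2.1 m.2.2) ?_) rfl
        refine (congrArg _ (inv_x0 m.2.1 m.2.2)).trans ((Matrix.mul_assoc _ _ _).trans ?_)
        rw [nonsing_inv_mul _ (IsUnit.mk0 _ m.2.1), Matrix.mul_one]
    have i1 : Imp p (F.CF o) X₀ := by
      intro cc d
      refine V3.emb (X := F.CF o) (X' := X₀)
        (h := fun _ x => (1 - x.1.2 * x.1.1).det * ((1 - x.1.2 * x.1.1).det * x.2.det⁻¹) ^ k)
        (a := 1) _
        ⟨⟨⟨iso.mf.reg, fun L x m => (iso.mf.mem L x m).1⟩, fun L x m => ?_⟩,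
          fun _ _ R _ _ _ m e => ?_, fun _ x m => ?_, one_ne_zero, fun L x m => ?_⟩ iso
        fun _ O _ _ m m' e => ⟨m, hq _ m m'.1 e m'.2⟩
      · exact (congrArg trace (sub_x0 (left_ne_zero_of_mul m.2))).trans (zero_add _).symm
      · have h := Rel.det (Rel.msub Rel.mone (Rel.mmul e.1.2 e.1.1))
        exact R.mul h (Rel.pow (R.mul h (R.inv (Rel.det e.2) (right_ne_zero_of_mul m.2))) _)
      · have h1 := left_ne_zero_of_mul m.2
        exact mul_ne_zero h1 (pow_ne_zero _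
          (mul_ne_zero h1 (inv_ne_zero (right_ne_zero_of_mul m.2))))
      · have h1 : (1 - x.1.2 * x.1.1).det ≠ 0 := left_ne_zero_of_mul m.2
        have h2 : x.2.det ≠ 0 := right_ne_zero_of_mul m.2
        change (∏ l, (1 - cv L F.a (some l) • x.1.1).det) * (1 - x.1.2 * x.1.1).det *
          F.dm L x.1.2 * x.2.det = _ * ((∏ i, ((1 - x.1.2 * x.1.1)⁻¹ * x.2 -
            cv L F.a i • (x.1.1 * ((1 - x.1.2 * x.1.1)⁻¹ * x.2))).det) * F.dm L x.1.2 * _)
        have a0 : cv L F.a none = 0 := by simp [cv, F.ha.a0]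
        simp only [det_pen, Finset.prod_mul_distrib, Finset.prod_const, Finset.card_univ,
          Fintype.card_option, det_x0, hk, map_one]
        rw [Fintype.prod_option, a0, zero_smul, sub_zero, det_one]
        simp only [mul_pow, inv_pow]
        field_simp
        ring
    intro cc d
    refine Imp.trans i1 (V3.nz _ _ _ fun L x _ h => ?_)
    change (∏ l, (1 - cv L F.a (some l) • x.1.1).det) * (1 - x.1.2 * x.1.1).det *
      F.dm L x.1.2 * x.2.det = 0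
    rcases mul_eq_zero.1 h with h | h <;> rw [h] <;> simp

end Pool.Agent.Lib.MP_557161_ag.HG.TW
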