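import Pool.Agent.Lib.MP_557161_ag.TW.StF

/-!
The transform in the first rows.
-/

namespace Pool.Agent.Lib.MP_557161_ag.HG.TW

open Pool.Agent.Lib.MP_557161_ag.DL Matrix

namespace F1ba

section
variable {L : Type} [Field L] {τ α n : Type}

omit [Field L] in
lemma rc_eta (X : Matrix (Option τ) n L) : rc (X none) (X.submatrix some id) = X := by
  ext i j
  cases i <;> rfl

variable [Fintype τ] [DecidableEq τ]

lemma det_row [h : DA] (X : Matrix (Option τ) (Option τ) L) :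
    X.det = X none ⬝ᵥ cf (Equiv.refl _) (X.submatrix some id) := by
  rw [← h.dt_rc, rc_eta]
  simp [dt]

lemma phase [DA] [Fintype α] (a s : α → L) (X0 X1 Y : Matrix (Option τ) (Option τ) L)
    (W : Matrix (Option τ) α L) (hW : ∀ x i, W x i = s i * cf (Equiv.refl _)
      (X0.submatrix some id - a i • X1.submatrix some id) x) :
    (X0.submatrix some id * (1 : Matrix (Option τ) (Option τ) L).submatrix id some -
        X1.submatrix some id * Y.submatrix id some).trace +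
      (∑ x, X0 none x * ((1 : Matrix _ (Option τ) L) x none - (W *ᵥ fun _ => 1) x) +
        ∑ x, X1 none x * ((W *ᵥ a) x - Y x none)) =
      (X0 - Y * X1).trace + ∑ i, -s i * (X0 - a i • X1).det := by
  have e1 : ∑ i, -s i * (X0 - a i • X1).det =
      ∑ x, X1 none x * (W *ᵥ a) x - ∑ x, X0 none x * (W *ᵥ fun _ => 1) x := by
    simp only [det_row, mulVec, dotProduct, Finset.mul_sum, ← Finset.sum_sub_distrib]
    rw [Finset.sum_comm]
    refine Finset.sum_congr rfl fun x _ => Finset.sum_congr rfl fun i _ => ?_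
    rw [hW]
    change -s i * ((X0 none x - a i * X1 none x) * cf (Equiv.refl _)
      (X0.submatrix some id - a i • X1.submatrix some id) x) = _
    ring
  have e : ∀ X Z : Matrix (Option τ) (Option τ) L, (X * Z).trace =
      ∑ x, X none x * Z x none + (X.submatrix some id * Z.submatrix id some).trace :=
    fun X Z => Fintype.sum_option _
  have e2 := e X0 1
  rw [Matrix.mul_one] at e2
  rw [e1, trace_sub, trace_sub, e2, trace_mul_comm Y, e X1]
  simp only [mul_sub, Finset.sum_sub_distrib]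
  ring

end

variable {K : Type} [Field K] {ρ σ τ : Type} [Fintype ρ] [DecidableEq ρ] [Fintype σ]
  [DecidableEq σ] [Fintype τ] [DecidableEq τ] (F : FD K ρ σ) (o : Option τ → ℕ)

/-- The space without the equations. -/
noncomputable def VF : WD K ((ec ρ τ).prod (nn τ)) :=
  mkW ((ASp.univ K ((ec ρ τ).prod (nn τ))).opn (fun _ z => (kry o z.2).det ≠ 0)
      fun _ _ _ _ _ _ _ e h => Rel.ne_zero (Rel.det (Rel.mkry o e.2)) h)
    (fun L z => FD.ph L (z.1, (1 : Matrix _ _ L).submatrix id some, z.2.submatrix id some))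
    (fun L z => (∏ i, z.1.2 i) * F.dm L z.2)
    (fun _ _ R _ _ _ _ e => FD.ph_rel R ⟨e.1, Rel.msubm Rel.mone _ _, Rel.msubm e.2 _ _⟩)
    fun _ _ R _ _ _ _ e => R.mul (Rel.prod _ fun i _ => e.1.2 i) (F.dm_rel R e.2)

/-- The equations. -/
noncomputable def eqs (L : Fld K) (z : ((ec ρ τ).prod (nn τ)).X L) : Option τ ⊕ Option τ → L :=
  Sum.elim (fun x => (1 : Matrix _ (Option τ) L) x none - (F.wm L z.1 *ᵥ fun _ => 1) x)
    fun x => (F.wm L z.1 *ᵥ cv L F.a) x - z.2 x none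

omit [DecidableEq ρ] [DecidableEq σ] in
lemma eqs_reg : Reg (VF F o).S (.vec (Option τ ⊕ Option τ)) (eqs F) := fun _ _ R _ _ _ _ e x => by
  cases x with
  | inl x => exact Rel.sub (Rel.mone x none) (Rel.mulVec (F.wm_rel R e.1) (fun _ => R.one) x)
  | inr x => exact Rel.sub (Rel.mulVec (F.wm_rel R e.1) (R.rcv _) x) (e.2 x none)

/-- The determinants of the pencil. -/
noncomputable def de (L : Fld K) (X : ((nn τ).prod (nn τ)).X L) (i : Option ρ) : L :=
  (X.1 - cv L F.a i • X.2).det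

omit [DecidableEq ρ] [DecidableEq σ] in
lemma de_rel {M L : Fld K} (R : Rel M L) {X : ((nn τ).prod (nn τ)).X M}
    {X' : ((nn τ).prod (nn τ)).X L} (e : ((nn τ).prod (nn τ)).lift R.r X X') (i : Option ρ) :
    R.r (de F M X i) (de F L X' i) := Rel.det (Rel.msub e.1 (Rel.msmul (R.rcv _ _) e.2))

/-- The pair of matrices with the given first rows. -/
def pr (L : Fld K) (z : (((ec ρ τ).prod (nn τ)).prod (.vec (Option τ ⊕ Option τ))).X L) :
    ((nn τ).prod (nn τ)).X L :=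
  (rc (fun x => z.2 (.inl x)) z.1.1.1.1, rc (fun x => z.2 (.inr x)) z.1.1.1.2)

omit [DecidableEq ρ] [DecidableEq τ] in
lemma pr_rel {M L : Fld K} (R : Rel M L)
    {z : (((ec ρ τ).prod (nn τ)).prod (.vec (Option τ ⊕ Option τ))).X M}
    {z' : (((ec ρ τ).prod (nn τ)).prod (.vec (Option τ ⊕ Option τ))).X L}
    (e : (((ec ρ τ).prod (nn τ)).prod (.vec (Option τ ⊕ Option τ))).lift R.r z z') :
    ((nn τ).prod (nn τ)).lift R.r (pr M z) (pr L z') :=
  ⟨Rel.mrc (fun _ => e.2 _) e.1.1.1.1, Rel.mrc (fun _ => e.2 _) e.1.1.1.2⟩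

/-- The embedding. -/
noncomputable def fw (L : Fld K)
    (z : ((((nn τ).prod (nn τ)).prod (nn τ)).prod (.vec (Option ρ))).X L) :
    (((ec ρ τ).prod (nn τ)).prod (.vec (Option τ ⊕ Option τ))).X L :=
  ((((z.1.1.1.submatrix some id, z.1.1.2.submatrix some id), fun i => -z.2 i / de F L z.1.1 i),
    z.1.2), Sum.elim (z.1.1.1 none) (z.1.1.2 none))

omit [DecidableEq ρ] [DecidableEq σ] in
lemma pr_fw (L : Fld K) (z : ((((nn τ).prod (nn τ)).prod (nn τ)).prod (.vec (Option ρ))).X L) :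
    pr L (fw F L z) = z.1.1 := Prod.ext (rc_eta _) (rc_eta _)

end F1ba

variable {K : Type} [Field K] {p : ℕ}

open F1ba in
theorem F1b_thm [DA] [V3 K p] : F1b K p where
  imp {ρ σ τ} _ _ _ _ _ _ F o := by
    have hu : Reg ((F.CF o).prod (Gs K (Option ρ))).S .one fun L z => ∏ i, de F L z.1.1 i :=
      fun _ _ R _ _ _ _ e => Rel.prod _ fun i _ => de_rel F R e.1.1 i
    have n : ∀ {L : Fld K} {X : ((nn τ).prod (nn τ)).X L}, ∏ i, de F L X i ≠ 0 →
        ∀ i, de F L X i ≠ 0 := fun h i => Finset.prod_ne_zero_iff.1 h i (Finset.mem_univ i)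
    have r : Reg (((F.CF o).prod (Gs K (Option ρ))).nz _ hu).S _ (fw F) :=
      fun _ _ R _ _ _ m e => ⟨⟨⟨⟨Rel.msubm e.1.1.1 _ _, Rel.msubm e.1.1.2 _ _⟩, fun i =>
        Rel.div (Rel.neg (e.2 i)) (de_rel F R e.1.1 i) (n m.2 i)⟩, e.1.2⟩, fun x => by
          cases x
          exacts [e.1.1.1 _ _, e.1.1.2 _ _]⟩
    intro cc d
    refine Imp.trans (V3.sub ((VF F o).zer _ (eqs_reg F o)) (F.CR o)
      ⟨⟨⟨Reg.id _, fun L z m => ⟨m.1, fun x => ?_⟩⟩, fun _ _ _ => rfl⟩, fun _ _ _ => rfl⟩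
      fun L z m _ => ⟨m.1, fun x =>
        ⟨(sub_eq_zero.1 (m.2 (.inl x))).symm, sub_eq_zero.1 (m.2 (.inr x))⟩⟩)
      (Imp.trans (V3.lin _ _ (eqs_reg F o)).1 (Imp.trans (V3.emb (X := (VF F o).lin _ (eqs_reg F o))
        (X' := ((F.CF o).prod (Gs K (Option ρ))).nz _ hu) (f := fw F)
        (f' := fun L z => ((pr L z, z.1.2), fun i => -z.1.1.2 i * de F L (pr L z) i))
        (h := fun L z => ∏ i, de F L z.1.1 i) (a := (-1) ^ Fintype.card (Option ρ))
        (((VF F o).lin _ (eqs_reg F o)).S.opn (fun L z => ∏ i, de F L (pr L z) i ≠ 0)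
          fun _ _ R _ _ _ _ e h => Rel.ne_zero
            (Rel.prod _ fun i _ => de_rel F R (pr_rel R e) i) h)
        ⟨⟨⟨r, fun _ _ m => ⟨m.1.1, trivial⟩⟩, fun L z m => ?_⟩, hu.mono fun _ _ m => m.1,
          fun _ _ m => m.2, pow_ne_zero _ (neg_ne_zero.2 one_ne_zero), fun L z m => ?_⟩
        ⟨⟨r, fun L z m => ⟨⟨m.1.1, trivial⟩, ?_⟩⟩,
          ⟨fun _ _ R _ _ _ _ e => ⟨⟨pr_rel R e, e.1.2⟩, fun i =>
            R.mul (Rel.neg (e.1.1.2 i)) (de_rel F R (pr_rel R e) i)⟩,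
            fun _ _ m => ⟨⟨m.1.1, trivial⟩, m.2⟩⟩, fun L z m => ?_, fun L z m => ?_⟩
        fun _ _ _ _ m m' e => ⟨m, Rel.ne_zero
          (Rel.prod _ fun i _ => de_rel F _ (pr_rel _ e) i) m'.2⟩)
        (V3.nz _ _ hu fun L z _ h => ?_)))
    · cases x with
      | inl x => exact sub_eq_zero.2 (m.2 x).1.symm
      | inr x => exact sub_eq_zero.2 (m.2 x).2
    · refine Eq.trans (congrArg (_ + ·) (Fintype.sum_sum_type _)) ((phase (cv L F.a)
        (fun i => -z.2 i / de F L z.1.1 i) z.1.1.1 z.1.1.2 z.1.2 _ fun _ _ => rfl).trans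
        (congrArg (_ + ·) (Finset.sum_congr rfl fun i _ => ?_)))
      rw [neg_div, neg_neg]
      exact div_mul_cancel₀ _ (n m.2 i)
    · have m0 : ∏ i, de F L z.1.1 i ≠ 0 := m.2
      change (∏ i, de F L z.1.1 i) * F.dm L z.1.2 * ∏ i, z.2 i = _ *
        ((∏ i, -z.2 i / de F L z.1.1 i) * F.dm L z.1.2 * (∏ i, de F L z.1.1 i) ^ 2)
      have : ((-1 : L) ^ Fintype.card (Option ρ)) ^ 2 = 1 := by
        rw [← pow_mul, mul_comm, pow_mul, neg_one_sq, one_pow]
      rw [Finset.prod_div_distrib, Finset.prod_neg, Finset.card_univ, map_pow, map_neg, map_one]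
      field_simp
      linear_combination -(F.dm L z.1.2 * ∏ i, z.2 i) * this
    · change ∏ i, de F L (pr L (fw F L z)) i ≠ 0
      rw [pr_fw]
      exact m.2
    · refine Prod.ext (Prod.ext (pr_fw F L z) rfl) (funext fun i => ?_)
      change -(-z.2 i / de F L z.1.1 i) * de F L (pr L (fw F L z)) i = z.2 i
      rw [pr_fw, neg_div, neg_neg]
      exact div_mul_cancel₀ _ (n m.2 i)
    · refine Prod.ext (Prod.ext (Prod.ext rfl (funext fun i => ?_)) rfl) (funext fun x => ?_)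
      · change -(-z.1.1.2 i * de F L (pr L z) i) / de F L (pr L z) i = z.1.1.2 i
        rw [neg_mul, neg_neg]
        exact mul_div_cancel_right₀ _ (n m.2 i)
      · cases x <;> rfl
    · change (∏ i, de F L z.1.1 i) * _ * _ = 0
      rw [h, zero_mul, zero_mul]

end Pool.Agent.Lib.MP_557161_ag.HG.TW
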