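import Pool.Agent.Lib.MP_557161_ag.TW.StF

/-!
Removal of the gauge.
-/

namespace Pool.Agent.Lib.MP_557161_ag.HG.TW

open Pool.Agent.Lib.MP_557161_ag.DL Matrix

namespace F2a

variable {ρ σ τ : Type} [Fintype ρ] [DecidableEq ρ] [Fintype τ] [DecidableEq τ]

section Alg

variable {L : Type} [Field L]

/-- The kernel basis for `d = 1`. -/
def kk (c : Matrix ρ τ L) : Matrix (Option ρ) (Option τ) L := ccn (fun _ => 1) (rc 0 (-c))

/-- The constant basis. -/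
def la0 (L : Type) [Field L] (ρ τ : Type) [DecidableEq ρ] [DecidableEq τ] :
    Matrix (Option ρ ⊕ τ) (Option τ ⊕ ρ) L :=
  fromBlocks (ccn (fun _ => 1) 0) (rc 0 1) (ccn 0 1) 0

/-- The unipotent factor. -/
def un (c : Matrix ρ τ L) : Matrix (Option τ ⊕ ρ) (Option τ ⊕ ρ) L := fromBlocks 1 0 (ccn 0 (-c)) 1

/-- The diagonal factor. -/
def dg (τ : Type) [DecidableEq τ] (d : Option ρ → L) : Matrix (Option ρ ⊕ τ) (Option ρ ⊕ τ) L :=
  fromBlocks (diagonal fun i => (d i)⁻¹) 0 0 1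

omit [Fintype τ] [DecidableEq τ] in
lemma frm_kk (c : Matrix ρ τ L) : frm L ρ * kk c = ccn 0 (-c) := by
  ext l t
  cases t <;> simp [frm, kk, ccn, rc, mul_apply, Fintype.sum_option, one_apply]

lemma frm_rc : frm L ρ * rc 0 (1 : Matrix ρ ρ L) = 1 := by
  ext l t
  simp [frm, ccn, rc, mul_apply, Fintype.sum_option, one_apply]

omit [Fintype ρ] [DecidableEq ρ] in
lemma mul_ccn (B : Matrix ρ τ L) : B * ccn 0 (1 : Matrix τ τ L) = ccn 0 B := by
  ext l t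
  cases t <;> simp [ccn, mul_apply, one_apply]

lemma la0_mul (c : Matrix ρ τ L) :
    la0 L ρ τ * un c = fromBlocks (kk c) (rc 0 1) (ccn 0 1) 0 := by
  rw [la0, un, fromBlocks_multiply]
  simp only [Matrix.mul_one, Matrix.mul_zero, Matrix.zero_mul, add_zero, zero_add]
  congr 1
  ext i t
  cases i <;> cases t <;> simp [kk, ccn, rc, mul_apply, one_apply]

lemma dd1 [h : DA] (e : Option τ ⊕ ρ ≃ Option ρ ⊕ τ) {d : Option ρ → L} (hd : ∀ i, d i ≠ 0)
    (c : Matrix ρ τ L) (A : Matrix (Option τ) (Option ρ) L) (B : Matrix (Option τ) τ L) :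
    dt e (fromRows (fromCols A B) (phm d c)) * dt e.symm (la0 L ρ τ) =
      (∏ i, d i) * (A * khm d c + ccn 0 B).det := by
  have hD : diagonal d * diagonal (fun i => (d i)⁻¹) = 1 := by simp [hd]
  have h1 : fromRows (fromCols A B) (phm d c) * (dg τ d * (la0 L ρ τ * un c)) =
      fromBlocks (A * khm d c + ccn 0 B)
        (A * (diagonal (fun i => (d i)⁻¹) * rc 0 (1 : Matrix ρ ρ L))) 0 1 := by
    rw [la0_mul, dg, fromBlocks_multiply, phm, fromRows_fromCols_eq_fromBlocks, fromBlocks_multiply]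
    simp only [Matrix.mul_zero, Matrix.zero_mul, add_zero, zero_add, Matrix.one_mul, mul_ccn]
    rw [Matrix.mul_assoc, ← Matrix.mul_assoc (diagonal d), hD, Matrix.one_mul, frm_kk,
      Matrix.mul_assoc, ← Matrix.mul_assoc (diagonal d), hD, Matrix.one_mul, frm_rc]
    congr 1
    ext l t
    cases t <;> simp [ccn]
  have h2 := h.dt_mul e ((Equiv.refl _).trans (e.symm.trans (Equiv.refl _)))
    (fromRows (fromCols A B) (phm d c)) (dg τ d * (la0 L ρ τ * un c))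
  rw [h1, h.dt_mul, h.dt_mul] at h2
  have h3 : e.trans ((Equiv.refl _).trans (e.symm.trans (Equiv.refl _))) = Equiv.refl _ := by
    ext x
    simp
  have h4 : ∀ {m : Type} [Fintype m] [DecidableEq m] (M : Matrix m m L),
      dt (Equiv.refl m) M = M.det := fun M => by simp [dt]
  rw [h3, h4, h4, h4, dg, un, det_fromBlocks_zero₂₁, det_fromBlocks_zero₂₁, det_fromBlocks_zero₁₂,
    det_one, det_one, det_one, det_diagonal, Finset.prod_inv_distrib] at h2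
  have h5 : ∏ i, d i ≠ 0 := Finset.prod_ne_zero_iff.2 fun i _ => hd i
  rw [mul_one] at h2
  rw [h2]
  field_simp

lemma la0_ne [h : DA] (e : Option τ ⊕ ρ ≃ Option ρ ⊕ τ) : dt e.symm (la0 L ρ τ) ≠ 0 := by
  have h1 := dd1 (L := L) e (d := fun _ => 1) (fun _ => one_ne_zero) 0
    (ccn (Pi.single none 1) 0) (rc 0 1)
  have h2 : (ccn (Pi.single none 1) 0 : Matrix (Option τ) (Option ρ) L) *
      khm (fun _ => 1) (0 : Matrix ρ τ L) + ccn 0 (rc 0 1) = 1 := by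
    ext i t
    cases i <;> cases t <;> simp [khm, ccn, rc, mul_apply, Fintype.sum_option, one_apply]
  rw [h2] at h1
  exact right_ne_zero_of_mul (h1.trans_ne (by simp))

end Alg

variable {K : Type} [Field K]

lemma dd [DA] (e : Option τ ⊕ ρ ≃ Option ρ ⊕ τ) : ∃ ε : K, ε ≠ 0 ∧ ∀ (L : Fld K)
    (d : Option ρ → L) (c : Matrix ρ τ L) (A : Matrix (Option τ) (Option ρ) L)
    (B : Matrix (Option τ) τ L), (∀ i, d i ≠ 0) → dt e (fromRows (fromCols A B) (phm d c)) =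
      algebraMap K L ε * ((∏ i, d i) * (A * khm d c + ccn 0 B).det) := by
  refine ⟨(dt e.symm (la0 K ρ τ))⁻¹, inv_ne_zero (la0_ne e), fun L d c A B hd => ?_⟩
  have h1 : algebraMap K L (dt e.symm (la0 K ρ τ)) = dt e.symm (la0 L ρ τ) := by
    rw [dt, dt, RingHom.map_det]
    congr 1
    ext i j
    rcases i with (_ | i) | i <;> rcases h : e.symm j with (_ | j) | j <;>
      simp [la0, ccn, rc, h, one_apply, apply_ite (algebraMap K L)]
  rw [map_inv₀, h1, ← dd1 e hd, mul_comm (dt e _), inv_mul_cancel_left₀ (la0_ne e)]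

variable [Fintype σ] (F : FD K ρ σ)

/-- The change of gauge. -/
noncomputable def ch {L : Fld K} (z : (ec ρ τ).X L) (g : Matrix (Option τ) (Option τ) L)
    (d : Option ρ → L) : (ec ρ τ).X L :=
  ((z.1.1 * g, z.1.2 * g), fun i => z.2 i * ((d i)⁻¹ * g.det⁻¹))

/-- The inverse change of gauge. -/
noncomputable def ci {L : Fld K} (z : (ec ρ τ).X L) (g : Matrix (Option τ) (Option τ) L)
    (d : Option ρ → L) : (ec ρ τ).X L :=
  ((z.1.1 * g⁻¹, z.1.2 * g⁻¹), fun i => z.2 i * (d i * g.det))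

section

variable {L : Fld K} (z : (ec ρ τ).X L) {g : Matrix (Option τ) (Option τ) L} (hg : g.det ≠ 0)
  {d : Option ρ → L}
include hg

omit [DecidableEq ρ] in
lemma ci_ch (hd : ∀ i, d i ≠ 0) : ci (ch z g d) g d = z := by
  refine Prod.ext (Prod.ext ?_ ?_) (funext fun i => ?_)
  · exact mul_nonsing_inv_cancel_right _ _ hg.isUnit
  · exact mul_nonsing_inv_cancel_right _ _ hg.isUnit
  · have := hd i
    show z.2 i * ((d i)⁻¹ * g.det⁻¹) * (d i * g.det) = z.2 i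
    field_simp

omit [DecidableEq ρ] in
lemma ch_ci (hd : ∀ i, d i ≠ 0) : ch (ci z g d) g d = z := by
  refine Prod.ext (Prod.ext ?_ ?_) (funext fun i => ?_)
  · exact nonsing_inv_mul_cancel_right _ _ hg.isUnit
  · exact nonsing_inv_mul_cancel_right _ _ hg.isUnit
  · have := hd i
    show z.2 i * (d i * g.det) * ((d i)⁻¹ * g.det⁻¹) = z.2 i
    field_simp

lemma wm_ch [h : DA] : g * F.wm L (ch z g d) = F.wm L z * diagonal fun i => (d i)⁻¹ := by
  ext x i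
  have h1 := congrFun (h.cf_right (Equiv.refl _) (Equiv.refl _) (z.1.1 - cv L F.a i • z.1.2) g) x
  have h2 : dt (Equiv.refl _) g = g.det := by simp [dt]
  rw [h2, Equiv.refl_trans, Matrix.sub_mul, Matrix.smul_mul, Pi.smul_apply, smul_eq_mul] at h1
  rw [mul_diagonal]
  have h3 : (g * F.wm L (ch z g d)) x i = z.2 i * ((d i)⁻¹ * g.det⁻¹) *
      (g *ᵥ cf (Equiv.refl _) (z.1.1 * g - cv L F.a i • (z.1.2 * g))) x := by
    rw [mul_apply, mulVec, dotProduct, Finset.mul_sum]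
    exact Finset.sum_congr rfl fun y _ => mul_left_comm _ _ _
  rw [h3, h1]
  show _ = z.2 i * _ * _
  field_simp

lemma wk0 [DA] (c : Matrix ρ τ L) : g * (F.wm L (ch z g d) * kk c) = F.wm L z * khm d c := by
  rw [← Matrix.mul_assoc, wm_ch F z hg, Matrix.mul_assoc]
  rfl

lemma wk1 [DA] (c : Matrix ρ τ L) : g * (F.wm L (ch z g d) * diagonal (cv L F.a) * kk c) =
    F.wm L z * diagonal (cv L F.a) * khm d c := by
  rw [← Matrix.mul_assoc, ← Matrix.mul_assoc, wm_ch F z hg, khm, ← Matrix.mul_assoc,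
    Matrix.mul_assoc (F.wm L z) (diagonal _) (diagonal _),
    Matrix.mul_assoc (F.wm L z) (diagonal _) (diagonal _), diagonal_mul_diagonal,
    diagonal_mul_diagonal]
  simp only [mul_comm]
  rfl

end

lemma wm_ker [h : DA] {L : Fld K} (z : (ec ρ τ).X L) :
    z.1.1 * F.wm L z = z.1.2 * (F.wm L z * diagonal (cv L F.a)) := by
  ext t i
  have h1 := congrFun (h.mul_cf (Equiv.refl _) (z.1.1 - cv L F.a i • z.1.2)) t
  rw [sub_mulVec, smul_mulVec, Pi.sub_apply, Pi.smul_apply, smul_eq_mul, Pi.zero_apply,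
    sub_eq_zero] at h1
  have h2 : ∀ A : Matrix τ (Option τ) L, (A * F.wm L z) t i =
      z.2 i * (A *ᵥ cf (Equiv.refl _) (z.1.1 - cv L F.a i • z.1.2)) t := fun A => by
    rw [mul_apply, mulVec, dotProduct, Finset.mul_sum]
    exact Finset.sum_congr rfl fun y _ => mul_left_comm _ _ _
  rw [← Matrix.mul_assoc, mul_diagonal, h2, h2, h1]
  ring

/-- The shape of the gauge parameters. -/
abbrev gc (ρ τ : Type) [Finite ρ] [Finite τ] : Cd :=
  (nn τ).prod ((Cd.vec (Option ρ)).prod (.mat ρ τ))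

/-- The space of the gauge parameters. -/
noncomputable def GG (K : Type) [Field K] (ρ τ : Type) [Fintype ρ] [Fintype τ] [DecidableEq τ] :
    WD K (gc ρ τ) :=
  (GLo K (Option τ)).prod ((Tor K (Option ρ) fun _ => True).prod (Aff K (.mat ρ τ)))

/-- The map that splits off the gauge. -/
noncomputable def fw (L : Fld K) (z : (sc ρ τ).X L) :
    (((ec ρ τ).prod (nn τ)).prod (gc ρ τ)).X L :=
  ((ch z.1.1 (F.g0 L z.1 z.2.1 z.2.2) z.2.1,
    (F.g0 L z.1 z.2.1 z.2.2)⁻¹ * F.g1 L z.1 z.2.1 z.2.2), (F.g0 L z.1 z.2.1 z.2.2, z.2))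

/-- Its inverse. -/
noncomputable def bw (L : Fld K) (w : (((ec ρ τ).prod (nn τ)).prod (gc ρ τ)).X L) :
    (sc ρ τ).X L :=
  ((ci w.1.1 w.2.1 w.2.2.1, ((w.2.1 * (1 - F.wm L w.1.1 * kk w.2.2.2)).submatrix id some,
    (w.2.1 * (w.1.2 - F.wm L w.1.1 * diagonal (cv L F.a) * kk w.2.2.2)).submatrix id some)), w.2.2)

omit [DecidableEq ρ] [Fintype τ] [DecidableEq τ] in
lemma mul_kk {L : Type} [Field L] {m : Type} (A : Matrix m (Option ρ) L) (c : Matrix ρ τ L) (x : m) :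
    (A * kk c) x none = (A *ᵥ fun _ => 1) x := rfl

omit [Fintype ρ] [DecidableEq ρ] [DecidableEq τ] in
lemma glue {L : Type} [Field L] (g A B : Matrix (Option τ) (Option τ) L)
    (h : ∀ x, A x none = B x none) : g * A + ccn 0 ((g * (B - A)).submatrix id some) = g * B := by
  ext x t
  cases t with
  | none => simp [ccn, mul_apply, h]
  | some t => simp [ccn, Matrix.mul_sub]

variable [DA] (o : Option τ → ℕ) (e : Option τ ⊕ ρ ≃ Option ρ ⊕ τ)

lemma g0_bw {L : Fld K} {w : (((ec ρ τ).prod (nn τ)).prod (gc ρ τ)).X L}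
    (m : ((F.CR o).prod (GG K ρ τ)).S.mem L w) :
    F.g0 L (bw F L w).1 w.2.2.1 w.2.2.2 = w.2.1 ∧
      F.g1 L (bw F L w).1 w.2.2.1 w.2.2.2 = w.2.1 * w.1.2 := by
  have hg : w.2.1.det ≠ 0 := m.2.1.2
  have hd : ∀ i, w.2.2.1 i ≠ 0 := fun i => m.2.2.1.2 i trivial
  have h0 := wk0 F (ci w.1.1 w.2.1 w.2.2.1) hg (d := w.2.2.1) w.2.2.2
  have h1 := wk1 F (ci w.1.1 w.2.1 w.2.2.1) hg (d := w.2.2.1) w.2.2.2
  rw [ch_ci _ hg hd] at h0 h1
  refine ⟨?_, ?_⟩
  · refine Eq.trans ?_ ((glue w.2.1 (F.wm L w.1.1 * kk w.2.2.2) 1 fun x => (m.1.2 x).1).trans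
      (Matrix.mul_one _))
    rw [h0]
    rfl
  · refine Eq.trans ?_ (glue w.2.1 (F.wm L w.1.1 * diagonal (cv L F.a) * kk w.2.2.2) w.1.2
      fun x => ?_)
    · rw [h1]
      rfl
    · rw [mul_kk, ← mulVec_mulVec, ← (m.1.2 x).2]
      congr 1
      ext i
      simp [mulVec_diagonal]

lemma bw_mp : Mp ((F.CR o).prod (GG K ρ τ)).S (F.SR o e).S (bw F) where
  reg _ _ R _ _ _ m q := by
    have hk : R.m' (kk _) (kk _) :=
      Rel.mccn (fun _ => R.one) (Rel.mrc (fun _ => R.zero) (Rel.mneg q.2.2.2))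
    have hi := Rel.minv q.2.1 m.2.1.2
    exact ⟨⟨⟨⟨Rel.mmul q.1.1.1.1 hi, Rel.mmul q.1.1.1.2 hi⟩,
      fun i => R.mul (q.1.1.2 i) (R.mul (q.2.2.1 i) (Rel.det q.2.1))⟩,
      Rel.msubm (Rel.mmul q.2.1 (Rel.msub Rel.mone (Rel.mmul (F.wm_rel R q.1.1) hk))) _ _,
      Rel.msubm (Rel.mmul q.2.1 (Rel.msub q.1.2
        (Rel.mmul (Rel.mmul (F.wm_rel R q.1.1) (Rel.mdiag (R.rcv _))) hk))) _ _⟩, q.2.2⟩
  mem L w m := by
    obtain ⟨h0, h1⟩ := g0_bw F o m
    have hg : w.2.1.det ≠ 0 := m.2.1.2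
    refine ⟨⟨⟨trivial, fun i => m.2.2.1.2 i trivial⟩, ?_⟩, ?_⟩
    · exact (congrArg det h0).trans_ne hg
    · show (kry o ((F.g0 L (bw F L w).1 w.2.2.1 w.2.2.2)⁻¹ *
        F.g1 L (bw F L w).1 w.2.2.1 w.2.2.2)).det ≠ 0
      rw [h0, h1, nonsing_inv_mul_cancel_left _ _ hg.isUnit]
      exact m.1.1.2

lemma fw_mp : Mp (F.SR o e).S ((F.CR o).prod (GG K ρ τ)).S (fw F) where
  reg _ _ R _ _ _ m q := by
    have h0 := F.g0_rel R q.1 q.2.1 q.2.2 m.1.1.2
    have h1 := F.g1_rel R q.1 q.2.1 q.2.2 m.1.1.2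
    exact ⟨⟨⟨⟨Rel.mmul q.1.1.1.1 h0, Rel.mmul q.1.1.1.2 h0⟩, fun i => R.mul (q.1.1.2 i)
      (R.mul (R.inv (q.2.1 i) (m.1.1.2 i)) (R.inv (Rel.det h0) m.1.2))⟩,
      Rel.mmul (Rel.minv h0 m.1.2) h1⟩, h0, q.2⟩
  mem L z m := by
    have hg : (F.g0 L z.1 z.2.1 z.2.2).det ≠ 0 := m.1.2
    have h0 := wk0 F z.1.1 hg (d := z.2.1) z.2.2
    have h1 := wk1 F z.1.1 hg (d := z.2.1) z.2.2
    refine ⟨⟨⟨trivial, m.2⟩, fun x => ⟨?_, ?_⟩⟩, ⟨trivial, hg⟩,
      ⟨trivial, fun i _ => m.1.1.2 i⟩, trivial⟩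
    · have h2 := congrArg ((F.g0 L z.1 z.2.1 z.2.2)⁻¹ * ·) h0
      simp only [nonsing_inv_mul_cancel_left _ _ hg.isUnit] at h2
      refine (mul_kk _ z.2.2 x).symm.trans ((congrFun (congrFun h2 x) none).trans ?_)
      rw [← nonsing_inv_mul _ hg.isUnit]
      simp [mul_apply, FD.g0, ccn]
    · have h2 := congrArg ((F.g0 L z.1 z.2.1 z.2.2)⁻¹ * ·) h1
      simp only [nonsing_inv_mul_cancel_left _ _ hg.isUnit] at h2
      have h3 := (mul_kk _ z.2.2 x).symm.trans (congrFun (congrFun h2 x) none)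
      rw [← mulVec_mulVec] at h3
      have h4 : (diagonal (cv L F.a) *ᵥ fun _ => (1 : L)) = cv L F.a := by
        ext i
        simp [mulVec_diagonal]
      rw [h4] at h3
      refine h3.trans ?_
      show _ = ((F.g0 L z.1 z.2.1 z.2.2)⁻¹ * F.g1 L z.1 z.2.1 z.2.2) x none
      rw [mul_apply, mul_apply]
      refine Finset.sum_congr rfl fun y _ => ?_
      simp [FD.g1, ccn]

lemma fw_iso : Iso (F.SR o e).S ((F.CR o).prod (GG K ρ τ)).S (fw F) (bw F) where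
  mf := fw_mp F o e
  mg := bw_mp F o e
  gf L z m := by
    have hg : (F.g0 L z.1 z.2.1 z.2.2).det ≠ 0 := m.1.2
    refine Prod.ext (Prod.ext (ci_ch z.1.1 hg m.1.1.2) (Prod.ext ?_ ?_)) rfl
    · show (F.g0 L z.1 z.2.1 z.2.2 * (1 - F.wm L (ch z.1.1 (F.g0 L z.1 z.2.1 z.2.2) z.2.1) *
        kk z.2.2)).submatrix id some = z.1.2.1
      rw [Matrix.mul_sub, wk0 F z.1.1 hg, Matrix.mul_one, FD.g0, add_sub_cancel_left]
      rfl
    · show (F.g0 L z.1 z.2.1 z.2.2 * ((F.g0 L z.1 z.2.1 z.2.2)⁻¹ * F.g1 L z.1 z.2.1 z.2.2 -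
        F.wm L (ch z.1.1 (F.g0 L z.1 z.2.1 z.2.2) z.2.1) * diagonal (cv L F.a) *
        kk z.2.2)).submatrix id some = z.1.2.2
      rw [Matrix.mul_sub, wk1 F z.1.1 hg, mul_nonsing_inv_cancel_left _ _ hg.isUnit, FD.g1,
        add_sub_cancel_left]
      rfl
  fg L w m := by
    obtain ⟨h0, h1⟩ := g0_bw F o m
    have hg : w.2.1.det ≠ 0 := m.2.1.2
    have hd : ∀ i, w.2.2.1 i ≠ 0 := fun i => m.2.2.1.2 i trivial
    show ((ch (ci w.1.1 w.2.1 w.2.2.1) (F.g0 L (bw F L w).1 w.2.2.1 w.2.2.2) w.2.2.1,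
      (F.g0 L (bw F L w).1 w.2.2.1 w.2.2.2)⁻¹ * F.g1 L (bw F L w).1 w.2.2.1 w.2.2.2),
      (F.g0 L (bw F L w).1 w.2.2.1 w.2.2.2, w.2.2)) = w
    rw [h0, h1, nonsing_inv_mul_cancel_left _ _ hg.isUnit, ch_ci _ hg hd]

lemma fw_ph {L : Fld K} (z : (sc ρ τ).X L) (hg : (F.g0 L z.1 z.2.1 z.2.2).det ≠ 0) :
    FD.ph L ((fw F L z).1.1, (1 : Matrix _ _ L).submatrix id some,
      (fw F L z).1.2.submatrix id some) = FD.ph L z.1 := by
  have h1 : ∀ A : Matrix τ (Option τ) L, ∀ B : Matrix (Option τ) (Option τ) L,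
      A * B.submatrix id some = (A * B).submatrix id some := fun _ _ => rfl
  have h2 : ∀ (A : Matrix τ (Option τ) L) (B : Matrix (Option τ) τ L),
      (A * ccn 0 B).submatrix id some = A * B := fun _ _ => rfl
  show (z.1.1.1.1 * F.g0 L z.1 z.2.1 z.2.2 *
      (1 : Matrix (Option τ) (Option τ) L).submatrix id some -
    z.1.1.1.2 * F.g0 L z.1 z.2.1 z.2.2 * ((F.g0 L z.1 z.2.1 z.2.2)⁻¹ *
      F.g1 L z.1 z.2.1 z.2.2).submatrix id some).trace = _
  rw [h1, h1, Matrix.mul_one, Matrix.mul_assoc, mul_nonsing_inv_cancel_left _ _ hg.isUnit, FD.g0,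
    FD.g1, Matrix.mul_add, Matrix.mul_add, ← Matrix.mul_assoc, ← Matrix.mul_assoc, wm_ker,
    submatrix_add, submatrix_add]
  simp only [Pi.add_apply, add_sub_add_left_eq_sub, h2]
  rfl

omit [DA] in
lemma fw_wt {ε : K} (hε : ∀ (L : Fld K)
    (d : Option ρ → L) (c : Matrix ρ τ L) (A : Matrix (Option τ) (Option ρ) L)
    (B : Matrix (Option τ) τ L), (∀ i, d i ≠ 0) → dt e (fromRows (fromCols A B) (phm d c)) =
      algebraMap K L ε * ((∏ i, d i) * (A * khm d c + ccn 0 B).det)) {L : Fld K}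
    (z : (sc ρ τ).X L) (hd : ∀ i, z.2.1 i ≠ 0) (hg : (F.g0 L z.1 z.2.1 z.2.2).det ≠ 0) :
    ∏ j, dt e (fromRows (F.io L z.1 j) (phm z.2.1 z.2.2)) =
      (algebraMap K L ε * ((∏ i, z.2.1 i) * (F.g0 L z.1 z.2.1 z.2.2).det)) ^ (Fintype.card σ + 2) *
        F.dm L (fw F L z).1.2 := by
  have h1 : ∀ j, dt e (fromRows (F.io L z.1 (some j)) (phm z.2.1 z.2.2)) =
      algebraMap K L ε * ((∏ i, z.2.1 i) * (F.g0 L z.1 z.2.1 z.2.2).det) *
        ((fw F L z).1.2 - cv L F.b j • 1).det := fun j => by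
    refine (hε L _ _ _ _ hd).trans ?_
    rw [mul_assoc, mul_assoc, ← det_mul]
    congr 3
    show _ = _ * ((F.g0 L z.1 z.2.1 z.2.2)⁻¹ * F.g1 L z.1 z.2.1 z.2.2 - _)
    have h2 : (diagonal fun i => cv L F.a i - cv L F.b j) =
        diagonal (cv L F.a) - cv L F.b j • (1 : Matrix (Option ρ) (Option ρ) L) := by
      ext i i'
      by_cases q : i = i' <;> simp [q]
    have h3 : ccn 0 (z.1.2.2 - cv L F.b j • z.1.2.1) = ccn 0 z.1.2.2 - cv L F.b j • ccn 0 z.1.2.1 := by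
      ext x t
      cases t <;> simp [ccn]
    rw [Matrix.mul_sub, mul_nonsing_inv_cancel_left _ _ hg.isUnit, Matrix.mul_smul, Matrix.mul_one,
      h2, h3, FD.g0, FD.g1, Matrix.mul_sub, Matrix.sub_mul, Matrix.mul_smul, Matrix.mul_one,
      Matrix.smul_mul, smul_add]
    abel
  have h0 : dt e (fromRows (F.io L z.1 none) (phm z.2.1 z.2.2)) =
      algebraMap K L ε * ((∏ i, z.2.1 i) * (F.g0 L z.1 z.2.1 z.2.2).det) := hε L _ _ _ _ hd
  rw [Fintype.prod_option, h0, Finset.prod_congr rfl fun j _ => h1 j, Finset.prod_mul_distrib,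
    Finset.prod_const, Finset.card_univ, Fintype.card_option, FD.dm]
  ring

end F2a

variable {K : Type} [Field K] {p : ℕ}

open F2a in
theorem F2_thm [DA] [V3 K p] [V5 K p] : F2 K p where
  imp {ρ σ τ} _ _ _ _ _ _ F o e := by
    obtain ⟨ε, ε0, hε⟩ := dd (K := K) e
    obtain ⟨k, hk⟩ := F.od
    obtain ⟨r, hr⟩ := F.ha.ev
    have hG : Imp p (GG K ρ τ) (Pt K) :=
      Imp.trans (V3.prodL _ (Imp.trans (V3.prodL _ (V3.aff _).2)
        (Imp.trans (V3.pt _).2 (V3.tor _ _).2))) (Imp.trans (V3.pt _).2 (V5.glo _).2)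
    have h1 : Imp p (F.SR o e) ((F.CR o).prod (GG K ρ τ)) := by
      intro cc d
      refine (V3.iso (X' := F.SR o e) (h := fun L z => (∏ i, z.2.1 i) ^ (k + 2) *
        (F.g0 L z.1 z.2.1 z.2.2).det ^ (r + k + 2)) (a := ε ^ (Fintype.card σ + 2))
        ⟨⟨fw_mp F o e, fun L z m => ?_⟩, fun _ _ R _ _ _ m q => ?_, fun L z m => ?_,
          pow_ne_zero _ ε0, fun L z m => ?_⟩ (fw_iso F o e)).1
      · exact (congrArg₂ (· + ·) (fw_ph F z m.1.2) ((zero_add _).trans (add_zero 0))).trans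
          (add_zero _)
      · exact R.mul (Rel.pow (Rel.prod _ fun i _ => q.2.1 i) _)
          (Rel.pow (Rel.det (F.g0_rel R q.1 q.2.1 q.2.2 m.1.1.2)) _)
      · exact mul_ne_zero (pow_ne_zero _ (Finset.prod_ne_zero_iff.2 fun i _ => m.1.1.2 i))
          (pow_ne_zero _ m.1.2)
      · have hg : (F.g0 L z.1 z.2.1 z.2.2).det ≠ 0 := m.1.2
        have hd : ∏ i, z.2.1 i ≠ 0 := Finset.prod_ne_zero_iff.2 fun i _ => m.1.1.2 i
        change (∏ i, z.1.1.2 i) * ∏ j, dt e (fromRows (F.io L z.1 j) (phm z.2.1 z.2.2)) =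
          _ * (((∏ i, z.1.1.2 i * ((z.2.1 i)⁻¹ * (F.g0 L z.1 z.2.1 z.2.2).det⁻¹)) *
            F.dm L (fw F L z).1.2) * (1 * (1 * 1)) * ((∏ i, z.2.1 i) ^ (k + 2) *
              (F.g0 L z.1 z.2.1 z.2.2).det ^ (r + k + 2)) ^ 2)
        rw [fw_wt F e hε z m.1.1.2 hg, Finset.prod_mul_distrib, Finset.prod_mul_distrib,
          Finset.prod_inv_distrib, Finset.prod_const, Finset.card_univ, Fintype.card_option, hk, hr,
          map_pow, inv_pow]
        field_simp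
        ring
    intro cc d
    exact Imp.trans h1 (Imp.trans (V3.prodL _ hG) (V3.pt _).2)

end Pool.Agent.Lib.MP_557161_ag.HG.TW
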