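import Pool.Agent.Lib.MP_557161_ag.TW.StF

/-!
The transform in the linear forms.
-/

namespace Pool.Agent.Lib.MP_557161_ag.HG.TW

open Pool.Agent.Lib.MP_557161_ag.DL Matrix

namespace F3a

variable {K : Type} [Field K] {ρ σ : Type} [Fintype ρ] [DecidableEq ρ] [Fintype σ] [DecidableEq σ]
  (F : FD K ρ σ) (o : Option (Option σ × ρ) → ℕ)
  (e : Option (Option σ × ρ) ⊕ ρ ≃ Option ρ ⊕ Option σ × ρ)

/-- The space before the transform. -/
noncomputable def V0 : WD K (zc ρ σ) :=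
  (mkW ((ASp.univ K (zc ρ σ)).cl
      (fun L z => ∀ j, F.io L z.1.1 j * z.2.2 j = 1 ∧
        F.io L z.1.1 j * fromRows (z.1.2 j) (z.2.1 j) = 0)
      fun _ _ R _ _ _ _ h q j =>
        ⟨Rel.meq (Rel.mmul (F.io_rel R h.1.1 j) (h.2.2 j)) Rel.mone (q j).1,
          Rel.meq (Rel.mmul (F.io_rel R h.1.1 j) (Rel.mrows (h.1.2 j) (h.2.1 j))) Rel.mzero (q j).2⟩)
    (F.ZZ e).φ (F.ZZ e).g (fun _ _ R _ _ _ _ h => FD.ph_rel R h.1.1)
    fun _ _ R _ _ _ _ h => R.mul (Rel.prod _ fun i _ => h.1.1.1.2 i)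
      (Rel.prod _ fun j _ => Rel.rdt _ (Rel.mcols (h.2.2 j) (Rel.mrows (h.1.2 j) (h.2.1 j))))).cpl
    (fun _ z => ∑ j, z.2.1 j = 0 ∧ (umx z.2.1).det = 0)
    fun _ _ _ _ _ _ _ h q => ⟨Rel.meq (Rel.msum _ fun j _ => h.2.1 j) Rel.mzero q.1,
      Rel.eq_zero (Rel.det (rel_umx h.2.1)) q.2⟩

/-- The coefficients of the linear phase. -/
def fl (L : Fld K) (z : (zc ρ σ).X L) : Option ρ ⊕ ρ × (Option σ × ρ) → L :=
  Sum.elim (fun i => ((∑ j, z.1.2 j) * frm L ρ) i i) fun x => (∑ j, z.2.1 j) x.2 x.1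

lemma fl_reg : Reg (V0 F e).S (.vec _) fl := fun _ _ R _ _ _ _ h k => by
  cases k with
  | inl i => exact Rel.mmul (Rel.msum _ fun j _ => h.1.2 j) (R.mfrm ρ) i i
  | inr x => exact Rel.msum _ (fun j _ => h.2.1 j) _ _

lemma sub {p : ℕ} [h3 : V3 K p] : Imp p (F.ZZ e) ((V0 F e).zer fl (fl_reg F e)) := by
  intro cc d
  refine h3.sub ((V0 F e).zer fl (fl_reg F e)) (F.ZZ e)
    ⟨⟨⟨Reg.id _, fun L z m => ⟨⟨⟨trivial, m.2.1⟩, fun q => m.1.2 q.2⟩, ?_⟩⟩,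
    fun _ _ _ => rfl⟩, fun _ _ _ => rfl⟩ fun L z m _ => ?_
  · rintro (i | x)
    · exact m.2.2.2 i
    · change (∑ j, z.2.1 j) x.2 x.1 = 0
      rw [m.2.2.1]
      rfl
  · have k : ∑ j, z.2.1 j = 0 := Matrix.ext fun t l => m.2 (.inr (l, t))
    exact ⟨⟨trivial, fun q => m.1.2 ⟨k, q⟩⟩, m.1.1.2, k, fun i => m.2 (.inl i)⟩

/-- The shape of the source. -/
abbrev xs (ρ σ : Type) [Finite ρ] [Finite σ] : Cd :=
  ((sc ρ (Option σ × ρ)).prod (.pi (Option (Option σ)) (.mat ρ (Option (Option σ × ρ))))).prod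
    (.pi (Option (Option σ)) (.mat ρ ρ))

/-- The shape of the target. -/
abbrev ys (ρ σ : Type) [Finite ρ] [Finite σ] : Cd :=
  (zc ρ σ).prod (.vec (Option ρ ⊕ ρ × (Option σ × ρ)))

/-- The square matrix. -/
noncomputable def MM (L : Fld K) (z : (sc ρ (Option σ × ρ)).X L) (j : Option (Option σ)) :
    Matrix (Option (Option σ × ρ) ⊕ ρ) (Option ρ ⊕ Option σ × ρ) L :=
  fromRows (F.io L z.1 j) (phm z.2.1 z.2.2)

/-- A block matrix. -/
def bk {L : Type} [Field L] {n : Type} [DecidableEq n] (m : Matrix ρ n L) (h : Matrix ρ ρ L) :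
    Matrix (n ⊕ ρ) (n ⊕ ρ) L := fromBlocks 1 0 m h

/-- The right inverse and the kernel. -/
noncomputable def NN (L : Fld K) (x : (xs ρ σ).X L) (j : Option (Option σ)) :
    Matrix (Option ρ ⊕ Option σ × ρ) (Option (Option σ × ρ) ⊕ ρ) L :=
  iv e (MM F L x.1.1 j) * bk (x.1.2 j) (x.2 j)

/-- The embedding. -/
noncomputable def ff (L : Fld K) (x : (xs ρ σ).X L) : (ys ρ σ).X L :=
  (((x.1.1.1, fun j => (NN F e L x j).submatrix .inl .inr),
    fun j => (NN F e L x j).submatrix .inr .inr, fun j => (NN F e L x j).submatrix id .inl),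
    Sum.elim x.1.1.2.1 fun k => x.1.1.2.2 k.1 k.2)

/-- The projection. -/
def pr (L : Fld K) (y : (ys ρ σ).X L) : (sc ρ (Option σ × ρ)).X L :=
  (y.1.1.1, fun i => y.2 (.inl i), Matrix.of fun l t => y.2 (.inr (l, t)))

/-- The inverse. -/
def gg (L : Fld K) (y : (ys ρ σ).X L) : (xs ρ σ).X L :=
  ((pr L y, fun j => phm (pr L y).2.1 (pr L y).2.2 * y.1.2.2 j),
    fun j => phm (pr L y).2.1 (pr L y).2.2 * fromRows (y.1.1.2 j) (y.1.2.1 j))

/-- The function that has to be invertible. -/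
noncomputable def uu (L : Fld K) (x : (xs ρ σ).X L) : L :=
  (∏ j, dt e (MM F L x.1.1 j)) * ∏ j, (x.2 j).det

section
variable {M L : Fld K} (R : Rel M L)

lemma rM {z : (sc ρ (Option σ × ρ)).X M} {z' : (sc ρ (Option σ × ρ)).X L}
    (h : (sc ρ (Option σ × ρ)).lift R.r z z') (j : Option (Option σ)) :
    R.m' (MM F M z j) (MM F L z' j) := Rel.mrows (F.io_rel R h.1 j) (rel_phm h.2.1 h.2.2)

lemma ru {x : (xs ρ σ).X M} {x' : (xs ρ σ).X L} (h : (xs ρ σ).lift R.r x x') :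
    R.r (uu F e M x) (uu F e L x') :=
  R.mul (Rel.prod _ fun j _ => Rel.rdt e (rM F R h.1.1 j)) (Rel.prod _ fun j _ => Rel.det (h.2 j))

lemma rN {x : (xs ρ σ).X M} {x' : (xs ρ σ).X L} (h : (xs ρ σ).lift R.r x x')
    (j : Option (Option σ)) (h0 : dt e (MM F L x'.1.1 j) ≠ 0) :
    R.m' (NN F e M x j) (NN F e L x' j) :=
  Rel.mmul (Rel.miv e (rM F R h.1.1 j) h0) fun a b => by
    cases a <;> cases b
    exacts [Rel.mone _ _, R.zero, h.1.2 j _ _, h.2 j _ _]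

omit [DecidableEq ρ] [DecidableEq σ] in
lemma rp {y : (ys ρ σ).X M} {y' : (ys ρ σ).X L} (h : (ys ρ σ).lift R.r y y') :
    (sc ρ (Option σ × ρ)).lift R.r (pr M y) (pr L y') :=
  ⟨h.1.1.1, fun _ => h.2 _, fun _ _ => h.2 _⟩

omit [DecidableEq σ] in
lemma rg {y : (ys ρ σ).X M} {y' : (ys ρ σ).X L} (h : (ys ρ σ).lift R.r y y') :
    (xs ρ σ).lift R.r (gg M y) (gg L y') :=
  ⟨⟨rp R h, fun j => Rel.mmul (rel_phm (rp R h).2.1 (rp R h).2.2) (h.1.2.2 j)⟩,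
    fun j => Rel.mmul (rel_phm (rp R h).2.1 (rp R h).2.2) (Rel.mrows (h.1.1.2 j) (h.1.2.1 j))⟩

lemma sr_opn {z : (sc ρ (Option σ × ρ)).X M} {z' : (sc ρ (Option σ × ρ)).X L}
    (h : (sc ρ (Option σ × ρ)).lift R.r z z') (m : (F.SR o e).S.mem L z') :
    (F.SR o e).S.mem M z :=
  ⟨⟨⟨trivial, fun i => Rel.ne_zero (h.2.1 i) (m.1.1.2 i)⟩,
    Rel.ne_zero (Rel.det (F.g0_rel R h.1 h.2.1 h.2.2 m.1.1.2)) m.1.2⟩,
    Rel.ne_zero (Rel.det (Rel.mkry o (Rel.mmul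
      (Rel.minv (F.g0_rel R h.1 h.2.1 h.2.2 m.1.1.2) m.1.2)
      (F.g1_rel R h.1 h.2.1 h.2.2 m.1.1.2)))) m.2⟩

end

/-- The source. -/
noncomputable def XX : WD K (xs ρ σ) :=
  (((F.SR o e).prod (Aff K _)).prod (GLs K (Option (Option σ)) ρ)).nz (uu F e)
    fun _ _ R _ _ _ _ h => ru F e R h

/-- The target. -/
noncomputable abbrev YY : WD K (ys ρ σ) := (V0 F e).lin fl (fl_reg F e)

/-- The image. -/
noncomputable def UU : ASp K (ys ρ σ) :=
  (YY F e).S.opn (fun L y => (F.SR o e).S.mem L (pr L y) ∧ ∀ j, ((gg L y).2 j).det ≠ 0)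
    fun _ _ R _ _ _ _ h q => ⟨sr_opn F o e R (rp R h) q.1,
      fun j => Rel.ne_zero (Rel.det ((rg R h).2 j)) (q.2 j)⟩

variable {F o e} [hD : DA] {L : Fld K}

omit hD in
lemma d_ne {x : (xs ρ σ).X L} (m : (XX F o e).S.mem L x) (j : Option (Option σ)) :
    dt e (MM F L x.1.1 j) ≠ 0 :=
  Finset.prod_ne_zero_iff.1 (left_ne_zero_of_mul m.2) j (Finset.mem_univ j)

omit hD in
lemma h_ne {x : (xs ρ σ).X L} (m : (XX F o e).S.mem L x) (j : Option (Option σ)) :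
    (x.2 j).det ≠ 0 :=
  Finset.prod_ne_zero_iff.1 (right_ne_zero_of_mul m.2) j (Finset.mem_univ j)

lemma dt_mn {A : Matrix (Option (Option σ × ρ) ⊕ ρ) (Option ρ ⊕ Option σ × ρ) L}
    {N : Matrix (Option ρ ⊕ Option σ × ρ) (Option (Option σ × ρ) ⊕ ρ) L}
    {m : Matrix ρ (Option (Option σ × ρ)) L} {h : Matrix ρ ρ L}
    (k : A * N = bk m h) : dt e A * dt e.symm N = h.det := by
  rw [← hD.dt_mul, k, Equiv.self_trans_symm, dt, Equiv.coe_refl, submatrix_id_id, bk,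
    det_fromBlocks_zero₁₂, det_one, one_mul]

lemma mn {x : (xs ρ σ).X L} (m : (XX F o e).S.mem L x) (j : Option (Option σ)) :
    MM F L x.1.1 j * NN F e L x j = bk (x.1.2 j) (x.2 j) := by
  rw [NN, ← Matrix.mul_assoc, (hD.iv_mul e _ (d_ne m j)).1, Matrix.one_mul]

omit hD [Fintype ρ] [DecidableEq ρ] [Fintype σ] [DecidableEq σ] in
lemma cols {a b c d : Type} (N : Matrix (a ⊕ b) (c ⊕ d) L) :
    fromCols (N.submatrix id .inl) (fromRows (N.submatrix .inl .inr) (N.submatrix .inr .inr)) =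
      N := by
  ext (i | i) (j | j) <;> rfl

lemma mn' {x : (xs ρ σ).X L} (m : (XX F o e).S.mem L x) (j : Option (Option σ)) :
    (F.io L x.1.1.1 j * (ff F e L x).1.2.2 j = 1 ∧
      F.io L x.1.1.1 j * fromRows ((ff F e L x).1.1.2 j) ((ff F e L x).1.2.1 j) = 0) ∧
    phm x.1.1.2.1 x.1.1.2.2 * (ff F e L x).1.2.2 j = x.1.2 j ∧
      phm x.1.1.2.1 x.1.1.2.2 * fromRows ((ff F e L x).1.1.2 j) ((ff F e L x).1.2.1 j) = x.2 j := by
  have k := mn m j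
  rw [← cols (NN F e L x j), MM, fromRows_mul_fromCols, bk, fromBlocks_inj] at k
  exact ⟨⟨k.1, k.2.1⟩, k.2.2⟩

omit hD in
lemma mg {y : (ys ρ σ).X L} (m : (YY F e).S.mem L y) (j : Option (Option σ)) :
    MM F L (pr L y) j * fromCols (y.1.2.2 j) (fromRows (y.1.1.2 j) (y.1.2.1 j)) =
      bk ((gg L y).1.2 j) ((gg L y).2 j) := by
  rw [MM, fromRows_mul_fromCols, bk, fromBlocks_inj]
  exact ⟨(m.1.1.2 j).1, (m.1.1.2 j).2, rfl, rfl⟩

variable [h4 : F4 K]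

lemma mem_f {x : (xs ρ σ).X L} (m : (XX F o e).S.mem L x) : (YY F e).S.mem L (ff F e L x) :=
  ⟨⟨⟨trivial, fun j => (mn' m j).1⟩, fun q => h4.det F o e L x.1.1 (ff F e L x).1.1.2
    (ff F e L x).1.2.1 m.1.1.1 (fun j => (mn' m j).1.2) q.1 (d_ne m _)
    (by rw [(mn' m _).2.2]; exact h_ne m _) q.2⟩, trivial⟩

omit h4 in
lemma gf {x : (xs ρ σ).X L} (m : (XX F o e).S.mem L x) : gg L (ff F e L x) = x :=
  Prod.ext (Prod.ext rfl (funext fun j => (mn' m j).2.1)) (funext fun j => (mn' m j).2.2)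

omit hD h4 in
lemma reg_f : Reg (XX F o e).S _ (ff F e) := fun _ _ R _ _ _ m' h =>
  ⟨⟨⟨h.1.1.1, fun j => Rel.msubm (rN F e R h j (d_ne m' j)) _ _⟩,
    fun j => Rel.msubm (rN F e R h j (d_ne m' j)) _ _,
    fun j => Rel.msubm (rN F e R h j (d_ne m' j)) _ _⟩, fun k => by
    cases k
    exacts [h.1.1.2.1 _, h.1.1.2.2 _ _]⟩

lemma iso : Iso (XX F o e).S (UU F o e) (ff F e) gg where
  mf := ⟨reg_f, fun L x m => ⟨mem_f m, m.1.1.1, fun j => by rw [gf m]; exact h_ne m j⟩⟩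
  mg := ⟨fun _ _ R _ _ _ _ h => rg R h, fun L y m => ⟨⟨⟨m.2.1, trivial⟩, trivial⟩,
    mul_ne_zero (Finset.prod_ne_zero_iff.2 fun j _ =>
      left_ne_zero_of_mul ((dt_mn (e := e) (mg m.1 j)).trans_ne (m.2.2 j)))
      (Finset.prod_ne_zero_iff.2 fun j _ => m.2.2 j)⟩⟩
  gf L x m := gf m
  fg L y m := by
    have k : ∀ j, NN F e L (gg L y) j =
        fromCols (y.1.2.2 j) (fromRows (y.1.1.2 j) (y.1.2.1 j)) := fun j => by
      rw [NN, ← mg m.1 j, ← Matrix.mul_assoc]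
      change iv e (MM F L (pr L y) j) * _ * _ = _
      rw [(hD.iv_mul e _ (left_ne_zero_of_mul
        ((dt_mn (e := e) (mg m.1 j)).trans_ne (m.2.2 j)))).2.1, Matrix.one_mul]
    refine Prod.ext (Prod.ext (Prod.ext rfl ?_) (Prod.ext ?_ ?_)) (funext ?_)
    · funext j
      change (NN F e L (gg L y) j).submatrix _ _ = _
      rw [k]
      rfl
    · funext j
      change (NN F e L (gg L y) j).submatrix _ _ = _
      rw [k]
      rfl
    · funext j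
      change (NN F e L (gg L y) j).submatrix _ _ = _
      rw [k]
      rfl
    · rintro (i | i) <;> rfl

omit hD h4 in
lemma tr_eq (y : (ys ρ σ).X L) : ∑ k, y.2 k * fl L y.1 k = ∑ j, ((gg L y).2 j).trace := by
  have k : ∑ j, (gg L y).2 j = frm L ρ * (diagonal (pr L y).2.1 * ∑ j, y.1.1.2 j) +
      (pr L y).2.2 * ∑ j, y.1.2.1 j := by
    simp only [gg, phm, fromCols_mul_fromRows, Finset.sum_add_distrib, Matrix.mul_sum,
      Matrix.mul_assoc]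
  rw [← trace_sum, k, trace_add, trace_mul_comm, Matrix.mul_assoc, Fintype.sum_sum_type,
    Fintype.sum_prod_type]
  congr 1
  exact Finset.sum_congr rfl fun i _ => by rw [diag_apply, diagonal_mul]; rfl

lemma wmp : WMp (XX F o e) (YY F e) (ff F e) (fun L x => ∏ j, dt e (MM F L x.1.1 j)) 1 where
  reg := reg_f
  mem _ _ m := mem_f m
  ph L x m := by
    change FD.ph L x.1.1.1 + ∑ k, (ff F e L x).2 k * fl L (ff F e L x).1 k =
      FD.ph L x.1.1.1 + 0 + ∑ j, (x.2 j).trace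
    rw [tr_eq, gf m, add_zero]
  rh _ _ R _ _ _ _ h := Rel.prod _ fun j _ => Rel.rdt e (rM F R h.1.1 j)
  h0 _ _ m := left_ne_zero_of_mul m.2
  a0 := one_ne_zero
  gh L x m := by
    change (∏ i, x.1.1.1.1.2 i) * (∏ j, dt e (MM F L x.1.1 j)) * 1 * ∏ j, (x.2 j).det =
      _ * ((∏ i, x.1.1.1.1.2 i) * (∏ j, dt e.symm (fromCols ((NN F e L x j).submatrix id .inl)
        (fromRows ((NN F e L x j).submatrix .inl .inr) ((NN F e L x j).submatrix .inr .inr)))) * _)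
    have k : ∀ j, (x.2 j).det = dt e (MM F L x.1.1 j) * dt e.symm (NN F e L x j) :=
      fun j => (dt_mn (mn m j)).symm
    simp only [cols, k, Finset.prod_mul_distrib, map_one]
    ring

end F3a

variable {K : Type} [Field K] {p : ℕ}

open F3a in
theorem F3_thm (_h2 : (2 : K) ≠ 0) [DA] [h3 : V3 K p] [hG : FG K p] [F4 K] : F3 K p where
  imp {ρ σ} _ _ _ _ F o e := by
    intro cc d
    exact Imp.trans (sub F e) (Imp.trans (h3.lin _ fl (fl_reg F e)).1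
      (Imp.trans (h3.emb (UU F o e) wmp iso fun M O x x' m m' l =>
        ⟨m, sr_opn F o e _ (rp _ l) m'.2.1, fun j => Rel.ne_zero (Rel.det ((rg _ l).2 j)) (m'.2.2 j)⟩)
      (Imp.trans (h3.nz _ (uu F e) _ fun L x _ q => by
        change (∏ i, x.1.1.1.1.2 i) * (∏ j, dt e (MM F L x.1.1 j)) * 1 * ∏ j, (x.2 j).det = 0
        rw [mul_one, mul_assoc]
        exact mul_eq_zero_of_right _ q)
      (Imp.trans (h3.prodL _ (hG.imp _ ρ F.ha.ev)) (Imp.trans (h3.pt _).2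
        (Imp.trans (h3.prodL _ (h3.aff _).2) (h3.pt _).2))))))

end Pool.Agent.Lib.MP_557161_ag.HG.TW
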