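import Mathlib

/-!
The linear algebra behind step F4: the kernels of a cyclic pencil at the nodes span everything.
-/

namespace Pool.Agent.Lib.MP_557161_ag.HG.TW

open Matrix

variable {L : Type*} [Field L] {ν A J ρ : Type*} [Fintype ν] [DecidableEq ν]

/-- A subspace of row vectors that is stable under an invertible matrix is stable under its
inverse. -/
lemma F4c_stab (S : Submodule L (ν → L)) (R Z : Matrix ν ν L) (h : R * Z = 1)
    (hS : ∀ la ∈ S, la ᵥ* R ∈ S) : ∀ la ∈ S, la ᵥ* Z ∈ S := by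
  intro la hla
  let f : S →ₗ[L] S := (R.vecMulLinear).restrict (p := S) (q := S) fun x hx => hS x hx
  have hi : Function.Injective f := by
    intro x y e
    have e1 : (x : ν → L) ᵥ* R = (y : ν → L) ᵥ* R := congrArg Subtype.val e
    have e2 := congrArg (· ᵥ* Z) e1
    simp only [vecMul_vecMul, h, vecMul_one] at e2
    exact Subtype.ext e2
  obtain ⟨x, hx⟩ := (LinearMap.injective_iff_surjective.1 hi) ⟨la, hla⟩
  have e1 : (x : ν → L) ᵥ* R = la := congrArg Subtype.val hx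
  have e2 : la ᵥ* Z = x := by rw [← e1, vecMul_vecMul, h, vecMul_one]
  rw [e2]; exact x.2

/-- Step F4. The vectors `u j l` are the columns of the lower parts of the kernels. -/
theorem F4c [Fintype A] [Fintype J] (Y : Matrix ν ν L) (e0 : ν → L) (a : A → L) (b : J → L)
    (w : A → ν → L) (p : J → A → ρ → L) (p0 : A → ρ → L) (u : J → ρ → ν → L) (j1 : J)
    (hb : Function.Injective b) (hab : ∀ i, a i ≠ b j1)
    (hcyc : ∀ la : ν → L, (∀ m : ℕ, la ⬝ᵥ (Y ^ m *ᵥ e0) = 0) → la = 0)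
    (hw0 : ∑ i, w i = e0) (hw1 : ∑ i, a i • w i = Y *ᵥ e0)
    (hdet : (Y - b j1 • (1 : Matrix ν ν L)).det ≠ 0)
    (hrel : ∀ j l, ∑ i, ((a i - b j) * p j i l) • w i +
      (Y - b j • (1 : Matrix ν ν L)) *ᵥ u j l = 0)
    (hsum : ∀ l, ∑ j, u j l = ∑ i, p0 i l • w i)
    (hind : ∀ t : A → L, ∑ i, t i = 0 → (∀ l, ∑ i, t i * p j1 i l = 0) → t = 0)
    (la : ν → L) (h0 : la ⬝ᵥ e0 = 0) (hu : ∀ j l, la ⬝ᵥ u j l = 0) : la = 0 := by
  classical
  set Z : Matrix ν ν L := Y - b j1 • (1 : Matrix ν ν L) with hZ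
  have hRZ : Z⁻¹ * Z = 1 := nonsing_inv_mul _ (Ne.isUnit hdet)
  let S : Submodule L (ν → L) :=
    { carrier := {x | x ⬝ᵥ e0 = 0 ∧ ∀ j l, x ⬝ᵥ u j l = 0}
      add_mem' := fun {x y} hx hy => ⟨by rw [add_dotProduct, hx.1, hy.1, add_zero],
        fun j l => by rw [add_dotProduct, hx.2, hy.2, add_zero]⟩
      zero_mem' := ⟨zero_dotProduct _, fun _ _ => zero_dotProduct _⟩
      smul_mem' := fun c x hx => ⟨by rw [smul_dotProduct, hx.1, smul_zero],
        fun j l => by rw [smul_dotProduct, hx.2, smul_zero]⟩ }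
  have hS : ∀ x ∈ S, x ᵥ* Z⁻¹ ∈ S := by
    rintro x ⟨x0, xu⟩
    set x' := x ᵥ* Z⁻¹ with hx'
    have hxz : ∀ v, x' ⬝ᵥ (Z *ᵥ v) = x ⬝ᵥ v := fun v => by
      rw [dotProduct_mulVec, hx', vecMul_vecMul, hRZ, vecMul_one]
    have hy : ∀ v, x' ⬝ᵥ (Y *ᵥ v) = x ⬝ᵥ v + b j1 * (x' ⬝ᵥ v) := fun v => by
      have := hxz v
      rw [hZ, sub_mulVec, dotProduct_sub, smul_mulVec, one_mulVec, dotProduct_smul,
        smul_eq_mul] at this
      linear_combination this
    have hr : ∀ j l, ∑ i, ((a i - b j) * p j i l) * (x' ⬝ᵥ w i) + (b j1 - b j) * (x' ⬝ᵥ u j l)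
        = 0 := fun j l => by
      have := congrArg (x' ⬝ᵥ ·) (hrel j l)
      simp only [dotProduct_add, dotProduct_sum, dotProduct_smul, smul_eq_mul, sub_mulVec,
        dotProduct_sub, smul_mulVec, one_mulVec, dotProduct_zero, hy, xu] at this
      linear_combination this
    have ht : (fun i => (a i - b j1) * (x' ⬝ᵥ w i)) = 0 := by
      apply hind
      · have e1 := congrArg (x' ⬝ᵥ ·) hw1
        have e2 := congrArg (x' ⬝ᵥ ·) hw0
        simp only [dotProduct_sum, dotProduct_smul, smul_eq_mul, hy, x0] at e1 e2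
        simp only [sub_mul, Finset.sum_sub_distrib, ← Finset.mul_sum, e1, e2]
        ring
      · intro l
        have := hr j1 l
        rw [sub_self, zero_mul, add_zero] at this
        rw [← this]
        exact Finset.sum_congr rfl fun i _ => by ring
    have hw : ∀ i, x' ⬝ᵥ w i = 0 := fun i =>
      (mul_eq_zero.1 (congrFun ht i)).resolve_left (sub_ne_zero.2 (hab i))
    have hj : ∀ j, j ≠ j1 → ∀ l, x' ⬝ᵥ u j l = 0 := fun j hj l => by
      have := hr j l
      simp only [hw, mul_zero, Finset.sum_const_zero, zero_add] at this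
      exact (mul_eq_zero.1 this).resolve_left (sub_ne_zero.2 fun e => hj (hb e).symm)
    refine ⟨by rw [← hw0, dotProduct_sum]; simp only [hw, Finset.sum_const_zero], fun j l => ?_⟩
    by_cases e : j = j1
    · have := congrArg (x' ⬝ᵥ ·) (hsum l)
      simp only [dotProduct_sum, dotProduct_smul, hw, smul_zero, Finset.sum_const_zero] at this
      rw [Finset.sum_eq_single j1 (fun k _ hk => hj k hk l) (by simp)] at this
      rw [e]; exact this
    · exact hj j e l
  have hZ' := F4c_stab S _ _ hRZ hS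
  have hY : ∀ x ∈ S, x ᵥ* Y ∈ S := fun x hx => by
    have e : x ᵥ* Y = x ᵥ* Z + b j1 • x := by
      rw [hZ, vecMul_sub, vecMul_smul, vecMul_one]; abel
    rw [e]; exact S.add_mem (hZ' x hx) (S.smul_mem _ hx)
  have hm : ∀ m : ℕ, la ᵥ* Y ^ m ∈ S := by
    intro m
    induction m with
    | zero => rw [pow_zero, vecMul_one]; exact ⟨h0, hu⟩
    | succ m ih => rw [pow_succ, ← vecMul_vecMul]; exact hY _ ih
  exact hcyc la fun m => by rw [dotProduct_mulVec]; exact (hm m).1

/-- A nonzero Krylov determinant gives the cyclicity hypothesis of `F4c`. -/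
lemma F4c_cyc (Y : Matrix ν ν L) (e0 : ν → L) (d : ν → ℕ)
    (h : (Matrix.of fun i k => (Y ^ d k *ᵥ e0) i).det ≠ 0) (la : ν → L)
    (hla : ∀ m : ℕ, la ⬝ᵥ (Y ^ m *ᵥ e0) = 0) : la = 0 :=
  Matrix.eq_zero_of_vecMul_eq_zero h (funext fun k => hla (d k))

/-- A square matrix without left kernel has nonzero determinant. -/
lemma F4c_det (U : Matrix ν ν L) (h : ∀ ka : ν → L, ka ᵥ* U = 0 → ka = 0) : U.det ≠ 0 := by
  intro e
  obtain ⟨v, hv, e'⟩ := Matrix.exists_vecMul_eq_zero_iff.2 e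
  exact hv (h v e')

end Pool.Agent.Lib.MP_557161_ag.HG.TW
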