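import Pool.Agent.Lib.MP_557161_ag.TW.StF
import Pool.Agent.Lib.MP_557161_ag.TW.F4c

/-!
The lower parts of the kernels of a cyclic pencil span.
-/

namespace Pool.Agent.Lib.MP_557161_ag.HG.TW

open Pool.Agent.Lib.MP_557161_ag.DL Matrix

namespace F4x

variable {L : Type} [Field L] {ρ τ m n : Type} [Fintype ρ] [DecidableEq ρ] [Fintype τ]

omit [Fintype ρ] [DecidableEq ρ] in
lemma ccn_rc (I : Matrix m τ L) (u : Matrix τ n L) : ccn 0 I * rc 0 u = I * u := by
  ext i j
  simp [mul_apply, Fintype.sum_option, ccn, rc]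

omit [Fintype ρ] [DecidableEq ρ] in
lemma ccn_vec (I : Matrix m τ L) (v : Option τ → L) : ccn 0 I *ᵥ v = I *ᵥ fun t => v (some t) := by
  ext i
  simp [mulVec, dotProduct, Fintype.sum_option, ccn]

omit [Fintype τ] in
lemma frm_khm {d : Option ρ → L} (hd : ∀ i, d i ≠ 0) (c : Matrix ρ τ L) :
    frm L ρ * diagonal d * khm d c = -ccn 0 c := by
  rw [khm, Matrix.mul_assoc, ← Matrix.mul_assoc (diagonal d), diagonal_mul_diagonal]
  simp only [mul_inv_cancel₀ (hd _), diagonal_one, Matrix.one_mul]
  ext l x
  cases x <;> simp [mul_apply, Fintype.sum_option, ccn, rc, frm, one_apply]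

omit [Fintype τ] in
lemma khm_none (d : Option ρ → L) (c : Matrix ρ τ L) (i : Option ρ) : khm d c i none = (d i)⁻¹ := by
  simp [khm, ccn]

lemma dt_inj [Fintype m] [DecidableEq m] [Fintype n] (e : m ≃ n) {M : Matrix m n L}
    (h : dt e M ≠ 0) {x : n → L} (hx : M *ᵥ x = 0) : x = 0 := by
  have h1 : M.submatrix id e *ᵥ (x ∘ e) = 0 := by
    rw [submatrix_mulVec_equiv]
    simpa [Function.comp_assoc] using hx
  have h2 := eq_zero_of_mulVec_eq_zero h h1
  exact funext fun a => by simpa using congrFun h2 (e.symm a)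

theorem core [DecidableEq τ] {J : Type} [Fintype J] (a : Option ρ → L) (b : J → L) (j1 : J)
    (hb : Function.Injective b) (hab : ∀ i, a i ≠ b j1) (W : Matrix (Option τ) (Option ρ) L)
    (I0 I1 : Matrix (Option τ) τ L) (d : Option ρ → L) (c : Matrix ρ τ L) (hd : ∀ i, d i ≠ 0)
    (g0 g1 : Matrix (Option τ) (Option τ) L) (e0 : g0 = W * khm d c + ccn 0 I0)
    (e1 : g1 = W * diagonal a * khm d c + ccn 0 I1) (hg : g0.det ≠ 0) (o : Option τ → ℕ)
    (hk : (kry o (g0⁻¹ * g1)).det ≠ 0) (p : Option J → Matrix (Option ρ) ρ L)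
    (u : Option J → Matrix τ ρ L) (h0 : fromCols W I0 * fromRows (p none) (u none) = 0)
    (h1 : ∀ j, fromCols (W * diagonal fun i => a i - b j) (I1 - b j • I0) *
      fromRows (p (some j)) (u (some j)) = 0) (hs : ∑ j, u j = 0)
    (e : Option τ ⊕ ρ ≃ Option ρ ⊕ τ)
    (h2 : dt e (fromRows (fromCols (W * diagonal fun i => a i - b j1) (I1 - b j1 • I0))
      (phm d c)) ≠ 0) (h3 : (phm d c * fromRows (p (some j1)) (u (some j1))).det ≠ 0)
    (ka : τ → L) (hka : ∀ j, ka ᵥ* u (some j) = 0) : ka = 0 := by
  have hgi : g0⁻¹ * g0 = 1 := nonsing_inv_mul _ (Ne.isUnit hg)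
  have eg : ∀ t : L, g1 - t • g0 = W * diagonal (fun i => a i - t) * khm d c +
      ccn 0 (I1 - t • I0) := fun t => by
    have : (diagonal fun i => a i - t) = diagonal a - t • (1 : Matrix _ _ L) := by
      ext i j
      by_cases h : i = j <;> simp [h]
    rw [e0, e1, this, Matrix.mul_sub, Matrix.sub_mul, Matrix.mul_smul, Matrix.mul_one,
      Matrix.smul_mul]
    ext i j
    cases j <;> simp [ccn] <;> ring
  have eY : ∀ t : L, g0⁻¹ * g1 - t • (1 : Matrix _ _ L) = g0⁻¹ * (g1 - t • g0) := fun t => by
    rw [Matrix.mul_sub, Matrix.mul_smul, hgi]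
  let p' : Option J → Matrix (Option ρ) ρ L := fun j => diagonal d * (p j - khm d c * rc 0 (u j))
  let W' : Matrix (Option τ) (Option ρ) L := g0⁻¹ * W * diagonal fun i => (d i)⁻¹
  have hW : ∀ (t : Option ρ → L) (j), W' * (diagonal t * p' j) =
      g0⁻¹ * (W * diagonal t * (p j - khm d c * rc 0 (u j))) := fun t j => by
    have : (diagonal fun i => (d i)⁻¹) * (diagonal t * diagonal d) = diagonal t := by
      rw [diagonal_mul_diagonal, diagonal_mul_diagonal]
      exact congrArg _ (funext fun i => by field_simp [hd i])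
    simp only [W', p', Matrix.mul_assoc]
    rw [← Matrix.mul_assoc (diagonal t), ← Matrix.mul_assoc (diagonal _), this]
  have hcol : ∀ (q : Matrix (Option ρ) ρ L) (l : ρ),
      ∑ i, q i l • (fun x => W' x i) = fun x => (W' * q) x l := fun q l => by
    ext x
    simp [mul_apply, Finset.sum_apply, mul_comm]
  have hW1 : ∀ t : Option ρ → L, ∑ i, t i • (fun x => W' x i) =
      fun x => (g0⁻¹ * (W * diagonal t * khm d c)) x none := fun t => by
    ext x
    rw [← Matrix.mul_assoc, ← Matrix.mul_assoc, mul_apply]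
    simp [W', Finset.sum_apply, khm_none, mul_comm, mul_left_comm]
  have key := F4c (g0⁻¹ * g1) (Pi.single none 1) a b (fun i x => W' x i)
    (fun j i l => p' (some j) i l) (fun i l => p' none i l) (fun j l x => rc 0 (u (some j)) x l) j1
    hb hab (F4c_cyc _ _ o hk) ?_ ?_ ?_ ?_ ?_ ?_ (fun x => x.elim 0 ka) (by simp) fun j l => by
      simpa [dotProduct, Fintype.sum_option, rc, vecMul] using congrFun (hka j) l
  · exact funext fun t => congrFun key (some t)
  · have := hW1 fun _ => 1
    simp only [one_smul, diagonal_one, Matrix.mul_one] at this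
    rw [this]
    ext x
    have h := congrFun (congrFun hgi x) none
    rw [Pi.single_apply, ← one_apply, ← h]
    simp [e0, mul_apply, ccn]
  · rw [hW1]
    ext x
    simp [e1, mul_apply, ccn]
  · rw [eY, det_mul]
    refine mul_ne_zero (isUnit_nonsing_inv_det _ (Ne.isUnit hg)).ne_zero fun h => ?_
    obtain ⟨v, hv, ev⟩ := exists_mulVec_eq_zero_iff.2 h
    have hx := dt_inj e h2 (x := Sum.elim (khm d c *ᵥ v) fun t => v (some t)) (by
      rw [fromRows_mulVec, phm, fromCols_mulVec_sumElim, fromCols_mulVec_sumElim, mulVec_mulVec,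
        mulVec_mulVec, ← ccn_vec, ← add_mulVec, ← eg, ev, frm_khm hd, neg_mulVec, ccn_vec,
        neg_add_cancel]
      simp)
    have hs : ∀ t, v (some t) = 0 := fun t => congrFun hx (Sum.inr t)
    have hn := congrFun hx (Sum.inl none)
    simp only [Sum.elim_inl, mulVec, dotProduct, Fintype.sum_option, hs, mul_zero,
      Finset.sum_const_zero, add_zero, khm_none, Pi.zero_apply, mul_eq_zero, inv_eq_zero, hd,
      false_or] at hn
    exact hv (funext fun x => by cases x; exacts [hn, hs _])
  · intro j l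
    have h := h1 j
    rw [fromCols_mul_fromRows] at h
    have h' : W' * (diagonal (fun i => a i - b j) * p' (some j)) +
        (g0⁻¹ * g1 - b j • (1 : Matrix _ _ L)) * rc 0 (u (some j)) = 0 := by
      rw [hW, eY, Matrix.mul_assoc g0⁻¹, ← Matrix.mul_add, eg, Matrix.add_mul, ccn_rc,
        Matrix.mul_sub, Matrix.mul_assoc _ (khm d c), ← add_assoc, sub_add_cancel, h,
        Matrix.mul_zero]
    have h4 := hcol (diagonal (fun i => a i - b j) * p' (some j)) l
    simp only [diagonal_mul] at h4
    rw [h4]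
    ext x
    exact congrFun (congrFun h' x) l
  · intro l
    rw [fromCols_mul_fromRows] at h0
    have h5 : W' * p' none = -rc 0 (u none) := by
      have := hW (fun _ => 1) none
      simp only [diagonal_one, Matrix.one_mul, Matrix.mul_one] at this
      have h9 : W * (p none - khm d c * rc 0 (u none)) = -(g0 * rc 0 (u none)) := by
        rw [eq_neg_iff_add_eq_zero, e0, Matrix.add_mul, ccn_rc, Matrix.mul_sub, Matrix.mul_assoc W,
          ← add_assoc, sub_add_cancel, h0]
      rw [this, h9, Matrix.mul_neg, ← Matrix.mul_assoc, hgi, Matrix.one_mul]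
    rw [hcol, h5]
    ext x
    rw [Fintype.sum_option] at hs
    cases x with
    | none => simp [Finset.sum_apply, rc]
    | some t =>
      have := congrFun (congrFun hs t) l
      simp only [Matrix.add_apply, Matrix.sum_apply, Matrix.zero_apply] at this
      simp only [Finset.sum_apply, rc, of_apply, Option.elim_some, Matrix.neg_apply]
      linear_combination this
  · intro t ht hl
    have h6 : frm L ρ * p' (some j1) = phm d c * fromRows (p (some j1)) (u (some j1)) := by
      rw [phm, fromCols_mul_fromRows, ← Matrix.mul_assoc, Matrix.mul_sub,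
        ← Matrix.mul_assoc _ (khm d c), frm_khm hd, Matrix.neg_mul, ccn_rc, sub_neg_eq_add]
    have h7 : (fun l => t (some l)) ᵥ* frm L ρ = t := by
      rw [Fintype.sum_option] at ht
      ext i
      cases i with
      | none =>
        simp only [vecMul, dotProduct, frm, ccn, of_apply, Option.elim_none, mul_neg, mul_one,
          Finset.sum_neg_distrib]
        linear_combination -ht
      | some l => simp [vecMul, dotProduct, frm, ccn, one_apply]
    have h8 := eq_zero_of_vecMul_eq_zero h3 (v := fun l => t (some l)) (by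
      rw [← h6, ← vecMul_vecMul, h7]
      exact funext hl)
    rw [← h7, h8, zero_vecMul]

end F4x

theorem F4_thm {K : Type} [Field K] : F4 K where
  det F o e L z p u hz h hs h2 h3 := F4c_det _ fun ka hka =>
    F4x.core (cv L F.a) (cv L F.b) none ((algebraMap K L).injective.comp F.bi)
      (fun i h => F.ab i none ((algebraMap K L).injective h)) (F.wm L z.1.1) z.1.2.1 z.1.2.2 z.2.1
      z.2.2 hz.1.1.2 _ _ rfl rfl hz.1.2 o hz.2 p u (h none) (fun j => h (some j)) hs e h2 h3 ka
      fun j => funext fun l => congrFun hka (j, l)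

end Pool.Agent.Lib.MP_557161_ag.HG.TW
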