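import Pool.Agent.Lib.MP_557161_ag.TW.StF

/-!
Products of matrix Gauss sums of even size are units.
-/

namespace Pool.Agent.Lib.MP_557161_ag.HG.TW

open Pool.Agent.Lib.MP_557161_ag.DL Matrix

variable {K : Type} [Field K] {p : ℕ}

lemma FG_iso [V3 K p] {c c' : Cd} {X : WD K c} {X' : WD K c'} {f : ∀ L : Fld K, c'.X L → c.X L}
    {f' : ∀ L : Fld K, c.X L → c'.X L} (h : Iso X'.S X.S f f')
    (e : ∀ L x, X.φ L (f L x) = X'.φ L x ∧ X.g L (f L x) = X'.g L x) : Imp p X' X :=
  (V3.iso (h := fun _ _ => 1) (a := 1) ⟨⟨h.mf, fun L x _ => (e L x).1⟩,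
    fun _ _ R _ _ _ _ _ => R.one, fun _ _ _ => one_ne_zero, one_ne_zero,
    fun L x _ => by rw [(e L x).2, map_one, one_mul, one_pow, mul_one]⟩ h).1

theorem FG_thm [V3 K p] [V4 K p] [V5 K p] : FG K p where
  imp β ρ _ _ _ hρ := by
    intro cc d
    have key : Imp p (GLs K β ρ) (Pt K) := by
      refine Fintype.induction_empty_option (P := fun β _ => Imp p (GLs K β ρ) (Pt K))
        (fun α β _ e ih => ?_) ?_ (fun α _ ih => ?_) β
      · let := Fintype.ofEquiv β e.symm
        intro _ _
        refine Imp.trans (FG_iso (X := GLs K α ρ) (X' := GLs K β ρ) (f := fun _ h a => h (e a))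
          (f' := fun _ h b => h (e.symm b)) ⟨⟨fun _ _ _ _ _ _ _ h a => h _, fun _ _ _ => trivial⟩,
            ⟨fun _ _ _ _ _ _ _ h a => h _, fun _ _ _ => trivial⟩,
            fun _ x _ => funext fun b => congrArg x (e.apply_symm_apply b),
            fun _ x _ => funext fun b => congrArg x (e.symm_apply_apply b)⟩
          fun L x => ⟨e.sum_comp fun b => (x b).trace, e.prod_comp fun b => (x b).det⟩) ih
      · exact FG_iso (f := fun _ _ a => a.elim) (f' := fun _ _ a => a.elim)
          ⟨⟨fun _ _ _ _ _ _ _ _ a => a.elim, fun _ _ _ => trivial⟩,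
            ⟨fun _ _ _ _ _ _ _ _ a => a.elim, fun _ _ _ => trivial⟩,
            fun _ _ _ => funext fun a => a.elim, fun _ _ _ => funext fun a => a.elim⟩
          fun L x => ⟨by simp [Pt, triv, mkW, GLs], by simp [Pt, triv, mkW, GLs]⟩
      · have h1 : Imp p (GLw K ρ) (Pt K) :=
          Imp.trans (V5.gl ρ).2 (V4.gg ρ (by rwa [Nat.card_eq_fintype_card])).2
        intro _ _
        refine Imp.trans (FG_iso (X := (GLs K α ρ).prod (GLw K ρ)) (X' := GLs K (Option α) ρ)
          (f := fun _ h => (fun a => h (some a), h none))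
          (f' := fun _ h b => b.elim h.2 h.1)
          ⟨⟨fun _ _ _ _ _ _ _ h => ⟨fun a => h _, h _⟩, fun _ _ _ => ⟨trivial, trivial⟩⟩,
            ⟨fun _ _ _ _ _ _ _ h a => by cases a; exacts [h.2, h.1 _], fun _ _ _ => trivial⟩,
            fun _ x _ => funext fun b => by cases b <;> rfl, fun _ x _ => rfl⟩
          fun L x => ⟨?_, ?_⟩) (Imp.trans (V3.prodL _ h1) (Imp.trans (V3.pt _).2 ih))
        · exact (add_comm _ _).trans (Fintype.sum_option fun b => (x b).trace).symm
        · exact (mul_comm _ _).trans (Fintype.prod_option fun b => (x b).det).symm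
    exact key

end Pool.Agent.Lib.MP_557161_ag.HG.TW
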