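import Pool.Agent.Lib.MP_557161_ag.TW.StF

/-!
Normalisation of the lower parts of the kernels.
-/

namespace Pool.Agent.Lib.MP_557161_ag.HG.TW

open Pool.Agent.Lib.MP_557161_ag.DL Matrix

namespace FZ1

variable {K : Type} [Field K] {ρ σ τ : Type} [Fintype ρ] [DecidableEq ρ] [Fintype σ]
  [DecidableEq σ] [Fintype τ] [DecidableEq τ]

section
variable {L : Type} [Field L]

omit [Fintype τ] [DecidableEq τ] in
lemma umx_ubm {u : Option (Option σ) → Matrix τ ρ L} (h : ∑ j, u j = 0) (j : Option (Option σ)) :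
    umx u * ubm (ρ := ρ) L j = u j := by
  ext t l
  cases j with
  | none =>
    have := congrFun (congrFun h t) l
    rw [Fintype.sum_option, Matrix.add_apply, Matrix.sum_apply] at this
    simp only [Matrix.mul_apply, umx, ubm, of_apply, Option.elim, Fintype.sum_prod_type, mul_ite, mul_neg,
      mul_one, mul_zero, Finset.sum_ite_eq', Finset.mem_univ, if_true, Finset.sum_neg_distrib]
    exact (eq_neg_of_add_eq_zero_left this).symm
  | some j => simp [Matrix.mul_apply, umx, ubm]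

omit [Fintype τ] [DecidableEq τ] in
lemma umx_mul (U : Matrix τ (Option σ × ρ) L) : umx (fun j => U * ubm (ρ := ρ) L j) = U := by
  ext t x
  simp [Matrix.mul_apply, umx, ubm]

omit [Fintype ρ] in
lemma sum_ubm : ∑ j, ubm (ρ := ρ) (σ := σ) L j = 0 := by
  ext ⟨j, k⟩ l
  rw [Fintype.sum_option, Matrix.add_apply, Matrix.sum_apply]
  by_cases h : k = l <;> simp [ubm, h]

lemma usm_ubm (j : Option (Option σ)) : usm (ρ := ρ) L j * ubm (ρ := ρ) L j = 1 := by
  ext l k
  cases j <;> simp [Matrix.mul_apply, usm, ubm, one_apply, ite_and, Fintype.sum_prod_type,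
    eq_comm, neg_ite]

/-- The last rows. -/
def sj (ρ : Type) [DecidableEq ρ] (L : Type) [Field L] (j : Option (Option σ)) :
    Matrix ρ (Option ρ ⊕ Option σ × ρ) L := fromCols 0 (usm L j)

/-- The block diagonal matrix. -/
def bd (ρ : Type) [DecidableEq ρ] (V : Matrix τ τ L) : Matrix (Option ρ ⊕ τ) (Option ρ ⊕ τ) L :=
  fromBlocks 1 0 0 V

lemma bd_mul {V V' : Matrix τ τ L} (h : V * V' = 1) {n : Type} (A : Matrix (Option ρ ⊕ τ) n L) :
    bd ρ V * (bd ρ V' * A) = A := by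
  rw [← Matrix.mul_assoc, bd, bd, fromBlocks_multiply]
  simp [h]

omit [DecidableEq τ] in
lemma bd_rows (V : Matrix τ τ L) (p : Matrix (Option ρ) ρ L) (u : Matrix τ ρ L) :
    bd ρ V * fromRows p u = fromRows p (V * u) := by
  simp [bd, fromBlocks_mul_fromRows]

/-- The change of the basis. -/
def ga (V V' : Matrix τ τ L) (z : (ic ρ τ).X L) : (ic ρ τ).X L :=
  (((V' * z.1.1.1, V' * z.1.1.2), fun i => z.1.2 i * V.det), z.2.1 * V, z.2.2 * V)

omit [DecidableEq ρ] in
lemma ga_ga {V V' : Matrix τ τ L} (h : V * V' = 1) (z : (ic ρ τ).X L) :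
    ga V' V (ga V V' z) = z := by
  simp only [ga, ← Matrix.mul_assoc V, Matrix.mul_assoc _ V, mul_assoc, ← det_mul, h, det_one,
    mul_one, Matrix.one_mul, Matrix.mul_one]

end

section
variable (F : FD K ρ σ) {L : Fld K} {V V' : Matrix τ τ L}

omit [DecidableEq σ] in
lemma io_ga [DA] (h : V * V' = 1) (z : (ic ρ τ).X L) (j : Option (Option σ)) :
    F.io L (ga V V' z) j = F.io L z j * bd ρ V := by
  have : F.wm L (ga V V' z).1 = F.wm L z.1 := by
    ext x i
    simp only [FD.wm, ga, of_apply, ← Matrix.mul_smul, ← Matrix.mul_sub, DA.cf_left, Pi.smul_apply,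
      smul_eq_mul]
    rw [mul_assoc, ← mul_assoc V.det, ← det_mul, h, det_one, one_mul]
  cases j <;> simp only [FD.io, Option.elim, this, bd, fromCols_mul_fromBlocks] <;>
    simp [ga, Matrix.sub_mul]

omit [DecidableEq ρ] in
lemma ph_ga (h : V * V' = 1) (z : (ic ρ τ).X L) : FD.ph L (ga V V' z) = FD.ph L z := by
  have : ∀ (A : Matrix τ (Option τ) L) (B : Matrix (Option τ) τ L),
      (V' * A * (B * V)).trace = (A * B).trace := fun A B => by
    rw [Matrix.mul_assoc, trace_mul_comm, Matrix.mul_assoc, Matrix.mul_assoc, h, Matrix.mul_one]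
  simp only [FD.ph, ga, trace_sub, this]

omit [DecidableEq ρ] in
lemma ga_rel {M : Fld K} {R : Rel M L} {U U' : Matrix τ τ M} (h : R.m' U V) (h' : R.m' U' V')
    {z : (ic ρ τ).X M} {z' : (ic ρ τ).X L} (e : (ic ρ τ).lift R.r z z') :
    (ic ρ τ).lift R.r (ga U U' z) (ga V V' z') :=
  ⟨⟨⟨Rel.mmul h' e.1.1.1, Rel.mmul h' e.1.1.2⟩, fun i => R.mul (e.1.2 i) (Rel.det h)⟩,
    Rel.mmul e.2.1 h, Rel.mmul e.2.2 h⟩

omit [Fintype ρ] [Fintype τ] [DecidableEq τ] in
lemma bd_rel {M : Fld K} {R : Rel M L} {U : Matrix τ τ M} (h : R.m' U V) :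
    R.m' (bd ρ U) (bd ρ V) := fun i j => by
  rcases i with i | i <;> rcases j with j | j
  exacts [Rel.mone i j, R.zero, R.zero, h i j]

end

variable (F : FD K ρ σ) (e : Option (Option σ × ρ) ⊕ ρ ≃ Option ρ ⊕ Option σ × ρ)

/-- The pencil completed to a square matrix. -/
noncomputable def mm (L : Fld K) (z : (ic ρ (Option σ × ρ)).X L) (j : Option (Option σ)) :
    Matrix (Option (Option σ × ρ) ⊕ ρ) (Option ρ ⊕ Option σ × ρ) L :=
  fromRows (F.io L z j) (sj ρ L j)

lemma mm_rel {M L : Fld K} (R : Rel M L) {z : (ic ρ (Option σ × ρ)).X M}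
    {z' : (ic ρ (Option σ × ρ)).X L} (h : (ic ρ (Option σ × ρ)).lift R.r z z')
    (j : Option (Option σ)) : R.m' (mm F M z j) (mm F L z' j) :=
  Rel.mrows (F.io_rel R h j) (Rel.mcols Rel.mzero (rel_usm R j))

/-- The target. -/
noncomputable abbrev tg := ((F.ZX e).prod (GLo K (Option σ × ρ))).prod
  (Aff K (.pi (Option (Option σ)) (.mat ρ (Option (Option σ × ρ)))))

/-- The shape of the target. -/
abbrev tc (ρ σ : Type) [Finite ρ] [Finite σ] : Cd :=
  (((ic ρ (Option σ × ρ)).prod (pc ρ σ)).prod (.mat (Option σ × ρ) (Option σ × ρ))).prod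
    (.pi (Option (Option σ)) (.mat ρ (Option (Option σ × ρ))))

/-- The right inverses in the new basis. -/
noncomputable def zz {L : Fld K} (x : (zc ρ σ).X L) (j : Option (Option σ)) :
    Matrix (Option ρ ⊕ Option σ × ρ) (Option (Option σ × ρ)) L := bd ρ (umx x.2.1)⁻¹ * x.2.2 j

/-- The right inverses given by the parameters. -/
noncomputable def yy {L : Fld K} (y : (tc ρ σ).X L) (j : Option (Option σ)) :
    Matrix (Option ρ ⊕ Option σ × ρ) (Option (Option σ × ρ)) L :=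
  iv e (mm F L y.1.1.1 j) *
    (fromRows 1 (y.2 j) : Matrix (Option (Option σ × ρ) ⊕ ρ) (Option (Option σ × ρ)) L)

/-- The map. -/
noncomputable def fw (L : Fld K) (x : (zc ρ σ).X L) : (tc ρ σ).X L :=
  (((ga (umx x.2.1) (umx x.2.1)⁻¹ x.1.1, x.1.2), umx x.2.1),
    fun j => (sj ρ L j * zz x j :))

/-- The inverse map. -/
noncomputable def bw (L : Fld K) (y : (tc ρ σ).X L) : (zc ρ σ).X L :=
  ((ga y.1.2⁻¹ y.1.2 y.1.1.1, y.1.1.2), fun j => (y.1.2 * ubm (ρ := ρ) L j :),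
    fun j => (bd ρ y.1.2 * yy F e y j :))

variable [DA] {F e} {L : Fld K}

lemma fw_a {x : (zc ρ σ).X L} (m : (F.ZZ e).S.mem L x) (j : Option (Option σ)) :
    mm F L (fw L x).1.1.1 j * zz x j = fromRows 1 ((fw L x).2 j) ∧
      F.io L (fw L x).1.1.1 j * fromRows (x.1.2 j) (ubm (ρ := ρ) L j) = 0 ∧
      dt e (mm F L (fw L x).1.1.1 j) *
        dt e.symm (fromCols (x.2.2 j) (fromRows (x.1.2 j) (x.2.1 j))) = (umx x.2.1).det := by
  obtain ⟨⟨-, d⟩, h, s, -⟩ := m
  have u := mul_nonsing_inv _ (Ne.isUnit d)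
  have a : mm F L (fw L x).1.1.1 j * zz x j = fromRows 1 ((fw L x).2 j) := by
    rw [mm, fromRows_mul, fw, io_ga F u, Matrix.mul_assoc, zz, bd_mul u, (h j).1]
    rfl
  have b : F.io L (fw L x).1.1.1 j * fromRows (x.1.2 j) (ubm (ρ := ρ) L j) = 0 := by
    rw [fw, io_ga F u, Matrix.mul_assoc, bd_rows, umx_ubm s, (h j).2]
  refine ⟨a, b, ?_⟩
  have c := DA.dt_mul e e.symm (mm F L (fw L x).1.1.1 j)
    (fromCols (zz x j) (fromRows (x.1.2 j) (ubm (ρ := ρ) L j)))
  have g := DA.dt_mul (Equiv.refl _) e.symm (bd ρ (umx x.2.1))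
    (fromCols (zz x j) (fromRows (x.1.2 j) (ubm (ρ := ρ) L j)))
  rw [mul_fromCols, zz, bd_mul u, bd_rows, umx_ubm s, Equiv.refl_trans] at g
  rw [mul_fromCols, a, mm, fromRows_mul, b, sj, fromCols_mul_fromRows, Matrix.zero_mul, zero_add,
    usm_ubm, fromCols_fromRows_eq_fromBlocks, Equiv.self_trans_symm] at c
  have k : dt (Equiv.refl _) (bd ρ (umx x.2.1)) = (umx x.2.1).det := by simp [dt, bd]
  rw [g, k, mul_left_comm]
  exact (congrArg _ c.symm).trans (by simp [dt])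

lemma bw_a {y : (tc ρ σ).X L} {j : Option (Option σ)} (m : dt e (mm F L y.1.1.1 j) ≠ 0) :
    F.io L y.1.1.1 j * yy F e y j = 1 ∧ (sj ρ L j * yy F e y j :) = y.2 j := by
  rw [← fromRows_ext_iff, ← fromRows_mul, yy, ← Matrix.mul_assoc]
  exact (congrArg (· * _) (DA.iv_mul e _ m).1).trans (Matrix.one_mul _)

end FZ1

open FZ1 in
theorem FZ1_thm {K : Type} [Field K] {p : ℕ} [DA] [V3 K p] [V5 K p] : FZ1 K p where
  imp {ρ σ} _ _ _ _ F e := by
    obtain ⟨a, ha⟩ := F.ha.ev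
    obtain ⟨b, hb⟩ := F.od
    let U := (tg F e).S.opn (fun L y => ∀ j, dt e (mm F L y.1.1.1 j) ≠ 0)
      fun _ _ R _ _ _ _ h q j => Rel.ne_zero (Rel.rdt e (mm_rel F R h.1.1.1 j)) (q j)
    have n : ∀ L x, (F.ZZ e).S.mem L x → ∀ j, dt e (mm F L (fw L x).1.1.1 j) ≠ 0 :=
      fun L x m j => left_ne_zero_of_mul ((fw_a m j).2.2.trans_ne m.1.2)
    have r : Reg (F.ZZ e).S (tc ρ σ) fw := fun _ _ R _ _ _ m h =>
      have u := rel_umx h.2.1
      have v := Rel.minv u m.1.2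
      ⟨⟨⟨ga_rel u v h.1.1, h.1.2⟩, u⟩, fun j => Rel.mmul (Rel.mcols Rel.mzero (rel_usm R j))
        (Rel.mmul (bd_rel v) (h.2.2 j))⟩
    have mf : Mp (F.ZZ e).S U fw := ⟨r, fun L x m =>
      ⟨⟨⟨⟨trivial, fun j => (fw_a m j).2.1, m.2.2.2⟩, trivial, m.1.2⟩, trivial⟩, n L x m⟩⟩
    have n' : ∀ L x, (F.ZZ e).S.mem L x →
        (umx x.2.1).det ^ a * ∏ j, dt e (mm F L (fw L x).1.1.1 j) ≠ 0 := fun L x m =>
      mul_ne_zero (pow_ne_zero _ m.1.2) (Finset.prod_ne_zero_iff.2 fun j _ => n L x m j)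
    have E : Imp p (tg F e) (F.ZZ e) := V3.emb (f := fw) (f' := bw F e) (a := 1)
      (h := fun L x => (umx x.2.1).det ^ (b + 1) /
        ((umx x.2.1).det ^ a * ∏ j, dt e (mm F L (fw L x).1.1.1 j))) U
      ⟨⟨⟨r, fun L x m => (mf.mem L x m).1⟩, fun L x m => by
          change FD.ph L (ga _ _ x.1.1) + 0 + 0 = FD.ph L x.1.1
          rw [ph_ga (mul_nonsing_inv _ (Ne.isUnit m.1.2)), add_zero, add_zero]⟩,
        fun _ _ R _ _ m m' h => Rel.div (Rel.pow (Rel.det (rel_umx h.2.1)) _) (R.mul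
          (Rel.pow (Rel.det (rel_umx h.2.1)) _) (Rel.prod _ fun j _ =>
            Rel.rdt e (mm_rel F R (r R m m' h).1.1.1 j))) (n' _ _ m'),
        fun L x m => div_ne_zero (pow_ne_zero _ m.1.2) (n' L x m), one_ne_zero, fun L x m => by
          have h := Finset.prod_congr (s₁ := Finset.univ) rfl fun j _ => (fw_a m j).2.2
          have h0 := right_ne_zero_of_mul (n' L x m)
          have h1 : (umx x.2.1).det ≠ 0 := m.1.2
          change (∏ i, x.1.1.1.2 i) * ∏ j, dt e.symm (fromCols (x.2.2 j)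
            (fromRows (x.1.2 j) (x.2.1 j))) = _ * ((∏ i, x.1.1.1.2 i * (umx x.2.1).det) *
              (∏ j, dt e (mm F L (fw L x).1.1.1 j)) * 1 * 1 * _)
          rw [Finset.prod_mul_distrib, Finset.prod_const, Finset.card_univ, Fintype.card_option,
            Fintype.card_option, hb] at h
          rw [Finset.prod_mul_distrib, Finset.prod_const, Finset.card_univ, Fintype.card_option, ha,
            map_one, eq_div_of_mul_eq h0 ((mul_comm _ _).trans h)]
          field_simp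
          ring⟩
      ⟨mf, ⟨fun _ _ R _ _ _ m h => ⟨⟨ga_rel (Rel.minv h.1.2 m.1.1.2.2) h.1.2 h.1.1.1, h.1.1.2⟩,
          fun j => Rel.mmul h.1.2 (rel_ubm R j), fun j => Rel.mmul (bd_rel h.1.2) (Rel.mmul
            (Rel.miv e (mm_rel F R h.1.1.1 j) (m.2 j)) (Rel.mrows Rel.mone (h.2 j)))⟩,
        fun L y m => by
          have u := nonsing_inv_mul _ (Ne.isUnit m.1.1.2.2)
          refine ⟨⟨trivial, ?_⟩, fun j => ⟨?_, ?_⟩, ?_, m.1.1.1.2.2⟩ <;> simp only [bw]
          · rw [umx_mul]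
            exact m.1.1.2.2
          · rw [io_ga F u, Matrix.mul_assoc, bd_mul u, (bw_a (m.2 j)).1]
          · rw [io_ga F u, ← bd_rows, Matrix.mul_assoc, bd_mul u, m.1.1.1.2.1 j]
          · rw [← Matrix.mul_sum, sum_ubm, Matrix.mul_zero]⟩,
        fun L x m => by
          have u := mul_nonsing_inv _ (Ne.isUnit m.1.2)
          refine Prod.ext (Prod.ext (ga_ga u _) rfl)
            (Prod.ext (funext (umx_ubm m.2.2.1)) (funext fun j => ?_))
          change bd ρ _ * yy F e (fw L x) j = _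
          rw [yy, ← (fw_a m j).1, ← Matrix.mul_assoc (iv _ _), (DA.iv_mul e _ (n L x m j)).2.1,
            Matrix.one_mul]
          exact bd_mul u _,
        fun L y m => by
          have u := nonsing_inv_mul _ (Ne.isUnit m.1.1.2.2)
          simp only [fw, bw, zz, umx_mul, ga_ga u, bd_mul u, (bw_a (m.2 _)).2]⟩
      fun _ O _ _ m m' h => ⟨m, fun j =>
        Rel.ne_zero (Rel.rdt e (mm_rel F (Rel.ofPl O) h.1.1.1 j)) (m'.2 j)⟩
    intro cc d
    exact Imp.trans (Imp.trans (V3.pt _).1 (V3.prodL _ (V5.glo _).1))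
      (Imp.trans (Imp.trans (V3.pt _).1 (V3.prodL _ (V3.aff _).1)) E)

end Pool.Agent.Lib.MP_557161_ag.HG.TW
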