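import Pool.Agent.Lib.MP_557161_ag.TW.StF

/-!
Absorption of the upper parts of the kernels.
-/

namespace Pool.Agent.Lib.MP_557161_ag.HG.TW

open Pool.Agent.Lib.MP_557161_ag.DL Matrix

namespace FZ2a

variable {K : Type} [Field K] {ρ σ : Type} [Fintype ρ] [DecidableEq ρ] [Fintype σ] [DecidableEq σ]

section Alg

variable {L : Type} [Field L] {m : Type}

lemma ubm_none (X : Matrix m (Option σ × ρ) L) (x : m) (l : ρ) :
    (X * ubm (ρ := ρ) (σ := σ) L none) x l = -∑ j, X x (j, l) := by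
  simp [mul_apply, ubm, Fintype.sum_prod_type]

lemma ubm_some (X : Matrix m (Option σ × ρ) L) (j : Option σ) (x : m) (l : ρ) :
    (X * ubm (ρ := ρ) L (some j)) x l = X x (j, l) := by
  simp [mul_apply, ubm]

/-- The columns at the finite nodes other than the first. -/
def tp (T : Matrix m (Option σ × ρ) L) : Matrix m (σ × ρ) L :=
  T.submatrix id fun x => (some x.1, x.2)

/-- The blocks with a given sum. -/
def pp (Ps : Matrix m ρ L) (P : Matrix m (Option σ × ρ) L) (j : Option (Option σ)) : Matrix m ρ L :=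
  j.elim (Ps - ∑ j, P.submatrix id fun l => (j, l)) fun j => P.submatrix id fun l => (j, l)

omit [Fintype ρ] [DecidableEq ρ] [DecidableEq σ] in
lemma umx_pp (Ps : Matrix m ρ L) (P : Matrix m (Option σ × ρ) L) : umx (pp Ps P) = P := rfl

omit [Fintype ρ] [DecidableEq ρ] [DecidableEq σ] in
lemma sum_pp (Ps : Matrix m ρ L) (P : Matrix m (Option σ × ρ) L) : ∑ j, pp Ps P j = Ps := by
  rw [Fintype.sum_option]
  exact sub_add_cancel _ _

omit [Fintype ρ] [DecidableEq ρ] [DecidableEq σ] in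
lemma pp_umx (p : Option (Option σ) → Matrix m ρ L) : pp (∑ j, p j) (umx p) = p := by
  funext j
  cases j with
  | none =>
    rw [Fintype.sum_option]
    exact add_sub_cancel_right _ _
  | some j => rfl

lemma blk [hD : DA] {n A B C : Type} [Fintype n] [DecidableEq n] [Fintype A] [DecidableEq A]
    [Fintype B] [DecidableEq B] [Fintype C] [DecidableEq C] (e : n ⊕ ρ ≃ A ⊕ C) (e' : n ≃ A ⊕ B)
    (e3 : B ⊕ ρ ≃ C) : ∃ ε : ℤ, ε * ε = 1 ∧ ∀ {L : Type} [Field L] (X : Matrix n (A ⊕ C) L)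
      (W : Matrix n A L) (T : Matrix n B L) (P Q : Matrix A C L) (D : Matrix A A L)
      (J : Matrix B C L) (S : Matrix ρ C L),
      X * fromBlocks (1 : Matrix A A L) P 0 (1 : Matrix C C L) =
        fromCols (W * D) (W * Q + T * J) →
      dt e (fromRows X (fromCols 0 S)) =
        ε * D.det * dt e3 (fromRows J S) * dt e' (fromCols W T) := by
  let e1 : n ⊕ ρ ≃ A ⊕ B ⊕ ρ := (e'.sumCongr (Equiv.refl ρ)).trans (Equiv.sumAssoc A B ρ)
  obtain ⟨ε, h1, h2⟩ := hD.dt_sign e (e1.trans ((Equiv.refl A).sumCongr e3))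
  refine ⟨ε, h1, fun {L} _ X W T P Q D J S h => ?_⟩
  have k1 := hD.dt_mul e (Equiv.refl _) (fromRows X (fromCols 0 S))
    (fromBlocks (1 : Matrix A A L) P 0 (1 : Matrix C C L))
  have k2 : dt (Equiv.refl _) (fromBlocks (1 : Matrix A A L) P 0 (1 : Matrix C C L)) = 1 := by
    simp [dt]
  have k3 : fromRows X (fromCols 0 S) * fromBlocks (1 : Matrix A A L) P 0 (1 : Matrix C C L) =
      (fromBlocks (fromCols W T) 0 0 (1 : Matrix ρ ρ L)).submatrix id (Equiv.sumAssoc A B ρ).symm *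
        fromBlocks D Q 0 (fromRows J S) := by
    rw [fromRows_mul, h, fromCols_mul_fromBlocks]
    ext (i | i) (j | j) <;> simp [mul_apply, Fintype.sum_sum_type, one_apply]
  have k4 : dt e1 ((fromBlocks (fromCols W T) 0 0 (1 : Matrix ρ ρ L)).submatrix id
      (Equiv.sumAssoc A B ρ).symm) = dt e' (fromCols W T) := by
    have := (hD.dt_blk e' (Equiv.refl ρ) (fromCols W T) 0 0 (1 : Matrix ρ ρ L)).1
    rw [show dt (Equiv.refl ρ) (1 : Matrix ρ ρ L) = 1 by simp [dt], mul_one] at this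
    rw [← this, dt, dt]
    congr 1
    ext i j
    simp [e1]
  rw [Equiv.trans_refl, k2, mul_one] at k1
  rw [← k1, h2, k3, hD.dt_mul, k4, (hD.dt_blk _ _ _ _ 0 _).1]
  simp only [dt, Equiv.coe_refl, submatrix_id_id]
  ring

end Alg

variable (F : FD K ρ σ) (e : Option (Option σ × ρ) ⊕ ρ ≃ Option ρ ⊕ Option σ × ρ)
  (e' : Option (Option σ × ρ) ≃ Option ρ ⊕ σ × ρ)

/-- The diagonal matrix of the nodes. -/
abbrev bd {ρ' : Type} [Fintype ρ'] (F : FD K ρ' σ) (ρ : Type) [DecidableEq ρ] (L : Fld K) :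
    Matrix (Option σ × ρ) (Option σ × ρ) L := diagonal fun t => cv L F.b t.1

section

variable {m : Type} (L : Fld K)

lemma mul_pi (X : Matrix m ρ L) (x : m) (j : Option σ) (l : ρ) :
    (X * cm L (F.nd e').π) x (j, l) = if j = none then X x l else 0 := by
  cases j <;> simp [mul_apply, cm, TM.od, nod, apply_ite (algebraMap K L)]

lemma mul_J0 (X : Matrix m (σ × ρ) L) (x : m) (j : Option σ) (l : ρ) :
    (X * cm L (F.nd e').J0) x (j, l) = j.elim (-∑ s, X x (s, l)) fun s => X x (s, l) := by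
  cases j <;> simp [mul_apply, cm, TM.od, nod, frm, ccn, one_apply, Fintype.sum_prod_type,
    apply_ite (algebraMap K L)]

lemma J1_eq : cm L (F.nd e').J1 = cm L (F.nd e').J0 * bd F ρ L := by
  ext y t
  rw [mul_diagonal]
  simp only [cm, cv, TM.od, nod, map_apply, kroneckerMap_apply, mul_diagonal, map_mul]
  ring

lemma pi_eq (X : Matrix m ρ L) : cv L F.b none • (X * cm L (F.nd e').π) =
    X * cm L (F.nd e').π * bd F ρ L := by
  ext x ⟨j, l⟩
  rw [mul_diagonal, Matrix.smul_apply, mul_pi]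
  cases j <;> simp [mul_comm]

end

/-- The first matrix after the absorption. -/
noncomputable def tt (L : Fld K) (z : ((ic ρ (Option σ × ρ)).prod (pc ρ σ)).X L) :
    Matrix (Option (Option σ × ρ)) (Option σ × ρ) L := z.1.2.1 + F.wm L z.1.1 * umx z.2

/-- The first matrix of the node model. -/
noncomputable def TT (L : Fld K) (w : (ec ρ (Option σ × ρ)).X L)
    (T : Matrix (Option (Option σ × ρ)) (σ × ρ) L) (Ps : Matrix (Option ρ) ρ L) :
    Matrix (Option (Option σ × ρ)) (Option σ × ρ) L :=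
  F.wm L w * Ps * cm L (F.nd e').π + T * cm L (F.nd e').J0

lemma cond_iff (L : Fld K) (z : ((ic ρ (Option σ × ρ)).prod (pc ρ σ)).X L) :
    (∀ j, F.io L z.1 j * fromRows (z.2 j) (ubm L j) = 0) ↔
      (∀ x l, ∑ j, tt F L z x (j, l) = (F.wm L z.1.1 * ∑ j, z.2 j) x l) ∧
      z.1.2.2 + F.wm L z.1.1 * diagonal (cv L F.a) * umx z.2 =
        tt F L z * bd F ρ L := by
  rw [Option.forall]
  refine and_congr ?_ ?_
  · rw [← Matrix.ext_iff]
    refine forall₂_congr fun x l => ?_
    rw [FD.io, Option.elim_none, fromCols_mul_fromRows, Matrix.add_apply, ubm_none, Matrix.mul_sum,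
      Fintype.sum_option (fun j => F.wm L z.1.1 * z.2 j), Matrix.add_apply, Matrix.sum_apply]
    change _ = (0 : L) ↔ ∑ j, (z.1.2.1 x (j, l) + (F.wm L z.1.1 * z.2 (some j)) x l) = _
    rw [Finset.sum_add_distrib]
    constructor <;> intro h <;> linear_combination -h
  · rw [← Matrix.ext_iff]
    simp only [← Matrix.ext_iff, Prod.forall]
    rw [forall_comm]
    refine forall₃_congr fun x j l => ?_
    rw [FD.io, Option.elim_some, fromCols_mul_fromRows, Matrix.add_apply, ubm_some, mul_diagonal,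
      ← diagonal_sub, ← smul_one_eq_diagonal, Matrix.mul_sub, Matrix.sub_mul, Matrix.mul_smul,
      Matrix.mul_one, Matrix.smul_mul]
    change (F.wm L z.1.1 * diagonal (cv L F.a) * z.2 (some j)) x l -
      cv L F.b j * (F.wm L z.1.1 * z.2 (some j)) x l +
      (z.1.2.2 x (j, l) - cv L F.b j * z.1.2.1 x (j, l)) = (0 : L) ↔
      z.1.2.2 x (j, l) + (F.wm L z.1.1 * diagonal (cv L F.a) * z.2 (some j)) x l =
        (z.1.2.1 x (j, l) + (F.wm L z.1.1 * z.2 (some j)) x l) * cv L F.b j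
    constructor <;> intro h <;> linear_combination h

variable {F}

lemma TT_eq {L : Fld K} {z : ((ic ρ (Option σ × ρ)).prod (pc ρ σ)).X L}
    (h : (F.ZX e).S.mem L z) : TT F e' L z.1.1 (tp (tt F L z)) (∑ j, z.2 j) = tt F L z := by
  ext x ⟨j, l⟩
  have k := ((cond_iff F L z).1 h.2.1).1 x l
  rw [TT, Matrix.add_apply, mul_pi, mul_J0]
  cases j with
  | none =>
    rw [Fintype.sum_option] at k
    rw [if_pos rfl, ← k]
    exact add_neg_cancel_right _ _
  | some s => exact (if_neg (Option.some_ne_none s)).symm ▸ zero_add _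

variable (F)

lemma tp_TT (L : Fld K) (w T Ps) : tp (TT F e' L w T Ps) = T := by
  ext x ⟨s, l⟩
  change TT F e' L w T Ps x (some s, l) = _
  rw [TT, Matrix.add_apply, mul_pi, mul_J0, if_neg (Option.some_ne_none s)]
  exact zero_add _

lemma sum_TT (L : Fld K) (w T Ps x l) :
    ∑ j, TT F e' L w T Ps x (j, l) = (F.wm L w * Ps) x l := by
  simp [TT, mul_pi, mul_J0]

/-- The shape of the target. -/
abbrev yc (ρ σ : Type) [Finite ρ] [Finite σ] : Cd :=
  ((ec ρ (Option σ × ρ)).prod ((Cd.mat (Option (Option σ × ρ)) (σ × ρ)).prod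
    (.mat (Option ρ) ρ))).prod (.mat (Option ρ) (Option σ × ρ))

/-- The map. -/
noncomputable def ff (L : Fld K) (z : ((ic ρ (Option σ × ρ)).prod (pc ρ σ)).X L) : (yc ρ σ).X L :=
  ((z.1.1, (tp (tt F L z), ∑ j, z.2 j)), umx z.2)

/-- The inverse map. -/
noncomputable def gg (L : Fld K) (y : (yc ρ σ).X L) : ((ic ρ (Option σ × ρ)).prod (pc ρ σ)).X L :=
  ((y.1.1, (TT F e' L y.1.1 y.1.2.1 y.1.2.2 - F.wm L y.1.1 * y.2,
    TT F e' L y.1.1 y.1.2.1 y.1.2.2 * bd F ρ L -
      F.wm L y.1.1 * diagonal (cv L F.a) * y.2)), pp y.1.2.2 y.2)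

lemma tt_gg (L : Fld K) (y : (yc ρ σ).X L) :
    tt F L (gg F e' L y) = TT F e' L y.1.1 y.1.2.1 y.1.2.2 := sub_add_cancel _ _

/-- The unit. -/
noncomputable def uu (L : Fld K) (y : (yc ρ σ).X L) : L := dt e' (fromCols (F.wm L y.1.1) y.1.2.1)

section

variable {M L : Fld K} (R : Rel M L)

omit [DecidableEq ρ] [DecidableEq σ] in
lemma rumx {p : (pc ρ σ).X M} {p' : (pc ρ σ).X L} (h : (pc ρ σ).lift R.r p p') :
    R.m' (umx p) (umx p') := fun t x => h _ t x.2

lemma rff {z : ((ic ρ (Option σ × ρ)).prod (pc ρ σ)).X M}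
    {z' : ((ic ρ (Option σ × ρ)).prod (pc ρ σ)).X L}
    (h : ((ic ρ (Option σ × ρ)).prod (pc ρ σ)).lift R.r z z') :
    (yc ρ σ).lift R.r (ff F M z) (ff F L z') :=
  ⟨⟨h.1.1, Rel.msubm (Rel.madd h.1.2.1 (Rel.mmul (F.wm_rel R h.1.1) (rumx R h.2))) _ _,
    Rel.msum _ fun j _ => h.2 j⟩, rumx R h.2⟩

variable {y : (yc ρ σ).X M} {y' : (yc ρ σ).X L} (h : (yc ρ σ).lift R.r y y')
include h

lemma ruu : R.r (uu F e' M y) (uu F e' L y') := Rel.rdt e' (Rel.mcols (F.wm_rel R h.1.1) h.1.2.1)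

lemma rgg : ((ic ρ (Option σ × ρ)).prod (pc ρ σ)).lift R.r (gg F e' M y) (gg F e' L y') := by
  have k : R.m' (TT F e' M y.1.1 y.1.2.1 y.1.2.2) (TT F e' L y'.1.1 y'.1.2.1 y'.1.2.2) :=
    Rel.madd (Rel.mmul (Rel.mmul (F.wm_rel R h.1.1) h.1.2.2) (R.rcm _))
      (Rel.mmul h.1.2.1 (R.rcm _))
  refine ⟨⟨h.1.1, Rel.msub k (Rel.mmul (F.wm_rel R h.1.1) h.2),
    Rel.msub (Rel.mmul k (Rel.mdiag fun t => R.rcv _ _))
      (Rel.mmul (Rel.mmul (F.wm_rel R h.1.1) (Rel.mdiag (R.rcv _))) h.2)⟩, fun j => ?_⟩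
  cases j with
  | none => exact Rel.msub h.1.2.2 (Rel.msum _ fun j _ => Rel.msubm h.2 _ _)
  | some j => exact Rel.msubm h.2 _ _

end

/-- The target. -/
noncomputable abbrev YY : WD K (yc ρ σ) := (F.ZW e').prod (Aff K (.mat (Option ρ) (Option σ × ρ)))

/-- The image. -/
noncomputable def UU : ASp K (yc ρ σ) :=
  (YY F e').S.opn (fun L y => uu F e' L y ≠ 0)
    fun _ _ R _ _ _ _ h q => Rel.ne_zero (ruu F e' R h) q

/-- The source. -/
noncomputable abbrev XX : WD K ((ic ρ (Option σ × ρ)).prod (pc ρ σ)) :=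
  (F.ZX e).nz (fun L z => uu F e' L (ff F L z)) fun _ _ R _ _ _ _ h => ruu F e' R (rff F R h)

lemma ff_gg (L : Fld K) (y : (yc ρ σ).X L) : ff F L (gg F e' L y) = y :=
  Prod.ext (Prod.ext rfl (Prod.ext ((congrArg tp (tt_gg F e' L y)).trans (tp_TT F e' L _ _ _))
    (sum_pp _ _))) rfl

lemma iso : Iso (XX F e e').S (UU F e') (ff F) (gg F e') where
  mf := ⟨fun _ _ R _ _ _ _ h => rff F R h, fun L z m => ⟨⟨⟨trivial, m.1.2.2⟩, trivial⟩, m.2⟩⟩
  mg := ⟨fun _ _ R _ _ _ _ h => rgg F e' R h, fun L y m => ⟨⟨trivial, (cond_iff F L _).2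
    ⟨fun x l => by
      rw [tt_gg, sum_TT]
      exact congrArg (fun A => (F.wm L y.1.1 * A) x l) (sum_pp y.1.2.2 y.2).symm, by
      rw [tt_gg]
      exact sub_add_cancel _ _⟩, fun i => by
      have := m.1.1.2 i
      rwa [← sum_pp y.1.2.2 y.2] at this⟩, by
    change uu F e' L (ff F L (gg F e' L y)) ≠ 0
    rw [ff_gg]
    exact m.2⟩⟩
  gf L z m := by
    have k := TT_eq e e' m.1
    refine Prod.ext (Prod.ext rfl (Prod.ext ?_ ?_)) (pp_umx z.2)
    · exact sub_eq_of_eq_add k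
    · change TT F e' L z.1.1 (tp (tt F L z)) (∑ j, z.2 j) * _ - _ = _
      rw [k, ← ((cond_iff F L z).1 m.1.2.1).2]
      exact add_sub_cancel_right _ _
  fg L y _ := ff_gg F e' L y

variable [hD : DA]

omit [DecidableEq σ] in
lemma eta_wm {τ : Type} [Fintype τ] [DecidableEq τ] (L : Fld K) (w : (ec ρ τ).X L) :
    w.1.1 * F.wm L w = w.1.2 * (F.wm L w * diagonal (cv L F.a)) := by
  ext x i
  have k := congrFun (hD.mul_cf (Equiv.refl _) (w.1.1 - cv L F.a i • w.1.2)) x
  simp only [mulVec, dotProduct, Matrix.sub_apply, Matrix.smul_apply, smul_eq_mul, sub_mul,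
    Finset.sum_sub_distrib, Pi.zero_apply, sub_eq_zero] at k
  simp only [mul_apply (M := w.1.1), mul_apply (M := w.1.2), mul_diagonal, FD.wm, of_apply]
  have k' := congrArg (w.2 i * ·) k
  simp only [Finset.mul_sum] at k'
  convert k' using 2 <;> ring

lemma ph_f (L : Fld K) (z : ((ic ρ (Option σ × ρ)).prod (pc ρ σ)).X L)
    (m : (F.ZX e).S.mem L z) : (YY F e').φ L (ff F L z) = (F.ZX e).φ L z := by
  change (z.1.1.1.1 * TT F e' L z.1.1 (tp (tt F L z)) (∑ j, z.2 j) - z.1.1.1.2 *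
    (cv L F.b none • (F.wm L z.1.1 * (∑ j, z.2 j) * cm L (F.nd e').π) +
      tp (tt F L z) * cm L (F.nd e').J1)).trace + 0 =
    (z.1.1.1.1 * z.1.2.1 - z.1.1.1.2 * z.1.2.2).trace
  rw [add_zero, pi_eq, J1_eq, ← Matrix.mul_assoc, ← Matrix.add_mul, ← TT, TT_eq e e' m,
    ← ((cond_iff F L z).1 m.2.1).2, tt, Matrix.mul_add, Matrix.mul_add, ← Matrix.mul_assoc,
    eta_wm, ← Matrix.mul_assoc _ (F.wm L z.1.1 * _), add_sub_add_right_eq_sub]

/-- The factors of the first columns. -/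
def dA (j : Option (Option σ)) (i : Option ρ) : K := j.elim 1 fun j => F.a i - F.b j

/-- The factors of the last columns. -/
def dT (j : Option (Option σ)) (t : Option σ × ρ) : K := j.elim 1 fun j => F.b t.1 - F.b j

omit hD in
lemma io_mul (L : Fld K) (z : ((ic ρ (Option σ × ρ)).prod (pc ρ σ)).X L)
    (m : (F.ZX e).S.mem L z) (j : Option (Option σ)) :
    F.io L z.1 j * fromBlocks (1 : Matrix (Option ρ) (Option ρ) L) (umx z.2) 0
      (1 : Matrix (Option σ × ρ) (Option σ × ρ) L) =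
      fromCols (F.wm L z.1.1 * diagonal (cv L (dA F j))) (tt F L z * diagonal (cv L (dT F j))) := by
  cases j with
  | none =>
    have k1 : diagonal (cv L (dA F none)) = 1 := by
      rw [← diagonal_one]
      exact congrArg diagonal (funext fun _ => map_one _)
    have k2 : diagonal (cv L (dT F none)) = 1 := by
      rw [← diagonal_one]
      exact congrArg diagonal (funext fun _ => map_one _)
    rw [k1, k2, FD.io, Option.elim_none, fromCols_mul_fromBlocks]
    simp [tt, add_comm]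
  | some j =>
    have k1 : diagonal (cv L (dA F (some j))) = diagonal fun i => cv L F.a i - cv L F.b j :=
      congrArg diagonal (funext fun _ => map_sub _ _ _)
    have k2 : diagonal (cv L (dT F (some j))) = bd F ρ L - cv L F.b j • 1 := by
      rw [smul_one_eq_diagonal, diagonal_sub]
      exact congrArg diagonal (funext fun _ => map_sub _ _ _)
    rw [k1, k2, FD.io, Option.elim_some, fromCols_mul_fromBlocks, Matrix.mul_sub,
      ← ((cond_iff F L z).1 m.2.1).2, Matrix.mul_one, Matrix.mul_zero, add_zero, Matrix.mul_one]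
    congr 1
    rw [← diagonal_sub, ← smul_one_eq_diagonal, tt]
    simp only [Matrix.mul_sub, Matrix.sub_mul, Matrix.mul_smul, Matrix.mul_one, Matrix.smul_mul,
      smul_add]
    abel

omit hD in
lemma nn_ne (e3 : σ × ρ ⊕ ρ ≃ Option σ × ρ) (j : Option (Option σ)) :
    dt e3 (fromRows ((F.nd e').J0 * diagonal (dT F j)) (usm K j)) ≠ 0 := by
  intro h
  obtain ⟨v, v0, hv⟩ := Matrix.exists_mulVec_eq_zero_iff.2 h
  rw [submatrix_mulVec_equiv, fromRows_mulVec] at hv
  generalize hw : v ∘ e3.symm = w at hv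
  have h1 : ∀ s l, dT F j (some s, l) * w (some s, l) = dT F j (none, l) * w (none, l) := by
    intro s l
    have := congrFun hv (.inl (s, l))
    simp [mulVec, dotProduct, mul_diagonal, TM.od, nod, frm, ccn, one_apply,
      Fintype.sum_prod_type] at this
    linear_combination this
  have h2 : ∀ l, w (j.getD none, l) = 0 := by
    intro l
    have := congrFun hv (.inr l)
    cases j <;> simpa [mulVec, dotProduct, usm] using this
  have h3 : ∀ i l, dT F j (i, l) * w (i, l) = 0 := by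
    intro i l
    have k : ∀ i, dT F j (i, l) * w (i, l) = dT F j (none, l) * w (none, l) := by
      rintro (_ | s)
      exacts [rfl, h1 s l]
    rw [k, ← k (j.getD none), h2, mul_zero]
  have h4 : w = 0 := by
    ext ⟨i, l⟩
    by_cases hi : i = j.getD none
    · exact hi ▸ h2 l
    refine (mul_eq_zero.1 (h3 i l)).resolve_left ?_
    cases j with
    | none => exact one_ne_zero
    | some j => exact sub_ne_zero.2 fun k => hi (F.bi k)
  refine v0 (funext fun x => ?_)
  have := congrFun (hw.trans h4) (e3 x)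
  simpa using this

lemma wt_j (j : Option (Option σ)) : ∃ c : K, c ≠ 0 ∧
    ∀ (L : Fld K) (z : ((ic ρ (Option σ × ρ)).prod (pc ρ σ)).X L), (F.ZX e).S.mem L z →
      dt e (fromRows (F.io L z.1 j) (fromCols 0 (usm L j))) =
        algebraMap K L c * uu F e' L (ff F L z) := by
  obtain ⟨e3⟩ : Nonempty (σ × ρ ⊕ ρ ≃ Option σ × ρ) := Fintype.card_eq.1 (by simp; ring)
  obtain ⟨ε, h1, h2⟩ := blk e e' e3
  refine ⟨ε * (∏ i, dA F j i) * dt e3 (fromRows ((F.nd e').J0 * diagonal (dT F j)) (usm K j)),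
    mul_ne_zero (mul_ne_zero (fun k => ?_) (Finset.prod_ne_zero_iff.2 fun i _ => ?_))
      (nn_ne F e' e3 j), fun L z m => ?_⟩
  · have := congrArg (Int.cast : ℤ → K) h1
    rw [Int.cast_mul, k, mul_zero, Int.cast_one] at this
    exact zero_ne_one this
  · cases j with
    | none => exact one_ne_zero
    | some j => exact sub_ne_zero.2 (F.ab i j)
  rw [h2 _ (F.wm L z.1.1) (tp (tt F L z)) _
    ((∑ j, z.2 j) * cm L (F.nd e').π * diagonal (cv L (dT F j))) (diagonal (cv L (dA F j)))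
    (cm L (F.nd e').J0 * diagonal (cv L (dT F j))) _ ((io_mul F e L z m j).trans (by
      rw [← Matrix.mul_assoc, ← Matrix.mul_assoc, ← Matrix.mul_assoc, ← Matrix.add_mul, ← TT,
        TT_eq e e' m])), map_mul, map_mul, map_intCast, map_prod, det_diagonal, dt, dt,
    dt, RingHom.map_det]
  congr 3
  ext x y
  rcases x with x | x
  · simp [cm, cv, mul_diagonal]
  · cases j <;> simp [usm, apply_ite (algebraMap K L)]

end FZ2a

variable {K : Type} [Field K] {p : ℕ}

open FZ2a in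
theorem FZ2_thm (_h2 : (2 : K) ≠ 0) [DA] [h3 : V3 K p] : FZ2 K p where
  imp {ρ σ} _ _ _ _ F e e' := by
    choose c c0 hc using wt_j F e e'
    obtain ⟨k, hk⟩ := F.od
    have hg : ∀ L z, (F.ZX e).S.mem L z → (F.ZX e).g L z = algebraMap K L (∏ j, c j) *
        ((∏ i, z.1.1.2 i) * uu F e' L (ff F L z) * 1 * (uu F e' L (ff F L z) ^ (k + 1)) ^ 2) := by
      intro L z m
      change (∏ i, z.1.1.2 i) * ∏ j, dt e (fromRows (F.io L z.1 j) (fromCols 0 (usm L j))) = _
      simp only [hc _ L z m]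
      rw [Finset.prod_mul_distrib, Finset.prod_const, Finset.card_univ, Fintype.card_option,
        Fintype.card_option, hk, map_prod]
      ring
    have w : WMp (XX F e e') (YY F e') (ff F) (fun L z => uu F e' L (ff F L z) ^ (k + 1))
        (∏ j, c j) :=
      { reg := fun _ _ R _ _ _ _ h => rff F R h
        mem := fun L z m => ((iso F e e').mf.mem L z m).1
        ph := fun L z m => ph_f F e e' L z m.1
        rh := fun _ _ R _ _ _ _ h => Rel.pow (ruu F e' R (rff F R h)) _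
        h0 := fun L z m => pow_ne_zero _ m.2
        a0 := Finset.prod_ne_zero_iff.2 fun j _ => c0 j
        gh := fun L z m => hg L z m.1 }
    intro cc d
    exact Imp.trans (h3.pt _).1 (Imp.trans (h3.prodL _ (h3.aff _).1) (Imp.trans
      (h3.emb (UU F e') w (iso F e e') fun M O x x' m m' l =>
        ⟨m, Rel.ne_zero (ruu F e' _ l) m'.2⟩)
      (h3.nz _ _ _ fun L z m h => by rw [hg L z m, h]; simp)))

end Pool.Agent.Lib.MP_557161_ag.HG.TW
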