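import Pool.Agent.Lib.MP_557161_ag.TW.StF

/-!
The passage to the node model.
-/

namespace Pool.Agent.Lib.MP_557161_ag.HG.TW

open Pool.Agent.Lib.MP_557161_ag.DL Matrix Sum

namespace FZ3a

lemma key [DA] {L : Type} [Field L] {τ α ι : Type} [Fintype τ] [DecidableEq τ] [Fintype α]
    [DecidableEq α] [Fintype ι] [DecidableEq ι] (e : Option τ ≃ α ⊕ ι) (a : α → L)
    {η θ : Matrix τ (Option τ) L} {g : Matrix (Option τ) (α ⊕ ι) L} {φ : Matrix τ α L}
    {H Θ : Matrix τ ι L} (h0 : η * g = fromCols (φ * diagonal a) H) (h1 : θ * g = fromCols φ Θ)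
    (i : α) (x : Option τ) :
    wt e a φ H Θ i * g x (inl i) = dt e g * cf (Equiv.refl _) (η - a i • θ) x := by
  have e1 : (η - a i • θ) * g = fromCols (φ * diagonal fun l => a l - a i) (H - a i • Θ) := by
    rw [Matrix.sub_mul, Matrix.smul_mul, h0, h1]
    ext y (l | l) <;> simp [mul_sub, mul_comm]
  have e2 := congrFun (DA.cf_right (Equiv.refl _) e (η - a i • θ) g) x
  rw [Equiv.refl_trans, e1] at e2
  have e3 : cf e (fromCols (φ * diagonal fun l => a l - a i) (H - a i • Θ)) =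
      wt e a φ H Θ i • Pi.single (inl i) 1 := funext fun j => by
    simpa [wt] using DA.cf_prop e (fromCols (φ * diagonal fun l => a l - a i) (H - a i • Θ))
      (Pi.single (inl i) 1) (by ext y; simp) j (inl i)
  rw [e3, mulVec_smul, mulVec_single_one] at e2
  exact e2

variable {K : Type} [Field K] {ρ σ : Type} [Fintype ρ] [DecidableEq ρ] [Fintype σ] [DecidableEq σ]
  (F : FD K ρ σ) (e : Option (Option σ × ρ) ≃ Option ρ ⊕ σ × ρ)

/-- The shape of the source. -/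
abbrev cS (ρ σ : Type) [Finite ρ] [Finite σ] : Cd := (ec ρ (Option σ × ρ)).prod
  ((Cd.mat (Option (Option σ × ρ)) (σ × ρ)).prod (.mat (Option ρ) ρ))

/-- The shape of the target. -/
abbrev cT (ρ σ : Type) [Finite ρ] [Finite σ] : Cd :=
  ((Cd.mat (Option ρ) ρ).prod (oc ρ (Option σ × ρ) (σ × ρ))).prod (nn (Option σ × ρ))

/-- The gauge matrix. -/
noncomputable abbrev gm (L : Fld K) (z : (cS ρ σ).X L) := fromCols (F.wm L z.1) z.2.1

/-- The differences of the points and the first node. -/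
abbrev df (L : Fld K) (i : Option ρ) : L := cv L F.a i - cv L F.b none

/-- The factors of the weight of the target. -/
noncomputable abbrev ww (L : Fld K) (y : (cT ρ σ).X L) (i : Option ρ) : L :=
  wt e (cv L F.a) y.1.2.1 y.1.2.2.1 y.1.2.2.2 i

/-- The embedding. -/
noncomputable def fw (L : Fld K) (z : (cS ρ σ).X L) : (cT ρ σ).X L :=
  ((diagonal (df F L) * z.2.2, z.1.1.2 * F.wm L z.1, z.1.1.1 * z.2.1, z.1.1.2 * z.2.1),
    (gm F L z).submatrix id e)

/-- Its inverse. -/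
noncomputable def bw (L : Fld K) (y : (cT ρ σ).X L) : (cS ρ σ).X L :=
  (((fromCols (y.1.2.1 * diagonal (cv L F.a)) y.1.2.2.1 * y.2⁻¹.submatrix e.symm id,
    fromCols y.1.2.1 y.1.2.2.2 * y.2⁻¹.submatrix e.symm id), fun i => y.2.det * (ww F e L y i)⁻¹),
    y.2.submatrix id fun t => e.symm (inr t), (diagonal fun i => (df F L i)⁻¹) * y.1.1)

omit [DecidableEq ρ] [DecidableEq σ] in
lemma df_ne (L : Fld K) (i : Option ρ) : df F L i ≠ 0 :=
  sub_ne_zero.2 fun h => F.ab i none ((algebraMap K L).injective h)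

omit [Fintype ρ] in
lemma cm_frm (L : Fld K) : cm L (frm K ρ) = frm L ρ := by
  ext l (_ | i) <;> simp [cm, frm, ccn, one_apply]

variable [DA] {L : Fld K}

lemma eta_wm (z : (ec ρ (Option σ × ρ)).X L) :
    z.1.1 * F.wm L z = z.1.2 * F.wm L z * diagonal (cv L F.a) := by
  ext x i
  have := congrFun (DA.mul_cf (Equiv.refl _) (z.1.1 - cv L F.a i • z.1.2)) x
  rw [sub_mulVec, smul_mulVec, Pi.sub_apply, Pi.zero_apply, sub_eq_zero] at this
  have e : ∀ M : Matrix (Option σ × ρ) (Option (Option σ × ρ)) L, (M * F.wm L z) x i =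
      z.2 i * (M *ᵥ cf (Equiv.refl _) (z.1.1 - cv L F.a i • z.1.2)) x := fun M => by
    simp only [mul_apply, FD.wm, of_apply, mulVec, dotProduct, Finset.mul_sum, mul_left_comm]
  rw [mul_diagonal, e, e, this, Pi.smul_apply, smul_eq_mul]
  ring

lemma eta_gm (z : (cS ρ σ).X L) : z.1.1.1 * gm F L z =
    fromCols (z.1.1.2 * F.wm L z.1 * diagonal (cv L F.a)) (z.1.1.1 * z.2.1) := by
  rw [mul_fromCols, eta_wm]

lemma fw_ww {z : (cS ρ σ).X L} (h : dt e (gm F L z) ≠ 0) (i : Option ρ) :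
    ww F e L (fw F e L z) i * z.1.2 i = dt e (gm F L z) := by
  obtain ⟨x, hx⟩ : ∃ x, gm F L z x (inl i) ≠ 0 := by
    by_contra! n
    have := congrFun (congrFun (DA.iv_mul e _ h).2.1 (inl i)) (inl i)
    simp only [mul_apply, n, mul_zero, Finset.sum_const_zero, one_apply_eq] at this
    exact zero_ne_one this
  exact mul_right_cancel₀ (right_ne_zero_of_mul hx) ((mul_assoc _ _ _).trans
    (key e (cv L F.a) (eta_gm F z) (mul_fromCols _ _ _) i x))

lemma bw_fw {z : (cS ρ σ).X L} (h : dt e (gm F L z) ≠ 0) : bw F e L (fw F e L z) = z := by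
  have h1 := (DA.iv_mul e _ h).1
  refine Prod.ext (Prod.ext (Prod.ext ?_ ?_) (funext fun i => ?_)) (Prod.ext ?_ ?_)
  · exact (congrArg (· * iv e (gm F L z)) (eta_gm F z).symm).trans (by
      rw [Matrix.mul_assoc, h1, Matrix.mul_one])
  · exact (congrArg (· * iv e (gm F L z)) (mul_fromCols _ _ _).symm).trans (by
      rw [Matrix.mul_assoc, h1, Matrix.mul_one])
  · have := fw_ww F e h i
    exact (mul_inv_eq_iff_eq_mul₀ (left_ne_zero_of_mul (this.trans_ne h))).2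
      (this.symm.trans (mul_comm _ _))
  · ext x t
    simp [bw, fw]
  · ext i l
    simp [bw, fw, df_ne]

lemma bw_gm {y : (cT ρ σ).X L} (h : y.2.det ≠ 0) (h' : ∀ i, ww F e L y i ≠ 0) :
    gm F L (bw F e L y) = y.2.submatrix id e.symm ∧
      (bw F e L y).1.1.1 * y.2.submatrix id e.symm =
        fromCols (y.1.2.1 * diagonal (cv L F.a)) y.1.2.2.1 ∧
      (bw F e L y).1.1.2 * y.2.submatrix id e.symm = fromCols y.1.2.1 y.1.2.2.2 := by
  have h1 : ∀ M : Matrix (Option σ × ρ) (Option ρ ⊕ σ × ρ) L,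
      M * y.2⁻¹.submatrix e.symm id * y.2.submatrix id e.symm = M := fun M => by
    rw [Matrix.mul_assoc, ← submatrix_mul _ _ _ _ _ Function.bijective_id,
      nonsing_inv_mul _ h.isUnit, submatrix_one_equiv, Matrix.mul_one]
  refine ⟨?_, h1 _, h1 _⟩
  ext x (i | t)
  · have := key e (cv L F.a) (φ := y.1.2.1) (H := y.1.2.2.1) (Θ := y.1.2.2.2) (h1 _) (h1 _) i x
    rw [show dt e (y.2.submatrix id e.symm) = y.2.det by simp [dt]] at this
    exact (mul_right_comm _ _ _).trans ((mul_inv_eq_iff_eq_mul₀ (h' i)).2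
      (this.symm.trans (mul_comm _ _)))
  · rfl

lemma fw_bw {y : (cT ρ σ).X L} (h : y.2.det ≠ 0) (h' : ∀ i, ww F e L y i ≠ 0) :
    fw F e L (bw F e L y) = y := by
  obtain ⟨h1, h2, h3⟩ := bw_gm F e h h'
  rw [← h1, mul_fromCols, fromCols_ext_iff] at h2 h3
  refine Prod.ext (Prod.ext ?_ (Prod.ext h3.1 (Prod.ext h2.2 h3.2))) ?_
  · ext i l
    simp [bw, fw, df_ne]
  · exact (congrArg (submatrix · id e) h1).trans (by simp)

omit [DA] in
lemma gm_rel {M : Fld K} (R : Rel M L) {z : (cS ρ σ).X M} {z' : (cS ρ σ).X L}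
    (h : (cS ρ σ).lift R.r z z') : R.m' (gm F M z) (gm F L z') := Rel.mcols (F.wm_rel R h.1) h.2.1

omit [DA] in
lemma ww_rel {M : Fld K} (R : Rel M L) {y : (cT ρ σ).X M} {y' : (cT ρ σ).X L}
    (h : (cT ρ σ).lift R.r y y') (i : Option ρ) : R.r (ww F e M y i) (ww F e L y' i) :=
  Rel.rwt e (R.rcv _) h.1.2.1 h.1.2.2.1 h.1.2.2.2 i

omit [DA] in
/-- The open part of the source. -/
noncomputable abbrev src : WD K (cS ρ σ) :=
  (F.ZW e).nz (fun L z => dt e (gm F L z)) fun _ _ R _ _ _ _ h => Rel.rdt e (gm_rel F R h)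

lemma emb {p : ℕ} [V3 K p] :
    Imp p ((F.nd e).N.prod (GLo K (Option (Option σ × ρ)))) (src F e) := by
  obtain ⟨k, hk⟩ := F.ha.ev
  have rf : ∀ S, Reg S _ (fw F e) := fun _ _ _ R _ _ _ _ h =>
    ⟨⟨Rel.mmul (Rel.mdiag fun i => Rel.sub (R.rcv _ i) (R.rcv _ _)) h.2.2,
      Rel.mmul h.1.1.2 (F.wm_rel R h.1), Rel.mmul h.1.1.1 h.2.1, Rel.mmul h.1.1.2 h.2.1⟩,
      Rel.msubm (gm_rel F R h) _ _⟩
  have mf : ∀ (L : Fld K) z, (F.ZW e).S.mem L z → dt e (gm F L z) ≠ 0 →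
      ((F.nd e).N.prod (GLo K (Option (Option σ × ρ)))).S.mem L (fw F e L z) := fun L z m h =>
    ⟨⟨trivial, fun i => ⟨fun _ => by
      change (diagonal (df F L) * z.2.2 * cm L (frm K ρ)) i i = 0
      rw [cm_frm, Matrix.mul_assoc, diagonal_mul, m.2 i, mul_zero], fun n => (n trivial).elim⟩⟩,
      trivial, h⟩
  intro cc d
  refine V3.emb (X := (F.nd e).N.prod (GLo K (Option (Option σ × ρ)))) (X' := src F e)
    (f := fw F e) (f' := bw F e) (a := 1)
    (h := fun L z => (∏ i, z.1.2 i) * (dt e (gm F L z) ^ k)⁻¹)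
    (((F.nd e).N.prod (GLo K (Option (Option σ × ρ)))).S.opn (fun L y => ∀ i, ww F e L y i ≠ 0)
      fun _ _ R _ _ _ _ h q i => Rel.ne_zero (ww_rel F e R h i) (q i))
    ⟨⟨⟨rf _, fun L z m => mf L z m.1 m.2⟩, fun L z _ => ?_⟩,
      fun _ _ R _ _ _ m h => R.mul (Rel.prod _ fun i _ => h.1.2 i)
        (R.inv (Rel.pow (Rel.rdt e (gm_rel F R h)) k) (pow_ne_zero k m.2)),
      fun L z m => mul_ne_zero (Finset.prod_ne_zero_iff.2 fun i _ =>
        right_ne_zero_of_mul ((fw_ww F e m.2 i).trans_ne m.2)) (inv_ne_zero (pow_ne_zero k m.2)),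
      one_ne_zero, fun L z m => ?_⟩
    ⟨⟨rf _, fun L z m => ⟨mf L z m.1 m.2, fun i =>
      left_ne_zero_of_mul ((fw_ww F e m.2 i).trans_ne m.2)⟩⟩,
      ⟨fun _ _ R _ _ _ m h =>
        have q := Rel.msubm (Rel.minv h.2 m.1.2.2) e.symm id
        ⟨⟨⟨Rel.mmul (Rel.mcols (Rel.mmul h.1.2.1 (Rel.mdiag (R.rcv _))) h.1.2.2.1) q,
          Rel.mmul (Rel.mcols h.1.2.1 h.1.2.2.2) q⟩,
          fun i => R.mul (Rel.det h.2) (R.inv (ww_rel F e R h i) (m.2 i))⟩, Rel.msubm h.2 _ _,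
          Rel.mmul (Rel.mdiag fun i => R.inv (Rel.sub (R.rcv _ i) (R.rcv _ _)) (df_ne F _ i)) h.1.1⟩,
        fun L y m => ⟨⟨trivial, fun i => ?_⟩, ?_⟩⟩,
      fun L z m => bw_fw F e m.2, fun L y m => fw_bw F e m.1.2.2 m.2⟩
    fun _ O _ _ m m' h => ⟨m, fun i => Rel.ne_zero (ww_rel F e (Rel.ofPl O) h i) (m'.2 i)⟩
  · change (z.1.1.1 * z.2.1 * cm L (F.nd e).J0 - z.1.1.2 * z.2.1 * cm L (F.nd e).J1).trace +
      (diagonal (df F L) * z.2.2 * cm L (F.nd e).π * (z.1.1.2 * F.wm L z.1)).trace + 0 =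
      (z.1.1.1 * (F.wm L z.1 * z.2.2 * cm L (F.nd e).π + z.2.1 * cm L (F.nd e).J0) -
        z.1.1.2 * (cv L F.b none • (F.wm L z.1 * z.2.2 * cm L (F.nd e).π) +
          z.2.1 * cm L (F.nd e).J1)).trace
    have : diagonal (df F L) = diagonal (cv L F.a) - cv L F.b none • 1 := by
      rw [smul_one_eq_diagonal, diagonal_sub]
    rw [trace_mul_comm (_ * cm L (F.nd e).π), this]
    simp only [Matrix.mul_add, Matrix.mul_sub, Matrix.sub_mul, Matrix.mul_smul, Matrix.smul_mul,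
      ← Matrix.mul_assoc, Matrix.mul_one, trace_add, trace_sub]
    rw [← eta_wm F z.1]
    ring
  · have h := m.2
    have : (∏ i, ww F e L (fw F e L z) i) * ∏ i, z.1.2 i = dt e (gm F L z) ^ (k + k + 1) := by
      rw [← Finset.prod_mul_distrib, Finset.prod_congr rfl fun i _ => fw_ww F e h i,
        Finset.prod_const, Finset.card_univ, Fintype.card_option, hk]
    change (∏ i, z.1.2 i) * dt e (gm F L z) = algebraMap K L 1 *
      ((∏ i, ww F e L (fw F e L z) i) * 1 * ((∏ i, z.1.2 i) * (dt e (gm F L z) ^ k)⁻¹) ^ 2)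
    change dt e (gm F L z) ≠ 0 at h
    rw [map_one]
    field_simp
    linear_combination -(∏ i, z.1.2 i) * this
  · change ((diagonal fun i => (df F L i)⁻¹) * y.1.1 * frm L ρ) i i = 0
    rw [Matrix.mul_assoc, diagonal_mul, ← cm_frm, (m.1.1.2 i).1 trivial, mul_zero]
  · change dt e (gm F L (bw F e L y)) ≠ 0
    rw [(bw_gm F e m.1.2.2 m.2).1]
    simpa [dt] using m.1.2.2

end FZ3a

theorem FZ3_thm {K : Type} [Field K] {p : ℕ} [DA] [V3 K p] [V5 K p] : FZ3 K p where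
  imp F e := Imp.trans (V3.pt _).1 (Imp.trans (V3.prodL _ (V5.glo _).1)
    (Imp.trans (FZ3a.emb F e) (V3.nz _ _ _ fun _ _ _ h => mul_eq_zero_of_right _ h)))

end Pool.Agent.Lib.MP_557161_ag.HG.TW
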