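import Pool.Agent.Lib.MP_557161_ag.TW.OAll
import Pool.Agent.Lib.MP_557161_ag.TW.F0
import Pool.Agent.Lib.MP_557161_ag.TW.F1
import Pool.Agent.Lib.MP_557161_ag.TW.F1b
import Pool.Agent.Lib.MP_557161_ag.TW.F2
import Pool.Agent.Lib.MP_557161_ag.TW.F3
import Pool.Agent.Lib.MP_557161_ag.TW.F4
import Pool.Agent.Lib.MP_557161_ag.TW.FG
import Pool.Agent.Lib.MP_557161_ag.TW.FZ1
import Pool.Agent.Lib.MP_557161_ag.TW.FZ2
import Pool.Agent.Lib.MP_557161_ag.TW.FZ3
import Pool.Agent.Lib.MP_557161_ag.TW.FO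

/-!
The evaluation of the space of pairs with a companion matrix from the general tools.
-/

namespace Pool.Agent.Lib.MP_557161_ag.HG.TW

theorem FO_all {K : Type} [Field K] {p : ℕ} (h2 : (2 : K) ≠ 0) [V3 K p] [V4 K p] [V5 K p] :
    FO K p :=
  haveI : DA := DA_thm
  haveI : OI K p := OI_all h2
  haveI : F0 K p := F0_thm
  haveI : F1 K p := F1_thm
  haveI : F1b K p := F1b_thm
  haveI : F2 K p := F2_thm
  haveI : FG K p := FG_thm
  haveI : F4 K := F4_thm
  haveI : F3 K p := F3_thm h2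
  haveI : FZ1 K p := FZ1_thm
  haveI : FZ2 K p := FZ2_thm h2
  haveI : FZ3 K p := FZ3_thm
  FO_thm

end Pool.Agent.Lib.MP_557161_ag.HG.TW
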