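import Pool.Agent.Lib.MP_557161_ag.TW.StS
import Pool.Agent.Lib.MP_557161_ag.HG.A2a

/-!
From the double cover to odd functionals.
-/

namespace Pool.Agent.Lib.MP_557161_ag.HG.TW

open Pool.Agent.Lib.MP_557161_ag.DL Matrix

namespace S0a

variable {K : Type} [Field K] {p : ℕ} (T : TD K) {n : ℕ} {κ : Type} [Fintype κ]

lemma om_eq (L : Fld K) (x : Fin 2 → L) :
    T.om L x = algebraMap K L T.c * T.om1 L (x 0) (x 1) := by
  rw [TD.om, TD.om1]; ring

/-- The shape of the points `((x, y), v)`. -/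
abbrev c0 (n : ℕ) : Cd := ((Cd.vec (Fin n)).prod (.vec (Fin n))).prod .one

/-- The base with the zero phase. -/
def E0 (K : Type) [Field K] (n : ℕ) : Ph K (c0 n) :=
  ⟨.univ K _, fun _ _ => 0, fun _ _ R _ _ _ _ _ => R.zero⟩

/-- The equation of the double cover. -/
noncomputable def ff (L : Fld K) (z : (c0 n).X L) (_ : Unit) : L :=
  1 + (∏ i, T.om1 L (z.1.1 i) (z.1.2 i)) * z.2 ^ 2

lemma ff_reg : Reg (E0 K n).S (.vec Unit) (ff T) := fun _ _ R _ _ _ _ e _ =>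
  R.add R.one (R.mul (Rel.prod _ fun i _ => T.om1_rel R (e.1.1 i) (e.1.2 i)) (Rel.pow e.2 2))

/-- The power of the double cover with the zero phase. -/
noncomputable def E1 (κ : Type) [Fintype κ] : Ph K (.pi κ xz) :=
  ⟨T.UU.pi κ, fun _ _ => 0, fun _ _ R _ _ _ _ _ => R.zero⟩

/-- The quotient by the even sign changes. -/
noncomputable def pr (e : Fin n ≃ κ) (β : K) (L : Fld K) (x : (Cd.pi κ xz).X L) : (c0 n).X L :=
  ((fun a => (x (e a)).1 0, fun a => (x (e a)).1 1), algebraMap K L β / ∏ i, (x i).2)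

variable {T} {e : Fin n ≃ κ} {β : K}

lemma prod_sq (e : Fin n ≃ κ) {L : Fld K} {x : (Cd.pi κ xz).X L} (h : (E1 T κ).S.mem L x) :
    (∏ i, (x i).2) ^ 2 =
      algebraMap K L T.c ^ n * ∏ a, T.om1 L ((x (e a)).1 0) ((x (e a)).1 1) := by
  rw [← Finset.prod_pow, ← e.prod_comp, Finset.prod_congr rfl fun a _ =>
    ((T.UU_iff.1 (h (e a))).2.trans (om_eq T L _)), Finset.prod_mul_distrib]
  simp

lemma prod_ne {L : Fld K} {x : (Cd.pi κ xz).X L} (h : (E1 T κ).S.mem L x) : ∏ i, (x i).2 ≠ 0 :=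
  Finset.prod_ne_zero_iff.2 fun i _ => (T.UU_iff.1 (h i)).1

lemma beta_sq (hβ : β ^ 2 = -T.c ^ n) (L : Fld K) :
    algebraMap K L β ^ 2 = -algebraMap K L T.c ^ n := by
  rw [← map_pow, hβ, map_neg, map_pow]

lemma pr_mp (hβ : β ^ 2 = -T.c ^ n) :
    PMp (E1 T κ) ((E0 K n).zer (ff T) (ff_reg T)) (pr e β) := by
  refine ⟨⟨fun _ _ R _ _ _ m' h => ⟨⟨fun a => (h _).1 0, fun a => (h _).1 1⟩,
    Rel.div (R.const _) (Rel.prod _ fun i _ => (h i).2) (prod_ne m')⟩,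
    fun L x m => ⟨trivial, fun _ => ?_⟩⟩, fun _ _ _ => rfl⟩
  have h1 := prod_sq e m
  have h2 := pow_ne_zero 2 (prod_ne m)
  show 1 + (∏ a, T.om1 L ((x (e a)).1 0) ((x (e a)).1 1)) *
    (algebraMap K L β / ∏ i, (x i).2) ^ 2 = 0
  rw [div_pow, beta_sq hβ, ← mul_div_assoc, add_eq_zero_iff_eq_neg, ← neg_div, eq_comm,
    div_eq_one_iff_eq h2, h1]
  ring

lemma om_ne {L : Fld K} {z : (c0 n).X L} (h : ((E0 K n).zer (ff T) (ff_reg T)).S.mem L z)
    (a : Fin n) : algebraMap K L T.c * T.om1 L (z.1.1 a) (z.1.2 a) ≠ 0 := by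
  refine mul_ne_zero ((map_ne_zero _).2 T.c0) fun h0 => ?_
  have := h.2 ()
  rw [ff, Finset.prod_eq_zero (Finset.mem_univ a) h0, zero_mul, add_zero] at this
  exact one_ne_zero this

lemma pr_pro : Pro (E1 T κ).S ((E0 K n).zer (ff T) (ff_reg T)).S (pr e β) := by
  intro M O x z _ m m' h
  have h1 : ∀ i k, (Rel.ofPl O).r ((x i).1 k) (![z.1.1 (e.symm i), z.1.2 (e.symm i)] k) := by
    intro i k
    obtain ⟨a, rfl⟩ := e.surjective i
    rw [e.symm_apply_apply]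
    fin_cases k
    exacts [h.1.1 a, h.1.2 a]
  have h2 : ∀ i, (Rel.ofPl O).r (x i).2 (O.rd (x i).2) := fun i => by
    refine ⟨?_, rfl⟩
    obtain ⟨a1, a2⟩ := T.UU_iff.1 (m i)
    have h3 : (x i).2 ^ 2 ∈ O.O := a2 ▸ (T.om_rel _ (h1 i)).1
    rcases O.O.mem_or_inv_mem (x i).2 with h4 | h4
    · exact h4
    · have := mul_mem h3 h4
      rwa [pow_two, mul_inv_cancel_right₀ a1] at this
  refine ⟨fun i => (![z.1.1 (e.symm i), z.1.2 (e.symm i)], O.rd (x i).2), fun i => ?_,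
    fun i => ⟨h1 i, h2 i⟩⟩
  have h3 := Rel.eq (Rel.pow (h2 i) 2) (T.om_rel _ (h1 i)) (T.UU_iff.1 (m i)).2
  refine T.UU_iff.2 ⟨fun h0 => om_ne m' (e.symm i) ?_, h3⟩
  rw [show O.rd (x i).2 = 0 from h0, om_eq] at h3
  exact h3.symm.trans (zero_pow two_ne_zero)

variable [DecidableEq κ]

lemma ng_mem {L : Fld K} {x : (Cd.pi κ xz).X L} (h : (E1 T κ).S.mem L x) (i : κ) :
    (E1 T κ).S.mem L (Function.update x i (ngz L (x i))) := fun k => by
  by_cases e : k = i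
  · subst e
    rw [Function.update_self]
    obtain ⟨a1, a2⟩ := T.UU_iff.1 (h k)
    exact T.UU_iff.2 ⟨neg_ne_zero.2 a1, (neg_sq _).trans a2⟩
  · rw [Function.update_of_ne e]
    exact h k

lemma pr_ng {L : Fld K} (x : (Cd.pi κ xz).X L) (i : κ) :
    pr e β L (Function.update x i (ngz L (x i))) = ((pr e β L x).1, -(pr e β L x).2) := by
  have h1 : ∀ k, (Function.update x i (ngz L (x i)) k).1 = (x k).1 := fun k => by
    by_cases e : k = i
    · subst e
      rw [Function.update_self, ngz]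
    · rw [Function.update_of_ne e]
  have h2 : ∏ k, (Function.update x i (ngz L (x i)) k).2 = -∏ k, (x k).2 := by
    rw [← Finset.mul_prod_erase _ _ (Finset.mem_univ i),
      ← Finset.mul_prod_erase _ (fun k => (x k).2) (Finset.mem_univ i), Function.update_self,
      Finset.prod_congr rfl fun k hk => by rw [Function.update_of_ne (Finset.ne_of_mem_erase hk)]]
    exact neg_mul _ _
  simp only [pr, h1, h2, div_neg]

lemma pr_srj (hβ : β ^ 2 = -T.c ^ n) (i₀ : κ) :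
    Srj (E1 T κ).S ((E0 K n).zer (ff T) (ff_reg T)).S (pr e β) := by
  intro L _ z m
  choose r hr using fun a : Fin n => IsAlgClosed.exists_pow_nat_eq
    (algebraMap K L T.c * T.om1 L (z.1.1 a) (z.1.2 a)) two_pos
  let x : (Cd.pi κ xz).X L := fun i => (![z.1.1 (e.symm i), z.1.2 (e.symm i)], r (e.symm i))
  have hx : (E1 T κ).S.mem L x := fun i => T.UU_iff.2 ⟨fun h0 => om_ne m (e.symm i) (by
    rw [← hr, show r (e.symm i) = 0 from h0, zero_pow two_ne_zero]), by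
      rw [om_eq]; exact hr _⟩
  have h1 : (pr e β L x).1 = z.1 :=
    Prod.ext (funext fun a => by simp [pr, x]) (funext fun a => by simp [pr, x])
  have h2 := ((pr_mp hβ (e := e)).mem L x hx).2 ()
  have h3 := m.2 ()
  rw [ff] at h2 h3
  rw [h1, ← h3, add_right_inj] at h2
  have h4 := mul_left_cancel₀
    (Finset.prod_ne_zero_iff.2 fun a _ => right_ne_zero_of_mul (om_ne m a)) h2
  rcases sq_eq_sq_iff_eq_or_eq_neg.1 h4 with h5 | h5
  · exact ⟨x, hx, Prod.ext h1 h5⟩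
  · exact ⟨_, ng_mem hx i₀, (pr_ng x i₀).trans (Prod.ext h1 (neg_eq_iff_eq_neg.2 h5))⟩

lemma flip {L : Fld K} (A : (Cd.pi κ xz).X L → ℂ)
    (hA : ∀ i x, A (Function.update x i (ngz L (x i))) = -A x) (x : (Cd.pi κ xz).X L)
    (s : Finset κ) : A (fun i => if i ∈ s then ngz L (x i) else x i) = (-1) ^ s.card * A x := by
  induction s using Finset.induction_on with
  | empty => simp
  | insert a s ha ih =>
    rw [Finset.card_insert_of_notMem ha, pow_succ, mul_neg_one, neg_mul, ← ih, ← hA a]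
    congr 1
    funext i
    by_cases e : i = a
    · subst e; simp [ha]
    · simp [e]

lemma fib (hβ : β ^ 2 = -T.c ^ n) {L : Fld K} (A : (Cd.pi κ xz).X L → ℂ)
    (hA : ∀ i x, A (Function.update x i (ngz L (x i))) = -A x) {x x' : (Cd.pi κ xz).X L}
    (m : (E1 T κ).S.mem L x) (m' : (E1 T κ).S.mem L x') (h : pr e β L x = pr e β L x') :
    A x = A x' := by
  classical
  have h1 : ∀ i, (x' i).1 = (x i).1 := fun i => by
    obtain ⟨a, rfl⟩ := e.surjective i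
    funext k
    fin_cases k
    exacts [(congrFun (congrArg (·.1.1) h) a).symm, (congrFun (congrArg (·.1.2) h) a).symm]
  let s := Finset.univ.filter fun i => (x' i).2 = -(x i).2
  have h2 : x' = fun i => if i ∈ s then ngz L (x i) else x i := funext fun i => by
    have h3 : (x' i).2 ^ 2 = (x i).2 ^ 2 := by
      rw [(T.UU_iff.1 (m i)).2, (T.UU_iff.1 (m' i)).2, h1]
    split_ifs with hi
    · exact Prod.ext (h1 i) (Finset.mem_filter.1 hi).2
    · exact Prod.ext (h1 i) ((sq_eq_sq_iff_eq_or_eq_neg.1 h3).resolve_right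
        fun h4 => hi (Finset.mem_filter.2 ⟨Finset.mem_univ _, h4⟩))
  have b0 : algebraMap K L β ≠ 0 := fun h0 => by
    have := beta_sq hβ L
    rw [h0, zero_pow two_ne_zero, eq_comm, neg_eq_zero] at this
    exact pow_ne_zero _ ((map_ne_zero _).2 T.c0) this
  have h4 : ∏ i, (x i).2 = ∏ i, (x' i).2 := by
    have := congrArg (·.2) h
    exact inv_injective (mul_left_cancel₀ b0 (by simpa only [pr, div_eq_mul_inv] using this))
  have h5 : ∏ i, (x' i).2 = (-1) ^ s.card * ∏ i, (x i).2 := by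
    rw [← Finset.prod_const, ← Finset.univ_inter s, ← Finset.prod_ite_mem, ← Finset.prod_mul_distrib]
    refine Finset.prod_congr rfl fun i _ => ?_
    rw [congrFun h2 i]
    split_ifs
    exacts [(neg_one_mul _).symm, (one_mul _).symm]
  rw [h2, flip A hA]
  rcases Nat.even_or_odd s.card with h6 | h6
  · rw [h6.neg_one_pow, one_mul]
  · rw [h6.neg_one_pow, ← h4, neg_one_mul, eq_neg_iff_add_eq_zero, ← two_mul] at h5
    refine absurd h5 (mul_ne_zero ?_ (prod_ne m))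
    rw [← map_ofNat (algebraMap K L) 2]
    exact (map_ne_zero _).2 T.two

variable {d : Cd} {W : ASp K d} {j : ℕ}

/-- The alternating sum. -/
noncomputable def asum (Φ : AF j ((T.UU.pi κ).prod W)) (L : Fld K) (x : κ → xz.X L) (w : d.X L) :
    ℂ := ∑ σ : Equiv.Perm κ, ((Equiv.Perm.sign σ : ℤ) : ℂ) * Φ.a L (fun i => x (σ i), w)

lemma asum_ng {Φ : AF j ((T.UU.pi κ).prod W)} (ha : Anti ngz Φ) (L : Fld K) (w : d.X L) (i : κ)
    (x : κ → xz.X L) : asum Φ L (Function.update x i (ngz L (x i))) w = -asum Φ L x w := by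
  rw [asum, asum, ← Finset.sum_neg_distrib]
  refine Finset.sum_congr rfl fun σ _ => ?_
  rw [← mul_neg, ← ha (σ.symm i) L (fun k => x (σ k)) w, σ.apply_symm_apply]
  congr 3
  exact Function.update_comp_equiv x σ i _

lemma asum_perm (Φ : AF j ((T.UU.pi κ).prod W)) (L : Fld K) (x : κ → xz.X L) (w : d.X L)
    {a b : κ} (h : a ≠ b) : asum Φ L (fun i => x (Equiv.swap a b i)) w = -asum Φ L x w := by
  rw [asum, asum, ← Finset.sum_neg_distrib]
  refine Fintype.sum_equiv (Equiv.mulLeft (Equiv.swap a b)) _ _ fun σ => ?_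
  rw [Equiv.coe_mulLeft, Equiv.Perm.sign_mul, Equiv.Perm.sign_swap h]
  simp

variable [Fact p.Prime] [CharP K p] [FC1 K p]

lemma exists_alt (Φ : AF j ((T.UU.pi κ).prod W)) (hk : KillsA Φ) :
    ∃ Ψ : NF p j (E1 T κ) W, ∀ L x y w, (E1 T κ).S.mem L x →
      Ψ.b L x y w = A2.eps y * asum Φ L x w := by
  obtain ⟨Φ0, h0⟩ := A2.exists_nf (p := p) (E := E1 T κ) (fun _ _ => Iff.rfl) (fun _ _ => rfl) Φ hk
  have pm : ∀ σ : Equiv.Perm κ, Mp (E1 T κ).S (E1 T κ).S fun _ x i => x (σ i) :=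
    fun σ => ⟨fun _ _ _ _ _ _ _ e i => e _, fun _ _ m i => m _⟩
  choose Φ1 h1 using fun σ : Equiv.Perm κ => FC1.pull (E := E1 T κ) (E' := E1 T κ)
    ⟨pm σ, fun _ _ _ => rfl⟩ (Pro.of_left (pm σ⁻¹) (pm σ)
      fun _ x _ => funext fun i => congrArg x (σ.apply_symm_apply i)) Φ0
  obtain ⟨Ψ, h2⟩ := FC1.sum Finset.univ (fun σ : Equiv.Perm κ => ((Equiv.Perm.sign σ : ℤ) : ℂ)) Φ1
  refine ⟨Ψ, fun L x y w m => ?_⟩
  rw [h2, asum, Finset.mul_sum]
  exact Finset.sum_congr rfl fun σ _ => by rw [h1 σ L x y w m, h0, mul_left_comm]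

end S0a

open S0a in
theorem S0_thm {K : Type} [Field K] [Base K] {p : ℕ} [Fact p.Prime] [CharP K p] [FW0 K]
    [FWp K p] (_h2 : (2 : K) ≠ 0) : S0 K p where
  red T n H κ _ _ hκ d W j Φ hk ha L x w := by
    by_contra h
    obtain ⟨σ, -, hσ⟩ := Finset.exists_ne_zero_of_sum_ne_zero h
    obtain ⟨hL, m⟩ := Φ.supp L _ (right_ne_zero_of_mul hσ)
    have hx : (E1 T κ).S.mem L x := fun i => by
      have : T.UU.mem L (x (σ (σ.symm i))) := ((ASp.sp_some _).1 m).1 (σ.symm i)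
      rwa [σ.apply_symm_apply] at this
    rcases isEmpty_or_nonempty κ with hκ0 | ⟨⟨i₀⟩⟩
    · obtain ⟨F, -, hF⟩ := FA3.dm_vec (L := L) (κ := κ) isEmptyElim
      exact right_ne_zero_of_mul hσ (hk L _ w _ j ⟨F, fun i => isEmptyElim i, hF⟩
        (FA3.dm_tr w hL.2.le) (by simp))
    obtain ⟨β, hβ⟩ := IsAlgClosed.exists_pow_nat_eq (-T.c ^ n) two_pos
    let e : Fin n ≃ κ := (Finite.equivFinOfCardEq hκ).symm
    have mp := pr_mp (e := e) hβ
    have sj := pr_srj (e := e) hβ i₀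
    obtain ⟨Φ1, h1⟩ := exists_alt (p := p) Φ hk
    obtain ⟨Φ2, h2⟩ := FC1.desc mp pr_pro sj Φ1 fun L x x' y w m m' q => by
      rw [h1 _ _ _ _ m, h1 _ _ _ _ m', fib hβ (asum Φ L · w) (asum_ng ha L w) m m' q]
    obtain ⟨Ψ, hv, he⟩ := FC5.s5 (ff T) (ff_reg T) Φ2
    have nm : Mp (E0 K n).S (E0 K n).S fun _ z => (z.1, -z.2) :=
      ⟨fun _ _ _ _ _ _ _ e => ⟨e.1, Rel.neg e.2⟩, fun _ _ _ => trivial⟩
    have e1 := he _ _ 1 (-1) ⟨nm, nm, fun _ z _ => Prod.ext rfl (neg_neg _),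
      fun _ z _ => Prod.ext rfl (neg_neg _)⟩ (fun _ z _ => ⟨rfl, fun _ => by simp only [ff, neg_sq]⟩)
      (FC1.srj mp.toMp sj (nm.reg.mono fun _ _ m => m.1) (Reg.id _) Φ2 Φ2 (-1)
        fun L x y w m => by
          rw [← pr_ng x i₀, h2 _ _ _ _ (ng_mem m i₀), h2 _ _ _ _ m, h1 _ _ _ _ (ng_mem m i₀),
            h1 _ _ _ _ m, asum_ng ha, mul_neg, neg_one_mul])
    have sm : ∀ r r' : Fin n, Mp (E0 K n).S (E0 K n).S fun _ z =>
        ((fun a => z.1.1 (Equiv.swap r r' a), fun a => z.1.2 (Equiv.swap r r' a)), z.2) :=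
      fun r r' => ⟨fun _ _ _ _ _ _ _ e => ⟨⟨fun _ => e.1.1 _, fun _ => e.1.2 _⟩, e.2⟩,
        fun _ _ _ => trivial⟩
    have e2 := fun (r r' : Fin n) (hr : r ≠ r') => he _ _ 1 (-1) ⟨sm r r', sm r r',
      fun _ z _ => by simp, fun _ z _ => by simp⟩ (fun L z _ => ⟨rfl, fun _ => by
        simp only [ff]
        rw [Equiv.prod_comp (Equiv.swap r r') fun a => T.om1 L (z.1.1 a) (z.1.2 a)]⟩)
      (FC1.srj mp.toMp sj ((sm r r').reg.mono fun _ _ m => m.1) (Reg.id _) Φ2 Φ2 (-1)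
        fun L x y w m => by
          have m' : (E1 T κ).S.mem L fun i => x (Equiv.swap (e r) (e r') i) := fun i => m _
          have q : pr e β L (fun i => x (Equiv.swap (e r) (e r') i)) =
              ((fun a => (pr e β L x).1.1 (Equiv.swap r r' a),
                fun a => (pr e β L x).1.2 (Equiv.swap r r' a)), (pr e β L x).2) := by
            simp only [pr, e.injective.swap_apply]
            rw [Equiv.prod_comp (Equiv.swap (e r) (e r')) fun i => (x i).2]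
          rw [← q, h2 _ _ _ _ m', h2 _ _ _ _ m, h1 _ _ _ _ m', h1 _ _ _ _ m,
            asum_perm Φ L x w (e.injective.ne hr), mul_neg, neg_one_mul])
    have mg : Mp ((Gs K Unit).prod (T.Tn n)).v.S ((E0 K n).lin (ff T) (ff_reg T)).S
        fun _ z => ((z.1.2, z.2), z.1.1) :=
      ⟨fun _ _ _ _ _ _ _ e => ⟨⟨e.1.2, e.2⟩, e.1.1⟩, fun _ _ _ => ⟨trivial, trivial⟩⟩
    have tv : ∀ L z, ((Gs K Unit).prod (T.Tn n)).v.S.mem L z :=
      fun _ _ => ⟨⟨trivial, trivial⟩, trivial⟩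
    obtain ⟨Ψ', h3⟩ := FC1.pull (E := (E0 K n).lin (ff T) (ff_reg T))
      (E' := ((Gs K Unit).prod (T.Tn n)).v) ⟨mg, fun L z _ => by
        show 0 + ∑ i, z.1.1 i * ff T L (z.1.2, z.2) i = ∑ i, z.1.1 i + 0 +
          (∏ i, z.1.1 i) * (∏ i, T.om1 L (z.1.2.1 i) (z.1.2.2 i)) * z.2 ^ 2
        simp only [ff, Fintype.sum_unique, Fintype.prod_unique]
        ring⟩
      (Pro.of_left (g := fun _ z => ((z.2, z.1.1), z.1.2))
        ⟨fun _ _ _ _ _ _ _ e => ⟨⟨e.2, e.1.1⟩, e.1.2⟩, fun L z _ => tv L _⟩ mg fun _ _ _ => rfl) Ψ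
    have h4 := H W _ ⟨Ψ', fun L z v y w => by
      rw [h3 _ _ _ _ (tv _ _), h3 _ _ _ _ (tv _ _)]
      exact (e1 L ((z.2, v), z.1) y w ⟨trivial, trivial⟩).trans (neg_one_mul _)⟩ fun r r' hr L c x y v s w => by
      show Ψ'.b _ _ _ _ = -Ψ'.b _ _ _ _
      rw [h3 _ _ _ _ (tv _ _), h3 _ _ _ _ (tv _ _)]
      exact (e2 r r' hr L (((x, y), v), c) s w ⟨trivial, trivial⟩).trans (neg_one_mul _)
    have h5 : ∀ L z y w, Ψ.b L z y w = 0 := fun L z y w =>
      (h3 L ((z.2, z.1.1), z.1.2) y w (tv _ _)).symm.trans (h4 L (z.2, z.1.1) z.1.2 y w)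
    have := hv L _ _ _ (pr e β L x) 0 w (FA1.fr_free Unit hL) (mp.mem L x hx)
    rw [h5, h2 _ _ _ _ hx, h1 _ _ _ _ hx, A2.eps_zero, one_mul] at this
    exact mul_ne_zero (pow_ne_zero _ (neg_ne_zero.2 one_ne_zero)) h this.symm

end Pool.Agent.Lib.MP_557161_ag.HG.TW
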