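import Pool.Agent.Lib.MP_557161_ag.TW.Wd
import Pool.Agent.Lib.MP_557161_ag.HG.St3M

/-!
From alternating functionals on a power of the surface to pairs of matrices: definitions and
statements.
-/

namespace Pool.Agent.Lib.MP_557161_ag.HG.TW

open Pool.Agent.Lib.MP_557161_ag.DL Matrix

variable {K : Type} [Field K] {cc d : Cd}

section Mat

variable {F : Type} [Field F] {n m : ℕ}

/-- The upper bidiagonal matrix with diagonal `y`. -/
def bid (y : Fin n → F) : Matrix (Fin n) (Fin n) F :=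
  Matrix.of fun i j => if i = j then y i else if i.1 + 1 = j.1 then 1 else 0

/-- The companion matrix with last column `a`. -/
def cmp (a : Fin (m + 1) → F) : Matrix (Fin (m + 1)) (Fin (m + 1)) F :=
  Matrix.of fun i j => if j = Fin.last m then a i else if i.1 = j.1 + 1 then 1 else 0

/-- The bidiagonal matrix with a free first row. -/
def siY (y : Fin (m + 1) → F) (ξ : Fin m → F) : Matrix (Fin (m + 1)) (Fin (m + 1)) F :=
  Matrix.of fun i j => if i = 0 then Fin.cases (y 0) ξ j else bid y i j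

/-- A block triangular matrix. -/
def blk (x : F) (u : Fin m → F) (X : Matrix (Fin m) (Fin m) F) :
    Matrix (Fin (m + 1)) (Fin (m + 1)) F :=
  Matrix.of fun i j => Fin.cases (Fin.cases x u j) (fun i' => Fin.cases 0 (X i') j) i

/-- The function that detects cyclic vectors. -/
def rhoS (y : Fin (m + 1) → F) (ξ : Fin m → F) : F :=
  ∑ l, ξ l * ∏ j ∈ Finset.univ.filter (· < l), (y 0 - y j.succ)

/-- The matrix with eigenvalues `x₁, x₂` and first row `(p, q)`. -/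
def gx (x₁ x₂ p q : F) : Matrix (Fin 2) (Fin 2) F :=
  !![p, q; -((p - x₁) * (p - x₂)) / q, x₁ + x₂ - p]

/-- The simple reflection on pairs (matrix, diagonal). -/
def sgm (r r' : Fin n) (z : Matrix (Fin n) (Fin n) F × (Fin n → F)) :
    Matrix (Fin n) (Fin n) F × (Fin n → F) :=
  (hS r r' (z.2 r - z.2 r') * z.1 * hS r r' (-(z.2 r - z.2 r')), fun i => z.2 (Equiv.swap r r' i))

/-- The simple reflection on triples with a free first row. -/
def sgS (r r' : Fin m)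
    (z : Matrix (Fin (m + 1)) (Fin (m + 1)) F × ((Fin (m + 1) → F) × (Fin m → F))) :
    Matrix (Fin (m + 1)) (Fin (m + 1)) F × ((Fin (m + 1) → F) × (Fin m → F)) :=
  ((sgm r.succ r'.succ (z.1, z.2.1)).1, (sgm r.succ r'.succ (z.1, z.2.1)).2,
    z.2.2 ᵥ* hS r r' (-(z.2.1 r.succ - z.2.1 r'.succ)))

variable {M L : Fld K} {R : Rel M L}

lemma rel_bid {y : Fin n → M} {y' : Fin n → L} (h : ∀ i, R.r (y i) (y' i)) :
    R.m' (bid y) (bid y') := fun i _ => Rel.ite _ (h i) (Rel.ite _ R.one R.zero)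

lemma rel_cmp {a : Fin (m + 1) → M} {a' : Fin (m + 1) → L} (h : ∀ i, R.r (a i) (a' i)) :
    R.m' (cmp a) (cmp a') := fun i _ => Rel.ite _ (h i) (Rel.ite _ R.one R.zero)

lemma rel_siY {y : Fin (m + 1) → M} {y' : Fin (m + 1) → L} {ξ : Fin m → M} {ξ' : Fin m → L}
    (h : ∀ i, R.r (y i) (y' i)) (h' : ∀ i, R.r (ξ i) (ξ' i)) : R.m' (siY y ξ) (siY y' ξ') :=
  fun i j => Rel.ite _ (by cases j using Fin.cases; exacts [h 0, h' _]) (rel_bid h i j)

lemma rel_blk {x : M} {x' : L} {u : Fin m → M} {u' : Fin m → L} {X : Matrix (Fin m) (Fin m) M}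
    {X' : Matrix (Fin m) (Fin m) L} (h : R.r x x') (h' : ∀ i, R.r (u i) (u' i)) (h'' : R.m' X X') :
    R.m' (blk x u X) (blk x' u' X') := fun i j => by
  cases i using Fin.cases <;> cases j using Fin.cases
  exacts [h, h' _, R.zero, h'' _ _]

end Mat

namespace TD

variable (T : TD K)

section
variable {ι : Type} [Fintype ι] [DecidableEq ι]

/-- The factor that depends on the first matrix. -/
noncomputable def fm (L : Fld K) (X : Matrix ι ι L) : L :=
  ∏ l, (1 - algebraMap K L (T.a l) • X).det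

/-- The factor that depends on the second matrix. -/
noncomputable def dm (L : Fld K) (Y : Matrix ι ι L) : L :=
  ∏ j, (Y - algebraMap K L (T.b j) • (1 : Matrix ι ι L)).det

/-- The weight of a pair of matrices. -/
noncomputable def Om (L : Fld K) (X Y : Matrix ι ι L) : L :=
  T.fm L X * (1 - Y * X).det * T.dm L Y

variable {M L : Fld K} (R : Rel M L) {X Y : Matrix ι ι M} {X' Y' : Matrix ι ι L}

lemma fm_rel (h : R.m' X X') : R.r (T.fm M X) (T.fm L X') :=
  Rel.prod _ fun _ _ => Rel.det (Rel.msub Rel.mone (Rel.msmul (R.const _) h))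

lemma dm_rel (h : R.m' Y Y') : R.r (T.dm M Y) (T.dm L Y') :=
  Rel.prod _ fun _ _ => Rel.det (Rel.msub h (Rel.msmul (R.const _) Rel.mone))

lemma Om_rel (h : R.m' X X') (h' : R.m' Y Y') : R.r (T.Om M X Y) (T.Om L X' Y') :=
  R.mul (R.mul (T.fm_rel R h) (Rel.det (Rel.msub Rel.mone (Rel.mmul h' h)))) (T.dm_rel R h')

end

/-- The weight of a point of the plane. -/
noncomputable def om1 (L : Fld K) (x y : L) : L :=
  (∏ l, (1 - algebraMap K L (T.a l) * x)) * (1 - y * x) * ∏ j, (y - algebraMap K L (T.b j))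

lemma om1_rel {M L : Fld K} (R : Rel M L) {x y : M} {x' y' : L} (h : R.r x x') (h' : R.r y y') :
    R.r (T.om1 M x y) (T.om1 L x' y') :=
  R.mul (R.mul (Rel.prod _ fun _ _ => Rel.sub R.one (R.mul (R.const _) h))
    (Rel.sub R.one (R.mul h' h))) (Rel.prod _ fun _ _ => Rel.sub h' (R.const _))

/-- The plane. -/
noncomputable def T1 : WD K (Cd.one.prod .one) :=
  mkW (.univ K _) (fun _ _ => 0) (fun L z => T.om1 L z.1 z.2) (fun _ _ R _ _ _ _ _ => R.zero)
    fun _ _ R _ _ _ _ e => T.om1_rel R e.1 e.2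

/-- A power of the plane. -/
noncomputable def Tn (n : ℕ) : WD K ((Cd.vec (Fin n)).prod (.vec (Fin n))) :=
  mkW (.univ K _) (fun _ _ => 0) (fun L z => ∏ i, T.om1 L (z.1 i) (z.2 i))
    (fun _ _ R _ _ _ _ _ => R.zero)
    fun _ _ R _ _ _ _ e => Rel.prod _ fun i _ => T.om1_rel R (e.1 i) (e.2 i)

/-- Pairs with a bidiagonal second matrix. -/
noncomputable def Ct (n : ℕ) : WD K ((sq n).prod (.vec (Fin n))) :=
  mkW (.univ K _) (fun _ _ => 0) (fun L z => T.Om L z.1 (bid z.2)) (fun _ _ R _ _ _ _ _ => R.zero)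
    fun _ _ R _ _ _ _ e => T.Om_rel R e.1 (rel_bid e.2)

/-- Pairs whose second matrix is a companion matrix. -/
noncomputable def CX (m : ℕ) : WD K ((sq (m + 1)).prod (.vec (Fin (m + 1)))) :=
  mkW (.univ K _) (fun _ _ => 0) (fun L z => T.Om L z.1 (cmp z.2)) (fun _ _ R _ _ _ _ _ => R.zero)
    fun _ _ R _ _ _ _ e => T.Om_rel R e.1 (rel_cmp e.2)

/-- Pairs whose second matrix is bidiagonal with a free first row. -/
noncomputable def Si (m : ℕ) :
    WD K ((sq (m + 1)).prod ((Cd.vec (Fin (m + 1))).prod (.vec (Fin m)))) :=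
  mkW (.univ K _) (fun _ _ => 0) (fun L z => T.Om L z.1 (siY z.2.1 z.2.2))
    (fun _ _ R _ _ _ _ _ => R.zero) fun _ _ R _ _ _ _ e => T.Om_rel R e.1 (rel_siY e.2.1 e.2.2)

/-- Pairs whose second matrix is free above the diagonal blocks of `β`. -/
noncomputable def KS (C : WD K cc) {ι : Type} [Fintype ι] [DecidableEq ι] (β : ι → ℕ)
    (Y0 : ∀ L : Fld K, cc.X L → Matrix ι ι L) (hY : Reg C.S (.mat ι ι) Y0) :
    WD K (cc.prod ((Cd.mat ι ι).prod (.mat ι ι))) :=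
  C.ext ((C.S.prod (.univ K _)).cl (fun L z => ∀ i l, ¬ β i < β l → z.2.2 i l = Y0 L z.1 i l)
    fun _ _ R _ _ m m' e h i l hl => Rel.eq (e.2.2 i l) (hY R m.1 m'.1 e.1 i l) (h i l hl))
    (fun _ _ h => h.1.1) (fun _ _ => 0) (fun L z => T.Om L z.2.1 z.2.2)
    (fun _ _ R _ _ _ _ _ => R.zero) fun _ _ R _ _ _ _ e => T.Om_rel R e.2.1 e.2.2

/-- Matrices of size two over a context that carries a triangular matrix. -/
noncomputable def Q2 (C : WD K cc) (y₁ ν y₂ : ∀ L : Fld K, cc.X L → L) (h₁ : Reg C.S .one y₁)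
    (hν : Reg C.S .one ν) (h₂ : Reg C.S .one y₂) : WD K (cc.prod (sq 2)) :=
  C.ext (C.S.prod (.univ K _)) (fun _ _ h => h.1) (fun _ _ => 0)
    (fun L z => T.fm L z.2 * (1 - !![y₁ L z.1, ν L z.1; 0, y₂ L z.1] * z.2).det)
    (fun _ _ R _ _ _ _ _ => R.zero)
    fun _ _ R _ _ m m' e => R.mul (T.fm_rel R e.2) (Rel.det (Rel.msub Rel.mone (Rel.mmul
      (fun i j => by
        fin_cases i <;> fin_cases j
        exacts [h₁ R m.1 m'.1 e.1, hν R m.1 m'.1 e.1, R.zero, h₂ R m.1 m'.1 e.1]) e.2)))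

/-- The case of a unipotent entry equal to one. -/
noncomputable def Qb (C : WD K cc) (y₁ y₂ : ∀ L : Fld K, cc.X L → L) (h₁ : Reg C.S .one y₁)
    (h₂ : Reg C.S .one y₂) : WD K (cc.prod (sq 2)) :=
  T.Q2 C y₁ (fun _ _ => 1) y₂ h₁ (fun _ _ R _ _ _ _ _ => R.one) h₂

/-- The case of equal eigenvalues and a free unipotent entry. -/
noncomputable def Qa (C : WD K cc) (y : ∀ L : Fld K, cc.X L → L) (h : Reg C.S .one y) :
    WD K ((cc.prod .one).prod (sq 2)) :=
  T.Q2 (C.prod (Aff K .one)) (fun L z => y L z.1) (fun _ z => z.2) (fun L z => y L z.1)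
    (fun _ _ R _ _ m m' e => h R m.1 m'.1 e.1) (fun _ _ _ _ _ _ _ e => e.2)
    fun _ _ R _ _ m m' e => h R m.1 m'.1 e.1

end TD

section Rel

variable {p : ℕ} {T : TD K} {C : WD K cc} {W : ASp K d} {n m i j : ℕ}

/-- Alternating functionals. -/
def Alt (Φ : ANF p j (C.prod (T.Tn n)) W) : Prop :=
  ∀ (r r' : Fin n), r ≠ r' → ∀ (L : Fld K) c (x y : Fin n → L) v s w,
    Φ.e L (c, fun a => x (Equiv.swap r r' a), fun a => y (Equiv.swap r r' a)) v s w =
      -Φ.e L (c, x, y) v s w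

/-- The values at generic triangular matrices. -/
def RelN (Φ : ANF p j (C.prod (T.Tn n)) W) (Θ : ANF p i (C.prod (T.Ct n)) W) (ε : ℂ) : Prop :=
  ∀ (L M : Fld K) (α : L →ₐ[K] M) (U : UpN n → M) c (x y : Fin n → L) v s w, Free j α U →
    Θ.e M (cc.map α c, diagonal (fun a => α (x a)) + upm Fin.val U, fun a => α (y a)) (α v) (α s)
      (d.map α w) = ε * Φ.e L (c, x, y) v s w

/-- The values at generic triangular matrices with a generic first row. -/
def RelS (Φ : ANF p j (C.prod (T.Tn (m + 1))) W) (Ψ : ANF p i (C.prod (T.Si m)) W) (ε : ℂ) :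
    Prop :=
  ∀ (L M : Fld K) (α : L →ₐ[K] M) (U : UpN (m + 1) ⊕ Fin m → M) c (x y : Fin (m + 1) → L) v s w,
    Free j α U → Ψ.e M (cc.map α c, diagonal (fun a => α (x a)) + upm Fin.val (fun a => U (.inl a)),
      fun a => α (y a), fun a => U (.inr a)) (α v) (α s) (d.map α w) = ε * Φ.e L (c, x, y) v s w

/-- The values at generic block triangular matrices. -/
def RelB (Θ : ANF p j ((C.prod T.T1).prod (T.Ct m)) W) (Ψ : ANF p i (C.prod (T.Si m)) W) (ε : ℂ) :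
    Prop :=
  ∀ (L M : Fld K) (α : L →ₐ[K] M) (U : Fin m ⊕ Fin m → M) c (x y : L)
    (X : Matrix (Fin m) (Fin m) L) (y' : Fin m → L) v s w, Free j α U →
    Ψ.e M (cc.map α c, blk (α x) (fun a => U (.inl a)) (X.map α),
      Fin.cons (α y) (fun a => α (y' a)), fun a => U (.inr a)) (α v) (α s) (d.map α w) =
      ε * Θ.e L ((c, x, y), X, y') v s w

/-- Invariance under the simple reflections. -/
def InvC (Θ : ANF p i (C.prod (T.Ct n)) W) : Prop :=
  ∀ (r r' : Fin n), r'.1 = r.1 + 1 → ∀ (L : Fld K) c z v s w,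
    Θ.e L (c, sgm r r' z) v s w = Θ.e L (c, z) v s w

/-- Invariance under the simple reflections that fix the first index. -/
def InvS (Ψ : ANF p i (C.prod (T.Si m)) W) : Prop :=
  ∀ (r r' : Fin m), r'.1 = r.1 + 1 → ∀ (L : Fld K) c z v s w,
    Ψ.e L (c, sgS r r' z) v s w = Ψ.e L (c, z) v s w

/-- Vanishing on the locus where the first block of size two is scalar. -/
def VanN (Ψ : ANF p i (C.prod (T.Si (m + 1))) W) : Prop :=
  ∀ (L : Fld K) c X (y : Fin (m + 2) → L) (ξ : Fin (m + 1) → L) v s w, y 0 = y 1 → ξ 0 = 0 →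
    Ψ.e L (c, X, y, ξ) v s w = 0

end Rel

/-- Functionals live on the block triangular matrices. -/
class SK (K : Type) [Field K] (p : ℕ) : Prop where
  kill : ∀ (T : TD K) {cc d : Cd} (C : WD K cc) {W : ASp K d} {ι : Type} [Fintype ι] [DecidableEq ι]
    (β : ι → ℕ) (Y0 : ∀ L : Fld K, cc.X L → Matrix ι ι L) (hY : Reg C.S (.mat ι ι) Y0),
    (∀ L c, C.S.mem L c → (Y0 L c).BlockTriangular β) → ∀ {i : ℕ} (Ψ : ANF p i (T.KS C β Y0 hY) W),
    (∀ L z v s w, Matrix.BlockTriangular z.2.1 β → Ψ.e L z v s w = 0) →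
    ∀ L z v s w, Ψ.e L z v s w = 0

/-- The Newton basis, and the algebra of the simple reflections. -/
class SB (K : Type) [Field K] : Prop where
  nb : ∀ m : ℕ, ∃ nb : ∀ L : Fld K, (sq (m + 1)).X L → (sq (m + 1)).X L,
    Reg (.univ K _) _ nb ∧ (∀ (L : Fld K) (Y : Matrix (Fin (m + 1)) (Fin (m + 1)) L),
      Y.BlockTriangular Fin.val → Matrix.BlockTriangular (nb L Y) Fin.val ∧
        (∀ i, nb L Y i (Fin.last m) = if i = Fin.last m then 1 else 0) ∧
        Y * nb L Y = nb L Y * bid fun i => Y i i) ∧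
      ∀ (L : Fld K) (b : Matrix (Fin (m + 1)) (Fin (m + 1)) L) (y : Fin (m + 1) → L),
        b.BlockTriangular Fin.val → b.det ≠ 0 →
        (∀ i, b i (Fin.last m) = if i = Fin.last m then 1 else 0) →
        nb L (b * bid y * b⁻¹) = b ∧ (b * bid y * b⁻¹).BlockTriangular Fin.val ∧
          ∀ i, (b * bid y * b⁻¹) i i = y i
  conj : ∀ (T : TD K) {ι : Type} [Fintype ι] [DecidableEq ι] (L : Fld K) (g g' X Y : Matrix ι ι L),
    g' * g = 1 → T.Om L (g * X * g') (g * Y * g') = T.Om L X Y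
  tri : ∀ (T : TD K) {n : ℕ} (L : Fld K) (X Y : Matrix (Fin n) (Fin n) L),
    X.BlockTriangular Fin.val → Y.BlockTriangular Fin.val →
    T.Om L X Y = ∏ i, T.om1 L (X i i) (Y i i)
  hs : ∀ {n : ℕ} (L : Fld K) {r r' : Fin n}, r'.1 = r.1 + 1 → ∀ y : Fin n → L,
    hS r r' (y r - y r') * bid y * hS r r' (-(y r - y r')) = bid fun i => y (Equiv.swap r r' i)
  sg : ∀ (T : TD K) {n : ℕ} {r r' : Fin n}, r'.1 = r.1 + 1 →
    WEq (T.Ct n) (T.Ct n) (fun _ z => sgm r r' z) ∧ ∀ (L : Fld K) (z : ((sq n).prod (.vec (Fin n))).X L),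
      sgm r r' (sgm r r' z) = z
  sgs : ∀ (T : TD K) {m : ℕ} {r r' : Fin m}, r'.1 = r.1 + 1 →
    WEq (T.Si m) (T.Si m) (fun _ z => sgS r r' z) ∧ ∀ (L : Fld K)
      (z : ((sq (m + 1)).prod ((Cd.vec (Fin (m + 1))).prod (.vec (Fin m)))).X L),
      sgS r r' (sgS r r' z) = z ∧ rhoS (sgS r r' z).2.1 (sgS r r' z).2.2 = rhoS z.2.1 z.2.2

/-- Uniqueness for bidiagonal matrices. -/
class SU (K : Type) [Field K] (p : ℕ) : Prop where
  tri : ∀ {T : TD K} {cc d : Cd} {C : WD K cc} {W : ASp K d} {n i : ℕ}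
    (Θ : ANF p i (C.prod (T.Ct n)) W),
    (∀ L z v s w, Matrix.BlockTriangular z.2.1 Fin.val → Θ.e L z v s w = 0) →
    ∀ L z v s w, Θ.e L z v s w = 0
  uniq : ∀ {T : TD K} {cc d : Cd} {C : WD K cc} {W : ASp K d} {n i : ℕ}
    (Θ : ANF p i (C.prod (T.Ct n)) W),
    (∀ (j : ℕ) (L M : Fld K) (α : L →ₐ[K] M) (U : UpN n → M) c (x y : Fin n → L) v s w,
      i = j + Nat.card (UpN n) → Free j α U →
      Θ.e M (cc.map α c, diagonal (fun a => α (x a)) + upm Fin.val U, fun a => α (y a)) (α v) (α s)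
        (d.map α w) = 0) → ∀ L z v s w, Θ.e L z v s w = 0

/-- Reduction to a parabolic subalgebra on the scalar locus. -/
class SN (K : Type) [Field K] (p : ℕ) : Prop where
  red : ∀ {T : TD K} {cc d : Cd} {C : WD K cc} {W : ASp K d} {m i : ℕ}
    (Ψ : ANF p i (C.prod (T.Si (m + 1))) W),
    (∀ (L : Fld K) c (X : Matrix (Fin (m + 2)) (Fin (m + 2)) L) (y : Fin (m + 2) → L)
      (ξ : Fin (m + 1) → L) v s w, y 0 = y 1 → ξ 0 = 0 →
      X.BlockTriangular (fun a => a.1 - 1) → Ψ.e L (c, X, y, ξ) v s w = 0) → VanN Ψ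

/-- The relation for distinct eigenvalues. -/
class S2b (K : Type) [Field K] (p : ℕ) : Prop where
  rel : ∀ (T : TD K) {cc d : Cd} (C : WD K cc) {W : ASp K d} (y₁ y₂ : ∀ L : Fld K, cc.X L → L)
    (h₁ : Reg C.S .one y₁) (h₂ : Reg C.S .one y₂) {j : ℕ}
    (Ψ : ANF p (j + 1) (T.Qb C y₁ y₂ h₁ h₂) W) (L M : Fld K) (α : L →ₐ[K] M) (q : M) c (x₁ x₂ : L)
    v s w, Free j α (fun _ : Unit => q) → C.S.mem L c → y₁ L c ≠ y₂ L c →
    Ψ.e M (cc.map α c, !![α x₁, q; 0, α x₂]) (α v) (α s) (d.map α w) +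
      Ψ.e M (cc.map α c, gx (α x₁) (α x₂) (α x₂ + q * α (y₁ L c - y₂ L c)) q) (α v) (α s)
        (d.map α w) = 0

/-- The relation for equal eigenvalues. -/
class S2a (K : Type) [Field K] (p : ℕ) : Prop where
  rel : ∀ (T : TD K) {cc d : Cd} (C : WD K cc) {W : ASp K d} (y : ∀ L : Fld K, cc.X L → L)
    (h : Reg C.S .one y) {j : ℕ} (Ψ : ANF p (j + 2) (T.Qa C y h) W) (L M : Fld K) (α : L →ₐ[K] M)
    (U : Fin 2 → M) c (x₁ x₂ : L) v s w, Free j α U → C.S.mem L c →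
    Ψ.e M ((cc.map α c, 0), gx (α x₁) (α x₂) (U 0) (U 1)) (α v) (α s) (d.map α w) +
      Ψ.e M ((cc.map α c, U 1), !![α x₁, U 0; 0, α x₂]) (α v) (α s) (d.map α w) +
      Ψ.e M ((cc.map α c, U 1), !![α x₂, U 0; 0, α x₁]) (α v) (α s) (d.map α w) = 0

/-- Vanishing for a scalar second matrix of size two. -/
class SA (K : Type) [Field K] (p : ℕ) : Prop where
  van : ∀ (T : TD K) {cc d : Cd} (C : WD K cc) {W : ASp K d} (y : ∀ L : Fld K, cc.X L → L)
    (h : Reg C.S .one y) {i : ℕ} (Ψ : ANF p i (T.Qa C y h) W),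
    (∀ (j : ℕ) (L M : Fld K) (α : L →ₐ[K] M) (U : Fin 2 → M) c (x₁ x₂ : L) v s w, i = j + 2 →
      Free j α U → C.S.mem L c →
      Ψ.e M ((cc.map α c, U 1), !![α x₁, U 0; 0, α x₂]) (α v) (α s) (d.map α w) +
        Ψ.e M ((cc.map α c, U 1), !![α x₂, U 0; 0, α x₁]) (α v) (α s) (d.map α w) = 0) →
    ∀ L c X v s w, Ψ.e L ((c, 0), X) v s w = 0

/-- Invariance under the simple reflections. -/
class SS (K : Type) [Field K] (p : ℕ) : Prop where
  inv : ∀ {T : TD K} {cc d : Cd} {C : WD K cc} {W : ASp K d} {n i j : ℕ}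
    (Φ : ANF p j (C.prod (T.Tn n)) W) (Θ : ANF p i (C.prod (T.Ct n)) W) (ε : ℂ),
    i = j + Nat.card (UpN n) → Alt Φ → RelN Φ Θ ε → InvC Θ

/-- One step of induction: existence and uniqueness. -/
class SI1 (K : Type) [Field K] (p : ℕ) : Prop where
  ex : ∀ {T : TD K} {cc d : Cd} {C : WD K cc} {W : ASp K d} {m j : ℕ}
    (Θ : ANF p j ((C.prod T.T1).prod (T.Ct m)) W),
    ∃ Ψ : ANF p (j + (m + m)) (C.prod (T.Si m)) W, RelB Θ Ψ ((-1) ^ m)
  uniq : ∀ {T : TD K} {cc d : Cd} {C : WD K cc} {W : ASp K d} {m i : ℕ}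
    (Ψ : ANF p i (C.prod (T.Si m)) W),
    (∀ (j : ℕ) (L M : Fld K) (α : L →ₐ[K] M) (U : Fin m ⊕ Fin m → M) c (x y : L)
      (X : Matrix (Fin m) (Fin m) L) (y' : Fin m → L) v s w, i = j + (m + m) → Free j α U →
      Ψ.e M (cc.map α c, blk (α x) (fun a => U (.inl a)) (X.map α),
        Fin.cons (α y) (fun a => α (y' a)), fun a => U (.inr a)) (α v) (α s) (d.map α w) = 0) →
    ∀ L z v s w, Ψ.e L z v s w = 0

/-- One step of induction: invariance and generic values. -/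
class SI2 (K : Type) [Field K] (p : ℕ) : Prop where
  inv : ∀ {T : TD K} {cc d : Cd} {C : WD K cc} {W : ASp K d} {m i j : ℕ}
    (Θ : ANF p j ((C.prod T.T1).prod (T.Ct m)) W) (Ψ : ANF p i (C.prod (T.Si m)) W) (ε : ℂ),
    i = j + (m + m) → RelB Θ Ψ ε → InvC Θ → InvS Ψ
  spl : ∀ {T : TD K} {cc d : Cd} {C : WD K cc} {W : ASp K d} {m j : ℕ}
    (Φ : ANF p j (C.prod (T.Tn (m + 1))) W), ∃ Φ' : ANF p j ((C.prod T.T1).prod (T.Tn m)) W,
      (Alt Φ → Alt Φ') ∧ ∀ {i i' : ℕ} (Θ : ANF p i ((C.prod T.T1).prod (T.Ct m)) W)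
        (Ψ : ANF p i' (C.prod (T.Si m)) W) (ε ε' : ℂ), i = j + Nat.card (UpN m) →
        RelN Φ' Θ ε → RelB Θ Ψ ε' → RelS Φ Ψ (ε' * ε)
  card : ∀ m : ℕ, Nat.card (UpN (m + 1)) = Nat.card (UpN m) + m
  one : ∀ {T : TD K} {cc d : Cd} {C : WD K cc} {W : ASp K d} {j : ℕ}
    (Φ : ANF p j (C.prod (T.Tn 1)) W), ∃ Θ : ANF p j (C.prod (T.Ct 1)) W, RelN Φ Θ 1

/-- One step of induction: vanishing on the scalar locus. -/
class SI3 (K : Type) [Field K] (p : ℕ) : Prop where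
  van : ∀ {T : TD K} {cc d : Cd} {C : WD K cc} {W : ASp K d} {m i j : ℕ}
    (Φ : ANF p j (C.prod (T.Tn (m + 2))) W) (Ψ : ANF p i (C.prod (T.Si (m + 1))) W) (ε : ℂ),
    i = j + Nat.card (UpN (m + 2)) + (m + 1) → Alt Φ → RelS Φ Ψ ε → VanN Ψ

/-- One step of induction: restriction to the cyclic locus. -/
class SI4 (K : Type) [Field K] (p : ℕ) : Prop where
  ex : ∀ {T : TD K} {cc d : Cd} {C : WD K cc} {W : ASp K d} {m i : ℕ}
    (Ψ : ANF p (i + (m + 1)) (C.prod (T.Si (m + 1))) W), InvS Ψ → VanN Ψ →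
    ∃ Θ : ANF p i (C.prod (T.Ct (m + 2))) W, ∀ {j : ℕ} (Φ : ANF p j (C.prod (T.Tn (m + 2))) W)
      (ε : ℂ), i = j + Nat.card (UpN (m + 2)) → RelS Φ Ψ ε → RelN Φ Θ ε

/-- Descent to companion matrices. -/
class SD (K : Type) [Field K] (p : ℕ) : Prop where
  van : ∀ {T : TD K} {cc d : Cd} {C : WD K cc} {W : ASp K d} {m i : ℕ}
    (Θ : ANF p i (C.prod (T.Ct (m + 1))) W), InvC Θ → AV p (C.prod (T.CX m)) W →
    ∀ L z v s w, Θ.e L z v s w = 0

/-- From the double cover to odd functionals. -/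
class S0 (K : Type) [Field K] (p : ℕ) : Prop where
  red : ∀ (T : TD K) (n : ℕ), (∀ {d : Cd} (W : ASp K d) (j : ℕ)
      (Φ : ANF p j ((Gs K Unit).prod (T.Tn n)) W), Alt Φ → ∀ L z v s w, Φ.e L z v s w = 0) →
    ∀ (κ : Type) [Fintype κ] [DecidableEq κ], Nat.card κ = n → AltS T.UU ngz κ

/-- The second evaluation: the statement of sections 2 and 3. -/
class FO (K : Type) [Field K] (p : ℕ) : Prop where
  imp : ∀ (T : TD K) (m : ℕ), m + 1 = T.n → Imp p (Pt K) (T.CX m)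

end Pool.Agent.Lib.MP_557161_ag.HG.TW
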