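import Pool.Agent.Lib.MP_557161_ag.TW.S24
import Pool.Agent.Lib.MP_557161_ag.TW.StS

/-!
The statements `S2a` and `S2b`.
-/

namespace Pool.Agent.Lib.MP_557161_ag.HG.TW

open Pool.Agent.Lib.MP_557161_ag.DL Matrix S2x

variable {K : Type} [Field K] {p : ℕ}

namespace S2x

/-- The first factor of the weight as a function of trace and determinant. -/
noncomputable def fu (T : TD K) (L : Fld K) (s t : L) : L :=
  ∏ l, (1 - algebraMap K L (T.a l) * s + algebraMap K L (T.a l) ^ 2 * t)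

lemma fm_eq (T : TD K) (L : Fld K) (X : Matrix (Fin 2) (Fin 2) L) :
    T.fm L X = fu T L X.trace X.det :=
  Finset.prod_congr rfl fun l _ => by
    generalize algebraMap K L (T.a l) = a
    simp [det_fin_two, trace_fin_two]
    ring

lemma fu_rel (T : TD K) {M L : Fld K} (R : Rel M L) {s t : M} {s' t' : L} (h : R.r s s')
    (h' : R.r t t') : R.r (fu T M s t) (fu T L s' t') :=
  Rel.prod _ fun _ _ => R.add (Rel.sub R.one (R.mul (R.const _) h))
    (R.mul (Rel.pow (R.const _) 2) h')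

end S2x

variable [FW0 K] [FWp K p] [V1 K p]

theorem S2b_thm : S2b K p where
  rel T _ _ C _ y₁ y₂ h₁ h₂ _ Ψ L M α q c x₁ x₂ v s w hU _ hd := by
    have H : Q2 (T.Qb C y₁ y₂ h₁ h₂) C.S C.φ y₁ (fun _ _ => 1) y₂
        fun L c s t => C.g L c * fu T L s t :=
      ⟨fun _ _ => ⟨fun h => h.1, fun h => ⟨h, trivial⟩⟩, fun _ _ _ => add_zero _,
        fun L z _ => by rw [← fm_eq, mul_assoc]; rfl, C.reg, h₁, fun _ _ R _ _ _ _ _ => R.one, h₂,
        fun _ _ R _ _ _ _ _ _ m m' e e1 e2 => R.mul (C.rg R m m' e) (fu_rel T R e1 e2)⟩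
    have hq : q ≠ 0 := fun e => free_ne hU () 0 (e.trans (map_zero _).symm)
    have := relb H Ψ hU c x₁ x₂ v s w hd
    convert this using 4
    ext a b
    fin_cases a <;> fin_cases b <;> simp [gx]
    · field_simp
      ring
    · ring

theorem S2a_thm : S2a K p where
  rel T _ _ C _ y h _ Ψ L M α U c x₁ x₂ v s w hU _ := by
    have H : Q2 (T.Qa C y h) (C.S.prod (.univ K .one)) (fun L z => C.φ L z.1) (fun L z => y L z.1)
        (fun _ z => z.2) (fun L z => y L z.1) fun L c s t => C.g L c.1 * fu T L s t :=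
      ⟨fun _ _ => ⟨fun h => h.1, fun h => ⟨h, trivial⟩⟩,
        fun _ _ _ => (add_zero _).trans (add_zero _),
        fun L z _ => by rw [← fm_eq, ← mul_one (C.g L z.1.1), mul_assoc]; rfl,
        fun _ _ R _ _ m m' e => C.reg R m.1 m'.1 e.1, fun _ _ R _ _ m m' e => h R m.1 m'.1 e.1,
        fun _ _ _ _ _ _ _ e => e.2, fun _ _ R _ _ m m' e => h R m.1 m'.1 e.1,
        fun _ _ R _ _ _ _ _ _ m m' e e1 e2 => R.mul (C.rg R m.1 m'.1 e.1) (fu_rel T R e1 e2)⟩
    exact rela (u := fun L c s t => C.g L c * fu T L s t) H Ψ hU c x₁ x₂ v s w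

end Pool.Agent.Lib.MP_557161_ag.HG.TW
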