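import Pool.Agent.Lib.MP_557161_ag.TW.StS
import Pool.Agent.Lib.MP_557161_ag.HG.R2a1

/-!
The Newton basis and the algebra of the simple reflections.
-/

namespace Pool.Agent.Lib.MP_557161_ag.HG.TW

open Pool.Agent.Lib.MP_557161_ag.DL Matrix R2A

namespace SBa

section Mat

variable {F : Type} [Field F] {n m : ℕ}

/-- The index `m - k`. -/
def ix (m k : ℕ) : Fin (m + 1) := ⟨m - k, by omega⟩

/-- The vectors of the Newton basis, from the last one to the first one. -/
def nv (Y : Matrix (Fin (m + 1)) (Fin (m + 1)) F) : ℕ → Fin (m + 1) → F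
  | 0 => fun i => if i = Fin.last m then 1 else 0
  | k + 1 => fun i => (Y *ᵥ nv Y k) i - Y (ix m k) (ix m k) * nv Y k i

/-- The Newton basis. -/
def nbm (Y : Matrix (Fin (m + 1)) (Fin (m + 1)) F) : Matrix (Fin (m + 1)) (Fin (m + 1)) F :=
  Matrix.of fun i l => nv Y (m - l.1) i

lemma nv_zero {Y : Matrix (Fin (m + 1)) (Fin (m + 1)) F} (t : Tri Y) (k : ℕ) :
    ∀ i : Fin (m + 1), m < i.1 + k → nv Y k i = 0 := by
  induction k with
  | zero => exact fun i h => absurd h (by have := i.2; omega)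
  | succ k ih =>
    intro i h
    have e : (Y *ᵥ nv Y k) i = Y i i * nv Y k i := by
      rw [mulVec, dotProduct, Finset.sum_eq_single i (fun j _ hj => ?_) (by simp)]
      rcases lt_or_gt_of_ne hj with h1 | h1
      · rw [t h1, zero_mul]
      · have h2 : i.1 < j.1 := h1
        rw [ih j (by omega), mul_zero]
    change (Y *ᵥ nv Y k) i - Y (ix m k) (ix m k) * nv Y k i = 0
    rw [e]
    by_cases h1 : m < i.1 + k
    · rw [ih i h1, mul_zero, mul_zero, sub_self]
    · rw [show ix m k = i from Fin.ext (by change m - k = i.1; omega), sub_self]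

lemma tri_bid (y : Fin n → F) : Tri (bid y) := fun i j h => by
  have h1 : j.1 < i.1 := h
  rw [bid, of_apply, if_neg (fun e => by rw [e] at h1; omega), if_neg (by omega)]

lemma bid_diag (y : Fin n → F) (i : Fin n) : bid y i i = y i := if_pos rfl

lemma mul_bid (A : Matrix (Fin n) (Fin n) F) (y : Fin n → F) (i l : Fin n) :
    (A * bid y) i l = A i l * y l +
      if h : 0 < l.1 then A i ⟨l.1 - 1, by have := l.2; omega⟩ else 0 := by
  have e : ∀ j, A i j * bid y j l =
      (if j = l then A i l * y l else 0) + if j.1 + 1 = l.1 then A i j else 0 := by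
    intro j
    rw [bid, of_apply]
    by_cases h1 : j = l
    · rw [if_pos h1, if_pos h1, h1, if_neg (by omega), add_zero]
    · rw [if_neg h1, if_neg h1, zero_add, mul_ite, mul_one, mul_zero]
  rw [mul_apply, Finset.sum_congr rfl fun j _ => e j, Finset.sum_add_distrib,
    Finset.sum_ite_eq' Finset.univ l, if_pos (Finset.mem_univ _)]
  congr 1
  split_ifs with h
  · rw [Finset.sum_eq_single ⟨l.1 - 1, by have := l.2; omega⟩ (fun j _ hj => if_neg fun e' =>
      hj (Fin.ext (by change j.1 = l.1 - 1; omega))) (by simp), if_pos (by change l.1 - 1 + 1 = l.1; omega)]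
  · exact Finset.sum_eq_zero fun j _ => if_neg (by omega)

lemma nbm_mul {Y : Matrix (Fin (m + 1)) (Fin (m + 1)) F} (t : Tri Y) :
    Y * nbm Y = nbm Y * bid fun i => Y i i := by
  ext i l
  have hl := l.2
  have e : nv Y (m - l.1 + 1) i = (Y * nbm Y) i l - Y l l * nbm Y i l := by
    change (Y *ᵥ nv Y (m - l.1)) i - Y (ix m (m - l.1)) (ix m (m - l.1)) * nv Y (m - l.1) i = _
    rw [show ix m (m - l.1) = l from Fin.ext (by change m - (m - l.1) = l.1; omega)]
    rfl
  rw [mul_bid]
  split_ifs with h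
  · have e' : nbm Y i ⟨l.1 - 1, by omega⟩ = nv Y (m - l.1 + 1) i := by
      change nv Y (m - (l.1 - 1)) i = _
      rw [show m - (l.1 - 1) = m - l.1 + 1 by omega]
    rw [e', e]
    ring
  · rw [nv_zero t _ i (by omega)] at e
    linear_combination -e

lemma nv_eq {Y b : Matrix (Fin (m + 1)) (Fin (m + 1)) F} {y : Fin (m + 1) → F}
    (e : Y * b = b * bid y) (hy : ∀ i, Y i i = y i)
    (hb : ∀ i, b i (Fin.last m) = if i = Fin.last m then 1 else 0) (k : ℕ) (hk : k ≤ m) :
    nv Y k = fun i => b i (ix m k) := by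
  induction k with
  | zero => exact funext fun i => (hb i).symm
  | succ k ih =>
    funext i
    have h1 := congrFun (congrFun e i) (ix m k)
    rw [mul_bid, dif_pos (by change 0 < m - k; omega)] at h1
    change (Y *ᵥ nv Y k) i - Y (ix m k) (ix m k) * nv Y k i = b i ⟨m - k - 1, by omega⟩
    rw [ih (by omega), hy]
    change (Y * b) i (ix m k) - y (ix m k) * b i (ix m k) = _
    rw [h1]
    change _ + b i ⟨m - k - 1, by omega⟩ - _ = _
    ring

lemma det_cj {ι : Type} [Fintype ι] [DecidableEq ι] {g g' : Matrix ι ι F} (h : g' * g = 1)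
    (A : Matrix ι ι F) : (g * A * g').det = A.det := by
  have e := congrArg det h
  rw [det_mul, det_one] at e
  rw [det_mul, det_mul]
  linear_combination A.det * e

variable {r r' : Fin n}

lemma hs (hr : r'.1 = r.1 + 1) (y : Fin n → F) :
    hS r r' (y r - y r') * bid y * hS r r' (-(y r - y r')) =
      bid fun i => y (Equiv.swap r r' i) := by
  ext i j
  have h0 := ne_of hr
  have b1 : bid y r r' = 1 := by rw [bid, of_apply, if_neg h0, if_pos hr.symm]
  rw [hS_right, hS_left, hS_left]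
  by_cases h1 : i = r' <;> by_cases h2 : j = r
  · rw [if_pos h1, if_pos h1, if_pos h2, h1, h2, b1, bid_diag, bid_diag,
      tri_bid y (show r.1 < r'.1 by omega), tri_bid _ (show r.1 < r'.1 by omega)]
    ring
  · rw [if_pos h1, if_neg h2, h1, add_zero]
    by_cases h3 : j = r'
    · rw [h3, b1, bid_diag, bid_diag, Equiv.swap_apply_right]
      ring
    · have h4 : j.1 ≠ r'.1 := Fin.val_ne_of_ne h3
      simp only [bid, of_apply, if_neg (Ne.symm h2), if_neg (Ne.symm h3),
        if_neg (show ¬ r.1 + 1 = j.1 by omega), mul_zero, add_zero]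
  · rw [if_neg h1, if_neg h1, if_pos h2, h2, add_zero, add_zero]
    by_cases h3 : i = r
    · rw [h3, b1, bid_diag, bid_diag, Equiv.swap_apply_left]
      ring
    · have h4 : i.1 ≠ r.1 := Fin.val_ne_of_ne h3
      simp only [bid, of_apply, if_neg h1, if_neg h3,
        if_neg (show ¬ i.1 + 1 = r'.1 by omega), zero_mul, add_zero]
  · rw [if_neg h1, if_neg h2, add_zero, add_zero]
    by_cases h3 : i = j
    · rw [← h3, bid_diag, bid_diag, Equiv.swap_apply_of_ne_of_ne (h3 ▸ h2) h1]
    · simp only [bid, of_apply, if_neg h3]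

lemma sgm_sgm (hr : r'.1 = r.1 + 1) (z : Matrix (Fin n) (Fin n) F × (Fin n → F)) :
    sgm r r' (sgm r r' z) = z := by
  refine Prod.ext ?_ (funext fun i => congrArg z.2 (Equiv.swap_apply_self _ _ _))
  simp only [sgm, Equiv.swap_apply_left, Equiv.swap_apply_right]
  rw [← mul_assoc, ← mul_assoc, hS_cancel hr (by ring), one_mul, mul_assoc, hS_cancel hr (by ring),
    mul_one]

lemma vec_hS (ξ : Fin n → F) (S : F) (j : Fin n) :
    (ξ ᵥ* hS r r' S) j = ξ j + if j = r then ξ r' * S else 0 :=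
  (hS_right (r := r) (r' := r') (S := S) (Matrix.of fun _ => ξ) j j)

lemma succ_val (hr : r'.1 = r.1 + 1) : r'.succ.1 = r.succ.1 + 1 := by
  simp only [Fin.val_succ, hr]

lemma swap_zero : Equiv.swap r.succ r'.succ 0 = 0 :=
  Equiv.swap_apply_of_ne_of_ne (Fin.succ_ne_zero _).symm (Fin.succ_ne_zero _).symm

lemma swap_succ (j : Fin n) : Equiv.swap r.succ r'.succ j.succ = (Equiv.swap r r' j).succ :=
  (Fin.succ_injective n).swap_apply r r' j

lemma hsi (hr : r'.1 = r.1 + 1) (y : Fin (n + 1) → F) (ξ : Fin n → F) :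
    hS r.succ r'.succ (y r.succ - y r'.succ) * siY y ξ *
      hS r.succ r'.succ (-(y r.succ - y r'.succ)) =
      siY (fun i => y (Equiv.swap r.succ r'.succ i)) (ξ ᵥ* hS r r' (-(y r.succ - y r'.succ))) := by
  ext i j
  by_cases h : i = 0
  · subst h
    have h1 : ¬ (0 : Fin (n + 1)) = r'.succ := (Fin.succ_ne_zero _).symm
    rw [hS_right, hS_left, hS_left, if_neg h1, if_neg h1, add_zero, add_zero]
    cases j using Fin.cases with
    | zero =>
      rw [if_neg (Fin.succ_ne_zero _).symm, add_zero]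
      exact congrArg y swap_zero.symm
    | succ j =>
      change ξ j + (if j.succ = r.succ then ξ r' * _ else 0) = (ξ ᵥ* hS r r' _) j
      simp only [vec_hS, Fin.succ_inj]
  · have e : ∀ (y : Fin (n + 1) → F) (ξ : Fin n → F) i j, i ≠ 0 → siY y ξ i j = bid y i j :=
      fun _ _ _ _ h => if_neg h
    rw [e _ _ _ _ h, ← hs (succ_val hr)]
    simp only [hS_right, hS_left, e _ _ _ _ h, e _ _ _ _ (Fin.succ_ne_zero r)]

lemma rho_swap (hr : r'.1 = r.1 + 1) (y : Fin (n + 1) → F) (ξ : Fin n → F) :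
    rhoS (fun i => y (Equiv.swap r.succ r'.succ i)) (ξ ᵥ* hS r r' (-(y r.succ - y r'.succ))) =
      rhoS y ξ := by
  have h0 := ne_of hr
  have e1 : ∀ l, l ≠ r' → ∏ j ∈ Finset.univ.filter (· < l), (y 0 - y (Equiv.swap r r' j).succ) =
      ∏ j ∈ Finset.univ.filter (· < l), (y 0 - y j.succ) := by
    intro l hl
    have h1 : l.1 ≠ r'.1 := Fin.val_ne_of_ne hl
    refine Finset.prod_equiv (Equiv.swap r r') (fun j => ?_) fun _ _ => rfl
    simp only [Finset.mem_filter, Finset.mem_univ, true_and, Equiv.swap_apply_def]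
    split_ifs with h2 h3
    · rw [h2, Fin.lt_def, Fin.lt_def]; omega
    · rw [h3, Fin.lt_def, Fin.lt_def]; omega
    · rfl
  have e2 : ∀ u : Fin n → F, ∏ j ∈ Finset.univ.filter (· < r'), u j =
      u r * ∏ j ∈ Finset.univ.filter (· < r), u j := by
    intro u
    rw [← Finset.prod_insert (by simp)]
    refine Finset.prod_congr (Finset.ext fun j => ?_) fun _ _ => rfl
    simp only [Finset.mem_filter, Finset.mem_univ, true_and, Finset.mem_insert, Fin.ext_iff,
      Fin.lt_def]
    omega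
  set P := ∏ j ∈ Finset.univ.filter (· < r), (y 0 - y j.succ) with hP
  have e3 : ∀ l, (ξ ᵥ* hS r r' (-(y r.succ - y r'.succ))) l *
      ∏ j ∈ Finset.univ.filter (· < l), (y 0 - y (Equiv.swap r r' j).succ) =
      ξ l * ∏ j ∈ Finset.univ.filter (· < l), (y 0 - y j.succ) +
        ((if l = r then -(ξ r' * (y r.succ - y r'.succ) * P) else 0) +
          if l = r' then ξ r' * (y r.succ - y r'.succ) * P else 0) := by
    intro l
    rw [vec_hS]
    by_cases h1 : l = r'
    · rw [h1, if_neg h0.symm, if_neg h0.symm, if_pos rfl, e2, e2, e1 r h0, Equiv.swap_apply_left]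
      ring
    · rw [e1 l h1, if_neg h1]
      split_ifs with h2
      · rw [h2]
        ring
      · ring
  simp only [rhoS, swap_zero, swap_succ, e3, Finset.sum_add_distrib, Finset.sum_ite_eq',
    Finset.mem_univ, if_true, neg_add_cancel, add_zero]

end Mat

variable {K : Type} [Field K]

lemma rel_nv {M L : Fld K} {R : Rel M L} {m : ℕ} {Y : Matrix (Fin (m + 1)) (Fin (m + 1)) M}
    {Y' : Matrix (Fin (m + 1)) (Fin (m + 1)) L} (h : R.m' Y Y') (k : ℕ) :
    ∀ i, R.r (nv Y k i) (nv Y' k i) := by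
  induction k with
  | zero => exact fun i => Rel.ite _ R.one R.zero
  | succ k ih => exact fun i => Rel.sub (Rel.mulVec h ih i) (R.mul (h _ _) (ih i))

lemma rel_hS {M L : Fld K} {R : Rel M L} {n : ℕ} (r r' : Fin n) {S : M} {S' : L} (h : R.r S S') :
    R.m' (hS r r' S) (hS r r' S') := Rel.madd Rel.mone (Rel.msingle _ _ h)

lemma conj (T : TD K) {ι : Type} [Fintype ι] [DecidableEq ι] (L : Fld K) (g g' X Y : Matrix ι ι L)
    (h : g' * g = 1) : T.Om L (g * X * g') (g * Y * g') = T.Om L X Y := by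
  have h' : g * g' = 1 := mul_eq_one_comm.1 h
  have e1 : ∀ a : L, 1 - a • (g * X * g') = g * (1 - a • X) * g' := fun a => by
    rw [mul_sub, sub_mul, mul_one, h', Matrix.mul_smul, Matrix.smul_mul]
  have e2 : 1 - g * Y * g' * (g * X * g') = g * (1 - Y * X) * g' := by
    rw [mul_sub, sub_mul, mul_one, h']
    simp only [mul_assoc]
    rw [← mul_assoc g' g, h, one_mul]
  have e3 : ∀ b : L, g * Y * g' - b • (1 : Matrix ι ι L) = g * (Y - b • 1) * g' := fun b => by
    rw [mul_sub, sub_mul, Matrix.mul_smul, Matrix.smul_mul, mul_one, h']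
  simp only [TD.Om, TD.fm, TD.dm, e1, e2, e3, det_cj h]

lemma tri (T : TD K) {n : ℕ} (L : Fld K) (X Y : Matrix (Fin n) (Fin n) L) (t : Tri X) (t' : Tri Y) :
    T.Om L X Y = ∏ i, T.om1 L (X i i) (Y i i) := by
  have s : ∀ (a : L) {A : Matrix (Fin n) (Fin n) L}, Tri A → Tri (a • A) := fun a A h i j e => by
    rw [Matrix.smul_apply, h e, smul_zero]
  have e1 : ∀ a : L, (1 - a • X).det = ∏ i, (1 - a * X i i) := fun a => by
    rw [tri_det (blockTriangular_one.sub (s a t))]
    simp
  have e2 : (1 - Y * X).det = ∏ i, (1 - Y i i * X i i) := by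
    rw [tri_det (blockTriangular_one.sub (t'.mul t))]
    simp only [Matrix.sub_apply, one_apply_eq, tri_diag t' t]
  have e3 : ∀ b : L, (Y - b • (1 : Matrix (Fin n) (Fin n) L)).det = ∏ i, (Y i i - b) := fun b => by
    rw [tri_det (t'.sub (s b blockTriangular_one))]
    simp
  simp only [TD.Om, TD.fm, TD.dm, TD.om1, e1, e2, e3, Finset.prod_mul_distrib]
  rw [Finset.prod_comm, Finset.prod_comm (s := Finset.univ (α := Fin (2 * T.h)))]

end SBa

open SBa in
theorem SB_thm {K : Type} [Field K] : SB K where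
  nb m := by
    refine ⟨fun _ Y => nbm Y, fun _ _ _ _ _ _ _ e i l => rel_nv e _ i, fun L Y t => ⟨?_, ?_, ?_⟩,
      fun L b y t h hb => ?_⟩
    · exact fun i l h => nv_zero t _ i (by have := l.2; have h' : l.1 < i.1 := h; omega)
    · intro i
      change nv Y (m - m) i = _
      rw [Nat.sub_self]
      rfl
    · exact nbm_mul t
    · have t1 := t.mul (tri_bid y)
      have e1 : ∀ i, (b * bid y * b⁻¹) i i = y i := fun i => by
        rw [tri_diag t1 (tri_inv t h), tri_diag t (tri_bid y), tri_inv_diag t h, bid_diag,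
          mul_right_comm, mul_inv_cancel₀ (tri_ne t h i), one_mul]
      have e2 : b * bid y * b⁻¹ * b = b * bid y := by
        rw [mul_assoc, nonsing_inv_mul _ h.isUnit, mul_one]
      refine ⟨Matrix.ext fun i l => ?_, t1.mul (tri_inv t h), e1⟩
      have hl := l.2
      change nv _ (m - l.1) i = _
      rw [nv_eq e2 e1 hb _ (by omega),
        show ix m (m - l.1) = l from Fin.ext (by change m - (m - l.1) = l.1; omega)]
  conj T _ _ _ := conj T
  tri T _ := tri T
  hs _ _ _ hr := hs hr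
  sg T n r r' hr := by
    refine ⟨⟨⟨⟨fun _ _ _ _ _ _ _ e => ⟨Rel.mmul (Rel.mmul (rel_hS _ _ (Rel.sub (e.2 r) (e.2 r'))) e.1)
      (rel_hS _ _ (Rel.neg (Rel.sub (e.2 r) (e.2 r')))), fun i => e.2 _⟩, fun _ _ _ => trivial⟩,
      fun _ _ _ => rfl⟩, fun L z _ => ?_⟩, fun L z => sgm_sgm hr z⟩
    change T.Om L (_ * z.1 * _) (bid fun i => z.2 (Equiv.swap r r' i)) = T.Om L z.1 (bid z.2)
    rw [← hs hr, conj T L _ _ _ _ (hS_cancel hr (neg_add_cancel _))]
  sgs T m r r' hr := by
    refine ⟨⟨⟨⟨fun _ _ R _ _ _ _ e => ⟨Rel.mmul (Rel.mmul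
      (rel_hS _ _ (Rel.sub (e.2.1 _) (e.2.1 _))) e.1)
      (rel_hS _ _ (Rel.neg (Rel.sub (e.2.1 _) (e.2.1 _)))), fun i => e.2.1 _,
      fun i => Rel.sum Finset.univ fun k _ => R.mul (e.2.2 k)
        (rel_hS r r' (Rel.neg (Rel.sub (e.2.1 r.succ) (e.2.1 r'.succ))) k i)⟩, fun _ _ _ => trivial⟩,
      fun _ _ _ => rfl⟩, fun L z _ => ?_⟩, fun L z => ⟨?_, rho_swap hr z.2.1 z.2.2⟩⟩
    · change T.Om L (_ * z.1 * _) (siY (fun i => z.2.1 (Equiv.swap r.succ r'.succ i))
        (z.2.2 ᵥ* hS r r' (-(z.2.1 r.succ - z.2.1 r'.succ)))) = T.Om L z.1 (siY z.2.1 z.2.2)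
      rw [← hsi hr, conj T L _ _ _ _ (hS_cancel (succ_val hr) (neg_add_cancel _))]
    · have e := sgm_sgm (succ_val hr) (z.1, z.2.1)
      have e1 := congrArg Prod.fst e
      have e2 := congrArg Prod.snd e
      refine Prod.ext e1 (Prod.ext e2 ?_)
      simp only [sgS, sgm, Equiv.swap_apply_left, Equiv.swap_apply_right, vecMul_vecMul]
      rw [hS_cancel hr (by ring), vecMul_one]

end Pool.Agent.Lib.MP_557161_ag.HG.TW
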