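import Pool.Agent.Lib.MP_557161_ag.TW.StS

/-!
Descent from bidiagonal matrices to companion matrices.
-/

namespace Pool.Agent.Lib.MP_557161_ag.HG.TW

open Pool.Agent.Lib.MP_557161_ag.DL Matrix

namespace SDa

open Polynomial Finset

section Alg

variable {F : Type} [Field F] {m : ℕ}

/-- The Newton polynomials. -/
noncomputable def g (y : Fin (m + 1) → F) (t : ℕ) : F[X] :=
  ∏ j ∈ univ.filter (fun j : Fin (m + 1) => t ≤ j.1), (X - C (y j))

/-- The Newton basis in terms of the monomials. -/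
noncomputable def N (y : Fin (m + 1) → F) : Matrix (Fin (m + 1)) (Fin (m + 1)) F :=
  Matrix.of fun k l => (g y (l.1 + 1)).coeff k

/-- The last column of the companion matrix. -/
noncomputable def av (y : Fin (m + 1) → F) (k : Fin (m + 1)) : F := -(g y 0).coeff k

lemma g_zero (y : Fin (m + 1) → F) : g y 0 = ∏ j, (X - C (y j)) := by simp [g]

lemma g_step (y : Fin (m + 1) → F) (l : Fin (m + 1)) :
    g y l = (X - C (y l)) * g y (l.1 + 1) := by
  have : univ.filter (fun j : Fin (m + 1) => l.1 ≤ j.1) =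
      insert l (univ.filter fun j : Fin (m + 1) => l.1 + 1 ≤ j.1) := by
    ext j
    simp only [mem_filter, mem_univ, true_and, mem_insert, Fin.ext_iff]
    omega
  rw [g, this, prod_insert (by simp), g]

lemma g_monic (y : Fin (m + 1) → F) (t : ℕ) : (g y t).Monic :=
  monic_prod_of_monic _ _ fun _ _ => monic_X_sub_C _

lemma g_deg (y : Fin (m + 1) → F) (t : ℕ) : (g y t).natDegree = m + 1 - t := by
  rw [g, natDegree_finsetProd_X_sub_C_eq_card]
  by_cases h : t ≤ m
  · have : univ.filter (fun j : Fin (m + 1) => t ≤ j.1) = Ici ⟨t, by omega⟩ := by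
      ext j
      simp [Fin.le_def]
    rw [this, Fin.card_Ici]
  · rw [filter_false_of_mem fun j _ => by have := j.2; omega, card_empty]
    omega

lemma N_det (y : Fin (m + 1) → F) : (N y).det ≠ 0 := by
  have h := det_matrixOfPolynomials (fun l : Fin (m + 1) => g y (l.rev.1 + 1))
    (fun l => by rw [g_deg, Fin.val_rev]; have := l.2; omega) fun l => g_monic _ _
  have e : (Matrix.of fun i j : Fin (m + 1) => (g y (j.rev.1 + 1)).coeff i) =
      (N y).submatrix id Fin.revPerm := rfl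
  rw [e, det_permute'] at h
  exact right_ne_zero_of_mul_eq_one h

lemma N_l (y : Fin (m + 1) → F) : (N y)⁻¹ * N y = 1 :=
  nonsing_inv_mul _ (N_det y).isUnit

lemma N_r (y : Fin (m + 1) → F) : N y * (N y)⁻¹ = 1 :=
  mul_nonsing_inv _ (N_det y).isUnit

lemma cmp_mul (a : Fin (m + 1) → F) (A : Matrix (Fin (m + 1)) (Fin (m + 1)) F)
    (k l : Fin (m + 1)) : (cmp a * A) k l =
      a k * A (Fin.last m) l + Fin.cases 0 (fun k' => A k'.castSucc l) k := by
  rw [mul_apply, Fin.sum_univ_castSucc, add_comm]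
  congr 1
  · simp [cmp]
  · cases k using Fin.cases with
    | zero => simp [cmp, Fin.castSucc_ne_last]
    | succ k =>
      rw [sum_eq_single k]
      · simp [cmp, Fin.castSucc_ne_last]
      · intro j _ hj
        have : ¬ k.1 = j.1 := fun e => hj (Fin.ext e.symm)
        simp [cmp, Fin.castSucc_ne_last, this]
      · simp

lemma mul_bid (y : Fin (m + 1) → F) (A : Matrix (Fin (m + 1)) (Fin (m + 1)) F)
    (k l : Fin (m + 1)) : (A * bid y) k l =
      A k l * y l + Fin.cases 0 (fun l' => A k l'.castSucc) l := by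
  have e : ∀ j, A k j * bid y j l =
      (if j = l then A k l * y l else 0) + if j.1 + 1 = l.1 then A k j else 0 := fun j => by
    simp only [bid, of_apply]
    by_cases h : j = l
    · subst h
      simp
    · rw [if_neg h, if_neg h, zero_add]
      split_ifs <;> simp
  rw [mul_apply, sum_congr rfl fun j _ => e j, sum_add_distrib, sum_ite_eq' univ l,
    if_pos (mem_univ _)]
  congr 1
  cases l using Fin.cases with
  | zero => simp
  | succ l =>
    rw [sum_eq_single l.castSucc]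
    · simp
    · intro j _ hj
      rw [if_neg fun e => hj (Fin.ext (by simpa using e))]
    · simp

lemma cmp_N (y : Fin (m + 1) → F) : cmp (av y) * N y = N y * bid y := by
  ext k l
  have h1 : (g y l).coeff k = Fin.cases 0 (fun k' => N y k'.castSucc l) k - N y k l * y l := by
    rw [g_step]
    cases k using Fin.cases with
    | zero => simp [N, mul_comm]
    | succ k =>
      rw [Fin.val_succ, coeff_X_sub_C_mul, mul_comm]
      rfl
  rw [cmp_mul, mul_bid, eq_add_of_sub_eq h1.symm]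
  cases l using Fin.cases with
  | zero =>
    have h2 : N y (Fin.last m) 0 = 1 := by
      have := (g_monic y 1).coeff_natDegree
      rwa [g_deg] at this
    rw [h2]
    simp [av]
  | succ l =>
    have h2 : N y (Fin.last m) l.succ = 0 :=
      coeff_eq_zero_of_natDegree_lt (p := g y (l.1 + 1 + 1)) (n := m)
        (by rw [g_deg]; have := l.2; omega)
    rw [h2]
    simp [N, add_comm]

lemma cmp_eq (y : Fin (m + 1) → F) : cmp (av y) = N y * bid y * (N y)⁻¹ := by
  rw [← cmp_N, Matrix.mul_assoc, N_r, Matrix.mul_one]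

variable {r r' : Fin (m + 1)}

lemma g_swap (hr : r'.1 = r.1 + 1) (y : Fin (m + 1) → F) {t : ℕ} (ht : t ≠ r'.1) :
    g (fun i => y (Equiv.swap r r' i)) t = g y t := by
  refine prod_equiv (Equiv.swap r r') (fun j => ?_) fun _ _ => rfl
  simp only [mem_filter, mem_univ, true_and, Equiv.swap_apply_def]
  split_ifs with h1 h2
  · subst h1
    omega
  · subst h2
    omega
  · rfl

lemma N_swap (hr : r'.1 = r.1 + 1) (y : Fin (m + 1) → F) :
    N (fun i => y (Equiv.swap r r' i)) = N y * hS r r' (-(y r - y r')) := by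
  ext k l
  rw [hS, Matrix.mul_add, Matrix.mul_one, Matrix.add_apply]
  by_cases h : l = r
  · subst h
    have h1 := g_step (fun i => y (Equiv.swap l r' i)) r'
    have h2 := g_step y r'
    rw [g_swap hr y (Nat.succ_ne_self _), Equiv.swap_apply_right, hr] at h1
    rw [hr] at h2
    have h3 : g (fun i => y (Equiv.swap l r' i)) (l.1 + 1) =
        g y (l.1 + 1) + g y (r'.1 + 1) * C (-(y l - y r')) := by
      rw [h1, h2, hr, map_neg, map_sub]
      ring
    rw [mul_single_apply_same]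
    simp only [N, of_apply]
    rw [h3, coeff_add, coeff_mul_C]
  · rw [mul_single_apply_of_ne _ _ _ _ _ h, add_zero]
    simp only [N, of_apply]
    rw [g_swap hr y fun e => h (Fin.ext (by omega))]

lemma hS_neg (hr : r'.1 = r.1 + 1) (S : F) : hS r r' S * hS r r' (-S) = 1 := by
  have h : r ≠ r' := fun e => by rw [e] at hr; omega
  rw [hS, hS, Matrix.add_mul, Matrix.mul_add, Matrix.mul_add, Matrix.one_mul, Matrix.one_mul,
    Matrix.mul_one, single_mul_single_of_ne _ _ _ _ h, add_zero, add_assoc, ← single_add,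
    neg_add_cancel, single_zero, add_zero]

lemma sgm_N (hr : r'.1 = r.1 + 1) (y : Fin (m + 1) → F)
    (A : Matrix (Fin (m + 1)) (Fin (m + 1)) F) :
    sgm r r' ((N y)⁻¹ * A * N y, y) = ((N fun i => y (Equiv.swap r r' i))⁻¹ * A *
      N (fun i => y (Equiv.swap r r' i)), fun i => y (Equiv.swap r r' i)) := by
  have h : (N fun i => y (Equiv.swap r r' i))⁻¹ = hS r r' (y r - y r') * (N y)⁻¹ :=
    inv_eq_left_inv (by
      rw [N_swap hr, Matrix.mul_assoc, ← Matrix.mul_assoc _ (N y), N_l, Matrix.one_mul, hS_neg hr])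
  rw [h, N_swap hr]
  simp only [sgm, Matrix.mul_assoc]

lemma g_eq (y : Fin (m + 1) → F) :
    g y 0 = X ^ (m + 1) - ∑ k : Fin (m + 1), C (av y k) * X ^ (k : ℕ) := by
  have h := (g_monic y 0).as_sum
  rw [g_deg, Nat.sub_zero, sum_range] at h
  rw [h, sub_eq_add_neg, ← sum_neg_distrib]
  simp [av]

lemma perm {y y' : Fin (m + 1) → F} (h : av y = av y') :
    ∃ σ : Equiv.Perm (Fin (m + 1)), ∀ i, y' (σ i) = y i := by
  classical
  have h1 : g y 0 = g y' 0 := by rw [g_eq, g_eq, h]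
  have h2 : ∀ u : Fin (m + 1) → F, (g u 0).roots = univ.val.map u := fun u => by
    rw [g_zero, ← roots_multiset_prod_X_sub_C (univ.val.map u), Multiset.map_map]
    rfl
  have h3 : univ.val.map y = univ.val.map y' := by rw [← h2, ← h2, h1]
  have h4 : ∀ (u : Fin (m + 1) → F) (c : F),
      Fintype.card {i // u i = c} = Multiset.count c (univ.val.map u) := fun u c => by
    rw [Multiset.count_map, Fintype.card_subtype]
    simp only [eq_comm (a := c)]
    rfl
  exact ⟨Equiv.ofFiberEquiv fun c => Fintype.equivOfCardEq (by rw [h4, h4, h3]),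
    Equiv.ofFiberEquiv_map _⟩

lemma srj [IsAlgClosed F] (a : Fin (m + 1) → F) : ∃ y, av y = a := by
  set Q : F[X] := X ^ (m + 1) + ∑ j : Fin (m + 1), C (-a j) * X ^ (j : ℕ) with hQ
  have hd := degree_sum_fin_lt fun j : Fin (m + 1) => -a j
  have hm : Q.Monic := monic_X_pow_add hd
  have hn : Q.natDegree = m + 1 := by
    rw [hQ, natDegree_add_eq_left_of_degree_lt (by rwa [degree_X_pow]), natDegree_X_pow]
  have hs := IsAlgClosed.splits Q
  obtain ⟨u, hu⟩ : ∃ u : Fin (m + 1) → F, univ.val.map u = Q.roots := by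
    have hc : Q.roots.toList.length = m + 1 := by
      rw [Multiset.length_toList, ← hs.natDegree_eq_card_roots, hn]
    refine ⟨fun i => Q.roots.toList.get (i.cast hc.symm), ?_⟩
    rw [Fin.univ_val_map, ← List.ofFn_congr hc, List.ofFn_get, Multiset.coe_toList]
  have e : g u 0 = Q := by
    rw [hs.eq_prod_roots_of_monic hm, ← hu, Multiset.map_map, g_zero]
    rfl
  refine ⟨u, funext fun k => ?_⟩
  rw [av, e, hQ, coeff_add, coeff_X_pow, if_neg k.2.ne, zero_add, finsetSum_coeff, sum_eq_single k,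
    coeff_C_mul_X_pow, if_pos rfl, neg_neg]
  · intro j _ hj
    rw [coeff_C_mul_X_pow, if_neg fun e => hj (Fin.ext e.symm)]
  · simp

lemma int (O : ValuationSubring F) (y : Fin (m + 1) → F) (h : ∀ k, av y k ∈ O)
    (i : Fin (m + 1)) : y i ∈ O := by
  have h0 : y i ^ (m + 1) - ∑ k : Fin (m + 1), av y k * y i ^ (k : ℕ) = 0 := by
    have := congrArg (eval (y i)) (g_eq y)
    rw [g_zero, eval_prod, prod_eq_zero (mem_univ i) (by simp)] at this
    simpa [eval_finsetSum] using this.symm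
  have : IsIntegral O (y i) :=
    ⟨X ^ (m + 1) + ∑ k : Fin (m + 1), C (-⟨av y k, h k⟩ : O) * X ^ (k : ℕ),
      monic_X_pow_add (degree_sum_fin_lt _), by
        rw [← h0, sub_eq_add_neg, ← sum_neg_distrib]
        simp [eval₂_finsetSum]⟩
  obtain ⟨z, hz⟩ := IsIntegrallyClosed.isIntegral_iff.1 this
  exact hz ▸ z.2

end Alg

variable {K : Type} [Field K] {m : ℕ}

section Rel

variable {M L : Fld K} {R : Rel M L} {y : Fin (m + 1) → M} {y' : Fin (m + 1) → L}

lemma rel_prod (h : ∀ i, R.r (y i) (y' i)) (s : Finset (Fin (m + 1))) (k : ℕ) :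
    R.r ((∏ j ∈ s, (X - C (y j))).coeff k) ((∏ j ∈ s, (X - C (y' j))).coeff k) := by
  induction s using Finset.induction_on generalizing k with
  | empty =>
    rw [prod_empty, prod_empty, coeff_one, coeff_one]
    exact Rel.ite _ R.one R.zero
  | insert a s ha ih =>
    rw [prod_insert ha, prod_insert ha, coeff_mul, coeff_mul]
    refine Rel.sum _ fun x _ => R.mul ?_ (ih _)
    rw [coeff_sub, coeff_sub, coeff_X, coeff_X, coeff_C, coeff_C]
    exact Rel.sub (Rel.ite _ R.one R.zero) (Rel.ite _ (h a) R.zero)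

lemma rel_N (h : ∀ i, R.r (y i) (y' i)) : R.m' (N y) (N y') :=
  fun k l => rel_prod h (univ.filter fun j => l.1 + 1 ≤ j.1) k

lemma rel_Ni (h : ∀ i, R.r (y i) (y' i)) : R.m' (N y)⁻¹ (N y')⁻¹ := Rel.minv (rel_N h) (N_det _)

lemma rel_av (h : ∀ i, R.r (y i) (y' i)) (k : Fin (m + 1)) : R.r (av y k) (av y' k) :=
  Rel.neg (rel_prod h _ _)

end Rel

variable {cc d : Cd}

/-- The map to companion matrices. -/
noncomputable def fm (cc : Cd) (m : ℕ) (L : Fld K)
    (z : (cc.prod ((sq (m + 1)).prod (.vec (Fin (m + 1))))).X L) :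
    (cc.prod ((sq (m + 1)).prod (.vec (Fin (m + 1))))).X L :=
  (z.1, N z.2.2 * z.2.1 * (N z.2.2)⁻¹, av z.2.2)

lemma cancel {F : Type} [Field F] (y : Fin (m + 1) → F) (A : Matrix (Fin (m + 1)) (Fin (m + 1)) F) :
    (N y)⁻¹ * (N y * A * (N y)⁻¹) * N y = A := by
  rw [Matrix.mul_assoc, Matrix.mul_assoc, N_l, Matrix.mul_one, ← Matrix.mul_assoc, N_l,
    Matrix.one_mul]

lemma cancel' {F : Type} [Field F] (y : Fin (m + 1) → F)
    (A : Matrix (Fin (m + 1)) (Fin (m + 1)) F) : N y * ((N y)⁻¹ * A * N y) * (N y)⁻¹ = A := by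
  rw [Matrix.mul_assoc, Matrix.mul_assoc, N_r, Matrix.mul_one, ← Matrix.mul_assoc, N_r,
    Matrix.one_mul]

variable (T : TD K) (C : WD K cc)

lemma weq [SB K] : WEq (C.prod (T.Ct (m + 1))) (C.prod (T.CX m)) (fm cc m) where
  reg _ _ _ _ _ _ _ e :=
    ⟨e.1, Rel.mmul (Rel.mmul (rel_N e.2.2) e.2.1) (rel_Ni e.2.2), rel_av e.2.2⟩
  mem _ _ h := ⟨h.1, trivial⟩
  ph _ _ _ := rfl
  gg L z _ := by
    show C.g L z.1 * T.Om L (N z.2.2 * z.2.1 * (N z.2.2)⁻¹) (cmp (av z.2.2)) =
      C.g L z.1 * T.Om L z.2.1 (bid z.2.2)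
    rw [cmp_eq, SB.conj T L _ _ _ _ (N_l _)]

lemma pro : Pro (C.prod (T.Ct (m + 1))).S (C.prod (T.CX m)).S (fm cc m) := by
  intro M O z z' _ _ hz' e
  have h : ∀ i, (Rel.ofPl O).r (z.2.2 i) (O.rd (z.2.2 i)) := fun i =>
    ⟨int O.O z.2.2 (fun k => (e.2.2 k).1) i, rfl⟩
  refine ⟨(z'.1, (N fun i => O.rd (z.2.2 i))⁻¹ * z'.2.1 * N (fun i => O.rd (z.2.2 i)),
    fun i => O.rd (z.2.2 i)), ⟨hz'.1, trivial⟩, e.1, ?_, h⟩
  have := Rel.mmul (Rel.mmul (rel_Ni h) e.2.1) (rel_N h)
  rwa [show (fm cc m M z).2.1 = N z.2.2 * z.2.1 * (N z.2.2)⁻¹ from rfl, cancel] at this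

lemma sur : Srj (C.prod (T.Ct (m + 1))).S (C.prod (T.CX m)).S (fm cc m) := by
  intro L _ z hz
  obtain ⟨y, hy⟩ := srj z.2.2
  exact ⟨(z.1, (N y)⁻¹ * z.2.1 * N y, y), ⟨hz.1, trivial⟩,
    Prod.ext rfl (Prod.ext (cancel' _ _) hy)⟩

variable {T C} {p i : ℕ} {W : ASp K d}

lemma inv (Θ : ANF p i (C.prod (T.Ct (m + 1))) W) (h : InvC Θ) (L : Fld K) (c : cc.X L)
    (A : Matrix (Fin (m + 1)) (Fin (m + 1)) L) (v s : L) (w : d.X L)
    (σ : Equiv.Perm (Fin (m + 1))) (y : Fin (m + 1) → L) :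
    Θ.e L (c, (N fun i => y (σ i))⁻¹ * A * N (fun i => y (σ i)), fun i => y (σ i)) v s w =
      Θ.e L (c, (N y)⁻¹ * A * N y, y) v s w := by
  have hσ : σ ∈ Submonoid.closure (Set.range fun i : Fin m => Equiv.swap i.castSucc i.succ) := by
    rw [Equiv.Perm.mclosure_swap_castSucc_succ]
    trivial
  induction hσ using Submonoid.closure_induction generalizing y with
  | mem x hx =>
    obtain ⟨r, rfl⟩ := hx
    have hr : r.succ.1 = r.castSucc.1 + 1 := rfl
    rw [← sgm_N hr]
    exact h _ _ hr L c _ v s w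
  | one => rfl
  | mul a b _ _ ha hb => exact (hb fun i => y (a i)).trans (ha y)

lemma fib (Θ : ANF p i (C.prod (T.Ct (m + 1))) W) (h : InvC Θ) (L : Fld K)
    (z z' : (cc.prod ((sq (m + 1)).prod (.vec (Fin (m + 1))))).X L) (v s : L) (w : d.X L)
    (e : fm cc m L z = fm cc m L z') : Θ.e L z v s w = Θ.e L z' v s w := by
  obtain ⟨c, A, y⟩ := z
  obtain ⟨c', A', y'⟩ := z'
  obtain rfl : c = c' := congrArg (·.1) e
  have e1 : N y * A * (N y)⁻¹ = N y' * A' * (N y')⁻¹ := congrArg (·.2.1) e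
  obtain ⟨σ, hσ⟩ := perm (congrArg (·.2.2) e : av y = av y')
  obtain rfl : (fun i => y' (σ i)) = y := funext hσ
  have := inv Θ h L c (N y' * A' * (N y')⁻¹) v s w σ y'
  rwa [cancel, ← e1, cancel] at this

end SDa

variable {K : Type} [Field K] {p : ℕ}

theorem SD_thm [Base K] [Fact p.Prime] [CharP K p] [FW0 K] [FWp K p] (_h2 : (2 : K) ≠ 0)
    [V1 K p] [V2 K p] [V3 K p] [SB K] : SD K p where
  van {T cc d C W m i} Θ h hv L z v s w := by
    obtain ⟨Φ, hΦ⟩ := V1.desc (SDa.weq T C) (SDa.pro T C) (SDa.sur T C) Θ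
      fun L x x' v y w _ _ e => SDa.fib Θ h L x x' v y w e
    by_contra h0
    exact h0 ((hΦ L z v s w (V1.mem Θ h0).2.1).symm.trans (hv _ Φ _ _ _ _ _))

end Pool.Agent.Lib.MP_557161_ag.HG.TW
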