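import Pool.Agent.Lib.MP_557161_ag.TW.StS

/-!
The induction on the size of the matrices, and the vanishing of alternating functionals.
-/

namespace Pool.Agent.Lib.MP_557161_ag.HG.TW

open Pool.Agent.Lib.MP_557161_ag.DL Matrix

variable {K : Type} [Field K] {p : ℕ}

lemma card_up_zero : Nat.card (UpN 0) = 0 := by
  have : IsEmpty (UpN 0) := ⟨fun a => a.1.1.elim0⟩
  exact Nat.card_of_isEmpty

section
variable [SS K p] [SI1 K p] [h2 : SI2 K p] [SI3 K p] [SI4 K p]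

/-- An alternating functional is the generic value of a functional on pairs of matrices. -/
theorem ex_rel (T : TD K) (m : ℕ) : ∀ {cc d : Cd} (C : WD K cc) (W : ASp K d) (i j : ℕ)
    (Φ : ANF p j (C.prod (T.Tn (m + 1))) W), i = j + Nat.card (UpN (m + 1)) → Alt Φ →
    ∃ (Θ : ANF p i (C.prod (T.Ct (m + 1))) W) (ε : ℂ), ε ≠ 0 ∧ RelN Φ Θ ε := by
  induction m with
  | zero =>
    intro cc d C W i j Φ hi _
    have e : i = j := by rw [hi, h2.card 0, card_up_zero]; rfl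
    subst e
    obtain ⟨Θ, h⟩ := SI2.one Φ
    exact ⟨Θ, 1, one_ne_zero, h⟩
  | succ m ih =>
    intro cc d C W i j Φ hi ha
    obtain ⟨Φ', ha', hs⟩ := SI2.spl Φ
    obtain ⟨Θ', ε, hε, hr⟩ := ih (C.prod T.T1) W _ j Φ' rfl (ha' ha)
    have hc : InvC Θ' := SS.inv Φ' Θ' ε rfl (ha' ha) hr
    have hx : ∀ i', i' = j + Nat.card (UpN (m + 1)) + (m + 1 + (m + 1)) →
        ∃ Ψ : ANF p i' (C.prod (T.Si (m + 1))) W, RelB Θ' Ψ ((-1) ^ (m + 1)) := by
      rintro _ rfl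
      exact SI1.ex Θ'
    have e : i + (m + 1) = j + Nat.card (UpN (m + 1)) + (m + 1 + (m + 1)) := by
      rw [hi, h2.card (m + 1)]; ring
    obtain ⟨Ψ, hb⟩ := hx _ e
    have hS : RelS Φ Ψ ((-1) ^ (m + 1) * ε) := hs Θ' Ψ ε _ rfl hr hb
    obtain ⟨Θ, h⟩ := SI4.ex Ψ (SI2.inv Θ' Ψ _ e hb hc) (SI3.van Φ Ψ _ (by rw [hi]) ha hS)
    exact ⟨Θ, _, mul_ne_zero (pow_ne_zero _ (neg_ne_zero.2 one_ne_zero)) hε, h Φ _ hi hS⟩

variable [FA1 K] [V1 K p] [SD K p]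

/-- Alternating functionals vanish as soon as all functionals on pairs with a companion matrix
do. -/
theorem alt_van (T : TD K) (m : ℕ) {cc d : Cd} (C : WD K cc) (W : ASp K d)
    (h : AV p (C.prod (T.CX m)) W) {j : ℕ} (Φ : ANF p j (C.prod (T.Tn (m + 1))) W) (ha : Alt Φ)
    (L : Fld K) (z) (v s : L) (w) : Φ.e L z v s w = 0 := by
  by_contra h0
  obtain ⟨Θ, ε, hε, hr⟩ := ex_rel T m C W _ j Φ rfl ha
  have h1 := hr L _ _ _ z.1 z.2.1 z.2.2 v s w (FA1.fr_free (UpN (m + 1)) (V1.mem Φ h0).1)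
  rw [SD.van Θ (SS.inv Φ Θ ε rfl ha hr) h] at h1
  exact mul_ne_zero hε h0 h1.symm

end

theorem ALT_of (p : ℕ) [SS K p] [SI1 K p] [SI2 K p] [SI3 K p] [SI4 K p] [FA1 K] [V1 K p] [SD K p]
    [V4 K p] [S0 K p] [FO K p] : ALT K where
  alt T κ _ _ hκ := by
    refine S0.red (p := p) T T.n (fun W j Φ ha => ?_) κ hκ
    exact alt_van T (4 * T.g * T.h) (Gs K Unit) W (FO.imp T _ rfl _ W (V4.base W)) Φ ha

end Pool.Agent.Lib.MP_557161_ag.HG.TW
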