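import Pool.Agent.Lib.MP_557161_ag.TW.StS

/-!
One step of the induction: existence and uniqueness of functionals with a free first row.
-/

namespace Pool.Agent.Lib.MP_557161_ag.HG.TW

open Pool.Agent.Lib.MP_557161_ag.DL Matrix

namespace SI1a

section Mat

variable {F : Type} [Field F] {m : ℕ}

lemma det_col {B : Matrix (Fin (m + 1)) (Fin (m + 1)) F} (h : ∀ i : Fin m, B i.succ 0 = 0) :
    B.det = B 0 0 * (B.submatrix Fin.succ Fin.succ).det := by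
  simp [det_succ_column_zero, Fin.sum_univ_succ, h]

lemma siY_00 (y : Fin (m + 1) → F) (ξ : Fin m → F) : siY y ξ 0 0 = y 0 := rfl

lemma siY_0s (y : Fin (m + 1) → F) (ξ : Fin m → F) (j : Fin m) : siY y ξ 0 j.succ = ξ j := rfl

lemma siY_s0 (y : Fin (m + 1) → F) (ξ : Fin m → F) (i : Fin m) : siY y ξ i.succ 0 = 0 := by
  simp [siY, bid]

lemma siY_ss (y : Fin (m + 1) → F) (ξ : Fin m → F) (i j : Fin m) :
    siY y ξ i.succ j.succ = bid (fun a => y a.succ) i j := by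
  simp [siY, bid]

lemma siY_s (y : Fin (m + 1) → F) (ξ ξ' : Fin m → F) (i : Fin m) :
    siY y ξ i.succ = siY y ξ' i.succ := by
  ext j
  simp [siY]

lemma det_siY (y : Fin (m + 1) → F) (ξ : Fin m → F) (b : F) :
    (siY y ξ - b • (1 : Matrix _ _ F)).det =
      (y 0 - b) * (bid (fun a => y a.succ) - b • (1 : Matrix _ _ F)).det := by
  rw [det_col fun i => by simp [siY_s0]]
  congr 2
  · simp [siY_00]
  · ext i j
    simp [siY_ss, one_apply]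

lemma det_blk (x : F) (u : Fin m → F) (X : Matrix (Fin m) (Fin m) F) (a : F) :
    (1 - a • blk x u X).det = (1 - a * x) * (1 - a • X).det := by
  rw [det_col fun i => by simp [blk]]
  congr 2
  ext i j
  simp [blk, one_apply]

lemma col_blk (x : F) (u : Fin m → F) (X : Matrix (Fin m) (Fin m) F) (y : Fin (m + 1) → F)
    (ξ : Fin m → F) (i : Fin m) : (1 - siY y ξ * blk x u X) i.succ 0 = 0 := by
  simp [blk, mul_apply, Fin.sum_univ_succ, siY_s0]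

lemma det_mul_blk (x : F) (u : Fin m → F) (X : Matrix (Fin m) (Fin m) F) (y : Fin (m + 1) → F)
    (ξ : Fin m → F) : (1 - siY y ξ * blk x u X).det =
      (1 - y 0 * x) * (1 - bid (fun a => y a.succ) * X).det := by
  rw [det_col (col_blk x u X y ξ)]
  congr 2
  · simp [blk, mul_apply, Fin.sum_univ_succ, siY_00]
  · ext i j
    simp [blk, mul_apply, Fin.sum_univ_succ, siY_s0, siY_ss, one_apply]

/-- The coefficients of the first row. -/
noncomputable def cf (X : Matrix (Fin (m + 1)) (Fin (m + 1)) F) (y : Fin (m + 1) → F) (l : Fin m) :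
    F := (X * (1 - siY y 0 * X).adjugate) l.succ 0

lemma det_row (X : Matrix (Fin (m + 1)) (Fin (m + 1)) F) (y : Fin (m + 1) → F) (ξ : Fin m → F) :
    (1 - siY y ξ * X).det = (1 - siY y 0 * X).det - ∑ l, ξ l * cf X y l := by
  have e : ∀ k, (1 - siY y ξ * X).adjugate k 0 = (1 - siY y 0 * X).adjugate k 0 := fun k => by
    rw [adjugate_apply, adjugate_apply]
    congr 1
    ext i j
    cases i using Fin.cases with
    | zero => simp
    | succ i => simp [mul_apply, siY_s y ξ 0]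
  rw [det_eq_sum_mul_adjugate_row _ 0, det_eq_sum_mul_adjugate_row (1 - siY y 0 * X) 0]
  simp only [e, cf, mul_apply, Finset.mul_sum]
  rw [Finset.sum_comm (s := Finset.univ (α := Fin m)), ← Finset.sum_sub_distrib]
  refine Finset.sum_congr rfl fun k _ => ?_
  simp only [Matrix.sub_apply, mul_apply, Fin.sum_univ_succ, siY_00, siY_0s, Pi.zero_apply, zero_mul,
    Finset.sum_const_zero, add_zero, sub_mul, add_mul, Finset.sum_mul, mul_assoc]
  ring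

lemma cf_blk (x : F) (u : Fin m → F) (X : Matrix (Fin m) (Fin m) F) (y : Fin (m + 1) → F)
    (l : Fin m) : cf (blk x u X) y l = 0 := by
  rw [cf, mul_apply, Fin.sum_univ_succ, Finset.sum_eq_zero fun k _ => ?_]
  · simp [blk]
  · rw [adjugate_apply, det_eq_zero_of_column_eq_zero 0 fun i => ?_, mul_zero]
    cases i using Fin.cases with
    | zero => simp
    | succ i => rw [updateRow_ne i.succ_ne_zero, col_blk]

lemma col_of_cf {X : Matrix (Fin (m + 1)) (Fin (m + 1)) F} {y : Fin (m + 1) → F}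
    (h : (1 - siY y 0 * X).det ≠ 0) (h' : ∀ l, cf X y l = 0) (l : Fin m) : X l.succ 0 = 0 := by
  unfold cf at h'
  have e := mul_adjugate (1 - siY y 0 * X)
  have a : ∀ k : Fin m, (1 - siY y 0 * X).adjugate k.succ 0 = 0 := fun k => by
    have := congrFun (congrFun e k.succ) 0
    rw [sub_mul, one_mul, mul_assoc, Matrix.sub_apply, mul_apply, Fin.sum_univ_succ, siY_s0,
      Finset.sum_eq_zero fun i _ => mul_eq_zero_of_right _ (h' i)] at this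
    simpa using this
  have b := h' l
  rw [mul_apply, Fin.sum_univ_succ, Finset.sum_eq_zero fun i _ => mul_eq_zero_of_right _ (a i),
    add_zero, mul_eq_zero] at b
  refine b.resolve_right fun z => h ?_
  rw [det_eq_sum_mul_adjugate_row _ 0, Fin.sum_univ_succ, z,
    Finset.sum_eq_zero fun i _ => mul_eq_zero_of_right _ (a i), mul_zero, add_zero]

lemma blk_eq {X : Matrix (Fin (m + 1)) (Fin (m + 1)) F} (h : ∀ l : Fin m, X l.succ 0 = 0) :
    blk (X 0 0) (fun a => X 0 a.succ) (X.submatrix Fin.succ Fin.succ) = X := by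
  ext i j
  cases i using Fin.cases <;> cases j using Fin.cases
  exacts [rfl, rfl, (h _).symm, rfl]

end Mat

variable {K : Type} [Field K] {p : ℕ} {cc d : Cd} (T : TD K) (C : WD K cc) {W : ASp K d} (m : ℕ)

variable {m} in
lemma Om_blk (L : Fld K) (x : L) (u : Fin m → L) (X : Matrix (Fin m) (Fin m) L)
    (y : Fin (m + 1) → L) (ξ : Fin m → L) : T.Om L (blk x u X) (siY y ξ) =
      T.om1 L x (y 0) * T.Om L X (bid fun a => y a.succ) := by
  simp only [TD.Om, TD.om1, TD.fm, TD.dm, det_blk, det_mul_blk, det_siY, Finset.prod_mul_distrib]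
  ring

/-- The space with a vanishing first row. -/
noncomputable def V : WD K (cc.prod ((sq (m + 1)).prod (.vec (Fin (m + 1))))) :=
  C.prod (mkW (.univ K _) (fun _ _ => 0) (fun L z => T.Om L z.1 (siY z.2 0))
    (fun _ _ R _ _ _ _ _ => R.zero) fun _ _ R _ _ _ _ e => T.Om_rel R e.1 (rel_siY e.2 fun _ => R.zero))

/-- The coefficients of the first row in the weight. -/
noncomputable def f (L : Fld K) (z : (cc.prod ((sq (m + 1)).prod (.vec (Fin (m + 1))))).X L)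
    (l : Fin m) : L := -(C.g L z.1 * T.fm L z.2.1 * T.dm L (siY z.2.2 0)) * cf z.2.1 z.2.2 l

lemma hf : Reg (V T C m).S (.vec (Fin m)) (f T C m) := fun _ _ R _ _ a b e _ =>
  have h := rel_siY (R := R) e.2.2 (ξ := 0) (ξ' := 0) fun _ => R.zero
  R.mul (Rel.neg (R.mul (R.mul (C.rg R a.1 b.1 e.1) (T.fm_rel R e.2.1)) (T.dm_rel R h)))
    (Rel.mmul e.2.1 (Rel.madj (Rel.msub Rel.mone (Rel.mmul h e.2.1))) _ _)

lemma wt (L : Fld K) (c : cc.X L) (X : Matrix (Fin (m + 1)) (Fin (m + 1)) L) (y : Fin (m + 1) → L)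
    (ξ : Fin m → L) : ((V T C m).wlin _ (hf T C m)).g L ((c, X, y), ξ) =
      (C.prod (T.Si m)).g L (c, X, y, ξ) := by
  change C.g L c * T.Om L X (siY y 0) + ∑ l, ξ l * f T C m L (c, X, y) l =
    C.g L c * T.Om L X (siY y ξ)
  have : T.dm L (siY y ξ) = T.dm L (siY y 0) := by simp only [TD.dm, det_siY]
  rw [TD.Om, TD.Om, det_row X y ξ, this, mul_sub, sub_mul, mul_sub, Finset.mul_sum,
    Finset.sum_mul, Finset.mul_sum, sub_eq_add_neg (_ * _), ← Finset.sum_neg_distrib]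
  exact congrArg _ (Finset.sum_congr rfl fun l _ => by rw [f]; ring)

lemma iso : Iso ((V T C m).wlin _ (hf T C m)).S (C.prod (T.Si m)).S
    (fun _ z => (z.1.1, z.1.2.1, z.1.2.2, z.2)) fun _ z => ((z.1, z.2.1, z.2.2.1), z.2.2.2) where
  mf := ⟨fun _ _ _ _ _ _ _ e => ⟨e.1.1, e.1.2.1, e.1.2.2, e.2⟩, fun _ _ a => ⟨a.1.1, trivial⟩⟩
  mg := ⟨fun _ _ _ _ _ _ _ e => ⟨⟨e.1, e.2.1, e.2.2.1⟩, e.2.2.2⟩,
    fun _ _ a => ⟨⟨a.1, trivial⟩, trivial⟩⟩
  gf _ _ _ := rfl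
  fg _ _ _ := rfl

variable {T C m} in
lemma col {L : Fld K} {z} (h : ((V T C m).zer _ (hf T C m)).S.mem L z) (h' : (V T C m).g L z ≠ 0)
    (l : Fin m) : z.2.1 l.succ 0 = 0 := by
  have e : C.g L z.1 * (T.fm L z.2.1 * (1 - siY z.2.2 0 * z.2.1).det * T.dm L (siY z.2.2 0)) ≠ 0 :=
    h'
  simp only [mul_ne_zero_iff] at e
  exact col_of_cf e.2.1.2 (fun l => (mul_eq_zero.1 (h.2 l)).resolve_left
    (neg_ne_zero.2 (mul_ne_zero (mul_ne_zero e.1 e.2.1.1) e.2.2))) l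

lemma rel_cons {M L : Fld K} {R : Rel M L} {a : M} {a' : L} {y : Fin m → M} {y' : Fin m → L}
    (h : R.r a a') (h' : ∀ i, R.r (y i) (y' i)) (i : Fin (m + 1)) :
    R.r ((Fin.cons a y : Fin (m + 1) → M) i) ((Fin.cons a' y' : Fin (m + 1) → L) i) := by
  cases i using Fin.cases
  exacts [h, h' _]

variable [V1 K p]

lemma emb {k : ℕ} (Θ : ANF p k (((C.prod T.T1).prod (T.Ct m)).prod (Tor K (Fin m) fun _ => False)) W) :
    ∃ Φ : ANF p k ((V T C m).zer _ (hf T C m)) W, ∀ L c x y X y' u v s w, C.S.mem L c →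
      Φ.e L (c, blk x u X, Fin.cons y y') v s w = Θ.e L (((c, x, y), X, y'), u) v s w := by
  let E := ((C.prod T.T1).prod (T.Ct m)).prod (Tor K (Fin m) fun _ => False)
  let Z := (V T C m).zer _ (hf T C m)
  have g : ∀ (L : Fld K) c x y X y' u, Z.g L (c, blk x u X, Fin.cons y y') =
      E.g L (((c, x, y), X, y'), u) := fun L c x y X y' u => by
    change C.g L c * T.Om L (blk x u X) (siY (Fin.cons y y') 0) =
      C.g L c * T.om1 L x y * T.Om L X (bid y') * 1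
    rw [Om_blk, mul_one, mul_assoc]
    rfl
  have z : ∀ (L : Fld K) c x y X y' u, C.S.mem L c → Z.S.mem L (c, blk x u X, Fin.cons y y') :=
    fun L c x y X y' u h => ⟨⟨h, trivial⟩, fun l => mul_eq_zero_of_right _ (cf_blk ..)⟩
  have r : Reg (E.nz E.g E.rg).S (cc.prod ((sq (m + 1)).prod (.vec (Fin (m + 1)))))
      fun _ a => (a.1.1.1, blk a.1.1.2.1 a.2 a.1.2.1, Fin.cons a.1.1.2.2 a.1.2.2) :=
    fun _ _ _ _ _ _ _ e => ⟨e.1.1.1, rel_blk e.1.1.2.1 e.2 e.1.2.1, rel_cons m e.1.1.2.2 e.1.2.2⟩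
  have q : ∀ (L : Fld K) a, (Z.nz Z.g Z.rg).S.mem L a → (a.1, blk (a.2.1 0 0)
      (fun i => a.2.1 0 i.succ) (a.2.1.submatrix Fin.succ Fin.succ),
      Fin.cons (a.2.2 0) fun i => a.2.2 i.succ) = a := fun L a h =>
    Prod.ext rfl (Prod.ext (blk_eq (col h.1 h.2)) (Fin.cons_self_tail _))
  obtain ⟨Θ', e⟩ := V1.res (E' := E.nz E.g E.rg) ⟨⟨⟨Reg.id _, fun _ _ h => h.1⟩, fun _ _ _ => rfl⟩,
    fun _ _ _ => rfl⟩ Θ fun L x v y w h => ⟨(V1.mem Θ h).2.1, (V1.mem Θ h).2.2.2.2.1⟩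
  obtain ⟨Φ, e₁, e₂⟩ := V1.emb (E := Z) (E' := E.nz E.g E.rg)
    (f' := fun _ a => (((a.1, a.2.1 0 0, a.2.2 0), a.2.1.submatrix Fin.succ Fin.succ,
      fun i => a.2.2 i.succ), fun i => a.2.1 0 i.succ)) (Z.nz Z.g Z.rg).S
    ⟨⟨⟨r, fun L a h => z L _ _ _ _ _ _ h.1.1.1.1⟩, fun L a _ => by
      change C.φ L a.1.1.1 + 0 = C.φ L a.1.1.1 + 0 + 0 + 0
      simp only [add_zero]⟩, fun L a _ => g L ..⟩
    ⟨⟨r, fun L a h => ⟨z L _ _ _ _ _ _ h.1.1.1.1, (g L ..).trans_ne h.2⟩⟩,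
      ⟨fun _ _ _ _ _ _ _ e => ⟨⟨⟨e.1, e.2.1 _ _, e.2.2 _⟩, fun _ _ => e.2.1 _ _, fun _ => e.2.2 _⟩,
        fun _ => e.2.1 _ _⟩, fun L a h => ⟨⟨⟨⟨h.1.1.1, trivial⟩, trivial⟩, trivial, fun _ => False.elim⟩,
          (g L ..).symm.trans_ne (by rw [q L a h]; exact h.2)⟩⟩, fun _ _ _ => rfl, q⟩
    (fun _ O _ _ a b e => ⟨a, Rel.ne_zero (R := .ofPl O) (Z.rg _ a b.1 e) b.2⟩) Θ'
  refine ⟨Φ, fun L c x y X y' u v s w h => ?_⟩
  by_cases a : E.g L (((c, x, y), X, y'), u) = 0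
  · rw [by_contra fun b : Θ.e L (((c, x, y), X, y'), u) v s w ≠ 0 => (V1.mem Θ b).2.2.2.2.1 a]
    exact by_contra fun b => (V1.mem Φ b).2.2.2.2.1 ((g L ..).trans a)
  · exact (e₁ L (((c, x, y), X, y'), u) v s w ⟨⟨⟨⟨h, trivial⟩, trivial⟩, trivial, fun _ => False.elim⟩, a⟩).trans
      (e ..)

omit [V1 K p] in
lemma split [FA1 K] {j : ℕ} {L M : Fld K} {α : L →ₐ[K] M} {κ κ' : Type} [Finite κ] [Finite κ']
    {U : κ ⊕ κ' → M} (h : Free j α U) : ∃ (M₁ : Fld K) (α₁ : L →ₐ[K] M₁) (β : M₁ →ₐ[K] M)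
      (U₁ : κ → M₁), β.comp α₁ = α ∧ (∀ i, β (U₁ i) = U (.inl i)) ∧ Free j α₁ U₁ ∧
      Free (j + Nat.card κ) β fun i => U (.inr i) := by
  obtain ⟨M₁, α₁, β, T₁, e1, e2, f1, f2⟩ := FA1.split h fun a => a.isLeft = true
  have c1 := Nat.card_congr (Equiv.sumIsLeft (α := κ) (β := κ'))
  have c2 : Nat.card κ' = Nat.card {a : κ ⊕ κ' // ¬ a.isLeft = true} := by
    simpa only [Sum.not_isLeft] using (Nat.card_congr (Equiv.sumIsRight (α := κ) (β := κ'))).symm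
  rw [c1] at f2
  refine ⟨M₁, α₁, β, fun i => T₁ ⟨.inl i, rfl⟩, e1, fun i => e2 _, FA1.of_gen f1 c1.symm ?_,
    FA1.of_gen f2 c2 ?_⟩
  · rintro ⟨a | a, ha⟩
    · exact IntermediateField.subset_adjoin _ _ (Or.inr ⟨a, rfl⟩)
    · simp at ha
  · rintro ⟨a | a, ha⟩
    · simp at ha
    · exact IntermediateField.subset_adjoin _ _ (Or.inr ⟨a, rfl⟩)

variable [V2 K p]

lemma ex [FA1 K] {j i : ℕ} (hi : i = j + Nat.card (Fin m) + Nat.card (Fin m))
    (Θ : ANF p j ((C.prod T.T1).prod (T.Ct m)) W) :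
    ∃ Ψ : ANF p i (C.prod (T.Si m)) W, RelB Θ Ψ ((-1) ^ Nat.card (Fin m)) := by
  subst hi
  obtain ⟨Θ₁, e₁⟩ := V2.lift (κ := Fin m) (fun _ => False) Θ
  obtain ⟨Φ, e₂⟩ := emb T C m Θ₁
  obtain ⟨Ψ₀, e₃⟩ := V2.ws5 _ (hf T C m) Φ
  obtain ⟨Ψ, e₄⟩ := V1.pull (E' := C.prod (T.Si m)) ⟨⟨(iso T C m).mg, fun _ _ _ => rfl⟩,
    fun L a _ => wt T C m L ..⟩ (iso T C m).symm.pro Ψ₀
  refine ⟨Ψ, fun L M α U c x y X y' v s w h => ?_⟩
  by_cases a : C.S.mem L c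
  · obtain ⟨M₁, α₁, β, U₁, rfl, b, f₁, f₂⟩ := split h
    have a₁ := (C.S.map_iff α₁ c).2 a
    rw [e₄ _ _ _ _ _ ⟨(C.S.map_iff _ c).2 a, trivial⟩, ← e₁ L M₁ α₁ U₁ _ v s w f₁]
    refine Eq.trans ?_ ((e₃ M₁ M β _ _ (α₁ v) (α₁ s) (d.map α₁ w) f₂ ⟨⟨a₁, trivial⟩, fun l =>
      mul_eq_zero_of_right _ (cf_blk ..)⟩).trans (congrArg _ (e₂ _ _ _ _ _ _ _ _ _ _ a₁)))
    change Ψ₀.e M ((cc.map (fun a => β (α₁ a)) c, _, _), _) _ _ (d.map (fun a => β (α₁ a)) w) =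
      Ψ₀.e M ((cc.map β (cc.map α₁ c), _, _), _) _ _ _
    rw [cc.map_map, d.map_map]
    refine congrArg (fun z => Ψ₀.e M ((_, z), _) _ _ _) (Prod.ext ?_ ?_)
    · ext i k
      cases i using Fin.cases <;> cases k using Fin.cases
      exacts [rfl, (b _).symm, (map_zero β).symm, rfl]
    · ext i
      cases i using Fin.cases <;> rfl
  · rw [by_contra fun b : Θ.e L ((c, x, y), X, y') v s w ≠ 0 => a (V1.mem Θ b).2.1.1.1, mul_zero]
    exact by_contra fun b => a ((C.S.map_iff α c).1 (V1.mem Ψ b).2.1.1)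

lemma uniq {i : ℕ} (Ψ : ANF p i (C.prod (T.Si m)) W)
    (h : ∀ (j : ℕ) (L M : Fld K) (α : L →ₐ[K] M) (U : Fin m ⊕ Fin m → M) c (x y : L)
      (X : Matrix (Fin m) (Fin m) L) (y' : Fin m → L) v s w, i = j + (m + m) → Free j α U →
      Ψ.e M (cc.map α c, blk (α x) (fun a => U (.inl a)) (X.map α),
        Fin.cons (α y) (fun a => α (y' a)), fun a => U (.inr a)) (α v) (α s) (d.map α w) = 0)
    (L : Fld K) (z) (v s : L) (w : d.X L) : Ψ.e L z v s w = 0 := by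
  have r : Mp (((C.prod T.T1).prod (T.Ct m)).prod (Tor K (Fin m ⊕ Fin m) fun _ => False)).S
      (C.prod (T.Si m)).S fun _ a => (a.1.1.1, blk a.1.1.2.1 (fun i => a.2 (.inl i)) a.1.2.1,
        Fin.cons a.1.1.2.2 a.1.2.2, fun i => a.2 (.inr i)) :=
    ⟨fun _ _ _ _ _ _ _ e => ⟨e.1.1.1, rel_blk e.1.1.2.1 (fun _ => e.2 _) e.1.2.1,
      rel_cons m e.1.1.2.2 e.1.2.2, fun _ => e.2 _⟩, fun _ _ a => ⟨a.1.1.1, trivial⟩⟩
  obtain ⟨Γ, e₁⟩ := V1.pull
    (E' := ((C.prod T.T1).prod (T.Ct m)).prod (Tor K (Fin m ⊕ Fin m) fun _ => False))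
    ⟨⟨r, fun L a _ => by
      change C.φ L a.1.1.1 + 0 = C.φ L a.1.1.1 + 0 + 0 + 0
      simp only [add_zero]⟩, fun L a _ => by
      change C.g L a.1.1.1 * T.Om L (blk _ _ _) (siY _ _) =
        C.g L a.1.1.1 * T.om1 L a.1.1.2.1 a.1.1.2.2 * T.Om L a.1.2.1 (bid a.1.2.2) * 1
      rw [Om_blk, mul_one, mul_assoc]
      rfl⟩
    (Pro.of_left (g := fun _ a => (((a.1, a.2.1 0 0, a.2.2.1 0), a.2.1.submatrix Fin.succ Fin.succ,
      fun i => a.2.2.1 i.succ), Sum.elim (fun i => a.2.1 0 i.succ) a.2.2.2))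
      ⟨fun _ _ _ _ _ _ _ e => ⟨⟨⟨e.1, e.2.1 _ _, e.2.2.1 _⟩, fun _ _ => e.2.1 _ _,
        fun _ => e.2.2.1 _⟩, fun i => by cases i; exacts [e.2.1 _ _, e.2.2.2 _]⟩,
        fun _ _ a => ⟨⟨⟨a.1, trivial⟩, trivial⟩, trivial, fun _ => False.elim⟩⟩ r
      fun _ a _ => Prod.ext rfl (funext fun i => by cases i <;> rfl)) Ψ
  have e₂ := V2.up _ Γ (fun _ _ => True) (fun _ _ _ _ _ _ _ _ _ => trivial)
    fun j L M α U a v s w hj hU ha _ => (e₁ M _ _ _ _ ⟨(ASp.map_iff _ α a).2 ha, trivial, fun _ => False.elim⟩).trans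
      (h j L M α U a.1.1 a.1.2.1 a.1.2.2 a.2.1 a.2.2 v s w (by simpa using hj) hU)
  obtain ⟨Ψ₀, e₃⟩ := V1.pull (E' := (V T C m).wlin _ (hf T C m)) ⟨⟨(iso T C m).mf, fun _ _ _ => rfl⟩,
    fun L a _ => (wt T C m L ..).symm⟩ (iso T C m).pro Ψ
  have e₄ : ∀ (M : Fld K) a U v s w, ((V T C m).zer _ (hf T C m)).S.mem M a →
      Ψ₀.e M (a, U) v s w = 0 := fun M a U v s w ha => by_contra fun b => by
    have g : (V T C m).g M a ≠ 0 := fun g => (V1.mem Ψ₀ b).2.2.2.2.1 (by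
      change (V T C m).g M a + ∑ l, U l * f T C m M a l = 0
      rw [g, zero_add, Finset.sum_eq_zero fun l _ => mul_eq_zero_of_right _ (ha.2 l)])
    refine b ((e₃ M (a, U) _ _ _ ⟨ha.1, trivial⟩).trans (Eq.trans ?_ ((e₁ M
      (((a.1, a.2.1 0 0, a.2.2 0), a.2.1.submatrix Fin.succ Fin.succ, fun i => a.2.2 i.succ),
        Sum.elim (fun i => a.2.1 0 i.succ) U) v s w ⟨⟨⟨ha.1.1, trivial⟩, trivial⟩, trivial,
        fun _ => False.elim⟩).symm.trans (e₂ _ _ _ _ _ _ trivial))))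
    exact congrArg (fun z => Ψ.e M (_, z) _ _ _)
      (Prod.ext (blk_eq (col ha g)).symm (Prod.ext (Fin.cons_self_tail _).symm rfl))
  by_contra h0
  exact h0 ((e₃ L ((z.1, z.2.1, z.2.2.1), z.2.2.2) v s w
    ⟨⟨(V1.mem Ψ h0).2.1.1, trivial⟩, trivial⟩).symm.trans (V2.wuniq _ (hf T C m) Ψ₀
      (fun j L M α U a v s w _ _ ha => e₄ M _ U _ _ _ ((ASp.map_iff _ α a).2 ha)) ..))

end SI1a

theorem SI1_thm {K : Type} [Field K] {p : ℕ} [FW0 K] (_h2 : (2 : K) ≠ 0) [V1 K p] [V2 K p] :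
    SI1 K p where
  ex {T _ _ C _ m j} Θ := by
    simpa only [Nat.card_fin] using
      SI1a.ex T C m (i := j + (m + m)) (by rw [Nat.card_fin, add_assoc]) Θ
  uniq Ψ h := SI1a.uniq _ _ _ Ψ h

end Pool.Agent.Lib.MP_557161_ag.HG.TW
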