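import Pool.Agent.Lib.MP_557161_ag.TW.StS

/-!
One step of the induction: invariance and generic values.
-/

namespace Pool.Agent.Lib.MP_557161_ag.HG.TW

open Pool.Agent.Lib.MP_557161_ag.DL Matrix

namespace SI2a

section Mat

variable {F F' : Type} [Field F] [Field F'] {m : ℕ}

lemma blk_mul (x x' : F) (u u' : Fin m → F) (X X' : Matrix (Fin m) (Fin m) F) :
    blk x u X * blk x' u' X' = blk (x * x') (x • u' + u ᵥ* X') (X * X') := by
  ext i j
  cases i using Fin.cases <;> cases j using Fin.cases <;>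
    simp [blk, mul_apply, Fin.sum_univ_succ, vecMul, dotProduct]

lemma hS_succ (r r' : Fin m) (S : F) : hS r.succ r'.succ S = blk 1 0 (hS r r' S) := by
  ext i j
  cases i using Fin.cases <;> cases j using Fin.cases <;>
    simp [blk, hS, one_apply, single_apply, Fin.succ_ne_zero, (Fin.succ_ne_zero _).symm]

omit [Field F] in
lemma cns_swap (r r' : Fin m) (a : F) (y : Fin m → F) :
    (fun i => (Fin.cons a y : Fin (m + 1) → F) (Equiv.swap r.succ r'.succ i)) =
      Fin.cons a fun i => y (Equiv.swap r r' i) := by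
  ext i
  cases i using Fin.cases with
  | zero => rw [Equiv.swap_apply_of_ne_of_ne (Fin.succ_ne_zero _).symm (Fin.succ_ne_zero _).symm]
            rfl
  | succ i => rw [(Fin.succ_injective m).swap_apply]; rfl

lemma hS_map (α : F →+* F') (r r' : Fin m) (S : F) : (hS r r' S).map α = hS r r' (α S) := by
  ext i j
  simp [hS, one_apply, single_apply, apply_ite α]

lemma sgS_blk (r r' : Fin m) (x y : F) (u ξ y' : Fin m → F) (X : Matrix (Fin m) (Fin m) F) :
    sgS r r' (blk x u X, Fin.cons y y', ξ) =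
      (blk x (u ᵥ* hS r r' (-(y' r - y' r'))) (sgm r r' (X, y')).1,
        Fin.cons y (sgm r r' (X, y')).2, ξ ᵥ* hS r r' (-(y' r - y' r'))) := by
  refine Prod.ext ?_ (Prod.ext (cns_swap r r' y y') rfl)
  simp [sgS, sgm, hS_succ, blk_mul]

lemma vec_hS {r r' : Fin m} (h : r ≠ r') (S : F) (u : Fin m → F) (a : Fin m) :
    u a = (u ᵥ* hS r r' (-S)) a + if r = a then (u ᵥ* hS r r' (-S)) r' * S else 0 := by
  have e : ∀ b, (u ᵥ* hS r r' (-S)) b = u b + if r = b then u r' * -S else 0 := fun b => by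
    rw [hS, vecMul_add, vecMul_one]
    by_cases e : r = b <;> simp [vecMul, dotProduct, single_apply, e]
  rw [e, e, if_neg h]
  split_ifs <;> ring

/-- The positions above the diagonal: the lower block and the first row. -/
noncomputable def eU (m : ℕ) : UpN m ⊕ Fin m ≃ UpN (m + 1) :=
  Equiv.ofBijective (Sum.elim
    (fun z => ⟨(z.1.1.succ, z.1.2.succ), Nat.succ_lt_succ z.2⟩) fun a => ⟨(0, a.succ), a.succ_pos⟩)
    ⟨by
      rintro (⟨⟨a, b⟩, h⟩ | a) (⟨⟨a', b'⟩, h'⟩ | a') e <;>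
        simp_all [Fin.succ_ne_zero, (Fin.succ_ne_zero _).symm], by
      rintro ⟨⟨a, b⟩, h⟩
      cases b using Fin.cases with
      | zero => exact absurd h (Nat.not_lt_zero _)
      | succ b =>
        cases a using Fin.cases with
        | zero => exact ⟨.inr b, rfl⟩
        | succ a => exact ⟨.inl ⟨(a, b), Nat.lt_of_succ_lt_succ h⟩, rfl⟩⟩

lemma up_blk (x : Fin (m + 1) → F) (U : UpN (m + 1) → F) :
    diagonal x + upm Fin.val U = blk (x 0) (fun a => U (eU m (.inr a)))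
      (diagonal (fun a => x a.succ) + upm Fin.val fun z => U (eU m (.inl z))) := by
  ext i j
  cases i using Fin.cases <;> cases j using Fin.cases <;>
    simp [blk, upm, eU, diagonal_apply, Fin.succ_ne_zero, (Fin.succ_ne_zero _).symm]

lemma up_map (α : F →+* F') (x : Fin m → F) (U : UpN m → F) :
    (diagonal x + upm Fin.val U).map α =
      diagonal (fun a => α (x a)) + upm Fin.val fun z => α (U z) := by
  ext i j
  simp [upm, diagonal_apply, apply_ite α, apply_dite α]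

end Mat

variable {K : Type} [Field K] {p : ℕ}

lemma gl {L M : Fld K} (α : L →ₐ[K] M) {κ : Type} (T : κ → M) (a : L) : α a ∈ gen α T :=
  IntermediateField.subset_adjoin _ _ (.inl ⟨a, rfl⟩)

lemma gr {L M : Fld K} (α : L →ₐ[K] M) {κ : Type} (T : κ → M) (a : κ) : T a ∈ gen α T :=
  IntermediateField.subset_adjoin _ _ (.inr ⟨a, rfl⟩)

lemma split [FA1 K] {j : ℕ} {L M : Fld K} {α : L →ₐ[K] M} {κ κ₁ κ₂ : Type} [Finite κ] [Finite κ₁]
    [Finite κ₂] {T : κ → M} (h : Free j α T) (e : κ₁ ⊕ κ₂ ≃ κ) :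
    ∃ (M₁ : Fld K) (α₁ : L →ₐ[K] M₁) (β : M₁ →ₐ[K] M) (T₁ : κ₁ → M₁), β.comp α₁ = α ∧
      (∀ i, β (T₁ i) = T (e (.inl i))) ∧ Free j α₁ T₁ ∧
      Free (j + Nat.card κ₁) β fun i => T (e (.inr i)) := by
  have h' : Free j α fun i => T (e i) := FA1.of_gen h (Nat.card_congr e) fun i => by
    simpa using gr α (fun i => T (e i)) (e.symm i)
  obtain ⟨M₁, α₁, β, T₁, e1, e2, f1, f2⟩ := FA1.split h' fun i => i.isLeft
  have c1 : Nat.card κ₁ = Nat.card {i : κ₁ ⊕ κ₂ // i.isLeft} :=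
    Nat.card_congr Equiv.sumIsLeft.symm
  have c2 : Nat.card κ₂ = Nat.card {i : κ₁ ⊕ κ₂ // ¬ i.isLeft} :=
    Nat.card_congr (Equiv.sumIsRight.symm.trans (Equiv.subtypeEquivRight fun i => by simp))
  refine ⟨M₁, α₁, β, fun i => T₁ ⟨.inl i, rfl⟩, e1, fun i => e2 _, FA1.of_gen f1 c1 ?_,
    c1 ▸ FA1.of_gen f2 c2 ?_⟩
  · rintro ⟨a | a, ha⟩
    · exact gr α₁ (fun i => T₁ ⟨.inl i, rfl⟩) a
    · cases ha
  · rintro ⟨a | a, ha⟩
    · exact absurd rfl ha
    · exact gr β (fun i => T (e (.inr i))) a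

lemma pull [V1 K p] {c c' d : Cd} {E : WD K c} {E' : WD K c'} {W : ASp K d}
    {f : ∀ L : Fld K, c'.X L → c.X L} (h : WEq E' E f) (g : ∀ L : Fld K, c.X L → c'.X L)
    (hg : Mp E.S E'.S g) (e : ∀ L x, g L (f L x) = x) {j : ℕ} (Φ : ANF p j E W) :
    ∃ Φ' : ANF p j E' W, ∀ L x v y w, Φ'.e L x v y w = Φ.e L (f L x) v y w := by
  obtain ⟨Φ', h1⟩ := V1.pull h (Pro.of_left hg h.toMp fun L x _ => e L x) Φ
  refine ⟨Φ', fun L x v y w => ?_⟩
  by_cases m : E'.S.mem L x
  · exact h1 L x v y w m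
  · rw [of_not_not fun h0 => m (V1.mem Φ' h0).2.1,
      of_not_not fun h0 => m (e L x ▸ hg.mem L _ (V1.mem Φ h0).2.1)]

end SI2a

open SI2a

variable {K : Type} [Field K] [Base K] {p : ℕ} [Fact p.Prime] [CharP K p] [FW0 K] [FWp K p]

theorem SI2_thm (_h2 : (2 : K) ≠ 0) [V1 K p] [V2 K p] [V3 K p] [SB K] [SI1 K p] : SI2 K p where
  inv {T cc d C W m i j} Θ Ψ ε hi hB hC r r' hr := by
    obtain ⟨h1, h2⟩ := SB.sgs T hr
    have h3 : WEq (C.prod (T.Si m)) (C.prod (T.Si m)) fun _ z => (z.1, sgS r r' z.2) :=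
      ⟨⟨⟨fun _ _ R _ _ m m' e => ⟨e.1, h1.reg R m.2 m'.2 e.2⟩, fun L z m => ⟨m.1, trivial⟩⟩,
        fun _ _ _ => rfl⟩, fun L z m => congrArg (C.g L z.1 * ·) (h1.gg L z.2 m.2)⟩
    obtain ⟨Ψ', h4⟩ := pull h3 _ h3.toMp (fun L z => Prod.ext rfl (h2 L z.2).1) Ψ
    obtain ⟨Δ, h5⟩ := V1.comb 1 (-1) Ψ' Ψ
    have h6 := SI1.uniq Δ fun j' L M α U c x y X y' v s w hj hU => by
      obtain rfl : j' = j := by omega
      have hne : r ≠ r' := by rintro rfl; omega
      set h := hS r r' (-(α (y' r) - α (y' r'))) with hh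
      set U' : Fin m ⊕ Fin m → M :=
        Sum.elim ((fun a => U (.inl a)) ᵥ* h) ((fun a => U (.inr a)) ᵥ* h) with hU'
      have f1 : Free j' α U' := FA1.of_gen hU rfl fun a => by
        have g1 := sub_mem (gl α U' (y' r)) (gl α U' (y' r'))
        rcases a with a | a
        · rw [vec_hS hne (α (y' r) - α (y' r')) (fun a => U (.inl a)) a]
          refine add_mem (gr α U' (.inl a)) ?_
          split_ifs
          exacts [mul_mem (gr α U' (.inl r')) g1, zero_mem _]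
        · rw [vec_hS hne (α (y' r) - α (y' r')) (fun a => U (.inr a)) a]
          refine add_mem (gr α U' (.inr a)) ?_
          split_ifs
          exacts [mul_mem (gr α U' (.inr r')) g1, zero_mem _]
      have e1 := hB L M α U' c x y (sgm r r' (X, y')).1 (sgm r r' (X, y')).2 v s w f1
      have e2 : (sgm r r' (X, y')).1.map α = (sgm r r' (X.map α, fun a => α (y' a))).1 := by
        have := fun S => hS_map (α : L →+* M) r r' S
        simp only [RingHom.coe_coe] at this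
        simp only [sgm, Matrix.map_mul, this, map_neg, map_sub]
      rw [e2, show Θ.e L ((c, x, y), (sgm r r' (X, y')).1, (sgm r r' (X, y')).2) v s w = _ from
        hC r r' hr L (c, x, y) (X, y') v s w, ← hB L M α U c x y X y' v s w hU] at e1
      rw [h5, h4, ← e1]
      dsimp only
      rw [sgS_blk, one_mul, neg_one_mul]
      exact add_neg_cancel _
    intro L c z v s w
    have := h6 L (c, z) v s w
    rw [h5, h4] at this
    linear_combination this
  spl {T cc d C W m j} Φ := by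
    have h1 : WEq ((C.prod T.T1).prod (T.Tn m)) (C.prod (T.Tn (m + 1)))
        fun _ z => (z.1.1, Fin.cons z.1.2.1 z.2.1, Fin.cons z.1.2.2 z.2.2) :=
      ⟨⟨⟨fun _ _ R _ _ _ _ e => ⟨e.1.1, Fin.cases e.1.2.1 e.2.1, Fin.cases e.1.2.2 e.2.2⟩,
        fun L z m => ⟨m.1.1, trivial⟩⟩, fun L z _ => (add_zero _).symm⟩, fun L z _ => by
          simp [WD.prod, TD.Tn, TD.T1, mkW, Fin.prod_univ_succ, mul_assoc]⟩
    obtain ⟨Φ', h2⟩ := pull h1 (fun _ z => ((z.1, z.2.1 0, z.2.2 0), Fin.tail z.2.1,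
      Fin.tail z.2.2)) ⟨fun _ _ R _ _ _ _ e => ⟨⟨e.1, e.2.1 0, e.2.2 0⟩, fun i => e.2.1 _,
        fun i => e.2.2 _⟩, fun L z m => ⟨⟨m.1, trivial⟩, trivial⟩⟩ (fun _ _ => rfl) Φ
    refine ⟨Φ', fun hA r r' hr L c x y v s w => ?_,
      fun {i i'} Θ Ψ ε ε' hi hN hB L M α U c x y v s w hU => ?_⟩
    · rw [h2, h2]
      dsimp only
      rw [← cns_swap, ← cns_swap]
      exact hA _ _ (fun e => hr (Fin.succ_injective _ e)) L c.1 _ _ v s w
    · obtain ⟨M₁, α₁, β, T₁, rfl, e2, f1, f2⟩ := split hU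
        ((Equiv.sumAssoc _ _ _).symm.trans ((eU m).sumCongr (Equiv.refl _)))
      subst hi
      have e3 := hN L M₁ α₁ T₁ (c, x 0, y 0) (Fin.tail x) (Fin.tail y) v s w f1
      have e4 := hB M₁ M β _ (cc.map α₁ c) (α₁ (x 0)) (α₁ (y 0))
        (diagonal (fun a => α₁ (Fin.tail x a)) + upm Fin.val T₁) (fun a => α₁ (Fin.tail y a))
        (α₁ v) (α₁ s) (d.map α₁ w) f2
      rw [h2] at e3
      dsimp only at e3
      rw [Fin.cons_self_tail, Fin.cons_self_tail] at e3
      have e5 := up_map (β : M₁ →+* M) (fun a => α₁ (Fin.tail x a)) T₁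
      simp only [RingHom.coe_coe, e2] at e5
      rw [cc.map_map, d.map_map, e5] at e4
      rw [mul_assoc, ← e3, up_blk, ← Fin.cons_self_tail fun a => β.comp α₁ (y a)]
      exact e4
  card m := by
    rw [← Nat.card_congr (eU m), Nat.card_sum, Nat.card_eq_fintype_card (α := Fin m),
      Fintype.card_fin]
  one {T cc d C W j} Φ := by
    have h1 : WEq (C.prod (T.Ct 1)) (C.prod (T.Tn 1)) fun _ z => (z.1, fun i => z.2.1 i i, z.2.2) :=
      ⟨⟨⟨fun _ _ R _ _ _ _ e => ⟨e.1, fun i => e.2.1 i i, e.2.2⟩, fun L z m => ⟨m.1, trivial⟩⟩,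
        fun _ _ _ => rfl⟩, fun L z _ => congrArg (C.g L z.1 * ·) (by
          simp [TD.Tn, TD.Ct, mkW, TD.Om, TD.om1, TD.fm, TD.dm, bid, mul_apply, -algebraMap_smul])⟩
    obtain ⟨Θ, h2⟩ := pull h1 (fun _ z => (z.1, diagonal z.2.1, z.2.2))
      ⟨fun _ _ R _ _ _ _ e => ⟨e.1, Rel.mdiag e.2.1, e.2.2⟩, fun L z m => ⟨m.1, trivial⟩⟩
      (fun L z => Prod.ext rfl (Prod.ext (by
        ext i j
        rw [Subsingleton.elim j i]
        exact diagonal_apply_eq _ _) rfl)) Φ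
    refine ⟨Θ, fun L M α U c x y v s w hU => ?_⟩
    have : IsEmpty (UpN 1) := ⟨fun z => by have := z.2; omega⟩
    have h3 := (V1.map Φ α (c, x, y) v s w hU.gL (by simpa using hU.gM)).1
    rw [deg_of_surj (FA1.zero.1 hU).2, Nat.cast_one] at h3
    rw [h2, ← h3]
    simp [upm]

end Pool.Agent.Lib.MP_557161_ag.HG.TW
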