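import Pool.Agent.Lib.MP_557161_ag.TW.SS

/-!
Vanishing on the locus where the first block of size two is scalar.
-/

namespace Pool.Agent.Lib.MP_557161_ag.HG.TW

open Pool.Agent.Lib.MP_557161_ag.DL Matrix SSa

namespace SI3b

variable {K : Type} [Field K] {cc d : Cd} {m : ℕ}

lemma hr : (1 : Fin (m + 2)).1 = (0 : Fin (m + 2)).1 + 1 := by simp

lemma tri_siY {F : Type} [Field F] (y : Fin (m + 1) → F) (ξ : Fin m → F) (a b : Fin (m + 1))
    (l : b < a) : siY y ξ a b = 0 := by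
  rw [siY, of_apply, if_neg (l.trans_le' (Fin.zero_le _)).ne']
  exact tri_bid y a b l

lemma dg_siY {F : Type} [Field F] (y : Fin (m + 1) → F) (ξ : Fin m → F) (a : Fin (m + 1)) :
    siY y ξ a a = y a := by
  rw [siY, of_apply]
  split_ifs with h
  · subst h; rfl
  · simp [bid]

lemma bl_siY {F : Type} [Field F] (y : Fin (m + 2) → F) (ξ : Fin (m + 1) → F) :
    bl 0 1 (siY y ξ) = !![y 0, ξ 0; 0, y 1] := by
  rw [bl, dg_siY, dg_siY, tri_siY y ξ 1 0 (by simp)]
  rfl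

/-- The distinguished position. -/
def s₀ (m : ℕ) : UpN (m + 2) := ⟨(0, 1), by simp⟩

/-- The remaining variables. -/
abbrev Ka (m : ℕ) : Type :=
  {a : UpN (m + 2) ⊕ Fin (m + 1) // a ≠ .inl (s₀ m) ∧ a ≠ .inr 0}

open Classical in
/-- All variables. -/
noncomputable def mg {F : Type} (t : Ka m → F) (u : Fin 2 → F) :
    UpN (m + 2) ⊕ Fin (m + 1) → F :=
  fun a => if h : a = .inl (s₀ m) then u 0 else if h' : a = .inr 0 then u 1 else t ⟨a, h, h'⟩

lemma mg0 {F : Type} (t : Ka m → F) (u : Fin 2 → F) : mg t u (.inl (s₀ m)) = u 0 := dif_pos rfl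

lemma mg1 {F : Type} (t : Ka m → F) (u : Fin 2 → F) : mg t u (.inr 0) = u 1 := by
  rw [mg, dif_neg (by simp), dif_pos rfl]

lemma mg2 {F : Type} (t : Ka m → F) (u : Fin 2 → F) (a : Ka m) : mg t u a.1 = t a := by
  rw [mg, dif_neg a.2.1, dif_neg a.2.2]

lemma rel_mg {M L : Fld K} {R : Rel M L} {t : Ka m → M} {t' : Ka m → L} {u : Fin 2 → M}
    {u' : Fin 2 → L} (h : ∀ a, R.r (t a) (t' a)) (h' : ∀ a, R.r (u a) (u' a)) (a) :
    R.r (mg t u a) (mg t' u' a) := by
  unfold mg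
  split_ifs
  exacts [h' 0, h' 1, h _]

lemma card_ka : Nat.card (Ka m) + Nat.card (Fin 2) = Nat.card (UpN (m + 2)) + (m + 1) := by
  classical
  have e1 : Nat.card (UpN (m + 2) ⊕ Fin (m + 1)) = Nat.card (UpN (m + 2)) + (m + 1) := by
    rw [Nat.card_sum, Nat.card_fin]
  rw [← e1, ← Nat.card_sum]
  refine Nat.card_congr (Equiv.ofBijective
    (Sum.elim Subtype.val fun k => if k = 0 then .inl (s₀ m) else .inr 0) ⟨?_, fun a => ?_⟩)
  · rintro (a | a) (b | b) h
    · exact congrArg _ (Subtype.ext h)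
    · simp only [Sum.elim_inl, Sum.elim_inr] at h
      split_ifs at h
      exacts [(a.2.1 h).elim, (a.2.2 h).elim]
    · simp only [Sum.elim_inl, Sum.elim_inr] at h
      split_ifs at h
      exacts [(b.2.1 h.symm).elim, (b.2.2 h.symm).elim]
    · fin_cases a <;> fin_cases b <;> simp at h ⊢
  · by_cases h : a = .inl (s₀ m)
    · exact ⟨.inr 0, by simp [h]⟩
    · by_cases h' : a = .inr 0
      · exact ⟨.inr 1, by simp [h']⟩
      · exact ⟨.inl ⟨a, h, h'⟩, rfl⟩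

lemma rel_du {n : ℕ} {M L : Fld K} {R : Rel M L} {x : Fin n → M} {x' : Fin n → L} {U : UpN n → M}
    {U' : UpN n → L} (h : ∀ a, R.r (x a) (x' a)) (h' : ∀ a, R.r (U a) (U' a)) :
    R.m' (diagonal x + upm Fin.val U) (diagonal x' + upm Fin.val U') :=
  Rel.madd (Rel.mdiag h) fun i j => by
    simp only [upm, of_apply]
    split_ifs
    exacts [h' _, R.zero]

variable (T : TD K) (C : WD K cc)

/-- The context. -/
noncomputable def Cx (m : ℕ) :=
  (C.prod (T.Si (m + 1))).cl (fun _ z => z0 0 1 z.2.1 = z.2.1 ∧ z.2.2.1 0 = z.2.2.1 1 ∧ z.2.2.2 0 = 0)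
    fun _ _ _ _ _ _ _ e h => ⟨Rel.meq (rel_z0 e.2.1) e.2.1 h.1, Rel.eq (e.2.2.1 0) (e.2.2.1 1) h.2.1,
      Rel.eq_zero (e.2.2.2 0) h.2.2⟩

/-- The space of blocks over the context. -/
noncomputable def Qx (m : ℕ) :=
  T.Qa (Cx T C m) (fun _ z => z.2.2.1 0) fun _ _ _ _ _ _ _ e => e.2.2.1 0

lemma weq : WEq (Qx T C m) (C.prod (T.Si (m + 1)))
    fun _ z => (z.1.1.1, put 0 1 z.1.1.2.1 z.2, z.1.1.2.2.1, Function.update z.1.1.2.2.2 0 z.1.2) where
  reg _ _ R _ _ _ _ e := ⟨e.1.1.1, rel_put e.1.1.2.1 e.2, e.1.1.2.2.1,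
    Rel.update (q := fun _ => R.r) e.1.1.2.2.2 0 e.1.2⟩
  mem _ _ m := ⟨m.1.1.1.1, trivial⟩
  ph L z _ := by
    change C.φ L _ + 0 = C.φ L _ + 0 + 0 + 0
    simp only [add_zero]
  gg L z h := by
    obtain ⟨h1, h2, -⟩ := h.1.1.2
    change C.g L z.1.1.1 * T.Om L (put 0 1 z.1.1.2.1 z.2)
        (siY z.1.1.2.2.1 (Function.update z.1.1.2.2.2 0 z.1.2)) =
      C.g L z.1.1.1 * T.Om L z.1.1.2.1 (siY z.1.1.2.2.1 z.1.1.2.2.2) * 1 *
        (T.fm L z.2 * (1 - !![z.1.1.2.2.1 0, z.1.2; 0, z.1.1.2.2.1 0] * z.2).det)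
    have e1 : ∀ ξ, (1 - siY z.1.1.2.2.1 ξ * z.1.1.2.1).det =
        ∏ i ∈ (Finset.univ.erase 0).erase 1, (1 - z.1.1.2.2.1 i * z.1.1.2.1 i i) := fun ξ => by
      rw [key hr (tri_siY _ _) (at_z0 h1), bl_z0 h1, mul_zero, sub_zero, det_one, mul_one]
      simp only [dg_siY]
    have e2 : ∀ ξ, T.dm L (siY z.1.1.2.2.1 ξ) =
        ∏ j, ∏ i, (z.1.1.2.2.1 i - algebraMap K L (T.b j)) := fun ξ =>
      Finset.prod_congr rfl fun j _ => by
        rw [det_of_isUpperTriangular]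
        · simp [dg_siY, Algebra.algebraMap_eq_smul_one]
        · intro a b l
          have l : b < a := l
          simp [tri_siY _ _ _ _ l, l.ne']
    simp only [TD.Om, TD.fm, key3 hr _ h1, key2 hr (tri_siY _ _) h1, bl_siY, Finset.prod_mul_distrib,
      e1, e2, Function.update_self, ← h2]
    ring

lemma pro : Pro (Qx T C m).S (C.prod (T.Si (m + 1))).S fun _ z =>
    (z.1.1.1, put 0 1 z.1.1.2.1 z.2, z.1.1.2.2.1, Function.update z.1.1.2.2.2 0 z.1.2) :=
  fun M O x z _ hx hz h => by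
    have h2 : z.2.2.1 0 = z.2.2.1 1 := Rel.eq (h.2.2.1 0) (h.2.2.1 1) hx.1.1.2.2.1
    refine ⟨(((z.1, z0 0 1 z.2.1, z.2.2.1, Function.update z.2.2.2 0 0), z.2.2.2 0), bl 0 1 z.2.1),
      ⟨⟨⟨⟨hz.1, trivial⟩, z0_z0, h2, Function.update_self (0 : Fin (m + 1)) _ z.2.2.2⟩, trivial⟩, trivial⟩,
      ⟨⟨h.1, ?_, h.2.2.1, fun l => ?_⟩, ?_⟩, ?_⟩
    · have := rel_z0 (r := 0) (r' := 1) h.2.1
      rwa [z0_put, hx.1.1.2.1] at this
    · by_cases e : l = 0
      · subst e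
        simp only [Function.update_self]
        rw [hx.1.1.2.2.2]
        exact (Rel.ofPl O).zero
      · have := h.2.2.2 l
        simp only [Function.update_of_ne e] at this ⊢
        exact this
    · have := h.2.2.2 0
      simp only [Function.update_self] at this
      exact this
    · have := rel_bl (r := 0) (r' := 1) h.2.1
      rwa [bl_put hr] at this

/-- The first product. -/
noncomputable abbrev E1 (m : ℕ) := (C.prod (T.Tn (m + 2))).prod (Tor K (Ka m) fun _ => False)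

lemma weq2 [hB : SB K] : WEq ((E1 T C m).prod (Tor K (Fin 2) fun _ => False))
    (C.prod (T.Si (m + 1))) fun _ z => (z.1.1.1,
      diagonal z.1.1.2.1 + upm Fin.val (fun a => mg z.1.2 z.2 (.inl a)), z.1.1.2.2,
      fun l => mg z.1.2 z.2 (.inr l)) where
  reg _ _ _ _ _ _ _ e := ⟨e.1.1.1, rel_du e.1.1.2.1 fun _ => rel_mg e.1.2 e.2 _, e.1.1.2.2,
    fun l => rel_mg e.1.2 e.2 (.inr l)⟩
  mem _ _ m := ⟨m.1.1.1, trivial⟩
  ph L z _ := by
    change C.φ L _ + 0 = C.φ L _ + 0 + 0 + 0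
    simp only [add_zero]
  gg L z _ := by
    change C.g L z.1.1.1 * T.Om L _ (siY _ _) =
      C.g L z.1.1.1 * (∏ i, T.om1 L (z.1.1.2.1 i) (z.1.1.2.2 i)) * 1 * 1
    rw [hB.tri T L _ _ (fun a b l => tri_du _ _ _ _ l) fun a b l => tri_siY _ _ _ _ l]
    simp only [dg_du, dg_siY, mul_one]

lemma pro2 [SB K] : Pro ((E1 T C m).prod (Tor K (Fin 2) fun _ => False)).S
    (C.prod (T.Si (m + 1))).S fun _ z => (z.1.1.1,
      diagonal z.1.1.2.1 + upm Fin.val (fun a => mg z.1.2 z.2 (.inl a)), z.1.1.2.2,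
      fun l => mg z.1.2 z.2 (.inr l)) :=
  Pro.of_left (g := fun _ z => (((z.1, fun a => z.2.1 a a, z.2.2.1),
      fun a => a.1.elim (fun b => z.2.1 b.1.1 b.1.2) z.2.2.2), ![z.2.1 0 1, z.2.2.2 0]))
    ⟨fun _ _ _ _ _ _ _ e => ⟨⟨⟨e.1, fun a => e.2.1 a a, e.2.2.1⟩, by
        rintro ⟨a | a, _⟩
        exacts [e.2.1 _ _, e.2.2.2 _]⟩, fun k => by
        fin_cases k
        exacts [e.2.1 0 1, e.2.2.2 0]⟩,
      fun _ _ m => ⟨⟨⟨m.1, trivial⟩, trivial, fun _ h => h.elim⟩, trivial, fun _ h => h.elim⟩⟩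
    (weq2 T C).toMp fun L z _ => by
    refine Prod.ext (Prod.ext (Prod.ext rfl (Prod.ext (funext fun a => dg_du _ _ a) rfl))
      (funext ?_)) (funext fun k => ?_)
    · rintro ⟨a | a, h⟩
      · exact (up_du _ _ _ _ a.2).trans (mg2 _ _ ⟨.inl a, h⟩)
      · exact mg2 _ _ ⟨.inr a, h⟩
    · fin_cases k
      · exact (up_du _ _ _ _ (s₀ m).2).trans (mg0 _ _)
      · exact mg1 z.1.2 z.2

lemma weq3 : WEq (E1 T C m) (E1 T C m) fun _ z => ((z.1.1,
    fun a => z.1.2.1 (Equiv.swap 0 1 a), fun a => z.1.2.2 (Equiv.swap 0 1 a)), z.2) where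
  reg _ _ _ _ _ _ _ e := ⟨⟨e.1.1, fun _ => e.1.2.1 _, fun _ => e.1.2.2 _⟩, e.2⟩
  mem _ _ m := ⟨⟨m.1.1, trivial⟩, m.2⟩
  ph _ _ _ := rfl
  gg L z _ := by
    change C.g L z.1.1 * (∏ i, T.om1 L (z.1.2.1 (Equiv.swap 0 1 i)) (z.1.2.2 (Equiv.swap 0 1 i))) * 1 =
      C.g L z.1.1 * (∏ i, T.om1 L (z.1.2.1 i) (z.1.2.2 i)) * 1
    rw [Equiv.prod_comp (Equiv.swap 0 1) fun i => T.om1 L (z.1.2.1 i) (z.1.2.2 i)]

variable {T C} {p : ℕ} {W : ASp K d}

lemma gam [h0 : FA1 K] [h1 : V1 K p] [h2 : V2 K p] [SB K] {j : ℕ}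
    (Φ : ANF p j (C.prod (T.Tn (m + 2))) W)
    (Ψ : ANF p (j + Nat.card (Ka m) + Nat.card (Fin 2)) (C.prod (T.Si (m + 1))) W) (ε : ℂ)
    (ha : Alt Φ) (hS : RelS Φ Ψ ε) {L M : Fld K} {α : L →ₐ[K] M} {U : Fin 2 → M} (c : cc.X L)
    (x y : Fin (m + 2) → L) (t : Ka m → L) (v s : L) (w : d.X L)
    (f : Free (j + Nat.card (Ka m)) α U) (hc : C.S.mem L c) :
    Ψ.e M (cc.map α c, diagonal (fun a => α (x a)) +
        upm Fin.val (fun a => mg (fun b => α (t b)) U (.inl a)), fun a => α (y a),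
        fun l => mg (fun b => α (t b)) U (.inr l)) (α v) (α s) (d.map α w) +
      Ψ.e M (cc.map α c, diagonal (fun a => α (x (Equiv.swap 0 1 a))) +
        upm Fin.val (fun a => mg (fun b => α (t b)) U (.inl a)), fun a => α (y (Equiv.swap 0 1 a)),
        fun l => mg (fun b => α (t b)) U (.inr l)) (α v) (α s) (d.map α w) = 0 := by
  obtain ⟨G, hG⟩ := h1.pull (weq2 T C) (pro2 T C) Ψ
  obtain ⟨Γ, hΓ⟩ := h2.down _ G
  obtain ⟨Γ', hΓ'⟩ := h1.pull (weq3 T C) (Pro.of_left (weq3 T C).toMp (weq3 T C).toMp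
    fun L z _ => by simp only [Equiv.swap_apply_self]) Γ
  obtain ⟨D, hD⟩ := h1.comb 1 1 Γ Γ'
  have val : ∀ {L M : Fld K} {α : L →ₐ[K] M} {U : Fin 2 → M} (c : cc.X L)
      (x y : Fin (m + 2) → L) (t : Ka m → L) (v s : L) (w : d.X L),
      Free (j + Nat.card (Ka m)) α U → C.S.mem L c → Γ.e L ((c, x, y), t) v s w =
      Ψ.e M (cc.map α c, diagonal (fun a => α (x a)) +
        upm Fin.val (fun a => mg (fun b => α (t b)) U (.inl a)), fun a => α (y a),
        fun l => mg (fun b => α (t b)) U (.inr l)) (α v) (α s) (d.map α w) :=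
    fun {L M α U} c x y t v s w f hc => by
      rw [← hΓ L M α U ((c, x, y), t) v s w f]
      exact hG M (((_, _, _), _), _) _ _ _
        ⟨⟨⟨(C.S.map_iff α c).2 hc, trivial⟩, trivial, fun _ h => h.elim⟩, trivial, fun _ h => h.elim⟩
  have gen0 : ∀ {L M : Fld K} {α : L →ₐ[K] M} {t : Ka m → M} (c : cc.X L)
      (x y : Fin (m + 2) → L) (v s : L) (w : d.X L), Free j α t → C.S.mem L c →
      Γ.e M ((cc.map α c, fun a => α (x a), fun a => α (y a)), t) (α v) (α s) (d.map α w) =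
        ε * Φ.e L (c, x, y) v s w := fun {L M α t} c x y v s w f hc => by
    have f2 := h0.fr_free (Fin 2) f.gM
    have f3 : Free j ((frα M (Fin 2)).comp α) (mg (fun b => frα M (Fin 2) (t b)) (frT M (Fin 2))) :=
      h0.of_gen (h0.comp f f2) (by rw [Nat.card_sum, Nat.card_sum, card_ka, Nat.card_fin]) (by
        rintro (a | a)
        · exact IntermediateField.subset_adjoin _ _ (.inr ⟨a.1, mg2 _ _ a⟩)
        · fin_cases a
          exacts [IntermediateField.subset_adjoin _ _ (.inr ⟨_, mg0 _ _⟩),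
            IntermediateField.subset_adjoin _ _ (.inr ⟨_, mg1 _ _⟩)])
    rw [val _ _ _ _ _ _ _ f2 ((C.S.map_iff α c).2 hc), ← hS L _ _ _ c x y v s w f3, Cd.map_map,
      Cd.map_map]
    rfl
  have z := h2.up (fun _ : Ka m => False) D (fun _ _ => True) (fun _ _ _ _ _ _ _ _ _ => trivial)
    (fun j' L M α t x v s w hj f hx _ => by
      obtain rfl : j = j' := by omega
      rw [hD, hΓ' M (_, _) _ _ _ ⟨((C.prod (T.Tn (m + 2))).S.map_iff α x).2 hx, trivial,
        fun _ h => h.elim⟩]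
      have e1 := gen0 x.1 x.2.1 x.2.2 v s w f hx.1
      have e2 := gen0 x.1 (fun a => x.2.1 (Equiv.swap 0 1 a)) (fun a => x.2.2 (Equiv.swap 0 1 a))
        v s w f hx.1
      rw [ha 0 1 (ne_of hr)] at e2
      have := congrArg₂ (· + ·) e1 e2
      simp only [mul_neg, add_neg_cancel] at this
      rw [one_mul, one_mul]
      exact this) L (c, x, y) t v s w trivial
  rw [hD, hΓ' L (_, _) _ _ _ ⟨⟨hc, trivial⟩, trivial, fun _ h => h.elim⟩, one_mul, one_mul] at z
  rw [← val c x y t v s w f hc, ← val c _ _ t v s w f hc]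
  exact z

end SI3b

open SI3b in
theorem SI3b_thm {K : Type} [Field K] {p : ℕ} [FA1 K] [h1 : V1 K p] [V2 K p] [SB K] [hN : SN K p]
    [hA : SA K p] : SI3 K p where
  van {T cc d C W m i j} Φ Ψ ε hi ha hS := by
    obtain rfl : i = j + Nat.card (Ka m) + Nat.card (Fin 2) := by
      rw [hi, add_assoc, add_assoc, card_ka]
    refine hN.red Ψ fun L c X y ξ v s w hy hξ hX => ?_
    by_cases hc : C.S.mem L c
    swap
    · by_contra k
      exact hc (h1.mem Ψ k).2.1.1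
    obtain ⟨Ψ', h'⟩ := h1.pull (weq T C) (pro T C) Ψ
    have hAT : AT 0 1 X := fun a b l k => hX (by
      simp only [Fin.lt_def, Fin.ext_iff, Fin.val_zero, Fin.val_one] at l k ⊢
      omega)
    have := hA.van T (Cx T C m) _ _ Ψ' (fun j' L M α U c x₁ x₂ v s w hj f hm => by
      obtain rfl : j + Nat.card (Ka m) = j' := by
        rw [Nat.card_fin] at hj
        omega
      obtain ⟨c, X, y, ξ⟩ := c
      obtain ⟨⟨hc, -⟩, g1, g2, g3⟩ := hm
      have k : ∀ B, (Qx T C m).S.mem M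
          (((cc.map α c, X.map α, fun a => α (y a), fun a => α (ξ a)), U 1), B) := fun B =>
        ⟨⟨((Cx T C m).S.map_iff α (c, X, y, ξ)).2 ⟨⟨hc, trivial⟩, g1, g2, g3⟩, trivial⟩, trivial⟩
      let t : Ka m → L := fun a => a.1.elim (fun b => X b.1.1 b.1.2) ξ
      have e1 : ∀ x : Fin (m + 2) → L, (∀ a, a ≠ 0 → a ≠ 1 → x a = X a a) →
          put 0 1 (X.map α) !![α (x 0), U 0; 0, α (x 1)] = diagonal (fun a => α (x a)) +
            upm Fin.val fun a => mg (fun b => α (t b)) U (.inl a) := fun x hx => by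
        refine Eq.trans ?_ (put_eq hr fun a b k _ => tri_du _ _ _ _ k)
        congr 1
        · have : (z0 0 1 X).map α = z0 0 1 (X.map α) := by
            ext a b
            simp only [z0, map_apply, of_apply]
            split_ifs
            exacts [map_zero _, rfl]
          rw [← (show z0 0 1 X = X from g1), this]
          refine z0_eq hr (fun a b l k => ?_) fun a i i' => by rw [dg_du, map_apply, hx a i i']
          rw [up_du _ _ _ _ l]
          exact (mg2 (fun b => α (t b)) U ⟨.inl ⟨(a, b), l⟩, fun e =>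
            k (Prod.ext_iff.1 (congrArg Subtype.val (Sum.inl.inj e))), by simp⟩).symm
        · rw [bl, dg_du, dg_du, up_du _ _ _ _ (lt_of hr), tri_du _ _ _ _ (lt_of hr)]
          exact congrArg (fun q => !![α (x 0), q; 0, α (x 1)]) (mg0 _ _).symm
      have e2 : Function.update (fun a => α (ξ a)) 0 (U 1) =
          fun l => mg (fun b => α (t b)) U (.inr l) := funext fun l => by
        by_cases e : l = 0
        · rw [e, Function.update_self, mg1]
        · rw [Function.update_of_ne e]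
          exact (mg2 (fun b => α (t b)) U ⟨.inr l, by simp, by simpa using e⟩).symm
      let x : Fin (m + 2) → L := fun a => if a = 0 then x₁ else if a = 1 then x₂ else X a a
      have x0 : x 0 = x₁ := if_pos rfl
      have x1 : x 1 = x₂ := by simp [x]
      have x2 : ∀ a, a ≠ 0 → a ≠ 1 → x a = X a a := fun a i i' => by simp [x, i, i']
      have e3 := e1 x x2
      have e4 := e1 (fun a => x (Equiv.swap 0 1 a)) fun a i i' => by
        rw [Equiv.swap_apply_of_ne_of_ne i i', x2 a i i']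
      simp only [Equiv.swap_apply_left, Equiv.swap_apply_right, x0, x1] at e3 e4
      have := gam Φ Ψ ε ha hS c x y t v s w f hc
      simp only [Equiv.apply_swap_eq_self (show y 0 = y 1 from g2)] at this
      rw [← e3, ← e4, ← e2] at this
      exact (congrArg₂ (· + ·) (h' M _ _ _ _ (k _)) (h' M _ _ _ _ (k _))).trans this)
      L (c, z0 0 1 X, y, ξ) (bl 0 1 X) v s w
    rw [h' L (((c, z0 0 1 X, y, ξ), 0), bl 0 1 X) _ _ _
      ⟨⟨⟨⟨hc, trivial⟩, z0_z0, hy, hξ⟩, trivial⟩, trivial⟩] at this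
    simp only [put_eq hr hAT] at this
    rwa [← hξ, Function.update_eq_self] at this

end Pool.Agent.Lib.MP_557161_ag.HG.TW
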