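import Pool.Agent.Lib.MP_557161_ag.TW.StS
import Pool.Agent.Lib.MP_557161_ag.HG.MS

/-!
One step of induction: restriction to the cyclic locus.
-/

namespace Pool.Agent.Lib.MP_557161_ag.HG.TW

open Pool.Agent.Lib.MP_557161_ag.DL Matrix

namespace SI4a

section
variable {F : Type} [Field F] {k : ℕ}

lemma blk_mul (x x' : F) (u u' : Fin k → F) (X X' : Matrix (Fin k) (Fin k) F) :
    blk x u X * blk x' u' X' = blk (x * x') (x • u' + u ᵥ* X') (X * X') := by
  ext i j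
  cases i using Fin.cases <;> cases j using Fin.cases <;>
    simp [blk, mul_apply, Fin.sum_univ_succ, vecMul, dotProduct]

lemma blk_one : blk (1 : F) (0 : Fin k → F) 1 = 1 := by
  ext i j
  cases i using Fin.cases <;> cases j using Fin.cases <;>
    simp [blk, one_apply, (Fin.succ_ne_zero _).symm]

lemma blk_tri (x : F) (u : Fin k → F) : (blk x u 1).BlockTriangular Fin.val := by
  intro i j h
  cases i using Fin.cases
  · simp at h
  · cases j using Fin.cases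
    · rfl
    · exact one_apply_ne fun e => absurd (congrArg Fin.val e) (Nat.lt_of_succ_lt_succ h).ne'

lemma siY_eq (y : Fin (k + 1) → F) (ξ : Fin k → F) :
    siY y ξ = blk (y 0) ξ (bid fun i => y i.succ) := by
  ext i j
  cases i using Fin.cases <;> cases j using Fin.cases <;> simp [blk, siY, bid]

lemma bid_eq (y : Fin (k + 2) → F) : bid y = siY y (Pi.single 0 1) := by
  ext i j
  cases i using Fin.cases
  · cases j using Fin.cases
    · simp [siY, bid]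
    · rename_i j
      cases j using Fin.cases
      · rfl
      · simp [siY, bid, (Fin.succ_ne_zero _).symm]
  · simp [siY]

/-- The differences. -/
def dd (y : Fin (k + 1) → F) (j : Fin k) : F := y 0 - y j.succ

/-- The first row after conjugation. -/
def xi (d : Fin k → F) (s : Fin (k + 1) → F) (l : Fin k) : F := s l.castSucc - d l * s l.succ

/-- The weighted sum. -/
def rh (d ξ : Fin k → F) : F := ∑ l, ξ l * ∏ j ∈ Finset.univ.filter (· < l), d j

lemma rh_succ (d ξ : Fin (k + 1) → F) :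
    rh d ξ = ξ 0 + d 0 * rh (fun j => d j.succ) fun j => ξ j.succ := by
  simp only [rh, Finset.prod_filter, Fin.sum_univ_succ, Fin.prod_univ_succ, Finset.mul_sum]
  simp [mul_left_comm]

lemma rh_xi (d : Fin k → F) (s : Fin (k + 1) → F) :
    rh d (xi d s) = s 0 - (∏ j, d j) * s (Fin.last k) := by
  induction k with
  | zero => simp [rh]
  | succ k ih =>
    rw [rh_succ, show (fun j : Fin k => xi d s j.succ) = xi (fun j => d j.succ) fun j => s j.succ
      from rfl, ih, Fin.prod_univ_succ]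
    simp only [xi, Fin.castSucc_zero, Fin.succ_last]
    ring

lemma rh_add (d ξ ξ' : Fin k → F) : rh d (ξ + ξ') = rh d ξ + rh d ξ' := by
  simp [rh, add_mul, Finset.sum_add_distrib]

/-- The solution of the recursion. -/
def sI : ∀ {k : ℕ}, (Fin k → F) → (Fin k → F) → Fin (k + 1) → F
  | 0, _, _ => 0
  | _ + 1, d, ξ => Fin.cons (ξ 0 + d 0 * sI (fun j => d j.succ) (fun j => ξ j.succ) 0)
      (sI (fun j => d j.succ) fun j => ξ j.succ)

lemma sI_last (d ξ : Fin k → F) : sI d ξ (Fin.last k) = 0 := by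
  induction k with
  | zero => rfl
  | succ k ih => exact ih _ _

lemma xi_sI (d ξ : Fin k → F) : xi d (sI d ξ) = ξ := by
  induction k with
  | zero => exact Subsingleton.elim _ _
  | succ k ih =>
    ext l
    cases l using Fin.cases
    · simp [xi, sI]
    · exact congrFun (ih (fun j => d j.succ) fun j => ξ j.succ) _

lemma sI_xi (d : Fin k → F) (s : Fin (k + 1) → F) (h : s (Fin.last k) = 0) : sI d (xi d s) = s := by
  ext l
  induction l using Fin.reverseInduction with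
  | last => rw [sI_last, h]
  | cast l ih =>
    have := congrFun (xi_sI d (xi d s)) l
    rw [xi, ih] at this
    exact sub_left_inj.1 this

lemma sI_zero (d ξ : Fin k → F) : sI d ξ 0 = rh d ξ := by
  conv_rhs => rw [← xi_sI d ξ, rh_xi, sI_last, mul_zero, sub_zero]

/-- The conjugating matrix. -/
def bm (τ : F) (s : Fin (k + 1) → F) : Matrix (Fin (k + 1)) (Fin (k + 1)) F :=
  blk τ (fun l => s l.succ) 1

/-- Its inverse. -/
def bi (τ : F) (s : Fin (k + 1) → F) : Matrix (Fin (k + 1)) (Fin (k + 1)) F :=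
  blk τ⁻¹ (fun l => -(τ⁻¹ * s l.succ)) 1

lemma bi_bm {τ : F} (h : τ ≠ 0) (s : Fin (k + 1) → F) : bi τ s * bm τ s = 1 := by
  rw [bi, bm, blk_mul, inv_mul_cancel₀ h, Matrix.mul_one, vecMul_one, ← blk_one]
  congr 1
  ext l
  simp

lemma bm_bi {τ : F} (h : τ ≠ 0) (s : Fin (k + 1) → F) : bm τ s * bi τ s = 1 :=
  mul_eq_one_comm.1 (bi_bm h s)

lemma bi_one (s : Fin (k + 1) → F) : bi 1 s = bm 1 (-s) := by simp [bi, bm]

lemma bm_siY (τ : F) (s y : Fin (k + 2) → F) (ξ : Fin (k + 1) → F) : bm τ s * siY y ξ =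
    siY y (τ • ξ + xi (dd y) s - s 0 • Pi.single 0 1) * bm τ s := by
  rw [siY_eq, siY_eq, bm, blk_mul, blk_mul, mul_comm τ, Matrix.mul_one, Matrix.one_mul, vecMul_one]
  congr 1
  ext l
  have : ((fun l => s l.succ) ᵥ* bid fun i : Fin (k + 1) => y i.succ) l =
      s l.succ * y l.succ + (s l.castSucc - s 0 * (Pi.single 0 1 : Fin (k + 1) → F) l) := by
    have e : ∀ i, bid (fun i : Fin (k + 1) => y i.succ) i l =
        (if i = l then y i.succ else 0) + if i.1 + 1 = l.1 then 1 else 0 := fun i => by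
      by_cases h : i = l <;> simp [bid, h]
    simp only [vecMul, dotProduct, e, mul_add, Finset.sum_add_distrib, mul_ite, mul_zero, mul_one,
      Finset.sum_ite_eq', Finset.mem_univ, if_true, add_right_inj]
    cases l using Fin.cases with
    | zero => simp
    | succ l =>
      rw [Finset.sum_eq_single l.castSucc (fun i _ h => if_neg fun e => h (Fin.ext (by simpa using e)))
        (by simp)]
      simp
  simp only [Pi.add_apply, Pi.sub_apply, Pi.smul_apply, smul_eq_mul, this, xi, dd]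
  ring

lemma conj_siY {τ : F} (h : τ ≠ 0) (s y : Fin (k + 2) → F) (ξ : Fin (k + 1) → F) :
    bm τ s * siY y ξ * bi τ s = siY y (τ • ξ + xi (dd y) s - s 0 • Pi.single 0 1) := by
  rw [bm_siY, Matrix.mul_assoc, bm_bi h, Matrix.mul_one]

lemma conj_tri {τ : F} (h : τ ≠ 0) (s : Fin (k + 1) → F) {X : Matrix (Fin (k + 1)) (Fin (k + 1)) F}
    (t : X.BlockTriangular Fin.val) : (bm τ s * X * bi τ s).BlockTriangular Fin.val ∧
      ∀ i, (bm τ s * X * bi τ s) i i = X i i := by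
  have t1 : (bm τ s).BlockTriangular Fin.val := blk_tri _ _
  have t2 : (bi τ s).BlockTriangular Fin.val := blk_tri _ _
  refine ⟨(t1.mul t).mul t2, fun i => ?_⟩
  rw [ms_mul_diag Fin.val_injective (t1.mul t) t2, ms_mul_diag Fin.val_injective t1 t,
    mul_right_comm, ← ms_mul_diag Fin.val_injective t1 t2, bm_bi h, one_apply_eq, one_mul]

end

variable {K : Type} [Field K] {k : ℕ}

section
variable {M L : Fld K} {R : Rel M L}

lemma rel_dd {y : Fin (k + 1) → M} {y' : Fin (k + 1) → L} (h : ∀ i, R.r (y i) (y' i)) (j : Fin k) :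
    R.r (dd y j) (dd y' j) := Rel.sub (h _) (h _)

lemma rel_xi {d : Fin k → M} {d' : Fin k → L} {s : Fin (k + 1) → M} {s' : Fin (k + 1) → L}
    (h : ∀ i, R.r (d i) (d' i)) (h' : ∀ i, R.r (s i) (s' i)) (j : Fin k) :
    R.r (xi d s j) (xi d' s' j) := Rel.sub (h' _) (R.mul (h _) (h' _))

lemma rel_rh {d ξ : Fin k → M} {d' ξ' : Fin k → L} (h : ∀ i, R.r (d i) (d' i))
    (h' : ∀ i, R.r (ξ i) (ξ' i)) : R.r (rh d ξ) (rh d' ξ') :=
  Rel.sum _ fun _ _ => R.mul (h' _) (Rel.prod _ fun _ _ => h _)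

lemma rel_sI {d ξ : Fin k → M} {d' ξ' : Fin k → L} (h : ∀ i, R.r (d i) (d' i))
    (h' : ∀ i, R.r (ξ i) (ξ' i)) (j : Fin (k + 1)) : R.r (sI d ξ j) (sI d' ξ' j) := by
  induction k with
  | zero => exact R.zero
  | succ k ih =>
    cases j using Fin.cases
    exacts [R.add (h' 0) (R.mul (h 0) (ih (fun _ => h _) (fun _ => h' _) 0)),
      ih (fun _ => h _) (fun _ => h' _) _]

lemma rel_snoc {t : Fin k → M} {t' : Fin k → L} (h : ∀ i, R.r (t i) (t' i)) (j : Fin (k + 1)) :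
    R.r (Fin.snoc (α := fun _ => M) t 0 j) (Fin.snoc (α := fun _ => L) t' 0 j) := by
  cases j using Fin.lastCases
  · simpa using R.zero
  · simpa using h _

lemma rel_sgl {t : M} {t' : L} (h : R.r t t') (i j : Fin k) :
    R.r ((Pi.single i t : Fin k → M) j) ((Pi.single i t' : Fin k → L) j) := by
  simp only [Pi.single_apply]
  exact Rel.ite _ h R.zero

lemma rel_bm {τ : M} {τ' : L} {s : Fin (k + 1) → M} {s' : Fin (k + 1) → L} (h : R.r τ τ')
    (h' : ∀ i, R.r (s i) (s' i)) : R.m' (bm τ s) (bm τ' s') := rel_blk h (fun _ => h' _) Rel.mone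

lemma rel_bi {τ : M} {τ' : L} {s : Fin (k + 1) → M} {s' : Fin (k + 1) → L} (h : R.r τ τ')
    (h0 : τ' ≠ 0) (h' : ∀ i, R.r (s i) (s' i)) : R.m' (bi τ s) (bi τ' s') :=
  rel_blk (R.inv h h0) (fun _ => Rel.neg (R.mul (R.inv h h0) (h' _))) Rel.mone

end

variable {p : ℕ} {T : TD K} {cc d : Cd} {C : WD K cc} {W : ASp K d} {m i : ℕ} [SB K]

lemma van1 (Ψ : ANF p i (C.prod (T.Si (m + 1))) W) (h1 : InvS Ψ) (h2 : VanN Ψ) (L : Fld K) c v s w
    (j : Fin (m + 1)) : ∀ z : ((sq (m + 2)).prod ((Cd.vec (Fin (m + 2))).prod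
      (.vec (Fin (m + 1))))).X L, rhoS z.2.1 z.2.2 = 0 → z.2.1 0 = z.2.1 j.succ →
      Ψ.e L (c, z) v s w = 0 := by
  induction j using Fin.induction with
  | zero =>
    intro z h e
    refine h2 L c z.1 z.2.1 z.2.2 v s w e ?_
    have : rh (dd z.2.1) z.2.2 = 0 := h
    rwa [rh_succ, show dd z.2.1 0 = 0 from sub_eq_zero.2 e, zero_mul, add_zero] at this
  | succ j ih =>
    intro z h e
    have hr : (j.succ : Fin (m + 1)).1 = j.castSucc.1 + 1 := rfl
    rw [← h1 _ _ hr]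
    refine ih _ (((SB.sgs T hr).2 L z).2.trans h) ?_
    change z.2.1 (Equiv.swap _ _ 0) = z.2.1 (Equiv.swap _ _ _)
    rw [Equiv.swap_apply_left,
      Equiv.swap_apply_of_ne_of_ne (Fin.succ_ne_zero _).symm (Fin.succ_ne_zero _).symm, e]

lemma van2 [V2 K p] (Ψ : ANF p i (C.prod (T.Si (m + 1))) W) (h1 : InvS Ψ) (h2 : VanN Ψ) :
    ∀ L x v s w, rhoS x.2.2.1 x.2.2.2 = 0 → Ψ.e L x v s w = 0 := by
  let l := Fin.last (m + 1)
  have l0 : ∀ {F : Type} [Field F] (t : F), (Pi.single l t : Fin (m + 2) → F) 0 = 0 :=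
    fun t => Pi.single_eq_of_ne (Fin.last_pos.ne) t
  refine V2.hyp (E := C.prod (T.Si (m + 1)))
    (fun _ x => (x.2.1, bm 1 (Pi.single l x.1) * x.2.2.1 * bi 1 (Pi.single l x.1), x.2.2.2.1,
      x.2.2.2.2 + xi (dd x.2.2.2.1) (Pi.single l x.1)))
    (fun _ x => rhoS x.2.2.1 x.2.2.2) (fun _ x => -∏ j, dd x.2.2.1 j)
    ⟨fun _ _ R _ _ _ _ e => ⟨e.2.1, Rel.mmul (Rel.mmul (rel_bm R.one (rel_sgl e.1 l)) e.2.2.1)
      (rel_bi R.one one_ne_zero (rel_sgl e.1 l)), e.2.2.2.1,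
      fun j => R.add (e.2.2.2.2 j) (rel_xi (rel_dd e.2.2.2.1) (rel_sgl e.1 l) j)⟩,
      fun _ _ h => ⟨h.2.1, trivial⟩⟩
    (fun _ _ _ _ _ _ _ e => rel_rh (rel_dd e.2.2.1) e.2.2.2)
    (fun _ _ _ _ _ _ _ e => Rel.neg (Rel.prod _ fun j _ => rel_dd e.2.2.1 j))
    (fun L t ⟨c, X, y, ξ⟩ _ => ⟨?_, ?_, rfl, ?_, ?_, rfl⟩) Ψ fun L x v s w h h' => ?_
  · refine Prod.ext rfl (Prod.ext ?_ (Prod.ext rfl (funext fun j => ?_)))
    · have : bm (1 : L) (0 : Fin (m + 2) → L) = 1 := blk_one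
      simp [bi_one, this]
    · simp [xi]
  · refine Prod.ext rfl (Prod.ext ?_ (Prod.ext rfl (funext fun j => ?_)))
    · have := bi_bm (one_ne_zero (α := L)) (Pi.single l t)
      simp only [bi_one, Pi.single_neg, neg_neg, ← Matrix.mul_assoc] at this ⊢
      rw [this, Matrix.one_mul, Matrix.mul_assoc, this, Matrix.mul_one]
    · simp only [xi, Pi.single_neg, Pi.add_apply, Pi.neg_apply]
      ring
  · refine congrArg (C.g L c * ·) ?_
    have := conj_siY (one_ne_zero (α := L)) (Pi.single l t) y ξ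
    rw [l0, zero_smul, sub_zero, one_smul] at this
    change T.Om L _ (siY y (ξ + _)) = T.Om L X (siY y ξ)
    rw [← this]
    exact SB.conj T L _ _ _ _ (bi_bm one_ne_zero _)
  · change rh (dd y) (ξ + _) = rh (dd y) ξ + t * -∏ j, dd y j
    rw [rh_add, rh_xi, l0, Pi.single_eq_same]
    ring
  · obtain ⟨j, -, hj⟩ := Finset.prod_eq_zero_iff.1 (neg_eq_zero.1 h')
    exact van1 Ψ h1 h2 L x.1 v s w j x.2 h (sub_eq_zero.1 hj)

/-- The shape of the source. -/
abbrev sA (cc : Cd) (m : ℕ) : Cd :=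
  (cc.prod ((sq (m + 2)).prod (.vec (Fin (m + 2))))).prod (.vec (Fin (m + 1)))

/-- The shape of the target. -/
abbrev sB (cc : Cd) (m : ℕ) : Cd :=
  cc.prod ((sq (m + 2)).prod ((Cd.vec (Fin (m + 2))).prod (.vec (Fin (m + 1)))))

/-- The chart of the cyclic locus. -/
def fA (L : Fld K) (x : (sA cc m).X L) : (sB cc m).X L :=
  (x.1.1, bm (x.2 0) (Fin.snoc x.2 0) * x.1.2.1 * bi (x.2 0) (Fin.snoc x.2 0), x.1.2.2,
    xi (dd x.1.2.2) (Fin.snoc x.2 0))

/-- Its inverse. -/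
def fB (L : Fld K) (x : (sB cc m).X L) : (sA cc m).X L :=
  ((x.1, bi (rh (dd x.2.2.1) x.2.2.2) (sI (dd x.2.2.1) x.2.2.2) * x.2.1 *
    bm (rh (dd x.2.2.1) x.2.2.2) (sI (dd x.2.2.1) x.2.2.2), x.2.2.1),
    Fin.init (sI (dd x.2.2.1) x.2.2.2))

variable (T C m) in
/-- The cyclic locus. -/
noncomputable def UU : ASp K (sB cc m) :=
  (C.prod (T.Si (m + 1))).S.opn (fun _ x => rh (dd x.2.2.1) x.2.2.2 ≠ 0)
    fun _ _ _ _ _ _ _ e h => Rel.ne_zero (rel_rh (rel_dd e.2.2.1) e.2.2.2) h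

omit [SB K] in
lemma snoc0 {F : Type} [Field F] (t : Fin (m + 1) → F) :
    Fin.snoc (α := fun _ => F) t 0 0 = t 0 := Fin.snoc_castSucc (α := fun _ => F) 0 t 0

omit [SB K] in
lemma isoA : Iso ((C.prod (T.Ct (m + 2))).prod (Tor K (Fin (m + 1)) (· = 0))).S (UU T C m) fA fB := by
  have r0 : ∀ {F : Type} [Field F] (d t : Fin (m + 1) → F), rh d (xi d (Fin.snoc t 0)) = t 0 :=
    fun d t => by rw [rh_xi, snoc0, Fin.snoc_last, mul_zero, sub_zero]
  refine ⟨⟨fun _ _ R _ _ _ h e => ⟨e.1.1, Rel.mmul (Rel.mmul (rel_bm (e.2 0) (rel_snoc e.2)) e.1.2.1)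
      (rel_bi (e.2 0) (h.2.2 0 rfl) (rel_snoc e.2)), e.1.2.2,
      rel_xi (rel_dd e.1.2.2) (rel_snoc e.2)⟩,
      fun _ x h => ⟨⟨h.1.1, trivial⟩, (r0 _ _).trans_ne (h.2.2 0 rfl)⟩⟩,
    ⟨fun _ _ R _ _ _ h e => ⟨⟨e.1, Rel.mmul (Rel.mmul (rel_bi (rel_rh (rel_dd e.2.2.1) e.2.2.2) h.2
      (rel_sI (rel_dd e.2.2.1) e.2.2.2)) e.2.1) (rel_bm (rel_rh (rel_dd e.2.2.1) e.2.2.2)
      (rel_sI (rel_dd e.2.2.1) e.2.2.2)), e.2.2.1⟩, fun a => rel_sI (rel_dd e.2.2.1) e.2.2.2 a.castSucc⟩,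
      fun _ x h => ⟨⟨h.1.1, trivial⟩, trivial, fun i hi => ?_⟩⟩, fun _ ⟨⟨c, X, y⟩, t⟩ h => ?_,
    fun _ ⟨c, X, y, ξ⟩ h => ?_⟩
  · subst hi
    exact (sI_zero _ _).trans_ne h.2
  · have h0 : t 0 ≠ 0 := h.2.2 0 rfl
    have e1 := sI_xi (dd y) (Fin.snoc t 0) (Fin.snoc_last _ _)
    simp only [fA, fB, r0, e1, Fin.init_snoc, ← Matrix.mul_assoc,
      bi_bm h0, Matrix.one_mul]
    rw [Matrix.mul_assoc, bi_bm h0, Matrix.mul_one]
  · have h0 : rh (dd y) ξ ≠ 0 := h.2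
    have e1 : Fin.snoc (Fin.init (sI (dd y) ξ)) 0 = sI (dd y) ξ := by
      rw [← sI_last (dd y) ξ, Fin.snoc_init_self]
    have e2 : Fin.init (sI (dd y) ξ) 0 = rh (dd y) ξ := sI_zero _ _
    simp only [fA, fB, e1, e2, xi_sI, ← Matrix.mul_assoc, bm_bi h0, Matrix.one_mul]
    rw [Matrix.mul_assoc, bm_bi h0, Matrix.mul_one]

lemma weqA : WEq ((C.prod (T.Ct (m + 2))).prod (Tor K (Fin (m + 1)) (· = 0)))
    (C.prod (T.Si (m + 1))) fA := by
  refine ⟨⟨⟨isoA.mf.reg, fun L x h => (isoA.mf.mem L x h).1⟩, fun _ _ _ => (add_zero _).symm⟩,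
    fun L ⟨⟨c, X, y⟩, t⟩ h => Eq.trans (congrArg (C.g L c * ·) ?_) (mul_one _).symm⟩
  have h0 : t 0 ≠ 0 := h.2.2 0 rfl
  have := conj_siY h0 (Fin.snoc t 0) y (Pi.single 0 1)
  rw [snoc0, add_sub_cancel_left, ← bid_eq] at this
  change T.Om L _ (siY y (xi _ _)) = T.Om L X (bid y)
  rw [← this]
  exact SB.conj T L _ _ _ _ (bi_bm h0 _)

lemma ex [FA1 K] [V1 K p] [V2 K p] (Ψ : ANF p (i + Nat.card (Fin (m + 1))) (C.prod (T.Si (m + 1))) W)
    (h1 : InvS Ψ) (h2 : VanN Ψ) :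
    ∃ Θ : ANF p i (C.prod (T.Ct (m + 2))) W, ∀ {j : ℕ} (Φ : ANF p j (C.prod (T.Tn (m + 2))) W)
      (ε : ℂ), RelS Φ Ψ ε → i = j + Nat.card (UpN (m + 2)) → RelN Φ Θ ε := by
  obtain ⟨Ψ', e'⟩ := V1.rst (UU T C m) weqA isoA Ψ fun L x v s w h =>
    ⟨(V1.mem Ψ h).2.1, fun e => h (van2 Ψ h1 h2 L x v s w e)⟩
  obtain ⟨Θ, e⟩ := V2.down _ Ψ'
  refine ⟨Θ, fun {j} Φ ε hS hi L M α U c x y v s w hF => ?_⟩
  subst hi
  by_cases hc : C.S.mem L c
  swap
  · have a1 : Φ.e L (c, x, y) v s w = 0 := by_contra fun h => hc (V1.mem Φ h).2.1.1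
    rw [a1, mul_zero]
    exact by_contra fun h => hc ((C.S.map_iff α c).1 (V1.mem Θ h).2.1.1)
  have hG := FA1.fr_free (K := K) (Fin (m + 1)) hF.gM
  set β := frα M (Fin (m + 1))
  set t := frT M (Fin (m + 1))
  have h0 : t 0 ≠ 0 := by simpa using FA1.ne hG (MvPolynomial.X 0) (MvPolynomial.X_ne_zero _)
  set X := diagonal (fun a => α (x a)) + upm Fin.val U with hX
  have tX : (X.map β).BlockTriangular Fin.val := fun a b h => by
    rw [map_apply, hX, ms_add_tri (blockTriangular_diagonal _) U h, map_zero]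
  set z : (sA cc m).X (fr M (Fin (m + 1))) :=
    ((cc.map β (cc.map α c), X.map β, fun a => β (α (y a))), t) with hz
  have hm : ((C.prod (T.Ct (m + 2))).prod (Tor K (Fin (m + 1)) (· = 0))).S.mem _ z :=
    ⟨⟨(C.S.map_iff β _).2 ((C.S.map_iff α c).2 hc), trivial⟩, trivial, fun i hi => hi ▸ h0⟩
  let U' : UpN (m + 2) ⊕ Fin (m + 1) → fr M (Fin (m + 1)) :=
    Sum.elim (fun a => (fA _ z).2.1 a.1.1 a.1.2) (fA _ z).2.2.2
  have ez : fA _ z = (cc.map (β.comp α) c, diagonal (fun a => (β.comp α) (x a)) +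
      upm Fin.val (fun a => U' (.inl a)), fun a => (β.comp α) (y a), fun a => U' (.inr a)) := by
    refine Prod.ext (cc.map_map _ _ c) (Prod.ext ?_ rfl)
    refine (ms_split Fin.val_injective (conj_tri h0 _ tX).1 (isDiag_diagonal _) fun a => ?_).symm
    refine Eq.trans ?_ ((conj_tri h0 _ tX).2 a).symm
    rw [map_apply, hX, ms_add_diag, diagonal_apply_eq, diagonal_apply_eq]
    rfl
  have hU : Free j (β.comp α) U' := by
    have ga : ∀ a, (β.comp α) a ∈ gen (β.comp α) U' := fun a =>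
      IntermediateField.subset_adjoin K _ (Or.inl ⟨a, rfl⟩)
    have gt : ∀ a, U' a ∈ gen (β.comp α) U' := fun a =>
      IntermediateField.subset_adjoin K _ (Or.inr ⟨a, rfl⟩)
    have := isoA.mg.reg.all_sub (gen (β.comp α) U') (isoA.mf.mem _ z hm) (by
      rw [ez]
      refine ⟨(cc.all_iff _ _).2 fun a => by rw [cc.co_map]; exact ga _, fun a b => ?_,
        fun _ => ga _, fun a => gt (.inr a)⟩
      refine add_mem ?_ ?_
      · rw [diagonal_apply]
        split_ifs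
        exacts [ga _, zero_mem _]
      · rw [upm, of_apply]
        split_ifs
        exacts [gt _, zero_mem _])
    rw [isoA.gf _ z hm] at this
    refine FA1.of_gen (FA1.comp hF hG) rfl ?_
    rintro (a | a)
    · have : β (X a.1.1 a.1.2) ∈ _ := this.1.2.1 a.1.1 a.1.2
      rwa [hX, ms_add_up (isDiag_diagonal _)] at this
    · exact this.2 a
  rw [← e M _ β t _ _ _ _ hG, ← hS L _ _ U' c x y v s w hU, ← ez, d.map_map]
  exact e' _ z _ _ _ hm

end SI4a

variable {K : Type} [Field K] [Base K] {p : ℕ} [Fact p.Prime] [CharP K p] [FW0 K] [FWp K p]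

omit [Base K] [Fact p.Prime] [CharP K p] [FWp K p] in
theorem SI4_thm (_h2 : (2 : K) ≠ 0) [V1 K p] [V2 K p] [SB K] : SI4 K p where
  ex {T cc d C W m i} := by
    have : ∀ n, n = Nat.card (Fin (m + 1)) → ∀ Ψ : ANF p (i + n) (C.prod (T.Si (m + 1))) W,
        InvS Ψ → VanN Ψ → ∃ Θ : ANF p i (C.prod (T.Ct (m + 2))) W,
        ∀ {j : ℕ} (Φ : ANF p j (C.prod (T.Tn (m + 2))) W) (ε : ℂ),
          i = j + Nat.card (UpN (m + 2)) → RelS Φ Ψ ε → RelN Φ Θ ε := by
      rintro _ rfl Ψ h1 h2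
      obtain ⟨Θ, h⟩ := SI4a.ex Ψ h1 h2
      exact ⟨Θ, fun Φ ε a b => h Φ ε b a⟩
    exact this _ (by simp)

end Pool.Agent.Lib.MP_557161_ag.HG.TW
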