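import Pool.Agent.Lib.MP_557161_ag.TW.StS

/-!
Functionals live on the block triangular matrices.
-/

namespace Pool.Agent.Lib.MP_557161_ag.HG.TW

open Pool.Agent.Lib.MP_557161_ag.DL Matrix

namespace SKa

section Mat

variable {F : Type} [Field F] {ι : Type} [Fintype ι] [DecidableEq ι]

/-- The matrix `X (1 - Y X)⁻¹`. -/
noncomputable def mm (X Y : Matrix ι ι F) : Matrix ι ι F := X * (1 - Y * X)⁻¹

variable {X Y : Matrix ι ι F}

lemma mm_mul (h : (1 - Y * X).det ≠ 0) : mm X Y * (1 - Y * X) = X :=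
  nonsing_inv_mul_cancel_right _ _ h.isUnit

lemma act (h : (1 - Y * X).det ≠ 0) {i l : ι} (hm : mm X Y l i ≠ 0) {t : F} (ht : t ≠ 0) :
    (1 - (Y + single i l ((1 - t) / mm X Y l i)) * X).det = t * (1 - Y * X).det ∧
      ∀ a b, mm X (Y + single i l ((1 - t) / mm X Y l i)) a b =
        mm X Y a b + mm X Y a i * ((1 - t) / mm X Y l i / t) * mm X Y l b := by
  have h1 := mm_mul h
  have h0 : X * (1 - Y * X)⁻¹ = mm X Y := rfl
  generalize mm X Y = M at *
  have hξ : (1 - t) / M l i * M l i = 1 - t := div_mul_cancel₀ _ hm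
  generalize (1 - t) / M l i = ξ at *
  have e : 1 - (Y + single i l ξ) * X = (1 - single i l ξ * M) * (1 - Y * X) := by
    rw [sub_mul 1, one_mul, Matrix.mul_assoc, h1, add_mul, sub_sub]
  have e1 : (1 - single i l ξ * M).det = t := by
    have : 1 - single i l ξ * M =
        1 + replicateCol Unit (Pi.single i (-ξ)) * replicateRow Unit (M l) := by
      ext a b
      by_cases h : i = a <;> simp [h, mul_apply, single, sub_eq_add_neg, eq_comm]
    rw [this, det_one_add_replicateCol_mul_replicateRow, dotProduct_single]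
    linear_combination -hξ
  have e2 : (1 - single i l ξ * M) * (1 + single i l (ξ / t) * M) = 1 := by
    have : single i l (ξ / t) = single i l ξ + single i l (ξ * M l i * (ξ / t)) := by
      rw [← single_add, hξ]
      congr 1
      field_simp
      ring
    rw [mul_add, mul_one, sub_mul, one_mul, ← Matrix.mul_assoc, single_mul_mul_single, this,
      add_mul]
    abel
  refine ⟨by rw [e, det_mul, e1], fun a b => ?_⟩
  rw [mm, e, Matrix.mul_inv_rev, inv_eq_right_inv e2, ← Matrix.mul_assoc, h0, mul_add, mul_one,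
    ← Matrix.mul_assoc, Matrix.add_apply, mul_apply, Finset.sum_eq_single l, mul_single_apply_same]
  · intro c _ hc
    rw [mul_single_apply_of_ne _ _ _ _ _ hc, zero_mul]
  · simp

variable {β : ι → ℕ}

lemma last (h : (1 - Y * X).det ≠ 0) (hY : Y.BlockTriangular β)
    (hM : (mm X Y).BlockTriangular β) : X.BlockTriangular β := by
  have h1 := mm_mul h
  generalize mm X Y = M at *
  have e : (1 + M * Y) * X = M := by
    rw [mul_sub, mul_one, sub_eq_iff_eq_add] at h1
    rw [add_mul, one_mul, Matrix.mul_assoc, ← h1]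
  have e2 : (1 + M * Y) * (1 - X * Y) = 1 := by
    rw [mul_sub, mul_one, ← Matrix.mul_assoc, e, add_sub_cancel_right]
  have := invertibleOfRightInverse _ _ e2
  rw [← inv_mul_cancel_left_of_invertible (1 + M * Y) X, e]
  exact (blockTriangular_inv_of_blockTriangular (blockTriangular_one.add (hM.mul hY))).mul hM

lemma det_add (hY : Y.BlockTriangular β) {i l : ι} (h : β i < β l) (ξ : F) :
    (Y + single i l ξ).det = Y.det := by
  rw [hY.det, (hY.add (blockTriangular_single h.le ξ)).det]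
  refine Finset.prod_congr rfl fun a _ => congrArg det (Matrix.ext fun x y => ?_)
  show Y x y + single i l ξ x y = Y x y
  rw [single_apply_of_ne, add_zero]
  rintro ⟨e, e'⟩
  rw [e, e', x.2, y.2] at h
  exact h.false

end Mat

variable {K : Type} [Field K] {p : ℕ} (T : TD K) {cc d : Cd} (C : WD K cc) {W : ASp K d}
  {ι : Type} [Fintype ι] [DecidableEq ι] (β : ι → ℕ) (Y0 : ∀ L : Fld K, cc.X L → Matrix ι ι L)
  (hY : Reg C.S (.mat ι ι) Y0)

/-- The open part on which `1 - Y X` is invertible. -/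
noncomputable def E : WD K (cc.prod ((Cd.mat ι ι).prod (.mat ι ι))) :=
  (T.KS C β Y0 hY).nz (fun _ z => (1 - z.2.2 * z.2.1).det)
    fun _ _ _ _ _ _ _ e => Rel.det (Rel.msub Rel.mone (Rel.mmul e.2.2 e.2.1))

lemma rm {M L : Fld K} {R : Rel M L} {X Y : Matrix ι ι M} {X' Y' : Matrix ι ι L} (h : R.m' X X')
    (h' : R.m' Y Y') (e : (1 - Y' * X').det ≠ 0) : R.m' (mm X Y) (mm X' Y') :=
  Rel.mmul h (Rel.minv (Rel.msub Rel.mone (Rel.mmul h' h)) e)

/-- A closed stratum. -/
noncomputable def Z (P : ι × ι → Prop) : WD K (cc.prod ((Cd.mat ι ι).prod (.mat ι ι))) :=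
  (E T C β Y0 hY).cl (fun _ z => ∀ x, P x → mm z.2.1 z.2.2 x.2 x.1 = 0)
    fun _ _ _ _ _ _ m' e h x hx => Rel.eq_zero (rm e.2.1 e.2.2 m'.2 _ _) (h x hx)

variable {T C β Y0 hY} (h0 : ∀ L c, C.S.mem L c → (Y0 L c).BlockTriangular β)
include h0

lemma tri {L : Fld K} {z} (m : (T.KS C β Y0 hY).S.mem L z) : BlockTriangular z.2.2 β :=
  fun i l h => (m.2 i l h.not_gt).trans (h0 L _ m.1.1 h)

lemma gm {P : ι × ι → Prop} {i l : ι} (hi : β i < β l) (hP : ∀ x, P x → x.1 = i ∨ P (x.1, l)) (h) :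
    GmAct ((Z T C β Y0 hY P).cpl (fun _ z => mm z.2.1 z.2.2 l i = 0) h)
      (fun _ z => (z.2.1, z.2.2.1, z.2.2.2 + single i l ((1 - z.1) / mm z.2.2.1 z.2.2.2 l i)))
      1 where
  mp := ⟨fun _ _ R _ _ _ m' e => ⟨e.2.1, e.2.2.1, Rel.madd e.2.2.2 (Rel.msingle i l
      (Rel.div (Rel.sub R.one e.1) (rm e.2.2.1 e.2.2.2 m'.2.1.1.2 _ _) m'.2.2))⟩, by
    rintro L ⟨t, c, X, Y⟩ ⟨ht, ⟨⟨m, hd⟩, hz⟩, hm⟩
    obtain ⟨a1, a2⟩ := act (X := X) (Y := Y) hd hm ht
    refine ⟨⟨⟨⟨m.1, fun a b hab => Eq.trans ?_ (m.2 a b hab)⟩, fun e => ?_⟩, fun x hx => ?_⟩,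
      fun e => ?_⟩
    · show Y a b + single i l _ a b = Y a b
      rw [single_apply_of_ne, add_zero]
      rintro ⟨rfl, rfl⟩
      exact hab hi
    · exact mul_ne_zero ht hd (a1.symm.trans e)
    · refine (a2 _ _).trans ?_
      have h1 : mm X Y x.2 x.1 = 0 := hz x hx
      rcases hP x hx with e | e
      · rw [← e, h1, zero_mul, zero_mul, add_zero]
      · rw [h1, show mm X Y l x.1 = 0 from hz _ e, mul_zero, add_zero]
    · have h1 := (a2 l i).symm.trans e
      have h2 : mm X Y l i ≠ 0 := hm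
      have h3 : t ≠ 0 := ht
      field_simp at h1
      exact h2 (by linear_combination h1)⟩
  one L z _ := by simp
  inv := by
    rintro L t ⟨c, X, Y⟩ ht ⟨⟨⟨m, hd⟩, hz⟩, hm⟩
    have h2 : mm X Y l i ≠ 0 := hm
    refine Prod.ext rfl (Prod.ext rfl ?_)
    show Y + single i l _ + single i l ((1 - t⁻¹) / mm X (Y + single i l _) l i) = Y
    rw [(act (X := X) (Y := Y) hd hm ht).2, add_assoc, ← single_add,
      show mm X Y l i + mm X Y l i * ((1 - t) / mm X Y l i / t) * mm X Y l i = mm X Y l i / t by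
        field_simp; ring,
      show (1 - t) / mm X Y l i + (1 - t⁻¹) / (mm X Y l i / t) = 0 by field_simp; ring,
      single_zero, add_zero]
  ph _ _ _ _ _ := rfl
  gg := by
    rintro L t ⟨c, X, Y⟩ ht ⟨⟨⟨m, hd⟩, hz⟩, hm⟩
    have e : ∀ ξ, T.dm L (Y + single i l ξ) = T.dm L Y := fun ξ =>
      Finset.prod_congr rfl fun j _ => by
        rw [add_sub_right_comm]
        refine det_add ((tri h0 m).sub fun a b h => ?_) hi ξ
        rw [Matrix.smul_apply, blockTriangular_one h, smul_zero]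
    show C.g L c * (T.fm L X * (1 - (Y + single i l _) * X).det * T.dm L (Y + single i l _)) =
      t ^ (1 : ℤ) * (C.g L c * (T.fm L X * (1 - Y * X).det * T.dm L Y))
    rw [(act (X := X) (Y := Y) hd hm ht).1, e, zpow_one]
    ring
  odd := odd_one

lemma step [V1 K p] {j : ℕ} (Φ : ANF p j (E T C β Y0 hY) W) {P : ι × ι → Prop} {i l : ι}
    (hi : β i < β l) (hP : ∀ x, P x → x.1 = i ∨ P (x.1, l))
    (h : ∀ L z v s w, (Z T C β Y0 hY P).S.mem L z → mm z.2.1 z.2.2 l i = 0 → Φ.e L z v s w = 0)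
    (L : Fld K) (z v s w) (m : (Z T C β Y0 hY P).S.mem L z) : Φ.e L z v s w = 0 := by
  obtain ⟨Φ', e⟩ := V1.pull (E' := Z T C β Y0 hY P) (f := fun _ x => x)
    ⟨⟨⟨Reg.id _, fun _ _ m => m.1⟩, fun _ _ _ => rfl⟩, fun _ _ _ => rfl⟩
    (fun _ _ _ z _ hx hz e => ⟨z, ⟨hz, fun x hx' =>
      Rel.eq_zero (rm e.2.1 e.2.2 hz.2 _ _) (hx.2 x hx')⟩, e⟩) Φ
  rw [← e L z v s w m]
  refine V1.strat (E := Z T C β Y0 hY P) (fun _ z => mm z.2.1 z.2.2 l i = 0)
    (fun _ _ _ _ _ _ m' e h => Rel.eq_zero (rm e.2.1 e.2.2 m'.1.2 _ _) h) Φ'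
    (fun L z v s w hq => by_contra fun hn => hn ?_) (V1.gm W (gm h0 hi hP _)) L z v s w
  have m := (V1.mem Φ' hn).2.1
  rw [e L z v s w m, h L z v s w m hq]

lemma kill [V1 K p] {j : ℕ} (Ψ : ANF p j (T.KS C β Y0 hY) W)
    (h : ∀ L z v s w, BlockTriangular z.2.1 β → Ψ.e L z v s w = 0) (L : Fld K) (z v s w) :
    Ψ.e L z v s w = 0 := by
  obtain ⟨Φ, e⟩ := V1.res (E' := E T C β Y0 hY)
    ⟨⟨⟨Reg.id _, fun _ _ m => m.1⟩, fun _ _ _ => rfl⟩, fun _ _ _ => rfl⟩ Ψ
    fun L x v y w hn => ⟨(V1.mem Ψ hn).2.1, right_ne_zero_of_mul (left_ne_zero_of_mul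
      (right_ne_zero_of_mul (V1.mem Ψ hn).2.2.2.2.1))⟩
  let f : ι × ι → ℕ ×ₗ Fin (Fintype.card ι) := fun x => toLex (β x.1, Fintype.equivFin ι x.1)
  have key : ∀ Q : Finset (ι × ι), (∀ x ∈ Q, ∀ y, β y.1 < β y.2 → f x < f y → y ∈ Q) →
      ∀ L z v s w, (Z T C β Y0 hY fun x => β x.1 < β x.2 ∧ x ∉ Q).S.mem L z →
        Φ.e L z v s w = 0 := fun Q => by
    induction Q using Finset.induction_on_min_value f with
    | empty =>
      intro _ L z v s w m
      rw [e]
      exact h L z v s w (last m.1.2 (tri h0 m.1.1) fun a b hab => m.2 (b, a) ⟨hab, by simp⟩)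
    | insert a Q ha hm ih =>
      intro hQ
      have ih := ih fun x hx y hy hxy => (Finset.mem_insert.1
        (hQ x (Finset.mem_insert_of_mem hx) y hy hxy)).resolve_left fun e =>
          (hm x hx).not_gt (e ▸ hxy)
      by_cases hi : β a.1 < β a.2
      · refine step h0 Φ hi (fun x hx => ?_) fun L z v s w m hq => ih L z v s w ⟨m.1, fun x hx => ?_⟩
        · refine or_iff_not_imp_left.2 fun hne => ?_
          have h1 : f x < f a := lt_of_le_of_ne (not_lt.1 fun hl =>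
            hx.2 (hQ a (Finset.mem_insert_self _ _) x hx.1 hl)) fun e =>
              hne ((Fintype.equivFin ι).injective (congrArg (fun y => (ofLex y).2) e))
          refine ⟨(Prod.Lex.monotone_fst _ _ h1.le).trans_lt hi, fun hx' => ?_⟩
          rcases Finset.mem_insert.1 hx' with e | e
          · exact hne (congrArg Prod.fst e :)
          · exact (hm _ e).not_gt h1
        · by_cases e : x = a
          · rw [e]; exact hq
          · exact m.2 x ⟨hx.1, fun h' => (Finset.mem_insert.1 h').elim e hx.2⟩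
      · exact fun L z v s w m => ih L z v s w ⟨m.1, fun x hx => m.2 x ⟨hx.1, fun h' =>
          (Finset.mem_insert.1 h').elim (fun e => hi (e ▸ hx.1)) hx.2⟩⟩
  rw [← e]
  exact by_contra fun hn => hn (key Finset.univ (by simp) L z v s w
    ⟨(V1.mem Φ hn).2.1, fun x hx => (hx.2 (Finset.mem_univ x)).elim⟩)

end SKa

theorem SK_thm {K : Type} [Field K] {p : ℕ} (_h2 : (2 : K) ≠ 0) [V1 K p] : SK K p where
  kill _ _ _ _ _ _ _ _ _ _ _ h0 _ Ψ h := SKa.kill h0 Ψ h

end Pool.Agent.Lib.MP_557161_ag.HG.TW
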