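import Pool.Agent.Lib.MP_557161_ag.TW.StS

/-!
Reduction to a parabolic subalgebra on the locus where the first block of size two is scalar.
-/

namespace Pool.Agent.Lib.MP_557161_ag.HG.TW

open Pool.Agent.Lib.MP_557161_ag.DL Matrix

namespace SNa

section Mat

variable {F : Type} [Field F] {m : ℕ}

lemma blk_mul (x x' : F) (u u' : Fin m → F) (X X' : Matrix (Fin m) (Fin m) F) :
    blk x u X * blk x' u' X' = blk (x * x') (x • u' + u ᵥ* X') (X * X') := by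
  ext i j
  cases i using Fin.cases <;> cases j using Fin.cases <;>
    simp [blk, mul_apply, Fin.sum_univ_succ, vecMul, dotProduct]

lemma blk_one : blk (1 : F) 0 (1 : Matrix (Fin m) (Fin m) F) = 1 := by
  ext i j
  cases i using Fin.cases <;> cases j using Fin.cases <;>
    simp [blk, one_apply, (Fin.succ_ne_zero _).symm]

lemma blk_inv {b b' : Matrix (Fin m) (Fin m) F} (h : b' * b = 1) :
    blk (1 : F) 0 b' * blk 1 0 b = 1 := by
  rw [blk_mul, h, mul_one, smul_zero, zero_vecMul, add_zero, blk_one]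

lemma siY_eq (y : Fin (m + 1) → F) (ξ : Fin m → F) :
    siY y ξ = blk (y 0) ξ (bid fun i => y i.succ) := by
  ext i j
  cases i using Fin.cases <;> cases j using Fin.cases <;> simp [siY, blk, bid]

lemma blk_low (x : F) (u : Fin m → F) (X : Matrix (Fin m) (Fin m) F) :
    (blk x u X).submatrix Fin.succ Fin.succ = X := by
  ext i j
  simp [blk]

lemma blk_eta {Y : Matrix (Fin (m + 1)) (Fin (m + 1)) F} (h : ∀ i : Fin m, Y i.succ 0 = 0) :
    blk (Y 0 0) (fun j => Y 0 j.succ) (Y.submatrix Fin.succ Fin.succ) = Y := by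
  ext i j
  cases i using Fin.cases <;> cases j using Fin.cases <;> simp [blk, h]

lemma conj_siY (b b' : Matrix (Fin m) (Fin m) F) (y : Fin (m + 1) → F) (ξ : Fin m → F) :
    blk 1 0 b * siY y ξ * blk 1 0 b' = blk (y 0) (ξ ᵥ* b') (b * bid (fun i => y i.succ) * b') := by
  rw [siY_eq, blk_mul, blk_mul]
  simp

lemma blk_tri {b : Matrix (Fin m) (Fin m) F} (h : b.BlockTriangular Fin.val) :
    (blk (1 : F) 0 b).BlockTriangular fun a => a.1 - 1 := by
  intro i l hl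
  cases i using Fin.cases with
  | zero => simp at hl
  | succ i =>
    cases l using Fin.cases with
    | zero => rfl
    | succ l => exact h (by simpa using hl)

lemma inv_tri {b : Matrix (Fin m) (Fin m) F} (h : b.BlockTriangular Fin.val) (h0 : b.det ≠ 0) :
    b⁻¹.BlockTriangular Fin.val := by
  have := invertibleOfIsUnitDet b (Ne.isUnit h0)
  exact blockTriangular_inv_of_blockTriangular h

lemma vecMul_first {b : Matrix (Fin (m + 1)) (Fin (m + 1)) F} (h : b.BlockTriangular Fin.val)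
    {ξ : Fin (m + 1) → F} (h0 : ξ 0 = 0) : (ξ ᵥ* b) 0 = 0 := by
  simp only [vecMul, dotProduct, Fin.sum_univ_succ, h0, zero_mul, zero_add]
  exact Finset.sum_eq_zero fun i _ => by rw [h (by simp), mul_zero]

lemma det_tri {b : Matrix (Fin m) (Fin m) F} (h : b.BlockTriangular Fin.val) :
    b.det = ∏ i, b i i := det_of_isUpperTriangular fun _ _ e => h e

/-- The free entries of a triangular matrix with a fixed last column. -/
abbrev Ka (m : ℕ) : Type := {a : Fin (m + 1) × Fin (m + 1) // a.1 ≤ a.2 ∧ a.2 ≠ Fin.last m}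

/-- The triangular matrix with given entries. -/
def bm (t : Ka m → F) : Matrix (Fin (m + 1)) (Fin (m + 1)) F :=
  Matrix.of fun i l => if h : i ≤ l ∧ l ≠ Fin.last m then t ⟨(i, l), h⟩ else if i = l then 1 else 0

lemma bm_tri (t : Ka m → F) : (bm t).BlockTriangular Fin.val := fun i l h => by
  have h' : l < i := h
  simp [bm, h'.not_ge, h'.ne']

lemma bm_last (t : Ka m → F) (i : Fin (m + 1)) :
    bm t i (Fin.last m) = if i = Fin.last m then 1 else 0 := by simp [bm]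

lemma bm_ent (t : Ka m → F) (a : Ka m) : bm t a.1.1 a.1.2 = t a := by
  simp only [bm, of_apply, dif_pos a.2]

lemma bm_det {t : Ka m → F} (h : ∀ a : Ka m, a.1.1 = a.1.2 → t a ≠ 0) : (bm t).det ≠ 0 := by
  rw [det_tri (bm_tri t)]
  refine Finset.prod_ne_zero_iff.2 fun i _ => ?_
  by_cases e : i = Fin.last m
  · rw [e, bm_last, if_pos rfl]; exact one_ne_zero
  · exact (bm_ent t ⟨(i, i), le_rfl, e⟩).trans_ne (h _ rfl)

lemma bm_eta {b : Matrix (Fin (m + 1)) (Fin (m + 1)) F} (h : b.BlockTriangular Fin.val)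
    (h' : ∀ i, b i (Fin.last m) = if i = Fin.last m then 1 else 0) :
    bm (fun a : Ka m => b a.1.1 a.1.2) = b := by
  ext i l
  simp only [bm, of_apply]
  split_ifs with h1 h2
  · rfl
  · subst h2
    have : i = Fin.last m := by simpa using h1
    rw [this, h', if_pos rfl]
  · by_cases e : l = Fin.last m
    · rw [e, h', if_neg (e ▸ h2)]
    · exact (h (not_le.1 fun e' => h1 ⟨e', e⟩)).symm

end Mat

variable {K : Type} [Field K] {cc : Cd} {m : ℕ}

lemma rel_bm {M L : Fld K} {R : Rel M L} {t : Ka m → M} {t' : Ka m → L}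
    (h : ∀ a, R.r (t a) (t' a)) : R.m' (bm t) (bm t') := fun i l => by
  simp only [bm, of_apply]
  split_ifs
  exacts [h _, R.one, R.zero]

lemma rel_g {M L : Fld K} {R : Rel M L} {b : Matrix (Fin m) (Fin m) M}
    {b' : Matrix (Fin m) (Fin m) L} (h : R.m' b b') : R.m' (blk 1 0 b) (blk 1 0 b') :=
  rel_blk R.one (fun _ => R.zero) h

/-- The shape of the source. -/
abbrev cS (cc : Cd) (m : ℕ) : Cd :=
  cc.prod ((sq (m + 2)).prod ((Cd.vec (Fin (m + 2))).prod (.vec (Fin (m + 1)))))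

/-- The shape of the target. -/
abbrev cT (cc : Cd) (m : ℕ) : Cd :=
  (cc.prod (.vec (Fin (m + 2)))).prod ((sq (m + 2)).prod (sq (m + 2)))

variable (T : TD K) (C : WD K cc) (m)

/-- The scalar locus. -/
noncomputable def N1 : WD K (cS cc m) :=
  (C.prod (T.Si (m + 1))).cl (fun _ z => z.2.2.1 0 = z.2.2.1 1 ∧ z.2.2.2 0 = 0)
    fun _ _ _ _ _ _ _ e h => ⟨Rel.eq (e.2.2.1 0) (e.2.2.1 1) h.1, Rel.eq_zero (e.2.2.2 0) h.2⟩

/-- The scalar locus together with a triangular matrix. -/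
noncomputable def N2 : WD K ((cS cc m).prod (.vec (Ka m))) :=
  (N1 m T C).prod (Tor K (Ka m) fun a => a.1.1 = a.1.2)

/-- The target. -/
noncomputable def N3 : WD K (cT cc m) :=
  T.KS ((C.prod (Aff K (.vec (Fin (m + 2))))).cl (fun _ z => z.2 0 = z.2 1)
    fun _ _ _ _ _ _ _ e h => Rel.eq (e.2 0) (e.2 1) h) (fun a : Fin (m + 2) => a.1 - 1)
    (fun _ z => diagonal z.2) fun _ _ _ _ _ _ _ e => Rel.mdiag e.2

variable {T C m}

/-- Conjugation by the triangular matrix. -/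
noncomputable def fw (L : Fld K) (x : ((cS cc m).prod (.vec (Ka m))).X L) : (cT cc m).X L :=
  ((x.1.1, x.1.2.2.1), blk 1 0 (bm x.2) * x.1.2.1 * blk 1 0 (bm x.2)⁻¹,
    blk 1 0 (bm x.2) * siY x.1.2.2.1 x.1.2.2.2 * blk 1 0 (bm x.2)⁻¹)

/-- The inverse, for a given triangular matrix. -/
noncomputable def bw (L : Fld K) (z : (cT cc m).X L) (b : Matrix (Fin (m + 1)) (Fin (m + 1)) L) :
    ((cS cc m).prod (.vec (Ka m))).X L :=
  ((z.1.1, blk 1 0 b⁻¹ * z.2.1 * blk 1 0 b, z.1.2, (fun j : Fin (m + 1) => z.2.2 0 j.succ) ᵥ* b),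
    fun a => b a.1.1 a.1.2)

lemma N3_low {L : Fld K} {z : (cT cc m).X L} (h : (N3 m T C).S.mem L z) :
    (z.2.2.submatrix Fin.succ Fin.succ).BlockTriangular Fin.val ∧
      (∀ i : Fin (m + 1), z.2.2 i.succ i.succ = z.1.2 i.succ) ∧
      (∀ i : Fin (m + 1), z.2.2 i.succ 0 = 0) ∧ z.2.2 0 0 = z.1.2 0 ∧ z.2.2 0 (Fin.succ 0) = 0 := by
  have h2 : ∀ i l : Fin (m + 2), ¬ i.1 - 1 < l.1 - 1 → z.2.2 i l = diagonal z.1.2 i l := h.2
  refine ⟨fun i l e => ?_, fun i => ?_, fun i => ?_, ?_, ?_⟩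
  · have e' : l.1 < i.1 := e
    exact (h2 i.succ l.succ (by simp; omega)).trans
      (diagonal_apply_ne _ fun e'' => by rw [Fin.succ_inj.1 e''] at e'; exact lt_irrefl _ e')
  · exact (h2 _ _ (lt_irrefl _)).trans (diagonal_apply_eq _ _)
  · exact (h2 _ _ (by simp)).trans (diagonal_apply_ne _ (Fin.succ_ne_zero i))
  · exact (h2 _ _ (lt_irrefl _)).trans (diagonal_apply_eq _ _)
  · exact (h2 _ _ (by simp)).trans (diagonal_apply_ne _ (Fin.succ_ne_zero _).symm)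

lemma fw_reg : Reg (N2 m T C).S _ (fw (cc := cc) (m := m)) := fun _ _ _ _ _ _ m' e =>
  have h1 := rel_g (rel_bm e.2)
  have h2 := rel_g (Rel.minv (rel_bm e.2) (bm_det m'.2.2))
  ⟨⟨e.1.1, e.1.2.2.1⟩, Rel.mmul (Rel.mmul h1 e.1.2.1) h2,
    Rel.mmul (Rel.mmul h1 (rel_siY e.1.2.2.1 e.1.2.2.2)) h2⟩

section
variable {nb : ∀ L : Fld K, (sq (m + 1)).X L → (sq (m + 1)).X L} (hr : Reg (.univ K _) _ nb)
  (h1 : ∀ (L : Fld K) (Y : Matrix (Fin (m + 1)) (Fin (m + 1)) L),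
    Y.BlockTriangular Fin.val → Matrix.BlockTriangular (nb L Y) Fin.val ∧
      (∀ i, nb L Y i (Fin.last m) = if i = Fin.last m then 1 else 0) ∧
      Y * nb L Y = nb L Y * bid fun i => Y i i)
  (h2 : ∀ (L : Fld K) (b : Matrix (Fin (m + 1)) (Fin (m + 1)) L) (y : Fin (m + 1) → L),
    b.BlockTriangular Fin.val → b.det ≠ 0 →
    (∀ i, b i (Fin.last m) = if i = Fin.last m then 1 else 0) →
    nb L (b * bid y * b⁻¹) = b ∧ (b * bid y * b⁻¹).BlockTriangular Fin.val ∧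
      ∀ i, (b * bid y * b⁻¹) i i = y i)

include h2 in
lemma fw_mem (L : Fld K) (x) (h : (N2 m T C).S.mem L x) : (N3 m T C).S.mem L (fw L x) := by
  refine ⟨⟨⟨⟨h.1.1.1, trivial⟩, h.1.2.1⟩, trivial⟩, fun i l hl => ?_⟩
  have hd := bm_det h.2.2
  obtain ⟨-, a2, a3⟩ := h2 L (bm x.2) (fun i => x.1.2.2.1 i.succ) (bm_tri _) hd (bm_last _)
  change (blk 1 0 (bm x.2) * siY x.1.2.2.1 x.1.2.2.2 * blk 1 0 (bm x.2)⁻¹) i l =
    diagonal x.1.2.2.1 i l
  rw [conj_siY]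
  cases i using Fin.cases <;> cases l using Fin.cases
  · exact (diagonal_apply_eq _ _).symm
  · rename_i l
    obtain rfl : l = 0 := Fin.ext (by simpa using hl)
    exact (vecMul_first (inv_tri (bm_tri _) hd) h.1.2.2).trans
      (diagonal_apply_ne _ (Fin.succ_ne_zero _).symm).symm
  · exact (diagonal_apply_ne _ (Fin.succ_ne_zero _)).symm
  · rename_i i l
    have : l.1 ≤ i.1 := by simpa using hl
    rcases this.eq_or_lt with e | e
    · obtain rfl : l = i := Fin.ext e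
      exact (a3 l).trans (diagonal_apply_eq _ _).symm
    · exact (a2 e).trans (diagonal_apply_ne _ fun e' => by
        rw [Fin.succ_inj.1 e'] at e; exact lt_irrefl _ e).symm

include h2 in
lemma nb_fw (L : Fld K) (x) (h : (N2 m T C).S.mem L x) :
    nb L ((fw L x).2.2.submatrix Fin.succ Fin.succ) = bm x.2 := by
  change nb L ((blk 1 0 (bm x.2) * siY x.1.2.2.1 x.1.2.2.2 * blk 1 0 (bm x.2)⁻¹).submatrix _ _) = _
  rw [conj_siY, blk_low]
  exact (h2 L (bm x.2) _ (bm_tri _) (bm_det h.2.2) (bm_last _)).1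

include h2 in
lemma fw_weq [SB K] : WEq (N2 m T C) (N3 m T C) fw := by
  refine ⟨⟨⟨fw_reg, fw_mem h2⟩, fun L x _ => rfl⟩, fun L x h => ?_⟩
  change C.g L x.1.1 * 1 * T.Om L (blk 1 0 (bm x.2) * x.1.2.1 * blk 1 0 (bm x.2)⁻¹)
    (blk 1 0 (bm x.2) * siY x.1.2.2.1 x.1.2.2.2 * blk 1 0 (bm x.2)⁻¹) =
    C.g L x.1.1 * T.Om L x.1.2.1 (siY x.1.2.2.1 x.1.2.2.2) * 1
  rw [SB.conj T L _ _ _ _ (blk_inv (nonsing_inv_mul _ (Ne.isUnit (bm_det h.2.2)))), mul_one,
    mul_one]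

variable (T C) in
/-- The image. -/
noncomputable def UU : ASp K (cT cc m) :=
  (N3 m T C).S.opn (fun L z => (nb L (z.2.2.submatrix Fin.succ Fin.succ)).det ≠ 0)
    fun _ _ R _ _ _ _ e h => Rel.ne_zero (Rel.det (hr R trivial trivial fun _ _ => e.2.2 _ _)) h

include h1 h2 in
lemma iso : Iso (N2 m T C).S (UU T C hr) fw
    fun L z => bw L z (nb L (z.2.2.submatrix Fin.succ Fin.succ)) := by
  refine ⟨⟨fw_reg, fun L x h => ⟨fw_mem h2 L x h, ?_⟩⟩, ⟨fun M L R z z' _ m' e => ?_,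
    fun L z h => ?_⟩, fun L x h => ?_, fun L z h => ?_⟩
  · exact (congrArg det (nb_fw h2 L x h)).trans_ne (bm_det h.2.2)
  · have a1 : R.m' (nb M (z.2.2.submatrix Fin.succ Fin.succ))
        (nb L (z'.2.2.submatrix Fin.succ Fin.succ)) := hr R trivial trivial fun _ _ => e.2.2 _ _
    exact ⟨⟨e.1.1, Rel.mmul (Rel.mmul (rel_g (Rel.minv a1 m'.2)) e.2.1) (rel_g a1), e.1.2,
      fun j => Rel.sum Finset.univ fun k _ => R.mul (e.2.2 0 k.succ) (a1 k j)⟩, fun a => a1 _ _⟩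
  · obtain ⟨a1, -, -, -, a5⟩ := N3_low h.1
    obtain ⟨b1, -, -⟩ := h1 L _ a1
    refine ⟨⟨⟨h.1.1.1.1.1, trivial⟩, h.1.1.1.2, vecMul_first b1 a5⟩, trivial, fun a ha => ?_⟩
    have := Finset.prod_ne_zero_iff.1 ((det_tri b1).symm.trans_ne h.2) a.1.1 (Finset.mem_univ _)
    have ha' : a.1.1 = a.1.2 := ha
    change nb L _ a.1.1 a.1.2 ≠ 0
    rwa [← ha']
  · rw [nb_fw h2 L x h]
    have hu := Ne.isUnit (bm_det h.2.2)
    have e1 := blk_inv (nonsing_inv_mul _ hu)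
    refine Prod.ext (Prod.ext rfl (Prod.ext ?_ (Prod.ext rfl ?_))) (funext (bm_ent _))
    · change blk 1 0 (bm x.2)⁻¹ * (blk 1 0 (bm x.2) * x.1.2.1 * blk 1 0 (bm x.2)⁻¹) *
        blk 1 0 (bm x.2) = x.1.2.1
      rw [← mul_assoc, ← mul_assoc, e1, one_mul, mul_assoc, e1, mul_one]
    · change (fun j : Fin (m + 1) => (blk 1 0 (bm x.2) * siY x.1.2.2.1 x.1.2.2.2 *
        blk 1 0 (bm x.2)⁻¹) 0 j.succ) ᵥ* bm x.2 = x.1.2.2.2
      rw [conj_siY]
      change (x.1.2.2.2 ᵥ* (bm x.2)⁻¹) ᵥ* bm x.2 = _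
      rw [vecMul_vecMul, nonsing_inv_mul _ hu, vecMul_one]
  · obtain ⟨a1, a2, a3, a4, -⟩ := N3_low h.1
    obtain ⟨b1, b2, b3⟩ := h1 L _ a1
    have hu := Ne.isUnit h.2
    generalize nb L (z.2.2.submatrix Fin.succ Fin.succ) = b at b1 b2 b3 hu
    have e1 := blk_inv (mul_nonsing_inv _ hu)
    have e2 := bm_eta b1 b2
    refine Prod.ext rfl (Prod.ext ?_ ?_)
    · change blk 1 0 (bm fun a => b a.1.1 a.1.2) * (blk 1 0 b⁻¹ * z.2.1 * blk 1 0 b) *
        blk 1 0 (bm fun a => b a.1.1 a.1.2)⁻¹ = z.2.1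
      rw [e2, ← mul_assoc, ← mul_assoc, e1, one_mul, mul_assoc, e1, mul_one]
    · change blk 1 0 (bm fun a => b a.1.1 a.1.2) *
        siY z.1.2 ((fun j : Fin (m + 1) => z.2.2 0 j.succ) ᵥ* b) *
        blk 1 0 (bm fun a => b a.1.1 a.1.2)⁻¹ = z.2.2
      simp only [submatrix_apply, a2] at b3
      rw [e2, conj_siY, vecMul_vecMul, mul_nonsing_inv _ hu, vecMul_one, ← b3, mul_assoc,
        mul_nonsing_inv _ hu, mul_one, ← a4]
      exact blk_eta a3

end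

end SNa

variable {K : Type} [Field K] [Base K] {p : ℕ} [Fact p.Prime] [CharP K p] [FW0 K] [FWp K p]

open SNa in
/-- Reduction to a parabolic subalgebra on the scalar locus. -/
theorem SN_thm (_h2 : (2 : K) ≠ 0) [V1 K p] [V2 K p] [V3 K p] [SB K] [SK K p] : SN K p := by
  refine ⟨fun {T cc d C W m i} Ψ H => ?_⟩
  obtain ⟨nb, hr, h1, h2⟩ := SB.nb (K := K) m
  obtain ⟨Ψ₁, e₁⟩ := V1.pull (E' := N1 m T C) (f := fun _ x => x)
    ⟨⟨⟨Reg.id _, fun _ _ h => h.1⟩, fun _ _ _ => rfl⟩, fun _ _ _ => rfl⟩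
    (fun M O x z _ hx hz e => ⟨z, ⟨hz, Rel.eq (e.2.2.1 0) (e.2.2.1 1) hx.2.1,
      Rel.eq_zero (e.2.2.2 0) hx.2.2⟩, e⟩) Ψ
  obtain ⟨Ψ₂, e₂⟩ := V2.lift (κ := Ka m) (fun a => a.1.1 = a.1.2) Ψ₁
  have z₂ := V2.up _ Ψ₂ (fun _ x => Matrix.BlockTriangular x.2.1 fun a => a.1 - 1)
    (fun _ _ _ _ _ _ _ e h i l hl => Rel.eq_zero (e.2.1 i l) (h hl))
    fun j L M α U x v y w hj hU hx hZ => by
      obtain rfl : i = j := Nat.add_right_cancel hj
      rw [e₂ L M α U x v y w hU, e₁ L x v y w hx]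
      exact H L x.1 x.2.1 x.2.2.1 x.2.2.2 v y w hx.2.1 hx.2.2 hZ
  have hI := iso (T := T) (C := C) hr h1 h2
  obtain ⟨Ψ₃, e₃, e₃'⟩ := V1.emb (E' := N2 m T C) (E := N3 m T C) (UU T C hr) (fw_weq h2) hI
    (fun M O x x' hx hx' e => ⟨hx, Rel.ne_zero (Rel.det
      (hr (Rel.ofPl O) trivial trivial fun _ _ => e.2.2 _ _)) hx'.2⟩) Ψ₂
  have z₃ := SK.kill T _ _ _ _ (fun L c _ => blockTriangular_diagonal _) Ψ₃
    fun L z v s w hz => by
      by_contra h0
      have hU := e₃' L z v s w h0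
      have := e₃ L _ v s w (hI.mg.mem L z hU)
      rw [hI.fg L z hU] at this
      obtain ⟨b1, -, -⟩ := h1 L _ (N3_low hU.1).1
      exact h0 (this.trans (z₂ L _ _ v s w
        (((blk_tri (inv_tri b1 hU.2)).mul hz).mul (blk_tri b1))))
  intro L c X y ξ v s w hy hξ
  by_contra h0
  obtain ⟨g, hm, -⟩ := V1.mem Ψ h0
  have a1 := (e₂ L _ _ _ (c, X, y, ξ) v s w (FA1.fr_free (Ka m) g)).trans
    (e₁ L (c, X, y, ξ) v s w ⟨hm, hy, hξ⟩)
  have a2 := (V1.mem Ψ₂ (a1.trans_ne h0)).2.1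
  exact h0 (a1.symm.trans ((e₃ _ _ _ _ _ a2).symm.trans (z₃ _ _ _ _ _)))

end Pool.Agent.Lib.MP_557161_ag.HG.TW
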