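import Pool.Agent.Lib.MP_557161_ag.TW.StS

/-!
Invariance under the simple reflections.
-/

namespace Pool.Agent.Lib.MP_557161_ag.HG.TW

open Pool.Agent.Lib.MP_557161_ag.DL Matrix

namespace SSa

section Mat

variable {F : Type} [Field F] {n : ℕ} {r r' : Fin n} {A X Y : Matrix (Fin n) (Fin n) F} {S : F}

/-- The positions below the diagonal or in the block. -/
def Kp (r r' a b : Fin n) : Prop := b < a ∨ ((a = r ∨ a = r') ∧ (b = r ∨ b = r'))

instance (a b : Fin n) : Decidable (Kp r r' a b) := by unfold Kp; infer_instance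

/-- The part above the diagonal and outside the block. -/
def z0 (r r' : Fin n) (A : Matrix (Fin n) (Fin n) F) : Matrix (Fin n) (Fin n) F :=
  Matrix.of fun a b => if Kp r r' a b then 0 else A a b

/-- The block. -/
def bl (r r' : Fin n) (A : Matrix (Fin n) (Fin n) F) : Matrix (Fin 2) (Fin 2) F :=
  !![A r r, A r r'; A r' r, A r' r']

/-- Replace the block. -/
def put (r r' : Fin n) (A : Matrix (Fin n) (Fin n) F) (B : Matrix (Fin 2) (Fin 2) F) :
    Matrix (Fin n) (Fin n) F :=
  Matrix.of fun a b => if a = r then (if b = r then B 0 0 else if b = r' then B 0 1 else A a b)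
    else if a = r' then (if b = r then B 1 0 else if b = r' then B 1 1 else A a b) else A a b

/-- Matrices that are triangular up to one entry. -/
def AT (r r' : Fin n) (A : Matrix (Fin n) (Fin n) F) : Prop :=
  ∀ a b, b < a → ¬ (a = r' ∧ b = r) → A a b = 0

lemma ne_of (hr : r'.1 = r.1 + 1) : r ≠ r' := fun e => by rw [e] at hr; omega

lemma lt_of (hr : r'.1 = r.1 + 1) : r < r' := by rw [Fin.lt_def]; omega

lemma put_out {B : Matrix (Fin 2) (Fin 2) F} {a b : Fin n}
    (h : ¬ ((a = r ∨ a = r') ∧ (b = r ∨ b = r'))) : put r r' A B a b = A a b := by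
  simp only [put, of_apply]
  split_ifs <;> first | rfl | (exfalso; tauto)

lemma bl_put (hr : r'.1 = r.1 + 1) (B : Matrix (Fin 2) (Fin 2) F) :
    bl r r' (put r r' A B) = B := by
  have := (ne_of hr).symm
  ext i j
  fin_cases i <;> fin_cases j <;> simp [bl, put, this]

lemma z0_put (B : Matrix (Fin 2) (Fin 2) F) : z0 r r' (put r r' A B) = z0 r r' A := by
  ext a b
  simp only [z0, of_apply]
  split_ifs with h
  · rfl
  · exact put_out fun e => h (.inr e)

lemma z0_z0 : z0 r r' (z0 r r' A) = z0 r r' A := by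
  ext a b
  simp only [z0, of_apply]
  split_ifs <;> rfl

lemma put_eq (hr : r'.1 = r.1 + 1) (h : AT r r' A) : put r r' (z0 r r' A) (bl r r' A) = A := by
  have h1 := ne_of hr
  have h2 := lt_of hr
  ext a b
  by_cases e : (a = r ∨ a = r') ∧ (b = r ∨ b = r')
  · obtain ⟨rfl | rfl, rfl | rfl⟩ := e <;> simp [put, bl, h1, h1.symm]
  · rw [put_out e, z0, of_apply]
    split_ifs with k
    · exact (h a b (k.resolve_right e) fun k' => e ⟨.inr k'.1, .inl k'.2⟩).symm
    · rfl

lemma at_put (hr : r'.1 = r.1 + 1) (h : z0 r r' A = A) (B : Matrix (Fin 2) (Fin 2) F) :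
    AT r r' (put r r' A B) := fun a b k k' => by
  have h2 := lt_of hr
  rw [put_out, ← h, z0, of_apply, if_pos (.inl k)]
  rintro ⟨rfl | rfl, rfl | rfl⟩
  exacts [k.false, k.asymm h2, k' ⟨rfl, rfl⟩, k.false]

lemma at_z0 (h : z0 r r' A = A) : AT r r' A := fun a b k _ => by
  rw [← h, z0, of_apply, if_pos (.inl k)]

lemma bl_z0 (h : z0 r r' A = A) : bl r r' A = 0 := by
  rw [← h]
  ext i j
  fin_cases i <;> fin_cases j <;> simp [bl, z0, Kp]

lemma prod_split (hr : r'.1 = r.1 + 1) (f : Fin n → F) :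
    ∏ i, f i = (∏ i ∈ (Finset.univ.erase r).erase r', f i) * (f r * f r') := by
  rw [← Finset.mul_prod_erase _ _ (Finset.mem_univ r),
    ← Finset.mul_prod_erase (Finset.univ.erase r) _ (a := r') (by simp [(ne_of hr).symm])]
  ring

lemma detb (hr : r'.1 = r.1 + 1) (h : AT r r' A) :
    A.det = (∏ i ∈ (Finset.univ.erase r).erase r', A i i) * (bl r r' A).det := by
  have h1 := ne_of hr
  have h2 := lt_of hr
  have e : A = A.updateRow r' (Function.update (A r') r 0 + Pi.single r (A r' r)) := by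
    ext a b
    rw [updateRow_apply]
    split_ifs with k
    · subst k
      by_cases k' : b = r
      · subst k'
        simp
      · simp [k']
    · rfl
  have t1 : (A.updateRow r' (Function.update (A r') r 0)).det =
      (∏ i ∈ (Finset.univ.erase r).erase r', A i i) * (A r r * A r' r') := by
    rw [det_of_isUpperTriangular, prod_split hr]
    · congr 1
      · refine Finset.prod_congr rfl fun i hi => ?_
        rw [updateRow_ne (Finset.ne_of_mem_erase hi)]
      · rw [updateRow_ne h1, updateRow_self, Function.update_of_ne h1.symm]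
    · intro a b k
      rw [updateRow_apply]
      split_ifs with k'
      · subst k'
        by_cases k'' : b = r
        · subst k''
          simp
        · rw [Function.update_of_ne k'']
          exact h _ _ k fun e => k'' e.2
      · exact h _ _ k fun e => k' e.1
  have t2 : ((A.updateRow r' (Pi.single r (A r' r))).submatrix id (Equiv.swap r r')).det =
      (∏ i ∈ (Finset.univ.erase r).erase r', A i i) * (A r r' * A r' r) := by
    rw [det_of_isUpperTriangular, prod_split hr]
    · congr 1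
      · refine Finset.prod_congr rfl fun i hi => ?_
        have i1 := Finset.ne_of_mem_erase hi
        have i2 := Finset.ne_of_mem_erase (Finset.mem_of_mem_erase hi)
        rw [submatrix_apply, Equiv.swap_apply_of_ne_of_ne i2 i1, id, updateRow_ne i1]
      · simp [updateRow_ne h1]
    · intro a b k
      have k : b < a := k
      rw [submatrix_apply, id, updateRow_apply]
      split_ifs with k'
      · subst k'
        rw [Pi.single_apply, if_neg]
        rw [Equiv.swap_apply_eq_iff, Equiv.swap_apply_left]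
        exact k.ne
      · refine h _ _ ?_ fun e => k' e.1
        by_cases b1 : b = r
        · subst b1
          rw [Equiv.swap_apply_left]
          have : a.1 ≠ r'.1 := fun e => k' (Fin.ext e)
          rw [Fin.lt_def] at k ⊢
          omega
        · by_cases b2 : b = r'
          · subst b2
            rw [Equiv.swap_apply_right]
            exact h2.trans k
          · rwa [Equiv.swap_apply_of_ne_of_ne b1 b2]
  rw [det_permute', Equiv.Perm.sign_swap h1] at t2
  rw [e, det_updateRow_add, t1, ← e, bl, det_fin_two_of]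
  simp only [Units.val_neg, Units.val_one, Int.cast_neg, Int.cast_one] at t2
  linear_combination -t2

lemma key (hr : r'.1 = r.1 + 1) (t : ∀ a b, b < a → Y a b = 0) (h : AT r r' X) :
    (1 - Y * X).det = (∏ i ∈ (Finset.univ.erase r).erase r', (1 - Y i i * X i i)) *
      (1 - bl r r' Y * bl r r' X).det := by
  have h1 := ne_of hr
  have h2 := lt_of hr
  have k : ∀ a b c, Y a c * X c b ≠ 0 → a ≤ c ∧ (c ≤ b ∨ (c = r' ∧ b = r)) := fun a b c e =>
    ⟨not_lt.1 fun l => left_ne_zero_of_mul e (t _ _ l), by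
      by_contra l
      rw [not_or, not_le] at l
      exact right_ne_zero_of_mul e (h _ _ l.1 l.2)⟩
  have k2 : ∀ a b, (a = r ∨ a = r') → (b = r ∨ b = r') →
      (Y * X) a b = Y a r * X r b + Y a r' * X r' b := fun a b ha hb => by
    rw [mul_apply, Finset.sum_eq_add r r' h1 (fun c _ hc => ?_) (by simp) (by simp)]
    by_contra e
    have := k _ _ _ e
    have c1 : c.1 ≠ r.1 := fun e => hc.1 (Fin.ext e)
    have c2 : c.1 ≠ r'.1 := fun e => hc.2 (Fin.ext e)
    simp only [Fin.le_def, Fin.ext_iff] at this ha hb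
    omega
  rw [detb hr (A := 1 - Y * X)]
  · congr 1
    · refine Finset.prod_congr rfl fun i hi => ?_
      have i2 := Finset.ne_of_mem_erase (Finset.mem_of_mem_erase hi)
      rw [Matrix.sub_apply, one_apply_eq, mul_apply,
        Finset.sum_eq_single i (fun c _ hc => ?_) (by simp)]
      by_contra e
      obtain ⟨e1, e2 | e2⟩ := k _ _ _ e
      exacts [hc (le_antisymm e2 e1), i2 e2.2]
    · congr 1
      ext i j
      fin_cases i <;> fin_cases j <;>
        simp [bl, k2, h1, h1.symm, Matrix.mul_apply, Fin.sum_univ_two, -mul_eq_zero]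
  · intro a b l l'
    rw [Matrix.sub_apply, one_apply_ne l.ne', mul_apply, Finset.sum_eq_zero fun c _ => ?_, sub_zero]
    by_contra e
    obtain ⟨e1, e2 | e2⟩ := k _ _ _ e
    · exact (e1.trans e2).not_gt l
    · refine l' ⟨?_, e2.2⟩
      obtain ⟨rfl, rfl⟩ := e2
      simp only [Fin.le_def, Fin.lt_def, Fin.ext_iff] at l e1 ⊢
      omega

lemma key2 (hr : r'.1 = r.1 + 1) (t : ∀ a b, b < a → Y a b = 0) (h : z0 r r' X = X)
    (B : Matrix (Fin 2) (Fin 2) F) :
    (1 - Y * put r r' X B).det = (1 - Y * X).det * (1 - bl r r' Y * B).det := by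
  rw [key hr t (at_put hr h B), key hr t (at_z0 h), bl_z0 h, bl_put hr, mul_zero, sub_zero, det_one,
    mul_one]
  congr 1
  refine Finset.prod_congr rfl fun i hi => ?_
  rw [put_out]
  rintro ⟨e | e, -⟩
  exacts [Finset.ne_of_mem_erase (Finset.mem_of_mem_erase hi) e, Finset.ne_of_mem_erase hi e]

lemma key3 (hr : r'.1 = r.1 + 1) (a : F) (h : z0 r r' X = X) (B : Matrix (Fin 2) (Fin 2) F) :
    (1 - a • put r r' X B).det = (1 - a • X).det * (1 - a • B).det := by
  have h1 := ne_of hr
  have e : bl r r' (a • (1 : Matrix (Fin n) (Fin n) F)) = a • 1 := by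
    ext i j
    fin_cases i <;> fin_cases j <;> simp [bl, h1, h1.symm]
  have := key2 hr (Y := a • 1) (fun a b l => by simp [l.ne']) h B
  rwa [e, smul_one_mul, smul_one_mul, smul_one_mul] at this

lemma bl_bid (hr : r'.1 = r.1 + 1) (y : Fin n → F) :
    bl r r' (bid y) = !![y r, 1; 0, y r'] := by
  have h1 := ne_of hr
  have h2 : r'.1 + 1 ≠ r.1 := by omega
  simp [bl, bid, h1, h1.symm, hr.symm, h2]

lemma tri_bid (y : Fin n → F) (a b : Fin n) (l : b < a) : bid y a b = 0 := by
  have : a.1 + 1 ≠ b.1 := by rw [Fin.lt_def] at l; omega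
  simp [bid, l.ne', this]

lemma cj (A : Matrix (Fin n) (Fin n) F) (a b : Fin n) : (hS r r' S * A * hS r r' (-S)) a b =
    A a b + (if a = r' then S * A r b else 0) -
      if b = r then (A a r' + if a = r' then S * A r r' else 0) * S else 0 := by
  have l : ∀ (A : Matrix (Fin n) (Fin n) F) i j,
      (hS r r' S * A) i j = A i j + if i = r' then S * A r j else 0 := fun A i j => by
    rw [hS, add_mul, one_mul, Matrix.add_apply]
    split_ifs with h
    · rw [h, single_mul_apply_same]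
    · rw [single_mul_apply_of_ne _ _ _ _ _ h]
  have l' : ∀ (A : Matrix (Fin n) (Fin n) F) i j,
      (A * hS r r' (-S)) i j = A i j - if j = r then A i r' * S else 0 := fun A i j => by
    rw [hS, mul_add, mul_one, Matrix.add_apply]
    split_ifs with h
    · rw [h, mul_single_apply_same, mul_neg, sub_eq_add_neg]
    · rw [mul_single_apply_of_ne _ _ _ _ _ h, add_zero, sub_zero]
  rw [l', l, l]

lemma at_cj (hr : r'.1 = r.1 + 1) (t : ∀ a b, b < a → A a b = 0) :
    AT r r' (hS r r' S * A * hS r r' (-S)) := fun a b k k' => by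
  rw [cj, t _ _ k]
  by_cases h1 : a = r' <;> by_cases h2 : b = r
  · exact (k' ⟨h1, h2⟩).elim
  · rw [if_pos h1, if_neg h2, t r b, mul_zero, add_zero, sub_zero]
    simp only [Fin.lt_def, Fin.ext_iff] at k h1 h2 ⊢
    omega
  · rw [if_neg h1, if_pos h2, if_neg h1, t a r', add_zero, zero_mul, sub_zero]
    simp only [Fin.lt_def, Fin.ext_iff] at k h1 h2 ⊢
    omega
  · rw [if_neg h1, if_neg h2, add_zero, sub_zero]

lemma mem_cj {K : Type} [Field K] [Algebra K F] (G : IntermediateField K F)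
    (hr : r'.1 = r.1 + 1) (hS' : S ∈ G)
    (h : ∀ a b, a < b → (hS r r' S * A * hS r r' (-S)) a b ∈ G) (a b : Fin n) (k : a < b) :
    A a b ∈ G := by
  have h1 := ne_of hr
  have h2 := lt_of hr
  have e : ∀ a b, a < b → a ≠ r' → b ≠ r → A a b ∈ G := fun a b k i j => by
    simpa only [cj, if_neg i, if_neg j, add_zero, sub_zero] using h a b k
  by_cases i : a = r'
  · subst i
    have j : b ≠ r := (h2.trans k).ne'
    have := sub_mem (h _ _ k) (mul_mem hS' (e r b (h2.trans k) h1 j))
    simpa only [cj, if_pos, if_neg j, sub_zero, add_sub_cancel_right] using this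
  · by_cases j : b = r
    · subst j
      have := add_mem (h _ _ k) (mul_mem (e a r' (k.trans h2) i h1.symm) hS')
      simpa only [cj, if_pos, if_neg i, add_zero, sub_add_cancel] using this
    · exact e a b k i j

lemma tri_du (x : Fin n → F) (U : UpN n → F) (a b : Fin n) (k : b < a) :
    (diagonal x + upm Fin.val U) a b = 0 := by
  rw [Matrix.add_apply, diagonal_apply_ne _ k.ne', zero_add]
  exact dif_neg k.not_gt

lemma up_du (x : Fin n → F) (U : UpN n → F) (a b : Fin n) (k : a < b) :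
    (diagonal x + upm Fin.val U) a b = U ⟨(a, b), k⟩ := by
  rw [Matrix.add_apply, diagonal_apply_ne _ k.ne, zero_add]
  exact dif_pos k

lemma dg_du (x : Fin n → F) (U : UpN n → F) (a : Fin n) :
    (diagonal x + upm Fin.val U) a a = x a := by
  rw [Matrix.add_apply, diagonal_apply_eq]
  exact add_eq_left.2 (dif_neg (lt_irrefl _))

lemma z0_eq {B : Matrix (Fin n) (Fin n) F} (hr : r'.1 = r.1 + 1)
    (h : ∀ a b, a < b → ¬ (a = r ∧ b = r') → A a b = B a b)
    (h' : ∀ a, a ≠ r → a ≠ r' → A a a = B a a) : z0 r r' A = z0 r r' B := by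
  ext a b
  simp only [z0, of_apply]
  split_ifs with k
  · rfl
  · rw [Kp, not_or, not_lt] at k
    rcases k.1.lt_or_eq with l | rfl
    · exact h a b l fun e => k.2 ⟨.inl e.1, .inr e.2⟩
    · exact h' a (fun e => k.2 ⟨.inl e, .inl e⟩) fun e => k.2 ⟨.inr e, .inr e⟩

end Mat

variable {K : Type} [Field K] {cc d : Cd} {n : ℕ} {r r' : Fin n}

section
variable {M L : Fld K} {R : Rel M L} {A : Matrix (Fin n) (Fin n) M} {A' : Matrix (Fin n) (Fin n) L}

lemma rel_z0 (h : R.m' A A') : R.m' (z0 r r' A) (z0 r r' A') :=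
  fun a b => Rel.ite _ R.zero (h a b)

lemma rel_bl (h : R.m' A A') : R.m' (bl r r' A) (bl r r' A') := fun i j => by
  fin_cases i <;> fin_cases j <;> exact h _ _

lemma rel_put (h : R.m' A A') {B : Matrix (Fin 2) (Fin 2) M} {B' : Matrix (Fin 2) (Fin 2) L}
    (h' : R.m' B B') : R.m' (put r r' A B) (put r r' A' B') := fun a b =>
  Rel.ite _ (Rel.ite _ (h' _ _) (Rel.ite _ (h' _ _) (h a b)))
    (Rel.ite _ (Rel.ite _ (h' _ _) (Rel.ite _ (h' _ _) (h a b))) (h a b))

end

variable (T : TD K) (C : WD K cc)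

/-- The context. -/
noncomputable def Cx (r r' : Fin n) : WD K (cc.prod ((sq n).prod (.vec (Fin n)))) :=
  (C.prod (T.Ct n)).cl (fun _ z => z0 r r' z.2.1 = z.2.1)
    fun _ _ _ _ _ _ _ e h => Rel.meq (rel_z0 e.2.1) e.2.1 h

/-- The space of blocks over the context. -/
noncomputable def Qx (r r' : Fin n) : WD K ((cc.prod ((sq n).prod (.vec (Fin n)))).prod (sq 2)) :=
  T.Qb (Cx T C r r') (fun _ z => z.2.2 r) (fun _ z => z.2.2 r') (fun _ _ _ _ _ _ _ e => e.2.2 r)
    fun _ _ _ _ _ _ _ e => e.2.2 r'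

lemma weq (hr : r'.1 = r.1 + 1) : WEq (Qx T C r r') (C.prod (T.Ct n))
    fun _ z => (z.1.1, put r r' z.1.2.1 z.2, z.1.2.2) where
  reg _ _ _ _ _ _ _ e := ⟨e.1.1, rel_put e.1.2.1 e.2, e.1.2.2⟩
  mem _ _ m := ⟨m.1.1.1, trivial⟩
  ph L z _ := (add_zero _).symm
  gg L z m := by
    have h : z0 r r' z.1.2.1 = z.1.2.1 := m.1.2
    change C.g L z.1.1 * T.Om L (put r r' z.1.2.1 z.2) (bid z.1.2.2) =
      C.g L z.1.1 * T.Om L z.1.2.1 (bid z.1.2.2) *
        (T.fm L z.2 * (1 - !![z.1.2.2 r, 1; 0, z.1.2.2 r'] * z.2).det)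
    simp only [TD.Om, TD.fm, key3 hr _ h, key2 hr (tri_bid _) h, bl_bid hr, Finset.prod_mul_distrib]
    ring

lemma pro (hr : r'.1 = r.1 + 1) : Pro (Qx T C r r').S (C.prod (T.Ct n)).S
    fun _ z => (z.1.1, put r r' z.1.2.1 z.2, z.1.2.2) :=
  Pro.of_left (g := fun _ z => ((z.1, z0 r r' z.2.1, z.2.2), bl r r' z.2.1))
    ⟨fun _ _ _ _ _ _ _ e => ⟨⟨e.1, rel_z0 e.2.1, e.2.2⟩, rel_bl e.2.1⟩,
      fun _ _ m => ⟨⟨⟨m.1, trivial⟩, z0_z0⟩, trivial⟩⟩ (weq T C hr).toMp fun L z m => by
    have h : z0 r r' z.1.2.1 = z.1.2.1 := m.1.2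
    simp only [z0_put, bl_put hr, h]

variable {T C} {p : ℕ} {W : ASp K d}

lemma two [h1 : V1 K p] [h2 : S2b K p] (hr : r'.1 = r.1 + 1) {i j : ℕ} (hi : i = j + 1)
    (Θ : ANF p i (C.prod (T.Ct n)) W) {L M : Fld K} {α : L →ₐ[K] M} {q : M} (c : cc.X L)
    (A : Matrix (Fin n) (Fin n) L) (y : Fin n → L) (x₁ x₂ v s : L) (w : d.X L)
    (f : Free j α fun _ : Unit => q) (m : C.S.mem L c) (hy : y r ≠ y r') :
    Θ.e M (cc.map α c, put r r' (z0 r r' (A.map α)) !![α x₁, q; 0, α x₂], fun a => α (y a))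
        (α v) (α s) (d.map α w) +
      Θ.e M (cc.map α c, put r r' (z0 r r' (A.map α))
        (gx (α x₁) (α x₂) (α x₂ + q * α (y r - y r')) q), fun a => α (y a))
        (α v) (α s) (d.map α w) = 0 := by
  subst hi
  obtain ⟨Ψ, hΨ⟩ := h1.pull (weq T C hr) (pro T C hr) Θ
  have e : (z0 r r' A).map α = z0 r r' (A.map α) := by
    ext a b
    simp only [z0, map_apply, of_apply]
    split_ifs
    exacts [map_zero _, rfl]
  have := h2.rel T (Cx T C r r') _ _ _ _ Ψ L M α q (c, z0 r r' A, y) x₁ x₂ v s w f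
    ⟨⟨m, trivial⟩, z0_z0⟩ hy
  have k : ∀ B, (Qx T C r r').S.mem M ((cc.map α c, (z0 r r' A).map α, fun a => α (y a)), B) :=
    fun B => ⟨⟨⟨(C.S.map_iff α c).2 m, trivial⟩, by rw [e]; exact z0_z0⟩, trivial⟩
  rw [← e, ← hΨ M ((_, _, _), _) _ _ _ (k _), ← hΨ M ((_, _, _), _) _ _ _ (k _)]
  exact this

lemma val [h0 : FA1 K] [V1 K p] [S2b K p] (hr : r'.1 = r.1 + 1) {i j : ℕ}
    {Φ : ANF p j (C.prod (T.Tn n)) W} {Θ : ANF p i (C.prod (T.Ct n)) W} {ε : ℂ}
    (hi : i = j + Nat.card (UpN n)) (ha : Alt Φ) (hN : RelN Φ Θ ε) {L M : Fld K} {α : L →ₐ[K] M}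
    {U : UpN n → M} (c : cc.X L) (x y : Fin n → L) (v s : L) (w : d.X L) (f : Free j α U)
    (m : C.S.mem L c) :
    Θ.e M (cc.map α c, sgm r r' (diagonal (fun a => α (x a)) + upm Fin.val U, fun a => α (y a)))
      (α v) (α s) (d.map α w) = ε * Φ.e L (c, x, y) v s w := by
  have h1 := ne_of hr
  have h2 := lt_of hr
  by_cases hy : y r = y r'
  · rw [← hN L M α U c x y v s w f]
    have e : (fun a => α (y (Equiv.swap r r' a))) = fun a => α (y a) := funext fun a => by
      rw [Equiv.apply_swap_eq_self hy]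
    simp only [sgm, hy, sub_self, neg_zero, hS, single_zero, add_zero, one_mul, mul_one, e]
  set X := diagonal (fun a => α (x a)) + upm Fin.val U with hX
  set S := α (y r) - α (y r') with hS'
  set X' := hS r r' S * X * hS r r' (-S) with hX'
  let U' : UpN n → M := fun a => X' a.1.1 a.1.2
  have f' : Free j α U' := h0.of_gen f rfl fun a => by
    have g1 : ∀ t, α t ∈ gen α U' := fun t => IntermediateField.subset_adjoin _ _ (.inl ⟨t, rfl⟩)
    have := mem_cj (A := X) (gen α U') hr (sub_mem (g1 (y r)) (g1 (y r')))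
      (fun a b k => IntermediateField.subset_adjoin _ _ (.inr ⟨⟨(a, b), k⟩, rfl⟩)) a.1.1 a.1.2 a.2
    rwa [hX, up_du _ _ _ _ a.2] at this
  let s₀ : UpN n := ⟨(r, r'), h2⟩
  obtain ⟨M₁, α₁, β, T₁, e1, e2, f1, f2⟩ := h0.split f' (· ≠ s₀)
  have f3 : Free (j + Nat.card {a // a ≠ s₀}) β fun _ : Unit => U' s₀ :=
    h0.of_gen f2 (by simp) fun a => by
      rw [not_not.1 a.2]
      exact IntermediateField.subset_adjoin _ _ (.inr ⟨(), rfl⟩)
  have hc : Nat.card (UpN n) = Nat.card {a // a ≠ s₀} + 1 := by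
    rw [← Finite.card_option]
    exact Nat.card_congr (Equiv.optionSubtypeNe s₀).symm
  have b : ∀ t, β (α₁ t) = α t := fun t => by rw [← e1]; rfl
  have b' : ∀ {c : Cd} (t : c.X L), c.map β (c.map α₁ t) = c.map α t := fun t => by
    rw [Cd.map_map]
    exact Cd.map_congr _ fun _ => b _
  have q0 : U' s₀ ≠ 0 := fun e => by
    have := h0.ne f' (MvPolynomial.X s₀) (MvPolynomial.X_ne_zero _)
    rw [MvPolynomial.eval₂_X] at this
    exact this e
  have hq : U' s₀ = X r r' := by
    change X' r r' = _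
    rw [hX', cj, if_neg h1, if_neg h1.symm, add_zero, sub_zero]
  have := two hr (j := j + Nat.card {a // a ≠ s₀}) (by omega) Θ (cc.map α₁ c)
    (diagonal (fun a => α₁ (x (Equiv.swap r r' a))) +
      upm Fin.val fun a => if h : a ≠ s₀ then T₁ ⟨a, h⟩ else 0)
    (fun a => α₁ (y (Equiv.swap r r' a))) (α₁ (x r')) (α₁ (x r)) (α₁ v) (α₁ s) (d.map α₁ w) f3
    ((C.S.map_iff α₁ c).2 m) (by
      simp only [Equiv.swap_apply_left, Equiv.swap_apply_right]
      exact fun e => hy (α₁.injective e).symm)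
  have z1 : z0 r r' ((diagonal (fun a => α₁ (x (Equiv.swap r r' a))) +
      upm Fin.val fun a => if h : a ≠ s₀ then T₁ ⟨a, h⟩ else 0).map β) =
      z0 r r' (diagonal (fun a => α (x (Equiv.swap r r' a))) + upm Fin.val U') :=
    z0_eq hr (fun a b k k' => by
      rw [map_apply, up_du _ _ _ _ k, up_du _ _ _ _ k, dif_pos, e2]
      intro e
      have := congrArg Subtype.val e
      exact k' (Prod.ext_iff.1 this)) fun a _ _ => by rw [map_apply, dg_du, dg_du, b]
  have z2 : z0 r r' (diagonal (fun a => α (x (Equiv.swap r r' a))) + upm Fin.val U') =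
      z0 r r' X' :=
    z0_eq hr (fun a b k _ => up_du _ _ _ _ k) fun a i i' => by
      rw [dg_du, Equiv.swap_apply_of_ne_of_ne i i', hX', cj, if_neg i, if_neg i', hX, dg_du, add_zero,
        sub_zero]
  have z3 : !![α (x r'), U' s₀; 0, α (x r)] =
      bl r r' (diagonal (fun a => α (x (Equiv.swap r r' a))) + upm Fin.val U') := by
    rw [bl, dg_du, dg_du, up_du _ _ _ _ h2, tri_du _ _ _ _ h2, Equiv.swap_apply_left,
      Equiv.swap_apply_right]
  have z4 : gx (α (x r')) (α (x r)) (α (x r) + U' s₀ * (α (y r') - α (y r))) (U' s₀) =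
      bl r r' X' := by
    have d1 : X r r = α (x r) := dg_du _ _ _
    have d2 : X r' r' = α (x r') := dg_du _ _ _
    have d3 : X r' r = 0 := tri_du _ _ _ _ h2
    rw [hq] at q0
    rw [hq, bl, gx, hX']
    simp only [cj, if_neg h1, if_neg h1.symm, if_pos, d1, d2, d3, hS']
    congr 1
    ext i j
    fin_cases i <;> fin_cases j <;> simp <;> field_simp <;> ring
  simp only [b, b', z1, map_sub, Equiv.swap_apply_left, Equiv.swap_apply_right] at this
  rw [z3, put_eq hr fun a b k _ => tri_du _ _ _ _ k, z4, z2, put_eq hr (at_cj hr (tri_du _ _)),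
    hN L M α U' c (fun a => x (Equiv.swap r r' a)) (fun a => y (Equiv.swap r r' a)) v s w f',
    ha r r' h1] at this
  rw [← sub_eq_zero, ← this]
  simp only [sgm]
  ring

end SSa

variable {K : Type} [Field K] [Base K] {p : ℕ} [Fact p.Prime] [CharP K p] [FW0 K] [FWp K p]

theorem SS_thm (_h2 : (2 : K) ≠ 0) [h1 : V1 K p] [hB : SB K] [hU : SU K p] [S2b K p] : SS K p where
  inv {T cc d C W n i j} Φ Θ ε hi ha hN r r' hr L c z v s w := by
    obtain ⟨g1, g2⟩ := hB.sg T hr
    have e : WEq (C.prod (T.Ct n)) (C.prod (T.Ct n)) fun _ z => (z.1, sgm r r' z.2) :=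
      ⟨⟨⟨fun _ _ R _ _ m m' e => ⟨e.1, g1.reg R m.2 m'.2 e.2⟩, fun _ _ m => ⟨m.1, trivial⟩⟩,
        fun L z m => congrArg (C.φ L z.1 + ·) (g1.ph L z.2 m.2)⟩,
        fun L z m => congrArg (C.g L z.1 * ·) (g1.gg L z.2 m.2)⟩
    have o : ∀ {i} (Θ : ANF p i (C.prod (T.Ct n)) W) L c z v s w, ¬ C.S.mem L c →
        Θ.e L (c, z) v s w = 0 := fun Θ L c z v s w m => by
      by_contra k
      exact m (h1.mem Θ k).2.1.1
    by_cases m : C.S.mem L c
    swap
    · rw [o Θ _ _ _ _ _ _ m, o Θ _ _ _ _ _ _ m]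
    obtain ⟨Θ', h'⟩ := h1.pull e
      (Pro.of_left e.toMp e.toMp fun L z _ => Prod.ext rfl (g2 L z.2)) Θ
    obtain ⟨D, hD⟩ := h1.comb 1 (-1) Θ' Θ
    have := hU.uniq D (fun j' L M α U c x y v s w hj f => by
      obtain rfl : j' = j := by omega
      by_cases m : C.S.mem L c
      · rw [hD, h' M (_, _) _ _ _ ⟨(C.S.map_iff α c).2 m, trivial⟩, hN L M α U c x y v s w f]
        simp only
        rw [SSa.val hr hi ha hN c x y v s w f m]
        ring
      · exact o D _ _ _ _ _ _ fun k => m ((C.S.map_iff α c).1 k)) L (c, z) v s w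
    rw [hD, h' L (c, z) _ _ _ ⟨m, trivial⟩] at this
    linear_combination this

end Pool.Agent.Lib.MP_557161_ag.HG.TW
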