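import Pool.Agent.Lib.MP_557161_ag.TW.StS

/-!
Uniqueness for bidiagonal matrices.
-/

namespace Pool.Agent.Lib.MP_557161_ag.HG.TW

open Pool.Agent.Lib.MP_557161_ag.DL Matrix

namespace SUa

section Mat

variable {F : Type} [Field F] {m n : ℕ}

/-- The free positions of a triangular matrix whose last column is the last unit vector. -/
abbrev kap (m : ℕ) : Type := {z : Fin (m + 1) × Fin (m + 1) // z.1 ≤ z.2 ∧ z.2 ≠ Fin.last m}

/-- The triangular matrix with given entries. -/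
def bm (t : kap m → F) : Matrix (Fin (m + 1)) (Fin (m + 1)) F :=
  Matrix.of fun i l => if h : i ≤ l ∧ l ≠ Fin.last m then t ⟨(i, l), h⟩ else if i = l then 1 else 0

lemma bm_tri (t : kap m → F) : (bm t).BlockTriangular Fin.val := fun i l h => by
  have h' : l < i := h
  simp [bm, h'.not_ge, h'.ne']

lemma bm_last (t : kap m → F) (i : Fin (m + 1)) :
    bm t i (Fin.last m) = if i = Fin.last m then 1 else 0 := by simp [bm]

lemma bm_ent (t : kap m → F) (z : kap m) : bm t z.1.1 z.1.2 = t z := dif_pos z.2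

lemma tri_det {A : Matrix (Fin n) (Fin n) F} (t : A.BlockTriangular Fin.val) :
    A.det = ∏ i, A i i := det_of_isUpperTriangular (M := A) fun _ _ h => t h

lemma bm_det {t : kap m → F} (h : ∀ z : kap m, z.1.1 = z.1.2 → t z ≠ 0) : (bm t).det ≠ 0 := by
  rw [tri_det (bm_tri t)]
  refine Finset.prod_ne_zero_iff.2 fun i _ => ?_
  by_cases e : i = Fin.last m
  · subst e
    rw [bm_last, if_pos rfl]
    exact one_ne_zero
  · exact (bm_ent t ⟨(i, i), le_rfl, e⟩).symm ▸ h ⟨(i, i), le_rfl, e⟩ rfl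

lemma ent_ne {b : Matrix (Fin (m + 1)) (Fin (m + 1)) F} (t : b.BlockTriangular Fin.val)
    (h : b.det ≠ 0) (z : kap m) (e : z.1.1 = z.1.2) : b z.1.1 z.1.2 ≠ 0 := by
  rw [tri_det t] at h
  rw [← e]
  exact Finset.prod_ne_zero_iff.1 h _ (Finset.mem_univ _)

lemma bm_eq {b : Matrix (Fin (m + 1)) (Fin (m + 1)) F} (t : b.BlockTriangular Fin.val)
    (h : ∀ i, b i (Fin.last m) = if i = Fin.last m then 1 else 0) :
    bm (fun z => b z.1.1 z.1.2) = b := by
  ext i l
  by_cases e : l = Fin.last m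
  · subst e
    rw [bm_last, h]
  · by_cases e' : i ≤ l
    · exact dif_pos ⟨e', e⟩
    · rw [bm_tri _ (not_le.1 e'), t (not_le.1 e')]

lemma inv_tri {A : Matrix (Fin n) (Fin n) F} (t : A.BlockTriangular Fin.val) (h : A.det ≠ 0) :
    A⁻¹.BlockTriangular Fin.val := by
  let _ := invertibleOfIsUnitDet A (Ne.isUnit h)
  exact blockTriangular_inv_of_blockTriangular t

lemma bid_tri (y : Fin n → F) : (bid y).BlockTriangular Fin.val := fun i l h => by
  have h' : l < i := h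
  have : ¬ i.1 + 1 = l.1 := by omega
  simp [bid, h'.ne', this]

lemma bid_diag (y : Fin n → F) (i : Fin n) : bid y i i = y i := by simp [bid]

lemma low_iff {Y : Matrix (Fin n) (Fin n) F} {y : Fin n → F} :
    (∀ i l : Fin n, ¬ i.1 < l.1 → Y i l = diagonal y i l) ↔
      Y.BlockTriangular Fin.val ∧ ∀ i, Y i i = y i := by
  refine ⟨fun h => ⟨fun i l e => ?_, fun i => ?_⟩, fun h i l e => ?_⟩
  · rw [h i l e.not_gt, blockTriangular_diagonal y e]
  · rw [h i i (lt_irrefl _), diagonal_apply_eq]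
  · rcases (not_lt.1 e).lt_or_eq with e' | e'
    · rw [h.1 e', blockTriangular_diagonal y e']
    · rw [Fin.ext e', h.2, diagonal_apply_eq]

lemma du_tri (x : Fin n → F) (U : UpN n → F) :
    (diagonal x + upm Fin.val U).BlockTriangular Fin.val :=
  (blockTriangular_diagonal x).add fun _ _ h => dif_neg h.not_gt

lemma du_diag (x : Fin n → F) (U : UpN n → F) (i : Fin n) :
    (diagonal x + upm Fin.val U) i i = x i := by simp [upm]

lemma du_up (x : Fin n → F) (U : UpN n → F) (z : UpN n) :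
    (diagonal x + upm Fin.val U) z.1.1 z.1.2 = U z := by
  rw [Matrix.add_apply, diagonal_apply_ne _ fun e => z.2.ne (congrArg _ e), zero_add]
  exact dif_pos z.2

lemma du_eq {X : Matrix (Fin n) (Fin n) F} (t : X.BlockTriangular Fin.val) :
    diagonal (fun i => X i i) + upm Fin.val (fun z => X z.1.1 z.1.2) = X := by
  ext i j
  rcases lt_trichotomy i.1 j.1 with l | l | l
  · exact du_up _ _ ⟨(i, j), l⟩
  · rw [Fin.ext l, du_diag]
  · rw [du_tri _ _ l, t l]

end Mat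

variable {K : Type} [Field K] {cc d : Cd} {m n i p : ℕ}

lemma rel_bm {M L : Fld K} {R : Rel M L} {t : kap m → M} {t' : kap m → L}
    (h : ∀ z, R.r (t z) (t' z)) : R.m' (bm t) (bm t') := fun i l => by
  simp only [bm, of_apply]
  split_ifs
  exacts [h _, R.one, R.zero]

variable (T : TD K) (C : WD K cc)

/-- The source of the embedding. -/
noncomputable abbrev src (m : ℕ) :=
  (C.prod (T.Ct (m + 1))).prod (Tor K (kap m) fun z => z.1.1 = z.1.2)

/-- The target of the embedding. -/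
noncomputable abbrev tgt (m : ℕ) :=
  T.KS (C.prod (Aff K (.vec (Fin (m + 1))))) Fin.val (fun _ z => diagonal z.2)
    fun _ _ _ _ _ _ _ e => Rel.mdiag e.2

/-- The embedding. -/
noncomputable def fw (cc : Cd) (m : ℕ) (L : Fld K)
    (z : ((cc.prod ((sq (m + 1)).prod (.vec (Fin (m + 1))))).prod (.vec (kap m))).X L) :
    ((cc.prod (.vec (Fin (m + 1)))).prod ((sq (m + 1)).prod (sq (m + 1)))).X L :=
  ((z.1.1, z.1.2.2), bm z.2 * z.1.2.1 * (bm z.2)⁻¹, bm z.2 * bid z.1.2.2 * (bm z.2)⁻¹)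

/-- Its inverse. -/
noncomputable def bw (cc : Cd) (nb : ∀ L : Fld K, (sq (m + 1)).X L → (sq (m + 1)).X L) (L : Fld K)
    (z : ((cc.prod (.vec (Fin (m + 1)))).prod ((sq (m + 1)).prod (sq (m + 1)))).X L) :
    ((cc.prod ((sq (m + 1)).prod (.vec (Fin (m + 1))))).prod (.vec (kap m))).X L :=
  ((z.1.1, (nb L z.2.2)⁻¹ * z.2.1 * nb L z.2.2, z.1.2), fun a => nb L z.2.2 a.1.1 a.1.2)

lemma src_det {L : Fld K} {z} (h : (src T C m).S.mem L z) : (bm z.2).det ≠ 0 := bm_det h.2.2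

lemma fw_reg : Reg (src T C m).S _ (fw cc m) := fun _ _ _ _ _ _ m' e =>
  have := Rel.minv (rel_bm e.2) (src_det T C m')
  ⟨⟨e.1.1, e.1.2.2⟩, Rel.mmul (Rel.mmul (rel_bm e.2) e.1.2.1) this,
    Rel.mmul (Rel.mmul (rel_bm e.2) (rel_bid e.1.2.2)) this⟩

variable {T C} {W : ASp K d}

lemma lift0 [V1 K p] [SB K] [SK K p] (Ψ : ANF p i (src T C m) W)
    (h : ∀ L z v s w, Matrix.BlockTriangular z.1.2.1 Fin.val → Ψ.e L z v s w = 0) (L z v s w) :
    Ψ.e L z v s w = 0 := by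
  obtain ⟨nb, hr, h1, h2⟩ := SB.nb (K := K) m
  let U := (tgt T C m).S.opn (fun L z => (nb L z.2.2).det ≠ 0) fun _ _ R _ _ _ _ e o =>
    Rel.ne_zero (Rel.det (hr R trivial trivial e.2.2)) o
  have k := fun L z (mz : (src T C m).S.mem L z) =>
    h2 L (bm z.2) z.1.2.2 (bm_tri _) (src_det T C mz) (bm_last _)
  have fm : ∀ L z, (src T C m).S.mem L z → U.mem L (fw cc m L z) := fun L z mz =>
    ⟨⟨⟨⟨mz.1.1, trivial⟩, trivial⟩, low_iff.2 (k L z mz).2⟩,
      (congrArg det (k L z mz).1).trans_ne (src_det T C mz)⟩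
  have we : WEq (src T C m) (tgt T C m) (fw cc m) :=
    ⟨⟨⟨fw_reg T C, fun L z mz => (fm L z mz).1⟩, fun _ _ _ => rfl⟩, fun L z mz => by
      change C.g L z.1.1 * 1 * T.Om L (bm z.2 * z.1.2.1 * (bm z.2)⁻¹)
        (bm z.2 * bid z.1.2.2 * (bm z.2)⁻¹) = C.g L z.1.1 * T.Om L z.1.2.1 (bid z.1.2.2) * 1
      rw [SB.conj T L _ _ _ _ (nonsing_inv_mul _ (src_det T C mz).isUnit), mul_one, mul_one]⟩
  have k' := fun L z (mz : U.mem L z) => h1 L z.2.2 (low_iff.1 mz.1.2).1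
  have is : Iso (src T C m).S U (fw cc m) (bw cc nb) :=
    ⟨⟨fw_reg T C, fm⟩, ⟨fun _ _ R _ _ _ m' e =>
      have := hr R trivial trivial e.2.2
      ⟨⟨e.1.1, Rel.mmul (Rel.mmul (Rel.minv this m'.2) e.2.1) this, e.1.2⟩, fun a => this _ _⟩,
      fun L z mz => ⟨⟨mz.1.1.1.1, trivial⟩, trivial, ent_ne (k' L z mz).1 mz.2⟩⟩,
      fun L z mz => by
        have u := (src_det T C mz).isUnit
        simp only [fw, bw, (k L z mz).1]
        simp only [bm_ent, Matrix.mul_assoc, nonsing_inv_mul _ u, Matrix.mul_one,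
          nonsing_inv_mul_cancel_left _ _ u],
      fun L z mz => by
        have u := mz.2.isUnit
        have e : z.1.2 = fun i => z.2.2 i i := funext fun i => ((low_iff.1 mz.1.2).2 i).symm
        refine Prod.ext rfl (Prod.ext ?_ ?_)
        · simp only [fw, bw, bm_eq (k' L z mz).1 (k' L z mz).2.1, Matrix.mul_assoc,
            mul_nonsing_inv _ u, Matrix.mul_one, mul_nonsing_inv_cancel_left _ _ u]
        · simp only [fw, bw, bm_eq (k' L z mz).1 (k' L z mz).2.1]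
          rw [e, ← (k' L z mz).2.2, mul_nonsing_inv_cancel_right _ _ u]⟩
  obtain ⟨Φ, e1, e2⟩ := V1.emb U we is (fun _ O _ _ mz mz' e =>
    ⟨mz, Rel.ne_zero (Rel.det (hr (Rel.ofPl O) trivial trivial e.2.2)) mz'.2⟩) Ψ
  have z0 := SK.kill T _ Fin.val _ _ (fun _ _ _ => blockTriangular_diagonal _) Φ
    fun L z v s w t => by
      by_contra n
      have mz := e2 L z v s w n
      refine n ?_
      rw [← is.fg L z mz, e1 L _ v s w (is.mg.mem L z mz)]
      exact h L _ v s w (((inv_tri (k' L z mz).1 mz.2).mul t).mul (k' L z mz).1)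
  by_contra n
  exact n ((e1 L z v s w (V1.mem Ψ n).2.1).symm.trans (z0 L _ v s w))

lemma tri [FA1 K] [V1 K p] [V2 K p] [SB K] [SK K p] (Θ : ANF p i (C.prod (T.Ct n)) W)
    (h : ∀ L z v s w, Matrix.BlockTriangular z.2.1 Fin.val → Θ.e L z v s w = 0) (L z v s w) :
    Θ.e L z v s w = 0 := by
  cases n with
  | zero => exact h L z v s w fun i => i.elim0
  | succ m =>
    obtain ⟨Ψ, e⟩ := V2.lift (κ := kap m) (fun z => z.1.1 = z.1.2) Θ
    have z0 := lift0 Ψ fun L z v s w t =>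
      V2.up _ Ψ (fun _ z => Matrix.BlockTriangular z.2.1 Fin.val)
        (fun _ _ _ _ _ _ _ e t => Rel.tri e.2.1 t)
        (fun j L M α U x v s w hj f _ t => by
          obtain rfl : i = j := Nat.add_right_cancel hj
          exact (e L M α U x v s w f).trans (h L x v s w t)) L z.1 z.2 v s w t
    by_contra n
    exact n ((e L _ _ _ z v s w (FA1.fr_free (kap m) (V1.mem Θ n).1)).symm.trans (z0 _ _ _ _ _))

lemma uniq [FA1 K] [V1 K p] [V2 K p] [SB K] [SK K p] (Θ : ANF p i (C.prod (T.Ct n)) W)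
    (h : ∀ (j : ℕ) (L M : Fld K) (α : L →ₐ[K] M) (U : UpN n → M) c (x y : Fin n → L) v s w,
      i = j + Nat.card (UpN n) → Free j α U →
      Θ.e M (cc.map α c, diagonal (fun a => α (x a)) + upm Fin.val U, fun a => α (y a)) (α v) (α s)
        (d.map α w) = 0) (L z v s w) : Θ.e L z v s w = 0 := by
  have mf : Mp ((C.prod (T.Tn n)).prod (Tor K (UpN n) fun _ => False)).S (C.prod (T.Ct n)).S
      fun _ z => (z.1.1, diagonal z.1.2.1 + upm Fin.val z.2, z.1.2.2) :=
    ⟨fun _ _ _ _ _ _ _ e => ⟨e.1.1, Rel.madd (Rel.mdiag e.1.2.1) (Rel.mupm _ e.2), e.1.2.2⟩,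
      fun _ _ m => ⟨m.1.1, trivial⟩⟩
  obtain ⟨Ψ, e⟩ := V1.pull (E := C.prod (T.Ct n))
    (E' := (C.prod (T.Tn n)).prod (Tor K (UpN n) fun _ => False))
    ⟨⟨mf, fun _ _ _ => (add_zero _).symm⟩, fun L z _ => by
      change C.g L z.1.1 * T.Om L (diagonal z.1.2.1 + upm Fin.val z.2) (bid z.1.2.2) =
        C.g L z.1.1 * (∏ i, T.om1 L (z.1.2.1 i) (z.1.2.2 i)) * 1
      simp only [SB.tri T L _ _ (du_tri _ _) (bid_tri _), du_diag, bid_diag, mul_one]⟩
    (Pro.of_left (g := fun _ z => ((z.1, fun i => z.2.1 i i, z.2.2), fun a => z.2.1 a.1.1 a.1.2))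
      ⟨fun _ _ _ _ _ _ _ e => ⟨⟨e.1, fun i => e.2.1 i i, e.2.2⟩, fun a => e.2.1 _ _⟩,
        fun _ _ m => ⟨⟨m.1, trivial⟩, trivial, fun _ => False.elim⟩⟩ mf
      fun L z _ => by simp only [du_diag, du_up]) Θ
  refine tri Θ (fun L z v s w t => ?_) L z v s w
  by_contra n
  have m := (V1.mem Θ n).2.1
  have := V2.up _ Ψ (fun _ _ => True) (fun _ _ _ _ _ _ _ _ _ => trivial)
    (fun j L M α U x v s w hj f m _ =>
      (e M _ _ _ _ ⟨((C.prod (T.Tn _)).S.map_iff α x).2 m, trivial, fun _ => False.elim⟩).trans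
        (h j L M α U x.1 x.2.1 x.2.2 v s w hj f))
    L (z.1, fun i => z.2.1 i i, z.2.2) (fun a => z.2.1 a.1.1 a.1.2) v s w trivial
  rw [e L _ v s w ⟨⟨m.1, trivial⟩, trivial, fun _ => False.elim⟩] at this
  simp only [du_eq t] at this
  exact n this

end SUa

theorem SU_thm {K : Type} [Field K] [Base K] {p : ℕ} [Fact p.Prime] [CharP K p] [FW0 K] [FWp K p]
    (_h2 : (2 : K) ≠ 0) [V1 K p] [V2 K p] [V3 K p] [SB K] [SK K p] : SU K p :=
  ⟨SUa.tri, SUa.uniq⟩

end Pool.Agent.Lib.MP_557161_ag.HG.TW
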