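import Pool.Agent.Lib.MP_557161_ag.TW.Wd

/-!
Basic operations on odd functionals.
-/

namespace Pool.Agent.Lib.MP_557161_ag.HG.TW

open Pool.Agent.Lib.MP_557161_ag.DL Matrix

variable {K : Type} [Field K] {p : ℕ} {c c' d : Cd}

namespace V1a

variable {E : WD K c} {E' : WD K c'} {W : ASp K d} {f : ∀ L : Fld K, c'.X L → c.X L} {j : ℕ}

lemma pmp (e : WEq E' E f) : PMp E'.v E.v fun L x => (f L x.1, x.2) where
  reg _ _ R _ _ m m' l := ⟨e.reg R m.1 m'.1 l.1, l.2⟩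
  mem L _ m := ⟨e.mem L _ m.1, trivial⟩
  ph L x m := by
    change E.φ L (f L x.1) + E.g L (f L x.1) * x.2 ^ 2 = E'.φ L x.1 + E'.g L x.1 * x.2 ^ 2
    rw [e.ph L _ m.1, e.gg L _ m.1]

lemma pro (hp : Pro E'.S E.S f) : Pro E'.v.S E.v.S fun L x => (f L x.1, x.2) := by
  intro M O x z hO m mz l
  obtain ⟨x', m', l'⟩ := hp M O x.1 z.1 hO m.1 mz.1 l.1
  exact ⟨(x', z.2), ⟨m', trivial⟩, l', l.2⟩

lemma srj (hs : Srj E'.S E.S f) : Srj E'.v.S E.v.S fun L x => (f L x.1, x.2) := by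
  intro L _ z mz
  obtain ⟨x, m, ex⟩ := hs L z.1 mz.1
  exact ⟨(x, z.2), ⟨m, trivial⟩, Prod.ext ex rfl⟩

lemma weq (S' : ASp K c) (h : ∀ L x, S'.mem L x → E.S.mem L x) :
    WEq (E.res S' h) E fun _ x => x :=
  ⟨⟨⟨Reg.id _, h⟩, fun _ _ _ => rfl⟩, fun _ _ _ => rfl⟩

variable [h1 : FC1 K p]

lemma zero (Φ : NF p j E.v W) {L : Fld K} {x : c.X L} (v y : L) (w : d.X L)
    (h : ¬ E.S.mem L x) : Φ.b L (x, v) y w = 0 := by
  by_contra e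
  exact h (h1.mem Φ e).2.1.1

/-- Oddness has to be checked on the space only. -/
def mk' (Φ : NF p j E.v W) (h : ∀ (L : Fld K) (x : c.X L) (v y : L) (w : d.X L), E.S.mem L x →
    Φ.b L (x, -v) y w = -Φ.b L (x, v) y w) : ANF p j E W :=
  ⟨Φ, fun L x v y w => by
    by_cases m : E.S.mem L x
    · exact h L x v y w m
    · rw [zero Φ _ _ _ m, zero Φ _ _ _ m, neg_zero]⟩

lemma pull (e : WEq E' E f) (hp : Pro E'.S E.S f) (Φ : ANF p j E W) :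
    ∃ Φ' : ANF p j E' W, ∀ L x v y w, E'.S.mem L x → Φ'.e L x v y w = Φ.e L (f L x) v y w := by
  obtain ⟨Φ', h⟩ := h1.pull (pmp e) (pro hp) Φ.toNF
  have k : ∀ L x v y w, E'.S.mem L x → Φ'.b L (x, v) y w = Φ.e L (f L x) v y w :=
    fun L x v y w m => h L (x, v) y w ⟨m, trivial⟩
  exact ⟨mk' Φ' fun L x v y w m => by rw [k _ _ _ _ _ m, k _ _ _ _ _ m]; exact Φ.anti _ _ _ _ _, k⟩

lemma res {E' : WD K c} (e : WEq E' E fun _ x => x) (Φ : ANF p j E W)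
    (hs : ∀ L x v y w, Φ.e L x v y w ≠ 0 → E'.S.mem L x) :
    ∃ Φ' : ANF p j E' W, ∀ L x v y w, Φ'.e L x v y w = Φ.e L x v y w := by
  obtain ⟨Φ', h⟩ := h1.res (pmp e) Φ.toNF fun L x y w k => ⟨hs L x.1 x.2 y w k, trivial⟩
  exact ⟨⟨Φ', fun L x v y w => by rw [h, h]; exact Φ.anti _ _ _ _ _⟩, fun L x v y w => h _ _ _ _⟩

lemma ext {E' : WD K c} (e : WEq E' E fun _ x => x) (o : AOpn E'.S E.S) (Φ' : ANF p j E' W) :
    ∃ Φ : ANF p j E W, ∀ L x v y w, Φ.e L x v y w = Φ'.e L x v y w := by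
  obtain ⟨Φ, h⟩ := h1.ext (pmp e)
    (fun M O x x' m m' l => ⟨o M O x.1 x'.1 m.1 m'.1 l.1, trivial⟩) Φ'.toNF
  exact ⟨⟨Φ, fun L x v y w => by rw [h, h]; exact Φ'.anti _ _ _ _ _⟩, fun L x v y w => h _ _ _ _⟩

lemma gm [h2 : FC2 K p] (W : ASp K d) {γ : ∀ L : Fld K, (Cd.one.prod c).X L → c.X L} {k : ℤ}
    (a : GmAct E γ k) : AV p E W := by
  intro j Φ L x v y w
  by_cases m : E.S.mem L x
  swap
  · exact zero Φ.toNF _ _ _ m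
  have h := h2.conn (E := E.v) (.gm K) (fun L z => (γ L (z.1 ^ 2, z.2.1), z.2.2 * z.1 ^ (-k)))
    (fun L z => (γ L ((z.1 ^ 2)⁻¹, z.2.1), z.2.2 * z.1 ^ k))
    ⟨fun _ _ R z z' m m' l => ⟨a.mp.reg R (x := (z.1 ^ 2, z.2.1)) (x' := (z'.1 ^ 2, z'.2.1))
        ⟨pow_ne_zero 2 m.1, m.2.1⟩ ⟨pow_ne_zero 2 m'.1, m'.2.1⟩ ⟨Rel.pow l.1 2, l.2.1⟩,
        R.mul l.2.2 (Rel.zpow l.1 m'.1 _)⟩,
      fun L z m => ⟨a.mp.mem L (z.1 ^ 2, z.2.1) ⟨pow_ne_zero 2 m.1, m.2.1⟩, trivial⟩⟩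
    ⟨fun _ _ R z z' m m' l => ⟨a.mp.reg R (x := ((z.1 ^ 2)⁻¹, z.2.1))
        (x' := ((z'.1 ^ 2)⁻¹, z'.2.1)) ⟨inv_ne_zero (pow_ne_zero 2 m.1), m.2.1⟩
        ⟨inv_ne_zero (pow_ne_zero 2 m'.1), m'.2.1⟩
        ⟨R.inv (Rel.pow l.1 2) (pow_ne_zero 2 m'.1), l.2.1⟩, R.mul l.2.2 (Rel.zpow l.1 m'.1 _)⟩,
      fun L z m => ⟨a.mp.mem L ((z.1 ^ 2)⁻¹, z.2.1) ⟨inv_ne_zero (pow_ne_zero 2 m.1), m.2.1⟩,
        trivial⟩⟩
    (fun L t z (ht : t ≠ 0) m => ⟨Prod.ext (a.inv L _ _ (pow_ne_zero 2 ht) m.1) (by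
        change z.2 * t ^ (-k) * t ^ k = z.2
        rw [mul_assoc, ← zpow_add₀ ht, neg_add_cancel, zpow_zero, mul_one]), by
      change E.φ L (γ L (t ^ 2, z.1)) + E.g L (γ L (t ^ 2, z.1)) * (z.2 * t ^ (-k)) ^ 2
        = E.φ L z.1 + E.g L z.1 * z.2 ^ 2
      have e : (t ^ 2) ^ k = (t ^ k) ^ 2 := by
        rw [← zpow_natCast, ← zpow_natCast, ← _root_.zpow_mul, ← _root_.zpow_mul, mul_comm]
      have n := zpow_ne_zero k ht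
      rw [a.ph L _ _ (pow_ne_zero 2 ht) m.1, a.gg L _ _ (pow_ne_zero 2 ht) m.1, e, _root_.zpow_neg]
      field_simp⟩)
    (fun L T hT (h0 : T = 0) => hT (h0 ▸ isAlgebraic_zero)) (-1) 1
    (neg_ne_zero.2 one_ne_zero) one_ne_zero Φ.toNF L (x, v) y w ⟨m, trivial⟩
  simp only [map_neg, map_one, neg_one_sq, one_pow, a.one L x m, a.odd.neg.neg_one_zpow,
    _root_.one_zpow, mul_one, mul_neg, Φ.anti] at h
  exact self_eq_neg.1 h.symm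

lemma mem [FC2 K p] (Φ : ANF p j E W) {L : Fld K} {x : c.X L} {v y : L} {w : d.X L}
    (h : Φ.e L x v y w ≠ 0) : Good j L ∧ E.S.mem L x ∧
      y ^ p - y = E.φ L x + E.g L x * v ^ 2 ∧ W.mem L w ∧ E.g L x ≠ 0 ∧ v ≠ 0 := by
  obtain ⟨a1, a2, a3, a4⟩ := h1.mem Φ.toNF h
  refine ⟨a1, a2.1, a3, a4, fun h0 => h ?_, fun h0 => h ?_⟩
  · obtain ⟨Φ', k⟩ := pull (E' := E.cl (fun L x => E.g L x = 0)
      fun _ _ R _ _ m m' e => Rel.eq_zero (E.rg R m m' e)) (weq _ _)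
      (fun M O x z _ m mz l => ⟨z, ⟨mz, Rel.eq_zero (E.rg _ m.1 mz l) m.2⟩, l⟩) Φ
    rw [← k L x v y w ⟨a2.1, h0⟩]
    exact gm W (γ := fun _ z => z.2) (k := 1) ⟨⟨fun _ _ _ _ _ _ _ l => l.2, fun _ _ m => m.2⟩,
      fun _ _ _ => rfl, fun _ _ _ _ _ => rfl, fun _ _ _ _ _ => rfl, fun L t x _ m => by
        change E.g L x = t ^ (1 : ℤ) * E.g L x
        rw [show E.g L x = 0 from m.2, mul_zero], odd_one⟩ _ _ _ _ _ _ _
  · have := Φ.anti L x v y w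
    rw [h0, neg_zero] at this
    rw [h0]
    exact self_eq_neg.1 this

end V1a

open V1a in
theorem V1_thm [Base K] [Fact p.Prime] [CharP K p] [FW0 K] [FWp K p] (_h2 : (2 : K) ≠ 0) :
    V1 K p where
  mem Φ _ _ _ _ _ h := mem Φ h
  map Φ _ _ ι x v y w h h' :=
    ⟨Φ.ext ι (some (((x, v), y), w)) h h', HG.deg_ne (Good.fin ι h' h.2)⟩
  pull e hp _ Φ := pull e hp Φ
  res e _ Φ hs := res e Φ hs
  ext e o _ Φ := ext e o Φ
  emb {c c' d E E' W f f'} U e i o j Φ' := by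
    have hU : ∀ L x, U.mem L x → E.S.mem L x := fun L x m =>
      i.fg L x m ▸ e.mem L _ (i.mg.mem L x m)
    obtain ⟨Φ₁, k₁⟩ := pull (E := E') (E' := E.res U hU) (f := f') ⟨⟨i.mg, fun L z m => by
      rw [← e.ph L _ (i.mg.mem L z m), i.fg L z m]; rfl⟩, fun L z m => by
      rw [← e.gg L _ (i.mg.mem L z m), i.fg L z m]; rfl⟩ i.symm.pro Φ'
    obtain ⟨Φ, k⟩ := ext (weq U hU) o Φ₁
    exact ⟨Φ, fun L x v y w m => by rw [k, k₁ _ _ _ _ _ (i.mf.mem L x m), i.gf L x m],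
      fun L x v y w h => (mem Φ₁ (k L x v y w ▸ h)).2.1⟩
  rst {c c' d E E' W f f'} U e i j Φ hs := by
    have hU : ∀ L x, U.mem L x → E.S.mem L x := fun L x m =>
      i.fg L x m ▸ e.mem L _ (i.mg.mem L x m)
    obtain ⟨Φ₁, k₁⟩ := res (weq U hU) Φ hs
    obtain ⟨Φ', k⟩ := pull (E := E.res U hU) (E' := E') (f := f) ⟨⟨i.mf, e.ph⟩, e.gg⟩ i.pro Φ₁
    exact ⟨Φ', fun L x v y w m => by rw [k _ _ _ _ _ m, k₁]⟩
  comb a b Φ Ψ := by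
    obtain ⟨Θ, h⟩ := FC1.sum Finset.univ ![a, b] ![Φ.toNF, Ψ.toNF]
    simp only [Fin.sum_univ_two, cons_val_zero, cons_val_one] at h
    exact ⟨⟨Θ, fun L x v y w => by rw [h, h, Φ.anti, Ψ.anti]; ring⟩, fun L x v y w => h _ _ _ _⟩
  desc {c c' d E E' W f} e hp hs j Φ' h := by
    obtain ⟨Φ, k⟩ := FC1.desc (pmp e) (pro hp) (srj hs) Φ'.toNF fun L x x' y w m m' q => by
      obtain ⟨x, v⟩ := x
      obtain ⟨x', v'⟩ := x'
      obtain rfl : v = v' := congrArg Prod.snd q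
      exact h L x x' v y w m.1 m'.1 (congrArg Prod.fst q)
    refine ⟨mk' Φ fun L x v y w m => ?_, fun L x v y w m => k L (x, v) y w ⟨m, trivial⟩⟩
    have := FC1.srj (c₁ := c.prod .one) (S := E.v.S) (γ₁ := fun _ z => (z.1, -z.2))
      (γ₂ := fun _ z => z) (pmp e).toMp (srj hs)
      (fun _ _ _ _ _ _ _ l => ⟨l.1, Rel.neg l.2⟩) (Reg.id _) Φ Φ (-1) (fun L z y w m => by
        rw [neg_one_mul, k L z y w m]
        exact (k L (z.1, -z.2) y w ⟨m.1, trivial⟩).trans (Φ'.anti _ _ _ _ _))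
      L (x, v) y w ⟨m, trivial⟩
    rwa [neg_one_mul] at this
  gm W _ _ a := gm W a
  ga {c d E} W γ a j Φ L x v y w :=
    FC2.kill (E := E.v) (fun L z => (γ L (z.1, z.2.1), z.2.2))
      ⟨fun _ _ R z z' m m' l => ⟨a.mp.reg R (x := (z.1, z.2.1)) (x' := (z'.1, z'.2.1))
        ⟨trivial, m.2.1⟩ ⟨trivial, m'.2.1⟩ ⟨l.1, l.2.1⟩, l.2.2⟩,
        fun L z m => ⟨a.mp.mem L (z.1, z.2.1) ⟨trivial, m.2.1⟩, trivial⟩⟩
      (fun L t z m => ⟨Prod.ext (a.zero L _ m.1) rfl, Prod.ext (a.inv L t _ m.1) rfl, by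
        change E.φ L (γ L (t, z.1)) + E.g L (γ L (t, z.1)) * z.2 ^ 2
          = E.φ L z.1 + E.g L z.1 * z.2 ^ 2 + t
        rw [a.ph L t _ m.1, a.gg L t _ m.1]
        ring⟩) j Φ.toNF L (x, v) y w
  strat {c d E W} q h j Φ h0 hv L x v y w := by
    obtain ⟨Φ', k⟩ := res (E' := E.cpl q h) (weq _ _) Φ
      fun L x v y w n => ⟨(mem Φ n).2.1, fun hq => n (h0 L x v y w hq)⟩
    rw [← k]
    exact hv j Φ' L x v y w

end Pool.Agent.Lib.MP_557161_ag.HG.TW
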