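import Pool.Agent.Lib.MP_557161_ag.TW.Wd

/-!
Stationary phase for weights that are affine in some variables.
-/

namespace Pool.Agent.Lib.MP_557161_ag.HG.TW.V2w

open Pool.Agent.Lib.MP_557161_ag.DL

variable {K : Type} [Field K] {p : ℕ} {c d : Cd} {E : WD K c} {W : ASp K d} {κ : Type} [Fintype κ]
  (f : ∀ L : Fld K, c.X L → κ → L) (hf : Reg E.S (.vec κ) f)

/-- The coefficients of the phase. -/
def F (L : Fld K) (x : (c.prod .one).X L) (i : κ) : L := x.2 ^ 2 * f L x.1 i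

include hf in
lemma hF : Reg E.v.S (.vec κ) (F f) :=
  fun _ _ R _ _ m m' e i => R.mul (Rel.pow e.2 2) (hf R m.1 m'.1 e.1 i)

/-- The exchange of the last two coordinates. -/
def sw (c d e : Cd) (L : Fld K) (x : ((c.prod d).prod e).X L) : ((c.prod e).prod d).X L :=
  ((x.1.1, x.2), x.1.2)

lemma iso : Iso (E.wlin f hf).v.S (E.v.lin _ (hF f hf)).S (sw c (.vec κ) .one)
    (sw c .one (.vec κ)) where
  mf := ⟨fun _ _ _ _ _ _ _ l => ⟨⟨l.1.1, l.2⟩, l.1.2⟩, fun _ _ m => ⟨⟨m.1.1, trivial⟩, trivial⟩⟩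
  mg := ⟨fun _ _ _ _ _ _ _ l => ⟨⟨l.1.1, l.2⟩, l.1.2⟩, fun _ _ m => ⟨⟨m.1.1, trivial⟩, trivial⟩⟩
  gf _ _ _ := rfl
  fg _ _ _ := rfl

lemma ph (L : Fld K) (x : c.X L) (t : κ → L) (v : L) :
    (E.v.lin _ (hF f hf)).φ L ((x, v), t) = (E.wlin f hf).v.φ L ((x, t), v) := by
  change E.φ L x + E.g L x * v ^ 2 + ∑ i, t i * (v ^ 2 * f L x i) =
    E.φ L x + (E.g L x + ∑ i, t i * f L x i) * v ^ 2
  rw [add_mul, Finset.sum_mul, add_assoc]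
  exact congrArg _ (congrArg _ (Finset.sum_congr rfl fun i _ => by ring))

variable [h1 : FC1 K p] [v1 : V1 K p]

theorem ws5 [h5 : FC5 K p] {j : ℕ} (Φ : ANF p j (E.zer f hf) W) :
    ∃ Ψ : ANF p (j + Nat.card κ) (E.wlin f hf) W,
      ∀ (L M : Fld K) (α : L →ₐ[K] M) (T : κ → M) x v y w, Free j α T → (E.zer f hf).S.mem L x →
        Ψ.e M (c.map α x, T) (α v) (α y) (d.map α w) = (-1) ^ Nat.card κ * Φ.e L x v y w := by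
  let U : Ph K (c.prod .one) := (E.v.zer _ (hF f hf)).res
    ((E.v.zer _ (hF f hf)).S.opn (fun _ x => x.2 ≠ 0) fun _ _ _ _ _ _ _ e h => Rel.ne_zero e.2 h)
    fun _ _ m => m.1
  have z : ∀ {L : Fld K} {x : c.X L} (v : L), (E.zer f hf).S.mem L x →
      (E.v.zer _ (hF f hf)).S.mem L (x, v) :=
    fun v m => ⟨⟨m.1, trivial⟩, fun i => mul_eq_zero_of_right _ (m.2 i)⟩
  obtain ⟨Φ₁, e₁⟩ := h1.res (E := (E.zer f hf).v) (E' := U) ⟨⟨Reg.id _, fun _ _ m => ⟨⟨m.1.1.1, fun i =>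
    (mul_eq_zero.1 (m.1.2 i)).resolve_left (pow_ne_zero 2 m.2)⟩, trivial⟩⟩, fun _ _ _ => rfl⟩
    Φ.toNF fun L x y w h => ⟨z _ (v1.mem Φ h).2.1, (v1.mem Φ h).2.2.2.2.2⟩
  obtain ⟨Φ₂, e₂⟩ := h1.ext (E := E.v.zer _ (hF f hf)) (E' := U)
    ⟨⟨Reg.id _, fun _ _ m => m.1⟩, fun _ _ _ => rfl⟩
    (fun _ O _ _ m m' e => ⟨m, Rel.ne_zero (R := .ofPl O) e.2 m'.2⟩) Φ₁
  obtain ⟨Ψ, e₃, e₄⟩ := h5.s5 _ (hF f hf) Φ₂
  obtain ⟨Ψ', e₅⟩ := h1.pull ⟨(iso f hf).mf, fun L x _ => ph f hf L _ _ _⟩ (iso f hf).pro Ψ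
  have n : Mp E.v.S E.v.S fun _ x => (x.1, -x.2) :=
    ⟨fun _ _ _ _ _ _ _ e => ⟨e.1, Rel.neg e.2⟩, fun _ _ m => m⟩
  have e₆ := e₄ _ _ 1 (-1) ⟨n, n, fun _ x _ => Prod.ext rfl (neg_neg x.2),
    fun _ x _ => Prod.ext rfl (neg_neg x.2)⟩
    (fun L x _ => ⟨congrArg (fun s => E.φ L x.1 + E.g L x.1 * s) (neg_sq x.2),
      fun i => congrArg (· * f L x.1 i) (neg_sq x.2)⟩)
    fun L x y w _ => by rw [e₂, e₂, e₁, e₁, neg_one_mul]; exact Φ.anti L x.1 x.2 y w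
  refine ⟨⟨Ψ', fun L x v y w => ?_⟩, fun L M α T x v y w h m => ?_⟩
  · by_cases m : E.S.mem L x.1
    · rw [e₅ L _ y w ⟨⟨m, trivial⟩, trivial⟩, e₅ L _ y w ⟨⟨m, trivial⟩, trivial⟩]
      exact (e₆ L ((x.1, v), x.2) y w ⟨⟨m, trivial⟩, trivial⟩).trans (neg_one_mul _)
    · have : ∀ v, Ψ'.b L (x, v) y w = 0 := fun v => by_contra fun e => m (h1.mem Ψ' e).2.1.1.1
      rw [this, this, neg_zero]
  · refine (e₅ M _ _ _ ⟨⟨(E.S.map_iff α x).2 m.1, trivial⟩, trivial⟩).trans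
      ((e₃ L M α T (x, v) y w h (z v m)).trans ?_)
    rw [e₂, e₁]

theorem wuniq [h4 : FC4 K p] {i : ℕ} (Ψ : ANF p i (E.wlin f hf) W)
    (h : ∀ (j : ℕ) (L M : Fld K) (α : L →ₐ[K] M) (T : κ → M) x v y w, i = j + Nat.card κ →
      Free j α T → (E.zer f hf).S.mem L x → Ψ.e M (c.map α x, T) (α v) (α y) (d.map α w) = 0)
    (L : Fld K) (x : (c.prod (.vec κ)).X L) (v y : L) (w : d.X L) : Ψ.e L x v y w = 0 := by
  obtain ⟨Ψ', e⟩ := h1.pull (E' := E.v.lin _ (hF f hf))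
    ⟨(iso f hf).mg, fun L x _ => (ph f hf L _ _ _).symm⟩ (iso f hf).symm.pro Ψ.toNF
  by_contra h0
  refine h0 ((e L ((x.1, v), x.2) y w ⟨⟨(v1.mem Ψ h0).2.1.1, trivial⟩, trivial⟩).symm.trans
    (h4.uniq _ (hF f hf) Ψ' (fun j L M α T x y w hj hT m => ?_) _ _ _ _))
  refine (e M _ _ _ ⟨⟨(E.S.map_iff α x.1).2 m.1.1, trivial⟩, trivial⟩).trans ?_
  by_cases h2 : x.2 = 0
  · by_contra h3
    exact (v1.mem Ψ h3).2.2.2.2.2 ((map_eq_zero α).2 h2)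
  · exact h j L M α T x.1 x.2 y w hj hT
      ⟨m.1.1, fun i => (mul_eq_zero.1 (m.2 i)).resolve_left (pow_ne_zero 2 h2)⟩

end Pool.Agent.Lib.MP_557161_ag.HG.TW.V2w
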