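import Pool.Agent.Lib.MP_557161_ag.TW.V21
import Pool.Agent.Lib.MP_557161_ag.TW.V2w

/-!
Generic fibres of products with tori and affine spaces; weights that are affine.
-/

namespace Pool.Agent.Lib.MP_557161_ag.HG.TW

open Pool.Agent.Lib.MP_557161_ag.DL Matrix

variable {K : Type} [Field K] [Base K] {p : ℕ} [Fact p.Prime] [CharP K p] [FW0 K] [FWp K p]

theorem V2_thm (h2 : (2 : K) ≠ 0) [V1 K p] : V2 K p where
  hyp γ ρ P hγ hρ hP h _ Φ h0 L x v y w hx := V2a.hyp γ ρ P hγ hρ hP h Φ h0 L x v y w hx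
  lift q _ Φ := V2a.lift q Φ
  down q _ Ψ := V2a.down q Ψ
  up q _ Ψ Z hZ h L x t v y w hx := V2a.up q Ψ Z hZ h L x t v y w hx
  ws5 f hf _ Φ := V2w.ws5 f hf Φ
  wuniq f hf _ Ψ := V2w.wuniq f hf Ψ

end Pool.Agent.Lib.MP_557161_ag.HG.TW
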