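import Pool.Agent.Lib.MP_557161_ag.TW.Wd

/-!
Implications between spaces with a phase and a weight.
-/

namespace Pool.Agent.Lib.MP_557161_ag.HG.TW

open Pool.Agent.Lib.MP_557161_ag.DL Matrix

namespace V3a

variable {K : Type} [Field K] {p : ℕ} {c c' cc d : Cd}

section Ctx

variable (C : WD K cc) {X : WD K c} {X' : WD K c'} {f : ∀ L : Fld K, c'.X L → c.X L}
  {f' : ∀ L : Fld K, c.X L → c'.X L} {h : ∀ L : Fld K, c'.X L → L} {a : K}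

/-- The map in the second factor. -/
def snd (cc : Cd) (f : ∀ L : Fld K, c'.X L → c.X L) (L : Fld K) (x : (cc.prod c').X L) :
    (cc.prod c).X L := (x.1, f L x.2)

lemma mp_ctx (S : ASp K cc) {T : ASp K c} {T' : ASp K c'} (e : Mp T' T f) :
    Mp (S.prod T') (S.prod T) (snd cc f) :=
  ⟨fun _ _ R _ _ m m' l => ⟨l.1, e.reg R m.2 m'.2 l.2⟩, fun L _ m => ⟨m.1, e.mem L _ m.2⟩⟩

lemma iso_ctx (S : ASp K cc) {T : ASp K c} {T' : ASp K c'} (e : Iso T' T f f') :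
    Iso (S.prod T') (S.prod T) (snd cc f) (snd cc f') :=
  ⟨mp_ctx S e.mf, mp_ctx S e.mg, fun L _ m => Prod.ext rfl (e.gf L _ m.2),
    fun L _ m => Prod.ext rfl (e.fg L _ m.2)⟩

lemma pro_ctx (S : ASp K cc) {T : ASp K c} {T' : ASp K c'} (e : Pro T' T f) :
    Pro (S.prod T') (S.prod T) (snd cc f) := by
  intro M O x z hO m mz l
  obtain ⟨x', m', l'⟩ := e M O x.2 z.2 hO m.2 mz.2 l.2
  exact ⟨(z.1, x'), ⟨mz.1, m'⟩, l.1, l'⟩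

lemma srj_ctx (S : ASp K cc) {T : ASp K c} {T' : ASp K c'} (e : Srj T' T f) :
    Srj (S.prod T') (S.prod T) (snd cc f) := by
  intro L _ z mz
  obtain ⟨x, m, ex⟩ := e L z.2 mz.2
  exact ⟨(z.1, x), ⟨mz.1, m⟩, Prod.ext rfl ex⟩

lemma opn_ctx (S : ASp K cc) {U T : ASp K c} (e : AOpn U T) : AOpn (S.prod U) (S.prod T) :=
  fun M O x x' m m' l => ⟨m.1, e M O x.2 x'.2 m.2 m'.2 l.2⟩

lemma wmp_ctx (e : WMp X' X f h a) :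
    WMp (C.prod X') (C.prod X) (snd cc f) (fun L x => h L x.2) a where
  toMp := mp_ctx C.S e.toMp
  ph L x m := by
    change C.φ L x.1 + X.φ L (f L x.2) = C.φ L x.1 + X'.φ L x.2
    rw [e.ph L _ m.2]
  rh _ _ R _ _ m m' l := e.rh R m.2 m'.2 l.2
  h0 L _ m := e.h0 L _ m.2
  a0 := e.a0
  gh L x m := by
    change C.g L x.1 * X'.g L x.2 =
      algebraMap K L a * (C.g L x.1 * X.g L (f L x.2) * h L x.2 ^ 2)
    rw [e.gh L _ m.2]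
    ring

lemma weq_ctx {X' : WD K c} (e : WEq X' X fun _ x => x) :
    WEq (C.prod X') (C.prod X) fun _ x => x where
  reg := Reg.id _
  mem L _ m := ⟨m.1, e.mem L _ m.2⟩
  ph L x m := by
    change C.φ L x.1 + X.φ L x.2 = C.φ L x.1 + X'.φ L x.2
    rw [e.ph L _ m.2]
  gg L x m := by
    change C.g L x.1 * X.g L x.2 = C.g L x.1 * X'.g L x.2
    rw [e.gg L _ m.2]

lemma gm_ctx {γ : ∀ L : Fld K, (Cd.one.prod c).X L → c.X L} {k : ℤ} (e : GmAct X γ k) :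
    GmAct (C.prod X) (fun L z => (z.2.1, γ L (z.1, z.2.2))) k where
  mp := ⟨fun _ _ R x x' m m' l => ⟨l.2.1, e.mp.reg R (x := (x.1, x.2.2)) (x' := (x'.1, x'.2.2))
      ⟨m.1, m.2.2⟩ ⟨m'.1, m'.2.2⟩ ⟨l.1, l.2.2⟩⟩,
    fun L x m => ⟨m.2.1, e.mp.mem L (x.1, x.2.2) ⟨m.1, m.2.2⟩⟩⟩
  one L _ m := Prod.ext rfl (e.one L _ m.2)
  inv L t _ ht m := Prod.ext rfl (e.inv L t _ ht m.2)
  ph L t x ht m := by
    change C.φ L x.1 + X.φ L (γ L (t, x.2)) = C.φ L x.1 + X.φ L x.2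
    rw [e.ph L t _ ht m.2]
  gg L t x ht m := by
    change C.g L x.1 * X.g L (γ L (t, x.2)) = t ^ k * (C.g L x.1 * X.g L x.2)
    rw [e.gg L t _ ht m.2]
    ring
  odd := e.odd

lemma ga_ctx {γ : ∀ L : Fld K, (Cd.one.prod c).X L → c.X L} (e : GaAct X γ) :
    GaAct (C.prod X) (fun L z => (z.2.1, γ L (z.1, z.2.2))) where
  mp := ⟨fun _ _ R x x' m m' l => ⟨l.2.1, e.mp.reg R (x := (x.1, x.2.2)) (x' := (x'.1, x'.2.2))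
      ⟨m.1, m.2.2⟩ ⟨m'.1, m'.2.2⟩ ⟨l.1, l.2.2⟩⟩,
    fun L x m => ⟨m.2.1, e.mp.mem L (x.1, x.2.2) ⟨m.1, m.2.2⟩⟩⟩
  zero L _ m := Prod.ext rfl (e.zero L _ m.2)
  inv L t _ m := Prod.ext rfl (e.inv L t _ m.2)
  ph L t x m := by
    change C.φ L x.1 + X.φ L (γ L (t, x.2)) = C.φ L x.1 + X.φ L x.2 + t
    rw [e.ph L t _ m.2, add_assoc]
  gg L t x m := by
    change C.g L x.1 * X.g L (γ L (t, x.2)) = C.g L x.1 * X.g L x.2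
    rw [e.gg L t _ m.2]

end Ctx

section Basic

variable {E : WD K c} {E' : WD K c'} {W : ASp K d} {f : ∀ L : Fld K, c'.X L → c.X L}
  {f' : ∀ L : Fld K, c.X L → c'.X L} {h : ∀ L : Fld K, c'.X L → L} {a : K}

lemma weq_res (E : WD K c) (S' : ASp K c) (hS : ∀ L x, S'.mem L x → E.S.mem L x) :
    WEq (E.res S' hS) E fun _ x => x :=
  ⟨⟨⟨Reg.id _, hS⟩, fun _ _ _ => rfl⟩, fun _ _ _ => rfl⟩

lemma wmp_inv (e : WMp E' E f h a) (i : Iso E'.S E.S f f') :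
    WMp E E' f' (fun L z => (h L (f' L z))⁻¹) a⁻¹ where
  toMp := i.mg
  ph L z m := by rw [← e.ph L _ (i.mg.mem L z m), i.fg L z m]
  rh _ _ R _ _ m m' l :=
    R.inv (e.rh R (i.mg.mem _ _ m) (i.mg.mem _ _ m') (i.mg.reg R m m' l))
      (e.h0 _ _ (i.mg.mem _ _ m'))
  h0 L z m := inv_ne_zero (e.h0 L _ (i.mg.mem L z m))
  a0 := inv_ne_zero e.a0
  gh L z m := by
    have h1 := e.h0 L _ (i.mg.mem L z m)
    have h2 : algebraMap K L a ≠ 0 := (map_ne_zero _).2 e.a0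
    rw [e.gh L _ (i.mg.mem L z m), i.fg L z m, map_inv₀]
    field_simp

lemma b_zero [FC1 K p] {E : Ph K c} {j : ℕ} (Φ : NF p j E W) {L : Fld K}
    {x : c.X L} (y : L) (w : d.X L) (h : ¬ E.S.mem L x) : Φ.b L x y w = 0 := by
  by_contra e
  exact h (FC1.mem Φ e).2.1

lemma av_img [Base K] [FC1 K p] (e : WMp E' E f h a) (hp : Pro E'.S E.S f)
    (hs : Srj E'.S E.S f) (hv : AV p E' W) : AV p E W := by
  obtain ⟨β, hβ⟩ := IsAlgClosed.exists_pow_nat_eq a two_pos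
  have β0 : β ≠ 0 := fun h0 => e.a0 (by rw [← hβ, h0, zero_pow two_ne_zero])
  have u0 : ∀ (L : Fld K) x, E'.S.mem L x → algebraMap K L β * h L x ≠ 0 := fun L x m =>
    mul_ne_zero ((map_ne_zero _).2 β0) (e.h0 L x m)
  let F : ∀ L : Fld K, (c'.prod .one).X L → (c.prod .one).X L := fun L x =>
    (f L x.1, x.2 * (algebraMap K L β * h L x.1))
  have hF : PMp E'.v E.v F :=
    ⟨⟨fun _ _ R _ _ m m' l => ⟨e.reg R m.1 m'.1 l.1,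
        R.mul l.2 (R.mul (R.const β) (e.rh R m.1 m'.1 l.1))⟩,
      fun L x m => ⟨e.mem L _ m.1, trivial⟩⟩, fun L x m => by
      change E.φ L (f L x.1) + E.g L (f L x.1) * (x.2 * (algebraMap K L β * h L x.1)) ^ 2 =
        E'.φ L x.1 + E'.g L x.1 * x.2 ^ 2
      rw [e.ph L _ m.1, e.gh L _ m.1, ← hβ, map_pow]
      ring⟩
  have pF : Pro E'.v.S E.v.S F := by
    intro M O x z hO m mz l
    obtain ⟨x', m', l'⟩ := hp M O x.1 z.1 hO m.1 mz.1 l.1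
    have h1 := Rel.div (R := Rel.ofPl O) l.2
      ((Rel.ofPl O).mul ((Rel.ofPl O).const β) (e.rh _ m.1 m' l')) (u0 _ _ m')
    rw [show (F M x).2 = x.2 * (algebraMap K M β * h M x.1) from rfl,
      mul_div_cancel_right₀ _ (u0 _ _ m.1)] at h1
    exact ⟨(x', _), ⟨m', trivial⟩, l', h1⟩
  have sF : Srj E'.v.S E.v.S F := by
    intro L _ z mz
    obtain ⟨x, m, ex⟩ := hs L z.1 mz.1
    exact ⟨(x, z.2 / (algebraMap K L β * h L x)), ⟨m, trivial⟩,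
      Prod.ext ex (div_mul_cancel₀ _ (u0 _ _ m))⟩
  intro j Φ L x v y w
  obtain ⟨Φ', hΦ⟩ := FC1.pull hF pF Φ.toNF
  have an : ∀ (L : Fld K) (x : c'.X L) (v y : L) (w : d.X L),
      Φ'.b L (x, -v) y w = -Φ'.b L (x, v) y w := fun L x v y w => by
    by_cases m : E'.S.mem L x
    · rw [hΦ L (x, -v) y w ⟨m, trivial⟩, hΦ L (x, v) y w ⟨m, trivial⟩, ← Φ.anti]
      change Φ.b L (f L x, -v * (algebraMap K L β * h L x)) y w =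
        Φ.b L (f L x, -(v * (algebraMap K L β * h L x))) y w
      rw [neg_mul]
    · rw [b_zero Φ' y w fun m' => m m'.1, b_zero Φ' y w fun m' => m m'.1, neg_zero]
  by_cases m : E.S.mem L x
  · have := FC1.srj (γ₁ := fun _ x => x) (γ₂ := fun _ x => x) hF.toMp sF (Reg.id _) (Reg.id _)
      Φ.toNF Φ.toNF 0 (fun L x y w m => by
        rw [zero_mul, ← hΦ L x y w m]
        exact hv j ⟨Φ', an⟩ L x.1 x.2 y w) L (x, v) y w ⟨m, trivial⟩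
    rwa [zero_mul] at this
  · exact b_zero Φ.toNF y w fun m' => m m'.1

lemma av_iso [Base K] [FC1 K p] (e : WMp E' E f h a) (i : Iso E'.S E.S f f') :
    AV p E' W ↔ AV p E W :=
  ⟨av_img e i.pro i.srj, av_img (wmp_inv e i) i.symm.pro i.symm.srj⟩

variable [V1 K p]

lemma av_eq (e : WEq E' E f) (i : Iso E'.S E.S f f') (hv : AV p E' W) : AV p E W := by
  intro j Φ L x v y w
  by_contra h0
  have m := (V1.mem Φ h0).2.1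
  obtain ⟨Φ', hΦ⟩ := V1.pull e i.pro Φ
  refine h0 ?_
  rw [← i.fg L x m, ← hΦ L _ v y w (i.mg.mem L x m)]
  exact hv j Φ' L _ v y w

lemma av_eqv (e : WEq E' E f) (i : Iso E'.S E.S f f') : AV p E' W ↔ AV p E W :=
  ⟨av_eq e i, av_eq (f := f') ⟨⟨i.mg, fun L z m => by
    rw [← e.ph L _ (i.mg.mem L z m), i.fg L z m]⟩, fun L z m => by
    rw [← e.gg L _ (i.mg.mem L z m), i.fg L z m]⟩ i.symm⟩

lemma av_opn {E E' : WD K c} (e : WEq E' E fun _ x => x) (o : AOpn E'.S E.S) (hv : AV p E W) :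
    AV p E' W := by
  intro j Φ' L x v y w
  obtain ⟨Φ, hΦ⟩ := V1.ext e o Φ'
  rw [← hΦ]
  exact hv j Φ L x v y w

lemma av_sub {E E' : WD K c} (e : WEq E' E fun _ x => x)
    (hm : ∀ L x, E.S.mem L x → E.g L x ≠ 0 → E'.S.mem L x) (hv : AV p E' W) : AV p E W := by
  intro j Φ L x v y w
  obtain ⟨Φ', hΦ⟩ := V1.res e Φ fun L x v y w h0 =>
    hm L x (V1.mem Φ h0).2.1 (V1.mem Φ h0).2.2.2.2.1
  rw [← hΦ]
  exact hv j Φ' L x v y w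

lemma av_emb [Base K] [FC1 K p] (U : ASp K c) (e : WMp E' E f h a) (i : Iso E'.S U f f')
    (o : AOpn U E.S) (hv : AV p E W) : AV p E' W := by
  have hU : ∀ L z, U.mem L z → E.S.mem L z := fun L z m => by
    rw [← i.fg L z m]
    exact e.mem L _ (i.mg.mem L z m)
  have e' : WMp E' (E.res U hU) f h a := ⟨⟨i.mf, e.ph⟩, e.rh, e.h0, e.a0, e.gh⟩
  exact (av_iso e' i).2 (av_opn (weq_res E U hU) o hv)

lemma av_strat (q : ∀ L : Fld K, c.X L → Prop) (hq) (h1 : AV p (E.cl q hq) W)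
    (h2 : AV p (E.cpl q hq) W) : AV p E W := by
  intro j Φ
  obtain ⟨Φ', hΦ⟩ := V1.pull (E' := E.cl q hq) (weq_res E _ _)
    (fun M O x z _ m m' l => ⟨z, ⟨m', hq _ m.1 m' l m.2⟩, l⟩) Φ
  refine V1.strat q hq Φ (fun L x v y w hx => ?_) h2
  by_contra h0
  refine h0 ?_
  rw [← hΦ L x v y w ⟨(V1.mem Φ h0).2.1, hx⟩]
  exact h1 j Φ' L x v y w

lemma av_pt (E : WD K c) : AV p (E.prod (Pt K)) W ↔ AV p E W :=
  av_eqv (f := fun _ x => x.1) (f' := fun _ x => (x, fun i => i.elim))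
    ⟨⟨⟨fun _ _ _ _ _ _ _ l => l.1, fun _ _ m => m.1⟩, fun _ _ _ => (add_zero _).symm⟩,
      fun _ _ _ => (mul_one _).symm⟩
    ⟨⟨fun _ _ _ _ _ _ _ l => l.1, fun _ _ m => m.1⟩,
      ⟨fun _ _ _ _ _ _ _ l => ⟨l, fun i => i.elim⟩, fun _ _ m => ⟨m, trivial⟩⟩,
      fun _ _ _ => Prod.ext rfl (funext fun i => i.elim), fun _ _ _ => rfl⟩

lemma av_assoc (C : WD K cc) (X : WD K c) (Y : WD K c') :
    AV p (C.prod (X.prod Y)) W ↔ AV p ((C.prod X).prod Y) W :=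
  av_eqv (f := fun _ x => ((x.1, x.2.1), x.2.2)) (f' := fun _ x => (x.1.1, (x.1.2, x.2)))
    ⟨⟨⟨fun _ _ _ _ _ _ _ l => ⟨⟨l.1, l.2.1⟩, l.2.2⟩, fun _ _ m => ⟨⟨m.1, m.2.1⟩, m.2.2⟩⟩,
      fun _ _ _ => add_assoc _ _ _⟩, fun _ _ _ => mul_assoc _ _ _⟩
    ⟨⟨fun _ _ _ _ _ _ _ l => ⟨⟨l.1, l.2.1⟩, l.2.2⟩, fun _ _ m => ⟨⟨m.1, m.2.1⟩, m.2.2⟩⟩,
      ⟨fun _ _ _ _ _ _ _ l => ⟨l.1.1, l.1.2, l.2⟩, fun _ _ m => ⟨m.1.1, m.1.2, m.2⟩⟩,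
      fun _ _ _ => rfl, fun _ _ _ => rfl⟩

lemma av_comm (C : WD K cc) (X : WD K c) (Y : WD K c') (hv : AV p (C.prod (X.prod Y)) W) :
    AV p (C.prod (Y.prod X)) W :=
  av_eq (E' := C.prod (X.prod Y)) (f := fun _ x => (x.1, (x.2.2, x.2.1)))
    (f' := fun _ x => (x.1, (x.2.2, x.2.1)))
    ⟨⟨⟨fun _ _ _ _ _ _ _ l => ⟨l.1, l.2.2, l.2.1⟩, fun _ _ m => ⟨m.1, m.2.2, m.2.1⟩⟩,
      fun L x _ => congrArg (C.φ L x.1 + ·) (add_comm _ _)⟩,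
      fun L x _ => congrArg (C.g L x.1 * ·) (mul_comm _ _)⟩
    ⟨⟨fun _ _ _ _ _ _ _ l => ⟨l.1, l.2.2, l.2.1⟩, fun _ _ m => ⟨m.1, m.2.2, m.2.1⟩⟩,
      ⟨fun _ _ _ _ _ _ _ l => ⟨l.1, l.2.2, l.2.1⟩, fun _ _ m => ⟨m.1, m.2.2, m.2.1⟩⟩,
      fun _ _ _ => rfl, fun _ _ _ => rfl⟩ hv

lemma av_assoc' (C : WD K cc) (X : WD K c) (Y : WD K c') {c'' : Cd} (Z : WD K c'') :
    AV p (C.prod ((X.prod Y).prod Z)) W ↔ AV p (C.prod (X.prod (Y.prod Z))) W :=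
  av_eqv (f := fun _ x => (x.1, (x.2.1.1, (x.2.1.2, x.2.2))))
    (f' := fun _ x => (x.1, ((x.2.1, x.2.2.1), x.2.2.2)))
    ⟨⟨⟨fun _ _ _ _ _ _ _ l => ⟨l.1, l.2.1.1, l.2.1.2, l.2.2⟩,
        fun _ _ m => ⟨m.1, m.2.1.1, m.2.1.2, m.2.2⟩⟩,
      fun L x _ => congrArg (C.φ L x.1 + ·) (add_assoc _ _ _).symm⟩,
      fun L x _ => congrArg (C.g L x.1 * ·) (mul_assoc _ _ _).symm⟩
    ⟨⟨fun _ _ _ _ _ _ _ l => ⟨l.1, l.2.1.1, l.2.1.2, l.2.2⟩,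
        fun _ _ m => ⟨m.1, m.2.1.1, m.2.1.2, m.2.2⟩⟩,
      ⟨fun _ _ _ _ _ _ _ l => ⟨l.1, ⟨l.2.1, l.2.2.1⟩, l.2.2.2⟩,
        fun _ _ m => ⟨m.1, ⟨m.2.1, m.2.2.1⟩, m.2.2.2⟩⟩,
      fun _ _ _ => rfl, fun _ _ _ => rfl⟩

lemma av_aff (C : WD K cc) (c : Cd) :
    AV p (C.prod (Aff K c)) W ↔ AV p (C.prod (Tor K c.ι fun _ => False)) W :=
  av_eqv (f := fun _ x => (x.1, c.co x.2)) (f' := fun _ x => (x.1, c.mk' x.2))
    ⟨⟨⟨fun _ _ _ _ _ _ _ l => ⟨l.1, (c.lift_iff _ _ _).1 l.2⟩,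
        fun _ _ m => ⟨m.1, trivial, fun _ h => h.elim⟩⟩, fun _ _ _ => rfl⟩, fun _ _ _ => rfl⟩
    ⟨⟨fun _ _ _ _ _ _ _ l => ⟨l.1, (c.lift_iff _ _ _).1 l.2⟩,
        fun _ _ m => ⟨m.1, trivial, fun _ h => h.elim⟩⟩,
      ⟨fun _ _ _ _ _ _ _ l => ⟨l.1, (c.lift_iff _ _ _).2 fun i => by
          rw [c.co_mk, c.co_mk]
          exact l.2 i⟩, fun _ _ m => ⟨m.1, trivial⟩⟩,
      fun _ _ _ => Prod.ext rfl (c.inj (c.co_mk _)), fun _ _ _ => Prod.ext rfl (c.co_mk _)⟩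

lemma av_tor [FA1 K] [V2 K p] (E : WD K c) (κ : Type) [Finite κ] (q : κ → Prop) :
    AV p E W ↔ AV p (E.prod (Tor K κ q)) W := by
  constructor
  · intro hv i Ψ L x v y w
    refine V2.up q Ψ (fun _ _ => True) (fun _ _ _ _ _ _ _ _ _ => trivial)
      (fun j L M α T x v y w e hT _ _ => ?_) L x.1 x.2 v y w trivial
    subst e
    obtain ⟨Φ, hΦ⟩ := V2.down q Ψ
    rw [hΦ L M α T x v y w hT]
    exact hv j Φ L x v y w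
  · intro hv j Φ L x v y w
    by_contra h0
    obtain ⟨Ψ, hΨ⟩ := V2.lift q Φ
    refine h0 ?_
    rw [← hΨ L _ _ _ x v y w (FA1.fr_free κ (V1.mem Φ h0).1)]
    exact hv _ Ψ _ _ _ _ _

end Basic

section Lin

variable (E : WD K c) {W : ASp K d} {κ : Type} [Fintype κ] (f : ∀ L : Fld K, c.X L → κ → L)
  (hf : Reg E.S (.vec κ) f)

include hf in
lemma reg_v : Reg E.v.S (.vec κ) fun L x => f L x.1 :=
  fun _ _ R _ _ m m' l => hf R m.1 m'.1 l.1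

/-- The exchange of the last two coordinates. -/
def swp (c d e : Cd) (L : Fld K) (x : ((c.prod d).prod e).X L) : ((c.prod e).prod d).X L :=
  ((x.1.1, x.2), x.1.2)

lemma iso_lin : Iso (E.lin f hf).v.S (E.v.lin _ (reg_v E f hf)).S
    (swp c (.vec κ) .one) (swp c .one (.vec κ)) where
  mf := ⟨fun _ _ _ _ _ _ _ l => ⟨⟨l.1.1, l.2⟩, l.1.2⟩,
    fun _ _ m => ⟨⟨m.1.1, trivial⟩, trivial⟩⟩
  mg := ⟨fun _ _ _ _ _ _ _ l => ⟨⟨l.1.1, l.2⟩, l.1.2⟩,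
    fun _ _ m => ⟨⟨m.1.1, trivial⟩, trivial⟩⟩
  gf _ _ _ := rfl
  fg _ _ _ := rfl

lemma av_zer_lin [FC1 K p] [FC4 K p] [V1 K p] [V2 K p] (hv : AV p (E.zer f hf) W) :
    AV p (E.lin f hf) W := by
  intro i Ψ L x v y w
  have i1 := (iso_lin E f hf).symm
  obtain ⟨Ψ₀, h0⟩ := FC1.pull (E' := E.v.lin _ (reg_v E f hf))
    ⟨i1.mf, fun _ _ _ => add_right_comm _ _ _⟩ i1.pro Ψ.toNF
  have hz := FC4.uniq _ (reg_v E f hf) Ψ₀ fun j L M α T x y w e hT m => by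
    subst e
    have mx : (E.zer f hf).S.mem L x.1 := ⟨m.1.1, m.2⟩
    have mα : (E.zer f hf).S.mem M (c.map α x.1) := ((E.zer f hf).S.map_iff α _).2 mx
    obtain ⟨Ψ₁, h1⟩ := V1.pull (E := E.lin f hf)
      (E' := (E.zer f hf).prod (Tor K κ fun _ => False)) (f := fun _ x => x)
      ⟨⟨⟨Reg.id _, fun _ _ m => ⟨m.1.1, trivial⟩⟩, fun L x m => by
        have : ∀ i, f L x.1 i = 0 := m.1.2
        change E.φ L x.1 + ∑ i, x.2 i * f L x.1 i = E.φ L x.1 + 0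
        simp [this]⟩, fun _ _ _ => (mul_one _).symm⟩
      (fun M O x z _ m m' l => ⟨z, ⟨⟨m'.1, fun i =>
        Rel.eq_zero (hf _ m.1.1 m'.1 l.1 i) (m.1.2 i)⟩, trivial, fun _ h => h.elim⟩, l⟩) Ψ
    obtain ⟨Φ, hΦ⟩ := V2.down _ Ψ₁
    rw [h0 M _ _ _ ⟨⟨mα.1, trivial⟩, trivial⟩]
    exact ((h1 M (c.map α x.1, T) (α x.2) (α y) (d.map α w)
      ⟨mα, trivial, fun _ h => h.elim⟩).symm.trans (hΦ L M α T x.1 x.2 y w hT)).trans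
      (hv j Φ L x.1 x.2 y w)
  by_contra h1
  exact h1 ((h0 L ((x.1, v), x.2) y w ⟨⟨(V1.mem Ψ h1).2.1.1, trivial⟩, trivial⟩).symm.trans
    (hz L _ y w))

lemma av_lin_zer [FA1 K] [FC1 K p] [FC5 K p] [V1 K p] (hv : AV p (E.lin f hf) W) :
    AV p (E.zer f hf) W := by
  intro j Φ L x v y w
  have i0 : Iso (E.v.zer _ (reg_v E f hf)).S (E.zer f hf).v.S (fun _ x => x) fun _ x => x :=
    ⟨⟨Reg.id _, fun _ _ m => ⟨⟨m.1.1, m.2⟩, trivial⟩⟩,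
      ⟨Reg.id _, fun _ _ m => ⟨⟨m.1.1, trivial⟩, m.1.2⟩⟩, fun _ _ _ => rfl, fun _ _ _ => rfl⟩
  have i1 := iso_lin E f hf
  obtain ⟨Φ₀, h0⟩ := FC1.pull (E' := E.v.zer _ (reg_v E f hf))
    ⟨i0.mf, fun _ _ _ => rfl⟩ i0.pro Φ.toNF
  obtain ⟨Ψ₀, h2, h2'⟩ := FC5.s5 _ _ Φ₀
  have ng : Mp E.v.S E.v.S fun _ x => (x.1, -x.2) :=
    ⟨fun _ _ _ _ _ _ _ l => ⟨l.1, Rel.neg l.2⟩, fun _ _ m => ⟨m.1, trivial⟩⟩
  have eq := h2' (fun _ x => (x.1, -x.2)) (fun _ x => (x.1, -x.2)) 1 (-1)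
    ⟨ng, ng, fun _ _ _ => Prod.ext rfl (neg_neg _), fun _ _ _ => Prod.ext rfl (neg_neg _)⟩
    (fun L x _ => ⟨by
      change E.φ L x.1 + E.g L x.1 * (-x.2) ^ 2 = E.φ L x.1 + E.g L x.1 * x.2 ^ 2
      rw [neg_sq], fun _ => rfl⟩)
    (fun L x y w m => by
      rw [h0 L (x.1, -x.2) y w ⟨⟨m.1.1, trivial⟩, m.2⟩, h0 L x y w m, neg_one_mul]
      exact Φ.anti L x.1 x.2 y w)
  obtain ⟨Ψ, h3⟩ := FC1.pull (E' := (E.lin f hf).v)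
    ⟨i1.mf, fun _ _ _ => add_right_comm _ _ _⟩ i1.pro Ψ₀
  have an : ∀ (L : Fld K) (x : (c.prod (.vec κ)).X L) (v y : L) (w : d.X L),
      Ψ.b L (x, -v) y w = -Ψ.b L (x, v) y w := fun L x v y w => by
    by_cases m : E.S.mem L x.1
    · rw [h3 L (x, -v) y w ⟨⟨m, trivial⟩, trivial⟩, h3 L (x, v) y w ⟨⟨m, trivial⟩, trivial⟩]
      exact (eq L ((x.1, v), x.2) y w ⟨⟨m, trivial⟩, trivial⟩).trans (neg_one_mul _)
    · rw [b_zero Ψ y w fun m' => m m'.1.1, b_zero Ψ y w fun m' => m m'.1.1, neg_zero]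
  by_contra h1
  obtain ⟨g1, m, -⟩ := V1.mem Φ h1
  have m0 : (E.v.zer _ (reg_v E f hf)).S.mem L (x, v) := ⟨⟨m.1, trivial⟩, m.2⟩
  have e1 := h2 L _ _ _ (x, v) y w (FA1.fr_free κ g1) m0
  have e2 := h3 (fr L κ) ((c.map (frα L κ) x, frT L κ), frα L κ v) (frα L κ y)
    (d.map (frα L κ) w) ⟨⟨(E.S.map_iff _ x).2 m.1, trivial⟩, trivial⟩
  have e3 := hv _ ⟨Ψ, an⟩ (fr L κ) (c.map (frα L κ) x, frT L κ) (frα L κ v) (frα L κ y)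
    (d.map (frα L κ) w)
  have e4 : (-1 : ℂ) ^ Nat.card κ * Φ₀.b L (x, v) y w = 0 := e1.symm.trans (e2.symm.trans e3)
  rw [h0 L (x, v) y w m0] at e4
  exact h1 ((mul_eq_zero.1 e4).resolve_left (pow_ne_zero _ (by norm_num)))

end Lin

section LinCtx

variable (C : WD K cc) (X : WD K c) {W : ASp K d} {κ : Type} [Fintype κ]
  (f : ∀ L : Fld K, c.X L → κ → L) (hf : Reg X.S (.vec κ) f) [V1 K p]

include hf in
lemma reg_c : Reg (C.prod X).S (.vec κ) fun L x => f L x.2 :=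
  fun _ _ R _ _ m m' l => hf R m.2 m'.2 l.2

lemma ctx_zer : AV p (C.prod (X.zer f hf)) W ↔ AV p ((C.prod X).zer _ (reg_c C X f hf)) W :=
  av_eqv (f := fun _ x => x) (f' := fun _ x => x)
    ⟨⟨⟨Reg.id _, fun _ _ m => ⟨⟨m.1, m.2.1⟩, m.2.2⟩⟩, fun _ _ _ => rfl⟩, fun _ _ _ => rfl⟩
    ⟨⟨Reg.id _, fun _ _ m => ⟨⟨m.1, m.2.1⟩, m.2.2⟩⟩,
      ⟨Reg.id _, fun _ _ m => ⟨m.1.1, m.1.2, m.2⟩⟩, fun _ _ _ => rfl, fun _ _ _ => rfl⟩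

lemma ctx_lin : AV p (C.prod (X.lin f hf)) W ↔ AV p ((C.prod X).lin _ (reg_c C X f hf)) W :=
  av_eqv (f := fun _ x => ((x.1, x.2.1), x.2.2)) (f' := fun _ x => (x.1.1, (x.1.2, x.2)))
    ⟨⟨⟨fun _ _ _ _ _ _ _ l => ⟨⟨l.1, l.2.1⟩, l.2.2⟩, fun _ _ m => ⟨⟨m.1, m.2.1⟩, m.2.2⟩⟩,
      fun _ _ _ => add_assoc _ _ _⟩, fun _ _ _ => rfl⟩
    ⟨⟨fun _ _ _ _ _ _ _ l => ⟨⟨l.1, l.2.1⟩, l.2.2⟩, fun _ _ m => ⟨⟨m.1, m.2.1⟩, m.2.2⟩⟩,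
      ⟨fun _ _ _ _ _ _ _ l => ⟨l.1.1, l.1.2, l.2⟩, fun _ _ m => ⟨m.1.1, m.1.2, m.2⟩⟩,
      fun _ _ _ => rfl, fun _ _ _ => rfl⟩

end LinCtx

end V3a

open V3a

theorem V3_thm {K : Type} [Field K] [Base K] {p : ℕ} [Fact p.Prime] [CharP K p] [FW0 K] [FWp K p]
    (_h2 : (2 : K) ≠ 0) [V1 K p] [V2 K p] : V3 K p where
  img e hp hs _ _ C _ := av_img (wmp_ctx C e) (pro_ctx C.S hp) (srj_ctx C.S hs)
  iso e i := ⟨fun C _ => (av_iso (wmp_ctx C e) (iso_ctx C.S i)).1,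
    fun C _ => (av_iso (wmp_ctx C e) (iso_ctx C.S i)).2⟩
  emb U e i o _ _ C _ := av_emb (C.S.prod U) (wmp_ctx C e) (iso_ctx C.S i) (opn_ctx C.S o)
  opn X q h _ _ C _ := av_opn (weq_ctx C (weq_res X _ _))
    (opn_ctx C.S fun _ _ _ _ m m' l => ⟨m, h _ m m'.1 l m'.2⟩)
  strat {c c' X P} q h h1 h2 _ _ C W hv :=
    av_strat (E := C.prod X) (fun L x => q L x.2) (fun _ _ R _ _ m m' l => h R m.2 m'.2 l.2)
      (av_sub (E' := C.prod (X.cl q h))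
        ⟨⟨⟨Reg.id _, fun _ _ m => ⟨⟨m.1, m.2.1⟩, m.2.2⟩⟩, fun _ _ _ => rfl⟩, fun _ _ _ => rfl⟩
        (fun _ _ m _ => ⟨m.1.1, m.1.2, m.2⟩) (h1 C W hv))
      (av_sub (E' := C.prod (X.cpl q h))
        ⟨⟨⟨Reg.id _, fun _ _ m => ⟨⟨m.1, m.2.1⟩, m.2.2⟩⟩, fun _ _ _ => rfl⟩, fun _ _ _ => rfl⟩
        (fun _ _ m _ => ⟨m.1.1, m.1.2, m.2⟩) (h2 C W hv))
  nz X u hu h _ _ C _ := av_sub (weq_ctx C (weq_res X _ _)) fun L x m h0 =>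
    ⟨m.1, m.2, fun e => right_ne_zero_of_mul h0 (h L x.2 m.2 e)⟩
  sub X X' e h _ _ C _ := av_sub (weq_ctx C e) fun L x m h0 =>
    ⟨m.1, h L x.2 m.2 (right_ne_zero_of_mul h0)⟩
  gm e _ _ C W := V1.gm W (gm_ctx C e)
  ga e _ _ C W := V1.ga W (ga_ctx C e)
  lin X _ _ f hf :=
    ⟨fun C _ hv => (ctx_lin C X f hf).2 (av_zer_lin _ _ _ ((ctx_zer C X f hf).1 hv)),
      fun C _ hv => (ctx_zer C X f hf).2 (av_lin_zer _ _ _ ((ctx_lin C X f hf).1 hv))⟩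
  prodL Y h _ _ C W hv := (av_assoc C Y _).2 (h (C.prod Y) W ((av_assoc C Y _).1 hv))
  prodR Y h _ _ C W hv := av_comm C Y _
    ((av_assoc C Y _).2 (h (C.prod Y) W ((av_assoc C Y _).1 (av_comm C _ Y hv))))
  comm X Y _ _ C _ hv := av_comm C X Y hv
  assoc X Y Z := ⟨fun C _ => (av_assoc' C X Y Z).1, fun C _ => (av_assoc' C X Y Z).2⟩
  pt X := ⟨fun C _ hv => (av_assoc C X _).2 ((av_pt _).2 hv),
    fun C _ hv => (av_pt _).1 ((av_assoc C X _).1 hv)⟩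
  tor κ _ q := ⟨fun C _ hv => (av_tor C κ q).1 ((av_pt C).1 hv),
    fun C _ hv => (av_pt C).2 ((av_tor C κ q).2 hv)⟩
  aff d := ⟨fun C _ hv => (av_aff C d).2 ((av_tor C _ _).1 ((av_pt C).1 hv)),
    fun C _ hv => (av_pt C).2 ((av_tor C _ _).2 ((av_aff C d).1 hv))⟩

end Pool.Agent.Lib.MP_557161_ag.HG.TW
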