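import Pool.Agent.Lib.MP_557161_ag.TW.Wd

/-!
Products of Gauss sums.
-/

namespace Pool.Agent.Lib.MP_557161_ag.HG.TW

open Pool.Agent.Lib.MP_557161_ag.DL Matrix

variable {K : Type} [Field K] {p : ℕ}

namespace V4a

variable {c c' d : Cd}

/-- Implications in both directions. -/
def Eqi (p : ℕ) (X' : WD K c') (X : WD K c) : Prop := Imp p X' X ∧ Imp p X X'

lemma Eqi.symm {X' : WD K c'} {X : WD K c} (h : Eqi p X' X) : Eqi p X X' := ⟨h.2, h.1⟩

lemma Eqi.trans {X₁ : WD K c} {X₂ : WD K c'} {X₃ : WD K d} (h : Eqi p X₁ X₂) (h' : Eqi p X₂ X₃) :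
    Eqi p X₁ X₃ := ⟨Imp.trans h.1 h'.1, Imp.trans h'.2 h.2⟩

variable [V3 K p]

lemma iso1 {X : WD K c} {X' : WD K c'} {f : ∀ L : Fld K, c'.X L → c.X L}
    {f' : ∀ L : Fld K, c.X L → c'.X L} (i : Iso X'.S X.S f f')
    (h : ∀ L x, X'.S.mem L x → X.φ L (f L x) = X'.φ L x ∧ X.g L (f L x) = X'.g L x) :
    Eqi p X' X :=
  V3.iso (h := fun _ _ => 1) (a := 1)
    { toMp := i.mf
      ph := fun L x m => (h L x m).1
      rh := fun _ _ R _ _ _ _ _ => R.one
      h0 := fun _ _ _ => one_ne_zero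
      a0 := one_ne_zero
      gh := fun L x m => by rw [map_one, one_pow, one_mul, mul_one, (h L x m).2] } i

lemma gsum (κ κ' : Type) [Fintype κ] [Fintype κ'] :
    Eqi p (Gs K (κ ⊕ κ')) ((Gs K κ).prod (Gs K κ')) :=
  iso1 (f := fun _ x => (fun i => x (.inl i), fun i => x (.inr i)))
    (f' := fun _ x => Sum.elim x.1 x.2)
    ⟨⟨fun _ _ _ _ _ _ _ e => ⟨fun _ => e _, fun _ => e _⟩, fun _ _ _ => ⟨trivial, trivial⟩⟩,
      ⟨fun _ _ _ _ _ _ _ e i => by cases i; exacts [e.1 _, e.2 _], fun _ _ _ => trivial⟩,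
      fun _ _ _ => funext fun i => by cases i <;> rfl, fun _ _ _ => rfl⟩
    fun L x _ => ⟨(Fintype.sum_sum_type x).symm, (Fintype.prod_sum_type x).symm⟩

lemma reidx {κ κ' : Type} [Fintype κ] [Fintype κ'] (e : κ ≃ κ') : Eqi p (Gs K κ') (Gs K κ) :=
  iso1 (f := fun _ x i => x (e i)) (f' := fun _ x i => x (e.symm i))
    ⟨⟨fun _ _ _ _ _ _ _ h _ => h _, fun _ _ _ => trivial⟩,
      ⟨fun _ _ _ _ _ _ _ h _ => h _, fun _ _ _ => trivial⟩,
      fun _ x _ => funext fun i => congrArg x (e.apply_symm_apply i),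
      fun _ x _ => funext fun i => congrArg x (e.symm_apply_apply i)⟩
    fun _ x _ => ⟨e.sum_comp x, e.prod_comp x⟩

lemma empty : Eqi p (Pt K) (Gs K Empty) :=
  iso1 (f := fun _ x => x) (f' := fun _ x => x)
    ⟨⟨fun _ _ _ _ _ _ _ h => h, fun _ _ _ => trivial⟩,
      ⟨fun _ _ _ _ _ _ _ h => h, fun _ _ _ => trivial⟩, fun _ _ _ => rfl, fun _ _ _ => rfl⟩
    fun _ x _ => ⟨Fintype.sum_empty x, Fintype.prod_empty x⟩

/-- The line with the coordinate as its weight. -/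
def X0 (K : Type) [Field K] : WD K .one :=
  mkW (.univ K _) (fun _ _ => 0) (fun _ t => t) (fun _ _ R _ _ _ _ _ => R.zero)
    fun _ _ _ _ _ _ _ e => e

/-- The function `1 + t`. -/
def f0 (L : Fld K) (t : L) (_ : Unit) : L := 1 + t

lemma f0_reg : Reg (X0 K).S (.vec Unit) f0 := fun _ _ R _ _ _ _ e _ => R.add R.one e

/-- The plane with phase `s (1 + t)` and weight `t`. -/
def B0 (K : Type) [Field K] : WD K (Cd.one.prod (.vec Unit)) := (X0 K).lin f0 f0_reg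

lemma q0_cl ⦃M L : Fld K⦄ (R : Rel M L) ⦃x : (Cd.one.prod (.vec Unit)).X M⦄
    ⦃x' : (Cd.one.prod (.vec Unit)).X L⦄ (_ : (B0 K).S.mem M x) (_ : (B0 K).S.mem L x')
    (e : (Cd.one.prod (.vec Unit)).lift R.r x x') (h : x.2 () = 0) : x'.2 () = 0 :=
  Rel.eq_zero (e.2 ()) h

lemma B0_φ (L : Fld K) (t : L) (s : Unit → L) : (B0 K).φ L (t, s) = s () * (1 + t) := by
  show (0 : L) + ∑ i, s i * (1 + t) = _
  rw [zero_add, Fintype.sum_unique]

lemma dead : Dead p ((B0 K).cl (fun _ x => x.2 () = 0) q0_cl) :=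
  V3.gm (X := (B0 K).cl (fun _ x => x.2 () = 0) q0_cl)
    (γ := fun _ x => (x.1 * x.2.1, x.2.2)) (k := 1)
    { mp := ⟨fun _ _ R _ _ _ _ e => ⟨R.mul e.1 e.2.1, e.2.2⟩,
        fun _ _ m => ⟨⟨trivial, trivial⟩, m.2.2⟩⟩
      one := fun _ x _ => Prod.ext (one_mul x.1) rfl
      inv := fun _ _ x h _ => Prod.ext (inv_mul_cancel_left₀ h x.1) rfl
      ph := fun L t x _ m => by
        have h : x.2 () = 0 := m.2
        refine (B0_φ L (t * x.1) x.2).trans (Eq.trans ?_ (B0_φ L x.1 x.2).symm)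
        rw [h, zero_mul, zero_mul]
      gg := fun _ t x _ _ => by rw [zpow_one]; rfl
      odd := odd_one }

lemma two : Eqi p (Pt K) (Gs K (Fin 2)) := by
  have hu : Reg (Gs K (Fin 2)).S .one fun _ x => x 1 := fun _ _ _ _ _ _ _ e => e 1
  have h1 : Eqi p ((Gs K (Fin 2)).nz _ hu) (Gs K (Fin 2)) :=
    ⟨V3.nz _ _ hu fun L x _ h => Finset.prod_eq_zero (Finset.mem_univ 1) h, V3.opn _ _ _⟩
  have i2 : Iso ((Gs K (Fin 2)).nz _ hu).S ((B0 K).cpl (fun _ x => x.2 () = 0) q0_cl).S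
      (fun _ x => (x 0 / x 1, fun _ => x 1)) fun _ x => ![x.1 * x.2 (), x.2 ()] :=
    ⟨⟨fun _ _ _ _ _ _ m' e => ⟨Rel.div (e 0) (e 1) m'.2, fun _ => e 1⟩,
        fun _ _ m => ⟨⟨trivial, trivial⟩, m.2⟩⟩,
      ⟨fun _ _ R _ _ _ _ e i => by fin_cases i; exacts [R.mul e.1 (e.2 ()), e.2 ()],
        fun _ _ m => ⟨trivial, m.2⟩⟩,
      fun _ x m => funext fun i => by fin_cases i; exacts [div_mul_cancel₀ (x 0) m.2, rfl],
      fun _ x m => Prod.ext (mul_div_cancel_right₀ x.1 m.2) rfl⟩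
  have h2 : Eqi p ((Gs K (Fin 2)).nz _ hu) ((B0 K).cpl (fun _ x => x.2 () = 0) q0_cl) :=
    V3.iso (h := fun _ x => x 1) (a := 1)
      { toMp := i2.mf
        ph := fun L x m => by
          have h : x 1 ≠ 0 := m.2
          refine (B0_φ L (x 0 / x 1) fun _ => x 1).trans ?_
          show _ = ∑ i, x i
          rw [Fin.sum_univ_two]
          field_simp
          ring
        rh := fun _ _ _ _ _ _ _ e => e 1
        h0 := fun _ _ m => m.2
        a0 := one_ne_zero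
        gh := fun L x m => by
          have h : x 1 ≠ 0 := m.2
          show ∏ i, x i = algebraMap K L 1 * (x 0 / x 1 * x 1 ^ 2)
          rw [Fin.prod_univ_two, map_one]
          field_simp } i2
  have h3 : Eqi p ((B0 K).cpl (fun _ x => x.2 () = 0) q0_cl) (B0 K) :=
    ⟨V3.strat _ q0_cl (Dead.imp dead _) (Imp.refl p _), V3.opn _ _ _⟩
  have h4 : Eqi p ((X0 K).zer f0 f0_reg) (B0 K) := V3.lin _ _ _
  have e5 : ∀ (L : Fld K) (t : L), ((X0 K).zer f0 f0_reg).S.mem L t → t = -1 := fun L t m =>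
    eq_neg_of_add_eq_zero_right (m.2 ())
  have i5 : Iso ((X0 K).zer f0 f0_reg).S (Pt K).S (fun _ _ => Empty.elim) fun _ _ => -1 :=
    ⟨⟨fun _ _ _ _ _ _ _ _ i => i.elim, fun _ _ _ => trivial⟩,
      ⟨fun _ _ R _ _ _ _ _ => Rel.neg R.one, fun L _ _ => ⟨trivial, fun _ => add_neg_cancel (1 : L)⟩⟩,
      fun L t m => (e5 L t m).symm, fun _ _ _ => funext fun i => i.elim⟩
  have h5 : Eqi p ((X0 K).zer f0 f0_reg) (Pt K) :=
    V3.iso (h := fun _ _ => 1) (a := -1)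
      { toMp := i5.mf
        ph := fun _ _ _ => rfl
        rh := fun _ _ R _ _ _ _ _ => R.one
        h0 := fun _ _ _ => one_ne_zero
        a0 := neg_ne_zero.2 one_ne_zero
        gh := fun L t m => by
          show t = algebraMap K L (-1) * (1 * 1 ^ 2)
          rw [e5 L t m, map_neg, map_one, one_pow, mul_one, mul_one] } i5
  exact h5.symm.trans (h4.trans (h3.symm.trans (h2.symm.trans h1)))

lemma even (n : ℕ) : ∀ (κ : Type) [Fintype κ], Fintype.card κ = 2 * n → Eqi p (Pt K) (Gs K κ) := by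
  induction n with
  | zero =>
    intro κ _ h
    exact empty.trans (reidx (Fintype.equivOfCardEq (by rw [h]; rfl)))
  | succ n ih =>
    intro κ _ h
    have h1 := ih (Fin (2 * n)) (Fintype.card_fin _)
    have h2 : Eqi p ((Gs K (Fin (2 * n))).prod (Pt K)) ((Gs K (Fin (2 * n))).prod (Gs K (Fin 2))) :=
      ⟨V3.prodL _ two.1, V3.prodL _ two.2⟩
    refine h1.trans (Eqi.trans (V3.pt _) (h2.trans ((gsum _ _).symm.trans
      (reidx (Fintype.equivOfCardEq ?_)))))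
    rw [h, Fintype.card_sum, Fintype.card_fin, Fintype.card_fin, Nat.mul_succ]

omit [V3 K p] in
lemma base [FA3 K] [FC1 K p] [FC4 K p] (W : ASp K d) : AV p ((Gs K Unit).prod (Pt K)) W := by
  let A : Ph K .one := ⟨.univ K _, fun _ _ => 0, fun _ _ R _ _ _ _ _ => R.zero⟩
  have hf : Reg A.S (.vec Unit) fun _ v _ => 1 + v ^ 2 :=
    fun _ _ R _ _ _ _ e _ => R.add R.one (Rel.pow e 2)
  have h1 : Van p (A.zer _ hf) W := FC1.pt fun L v m => by
    have h0 := FA3.dm_vec (K := K) (κ := Empty) (L := L) Empty.elim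
    rw [Nat.card_eq_zero.2 (Or.inl inferInstance)] at h0
    refine FA3.dm_alg (d := .one) h0 fun F _ => ?_
    have h2 : 1 + v ^ 2 = 0 := m.2 ()
    refine IsAlgebraic.of_pow two_pos ?_
    rw [eq_neg_of_add_eq_zero_right h2]
    exact isAlgebraic_one.neg
  have i : Iso (A.lin _ hf).S ((Gs K Unit).prod (Pt K)).v.S
      (fun _ x => ((x.2, Empty.elim), x.1)) fun _ x => (x.2, x.1.1) :=
    ⟨⟨fun _ _ _ _ _ _ _ e => ⟨⟨e.2, fun i => i.elim⟩, e.1⟩,
        fun _ _ _ => ⟨⟨trivial, trivial⟩, trivial⟩⟩,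
      ⟨fun _ _ _ _ _ _ _ e => ⟨e.2, e.1.1⟩, fun _ _ _ => ⟨trivial, trivial⟩⟩,
      fun _ _ _ => rfl, fun _ _ _ => Prod.ext (Prod.ext rfl (funext fun i => i.elim)) rfl⟩
  have h3 : Van p ((Gs K Unit).prod (Pt K)).v W :=
    FC1.img ⟨i.mf, fun L x _ => by
      show (∑ i, x.2 i + 0) + ((∏ i, x.2 i) * 1) * x.1 ^ 2 = 0 + ∑ i, x.2 i * (1 + x.1 ^ 2)
      rw [Fintype.sum_unique, Fintype.prod_unique, Fintype.sum_unique]
      ring⟩ i.pro i.srj (FC4.lin _ hf h1)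
  exact fun j Φ L x v y w => h3 j Φ.toNF L (x, v) y w

end V4a

theorem V4_thm [Base K] [Fact p.Prime] [CharP K p] [FW0 K] [FWp K p] (_h2 : (2 : K) ≠ 0)
    [V1 K p] [V2 K p] [V3 K p] : V4 K p where
  gg κ _ h := by
    obtain ⟨n, hn⟩ := h
    exact V4a.even n κ (by rw [← Nat.card_eq_fintype_card, hn, two_mul])
  gsum := V4a.gsum
  base := V4a.base

end Pool.Agent.Lib.MP_557161_ag.HG.TW
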