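import Pool.Agent.Lib.MP_557161_ag.TW.Wd

/-!
The matrix Gauss sum and the general linear group.
-/

namespace Pool.Agent.Lib.MP_557161_ag.HG.TW

open Pool.Agent.Lib.MP_557161_ag.DL Matrix Sum

variable {K : Type} [Field K] {p : ℕ}

/-- Induction on finite types. -/
lemma V5_ind (P : ∀ (m : Type) [Fintype m] [DecidableEq m], Prop)
    (he : ∀ (α β : Type) [Fintype α] [DecidableEq α] [Fintype β] [DecidableEq β], α ≃ β → P α → P β)
    (h0 : P Empty) (hs : ∀ (α : Type) [Fintype α] [DecidableEq α], P α → P (Unit ⊕ α))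
    (m : Type) [Fintype m] [DecidableEq m] : P m := by
  have : ∀ n, P (Fin n) := by
    intro n
    induction n with
    | zero => exact he _ _ (Equiv.equivEmpty _).symm h0
    | succ n ih => exact he _ _ (Fintype.equivOfCardEq (by simp [add_comm])) (hs _ ih)
  exact he _ _ (Fintype.equivFin m).symm (this _)

/-- Isomorphisms that preserve the phase and the weight. -/
lemma V5_iso [V3 K p] {c c' : Cd} {X : WD K c} {X' : WD K c'} {f : ∀ L : Fld K, c'.X L → c.X L}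
    {f' : ∀ L : Fld K, c.X L → c'.X L} (h : Iso X'.S X.S f f')
    (e : ∀ L x, X'.S.mem L x → X.φ L (f L x) = X'.φ L x ∧ X.g L (f L x) = X'.g L x) :
    Imp p X' X ∧ Imp p X X' :=
  V3.iso (h := fun _ _ => 1) (a := 1) ⟨⟨h.mf, fun L x m => (e L x m).1⟩,
    fun _ _ R _ _ _ _ _ => R.one, fun _ _ _ => one_ne_zero, one_ne_zero,
    fun L x m => by simp [(e L x m).2]⟩ h

section
variable {κ : Type} {L : Type} [Field L]

/-- The shape of the coordinates on the big cell. -/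
abbrev V5c (κ : Type) [Finite κ] : Cd :=
  (((Cd.vec Unit).prod (.mat κ κ)).prod (.vec κ)).prod (.vec κ)

/-- The matrix with given coordinates. -/
def V5b [Finite κ] (x : (V5c κ).X L) : Matrix (Unit ⊕ κ) (Unit ⊕ κ) L :=
  fromBlocks (of fun _ _ => x.1.1.1 ()) (of fun _ j => x.1.1.1 () * x.2 j) (of fun i _ => x.1.2 i)
    (of fun i j => x.1.1.2 i j + x.1.2 i * x.2 j)

/-- The coordinates of a matrix. -/
def V5u [Finite κ] (h : Matrix (Unit ⊕ κ) (Unit ⊕ κ) L) : (V5c κ).X L :=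
  (((fun _ => h (inl ()) (inl ()), of fun i j => h (inr i) (inr j) -
    h (inr i) (inl ()) * ((h (inl ()) (inl ()))⁻¹ * h (inl ()) (inr j))),
    fun i => h (inr i) (inl ())), fun j => (h (inl ()) (inl ()))⁻¹ * h (inl ()) (inr j))

lemma V5_ub [Finite κ] (x : (V5c κ).X L) (h : x.1.1.1 () ≠ 0) : V5u (V5b x) = x := by
  obtain ⟨⟨⟨a, d⟩, c⟩, ξ⟩ := x
  refine Prod.ext (Prod.ext (Prod.ext rfl ?_) rfl) ?_
  · ext i j
    simp [V5u, V5b, inv_mul_cancel_left₀ h]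
  · ext j
    simp [V5u, V5b, inv_mul_cancel_left₀ h]

lemma V5_bu [Finite κ] (h : Matrix (Unit ⊕ κ) (Unit ⊕ κ) L) (h0 : h (inl ()) (inl ()) ≠ 0) :
    V5b (V5u h) = h := by
  ext (i | i) (j | j) <;> simp [V5u, V5b, mul_inv_cancel_left₀ h0]

variable [Fintype κ]

lemma V5_tr (x : (V5c κ).X L) :
    (V5b x).trace = x.1.1.1 () + x.1.1.2.trace + ∑ i, x.2 i * x.1.2 i := by
  simp [V5b, trace, Finset.sum_add_distrib, add_assoc, mul_comm]

lemma V5_det [DecidableEq κ] (x : (V5c κ).X L) : (V5b x).det = x.1.1.1 () * x.1.1.2.det := by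
  have : V5b x = fromBlocks (of fun _ _ => x.1.1.1 ()) 0 (of fun i _ => x.1.2 i) x.1.1.2 *
      fromBlocks 1 (of fun _ j => x.2 j) 0 1 := by
    rw [fromBlocks_multiply]
    ext (i | i) (j | j) <;> simp [V5b, mul_apply, add_comm]
  rw [this, det_mul, det_fromBlocks_zero₁₂, det_fromBlocks_zero₂₁]
  simp

end

section
variable {κ : Type} [Finite κ] {M L : Fld K} (R : Rel M L)

lemma V5b_rel {x : (V5c κ).X M} {x' : (V5c κ).X L} (e : (V5c κ).lift R.r x x') :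
    R.m' (V5b x) (V5b x') := by
  rintro (i | i) (j | j)
  exacts [e.1.1.1 (), R.mul (e.1.1.1 ()) (e.2 j), e.1.2 i,
    R.add (e.1.1.2 i j) (R.mul (e.1.2 i) (e.2 j))]

lemma V5u_rel {h : Matrix (Unit ⊕ κ) (Unit ⊕ κ) M} {h' : Matrix (Unit ⊕ κ) (Unit ⊕ κ) L}
    (e : R.m' h h') (h0 : h' (inl ()) (inl ()) ≠ 0) : (V5c κ).lift R.r (V5u h) (V5u h') :=
  ⟨⟨⟨fun _ => e _ _, fun _ _ => Rel.sub (e _ _) (R.mul (e _ _) (R.mul (R.inv (e _ _) h0) (e _ _)))⟩,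
    fun _ => e _ _⟩, fun _ => R.mul (R.inv (e _ _) h0) (e _ _)⟩

end

variable [V3 K p]

section
variable {α β : Type} [Fintype α] [Fintype β]

lemma V5_gs (e : α ≃ β) : Imp p (Gs K α) (Gs K β) ∧ Imp p (Gs K β) (Gs K α) :=
  V5_iso (f := fun _ x => x ∘ e.symm) (f' := fun _ x => x ∘ e)
    ⟨⟨fun _ _ _ _ _ _ _ h _ => h _, fun _ _ _ => trivial⟩,
      ⟨fun _ _ _ _ _ _ _ h _ => h _, fun _ _ _ => trivial⟩,
      fun _ x _ => funext fun i => by simp, fun _ x _ => funext fun i => by simp⟩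
    fun _ x _ => ⟨e.symm.sum_comp x, e.symm.prod_comp x⟩

lemma V5_gsum : Imp p ((Gs K α).prod (Gs K β)) (Gs K (α ⊕ β)) ∧
    Imp p (Gs K (α ⊕ β)) ((Gs K α).prod (Gs K β)) :=
  V5_iso (f := fun _ x => Sum.elim x.1 x.2) (f' := fun _ x => (x ∘ inl, x ∘ inr))
    ⟨⟨fun _ _ _ _ _ _ _ h i => i.casesOn h.1 h.2, fun _ _ _ => trivial⟩,
      ⟨fun _ _ _ _ _ _ _ h => ⟨fun _ => h _, fun _ => h _⟩, fun _ _ _ => ⟨trivial, trivial⟩⟩,
      fun _ _ _ => rfl, fun _ x _ => Sum.elim_comp_inl_inr x⟩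
    fun _ _ _ => ⟨Fintype.sum_sum_type _, Fintype.prod_sum_type _⟩

variable [DecidableEq α] [DecidableEq β]

lemma V5_glw (e : α ≃ β) : Imp p (GLw K α) (GLw K β) ∧ Imp p (GLw K β) (GLw K α) :=
  V5_iso (f := fun _ x => x.submatrix e.symm e.symm) (f' := fun _ x => x.submatrix e e)
    ⟨⟨fun _ _ _ _ _ _ _ h _ _ => h _ _, fun _ _ _ => trivial⟩,
      ⟨fun _ _ _ _ _ _ _ h _ _ => h _ _, fun _ _ _ => trivial⟩,
      fun _ x _ => by simp, fun _ x _ => by simp⟩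
    fun _ x _ => ⟨e.symm.sum_comp fun i => x i i, det_submatrix_equiv_self _ _⟩

lemma V5_glo (e : α ≃ β) : Imp p (GLo K α) (GLo K β) ∧ Imp p (GLo K β) (GLo K α) :=
  V5_iso (f := fun _ x => x.submatrix e.symm e.symm) (f' := fun _ x => x.submatrix e e)
    ⟨⟨fun _ _ _ _ _ _ _ h _ _ => h _ _,
        fun _ _ m => ⟨trivial, (det_submatrix_equiv_self _ _).trans_ne m.2⟩⟩,
      ⟨fun _ _ _ _ _ _ _ h _ _ => h _ _,
        fun _ _ m => ⟨trivial, (det_submatrix_equiv_self _ _).trans_ne m.2⟩⟩,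
      fun _ x _ => by simp, fun _ x _ => by simp⟩
    fun _ _ _ => ⟨rfl, rfl⟩

end

variable (κ : Type) [Fintype κ] [DecidableEq κ]

lemma V5_step : Imp p ((Gs K Unit).prod (GLw K κ)) (GLw K (Unit ⊕ κ)) ∧
    Imp p (GLw K (Unit ⊕ κ)) ((Gs K Unit).prod (GLw K κ)) := by
  let Y := ((Gs K Unit).prod (GLw K κ)).nz (fun _ x => x.1 ()) fun _ _ _ _ _ _ _ e => e.1 ()
  let X := Y.prod (Aff K (.vec κ))
  have hf : Reg X.S (.vec κ) fun _ x => x.2 := fun _ _ _ _ _ _ _ e => e.2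
  have hq : ∀ ⦃M L : Fld K⦄ (R : Rel M L) ⦃x x'⦄, (GLw K (Unit ⊕ κ)).S.mem M x →
      (GLw K (Unit ⊕ κ)).S.mem L x' → (Cd.mat _ _).lift R.r x x' → x (inl ()) (inl ()) = 0 →
      x' (inl ()) (inl ()) = 0 := fun _ _ _ _ _ _ _ e h => Rel.eq_zero (e _ _) h
  have i1 : Imp p Y (X.zer _ hf) ∧ Imp p (X.zer _ hf) Y :=
    V5_iso (f := fun _ x => (x, 0)) (f' := fun _ x => x.1)
      ⟨⟨fun _ _ R _ _ _ _ e => ⟨e, fun _ => R.zero⟩, fun _ _ m => ⟨⟨m, trivial⟩, fun _ => rfl⟩⟩,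
        ⟨fun _ _ _ _ _ _ _ e => e.1, fun _ _ m => m.1.1⟩, fun _ _ _ => rfl,
        fun _ _ m => Prod.ext rfl (funext m.2).symm⟩
      fun _ _ _ => ⟨add_zero _, mul_one _⟩
  have i2 : Imp p (X.lin _ hf) ((GLw K (Unit ⊕ κ)).cpl _ hq) ∧
      Imp p ((GLw K (Unit ⊕ κ)).cpl _ hq) (X.lin _ hf) :=
    V5_iso (f := fun _ x => V5b x) (f' := fun _ x => V5u x)
      ⟨⟨fun _ _ R _ _ _ _ e => V5b_rel R e, fun _ _ m => ⟨trivial, m.1.1.2⟩⟩,
        ⟨fun _ _ R _ _ _ m e => V5u_rel R e m.2,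
          fun _ _ m => ⟨⟨⟨⟨trivial, trivial⟩, m.2⟩, trivial⟩, trivial⟩⟩,
        fun _ x m => V5_ub x m.1.1.2, fun _ x m => V5_bu x m.2⟩
      fun _ x _ => ⟨(V5_tr x).trans (by
        change _ = ∑ i, x.1.1.1 i + x.1.1.2.trace + 0 + ∑ i, x.2 i * x.1.2 i
        simp), (V5_det x).trans (by
        change _ = (∏ i, x.1.1.1 i) * x.1.1.2.det * 1
        simp)⟩
  have i3 : Dead p ((GLw K (Unit ⊕ κ)).cl _ hq) := by
    intro cc d
    refine V3.gm (X := (GLw K (Unit ⊕ κ)).cl _ hq)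
      (γ := fun _ x => updateRow x.2 (inl ()) (x.1 • x.2 (inl ()))) (k := 1)
      ⟨⟨fun _ _ R _ _ _ _ e i j => ?_, fun _ x m => ⟨trivial, ?_⟩⟩, fun _ x _ => ?_,
        fun _ t x h _ => ?_, fun _ t x _ m => ?_, fun _ t x _ _ => ?_, odd_one⟩
    · simp only [updateRow_apply]
      exact Rel.ite _ (R.mul e.1 (e.2 _ _)) (e.2 _ _)
    · simp [show x.2 _ _ = 0 from m.2.2]
    · simp
    · simp [smul_smul, h]
    · change trace _ = trace x
      simp [trace, show x _ _ = 0 from m.2]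
    · change det _ = t ^ (1 : ℤ) * det x
      rw [det_updateRow_smul, updateRow_eq_self, zpow_one]
  refine ⟨V3.strat _ hq (Dead.imp i3 _) ?_, ?_⟩
  · exact Imp.trans (V3.opn _ _ _) (Imp.trans i1.1 (Imp.trans (V3.lin X _ hf).1 i2.1))
  · refine Imp.trans (V3.opn _ _ _) (Imp.trans i2.2 (Imp.trans (V3.lin X _ hf).2 (Imp.trans i1.2
      (V3.nz _ _ _ fun _ x _ h => ?_))))
    change (∏ i, x.1 i) * x.2.det = 0
    simp [show x.1 () = 0 from h]

lemma V5_stepo : Imp p (GLo K (Unit ⊕ κ)) (GLo K κ) := by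
  let X := (((Tor K Unit fun _ => True).prod (GLo K κ)).prod (Aff K (.vec κ))).prod
    (Aff K (.vec κ))
  let U := (GLo K (Unit ⊕ κ)).nz (fun _ x => x (inl ()) (inl ())) fun _ _ _ _ _ _ _ e => e _ _
  have i2 : Imp p X U ∧ Imp p U X := V5_iso (f := fun _ x => V5b x) (f' := fun _ x => V5u x)
      ⟨⟨fun _ _ R _ _ _ _ e => V5b_rel R e, fun _ x m => ⟨⟨trivial, (V5_det x).trans_ne
          (mul_ne_zero (m.1.1.1.2 () trivial) m.1.1.2.2)⟩, m.1.1.1.2 () trivial⟩⟩,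
        ⟨fun _ _ R _ _ _ m e => V5u_rel R e m.2, fun _ x m => ⟨⟨⟨⟨trivial, fun _ _ => m.2⟩, trivial,
          right_ne_zero_of_mul ((V5_det (V5u x)).symm.trans_ne
            ((congrArg det (V5_bu x m.2)).trans_ne m.1.2))⟩, trivial⟩, trivial⟩⟩,
        fun _ x m => V5_ub x (m.1.1.1.2 () trivial), fun _ x m => V5_bu x m.2⟩
      fun _ x _ => ⟨by
        change (0 : _) = 0 + 0 + 0 + 0
        simp, by
        change (1 : _) = 1 * 1 * 1 * 1
        simp⟩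
  intro cc d
  exact Imp.trans (V3.opn _ _ _) (Imp.trans i2.2 (Imp.trans (V3.prodL _ (V3.aff _).2)
    (Imp.trans (V3.pt _).2 (Imp.trans (V3.prodL _ (V3.aff _).2) (Imp.trans (V3.pt _).2
    (Imp.trans (V3.prodR _ (V3.tor _ _).2) (Imp.trans (V3.comm _ _) (V3.pt _).2)))))))

theorem V5_thm (_h2 : (2 : K) ≠ 0) : V5 K p where
  gl := by
    refine V5_ind (fun m _ _ => Imp p (Gs K m) (GLw K m) ∧ Imp p (GLw K m) (Gs K m))
      (fun _ _ _ _ _ _ e h => ⟨Imp.trans (V5_gs e).2 (Imp.trans h.1 (V5_glw e).1),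
        Imp.trans (V5_glw e).2 (Imp.trans h.2 (V5_gs e).1)⟩) ?_ fun α _ _ h =>
      ⟨Imp.trans V5_gsum.2 (Imp.trans (V3.prodL _ h.1) (V5_step α).1),
        Imp.trans (V5_step α).2 (Imp.trans (V3.prodL _ h.2) V5_gsum.1)⟩
    exact V5_iso (f := fun _ _ => 0) (f' := fun _ _ => 0)
      ⟨⟨fun _ _ _ _ _ _ _ _ i => i.elim, fun _ _ _ => trivial⟩,
        ⟨fun _ _ _ _ _ _ _ _ i => i.elim, fun _ _ _ => trivial⟩,
        fun _ _ _ => funext fun i => i.elim, fun _ _ _ => Matrix.ext fun i => i.elim⟩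
      fun _ x _ => ⟨by
        change trace (0 : Matrix Empty Empty _) = ∑ i, x i
        simp, by
        change det _ = ∏ i, x i
        simp⟩
  glo m _ _ := by
    refine ⟨Imp.trans (V3.aff _).1 (V3.opn _ _ _), ?_⟩
    refine V5_ind (fun m _ _ => Imp p (GLo K m) (Pt K))
      (fun _ _ _ _ _ _ e h => Imp.trans (V5_glo e).2 h) ?_
      (fun α _ _ h => Imp.trans (V5_stepo α) h) m
    exact (V5_iso (X' := GLo K Empty) (X := Pt K) (f := fun _ _ => 0) (f' := fun _ _ => 0)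
      ⟨⟨fun _ _ _ _ _ _ _ _ i => i.elim, fun _ _ _ => trivial⟩,
        ⟨fun _ _ _ _ _ _ _ _ i => i.elim, fun _ _ _ => ⟨trivial, by simp⟩⟩,
        fun _ _ _ => Matrix.ext fun i => i.elim, fun _ _ _ => funext fun i => i.elim⟩
      fun _ _ _ => ⟨rfl, rfl⟩).1

end Pool.Agent.Lib.MP_557161_ag.HG.TW
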