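import Pool.Agent.Lib.MP_557161_ag.HG.All0
import Pool.Agent.Lib.MP_557161_ag.TW.V1
import Pool.Agent.Lib.MP_557161_ag.TW.V2
import Pool.Agent.Lib.MP_557161_ag.TW.V3
import Pool.Agent.Lib.MP_557161_ag.TW.V4
import Pool.Agent.Lib.MP_557161_ag.TW.V5
import Pool.Agent.Lib.MP_557161_ag.TW.SB
import Pool.Agent.Lib.MP_557161_ag.TW.SK
import Pool.Agent.Lib.MP_557161_ag.TW.SU
import Pool.Agent.Lib.MP_557161_ag.TW.SN
import Pool.Agent.Lib.MP_557161_ag.TW.S2
import Pool.Agent.Lib.MP_557161_ag.TW.SA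
import Pool.Agent.Lib.MP_557161_ag.TW.SS
import Pool.Agent.Lib.MP_557161_ag.TW.SI1
import Pool.Agent.Lib.MP_557161_ag.TW.SI2
import Pool.Agent.Lib.MP_557161_ag.TW.SI3b
import Pool.Agent.Lib.MP_557161_ag.TW.SI4
import Pool.Agent.Lib.MP_557161_ag.TW.SD
import Pool.Agent.Lib.MP_557161_ag.TW.S0
import Pool.Agent.Lib.MP_557161_ag.TW.SF
import Pool.Agent.Lib.MP_557161_ag.TW.FAll

/-!
The top exterior power for the surfaces `z ^ 2 = c (1 - x y) f (x) D (y)`, without assumptions.
-/

namespace Pool.Agent.Lib.MP_557161_ag.HG.TW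

open Pool.Agent.Lib.MP_557161_ag.DL

theorem ALT_thm {K : Type} [Field K] [Base K] : ALT K where
  alt T := by
    obtain ⟨p, hp, _⟩ := Base.char (K := K)
    have h2 := T.two
    have : Fact p.Prime := ⟨hp⟩
    have : FW0 K := FW0_thm
    have : FWp K p := FWp_thm
    have : V1 K p := V1_thm h2
    have : V2 K p := V2_thm h2
    have : V3 K p := V3_thm h2
    have : V4 K p := V4_thm h2
    have : V5 K p := V5_thm h2
    have : SB K := SB_thm
    have : SK K p := SK_thm h2
    have : SU K p := SU_thm h2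
    have : SN K p := SN_thm h2
    have : S2a K p := S2a_thm
    have : S2b K p := S2b_thm
    have : SA K p := SA_thm h2
    have : SS K p := SS_thm h2
    have : SI1 K p := SI1_thm h2
    have : SI2 K p := SI2_thm h2
    have : SI3 K p := SI3b_thm
    have : SI4 K p := SI4_thm h2
    have : SD K p := SD_thm h2
    have : S0 K p := S0_thm h2
    have : FO K p := FO_all h2
    exact (ALT_of p).alt T

end Pool.Agent.Lib.MP_557161_ag.HG.TW
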