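import Pool.Agent.Lib.MP_557161_ag.TW.StY

/-!
The boundary of the surface is a union of rational curves.
-/

namespace Pool.Agent.Lib.MP_557161_ag.HG.TW.P2

open Pool.Agent.Lib.MP_557161_ag.DL MvPolynomial

namespace BDa

variable {K : Type} [Field K] {G : GD K} {L : Fld K}

/-- A line in the plane. -/
def af (p q : Fin 2 → K) (L : Fld K) (τ : L) : Fin 2 → L :=
  fun i => algebraMap K L (p i) + τ * algebraMap K L (q i)

/-- The line does not pass through the origin. -/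
def Gd (p q : Fin 2 → K) : Prop := ∃ i, p i ≠ 0 ∧ q i = 0

/-- The point lies on a rational curve. -/
def Cov (G : GD K) (L : Fld K) (w : Vr → L) : Prop :=
  ∃ γ : ∀ L : Fld K, Cd.one.X L → cw.X L, Mp (ASp.univ K .one) G.CC.S γ ∧
    ∃ (τ : L) (a : Tr → L), Un a ∧ w = G.Γ.scl a (γ L τ)

lemma scl_mk4 (a : Tr → L) (x y t s : Fin 2 → L) : G.Γ.scl a (mk4 x y t s) =
    mk4 (a 0 • x) (a 1 • y) ![a 0 ^ G.g * a 2 * t 0, a 1 ^ (G.h + 1) * a 2 * t 1]
      ![a 1 ^ G.h * a 3 * s 0, a 0 ^ (G.g + 1) * a 3 * s 1] := by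
  funext ⟨r, i⟩
  fin_cases r <;> fin_cases i <;> simp [wt, wv, mk4, Fin.prod_univ_four] <;> norm_cast <;> simp

lemma cn_iff {x y t s : Fin 2 → L} : G.Cn L (mk4 x y t s) ↔
    (x ≠ 0 ∧ y ≠ 0 ∧ t ≠ 0 ∧ s ≠ 0) ∧ t 1 * s 1 = dt x y * t 0 * s 0 ∧
      t 1 * s 0 * aeval x G.FP = s 1 * t 0 * aeval y G.FQ := by
  refine and_congr ?_ ?_
  · rw [Wt.nz_iff]
    constructor
    · intro h
      have e : ∀ r : Tr, ![x, y, t, s] r ≠ 0 := fun r e => by
        obtain ⟨⟨r', i⟩, rfl, h1⟩ := h r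
        exact h1 (congrFun e i)
      exact ⟨e 0, e 1, e 2, e 3⟩
    · rintro ⟨h0, h1, h2, h3⟩ r
      have e : ![x, y, t, s] r ≠ 0 := by fin_cases r <;> assumption
      obtain ⟨i, hi⟩ := Function.ne_iff.1 e
      exact ⟨(r, i), rfl, hi⟩
  · rw [Fin.forall_fin_two, eqs0, eqs1, sub_eq_zero, sub_eq_zero]
    rfl

lemma Cov.scl {w : Vr → L} (h : Cov G L w) {a : Tr → L} (ha : Un a) : Cov G L (G.Γ.scl a w) := by
  obtain ⟨γ, h1, τ, b, hb, rfl⟩ := h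
  exact ⟨γ, h1, τ, a * b, ha.mul hb, G.Γ.scl_scl _ _ _⟩

lemma Gd.ne {p q : Fin 2 → K} (h : Gd p q) (L : Fld K) (τ : L) : af p q L τ ≠ 0 := fun e => by
  obtain ⟨i, h1, h2⟩ := h
  exact h1 (by simpa [af, h2] using congrFun e i)

lemma cov {p₀ q₀ p₁ q₁ p₂ q₂ p₃ q₃ : Fin 2 → K} (g₀ : Gd p₀ q₀) (g₁ : Gd p₁ q₁) (g₂ : Gd p₂ q₂)
    (g₃ : Gd p₃ q₃)
    (h₀ : ∀ (L : Fld K) (τ : L), af p₂ q₂ L τ 1 * af p₃ q₃ L τ 1 =
      dt (af p₀ q₀ L τ) (af p₁ q₁ L τ) * af p₂ q₂ L τ 0 * af p₃ q₃ L τ 0)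
    (h₁ : ∀ (L : Fld K) (τ : L), af p₂ q₂ L τ 1 * af p₃ q₃ L τ 0 * aeval (af p₀ q₀ L τ) G.FP =
      af p₃ q₃ L τ 1 * af p₂ q₂ L τ 0 * aeval (af p₁ q₁ L τ) G.FQ)
    (τ : L) {c c' : L} (hc : c ≠ 0) (hc' : c' ≠ 0) {t s : Fin 2 → L}
    (ht : ∀ i, t i = c * af p₂ q₂ L τ i) (hs : ∀ i, s i = c' * af p₃ q₃ L τ i) :
    Cov G L (mk4 (af p₀ q₀ L τ) (af p₁ q₁ L τ) t s) := by
  refine ⟨fun L τ => mk4 (af p₀ q₀ L τ) (af p₁ q₁ L τ) (af p₂ q₂ L τ) (af p₃ q₃ L τ),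
    ⟨fun M L R τ τ' _ _ e l => ?_, fun L τ _ =>
      cn_iff.2 ⟨⟨g₀.ne L τ, g₁.ne L τ, g₂.ne L τ, g₃.ne L τ⟩, h₀ L τ, h₁ L τ⟩⟩,
    τ, ![1, 1, c, c'], fun r => by fin_cases r <;> simp [hc, hc'], ?_⟩
  · have r : ∀ p q i, R.r (af p q M τ i) (af p q L τ' i) := fun p q i =>
      R.add (R.const _) (R.mul e (R.const _))
    obtain ⟨r', i⟩ := l
    fin_cases r' <;> exact r _ _ i
  · rw [scl_mk4]
    congr 1
    · simp
    · simp
    · funext i; fin_cases i <;> simp [ht]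
    · funext i; fin_cases i <;> simp [hs]

lemma wl {x y t s x' y' : Fin 2 → L} {c c' : L} (m : G.Cn L (mk4 x y t s)) (hx : x = c • x')
    (hy : y = c' • y')
    (H : ∀ t' s', t' 1 * s' 1 = dt x' y' * t' 0 * s' 0 → (∀ i, t' i = 0 ↔ t i = 0) →
      (∀ i, s' i = 0 ↔ s i = 0) → Cov G L (mk4 x' y' t' s')) : Cov G L (mk4 x y t s) := by
  have hc : c ≠ 0 := fun e => (cn_iff.1 m).1.1 (by rw [hx, e, zero_smul])
  have hc' : c' ≠ 0 := fun e => (cn_iff.1 m).1.2.1 (by rw [hy, e, zero_smul])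
  have ha : Un (![c⁻¹, c'⁻¹, 1, 1] : Tr → L) := fun r => by fin_cases r <;> simp [hc, hc']
  have m' : G.Cn L _ := G.CC.inv L _ _ ha m
  rw [← G.Γ.scl_inv ha (mk4 x y t s)]
  refine Cov.scl ?_ ha.inv
  rw [scl_mk4] at m' ⊢
  have e : (![c⁻¹, c'⁻¹, 1, 1] : Tr → L) 0 • x = x' := by simp [hx, smul_smul, hc]
  have e' : (![c⁻¹, c'⁻¹, 1, 1] : Tr → L) 1 • y = y' := by simp [hy, smul_smul, hc']
  rw [e, e'] at m' ⊢
  exact H _ _ (cn_iff.1 m').2.1 (fun i => by fin_cases i <;> simp [hc, hc'])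
    fun i => by fin_cases i <;> simp [hc, hc']

lemma line (x : Fin 2 → L) : ∃ p q, Gd p q ∧ ∃ (τ c : L), x = c • af p q L τ := by
  by_cases h1 : x 1 = 0
  · exact ⟨![1, 0], 0, ⟨0, by simp, rfl⟩, 0, x 0, funext fun i => by
      fin_cases i <;> simp [af, h1]⟩
  · exact ⟨![0, 1], ![1, 0], ⟨1, by simp, rfl⟩, x 0 / x 1, x 1, funext fun i => by
      fin_cases i <;> simp [af, mul_div_cancel₀ _ h1]⟩

lemma prop {x y : Fin 2 → L} (h : y ≠ 0) (d : dt x y = 0) : ∃ c : L, x = c • y := by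
  rw [dt, sub_eq_zero] at d
  by_cases h1 : y 1 = 0
  · have h0 : y 0 ≠ 0 := fun e => h (funext fun i => by fin_cases i <;> assumption)
    refine ⟨x 0 / y 0, funext fun i => ?_⟩
    rw [h1, mul_zero, eq_comm, mul_eq_zero, or_iff_left h0] at d
    fin_cases i <;> simp [h0, h1, d]
  · refine ⟨x 1 / y 1, funext fun i => ?_⟩
    fin_cases i
    · simp only [Fin.zero_eta, Pi.smul_apply, smul_eq_mul]
      field_simp
      exact d
    · simp [h1]

lemma root {x : Fin 2 → L} {e f : K} (h0 : e ≠ 0 ∨ f ≠ 0)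
    (h1 : algebraMap K L f * aeval x G.uu = algebraMap K L e * aeval x G.vv) :
    ∃ ρ, Gd ρ 0 ∧ (∀ (L : Fld K) (τ : L), aeval (af ρ 0 L τ) G.uu = algebraMap K L e ∧
      aeval (af ρ 0 L τ) G.vv = algebraMap K L f) ∧ ∃ c : L, ∀ τ, x = c • af ρ 0 L τ := by
  have d := G.det
  rw [dt] at d
  have g : Gd (e • G.β + f • G.α) 0 := by
    by_contra hn
    have z : ∀ i, e * G.β i + f * G.α i = 0 := fun i => by_contra fun n => hn ⟨i, n, rfl⟩
    rcases h0 with h0 | h0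
    · exact h0 (by linear_combination G.α 1 * z 0 - G.α 0 * z 1 - e * d)
    · exact h0 (by linear_combination G.β 0 * z 1 - G.β 1 * z 0 - f * d)
  refine ⟨_, g, fun L τ => ?_, ?_⟩
  · have d' := congrArg (algebraMap K L) d
    simp only [map_sub, map_mul, map_one] at d'
    simp only [GD.uu, GD.vv, af, map_sub, map_mul, aeval_X, aeval_C, Pi.add_apply, Pi.smul_apply,
      smul_eq_mul, map_add, Pi.zero_apply, map_zero]
    exact ⟨by linear_combination algebraMap K L e * d', by linear_combination algebraMap K L f * d'⟩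
  · obtain ⟨c, hc⟩ := prop (x := x) (g.ne L 0) (by
      simp only [GD.uu, GD.vv, map_sub, map_mul, aeval_X, aeval_C] at h1
      simp only [dt, af, map_mul, Pi.add_apply, Pi.smul_apply, smul_eq_mul, map_add, Pi.zero_apply,
        map_zero]
      linear_combination h1)
    exact ⟨c, fun τ => hc.trans (by congr 1; funext i; simp [af])⟩

lemma rootP {x : Fin 2 → L} (h1 : aeval x G.FP = 0) :
    ∃ ρ, Gd ρ 0 ∧ (∀ (L : Fld K) (τ : L), aeval (af ρ 0 L τ) G.FP = 0) ∧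
      ∃ c : L, ∀ τ, x = c • af ρ 0 L τ := by
  have c1 : G.c1 ≠ 0 := left_ne_zero_of_mul (G.cc ▸ G.c0)
  simp only [GD.FP, map_mul, map_prod, map_sub, aeval_C, mul_eq_zero, map_eq_zero, c1, false_or,
    Finset.prod_eq_zero_iff, Finset.mem_univ, true_and] at h1 ⊢
  rcases h1 with h1 | ⟨i, h1⟩
  · obtain ⟨ρ, g, e, hc⟩ := root (G := G) (x := x) (e := 0) (.inr one_ne_zero) (by simp [h1])
    exact ⟨ρ, g, fun L τ => .inl (by simp [(e L τ).1]), hc⟩
  · obtain ⟨ρ, g, e, hc⟩ := root (G := G) (x := x) (e := G.a i) (.inr one_ne_zero)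
      (by rw [map_one, one_mul, sub_eq_zero.1 h1])
    exact ⟨ρ, g, fun L τ => .inr ⟨i, by simp [e L τ]⟩, hc⟩

lemma rootQ {x : Fin 2 → L} (h1 : aeval x G.FQ = 0) :
    ∃ ρ, Gd ρ 0 ∧ (∀ (L : Fld K) (τ : L), aeval (af ρ 0 L τ) G.FQ = 0) ∧
      ∃ c : L, ∀ τ, x = c • af ρ 0 L τ := by
  have c2 : G.c2 ≠ 0 := right_ne_zero_of_mul (G.cc ▸ G.c0)
  simp only [GD.FQ, map_mul, map_prod, map_sub, aeval_C, mul_eq_zero, map_eq_zero, c2, false_or,
    Finset.prod_eq_zero_iff, Finset.mem_univ, true_and] at h1 ⊢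
  rcases h1 with h1 | ⟨i, h1⟩
  · obtain ⟨ρ, g, e, hc⟩ := root (G := G) (x := x) (f := 0) (.inl one_ne_zero) (by simp [h1])
    exact ⟨ρ, g, fun L τ => .inl (by simp [(e L τ).2]), hc⟩
  · obtain ⟨ρ, g, e, hc⟩ := root (G := G) (x := x) (e := G.b i) (.inr one_ne_zero)
      (by rw [map_one, one_mul, sub_eq_zero.1 h1])
    exact ⟨ρ, g, fun L τ => .inr ⟨i, by simp [e L τ]⟩, hc⟩

lemma dt_self (x : Fin 2 → L) : dt x x = 0 := by rw [dt, mul_comm, sub_self]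

lemma g10 : Gd (![1, 0] : Fin 2 → K) 0 := ⟨0, by simp, rfl⟩
lemma g01 : Gd (![0, 1] : Fin 2 → K) 0 := ⟨1, by simp, rfl⟩
lemma gτ1 : Gd (![0, 1] : Fin 2 → K) ![1, 0] := ⟨1, by simp, rfl⟩

lemma e10 {t : Fin 2 → L} (h : t 1 = 0) (τ : L) (i : Fin 2) :
    t i = t 0 * af (![1, 0] : Fin 2 → K) 0 L τ i := by fin_cases i <;> simp [af, h]

lemma e01 {t : Fin 2 → L} (h : t 0 = 0) (τ : L) (i : Fin 2) :
    t i = t 1 * af (![0, 1] : Fin 2 → K) 0 L τ i := by fin_cases i <;> simp [af, h]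

lemma eτ1 {t : Fin 2 → L} (h : t 1 ≠ 0) (i : Fin 2) :
    t i = t 1 * af (![0, 1] : Fin 2 → K) ![1, 0] L (t 0 / t 1) i := by
  fin_cases i <;> simp [af, mul_div_cancel₀ _ h]

lemma af_const (ρ : Fin 2 → K) (τ τ' : L) : af ρ 0 L τ = af ρ 0 L τ' := by
  funext i; simp [af]

lemma main {x y t s : Fin 2 → L} (m : G.Cn L (mk4 x y t s))
    (b : t 1 * s 0 * aeval x G.FP = 0) : Cov G L (mk4 x y t s) := by
  obtain ⟨⟨hx, hy, ht, hs⟩, e0, e1⟩ := cn_iff.1 m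
  have nz : ∀ {v : Fin 2 → L}, v ≠ 0 → v 0 = 0 → v 1 = 0 → False := fun h h0 h1 =>
    h (funext fun i => by fin_cases i <;> assumption)
  rw [b, eq_comm] at e1
  by_cases t1 : t 1 = 0
  · have t0 : t 0 ≠ 0 := fun h => nz ht h t1
    rw [t1, zero_mul, eq_comm, mul_right_comm, mul_eq_zero, or_iff_left t0, mul_eq_zero] at e0
    by_cases s1 : s 1 = 0
    · have s0 : s 0 ≠ 0 := fun h => nz hs h s1
      obtain ⟨c, hc⟩ := prop hy (e0.resolve_right s0)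
      obtain ⟨p, q, g, τ, c', hc'⟩ := line (K := K) y
      refine wl m (hc.trans ((congrArg _ hc').trans (smul_smul _ _ _))) hc' fun t' s' _ h2 h3 => ?_
      exact cov g g g10 g10 (fun L τ => by simp [dt_self, af]) (fun L τ => by simp [af]) τ
        ((h2 0).not.2 t0) ((h3 0).not.2 s0) (e10 ((h2 1).2 t1) τ) (e10 ((h3 1).2 s1) τ)
    · obtain ⟨ρ, g, hρ, c', hc'⟩ := rootQ
        ((mul_eq_zero.1 e1).resolve_left (mul_ne_zero s1 t0))
      rcases e0 with d | s0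
      · obtain ⟨c, hc⟩ := prop hy d
        refine wl m (hc.trans ((congrArg _ (hc' 0)).trans (smul_smul _ _ _))) (hc' 0)
          fun t' s' _ h2 h3 => ?_
        rw [af_const ρ 0 (s' 0 / s' 1)]
        exact cov g g g10 gτ1 (fun L τ => by simp [dt_self, af])
          (fun L τ => by rw [hρ]; simp [af]) _ ((h2 0).not.2 t0) ((h3 1).not.2 s1)
          (e10 ((h2 1).2 t1) _) (eτ1 ((h3 1).not.2 s1))
      · obtain ⟨p, q, g', τ, c, hc⟩ := line (K := K) x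
        refine wl m hc (hc' τ) fun t' s' _ h2 h3 => ?_
        exact cov g' g g10 g01 (fun L τ => by simp [af])
          (fun L τ => by rw [hρ]; simp [af]) _ ((h2 0).not.2 t0) ((h3 1).not.2 s1)
          (e10 ((h2 1).2 t1) _) (e01 ((h3 0).2 s0) _)
  · have s0 : s 0 ≠ 0 := fun h => nz hs h (by simpa [h, t1] using e0)
    obtain ⟨ρ, g, hρ, c, hc⟩ := rootP ((mul_eq_zero.1 b).resolve_left (mul_ne_zero t1 s0))
    by_cases s1 : s 1 = 0
    · rw [s1, mul_zero, eq_comm, mul_eq_zero, or_iff_left s0, mul_eq_zero] at e0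
      rcases e0 with d | t0
      · obtain ⟨c', hc'⟩ := prop (x := y) hx (by
          rw [dt] at d ⊢
          linear_combination -d)
        refine wl m (hc 0) (hc'.trans ((congrArg _ (hc 0)).trans (smul_smul _ _ _)))
          fun t' s' _ h2 h3 => ?_
        rw [af_const ρ 0 (t' 0 / t' 1)]
        exact cov g g gτ1 g10 (fun L τ => by simp [dt_self, af])
          (fun L τ => by rw [hρ]; simp [af]) _ ((h2 1).not.2 t1) ((h3 0).not.2 s0)
          (eτ1 ((h2 1).not.2 t1)) (e10 ((h3 1).2 s1) _)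
      · obtain ⟨p, q, g', τ, c', hc'⟩ := line (K := K) y
        refine wl m (hc τ) hc' fun t' s' _ h2 h3 => ?_
        exact cov g g' g01 g10 (fun L τ => by simp [af])
          (fun L τ => by rw [hρ]; simp [af]) _ ((h2 1).not.2 t1) ((h3 0).not.2 s0)
          (e01 ((h2 0).2 t0) _) (e10 ((h3 1).2 s1) _)
    · have t0 : t 0 ≠ 0 := fun h => mul_ne_zero t1 s1 (by rw [e0, h, mul_zero, zero_mul])
      obtain ⟨ρ', g', hρ', c', hc'⟩ := rootQ
        ((mul_eq_zero.1 e1).resolve_left (mul_ne_zero s1 t0))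
      refine wl m (hc 0) (hc' 0) fun t' s' h1 h2 h3 => ?_
      have n1 := (h2 1).not.2 t1
      rw [af_const ρ 0 (t' 0 / t' 1), af_const ρ' 0 (t' 0 / t' 1)]
      refine cov (p₃ := ![1, 0]) (q₃ := ![0, dt ρ ρ']) g g' gτ1 ⟨0, by simp, rfl⟩
        (fun L τ => by simp [af, dt]; ring) (fun L τ => by rw [hρ, hρ']; simp) _ n1
        ((h3 0).not.2 s0) (eτ1 n1) fun i => ?_
      fin_cases i
      · simp [af]
      · simp [af, dt] at h1 ⊢
        field_simp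
        linear_combination h1

end BDa

theorem BD_thm {K : Type} [Field K] : BD K where
  cov {G L w} m := by
    have e : w = mk4 (pc w 0) (pc w 1) (pc w 2) (pc w 3) := by
      funext ⟨r, i⟩
      fin_cases r <;> rfl
    have h := BDa.main (G := G) (x := pc w 0) (y := pc w 1) (t := pc w 2) (s := pc w 3)
      (e ▸ m.1) m.2
    rwa [← e] at h

end Pool.Agent.Lib.MP_557161_ag.HG.TW.P2
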