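import Pool.Agent.Lib.MP_557161_ag.TW.StW
import Pool.Agent.Lib.MP_557161_ag.HG.FA1
import Pool.Agent.Lib.MP_557161_ag.HG.FA2

/-!
Places of composita.
-/

namespace Pool.Agent.Lib.MP_557161_ag.HG.TW.P2

open Pool.Agent.Lib.MP_557161_ag.DL Pl IntermediateField

namespace CPa

variable {K : Type} [Field K] {A A₁ B B₀ M N : Fld K} {κ : Type} {k j : ℕ}

lemma cnt {S : Type} [Finite S] (g : S → ℤ) {n : ℤ} (hn : 0 < n) (h : ∀ s, n ≤ g s)
    (e : ∑ᶠ s, g s = n) : ∃ s, g s = n ∧ ∀ s', s' = s := by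
  let _ := Fintype.ofFinite S
  rw [finsum_eq_sum_of_fintype] at e
  have h1 := Finset.card_nsmul_le_sum Finset.univ g n fun s _ => h s
  rw [e, nsmul_eq_mul, mul_le_iff_le_one_left hn, Finset.card_univ] at h1
  have : Subsingleton S := Fintype.card_le_one_iff_subsingleton.1 (by exact_mod_cast h1)
  rcases isEmpty_or_nonempty S with h0 | ⟨⟨s⟩⟩
  · rw [Finset.univ_eq_empty, Finset.sum_empty] at e
    exact absurd e hn.ne
  · exact ⟨s, (Fintype.sum_subsingleton g s).symm.trans e, fun _ => Subsingleton.elim _ _⟩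

lemma symm {ι : A →ₐ[K] N} {α : B →ₐ[K] N} (h : Cmp k j ι α) : Cmp j k α ι :=
  ⟨h.gB, h.gA, add_comm k j ▸ h.gN, (congrArg (adjoin K) (Set.union_comm _ _)).trans h.top⟩

lemma hom_ext {ι : A →ₐ[K] N} {T : κ → N} (h : gen ι T = ⊤) {ρ ρ' : N →ₐ[K] M}
    (e : ∀ a, ρ (ι a) = ρ' (ι a)) (e' : ∀ a, ρ (T a) = ρ' (T a)) : ρ = ρ' :=
  AlgHom.ext fun x => Fa1.gen_le (F := (AlgHom.equalizer ρ ρ').toIntermediateField fun x hx =>
    (map_inv₀ ρ x).trans ((congrArg _ hx).trans (map_inv₀ ρ' x).symm)) e e'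
    (h ▸ mem_top : x ∈ gen ι T)

lemma basis (h : Good j B) : ∃ (κ : Type) (_ : Finite κ) (B₀ : Fld K) (T : κ → B₀)
    (β : B₀ →ₐ[K] B), j = Nat.card κ ∧ Free 0 (L := .base K) (Algebra.ofId K B₀) T ∧ Fin' β := by
  obtain ⟨κ, T, hT⟩ := exists_isTranscendenceBasis' K B
  have h5 : Cardinal.mk κ = j := hT.cardinalMk_eq_trdeg.trans h.2
  have : Finite κ := Cardinal.mk_lt_aleph0_iff.1 (h5.trans_lt Cardinal.natCast_lt_aleph0)
  have hc : j = Nat.card κ := by rw [Nat.card, h5, Cardinal.toNat_natCast]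
  obtain ⟨α₁, β, T₁, e, e', t⟩ := Fa1.exists_sub (L := .base K) (Algebra.ofId K B) T
  obtain rfl : α₁ = Algebra.ofId K _ := AlgHom.ext α₁.commutes
  have f := Fa1.of_ne good_base (fun P hP => algebraicIndependent_iff.1 hT.1 P (by
    have := Fa1.map_ev (L := .base K) β (Algebra.ofId K _) T₁ P
    rw [hP, map_zero, e, funext e'] at this
    exact this.symm)) t
  exact ⟨κ, this, _, T₁, β, hc, f, h.fin β (by rw [f.gM.2, zero_add, hc])⟩

variable {T : κ → B₀}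

lemma mem_of (h0 : gen (L := .base K) (Algebra.ofId K B₀) T = ⊤) (γ : B₀ →ₐ[K] M)
    {F : IntermediateField K M} (h : ∀ a, γ (T a) ∈ F) (b : B₀) : γ b ∈ F :=
  Fa1.gen_le (F := F.comap γ) (F.comap γ).algebraMap_mem h (h0 ▸ mem_top : b ∈ gen _ T)

lemma triv (h0 : gen (L := .base K) (Algebra.ofId K B₀) T = ⊤) {α : B₀ →ₐ[K] N} {O : Pl N}
    {r : A →ₐ[K] O.res} (hT : ∀ a, α (T a) ∈ O.O) (h : FA2Ind r fun a => O.rd (α (T a))) :
    Triv α O := fun b => by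
  obtain ⟨P, Q, rfl⟩ := (Fa1.mem_gen' _ _ b).1 (h0 ▸ mem_top : b ∈ gen _ T)
  have R := Rel.aeval (R := Rel.ofPl O) (x := fun a => α (T a)) (x' := fun a => O.rd (α (T a)))
    fun a => ⟨hT a, rfl⟩
  by_cases hQ : Q = 0
  · rw [hQ, MvPolynomial.eval₂_zero, div_zero, map_zero]
    exact zero_mem _
  · have n := h _ fun e => hQ (MvPolynomial.map_injective _ (algebraMap K A).injective
      (e.trans (map_zero _).symm))
    rw [MvPolynomial.eval₂_map, show r.toRingHom.comp (algebraMap K A) = algebraMap K O.res from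
      r.comp_algebraMap] at n
    have := (Rel.div (R P) (R Q) n).1
    rwa [← MvPolynomial.comp_aeval_apply, ← MvPolynomial.comp_aeval_apply, ← map_div₀] at this

lemma triv' {β : B₀ →ₐ[K] B} (hβ : Fin' β) {α : B →ₐ[K] N} {O : Pl N} (h : Triv (α.comp β) O) :
    Triv α O := fun b => ValC.mem_of_alg h fun t => by
  let _ := ValA.alg β
  have : Module.Finite B₀ B := hβ
  exact (ValA.trans_iff β b).1 (Trans'.of_map.1 t) (Algebra.IsAlgebraic.isAlgebraic b)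

lemma bound (h0 : gen (L := .base K) (Algebra.ofId K B₀) T = ⊤) {β : B₀ →ₐ[K] B} (hβ : Fin' β)
    (r : A →ₐ[K] M) (γ : B →ₐ[K] M) {t : κ → M} (e : ∀ a, γ (β (T a)) = t a) :
    (M.sub (gen r fun b => γ b)).tr ≤ (M.sub (gen r t)).tr := by
  refine Fa1.tr_mono _ _ fun x hx => mem_algebraicClosure_iff.1
    (Fa1.gen_le (F := (algebraicClosure (gen r t) M).restrictScalars K)
      (fun a => (algebraicClosure (gen r t) M).algebraMap_mem ⟨_, Fa1.left_mem r t a⟩)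
      (fun b => mem_algebraicClosure_iff.2 ?_) hx)
  let _ := ValA.alg β
  have : Module.Finite B₀ B := hβ
  exact (Algebra.IsAlgebraic.isAlgebraic (R := B₀) b).ringHom_of_comp_eq
    ((γ.comp β).codRestrict (gen r t).toSubalgebra (mem_of h0 (γ.comp β) fun a =>
      (e a).symm ▸ Fa1.right_mem r t a)).toRingHom γ.toRingHom (RingHom.injective _) rfl

lemma of_free [Finite κ] {ι : A →ₐ[K] A₁} {α : B₀ →ₐ[K] A₁} {t : κ → A₁} (h : Free k ι t)
    (h0 : Free 0 (L := .base K) (Algebra.ofId K B₀) T) (e : ∀ a, α (T a) = t a) :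
    Cmp k (Nat.card κ) ι α :=
  ⟨h.gL, zero_add (Nat.card κ) ▸ h0.gM, h.gM, eq_top_iff.2 (h.top.ge.trans
    (Fa1.gen_le (Fa1.left_mem _ _) fun a => e a ▸ Fa1.right_mem ι (fun b => α b) _))⟩

variable [CE K]

lemma lift {ι₁ : A →ₐ[K] A₁} {α₁ : B₀ →ₐ[K] A₁} {ι : A →ₐ[K] N} {α : B →ₐ[K] N}
    (h₁ : Cmp k j ι₁ α₁) (h : Cmp k j ι α) (β : B₀ →ₐ[K] B) :
    ∃ ρ : A₁ →ₐ[K] N, ρ.comp ι₁ = ι ∧ ρ.comp α₁ = α.comp β ∧ deg ρ = deg β := by
  obtain ⟨ρ, e1, e2, e3⟩ := CE.lift (symm h₁) (symm h) β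
  exact ⟨ρ, e2, e1, e3 rfl⟩

lemma sub_deg {ι : A →ₐ[K] A₁} {γ₀ : B₀ →ₐ[K] A₁} (c : Cmp k j ι γ₀) {β : B₀ →ₐ[K] B}
    (hB : Good j B) {r : A₁ →ₐ[K] M} {γ : B →ₐ[K] M} (e : ∀ b, γ (β b) = r (γ₀ b))
    (hM : Good (k + j) M) :
    ∃ d, 0 < d ∧ deg r = deg β * d ∧ (d = 1 → Cmp k j (r.comp ι) γ) := by
  let F := gen (r.comp ι) fun b => γ b
  let v : M.sub F →ₐ[K] M := F.val
  let ι' : A →ₐ[K] M.sub F := (r.comp ι).codRestrict F.toSubalgebra (Fa1.left_mem _ _)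
  let γ' : B →ₐ[K] M.sub F := γ.codRestrict F.toSubalgebra (Fa1.right_mem _ fun b => γ b)
  let r' : A₁ →ₐ[K] M.sub F := r.codRestrict F.toSubalgebra fun x =>
    Fa1.gen_le (F := F.comap r) (Fa1.left_mem (r.comp ι) _)
      (fun b => show r (γ₀ b) ∈ F from e b ▸ Fa1.right_mem _ (fun b => γ b) _)
      (c.top ▸ mem_top : x ∈ gen ι fun b => γ₀ b)
  have t : (M.sub F).tr = (k + j : ℕ) :=
    le_antisymm ((tr_le v).trans hM.2.le) (c.gN.2.ge.trans (tr_le r'))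
  have c' : Cmp k j ι' γ' := ⟨c.gA, hB, hM.down (ι := v) t, eq_top_iff.2 fun x _ => by
    obtain ⟨y, h1, h2⟩ := Fa1.gen_le (F := (gen ι' fun b => γ' b).map v)
      (fun a => ⟨_, Fa1.left_mem ι' _ a, rfl⟩)
      (fun b => ⟨_, Fa1.right_mem ι' (fun b => γ' b) b, rfl⟩) x.2
    exact (Subtype.ext h2 : y = x) ▸ h1⟩
  obtain ⟨ρ, e1, e2, e3⟩ := lift c c' β
  obtain rfl : ρ = r' := hom_ext c.top (fun a => AlgHom.congr_fun e1 a)
    fun b => (AlgHom.congr_fun e2 b).trans (Subtype.ext (e b))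
  refine ⟨deg v, (deg_pos_iff v).2 (hM.fin v t), e3 ▸ deg_comp r' v,
    fun h => ⟨c.gA, hB, hM, eq_top_iff.2 fun x _ => ?_⟩⟩
  let _ := ValA.alg v
  obtain ⟨y, rfl⟩ := (Algebra.finrank_eq_one_iff_bijective_algebraMap.1 h).2 x
  exact y.2

variable [Base K] [FA1 K] [FA2 K] [Finite κ]

lemma place {ι : A →ₐ[K] N} {α : B →ₐ[K] N} (c : Cmp (k + 1) (Nat.card κ) ι α)
    (h0 : Free 0 (L := .base K) (Algebra.ofId K B₀) T) {β : B₀ →ₐ[K] B} (hβ : Fin' β)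
    (O : Dv A k) : ∃ E : Dv N (k + Nat.card κ), (∃ (h : Over ι O.1 E.1) (h' : Triv α E.1),
      (∀ f, E.1.ord (ι f) = O.1.ord f) ∧ Cmp k (Nat.card κ) h.resHom h'.hom) ∧
      ∀ (O' : Pl N) (h : Over ι O.1 O') (h' : Triv α O'),
        ¬ (O'.res.sub (gen h.resHom fun b => h'.hom b)).tr < (k + Nat.card κ : ℕ) → O' = E.1 := by
  have f := FA1.fr_free κ c.gA
  obtain ⟨α₁, -, e0, -⟩ := FA1.lift h0 f (Algebra.ofId K A)
  obtain ⟨ρ, rfl, e2, e3⟩ := lift (of_free f h0 e0) c β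
  have e2' : ∀ b, α (β b) = ρ (α₁ b) := fun b => (AlgHom.congr_fun e2 b).symm
  obtain ⟨O₁, h₁, hT, ho, f₁, -⟩ := FA2.gauss f O
  have n0 := (deg_pos_iff β).2 hβ
  have hρ := (deg_pos_iff ρ).1 (e3 ▸ n0)
  have g₁ : Good (k + Nat.card κ + 1) (fr A κ) := add_right_comm k 1 _ ▸ f.gM
  have gN : Good (k + Nat.card κ + 1) N := add_right_comm k 1 _ ▸ c.gN
  have t₁ : Triv α₁ O₁.1 := triv h0.top (r := h₁.resHom) (fun a => (e0 a).symm ▸ hT a)
    (by simp only [e0]; exact FA1.ne f₁)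
  have c₁ := of_free (α := t₁.hom) f₁ h0 fun a => by rw [t₁.hom_apply, e0]
  obtain ⟨π, p0, p1⟩ := exists_ord_eq_one O₁.2.1
  have hs := sum_ord_nrm hρ g₁ O₁.2 ((_root_.map_ne_zero ρ).2 p0)
  rw [nrm_map, ord_pow O₁.2.1, p1, mul_one, e3] at hs
  have : Finite {O' : Pl N // Over ρ O₁.1 O'} := finite_over hρ g₁ O₁.2
  have dv := fun s : {O' : Pl N // Over ρ O₁.1 O'} => s.2.isDiv hρ g₁ O₁.2
  have tr : ∀ s : {O' : Pl N // Over ρ O₁.1 O'}, Triv α s.1 := fun s =>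
    triv' hβ fun b => show α (β b) ∈ _ from (e2' b).symm ▸ (s.2 _).1 (t₁ b)
  choose d d0 d1 d2 using fun s : {O' : Pl N // Over ρ O₁.1 O'} =>
    sub_deg c₁ c.gB (r := s.2.resHom) (γ := (tr s).hom) (β := β)
      (fun b => by rw [Triv.hom_apply, Triv.hom_apply, Over.resHom_rd, e2']) ((dv s).good gN)
  choose e q0 q1 using fun s : {O' : Pl N // Over ρ O₁.1 O'} =>
    s.2.exists_ram (dv s).1 O₁.2.1.ne_top
  have n1 : (0 : ℤ) < deg β := by exact_mod_cast n0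
  have d3 : ∀ s, (1 : ℤ) ≤ d s := fun s => by exact_mod_cast d0 s
  simp only [q1, p1, d1, mul_one, Nat.cast_mul, mul_left_comm (e _)] at hs
  obtain ⟨s, s1, s2⟩ := cnt _ n1
    (fun s => le_mul_of_one_le_right n1.le (one_le_mul_of_one_le_of_one_le (q0 s) (d3 s))) hs
  have s3 := (mul_eq_left₀ n1.ne').1 s1
  have s4 : e s = 1 := Int.eq_one_of_mul_eq_one_right (q0 s).le s3
  have s5 : d s = 1 := by
    rw [s4, one_mul] at s3
    exact_mod_cast s3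
  have ov : Over (ρ.comp (frα A κ)) O.1 s.1 := fun x => (h₁ x).trans (s.2 _)
  refine ⟨⟨s.1, dv s⟩, ⟨ov, tr s, fun x => (q1 s _).trans (by rw [s4, one_mul]; exact ho x), ?_⟩,
    fun O' h h' hlt => congrArg Subtype.val (s2 ⟨O', fun x => ?_⟩)⟩
  · refine (AlgHom.ext fun z => ?_ : s.2.resHom.comp h₁.resHom = ov.resHom) ▸ d2 s s5
    obtain ⟨x, -, rfl⟩ := rd_surj _ z
    rw [AlgHom.comp_apply, Over.resHom_rd, Over.resHom_rd, Over.resHom_rd]
    rfl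
  · have ind : FA2Ind h.resHom fun a => O'.rd (ρ (frT A κ a)) := FA2_ind f₁.gL fun l =>
      hlt ((bound h0.top hβ _ _ fun a => by rw [Triv.hom_apply, e2', e0]).trans_lt l)
    by_cases hx : x = 0
    · rw [hx, map_zero]
      exact iff_of_true (zero_mem _) (zero_mem _)
    obtain ⟨c, a, b, -, ha, hb, e⟩ := FA2_dec O.1 (f.top ▸ mem_top : x ∈ gen _ _) hx
    refine (FA2_mem h₁ hT (FA1.ne f₁) ha hb e).trans (FA2_mem h
      (fun a => (e0 a ▸ e2' (T a)) ▸ h' _) ind ha hb ?_).symm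
    have := congrArg ρ.toRingHom e
    rwa [map_mul, map_mul, MvPolynomial.eval₂_comp_left, MvPolynomial.eval₂_comp_left] at this

end CPa

theorem CP_thm {K : Type} [Field K] [Base K] [FW0 K] [CE K] : CP K where
  pl {k j A B N ι α} c := by
    obtain ⟨κ, _, B₀, T, β, rfl, h0, hβ⟩ := CPa.basis c.gB
    choose E h1 h2 using CPa.place c h0 hβ
    refine ⟨E, h1, fun O' h' n => ?_⟩
    by_cases l : (O'.1.res.sub (gen (over_comap ι O'.1).resHom fun b => h'.hom b)).tr <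
      (k + Nat.card κ : ℕ)
    · exact Or.inr (FA2_nat l)
    rcases FA2.comap_dv c.gA O'.2.1 n (fun a => h'.hom (β (T a))) le_rfl with e | ⟨m, m1, m2⟩
    · exact Or.inl ⟨⟨_, e⟩, Subtype.ext (h2 ⟨_, e⟩ O'.1 _ h' l).symm⟩
    · exact Or.inr ⟨m, m1, (CPa.bound h0.top hβ _ _ fun _ => rfl).trans m2⟩

end Pool.Agent.Lib.MP_557161_ag.HG.TW.P2
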