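import Pool.Agent.Lib.MP_557161_ag.TW.StZ3

/-!
The multiplicities of `q` and `-q` when the form of Frobenius vanishes.
-/

namespace Pool.Agent.Lib.MP_557161_ag.HG.TW.P2

open Pool.Agent.Lib.MP_557161_ag.DL

namespace FN0

lemma lc (x : ℂ →₀ ℤ) (m : ℕ) : (x.sum fun z c => (c : ℂ) * z ^ m) =
    Finsupp.linearCombination ℤ (fun z : ℂ => z ^ m) x := by
  rw [Finsupp.linearCombination_apply]
  exact Finset.sum_congr rfl fun z _ => (zsmul_eq_mul _ _).symm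

/-- The number of points of the blown up quadric. -/
noncomputable def AA (q : ℕ) (s r : ℕ → ℕ) (m : ℕ) : ℂ :=
  1 + ((q : ℂ) ^ m) ^ 2 + (q : ℂ) ^ m * (2 + (s m + r m + s m * r m))

variable [ZES] {ι κ : Type} [Fintype ι] [Fintype κ] {dg : ι → ℕ} {eg : κ → ℕ} {q : ℕ}

lemma es_nd (h : ∀ i, 0 < dg i) (h' : ∀ j, 0 < eg j) :
    ES fun m => (sN dg m : ℂ) + sN eg m + sN dg m * sN eg m :=
  ZES.add (ZES.add (ZES.sN dg h) (ZES.sN eg h')) (ZES.mul (ZES.sN dg h) (ZES.sN eg h'))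

lemma es_AA (hq : 1 < q) (h : ∀ i, 0 < dg i) (h' : ∀ j, 0 < eg j) : ES (AA q (sN dg) (sN eg)) := by
  have q0 : (q : ℂ) ≠ 0 := Nat.cast_ne_zero.2 (by omega)
  have h1 := ZES.geo (one_ne_zero (α := ℂ))
  have h2 := ZES.add (ZES.add h1 (ZES.mul (ZES.geo q0) (ZES.geo q0)))
    (ZES.mul (ZES.geo q0) (ZES.add (ZES.add h1 h1) (es_nd h h')))
  convert h2 using 2 with m
  simp only [AA, one_pow]
  ring

lemma ex (hq : 1 < q) (h : ∀ i, 0 < dg i) (h' : ∀ j, 0 < eg j) {PP : ℕ → ℂ} {μ : ℂ →₀ ℤ}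
    (μ0 : μ 0 = 0) (hμ : ∀ m, AA q (sN dg) (sN eg) (m + 1) + PP (m + 1) =
      μ.sum fun z c => c * z ^ (m + 1)) : ES fun m => PP m / (q : ℂ) ^ m := by
  have q0 : (q : ℂ) ≠ 0 := Nat.cast_ne_zero.2 (by omega)
  have h1 : ES fun m => AA q (sN dg) (sN eg) m + PP m := ⟨μ, μ0, fun m hm => by
    obtain ⟨m, rfl⟩ := Nat.exists_eq_succ_of_ne_zero hm.ne'
    exact hμ m⟩
  have h2 := ZES.mul (ZES.sub h1 (es_AA hq h h')) (ZES.geo (inv_ne_zero q0))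
  convert h2 using 2 with m
  rw [inv_pow, add_sub_cancel_left, div_eq_mul_inv]

omit [ZES] in
lemma mult [ZO3] (hq : 1 < q) {PP : ℕ → ℂ} {μ ν τ : ℂ →₀ ℤ} (μ0 : μ 0 = 0) (ν0 : ν 0 = 0)
    (τ0 : τ 0 = 0) {s r : ℕ → ℕ}
    (hμ : ∀ m, AA q s r (m + 1) + PP (m + 1) = μ.sum fun z c => c * z ^ (m + 1))
    (hν : ∀ m, 0 < m → PP m / (q : ℂ) ^ m = ν.sum fun z c => c * z ^ m)
    (hτ : ∀ m, 0 < m → (s m : ℂ) + r m + s m * r m = τ.sum fun z c => c * z ^ m) :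
    μ q + μ (-q) = 2 + (τ 1 + τ (-1)) + (ν 1 + ν (-1)) := by
  classical
  have q0 : (q : ℂ) ≠ 0 := Nat.cast_ne_zero.2 (by omega)
  have e : μ = Finsupp.single 1 1 + Finsupp.single ((q : ℂ) ^ 2) 1 +
      Finsupp.equivMapDomain (Equiv.mulLeft₀ _ q0) (Finsupp.single 1 2 + τ + ν) := by
    refine ZO3.uq _ _ μ0 (by simp [τ0, ν0, q0]) fun m hm => ?_
    obtain ⟨m, rfl⟩ := Nat.exists_eq_succ_of_ne_zero hm.ne'
    have h1 : ∀ x : ℂ →₀ ℤ, ((Finsupp.equivMapDomain (Equiv.mulLeft₀ _ q0) x).sum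
        fun z c => (c : ℂ) * z ^ (m + 1)) = (q : ℂ) ^ (m + 1) *
          (x.sum fun z c => (c : ℂ) * z ^ (m + 1)) := fun x => by
      rw [Finsupp.sum_equivMapDomain, Finsupp.mul_sum]
      refine Finset.sum_congr rfl fun z _ => ?_
      simp only [Equiv.mulLeft₀_apply, mul_pow]
      ring
    have h2 := hν _ m.succ_pos
    have h3 := hτ _ m.succ_pos
    rw [Nat.succ_eq_add_one] at h2 h3 ⊢
    rw [← hμ, lc, map_add, ← lc (Finsupp.equivMapDomain _ _), h1, lc, map_add, map_add, map_add,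
      ← lc τ, ← lc ν, ← h2, ← h3]
    simp only [Finsupp.linearCombination_single, AA, one_smul, one_pow, zsmul_eq_mul]
    field_simp
    push_cast
    ring
  have e1 : ∀ i : ℕ, ¬ (q : ℂ) ^ i = -q := fun i e => by
    have a : ((q ^ i + q : ℕ) : ℂ) = 0 := by
      push_cast
      rw [e, neg_add_cancel]
    have := Nat.cast_eq_zero.1 a
    omega
  have e2 : ∀ i : ℕ, i ≠ 1 → ¬ (q : ℂ) ^ i = q := fun i hi e => by
    have a : q ^ i = q ^ 1 := by exact_mod_cast e.trans (pow_one _).symm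
    exact hi (Nat.pow_right_injective hq a)
  have e3 := e1 0
  have e4 := e2 0 (by omega)
  rw [pow_zero] at e3 e4
  have e5 : ¬ (1 : ℂ) = -1 := by norm_num
  rw [e]
  simp only [Finsupp.add_apply, Finsupp.equivMapDomain_apply, Equiv.mulLeft₀_symm_apply,
    Finsupp.single_apply, e3, e4, e1 2, e2 2 (by omega), if_false, mul_neg, inv_mul_cancel₀ q0,
    if_true, e5]
  ring

end FN0

open FN0

variable [ZES] [ZB2] [ZM] [ZM2] [ZO3] {ι κ : Type} [Fintype ι] [Fintype κ] {dg : ι → ℕ}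
  {eg : κ → ℕ} {q : ℕ}

/-- The case in which the form of Frobenius vanishes. -/
theorem caseB (hq : 1 < q) (oq : Odd q) (h : ∀ i, 0 < dg i) (h' : ∀ j, 0 < eg j) {g h₀ : ℕ}
    (hg : ∑ i, dg i = 2 * g + 1) (hh : ∑ j, eg j = 2 * h₀ + 1) {c : ℕ → ℤ}
    (hc : ∀ m v : ℕ, 0 < m → 2 ^ v ∣ m → (2 : ℤ) ^ (v + 1) ∣ c m) {PP : ℕ → ℂ}
    (hP : ∀ m, 0 < m → PP m = ((q : ℂ) ^ m) ^ 2 + (q : ℂ) ^ m + sN dg m * sN eg m -
      (sN dg m + sN eg m) * (q : ℂ) ^ m - c m) {σ : Polynomial ℂ →ₗ[ℂ] ℂ}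
    (hσ : ∀ m : ℕ, σ (chC m) = PP m / (q : ℂ) ^ m) (h4 : ∀ a, phi σ (2 * g * h₀) (chD a) = 0)
    {μ : ℂ →₀ ℤ} (μ0 : μ 0 = 0) (hμ : ∀ m, AA q (sN dg) (sN eg) (m + 1) + PP (m + 1) =
      μ.sum fun z c => c * z ^ (m + 1)) :
    ¬ ((∀ m, 0 < m → sN eg m = rN (2 * h₀ + 1) m) ∧ ∀ i, Nat.Coprime (dg i) (2 * h₀ + 1)) ∧
    ∀ τ : ℂ →₀ ℤ, τ 0 = 0 → (∀ m, 0 < m → (sN dg m : ℂ) + sN eg m + sN dg m * sN eg m =
      τ.sum fun z c => c * z ^ m) → 5 + (τ 1 + τ (-1)) ≤ μ q + μ (-q) := by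
  have q0 : (q : ℂ) ≠ 0 := Nat.cast_ne_zero.2 (by omega)
  obtain ⟨ν, ν0, hν⟩ := ex hq h h' μ0 hμ
  obtain ⟨k1, k2⟩ := ZB2.cnt σ _ h4 ν ν0 fun m hm => (hσ m).trans (hν m hm)
  have k3 : ∀ m : ℕ, 0 < m → ((q : ℂ) ^ m) ^ 2 + (q : ℂ) ^ m + sN dg m * sN eg m -
      (sN dg m + sN eg m) * (q : ℂ) ^ m - c m = (q : ℂ) ^ m * ν.sum fun z c => c * z ^ m :=
    fun m hm => by rw [← hP m hm, ← hν m hm, mul_div_cancel₀ _ (pow_ne_zero _ q0)]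
  refine ⟨fun ⟨a, b⟩ => ?_, fun τ τ0 hτ => ?_⟩
  · have k4 := ZM.mod2 q _ oq ⟨h₀, rfl⟩ dg h b c hc ν ν0 k1 fun m hm => by
      rw [← a m hm]; exact k3 m hm
    rw [hg] at k4
    push_cast at k2 k4
    linarith
  · have k4 := ZM2.tot q oq dg eg h h' c hc ν ν0 k1 k3
    rw [hg, hh] at k4
    push_cast at k2 k4
    rw [mult hq μ0 ν0 τ0 hμ hν hτ]
    linarith

end Pool.Agent.Lib.MP_557161_ag.HG.TW.P2
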