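import Pool.Agent.Lib.MP_557161_ag.TW.Defs

/-!
The singular points of the branch curve `(x 0 * y 1 - x 1 * y 0) P (x) Q (y) = 0`.
-/

namespace Pool.Agent.Lib.MP_557161_ag.HG.TW.P2

open MvPolynomial

variable {k : Type} [Field k]

/-- The points `(x, y)` of the product of two projective lines over the algebraic closure, in
normalised homogeneous coordinates, that lie on two of the curves `x = y`, `P (x) = 0`,
`Q (y) = 0`. -/
def Node (P Q : MvPolynomial (Fin 2) k) : Type :=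
  {p : (Fin 2 → AlgebraicClosure k) × (Fin 2 → AlgebraicClosure k) //
    (p.1 1 = 1 ∨ p.1 1 = 0 ∧ p.1 0 = 1) ∧ (p.2 1 = 1 ∨ p.2 1 = 0 ∧ p.2 0 = 1) ∧
      (aeval p.1 P = 0 ∧ aeval p.2 Q = 0 ∨ p.1 = p.2 ∧ (aeval p.1 P = 0 ∨ aeval p.2 Q = 0))}

/-- The number of orbits of the square of the Frobenius map on these points. -/
noncomputable def orb (P Q : MvPolynomial (Fin 2) k) : ℕ :=
  Nat.card (Quot fun p p' : Node P Q =>
    p'.1.1 = p.1.1 ^ Nat.card k ^ 2 ∧ p'.1.2 = p.1.2 ^ Nat.card k ^ 2)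

end Pool.Agent.Lib.MP_557161_ag.HG.TW.P2
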