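import Pool.Agent.Lib.MP_557161_ag.TW.StZ3
import Pool.Agent.Lib.MP_557161_ag.TW.Defs3

/-!
The rational singular points of the branch curve.
-/

namespace Pool.Agent.Lib.MP_557161_ag.HG.TW.P2

open Pool.Agent.Lib.MP_557161_ag.DL MvPolynomial

namespace FN1

variable {k : Type} [Field k] [Finite k] {P Q : MvPolynomial (Fin 2) k}

lemma aeval_pow (P : MvPolynomial (Fin 2) k) (x : Fin 2 → AlgebraicClosure k) :
    aeval (x ^ Nat.card k) P = aeval x P ^ Nat.card k := by
  have := Fintype.ofFinite k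
  have h := comp_aeval_apply x (FiniteField.frobeniusAlgHom k (AlgebraicClosure k)) P
  rw [Nat.card_eq_fintype_card]
  exact h.symm

lemma nm_pow {K : Type} [Field K] {x : Fin 2 → K} (h : Nm x) {n : ℕ} (hn : n ≠ 0) : Nm (x ^ n) := by
  rcases h with h | ⟨h, h'⟩
  · exact Or.inl (by rw [Pi.pow_apply, h, one_pow])
  · exact Or.inr ⟨by rw [Pi.pow_apply, h, zero_pow hn], by rw [Pi.pow_apply, h', one_pow]⟩

/-- The Frobenius map. -/
noncomputable def fr (p : Node P Q) : Node P Q :=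
  ⟨(p.1.1 ^ Nat.card k, p.1.2 ^ Nat.card k), nm_pow p.2.1 Nat.card_pos.ne',
    nm_pow p.2.2.1 Nat.card_pos.ne', by
    have h : ∀ (R : MvPolynomial (Fin 2) k) (x : Fin 2 → AlgebraicClosure k), aeval x R = 0 →
        aeval (x ^ Nat.card k) R = 0 := fun R x h => by
      rw [aeval_pow, h, zero_pow Nat.card_pos.ne']
    rcases p.2.2.2 with ⟨a, b⟩ | ⟨a, b⟩
    · exact Or.inl ⟨h _ _ a, h _ _ b⟩
    · exact Or.inr ⟨congrArg (· ^ Nat.card k) a, b.imp (h _ _) (h _ _)⟩⟩

lemma fr_it (m : ℕ) (p : Node P Q) :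
    (fr^[m] p).1 = (p.1.1 ^ Nat.card k ^ m, p.1.2 ^ Nat.card k ^ m) := by
  induction m with
  | zero => simp
  | succ m ih =>
    rw [Function.iterate_succ_apply']
    show ((fr^[m] p).1.1 ^ _, (fr^[m] p).1.2 ^ _) = _
    rw [ih, ← pow_mul, ← pow_mul, pow_succ]

lemma fr_inj : Function.Injective (fr (P := P) (Q := Q)) := fun p p' h => by
  have := Fintype.ofFinite k
  have h1 : ∀ x y : Fin 2 → AlgebraicClosure k, x ^ Nat.card k = y ^ Nat.card k → x = y :=
    fun x y e => funext fun i => (FiniteField.frobeniusAlgHom k (AlgebraicClosure k)).injective (by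
      have := congrFun e i
      rwa [Nat.card_eq_fintype_card] at this)
  have h2 := congrArg Subtype.val h
  exact Subtype.ext (Prod.ext (h1 _ _ (congrArg Prod.fst h2)) (h1 _ _ (congrArg Prod.snd h2)))

/-- The zeros of a form that satisfy a condition. -/
abbrev Z (P : MvPolynomial (Fin 2) k) (c : (Fin 2 → AlgebraicClosure k) → Prop) : Type :=
  {x : Fin 2 → AlgebraicClosure k // Nm x ∧ c x ∧
    aeval x (MvPolynomial.map (algebraMap k (AlgebraicClosure k)) P) = 0}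

omit [Finite k] in
lemma bij (hd : ∀ x : Fin 2 → AlgebraicClosure k, Nm x → aeval x P = 0 → aeval x Q ≠ 0)
    (c : (Fin 2 → AlgebraicClosure k) → Prop) :
    Nonempty ((Z P c ⊕ Z Q c) ⊕ Z P c × Z Q c ≃ {p : Node P Q // c p.1.1 ∧ c p.1.2}) := by
  have e : ∀ (R : MvPolynomial (Fin 2) k) (x : Z R c), aeval x.1 R = 0 := fun R x => by
    have := x.2.2.2
    rwa [aeval_map_algebraMap] at this
  have e' : ∀ {R : MvPolynomial (Fin 2) k} {x : Fin 2 → AlgebraicClosure k}, aeval x R = 0 →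
      aeval x (MvPolynomial.map (algebraMap k (AlgebraicClosure k)) R) = 0 := fun h => by
    rwa [aeval_map_algebraMap]
  refine ⟨Equiv.ofBijective (Sum.elim (Sum.elim
    (fun a => ⟨⟨(a.1, a.1), a.2.1, a.2.1, Or.inr ⟨rfl, Or.inl (e _ a)⟩⟩, a.2.2.1, a.2.2.1⟩)
    fun b => ⟨⟨(b.1, b.1), b.2.1, b.2.1, Or.inr ⟨rfl, Or.inr (e _ b)⟩⟩, b.2.2.1, b.2.2.1⟩)
    fun z => ⟨⟨(z.1.1, z.2.1), z.1.2.1, z.2.2.1, Or.inl ⟨e _ z.1, e _ z.2⟩⟩, z.1.2.2.1, z.2.2.2.1⟩)
    ⟨fun u v h => ?_, ?_⟩⟩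
  · have h0 := congrArg (fun p => p.1.1) h
    have n : ∀ (a : Z P c) (b : Z Q c), a.1 ≠ b.1 := fun a b h =>
      hd _ b.2.1 (h ▸ e _ a) (e _ b)
    rcases u with (a | a) | a <;> rcases v with (b | b) | b <;>
      obtain ⟨h1, h2⟩ := Prod.mk.inj h0
    · rw [Subtype.ext h1]
    · exact absurd h1 (n _ _)
    · exact absurd h2 (n _ _)
    · exact absurd h1.symm (n _ _)
    · rw [Subtype.ext h1]
    · exact absurd h1.symm (n _ _)
    · exact absurd h2.symm (n _ _)
    · exact absurd h1 (n _ _)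
    · rw [Prod.ext (Subtype.ext h1) (Subtype.ext h2)]
  · rintro ⟨⟨⟨x, y⟩, h1, h2, ⟨a, b⟩ | ⟨a, b | b⟩⟩, c1, c2⟩
    · exact ⟨.inr (⟨x, h1, c1, e' a⟩, ⟨y, h2, c2, e' b⟩), rfl⟩
    · obtain rfl : x = y := a
      exact ⟨.inl (.inl ⟨x, h1, c1, e' b⟩), rfl⟩
    · obtain rfl : x = y := a
      exact ⟨.inl (.inr ⟨x, h1, c2, e' b⟩), rfl⟩

omit [Finite k] in
lemma fin {f : Polynomial k} (h0 : f ≠ 0) {n : ℕ} (hn : f.natDegree ≤ n)
    (c : (Fin 2 → AlgebraicClosure k) → Prop) : Finite (Z (f.homogenize n) c) := by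
  classical
  refine Finite.of_injective (β := Option (f.rootSet (AlgebraicClosure k)))
    (fun x => if h : x.1 1 = 1 then some ⟨x.1 0, Polynomial.mem_rootSet.2 ⟨h0, by
      have := x.2.2.2
      rwa [aeval_map_algebraMap, Polynomial.aeval_homogenize_of_eq_one hn _ h] at this⟩⟩ else none)
    fun x y h => Subtype.ext (funext fun i => ?_)
  dsimp only at h
  split_ifs at h with h1 h2 h2
  · fin_cases i
    exacts [congrArg Subtype.val (Option.some.inj h), h1.trans h2.symm]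
  · have a := x.2.1.resolve_left h1
    have b := y.2.1.resolve_left h2
    fin_cases i
    exacts [a.2.trans b.2.symm, a.1.trans b.1.symm]

end FN1

open FN1

/-- The numbers of rational singular points, and the number of orbits. -/
theorem node_cnt [ZO3] {k : Type} [Field k] [Finite k] {f D : Polynomial k} (f0 : f ≠ 0)
    (D0 : D ≠ 0) {n n' : ℕ} (hn : f.natDegree ≤ n) (hn' : D.natDegree ≤ n')
    (hd : ∀ x : Fin 2 → AlgebraicClosure k, Nm x → aeval x (f.homogenize n) = 0 →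
      aeval x (D.homogenize n') ≠ 0) : ∃ τ : ℂ →₀ ℤ, τ 0 = 0 ∧ (∀ m, 0 < m → ∀ s r : ℕ,
      rt (Nat.card k ^ m)
        (MvPolynomial.map (algebraMap k (AlgebraicClosure k)) (f.homogenize n)) = s →
      rt (Nat.card k ^ m)
        (MvPolynomial.map (algebraMap k (AlgebraicClosure k)) (D.homogenize n')) = r →
      (s : ℂ) + r + s * r = τ.sum fun z c => c * z ^ m) ∧
      τ 1 + τ (-1) = orb (f.homogenize n) (D.homogenize n') := by
  have h1 := fin f0 hn
  have h2 := fin D0 hn'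
  have : Finite (Node (f.homogenize n) (D.homogenize n')) := by
    obtain ⟨e⟩ := bij hd fun _ => True
    have := Finite.of_equiv _ e
    exact Finite.of_surjective (α := {p : Node (f.homogenize n) (D.homogenize n') // True ∧ True})
      Subtype.val fun p => ⟨⟨p, trivial, trivial⟩, rfl⟩
  obtain ⟨τ, τ0, h3, h4⟩ := ZO3.orb (FN1.fr (P := f.homogenize n) (Q := D.homogenize n')) fr_inj
  refine ⟨τ, τ0, fun m hm s r hs hr => ?_, h4.trans (congrArg (fun R => (Nat.card (Quot R) : ℤ))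
    (funext₂ fun p p' => propext ?_))⟩
  · obtain ⟨e⟩ := bij hd fun x => ∀ i, x i ^ Nat.card k ^ m = x i
    have h5 := Nat.card_congr e
    rw [Nat.card_sum, Nat.card_sum, Nat.card_prod] at h5
    rw [← h3 m hm, ← hs, ← hr, ← Nat.cast_mul, ← Nat.cast_add, ← Nat.cast_add]
    refine congrArg _ (h5.trans (Nat.card_congr (Equiv.subtypeEquivRight fun p => ?_)))
    refine Iff.trans ?_ Subtype.ext_iff.symm
    rw [fr_it, Prod.ext_iff, funext_iff, funext_iff]
    rfl
  · refine Iff.trans Subtype.ext_iff ?_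
    rw [show FN1.fr (FN1.fr p) = FN1.fr^[2] p from rfl, fr_it, Prod.ext_iff]

end Pool.Agent.Lib.MP_557161_ag.HG.TW.P2
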