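import Pool.Agent.Lib.MP_557161_ag.TW.StB
import Pool.Agent.Lib.MP_557161_ag.TW.FN0
import Pool.Agent.Lib.MP_557161_ag.TW.FN1
import Pool.Agent.Lib.MP_557161_ag.HN.FN

/-!
Either a polynomial in the graph of Frobenius that does not vanish at `q` is rationally equivalent
to a sum of products, or the poles at `q` and `-q` are large and the degrees of the irreducible
factors are not coprime.
-/

namespace Pool.Agent.Lib.MP_557161_ag.HG.TW.P2

open Pool.Agent.Lib.MP_557161_ag.DL MvPolynomial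

variable {k : Type} [Field k]

/-- The hypotheses on the two polynomials. -/
structure KD (g h : ℕ) (f D : Polynomial k) : Prop where
  two : (2 : k) ≠ 0
  g0 : 0 < g
  h0 : 0 < h
  sf : Squarefree f
  sD : Squarefree D
  cop : IsCoprime f D
  f1 : 2 * g ≤ f.natDegree
  f2 : f.natDegree ≤ 2 * g + 1
  D1 : 2 * h ≤ D.natDegree
  D2 : D.natDegree ≤ 2 * h + 1
  od : f.natDegree = 2 * g + 1 ∨ D.natDegree = 2 * h + 1

/-- The arithmetic condition. -/
def Ar (h : ℕ) (f D : Polynomial k) : Prop :=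
  Irreducible D ∧ D.natDegree = 2 * h + 1 ∧
    ∀ u : Polynomial k, Irreducible u → u ∣ f → Nat.Coprime u.natDegree (2 * h + 1)

namespace FNa

lemma inf {A : Type} [CommRing A] [Algebra k A] (f : Polynomial k) (n : ℕ) {x : Fin 2 → A}
    (h1 : x 1 = 0) (h0 : x 0 = 1) : aeval x (f.homogenize n) = algebraMap k A (f.coeff n) := by
  rw [Polynomial.homogenize, map_sum, Finset.sum_eq_single (n, 0) (fun b hb hn => ?_) (by simp)]
  · simp [aeval_monomial, Finsupp.prod_fintype, h0]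
  · have h2 : b.2 ≠ 0 := fun e => hn (Prod.ext (by simpa [e] using hb) e)
    simp [aeval_monomial, Finsupp.prod_fintype, h1, h2]

lemma dis {g h : ℕ} {f D : Polynomial k} (H : KD g h f D) (x : Fin 2 → AlgebraicClosure k)
    (hx : Nm x) (h1 : aeval x (f.homogenize (2 * g + 1)) = 0) :
    aeval x (D.homogenize (2 * h + 1)) ≠ 0 := fun h2 => by
  rcases hx with e | ⟨e, e'⟩
  · rw [Polynomial.aeval_homogenize_of_eq_one H.f2 _ e] at h1
    rw [Polynomial.aeval_homogenize_of_eq_one H.D2 _ e] at h2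
    exact (Polynomial.aeval_ne_zero_of_isCoprime H.cop (x 0)).elim (· h1) (· h2)
  · rw [inf _ _ e e', map_eq_zero] at h1 h2
    rcases H.od with o | o
    · exact Polynomial.leadingCoeff_ne_zero.2 H.sf.ne_zero (by rwa [← o] at h1)
    · exact Polynomial.leadingCoeff_ne_zero.2 H.sD.ne_zero (by rwa [← o] at h2)

end FNa

/-- The surface over the algebraic closure. -/
structure Up (G : GD (AlgebraicClosure k)) (f D : Polynomial k) : Prop where
  kd : KD G.g G.h f D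
  hP : MvPolynomial.map (algebraMap k (AlgebraicClosure k)) (f.homogenize (2 * G.g + 1)) = G.FP
  hQ : MvPolynomial.map (algebraMap k (AlgebraicClosure k)) (D.homogenize (2 * G.h + 1)) = G.FQ

/-- The ideal of the surface. -/
noncomputable abbrev kI (g h : ℕ) (f D : Polynomial k) : Ideal (MvPolynomial (Ix g h) k) :=
  twI g h (f.homogenize (2 * g + 1)) (D.homogenize (2 * h + 1))

namespace Up

variable {G : GD (AlgebraicClosure k)} {f D : Polynomial k} (H : Up G f D)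
include H

omit H in
lemma hI [XJ] (g h : ℕ) (f D : Polynomial k) : Homog (kI g h f D) :=
  XJ.hom (Polynomial.isHomogeneous_homogenize f) (Polynomial.isHomogeneous_homogenize D)

lemma hs [XK k] (s : G.σ) : Algebra.Smooth k (Chart (kI G.g G.h f D) s) :=
  XK.smooth G H.hP H.hQ s

lemma hd [XJ] [XM] : ∀ P ∈ (kI G.g G.h f D).minimalPrimes,
    ringKrullDim (MvPolynomial G.σ k ⧸ P) = (2 + 1 : ℕ) := fun P hP => by
  have h1 := (Polynomial.homogenize_eq_zero_iff H.kd.f2).not.2 H.kd.sf.ne_zero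
  have h2 := (Polynomial.homogenize_eq_zero_iff H.kd.D2).not.2 H.kd.sD.ne_zero
  have := XJ.prime G.g G.h h1 h2
  rw [Ideal.minimalPrimes_eq_subsingleton_self] at hP
  rw [Set.mem_singleton_iff.1 hP]
  exact XM.dim (Polynomial.isHomogeneous_homogenize f) (Polynomial.isHomogeneous_homogenize D) h1 h2

lemma upI_eq [XJ] : upI (kI G.g G.h f D) = G.I := by
  rw [XJ.up, H.hP, H.hQ]

lemma fr [Finite k] (p : ℕ) [CharP k p] : G.Fr p (Nat.card k) := by
  have := Fintype.ofFinite k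
  obtain ⟨n, -, hn⟩ := FiniteField.card k p
  refine ⟨⟨n, by rw [Nat.card_eq_fintype_card, hn]⟩, fun m => ?_, fun m => ?_⟩
  · rw [← H.hP, coeff_map, ← map_pow, Nat.card_eq_fintype_card, FiniteField.pow_card]
  · rw [← H.hQ, coeff_map, ← map_pow, Nat.card_eq_fintype_card, FiniteField.pow_card]

lemma odd [Finite k] : Odd (Nat.card k) := by
  have := Fintype.ofFinite k
  rw [Nat.card_eq_fintype_card, Nat.odd_iff]
  refine FiniteField.odd_card_of_char_ne_two fun e => H.kd.two ?_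
  have := ringChar.Nat.cast_ringChar (R := k)
  rwa [e] at this

end Up

variable [Finite k] {p : ℕ} [CharP k p] [XT] [XZ] [XJ] [XM] [XK k] [ZA] [ZB] [ZD] [ZT] [ZES] [ZB2]
  [ZM] [ZM2] [ZO3] [ZN] [XI (AlgebraicClosure k) p] [XF (AlgebraicClosure k) p]
  [XB1 (AlgebraicClosure k) p] [XB2 (AlgebraicClosure k) p] [XB3 (AlgebraicClosure k) p]
  [ZO (AlgebraicClosure k) p] [ZR (AlgebraicClosure k) p] [XQ (AlgebraicClosure k) p]
  {G : GD (AlgebraicClosure k)} {f D : Polynomial k}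

include p in
theorem decomp (H : Up G f D) (L : ℕ → Type) [∀ m, Field (L m)] [∀ m, Algebra k (L m)]
    (hL : ∀ m, Module.finrank k (L m) = m + 1) : ∃ ν : ℂ →₀ ℤ,
    (∀ m, (points (kI G.g G.h f D) (L m) : ℂ) = ν.sum fun z c => c * z ^ (m + 1)) ∧
    (Ar G.h f D ∨ ν (Nat.card k) + ν (-(Nat.card k : ℂ)) ≤
        4 + orb (f.homogenize (2 * G.g + 1)) (D.homogenize (2 * G.h + 1)) →
      ∃ u : Polynomial ℚ, u.eval ((Nat.card k : ℚ) ^ 1) ≠ 0 ∧
      ∀ t, (u.sum fun j a => a • (T0.sm (AlgebraicClosure k) (Up.hI _ _ f D) H.hs H.hd).grC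
        (Nat.card k ^ (j + t))) ∈
        RatB (upI (kI G.g G.h f D)) ⊔ ⨆ δ, ProdB (upI (kI G.g G.h f D)) δ) := by
  have hq : 1 < Nat.card k := Finite.one_lt_card
  have q0 : (Nat.card k : ℂ) ≠ 0 := Nat.cast_ne_zero.2 (by omega)
  have hF := H.fr p
  have hI := Up.hI G.g G.h f D
  have hY : (T0.sm (AlgebraicClosure k) hI H.hs H.hd).I = G.I := H.upI_eq
  obtain ⟨c₀, AC, hC⟩ := ZO.ex (p := p) G
  obtain ⟨r, sd, E, h1, h2, h3⟩ := ZA.frob (2 * G.g * G.h)
  by_cases hA : ∃ e, dsum E (lamP (Nat.card k) (G.PP c₀ (Nat.card k))) (Nat.card k) e ≠ 0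
  · obtain ⟨e, he⟩ := hA
    obtain ⟨u, k1, k2, k3⟩ := ZR.rel hC hq hF (by rw [TD.n]; ring) sd E h1 h2 e he
    obtain ⟨u, h4, h5⟩ := XZ.one (RatB (upI (kI G.g G.h f D)) ⊔ ⨆ δ, ProdB (upI (kI G.g G.h f D)) δ)
      (fun j => (T0.sm (AlgebraicClosure k) hI H.hs H.hd).grC (Nat.card k ^ j))
      {(Nat.card k : ℂ), 0} fun β hβ => by
        refine ⟨u, hβ.elim (fun e => e ▸ k1) fun e => e ▸ k2, fun b hb t => ?_⟩
        obtain ⟨φ, l1, l2, l3⟩ := XQ.brg (p := p) G _ hY _ hF b hb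
        have h4 := k3 φ l1 l2 _ l3 t
        rw [Polynomial.sum_def] at h4 ⊢
        simp only [← mul_div_assoc, ← Finset.sum_div] at h4
        exact (div_eq_zero_iff.1 h4).resolve_right two_ne_zero
    have h6 : ∀ x : ℚ, u.eval x = 0 → Polynomial.aeval (x : ℂ) u = 0 := fun x h => by
      have h7 := Polynomial.aeval_algebraMap_apply ℂ x u
      rwa [Polynomial.coe_aeval_eq_eval, h, map_zero] at h7
    obtain ⟨g, g0, hg⟩ := ZT.rc hI H.hs H.hd u (fun h => h4 0 (Or.inr rfl) (by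
      simpa using h6 0 (by rwa [← Polynomial.coeff_zero_eq_eval_zero]))) h5 L hL
    obtain ⟨ν, -, hν⟩ := ZD.rat hI L hL g g0 hg
    exact ⟨ν, hν, fun _ => ⟨u, fun h => h4 _ (Or.inl rfl) (by simpa using h6 _ h), h5⟩⟩
  · obtain ⟨σ, hσ⟩ := ZB.ex fun m => G.PP c₀ (Nat.card k) m / (Nat.card k : ℂ) ^ m
    have h4 : ∀ a, phi σ (2 * G.g * G.h) (chD a) = 0 := fun a => by
      obtain ⟨e, he⟩ := h3 a
      have h5 := (he _ _ σ q0 hσ).symm.trans (by_contra fun h => hA ⟨e, h⟩)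
      exact (mul_eq_zero.1 h5).resolve_left (mul_ne_zero (mul_ne_zero (by simp)
        (Nat.cast_ne_zero.2 (Nat.factorial_ne_zero _))) (pow_ne_zero _ q0))
    obtain ⟨ι, _, dg, a1, a2, a3, a4⟩ := ZN.sqf f _ H.kd.sf H.kd.f2 (Nat.succ_le_succ H.kd.f1)
    obtain ⟨κ, _, eg, b1, b2, -, b4⟩ := ZN.sqf D _ H.kd.sD H.kd.D2 (Nat.succ_le_succ H.kd.D1)
    have hP : ∀ m, 0 < m → (G.fx (Nat.card k ^ m) false : ℂ) =
        FN0.AA (Nat.card k) (sN dg) (sN eg) m + G.PP c₀ (Nat.card k) m ∧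
        G.PP c₀ (Nat.card k) m = ((Nat.card k : ℂ) ^ m) ^ 2 + (Nat.card k : ℂ) ^ m +
          sN dg m * sN eg m - (sN dg m + sN eg m) * (Nat.card k : ℂ) ^ m -
          ((G.fu (Nat.card k ^ m) true : ℤ) : ℂ) := fun m hm => by
      have l := Nat.one_lt_pow hm.ne' hq
      have c1 := congrArg (Nat.cast : ℕ → ℂ) (XB1.cnt (p := p) l (XF.pow hF m) false)
      have c2 := congrArg (Nat.cast : ℕ → ℂ) (XB1.cnt (p := p) l (XF.pow hF m) true)
      have c3 := congrArg (Nat.cast : ℕ → ℂ) (XB2.cnt (p := p) l (XF.pow hF m))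
      rw [← H.hP, ← H.hQ, a4 m hm, b4 m hm] at c1 c2 c3
      rw [GD.PP, if_neg hm.ne', FN0.AA]
      push_cast at c1 c2 c3 ⊢
      exact ⟨by linear_combination c1 / 2 + c2 / 2 + c3 / 2,
        by linear_combination c1 / 2 - c2 / 2 + c3 / 2⟩
    have hN : ∀ m, (points (kI G.g G.h f D) (L m) : ℂ) =
        FN0.AA (Nat.card k) (sN dg) (sN eg) (m + 1) + G.PP c₀ (Nat.card k) (m + 1) := fun m => by
      rw [(XT.fixed hI H.hs H.hd (L m) m (hL m)).trans (XI.fix (p := p) G _ hY _ (XF.pow hF _))]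
      exact (hP _ m.succ_pos).1
    obtain ⟨g, g0, hg⟩ := ZB.rc σ _ h4
    have h5 : Fn2.Rc fun m => G.PP c₀ (Nat.card k) (m + 1) :=
      Fn2.Rc.scale q0 ⟨g, g0, funext fun t => by
        rw [Fn2.aeval_sh, Pi.zero_apply, ← hg (t + 1 : ℕ)]
        exact Finset.sum_congr rfl fun j _ => by
          simp only [← Nat.cast_add, hσ, add_assoc]⟩
    obtain ⟨g', g1, hg'⟩ := Fn2.Rc.rat (a := fun m => (points (kI G.g G.h f D) (L m) : ℚ)) (by
      simp only [Rat.cast_natCast, hN]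
      exact (ZES.rc (FN0.es_AA hq a2 b2)).add h5)
    obtain ⟨ν, ν0, hν⟩ := ZD.rat hI L hL g' g1 hg'
    obtain ⟨n1, n2⟩ := caseB hq H.odd a2 b2 a1 b1 (c := fun m => G.fu (Nat.card k ^ m) true)
      (fun m v hm hv => by exact_mod_cast XB3.dvd hF m v hm hv) (fun m hm => (hP m hm).2) hσ h4 ν0
      fun m => (hN m).symm.trans (hν m)
    refine ⟨ν, hν, fun h => (h.elim (fun ⟨i1, i2, i3⟩ => n1 ⟨fun m hm => ?_, fun i => ?_⟩)
      fun h => ?_).elim⟩
    · have e := ZN.irr D i1 m hm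
      rw [i2] at e
      rw [← b4 m hm, e]
    · rcases a3 i with e | ⟨u, u1, u2, e⟩ <;> rw [e]
      exacts [Nat.coprime_one_left _, i3 u u1 u2]
    · obtain ⟨τ, τ0, t1, t2⟩ := node_cnt H.kd.sf.ne_zero H.kd.sD.ne_zero H.kd.f2 H.kd.D2
        (FNa.dis H.kd)
      have := n2 τ τ0 fun m hm => t1 m hm _ _ (a4 m hm) (b4 m hm)
      omega

include p in
theorem zeta_dec [XU] [XL (AlgebraicClosure k)] [X1 (AlgebraicClosure k)]
    [XG (AlgebraicClosure k)] (H : Up G f D) (L : ℕ → Type) [∀ m, Field (L m)]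
    [∀ m, Algebra k (L m)] (hL : ∀ m, Module.finrank k (L m) = m + 1) :
    ∃ ζ : ℂ → ℂ, IsZeta (kI G.g G.h f D) 2 L ζ ∧
    (Ar G.h f D ∨ ((-(4 + orb (f.homogenize (2 * G.g + 1)) (D.homogenize (2 * G.h + 1))) : ℤ) :
        WithTop ℤ) ≤ meromorphicOrderAt ζ 1 +
      meromorphicOrderAt ζ (1 + Real.pi * Complex.I / Real.log (Nat.card k)) →
    (∀ F : ∀ P : Var (kI G.g G.h f D) 1, Res (kI G.g G.h f D) P.1, ∃ ρ : ℕ,
      Module.rank ℤ (Num (kI G.g G.h f D) 1 1 F) = ρ ∧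
        meromorphicOrderAt ζ 1 = (-(ρ : ℤ) : ℤ)) ∧
    ([ZY] → TateAt (Nat.card k) 1 (upI (kI G.g G.h f D)))) := by
  have hI := Up.hI G.g G.h f D
  obtain ⟨ν, h1, h2⟩ := decomp (p := p) H L hL
  obtain ⟨ζ, h3, h4⟩ := ZT.zeta hI H.hd L hL ν h1
  refine ⟨ζ, h3, fun h => ?_⟩
  have e := HN.FN.cpow_pi (Finite.one_lt_card (α := k)) 1
  rw [Nat.cast_one, pow_one] at e
  rw [h4, h4, e, Complex.cpow_one, ← WithTop.coe_add, WithTop.coe_le_coe] at h
  obtain ⟨u, h5, h6⟩ := h2 (h.imp id fun h => by omega)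
  refine ⟨fun F => ?_, ZY.tate hI H.hs H.hd ?_ ?_ u 1 h5 (h6 0)⟩
  · obtain ⟨ρ, h7, h8⟩ := ZT.tate hI H.hs H.hd u 1 1 rfl h5 h6 L hL ν h1 F
    exact ⟨ρ, h7, by rw [h4, Complex.cpow_one, ← h8, pow_one]⟩
  · rw [H.upI_eq]
    exact XJ.prime _ _ (X1.ne G).1 (X1.ne G).2
  · rw [H.upI_eq]
    obtain ⟨M, α, y, hy⟩ := XG.ex G (j := 0) (L := .base _) good_base
    have h7 := (X1.sec_co hy.mem).1
    obtain ⟨s, hs⟩ := Function.ne_iff.1 (XU.nz.2 h7.1)
    exact ⟨s, fun h => hs ((aeval_X _ _).symm.trans (XL.zl h7 _ h))⟩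

end Pool.Agent.Lib.MP_557161_ag.HG.TW.P2
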