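import Pool.Agent.Lib.MP_557161_ag.TW.StW

/-!
Naturality of the flat pull back to the kernel of two rows.
-/

namespace Pool.Agent.Lib.MP_557161_ag.HG.TW.P2

open Pool.Agent.Lib.MP_557161_ag.DL

variable {K : Type} [Field K]

theorem KN_thm [WB K] [AD K] [UP K] : KN K where
  nat := by
    intro c c' Γ Γ' Λ _ ω S S' γ k k' r hr f hf hP hn j φ φ' θ θ' χ hθ hθ' hφ
    have hg : EqM k'.tot k.tot fun L x => (f L x.1, x.2) :=
      ⟨⟨fun M L R x x' m m' h => ⟨hf.mp.reg R m.1.1 m'.1.1 h.1, h.2⟩,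
        fun L x m => ⟨⟨hf.mp.mem L x.1 m.1.1, trivial⟩, fun i => by
          have := m.2 i
          rwa [hn L x.1 m.1.1] at this⟩⟩,
        fun L a x h0 m => Prod.ext (hf.eqv L a x.1 h0 m.1.1) rfl⟩
    have hp : Pro k'.tot.S k.tot.S fun L x => (f L x.1, x.2) := by
      intro M O x z hO m mz h
      obtain ⟨b', mb, hb⟩ := hP M O x.1 z.1 hO m.1.1 mz.1.1 h.1
      have hl : (c'.prod (.vec Λ)).lift (Rel.ofPl O).r x (b', z.2) := ⟨hb, h.2⟩
      exact ⟨(b', z.2), ⟨⟨mb, trivial⟩, fun i => Rel.eq_zero (R := Rel.ofPl O)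
        ((k'.lin i).reg (Rel.ofPl O) m.1 ⟨mb, trivial⟩ hl) (m.2 i)⟩, hl⟩
    obtain ⟨θ₁, h₁⟩ := WB.pull hg hp θ
    obtain ⟨Θ, hΘ⟩ := WB.lin Finset.univ ![1, -χ] ![θ', θ₁]
    have hq : ∀ L x, Θ.qq L x = θ'.qq L x - χ * θ₁.qq L x := fun L x => by
      refine (hΘ L _).trans ?_
      rw [Fin.sum_univ_two]
      show 1 * θ'.qq L x + -χ * θ₁.qq L x = _
      ring
    obtain ⟨E⟩ := AD.kb k' hr
    have h0 := UP.up E Θ fun j' hj L M α b p hG => by
      obtain rfl : j = j' := Nat.add_right_cancel hj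
      have hb : S'.mem L b := (S'.S.map_iff α b).1 hG.mem.1.1
      have hm := hg.mp.mem M _ hG.mem
      have hG' : GenA k.tot r j α (f L b) p := by
        refine ⟨hG.gL, hG.gM, hG.top, ?_⟩
        rw [← hf.mp.reg.nat α hb]
        exact hm
      rw [hq, hθ' L M α b p hG, h₁ M _ hG.mem, hφ L b hb, ← hθ L M α _ _ hG',
        ← hf.mp.reg.nat α hb, sub_self]
    intro L b v hb
    by_cases m : k'.tot.mem L (b, v)
    · rw [← h₁ L _ m, ← sub_eq_zero, ← hq, h0]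
    · have h2 : θ'.qq L (b, v) = 0 := by
        by_contra h
        exact m (WB.mem θ'.toPre h).2
      have h3 : θ.qq L (f L b, v) = 0 := by
        by_contra h
        refine m ⟨⟨hb, trivial⟩, fun i => ?_⟩
        have := (WB.mem θ.toPre h).2.2 i
        rwa [← hn L b hb] at this
      rw [h2, h3, mul_zero]

end Pool.Agent.Lib.MP_557161_ag.HG.TW.P2
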