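import Pool.Agent.Lib.MP_557161_ag.TW.StW

/-!
Functionals that vanish on exterior products vanish along rational curves.
-/

namespace Pool.Agent.Lib.MP_557161_ag.HG.TW.P2

open Pool.Agent.Lib.MP_557161_ag.DL

variable {K : Type} [Field K]

namespace RCa

variable {A B : Amb K} {P : Sp A} {Z : Sp B} (γ : Mor (ASp.univ K .one).sp P)

/-- The point of the curve with parameter `τ`. -/
def g {L : Fld K} (τ : L) : A.pt L := γ.f (L := L) (some τ)

lemma mem0 {L : Fld K} (τ : L) : (ASp.univ K .one).sp.mem (L := L) (some τ) := ⟨τ, rfl, trivial⟩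

lemma g_map {L L' : Fld K} (ι : L →ₐ[K] L') (τ : L) : g γ (ι τ) = A.map ι (g γ τ) :=
  γ.nat ι (some τ) (mem0 τ)

lemma g_red {M : Fld K} {O : Pl M} (h : O.IsDVR) {T : M} (hT : T ∈ O.O) :
    A.red O (g γ T) = g γ (O.rd T) := by
  have e : (Cd.one.amb K).red O (some T) = some (O.rd T) := Cd.red_some (c := .one) ⟨hT, rfl⟩
  have := γ.cont O (some T) h (mem0 T) (by rw [e]; exact mem0 _)
  rw [e] at this
  exact this.symm

variable {j : ℕ} {φ : Fe j (P.prod Z)}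

lemma at_one (hφ : KlA φ.toPre) (L : Fld K) (z : B.pt L) : φ.v L (g γ (1 : L), z) = 0 := by
  by_contra h
  have hL := (φ.supp L _ h).1
  have := hφ L (Fld.base K) L (Algebra.ofId K L) (AlgHom.id K L) (g γ (L := Fld.base K) 1) z
    (by rw [tr_base, zero_add, hL.2])
  rw [← g_map, B.map_id, map_one] at this
  exact h this

lemma not_triv (hφ : KlA φ.toPre) {L M : Fld K} (hL : Good j L) (α : L →ₐ[K] M) (T : M)
    (z : B.pt L) (O : Pl M) (h : ¬ Pl.Triv α O) :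
    φ.v O.res (A.red O (g γ T), B.red O (B.map α z)) = 0 := by
  obtain ⟨M₀, α₀, κ, T₀, -, rfl, hg⟩ := exists_gen (L := Fld.base K) (Algebra.ofId K M) T
  have h1 : (Pl.comap κ O).res.tr ≤ 1 :=
    (Pl.tr_res_le _).trans (hg.tr_le.trans (by rw [tr_base, zero_add]))
  have h2 : (Pl.comap α O).res.tr < j := Pl.tr_res_lt _ (fun e => h fun x =>
    (Pl.over_comap α O x).1 (e ▸ ValuationSubring.mem_top x)) hL.2.le
  rw [g_map, A.red_map (Pl.over_comap κ O), B.red_map (Pl.over_comap α O)]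
  refine hφ _ _ _ _ _ _ _ ((add_le_add_left h1 _).trans ?_)
  rw [add_comm]
  exact Cardinal.add_one_le_of_lt h2

lemma ord_unit {M : Fld K} {O : Pl M} {a b : M} (ha : a ∈ O.O) (hb : b ∈ O.O) (ra : O.rd a ≠ 0)
    (rb : O.rd b ≠ 0) : O.ord (a / b) = 0 := by
  obtain ⟨a0, a1⟩ := (O.rd_ne_zero_iff ha).1 ra
  obtain ⟨b0, b1⟩ := (O.rd_ne_zero_iff hb).1 rb
  refine Pl.ord_eq_zero_of_mem (div_ne_zero a0 b0) ?_ ?_
  · rw [div_eq_mul_inv]; exact mul_mem ha b1
  · rw [inv_div, div_eq_mul_inv]; exact mul_mem hb a1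

lemma ord_pole {M : Fld K} {O : Pl M} {T a : M} (ha : a ∈ O.O) (hT : T ∉ O.O) :
    O.ord ((T - a) / (T - 1)) = 0 := by
  have h0 : T ≠ 0 := fun e => hT (e ▸ zero_mem _)
  have hi : T⁻¹ ∈ O.O := (O.O.mem_or_inv_mem T).resolve_left hT
  have r0 : O.rd T⁻¹ = 0 := by
    by_contra e
    exact hT (by simpa using ((O.rd_ne_zero_iff hi).1 e).2)
  have e : (T - a) / (T - 1) = (1 - a * T⁻¹) / (1 - T⁻¹) := by
    rw [← mul_div_mul_right (T - a) (T - 1) (inv_ne_zero h0), sub_mul, sub_mul, mul_inv_cancel₀ h0,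
      one_mul]
  rw [e]
  refine ord_unit (sub_mem (one_mem _) (mul_mem ha hi)) (sub_mem (one_mem _) hi) ?_ ?_
  · rw [O.rd_sub (one_mem _) (mul_mem ha hi), O.rd_mul ha hi, r0]; simp
  · rw [O.rd_sub (one_mem _) hi, r0]; simp

lemma main (hφ : KlA φ.toPre) {L M : Fld K} {α : L →ₐ[K] M} {T : M} (ht : Trans' α T)
    (hg : Gen α T) (τ : L) (z : B.pt L) : φ.v L (g γ τ, z) = 0 := by
  by_contra hne
  obtain ⟨hL, -, hz⟩ := φ.supp L _ hne
  have h1 : τ ≠ 1 := fun e => hne (e ▸ at_one γ hφ L z)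
  have eT : α 1 * T + α (-τ) = T - α τ := by rw [map_one, one_mul, map_neg, sub_eq_add_neg]
  have ht' : Trans' α (T - α τ) := eT ▸ ht.affine one_ne_zero (-τ)
  have hg' : Gen α (T - α τ) := eT ▸ hg.affine one_ne_zero (-τ)
  have n0 : T - α τ ≠ 0 := sub_ne_zero.2 (ht.ne τ)
  have n1 : T - 1 ≠ 0 := sub_ne_zero.2 (by simpa using ht.ne 1)
  obtain ⟨O₀, h₀, d₀, o₀, s₀⟩ := Pl.exists_zero_place ht' hg'
  have gr : Good j O₀.res := hL.of_fin (Fin'.of_surj s₀)
  obtain ⟨m₀, r₀⟩ := (Pl.ord_pos_iff d₀ n0).1 (by rw [o₀]; exact one_pos)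
  have mT : T ∈ O₀.O := by simpa using add_mem m₀ (h₀ τ)
  have rT : O₀.rd T = h₀.hom τ := by
    rw [O₀.rd_sub mT (h₀ τ), sub_eq_zero] at r₀
    rw [r₀, h₀.hom_apply]
  have hr := (φ.rat M (g γ T, B.map α z) ((T - α τ) / (T - 1)) (hL.succ ht hg)
    ⟨γ.mem _ (mem0 T), (Z.map_iff α z).2 hz⟩ (div_ne_zero n0 n1)).2
  rw [finsum_eq_single _ (⟨O₀, d₀, gr.2⟩ : Dv M j)] at hr
  · have o1 : O₀.ord (T - 1) = 0 := by
      have := ord_unit (sub_mem mT (one_mem _)) (one_mem _) (by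
        rw [O₀.rd_sub mT (one_mem _), rT, O₀.rd_one, ← map_one h₀.hom, ← map_sub, map_ne_zero]
        exact sub_ne_zero.2 h1) (by simp)
      rwa [div_one] at this
    have e := φ.ext h₀.hom (g γ τ, z) hL gr
    rw [deg_of_surj s₀, Nat.cast_one, one_mul] at e
    refine hne (e.symm.trans ?_)
    rw [div_eq_mul_inv, Pl.ord_mul d₀ n0 (inv_ne_zero n1), Pl.ord_inv d₀, o₀, o1] at hr
    have e2 : (A.prod B).red O₀ (g γ T, B.map α z) = (A.prod B).map h₀.hom (g γ τ, z) :=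
      Prod.ext ((g_red γ d₀ mT).trans (by rw [rT]; exact g_map γ _ _)) (B.red_triv h₀ z)
    rw [e2] at hr
    simpa using hr
  · rintro ⟨O, d, hd⟩ hO
    by_cases h : Pl.Triv α O
    · by_cases m : T ∈ O.O
      · by_cases r1 : O.rd T = 1
        · refine mul_eq_zero_of_right _ ?_
          have := at_one γ hφ O.res (B.red O (B.map α z))
          rwa [← r1, ← g_red γ d m] at this
        · refine mul_eq_zero_of_left (Int.cast_eq_zero.2 (ord_unit (sub_mem m (h τ))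
            (sub_mem m (one_mem _)) (fun r => hO (Subtype.ext ?_)) ?_)) _
          · exact Pl.zero_place_unique ht' hg' h h₀
              (fun e => (O.rd_ne_zero_iff (sub_mem m (h τ))).2 ⟨n0, e⟩ r)
              (fun e => (O₀.rd_ne_zero_iff m₀).2 ⟨n0, e⟩ r₀)
          · rw [O.rd_sub m (one_mem _), O.rd_one]
            exact sub_ne_zero.2 r1
      · exact mul_eq_zero_of_left (Int.cast_eq_zero.2 (ord_pole (h τ) m)) _
    · exact mul_eq_zero_of_right _ (not_triv γ hφ hL α T z O h)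

end RCa

theorem RC_thm : RC K :=
  ⟨fun γ _ _ hφ L τ z => RCa.main γ hφ (trans_rat L) (gen_rat L) τ z⟩

end Pool.Agent.Lib.MP_557161_ag.HG.TW.P2
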