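import Pool.Agent.Lib.MP_557161_ag.TW.StW
import Pool.Agent.Lib.MP_557161_ag.HG.FC1

/-!
Basic operations on functionals on quotients by a torus.
-/

namespace Pool.Agent.Lib.MP_557161_ag.HG.TW.P2

open Pool.Agent.Lib.MP_557161_ag.DL

namespace WBa

variable {K : Type} [Field K] {c d : Cd} {Γ : Wt c} {S : QS K Γ} {T : ASp K d}
  {g : ∀ L : Fld K, c.X L → d.X L}

/-- If the reduction of a class lies in `S`, a multiple of the point reduces to a point of `S`. -/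
lemma red_mem {M : Fld K} {O : Pl M} {x : c.X M}
    (h : S.sp.mem ((Γ.amb K).red O (Γ.pt x))) : ∃ u x', Γ.Ch u x ∧
      c.lift (Rel.ofPl O).r (Γ.scl (Γ.nm u x) x) x' ∧ S.mem O.res x' ∧
      (Γ.amb K).red O (Γ.pt x) = Γ.pt x' := by
  obtain ⟨y, m, e⟩ := h
  obtain ⟨u, x', h1, h3, -, h4⟩ := Γ.qred_nz e.symm (S.nz _ y m)
  exact ⟨u, x', h1, h3, S.mem_of_pt m h4.symm, e.symm.trans h4.symm⟩

lemma morB (hg : Mp S.S T g)
    (hi : ∀ (L : Fld K) (a : Tr → L) x, Un a → S.mem L x → g L (Γ.scl a x) = g L x) :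
    ∃ m : Mor S.sp T.sp, (∀ (L : Fld K) (x : c.X L), S.mem L x →
      m.f (L := L) (Γ.pt x) = some (g L x)) ∧ (ProB S T g → m.Proper) := by
  classical
  let f : ∀ L : Fld K, (Γ.amb K).pt L → (d.amb K).pt L := fun L y =>
    if h : S.sp.mem y then some (g L h.choose) else none
  have hf : ∀ (L : Fld K) (x : c.X L), S.mem L x → f L (Γ.pt x) = some (g L x) := fun L x m => by
    have h : S.sp.mem (L := L) (Γ.pt x) := S.sp_pt.2 m
    obtain ⟨a, h0, e⟩ := (Γ.pt_eq (S.nz L x m)).1 h.choose_spec.2.symm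
    exact (dif_pos h).trans (congrArg some ((congrArg (g L) e).trans (hi L a x h0 m)))
  refine ⟨⟨fun {L} => f L, ?_, ?_, ?_⟩, hf, fun hp => ?_⟩
  · rintro L _ ⟨x, m, rfl⟩
    exact ⟨_, hf L x m, hg.mem L x m⟩
  · rintro L L' ι _ ⟨x, m, rfl⟩
    rw [hf L x m]
    exact (hf L' _ ((S.S.map_iff ι x).2 m)).trans (congrArg some (hg.reg.nat ι m))
  · rintro M O _ - ⟨x, m, rfl⟩ h
    obtain ⟨u, x', h2, h3, h4, h5⟩ := red_mem h
    rw [h5, hf _ x' h4, hf M x m, ← hi M _ x (Wt.nm_un h2) m]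
    exact (Cd.red_some (hg.reg _ (S.inv M _ x (Wt.nm_un h2) m) h4 h3)).symm
  · rintro M O _ hO ⟨x, m, rfl⟩ ⟨z, e, hz⟩
    obtain ⟨a, x', h0, h1, h2⟩ := hp M O x z hO m hz
      (Cd.lift_of_red ((congrArg _ (hf M x m)).symm.trans e))
    exact ⟨x', h1, (Γ.red_pt h0 h2 (S.nz _ x' h1)).symm⟩

lemma steps (Γ : Wt c) {M : Fld K} (O : Pl M) {x : c.X M} (h : Γ.nz x) (n : ℕ) :
    ∃ a : Tr → M, Un a ∧ ∀ s : Tr, s.1 < n → (∀ i, Γ.P s i → c.co (Γ.scl a x) i ∈ O.O) ∧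
      ∃ i, Γ.P s i ∧ c.co (Γ.scl a x) i = 1 := by
  induction n with
  | zero => exact ⟨1, Un.one, fun _ h => absurd h (Nat.not_lt_zero _)⟩
  | succ n ih =>
    obtain ⟨a, h0, h1⟩ := ih
    by_cases hn : n < 4
    swap
    · exact ⟨a, h0, fun s _ => h1 s (by omega)⟩
    obtain ⟨i, hi, i0⟩ := Γ.nz_iff.1 ((Γ.nz_scl h0).2 h) ⟨n, hn⟩
    obtain ⟨r, h2, h3⟩ := exists_scale O
      (x := fun l : {l // Γ.P ⟨n, hn⟩ l} => c.co (Γ.scl a x) l) fun e => i0 (congrFun e ⟨i, hi⟩)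
    have e : ∀ (t : M) l, c.co (Γ.scl (Pi.mulSingle ⟨n, hn⟩ t * a) x) l =
        t ^ Γ.ω l ⟨n, hn⟩ * c.co (Γ.scl a x) l := fun t l => by
      rw [← Γ.scl_scl, Γ.co_scl, wt, Finset.prod_eq_single_of_mem ⟨n, hn⟩ (Finset.mem_univ _)
        fun s _ hs => by rw [Pi.mulSingle_eq_of_ne hs, one_zpow], Pi.mulSingle_eq_same]
    refine ⟨Pi.mulSingle ⟨n, hn⟩ (c.co (Γ.scl a x) r)⁻¹ * a, Un.mul (fun s => ?_) h0,
      fun s hs => ?_⟩
    · rw [Pi.mulSingle_apply]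
      split_ifs
      exacts [inv_ne_zero h2, one_ne_zero]
    simp only [e]
    rcases Nat.lt_succ_iff_lt_or_eq.1 hs with hs | rfl
    · have e' : ∀ l, Γ.P s l → Γ.ω l ⟨n, hn⟩ = 0 := fun l hl => (Γ.one s l hl).2 _ hs
      obtain ⟨h4, l, hl, h5⟩ := h1 s hs
      exact ⟨fun l hl => by rw [e' l hl, zpow_zero, one_mul]; exact h4 l hl, l, hl,
        by rw [e' l hl, zpow_zero, one_mul, h5]⟩
    · exact ⟨fun l hl => by rw [(Γ.one s l hl).1, zpow_one]; exact h3 ⟨l, hl⟩, r, r.2,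
        by rw [(Γ.one s r r.2).1, zpow_one, inv_mul_cancel₀ h2]⟩

end WBa

open WBa in
theorem WB_thm {K : Type} [Field K] [FW0 K] [WA K] : WB K where
  mem {c Γ S j} θ L x h := ⟨(θ.supp _ _ h).1, S.sp_pt.1 (θ.supp _ _ h).2⟩
  low {c Γ P j m} θ L x h h' := by
    obtain ⟨L₀, κ, y₀, e, t⟩ := FA3.dm_iff.1 h
    cases y₀ with
    | none => exact nomatch e
    | some x₀ => exact FA3.low θ ⟨L₀, κ, Γ.pt x₀, congrArg Γ.pt (Option.some.inj e), t⟩ h'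
  r_eq {c Γ P j} θ M O a x x' h0 e h := congrArg (θ.v O.res) (Γ.red_pt h0 e h)
  r_ne θ M O x h := by
    obtain ⟨u, x', h1, h3, h4, h5⟩ := red_mem (θ.supp _ _ h).2
    exact ⟨u, x', h1, h3, h4, congrArg (θ.v O.res) h5⟩
  prim Γ M O x h := by
    obtain ⟨a, h0, h1⟩ := steps Γ O h 4
    choose u hu hu' using fun s => (h1 s s.2).2
    have h2 : Γ.Ch u x := (Γ.ch_scl h0).1 fun s => ⟨hu s, hu' s ▸ one_ne_zero⟩
    refine ⟨u, h2, Wt.nm_uq h2 hu' ▸ ⟨h0, fun s => (h1 s s.2).1, fun s => ⟨u s, hu s, ?_⟩⟩⟩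
    rw [hu', O.rd_one]
    exact one_ne_zero
  ow_eq Γ M O a τ x k hO h1 h := by
    have e : ∃ a, Γ.Prim O a x := ⟨a, h⟩
    have h' := e.choose_spec
    rw [Wt.ow, dif_pos e]
    generalize e.choose = b at h' ⊢
    have e' : b * a⁻¹ * a = b := by rw [mul_assoc, h.un.inv_mul, mul_one]
    have h0 := h'.un.mul h.un.inv
    obtain ⟨a', h2, h3⟩ := Γ.unit_of_hom (R := .ofPl O) h0 (x := Γ.scl a x)
      (fun s i hi => ⟨h.int s i hi, rfl⟩)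
      (fun s i hi => by rw [Γ.scl_scl, e']; exact ⟨h'.int s i hi, rfl⟩) h.ne h'.ne
    have h4 := wt_rel h3 h2 k
    have h5 := (O.rd_ne_zero_iff h4.1).1 (h4.2 ▸ wt_ne h2 k)
    rw [← e', mul_wt, mul_assoc, Pl.ord_mul hO h5.1 (mul_ne_zero (wt_ne h.un k) h1),
      Pl.ord_eq_zero_of_mem h5.1 h4.1 h5.2, zero_add]
  pull {c d Γ Δ S T f} hf hp j θ := by
    obtain ⟨m, h1, h2⟩ := WA.mor hf
    exact ⟨θ.pull m (h2 hp), fun L x hx =>
      (Fe.pull_of_mem _ _ _ (S.sp_pt.2 hx)).trans (congrArg (θ.v L) (h1 L x hx))⟩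
  pullA {c d Γ S T g} hg hp j θ := by
    obtain ⟨m, h1, h2⟩ := WA.morA hg
    exact ⟨θ.pull m (h2 hp), fun L x hx =>
      (Fe.pull_of_mem _ _ _ (T.sp_some.2 hx)).trans (congrArg (θ.v L) (h1 L x))⟩
  pullB {c d Γ S T g} hg hi hp j θ := by
    obtain ⟨m, h1, h2⟩ := morB hg hi
    exact ⟨θ.pull m (h2 hp), fun L x hx =>
      (Fe.pull_of_mem _ _ _ (S.sp_pt.2 hx)).trans (congrArg (θ.v L) (h1 L x hx))⟩
  lin s a θ := Fe.exists_sum s fun i => FC1A.smul (a i) (θ i)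
  res U j θ h h' := ⟨⟨⟨θ.v, fun L y e => ⟨(θ.supp L y e).1, h' L y e⟩, θ.ext, θ.low⟩,
    fun M y f hM hy hf => θ.rat M y f hM (h M y hy) hf⟩, fun _ _ => rfl⟩
  ext {A P U} h j θ := by
    refine ⟨⟨⟨θ.v, fun L y e => ⟨(θ.supp L y e).1, h.sub L y (θ.supp L y e).2⟩, θ.ext, θ.low⟩,
      fun M y f hM hy hf => ?_⟩, fun _ _ => rfl⟩
    by_cases m : U.mem y
    · exact θ.rat M y f hM m hf
    · have e : ∀ O : Dv M j, θ.v O.1.res (A.red O.1 y) = 0 := fun O =>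
        not_not.1 fun e => m (h.gz M O.1 y O.2.1 hy (θ.supp _ _ e).2)
      simp [HasS, e]
  opn {c Γ S S'} h ho := by
    refine ⟨?_, ?_⟩
    · rintro L _ ⟨x, m, rfl⟩
      exact ⟨x, h L x m, rfl⟩
    · rintro M O _ - ⟨x, m, rfl⟩ h'
      obtain ⟨u, x', h2, h3, h4, -⟩ := red_mem h'
      exact ⟨_, ho M O _ x' (S.inv M _ x (Wt.nm_un h2) m) h4 h3, Γ.pt_scl (Wt.nm_un h2) x⟩
  opnA h ho := by
    refine ⟨?_, ?_⟩
    · rintro L _ ⟨x, rfl, m⟩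
      exact ⟨x, rfl, h L x m⟩
    · rintro M O _ - ⟨x, rfl, m⟩ ⟨x', e, m'⟩
      exact ⟨x, rfl, ho M O x x' m m' (Cd.lift_of_red e)⟩

end Pool.Agent.Lib.MP_557161_ag.HG.TW.P2
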