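import Pool.Agent.Lib.MP_557161_ag.TW.StY

/-!
The section and the projection.
-/

namespace Pool.Agent.Lib.MP_557161_ag.HG.TW.P2

open Pool.Agent.Lib.MP_557161_ag.DL MvPolynomial

namespace X1a

variable {K : Type} [Field K] (G : GD K)

section Gen

variable {L : Type} [Field L] [Algebra K L]

lemma det' : algebraMap K L (G.β 0) * algebraMap K L (G.α 1) -
    algebraMap K L (G.β 1) * algebraMap K L (G.α 0) = 1 := by
  have := congrArg (algebraMap K L) G.det
  simpa [dt] using this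

lemma uu_eq (x : Fin 2 → L) :
    aeval x G.uu = x 0 * algebraMap K L (G.α 1) - x 1 * algebraMap K L (G.α 0) := by
  simp [GD.uu]

lemma vv_eq (x : Fin 2 → L) :
    aeval x G.vv = algebraMap K L (G.β 0) * x 1 - algebraMap K L (G.β 1) * x 0 := by
  simp [GD.vv]

lemma FP_eq (x : Fin 2 → L) : aeval x G.FP = algebraMap K L G.c1 * aeval x G.uu *
    ∏ i, (aeval x G.uu - algebraMap K L (G.a i) * aeval x G.vv) := by
  simp only [GD.FP, map_mul, map_prod, map_sub, aeval_C]

lemma FQ_eq (x : Fin 2 → L) : aeval x G.FQ = algebraMap K L G.c2 * aeval x G.vv *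
    ∏ j, (aeval x G.uu - algebraMap K L (G.b j) * aeval x G.vv) := by
  simp only [GD.FQ, map_mul, map_prod, map_sub, aeval_C]

lemma uu_smul (c : L) (x : Fin 2 → L) : aeval (fun i => c * x i) G.uu = c * aeval x G.uu := by
  rw [uu_eq, uu_eq]; ring

lemma vv_smul (c : L) (x : Fin 2 → L) : aeval (fun i => c * x i) G.vv = c * aeval x G.vv := by
  rw [vv_eq, vv_eq]; ring

lemma prod_smul {n : ℕ} (c u v : L) (a : Fin n → L) :
    ∏ i, (c * u - a i * (c * v)) = c ^ n * ∏ i, (u - a i * v) := by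
  have : ∀ i, c * u - a i * (c * v) = c * (u - a i * v) := fun i => by ring
  simp only [this, Finset.prod_mul_distrib, Finset.prod_const, Finset.card_univ, Fintype.card_fin]

lemma FP_smul (c : L) (x : Fin 2 → L) :
    aeval (fun i => c * x i) G.FP = c ^ (2 * G.g + 1) * aeval x G.FP := by
  rw [FP_eq, FP_eq, uu_smul, vv_smul, prod_smul]; ring

lemma FQ_smul (c : L) (x : Fin 2 → L) :
    aeval (fun i => c * x i) G.FQ = c ^ (2 * G.h + 1) * aeval x G.FQ := by
  rw [FQ_eq, FQ_eq, uu_smul, vv_smul, prod_smul]; ring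

lemma dec (x : Fin 2 → L) (i : Fin 2) :
    aeval x G.uu * algebraMap K L (G.β i) + aeval x G.vv * algebraMap K L (G.α i) = x i := by
  rw [uu_eq, vv_eq]
  fin_cases i
  · show _ * algebraMap K L (G.β 0) + _ * algebraMap K L (G.α 0) = x 0
    linear_combination x 0 * det' (L := L) G
  · show _ * algebraMap K L (G.β 1) + _ * algebraMap K L (G.α 1) = x 1
    linear_combination x 1 * det' (L := L) G

lemma dt_eq (x y : Fin 2 → L) :
    dt x y = aeval x G.uu * aeval y G.vv - aeval x G.vv * aeval y G.uu := by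
  rw [uu_eq, vv_eq, uu_eq, vv_eq, dt]
  linear_combination (-(x 0 * y 1 - x 1 * y 0)) * det' (L := L) G

lemma ux (ξ : L) :
    aeval (fun i => algebraMap K L (G.β i) + ξ * algebraMap K L (G.α i)) G.uu = 1 := by
  rw [uu_eq]; linear_combination det' (L := L) G

lemma vx (ξ : L) :
    aeval (fun i => algebraMap K L (G.β i) + ξ * algebraMap K L (G.α i)) G.vv = ξ := by
  rw [vv_eq]; linear_combination ξ * det' (L := L) G

lemma uy (η : L) :
    aeval (fun i => algebraMap K L (G.α i) + η * algebraMap K L (G.β i)) G.uu = η := by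
  rw [uu_eq]; linear_combination η * det' (L := L) G

lemma vy (η : L) :
    aeval (fun i => algebraMap K L (G.α i) + η * algebraMap K L (G.β i)) G.vv = 1 := by
  rw [vv_eq]; linear_combination det' (L := L) G

omit [Algebra K L] in
lemma scl_eq (a : Tr → L) (w : Vr → L) : G.Γ.scl a w =
    mk4 (fun i => a 0 * pc w 0 i) (fun i => a 1 * pc w 1 i)
      ![a 0 ^ G.g * a 2 * w (2, 0), a 1 ^ (G.h + 1) * a 2 * w (2, 1)]
      ![a 1 ^ G.h * a 3 * w (3, 0), a 0 ^ (G.g + 1) * a 3 * w (3, 1)] := by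
  funext ⟨s, i⟩
  show wt a (wv G.g G.h (s, i)) * w (s, i) = _
  have e1 : ∀ (x : L) (n : ℕ), x ^ ((n : ℤ) + 1) = x ^ (n + 1) := fun x n => by
    rw [← zpow_natCast]; rfl
  fin_cases s <;> fin_cases i <;> simp [wt, wv, mk4, pc, Fin.prod_univ_four, e1]

lemma aeval_mem {σ : Type} {F : IntermediateField K L} {x : σ → L} (h : ∀ i, x i ∈ F)
    (f : MvPolynomial σ K) : aeval x f ∈ F := by
  induction f using MvPolynomial.induction_on with
  | C c => rw [aeval_C]; exact F.algebraMap_mem c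
  | add f g hf hg => rw [map_add]; exact add_mem hf hg
  | mul_X f i hf => rw [map_mul, aeval_X]; exact mul_mem hf (h i)

lemma aeval_map {σ M : Type} [Field M] [Algebra K M] (α : L →ₐ[K] M) (x : σ → L)
    (f : MvPolynomial σ K) : α (aeval x f) = aeval (fun i => α (x i)) f := by
  induction f using MvPolynomial.induction_on with
  | C c => simp
  | add f g hf hg => simp only [map_add, hf, hg]
  | mul_X f i hf => simp only [map_mul, aeval_X, hf]

end Gen

variable {G} {L : Fld K}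

lemma co {w : Vr → L} (h : G.Co L w) : (∀ i, w (2, i) ≠ 0 ∧ w (3, i) ≠ 0) ∧
    dt (pc w 0) (pc w 1) ≠ 0 ∧ aeval (pc w 0) G.FP ≠ 0 ∧ aeval (pc w 1) G.FQ ≠ 0 ∧
    aeval (pc w 0) G.uu ≠ 0 ∧ aeval (pc w 1) G.vv ≠ 0 := by
  have e0 := sub_eq_zero.1 ((eqs0 G.FP G.FQ w).symm.trans (h.1.2 0))
  have e1 := sub_eq_zero.1 ((eqs1 G.FP G.FQ w).symm.trans (h.1.2 1))
  have b : w (2, 1) * w (3, 0) * aeval (pc w 0) G.FP ≠ 0 := h.2
  have b' := e1 ▸ b
  simp only [mul_ne_zero_iff] at b b'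
  have d := e0 ▸ mul_ne_zero b.1.1 b'.1.1
  simp only [mul_ne_zero_iff] at d
  have p := b.2
  have q := b'.2
  rw [FP_eq] at p
  rw [FQ_eq] at q
  simp only [mul_ne_zero_iff] at p q
  refine ⟨fun i => ?_, d.1.1, b.2, b'.2, p.1.2, q.1.2⟩
  fin_cases i
  exacts [⟨b'.1.2, b.1.2⟩, ⟨b.1.1, b'.1.1⟩]

variable (G L)

lemma pc0 (A : xz.X L) : pc (G.sec L A) 0 =
    fun i => algebraMap K L (G.β i) + A.1 0 * algebraMap K L (G.α i) := rfl

lemma pc1 (A : xz.X L) : pc (G.sec L A) 1 =
    fun i => algebraMap K L (G.α i) + A.1 1 * algebraMap K L (G.β i) := rfl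

lemma s20 (A : xz.X L) : G.sec L A (2, 0) = 1 := rfl
lemma s21 (A : xz.X L) : G.sec L A (2, 1) = A.2 / aeval (pc (G.sec L A) 0) G.FP := rfl
lemma s30 (A : xz.X L) : G.sec L A (3, 0) = 1 := rfl
lemma s31 (A : xz.X L) : G.sec L A (3, 1) = A.2 / aeval (pc (G.sec L A) 1) G.FQ := rfl

lemma om (A : xz.X L) : dt (pc (G.sec L A) 0) (pc (G.sec L A) 1) *
    aeval (pc (G.sec L A) 0) G.FP * aeval (pc (G.sec L A) 1) G.FQ = G.om L A.1 := by
  rw [dt_eq G, FP_eq, FQ_eq, pc0, pc1, ux, vx, uy, vy, TD.om, ← G.cc, map_mul]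
  simp only [mul_one]
  ring

variable {G L}

lemma sec_co {A : xz.X L} (h : G.UU.mem L A) : G.Co L (G.sec L A) := by
  obtain ⟨z0, z2⟩ := G.toTD.UU_iff.1 h
  rw [← om G L A] at z2
  have n := z2 ▸ pow_ne_zero 2 z0
  simp only [mul_ne_zero_iff] at n
  obtain ⟨⟨-, p⟩, q⟩ := n
  refine ⟨⟨G.Γ.nz_iff.2 fun s => ?_, fun r => ?_⟩, ?_⟩
  · fin_cases s
    · by_contra c
      have c0 : pc (G.sec L A) 0 0 = 0 := by_contra fun e => c ⟨(0, 0), rfl, e⟩
      have c1 : pc (G.sec L A) 0 1 = 0 := by_contra fun e => c ⟨(0, 1), rfl, e⟩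
      have := ux G (A.1 0)
      rw [← pc0, uu_eq, c0, c1] at this
      simp at this
    · by_contra c
      have c0 : pc (G.sec L A) 1 0 = 0 := by_contra fun e => c ⟨(1, 0), rfl, e⟩
      have c1 : pc (G.sec L A) 1 1 = 0 := by_contra fun e => c ⟨(1, 1), rfl, e⟩
      have := vy G (A.1 1)
      rw [← pc1, vv_eq, c0, c1] at this
      simp at this
    · exact ⟨(2, 0), rfl, one_ne_zero⟩
    · exact ⟨(3, 0), rfl, one_ne_zero⟩
  · fin_cases r
    · refine (eqs0 G.FP G.FQ _).trans ?_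
      rw [s20, s21, s30, s31]
      field_simp
      linear_combination z2
    · refine (eqs1 G.FP G.FQ _).trans ?_
      rw [s20, s21, s30, s31]
      field_simp
      ring
  · show G.sec L A (2, 1) * G.sec L A (3, 0) * aeval (pc (G.sec L A) 0) G.FP ≠ 0
    rw [s21, s30]
    exact mul_ne_zero (mul_ne_zero (div_ne_zero z0 p) one_ne_zero) p

lemma co_sec {A : xz.X L} (h : G.Co L (G.sec L A)) : G.UU.mem L A := by
  obtain ⟨t, -, p, q, -, -⟩ := co h
  have e0 := sub_eq_zero.1 ((eqs0 G.FP G.FQ _).symm.trans (h.1.2 0))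
  have z := (t 1).1
  rw [s21] at z
  rw [s20, s21, s30, s31] at e0
  refine G.toTD.UU_iff.2 ⟨fun e => z (by rw [e, zero_div]), ?_⟩
  rw [← om G L A]
  field_simp at e0
  linear_combination e0

lemma pr_sec {A : xz.X L} (h : G.UU.mem L A) : G.pr L (G.sec L A) = A := by
  obtain ⟨-, -, p, -, -, -⟩ := co (sec_co h)
  refine Prod.ext (funext fun i => ?_) ?_
  · fin_cases i
    · show aeval (pc (G.sec L A) 0) G.vv / aeval (pc (G.sec L A) 0) G.uu = A.1 0
      rw [pc0, ux, vx, div_one]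
    · show aeval (pc (G.sec L A) 1) G.uu / aeval (pc (G.sec L A) 1) G.vv = A.1 1
      rw [pc1, uy, vy, div_one]
  · show aeval (pc (G.sec L A) 0) G.FP * G.sec L A (2, 1) / (G.sec L A (2, 0) *
      aeval (pc (G.sec L A) 0) G.uu ^ (G.g + 1) * aeval (pc (G.sec L A) 1) G.vv ^ (G.h + 1)) = A.2
    have u : aeval (pc (G.sec L A) 0) G.uu = 1 := ux G _
    have v : aeval (pc (G.sec L A) 1) G.vv = 1 := vy G _
    rw [s20, s21, u, v, one_pow, one_pow]
    field_simp

lemma sec_pr {w : Vr → L} (h : G.Co L w) :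
    Un (G.ns L w) ∧ G.sec L (G.pr L w) = G.Γ.scl (G.ns L w) w := by
  obtain ⟨t, -, p, q, u, v⟩ := co h
  have e1 := sub_eq_zero.1 ((eqs1 G.FP G.FQ w).symm.trans (h.1.2 1))
  have t0 := (t 0).1
  have s0 := (t 0).2
  constructor
  · intro s
    fin_cases s
    exacts [inv_ne_zero u, inv_ne_zero v, div_ne_zero (pow_ne_zero _ u) t0,
      div_ne_zero (pow_ne_zero _ v) s0]
  have x : (fun i => algebraMap K L (G.β i) +
      aeval (pc w 0) G.vv / aeval (pc w 0) G.uu * algebraMap K L (G.α i)) =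
      fun i => (aeval (pc w 0) G.uu)⁻¹ * pc w 0 i := funext fun i => by
    have := dec G (pc w 0) i
    field_simp
    linear_combination this
  have y : (fun i => algebraMap K L (G.α i) +
      aeval (pc w 1) G.uu / aeval (pc w 1) G.vv * algebraMap K L (G.β i)) =
      fun i => (aeval (pc w 1) G.vv)⁻¹ * pc w 1 i := funext fun i => by
    have := dec G (pc w 1) i
    field_simp
    linear_combination this
  rw [scl_eq]
  show mk4 (fun i => algebraMap K L (G.β i) +
      aeval (pc w 0) G.vv / aeval (pc w 0) G.uu * algebraMap K L (G.α i))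
    (fun i => algebraMap K L (G.α i) +
      aeval (pc w 1) G.uu / aeval (pc w 1) G.vv * algebraMap K L (G.β i))
    ![1, (G.pr L w).2 / aeval (fun i => algebraMap K L (G.β i) +
      aeval (pc w 0) G.vv / aeval (pc w 0) G.uu * algebraMap K L (G.α i)) G.FP]
    ![1, (G.pr L w).2 / aeval (fun i => algebraMap K L (G.α i) +
      aeval (pc w 1) G.uu / aeval (pc w 1) G.vv * algebraMap K L (G.β i)) G.FQ] =
    mk4 (fun i => (aeval (pc w 0) G.uu)⁻¹ * pc w 0 i) (fun i => (aeval (pc w 1) G.vv)⁻¹ * pc w 1 i)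
      ![(aeval (pc w 0) G.uu)⁻¹ ^ G.g * (aeval (pc w 0) G.uu ^ G.g / w (2, 0)) * w (2, 0),
        (aeval (pc w 1) G.vv)⁻¹ ^ (G.h + 1) * (aeval (pc w 0) G.uu ^ G.g / w (2, 0)) * w (2, 1)]
      ![(aeval (pc w 1) G.vv)⁻¹ ^ G.h * (aeval (pc w 1) G.vv ^ G.h / w (3, 0)) * w (3, 0),
        (aeval (pc w 0) G.uu)⁻¹ ^ (G.g + 1) * (aeval (pc w 1) G.vv ^ G.h / w (3, 0)) * w (3, 1)]
  have z : (G.pr L w).2 = aeval (pc w 0) G.FP * w (2, 1) /
      (w (2, 0) * aeval (pc w 0) G.uu ^ (G.g + 1) * aeval (pc w 1) G.vv ^ (G.h + 1)) := rfl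
  rw [x, y, FP_smul, FQ_smul, z]
  generalize aeval (pc w 0) G.uu = U at *
  generalize aeval (pc w 1) G.vv = V at *
  generalize aeval (pc w 0) G.FP = P at *
  generalize aeval (pc w 1) G.FQ = Q at *
  congr 2
  · simp only [inv_pow]; field_simp
  · congr 1
    simp only [inv_pow]; field_simp; ring
  · simp only [inv_pow]; field_simp
  · congr 1
    simp only [inv_pow]; field_simp
    linear_combination V ^ (2 * G.h + 1) * e1

lemma pr_uu {w : Vr → L} (h : G.Co L w) : G.UU.mem L (G.pr L w) := by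
  obtain ⟨u, e⟩ := sec_pr h
  apply co_sec
  rw [e]
  exact G.CO.inv L _ w u h

lemma pr_scl (G : GD K) {a : Tr → L} (w : Vr → L) (h : Un a) :
    G.pr L (G.Γ.scl a w) = G.pr L w := by
  rw [scl_eq]
  refine Prod.ext (funext fun i => ?_) ?_
  · fin_cases i
    · show aeval (fun i => a 0 * pc w 0 i) G.vv / aeval (fun i => a 0 * pc w 0 i) G.uu =
        aeval (pc w 0) G.vv / aeval (pc w 0) G.uu
      rw [uu_smul, vv_smul, mul_div_mul_left _ _ (h 0)]
    · show aeval (fun i => a 1 * pc w 1 i) G.uu / aeval (fun i => a 1 * pc w 1 i) G.vv =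
        aeval (pc w 1) G.uu / aeval (pc w 1) G.vv
      rw [uu_smul, vv_smul, mul_div_mul_left _ _ (h 1)]
  · show aeval (fun i => a 0 * pc w 0 i) G.FP * (a 1 ^ (G.h + 1) * a 2 * w (2, 1)) /
      (a 0 ^ G.g * a 2 * w (2, 0) * aeval (fun i => a 0 * pc w 0 i) G.uu ^ (G.g + 1) *
        aeval (fun i => a 1 * pc w 1 i) G.vv ^ (G.h + 1)) = aeval (pc w 0) G.FP * w (2, 1) /
      (w (2, 0) * aeval (pc w 0) G.uu ^ (G.g + 1) * aeval (pc w 1) G.vv ^ (G.h + 1))
    rw [uu_smul, vv_smul, FP_smul, ← mul_div_mul_left (aeval (pc w 0) G.FP * w (2, 1)) _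
      (mul_ne_zero (mul_ne_zero (pow_ne_zero (2 * G.g + 1) (h 0)) (pow_ne_zero (G.h + 1) (h 1)))
        (h 2))]
    congr 1 <;> ring

end X1a

open X1a in
theorem X1_thm {K : Type} [Field K] : X1 K where
  co := co
  ne G := by
    have c : G.c1 * G.c2 ≠ 0 := G.cc ▸ G.c0
    constructor
    · intro e
      have := FP_eq G (fun i => algebraMap K K (G.β i) + 0 * algebraMap K K (G.α i))
      rw [e, X1a.ux, X1a.vx] at this
      simp at this
      exact left_ne_zero_of_mul c this.symm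
    · intro e
      have := FQ_eq G (fun i => algebraMap K K (G.α i) + 0 * algebraMap K K (G.β i))
      rw [e, X1a.uy, X1a.vy] at this
      simp [right_ne_zero_of_mul c, Finset.prod_eq_zero_iff, G.b0] at this
  om := om
  uv G _ _ := ⟨X1a.ux G _, X1a.vx G _, X1a.uy G _, X1a.vy G _⟩
  sec_co := sec_co
  pr_uu := pr_uu
  pr_sec := pr_sec
  sec_pr := sec_pr
  pr_scl G _ _ w h := pr_scl G w h
  sec_rel := by
    intro G M L R A A' h e ⟨s, i⟩
    obtain ⟨-, -, p, q, -, -⟩ := co (sec_co h)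
    have x : ∀ i, R.r (pc (G.sec M A) 0 i) (pc (G.sec L A') 0 i) := fun i =>
      R.add (R.const _) (R.mul (e.1 0) (R.const _))
    have y : ∀ i, R.r (pc (G.sec M A) 1 i) (pc (G.sec L A') 1 i) := fun i =>
      R.add (R.const _) (R.mul (e.1 1) (R.const _))
    fin_cases s
    · exact x i
    · exact y i
    · fin_cases i
      exacts [R.one, Rel.div e.2 (Rel.aeval x _) p]
    · fin_cases i
      exacts [R.one, Rel.div e.2 (Rel.aeval y _) q]
  pr_rel := by
    intro G M L R w w' h e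
    obtain ⟨t, -, p, q, u, v⟩ := co h
    have x : ∀ f : MvPolynomial (Fin 2) K, R.r (aeval (pc w 0) f) (aeval (pc w' 0) f) :=
      Rel.aeval fun i => e (0, i)
    have y : ∀ f : MvPolynomial (Fin 2) K, R.r (aeval (pc w 1) f) (aeval (pc w' 1) f) :=
      Rel.aeval fun i => e (1, i)
    refine ⟨⟨fun i => ?_, ?_⟩, fun s => ?_⟩
    · fin_cases i
      exacts [Rel.div (x _) (x _) u, Rel.div (y _) (y _) v]
    · exact Rel.div (R.mul (x _) (e _)) (R.mul (R.mul (e _) (Rel.pow (x _) _)) (Rel.pow (y _) _))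
        (mul_ne_zero (mul_ne_zero (t 0).1 (pow_ne_zero _ u)) (pow_ne_zero _ v))
    · fin_cases s
      exacts [R.inv (x _) u, R.inv (y _) v, Rel.div (Rel.pow (x _) _) (e _) (t 0).1,
        Rel.div (Rel.pow (y _) _) (e _) (t 0).2]
  sec_map := by
    intro G L M α A
    funext ⟨s, i⟩
    have x : (fun i => α (pc (G.sec L A) 0 i)) = pc (G.sec M (xz.map α A)) 0 := funext fun i => by
      rw [pc0, pc0]; simp
    have y : (fun i => α (pc (G.sec L A) 1 i)) = pc (G.sec M (xz.map α A)) 1 := funext fun i => by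
      rw [pc1, pc1]; simp
    fin_cases s
    · exact congrFun x i
    · exact congrFun y i
    · fin_cases i
      · exact map_one α
      · show α (G.sec L A (2, 1)) = G.sec M (xz.map α A) (2, 1)
        rw [s21, s21, map_div₀, aeval_map, x]
    · fin_cases i
      · exact map_one α
      · show α (G.sec L A (3, 1)) = G.sec M (xz.map α A) (3, 1)
        rw [s31, s31, map_div₀, aeval_map, y]
  pr_map := by
    intro G L M α w
    have x : ∀ s (f : MvPolynomial (Fin 2) K),
        α (aeval (pc w s) f) = aeval (pc (cw.map α w) s) f := fun s f => aeval_map α _ f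
    refine Prod.ext (funext fun i => ?_) ?_
    · fin_cases i
      · show α (aeval (pc w 0) G.vv / aeval (pc w 0) G.uu) = _
        rw [map_div₀, x, x]; rfl
      · show α (aeval (pc w 1) G.uu / aeval (pc w 1) G.vv) = _
        rw [map_div₀, x, x]; rfl
    · show α (aeval (pc w 0) G.FP * w (2, 1) /
        (w (2, 0) * aeval (pc w 0) G.uu ^ (G.g + 1) * aeval (pc w 1) G.vv ^ (G.h + 1))) = _
      rw [map_div₀, map_mul, map_mul, map_mul, map_pow, map_pow, x, x, x]; rfl
  sec_mem := by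
    intro G L F A h ⟨s, i⟩
    have x : ∀ i, pc (G.sec L A) 0 i ∈ F := fun i =>
      add_mem (F.algebraMap_mem _) (mul_mem (h (.inl 0)) (F.algebraMap_mem _))
    have y : ∀ i, pc (G.sec L A) 1 i ∈ F := fun i =>
      add_mem (F.algebraMap_mem _) (mul_mem (h (.inl 1)) (F.algebraMap_mem _))
    fin_cases s
    · exact x i
    · exact y i
    · fin_cases i
      exacts [one_mem F, div_mem (h (.inr ())) (aeval_mem x _)]
    · fin_cases i
      exacts [one_mem F, div_mem (h (.inr ())) (aeval_mem y _)]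
  pr_mem := by
    intro G L F w h
    have x : ∀ s (f : MvPolynomial (Fin 2) K), aeval (pc w s) f ∈ F := fun s =>
      aeval_mem fun i => h (s, i)
    refine ⟨fun i => ?_, fun s => ?_⟩
    · rcases i with i | i
      · fin_cases i
        exacts [div_mem (x _ _) (x _ _), div_mem (x _ _) (x _ _)]
      · exact div_mem (mul_mem (x _ _) (h _))
          (mul_mem (mul_mem (h _) (pow_mem (x _ _) _)) (pow_mem (x _ _) _))
    · fin_cases s
      exacts [inv_mem (x _ _), inv_mem (x _ _), div_mem (pow_mem (x _ _) _) (h _),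
        div_mem (pow_mem (x _ _) _) (h _)]

end Pool.Agent.Lib.MP_557161_ag.HG.TW.P2
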