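import Pool.Agent.Lib.MP_557161_ag.TW.StY

/-!
The involution of the surface.
-/

namespace Pool.Agent.Lib.MP_557161_ag.HG.TW.P2

open Pool.Agent.Lib.MP_557161_ag.DL MvPolynomial

variable {K : Type} [Field K]

namespace X2a

section
variable {L : Type} [Field L] (τ : L) (w : Vr → L)

lemma p0 : pc (gam τ w) 0 = pc w 0 := funext fun i => by fin_cases i <;> simp [pc, gam, gex]
lemma p1 : pc (gam τ w) 1 = pc w 1 := funext fun i => by fin_cases i <;> simp [pc, gam, gex]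
lemma t0 : gam τ w (2, 0) = w (2, 0) := by simp [gam, gex]
lemma t1 : gam τ w (2, 1) = τ * w (2, 1) := by simp [gam, gex]
lemma s0 : gam τ w (3, 0) = w (3, 0) := by simp [gam, gex]
lemma s1 : gam τ w (3, 1) = τ⁻¹ * w (3, 1) := by simp [gam, gex]

lemma one : gam 1 w = w := funext fun l => by simp [gam]

lemma mul (τ' : L) : gam τ (gam τ' w) = gam (τ * τ') w :=
  funext fun l => by simp only [gam, mul_zpow, mul_assoc]

lemma ss (ε : Bool) : sw ε (sw ε w) = w := by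
  cases ε
  · rfl
  · exact (mul (-1) w (-1)).trans (by rw [neg_mul_neg, one_mul, one])

end

variable {G : GD K} {M L : Fld K} {τ : L} {w : Vr → L}

lemma scl (τ : L) (a : Tr → L) (w : Vr → L) : gam τ (G.Γ.scl a w) = G.Γ.scl a (gam τ w) :=
  funext fun _ => mul_left_comm _ _ _

lemma rel (R : Rel M L) {σ : M} {v : Vr → M} (h : R.r σ τ) (h0 : τ ≠ 0) (e : cw.lift R.r v w) :
    cw.lift R.r (gam σ v) (gam τ w) := fun l => R.mul (Rel.zpow h h0 _) (e l)

lemma nz (h : τ ≠ 0) (m : G.Γ.nz w) : G.Γ.nz (gam τ w) :=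
  m.imp fun _ hu s => ⟨(hu s).1, mul_ne_zero (zpow_ne_zero _ h) (hu s).2⟩

lemma bd (τ : L) (w : Vr → L) : G.bd L (gam τ w) = τ * G.bd L w := by
  simp only [GD.bd, p0, t1, s0, mul_assoc]

lemma cn (h : τ ≠ 0) (m : G.Cn L w) (e : τ = -1 ∨ G.bd L w = 0) : G.Cn L (gam τ w) := by
  have h0 := m.2 0
  have h1 := m.2 1
  rw [eqs0] at h0
  rw [eqs1] at h1
  refine ⟨nz h m.1, Fin.forall_fin_two.2 ⟨?_, ?_⟩⟩
  · rw [eqs0, p0, p1, t0, t1, s0, s1, mul_mul_mul_comm, mul_inv_cancel₀ h, one_mul, h0]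
  · rw [eqs1, p0, p1, t0, t1, s0, s1]
    rcases e with rfl | e
    · rw [inv_neg_one]
      linear_combination -h1
    · rw [GD.bd] at e
      linear_combination τ⁻¹ * h1 + (τ - τ⁻¹) * e

lemma swn (ε : Bool) (m : G.Cn L w) : G.Cn L (sw ε w) := by
  cases ε
  exacts [m, cn (neg_ne_zero.2 one_ne_zero) m (.inl rfl)]

lemma swo (ε : Bool) (m : G.Co L w) : G.Co L (sw ε w) := by
  cases ε
  exacts [m, ⟨swn true m.1, (bd _ w).trans_ne (mul_ne_zero (neg_ne_zero.2 one_ne_zero) m.2)⟩]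

end X2a

open X2a

theorem X2_thm : X2 K where
  gam_one := one
  gam_gam τ τ' w := mul τ w τ'
  gam_scl _ _ := scl
  gam_rel R _ _ _ _ := rel R
  gam_bo h m := ⟨cn h m.1 (.inr m.2), (bd _ _).trans (mul_eq_zero_of_right _ m.2)⟩
  sw_sw ε w := ss w ε
  sw_scl _ _ ε a w := by
    cases ε
    exacts [rfl, scl _ a w]
  sw_rel R ε _ _ e := by
    cases ε
    exacts [e, rel R (Rel.neg R.one) (neg_ne_zero.2 one_ne_zero) e]
  sw_map α ε w := by
    cases ε
    · rfl
    · funext l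
      show α (_ * _) = _ * α _
      rw [map_mul, map_zpow₀, map_neg, map_one]
  sw_cn ε w := ⟨fun m => ss w ε ▸ swn ε m, swn ε⟩
  sw_co ε w := ⟨fun m => ss w ε ▸ swo ε m, swo ε⟩
  sec_sg G L ε A := by
    cases ε
    · rfl
    · funext ⟨s, i⟩
      fin_cases s <;> fin_cases i <;> simp [GD.sec, sg, sw, ngz, gam, gex, mk4, neg_div]
  pr_sw G L ε w := by
    cases ε
    · rfl
    · simp only [GD.pr, sw, sg, ngz, cond_true, p0, p1, t0, t1, neg_mul, one_mul, mul_neg, neg_div]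
  sg_sg ε L A := by
    cases ε
    exacts [rfl, Prod.ext rfl (neg_neg _)]
  sg_uu {G L} ε A := by
    cases ε
    · rfl
    · simp [TD.UU_iff, sg, ngz]
  sg_rel R ε _ _ e := by
    cases ε
    exacts [e, ⟨e.1, Rel.neg e.2⟩]
  sg_map α ε A := by
    cases ε
    exacts [rfl, Prod.ext rfl (map_neg α _)]
  ne {G L A} m e := by
    have h : -A.2 = A.2 := congrArg Prod.snd e
    have h2 : (2 : L) ≠ 0 := by
      rw [← map_ofNat (algebraMap K L)]
      exact (map_ne_zero _).2 G.two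
    exact mul_ne_zero h2 (G.UU_iff.1 m).1 (by linear_combination -h)

end Pool.Agent.Lib.MP_557161_ag.HG.TW.P2
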