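import Pool.Agent.Lib.MP_557161_ag.TW.StY

/-!
The branch function is not a square.
-/

namespace Pool.Agent.Lib.MP_557161_ag.HG.TW.P2

open Pool.Agent.Lib.MP_557161_ag.DL MvPolynomial

theorem XA_thm {K : Type} [Field K] [FA1 K] : XA K where
  nsq G j L M α x hf z h := by
    obtain ⟨ρ, -, hρ, -⟩ := FA1.lift hf (FA1.fr_free (Fin 2) hf.gL) (AlgHom.id K L)
    let F : MvPolynomial (Fin 2) L := algebraMap K _ G.c * (1 - X 0 * X 1) *
      (∏ i, (1 - algebraMap K _ (G.a i) * X 0)) * ∏ j, (X 1 - algebraMap K _ (G.b j))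
    let ι := IsScalarTower.toAlgHom K (MvPolynomial (Fin 2) L)
      (FractionRing (MvPolynomial (Fin 2) L))
    have e : ρ z ^ 2 = ι F := by
      rw [← map_pow, h]
      simp only [TD.om, F, map_mul, map_sub, map_one, map_prod, AlgHom.commutes, hρ]
      rfl
    obtain ⟨g, hg⟩ := IsIntegrallyClosed.exists_algebraMap_eq_of_isIntegral_pow
      (R := MvPolynomial (Fin 2) L) two_pos (e ▸ isIntegral_algebraMap)
    have e1 : g ^ 2 = F :=
      IsFractionRing.injective _ (FractionRing _) (by rw [map_pow, hg, e]; rfl)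
    let φ := (aeval (R := L) (![0, Polynomial.X] : Fin 2 → Polynomial L)).restrictScalars K
    have e2 : φ g * φ g = Polynomial.C (algebraMap K L G.c) *
        ∏ j, (Polynomial.X - Polynomial.C (algebraMap K L (G.b j))) := by
      rw [← sq, ← map_pow, e1]
      simp only [F, map_mul, map_sub, map_one, map_prod, AlgHom.commutes]
      simp [φ, Polynomial.algebraMap_apply]
    have hc : IsUnit (Polynomial.C (algebraMap K L G.c)) :=
      Polynomial.isUnit_C.2 ((_root_.map_ne_zero _).2 G.c0).isUnit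
    have hs := (Polynomial.separable_prod_X_sub_C_iff.2
      ((algebraMap K L).injective.comp G.bi)).squarefree
    have hu := hs _ (hc.dvd_mul_left.1 e2.dvd)
    have h3 := hu.mul hu
    rw [e2] at h3
    exact Polynomial.not_isUnit_X_sub_C _ (isUnit_of_dvd_unit ((Finset.dvd_prod_of_mem _
      (Finset.mem_univ (⟨0, by have := G.h0; omega⟩ : Fin (2 * G.h)))).mul_left _) h3)

end Pool.Agent.Lib.MP_557161_ag.HG.TW.P2
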