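import Pool.Agent.Lib.MP_557161_ag.TW.StB

/-!
Normal forms of the fixed points of Frobenius.
-/

namespace Pool.Agent.Lib.MP_557161_ag.HG.TW.P2

open Pool.Agent.Lib.MP_557161_ag.DL MvPolynomial

namespace XB0a

variable {K : Type} [Field K] {g h : ℕ}

theorem zs (x : K) (n : ℕ) : x ^ ((n : ℤ) + 1) = x ^ (n + 1) := by
  rw [← zpow_natCast, Nat.cast_succ]

theorem scl0 (a : Tr → K) (w : Vr → K) (i : Fin 2) :
    (Γw g h).scl a w (0, i) = a 0 * w (0, i) := by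
  fin_cases i <;> simp [wt, wv, Fin.prod_univ_four]

theorem scl1 (a : Tr → K) (w : Vr → K) (i : Fin 2) :
    (Γw g h).scl a w (1, i) = a 1 * w (1, i) := by
  fin_cases i <;> simp [wt, wv, Fin.prod_univ_four]

theorem scl2 (a : Tr → K) (w : Vr → K) (i : Fin 2) :
    (Γw g h).scl a w (2, i) = a 2 * (![a 0 ^ g, a 1 ^ (h + 1)] i * w (2, i)) := by
  fin_cases i
  · simp [wt, wv, Fin.prod_univ_four]
    ring
  · simp [wt, wv, Fin.prod_univ_four, zs]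
    ring

theorem scl3 (a : Tr → K) (w : Vr → K) (i : Fin 2) :
    (Γw g h).scl a w (3, i) = a 3 * (![a 1 ^ h, a 0 ^ (g + 1)] i * w (3, i)) := by
  fin_cases i
  · simp [wt, wv, Fin.prod_univ_four]
    ring
  · simp [wt, wv, Fin.prod_univ_four, zs]
    ring

theorem nm_uq {x y : Fin 2 → K} {c : K} (hx : Nm x) (hy : Nm y) (e : ∀ i, y i = c * x i) :
    c = 1 := by
  have e0 := e 0
  have e1 := e 1
  rcases hx with hx | ⟨hx, hx'⟩ <;> rcases hy with hy | ⟨hy, hy'⟩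
  · rw [hx, hy, mul_one] at e1
    exact e1.symm
  · rw [hx, hy, mul_one] at e1
    rw [hy', ← e1, zero_mul] at e0
    exact absurd e0 one_ne_zero
  · rw [hx, hy, mul_zero] at e1
    exact absurd e1 one_ne_zero
  · rw [hx', hy', mul_one] at e0
    exact e0.symm

theorem nm_ex {x : Fin 2 → K} (hx : ∃ i, x i ≠ 0) : ∃ c : K, c ≠ 0 ∧ Nm fun i => c * x i := by
  by_cases h1 : x 1 = 0
  · have h0 : x 0 ≠ 0 := by
      obtain ⟨i, hi⟩ := hx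
      fin_cases i
      exacts [hi, absurd h1 hi]
    exact ⟨(x 0)⁻¹, inv_ne_zero h0, Or.inr ⟨by simp [h1], inv_mul_cancel₀ h0⟩⟩
  · exact ⟨(x 1)⁻¹, inv_ne_zero h1, Or.inl (inv_mul_cancel₀ h1)⟩

theorem nm_ne {x : Fin 2 → K} (hx : Nm x) : ∃ i, x i ≠ 0 :=
  hx.elim (fun e => ⟨1, e.trans_ne one_ne_zero⟩) fun e => ⟨0, e.2.trans_ne one_ne_zero⟩

theorem nm_pow {x : Fin 2 → K} {Q : ℕ} (hQ : Q ≠ 0) (hx : Nm x) : Nm fun i => x i ^ Q :=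
  hx.imp (fun e => by simp [e]) fun e => by simp [e.1, e.2, hQ]

theorem nz_iff {w : Vr → K} : (Γw g h).nz w ↔ ∀ s, ∃ i, w (s, i) ≠ 0 := by
  rw [Wt.nz_iff]
  refine forall_congr' fun s => ⟨?_, fun ⟨i, hi⟩ => ⟨(s, i), rfl, hi⟩⟩
  rintro ⟨⟨s, i⟩, rfl, hi⟩
  exact ⟨i, hi⟩

theorem all4 {P : Tr → Prop} (h0 : P 0) (h1 : P 1) (h2 : P 2) (h3 : P 3) : ∀ s, P s := fun s => by
  fin_cases s
  exacts [h0, h1, h2, h3]

theorem ex {w : Vr → K} (hw : (Γw g h).nz w) :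
    ∃ a, Un a ∧ ∀ s, Nm (pc ((Γw g h).scl a w) s) := by
  rw [nz_iff] at hw
  obtain ⟨a0, n0, m0⟩ := nm_ex (hw 0)
  obtain ⟨a1, n1, m1⟩ := nm_ex (hw 1)
  obtain ⟨a2, n2, m2⟩ := nm_ex (x := fun i => ![a0 ^ g, a1 ^ (h + 1)] i * w (2, i))
    ((hw 2).imp fun i hi => mul_ne_zero (by fin_cases i <;> simp [n0, n1]) hi)
  obtain ⟨a3, n3, m3⟩ := nm_ex (x := fun i => ![a1 ^ h, a0 ^ (g + 1)] i * w (3, i))
    ((hw 3).imp fun i hi => mul_ne_zero (by fin_cases i <;> simp [n0, n1]) hi)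
  refine ⟨![a0, a1, a2, a3], all4 n0 n1 n2 n3, all4 ?_ ?_ ?_ ?_⟩
  · exact (funext (scl0 ![a0, a1, a2, a3] w) : pc _ 0 = _) ▸ m0
  · exact (funext (scl1 ![a0, a1, a2, a3] w) : pc _ 1 = _) ▸ m1
  · exact (funext (scl2 ![a0, a1, a2, a3] w) : pc _ 2 = _) ▸ m2
  · exact (funext (scl3 ![a0, a1, a2, a3] w) : pc _ 3 = _) ▸ m3

theorem one_vec (m n : ℕ) (i : Fin 2) : ![(1 : K) ^ m, 1 ^ n] i = 1 := by fin_cases i <;> simp

theorem uq {w : Vr → K} {a : Tr → K} (hw : ∀ s, Nm (pc w s))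
    (hw' : ∀ s, Nm (pc ((Γw g h).scl a w) s)) : (Γw g h).scl a w = w := by
  have h0 := nm_uq (hw 0) (hw' 0) (scl0 a w)
  have h1 := nm_uq (hw 1) (hw' 1) (scl1 a w)
  have h2 := nm_uq (c := a 2) (hw 2) (hw' 2) fun i => by
    rw [pc, scl2, h0, h1, one_vec, one_mul, pc]
  have h3 := nm_uq (c := a 3) (hw 3) (hw' 3) fun i => by
    rw [pc, scl3, h0, h1, one_vec, one_mul, pc]
  rw [show a = 1 from funext (all4 h0 h1 h2 h3), Wt.scl_one]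

theorem gg_scl (Q : ℕ) (ε : Bool) (a : Tr → K) (w : Vr → K) :
    gg Q ε ((Γw g h).scl a w) = (Γw g h).scl (a ^ Q) (gg Q ε w) := by
  funext l
  cases ε <;> simp only [gg, sw, gam, cond, mul_pow, pow_wt]
  ring

theorem gg0 (Q : ℕ) (ε : Bool) (w : Vr → K) (s : Tr) : gg Q ε w (s, 0) = w (s, 0) ^ Q := by
  cases ε
  · rfl
  · fin_cases s <;> simp [gg, sw, gam, gex]

theorem gg1 (Q : ℕ) (ε : Bool) (w : Vr → K) (s : Tr) : gg Q ε w (s, 1) =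
    ![1, 1, bif ε then -1 else 1, bif ε then -1 else 1] s * w (s, 1) ^ Q := by
  cases ε <;> fin_cases s <;> simp [gg, sw, gam, gex]

theorem fz_ex {Q : ℕ} (hQ : Q ≠ 0) {ε : Bool} {t : Fin 2 → K} (ht : Nm t) (hz : Fz Q ε t) :
    ∃ c : K, c ≠ 0 ∧ t 0 ^ Q = c * t 0 ∧ (bif ε then -1 else 1) * t 1 ^ Q = c * t 1 := by
  rcases ht with e | ⟨e, e'⟩
  · refine ⟨bif ε then -1 else 1, by cases ε <;> simp, ?_, by simp [e]⟩
    simpa [Fz, e] using hz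
  · exact ⟨1, one_ne_zero, by simp [e'], by simp [e, hQ]⟩

theorem fix {Q : ℕ} (hQ : Q ≠ 0) (ε : Bool) {w : Vr → K} (hw : ∀ s, Nm (pc w s)) :
    (Γw g h).pt w = (Γw g h).pt (gg Q ε w) ↔
      (∀ i, w (0, i) ^ Q = w (0, i) ∧ w (1, i) ^ Q = w (1, i)) ∧ Fz Q ε (pc w 2) ∧
        Fz Q ε (pc w 3) := by
  rw [(Γw g h).pt_eq (nz_iff.2 fun s => nm_ne (hw s))]
  have g0 : ∀ i, gg Q ε w (0, i) = w (0, i) ^ Q := fun i => by
    fin_cases i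
    exacts [gg0 Q ε w 0, (gg1 Q ε w 0).trans (one_mul _)]
  have g1 : ∀ i, gg Q ε w (1, i) = w (1, i) ^ Q := fun i => by
    fin_cases i
    exacts [gg0 Q ε w 1, (gg1 Q ε w 1).trans (one_mul _)]
  constructor
  · rintro ⟨a, -, e⟩
    have e0 : ∀ i, w (0, i) ^ Q = a 0 * w (0, i) := fun i => by rw [← g0, e, scl0]
    have e1 : ∀ i, w (1, i) ^ Q = a 1 * w (1, i) := fun i => by rw [← g1, e, scl1]
    have h0 := nm_uq (hw 0) (nm_pow hQ (hw 0)) e0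
    have h1 := nm_uq (hw 1) (nm_pow hQ (hw 1)) e1
    have e2 : ∀ i, gg Q ε w (2, i) = a 2 * w (2, i) := fun i => by
      rw [e, scl2, h0, h1, one_vec, one_mul]
    have e3 : ∀ i, gg Q ε w (3, i) = a 3 * w (3, i) := fun i => by
      rw [e, scl3, h0, h1, one_vec, one_mul]
    refine ⟨fun i => ⟨by rw [e0, h0, one_mul], by rw [e1, h1, one_mul]⟩, ?_, ?_⟩
    · have x := (gg0 Q ε w 2).symm.trans (e2 0)
      have y : (bif ε then -1 else 1) * w (2, 1) ^ Q = _ := (gg1 Q ε w 2).symm.trans (e2 1)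
      rw [Fz, pc, pc, x, y]
      ring
    · have x := (gg0 Q ε w 3).symm.trans (e3 0)
      have y : (bif ε then -1 else 1) * w (3, 1) ^ Q = _ := (gg1 Q ε w 3).symm.trans (e3 1)
      rw [Fz, pc, pc, x, y]
      ring
  · rintro ⟨e, z2, z3⟩
    obtain ⟨a2, n2, x2, y2⟩ := fz_ex hQ (hw 2) z2
    obtain ⟨a3, n3, x3, y3⟩ := fz_ex hQ (hw 3) z3
    refine ⟨![1, 1, a2, a3], all4 one_ne_zero one_ne_zero n2 n3, funext fun ⟨s, i⟩ => ?_⟩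
    revert s
    refine all4 ?_ ?_ ?_ ?_
    · rw [g0, scl0, (e i).1]
      exact (one_mul _).symm
    · rw [g1, scl1, (e i).2]
      exact (one_mul _).symm
    · rw [scl2]
      fin_cases i
      · exact (gg0 Q ε w 2).trans (x2.trans (by simp [pc]))
      · exact (gg1 Q ε w 2).trans (y2.trans (by simp [pc]))
    · rw [scl3]
      fin_cases i
      · exact (gg0 Q ε w 3).trans (x3.trans (by simp [pc]))
      · exact (gg1 Q ε w 3).trans (y3.trans (by simp [pc]))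

theorem card {Q : ℕ} (hQ : Q ≠ 0) (ε : Bool) (Z N : (Vr → K) → Prop)
    (hz : ∀ w, Z w → (Γw g h).nz w) (hs : ∀ a w, Un a → Z w → Z ((Γw g h).scl a w))
    (hN : ∀ w, N w ↔ (∀ s, Nm (pc w s)) ∧ Z w ∧
      (∀ i, w (0, i) ^ Q = w (0, i) ∧ w (1, i) ^ Q = w (1, i)) ∧ Fz Q ε (pc w 2) ∧
        Fz Q ε (pc w 3)) :
    Nat.card {E : Quotient ((Γw g h).st K) // ∃ w, Z w ∧ E = (Γw g h).pt w ∧
      E = (Γw g h).pt (gg Q ε w)} = Nat.card {w // N w} := by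
  refine (Nat.card_congr (Equiv.ofBijective (fun w => ⟨(Γw g h).pt w.1, w.1, ((hN _).1 w.2).2.1,
    rfl, (fix hQ ε ((hN _).1 w.2).1).2 ((hN _).1 w.2).2.2⟩) ⟨?_, ?_⟩)).symm
  · rintro ⟨w, hw⟩ ⟨w', hw'⟩ e
    obtain ⟨a, -, rfl⟩ := ((Γw g h).pt_eq (hz _ ((hN _).1 hw).2.1)).1 (congrArg Subtype.val e)
    exact Subtype.ext (uq ((hN _).1 hw).1 ((hN _).1 hw').1).symm
  · rintro ⟨_, w, hw, rfl, e⟩
    obtain ⟨a, ha, hn⟩ := ex (hz w hw)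
    refine ⟨⟨_, (hN _).2 ⟨hn, hs a w ha hw, (fix (g := g) (h := h) hQ ε hn).1 ?_⟩⟩,
      Subtype.ext ((Γw g h).pt_scl ha w)⟩
    rw [gg_scl, (Γw g h).pt_scl ha, (Γw g h).pt_scl (ha.pow Q), e]

end XB0a

open XB0a in
theorem XB0_thm {K : Type} [Field K] {p : ℕ} [Fact p.Prime] : XB0 K p where
  fx := fun {G Q} hF ε => by
    obtain ⟨f, rfl⟩ := hF.1
    exact card (pow_ne_zero f (Fact.out : p.Prime).ne_zero) ε (G.Cn (.base K)) _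
      (fun _ h => h.1) (fun a w ha h => G.CC.inv (.base K) a w ha h) fun w =>
        ⟨fun h => ⟨h.1, ⟨nz_iff.2 fun s => nm_ne (h.1 s), h.2.1⟩, h.2.2⟩,
          fun h => ⟨h.1, h.2.1.2, h.2.2⟩⟩
  fu := fun {G Q} hF ε => by
    obtain ⟨f, rfl⟩ := hF.1
    exact card (pow_ne_zero f (Fact.out : p.Prime).ne_zero) ε (G.Co (.base K)) _
      (fun _ h => h.1.1) (fun a w ha h => G.CO.inv (.base K) a w ha h) fun w =>
        ⟨fun h => ⟨h.1.1, ⟨⟨nz_iff.2 fun s => nm_ne (h.1.1 s), h.1.2.1⟩, h.2⟩, h.1.2.2⟩,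
          fun h => ⟨⟨h.1, h.2.1.1.2, h.2.2⟩, h.2.1.2⟩⟩

end Pool.Agent.Lib.MP_557161_ag.HG.TW.P2
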