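import Pool.Agent.Lib.MP_557161_ag.TW.StB

/-!
The number of fixed points of Frobenius on the boundary.
-/

namespace Pool.Agent.Lib.MP_557161_ag.HG.TW.P2

open Pool.Agent.Lib.MP_557161_ag.DL MvPolynomial Finset

namespace XB1a

variable {K : Type} [Field K]

omit [Field K] in
lemma ext2 {x y : Fin 2 → K} (h0 : x 0 = y 0) (h1 : x 1 = y 1) : x = y :=
  funext (Fin.forall_fin_two.2 ⟨h0, h1⟩)

lemma sgn (ε : Bool) : (bif ε then -1 else 1 : K) * (bif ε then -1 else 1) = 1 := by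
  cases ε <;> simp

lemma exZ [IsAlgClosed K] {Q : ℕ} (hQ : 1 < Q) (h0 : (Q : K) = 0) (ε : Bool) :
    ∃ Z : Finset (Fin 2 → K), Z.card = Q + 1 ∧ ∀ t, t ∈ Z ↔ Nm t ∧ Fz Q ε t := by
  classical
  obtain ⟨e, he⟩ : ∃ e : K, e = bif ε then -1 else 1 := ⟨_, rfl⟩
  have e2 : e * e = 1 := he ▸ sgn ε
  obtain ⟨f, hf⟩ : ∃ f : Polynomial K, f = Polynomial.X ^ Q - Polynomial.C e * Polynomial.X :=
    ⟨_, rfl⟩
  have hd : f.natDegree = Q := by
    rw [hf, Polynomial.natDegree_sub_eq_left_of_natDegree_lt] <;> rw [Polynomial.natDegree_X_pow]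
    exact ((Polynomial.natDegree_C_mul_le _ _).trans Polynomial.natDegree_X_le).trans_lt hQ
  have f0 : f ≠ 0 := fun h => by
    rw [h, Polynomial.natDegree_zero] at hd
    omega
  have hs : f.Separable := by
    refine ⟨0, -Polynomial.C e, ?_⟩
    rw [hf]
    simp [Polynomial.derivative_X_pow, h0, ← Polynomial.C_mul, e2]
  have hc : f.roots.toFinset.card = Q := by
    rw [Multiset.toFinset_card_of_nodup (Polynomial.nodup_roots hs),
      ← (IsAlgClosed.splits f).natDegree_eq_card_roots, hd]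
  refine ⟨insert ![1, 0] (f.roots.toFinset.image fun τ => ![τ, 1]), ?_, fun t => ?_⟩
  · rw [card_insert_of_notMem, card_image_of_injective _ fun a b h => congrFun h 0, hc]
    simp
  · have q0 : Q ≠ 0 := by omega
    simp only [mem_insert, mem_image, Multiset.mem_toFinset, Polynomial.mem_roots f0, Fz, ← he, Nm]
    simp only [hf, Polynomial.IsRoot, Polynomial.eval_sub, Polynomial.eval_pow, Polynomial.eval_X,
      Polynomial.eval_mul, Polynomial.eval_C, sub_eq_zero]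
    constructor
    · rintro (rfl | ⟨τ, h, rfl⟩)
      · simp [q0]
      · simp [h]
    · rintro ⟨h | ⟨h, h'⟩, h2⟩
      · exact Or.inr ⟨t 0, by simpa [h] using h2, ext2 rfl h.symm⟩
      · exact Or.inl (ext2 h' h)

lemma fz_false {Q : ℕ} (hQ : Q ≠ 0) {x : Fin 2 → K} (h : Nm x) :
    Fz Q false x ↔ ∀ i, x i ^ Q = x i := by
  rw [Fin.forall_fin_two, Fz]
  rcases h with h | ⟨h, h'⟩ <;> simp [*]

lemma dt_eq {x y : Fin 2 → K} (hx : Nm x) (hy : Nm y) : dt x y = 0 ↔ x = y := by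
  refine ⟨fun h => ?_, fun h => by rw [h, dt, mul_comm, sub_self]⟩
  rw [dt] at h
  rcases hx with a | ⟨a, a'⟩ <;> rcases hy with b | ⟨b, b'⟩
  · exact ext2 (by rwa [a, b, mul_one, one_mul, sub_eq_zero] at h) (a.trans b.symm)
  · simp [*] at h
  · simp [*] at h
  · exact ext2 (a'.trans b'.symm) (a.trans b.symm)

lemma no_root (G : GD K) {x : Fin 2 → K} (hx : Nm x) (hP : aeval x G.FP = 0)
    (hQ : aeval x G.FQ = 0) : False := by
  have c := G.cc ▸ G.c0
  simp only [GD.FP, GD.FQ, map_mul, map_prod, map_sub, aeval_C, Algebra.algebraMap_self,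
    RingHom.id_apply, mul_eq_zero, left_ne_zero_of_mul c, right_ne_zero_of_mul c, false_or,
    prod_eq_zero_iff, mem_univ, true_and, sub_eq_zero] at hP hQ
  have hv : aeval x G.vv = 0 := by
    rcases hQ with h | ⟨j, h⟩
    · exact h
    rcases hP with h' | ⟨i, h'⟩
    · exact (mul_eq_zero.1 (h.symm.trans h')).resolve_left (G.b0 j)
    · exact (mul_eq_zero.1 (by linear_combination h - h')).resolve_left (sub_ne_zero.2 (G.ab i j))
  have hu : aeval x G.uu = 0 := by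
    rcases hP with h | ⟨i, h⟩
    · exact h
    · rw [h, hv, mul_zero]
  have hd := G.det
  simp only [GD.uu, GD.vv, map_mul, map_sub, aeval_C, aeval_X, Algebra.algebraMap_self,
    RingHom.id_apply, dt] at hu hv hd
  have h0 : x 0 = 0 := by linear_combination G.β 0 * hu + G.α 0 * hv - x 0 * hd
  have h1 : x 1 = 0 := by linear_combination G.β 1 * hu + G.α 1 * hv - x 1 * hd
  rcases hx with h | ⟨-, h⟩
  exacts [one_ne_zero (h.symm.trans h1), one_ne_zero (h.symm.trans h0)]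

open Classical in
lemma fib {Q : ℕ} (hQ : Q ≠ 0) {ε : Bool} {Z : Finset (Fin 2 → K)} (hc : Z.card = Q + 1)
    (hZ : ∀ t, t ∈ Z ↔ Nm t ∧ Fz Q ε t) {d P R : K} (hd : d ^ Q = d)
    (h3 : d = 0 → P = 0 → R = 0 → False) :
    ((Z ×ˢ Z).filter fun u => (u.1 1 * u.2 1 - d * u.1 0 * u.2 0 = 0 ∧
        u.1 1 * u.2 0 * P - u.2 1 * u.1 0 * R = 0) ∧ u.1 1 * u.2 0 * P = 0).card +
      ((if d = 0 then 1 else 0) * (if P = 0 then 1 else 0) +
        (if d = 0 then 1 else 0) * (if R = 0 then 1 else 0) +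
        (if P = 0 then 1 else 0) * (if R = 0 then 1 else 0)) =
      (if d = 0 then 1 else 0) + (if P = 0 then 1 else 0) + (if R = 0 then 1 else 0) +
      Q * ((if d = 0 then 1 else 0) * (if P = 0 then 1 else 0) +
        (if d = 0 then 1 else 0) * (if R = 0 then 1 else 0) +
        (if P = 0 then 1 else 0) * (if R = 0 then 1 else 0)) := by
  have m0 : ![1, 0] ∈ Z := (hZ _).2 ⟨Or.inr ⟨rfl, rfl⟩, by simp [Fz, hQ]⟩
  have m1 : ![0, 1] ∈ Z := (hZ _).2 ⟨Or.inl rfl, by simp [Fz, hQ]⟩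
  have c0 : (Z.filter fun t => t 0 = 0).card = 1 := card_eq_one.2 ⟨![0, 1], by
    refine eq_singleton_iff_unique_mem.2 ⟨mem_filter.2 ⟨m1, rfl⟩, fun t ht => ?_⟩
    obtain ⟨h, h'⟩ := mem_filter.1 ht
    exact ext2 h' (((hZ t).1 h).1.resolve_right fun a => one_ne_zero (a.2.symm.trans h'))⟩
  have c1 : (Z.filter fun t => t 1 = 0).card = 1 := card_eq_one.2 ⟨![1, 0], by
    refine eq_singleton_iff_unique_mem.2 ⟨mem_filter.2 ⟨m0, rfl⟩, fun t ht => ?_⟩
    obtain ⟨h, h'⟩ := mem_filter.1 ht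
    exact ext2 (((hZ t).1 h).1.resolve_left fun a => one_ne_zero (a.symm.trans h')).2 h'⟩
  have key : ∀ a b : (Fin 2 → K) → Prop, (∀ t s : Fin 2 → K, Nm t → Nm s →
      ((t 1 * s 1 - d * t 0 * s 0 = 0 ∧ t 1 * s 0 * P - s 1 * t 0 * R = 0) ∧ t 1 * s 0 * P = 0 ↔
        a t ∧ b s)) → ((Z ×ˢ Z).filter fun u => (u.1 1 * u.2 1 - d * u.1 0 * u.2 0 = 0 ∧
        u.1 1 * u.2 0 * P - u.2 1 * u.1 0 * R = 0) ∧ u.1 1 * u.2 0 * P = 0).card =
        (Z.filter a).card * (Z.filter b).card := fun a b h => by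
    rw [← card_product, ← filter_product]
    exact congrArg card (filter_congr fun u hu =>
      h _ _ ((hZ _).1 (mem_product.1 hu).1).1 ((hZ _).1 (mem_product.1 hu).2).1)
  by_cases a : d = 0 <;> by_cases b : P = 0 <;> by_cases c : R = 0 <;>
    simp only [a, b, c, if_true, if_false, mul_one, mul_zero, add_zero, zero_add] at key ⊢
  · exact (h3 a b c).elim
  · rw [key (fun _ => True) (fun s => s 1 = 0), filter_true, hc, c1]
    · ring
    · rintro t s (h | ⟨h, h'⟩) (k | ⟨k, k'⟩) <;> simp [*]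
  · rw [key (fun t => t 1 = 0) (fun _ => True), filter_true, hc, c1]
    · ring
    · rintro t s (h | ⟨h, h'⟩) (k | ⟨k, k'⟩) <;> simp [*]
  · rw [key (fun t => t 1 = 0) (fun s => s 1 = 0), c1]
    rintro t s (h | ⟨h, h'⟩) (k | ⟨k, k'⟩) <;> simp [*]
  · have : ((Z ×ˢ Z).filter fun u => (u.1 1 * u.2 1 - d * u.1 0 * u.2 0 = 0 ∧ (0 : K) - 0 = 0) ∧
        True).card = Z.card := by
      refine card_nbij Prod.fst (fun u hu => (mem_product.1 (mem_filter.1 hu).1).1) ?_ ?_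
      · rintro ⟨t, s⟩ hu ⟨t', s'⟩ hu' (rfl : t = t')
        obtain ⟨h1, ⟨h2, -⟩, -⟩ := mem_filter.1 hu
        obtain ⟨h3, ⟨h4, -⟩, -⟩ := mem_filter.1 hu'
        refine congrArg (Prod.mk t) ((dt_eq ((hZ _).1 (mem_product.1 h1).2).1
          ((hZ _).1 (mem_product.1 h3).2).1).1 ?_)
        dsimp only [dt] at h2 h4 ⊢
        rcases (((hZ _).1 (mem_product.1 h1).1).1 : Nm t) with h | ⟨h, h'⟩
        · linear_combination s 0 * h4 - s' 0 * h2 - (s 0 * s' 1 - s 1 * s' 0) * h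
        · exact mul_left_cancel₀ a (by
            linear_combination s 1 * h4 - s' 1 * h2 - d * (s 0 * s' 1 - s 1 * s' 0) * h')
      · intro t ht
        obtain ⟨h | ⟨h, h'⟩, h2⟩ := (hZ t).1 ht
        · by_cases h0 : t 0 = 0
          · exact ⟨(t, ![1, 0]), mem_filter.2 ⟨mem_product.2 ⟨ht, m0⟩, by simp [h0]⟩, rfl⟩
          · refine ⟨(t, ![(d * t 0)⁻¹, 1]), mem_filter.2 ⟨mem_product.2 ⟨ht, (hZ _).2
              ⟨Or.inl rfl, ?_⟩⟩, by simp [h, -mul_inv_rev, a, h0]⟩, rfl⟩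
            simp only [Fz, h, one_pow, mul_one] at h2
            simp only [Fz, Matrix.cons_val_zero, Matrix.cons_val_one, one_pow, mul_one, inv_pow,
              mul_pow, hd, h2]
            cases ε <;> simp
        · exact ⟨(t, ![0, 1]), mem_filter.2 ⟨mem_product.2 ⟨ht, m1⟩, by simp [h]⟩, rfl⟩
    rw [this, hc]
    ring
  · rw [key (fun t => t 0 = 0) (fun s => s 1 = 0), c0, c1]
    rintro t s (h | ⟨h, h'⟩) (k | ⟨k, k'⟩) <;> by_cases e : t 0 = 0 <;> simp_all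
  · rw [key (fun t => t 1 = 0) (fun s => s 0 = 0), c0, c1]
    rintro t s (h | ⟨h, h'⟩) (k | ⟨k, k'⟩) <;> by_cases e : s 0 = 0 <;> simp_all
  · rw [key (fun _ => False) (fun _ => False), filter_false, card_empty]
    rintro t s (h | ⟨h, h'⟩) (k | ⟨k, k'⟩) <;> by_cases e : s 0 = 0 <;> simp [*]

/-- The four pairs of coordinates. -/
def eqv (K : Type) : (Vr → K) ≃ ((Fin 2 → K) × (Fin 2 → K)) × (Fin 2 → K) × (Fin 2 → K) where
  toFun w := ((pc w 0, pc w 1), pc w 2, pc w 3)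
  invFun u := mk4 u.1.1 u.1.2 u.2.1 u.2.2
  left_inv w := funext fun ⟨s, i⟩ => by fin_cases s <;> rfl
  right_inv _ := rfl

end XB1a

open XB1a in
theorem XB1_thm {K : Type} [Field K] [Base K] {p : ℕ} [Fact p.Prime] [CharP K p] [XB0 K p] :
    XB1 K p := by
  classical
  refine ⟨fun {G Q} hQ hF ε => ?_⟩
  have q0 : Q ≠ 0 := by omega
  obtain ⟨f, hf⟩ := hF.1
  have h0 : (Q : K) = 0 := by
    rcases f with _ | f
    · rw [hf, pow_zero] at hQ
      omega
    · rw [hf, pow_succ, Nat.cast_mul, CharP.cast_eq_zero K p, mul_zero]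
  obtain ⟨Z, cZ, hZ⟩ := exZ hQ h0 ε
  obtain ⟨A, cA, hA⟩ := exZ hQ h0 false
  have hA' : ∀ x, x ∈ A ↔ Nm x ∧ ∀ i, x i ^ Q = x i := fun x =>
    (hA x).trans (and_congr_right fun h => fz_false q0 h)
  have hr : ∀ F : MvPolynomial (Fin 2) K, rt Q F = ∑ x ∈ A, if aeval x F = 0 then 1 else 0 :=
    fun F => (Nat.subtype_card (A.filter fun x => aeval x F = 0) fun x => by
      rw [mem_filter, hA', and_assoc]).trans (card_filter _ _)
  obtain ⟨N, hN⟩ : ∃ N, N = ((A ×ˢ A) ×ˢ (Z ×ˢ Z)).filter fun u =>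
      u.2.1 1 * u.2.2 1 - dt u.1.1 u.1.2 * u.2.1 0 * u.2.2 0 = 0 ∧
      u.2.1 1 * u.2.2 0 * aeval u.1.1 G.FP - u.2.2 1 * u.2.1 0 * aeval u.1.2 G.FQ = 0 := ⟨_, rfl⟩
  have nf : ∀ w, G.NF Q ε w ↔ eqv K w ∈ N := fun w => by
    rw [hN, mem_filter, mem_product, mem_product, mem_product, hA', hA', hZ, hZ, GD.NF,
      Fin.forall_fin_two (p := fun r => aeval w (G.E r) = 0), eqs0, eqs1, forall_and]
    constructor
    · rintro ⟨a, b, ⟨c, c'⟩, e, e'⟩
      exact ⟨⟨⟨⟨a 0, c⟩, a 1, c'⟩, ⟨a 2, e⟩, a 3, e'⟩, b⟩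
    · rintro ⟨⟨⟨⟨a0, c⟩, a1, c'⟩, ⟨a2, e⟩, a3, e'⟩, b⟩
      exact ⟨fun s => by fin_cases s; exacts [a0, a1, a2, a3], b, ⟨c, c'⟩, e, e'⟩
  have e1 : G.fx Q ε = N.card := by
    rw [XB0.fx hF, Nat.card_congr ((eqv K).subtypeEquiv nf), Nat.subtype_card N fun _ => Iff.rfl]
  have e2 : G.fu Q ε = (N.filter fun u => ¬ u.2.1 1 * u.2.2 0 * aeval u.1.1 G.FP = 0).card := by
    rw [XB0.fu hF, Nat.card_congr ((eqv K).subtypeEquiv
      (p := fun w => G.NF Q ε w ∧ G.bd (.base K) w ≠ 0) (q := fun u => u ∈ N ∧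
      ¬ u.2.1 1 * u.2.2 0 * aeval u.1.1 G.FP = 0) fun w => and_congr_left' (nf w)),
      Nat.subtype_card _ fun _ => mem_filter]
  have e3 := card_filter_add_card_filter_not (s := N)
    fun u => u.2.1 1 * u.2.2 0 * aeval u.1.1 G.FP = 0
  have e4 : (N.filter fun u => u.2.1 1 * u.2.2 0 * aeval u.1.1 G.FP = 0).card =
      ∑ x ∈ A, ∑ y ∈ A, ((Z ×ˢ Z).filter fun u => (u.1 1 * u.2 1 - dt x y * u.1 0 * u.2 0 = 0 ∧
        u.1 1 * u.2 0 * aeval x G.FP - u.2 1 * u.1 0 * aeval y G.FQ = 0) ∧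
        u.1 1 * u.2 0 * aeval x G.FP = 0).card := by
    rw [hN, filter_filter, card_filter, sum_product, sum_product]
    simp only [card_filter]
  have e5 := sum_congr rfl fun x (hx : x ∈ A) => sum_congr rfl fun y (hy : y ∈ A) =>
    (fib q0 cZ hZ (d := dt x y) (P := aeval x G.FP) (R := aeval y G.FQ) (by
      have a := ((hA' x).1 hx).2
      have b := ((hA' y).1 hy).2
      rw [hf] at a b ⊢
      rw [dt, sub_pow_char_pow, mul_pow, mul_pow, a, a, b, b]) fun a b c =>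
        no_root G ((hA y).1 hy).1 ((dt_eq ((hA x).1 hx).1 ((hA y).1 hy).1).1 a ▸ b) c)
  have e6 : ∀ F : (Fin 2 → K) → (Fin 2 → K) → ℕ,
      ∑ x ∈ A, ∑ y ∈ A, (if dt x y = 0 then 1 else 0) * F x y = ∑ x ∈ A, F x x := fun F =>
    sum_congr rfl fun x hx => by
      rw [sum_eq_single_of_mem x hx, if_pos ((dt_eq ((hA x).1 hx).1 ((hA x).1 hx).1).2 rfl),
        one_mul]
      exact fun y hy h => by
        rw [if_neg fun a => h ((dt_eq ((hA x).1 hx).1 ((hA y).1 hy).1).1 a).symm, zero_mul]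
  have e7 := e6 fun _ _ => 1
  simp only [mul_one, sum_const, smul_eq_mul, cA] at e7
  simp only [sum_add_distrib, ← mul_sum, e6, e7, ← e4] at e5
  simp only [← sum_mul, ← mul_sum, sum_const, smul_eq_mul, cA, ← hr] at e5
  rw [e1, e2, ← e3]
  linarith

end Pool.Agent.Lib.MP_557161_ag.HG.TW.P2
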