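import Pool.Agent.Lib.MP_557161_ag.TW.StB

/-!
The number of fixed points in the unramified part.
-/

namespace Pool.Agent.Lib.MP_557161_ag.HG.TW.P2

open Pool.Agent.Lib.MP_557161_ag.DL MvPolynomial

namespace XB2a

lemma good_card {α : Type} [Finite α] (A B : α → Prop) (h : ∀ x, A x → B x → False) :
    Nat.card {z : α × α // z.1 ≠ z.2 ∧ ¬ A z.1 ∧ ¬ B z.2} +
      Nat.card α * (Nat.card {x // A x} + Nat.card {x // B x}) + Nat.card α =
      Nat.card α ^ 2 + Nat.card {x // A x} * Nat.card {x // B x} + Nat.card {x // A x} +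
        Nat.card {x // B x} := by
  classical
  have := Fintype.ofFinite α
  simp only [Nat.card_eq_fintype_card, Fintype.card_subtype]
  have h1 := Finset.card_filter_add_card_filter_not (s := Finset.univ) A
  have h2 := Finset.card_filter_add_card_filter_not (s := Finset.univ) B
  have h3 := Finset.card_filter_add_card_filter_not (s := Finset.univ.filter fun x => ¬ A x) B
  have h4 := Finset.card_filter_add_card_filter_not (s := (Finset.univ.filter fun x => ¬ A x) ×ˢ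
    (Finset.univ.filter fun x => ¬ B x)) fun z : α × α => z.1 = z.2
  have e3 : (Finset.univ.filter fun x => ¬ A x).filter B = Finset.univ.filter B :=
    Finset.ext fun x => by simpa using fun b a => h x a b
  have e4 : ((Finset.univ.filter fun x => ¬ A x) ×ˢ (Finset.univ.filter fun x => ¬ B x)).filter
      (fun z : α × α => z.1 = z.2) = ((Finset.univ.filter fun x => ¬ A x).filter
        fun x => ¬ B x).map ⟨fun x => (x, x), fun _ _ e => congrArg Prod.fst e⟩ :=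
    Finset.ext fun ⟨x, y⟩ => by
      simp only [Finset.mem_filter, Finset.mem_product, Finset.mem_univ, true_and, Finset.mem_map,
        Function.Embedding.coeFn_mk, Prod.mk.injEq]
      exact ⟨fun ⟨g, e⟩ => ⟨x, ⟨g.1, e ▸ g.2⟩, rfl, e⟩, fun ⟨a, g, e, e'⟩ => e ▸ e' ▸ ⟨g, rfl⟩⟩
  have e5 : ((Finset.univ.filter fun x => ¬ A x) ×ˢ (Finset.univ.filter fun x => ¬ B x)).filter
      (fun z : α × α => ¬ z.1 = z.2) =
      Finset.univ.filter fun z : α × α => z.1 ≠ z.2 ∧ ¬ A z.1 ∧ ¬ B z.2 :=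
    Finset.ext fun z => by simp [and_comm]
  rw [e3] at h3
  rw [e4, e5, Finset.card_map, Finset.card_product] at h4
  rw [Finset.card_univ] at h1 h2
  zify at *
  linear_combination h4 - h3 - h1 + ((Finset.univ.filter fun x => ¬ B x).card -
    (Finset.univ.filter B).card + (Finset.univ.filter B).card : ℤ) * h1 +
    ((Fintype.card α : ℤ) - (Finset.univ.filter A).card) * h2

variable {K : Type} [Field K]

lemma card_sq [IsAlgClosed K] (h2 : (2 : K) ≠ 0) {c e : K} (hc : c ≠ 0) (he : e ≠ 0) :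
    Nat.card {τ : K // τ ^ 2 * c = e} = 2 := by
  obtain ⟨r, hr⟩ := IsAlgClosed.exists_pow_nat_eq (e / c) two_pos
  have h0 : r ≠ 0 := by
    rintro rfl
    exact div_ne_zero he hc (by simpa using hr.symm)
  have h1 : r ≠ -r := fun h => mul_ne_zero h2 h0 (by linear_combination h)
  refine (Nat.card_congr (Equiv.subtypeEquivRight fun τ => ?_)).trans
    ((Nat.card_coe_set_eq {r, -r}).trans (Set.ncard_pair h1))
  rw [← eq_div_iff hc, ← hr, sq_eq_sq_iff_eq_or_eq_neg]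
  rfl

lemma card_fq [IsAlgClosed K] {p Q : ℕ} [CharP K p] (hQ : 1 < Q) (h : p ∣ Q) :
    Nat.card {t : K // t ^ Q = t} = Q := by
  have h1 := Polynomial.card_rootSet_eq_natDegree (K := K) (galois_poly_separable (K := K) p Q h)
    (IsAlgClosed.splits _)
  rw [FiniteField.X_pow_card_sub_X_natDegree_eq K hQ, ← Nat.card_eq_fintype_card] at h1
  refine (Nat.card_congr (Equiv.subtypeEquivRight fun t => ?_)).trans h1
  rw [Polynomial.mem_rootSet_of_ne (FiniteField.X_pow_card_sub_X_ne_zero K hQ)]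
  simp [sub_eq_zero]

/-- The rational points of the projective line. -/
abbrev PL (K : Type) [Field K] (Q : ℕ) : Type := {x : Fin 2 → K // Nm x ∧ ∀ i, x i ^ Q = x i}

lemma card_PL [IsAlgClosed K] {p Q : ℕ} [CharP K p] (hQ : 1 < Q) (h : p ∣ Q) :
    Nat.card (PL K Q) = Q + 1 := by
  have h0 : (0 : K) ^ Q = 0 := zero_pow (by omega)
  have h1 := card_fq (K := K) hQ h
  have : Finite {t : K // t ^ Q = t} := Nat.finite_of_card_ne_zero (by omega)
  let f : Option {t : K // t ^ Q = t} → PL K Q := fun o => o.elim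
    ⟨![1, 0], by simp [Nm], fun i => by fin_cases i <;> simp [h0]⟩
    fun a => ⟨![a, 1], by simp [Nm], fun i => by fin_cases i <;> simp [a.2]⟩
  have hf : Function.Bijective f := by
    constructor
    · rintro (_ | a) (_ | b) e <;> simp_all [f, Subtype.ext_iff]
    · rintro ⟨x, h | h, hx⟩
      · exact ⟨some ⟨x 0, hx 0⟩, Subtype.ext (funext fun i => by fin_cases i <;> simp [f, h])⟩
      · exact ⟨none, Subtype.ext (funext fun i => by fin_cases i <;> simp [f, h.1, h.2])⟩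
  rw [← Nat.card_congr (Equiv.ofBijective f hf), Finite.card_option, h1]

lemma dt_eq {x y : Fin 2 → K} (hx : Nm x) (hy : Nm y) : dt x y = 0 ↔ x = y := by
  refine ⟨fun h => funext fun i => ?_, fun h => by rw [h, dt]; ring⟩
  rw [dt] at h
  rcases hx with hx | ⟨hx, hx'⟩ <;> rcases hy with hy | ⟨hy, hy'⟩ <;> fin_cases i <;>
    simp_all [sub_eq_zero]

lemma no_root (G : GD K) {x : Fin 2 → K} (hx : Nm x) (hP : aeval x G.FP = 0)
    (hQ : aeval x G.FQ = 0) : False := by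
  have c := G.cc ▸ G.c0
  have hd := G.det
  rw [dt] at hd
  have uv : aeval x G.uu = 0 → aeval x G.vv = 0 → False := fun hu hv => by
    simp only [GD.uu, GD.vv, map_sub, map_mul, aeval_X, aeval_C, Algebra.algebraMap_self,
      RingHom.id_apply] at hu hv
    have e0 : x 0 = 0 := by linear_combination G.β 0 * hu + G.α 0 * hv - x 0 * hd
    have e1 : x 1 = 0 := by linear_combination G.β 1 * hu + G.α 1 * hv - x 1 * hd
    simp [Nm, e0, e1] at hx
  simp only [GD.FP, GD.FQ, map_mul, map_prod, map_sub, aeval_C, Algebra.algebraMap_self,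
    RingHom.id_apply, mul_eq_zero, Finset.prod_eq_zero_iff, Finset.mem_univ, true_and,
    left_ne_zero_of_mul c, right_ne_zero_of_mul c, false_or] at hP hQ
  generalize aeval x G.uu = u at *
  generalize aeval x G.vv = v at *
  rcases hP with hP | ⟨i, hP⟩ <;> rcases hQ with hQ | ⟨j, hQ⟩
  · exact uv hP hQ
  · exact uv hP (mul_left_cancel₀ (G.b0 j) (by linear_combination hP - hQ))
  · exact uv (by linear_combination hP + G.a i * hQ) hQ
  · have hv : v = 0 := mul_left_cancel₀ (sub_ne_zero.2 (G.ab i j)) (by linear_combination hQ - hP)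
    exact uv (by linear_combination hP + G.a i * hv) hv

variable {p : ℕ} [Fact p.Prime] [CharP K p]

lemma fix_form {f : ℕ} {F : MvPolynomial (Fin 2) K} (hF : ∀ m, coeff m F ^ p ^ f = coeff m F)
    {x : Fin 2 → K} (hx : ∀ i, x i ^ p ^ f = x i) : aeval x F ^ p ^ f = aeval x F := by
  rw [aeval_def, eval₂_eq', sum_pow_char_pow]
  simp only [Algebra.algebraMap_self, RingHom.id_apply, mul_pow, hF, ← Finset.prod_pow,
    ← pow_right_comm _ (p ^ f), hx]

lemma fix_dt {f : ℕ} {x y : Fin 2 → K} (hx : ∀ i, x i ^ p ^ f = x i)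
    (hy : ∀ i, y i ^ p ^ f = y i) : dt x y ^ p ^ f = dt x y := by
  simp only [dt, sub_pow_char_pow, mul_pow, hx, hy]

/-- The pairs outside the branch curve. -/
abbrev Gd (G : GD K) (Q : ℕ) : Type :=
  {z : PL K Q × PL K Q // z.1 ≠ z.2 ∧ ¬ aeval z.1.1 G.FP = 0 ∧ ¬ aeval z.2.1 G.FQ = 0}

/-- The points above them. -/
abbrev Zt (G : GD K) (Q : ℕ) : Type :=
  Σ z : Gd G Q, {τ : K // τ ^ 2 * (dt z.1.1.1 z.1.2.1 * aeval z.1.2.1 G.FQ) = aeval z.1.1.1 G.FP}

lemma Gd.dt_ne {G : GD K} {Q : ℕ} (z : Gd G Q) : dt z.1.1.1 z.1.2.1 ≠ 0 :=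
  fun h => z.2.1 (Subtype.ext ((dt_eq z.1.1.2.1 z.1.2.2.1).1 h))

lemma Zt.ne {G : GD K} {Q : ℕ} (z : Zt G Q) : z.2.1 ≠ 0 := fun h => z.1.2.2.1 (by
  rw [← z.2.2, h]; simp)

lemma card_nf (G : GD K) (f : ℕ) (ε : Bool) :
    Nat.card {z : Zt G (p ^ f) // z.2.1 ^ p ^ f = (bif ε then -1 else 1) * z.2.1} =
      Nat.card {w : Vr → K // G.NF (p ^ f) ε w ∧ G.bd (.base K) w ≠ 0} := by
  have sg : ((bif ε then -1 else 1 : K))⁻¹ = bif ε then -1 else 1 := by cases ε <;> simp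
  let F : {z : Zt G (p ^ f) // z.2.1 ^ p ^ f = (bif ε then -1 else 1) * z.2.1} →
      {w : Vr → K // G.NF (p ^ f) ε w ∧ G.bd (.base K) w ≠ 0} := fun z =>
    ⟨mk4 z.1.1.1.1.1 z.1.1.1.2.1 ![z.1.2.1, 1] ![(dt z.1.1.1.1.1 z.1.1.1.2.1 * z.1.2.1)⁻¹, 1], by
      have h1 := z.1.1.dt_ne
      have h2 := z.1.ne
      have h3 := z.1.2.2
      have h4 := z.2
      have h5 := fix_dt z.1.1.1.1.2.2 z.1.1.1.2.2.2
      refine ⟨⟨fun s => ?_, fun r => ?_, fun i => ⟨z.1.1.1.1.2.2 i, z.1.1.1.2.2.2 i⟩, ?_, ?_⟩,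
        mul_ne_zero (mul_ne_zero one_ne_zero (inv_ne_zero (mul_ne_zero h1 h2))) z.1.1.2.2.1⟩
      · fin_cases s
        exacts [z.1.1.1.1.2.1, z.1.1.1.2.2.1, Or.inl rfl, Or.inl rfl]
      · fin_cases r
        · refine (eqs0 _ _ _).trans ?_
          change (1 : K) * 1 - dt z.1.1.1.1.1 z.1.1.1.2.1 * z.1.2.1 *
            (dt z.1.1.1.1.1 z.1.1.1.2.1 * z.1.2.1)⁻¹ = 0
          rw [mul_inv_cancel₀ (mul_ne_zero h1 h2)]
          simp
        · refine (eqs1 _ _ _).trans ?_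
          change (1 : K) * (dt z.1.1.1.1.1 z.1.1.1.2.1 * z.1.2.1)⁻¹ * aeval z.1.1.1.1.1 G.FP -
            1 * z.1.2.1 * aeval z.1.1.1.2.1 G.FQ = 0
          linear_combination -(dt z.1.1.1.1.1 z.1.1.1.2.1 * z.1.2.1)⁻¹ * h3 +
            z.1.2.1 * aeval z.1.1.1.2.1 G.FQ * mul_inv_cancel₀ (mul_ne_zero h1 h2)
      · change z.1.2.1 ^ p ^ f * 1 = _ * 1 ^ p ^ f * z.1.2.1
        rw [h4]
        simp
      · change (dt z.1.1.1.1.1 z.1.1.1.2.1 * z.1.2.1)⁻¹ ^ p ^ f * 1 =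
          _ * 1 ^ p ^ f * (dt z.1.1.1.1.1 z.1.1.1.2.1 * z.1.2.1)⁻¹
        rw [inv_pow, mul_pow, h5, h4, mul_left_comm, mul_inv, sg]
        simp⟩
  refine Nat.card_congr (Equiv.ofBijective F ⟨?_, ?_⟩)
  · rintro ⟨⟨⟨⟨⟨x, _⟩, ⟨y, _⟩⟩, _⟩, τ, _⟩, _⟩ ⟨⟨⟨⟨⟨x', _⟩, ⟨y', _⟩⟩, _⟩, τ', _⟩, _⟩ e
    have e' := congrArg Subtype.val e
    obtain rfl : x = x' := funext fun i => congrFun e' (0, i)
    obtain rfl : y = y' := funext fun i => congrFun e' (1, i)
    obtain rfl : τ = τ' := congrFun e' (2, 0)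
    rfl
  · rintro ⟨w, ⟨h1, h2, h3, h4, h5⟩, h6⟩
    have e0 := (eqs0 _ _ _).symm.trans (h2 0)
    have e1 := (eqs1 _ _ _).symm.trans (h2 1)
    have h7 : w (2, 1) * w (3, 0) * aeval (pc w 0) G.FP ≠ 0 := h6
    have t1 : w (2, 1) = 1 := (h1 2).resolve_right fun h => h7 (by
      rw [show w (2, 1) = 0 from h.1]; simp)
    have h8 : w (3, 1) * w (2, 0) * aeval (pc w 1) G.FQ ≠ 0 := sub_eq_zero.1 e1 ▸ h7
    have s1 : w (3, 1) = 1 := (h1 3).resolve_right fun h => h8 (by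
      rw [show w (3, 1) = 0 from h.1]; simp)
    rw [t1, s1] at e0 e1
    have h9 : dt (pc w 0) (pc w 1) ≠ 0 := fun h => by simp [h] at e0
    refine ⟨⟨⟨⟨(⟨pc w 0, h1 0, fun i => (h3 i).1⟩, ⟨pc w 1, h1 1, fun i => (h3 i).2⟩),
      fun h => h9 ((dt_eq (h1 0) (h1 1)).2 (congrArg Subtype.val h)), right_ne_zero_of_mul h7,
      right_ne_zero_of_mul h8⟩, w (2, 0), ?_⟩, ?_⟩, Subtype.ext (funext fun ⟨s, i⟩ => ?_)⟩
    · change w (2, 0) ^ 2 * (dt (pc w 0) (pc w 1) * aeval (pc w 1) G.FQ) = aeval (pc w 0) G.FP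
      linear_combination -(dt (pc w 0) (pc w 1) * w (2, 0)) * e1 - aeval (pc w 0) G.FP * e0
    · have h4' : w (2, 0) ^ p ^ f * w (2, 1) = _ * w (2, 1) ^ p ^ f * w (2, 0) := h4
      simpa [t1] using h4'
    · fin_cases s <;> fin_cases i <;> first | rfl | exact t1.symm | exact s1.symm | skip
      exact inv_eq_of_mul_eq_one_right (sub_eq_zero.1 e0 ▸ one_mul 1)

lemma split (G : GD K) {f : ℕ} (hP : ∀ m, coeff m G.FP ^ p ^ f = coeff m G.FP)
    (hQ : ∀ m, coeff m G.FQ ^ p ^ f = coeff m G.FQ) (z : Zt G (p ^ f)) :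
    z.2.1 ^ p ^ f = -1 * z.2.1 ↔ ¬ z.2.1 ^ p ^ f = 1 * z.2.1 := by
  have h1 := congrArg (· ^ p ^ f) z.2.2
  simp only [mul_pow, fix_dt z.1.1.1.2.2 z.1.1.2.2.2, fix_form hP z.1.1.1.2.2,
    fix_form hQ z.1.1.2.2.2] at h1
  have h2 : (z.2.1 ^ p ^ f) ^ 2 = z.2.1 ^ 2 :=
    mul_right_cancel₀ (mul_ne_zero z.1.dt_ne z.1.2.2.2) (by rw [pow_right_comm, h1, z.2.2])
  rw [neg_one_mul, one_mul]
  refine ⟨fun h h' => mul_ne_zero G.two z.ne (by linear_combination h - h'),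
    (sq_eq_sq_iff_eq_or_eq_neg.1 h2).resolve_left⟩

end XB2a

open XB2a in
theorem XB2_thm {K : Type} [Field K] [Base K] {p : ℕ} [Fact p.Prime] [CharP K p] [XB0 K p] :
    XB2 K p := by
  classical
  refine ⟨fun {G Q} hQ hF => ?_⟩
  rw [XB0.fu hF, XB0.fu hF]
  obtain ⟨⟨f, rfl⟩, hP, hD⟩ := hF
  have h1 := card_PL (K := K) hQ (dvd_pow_self p (by rintro rfl; simp at hQ))
  have : Finite (PL K (p ^ f)) := Nat.finite_of_card_ne_zero (by omega)
  have := Fintype.ofFinite (Gd G (p ^ f))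
  have h2 : ∀ z : Gd G (p ^ f), Nat.card {τ : K // τ ^ 2 * (dt z.1.1.1 z.1.2.1 *
      aeval z.1.2.1 G.FQ) = aeval z.1.1.1 G.FP} = 2 := fun z =>
    card_sq G.two (mul_ne_zero z.dt_ne z.2.2.2) z.2.2.1
  have : ∀ z : Gd G (p ^ f), Finite {τ : K // τ ^ 2 * (dt z.1.1.1 z.1.2.1 *
      aeval z.1.2.1 G.FQ) = aeval z.1.1.1 G.FP} := fun z =>
    Nat.finite_of_card_ne_zero (by rw [h2]; omega)
  have h3 : Nat.card (Zt G (p ^ f)) = 2 * Nat.card (Gd G (p ^ f)) := by
    rw [Nat.card_sigma, Finset.sum_congr rfl fun z _ => h2 z]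
    simp [mul_comm]
  have h4 := good_card (fun x : PL K (p ^ f) => aeval x.1 G.FP = 0)
    (fun x => aeval x.1 G.FQ = 0) fun x => no_root G x.2.1
  have h5 : ∀ F : MvPolynomial (Fin 2) K,
      Nat.card {x : PL K (p ^ f) // aeval x.1 F = 0} = rt (p ^ f) F := fun F =>
    Nat.card_congr ((Equiv.subtypeSubtypeEquivSubtypeInter _ fun x => aeval x F = 0).trans
      (Equiv.subtypeEquivRight fun _ => and_assoc))
  rw [h5, h5, h1] at h4
  have h6 := Nat.card_congr (Equiv.sumCompl fun z : Zt G (p ^ f) => z.2.1 ^ p ^ f = 1 * z.2.1)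
  rw [Nat.card_sum, ← Nat.card_congr (Equiv.subtypeEquivRight (split G hP hD)), h3] at h6
  rw [← card_nf, ← card_nf]
  change Nat.card (Gd G (p ^ f)) + _ + _ = _ at h4
  refine (congrArg (· + _) h6).trans ?_
  zify at h4 ⊢
  linear_combination 2 * h4

end Pool.Agent.Lib.MP_557161_ag.HG.TW.P2
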