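import Pool.Agent.Lib.MP_557161_ag.TW.StB

/-!
The fixed points in the unramified part, and the divisibility of their number.
-/

namespace Pool.Agent.Lib.MP_557161_ag.HG.TW.P2

open Pool.Agent.Lib.MP_557161_ag.DL

variable {K : Type} [Field K] {p : ℕ} [X1 K] [X2 K] [XF K p]

lemma XB3a.uu {G : GD K} {Q : ℕ} (h : G.Fr p Q) (ε : Bool) : G.fu Q ε =
    Nat.card {A : xz.X (Fld.base K) // G.UU.mem _ A ∧ G.frb Q _ A = sg ε _ A} := by
  have h1 : ∀ A : xz.X (Fld.base K), G.UU.mem _ A ∧ G.frb Q _ A = sg ε _ A →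
      G.Γ.pt (G.sec _ A) = G.Γ.pt (gg Q ε (G.sec _ A)) := fun A m => by
    obtain ⟨a, h0, e⟩ := XF.sec h ε m.1
    rw [m.2, X2.sg_sg] at e
    exact (congrArg G.Γ.pt e).trans (G.Γ.pt_scl h0 _)
  refine (Nat.card_eq_of_bijective
    (fun A => ⟨G.Γ.pt (G.sec _ A.1), _, X1.sec_co A.2.1, rfl, h1 A.1 A.2⟩)
    ⟨fun A B e => ?_, ?_⟩).symm
  · obtain ⟨a, h0, e⟩ := (G.Γ.pt_eq (X1.sec_co A.2.1).1.1).1 (congrArg Subtype.val e)
    have := congrArg (G.pr _) e
    rw [X1.pr_scl G _ h0, X1.pr_sec A.2.1, X1.pr_sec B.2.1] at this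
    exact Subtype.ext this.symm
  · rintro ⟨_, w, hw, rfl, e⟩
    obtain ⟨a, h0, e⟩ := (G.Γ.pt_eq hw.1.1).1 e
    have := congrArg (G.pr _) e
    rw [X1.pr_scl G _ h0, XF.pr h ε hw] at this
    refine ⟨⟨G.pr _ w, X1.pr_uu hw, ?_⟩, Subtype.ext ?_⟩
    · rw [← X2.sg_sg ε _ (G.frb Q _ _), this]
    · exact (congrArg G.Γ.pt (X1.sec_pr hw).2).trans (G.Γ.pt_scl (X1.sec_pr hw).1 _)

theorem XB3_thm [ZO2] : XB3 K p where
  uu := XB3a.uu
  dvd {G q} h m v hm hv := by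
    let F : {A : xz.X (Fld.base K) // G.UU.mem _ A} → {A : xz.X (Fld.base K) // G.UU.mem _ A} :=
      fun A => ⟨G.frb q _ A.1, (XF.mem h).2 A.2⟩
    let ι : {A : xz.X (Fld.base K) // G.UU.mem _ A} → {A : xz.X (Fld.base K) // G.UU.mem _ A} :=
      fun A => ⟨sg true _ A.1, (X2.sg_uu true).2 A.2⟩
    have e : ∀ n A, (F^[n] A).1 = G.frb (q ^ n) _ A.1 := fun n A => by
      induction n with
      | zero => rw [pow_zero, XF.one p]; rfl
      | succ n ih =>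
        rw [Function.iterate_succ_apply', pow_succ', ← XF.mul h (XF.pow h n), ← ih]
    have := ZO2.dvd F ι (fun A => Subtype.ext (X2.sg_sg true _ _))
      (fun A e => X2.ne A.2 (congrArg Subtype.val e))
      (fun A => Subtype.ext (XF.sg h true _ _)) m v hm hv
    rw [XB3a.uu (XF.pow h m) true]
    refine this.trans (dvd_of_eq (Nat.card_congr ((Equiv.subtypeEquivRight fun A => ?_).trans
      (Equiv.subtypeSubtypeEquivSubtypeInter _ fun A => G.frb (q ^ m) _ A = sg true _ A))))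
    rw [Subtype.ext_iff, e]

end Pool.Agent.Lib.MP_557161_ag.HG.TW.P2
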