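import Pool.Agent.Lib.MP_557161_ag.TW.StY

/-!
The normal form of the two binary forms.
-/

namespace Pool.Agent.Lib.MP_557161_ag.HG.TW.P2

open Pool.Agent.Lib.MP_557161_ag.DL MvPolynomial

variable {K : Type} [Field K]

namespace XEa

/-- The linear form that vanishes at `ρ`. -/
noncomputable def lf (ρ : Fin 2 → K) : MvPolynomial (Fin 2) K := X 0 * C (ρ 1) - X 1 * C (ρ 0)

lemma lf_hom (ρ : Fin 2 → K) : (lf ρ).IsHomogeneous 1 :=
  ((isHomogeneous_X K 0).mul (isHomogeneous_C _ _)).sub
    ((isHomogeneous_X K 1).mul (isHomogeneous_C _ _))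

lemma prod_hom {n : ℕ} (c : K) (ρ : Fin n → Fin 2 → K) :
    (C c * ∏ i, lf (ρ i)).IsHomogeneous n := by
  refine IsHomogeneous.C_mul ?_ c
  simpa using IsHomogeneous.prod Finset.univ (fun i => lf (ρ i)) (fun _ => 1) fun _ _ => lf_hom _

lemma roots [IsAlgClosed K] {f : Polynomial K} (hf : f.Separable) {d : ℕ} (hd : f.natDegree = d) :
    ∃ r : Fin d → K, Function.Injective r ∧ (∀ i, f.eval (r i) = 0) ∧
      f = Polynomial.C f.leadingCoeff * ∏ i, (Polynomial.X - Polynomial.C (r i)) := by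
  classical
  have hn : f.roots.Nodup := Polynomial.nodup_roots hf
  have hc : f.roots.toFinset.card = d := by
    rw [Multiset.toFinset_card_of_nodup hn, IsAlgClosed.card_roots_eq_natDegree, hd]
  let e := Finset.equivFinOfCardEq hc
  refine ⟨fun i => (e.symm i).1, Subtype.val_injective.comp e.symm.injective, fun i =>
    Polynomial.isRoot_of_mem_roots (Multiset.mem_toFinset.1 (e.symm i).2), ?_⟩
  rw [e.symm.prod_comp fun x => Polynomial.X - Polynomial.C x.1,
    Finset.prod_coe_sort _ fun x => Polynomial.X - Polynomial.C x, Finset.prod_eq_multiset_prod,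
    Multiset.toFinset_val, hn.dedup]
  exact (Polynomial.C_leadingCoeff_mul_prod_multiset_X_sub_C
    IsAlgClosed.card_roots_eq_natDegree).symm

lemma ev_fin (r : K) : aeval ![Polynomial.X, (1 : Polynomial K)] (lf ![r, 1]) =
    Polynomial.X - Polynomial.C r := by
  simp [lf]

lemma ev_inf : aeval ![Polynomial.X, (1 : Polynomial K)] (lf ![(1 : K), 0]) = -1 := by
  simp [lf]

lemma fac [IsAlgClosed K] {f : Polynomial K} (hf : f.Separable) {m : ℕ} (h1 : m ≤ f.natDegree)
    (h2 : f.natDegree ≤ m + 1) : ∃ c : K, c ≠ 0 ∧ ∃ ρ : Fin (m + 1) → Fin 2 → K,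
      f.homogenize (m + 1) = C c * ∏ i, lf (ρ i) ∧ (∀ i j, i ≠ j → dt (ρ i) (ρ j) ≠ 0) ∧
      ∀ i, (ρ i 1 = 1 ∧ f.eval (ρ i 0) = 0) ∨ (ρ i 0 = 1 ∧ ρ i 1 = 0 ∧ f.natDegree = m) := by
  have h0 : f.leadingCoeff ≠ 0 := Polynomial.leadingCoeff_ne_zero.2 hf.ne_zero
  rcases h2.eq_or_lt with h | h
  · obtain ⟨r, r1, r2, r3⟩ := roots hf h
    refine ⟨_, h0, fun i => ![r i, 1], Polynomial.homogenize_eq_of_isHomogeneous
      (prod_hom _ _) ?_, fun i j hij => ?_, fun i => Or.inl ⟨rfl, r2 i⟩⟩
    · rw [map_mul, map_prod, aeval_C]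
      simp only [ev_fin]
      exact r3.symm
    · simpa [dt, sub_eq_zero] using r1.ne hij
  · have h' : f.natDegree = m := by omega
    obtain ⟨r, r1, r2, r3⟩ := roots hf h'
    refine ⟨_, neg_ne_zero.2 h0, Fin.cons ![1, 0] fun i => ![r i, 1],
      Polynomial.homogenize_eq_of_isHomogeneous (prod_hom _ _) ?_, fun i j hij => ?_, fun i => ?_⟩
    · rw [map_mul, map_prod, aeval_C, Fin.prod_univ_succ]
      simp only [Fin.cons_zero, Fin.cons_succ, ev_fin, ev_inf]
      rw [map_neg, neg_mul, neg_mul, one_mul, mul_neg, neg_neg]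
      exact r3.symm
    · induction i using Fin.cases with
      | zero =>
        induction j using Fin.cases with
        | zero => exact absurd rfl hij
        | succ j => simp [dt]
      | succ i =>
        induction j using Fin.cases with
        | zero => simp [dt]
        | succ j => simpa [dt, sub_eq_zero] using r1.ne fun e => hij (congrArg _ e)
    · induction i using Fin.cases with
      | zero => exact Or.inr ⟨rfl, rfl, h'⟩
      | succ i => exact Or.inl ⟨rfl, r2 i⟩

lemma dt_eq {α β : Fin 2 → K} (h : dt β α = 1) (x y : Fin 2 → K) :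
    dt x y = dt x α * dt β y - dt β x * dt y α := by
  rw [← mul_one (dt x y), ← h]
  simp only [dt]
  ring

lemma dt_swap (x y : Fin 2 → K) : dt x y = -dt y x := by
  simp only [dt]
  ring

lemma lf_eq {α β : Fin 2 → K} (h : dt β α = 1) {x : Fin 2 → K} (hx : dt β x ≠ 0) :
    lf x = C (dt β x) * (lf α - C (dt x α / dt β x) * (C (β 0) * X 1 - C (β 1) * X 0)) := by
  have e : (C (β 0) * C (α 1) - C (β 1) * C (α 0) : MvPolynomial (Fin 2) K) = 1 := by
    rw [← map_mul, ← map_mul, ← map_sub]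
    exact (congrArg C h).trans (map_one _)
  rw [mul_sub, ← mul_assoc, ← map_mul, mul_div_cancel₀ _ hx]
  simp only [lf, dt, map_sub, map_mul]
  linear_combination (X 1 * C (x 0) - X 0 * C (x 1)) * e

lemma rat_ne {α β : Fin 2 → K} (h : dt β α = 1) {x y : Fin 2 → K} (hx : dt β x ≠ 0)
    (hy : dt β y ≠ 0) (hxy : dt x y ≠ 0) : dt x α / dt β x ≠ dt y α / dt β y := fun e => by
  rw [div_eq_div_iff hx hy] at e
  exact hxy (by rw [dt_eq h x y, e, mul_comm, sub_self])

end XEa

open XEa in
theorem XE_thm [IsAlgClosed K] : XE K where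
  ex {g h f D} two g0 h0 hf hD cop f1 f2 d1 d2 hor := by
    obtain ⟨c, c0, ρ, e, n, s⟩ := fac hf f1 f2
    obtain ⟨c', c0', ρ', e', n', s'⟩ := fac hD d1 d2
    have cr : ∀ j i, dt (ρ' j) (ρ i) ≠ 0 := fun j i => by
      rcases s i with ⟨a1, a2⟩ | ⟨a1, a2, a3⟩ <;> rcases s' j with ⟨b1, b2⟩ | ⟨b1, b2, b3⟩
      · intro hz
        have hz' : ρ' j 0 = ρ i 0 := by simpa [dt, a1, b1, sub_eq_zero] using hz
        obtain ⟨u, v, huv⟩ := cop
        have := congrArg (Polynomial.eval (ρ i 0)) huv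
        rw [hz'] at b2
        simp [a2, b2] at this
      · simp [dt, a1, b1, b2]
      · simp [dt, a1, a2, b1]
      · omega
    have δ0 := cr 0 0
    let β : Fin 2 → K := fun i => (dt (ρ' 0) (ρ 0))⁻¹ * ρ' 0 i
    have hβ : ∀ x, dt β x = (dt (ρ' 0) (ρ 0))⁻¹ * dt (ρ' 0) x := fun x => by
      simp only [β, dt]
      ring
    have det : dt β (ρ 0) = 1 := by rw [hβ, inv_mul_cancel₀ δ0]
    have v1 : ∀ i, dt β (ρ i) ≠ 0 := fun i => by
      rw [hβ]
      exact mul_ne_zero (inv_ne_zero δ0) (cr 0 i)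
    have v2 : ∀ j : Fin (2 * h), dt β (ρ' j.succ) ≠ 0 := fun j => by
      rw [hβ]
      exact mul_ne_zero (inv_ne_zero δ0) (n' _ _ (Fin.succ_ne_zero j).symm)
    refine ⟨{ g := g
              h := h
              a := fun i => dt (ρ i.succ) (ρ 0) / dt β (ρ i.succ)
              b := fun j => dt (ρ' j.succ) (ρ 0) / dt β (ρ' j.succ)
              c := (c * ∏ i : Fin (2 * g), dt β (ρ i.succ)) *
                (c' * -dt (ρ' 0) (ρ 0) * ∏ j : Fin (2 * h), dt β (ρ' j.succ))
              g0 := g0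
              h0 := h0
              two := two
              c0 := mul_ne_zero (mul_ne_zero c0 (Finset.prod_ne_zero_iff.2 fun i _ => v1 _))
                (mul_ne_zero (mul_ne_zero c0' (neg_ne_zero.2 δ0))
                  (Finset.prod_ne_zero_iff.2 fun j _ => v2 j))
              a0 := fun i => div_ne_zero (n _ _ (Fin.succ_ne_zero i)) (v1 _)
              b0 := fun j => div_ne_zero (cr _ _) (v2 j)
              ai := fun i i' e => by_contra fun hi =>
                rat_ne det (v1 _) (v1 _) (n _ _ fun e => hi (Fin.succ_injective _ e)) e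
              bi := fun j j' e => by_contra fun hj =>
                rat_ne det (v2 _) (v2 _) (n' _ _ fun e => hj (Fin.succ_injective _ e)) e
              ab := fun i j => rat_ne det (v1 _) (v2 _) (by
                rw [dt_swap]
                exact neg_ne_zero.2 (cr _ _))
              α := ρ 0
              β := β
              c1 := c * ∏ i : Fin (2 * g), dt β (ρ i.succ)
              c2 := c' * -dt (ρ' 0) (ρ 0) * ∏ j : Fin (2 * h), dt β (ρ' j.succ)
              det := det
              cc := rfl }, rfl, rfl, ?_, ?_⟩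
    · rw [e, Fin.prod_univ_succ, Finset.prod_congr rfl fun i _ => lf_eq det (v1 (Fin.succ i)),
        Finset.prod_mul_distrib, ← map_prod C]
      simp only [GD.FP, GD.uu, GD.vv, lf, map_mul]
      ring
    · have e0 : lf (ρ' 0) = C (-dt (ρ' 0) (ρ 0)) * (C (β 0) * X 1 - C (β 1) * X 0) := by
        have e1 : (C (dt (ρ' 0) (ρ 0)) * C (dt (ρ' 0) (ρ 0))⁻¹ : MvPolynomial (Fin 2) K) = 1 := by
          rw [← map_mul, mul_inv_cancel₀ δ0, map_one]
        simp only [lf, β, map_mul, map_neg]
        linear_combination (X 1 * C (ρ' 0 0) - X 0 * C (ρ' 0 1)) * e1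
      rw [e', Fin.prod_univ_succ, Finset.prod_congr rfl fun j _ => lf_eq det (v2 j),
        Finset.prod_mul_distrib, ← map_prod C, e0]
      simp only [GD.FQ, GD.uu, GD.vv, lf, map_mul]
      ring

end Pool.Agent.Lib.MP_557161_ag.HG.TW.P2
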