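import Pool.Agent.Lib.MP_557161_ag.TW.StY

/-!
The Frobenius map of the unramified part of the double cover.
-/

namespace Pool.Agent.Lib.MP_557161_ag.HG.TW.P2

open Pool.Agent.Lib.MP_557161_ag.DL MvPolynomial

namespace XFa

variable {K : Type} [Field K]

/-- The image of the data under an endomorphism of the base field. -/
def tw (G : GD K) (φ : K →+* K) : GD K where
  g := G.g
  h := G.h
  a i := φ (G.a i)
  b j := φ (G.b j)
  c := φ G.c
  g0 := G.g0
  h0 := G.h0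
  two := G.two
  c0 := (map_ne_zero φ).2 G.c0
  a0 i := (map_ne_zero φ).2 (G.a0 i)
  b0 j := (map_ne_zero φ).2 (G.b0 j)
  ai := φ.injective.comp G.ai
  bi := φ.injective.comp G.bi
  ab i j e := G.ab i j (φ.injective e)
  α i := φ (G.α i)
  β i := φ (G.β i)
  c1 := φ G.c1
  c2 := φ G.c2
  det := by
    rw [← map_one φ, ← G.det]
    simp only [dt, map_sub, map_mul]
  cc := by rw [← map_mul, G.cc]

section Tw

variable (G : GD K) (φ : K →+* K)

theorem tw_uu : (tw G φ).uu = map φ G.uu := by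
  simp only [GD.uu, map_sub, map_mul, map_X, map_C]
  rfl

theorem tw_vv : (tw G φ).vv = map φ G.vv := by
  simp only [GD.vv, map_sub, map_mul, map_X, map_C]
  rfl

theorem tw_FP : (tw G φ).FP = map φ G.FP := by
  simp only [GD.FP, tw_uu, tw_vv, map_sub, map_mul, map_prod, map_C]
  rfl

theorem tw_FQ : (tw G φ).FQ = map φ G.FQ := by
  simp only [GD.FQ, tw_uu, tw_vv, map_sub, map_mul, map_prod, map_C]
  rfl

variable {φ} {L : Fld K} {F : L →+* L}

theorem ev (hF : ∀ c, F (algebraMap K L c) = algebraMap K L (φ c)) {σ : Type} (x : σ → L)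
    (P : MvPolynomial σ K) : aeval (fun i => F (x i)) (map φ P) = F (aeval x P) := by
  induction P using MvPolynomial.induction_on with
  | C c => rw [map_C, aeval_C, aeval_C, hF]
  | add f g hf hg => simp only [map_add, hf, hg]
  | mul_X f i hf => simp only [map_mul, map_X, aeval_X, hf]

theorem sec_tw (hF : ∀ c, F (algebraMap K L c) = algebraMap K L (φ c)) (A : xz.X L) :
    (tw G φ).sec L (xz.map F A) = cw.map F (G.sec L A) := by
  have e0 : (fun i => algebraMap K L ((tw G φ).β i) +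
      (xz.map F A).1 0 * algebraMap K L ((tw G φ).α i)) =
      fun i => F (algebraMap K L (G.β i) + A.1 0 * algebraMap K L (G.α i)) :=
    funext fun i => by rw [map_add, map_mul, hF, hF]; rfl
  have e1 : (fun i => algebraMap K L ((tw G φ).α i) +
      (xz.map F A).1 1 * algebraMap K L ((tw G φ).β i)) =
      fun i => F (algebraMap K L (G.α i) + A.1 1 * algebraMap K L (G.β i)) :=
    funext fun i => by rw [map_add, map_mul, hF, hF]; rfl
  rw [GD.sec, e0, e1, tw_FP, tw_FQ, ev hF, ev hF]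
  funext ⟨s, i⟩
  fin_cases s <;> fin_cases i <;>
    first | rfl | exact (map_one F).symm | exact (map_div₀ F _ _).symm

theorem pr_tw (hF : ∀ c, F (algebraMap K L c) = algebraMap K L (φ c)) (w : Vr → L) :
    (tw G φ).pr L (cw.map F w) = xz.map F (G.pr L w) := by
  have e : ∀ s, pc (cw.map F w) s = fun i => F (pc w s i) := fun _ => rfl
  rw [GD.pr, e, e, tw_FP, tw_uu, tw_vv, ev hF, ev hF, ev hF, ev hF, ev hF]
  refine Prod.ext (funext fun i => ?_) ?_
  · fin_cases i <;> exact (map_div₀ F _ _).symm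
  · simp only [GD.pr, map_div₀, map_mul, map_pow]
    rfl

theorem uu_tw (hF : ∀ c, F (algebraMap K L c) = algebraMap K L (φ c)) (A : xz.X L) :
    (tw G φ).UU.mem L (xz.map F A) ↔ G.UU.mem L A := by
  have e : (tw G φ).om L (xz.map F A).1 = F (G.om L A.1) := by
    simp only [TD.om, map_mul, map_prod, map_sub, map_one, hF]
    rfl
  rw [TD.UU_iff, TD.UU_iff, e]
  exact and_congr (map_ne_zero F) ((map_pow F A.2 2).symm ▸ F.injective.eq_iff)

theorem eq_tw (hF : ∀ c, F (algebraMap K L c) = algebraMap K L (φ c)) (w : Vr → L) (r : Fin 2) :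
    aeval (cw.map F w) ((tw G φ).E r) = F (aeval w (G.E r)) := by
  have e : ∀ s, pc (cw.map F w) s = fun i => F (pc w s i) := fun _ => rfl
  fin_cases r
  · refine (eqs0 _ _ _).trans (Eq.trans ?_ (congrArg F (eqs0 _ _ _)).symm)
    simp only [dt, map_sub, map_mul]
    rfl
  · refine (eqs1 _ _ _).trans (Eq.trans ?_ (congrArg F (eqs1 _ _ _)).symm)
    rw [e, e, tw_FP, tw_FQ, ev hF, ev hF]
    simp only [map_sub, map_mul]

theorem cn_tw (hF : ∀ c, F (algebraMap K L c) = algebraMap K L (φ c)) (w : Vr → L) :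
    (tw G φ).Cn L (cw.map F w) ↔ G.Cn L w :=
  and_congr (G.Γ.nz_map F) (forall_congr' fun r => by rw [eq_tw G hF, map_eq_zero])

theorem co_tw (hF : ∀ c, F (algebraMap K L c) = algebraMap K L (φ c)) (w : Vr → L) :
    (tw G φ).Co L (cw.map F w) ↔ G.Co L w := by
  have e : (tw G φ).bd L (cw.map F w) = F (G.bd L w) := by
    rw [GD.bd, GD.bd, tw_FP, map_mul, map_mul, ← ev hF]
    rfl
  exact and_congr (cn_tw G hF w) (by rw [e, map_ne_zero])

theorem cn_eq (hP : map φ G.FP = G.FP) (hQ : map φ G.FQ = G.FQ) (w : Vr → L) :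
    (tw G φ).Cn L w ↔ G.Cn L w := by
  simp only [GD.Cn, GD.E, tw_FP, tw_FQ, hP, hQ]
  rfl

theorem co_eq (hP : map φ G.FP = G.FP) (hQ : map φ G.FQ = G.FQ) (w : Vr → L) :
    (tw G φ).Co L w ↔ G.Co L w := by
  rw [GD.Co, GD.Co, cn_eq G hP hQ, GD.bd, GD.bd, tw_FP, hP]

end Tw

theorem mob (G G' : GD K) {L : Fld K} {F : IntermediateField K L} {A : xz.X L} {i : Fin 2}
    (h : A.1 i ∈ F) : (G'.pr L (G.sec L A)).1 i ∈ F := by
  have a : ∀ {x : Fin 2 → L}, (∀ j, x j ∈ F) → ∀ P : MvPolynomial (Fin 2) K, aeval x P ∈ F :=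
    fun hx P => (Rel.aeval (R := Rel.ofSub F) (fun j => ⟨hx j, rfl⟩) P).1
  have c := F.algebraMap_mem
  fin_cases i
  · have e : ∀ j, pc (G.sec L A) 0 j ∈ F := fun j => add_mem (c _) (mul_mem h (c _))
    exact div_mem (a e _) (a e _)
  · have e : ∀ j, pc (G.sec L A) 1 j ∈ F := fun j => add_mem (c _) (mul_mem h (c _))
    exact div_mem (a e _) (a e _)

theorem frb_pos {G : GD K} (Q : ℕ) {L : Fld K} {A : xz.X L} (m : G.UU.mem L A) :
    G.frb Q L A = G.pr L fun l => G.sec L A l ^ Q := if_pos m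

theorem frb_neg {G : GD K} (Q : ℕ) {L : Fld K} {A : xz.X L} (m : ¬ G.UU.mem L A) :
    G.frb Q L A = A := if_neg m

theorem pw_scl (G : GD K) (Q : ℕ) {L : Fld K} (a : Tr → L) (w : Vr → L) :
    (fun l => G.Γ.scl a w l ^ Q) = G.Γ.scl (a ^ Q) fun l => w l ^ Q :=
  funext fun l => (mul_pow _ _ _).trans (congrArg (· * w l ^ Q) (pow_wt a Q _).symm)

theorem mem_of_pow {Q : ℕ} {M : Fld K} {O : Pl M} {a : M} (h0 : Q ≠ 0) (h : a ^ Q ∈ O.O) :
    a ∈ O.O := by
  rw [← O.O.valuation_le_one_iff] at h ⊢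
  rw [map_pow] at h
  exact (pow_le_one_iff h0).1 h

variable {p : ℕ} {G : GD K} {Q : ℕ}

theorem pow (h : G.Fr p Q) (m : ℕ) : G.Fr p (Q ^ m) := by
  obtain ⟨⟨f, e⟩, h1, h2⟩ := h
  have k : ∀ a : K, a ^ Q = a → a ^ Q ^ m = a := fun a h => by
    induction m with
    | zero => rw [pow_zero, pow_one]
    | succ m ih => rw [pow_succ, pow_mul, ih, h]
  exact ⟨⟨f * m, by rw [e, pow_mul]⟩, fun d => k _ (h1 d), fun d => k _ (h2 d)⟩

variable [Fact p.Prime]

theorem ne (h : G.Fr p Q) : Q ≠ 0 := by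
  obtain ⟨⟨f, rfl⟩, -⟩ := h
  exact pow_ne_zero _ (Fact.out : p.Prime).ne_zero

variable [CharP K p]

theorem hom (h : G.Fr p Q) (L : Fld K) : ∃ F : L →+* L, ⇑F = fun a => a ^ Q := by
  obtain ⟨⟨f, rfl⟩, -⟩ := h
  have : CharP L p := charP_of_injective_algebraMap (algebraMap K L).injective p
  exact ⟨iterateFrobenius L p f, rfl⟩

theorem frob (h : G.Fr p Q) : ∃ φ : K →+* K, map φ G.FP = G.FP ∧ map φ G.FQ = G.FQ ∧
    ∀ L : Fld K, ∃ F : L →+* L, (⇑F = fun a => a ^ Q) ∧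
      ∀ c, F (algebraMap K L c) = algebraMap K L (φ c) := by
  obtain ⟨φ, hφ⟩ : ∃ φ : K →+* K, ∀ a, φ a = a ^ Q := by
    obtain ⟨⟨f, rfl⟩, -⟩ := h
    exact ⟨iterateFrobenius K p f, fun _ => rfl⟩
  refine ⟨φ, ext _ _ fun m => by rw [coeff_map, hφ, h.2.1],
    ext _ _ fun m => by rw [coeff_map, hφ, h.2.2], fun L => ?_⟩
  obtain ⟨F, hF⟩ := hom h L
  exact ⟨F, hF, fun c => by rw [hF, hφ, map_pow]⟩

theorem pw_cn (h : G.Fr p Q) {L : Fld K} {w : Vr → L} :
    G.Cn L (fun l => w l ^ Q) ↔ G.Cn L w := by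
  obtain ⟨φ, hP, hQ, H⟩ := frob h
  obtain ⟨F, e, hF⟩ := H L
  have := cn_tw G hF w
  rwa [cn_eq G hP hQ, e] at this

theorem pw_co (h : G.Fr p Q) {L : Fld K} {w : Vr → L} :
    G.Co L (fun l => w l ^ Q) ↔ G.Co L w := by
  obtain ⟨φ, hP, hQ, H⟩ := frob h
  obtain ⟨F, e, hF⟩ := H L
  have := co_tw G hF w
  rwa [co_eq G hP hQ, e] at this

theorem form (h : G.Fr p Q) {L : Fld K} (x : Fin 2 → L) :
    aeval (fun i => x i ^ Q) G.FP = aeval x G.FP ^ Q ∧
      aeval (fun i => x i ^ Q) G.FQ = aeval x G.FQ ^ Q := by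
  obtain ⟨φ, hP, hQ, H⟩ := frob h
  obtain ⟨F, e, hF⟩ := H L
  have h1 := ev hF x G.FP
  have h2 := ev hF x G.FQ
  rw [hP, e] at h1
  rw [hQ, e] at h2
  exact ⟨h1, h2⟩

theorem pw_sw (h : G.Fr p Q) {L : Fld K} (ε : Bool) (w : Vr → L) :
    (fun l => sw ε w l ^ Q) = sw ε fun l => w l ^ Q := by
  obtain ⟨F, e⟩ := hom h L
  cases ε
  · rfl
  · funext l
    have : F ((-1) ^ gex l * w l) = (-1) ^ gex l * F (w l) := by
      rw [map_mul, map_zpow₀, map_neg, map_one]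
    rwa [e] at this

variable [X1 K]

theorem mem (h : G.Fr p Q) {L : Fld K} {A : xz.X L} :
    G.UU.mem L (G.frb Q L A) ↔ G.UU.mem L A := by
  by_cases m : G.UU.mem L A
  · rw [frb_pos Q m]
    exact iff_of_true (X1.pr_uu ((pw_co h).2 (X1.sec_co m))) m
  · rw [frb_neg Q m]

theorem sec_frb (h : G.Fr p Q) {L : Fld K} {A : xz.X L} (m : G.UU.mem L A) :
    ∃ a, Un a ∧ G.sec L (G.frb Q L A) = G.Γ.scl a fun l => G.sec L A l ^ Q :=
  ⟨_, frb_pos Q m ▸ X1.sec_pr ((pw_co h).2 (X1.sec_co m))⟩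

omit [Fact p.Prime] [CharP K p] in
theorem frb_pr (Q : ℕ) {L : Fld K} {w : Vr → L} (m : G.Co L w) :
    G.frb Q L (G.pr L w) = G.pr L fun l => w l ^ Q := by
  obtain ⟨h1, h2⟩ := X1.sec_pr m
  rw [frb_pos Q (X1.pr_uu m), h2, pw_scl, X1.pr_scl G _ (h1.pow Q)]

/-- Frobenius factors through the conjugate surface. -/
theorem key (h : G.Fr p Q) : ∃ G' : GD K, (∀ (L : Fld K) w, G'.Co L w ↔ G.Co L w) ∧
    (∀ (L : Fld K) A, G'.UU.mem L (xz.map (· ^ Q) A) ↔ G.UU.mem L A) ∧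
    ∀ (L : Fld K) A, G.UU.mem L A → G.frb Q L A = G.pr L (G'.sec L (xz.map (· ^ Q) A)) ∧
      xz.map (· ^ Q) A = G'.pr L (G.sec L (G.frb Q L A)) := by
  obtain ⟨φ, hP, hQ, H⟩ := frob h
  refine ⟨tw G φ, fun L w => co_eq G hP hQ w, fun L A => ?_, fun L A m => ?_⟩
  · obtain ⟨F, e, hF⟩ := H L
    have := uu_tw G hF A
    rwa [e] at this
  · obtain ⟨F, e, hF⟩ := H L
    obtain ⟨a, ha, h1⟩ := sec_frb h m
    have h2 := sec_tw G hF A
    have h3 := pr_tw G hF (G.sec L A)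
    rw [e] at h2 h3
    rw [X1.pr_sec m] at h3
    exact ⟨by rw [h2, frb_pos Q m],
      by rw [h1]; exact h3.symm.trans (X1.pr_scl (tw G φ) _ ha).symm⟩

theorem mp (h : G.Fr p Q) : Mp G.UU G.UU (G.frb Q) where
  reg M L R A A' m m' e := by
    rw [frb_pos Q m, frb_pos Q m']
    exact (X1.pr_rel R ((pw_co h).2 (X1.sec_co m')) fun l => Rel.pow (X1.sec_rel R m' e l) Q).1
  mem _ _ m := (mem h).2 m

theorem pro (h : G.Fr p Q) : Pro G.UU G.UU (G.frb Q) := fun M O x z _ m m' e => by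
  obtain ⟨G', h1, h2, h3⟩ := key h
  have c := (h1 _ _).2 (X1.sec_co m')
  have r := (X1.pr_rel _ c (X1.sec_rel _ m' e)).1
  rw [← (h3 M x m).2] at r
  have l : xz.lift (Rel.ofPl O).r x (xz.map O.rd x) :=
    ⟨fun i => ⟨mem_of_pow (ne h) (r.1 i).1, rfl⟩, mem_of_pow (ne h) r.2.1, rfl⟩
  have l' : xz.lift (Rel.ofPl O).r (xz.map (· ^ Q) x) (xz.map (· ^ Q) (xz.map O.rd x)) :=
    ⟨fun i => Rel.pow (l.1 i) Q, Rel.pow (R := Rel.ofPl O) l.2 Q⟩
  exact ⟨_, (h2 _ _).1 (Cd.lift_eq r l' rfl ▸ X1.pr_uu c), l⟩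

theorem srj (h : G.Fr p Q) : Srj G.UU G.UU (G.frb Q) := fun L _ z m => by
  choose r hr using fun a : L => IsAlgClosed.exists_pow_nat_eq a (Nat.pos_of_ne_zero (ne h))
  have e : (fun l => r (G.sec L z l) ^ Q) = G.sec L z := funext fun l => hr _
  have c : G.Co L fun l => r (G.sec L z l) := (pw_co h).1 (e.symm ▸ X1.sec_co m)
  exact ⟨_, X1.pr_uu c, by rw [frb_pr Q c, e, X1.pr_sec m]⟩

theorem inj (h : G.Fr p Q) (L : Fld K) : Function.Injective (G.frb Q L) := fun A B e => by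
  have c : G.UU.mem L A ↔ G.UU.mem L B := by rw [← mem h, e, mem h]
  by_cases m : G.UU.mem L A
  · obtain ⟨G', -, -, h3⟩ := key h
    obtain ⟨F, hF⟩ := hom h L
    refine xz.map_inj (hF ▸ F.injective : Function.Injective fun a : L => a ^ Q) ?_
    rw [(h3 L A m).2, (h3 L B (c.1 m)).2, e]
  · rwa [frb_neg Q m, frb_neg Q (c.not.1 m)] at e

end XFa

open XFa in
theorem XF_thm {K : Type} [Field K] {p : ℕ} [Fact p.Prime] [CharP K p] [X1 K] [X2 K] :
    XF K p where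
  pow := XFa.pow
  gg_cn h _ ε _ := (X2.sw_cn ε).trans (pw_cn h)
  gg_co h _ ε _ := (X2.sw_co ε).trans (pw_co h)
  gg_scl G Q ε _ a w := (congrArg (sw ε) (pw_scl G Q a w)).trans (X2.sw_scl G ε _ _)
  gg_rel Q ε _ _ R _ _ e := X2.sw_rel R ε fun l => Rel.pow (e l) Q
  gg_map Q ε _ _ α w :=
    (X2.sw_map α ε _).trans (congrArg (sw ε) (funext fun l => map_pow α (w l) Q))
  form h _ x := XFa.form h x
  mem h := XFa.mem h
  map G Q L M α A := by
    by_cases m : G.UU.mem L A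
    · rw [frb_pos Q m, frb_pos Q ((G.UU.map_iff α A).2 m), X1.pr_map, ← X1.sec_map]
      exact congrArg _ (funext fun l => map_pow α _ Q)
    · rw [frb_neg Q m, frb_neg Q fun c => m ((G.UU.map_iff α A).1 c)]
  one G L A := by
    by_cases m : G.UU.mem L A
    · rw [frb_pos 1 m]
      simp only [pow_one]
      exact X1.pr_sec m
    · exact frb_neg 1 m
  mul {G Q Q'} _ h' L A := by
    by_cases m : G.UU.mem L A
    · rw [frb_pos Q' m, frb_pr Q ((pw_co h').2 (X1.sec_co m)), frb_pos _ m]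
      simp only [← pow_mul, mul_comm Q']
    · rw [frb_neg Q' m, frb_neg Q m, frb_neg _ m]
  sg {G Q} h ε L A := by
    by_cases m : G.UU.mem L A
    · rw [frb_pos Q m, frb_pos Q ((X2.sg_uu ε).2 m), X2.sec_sg, pw_sw h, X2.pr_sw]
    · rw [frb_neg Q m, frb_neg Q fun c => m ((X2.sg_uu ε).1 c)]
  sec {G Q} h ε L A m := by
    obtain ⟨a, ha, e⟩ := sec_frb h m
    exact ⟨a, ha, by rw [X2.sec_sg, e, X2.sw_scl]; rfl⟩
  pr {G Q} _ ε L w m := by
    rw [frb_pr Q m]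
    exact X2.pr_sw G ε _
  mob {G Q} h L A m F i := by
    obtain ⟨G', -, -, h3⟩ := key h
    obtain ⟨h1, h2⟩ := h3 L A m
    refine ⟨fun c => ?_, fun c => h1.symm ▸ XFa.mob G' G (A := xz.map (· ^ Q) A) c⟩
    have := XFa.mob G G' c
    rwa [← h2] at this
  all {G Q} h L A m F := by
    obtain ⟨G', -, -, h3⟩ := key h
    obtain ⟨h1, h2⟩ := h3 L A m
    refine ⟨fun c i => ?_, fun c => ?_⟩
    · have := (X1.pr_mem G' (X1.sec_mem G c)).1 i
      rwa [← h2, xz.co_map] at this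
    · rw [h1]
      exact (X1.pr_mem G (X1.sec_mem G' fun i => by rw [xz.co_map]; exact c i)).1
  mp h := ⟨XFa.mp h, pro h, srj h, inj h⟩

end Pool.Agent.Lib.MP_557161_ag.HG.TW.P2
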