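import Pool.Agent.Lib.MP_557161_ag.TW.StY
import Pool.Agent.Lib.MP_557161_ag.HN.XI
import Pool.Agent.Lib.MP_557161_ag.DL.Cmp

/-!
The fixed points and the graph of Frobenius on the surface.
-/

namespace Pool.Agent.Lib.MP_557161_ag.HG.TW.P2

open Pool.Agent.Lib.MP_557161_ag.DL MvPolynomial

namespace XIa

variable {K : Type} [Field K] [XU] (G : GD K)

/-- The line of a point. -/
def ln (L : Fld K) (w : Vr → L) : Submodule L (G.σ → L) := Submodule.span L {G.ν w}

lemma nu_gg (Q : ℕ) {L : Fld K} (w : Vr → L) : G.ν (gg Q false w) = fun s => G.ν w s ^ Q :=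
  XU.pow _ _ Q w

lemma fx_ln (Q : ℕ) : G.fx Q false =
    Nat.card {E : Submodule (Fld.base K) (G.σ → Fld.base K) // ∃ w, G.Cn (.base K) w ∧
      E = ln G (.base K) w ∧ E = ln G (.base K) (gg Q false w)} := by
  refine HN.XIn.card_im _ (fun w => gg Q false w) _ _ fun w w' h => ⟨fun e => ?_, fun e => ?_⟩
  · obtain ⟨a, ha, rfl⟩ := (G.Γ.pt_eq h.1).1 e
    rw [ln, ln, GD.ν, GD.ν, XU.scl _ _ w ha]
    exact (Submodule.span_singleton_smul_eq (wt_ne ha _).isUnit _).symm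
  · obtain ⟨c, hc⟩ := Submodule.span_singleton_eq_span_singleton.1 e
    exact XU.inj h.1 c.ne_zero hc.symm

lemma fix [XL K] [XJ] (Y : Sm K G.σ) (hY : Y.I = G.I) (Q : ℕ) : Y.fixed Q = G.fx Q false := by
  have hI : Homog G.I := XJ.hom G.homP G.homQ
  rw [Sm.fixed, fx_ln G, hY]
  refine Nat.card_congr (Equiv.ofBijective (fun x => ⟨x.1.submodule, ?_⟩) ⟨fun x x' h => ?_, ?_⟩)
  · obtain ⟨x, h1, c, h2⟩ := x
    have h5 := x.rep_nonzero
    obtain ⟨w, h3, h4⟩ := XL.srj (L := .base K) h1 h5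
    refine ⟨w, h3, ?_, ?_⟩
    · rw [Projectivization.submodule_eq, ← h4]
      rfl
    · show x.submodule = Submodule.span K {G.ν (gg Q false w)}
      rw [nu_gg, h4]
      refine (Projectivization.submodule_eq x).trans (Eq.trans ?_
        (congrArg (fun v => Submodule.span K {v}) h2.symm))
      refine (Submodule.span_singleton_smul_eq (Ne.isUnit fun h0 => h5 (funext fun s => ?_)) _).symm
      have := congrFun h2 s
      rw [h0, zero_smul] at this
      exact (pow_eq_zero_iff'.1 this).1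
  · exact Subtype.ext (Projectivization.submodule_injective (congrArg Subtype.val h))
  · rintro ⟨E, w, h1, h3, h4⟩
    have hn : G.ν w ≠ 0 := XU.nz.2 h1.1
    obtain ⟨a, ha⟩ := Projectivization.exists_smul_eq_mk_rep K (G.ν w) hn
    obtain ⟨c, hc⟩ := Submodule.span_singleton_eq_span_singleton.1 (h3.symm.trans h4)
    refine ⟨⟨Projectivization.mk K (G.ν w) hn, ?_, (a : K) ^ Q * c / a, ?_⟩,
      Subtype.ext ((Projectivization.submodule_mk _ _).trans h3.symm)⟩
    · rw [← ha]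
      exact hI.smul_mem (XL.zl h1) a
    · rw [← ha]
      funext s
      have h5 : (c : K) * G.ν w s = G.ν w s ^ Q :=
        (congrFun hc s).trans (congrFun (nu_gg G Q w) s)
      show ((a : K) * G.ν w s) ^ Q = (a : K) ^ Q * c / a * ((a : K) * G.ν w s)
      rw [mul_pow, ← h5]
      field_simp

omit [XU] in
lemma ev_eq {σ : Type} {L : Fld K} (Q : ℕ) (v : σ → L) (f : Bridge.SS K σ) :
    Bridge.ev (fun s => v s ^ Q) v f = aeval v ((pbG K σ Q).φ f) := by
  rw [← AlgHom.comp_apply, comp_aeval, Bridge.ev]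
  refine congrArg (fun v => aeval v f) (funext ?_)
  rintro (s | s) <;> simp [pbG]

lemma gr [Base K] {p : ℕ} [X1 K] [XF K p] [XL K] [XN K] [XJ] (Y : Sm K G.σ) (hY : Y.I = G.I)
    (Q : ℕ) (hQ : G.Fr p Q) {M : Fld K} {α : Fld.base K →ₐ[K] M} {y : xz.X M}
    (hy : G.GenU 0 α y) :
    Y.grC Q = Finsupp.single (Bridge.PP (G.ν (G.sec M (G.frb Q M y))) (G.ν (G.sec M y))) 1 := by
  have hp : Y.I.IsPrime := hY ▸ XJ.prime _ _ (X1.ne G).1 (X1.ne G).2
  have hc : G.Cn M (G.sec M y) := (X1.sec_co hy.mem).1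
  have hz : G.ν (G.sec M y) ∈ zeroLocus M Y.I := hY ▸ XL.zl hc
  have e : Bridge.PP (K := K) (G.ν (G.sec M (G.frb Q M y))) (G.ν (G.sec M y)) =
      Bridge.PP (fun s => G.ν (G.sec M y) s ^ Q) (G.ν (G.sec M y)) := by
    obtain ⟨a, ha, h⟩ := XF.sec hQ false hy.mem
    have h' : G.sec M (G.frb Q M y) = _ := h
    rw [← Bridge.PP_smul (wt_ne ha (wν G.g G.h)) one_ne_zero (fun s => G.ν (G.sec M y) s ^ Q),
      one_smul, ← nu_gg, h', GD.ν, XU.scl _ _ _ ha]
  rw [e]
  have hg : Y.gr Q = (Bridge.PP (fun s => G.ν (G.sec M y) s ^ Q) (G.ν (G.sec M y))).asIdeal := by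
    refine le_antisymm (Bridge.le_hom (Y.gr_hom Q) fun f hf => HN.XIn.ev_gr Y Q hz hf) fun f hf =>
      Bridge.mem_of_comp (w := w2 G.σ G.σ) fun γ => ?_
    have h1 := weightedHomogeneousComponent_isWeightedHomogeneous (w := w2 G.σ G.σ) γ f
    rw [Y.mem_gr_iff hp.isRadical, hY]
    intro c v hv
    have h2 := XN.ker hy ((pbG K G.σ Q).map_hom h1)
      ((ev_eq Q _ _).symm.trans (Bridge.mem_hom.1 hf γ))
    have h3 := Bridge.ev_smul (L := .base K) c 1 (fun s => v s ^ Q) v h1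
    rw [ev_eq (L := .base K), hv _ h2, mul_zero, one_smul] at h3
    exact h3
  rw [Y.grC_eq hp.isRadical (fun a ha => ?_) Q
    {Bridge.PP (fun s => G.ν (G.sec M y) s ^ Q) (G.ν (G.sec M y))} fun z => ?_,
    Finset.sum_singleton]
  · rw [Ideal.minimalPrimes_eq_subsingleton_self, Set.mem_singleton_iff] at ha
    obtain ⟨s, hs⟩ := Function.ne_iff.1 (XU.nz.2 hc.1)
    refine ⟨s, fun h => hs ?_⟩
    have h1 := hz _ (ha ▸ h)
    rwa [aeval_X] at h1
  · rw [hg, Ideal.minimalPrimes_eq_subsingleton_self, Finset.mem_singleton, Set.mem_singleton_iff,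
      PrimeSpectrum.ext_iff]

end XIa

variable {K : Type} [Field K] [Base K] {p : ℕ}

theorem XI_thm [XU] [X1 K] [XF K p] [XL K] [XN K] [XJ] : XI K p where
  fix G Y hY Q _ := XIa.fix G Y hY Q
  gr G Y hY Q hQ _ _ _ hy := XIa.gr G Y hY Q hQ hy

end Pool.Agent.Lib.MP_557161_ag.HG.TW.P2
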