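import Pool.Agent.Lib.MP_557161_ag.TW.StY

/-!
The zero locus of the ideal of the surface is the image of the torsor.
-/

namespace Pool.Agent.Lib.MP_557161_ag.HG.TW.P2

open Pool.Agent.Lib.MP_557161_ag.DL MvPolynomial

namespace XLa

lemma aeval_smul {σ k L : Type} [Field k] [Field L] [Algebra k L] {f : MvPolynomial σ k} {n : ℕ}
    (hf : f.IsHomogeneous n) (c : L) (N : σ → L) : aeval (c • N) f = c ^ n * aeval N f := by
  induction hf using IsWeightedHomogeneous.induction_on with
  | zero => simp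
  | add p q _ _ hp hq => rw [map_add, map_add, hp, hq, mul_add]
  | monomial d r hd =>
    rw [aeval_monomial, aeval_monomial, ← hd, Finsupp.weight_apply, Finsupp.sum, Finsupp.prod,
      Finsupp.prod, ← Finset.prod_pow_eq_pow_sum]
    simp only [Pi.smul_apply, smul_eq_mul, mul_pow, Finset.prod_mul_distrib, Pi.one_apply, mul_one]
    ring

lemma smul_mem {σ k L : Type} [Field k] [Field L] [Algebra k L] {I : Ideal (MvPolynomial σ k)}
    (hI : Homog I) (c : L) {N : σ → L} (h : N ∈ zeroLocus L I) : c • N ∈ zeroLocus L I := by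
  intro f hf
  rw [← sum_homogeneousComponent f, map_sum]
  refine Finset.sum_eq_zero fun n _ => ?_
  rw [aeval_smul (homogeneousComponent_isHomogeneous n f), h _ (hI f hf n), mul_zero]

lemma mon_smul {R : Type} [CommRing R] {g h : ℕ} (x y t s : Fin 2 → R) (a b : R) :
    (mon x y (a • t) (b • s) : Ix g h → R) = (a * b) • mon x y t s := by
  funext ⟨i, j, k, l⟩
  rcases i with i | i <;> rcases j with j | j <;> simp [mon] <;> ring

lemma map_mon {R S : Type} [CommRing R] [CommRing S] (f : R →+* S) {g h : ℕ}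
    (x y t s : Fin 2 → R) (i : Ix g h) : f (mon x y t s i) =
      mon (fun l => f (x l)) (fun l => f (y l)) (fun l => f (t l)) (fun l => f (s l)) i := by
  obtain ⟨i, j, k, l⟩ := i
  rcases i with i | i <;> rcases j with j | j <;> simp [mon]

/-- Points of the double cover lie in the zero locus. -/
lemma cover {k L : Type} [Field k] [Field L] [Algebra k L] {g h : ℕ}
    (P Q : MvPolynomial (Fin 2) k) (x y : Fin 2 → L) (z : L)
    (hz : z ^ 2 = dt x y * aeval x P * aeval y Q) :
    (mon x y ![aeval x P, z] ![aeval y Q, z] : Ix g h → L) ∈ zeroLocus L (twI g h P Q) := by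
  intro F hF
  let ev : Rz k →ₐ[k] L := aeval fun o => o.elim z (Sum.elim x y)
  have ex : ∀ i, ev (vx i) = x i := fun i => by simp [ev, vx]
  have ey : ∀ i, ev (vy i) = y i := fun i => by simp [ev, vy]
  have ez : ev (X none) = z := by simp [ev]
  have eP : ev (aeval vx P) = aeval x P := by
    rw [← AlgHom.comp_apply, comp_aeval]; simp only [ex]
  have eQ : ev (aeval vy Q) = aeval y Q := by
    rw [← AlgHom.comp_apply, comp_aeval]; simp only [ey]
  have h0 : ev (twF P Q) = 0 := by
    simp only [twF, map_sub, map_mul, map_pow, ex, ey, ez, eP, eQ, hz, dt, sub_self]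
  obtain ⟨u, hu⟩ := Ideal.mem_span_singleton'.1 (Ideal.mem_comap.1 hF)
  have h1 : ev (aeval (twN g h P Q) F) = 0 := by rw [← hu, map_mul, h0, mul_zero]
  rw [← AlgHom.comp_apply, comp_aeval] at h1
  convert h1 using 3
  funext i
  refine Eq.symm ((map_mon (ev : Rz k →+* L) _ _ _ _ i).trans ?_)
  congr 1
  · exact funext ex
  · exact funext ey
  · funext l
    fin_cases l
    exacts [eP, ez]
  · funext l
    fin_cases l
    exacts [eQ, ez]

variable {K : Type} [Field K] [X1 K] [XJ]

lemma co {G : GD K} {L : Fld K} {w : Vr → L} (hw : G.Co L w) : G.ν w ∈ zeroLocus L G.I := by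
  obtain ⟨h1, hd, hP, hQ, -⟩ := X1.co hw
  have e0 := hw.1.2 0
  have e1 := hw.1.2 1
  rw [eqs0, sub_eq_zero] at e0
  rw [eqs1, sub_eq_zero] at e1
  have t0 := (h1 0).1
  have s0 := (h1 0).2
  have e2 : w (3, 1) = w (2, 1) * w (3, 0) * aeval (pc w 0) G.FP /
      (w (2, 0) * aeval (pc w 1) G.FQ) := by
    rw [e1]; field_simp
  have e3 : w (2, 1) ^ 2 * aeval (pc w 0) G.FP =
      dt (pc w 0) (pc w 1) * w (2, 0) ^ 2 * aeval (pc w 1) G.FQ := by
    refine mul_left_cancel₀ s0 ?_
    linear_combination w (2, 1) * e1 + w (2, 0) * aeval (pc w 1) G.FQ * e0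
  have h2 := smul_mem (XJ.hom G.homP G.homQ)
    (w (2, 0) / aeval (pc w 0) G.FP * (w (3, 0) / aeval (pc w 1) G.FQ))
    (cover G.FP G.FQ (pc w 0) (pc w 1) (aeval (pc w 0) G.FP * w (2, 1) / w (2, 0)) (by
      field_simp
      linear_combination e3))
  rw [← mon_smul] at h2
  convert h2 using 1
  show mon _ _ (pc w 2) (pc w 3) = _
  congr 1
  · funext l
    fin_cases l
    · show w (2, 0) = _ * aeval (pc w 0) G.FP
      field_simp
    · show w (2, 1) = _ * (_ / _)
      field_simp
  · funext l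
    fin_cases l
    · show w (3, 0) = _ * aeval (pc w 1) G.FQ
      field_simp
    · show w (3, 1) = _ * (_ / _)
      rw [e2]
      field_simp

end XLa

theorem XL_thm {K : Type} [Field K] [X1 K] [XU] [XJ] [DS K] : XL K where
  zl {G L w} hw F hF := by
    have e : ∀ (L : Fld K) (w : Vr → L),
        aeval w (aeval (nu G.g G.h (X : Vr → MvPolynomial Vr K)) F) = aeval (G.ν w) F :=
      fun L w => by
        rw [← AlgHom.comp_apply, comp_aeval]
        congr 2
        refine (XU.map (aeval w : MvPolynomial Vr K →ₐ[K] L).toRingHom G.g G.h X).trans ?_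
        congr 1
        funext l
        simp
    rw [← e]
    exact DS.den G _ (fun L w hw => (e L w).trans (XLa.co hw F hF)) L w hw
  srj {G L N} hN h0 := by
    obtain ⟨s, hs⟩ := Function.ne_iff.1 h0
    replace hs : N s ≠ 0 := hs
    have e1 : ((N s)⁻¹ • N) s = 1 := inv_mul_cancel₀ hs
    obtain ⟨h1, h2, -⟩ := XU.ring G.homP G.homQ s ((N s)⁻¹ • N)
      (XLa.smul_mem (XJ.hom G.homP G.homQ) _ hN) e1
    have h3 : G.Cn L (unp s ((N s)⁻¹ • N)) :=
      ⟨XU.nz.1 (h2.trans_ne fun e => one_ne_zero (e1.symm.trans (congrFun e s))), h1⟩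
    have ha : Un (![1, 1, N s, 1] : Tr → L) := fun r => by fin_cases r <;> simp [hs]
    refine ⟨_, G.CC.inv L _ _ ha h3, (XU.scl _ _ _ ha).trans ?_⟩
    rw [h2, smul_smul]
    simp [wt, wν, Fin.prod_univ_four, hs]

end Pool.Agent.Lib.MP_557161_ag.HG.TW.P2
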