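import Pool.Agent.Lib.MP_557161_ag.TW.StY
import Pool.Agent.Lib.MP_60ec62_ag.DL.Dim

/-!
The dimension of the cone over the surface.
-/

namespace Pool.Agent.Lib.MP_557161_ag.HG.TW.P2

open Pool.Agent.Lib.MP_557161_ag.DL MvPolynomial

namespace XMa

variable {k : Type} [Field k] {g h : ℕ} {P Q : MvPolynomial (Fin 2) k} {R S : Type} [CommRing R]
  [Algebra k R] [CommRing S] [Algebra k S]

theorem aeval_smul {σ : Type} {f : MvPolynomial σ k} {n : ℕ} (hf : f.IsHomogeneous n) (c : R)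
    (x : σ → R) : aeval (fun i => c * x i) f = c ^ n * aeval x f := by
  rw [aeval_def, aeval_def, eval₂_eq, eval₂_eq, Finset.mul_sum]
  refine Finset.sum_congr rfl fun d hd => ?_
  simp only [mul_pow, Finset.prod_mul_distrib, Finset.prod_pow_eq_pow_sum]
  rw [← hf.degree_eq_sum_deg_support hd]
  ring

theorem map_ae (φ : R →ₐ[k] S) (x : Fin 2 → R) (P : MvPolynomial (Fin 2) k) :
    φ (aeval x P) = aeval (fun i => φ (x i)) P := by
  rw [← AlgHom.comp_apply, comp_aeval]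

variable (P Q) in
/-- The coordinates of the point `(x, y, z)`. -/
noncomputable def nn (x y : Fin 2 → R) (z : R) : Ix g h → R :=
  mon x y ![aeval x P, z] ![aeval y Q, z]

variable (P Q) in
/-- The branch function. -/
noncomputable def ww (x y : Fin 2 → R) : R := (x 0 * y 1 - x 1 * y 0) * aeval x P * aeval y Q

variable (P Q) in
/-- The squares of the coordinates. -/
noncomputable def sq (x y : Fin 2 → R) : Ix g h → R :=
  mon (fun i => x i ^ 2) (fun i => y i ^ 2) ![aeval x P ^ 2, ww P Q x y] ![aeval y Q ^ 2, ww P Q x y]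

theorem map_nn (φ : R →ₐ[k] S) (x y : Fin 2 → R) (z : R) (l : Ix g h) :
    φ (nn P Q x y z l) = nn P Q (fun i => φ (x i)) (fun i => φ (y i)) (φ z) l := by
  obtain ⟨a | a, b | b, i, j⟩ := l <;> simp [nn, mon, map_ae]

theorem map_sq (φ : R →ₐ[k] S) (x y : Fin 2 → R) (l : Ix g h) :
    φ (sq P Q x y l) = sq P Q (fun i => φ (x i)) (fun i => φ (y i)) l := by
  obtain ⟨a | a, b | b, i, j⟩ := l <;> simp [sq, ww, mon, map_ae]

theorem nn_sq {x y : Fin 2 → R} {z : R} (hz : z ^ 2 = ww P Q x y) (l : Ix g h) :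
    nn P Q x y z l ^ 2 = sq P Q x y l := by
  obtain ⟨a | a, b | b, i, j⟩ := l <;> simp [nn, sq, mon, ← hz, mul_pow, Finset.prod_pow]

theorem sq_scl (hP : P.IsHomogeneous (2 * g + 1)) (hQ : Q.IsHomogeneous (2 * h + 1)) (c e : R)
    (x y : Fin 2 → R) (l : Ix g h) : sq P Q (fun i => c * x i) (fun i => e * y i) l =
      c ^ (6 * g + 6) * e ^ (6 * h + 6) * sq P Q x y l := by
  obtain ⟨a | a, b | b, i, j⟩ := l <;>
    simp only [sq, ww, mon, aeval_smul hP, aeval_smul hQ, Sum.elim_inl, Sum.elim_inr, mul_pow,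
      Finset.prod_mul_distrib, Finset.prod_const, Finset.card_univ, Fintype.card_fin,
      Matrix.cons_val_zero, Matrix.cons_val_one] <;> ring

/-- Three of the indices. -/
def ix (g h : ℕ) (i j : Fin 2) : Ix g h := (.inr fun _ => 0, .inr fun _ => 0, i, j)

theorem nn_ix (x y : Fin 2 → R) (z : R) (i j : Fin 2) : nn P Q x y z (ix g h i j) =
    aeval x P * y 0 ^ (h + 1) * (aeval y Q * x 0 ^ (g + 1)) * x i * y j := by
  simp [nn, mon, ix]

theorem sq_ix (x y : Fin 2 → R) : sq P Q x y (ix g h 0 0) =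
    (aeval x P * y 0 ^ (h + 1) * (aeval y Q * x 0 ^ (g + 1)) * x 0 * y 0) ^ 2 := by
  simp only [sq, mon, ix, Sum.elim_inr, Finset.prod_const, Finset.card_univ, Fintype.card_fin,
    Matrix.cons_val_zero]
  ring

theorem aeval_twN (x y : Fin 2 → R) (z : R) (f : MvPolynomial (Ix g h) k) :
    aeval (fun s : Option (Fin 2 ⊕ Fin 2) => s.elim z (Sum.elim x y)) (aeval (twN g h P Q) f) =
      aeval (nn P Q x y z) f := by
  rw [← AlgHom.comp_apply, comp_aeval]
  congr 2
  funext l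
  refine (map_nn _ vx vy (X none) l).trans ?_
  simp [vx, vy]

theorem nn_mem {x y : Fin 2 → R} {z : R} (hz : z ^ 2 = ww P Q x y) {f} (hf : f ∈ twI g h P Q) :
    aeval (nn P Q x y z) f = 0 := by
  obtain ⟨a, ha⟩ := Ideal.mem_span_singleton'.1 (Ideal.mem_comap.1 hf)
  rw [← aeval_twN, ← ha, map_mul]
  refine mul_eq_zero_of_right _ ?_
  simp only [twF, map_sub, map_mul, map_pow, map_ae, vx, vy, aeval_X, Option.elim_none,
    Option.elim_some, Sum.elim_inl, Sum.elim_inr, hz, ww]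
  exact sub_self _

theorem ae_ne (hP : P ≠ 0) (i : Fin 3) (hi : i ≠ 0) :
    aeval (![X 0, X i] : Fin 2 → MvPolynomial (Fin 3) k) P ≠ 0 := by
  have e : (![X 0, X i] : Fin 2 → MvPolynomial (Fin 3) k) = X ∘ ![0, i] :=
    funext fun j => by fin_cases j <;> rfl
  rw [e, ← rename_eq_aeval]
  refine fun h0 => hP (rename_injective ![0, i] ?_ (by rw [h0, map_zero]))
  intro a b hab
  fin_cases a <;> fin_cases b <;> simp_all [eq_comm]

variable (g h P Q) in
/-- A transcendence basis. -/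
noncomputable def psi : MvPolynomial (Fin 3) k →ₐ[k] MvPolynomial (Ix g h) k ⧸ twI g h P Q :=
  aeval fun i => Ideal.Quotient.mk _ (X (![ix g h 0 0, ix g h 1 0, ix g h 0 1] i))

theorem psi_inj (hP : P.IsHomogeneous (2 * g + 1)) (hP0 : P ≠ 0) (hQ0 : Q ≠ 0) :
    Function.Injective (psi g h P Q) := by
  let Ω := AlgebraicClosure (FractionRing (MvPolynomial (Fin 3) k))
  let ι : MvPolynomial (Fin 3) k →ₐ[k] Ω := IsScalarTower.toAlgHom k _ Ω
  have hι : Function.Injective ι :=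
    (algebraMap (FractionRing (MvPolynomial (Fin 3) k)) Ω).injective.comp
      (IsFractionRing.injective (MvPolynomial (Fin 3) k) _)
  have hne : ∀ {f}, f ≠ 0 → ι f ≠ 0 := fun hf e => hf (hι (by rw [e, map_zero]))
  let x : Fin 2 → Ω := fun i => ι (![X 0, X 1] i)
  let y : Fin 2 → Ω := fun i => ι (![X 0, X 2] i)
  have h1 : aeval x P ≠ 0 := by rw [← map_ae]; exact hne (ae_ne hP0 1 (by decide))
  have h2 : aeval y Q ≠ 0 := by rw [← map_ae]; exact hne (ae_ne hQ0 2 (by decide))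
  have h3 : ι (X 0) ≠ 0 := hne (X_ne_zero 0)
  obtain ⟨c, hc⟩ := IsAlgClosed.exists_pow_nat_eq
    ((aeval x P * aeval y Q * ι (X 0) ^ (g + h + 3))⁻¹) (n := 3 * g + 3) (by omega)
  have h4 : c ^ (3 * g + 3) * (aeval x P * aeval y Q * ι (X 0) ^ (g + h + 3)) = 1 := by
    rw [hc]
    exact inv_mul_cancel₀ (mul_ne_zero (mul_ne_zero h1 h2) (pow_ne_zero _ h3))
  obtain ⟨z, hz⟩ := IsAlgClosed.exists_pow_nat_eq (ww P Q (fun i => c * x i) y) (n := 2) (by omega)
  let χ : (MvPolynomial (Ix g h) k ⧸ twI g h P Q) →ₐ[k] Ω :=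
    Ideal.Quotient.liftₐ _ (aeval (nn P Q (fun i => c * x i) y z)) fun f hf => nn_mem hz hf
  have e : χ.comp (psi g h P Q) = ι := algHom_ext fun i => by
    have e1 : ∀ l, χ (Ideal.Quotient.mk _ (X l)) = nn P Q (fun i => c * x i) y z l := fun l =>
      aeval_X _ l
    rw [AlgHom.comp_apply, psi, aeval_X, e1]
    fin_cases i
    · refine (nn_ix _ _ _ 0 0).trans ?_
      rw [aeval_smul hP]
      change _ * ι (X 0) ^ _ * (_ * (c * ι (X 0)) ^ _) * (c * ι (X 0)) * ι (X 0) = ι (X 0)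
      linear_combination ι (X 0) * h4
    · refine (nn_ix _ _ _ 1 0).trans ?_
      rw [aeval_smul hP]
      change _ * ι (X 0) ^ _ * (_ * (c * ι (X 0)) ^ _) * (c * ι (X 1)) * ι (X 0) = ι (X 1)
      linear_combination ι (X 1) * h4
    · refine (nn_ix _ _ _ 0 1).trans ?_
      rw [aeval_smul hP]
      change _ * ι (X 0) ^ _ * (_ * (c * ι (X 0)) ^ _) * (c * ι (X 0)) * ι (X 2) = ι (X 2)
      linear_combination ι (X 2) * h4
  exact Function.Injective.of_comp (f := χ) (by rw [← AlgHom.coe_comp, e]; exact hι)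

theorem psi_rel (hP : P.IsHomogeneous (2 * g + 1)) (hQ : Q.IsHomogeneous (2 * h + 1))
    (l : Ix g h) : psi g h P Q (sq P Q ![X 0, X 1] ![X 0, X 2] (ix g h 0 0)) *
      Ideal.Quotient.mk _ (X l) ^ 2 = psi g h P Q (X 0 ^ 2 * sq P Q ![X 0, X 1] ![X 0, X 2] l) := by
  let J : Ideal (Rz k) := Ideal.span {twF P Q}
  let π : Rz k →ₐ[k] Rz k ⧸ J := Ideal.Quotient.mkₐ k J
  let ι : (MvPolynomial (Ix g h) k ⧸ twI g h P Q) →ₐ[k] Rz k ⧸ J :=
    Ideal.quotientMapₐ J (aeval (twN g h P Q)) le_rfl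
  have hι : Function.Injective ι := Ideal.quotientMap_injective
  let x : Fin 2 → Rz k ⧸ J := fun i => π (vx i)
  let y : Fin 2 → Rz k ⧸ J := fun i => π (vy i)
  have hz : π (X none) ^ 2 = ww P Q x y := by
    have h0 : π (twF P Q) = 0 := Ideal.Quotient.eq_zero_iff_mem.2 (Ideal.subset_span rfl)
    simp only [twF, map_sub, map_mul, map_pow, map_ae] at h0
    exact sub_eq_zero.1 h0
  have e1 : ∀ l, ι (Ideal.Quotient.mk _ (X l)) = nn P Q x y (π (X none)) l := fun l => by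
    change π (aeval (twN g h P Q) (X l)) = _
    rw [aeval_X]
    exact map_nn π vx vy (X none) l
  let φ := ι.comp (psi g h P Q)
  let c := aeval x P * y 0 ^ (h + 1) * (aeval y Q * x 0 ^ (g + 1))
  have e2 : ∀ i, φ (X i) = nn P Q x y (π (X none)) (![ix g h 0 0, ix g h 1 0, ix g h 0 1] i) :=
    fun i => by rw [AlgHom.comp_apply, psi, aeval_X, e1]
  have e3 : (fun i => φ (![X 0, X 1] i)) = fun i => c * y 0 * x i := funext fun i => by
    fin_cases i
    · exact ((e2 0).trans (nn_ix _ _ _ 0 0)).trans (mul_right_comm _ _ _)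
    · exact ((e2 1).trans (nn_ix _ _ _ 1 0)).trans (mul_right_comm _ _ _)
  have e4 : (fun i => φ (![X 0, X 2] i)) = fun i => c * x 0 * y i := funext fun i => by
    fin_cases i
    · exact (e2 0).trans (nn_ix _ _ _ 0 0)
    · exact (e2 2).trans (nn_ix _ _ _ 0 1)
  apply hι
  rw [map_mul, map_pow, e1, nn_sq hz]
  change φ _ * _ = φ _
  rw [map_mul, map_pow, map_sq, map_sq, e3, e4, sq_scl hP hQ, sq_scl hP hQ, e2]
  change _ = nn P Q x y _ (ix g h 0 0) ^ 2 * _
  rw [nn_sq hz]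
  ring

end XMa

open XMa Pool.Agent.Lib.MP_60ec62_ag.DL in
theorem XM_thm [XJ] : XM := ⟨fun {k _ g h P Q} hP hQ hP0 hQ0 => by
  have hp := XJ.prime g h hP0 hQ0
  obtain ⟨s, h1, h2⟩ := Dim.trdeg_ft (𝕜 := k) (⟨twI g h P Q, hp⟩ : PrimeSpectrum _)
  have h3 := MP_2c79a0_ag.H68Dim.ringKrullDim_quot (⟨twI g h P Q, hp⟩ : PrimeSpectrum _)
  have h4 := Dim.trdeg_eq_of_alg (psi g h P Q) (psi_inj hP hP0 hQ0) (by
    let := (psi g h P Q).toRingHom.toAlgebra
    intro b
    obtain ⟨f, rfl⟩ := Ideal.Quotient.mk_surjective b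
    induction f using MvPolynomial.induction_on with
    | C c => exact ((psi g h P Q).commutes c) ▸ isAlgebraic_algebraMap (C c)
    | add f f' hf hf' => rw [map_add]; exact hf.add hf'
    | mul_X f l hf =>
      rw [map_mul]
      refine hf.mul (IsAlgebraic.of_pow (n := 2) two_pos ?_)
      refine IsAlgebraic.of_smul (y := sq P Q ![X 0, X 1] ![X 0, X 2] (ix g h 0 0))
        (mem_nonZeroDivisors_of_ne_zero ?_) ?_
      · rw [sq_ix]
        exact pow_ne_zero _ (mul_ne_zero (mul_ne_zero (mul_ne_zero (mul_ne_zero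
          (ae_ne hP0 1 (by decide)) (pow_ne_zero _ (X_ne_zero _))) (mul_ne_zero
          (ae_ne hQ0 2 (by decide)) (pow_ne_zero _ (X_ne_zero _)))) (X_ne_zero _)) (X_ne_zero _))
      · rw [Algebra.smul_def]
        exact (congrArg _ (psi_rel hP hQ l)).mpr (isAlgebraic_algebraMap _))
  have h5 : s = 3 := by
    rw [← h4] at h1
    have h6 : ((3 : ℕ) : Cardinal) = s := by simpa using h1
    exact_mod_cast h6.symm
  rw [h2, h5] at h3
  exact h3⟩

end Pool.Agent.Lib.MP_557161_ag.HG.TW.P2
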