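import Pool.Agent.Lib.MP_557161_ag.TW.StY

/-!
The generic point of the zero locus.
-/

namespace Pool.Agent.Lib.MP_557161_ag.HG.TW.P2

open Pool.Agent.Lib.MP_557161_ag.DL MvPolynomial

namespace XNa

variable {K : Type} [Field K]

lemma mon_smul {R : Type} [CommRing R] {g h : ℕ} {x y t s t' s' : Fin 2 → R} {a b k k' : R}
    (h1 : t' 1 * a ^ g = k * t 1) (h2 : t' 0 * b ^ (h + 1) = k * t 0)
    (h3 : s' 1 * b ^ h = k' * s 1) (h4 : s' 0 * a ^ (g + 1) = k' * s 0) :
    (mon (a • x) (b • y) t' s' : Ix g h → R) = (k * k' * a * b) • mon x y t s := by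
  funext ⟨i, j, l, m⟩
  rcases i with i | i <;> rcases j with j | j <;>
    simp only [mon, Sum.elim_inl, Sum.elim_inr, Pi.smul_apply, smul_eq_mul, Finset.prod_mul_distrib,
      Finset.prod_const, Finset.card_univ, Fintype.card_fin, ← mul_assoc (t' _), ← mul_assoc (s' _),
      h1, h2, h3, h4] <;> ring

section

variable {S : Type} [CommRing S] [Algebra K S] (x y : Fin 2 → S) (z : S)
  (P Q : MvPolynomial (Fin 2) K)

/-- Evaluation at a point. -/
noncomputable def ev : Rz K →ₐ[K] S := aeval fun s => s.elim z (Sum.elim x y)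

lemma ev_x (i : Fin 2) : ev x y z (vx (k := K) i) = x i := aeval_X _ _

lemma ev_y (i : Fin 2) : ev x y z (vy (k := K) i) = y i := aeval_X _ _

lemma ev_z : ev x y z (X none : Rz K) = z := aeval_X _ _

lemma ev_P : ev x y z (aeval vx P : Rz K) = aeval x P := by simp only [comp_aeval_apply, ev_x]

lemma ev_Q : ev x y z (aeval vy P : Rz K) = aeval y P := by simp only [comp_aeval_apply, ev_y]

lemma ev_N {g h : ℕ} (f : MvPolynomial (Ix g h) K) : ev x y z (aeval (twN g h P Q) f) =
    aeval (mon x y ![aeval x P, z] ![aeval y Q, z]) f := by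
  rw [comp_aeval_apply]
  refine congrArg (fun v => aeval v f) (funext fun ⟨i, j, l, m⟩ => ?_)
  rcases i with i | i <;> rcases j with j | j <;>
    simp only [twN, mon, Sum.elim_inl, Sum.elim_inr, map_mul, map_prod, Matrix.cons_val_zero,
      Matrix.cons_val_one, ev_x, ev_y, ev_z, ev_P, ev_Q]

lemma ev_F : ev x y z (twF P Q) = z ^ 2 - dt x y * aeval x P * aeval y Q := by
  simp only [twF, map_sub, map_mul, map_pow, ev_x, ev_y, ev_z, ev_P, ev_Q, dt]

lemma ev_ren (A : MvPolynomial (Fin 2 ⊕ Fin 2) K) :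
    ev x y z (rename some A) = aeval (Sum.elim x y) A := aeval_rename _ _ _

lemma div (F : Rz K) :
    ∃ A B T, F = rename some A + rename some B * X none + T * twF P Q := by
  obtain ⟨D, hD⟩ : ∃ D, twF P Q = X none ^ 2 - rename some D :=
    ⟨(X (.inl 0) * X (.inr 1) - X (.inl 1) * X (.inr 0)) * aeval (fun i => X (.inl i)) P *
      aeval (fun i => X (.inr i)) Q, by
        simp only [map_mul, map_sub, comp_aeval_apply, rename_X]
        rfl⟩
  induction F using MvPolynomial.induction_on with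
  | C c => exact ⟨C c, 0, 0, by simp⟩
  | add F F' h h' =>
    obtain ⟨A, B, T, rfl⟩ := h
    obtain ⟨A', B', T', rfl⟩ := h'
    exact ⟨A + A', B + B', T + T', by rw [map_add, map_add]; ring⟩
  | mul_X F s h =>
    obtain ⟨A, B, T, rfl⟩ := h
    rcases s with _ | s
    · exact ⟨B * D, A, T * X none + rename some B, by rw [map_mul, hD]; ring⟩
    · exact ⟨A * X s, B * X s, T * X (some s), by rw [map_mul, map_mul, rename_X]; ring⟩

end

variable {G : GD K}

/-- The substitution of the parametrisation. -/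
noncomputable def sb (G : GD K) (a b : K) :
    MvPolynomial (Fin 2 ⊕ Fin 2) K →ₐ[K] MvPolynomial (Fin 2) K :=
  aeval (Sum.elim (fun i => C a * (C (G.β i) + X 0 * C (G.α i)))
    fun i => C b * (C (G.α i) + X 1 * C (G.β i)))

lemma aeval_sb {S : Type} [CommRing S] [Algebra K S] (a b : K) (w : Fin 2 → S)
    (A : MvPolynomial (Fin 2 ⊕ Fin 2) K) : aeval w (sb G a b A) = aeval (Sum.elim
      (algebraMap K S a • fun i => algebraMap K S (G.β i) + w 0 * algebraMap K S (G.α i))
      (algebraMap K S b • fun i => algebraMap K S (G.α i) + w 1 * algebraMap K S (G.β i))) A := by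
  rw [sb, comp_aeval_apply]
  refine congrArg (fun v => aeval v A) (funext ?_)
  rintro (i | i) <;> simp only [Sum.elim_inl, Sum.elim_inr, map_mul, map_add, aeval_C, aeval_X,
    Pi.smul_apply, smul_eq_mul]

lemma zero [Infinite K] {A : MvPolynomial (Fin 2 ⊕ Fin 2) K}
    (h : ∀ a b, a ≠ 0 → b ≠ 0 → sb G a b A = 0) : A = 0 := by
  have d := G.det
  rw [dt] at d
  have n : ∀ {U : MvPolynomial (Fin 2 ⊕ Fin 2) K}, eval (Sum.elim G.β G.α) U = 1 → U ≠ 0 := by
    rintro _ e rfl
    exact zero_ne_one ((map_zero _).symm.trans e)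
  refine (mul_eq_zero.1 (MvPolynomial.funext (p := A *
    ((X (.inl 0) * C (G.α 1) - X (.inl 1) * C (G.α 0)) *
      (C (G.β 0) * X (.inr 1) - C (G.β 1) * X (.inr 0)))) (q := 0) fun p => ?_)).resolve_right
    (n (by simp [d]))
  simp only [map_mul, map_sub, eval_X, eval_C, map_zero, mul_eq_zero, or_iff_not_imp_right,
    Classical.not_imp]
  by_cases a : p (.inl 0) * G.α 1 - p (.inl 1) * G.α 0 = 0
  · simp [a]
  by_cases b : G.β 0 * p (.inr 1) - G.β 1 * p (.inr 0) = 0
  · simp [b]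
  have e := aeval_sb (G := G) (p (.inl 0) * G.α 1 - p (.inl 1) * G.α 0)
    (G.β 0 * p (.inr 1) - G.β 1 * p (.inr 0))
    ![(G.β 0 * p (.inl 1) - G.β 1 * p (.inl 0)) / (p (.inl 0) * G.α 1 - p (.inl 1) * G.α 0),
      (p (.inr 0) * G.α 1 - p (.inr 1) * G.α 0) / (G.β 0 * p (.inr 1) - G.β 1 * p (.inr 0))] A
  rw [h _ _ a b, map_zero] at e
  refine fun _ => Eq.trans (congrArg (fun v => aeval v A) (funext ?_)) e.symm
  rintro (i | i) <;>
    simp only [Sum.elim_inl, Sum.elim_inr, Pi.smul_apply, smul_eq_mul, Algebra.algebraMap_self,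
      RingHom.id_apply, Matrix.cons_val_zero, Matrix.cons_val_one, mul_add, ← mul_assoc,
      mul_div_cancel₀ _ a, mul_div_cancel₀ _ b] <;> fin_cases i
  · exact show p (.inl 0) = _ * G.β 0 + _ * G.α 0 by linear_combination -p (.inl 0) * d
  · exact show p (.inl 1) = _ * G.β 1 + _ * G.α 1 by linear_combination -p (.inl 1) * d
  · exact show p (.inr 0) = _ * G.α 0 + _ * G.β 0 by linear_combination -p (.inr 0) * d
  · exact show p (.inr 1) = _ * G.α 1 + _ * G.β 1 by linear_combination -p (.inr 1) * d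

lemma indep [FA1 K] [XA K] [XG K] {j : ℕ} {L M : Fld K} {α : L →ₐ[K] M} {y : xz.X M}
    (hy : G.GenU j α y) {U V : MvPolynomial (Fin 2) K}
    (h : aeval y.1 U + aeval y.1 V * y.2 = 0) : U = 0 ∧ V = 0 := by
  obtain ⟨M₀, α₀, β, x, -, h1, h2, -⟩ := XG.chart hy
  have e : ∀ W : MvPolynomial (Fin 2) K, aeval y.1 W = β (aeval x W) := fun W => by
    rw [comp_aeval_apply, funext h1]
  have n : ∀ W : MvPolynomial (Fin 2) K, aeval x W = 0 → W = 0 := fun W hW => by
    by_contra c
    refine FA1.ne h2 (MvPolynomial.map (algebraMap K L) W)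
      ((map_ne_zero_iff _ (map_injective _ (algebraMap K L).injective)).2 c) ?_
    rw [eval₂_map, ← hW, aeval_def]
    exact congrArg (fun f => eval₂ f x W) (RingHom.ext α₀.commutes)
  have o : β (G.om M₀ x) = G.om M y.1 := by
    simp only [TD.om, map_mul, map_sub, map_prod, map_one, AlgHom.commutes, h1]
  rw [e, e] at h
  have v : aeval x V = 0 := by
    by_contra c
    refine XA.nsq G h2 (aeval x U / aeval x V) (β.toRingHom.injective ?_)
    have c' : β (aeval x V) ≠ 0 := (map_ne_zero β).2 c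
    show β _ = β _
    rw [o, ← (G.UU_iff.1 hy.mem).2, map_pow, map_div₀, eq_neg_of_add_eq_zero_left h, neg_div,
      mul_div_cancel_left₀ _ c', neg_sq]
  rw [v, map_zero, zero_mul, add_zero, map_eq_zero] at h
  exact ⟨n U h, n V v⟩

lemma ker [Base K] [FA1 K] [X1 K] [XA K] [XG K] {j : ℕ} {L M : Fld K} {α : L →ₐ[K] M} {y : xz.X M}
    (hy : G.GenU j α y) {f : MvPolynomial G.σ K} {n : ℕ} (hf : f.IsHomogeneous n)
    (h : aeval (G.ν (G.sec M y)) f = 0) : f ∈ G.I := by
  obtain ⟨A, B, T, e⟩ := div G.FP G.FQ (aeval (twN G.g G.h G.FP G.FQ) f)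
  obtain ⟨-, -, p0, q0, -⟩ := X1.co (X1.sec_co hy.mem)
  have z2 := (G.UU_iff.1 hy.mem).2.trans (X1.om G M y).symm
  have k : ∀ a b : K, a ≠ 0 → b ≠ 0 → sb G a b A = 0 ∧ sb G a b B = 0 := fun a b ha hb => by
    have e1 := congrArg (ev (algebraMap K M a • pc (G.sec M y) 0)
      (algebraMap K M b • pc (G.sec M y) 1)
      (algebraMap K M a ^ (G.g + 1) * algebraMap K M b ^ (G.h + 1) * y.2)) e
    rw [ev_N, map_add, map_add, map_mul, map_mul, ev_F, ev_ren, ev_ren, ev_z,
      aeval_smul_of_isHomogeneous G.homP, aeval_smul_of_isHomogeneous G.homQ,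
      mon_smul (t := pc (G.sec M y) 2) (s := pc (G.sec M y) 3)
        (k := algebraMap K M a ^ (2 * G.g + 1) * algebraMap K M b ^ (G.h + 1) *
          aeval (pc (G.sec M y) 0) G.FP)
        (k' := algebraMap K M a ^ (G.g + 1) * algebraMap K M b ^ (2 * G.h + 1) *
          aeval (pc (G.sec M y) 1) G.FQ),
      aeval_smul_of_isHomogeneous hf] at e1
    · have := indep hy (U := sb G a b A) (V := sb G a b B * C (a ^ (G.g + 1) * b ^ (G.h + 1))) (by
        rw [map_mul, aeval_sb, aeval_sb, aeval_C, map_mul, map_pow, map_pow, mul_assoc]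
        refine Eq.trans ?_ (e1.symm.trans (mul_eq_zero_of_right _ h))
        refine (add_eq_left.2 (mul_eq_zero_of_right _ ?_)).symm
        rw [mul_pow, z2]
        simp only [dt, Pi.smul_apply, smul_eq_mul]
        ring)
      exact ⟨this.1, (mul_eq_zero.1 this.2).resolve_right
        (C_ne_zero.2 (mul_ne_zero (pow_ne_zero _ ha) (pow_ne_zero _ hb)))⟩
    · show _ * y.2 * _ = _ * (y.2 / aeval (pc (G.sec M y) 0) G.FP)
      field_simp
      ring
    · show _ * _ * _ = _ * 1
      ring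
    · show _ * y.2 * _ = _ * (y.2 / aeval (pc (G.sec M y) 1) G.FQ)
      field_simp
      ring
    · show _ * _ * _ = _ * 1
      ring
  refine Ideal.mem_comap.2 (Ideal.mem_span_singleton'.2 ⟨T, ?_⟩)
  rw [zero fun a b ha hb => (k a b ha hb).1, zero fun a b ha hb => (k a b ha hb).2] at e
  simpa using e.symm

lemma mem {M : Fld K} {F : IntermediateField K M} {x : Fin 2 → M} (h : ∀ i, x i ∈ F)
    (U : MvPolynomial (Fin 2) K) : aeval x U ∈ F :=
  eval₂_mem (fun _ _ => F.algebraMap_mem _) h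

lemma co_mem {M : Fld K} {F : IntermediateField K M} {x : Fin 2 → M} {U : MvPolynomial (Fin 2) K}
    (hU : U.IsHomogeneous 1) (h1 : aeval x U = 1) {i : Fin 2} (hi : x i ≠ 0)
    (h : ∀ l, x l / x i ∈ F) (l : Fin 2) : x l ∈ F := by
  have e := aeval_smul_of_isHomogeneous hU (x i)⁻¹ x
  rw [h1, pow_one, mul_one] at e
  have := div_mem (h l) (e ▸ mem (x := (x i)⁻¹ • x) (fun l => by
    simpa only [Pi.smul_apply, smul_eq_mul, ← div_eq_inv_mul] using h l) U)
  rwa [div_inv_eq_mul, div_mul_cancel₀ _ hi] at this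

lemma ex_ne {M : Fld K} {x : Fin 2 → M} {U : MvPolynomial (Fin 2) K} (hU : U.IsHomogeneous 1)
    (h1 : aeval x U = 1) : ∃ i, x i ≠ 0 := by
  by_contra! c
  have e := aeval_smul_of_isHomogeneous hU 0 x
  rw [zero_smul, ← show x = 0 from funext c, h1, pow_one, zero_mul] at e
  exact one_ne_zero e

lemma ff [X1 K] {M : Fld K} {α : Fld.base K →ₐ[K] M} {y : xz.X M} (hy : G.GenU 0 α y)
    (u : G.σ → M) : Bridge.FF u (G.ν (G.sec M y)) = ⊤ := by
  obtain ⟨-, -, p0, -⟩ := X1.co (X1.sec_co hy.mem)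
  obtain ⟨u0, v0, u1, v1⟩ := X1.uv G M y
  obtain ⟨i, hi⟩ := ex_ne G.hom_uu u0
  obtain ⟨j, hj⟩ := ex_ne G.hom_vv v1
  have r : ∀ s t, G.ν (G.sec M y) s / G.ν (G.sec M y) t ∈ Bridge.FF u (G.ν (G.sec M y)) :=
    fun s t => IntermediateField.subset_adjoin _ _ (Or.inr ⟨(s, t), rfl⟩)
  have t := hy.top
  generalize Bridge.FF u (G.ν (G.sec M y)) = F at r
  have e : ∀ a l m, G.ν (G.sec M y) (a, .inr fun _ => i, l, m) = tm (G.sec M y) a *
      pc (G.sec M y) 0 i ^ (G.g + 1) * pc (G.sec M y) 0 l * pc (G.sec M y) 1 m := fun a l m => by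
    rw [GD.ν, nu_eq]
    simp only [sm, Sum.elim_inr, Finset.prod_const, Finset.card_univ, Fintype.card_fin]
    rw [show G.sec M y (3, 0) = 1 from rfl, one_mul]
    rfl
  have e0 : tm (G.sec M y) (.inr fun _ => j : (Fin G.g → Fin 2) ⊕ (Fin (G.h + 1) → Fin 2)) =
      pc (G.sec M y) 1 j ^ (G.h + 1) := by
    simp only [tm, Sum.elim_inr, Finset.prod_const, Finset.card_univ, Fintype.card_fin]
    exact one_mul _
  have e1 : tm (G.sec M y) (.inl fun _ => i : (Fin G.g → Fin 2) ⊕ (Fin (G.h + 1) → Fin 2)) =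
      y.2 / aeval (pc (G.sec M y) 0) G.FP * pc (G.sec M y) 0 i ^ G.g := by
    simp only [tm, Sum.elim_inl, Finset.prod_const, Finset.card_univ, Fintype.card_fin]
    rfl
  have mx := co_mem G.hom_uu u0 hi (F := F) fun l => by
    have := r (.inr fun _ => j, .inr fun _ => i, l, j) (.inr fun _ => j, .inr fun _ => i, i, j)
    rw [e, e, e0] at this
    convert this using 1
    field_simp
  have my := co_mem G.hom_vv v1 hj (F := F) fun l => by
    have := r (.inr fun _ => j, .inr fun _ => i, i, l) (.inr fun _ => j, .inr fun _ => i, i, j)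
    rw [e, e, e0] at this
    convert this using 1
    field_simp
  have mz : y.2 ∈ F := by
    have := r (.inl fun _ => i, .inr fun _ => i, i, j) (.inr fun _ => j, .inr fun _ => i, i, j)
    rw [e, e, e0, e1] at this
    convert div_mem (mul_mem (mul_mem this (mem mx G.FP)) (pow_mem (my j) (G.h + 1)))
      (pow_mem (mx i) G.g) using 1
    field_simp
  refine top_le_iff.1 (t.ge.trans (IntermediateField.adjoin_le_iff.2 ?_))
  rintro _ (⟨c, rfl⟩ | ⟨l | l, rfl⟩)
  · exact (α.commutes c).symm ▸ F.algebraMap_mem c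
  · fin_cases l
    · exact (v0 ▸ mem mx G.vv : y.1 0 ∈ F)
    · exact (u1 ▸ mem my G.uu : y.1 1 ∈ F)
  · exact mz

end XNa

theorem XN_thm {K : Type} [Field K] [Base K] [FW0 K] [X1 K] [XA K] [XG K] : XN K where
  ker hy _ _ hf h := XNa.ker hy hf h
  ff hy u := XNa.ff hy u

end Pool.Agent.Lib.MP_557161_ag.HG.TW.P2
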