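import Pool.Agent.Lib.MP_557161_ag.TW.StY

/-!
The embedding of the surface and its inverse.
-/

namespace Pool.Agent.Lib.MP_557161_ag.HG.TW.P2

open Pool.Agent.Lib.MP_557161_ag.DL MvPolynomial

namespace XUa

section Ring

variable {R S : Type} [CommRing R] [CommRing S] {g h : ℕ}

lemma map_tm (f : R →+* S) (w : Vr → R) (i : (Fin g → Fin 2) ⊕ (Fin (h + 1) → Fin 2)) :
    f (tm w i) = tm (fun l => f (w l)) i := by
  cases i <;> simp [tm]

lemma map_sm (f : R →+* S) (w : Vr → R) (i : (Fin h → Fin 2) ⊕ (Fin (g + 1) → Fin 2)) :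
    f (sm w i) = sm (fun l => f (w l)) i := by
  cases i <;> simp [sm]

lemma map_nu (f : R →+* S) (w : Vr → R) (s : Ix g h) :
    f (nu g h w s) = nu g h (fun l => f (w l)) s := by
  simp only [nu_eq, map_mul, map_tm, map_sm]

omit [CommRing R] [CommRing S] in
lemma map_unp (f : R → S) (s : Ix g h) (N : Ix g h → R) :
    (fun l => f (unp s N l)) = unp s fun i => f (N i) := by
  funext ⟨a, i⟩
  fin_cases a <;> fin_cases i <;> rfl

variable (s : Ix g h) (w : Vr → R)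

lemma u0 (i : Fin 2) :
    unp s (nu g h w) (0, i) = tm w s.1 * sm w s.2.1 * w (1, s.2.2.2) * w (0, i) := by
  show nu g h w (s.1, s.2.1, i, s.2.2.2) = _
  rw [nu_eq]
  ring

lemma u1 (i : Fin 2) :
    unp s (nu g h w) (1, i) = tm w s.1 * sm w s.2.1 * w (0, s.2.2.1) * w (1, i) := rfl

lemma u20 : unp s (nu g h w) (2, 0) =
    w (1, s.2.2.2) ^ (h + 1) * (sm w s.2.1 * w (0, s.2.2.1) * w (1, s.2.2.2)) * w (2, 0) := by
  show nu g h w (.inr fun _ => s.2.2.2, s.2) = _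
  simp only [nu_eq, tm, Sum.elim_inr, Finset.prod_const, Finset.card_univ, Fintype.card_fin]
  ring

lemma u21 : unp s (nu g h w) (2, 1) =
    w (0, s.2.2.1) ^ g * (sm w s.2.1 * w (0, s.2.2.1) * w (1, s.2.2.2)) * w (2, 1) := by
  show nu g h w (.inl fun _ => s.2.2.1, s.2) = _
  simp only [nu_eq, tm, Sum.elim_inl, Finset.prod_const, Finset.card_univ, Fintype.card_fin]
  ring

lemma u30 : unp s (nu g h w) (3, 0) =
    w (0, s.2.2.1) ^ (g + 1) * (tm w s.1 * w (0, s.2.2.1) * w (1, s.2.2.2)) * w (3, 0) := by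
  show nu g h w (s.1, .inr fun _ => s.2.2.1, s.2.2) = _
  simp only [nu_eq, sm, Sum.elim_inr, Finset.prod_const, Finset.card_univ, Fintype.card_fin]
  ring

lemma u31 : unp s (nu g h w) (3, 1) =
    w (1, s.2.2.2) ^ h * (tm w s.1 * w (0, s.2.2.1) * w (1, s.2.2.2)) * w (3, 1) := by
  show nu g h w (s.1, .inl fun _ => s.2.2.2, s.2.2) = _
  simp only [nu_eq, sm, Sum.elim_inl, Finset.prod_const, Finset.card_univ, Fintype.card_fin]
  ring

lemma tm_u (i : (Fin g → Fin 2) ⊕ (Fin (h + 1) → Fin 2)) : tm (unp s (nu g h w)) i =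
    nu g h w s ^ (i.elim (fun _ => g) fun _ => h + 1) *
      (sm w s.2.1 * w (0, s.2.2.1) * w (1, s.2.2.2)) * tm w i := by
  cases i with
  | inl m =>
    show unp s (nu g h w) (2, 1) * ∏ l, unp s (nu g h w) (0, m l) = _ ^ g * _ * (_ * ∏ l, _)
    simp only [u21, u0, Finset.prod_mul_distrib, Finset.prod_const, Finset.card_univ,
      Fintype.card_fin, nu_eq, mul_pow]
    ring
  | inr m =>
    show unp s (nu g h w) (2, 0) * ∏ l, unp s (nu g h w) (1, m l) = _ ^ (h + 1) * _ * (_ * ∏ l, _)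
    simp only [u20, u1, Finset.prod_mul_distrib, Finset.prod_const, Finset.card_univ,
      Fintype.card_fin, nu_eq, mul_pow]
    ring

lemma sm_u (i : (Fin h → Fin 2) ⊕ (Fin (g + 1) → Fin 2)) : sm (unp s (nu g h w)) i =
    nu g h w s ^ (i.elim (fun _ => h) fun _ => g + 1) *
      (tm w s.1 * w (0, s.2.2.1) * w (1, s.2.2.2)) * sm w i := by
  cases i with
  | inl m =>
    show unp s (nu g h w) (3, 1) * ∏ l, unp s (nu g h w) (1, m l) = _ ^ h * _ * (_ * ∏ l, _)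
    simp only [u31, u1, Finset.prod_mul_distrib, Finset.prod_const, Finset.card_univ,
      Fintype.card_fin, nu_eq, mul_pow]
    ring
  | inr m =>
    show unp s (nu g h w) (3, 0) * ∏ l, unp s (nu g h w) (0, m l) = _ ^ (g + 1) * _ * (_ * ∏ l, _)
    simp only [u30, u0, Finset.prod_mul_distrib, Finset.prod_const, Finset.card_univ,
      Fintype.card_fin, nu_eq, mul_pow]
    ring

lemma nu_u (l : Ix g h) : nu g h (unp s (nu g h w)) l =
    nu g h w s ^ ((l.1.elim (fun _ => g) fun _ => h + 1) +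
      (l.2.1.elim (fun _ => h) fun _ => g + 1) + 3) * nu g h w l := by
  rw [nu_eq, tm_u, sm_u, u0, u1, pow_add, pow_add, nu_eq w l]
  generalize nu g h w s ^ (l.1.elim (fun _ => g) fun _ => h + 1) = A
  generalize nu g h w s ^ (l.2.1.elim (fun _ => h) fun _ => g + 1) = B
  rw [nu_eq]
  ring

lemma tm_us : tm (unp s (nu g h w)) s.1 =
    nu g h w s ^ (s.1.elim (fun _ => g) fun _ => h + 1) * nu g h w s := by
  rw [tm_u]
  generalize nu g h w s ^ (s.1.elim (fun _ => g) fun _ => h + 1) = A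
  rw [nu_eq]
  ring

lemma back (hw : Nrm s w) : unp s (nu g h w) = w := by
  obtain ⟨h0, h1, h2, h3⟩ := hw
  funext ⟨a, i⟩
  fin_cases a
  · exact (u0 s w i).trans (by simp [h1, h2, h3])
  · exact (u1 s w i).trans (by simp [h0, h2, h3])
  · fin_cases i
    · exact (u20 s w).trans (by simp [h0, h1, h3])
    · exact (u21 s w).trans (by simp [h0, h1, h3])
  · fin_cases i
    · exact (u30 s w).trans (by simp [h0, h1, h2])
    · exact (u31 s w).trans (by simp [h0, h1, h2])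

lemma aeval_mul {k σ : Type} [CommRing k] [Algebra k R] {n : ℕ} {P : MvPolynomial σ k}
    (hP : P.IsHomogeneous n) (c : R) (x : σ → R) :
    aeval (fun i => c * x i) P = c ^ n * aeval x P := by
  induction hP using IsWeightedHomogeneous.induction_on with
  | zero => simp
  | add p q _ _ hp hq => rw [map_add, map_add, hp, hq, mul_add]
  | monomial d r hd =>
    rw [aeval_monomial, aeval_monomial, ← hd, Finsupp.weight_apply]
    simp only [mul_pow, Finsupp.prod, Finsupp.sum, Finset.prod_pow_eq_pow_sum,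
      Finset.prod_mul_distrib, Pi.one_apply, smul_eq_mul, mul_one]
    ring

/-- The first equation, made homogeneous. -/
def e0 (c : R) (u : Vr → R) : R :=
  c ^ 2 * (u (2, 1) * u (3, 1)) - dt (pc u 0) (pc u 1) * u (2, 0) * u (3, 0)

lemma e0_u : e0 (nu g h w s) (unp s (nu g h w)) =
    w (0, s.2.2.1) ^ (g + 1) * w (1, s.2.2.2) ^ (h + 1) * nu g h w s ^ 3 * e0 1 w := by
  simp only [e0, dt, pc, u0, u1, u20, u21, u30, u31, nu_eq]
  ring

lemma map_e0 (f : R →+* S) (c : R) (u : Vr → R) : f (e0 c u) = e0 (f c) fun l => f (u l) := by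
  simp [e0, dt, pc]

variable {k : Type} [CommRing k] [Algebra k R] [Algebra k S] (P Q : MvPolynomial (Fin 2) k)

/-- The second equation, made homogeneous. -/
noncomputable def e1 (g h : ℕ) (c : R) (u : Vr → R) : R :=
  c ^ (2 * h + 1) * (u (2, 1) * u (3, 0) * aeval (pc u 0) P) -
    c ^ (2 * g + 1) * (u (3, 1) * u (2, 0) * aeval (pc u 1) Q)

lemma map_e1 (f : R →ₐ[k] S) (c : R) (u : Vr → R) :
    f (e1 P Q g h c u) = e1 P Q g h (f c) fun l => f (u l) := by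
  simp only [e1, map_sub, map_mul, map_pow, comp_aeval_apply]
  rfl

variable {P Q}

lemma e1_u (hP : P.IsHomogeneous (2 * g + 1)) (hQ : Q.IsHomogeneous (2 * h + 1)) :
    e1 P Q g h (nu g h w s) (unp s (nu g h w)) =
      w (0, s.2.2.1) * w (1, s.2.2.2) * nu g h w s ^ (2 * g + 2 * h + 3) * e1 P Q g h 1 w := by
  have a0 : aeval (pc (unp s (nu g h w)) 0) P =
      (tm w s.1 * sm w s.2.1 * w (1, s.2.2.2)) ^ (2 * g + 1) * aeval (pc w 0) P := by
    rw [← aeval_mul hP]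
    exact congrArg (aeval · P) (funext fun i => u0 s w i)
  have a1 : aeval (pc (unp s (nu g h w)) 1) Q =
      (tm w s.1 * sm w s.2.1 * w (0, s.2.2.1)) ^ (2 * h + 1) * aeval (pc w 1) Q := by
    rw [← aeval_mul hQ]
    exact congrArg (aeval · Q) (funext fun i => u1 s w i)
  simp only [e1, a0, a1, u20, u21, u30, u31, nu_eq]
  ring

end Ring

section Main

variable {k R : Type} [Field k] [CommRing R] [Algebra k R] {g h : ℕ}

/-- The generic point. -/
noncomputable def w0 (P Q : MvPolynomial (Fin 2) k) : Vr → Rz k :=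
  mk4 vx vy ![aeval vx P, X none] ![aeval vy Q, X none]

lemma hu {S : Type} [CommRing S] [Algebra k S] (s : Ix g h) (M : Ix g h → S) :
    (fun l => (aeval M : MvPolynomial (Ix g h) k →ₐ[k] S) (unp s X l)) = unp s M := by
  rw [map_unp (aeval M : MvPolynomial (Ix g h) k →ₐ[k] S) s X]
  simp only [aeval_X]

lemma k1 {S : Type} [CommRing S] [Algebra k S] (s l : Ix g h) (M : Ix g h → S) (n : ℕ) :
    aeval M (nu g h (unp s X) l - X s ^ n * X l : MvPolynomial (Ix g h) k) =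
      nu g h (unp s M) l - M s ^ n * M l := by
  rw [map_sub, map_mul, map_pow, aeval_X, aeval_X, ← hu (k := k) s M]
  exact congrArg (· - _) (map_nu (aeval M : MvPolynomial (Ix g h) k →ₐ[k] S).toRingHom _ l)

lemma k2 {S : Type} [CommRing S] [Algebra k S] (s : Ix g h) (M : Ix g h → S) (n : ℕ) :
    aeval M (tm (unp s X) s.1 - X s ^ n * X s : MvPolynomial (Ix g h) k) =
      tm (unp s M) s.1 - M s ^ n * M s := by
  rw [map_sub, map_mul, map_pow, aeval_X, ← hu (k := k) s M]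
  exact congrArg (· - _) (map_tm (aeval M : MvPolynomial (Ix g h) k →ₐ[k] S).toRingHom _ _)

lemma k3 {S : Type} [CommRing S] [Algebra k S] (s : Ix g h) (M : Ix g h → S) :
    aeval M (e0 (X s) (unp s X) : MvPolynomial (Ix g h) k) = e0 (M s) (unp s M) := by
  rw [← hu (k := k) s M, ← aeval_X (R := k) M s]
  exact map_e0 (aeval M : MvPolynomial (Ix g h) k →ₐ[k] S).toRingHom _ _

lemma k4 {S : Type} [CommRing S] [Algebra k S] (P Q : MvPolynomial (Fin 2) k) (s : Ix g h)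
    (M : Ix g h → S) : aeval M (e1 P Q g h (X s) (unp s X) : MvPolynomial (Ix g h) k) =
      e1 P Q g h (M s) (unp s M) := by
  rw [map_e1, hu, aeval_X]

lemma e0_w0 (P Q : MvPolynomial (Fin 2) k) : e0 1 (w0 P Q) = twF P Q := by
  show 1 ^ 2 * (X none * X none) - (vx 0 * vy 1 - vx 1 * vy 0) * aeval vx P * aeval vy Q = _
  rw [twF]
  ring

lemma e1_w0 (P Q : MvPolynomial (Fin 2) k) : e1 P Q g h 1 (w0 P Q) = 0 := by
  show 1 ^ (2 * h + 1) * (X none * aeval vy Q * aeval vx P) -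
    1 ^ (2 * g + 1) * (X none * aeval vx P * aeval vy Q) = (0 : Rz k)
  ring

lemma mem_I {P Q : MvPolynomial (Fin 2) k} {F : MvPolynomial (Ix g h) k} (c : Rz k)
    (e : aeval (nu g h (w0 P Q)) F = c * twF P Q) : F ∈ twI g h P Q :=
  Ideal.mem_comap.2 (Ideal.mem_span_singleton'.2 ⟨c, e.symm⟩)

lemma ring {P Q : MvPolynomial (Fin 2) k} (hP : P.IsHomogeneous (2 * g + 1))
    (hQ : Q.IsHomogeneous (2 * h + 1)) (s : Ix g h) (N : Ix g h → R)
    (hN : ∀ F ∈ twI g h P Q, aeval N F = 0) (h1 : N s = 1) :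
    (∀ r, aeval (unp s N) (eqs P Q r) = 0) ∧ nu g h (unp s N) = N ∧ Nrm s (unp s N) := by
  have hn : nu g h (unp s N) = N := funext fun l => by
    have := hN _ (mem_I 0 ((k1 s l _ _).trans
      ((sub_eq_zero.2 (nu_u s (w0 P Q) l)).trans (zero_mul _).symm)))
    rwa [k1, h1, one_pow, one_mul, sub_eq_zero] at this
  have ht : tm (unp s N) s.1 = 1 := by
    have := hN _ (mem_I 0 ((k2 s (nu g h (w0 P Q)) (s.1.elim (fun _ => g) fun _ => h + 1)).trans
      ((sub_eq_zero.2 (tm_us s (w0 P Q))).trans (zero_mul _).symm)))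
    rwa [k2, h1, one_pow, one_mul, sub_eq_zero] at this
  have hs : sm (unp s N) s.2.1 = 1 := by
    have := congrFun hn s
    rw [nu_eq, ht, h1] at this
    have e0 : unp s N (0, s.2.2.1) = 1 := h1
    have e1 : unp s N (1, s.2.2.2) = 1 := h1
    rwa [e0, e1, one_mul, mul_one, mul_one] at this
  refine ⟨Fin.forall_fin_two.2 ⟨?_, ?_⟩, hn, h1, h1, ht, hs⟩
  · have := hN _ (mem_I _ ((k3 s _).trans ((e0_u s (w0 P Q)).trans (by rw [e0_w0]))))
    rw [k3, h1, e0, one_pow, one_mul] at this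
    rw [eqs0, this]
  · have := hN _ (mem_I 0 ((k4 P Q s _).trans ((e1_u s (w0 P Q) hP hQ).trans
      (by rw [e1_w0, mul_zero, zero_mul]))))
    rw [k4, h1, e1, one_pow, one_pow, one_mul, one_mul] at this
    rw [eqs1, this]

end Main

section Field

variable {L : Type} [Field L] {g h : ℕ} (a : Tr → L) (w : Vr → L)

lemma wt4 (k : Tr → ℤ) (n0 n1 n2 n3 : ℕ) (h0 : k 0 = n0) (h1 : k 1 = n1) (h2 : k 2 = n2)
    (h3 : k 3 = n3) : wt a k = a 0 ^ n0 * a 1 ^ n1 * a 2 ^ n2 * a 3 ^ n3 := by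
  simp only [wt, Fin.prod_univ_four, h0, h1, h2, h3, zpow_natCast]

lemma s0 (i : Fin 2) : wt a (wv g h (0, i)) = a 0 := by
  fin_cases i <;> exact (wt4 a _ 1 0 0 0 rfl rfl rfl rfl).trans (by ring)

lemma s1 (i : Fin 2) : wt a (wv g h (1, i)) = a 1 := by
  fin_cases i <;> exact (wt4 a _ 0 1 0 0 rfl rfl rfl rfl).trans (by ring)

lemma s20 : wt a (wv g h (2, 0)) = a 0 ^ g * a 2 :=
  (wt4 a _ g 0 1 0 rfl rfl rfl rfl).trans (by ring)

lemma s21 : wt a (wv g h (2, 1)) = a 1 ^ (h + 1) * a 2 :=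
  (wt4 a _ 0 (h + 1) 1 0 rfl rfl rfl rfl).trans (by ring)

lemma s30 : wt a (wv g h (3, 0)) = a 1 ^ h * a 3 :=
  (wt4 a _ 0 h 0 1 rfl rfl rfl rfl).trans (by ring)

lemma s31 : wt a (wv g h (3, 1)) = a 0 ^ (g + 1) * a 3 :=
  (wt4 a _ (g + 1) 0 0 1 rfl rfl rfl rfl).trans (by ring)

lemma tm_s (i : (Fin g → Fin 2) ⊕ (Fin (h + 1) → Fin 2)) :
    tm ((Γw g h).scl a w) i = a 0 ^ g * a 1 ^ (h + 1) * a 2 * tm w i := by
  cases i <;> simp only [tm, Sum.elim_inl, Sum.elim_inr, s0, s1, s20, s21, Finset.prod_mul_distrib,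
    Finset.prod_const, Finset.card_univ, Fintype.card_fin] <;> ring

lemma sm_s (i : (Fin h → Fin 2) ⊕ (Fin (g + 1) → Fin 2)) :
    sm ((Γw g h).scl a w) i = a 0 ^ (g + 1) * a 1 ^ h * a 3 * sm w i := by
  cases i <;> simp only [sm, Sum.elim_inl, Sum.elim_inr, s0, s1, s30, s31, Finset.prod_mul_distrib,
    Finset.prod_const, Finset.card_univ, Fintype.card_fin] <;> ring

lemma scl : nu g h ((Γw g h).scl a w) = wt a (wν g h) • nu g h w := by
  have e := wt4 a (wν g h) (2 * g + 2) (2 * h + 2) 1 1 rfl rfl rfl rfl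
  funext s
  rw [Pi.smul_apply, smul_eq_mul, nu_eq, nu_eq, tm_s, sm_s, e]
  simp only [s0, s1]
  ring

variable {w}

lemma nz : nu g h w ≠ 0 ↔ (Γw g h).nz w := by
  rw [Wt.nz_iff]
  constructor
  · intro h0
    obtain ⟨s, hs⟩ := Function.ne_iff.1 h0
    rw [nu_eq, Pi.zero_apply, mul_ne_zero_iff, mul_ne_zero_iff, mul_ne_zero_iff] at hs
    obtain ⟨⟨⟨h2, h3⟩, h0⟩, h1⟩ := hs
    intro t
    fin_cases t
    · exact ⟨_, rfl, h0⟩
    · exact ⟨_, rfl, h1⟩
    · rcases e : s.1 with m | m <;> rw [e] at h2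
      exacts [⟨_, rfl, left_ne_zero_of_mul h2⟩, ⟨_, rfl, left_ne_zero_of_mul h2⟩]
    · rcases e : s.2.1 with m | m <;> rw [e] at h3
      exacts [⟨_, rfl, left_ne_zero_of_mul h3⟩, ⟨_, rfl, left_ne_zero_of_mul h3⟩]
  · intro H
    obtain ⟨⟨_, i⟩, rfl, h0⟩ := H 0
    obtain ⟨⟨_, j⟩, rfl, h1⟩ := H 1
    obtain ⟨⟨_, t⟩, rfl, h2⟩ := H 2
    obtain ⟨⟨_, s⟩, rfl, h3⟩ := H 3
    have p0 : ∀ n, ∏ _l : Fin n, w (0, i) ≠ 0 := fun n => Finset.prod_ne_zero_iff.2 fun _ _ => h0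
    have p1 : ∀ n, ∏ _l : Fin n, w (1, j) ≠ 0 := fun n => Finset.prod_ne_zero_iff.2 fun _ _ => h1
    obtain ⟨T, hT⟩ : ∃ T : (Fin g → Fin 2) ⊕ (Fin (h + 1) → Fin 2), tm w T ≠ 0 := by
      fin_cases t
      exacts [⟨.inr fun _ => j, mul_ne_zero h2 (p1 _)⟩, ⟨.inl fun _ => i, mul_ne_zero h2 (p0 _)⟩]
    obtain ⟨S, hS⟩ : ∃ S : (Fin h → Fin 2) ⊕ (Fin (g + 1) → Fin 2), sm w S ≠ 0 := by
      fin_cases s
      exacts [⟨.inr fun _ => i, mul_ne_zero h3 (p0 _)⟩, ⟨.inl fun _ => j, mul_ne_zero h3 (p1 _)⟩]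
    exact Function.ne_iff.2 ⟨(T, S, i, j), mul_ne_zero (mul_ne_zero (mul_ne_zero hT hS) h0) h1⟩

lemma nrm {s : Ix g h} (hs : nu g h w s ≠ 0) : ∃ a, Un a ∧ Nrm s ((Γw g h).scl a w) := by
  rw [nu_eq, mul_ne_zero_iff, mul_ne_zero_iff, mul_ne_zero_iff] at hs
  obtain ⟨⟨⟨h2, h3⟩, h0⟩, h1⟩ := hs
  refine ⟨![(w (0, s.2.2.1))⁻¹, (w (1, s.2.2.2))⁻¹,
    w (0, s.2.2.1) ^ g * w (1, s.2.2.2) ^ (h + 1) / tm w s.1,
    w (0, s.2.2.1) ^ (g + 1) * w (1, s.2.2.2) ^ h / sm w s.2.1], fun t => ?_, ?_, ?_, ?_, ?_⟩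
  · fin_cases t <;> simp [h0, h1, h2, h3]
  · exact (congrArg (· * _) (s0 _ _)).trans (inv_mul_cancel₀ h0)
  · exact (congrArg (· * _) (s1 _ _)).trans (inv_mul_cancel₀ h1)
  · rw [tm_s]
    show (w (0, s.2.2.1))⁻¹ ^ g * (w (1, s.2.2.2))⁻¹ ^ (h + 1) *
      (w (0, s.2.2.1) ^ g * w (1, s.2.2.2) ^ (h + 1) / tm w s.1) * tm w s.1 = 1
    rw [inv_pow, inv_pow]
    field_simp
  · rw [sm_s]
    show (w (0, s.2.2.1))⁻¹ ^ (g + 1) * (w (1, s.2.2.2))⁻¹ ^ h *
      (w (0, s.2.2.1) ^ (g + 1) * w (1, s.2.2.2) ^ h / sm w s.2.1) * sm w s.2.1 = 1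
    rw [inv_pow, inv_pow]
    field_simp

lemma inj {w' : Vr → L} {c : L} (h0 : (Γw g h).nz w) (hc : c ≠ 0)
    (e : nu g h w' = c • nu g h w) : (Γw g h).pt w = (Γw g h).pt w' := by
  obtain ⟨s, hs⟩ := Function.ne_iff.1 (nz.2 h0)
  have hs' : nu g h w' s ≠ 0 := by
    rw [e]
    exact mul_ne_zero hc hs
  obtain ⟨a, ha, n⟩ := nrm hs
  obtain ⟨a', ha', n'⟩ := nrm hs'
  have one : ∀ {v : Vr → L}, Nrm s v → nu g h v s = 1 := fun q => by
    rw [nu_eq, q.1, q.2.1, q.2.2.1, q.2.2.2, mul_one, mul_one, mul_one]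
  have e1 := one n
  have e2 := one n'
  rw [scl] at e1 e2
  rw [e, smul_smul] at e2
  have e3 : wt a (wν g h) = wt a' (wν g h) * c := mul_right_cancel₀ hs (e1.trans e2.symm)
  rw [← (Γw g h).pt_scl ha w, ← (Γw g h).pt_scl ha' w', ← back s _ n, ← back s _ n', scl, scl, e,
    smul_smul, e3]

end Field

end XUa

theorem XU_thm : XU where
  ring hP hQ s N hN h1 := XUa.ring hP hQ s N hN h1
  back s w h := XUa.back s w h
  map f _ _ w := funext fun s => XUa.map_nu f w s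
  pow g h Q w := funext fun s => by
    obtain ⟨T | T, S | S, i, j⟩ := s <;>
      simp only [nu_eq, tm, sm, Sum.elim_inl, Sum.elim_inr, mul_pow, Finset.prod_pow]
  nz := XUa.nz
  scl _ _ a w _ := XUa.scl a w
  nrm := XUa.nrm
  inj := XUa.inj
  rel R g h w w' e s := by
    refine R.mul (R.mul (R.mul ?_ ?_) (e _)) (e _)
    · rcases s.1 with m | m <;> exact R.mul (e _) (Rel.prod _ fun _ _ => e _)
    · rcases s.2.1 with m | m <;> exact R.mul (e _) (Rel.prod _ fun _ _ => e _)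

end Pool.Agent.Lib.MP_557161_ag.HG.TW.P2
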