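import Pool.Agent.Lib.MP_557161_ag.TW.StV
import Pool.Agent.Lib.MP_557161_ag.TW.XG

/-!
Points of the surface.
-/

namespace Pool.Agent.Lib.MP_557161_ag.HG.TW.P2

open Pool.Agent.Lib.MP_557161_ag.DL MvPolynomial

variable {K : Type} [Field K]

namespace Ya

/-- The first order Taylor formula. -/
lemma tay {σ : Type} [Fintype σ] (f : MvPolynomial σ K) :
    ∃ H : MvPolynomial ((σ ⊕ σ) ⊕ Unit) K, ∀ (A : Type) [CommRing A] [Algebra K A] (y v : σ → A)
      (t : A), t * aeval (Sum.elim (Sum.elim y v) fun _ => t) H = aeval (y + t • v) f - aeval y f ∧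
      aeval (Sum.elim (Sum.elim y v) fun _ => (0 : A)) H = ∑ i, aeval y (pderiv i f) * v i := by
  classical
  induction f using MvPolynomial.induction_on with
  | C c => exact ⟨0, fun A _ _ y v t => by simp⟩
  | add p q hp hq =>
    obtain ⟨H, h⟩ := hp
    obtain ⟨H', h'⟩ := hq
    refine ⟨H + H', fun A _ _ y v t => ?_⟩
    simp only [map_add, add_mul, Finset.sum_add_distrib, mul_add, (h A y v t).1, (h' A y v t).1,
      (h A y v t).2, (h' A y v t).2, and_true]
    ring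
  | mul_X p i hp =>
    obtain ⟨H, h⟩ := hp
    refine ⟨H * (X (.inl (.inl i)) + X (.inr ()) * X (.inl (.inr i))) +
      rename (fun s => .inl (.inl s)) p * X (.inl (.inr i)), fun A _ _ y v t => ?_⟩
    have e : ∀ s : A, aeval (Sum.elim (Sum.elim y v) fun _ : Unit => s)
        (rename (fun s => .inl (.inl s)) p) = aeval y p := fun s => aeval_rename _ _ _
    constructor
    · simp only [map_add, map_mul, aeval_X, e, Sum.elim_inl, Sum.elim_inr, Pi.add_apply,
        Pi.smul_apply, smul_eq_mul]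
      linear_combination (y i + t * v i) * (h A y v t).1
    · simp only [map_add, map_mul, aeval_X, e, Sum.elim_inl, Sum.elim_inr, (h A y v t).2,
        Derivation.leibniz, smul_eq_mul, pderiv_X, Pi.single_apply, add_mul,
        Finset.sum_add_distrib, apply_ite (aeval y), map_zero, mul_ite, ite_mul, mul_one,
        mul_zero, zero_mul, add_zero, Finset.sum_ite_eq, Finset.mem_univ, if_true, Finset.sum_mul]
      rw [add_comm]
      congr 1
      exact Finset.sum_congr rfl fun l _ => by ring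

variable {L M N M' : Fld K} {σ : Type} {ω : σ → Tr → ℤ} {n : Tr → ℤ} {f : MvPolynomial σ K}
  {a : Tr → L}

lemma scl_C (hf : f.IsWeightedHomogeneous ω n) (h0 : Un a) (w : σ → Polynomial L) :
    aeval (fun l => Polynomial.C (wt a (ω l)) * w l) f = Polynomial.C (wt a n) * aeval w f := by
  induction hf using IsWeightedHomogeneous.induction_on with
  | zero => simp
  | add p q _ _ hp hq => rw [map_add, map_add, hp, hq, mul_add]
  | monomial d r hd =>
    have e := aeval_scl (isWeightedHomogeneous_monomial ω d (1 : K) hd) h0 1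
    simp only [aeval_monomial, map_one, Pi.one_apply, one_pow, Finsupp.prod, mul_one, one_mul,
      Finset.prod_const_one] at e
    simp only [aeval_monomial, ← e, mul_pow, Finsupp.prod, Finset.prod_mul_distrib, map_prod,
      map_pow]
    ring

lemma tay_hom (hf : f.IsWeightedHomogeneous ω n) {H : MvPolynomial ((σ ⊕ σ) ⊕ Unit) K}
    (h : ∀ (y v : σ → Polynomial L) (t : Polynomial L),
      t * aeval (Sum.elim (Sum.elim y v) fun _ => t) H = aeval (y + t • v) f - aeval y f)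
    (h0 : Un a) (y v : σ → L) (t : L) :
    aeval (Sum.elim (Sum.elim (fun l => wt a (ω l) * y l) fun l => wt a (ω l) * v l) fun _ => t) H =
      wt a n * aeval (Sum.elim (Sum.elim y v) fun _ => t) H := by
  have h1 := h (fun l => Polynomial.C (wt a (ω l)) * Polynomial.C (y l))
    (fun l => Polynomial.C (wt a (ω l)) * Polynomial.C (v l)) Polynomial.X
  have e : ((fun l => Polynomial.C (wt a (ω l)) * Polynomial.C (y l)) +
      (Polynomial.X : Polynomial L) • fun l => Polynomial.C (wt a (ω l)) * Polynomial.C (v l)) =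
      fun l => Polynomial.C (wt a (ω l)) * ((fun l => Polynomial.C (y l)) +
        (Polynomial.X : Polynomial L) • fun l => Polynomial.C (v l) : σ → Polynomial L) l := by
    funext l
    simp only [Pi.add_apply, Pi.smul_apply, smul_eq_mul]
    ring
  rw [e, scl_C hf h0, scl_C hf h0, ← mul_sub, ← h, mul_left_comm,
    mul_right_inj' Polynomial.X_ne_zero] at h1
  have h2 := congrArg ((Polynomial.aeval t).restrictScalars K) h1
  rw [map_mul, comp_aeval_apply, comp_aeval_apply] at h2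
  convert h2 using 3
  · funext s
    rcases s with (s | s) | s <;> simp
  · simp
  · congr 1
    funext s
    rcases s with (s | s) | s <;> simp

variable {G : GD K} {j : ℕ} {α : L →ₐ[K] M}

lemma cmp [WB K] (O : Pl M) {w : Vr → M} (h : G.Cn M w) : ∃ u w', G.Γ.Ch u w ∧
    G.Cn O.res w' ∧ cw.lift (Rel.ofPl O).r (G.Γ.scl (G.Γ.nm u w) w) w' := by
  obtain ⟨u, hu, hp⟩ := WB.prim G.Γ O h.1
  have e : cw.lift (Rel.ofPl O).r (G.Γ.scl (G.Γ.nm u w) w)
      fun l => O.rd (G.Γ.scl (G.Γ.nm u w) w l) := fun l => ⟨hp.int _ l rfl, rfl⟩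
  exact ⟨u, _, hu, ⟨G.Γ.nz_iff.2 hp.ne, fun r =>
    Rel.eq_zero (Rel.aeval e _) ((G.CC.inv M _ w hp.un h).2 r)⟩, e⟩

lemma comp_mem {κ : Type} {α₀ : L →ₐ[K] N} {β : N →ₐ[K] M} (hc : β.comp α₀ = α) (T : κ → M)
    (a : L) : α a ∈ gen β T := hc ▸ Fa1.left_mem β T (α₀ a)

lemma top_of {κ : Type} {T : κ → M} (h : gen α T = ⊤) {β : M →ₐ[K] N} {F : IntermediateField K N}
    (h1 : ∀ a, β (α a) ∈ F) (h2 : ∀ i, β (T i) ∈ F) (m : M) : β m ∈ F := by
  have h3 : gen α T ≤ F.comap β := Fa1.gen_le h1 h2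
  rw [h] at h3
  exact h3 IntermediateField.mem_top

lemma mem_l {κ κ' : Type} {T : κ → M} {U : κ' → M} (i : κ) : T i ∈ gen α (Sum.elim T U) :=
  Fa1.right_mem α (Sum.elim T U) (.inl i)

lemma mem_r {κ κ' : Type} {T : κ → M} {U : κ' → M} (i : κ') : U i ∈ gen α (Sum.elim T U) :=
  Fa1.right_mem α (Sum.elim T U) (.inr i)

lemma genC [X1 K] {y : xz.X M} (h : G.GenU j α y) (β : M →ₐ[K] N) (b : Tr → N) (t : N)
    (hN : Good (j + 6 + 1) N) (hb : Un b) (ht : gen β (Sum.elim b fun _ : Unit => t) = ⊤) :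
    G.GenC j (β.comp α) (G.Γ.scl b (G.sec N (xz.map β y))) t := by
  have m := (G.UU.map_iff β y).2 h.mem
  have c := X1.sec_co m
  have c' : G.Co N (G.Γ.scl b (G.sec N (xz.map β y))) := G.CO.inv N b _ hb c
  have p := (X1.pr_scl G (G.sec N (xz.map β y)) hb).trans (X1.pr_sec m)
  refine ⟨h.gL, hN, c'.1, eq_top_iff.2 (ht.ge.trans ?_)⟩
  obtain ⟨h1, h2⟩ := X1.pr_mem G (mem_l (α := β.comp α)
    (T := G.Γ.scl b (G.sec N (xz.map β y))) (U := fun _ : Unit => t))
  obtain ⟨u, hu⟩ := c.1.1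
  have e := (X1.sec_pr c').2
  rw [p, G.Γ.scl_scl] at e
  have e1 := Wt.free hu fun s => congrFun e.symm (u s)
  refine Fa1.gen_le (top_of h.top (Fa1.left_mem (β.comp α) _) fun i => ?_) ?_
  · have := h1 i
    rwa [p, xz.co_map] at this
  · rintro (s | s)
    · have := inv_mem (h2 s)
      rwa [← eq_inv_of_mul_eq_one_right (congrFun e1 s)] at this
    · exact mem_r ()

lemma card5 : Nat.card (Tr ⊕ Unit) = 5 := by simp

lemma exC [X1 K] [XG K] (G : GD K) (hL : Good j L) :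
    ∃ (M : Fld K) (α : L →ₐ[K] M) (y : Vr → M) (t : M), G.GenC j α y t := by
  obtain ⟨M, α, y, h⟩ := XG.ex G hL
  obtain ⟨N, β, T, hf⟩ : ∃ (N : Fld K) (β : M →ₐ[K] N) (T : Tr ⊕ Unit → N), Free (j + 2) β T :=
    ⟨_, _, _, Fa1.fr_free _ h.gM⟩
  refine ⟨N, _, _, _, genC h β (fun s => T (.inl s)) (T (.inr ())) (card5 ▸ hf.gM :)
    (fun s => ?_) ?_⟩
  · simpa using Fa1.ne hf (X (.inl s)) (X_ne_zero _)
  · rw [← hf.top]
    congr 1
    funext s
    cases s <;> rfl

variable {y : Vr → M} {t : M}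

lemma co [BD K] (h : G.GenC j α y t) : G.Co M y := by
  refine ⟨h.mem, fun h0 => ?_⟩
  obtain ⟨γ, hγ, τ, a, -, e⟩ := BD.cov (G := G) (L := M) (w := y) ⟨h.mem, h0⟩
  have h1 : gen α (Sum.elim (Sum.elim a fun _ : Unit => τ) fun _ : Unit => t) = ⊤ := by
    refine eq_top_iff.2 (h.top.ge.trans (Fa1.gen_le (Fa1.left_mem _ _) ?_))
    have i := mem_l (α := α) (T := Sum.elim a fun _ : Unit => τ) (U := fun _ : Unit => t)
    rintro (l | l)
    · rw [e]
      exact mul_mem (wt_mem (fun s => i (.inl s)) _)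
        (hγ.reg.all_sub _ (x := τ) trivial (i (.inr ())) l)
    · exact mem_r ()
  have h2 := Fa1.tr_top h1
  rw [h.gL.2, h.gM.2, show Nat.card ((Tr ⊕ Unit) ⊕ Unit) = 6 by simp] at h2
  norm_cast at h2
  omega

lemma trU {A : xz.X M} (m : G.UU.mem M A) (h : gen α (xz.co A) = ⊤) : M.tr ≤ L.tr + (2 : ℕ) := by
  obtain ⟨α₀, β, T, hc, hT, ht⟩ := Fa1.exists_sub α A.1
  have hs : A.2 ^ 2 = β (G.om _ T) := by
    rw [XGa.om_map, funext hT]
    exact m.2
  have hg : Gen β A.2 := by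
    rw [← Xg.gen_one, eq_top_iff, ← h]
    refine Fa1.gen_le (comp_mem hc _) ?_
    rintro (i | i)
    · show A.1 i ∈ _
      rw [← hT]
      exact Fa1.left_mem β _ _
    · exact Fa1.right_mem β (fun _ : Unit => A.2) ()
  have h1 := Fa1.tr_top ht
  rwa [XGa.card_two, ← (Xg.fin_sq hs hg).tr_eq] at h1

/-- A generic point of the torsor lies over a generic point of the double cover. -/
lemma dec [X1 K] [BD K] (h : G.GenC j α y t) : ∃ (M₀ : Fld K) (α₀ : L →ₐ[K] M₀) (β : M₀ →ₐ[K] M)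
    (A : xz.X M₀) (b : Tr → M), β.comp α₀ = α ∧ G.GenU j α₀ A ∧
      Free (j + 2) β (Sum.elim b fun _ : Unit => t) ∧ y = G.Γ.scl b (G.sec M (xz.map β A)) := by
  have c := co h
  obtain ⟨α₀, β, T, hc, hT, ht⟩ := Fa1.exists_sub α (xz.co (G.pr M y))
  have e : xz.map β (xz.mk' T) = G.pr M y :=
    xz.inj (funext fun i => by rw [xz.co_map, xz.co_mk, hT])
  have m := (G.UU.map_iff β _).1 (e ▸ X1.pr_uu c)
  have e' : y = G.Γ.scl (G.ns M y)⁻¹ (G.sec M (xz.map β (xz.mk' T))) := by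
    rw [e, (X1.sec_pr c).2, G.Γ.scl_inv (X1.sec_pr c).1]
  rw [← xz.co_mk T] at ht
  have h1 : gen β (Sum.elim (G.ns M y)⁻¹ fun _ : Unit => t) = ⊤ := by
    refine eq_top_iff.2 (h.top.ge.trans (Fa1.gen_le (comp_mem hc _) ?_))
    rintro (l | l)
    · show y l ∈ _
      rw [congrFun e' l]
      refine mul_mem (wt_mem mem_l _) (X1.sec_mem G (fun i => ?_) l)
      rw [xz.co_map]
      exact Fa1.left_mem _ _ _
    · exact mem_r ()
  have h2 := trU m ht
  have h3 := Fa1.tr_top h1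
  rw [h.gL.2, ← Nat.cast_add] at h2
  obtain ⟨k, hk⟩ := Cardinal.lt_aleph0.1 (h2.trans_lt Cardinal.natCast_lt_aleph0)
  rw [hk, h.gM.2, card5] at h3
  rw [hk] at h2
  norm_cast at h2 h3
  have g : Good (j + 2) _ :=
    ⟨Fa1.ess ht h.gL.1, hk.trans (congrArg _ (show k = j + 2 by omega))⟩
  exact ⟨_, α₀, β, _, _, hc, ⟨h.gL, g, m, ht⟩, ⟨g, card5 ▸ h.gM, h1⟩, e'⟩

lemma uq [X1 K] [BD K] [XG K] {α' : L →ₐ[K] M'} {y' : Vr → M'} {t' : M'} (h : G.GenC j α y t)
    (h' : G.GenC j α' y' t') :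
    ∃ ρ : M →ₐ[K] M', ρ.comp α = α' ∧ (∀ l, ρ (y l) = y' l) ∧ ρ t = t' ∧ Function.Bijective ρ := by
  obtain ⟨M₀, α₀, β, A, b, hc, hu, hf, e⟩ := dec h
  obtain ⟨M₁, α₁, β', A', b', hc', hu', hf', e'⟩ := dec h'
  obtain ⟨ρ₀, h1, h2, -⟩ := XG.iso hu hu' (AlgHom.id K L)
  obtain ⟨ρ, h3, h4, -⟩ := Fa1.lift hf hf' ρ₀
  have h5 : ρ.comp α = α' := by
    rw [← hc, ← AlgHom.comp_assoc, h3, AlgHom.comp_assoc, h1, AlgHom.comp_id, hc']
  have h6 : cw.map ρ y = y' := by
    rw [e, e', ← h2, xz.map_map]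
    refine (G.Γ.map_scl ρ.toRingHom _ _).trans (congrArg₂ _ (funext fun s => h4 (.inl s))
      ((X1.sec_map G ρ _).trans (congrArg _ ((xz.map_map _ _ _).trans ?_))))
    exact xz.map_congr fun i => AlgHom.congr_fun h3 _
  refine ⟨ρ, h5, congrFun h6, h4 (.inr ()), ρ.injective, fun x => ?_⟩
  have h7 : gen α' (Sum.elim y' fun _ : Unit => t') ≤ ρ.fieldRange := by
    refine Fa1.gen_le (fun a => ⟨α a, AlgHom.congr_fun h5 a⟩) ?_
    rintro (l | l)
    exacts [⟨_, congrFun h6 l⟩, ⟨_, h4 (.inr ())⟩]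
  exact h7 (h'.top ▸ IntermediateField.mem_top)

end Ya

theorem YA_thm [WB K] [X1 K] [XG K] [BD K] : YA K where
  cmp := Ya.cmp
  taylor G r := by
    obtain ⟨H, h⟩ := Ya.tay (G.E r)
    exact ⟨H, fun L y v t => ⟨(h L y v t).1, (h L y v t).2, fun a h0 =>
      Ya.tay_hom (G.homE r) (fun y v t => (h _ y v t).1) h0 y v t⟩⟩
  genC := Ya.genC
  exC G _ _ := Ya.exC G
  co := Ya.co
  uq := Ya.uq

end Pool.Agent.Lib.MP_557161_ag.HG.TW.P2
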