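import Pool.Agent.Lib.MP_557161_ag.TW.StV

/-!
Functionals on the square of the surface that vanish on exterior products live over the unramified
part and are antisymmetric.
-/

namespace Pool.Agent.Lib.MP_557161_ag.HG.TW.P2

open Pool.Agent.Lib.MP_557161_ag.DL

variable {K : Type} [Field K]

namespace YQa

/-- Exchange of the two factors. -/
def swp {A : Amb K} (P : Sp A) : Mor (P.prod P) (P.prod P) :=
  ⟨fun y => y.swap, fun _ h => ⟨h.2, h.1⟩, fun _ _ _ => rfl, fun _ _ _ _ _ => rfl⟩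

lemma swp_pro {A : Amb K} (P : Sp A) : (swp P).Proper := fun _ _ _ _ h => ⟨h.2, h.1⟩

lemma swp_v {A : Amb K} {P : Sp A} {j : ℕ} (φ : Fe j (P.prod P)) (L : Fld K) (E E' : A.pt L) :
    (φ.pull _ (swp_pro P)).v L (E, E') = φ.v L (E', E) := by
  by_cases m : (P.prod P).mem (L := L) (E, E')
  · exact Fe.pull_of_mem _ (swp_pro P) φ m
  · rw [not_not.1 fun e => m ((φ.pull _ (swp_pro P)).supp L _ e).2,
      not_not.1 fun e => m (φ.supp L (E', E) e).2.symm]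

variable {G : GD K}

/-- The functional vanishes over the boundary. -/
lemma zero [WA K] [RC K] [BD K] {B : Amb K} {Z : Sp B} {j : ℕ} (φ : Fe j (G.CC.sp.prod Z))
    (hk : KlA φ.toPre) {L : Fld K} {w : Vr → L} (hw : G.BO.mem L w) (E : B.pt L) :
    φ.v L (G.Γ.pt w, E) = 0 := by
  obtain ⟨γ, hγ, τ, a, h0, rfl⟩ := BD.cov hw
  obtain ⟨m, hm, -⟩ := WA.morA (S := G.CC) hγ
  rw [G.Γ.pt_scl h0, ← hm L τ]
  exact RC.zero m φ hk L τ E

lemma red_uu [X1 K] {M : Fld K} {O : Pl M} {y : xz.X M} (h : G.UU.mem M y)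
    (h' : G.CO.sp.mem ((G.Γ.amb K).red O (G.Γ.pt (G.sec M y)))) :
    ∃ y', G.UU.mem O.res y' ∧ xz.lift (Rel.ofPl O).r y y' := by
  obtain ⟨z, hz, e⟩ := h'
  obtain ⟨u, x, hu, l, -, e'⟩ := G.Γ.qred_nz e.symm (G.CO.nz _ z hz)
  have hx : G.Co _ x := G.CO.mem_of_pt hz e'.symm
  have h1 := (X1.pr_rel _ hx l).1
  rw [X1.pr_scl G _ (Wt.nm_un hu), X1.pr_sec h] at h1
  exact ⟨_, X1.pr_uu hx, h1⟩

lemma exists_map {c : Cd} {L L' : Fld K} (ι : L →ₐ[K] L') {x : c.X L'}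
    (h : ∀ l, c.co x l ∈ Set.range ι) : ∃ y, c.map ι y = x := by
  choose z hz using h
  exact ⟨c.mk' z, c.inj (funext fun l => by rw [c.co_map, c.co_mk, hz])⟩

lemma uu_ngz {L : Fld K} {y : xz.X L} : G.UU.mem L (ngz L y) ↔ G.UU.mem L y := by
  simp only [TD.UU_iff, ngz, neg_sq, ne_eq, neg_eq_zero]

/-- The involution of the factor `i`. -/
def fl (i : Bool) (L : Fld K) (x : Bool → xz.X L) : Bool → xz.X L :=
  Function.update x i (ngz L (x i))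

lemma fl_self (i : Bool) (L : Fld K) (x : Bool → xz.X L) : fl i L x i = ngz L (x i) :=
  Function.update_self _ _ _

lemma fl_not (i : Bool) (L : Fld K) (x : Bool → xz.X L) : fl i L x (!i) = x (!i) :=
  Function.update_of_ne (Bool.not_ne_self i) _ _

lemma all_iff (i : Bool) {q : Bool → Prop} : (∀ b, q b) ↔ q i ∧ q (!i) := by
  cases i <;> simp [and_comm]

lemma exists_pair {α : Type} (i : Bool) (a b : α) : ∃ w : Bool → α, w i = a ∧ w (!i) = b :=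
  ⟨fun t => if t = i then a else b, if_pos rfl, if_neg (Bool.not_ne_self i)⟩

lemma uu_of {L : Fld K} {x : Fin 2 → L} {y : L} (h : y ^ 2 = G.om L x) (h0 : G.om L x ≠ 0) :
    G.UU.mem L (x, y) :=
  (TD.UU_iff _).2 ⟨fun e => h0 (h.symm.trans (pow_eq_zero_iff two_ne_zero |>.2 e)), h⟩

lemma fl_fl (i : Bool) (L : Fld K) (x : Bool → xz.X L) : fl i L (fl i L x) = x :=
  funext ((all_iff i).2 ⟨by rw [fl_self, fl_self]; exact Prod.ext rfl (neg_neg _),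
    by rw [fl_not, fl_not]⟩)

lemma fl_mem (i : Bool) {L : Fld K} {x : Bool → xz.X L} :
    (G.UU.pi Bool).mem L (fl i L x) ↔ (G.UU.pi Bool).mem L x :=
  (all_iff i).trans (Iff.trans (by rw [fl_self, fl_not, uu_ngz]) (all_iff i).symm)

lemma fl_rel (i : Bool) {M L : Fld K} (R : Rel M L) {x : Bool → xz.X M} {x' : Bool → xz.X L}
    (e : (Cd.pi Bool xz).lift R.r x x') : (Cd.pi Bool xz).lift R.r (fl i M x) (fl i L x') :=
  (all_iff i).2 ⟨by rw [fl_self, fl_self]; exact ⟨(e i).1, Rel.neg (e i).2⟩,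
    by rw [fl_not, fl_not]; exact e _⟩

variable (G) in
/-- The complement of the branch curve. -/
noncomputable def VV : ASp K (.vec (Fin 2)) :=
  (ASp.univ K _).opn (fun L x => G.om L x ≠ 0) fun _ _ R _ _ _ _ e h =>
    Rel.ne_zero (G.om_rel R e) h

lemma dm [FA3 K] {L : Fld K} {y : xz.X L} (h : G.UU.mem L y) : xz.Dm L y (Nat.card (Fin 2)) :=
  FA3.dm_alg (FA3.dm_vec y.1) fun F hF =>
    ⟨fun l => isAlgebraic_algebraMap (⟨_, hF l⟩ : F), IsAlgebraic.of_pow two_pos (by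
      rw [(TD.UU_iff _).1 h |>.2]
      exact isAlgebraic_algebraMap
        (⟨_, (G.om_rel (Rel.ofSub F) fun l => ⟨hF l, rfl⟩).1⟩ : F))⟩

lemma anti [Base K] (p : ℕ) [FC2 K p] [FA3 K] [WB K] {j : ℕ} (Φ : AF j (G.UU.pi Bool)) (i : Bool)
    (hk : ∀ (L L₁ L₂ : Fld K) (ι₁ : L₁ →ₐ[K] L) (ι₂ : L₂ →ₐ[K] L) (w : Bool → xz.X L),
      (∀ l, xz.co (w i) l ∈ Set.range ι₁) → (∀ l, xz.co (w (!i)) l ∈ Set.range ι₂) →
      L₁.tr + L₂.tr ≤ j → Φ.a L w = 0) (L : Fld K) (x : Bool → xz.X L) :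
    Φ.a L (fl i L x) = -Φ.a L x := by
  have z0 : ∀ (θ : AF j (G.UU.pi Bool)) (L : Fld K) (x : Bool → xz.X L),
      ¬ (G.UU.pi Bool).mem L x → θ.a L x = 0 := fun θ L x h =>
    not_not.1 fun e => h ((G.UU.pi Bool).sp_some.1 (θ.supp L _ e).2)
  by_cases hx : (G.UU.pi Bool).mem L x
  swap
  · rw [z0 Φ L x hx, z0 Φ L _ fun h => hx ((fl_mem i).1 h), neg_zero]
  have sm : Mp (G.UU.pi Bool) (G.UU.pi Bool) (fl i) :=
    ⟨fun _ _ R _ _ _ _ e => fl_rel i R e, fun _ _ h => (fl_mem i).2 h⟩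
  have sp : sm.mor.Proper := Pro.mor sm fun M O y z _ _ hz e =>
    ⟨fl i _ z, (fl_mem i).2 hz, fl_fl i M y ▸ fl_rel i _ e⟩
  obtain ⟨Ψ, hΨ⟩ := Fe.exists_sum Finset.univ fun b : Bool => if b then Φ.pull _ sp else Φ
  simp only [Fintype.sum_bool, if_true, Bool.false_eq_true, if_false] at hΨ
  have e1 : ∀ (L : Fld K) (x : Bool → xz.X L), (G.UU.pi Bool).mem L x →
      Ψ.v L (some x) = Φ.a L (fl i L x) + Φ.a L x := fun L x h =>
    (hΨ L _).trans (congrArg (· + _) (Fe.pull_of_mem _ sp Φ ((G.UU.pi Bool).sp_some.2 h)))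
  have fm : Mp (G.UU.pi Bool) (G.UU.prod (VV G)) fun _ x => (x (!i), (x i).1) :=
    ⟨fun _ _ _ _ _ _ _ e => ⟨e _, (e i).1⟩, fun _ x h => ⟨h _, trivial,
      ((TD.UU_iff _).1 (h i)).2.symm.trans_ne (pow_ne_zero 2 ((TD.UU_iff _).1 (h i)).1)⟩⟩
  have fp : fm.mor.Proper := Pro.mor fm fun M O y z _ hy hz e => by
    have h1 := G.om_rel (Rel.ofPl O) e.2
    rw [← ((TD.UU_iff _).1 (hy i)).2] at h1
    have h2 : (y i).2 ∈ O.O := (O.O.mem_or_inv_mem _).elim id fun h => by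
      rw [← mul_inv_cancel_right₀ ((TD.UU_iff _).1 (hy i)).1 (y i).2, ← sq]
      exact mul_mem h1.1 h
    have h3 : O.rd (y i).2 ^ 2 = G.om _ z.2 := (O.rd_pow h2 2).symm.trans h1.2
    obtain ⟨w, w1, w2⟩ := exists_pair i (z.2, O.rd (y i).2) z.1
    exact ⟨w, (all_iff i).2 ⟨w1 ▸ uu_of h3 hz.2.2, w2 ▸ hz.1⟩,
      (all_iff i).2 ⟨w1 ▸ ⟨e.2, h2, rfl⟩, w2 ▸ e.1⟩⟩
  have fs : fm.mor.Surj := Srj.mor fm fun L _ z hz => by
    obtain ⟨y, hy⟩ := IsAlgClosed.exists_pow_nat_eq (G.om L z.2) two_pos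
    obtain ⟨w, w1, w2⟩ := exists_pair i (z.2, y) z.1
    exact ⟨w, (all_iff i).2 ⟨w1 ▸ uu_of hy hz.2.2, w2 ▸ hz.1⟩,
      Prod.ext w2 (congrArg Prod.fst w1)⟩
  obtain ⟨ψ, hψ⟩ := descent fp fs Ψ (by
    rintro L _ _ ⟨y, rfl, hy⟩ ⟨y', rfl, hy'⟩ e
    have e' : (y (!i), (y i).1) = (y' (!i), (y' i).1) := Option.some.inj e
    have h1 : (y' i).2 ^ 2 = (y i).2 ^ 2 := by
      rw [((TD.UU_iff _).1 (hy i)).2, ((TD.UU_iff _).1 (hy' i)).2, (Prod.mk.inj e').2]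
    rcases sq_eq_sq_iff_eq_or_eq_neg.1 h1 with h2 | h2
    · rw [show y' = y from funext ((all_iff i).2
        ⟨Prod.ext (Prod.mk.inj e').2.symm h2, (Prod.mk.inj e').1.symm⟩)]
    · rw [show y' = fl i L y from funext ((all_iff i).2
        ⟨by rw [fl_self]; exact Prod.ext (Prod.mk.inj e').2.symm h2,
          by rw [fl_not]; exact (Prod.mk.inj e').1.symm⟩), e1 L y hy, e1 L _ ((fl_mem i).2 hy),
        fl_fl, add_comm])
  obtain ⟨θ, hθ⟩ := WB.ext (WB.opnA (S := G.UU.prod (.univ K (.vec (Fin 2))))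
    (S' := G.UU.prod (VV G)) (fun _ _ h => ⟨h.1, trivial⟩) fun M O y y' h h' e =>
      ⟨h.1, trivial, Rel.ne_zero (G.om_rel _ e.2) h'.2.2⟩) ψ
  have key := FC2.up (p := p) θ fun j' L M α T B hj hT _ => by
    by_contra hne
    rw [show θ.a M _ = _ from hθ M _] at hne
    obtain ⟨M', ι, _, h1, ⟨w, rfl, hw⟩, h2⟩ := CKL.surj_lift fs (ψ.supp M _ hne).2
    have h3 := hψ M M' ι _ _ (ψ.supp M _ hne).1 h1 ⟨w, rfl, hw⟩ h2
    have h4 : w (!i) = xz.map ι (xz.map α B) := congrArg Prod.fst (Option.some.inj h2)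
    have h5 : ∀ w' : Bool → xz.X M', G.UU.mem M' (w' i) → w' (!i) = w (!i) → Φ.a M' w' = 0 :=
      fun w' m e => by
        obtain ⟨F, hF, tF⟩ := dm m
        refine hk M' (M'.sub F) L F.val (ι.comp α) w'
          (fun l => ⟨⟨_, (xz.all_iff _ _).1 hF l⟩, rfl⟩) (fun l => ⟨xz.co B l, ?_⟩) ?_
        · rw [e, h4, xz.co_map, xz.co_map]
          rfl
        · rw [hj, hT.gL.2, Nat.cast_add, add_comm]
          exact add_le_add_right tF _
    rw [e1 M' w hw, h5 w (hw i) rfl, h5 _ ((fl_mem i).2 hw i) (fl_not _ _ _), add_zero] at h3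
    exact mul_ne_zero (deg_ne h1) hne h3.symm
  refine eq_neg_of_add_eq_zero_left ((e1 L x hx).symm.trans ?_)
  by_contra hne
  refine hne ((hψ L L (AlgHom.id K L) (some (x (!i), (x i).1)) _ (Ψ.supp L _ hne).1
    (RingHom.Finite.id _) ⟨x, rfl, hx⟩ (Amb.map_id _ _).symm).trans ?_)
  exact mul_eq_zero_of_right _ ((hθ L _).symm.trans (key L _))

end YQa

open YQa in
theorem YQ_thm [Base K] (p : ℕ) [FWp K p] [FW0 K] [WA K] [WB K] [RC K] [X1 K] [BD K] : YQ K where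
  aff G j φ hk := by
    obtain ⟨ψ, hψ⟩ := WB.res (G.CO.sp.prod G.CO.sp) φ
      (fun L y m => ⟨m.1.imp fun _ e => ⟨e.1.1, e.2⟩, m.2.imp fun _ e => ⟨e.1.1, e.2⟩⟩) (by
        rintro L ⟨E, E'⟩ hne
        obtain ⟨⟨y, hy, e⟩, y', hy', e'⟩ := (φ.supp L _ hne).2
        obtain rfl : G.Γ.pt y = E := e
        obtain rfl : G.Γ.pt y' = E' := e'
        refine ⟨⟨y, ⟨hy, fun h0 => hne ?_⟩, rfl⟩, y', ⟨hy', fun h0 => hne ?_⟩, rfl⟩
        · exact zero φ hk ⟨hy, h0⟩ _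
        · exact (swp_v φ L _ _).symm.trans (zero (φ.pull _ (swp_pro _))
            (fun L L₁ L₂ ι₁ ι₂ y z hj => (swp_v φ L _ _).trans
              (hk L L₂ L₁ ι₂ ι₁ z y (add_comm L₁.tr _ ▸ hj))) ⟨hy', h0⟩ _))
    choose m hm _ using fun b : Bool => WA.morA (S := G.CO) (T := G.UU.pi Bool)
      (g := fun L x => G.sec L (x b))
      ⟨fun _ _ R _ _ _ m' e => X1.sec_rel R (m' b) (e b), fun _ _ m => X1.sec_co (m b)⟩
    let f : Mor (G.UU.pi Bool).sp (G.CO.sp.prod G.CO.sp) :=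
      ⟨fun y => ((m true).f y, (m false).f y), fun y hy => ⟨(m true).mem y hy, (m false).mem y hy⟩,
        fun ι y hy => Prod.ext ((m true).nat ι y hy) ((m false).nat ι y hy),
        fun O y hO hy hy' => Prod.ext ((m true).cont O y hO hy hy') ((m false).cont O y hO hy hy')⟩
    have fp : f.Proper := by
      rintro M O _ - ⟨x, rfl, hx⟩ h'
      choose x' h1 h2 using fun b : Bool => red_uu (O := O) (hx b) (by
        rw [← hm b M x]
        cases b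
        exacts [h'.2, h'.1])
      exact ⟨x', Cd.red_some (c := Cd.pi Bool xz) h2, h1⟩
    have e1 : ∀ L x, (G.UU.pi Bool).mem L x → (ψ.pull f fp).a L x =
        φ.v L (G.Γ.pt (G.sec L (x true)), G.Γ.pt (G.sec L (x false))) := fun L x hx => by
      refine (Fe.pull_of_mem f fp ψ ((G.UU.pi Bool).sp_some.2 hx)).trans ((hψ L _).trans ?_)
      rw [← hm true L x, ← hm false L x]
    have e2 : ∀ (L L₁ L₂ : Fld K) (ι₁ : L₁ →ₐ[K] L) (ι₂ : L₂ →ₐ[K] L) (w : Bool → xz.X L),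
        (∀ l, xz.co (w true) l ∈ Set.range ι₁) → (∀ l, xz.co (w false) l ∈ Set.range ι₂) →
        L₁.tr + L₂.tr ≤ j → (ψ.pull f fp).a L w = 0 := fun L L₁ L₂ ι₁ ι₂ w h1 h2 hj => by
      by_contra hne
      refine hne ((e1 L w ((G.UU.pi Bool).sp_some.1 ((ψ.pull f fp).supp L _ hne).2)).trans ?_)
      obtain ⟨A, hA⟩ := exists_map ι₁ h1
      obtain ⟨B, hB⟩ := exists_map ι₂ h2
      rw [← hA, ← hB, ← X1.sec_map, ← X1.sec_map]
      exact hk L L₁ L₂ ι₁ ι₂ (G.Γ.pt (G.sec L₁ A)) (G.Γ.pt (G.sec L₂ B)) hj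
    refine ⟨ψ.pull f fp, e1, fun i L x => anti p _ i ?_ L x,
      fun L L₁ L₂ ι₁ ι₂ w h1 h2 => e2 L L₁ L₂ ι₁ ι₂ w (fun l => h1 (true, l) rfl)
        fun l => h2 (false, l) Bool.false_ne_true⟩
    cases i
    · exact fun L L₁ L₂ ι₁ ι₂ w h1 h2 hj => e2 L L₂ L₁ ι₂ ι₁ w h2 h1 (add_comm L₁.tr _ ▸ hj)
    · exact e2

end Pool.Agent.Lib.MP_557161_ag.HG.TW.P2
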