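import Pool.Agent.Lib.MP_557161_ag.TW.StV

/-!
The symmetry of the intersection with the diagonal.
-/

namespace Pool.Agent.Lib.MP_557161_ag.HG.TW.P2

open Pool.Agent.Lib.MP_557161_ag.DL

variable {K : Type} [Field K] [X0 K]

namespace YSa

variable {G : GD K} {d : Cd} {W : ASp K d} {i : ℕ}

lemma term [WB K] [YT K] (θ : QF i (G.kb W).tot) {M : Fld K} {O : Pl M} {y' y v : Vr → M}
    {w : d.X M} {t : M} (ht : (Rel.ofPl O).r t 0) (e : y = y' + t • v)
    (h : θ.rr O ((y', w), v) ≠ 0) : θ.rr O ((y, w), -v) = θ.rr O ((y', w), v) := by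
  obtain ⟨u, ⟨⟨y₀, w₀⟩, v₀⟩, hu, hl, hm, he⟩ := WB.r_ne θ.toPre h
  have h0 := Wt.nm_un hu
  generalize Wt.nm (L := M) _ u _ = a at hl h0
  have hz := (G.kb W).tot.nz _ _ hm
  rw [he, ← YT.neg θ O.res (y₀, w₀) v₀]
  refine WB.r_eq θ.toPre (a := a) h0 ⟨⟨fun l => ?_, hl.1.2⟩, fun l => ?_⟩ ?_
  · have h1 := (Rel.ofPl O).add (hl.1.1 l) ((Rel.ofPl O).mul ht (hl.2 l))
    rw [zero_mul, add_zero] at h1
    convert h1 using 1
    show wt a _ * y l = wt a _ * y' l + t * (wt a _ * v l)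
    rw [e, Pi.add_apply, Pi.smul_apply, smul_eq_mul]
    ring
  · have h1 : (Rel.ofPl O).r (-(wt a _ * v l)) (-v₀ l) := Rel.neg (hl.2 l)
    rw [← mul_neg] at h1
    exact h1
  · obtain ⟨u', hu'⟩ := hz
    refine ⟨u', fun s => ?_⟩
    have h1 := hu' s
    generalize u' s = k at h1
    rcases k with k | k
    · exact h1
    · exact h1.1.elim

lemma sym1 [WB K] [YT K] {θ : QF i (G.kb W).tot} {Ψ : QF (i + 1) (G.JT W)} (h : G.IsDf θ Ψ)
    {M : Fld K} {y' y : Vr → M} {w : d.X M} {t : M} (h0 : Ψ.qq M (((y', w), y), t) ≠ 0) :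
    Ψ.qq M (((y, w), y'), t) = Ψ.qq M (((y', w), y), t) := by
  obtain ⟨hg, ⟨⟨h1, h2⟩, h3⟩, h4⟩ := WB.mem Ψ.toPre h0
  have ht : t ≠ 0 := h4
  rw [← (h M y' y w t hg h1 h2 h3 ht).2, ← (h M y y' w t hg h3 h2 h1 ht).2]
  refine finsum_congr fun O => ?_
  beta_reduce
  split_ifs with ho
  · have hr : (Rel.ofPl O.1).r t 0 := (Pl.ord_pos_iff O.2.1 ht).1 ho
    have e1 : ∀ z z' : Vr → M, z = z' + t • t⁻¹ • (z - z') := fun z z' => by
      rw [smul_smul, mul_inv_cancel₀ ht, one_smul, add_sub_cancel]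
    have e2 : ∀ z z' : Vr → M, t⁻¹ • (z' - z) = -(t⁻¹ • (z - z')) := fun z z' => by
      rw [← smul_neg, neg_sub]
    congr 1
    by_cases a1 : θ.rr O.1 ((y', w), t⁻¹ • (y - y')) = 0
    · by_cases a2 : θ.rr O.1 ((y, w), t⁻¹ • (y' - y)) = 0
      · rw [a1, a2]
      · rw [← term θ hr (e1 y' y) a2, ← e2]
    · rw [← term θ hr (e1 y y') a1, ← e2]
  · rfl

lemma sym [WB K] [YT K] {θ : QF i (G.kb W).tot} {Ψ : QF (i + 1) (G.JT W)} (h : G.IsDf θ Ψ)
    (M : Fld K) (y' y : Vr → M) (w : d.X M) (t : M) :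
    Ψ.qq M (((y, w), y'), t) = Ψ.qq M (((y', w), y), t) := by
  by_cases a1 : Ψ.qq M (((y', w), y), t) = 0
  · by_cases a2 : Ψ.qq M (((y, w), y'), t) = 0
    · rw [a1, a2]
    · exact (sym1 h a2).symm
  · exact sym1 h a1

lemma jp [WB K] [YT K] {θ : QF i (G.kb W).tot} {Ψ : QF (i + 1) (G.JT W)} (h : G.IsDf θ Ψ)
    {L M : Fld K} (α : L →ₐ[K] M) {T : Option Tr → M} (hT : Un fun s => T (some s))
    (A B : xz.X L) (w : d.X L) :
    Ψ.qq M (G.jp α T A B w) =
      Ψ.qq M (G.jp α (fun o => o.elim (T none) fun s => (T (some s))⁻¹) B A w) := by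
  refine (sym h M _ _ _ _).trans ?_
  refine congrArg (Ψ.v M) (((G.ΓJ d).pt_scl hT.inv _).symm.trans (congrArg _ ?_))
  exact Prod.ext (Prod.ext (Prod.ext (G.Γ.scl_inv hT _) rfl) rfl) rfl

end YSa

theorem YS_thm [FW0 K] [WB K] [YT K] : YS K where
  swap {G d W j θ Ψ} h c Φ hΦ L A B w := by
    have key : ∀ A B : xz.X L, Φ.a L ((A, B), w) ≠ 0 → Φ.a L ((A, B), w) = Φ.a L ((B, A), w) := by
      intro A B h0
      obtain ⟨hg, hm⟩ := Φ.supp _ _ h0
      obtain ⟨⟨hA, hB⟩, hw⟩ := (ASp.sp_some _).1 hm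
      have hF := FA1.fr_free (Option Tr) hg
      generalize frα L (Option Tr) = α at hF
      generalize frT L (Option Tr) = T at hF
      have hT : Un fun s => T (some s) := fun s e => (FA1.trans hF _).ne 0 (e.trans (map_zero α).symm)
      have hF' : Free j α fun o : Option Tr => o.elim (T none) fun s => (T (some s))⁻¹ := by
        refine FA1.of_gen hF rfl fun o => ?_
        rcases o with _ | s
        · exact IntermediateField.subset_adjoin _ _ (.inr ⟨none, rfl⟩)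
        · exact inv_inv (T (some s)) ▸
            inv_mem (IntermediateField.subset_adjoin _ _ (.inr ⟨some s, rfl⟩))
      rw [hΦ L _ α T A B w hF hA hB hw, hΦ L _ α _ B A w hF' hB hA hw, Finset.sum_comm]
      refine congrArg _ (Finset.sum_congr rfl fun ε _ => Finset.sum_congr rfl fun ε' _ => ?_)
      rw [YSa.jp h α hT, mul_comm (sn ε')]
    by_cases a1 : Φ.a L ((A, B), w) = 0
    · by_cases a2 : Φ.a L ((B, A), w) = 0
      · rw [a1, a2]
      · exact (key B A a2).symm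
    · exact key A B a1

end Pool.Agent.Lib.MP_557161_ag.HG.TW.P2
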