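import Pool.Agent.Lib.MP_557161_ag.TW.StV

/-!
The intersection with the zero section of the tangent bundle.
-/

namespace Pool.Agent.Lib.MP_557161_ag.HG.TW.P2

open Pool.Agent.Lib.MP_557161_ag.DL

variable {K : Type} [Field K] [X0 K]

namespace YTa

lemma card : Fintype.card Vr = 6 + 2 := by simp

variable {G : GD K} {d d' : Cd} {W : ASp K d} {W' : ASp K d'} {j : ℕ}

lemma off [WB K] {k : ℕ} (θ : QF k (G.kb W).tot) {L : Fld K} {y : Vr → L} {w : d.X L}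
    (v : Vr → L) (h : ¬ (G.Cn L y ∧ W.mem L w)) : θ.qq L ((y, w), v) = 0 :=
  by_contra fun e => h (WB.mem θ.toPre e).2.1.1

lemma exK [WB K] [KE K] [YA K] (G : GD K) (φ : AF j W) :
    ∃ θ, G.Th φ θ ∧ ∀ q : d.ι → Prop, KlP d q j φ.a → KlP ((cw.prod d).prod cw)
      (Sum.elim (Sum.elim (fun _ => True) q) fun _ => True) (j + 6) θ.qq := by
  obtain ⟨φ₁, h₁⟩ := WB.pullB (S := G.B1 W) (T := W) (g := fun _ x => x.2)
    ⟨fun _ _ _ _ _ _ _ e => e.2, fun _ _ m => m.2⟩ (fun _ _ _ _ _ => rfl)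
    (fun M O x z _ hx hz e => by
      obtain ⟨u, y', h0, hc, hl⟩ := YA.cmp O hx.1
      exact ⟨G.Γ.nm u x.1, (y', z), Wt.nm_un h0, ⟨hc, hz⟩, hl, e⟩) φ
  obtain ⟨θ, hu, hk⟩ := KE.ex (G.kb W) card φ₁
  refine ⟨θ, ⟨φ₁, fun L y w hy => ?_, hu⟩, fun q hq => hk _ ?_ ?_ ?_⟩
  · by_cases hw : W.mem L w
    · exact h₁ L (y, w) ⟨hy, hw⟩
    · exact (by_contra fun e => hw (WB.mem φ₁.toPre e).2.2).trans
        (by_contra fun e => hw (W.sp_some.1 (φ.supp _ _ e).2)).symm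
  · rintro (i | i) hi
    exacts [absurd trivial hi, rfl]
  · intro r μ L F x _ hx
    exact (Rel.aeval (R := Rel.ofSub F) ((Cd.lift_sub F).2
      ⟨(cw.all_iff _ _).2 fun i => hx (Sum.inl i) trivial, rfl⟩) _).1
  · intro L L₁ L₂ ι₁ ι₂ x h1 h2 hle
    by_contra e
    exact e ((h₁ L x (WB.mem φ₁.toPre e).2).trans
      (hq L L₁ L₂ ι₁ ι₂ x.2 (fun i => h1 (Sum.inr i)) (fun i => h2 (Sum.inr i)) hle))

lemma nat [WB K] [KN K] {φ : AF j W} {φ' : AF j W'} {θ θ'} (h : G.Th φ θ) (h' : G.Th φ' θ')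
    {g : ∀ L : Fld K, d'.X L → d.X L} (hg : Mp W' W g) (hp : Pro W' W g) (χ : ℂ)
    (hφ : ∀ L w, W'.mem L w → φ'.a L w = χ * φ.a L (g L w)) (L : Fld K) (y : Vr → L)
    (w : d'.X L) (v : Vr → L) (hw : W'.mem L w) :
    θ'.qq L ((y, w), v) = χ * θ.qq L ((y, g L w), v) := by
  obtain ⟨φ₁, h₁, hu⟩ := h
  obtain ⟨φ₁', h₁', hu'⟩ := h'
  by_cases hy : G.Cn L y
  · refine KN.nat (G.kb W) (G.kb W') card (f := fun L x => (x.1, g L x.2))
      ⟨⟨fun _ _ R _ _ m m' e => ⟨e.1, hg.reg R m.2 m'.2 e.2⟩,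
        fun L x m => ⟨m.1, hg.mem L x.2 m.2⟩⟩, fun _ _ _ _ _ => rfl⟩ ?_
      (fun _ _ _ => rfl) θ θ' χ hu hu' ?_ L (y, w) v ⟨hy, hw⟩
    · intro M O x z hO m mz e
      obtain ⟨w', h1, h2⟩ := hp M O x.2 z.2 hO m.2 mz.2 e.2
      exact ⟨(z.1, w'), ⟨mz.1, h1⟩, e.1, h2⟩
    · intro L b m
      exact (h₁' L b.1 b.2 m.1).trans ((hφ L b.2 m.2).trans
        (congrArg _ (h₁ L b.1 (g L b.2) m.1).symm))
  · rw [off θ' v fun e => hy e.1, off θ v fun e => hy e.1, mul_zero]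

lemma uq [WB K] [KN K] {φ : AF j W} {θ θ'} (h : G.Th φ θ) (h' : G.Th φ θ') (L : Fld K)
    (x : ((cw.prod d).prod cw).X L) : θ'.qq L x = θ.qq L x := by
  obtain ⟨⟨y, w⟩, v⟩ := x
  by_cases hw : W.mem L w
  · exact (nat h h' (g := fun _ w => w) ⟨Reg.id W, fun _ _ m => m⟩
      (fun _ _ _ z _ _ hz e => ⟨z, hz, e⟩) 1 (fun _ _ _ => (one_mul _).symm) L y w v hw).trans
      (one_mul _)
  · rw [off θ' v fun e => hw e.2, off θ v fun e => hw e.2]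

lemma smul_mem {L : Fld K} (t : L) {b : (cw.prod d).X L} {v : Vr → L}
    (h : (G.kb W).tot.mem L (b, v)) : (G.kb W).tot.mem L (b, t • v) := by
  refine ⟨⟨h.1.1, trivial⟩, fun r => ?_⟩
  have e : ∑ μ, (G.kb W).n L b r μ * v μ = 0 := h.2 r
  show ∑ μ, (G.kb W).n L b r μ * (t * v μ) = 0
  simp only [mul_left_comm _ t, ← Finset.mul_sum, e, mul_zero]

lemma neg [WB K] [WN K] {i : ℕ} (θ : QF i (G.kb W).tot) (L : Fld K) (b : (cw.prod d).X L)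
    (v : Vr → L) : θ.qq L (b, -v) = θ.qq L (b, v) := by
  by_cases hm : (G.kb W).tot.mem L (b, v)
  · have key := (WN.conn (S := (G.kb W).tot) (ASp.gm K).sp (.gm K)
      (fun L x => (x.2.1, x.1 • x.2.2)) (fun L x => (x.2.1, x.1⁻¹ • x.2.2))
      ⟨fun M L R x x' _ _ e => ⟨e.2.1, fun l => R.mul e.1 (e.2.2 l)⟩,
        fun L x m => smul_mem _ m.2⟩
      ⟨fun M L R x x' _ m' e => ⟨e.2.1, fun l => R.mul (R.inv e.1 m'.1) (e.2.2 l)⟩,
        fun L x m => smul_mem _ m.2⟩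
      (fun L t a x _ _ _ => ⟨Prod.ext rfl (funext fun _ => mul_left_comm _ _ _),
        Prod.ext rfl (funext fun _ => mul_left_comm _ _ _)⟩)
      (fun L t x ht _ => Prod.ext rfl (inv_smul_smul₀ ht _))
      (fun L T hT e => hT (e ▸ isAlgebraic_zero)) (-1) 1 (neg_ne_zero.2 one_ne_zero)
      one_ne_zero).2 θ L (b, v) hm
    simpa only [map_neg, map_one, neg_smul, one_smul] using key
  · have h1 : θ.qq L (b, v) = 0 := by_contra fun e => hm (WB.mem θ.toPre e).2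
    have h2 : θ.qq L (b, -v) = 0 := by_contra fun e => hm (by
      simpa only [neg_smul, one_smul, neg_neg] using smul_mem (-1) (WB.mem θ.toPre e).2)
    rw [h1, h2]

end YTa

theorem YT_thm [WB K] [WN K] [AD K] [KE K] [KN K] [YA K] : YT K where
  ex G _ _ _ φ := (YTa.exK G φ).imp fun _ h => h.1
  kills := by
    intro G d W j φ θ h q hq L L₁ L₂ ι₁ ι₂ x h1 h2 hle
    obtain ⟨θ', h', hk⟩ := YTa.exK G φ
    exact (YTa.uq h' h L x).trans (hk q hq L L₁ L₂ ι₁ ι₂ x h1 h2 hle)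
  nat h h' _ hg hp χ hφ L y w v hw := YTa.nat h h' hg hp χ hφ L y w v hw
  low θ _ _ v hd hm := (AD.kb _ YTa.card).elim fun E => AD.low E θ.toPre v hd hm
  val := by
    rintro G d W j φ θ ⟨φ₁, h₁, hu⟩ L M α y w v gL gM top hy hw hs
    exact (hu L M α (y, w) v ⟨gL, gM, top,
      ⟨((G.B1 W).S.map_iff α (y, w)).2 ⟨hy, hw⟩, trivial⟩, hs⟩).trans (h₁ L y w hy)
  neg θ L b v := YTa.neg θ L b v

end Pool.Agent.Lib.MP_557161_ag.HG.TW.P2
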