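import Pool.Agent.Lib.MP_557161_ag.TW.StV
import Pool.Agent.Lib.MP_557161_ag.TW.SE

/-!
The diagonal is the unit.
-/

namespace Pool.Agent.Lib.MP_557161_ag.HG.TW.P2

open Pool.Agent.Lib.MP_557161_ag.DL

variable {K : Type} [Field K] {G : GD K} {L N : Fld K} {c d : Cd} {S : ASp K c}
  {W : ASp K d} {j : ℕ} {g : ∀ L : Fld K, (xz.prod c).X L → d.X L}

namespace YUp

variable {O : Pl N} {A y : xz.X N} {u : c.X N} {b : Tr → N} {t : N} {v : Vr → N} [X1 K]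

/-- The reduction at a place where the difference quotient is integral. -/
lemma near (hg : Mp (G.UU.prod S) W g) (hy : G.UU.mem N y) (hu : S.mem N u) (hb : Un b)
    (ht : (Rel.ofPl O).r t 0) (hv : IntV O v)
    (e : ∀ μ, G.sec N A μ = G.Γ.scl b (G.sec N y) μ + t * v μ)
    {A' : xz.X O.res} {u' : c.X O.res} (hA' : G.UU.mem O.res A') (hu' : S.mem O.res u')
    (eA : xz.lift (Rel.ofPl O).r A A') (eu : c.lift (Rel.ofPl O).r u u') :
    ((cw.prod d).prod cw).lift (Rel.ofPl O).r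
      ((G.Γ.scl b (G.sec N y), g N (y, u)), v) ((G.sec O.res A', g O.res (A', u')), rdV O v) := by
  have h1 : cw.lift (Rel.ofPl O).r (G.Γ.scl b (G.sec N y)) (G.sec O.res A') := fun μ => by
    have := Rel.sub (X1.sec_rel _ hA' eA μ) ((Rel.ofPl O).mul ht ⟨hv μ, rfl⟩)
    rwa [e, add_sub_cancel_right, zero_mul, sub_zero] at this
  have h3 := (X1.pr_rel _ (X1.sec_co hA') h1).1
  rw [X1.pr_scl G _ hb, X1.pr_sec hy, X1.pr_sec hA'] at h3
  exact ⟨⟨h1, hg.reg _ (x := (y, u)) (x' := (A', u')) ⟨hy, hu⟩ ⟨hA', hu'⟩ ⟨h3, eu⟩⟩,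
    fun μ => ⟨hv μ, rfl⟩⟩

variable [X0 K] [WB K]

lemma r_near {i : ℕ} (θ : QF i (G.kb W).tot) {x : (cw.prod d).X N} {A' : xz.X O.res}
    {w : d.X O.res} {v' : Vr → O.res} (hA' : G.UU.mem O.res A')
    (e : ((cw.prod d).prod cw).lift (Rel.ofPl O).r (x, v) ((G.sec O.res A', w), v')) :
    θ.rr O (x, v) = θ.qq O.res ((G.sec O.res A', w), v') :=
  WB.r_eq θ.toPre (a := 1) Un.one (by rwa [Wt.scl_one])
    ((G.Γ1 d).nz_prod (.vec (wv G.g G.h)) (G.Γ.nz_prod (.triv d) (X1.sec_co hA').1.1 w) v')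

/-- The places that contribute. -/
lemma live {i : ℕ} (θ : QF i (G.kb W).tot) (hp : Pro (G.UU.prod S) W g) (hO : O.IsDVR)
    (hA : G.UU.mem N A) (hy : G.UU.mem N y) (hu : S.mem N u) (hb : Un b)
    (ht : (Rel.ofPl O).r t 0) (e : ∀ μ, G.sec N A μ = G.Γ.scl b (G.sec N y) μ + t * v μ)
    (ne : θ.rr O ((G.Γ.scl b (G.sec N y), g N (y, u)), v) ≠ 0) :
    IntV O v ∧ ∃ A' u', G.UU.mem O.res A' ∧ S.mem O.res u' ∧
      xz.lift (Rel.ofPl O).r A A' ∧ c.lift (Rel.ofPl O).r u u' := by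
  obtain ⟨l, ⟨⟨y', w'⟩, v'⟩, l0, h1, m, -⟩ := WB.r_ne θ.toPre ne
  replace l0 := Wt.nm_un l0
  generalize Wt.nm (L := N) _ l _ = a at l0 h1
  obtain ⟨⟨h1, h2⟩, h3⟩ : (cw.lift (Rel.ofPl O).r (G.Γ.scl a (G.Γ.scl b (G.sec N y))) y' ∧
    d.lift (Rel.ofPl O).r (g N (y, u)) w') ∧
      ∀ μ, (Rel.ofPl O).r (wt a (wv G.g G.h μ) * v μ) (v' μ) := h1
  obtain ⟨⟨y₁, u₁⟩, m', h4, h5⟩ := hp N O (y, u) w' hO ⟨hy, hu⟩ m.1.1.2 h2
  have h6 : cw.lift (Rel.ofPl O).r (G.Γ.scl a (G.sec N A)) y' := fun μ => by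
    have := (Rel.ofPl O).add (h1 μ) ((Rel.ofPl O).mul ht (h3 μ))
    rw [zero_mul, add_zero] at this
    refine (congrArg ((Rel.ofPl O).r · _) ?_).mp this
    show wt a (wv G.g G.h μ) * G.Γ.scl b (G.sec N y) μ + _ = wt a (wv G.g G.h μ) * G.sec N A μ
    rw [e, mul_add, mul_left_comm t]
  rw [G.Γ.scl_scl] at h1
  have c1 := X1.sec_co m'.1
  have n' : G.Γ.nz y' := G.CC.nz _ _ m.1.1.1
  have h4' := X1.sec_rel _ m'.1 h4
  obtain ⟨a', a0, h7⟩ := G.Γ.unit_of_lift (l0.mul hb) h4' h1 c1.1.1 n'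
  have e1 : y' = G.Γ.scl a' (G.sec O.res y₁) := Cd.lift_eq h1 (G.Γ.lift_scl h7 a0 h4') rfl
  have h9 := (X1.pr_rel _ (e1 ▸ G.CO.inv _ a' _ a0 c1 : G.Co _ y') h6).1
  rw [X1.pr_scl G _ l0, X1.pr_sec hA, e1, X1.pr_scl G _ a0, X1.pr_sec m'.1] at h9
  obtain ⟨a'', a1, h8⟩ := G.Γ.unit_of_lift l0 (X1.sec_rel _ m'.1 h9) h6 c1.1.1 n'
  refine ⟨fun μ => ?_, y₁, u₁, m'.1, m'.2, h9, h5⟩
  have := (Rel.div (h3 μ) (wt_rel h8 a1 (wv G.g G.h μ)) (wt_ne a1 _)).1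
  rwa [mul_div_cancel_left₀ _ (wt_ne l0 _)] at this

variable [Base K] [FW0 K] [YT K] [YP K]

lemma core {φ : AF j W} {θ : QF (j + 6) (G.kb W).tot}
    {Ψ : QF (j + 6 + 1) (G.JT W)} (h1 : G.Th φ θ) (h2 : G.IsDf θ Ψ)
    (hg : Mp (G.UU.prod S) W g) (hp : Pro (G.UU.prod S) W g) {κ : L →ₐ[K] N}
    (hy : G.UU.mem N y) (hb : Un b) (t0 : t ≠ 0) (gc : G.GenC j κ (G.Γ.scl b (G.sec N y)) t)
    {R : xz.X L} {u : c.X L} (hR : G.UU.mem L R) (hu : S.mem L u) :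
    Ψ.qq N (((G.Γ.scl b (G.sec N y), g N (y, c.map κ u)), G.sec N (xz.map κ R)), t) =
      φ.a L (g L (R, u)) := by
  obtain ⟨O, h, o1, iv, tp, lin, un⟩ := YP.pt gc (G.sec L R) (X1.sec_co hR).1 _ rfl
  have hA := (G.UU.map_iff κ R).2 hR
  have hu' := (S.map_iff κ u).2 hu
  have s := (h2 N _ _ (g N (y, c.map κ u)) t gc.gM gc.mem
    (hg.mem _ (y, _) ⟨hy, hu'⟩) (X1.sec_co hA).1 t0).2
  rw [X1.sec_map G κ] at iv tp lin un
  generalize hv : t⁻¹ • (G.sec N (xz.map κ R) - G.Γ.scl b (G.sec N y)) = v at *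
  have e : ∀ μ, G.sec N (xz.map κ R) μ = G.Γ.scl b (G.sec N y) μ + t * v μ := fun μ => by
    rw [← hv, Pi.smul_apply, smul_eq_mul, mul_inv_cancel_left₀ t0, Pi.sub_apply, add_sub_cancel]
  have k : ∀ {O' : Pl N} {L' : Fld K} (ι : L' →ₐ[K] O'.res) {R' : xz.X L'} {u' : c.X L'},
      (Rel.ofPl O').r t 0 → IntV O' v → G.UU.mem L' R' → S.mem L' u' →
      xz.lift (Rel.ofPl O').r (xz.map κ R) (xz.map ι R') →
      c.lift (Rel.ofPl O').r (c.map κ u) (c.map ι u') →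
      θ.rr O' ((G.Γ.scl b (G.sec N y), g N (y, c.map κ u)), v) =
        θ.qq O'.res ((cw.map ι (G.sec L' R'), d.map ι (g L' (R', u'))), rdV O' v) :=
    fun {O' L'} ι R' u' ht iv m1 m2 l1 l2 => by
      have m3 := (G.UU.map_iff ι R').2 m1
      rw [← hg.reg.nat ι (x := (R', u')) ⟨m1, m2⟩, X1.sec_map]
      exact r_near θ m3 (near hg hy hu' hb ht iv e m3 ((S.map_iff ι u').2 m2) l1 l2)
  refine s.symm.trans ((finsum_eq_single _ O fun O' ne => ?_).trans ?_)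
  · split_ifs with p
    swap
    · rfl
    refine mul_eq_zero_of_right _ (by_contra fun n => n ?_)
    have ht := (Pl.ord_pos_iff O'.2.1 t0).1 p
    obtain ⟨iv', A', u', m1, m2, l1, l2⟩ := live θ hp O'.2.1 hA hy hu' hb ht e n
    by_cases h' : Pl.Triv κ O'.1
    · rw [k h'.hom ht iv' hR hu (Cd.lift_triv h' R) (Cd.lift_triv h' u)]
      refine Se.low θ.toPre (gen h'.hom (rdV O'.1 v)) ?_
        ((un O'.1 h' O'.2.1 (fun e' => ne (Subtype.ext e')) ht.1 ht.2 iv').trans_lt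
          (by exact_mod_cast Nat.lt_succ_self _))
      rintro ((i | i) | i)
      · exact Se.gl _ _ _
      · exact (d.co_map h'.hom (g L (R, u)) i).symm ▸ Se.gl _ _ _
      · exact Se.gr _ _ i
    · have ov := Pl.over_comap κ O'.1
      have k1 := (Cd.lift_pl _).2 ⟨(Cd.all_over ov).1 ((Cd.lift_pl O'.1).1 l1).1, rfl⟩
      have k2 := (Cd.lift_pl _).2 ⟨(Cd.all_over ov).1 ((Cd.lift_pl O'.1).1 l2).1, rfl⟩
      have k3 := Cd.lift_over ov k1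
      have k4 := Cd.lift_over ov k2
      rw [k ov.resHom ht iv' ((G.UU.map_iff ov.resHom _).1 (Cd.lift_eq l1 k3 rfl ▸ m1))
        ((S.map_iff ov.resHom _).1 (Cd.lift_eq l2 k4 rfl ▸ m2)) k3 k4]
      have tr := Pl.tr_res_lt (Pl.comap κ O'.1) (fun e => h' fun a =>
        (ov a).1 (e ▸ ValuationSubring.mem_top a)) gc.gL.2.le
      obtain ⟨m, hm⟩ := Cardinal.lt_aleph0.1 (tr.trans Cardinal.natCast_lt_aleph0)
      rw [hm] at tr
      exact YT.low θ _ ((FA3.dm_map (c := cw.prod d) ov.resHom (x := (_, _))).2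
        (FA3.dm_tr _ hm.le)) (Nat.cast_lt.1 tr)
  · have p : 0 < O.1.ord t := o1 ▸ one_pos
    rw [if_pos p, o1, Int.cast_one, one_mul, k h.hom ((Pl.ord_pos_iff O.2.1 t0).1 p) iv hR hu
      (Cd.lift_triv h R) (Cd.lift_triv h u)]
    exact YT.val h1 _ gc.gL (O.2.good gc.gM) tp (X1.sec_co hR).1 (hg.mem L (R, u) ⟨hR, hu⟩) lin

end YUp

theorem YU_thm {K : Type} [Field K] [Base K] [X0 K] [X1 K] [FW0 K] [WB K] [YA K] [YT K]
    [YP K] : YU K :=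
  ⟨fun {G c d S W j φ Ψ} ⟨θ, h1, h2⟩ g hg hp L M N α y hy R u hR hu β T hT => by
    have T0 : ∀ i, T i ≠ 0 := fun i e => Polynomial.X_ne_zero (FA1.trans hT i Polynomial.X (by
      rw [Polynomial.eval₂_X, e]))
    have T1 : Un fun s => T (some s) := fun s => T0 _
    have gc := YA.genC hy β (fun s => T (some s))⁻¹ (T none) (by simpa [add_assoc] using hT.gM)
      T1.inv (top_unique (hT.top.ge.trans (IntermediateField.adjoin_le_iff.2 (by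
        rintro _ (⟨a, rfl⟩ | ⟨_ | s, rfl⟩)
        exacts [Se.gl _ _ a, Se.gr β _ (Sum.inr ()),
          inv_mem_iff.1 (Se.gr β (Sum.elim (fun s => T (some s))⁻¹ fun _ : Unit => T none)
            (Sum.inl s))]))))
    rw [← YUp.core h1 h2 hg hp ((G.UU.map_iff β y).2 hy.mem) T1.inv (T0 _) gc hR hu]
    refine congrArg (Ψ.v N) ((Wt.pt_scl _ T1.inv _).symm.trans (congrArg _ ?_))
    refine Prod.ext (Prod.ext (Prod.ext rfl ?_) ((G.Γ.scl_inv T1 _).trans ?_)) rfl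
    · refine (hg.reg.nat β (x := (y, c.map α u)) ⟨hy.mem, (S.map_iff α u).2 hu⟩).symm.trans ?_
      exact congrArg (fun z => g N (_, z)) (c.map_map α β u)
    · exact congrArg (G.sec N) (xz.map_map α β R)⟩

end Pool.Agent.Lib.MP_557161_ag.HG.TW.P2
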