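import Pool.Agent.Lib.MP_557161_ag.TW.StV

/-!
Antisymmetric functionals on the square of the torsor live on the unramified part.
-/

namespace Pool.Agent.Lib.MP_557161_ag.HG.TW.P2

open Pool.Agent.Lib.MP_557161_ag.DL MvPolynomial

variable {K : Type} [Field K]

namespace YWa

/-- A functional is invariant under `γ (-1)` on the zero set of `s`. -/
lemma van [WB K] [WN K] {c : Cd} {Γ : Wt c} {S : QS K Γ} {k : Tr → ℤ}
    {s : ∀ L : Fld K, c.X L → L} (h : Hom S k s) (γ : ∀ L : Fld K, L → c.X L → c.X L)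
    (hr : ∀ (M L : Fld K) (R : Rel M L) (t : M) (t' : L) x x', t' ≠ 0 → R.r t t' →
      c.lift R.r x x' → c.lift R.r (γ M t x) (γ L t' x'))
    (hm : ∀ (L : Fld K) (t : L) x, t ≠ 0 → S.mem L x → s L x = 0 →
      S.mem L (γ L t x) ∧ s L (γ L t x) = 0)
    (hs : ∀ (L : Fld K) (t : L) (a : Tr → L) x, γ L t (Γ.scl a x) = Γ.scl a (γ L t x))
    (hi : ∀ (L : Fld K) (t : L) x, t ≠ 0 → γ L t⁻¹ (γ L t x) = x)
    (h1 : ∀ (L : Fld K) x, γ L 1 x = x) {j : ℕ} (Θ : QF j S) {L : Fld K} {x : c.X L}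
    (hx : S.mem L x) (h0 : s L x = 0) : Θ.qq L (γ L (-1) x) = Θ.qq L x := by
  obtain ⟨θ, hθ⟩ := WB.pull (S := S.zer h) (T := S) (f := fun _ x => x)
    ⟨⟨Reg.id _, fun _ _ m => m.1⟩, fun _ _ _ _ _ => rfl⟩
    (fun M O x z _ m mz e => ⟨z, ⟨mz, Rel.eq_zero (h.reg _ m.1 mz e) m.2⟩, e⟩) Θ
  have n1 : (-1 : L) ≠ 0 := neg_ne_zero.2 one_ne_zero
  have key := (WN.conn (S := S.zer h) (ASp.gm K).sp (.gm K) (fun L x => γ L x.1 x.2)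
    (fun L x => γ L x.1⁻¹ x.2)
    ⟨fun M L R x x' _ m' e => hr M L R _ _ _ _ m'.1 e.1 e.2,
      fun L x m => hm L x.1 x.2 m.1 m.2.1 m.2.2⟩
    ⟨fun M L R x x' _ m' e => hr M L R _ _ _ _ (inv_ne_zero m'.1) (R.inv e.1 m'.1) e.2,
      fun L x m => hm L x.1⁻¹ x.2 (inv_ne_zero m.1) m.2.1 m.2.2⟩
    (fun L t a x _ _ _ => ⟨hs L t a x, hs L t⁻¹ a x⟩) (fun L t x ht _ => hi L t x ht)
    (fun L T hT e => hT (e ▸ isAlgebraic_zero)) (-1) 1 (neg_ne_zero.2 one_ne_zero)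
    one_ne_zero).2 θ L x ⟨hx, h0⟩
  simp only [map_neg, map_one, h1] at key
  rw [← hθ L _ (hm L (-1) x n1 hx h0), ← hθ L x ⟨hx, h0⟩]
  exact key

variable {G : GD K} {M L : Fld K}

lemma gam_inv [X2 K] {t : L} (ht : t ≠ 0) (w : Vr → L) : gam t⁻¹ (gam t w) = w := by
  rw [X2.gam_gam, inv_mul_cancel₀ ht, X2.gam_one]

/-- Normalisation by the section. -/
lemma nrm [X1 K] {R : Rel M L} {a : Tr → M} {A : xz.X M} {z : Vr → L} (hA : G.UU.mem M A)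
    (h0 : Un a) (hz : G.Co L z) (e : cw.lift R.r (G.Γ.scl a (G.sec M A)) z) :
    xz.lift R.r A (G.pr L z) ∧ ∃ a', Un a' ∧ ∀ s, R.r (a s) (a' s) := by
  have h1 := (X1.pr_rel R hz e).1
  rw [X1.pr_scl G _ h0, X1.pr_sec hA] at h1
  exact ⟨h1, G.Γ.unit_of_lift h0 (X1.sec_rel R (X1.pr_uu hz) h1) e
    (X1.sec_co (X1.pr_uu hz)).1.1 hz.1.1⟩

variable {d : Cd} {W : ASp K d} {j : ℕ}

/-- The shape of the points. -/
abbrev jsh (d : Cd) : Cd := ((cw.prod d).prod cw).prod .one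

/-- The involutions. -/
def fl (ε : Bool × Bool) (L : Fld K) (x : (jsh d).X L) : (jsh d).X L :=
  (((sw ε.2 x.1.1.1, x.1.1.2), sw ε.1 x.1.2), x.2)

lemma fl_mp [X2 K] (ε : Bool × Bool) : Mp (G.JT W).S (G.JT W).S (fl ε) :=
  ⟨fun _ _ R _ _ _ _ e => ⟨⟨⟨X2.sw_rel R _ e.1.1.1, e.1.1.2⟩, X2.sw_rel R _ e.1.2⟩, e.2⟩,
    fun _ _ m => ⟨⟨⟨(X2.sw_cn _).2 m.1.1.1, m.1.1.2⟩, (X2.sw_cn _).2 m.1.2⟩, m.2⟩⟩

/-- The antisymmetrisation. -/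
lemma anti [WB K] [X2 K] (c : ℂ) (Ψ : QF j (G.JT W)) : ∃ Θ : QF j (G.JT W), ∀ L x,
    (G.JT W).mem L x →
    Θ.qq L x = c * ∑ ε : Bool, ∑ ε' : Bool, sn ε * sn ε' * Ψ.qq L (fl (ε, ε') L x) := by
  have h : ∀ ε : Bool × Bool, ∃ θ : QF j (G.JT W), ∀ L x, (G.JT W).mem L x →
      θ.qq L x = Ψ.qq L (fl ε L x) := fun ε =>
    WB.pull ⟨fl_mp ε, fun L a x _ _ =>
      Prod.ext (Prod.ext (Prod.ext (X2.sw_scl G _ _ _) rfl) (X2.sw_scl G _ _ _)) rfl⟩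
      (Pro.of_left (fl_mp ε) (fl_mp ε) fun L x _ =>
        Prod.ext (Prod.ext (Prod.ext (X2.sw_sw _ _) rfl) (X2.sw_sw _ _)) rfl) Ψ
  choose θ hθ using h
  obtain ⟨Θ, hΘ⟩ := WB.lin Finset.univ (fun ε : Bool × Bool => c * (sn ε.1 * sn ε.2)) θ
  refine ⟨Θ, fun L x m => (hΘ L _).trans ?_⟩
  rw [Fintype.sum_prod_type, Finset.mul_sum]
  refine Finset.sum_congr rfl fun ε _ => ?_
  rw [Finset.mul_sum]
  refine Finset.sum_congr rfl fun ε' _ => ?_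
  rw [← hθ _ L x m, mul_assoc]

/-- The antisymmetrisation vanishes on the boundary. -/
lemma bd [X2 K] [WB K] [WN K] {c : ℂ} {Ψ Θ : QF j (G.JT W)} (hΘ : ∀ L x, (G.JT W).mem L x →
    Θ.qq L x = c * ∑ ε : Bool, ∑ ε' : Bool, sn ε * sn ε' * Ψ.qq L (fl (ε, ε') L x))
    {x : (jsh d).X L} (hx : Θ.qq L x ≠ 0) : G.bd L x.1.1.1 ≠ 0 ∧ G.bd L x.1.2 ≠ 0 := by
  have m : (G.JT W).mem L x := (WB.mem Θ.toPre hx).2
  have ss : ∀ w : Vr → L, sw true (sw true w) = w := X2.sw_sw true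
  have sf : ∀ w : Vr → L, sw false w = w := fun _ => rfl
  refine ⟨fun h0 => hx ?_, fun h0 => hx ?_⟩
  · have h := van (S := G.JT W) (k := wγ G.g G.h 1) (s := fun L x => G.bd L x.1.1.1)
      ⟨fun _ _ R _ _ m m' e => G.hom_bd.reg R m.1.1.1 m'.1.1.1 e.1.1.1,
        fun L a x h0 m => G.hom_bd.hom L a _ h0 m.1.1.1⟩
      (fun L t x => (((gam t x.1.1.1, x.1.1.2), x.1.2), x.2))
      (fun _ _ R _ _ _ _ h0 h e => ⟨⟨⟨X2.gam_rel R h h0 e.1.1.1, e.1.1.2⟩, e.1.2⟩, e.2⟩)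
      (fun L t x ht m h0 => have b := X2.gam_bo (G := G) ht ⟨m.1.1.1, h0⟩
        ⟨⟨⟨⟨b.1, m.1.1.2⟩, m.1.2⟩, m.2⟩, b.2⟩)
      (fun L t a x => Prod.ext (Prod.ext (Prod.ext (X2.gam_scl G t a _) rfl) rfl) rfl)
      (fun L t x ht => Prod.ext (Prod.ext (Prod.ext (gam_inv ht _) rfl) rfl) rfl)
      (fun L x => Prod.ext (Prod.ext (Prod.ext (X2.gam_one _) rfl) rfl) rfl) Θ m h0
    have h2 := hΘ L _ ((fl_mp (false, true)).mem L x m)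
    refine self_eq_neg.1 ((h.symm.trans h2).trans ?_)
    rw [hΘ L x m]
    simp only [Fintype.sum_bool, fl, sn, cond_true, cond_false, ss, sf]
    ring
  · have h := van (S := G.JT W) (k := wγ G.g G.h 1) (s := fun L x => G.bd L x.1.2)
      ⟨fun _ _ R _ _ m m' e => G.hom_bd.reg R m.1.2 m'.1.2 e.1.2,
        fun L a x h0 m => G.hom_bd.hom L a _ h0 m.1.2⟩
      (fun L t x => ((x.1.1, gam t x.1.2), x.2))
      (fun _ _ R _ _ _ _ h0 h e => ⟨⟨e.1.1, X2.gam_rel R h h0 e.1.2⟩, e.2⟩)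
      (fun L t x ht m h0 => have b := X2.gam_bo (G := G) ht ⟨m.1.2, h0⟩
        ⟨⟨⟨m.1.1, b.1⟩, m.2⟩, b.2⟩)
      (fun L t a x => Prod.ext (Prod.ext rfl (X2.gam_scl G t a _)) rfl)
      (fun L t x ht => Prod.ext (Prod.ext rfl (gam_inv ht _)) rfl)
      (fun L x => Prod.ext (Prod.ext rfl (X2.gam_one _)) rfl) Θ m h0
    have h2 := hΘ L _ ((fl_mp (true, false)).mem L x m)
    refine self_eq_neg.1 ((h.symm.trans h2).trans ?_)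
    rw [hΘ L x m]
    simp only [Fintype.sum_bool, fl, sn, cond_true, cond_false, ss, sf]
    ring

/-- The part over the unramified locus. -/
noncomputable def JO (G : GD K) (W : ASp K d) : QS K (G.ΓJ d) :=
  (G.JT W).sub ((G.JT W).S.opn (fun L x => G.bd L x.1.1.1 ≠ 0 ∧ G.bd L x.1.2 ≠ 0)
    fun _ _ R _ _ m m' e h => ⟨Rel.ne_zero (G.hom_bd.reg R m.1.1.1 m'.1.1.1 e.1.1.1) h.1,
      Rel.ne_zero (G.hom_bd.reg R m.1.2 m'.1.2 e.1.2) h.2⟩)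
    (fun _ _ m => m.1) fun L a x h0 m => ⟨(G.JT W).inv L a x h0 m.1,
      (G.CO.inv L a _ h0 ⟨m.1.1.1.1, m.2.1⟩).2, (G.CO.inv L a _ h0 ⟨m.1.1.2, m.2.2⟩).2⟩

/-- The parameter space. -/
noncomputable def PO (G : GD K) (W : ASp K d) :
    ASp K (((xz.prod xz).prod d).prod (.vec (Option Tr))) :=
  (((G.UU.prod G.UU).prod W).prod (.univ K (.vec (Option Tr)))).opn (fun _ x => ∀ b, x.2 b ≠ 0)
    fun _ _ _ _ _ _ _ e h b => Rel.ne_zero (e.2 b) (h b)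

/-- The parametrisation. -/
noncomputable def par (G : GD K) (L : Fld K)
    (x : (((xz.prod xz).prod d).prod (.vec (Option Tr))).X L) : (jsh d).X L :=
  (((G.sec L x.1.1.2, x.1.2), G.Γ.scl (fun s => x.2 (some s)) (G.sec L x.1.1.1)), x.2 none)

lemma par_mp [X1 K] : Mp (PO G W) (JO G W).S (par G) where
  reg _ _ R _ _ _ m' e := ⟨⟨⟨X1.sec_rel R m'.1.1.1.2 e.1.1.2, e.1.2⟩,
    G.Γ.lift_scl (fun s => e.2 (some s)) (fun s => m'.2 (some s))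
      (X1.sec_rel R m'.1.1.1.1 e.1.1.1)⟩, e.2 none⟩
  mem L x m := by
    obtain ⟨⟨⟨⟨hA, hB⟩, hw⟩, -⟩, hT⟩ := m
    have a := G.CO.inv L (fun s => x.2 (some s)) _ (fun s => hT (some s)) (X1.sec_co hA)
    have b := X1.sec_co hB
    exact ⟨⟨⟨⟨b.1, hw⟩, a.1⟩, hT none⟩, b.2, a.2⟩

lemma par_pro [X1 K] : ProA (PO G W) (JO G W) (par G) := by
  rintro M O x a z - ⟨⟨⟨⟨hA, hB⟩, -⟩, -⟩, hT⟩ h0 ⟨⟨⟨⟨hB', hw'⟩, hA'⟩, ht⟩, hz⟩ e
  obtain ⟨b1, b, b2, b3⟩ := nrm hB h0 ⟨hB', hz.1⟩ e.1.1.1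
  have e2 : cw.lift (Rel.ofPl O).r (G.Γ.scl (a * fun s => x.2 (some s)) (G.sec M x.1.1.1))
      z.1.2 := by
    rw [← G.Γ.scl_scl]
    exact e.1.2
  obtain ⟨a1, a', a2, a3⟩ := nrm hA (h0.mul fun s => hT (some s)) ⟨hA', hz.2⟩ e2
  refine ⟨(((_, _), z.1.1.2), fun o => o.elim z.2 fun s => a' s / b s),
    ⟨⟨⟨⟨X1.pr_uu ⟨hA', hz.2⟩, X1.pr_uu ⟨hB', hz.1⟩⟩, hw'⟩, trivial⟩, fun o => ?_⟩,
    ⟨⟨a1, b1⟩, e.1.1.2⟩, fun o => ?_⟩
  · cases o with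
    | none => exact ht
    | some s => exact div_ne_zero (a2 s) (b2 s)
  · cases o with
    | none => exact e.2
    | some s =>
      have h1 := Rel.div (a3 s) (b3 s) (b2 s)
      rwa [Pi.mul_apply, mul_div_cancel_left₀ _ (h0 s)] at h1

lemma down (p : ℕ) [FC2 K p] {c : Cd} {S : ASp K c} {k : ℕ} (hk : k = j + Nat.card (Option Tr))
    (Φ : AF k (S.prod (.univ K (.vec (Option Tr))))) : ∃ Ψ : AF j S,
    ∀ (L M : Fld K) (α : L →ₐ[K] M) (T : Option Tr → M) (x : c.X L), Free j α T → S.mem L x →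
      Φ.a M (c.map α x, T) = Ψ.a L x := by
  subst hk
  exact FC2.down p Φ

end YWa

open YWa in
theorem YW_thm (p : ℕ) [FW0 K] [FWp K p] [WB K] [WN K] [X1 K] [X2 K] : YW K where
  aff G d W j c Ψ := by
    obtain ⟨Θ, hΘ⟩ := anti c Ψ
    obtain ⟨Θ₁, h₁⟩ := WB.res (JO G W).sp Θ (fun L y ⟨x, m, e⟩ => ⟨x, m.1, e⟩) fun L y h => by
      obtain ⟨x, rfl⟩ := (G.ΓJ d).pt_surj y
      exact ⟨x, ⟨(WB.mem Θ.toPre h).2, bd hΘ h⟩, rfl⟩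
    obtain ⟨Θ₂, h₂⟩ := WB.pullA par_mp par_pro Θ₁
    obtain ⟨Θ₃, h₃⟩ := WB.ext (WB.opnA (S' := PO G W)
      (S := ((G.UU.prod G.UU).prod W).prod (.univ K (.vec (Option Tr)))) (fun _ _ m => m.1)
      fun _ _ _ _ m m' e => ⟨m, fun b => Rel.ne_zero (e.2 b) (m'.2 b)⟩) Θ₂
    obtain ⟨Φ, hΦ⟩ := down p (j := j) (by simp) Θ₃
    refine ⟨Φ, fun L M α T A B w hT hA hB hw => ?_⟩
    have m : ((G.UU.prod G.UU).prod W).mem L ((A, B), w) := ⟨⟨hA, hB⟩, hw⟩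
    have m' : (PO G W).mem M (((xz.prod xz).prod d).map α ((A, B), w), T) :=
      ⟨⟨(ASp.map_iff _ α _).2 m, trivial⟩, fun b => by
        simpa using FA1.ne hT (X b) (X_ne_zero b)⟩
    rw [← hΦ L M α T _ hT m]
    refine ((h₃ M _).trans (h₂ M _ m')).trans ((h₁ M _).trans
      ((hΘ M _ (par_mp.mem M _ m').1).trans ?_))
    have key : ∀ (ε : Bool) (A : xz.X L),
        sw ε (G.sec M (xz.map α A)) = G.sec M (xz.map α (sg ε L A)) := fun ε A => by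
      rw [X2.sg_map, X2.sec_sg]
    refine congrArg (c * ·) (Finset.sum_congr rfl fun ε _ => Finset.sum_congr rfl fun ε' _ =>
      congrArg (fun x => sn ε * sn ε' * Ψ.qq M x) ?_)
    exact Prod.ext (Prod.ext (Prod.ext (key _ _) rfl)
      ((X2.sw_scl G _ _ _).trans (congrArg _ (key _ _)))) rfl

end Pool.Agent.Lib.MP_557161_ag.HG.TW.P2
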