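import Pool.Agent.Lib.MP_557161_ag.TW.StZ2

/-!
Operations on exponential sums with integral multiplicities.
-/

namespace Pool.Agent.Lib.MP_557161_ag.HG.TW.P2

open Pool.Agent.Lib.MP_557161_ag.DL

namespace ZESa

lemma lc (m : ℕ) (x : ℂ →₀ ℤ) : (x.sum fun z c => (c : ℂ) * z ^ m) =
    Finsupp.linearCombination ℤ (fun z : ℂ => z ^ m) x := by
  rw [Finsupp.linearCombination_apply]
  exact Finset.sum_congr rfl fun z _ => (zsmul_eq_mul _ _).symm

lemma congr {a b : ℕ → ℂ} (h : ∀ m, 0 < m → a m = b m) (hb : ES b) : ES a := by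
  obtain ⟨ν, h0, hν⟩ := hb
  exact ⟨ν, h0, fun m hm => (h m hm).trans (hν m hm)⟩

lemma zero : ES fun _ => 0 := ⟨0, rfl, fun _ _ => by simp⟩

lemma add {a b : ℕ → ℂ} (ha : ES a) (hb : ES b) : ES fun m => a m + b m := by
  obtain ⟨ν, h0, hν⟩ := ha
  obtain ⟨μ, h1, hμ⟩ := hb
  exact ⟨ν + μ, by simp [h0, h1], fun m hm => by
    simp only [hν m hm, hμ m hm, lc, map_add]⟩

lemma sub {a b : ℕ → ℂ} (ha : ES a) (hb : ES b) : ES fun m => a m - b m := by
  obtain ⟨ν, h0, hν⟩ := ha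
  obtain ⟨μ, h1, hμ⟩ := hb
  exact ⟨ν - μ, by simp [h0, h1], fun m hm => by
    simp only [hν m hm, hμ m hm, lc, map_sub]⟩

lemma zgeo (c : ℤ) {z : ℂ} (hz : z ≠ 0) : ES fun m => c * z ^ m :=
  ⟨Finsupp.single z c, by simp [hz], fun m _ => by
    rw [lc, Finsupp.linearCombination_single, zsmul_eq_mul]⟩

lemma geo {z : ℂ} (hz : z ≠ 0) : ES fun m => z ^ m :=
  congr (fun m _ => by simp) (zgeo 1 hz)

lemma sum {ι : Type} (s : Finset ι) (a : ι → ℕ → ℂ) (h : ∀ i ∈ s, ES (a i)) :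
    ES fun m => ∑ i ∈ s, a i m := by
  classical
  induction s using Finset.induction_on with
  | empty => exact congr (fun m _ => by simp) zero
  | insert i s hi ih =>
    exact congr (fun m _ => by rw [Finset.sum_insert hi])
      (add (h i (Finset.mem_insert_self _ _)) (ih fun j hj => h j (Finset.mem_insert_of_mem hj)))

lemma ne {ν : ℂ →₀ ℤ} (h0 : ν 0 = 0) {z : ℂ} (hz : z ∈ ν.support) : z ≠ 0 := by
  rintro rfl
  exact Finsupp.mem_support_iff.1 hz h0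

lemma mul {a b : ℕ → ℂ} (ha : ES a) (hb : ES b) : ES fun m => a m * b m := by
  obtain ⟨ν, h0, hν⟩ := ha
  obtain ⟨μ, h1, hμ⟩ := hb
  refine congr (b := fun m => ∑ z ∈ ν.support, ∑ w ∈ μ.support,
    ((ν z * μ w : ℤ) : ℂ) * (z * w) ^ m) (fun m hm => ?_)
    (sum _ _ fun z hz => sum _ _ fun w hw => zgeo _ (mul_ne_zero (ne h0 hz) (ne h1 hw)))
  rw [hν m hm, hμ m hm, Finsupp.sum, Finsupp.sum, Finset.sum_mul_sum]
  refine Finset.sum_congr rfl fun z _ => Finset.sum_congr rfl fun w _ => ?_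
  push_cast
  ring

lemma rN' (e : ℕ) (he : 0 < e) : ES fun m => (rN e m : ℂ) := by
  have hζ := Complex.isPrimitiveRoot_exp e he.ne'
  generalize Complex.exp (2 * Real.pi * Complex.I / e) = ζ at hζ
  refine congr (b := fun m => ∑ i ∈ Finset.range e, (ζ ^ i) ^ m) (fun m _ => ?_)
    (sum _ _ fun i _ => geo (pow_ne_zero _ (hζ.ne_zero he.ne')))
  have e1 : ∀ i, (ζ ^ i) ^ m = (ζ ^ m) ^ i := fun i => by rw [← pow_mul, mul_comm, pow_mul]
  simp only [e1]
  unfold rN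
  split_ifs with h
  · rw [(hζ.pow_eq_one_iff_dvd m).2 h]
    simp
  · have h1 : ζ ^ m ≠ 1 := fun e' => h ((hζ.pow_eq_one_iff_dvd m).1 e')
    rw [geom_sum_eq h1, ← pow_mul, mul_comm, pow_mul, hζ.pow_eq_one]
    simp

lemma sN' {ι : Type} [Fintype ι] (dg : ι → ℕ) (h : ∀ i, 0 < dg i) :
    ES fun m => (sN dg m : ℂ) :=
  congr (b := fun m => ∑ i, (rN (dg i) m : ℂ)) (fun m _ => by simp [sN, rN])
    (sum _ _ fun i _ => rN' _ (h i))

lemma rc0 : Fn2.Rc 0 := ⟨1, by simp, by simp⟩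

lemma rcs (c : ℂ) {a : ℕ → ℂ} (h : Fn2.Rc a) : Fn2.Rc (c • a) := by
  obtain ⟨g, g0, hg⟩ := h
  exact ⟨g, g0, by rw [map_smul, hg, smul_zero]⟩

lemma rc {a : ℕ → ℂ} (ha : ES a) : Fn2.Rc fun m => a (m + 1) := by
  classical
  obtain ⟨ν, h0, hν⟩ := ha
  have key : ∀ s : Finset ℂ, (∀ z ∈ s, z ≠ 0) →
      Fn2.Rc fun m => ∑ z ∈ s, (ν z : ℂ) * z ^ (m + 1) := by
    intro s
    induction s using Finset.induction_on with
    | empty => intro _; simp only [Finset.sum_empty]; exact rc0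
    | insert i s hi ih =>
      intro h
      have h1 := (rcs (ν i : ℂ) (Fn2.Rc.geo (h i (Finset.mem_insert_self _ _)))).add
        (ih fun j hj => h j (Finset.mem_insert_of_mem hj))
      convert h1 using 1
      funext m
      simp [Finset.sum_insert hi]
  convert key ν.support fun z hz => ne h0 hz using 1
  funext m
  exact hν _ m.succ_pos

end ZESa

theorem ZES_thm : ZES :=
  ⟨ZESa.add, ZESa.sub, ZESa.mul, ZESa.geo, ZESa.sN', ZESa.rN', ZESa.rc⟩

end Pool.Agent.Lib.MP_557161_ag.HG.TW.P2
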