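import Pool.Agent.Lib.MP_557161_ag.TW.StZ2

/-!
The congruence modulo two for the numerator of the zeta function.
-/

namespace Pool.Agent.Lib.MP_557161_ag.HG.TW.P2

namespace ZMa

open PowerSeries

/-- The series with constant term one and power sums `p`. -/
def LD (F : ℂ⟦X⟧) (p : ℕ → ℂ) : Prop :=
  constantCoeff F = 1 ∧ X * d⁄dX ℂ F = -(mk fun m => if m = 0 then 0 else p m) * F

lemma LD.congr {F : ℂ⟦X⟧} {p p' : ℕ → ℂ} (h : LD F p) (e : ∀ m, 0 < m → p m = p' m) : LD F p' := by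
  refine ⟨h.1, h.2.trans ?_⟩
  congr 3
  funext m
  split_ifs with h0
  exacts [rfl, e m (Nat.pos_of_ne_zero h0)]

lemma LD.mul {F G : ℂ⟦X⟧} {p p' : ℕ → ℂ} (h : LD F p) (h' : LD G p') :
    LD (F * G) fun m => p m + p' m := by
  refine ⟨by rw [map_mul, h.1, h'.1, mul_one], ?_⟩
  have : (mk fun m => if m = 0 then 0 else p m + p' m : ℂ⟦X⟧) =
      (mk fun m => if m = 0 then 0 else p m) + mk fun m => if m = 0 then 0 else p' m := by
    ext m
    simp only [map_add, coeff_mk]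
    split_ifs <;> simp
  rw [this, Derivation.leibniz, smul_eq_mul, smul_eq_mul]
  linear_combination F * h'.2 + G * h.2

lemma LD.one : LD 1 fun _ => 0 := by
  refine ⟨map_one _, ?_⟩
  ext m
  simp

lemma LD.uniq {F G : ℂ⟦X⟧} {p : ℕ → ℂ} (h : LD F p) (h' : LD G p) : F = G := by
  have hG : G * G⁻¹ = 1 := PowerSeries.mul_inv_cancel G (by rw [h'.1]; exact one_ne_zero)
  have h1 : F * d⁄dX ℂ G = G * d⁄dX ℂ F :=
    mul_left_cancel₀ X_ne_zero (by linear_combination F * h'.2 - G * h.2)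
  have h2 : F * G⁻¹ = 1 := by
    refine derivative.ext ?_ (by rw [map_mul, constantCoeff_inv, h.1, h'.1]; simp)
    rw [Derivation.leibniz, smul_eq_mul, smul_eq_mul, derivative_inv', derivative_one]
    linear_combination (-G⁻¹ ^ 2) * h1 - (G⁻¹ * d⁄dX ℂ F) * hG
  linear_combination G * h2 - F * hG

/-- The factors. -/
noncomputable def fac {S : Type} [CommRing S] (z : S) (d : ℕ) : Polynomial S :=
  1 - (Polynomial.C z * Polynomial.X) ^ d

lemma fac_map {S S' : Type} [CommRing S] [CommRing S'] (f : S →+* S') (z : S) (d : ℕ) :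
    (fac z d).map f = fac (f z) d := by simp [fac]

lemma fac_zero {S : Type} [CommRing S] (z : S) {d : ℕ} (hd : 0 < d) : (fac z d).eval 0 = 1 := by
  simp [fac, hd.ne']

lemma LD.fac (z : ℂ) {d : ℕ} (hd : 0 < d) :
    LD (fac z d : Polynomial ℂ) fun m => if d ∣ m then d * z ^ m else 0 := by
  have e : ((ZMa.fac z d : Polynomial ℂ) : ℂ⟦X⟧) = 1 - C (z ^ d) * X ^ d := by
    simp [ZMa.fac, mul_pow]
  rw [e]
  refine ⟨by simp [hd.ne'], ?_⟩
  have e1 : X * d⁄dX ℂ (1 - C (z ^ d) * X ^ d : ℂ⟦X⟧) = -(C (d * z ^ d) * X ^ d) := by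
    obtain ⟨k, rfl⟩ := Nat.exists_eq_succ_of_ne_zero hd.ne'
    rw [map_sub, derivative_one, Derivation.leibniz, derivative_C, derivative_pow, derivative_X,
      map_mul, map_natCast]
    simp only [smul_eq_mul, Nat.succ_eq_add_one, Nat.add_sub_cancel]
    ring
  rw [e1, neg_mul, neg_inj, mul_sub, mul_one, mul_left_comm]
  ext n
  rw [map_sub, coeff_C_mul, coeff_C_mul, coeff_mul_X_pow', coeff_X_pow, coeff_mk, coeff_mk]
  beta_reduce
  rcases lt_trichotomy n d with h | rfl | h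
  · rw [if_neg h.ne, if_neg (not_le.2 h)]
    by_cases h0 : n = 0
    · simp [h0]
    · rw [if_neg h0, if_neg fun hd' => absurd (Nat.le_of_dvd (Nat.pos_of_ne_zero h0) hd') (by omega)]
      simp
  · simp [hd.ne']
  · obtain ⟨k, rfl⟩ := Nat.exists_eq_add_of_lt h
    rw [if_neg h.ne', if_pos h.le, show d + k + 1 - d = k + 1 by omega,
      if_neg (show ¬ d + k + 1 = 0 by omega), if_neg (show ¬ k + 1 = 0 by omega)]
    by_cases hk : d ∣ k + 1
    · rw [if_pos hk, if_pos (by rw [add_assoc]; exact (Nat.dvd_add_right dvd_rfl).2 hk)]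
      ring
    · rw [if_neg hk, if_neg (by rw [add_assoc]; exact mt (Nat.dvd_add_right dvd_rfl).1 hk)]
      ring

lemma LD.mulP {F G : Polynomial ℂ} {p p' : ℕ → ℂ} (h : LD F p) (h' : LD G p') :
    LD (F * G : Polynomial ℂ) fun m => p m + p' m := by
  rw [Polynomial.coe_mul]
  exact h.mul h'

lemma LD.prodP {α : Type} (s : Finset α) {F : α → Polynomial ℂ} {p : α → ℕ → ℂ}
    (h : ∀ i ∈ s, LD (F i) (p i)) :
    LD (∏ i ∈ s, F i : Polynomial ℂ) fun m => ∑ i ∈ s, p i m := by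
  classical
  induction s using Finset.induction_on with
  | empty => simpa using LD.one
  | insert a s ha ih =>
    simp only [Finset.prod_insert ha, Finset.sum_insert ha]
    exact (h a (by simp)).mulP (ih fun i hi => h i (by simp [hi]))

lemma LD.powP {F : Polynomial ℂ} {p : ℕ → ℂ} (h : LD F p) (n : ℕ) :
    LD (F ^ n : Polynomial ℂ) fun m => n * p m := by
  simpa using LD.prodP (Finset.range n) fun _ _ => h

lemma LD.fac1 (z : ℂ) (n : ℕ) : LD (ZMa.fac z 1 ^ n : Polynomial ℂ) fun m => n * z ^ m :=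
  ((LD.fac z one_pos).powP n).congr fun m _ => by simp

/-- The ring of rational numbers with odd denominator. -/
lemma exR : ∃ (R : Type) (_ : CommRing R) (f : R →+* ℂ) (_ : R →+* ZMod 2),
    Function.Injective f ∧ ∀ n : ℕ, Odd n → IsUnit (n : R) := by
  let M : Submonoid ℤ := ⟨⟨{n | Odd n}, Odd.mul⟩, odd_one⟩
  have h0 : ∀ y : M, (y : ℤ) ≠ 0 := fun y h => by
    have : Odd (y : ℤ) := y.2
    rw [h] at this
    exact absurd this (by decide)
  have h1 : ∀ y : M, IsUnit (Int.castRingHom ℂ y) := fun y =>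
    IsUnit.mk0 _ (by simpa using h0 y)
  have h2 : ∀ y : M, IsUnit (Int.castRingHom (ZMod 2) y) := fun y => by
    obtain ⟨k, hk⟩ : Odd (y : ℤ) := y.2
    have : ((2 : ℤ) : ZMod 2) = 0 := rfl
    rw [hk, eq_intCast, Int.cast_add, Int.cast_mul, this, zero_mul, zero_add, Int.cast_one]
    exact isUnit_one
  refine ⟨Localization M, inferInstance, IsLocalization.lift h1, IsLocalization.lift h2,
    (IsLocalization.lift_injective_iff h1).2 fun x y => ?_, fun n hn => ?_⟩
  · rw [(IsLocalization.injective (Localization M)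
      fun y hy => mem_nonZeroDivisors_of_ne_zero (h0 ⟨y, hy⟩)).eq_iff]
    simp
  · simpa using IsLocalization.map_units (Localization M) (⟨n, hn.natCast⟩ : M)

variable {R : Type} [CommRing R] (f : R →+* ℂ) (ρ : R →+* ZMod 2)

lemma exdiv (hu : ∀ n : ℕ, Odd n → IsUnit (n : R)) {n : ℕ} (hn : n ≠ 0) (c : ℤ)
    (h : ∀ v : ℕ, 2 ^ v ∣ n → (2 : ℤ) ^ (v + 1) ∣ c) : ∃ u : R, n * (2 * f u) = c := by
  obtain ⟨v, o, ho, rfl⟩ := Nat.exists_eq_two_pow_mul_odd hn
  obtain ⟨t, rfl⟩ := h v (dvd_mul_right _ _)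
  obtain ⟨w, hw⟩ := (hu o ho).exists_right_inv
  have := congrArg f hw
  rw [map_mul, map_natCast, map_one] at this
  refine ⟨t * w, ?_⟩
  rw [map_mul, map_intCast]
  push_cast
  linear_combination (2 ^ v * 2 * t : ℂ) * this

lemma exE (hu : ∀ n : ℕ, Odd n → IsUnit (n : R)) (c : ℕ → ℤ)
    (hc : ∀ m v : ℕ, 0 < m → 2 ^ v ∣ m → (2 : ℤ) ^ (v + 1) ∣ c m) :
    ∃ E : R⟦X⟧, map ρ E = 1 ∧ LD (map f E) fun m => -c m := by
  have h1 : ∀ m : ℕ, ∃ u : R, ((m + 1 : ℕ) : ℂ) * (2 * f u) = c (m + 1) := fun m =>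
    exdiv f hu m.succ_ne_zero _ fun v => hc _ v m.succ_pos
  have h2 : ∀ k : ℕ, ∃ u : R, ((k + 1).factorial : ℂ) * (2 * f u) = ((2 ^ (k + 1) : ℤ) : ℂ) :=
    fun k => exdiv f hu (Nat.factorial_ne_zero _) _ fun v hv => pow_dvd_pow _ (by
      by_contra h
      exact emultiplicity_lt_iff_not_dvd.1 (Nat.emultiplicity_two_factorial_lt k.succ_ne_zero)
        ((pow_dvd_pow 2 (by omega)).trans hv))
  choose u hu' using h1
  choose r hr using h2
  let H : R⟦X⟧ := X * mk u
  let e : R⟦X⟧ := C 1 + C 2 * (X * mk r)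
  have hH : HasSubst H := HasSubst.of_constantCoeff_zero' (by simp [H])
  have c0 : constantCoeff (map f H) = 0 := by simp [H]
  have hH' : HasSubst (map f H) := HasSubst.of_constantCoeff_zero' c0
  have m1 : map ρ (e.subst H) = (map ρ e).subst (map ρ H) := map_subst hH e
  have m2 : map f (e.subst H) = (map f e).subst (map f H) := map_subst hH e
  have e1 : map ρ e = C 1 := by
    have : ρ 2 = 0 := by rw [map_ofNat]; rfl
    simp only [e, map_add, map_mul, map_C, this, map_zero, zero_mul, add_zero, map_one]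
  have e2 : map f e = C 1 + C 2 * (X * mk fun k => f (r k)) := by
    simp only [e, map_add, map_mul, map_C, map_X, map_one, map_ofNat]
    rfl
  have e3 : d⁄dX ℂ (map f e) = (2 : ℂ) • map f e := by
    ext k
    rw [coeff_derivative, e2]
    have hk : ((k + 1).factorial : ℂ) ≠ 0 := by exact_mod_cast Nat.factorial_ne_zero _
    cases k with
    | zero =>
      have := hr 0
      simp at this ⊢
      simp [this]
    | succ k =>
      have a1 := hr k
      have a2 := hr (k + 1)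
      have hk' : ((k + 1).factorial : ℂ) ≠ 0 := by exact_mod_cast Nat.factorial_ne_zero _
      rw [Nat.factorial_succ (k + 1)] at a2
      simp only [map_add, coeff_C_mul, coeff_succ_X_mul, coeff_mk, coeff_C, Nat.succ_ne_zero,
        if_false, zero_add, coeff_smul, smul_eq_mul]
      refine mul_left_cancel₀ hk' ?_
      push_cast at a1 a2 ⊢
      linear_combination a2 - 2 * a1
  refine ⟨e.subst H, by rw [m1, e1, subst_C]; rfl, ?_, ?_⟩
  · rw [m2, e2, subst_add hH', map_add, subst_C]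
    have := constantCoeff_subst_eq_zero (a := map f H) c0
      (C (2 : ℂ) * (X * mk fun k => f (r k))) (by simp)
    exact (congrArg₂ (· + ·) (map_one _) this).trans (add_zero 1)
  · have e4 : X * d⁄dX ℂ (map f H) * 2 = -mk fun m => if m = 0 then 0 else -(c m : ℂ) := by
      ext m
      cases m with
      | zero => simp
      | succ m =>
        have := hu' m
        rw [show (2 : ℂ⟦X⟧) = C 2 from rfl, coeff_mul_C, coeff_succ_X_mul, coeff_derivative]
        simp only [H, coeff_map, coeff_succ_X_mul, coeff_mk, map_neg, Nat.succ_ne_zero, if_false,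
          neg_neg]
        push_cast at this ⊢
        linear_combination this
    rw [m2, derivative_subst hH', e3, subst_smul hH', ← e4, two_smul]
    ring

variable {ι : Type} [Fintype ι]

/-- The denominator. -/
noncomputable def UP (S : Type) [CommRing S] (q e a₁ a₂ : ℕ) (dg : ι → ℕ) : Polynomial S :=
  fac (q : S) 1 ^ a₁ * fac (-q : S) 1 ^ a₂ * (∏ i, fac (q : S) (dg i)) * fac (q : S) e

/-- The numerator. -/
noncomputable def VP (S : Type) [CommRing S] (q e b₁ b₂ : ℕ) (dg : ι → ℕ) : Polynomial S :=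
  fac (q : S) 1 ^ b₁ * fac (-q : S) 1 ^ b₂ * fac (q ^ 2 : S) 1 ^ 1 * fac (q : S) 1 ^ 1 *
    ∏ i, fac (1 : S) (dg i * e)

lemma UP_map {S S' : Type} [CommRing S] [CommRing S'] (g : S →+* S') (q e a₁ a₂ : ℕ)
    (dg : ι → ℕ) : map g (UP S q e a₁ a₂ dg : S⟦X⟧) = UP S' q e a₁ a₂ dg := by
  rw [← Polynomial.polynomial_map_coe]
  simp [UP, fac_map, Polynomial.map_prod]

lemma VP_map {S S' : Type} [CommRing S] [CommRing S'] (g : S →+* S') (q e b₁ b₂ : ℕ)
    (dg : ι → ℕ) : map g (VP S q e b₁ b₂ dg : S⟦X⟧) = VP S' q e b₁ b₂ dg := by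
  rw [← Polynomial.polynomial_map_coe]
  simp [VP, fac_map, Polynomial.map_prod]

open Polynomial in
lemma fin2 {q e a₁ a₂ b₁ b₂ : ℕ} (hq : Odd q) (he : Odd e) {dg : ι → ℕ} (hd : ∀ i, 0 < dg i)
    (N : Polynomial (ZMod 2))
    (h : N * UP (ZMod 2) q e a₁ a₂ dg = VP (ZMod 2) q e b₁ b₂ dg) :
    ((e : ℤ) - 1) * ((∑ i, dg i : ℕ) - 1) ≤ N.natDegree := by
  have cast : ∀ {n : ℕ}, Odd n → (n : ZMod 2) = 1 := fun hn => ZMod.natCast_eq_one_iff_odd.2 hn
  have e0 : 0 < e := he.pos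
  have m1 : (-1 : ZMod 2) = 1 := rfl
  have dF : ∀ d : ℕ, (fac (1 : ZMod 2) d).natDegree = d := fun d => by
    rw [fac, Polynomial.C_1, one_mul, ← natDegree_neg, neg_sub, ← Polynomial.C_1,
      natDegree_X_pow_sub_C]
  have nF : ∀ {d : ℕ}, 0 < d → fac (1 : ZMod 2) d ≠ 0 := fun {d} hd h0 => by
    have := dF d
    rw [h0, natDegree_zero] at this
    omega
  have gF : ∀ d : ℕ, fac (1 : ZMod 2) (d * e) =
      fac 1 d * ∑ k ∈ Finset.range e, (Polynomial.X ^ d) ^ k := fun d => by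
    simp only [fac, Polynomial.C_1, one_mul, mul_neg_geom_sum, pow_mul]
  simp only [UP, VP, cast hq, m1, one_pow] at h
  have nP : (∏ i, fac (1 : ZMod 2) (dg i)) ≠ 0 := Finset.prod_ne_zero_iff.2 fun i _ => nF (hd i)
  have n1 := nF one_pos
  have hle : a₁ + a₂ + 1 ≤ b₁ + b₂ + 2 := by
    by_contra hlt
    obtain ⟨k, hk⟩ := Nat.exists_eq_add_of_lt (not_le.1 hlt)
    have h1 := gF 1
    rw [one_mul] at h1
    simp only [gF, Finset.prod_mul_distrib] at h
    have h2 : N * fac 1 1 ^ (k + 1) * ∑ k ∈ Finset.range e, (Polynomial.X ^ 1) ^ k =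
        ∏ i, ∑ k ∈ Finset.range e, ((Polynomial.X : (ZMod 2)[X]) ^ dg i) ^ k := by
      refine mul_left_cancel₀ (mul_ne_zero (pow_ne_zero (b₁ + b₂ + 2) n1) nP) ?_
      have h3 : fac (1 : ZMod 2) 1 ^ (a₁ + a₂ + 1) = fac 1 1 ^ (b₁ + b₂ + 2 + k + 1) := by rw [hk]
      rw [h1] at h
      linear_combination h - (N * (∏ i, fac (1 : ZMod 2) (dg i)) *
        ∑ k ∈ Finset.range e, (Polynomial.X ^ 1) ^ k) * h3
    have h4 := congrArg (Polynomial.eval 1) h2
    simp [fac, eval_prod, eval_finset_sum, cast he] at h4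
  have nQ : (∏ i, fac (1 : ZMod 2) (dg i * e)) ≠ 0 :=
    Finset.prod_ne_zero_iff.2 fun i _ => nF (Nat.mul_pos (hd i) e0)
  have nN : N ≠ 0 := fun h0 => by
    rw [h0, zero_mul] at h
    exact mul_ne_zero (mul_ne_zero (mul_ne_zero (mul_ne_zero (pow_ne_zero _ n1) (pow_ne_zero _ n1))
      (pow_ne_zero _ n1)) (pow_ne_zero _ n1)) nQ h.symm
  have hdeg := congrArg natDegree h
  rw [← pow_add, ← pow_add, ← pow_add, ← pow_add,
    natDegree_mul nN (mul_ne_zero (mul_ne_zero (pow_ne_zero _ n1) nP) (nF e0)),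
    natDegree_mul (mul_ne_zero (pow_ne_zero _ n1) nP) (nF e0), natDegree_mul (pow_ne_zero _ n1) nP,
    natDegree_mul (pow_ne_zero _ n1) nQ, natDegree_pow, natDegree_pow,
    natDegree_prod _ _ fun i _ => nF (hd i),
    natDegree_prod _ _ fun i _ => nF (Nat.mul_pos (hd i) e0)] at hdeg
  simp only [dF, ← Finset.sum_mul, mul_one] at hdeg
  generalize ∑ i, dg i = s at hdeg ⊢
  zify at hdeg hle
  linarith

lemma sum_split {M : Type} [AddCommMonoid M] (ν : ℂ →₀ ℤ) (g : ℂ → ℤ → M) (hg : ∀ z, g z 0 = 0) :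
    ν.sum g = g 1 (ν 1) + (g (-1) (ν (-1)) +
      ∑ z ∈ ν.support.filter fun z => z ≠ 1 ∧ z ≠ -1, g z (ν z)) := by
  classical
  rw [Finsupp.sum_of_support_subset ν (s := insert 1 (insert (-1)
    (ν.support.filter fun z => z ≠ 1 ∧ z ≠ -1))) (fun z hz => by
      by_cases h1 : z = 1
      · simp [h1]
      by_cases h2 : z = -1
      · simp [h2]
      simp [h1, h2, Finsupp.mem_support_iff.1 hz]) g fun z _ => hg z,
    Finset.sum_insert (by simp; norm_num), Finset.sum_insert (by simp)]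

lemma sN_rN {e : ℕ} {dg : ι → ℕ} (hc : ∀ i, Nat.Coprime (dg i) e) (m : ℕ) :
    (∑ i, if dg i * e ∣ m then ((dg i * e : ℕ) : ℂ) * 1 ^ m else 0) = sN dg m * rN e m := by
  rw [sN, rN, Nat.cast_sum, Finset.sum_mul]
  refine Finset.sum_congr rfl fun i _ => ?_
  by_cases h1 : dg i ∣ m
  · by_cases h2 : e ∣ m
    · simp [h1, h2, (hc i).mul_dvd_of_dvd_of_dvd h1 h2]
    · simp [h2, mt (dvd_of_mul_left_dvd (a := dg i)) h2]
  · simp [h1, mt (dvd_of_mul_right_dvd (b := e)) h1]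

end ZMa

open ZMa PowerSeries in
theorem ZM_thm : ZM := by
  refine ⟨fun q e hq he ι _ dg hd hce c hc ν _ hν h => ?_⟩
  obtain ⟨R, _, f, ρ, hf, hu⟩ := exR
  obtain ⟨E, hE, hE'⟩ := exE f ρ hu c hc
  let T := ν.support.filter fun z => z ≠ 1 ∧ z ≠ -1
  let N : Polynomial ℂ := ∏ z ∈ T, fac (q * z) 1 ^ (ν z).toNat
  have hT : ∀ z ∈ T, ((ν z).toNat : ℤ) = ν z := fun z hz =>
    Int.toNat_of_nonneg (hν z (Finset.mem_filter.1 hz).2.1 (Finset.mem_filter.1 hz).2.2)
  have hN : LD N _ := LD.prodP T fun z _ => LD.fac1 (q * z) (ν z).toNat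
  have hU : LD (UP ℂ q e (ν 1).toNat (ν (-1)).toNat dg) _ :=
    (((LD.fac1 _ _).mulP (LD.fac1 _ _)).mulP (LD.prodP _ fun i _ => LD.fac _ (hd i))).mulP
      (LD.fac _ he.pos)
  have hV : LD (VP ℂ q e (-ν 1).toNat (-ν (-1)).toNat dg) _ :=
    ((((LD.fac1 _ _).mulP (LD.fac1 _ _)).mulP (LD.fac1 _ _)).mulP (LD.fac1 _ _)).mulP
      (LD.prodP _ fun i _ => LD.fac _ (Nat.mul_pos (hd i) he.pos))
  have key : (N : ℂ⟦X⟧) * UP ℂ q e (ν 1).toNat (ν (-1)).toNat dg =
      VP ℂ q e (-ν 1).toNat (-ν (-1)).toNat dg * map f E := by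
    refine ((hN.mul hU).congr fun m hm => ?_).uniq (hV.mul hE')
    have h1 := h m hm
    have t1 : ∀ a : ℤ, ((a.toNat : ℕ) : ℂ) - ((-a).toNat : ℕ) = a := fun a => by
      exact_mod_cast Int.toNat_sub_toNat_neg a
    have s1 : (∑ i, if dg i ∣ m then (dg i : ℂ) * q ^ m else 0) = sN dg m * q ^ m := by
      rw [sN, Nat.cast_sum, Finset.sum_mul]
      exact Finset.sum_congr rfl fun i _ => by split_ifs <;> simp
    have s2 : (if e ∣ m then (e : ℂ) * q ^ m else 0) = rN e m * q ^ m := by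
      rw [rN]
      split_ifs <;> simp
    have s3 : ∑ z ∈ T, ((ν z).toNat : ℂ) * (q * z) ^ m = q ^ m * ∑ z ∈ T, (ν z : ℂ) * z ^ m := by
      rw [Finset.mul_sum]
      refine Finset.sum_congr rfl fun z hz => ?_
      rw [← hT z hz, Int.toNat_natCast, Int.cast_natCast]
      ring
    rw [sum_split ν _ (fun z => by simp)] at h1
    rw [sN_rN hce, s1, s2, s3, neg_pow (q : ℂ)]
    linear_combination -h1 + q ^ m * t1 (ν 1) + (-1) ^ m * q ^ m * t1 (ν (-1))
  have u1 : constantCoeff (UP R q e (ν 1).toNat (ν (-1)).toNat dg : R⟦X⟧) = (1 : Rˣ) := by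
    rw [Polynomial.constantCoeff_coe, Polynomial.coeff_zero_eq_eval_zero]
    simp [UP, Polynomial.eval_prod, fac_zero, hd, he.pos]
  have u2 := mul_invOfUnit _ _ u1
  obtain ⟨W, w1⟩ : ∃ W : R⟦X⟧, W * UP R q e (ν 1).toNat (ν (-1)).toNat dg =
      VP R q e (-ν 1).toNat (-ν (-1)).toNat dg * E :=
    ⟨VP R q e (-ν 1).toNat (-ν (-1)).toNat dg * E *
      invOfUnit (UP R q e (ν 1).toNat (ν (-1)).toNat dg : R⟦X⟧) 1, by
      rw [mul_assoc, mul_comm (invOfUnit _ _), u2, mul_one]⟩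
  have w2 : map f W = N := by
    have := congrArg (map f) w1
    rw [map_mul, map_mul, UP_map, VP_map, ← key] at this
    refine mul_right_cancel₀ (fun h0 => ?_) this
    have := hU.1
    rw [h0, map_zero] at this
    exact zero_ne_one this
  have w3 : ((trunc (N.natDegree + 1) (map ρ W) : Polynomial (ZMod 2)) : (ZMod 2)⟦X⟧) =
      map ρ W := by
    ext n
    rw [Polynomial.coeff_coe, coeff_trunc]
    split_ifs with hn
    · rfl
    · have : coeff n W = 0 := hf (by
        rw [← coeff_map, w2, Polynomial.coeff_coe, map_zero]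
        exact Polynomial.coeff_eq_zero_of_natDegree_lt (by omega))
      rw [coeff_map, this, map_zero]
  have w4 := fin2 (a₁ := (ν 1).toNat) (a₂ := (ν (-1)).toNat) (b₁ := (-ν 1).toNat)
    (b₂ := (-ν (-1)).toNat) hq he hd (trunc (N.natDegree + 1) (map ρ W))
    (Polynomial.coe_injective _ (by
      have := congrArg (map ρ) w1
      rw [map_mul, map_mul, UP_map, VP_map, hE, mul_one] at this
      rw [Polynomial.coe_mul, w3, this]))
  have w5 := natDegree_trunc_lt (map ρ W) N.natDegree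
  have w6 : N.natDegree ≤ ∑ z ∈ T, (ν z).toNat :=
    (Polynomial.natDegree_prod_le _ _).trans (Finset.sum_le_sum fun z _ =>
      Polynomial.natDegree_pow_le.trans (by
        have : (fac (q * z) 1).natDegree ≤ 1 := by
          rw [fac]
          compute_degree
        simpa using Nat.mul_le_mul_left _ this))
  have w7 : ((∑ z ∈ T, (ν z).toNat : ℕ) : ℤ) = ∑ z ∈ T, ν z := by
    rw [Nat.cast_sum]
    exact Finset.sum_congr rfl hT
  rw [sum_split ν _ fun _ => rfl]
  change _ ≤ ν 1 + (ν (-1) + ∑ z ∈ T, ν z) - ν 1 - ν (-1)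
  omega

end Pool.Agent.Lib.MP_557161_ag.HG.TW.P2
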