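import Pool.Agent.Lib.MP_557161_ag.TW.StZ3
import Pool.Agent.Lib.MP_557161_ag.TW.ZM

/-!
The congruence modulo two for arbitrary orbits.
-/

namespace Pool.Agent.Lib.MP_557161_ag.HG.TW.P2

namespace ZMa

open PowerSeries

/-- The identity modulo two. -/
lemma core (U V : Polynomial ℤ) (N : Polynomial ℂ) {pN pU pV : ℕ → ℂ} (h0 : U.eval 0 = 1)
    (hN : LD N pN) (hU : LD (U.map (Int.castRingHom ℂ) : Polynomial ℂ) pU)
    (hV : LD (V.map (Int.castRingHom ℂ) : Polynomial ℂ) pV) (c : ℕ → ℤ)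
    (hc : ∀ m v : ℕ, 0 < m → 2 ^ v ∣ m → (2 : ℤ) ^ (v + 1) ∣ c m)
    (h : ∀ m, 0 < m → pN m + pU m = pV m + -c m) :
    ∃ N' : Polynomial (ZMod 2), N'.natDegree ≤ N.natDegree ∧
      N' * U.map (Int.castRingHom _) = V.map (Int.castRingHom _) := by
  obtain ⟨R, _, f, ρ, hf, hu⟩ := exR
  obtain ⟨E, hE, hE'⟩ := exE f ρ hu c hc
  have key := ((hN.mul hU).congr h).uniq (hV.mul hE')
  have mp : ∀ {S : Type} [CommRing S] (g : R →+* S) (P : Polynomial ℤ),
      map g (P.map (Int.castRingHom R) : Polynomial R) =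
        (P.map (Int.castRingHom S) : Polynomial S) := fun g P => by
    rw [← Polynomial.polynomial_map_coe, Polynomial.map_map,
      RingHom.ext_int (g.comp _) (Int.castRingHom _)]
  have u1 : constantCoeff ((U.map (Int.castRingHom R) : Polynomial R) : R⟦X⟧) = (1 : Rˣ) := by
    rw [Polynomial.constantCoeff_coe, Polynomial.coeff_map, Polynomial.coeff_zero_eq_eval_zero, h0,
      map_one, Units.val_one]
  have u2 := mul_invOfUnit _ _ u1
  obtain ⟨W, w1⟩ : ∃ W : R⟦X⟧, W * (U.map (Int.castRingHom R) : Polynomial R) =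
      (V.map (Int.castRingHom R) : Polynomial R) * E :=
    ⟨(V.map (Int.castRingHom R) : Polynomial R) * E *
      invOfUnit ((U.map (Int.castRingHom R) : Polynomial R) : R⟦X⟧) 1, by
      rw [mul_assoc, mul_comm (invOfUnit _ _), u2, mul_one]⟩
  have w2 : map f W = N := by
    have := congrArg (map f) w1
    rw [map_mul, map_mul, mp, mp, ← key] at this
    refine mul_right_cancel₀ (fun h0 => ?_) this
    have := hU.1
    rw [h0, map_zero] at this
    exact zero_ne_one this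
  have w3 : ((trunc (N.natDegree + 1) (map ρ W) : Polynomial (ZMod 2)) : (ZMod 2)⟦X⟧) =
      map ρ W := by
    ext n
    rw [Polynomial.coeff_coe, coeff_trunc]
    split_ifs with hn
    · rfl
    · have : coeff n W = 0 := hf (by
        rw [← coeff_map, w2, Polynomial.coeff_coe, map_zero]
        exact Polynomial.coeff_eq_zero_of_natDegree_lt (by omega))
      rw [coeff_map, this, map_zero]
  refine ⟨trunc (N.natDegree + 1) (map ρ W), Nat.lt_succ_iff.1 (natDegree_trunc_lt _ _),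
    Polynomial.coe_injective _ ?_⟩
  have := congrArg (map ρ) w1
  rw [map_mul, map_mul, mp, mp, hE, mul_one] at this
  rw [Polynomial.coe_mul, w3, this]

variable {ι κ : Type} [Fintype ι] [Fintype κ]

/-- The denominator. -/
noncomputable def UQ (S : Type) [CommRing S] (q a₁ a₂ : ℕ) (dg : ι → ℕ) (eg : κ → ℕ) :
    Polynomial S :=
  fac (q : S) 1 ^ a₁ * fac (-q : S) 1 ^ a₂ * (∏ i, fac (q : S) (dg i)) * ∏ j, fac (q : S) (eg j)

/-- The numerator. -/
noncomputable def VQ (S : Type) [CommRing S] (q b₁ b₂ : ℕ) (dg : ι → ℕ) (eg : κ → ℕ) :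
    Polynomial S :=
  fac (q : S) 1 ^ b₁ * fac (-q : S) 1 ^ b₂ * fac (q ^ 2 : S) 1 ^ 1 * fac (q : S) 1 ^ 1 *
    ∏ i, ∏ j, fac (1 : S) ((dg i).lcm (eg j)) ^ (dg i).gcd (eg j)

lemma UQ_map (S : Type) [CommRing S] (q a₁ a₂ : ℕ) (dg : ι → ℕ) (eg : κ → ℕ) :
    (UQ ℤ q a₁ a₂ dg eg).map (Int.castRingHom S) = UQ S q a₁ a₂ dg eg := by
  simp [UQ, fac_map, Polynomial.map_prod]

lemma VQ_map (S : Type) [CommRing S] (q a₁ a₂ : ℕ) (dg : ι → ℕ) (eg : κ → ℕ) :
    (VQ ℤ q a₁ a₂ dg eg).map (Int.castRingHom S) = VQ S q a₁ a₂ dg eg := by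
  simp [VQ, fac_map, Polynomial.map_prod]

open Polynomial in
lemma deg2 {q a₁ a₂ b₁ b₂ : ℕ} (hq : Odd q) {dg : ι → ℕ} {eg : κ → ℕ} (hd : ∀ i, 0 < dg i)
    (he : ∀ j, 0 < eg j) (N : Polynomial (ZMod 2))
    (h : N * UQ (ZMod 2) q a₁ a₂ dg eg = VQ (ZMod 2) q b₁ b₂ dg eg) :
    N.natDegree + (a₁ + a₂ + ∑ i, dg i + ∑ j, eg j) =
      b₁ + b₂ + 1 + 1 + (∑ i, dg i) * ∑ j, eg j := by
  have cast : (q : ZMod 2) = 1 := ZMod.natCast_eq_one_iff_odd.2 hq
  have m1 : (-1 : ZMod 2) = 1 := rfl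
  have dF : ∀ d : ℕ, (fac (1 : ZMod 2) d).natDegree = d := fun d => by
    rw [fac, Polynomial.C_1, one_mul, ← natDegree_neg, neg_sub, ← Polynomial.C_1,
      natDegree_X_pow_sub_C]
  have nF : ∀ {d : ℕ}, 0 < d → fac (1 : ZMod 2) d ≠ 0 := fun {d} hd h0 => by
    have := dF d
    rw [h0, natDegree_zero] at this
    omega
  simp only [UQ, VQ, cast, m1, one_pow] at h
  have nP : (∏ i, fac (1 : ZMod 2) (dg i)) ≠ 0 := Finset.prod_ne_zero_iff.2 fun i _ => nF (hd i)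
  have nP' : (∏ j, fac (1 : ZMod 2) (eg j)) ≠ 0 := Finset.prod_ne_zero_iff.2 fun j _ => nF (he j)
  have n1 := nF one_pos
  have nL : ∀ i j, fac (1 : ZMod 2) ((dg i).lcm (eg j)) ^ (dg i).gcd (eg j) ≠ 0 := fun i j =>
    pow_ne_zero _ (nF (Nat.lcm_pos (hd i) (he j)))
  have nL' : ∀ i, (∏ j, fac (1 : ZMod 2) ((dg i).lcm (eg j)) ^ (dg i).gcd (eg j)) ≠ 0 := fun i =>
    Finset.prod_ne_zero_iff.2 fun j _ => nL i j
  have nQ : (∏ i, ∏ j, fac (1 : ZMod 2) ((dg i).lcm (eg j)) ^ (dg i).gcd (eg j)) ≠ 0 :=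
    Finset.prod_ne_zero_iff.2 fun i _ => nL' i
  have nN : N ≠ 0 := fun h0 => by
    rw [h0, zero_mul] at h
    exact mul_ne_zero (mul_ne_zero (mul_ne_zero (mul_ne_zero (pow_ne_zero _ n1) (pow_ne_zero _ n1))
      (pow_ne_zero _ n1)) (pow_ne_zero _ n1)) nQ h.symm
  have hdeg := congrArg natDegree h
  rw [← pow_add, ← pow_add, ← pow_add, ← pow_add,
    natDegree_mul nN (mul_ne_zero (mul_ne_zero (pow_ne_zero _ n1) nP) nP'),
    natDegree_mul (mul_ne_zero (pow_ne_zero _ n1) nP) nP', natDegree_mul (pow_ne_zero _ n1) nP,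
    natDegree_mul (pow_ne_zero _ n1) nQ, natDegree_pow, natDegree_pow,
    natDegree_prod _ _ fun i _ => nF (hd i), natDegree_prod _ _ fun j _ => nF (he j),
    natDegree_prod _ _ fun i _ => nL' i,
    Finset.sum_congr rfl fun i _ => natDegree_prod _ _ fun j _ => nL i j] at hdeg
  simpa only [natDegree_pow, dF, mul_one, Nat.gcd_mul_lcm, ← Finset.sum_mul_sum] using hdeg

lemma sN_pow (dg : ι → ℕ) (z : ℂ) (m : ℕ) :
    (∑ i, if dg i ∣ m then (dg i : ℂ) * z ^ m else 0) = sN dg m * z ^ m := by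
  rw [sN, Nat.cast_sum, Finset.sum_mul]
  exact Finset.sum_congr rfl fun i _ => by split_ifs <;> simp

lemma sN_sN (dg : ι → ℕ) (eg : κ → ℕ) (m : ℕ) :
    (∑ i, ∑ j, (((dg i).gcd (eg j) : ℕ) : ℂ) *
      if (dg i).lcm (eg j) ∣ m then (((dg i).lcm (eg j) : ℕ) : ℂ) * 1 ^ m else 0) =
      sN dg m * sN eg m := by
  rw [sN, sN, Nat.cast_sum, Nat.cast_sum, Finset.sum_mul_sum]
  refine Finset.sum_congr rfl fun i _ => Finset.sum_congr rfl fun j _ => ?_
  simp only [Nat.lcm_dvd_iff]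
  by_cases h1 : dg i ∣ m
  · by_cases h2 : eg j ∣ m
    · simp only [h1, h2, and_self, if_true, one_pow, mul_one]
      exact_mod_cast Nat.gcd_mul_lcm _ _
    · simp [h2]
  · simp [h1]

end ZMa

open ZMa PowerSeries in
theorem ZM2_thm : ZM2 := by
  refine ⟨fun q hq ι κ _ _ dg eg hd he c hc ν _ hν h => ?_⟩
  let T := ν.support.filter fun z => z ≠ 1 ∧ z ≠ -1
  let N : Polynomial ℂ := ∏ z ∈ T, fac (q * z) 1 ^ (ν z).toNat
  have hT : ∀ z ∈ T, ((ν z).toNat : ℤ) = ν z := fun z hz =>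
    Int.toNat_of_nonneg (hν z (Finset.mem_filter.1 hz).2.1 (Finset.mem_filter.1 hz).2.2)
  have hN : LD N _ := LD.prodP T fun z _ => LD.fac1 (q * z) (ν z).toNat
  have hU : LD (UQ ℂ q (ν 1).toNat (ν (-1)).toNat dg eg) _ :=
    (((LD.fac1 _ _).mulP (LD.fac1 _ _)).mulP (LD.prodP _ fun i _ => LD.fac _ (hd i))).mulP
      (LD.prodP _ fun j _ => LD.fac _ (he j))
  have hV : LD (VQ ℂ q (-ν 1).toNat (-ν (-1)).toNat dg eg) _ :=
    ((((LD.fac1 _ _).mulP (LD.fac1 _ _)).mulP (LD.fac1 _ _)).mulP (LD.fac1 _ _)).mulP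
      (LD.prodP _ fun i _ => LD.prodP _ fun j _ => (LD.fac _ (Nat.lcm_pos (hd i) (he j))).powP _)
  rw [← UQ_map] at hU
  rw [← VQ_map] at hV
  obtain ⟨N', w5, w4⟩ := core _ _ N (by simp [UQ, Polynomial.eval_prod, fac_zero, hd, he])
    hN hU hV c hc fun m hm => by
      have h1 := h m hm
      have t1 : ∀ a : ℤ, ((a.toNat : ℕ) : ℂ) - ((-a).toNat : ℕ) = a := fun a => by
        exact_mod_cast Int.toNat_sub_toNat_neg a
      have s3 : ∑ z ∈ T, ((ν z).toNat : ℂ) * (q * z) ^ m =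
          q ^ m * ∑ z ∈ T, (ν z : ℂ) * z ^ m := by
        rw [Finset.mul_sum]
        refine Finset.sum_congr rfl fun z hz => ?_
        rw [← hT z hz, Int.toNat_natCast, Int.cast_natCast]
        ring
      rw [sum_split ν _ (fun z => by simp)] at h1
      rw [sN_sN, sN_pow, sN_pow, s3, neg_pow (q : ℂ)]
      linear_combination -h1 + q ^ m * t1 (ν 1) + (-1) ^ m * q ^ m * t1 (ν (-1))
  rw [UQ_map, VQ_map] at w4
  have w := deg2 hq hd he N' w4
  have w6 : N.natDegree ≤ ∑ z ∈ T, (ν z).toNat :=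
    (Polynomial.natDegree_prod_le _ _).trans (Finset.sum_le_sum fun z _ =>
      Polynomial.natDegree_pow_le.trans (by
        have : (fac (q * z) 1).natDegree ≤ 1 := by
          rw [fac]
          compute_degree
        simpa using Nat.mul_le_mul_left _ this))
  have w7 : ((∑ z ∈ T, (ν z).toNat : ℕ) : ℤ) = ∑ z ∈ T, ν z := by
    rw [Nat.cast_sum]
    exact Finset.sum_congr rfl hT
  rw [sum_split ν _ fun _ => rfl]
  change _ ≤ ν 1 + (ν (-1) + ∑ z ∈ T, ν z)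
  have t1 := Int.toNat_sub_toNat_neg (ν 1)
  have t2 := Int.toNat_sub_toNat_neg (ν (-1))
  generalize ∑ i, dg i = s at w ⊢
  generalize ∑ j, eg j = t at w ⊢
  have w8 : (N.natDegree : ℤ) ≤ ∑ z ∈ T, ν z := w7 ▸ Int.ofNat_le.2 w6
  zify at w w5
  linarith

end Pool.Agent.Lib.MP_557161_ag.HG.TW.P2
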