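import Pool.Agent.Lib.MP_557161_ag.TW.StZ2

/-!
The number of rational zeros of binary forms over finite fields.
-/

namespace Pool.Agent.Lib.MP_557161_ag.HG.TW.P2

open Polynomial Finset

namespace ZNa

variable {k : Type} [Field k]

open Classical in
/-- The roots that are fixed by the power `Q`. -/
noncomputable def T (f : k[X]) (Q : ℕ) : Finset (AlgebraicClosure k) :=
  (f.aroots (AlgebraicClosure k)).toFinset.filter fun t => t ^ Q = t

lemma mem_T {f : k[X]} (h : f ≠ 0) {Q : ℕ} {t : AlgebraicClosure k} :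
    t ∈ T f Q ↔ aeval t f = 0 ∧ t ^ Q = t := by simp [T, h]

lemma card_one {f : k[X]} (h : f.Separable) : (T f 1).card = f.natDegree := by
  classical
  rw [← card_rootSet_eq_natDegree (K := AlgebraicClosure k) h (IsAlgClosed.splits _)]
  simp [T, rootSet_def]

lemma at_inf (f : k[X]) (n : ℕ) : MvPolynomial.aeval ![1, 0]
    (MvPolynomial.map (algebraMap k (AlgebraicClosure k)) (f.homogenize n)) =
    algebraMap k (AlgebraicClosure k) (f.coeff n) := by
  rw [MvPolynomial.aeval_map_algebraMap, homogenize, map_sum, sum_eq_single (n, 0)]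
  · simp [MvPolynomial.aeval_monomial]
  · rintro ⟨a, b⟩ h e
    have : b ≠ 0 := by
      rintro rfl
      exact e (by simpa using h)
    simp [MvPolynomial.aeval_monomial, this]
  · simp

open Classical in
lemma rt_eq {f : k[X]} (h : f ≠ 0) {n Q : ℕ} (hn : f.natDegree ≤ n) (hQ : Q ≠ 0) :
    rt Q (MvPolynomial.map (algebraMap k (AlgebraicClosure k)) (f.homogenize n)) =
      (T f Q).card + if f.coeff n = 0 then 1 else 0 := by
  have e : ∀ x : Fin 2 → AlgebraicClosure k, x ∈ (T f Q).image (fun t => ![t, 1]) ∪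
      ({![1, 0]} : Finset _).filter (fun _ => f.coeff n = 0) ↔ Nm x ∧ (∀ i, x i ^ Q = x i) ∧
      MvPolynomial.aeval x
        (MvPolynomial.map (algebraMap k (AlgebraicClosure k)) (f.homogenize n)) = 0 := fun x => by
    simp only [mem_union, mem_image, mem_filter, mem_singleton, mem_T h]
    constructor
    · rintro (⟨t, ⟨a, b⟩, rfl⟩ | ⟨rfl, a⟩)
      · refine ⟨Or.inl rfl, by simp [b], ?_⟩
        rw [MvPolynomial.aeval_map_algebraMap, aeval_homogenize_of_eq_one hn _ rfl]
        exact a
      · exact ⟨Or.inr ⟨rfl, rfl⟩, by simp [hQ], by rw [at_inf, a, map_zero]⟩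
    · rintro ⟨a | a, b, c⟩
      · rw [MvPolynomial.aeval_map_algebraMap, aeval_homogenize_of_eq_one hn _ a] at c
        exact Or.inl ⟨x 0, ⟨c, b 0⟩, funext fun i => by fin_cases i <;> simp [a]⟩
      · obtain rfl : x = ![1, 0] := funext fun i => by fin_cases i <;> simp [a]
        exact Or.inr ⟨rfl, by simpa [at_inf] using (at_inf f n).symm.trans c⟩
  rw [rt, Nat.subtype_card _ e, card_union_of_disjoint, card_image_of_injective _
    fun s t a => congrFun a 0, filter_singleton]
  · split_ifs <;> simp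
  · refine disjoint_left.2 fun x a b => ?_
    obtain ⟨t, -, rfl⟩ := mem_image.1 a
    simpa using congrFun (mem_singleton.1 (mem_filter.1 b).1) 1

variable [Finite k]

lemma card_irr {u : k[X]} (h : Irreducible u) (m : ℕ) :
    (T u (Nat.card k ^ m)).card = rN u.natDegree m := by
  have e : ∀ t : AlgebraicClosure k, aeval t u = 0 →
      (u.natDegree ∣ m ↔ t ^ Nat.card k ^ m = t) := fun t a => by
    rw [h.natDegree_dvd_iff_dvd_X_pow_card_pow_sub_X, ← h.dvd_iff_aeval_eq_zero a]
    simp [sub_eq_zero]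
  unfold rN
  split_ifs with d
  · rw [← card_one (PerfectField.separable_of_irreducible h)]
    congr 1
    ext t
    simp only [mem_T h.ne_zero, pow_one, and_true, and_iff_left_iff_imp]
    exact fun a => (e t a).1 d
  · refine card_eq_zero.2 (eq_empty_of_forall_notMem fun t a => ?_)
    rw [mem_T h.ne_zero] at a
    exact d ((e t a.1).2 a.2)

open Classical in
lemma card_T {f : k[X]} (h : f ≠ 0) (m : ℕ) : (T f (Nat.card k ^ m)).card =
    ∑ u ∈ (T f 1).image (minpoly k), rN u.natDegree m := by
  rw [card_eq_sum_card_fiberwise (f := minpoly k) (t := (T f 1).image (minpoly k)) fun t a =>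
    mem_image_of_mem _ ((mem_T h).2 ⟨((mem_T h).1 a).1, pow_one _⟩)]
  refine sum_congr rfl fun u hu => ?_
  obtain ⟨s, hs, rfl⟩ := mem_image.1 hu
  have i := Algebra.IsIntegral.isIntegral (R := k) s
  rw [← card_irr (minpoly.irreducible i)]
  congr 1
  ext t
  rw [mem_filter, mem_T h, mem_T (minpoly.ne_zero i)]
  exact ⟨fun a => ⟨a.2 ▸ minpoly.aeval k t, a.1.2⟩, fun a =>
    ⟨⟨aeval_eq_zero_of_dvd_aeval_eq_zero (minpoly.dvd k s ((mem_T h).1 hs).1) a.1, a.2⟩,
      (minpoly.eq_of_irreducible_of_monic (minpoly.irreducible i) a.1 (minpoly.monic i)).symm⟩⟩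

end ZNa

open ZNa in
theorem ZN_thm : ZN where
  sqf {k} _ _ f n hf h1 h2 := by
    classical
    have h := hf.ne_zero
    have i := fun s : AlgebraicClosure k => minpoly.irreducible (Algebra.IsIntegral.isIntegral (R := k) s)
    refine ⟨(T f 1).image (minpoly k) ⊕ Fin (n - f.natDegree), inferInstance,
      Sum.elim (fun u => u.1.natDegree) fun _ => 1, ?_, ?_, ?_, fun m _ => ?_⟩
    · have := card_T h 0
      rw [pow_zero, card_one (PerfectField.separable_iff_squarefree.2 hf)] at this
      simp only [rN, dvd_zero, if_true] at this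
      simp only [Fintype.sum_sum_type, Sum.elim_inl, Sum.elim_inr]
      rw [sum_coe_sort _ natDegree, ← this]
      simp [h1]
    · rintro (⟨u, hu⟩ | _)
      · obtain ⟨s, -, rfl⟩ := mem_image.1 hu
        exact (i s).natDegree_pos
      · exact one_pos
    · rintro (⟨u, hu⟩ | _)
      · obtain ⟨s, hs, rfl⟩ := mem_image.1 hu
        exact Or.inr ⟨_, i s, minpoly.dvd k s ((mem_T h).1 hs).1, rfl⟩
      · exact Or.inl rfl
    · rw [rt_eq h h1 (pow_ne_zero _ Nat.card_pos.ne'), card_T h, sN, Fintype.sum_sum_type,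
        ← sum_coe_sort]
      congr 1
      rcases h1.eq_or_lt with rfl | l
      · simp [h]
      · simp [coeff_eq_zero_of_natDegree_lt l, show n - f.natDegree = 1 by omega]
  irr D h m _ := by
    rw [rt_eq h.ne_zero le_rfl (pow_ne_zero _ Nat.card_pos.ne'), card_irr h]
    simp [h.ne_zero]

end Pool.Agent.Lib.MP_557161_ag.HG.TW.P2
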