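import Pool.Agent.Lib.MP_557161_ag.TW.StZ2

/-!
Points that a power of a map sends to their image under a free involution.
-/

namespace Pool.Agent.Lib.MP_557161_ag.HG.TW.P2

namespace ZO2a

theorem two_dvd {d m : ℕ} (h : d ∣ 2 * m) (hn : ¬ d ∣ m) : 2 ∣ d := by
  by_contra h2
  exact hn (((Nat.Prime.coprime_iff_not_dvd Nat.prime_two).2 h2).symm.dvd_of_dvd_mul_left h)

theorem pow_dvd (v : ℕ) : ∀ {d m : ℕ}, d ∣ 2 * m → ¬ d ∣ m → 2 ^ v ∣ m → 2 ^ (v + 1) ∣ d := by
  induction v with
  | zero => exact fun h hn _ => two_dvd h hn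
  | succ v ih =>
    intro d m h hn hv
    obtain ⟨d', rfl⟩ := two_dvd h hn
    obtain ⟨m', rfl⟩ : 2 ∣ m := (dvd_pow_self 2 v.succ_ne_zero).trans hv
    rw [pow_succ' 2 (v + 1)]
    refine Nat.mul_dvd_mul_left 2 (ih (Nat.dvd_of_mul_dvd_mul_left two_pos h)
      (fun e => hn (Nat.mul_dvd_mul_left 2 e)) ?_)
    rw [pow_succ'] at hv
    exact Nat.dvd_of_mul_dvd_mul_left two_pos hv

theorem card_dvd {S : Type} [Finite S] (σ : Equiv.Perm S) (n : ℕ)
    (h : ∀ x, n ∣ Function.minimalPeriod σ x) : n ∣ Nat.card S := by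
  classical
  have := Fintype.ofFinite (MulAction.orbitRel.Quotient (Subgroup.zpowers σ) S)
  rw [Nat.card_congr (MulAction.selfEquivSigmaOrbits (Subgroup.zpowers σ) S), Nat.card_sigma]
  refine Finset.dvd_sum fun ω _ => ?_
  have := Fintype.ofFinite (MulAction.orbit (Subgroup.zpowers σ) ω.out)
  rw [Nat.card_eq_fintype_card, ← MulAction.minimalPeriod_eq_card]
  exact h _

end ZO2a

open ZO2a in
theorem ZO2_thm : ZO2 where
  dvd := fun {α} F ι h1 h2 h3 m v hm hv => by
    rcases finite_or_infinite {x // F^[m] x = ι x} with hS | hS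
    swap
    · rw [Nat.card_eq_zero_of_infinite]
      exact dvd_zero _
    let f : {x // F^[m] x = ι x} → {x // F^[m] x = ι x} := fun x =>
      ⟨F x.1, by rw [← Function.iterate_succ_apply, Function.iterate_succ_apply', x.2, h3]⟩
    have hf : ∀ n x, (f^[n] x).1 = F^[n] x.1 := fun n x =>
      (Function.Semiconj.iterate_right (f := Subtype.val) (ga := f) (gb := F) (fun _ => rfl) n x)
    have hp : ∀ x, f^[2 * m] x = x := fun x => Subtype.ext (by
      rw [hf, two_mul, Function.iterate_add_apply, x.2,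
        (Function.Commute.iterate_left (f := F) (g := ι) h3 m).eq, x.2, h1])
    have hs : Function.Surjective f := fun x => ⟨f^[2 * m - 1] x, by
      rw [← Function.iterate_succ_apply' f, Nat.succ_eq_add_one, Nat.sub_add_cancel (by omega), hp]⟩
    refine card_dvd (Equiv.ofBijective f hs.bijective_of_finite) _ fun x => pow_dvd v (m := m)
      (Function.IsPeriodicPt.minimalPeriod_dvd (hp x)) (fun e => h2 x.1 ?_) hv
    have := congrArg Subtype.val
      (Function.isPeriodicPt_iff_minimalPeriod_dvd.2 e : f^[m] x = x)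
    rw [hf, x.2] at this
    exact this

end Pool.Agent.Lib.MP_557161_ag.HG.TW.P2
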