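import Pool.Agent.Lib.MP_557161_ag.TW.StZ3
import Pool.Agent.Lib.MP_557161_ag.TU.T1b

/-!
The number of orbits of the square of a permutation.
-/

namespace Pool.Agent.Lib.MP_557161_ag.HG.TW.P2

open Pool.Agent.Lib.MP_557161_ag.DL Function Finset
open scoped Classical

namespace ZO3a

variable {α : Type} [Fintype α] {G : α → α}

/-- The set of orbits. -/
abbrev Q (G : α → α) : Type := Quot fun x y : α => y = G x

noncomputable instance (G : α → α) : Fintype (Q G) := Fintype.ofFinite _

theorem pos (h : Injective G) (x : α) : 0 < minimalPeriod G x :=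
  minimalPeriod_pos_of_mem_periodicPts (h.mem_periodicPts x)

theorem mk_eq (h : Injective G) {x y : α} :
    (Quot.mk _ y : Q G) = Quot.mk _ x ↔ ∃ n, G^[n] x = y := by
  refine ⟨fun e => ?_, ?_⟩
  · have := congrArg (Quot.lift (fun y => {z | ∃ n, G^[n] y = z}) fun a b e => by
      subst e
      refine Set.ext fun z => ⟨?_, fun ⟨n, e⟩ => ⟨n + 1, e⟩⟩
      rintro ⟨n, rfl⟩
      refine ⟨n + (minimalPeriod G a - 1), ?_⟩
      rw [← iterate_succ_apply, ← Nat.add_succ, Nat.succ_eq_add_one, Nat.sub_add_cancel (pos h a),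
        iterate_add_apply, iterate_minimalPeriod]) e
    exact (Set.ext_iff.1 this y).1 ⟨0, rfl⟩
  · rintro ⟨n, rfl⟩
    induction n with
    | zero => rfl
    | succ n ih => exact Eq.trans (Eq.symm (Quot.sound (iterate_succ_apply' G n x))) ih

theorem fib (h : Injective G) {c : Q G} {x : α} (e : Quot.mk _ x = c) :
    minimalPeriod G x = (univ.filter fun y => Quot.mk _ y = c).card := by
  rw [← card_range (minimalPeriod G x), ← card_image_of_injOn (f := fun n => G^[n] x)
    (coe_range _ ▸ iterate_injOn_Iio_minimalPeriod), ← e]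
  congr 1
  ext y
  simp only [mem_image, mem_range, mem_filter, mem_univ, true_and, mk_eq h]
  exact ⟨fun ⟨n, _, e⟩ => ⟨n, e⟩, fun ⟨n, e⟩ =>
    ⟨_, Nat.mod_lt n (pos h x), iterate_mod_minimalPeriod_eq.trans e⟩⟩

theorem sumq (h : Injective G) (φ : ℕ → ℂ) : ∑ c : Q G, φ (minimalPeriod G c.out) =
    ∑ x, φ (minimalPeriod G x) / minimalPeriod G x := by
  rw [← sum_fiberwise univ (Quot.mk _ : α → Q G)]
  refine sum_congr rfl fun c _ => ?_
  rw [sum_congr rfl fun x hx => by rw [(fib h (mem_filter.1 hx).2).trans (fib h c.out_eq).symm],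
    sum_const, ← fib h c.out_eq, nsmul_eq_mul,
    mul_div_cancel₀ _ (Nat.cast_ne_zero.2 (pos h _).ne')]

theorem tau (d : ℕ) : ∃ t : ℂ →₀ ℤ, 0 < d → t 0 = 0 ∧
    (∀ m : ℕ, (t.sum fun z c => (c : ℂ) * z ^ m) = if d ∣ m then (d : ℂ) else 0) ∧
    t 1 + t (-1) = d.gcd 2 := by
  refine ⟨∑ i ∈ range d, Finsupp.single (Complex.exp (2 * Real.pi * Complex.I / d) ^ i) 1,
    fun hd => ?_⟩
  have h := Complex.isPrimitiveRoot_exp d hd.ne'
  generalize Complex.exp (2 * Real.pi * Complex.I / d) = ζ at h ⊢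
  have := NeZero.mk hd.ne'
  have a : ∀ z, (∑ i ∈ range d, Finsupp.single (ζ ^ i) (1 : ℤ)) z = if z ^ d = 1 then 1 else 0 :=
    fun z => by
      rw [Finsupp.finsetSum_apply]
      split_ifs with e
      · obtain ⟨i, hi, rfl⟩ := h.eq_pow_of_pow_eq_one e
        rw [sum_eq_single_of_mem i (mem_range.2 hi) fun j hj n =>
          Finsupp.single_eq_of_ne' fun e => n (h.pow_inj (mem_range.1 hj) hi e)]
        exact Finsupp.single_eq_same
      · exact sum_eq_zero fun i _ => Finsupp.single_eq_of_ne' fun k =>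
          e (by rw [← k, ← pow_mul, mul_comm, pow_mul, h.pow_eq_one, one_pow])
  refine ⟨by simp [a, hd.ne'], fun m => ?_, ?_⟩
  · rw [← Finsupp.sum_finsetSum_index (by simp) (by simp [add_mul])]
    have : ∀ i, ((Finsupp.single (ζ ^ i) (1 : ℤ)).sum fun z c => (c : ℂ) * z ^ m) = (ζ ^ m) ^ i :=
      fun i => by rw [Finsupp.sum_single_index (by simp), ← pow_mul, ← pow_mul, mul_comm i]; simp
    simp only [this]
    split_ifs with e
    · simp [(h.pow_eq_one_iff_dvd m).2 e]
    · rw [geom_sum_eq (mt (h.pow_eq_one_iff_dvd m).1 e), ← pow_mul, mul_comm, pow_mul,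
        h.pow_eq_one, one_pow, sub_self, zero_div]
  · rw [a, a, one_pow, if_pos rfl, Nat.gcd_comm, Nat.gcd_rec]
    rcases d.even_or_odd with e | e
    · rw [e.neg_one_pow, Nat.even_iff.1 e]
      simp
    · rw [e.neg_one_pow, Nat.odd_iff.1 e]
      norm_num

end ZO3a

open ZO3a

theorem ZO3_thm : ZO3 where
  orb {α} _ F h := by
    have := Fintype.ofFinite α
    choose t ht using tau
    have p := fun x => Nat.cast_ne_zero (R := ℂ).2 (pos h x).ne'
    refine ⟨∑ c : Q F, t (minimalPeriod F c.out), ?_, fun m _ => ?_, Int.cast_injective (α := ℂ) ?_⟩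
    · rw [Finsupp.finsetSum_apply]
      exact sum_eq_zero fun c _ => (ht _ (pos h _)).1
    · rw [← Finsupp.sum_finsetSum_index (by simp) (by simp [add_mul]),
        sum_congr rfl fun c _ => (ht _ (pos h _)).2.1 m,
        sumq h fun d => if d ∣ m then (d : ℂ) else 0, Nat.card_eq_fintype_card, Fintype.card_subtype,
        ← sum_boole]
      refine sum_congr rfl fun x _ => ?_
      simp only [← isPeriodicPt_iff_minimalPeriod_dvd, ite_div, div_self (p x), zero_div]
      rfl
    · have e := sumq (G := F^[2]) (h.iterate 2) fun _ => 1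
      rw [sum_const, nsmul_eq_mul, mul_one, card_univ, ← Nat.card_eq_fintype_card] at e
      rw [Finsupp.finsetSum_apply, Finsupp.finsetSum_apply, ← sum_add_distrib,
        sum_congr rfl fun c _ => (ht _ (pos h _)).2.2]
      simp only [Int.cast_sum, Int.cast_natCast]
      refine (sumq h fun d => (d.gcd 2 : ℕ)).trans (Eq.trans (sum_congr rfl fun x _ => ?_) e.symm)
      rw [minimalPeriod_iterate_eq_div_gcd two_ne_zero, Nat.cast_div (Nat.gcd_dvd_left _ _)
        (Nat.cast_ne_zero.2 (Nat.gcd_pos_of_pos_right _ two_pos).ne'), one_div_div]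
  uq ν ν' a b h := by
    ext z
    by_contra n
    have k := T0.T1b.geom_zero (ν - ν').support (fun z => ((ν - ν') z : ℂ) * z) (fun t => by
      have := sub_eq_zero.2 (h (t + 1) t.succ_pos)
      rw [← Finsupp.sum_sub_index (by simp [sub_mul])] at this
      simpa only [mul_assoc, ← pow_succ', Finsupp.sum] using this) z
      (Finsupp.mem_support_iff.2 (sub_ne_zero.2 n))
    rcases mul_eq_zero.1 k with k | rfl
    · exact n (sub_eq_zero.1 (Int.cast_eq_zero.1 k))
    · exact n (a.trans b.symm)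

end Pool.Agent.Lib.MP_557161_ag.HG.TW.P2
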