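import Pool.Agent.Lib.MP_557161_ag.HG.XC
import Pool.Agent.Lib.MP_557161_ag.HG.XT
import Pool.Agent.Lib.MP_557161_ag.HG.XZ
import Pool.Agent.Lib.MP_557161_ag.HG.ZA
import Pool.Agent.Lib.MP_557161_ag.HG.ZA1
import Pool.Agent.Lib.MP_557161_ag.HG.ZB
import Pool.Agent.Lib.MP_557161_ag.HG.ZD
import Pool.Agent.Lib.MP_557161_ag.HG.ZT
import Pool.Agent.Lib.MP_557161_ag.TW.All1
import Pool.Agent.Lib.MP_557161_ag.TW.WA
import Pool.Agent.Lib.MP_557161_ag.TW.WB
import Pool.Agent.Lib.MP_557161_ag.TW.WC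
import Pool.Agent.Lib.MP_557161_ag.TW.WN
import Pool.Agent.Lib.MP_557161_ag.TW.AD
import Pool.Agent.Lib.MP_557161_ag.TW.DN
import Pool.Agent.Lib.MP_557161_ag.TW.UP
import Pool.Agent.Lib.MP_557161_ag.TW.SE
import Pool.Agent.Lib.MP_557161_ag.TW.KE
import Pool.Agent.Lib.MP_557161_ag.TW.KN
import Pool.Agent.Lib.MP_557161_ag.TW.CE
import Pool.Agent.Lib.MP_557161_ag.TW.CP
import Pool.Agent.Lib.MP_557161_ag.TW.SL
import Pool.Agent.Lib.MP_557161_ag.TW.RC
import Pool.Agent.Lib.MP_557161_ag.TW.X0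
import Pool.Agent.Lib.MP_557161_ag.TW.X1
import Pool.Agent.Lib.MP_557161_ag.TW.X2
import Pool.Agent.Lib.MP_557161_ag.TW.XA
import Pool.Agent.Lib.MP_557161_ag.TW.XB0
import Pool.Agent.Lib.MP_557161_ag.TW.XB1
import Pool.Agent.Lib.MP_557161_ag.TW.XB2
import Pool.Agent.Lib.MP_557161_ag.TW.XB3
import Pool.Agent.Lib.MP_557161_ag.TW.XE
import Pool.Agent.Lib.MP_557161_ag.TW.XF
import Pool.Agent.Lib.MP_557161_ag.TW.XG
import Pool.Agent.Lib.MP_557161_ag.TW.XI
import Pool.Agent.Lib.MP_557161_ag.TW.XJ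
import Pool.Agent.Lib.MP_557161_ag.TW.XK
import Pool.Agent.Lib.MP_557161_ag.TW.XL
import Pool.Agent.Lib.MP_557161_ag.TW.XM
import Pool.Agent.Lib.MP_557161_ag.TW.XN
import Pool.Agent.Lib.MP_557161_ag.TW.XQ
import Pool.Agent.Lib.MP_557161_ag.TW.XU
import Pool.Agent.Lib.MP_557161_ag.TW.XV
import Pool.Agent.Lib.MP_557161_ag.TW.XW
import Pool.Agent.Lib.MP_557161_ag.TW.BD
import Pool.Agent.Lib.MP_557161_ag.TW.DS
import Pool.Agent.Lib.MP_557161_ag.TW.YA
import Pool.Agent.Lib.MP_557161_ag.TW.YD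
import Pool.Agent.Lib.MP_557161_ag.TW.YL
import Pool.Agent.Lib.MP_557161_ag.TW.YN
import Pool.Agent.Lib.MP_557161_ag.TW.YQ
import Pool.Agent.Lib.MP_557161_ag.TW.YS
import Pool.Agent.Lib.MP_557161_ag.TW.YT
import Pool.Agent.Lib.MP_557161_ag.TW.YU
import Pool.Agent.Lib.MP_557161_ag.TW.YW
import Pool.Agent.Lib.MP_557161_ag.TW.YZ
import Pool.Agent.Lib.MP_557161_ag.TW.ZO
import Pool.Agent.Lib.MP_557161_ag.TW.ZR
import Pool.Agent.Lib.MP_557161_ag.TW.ZS
import Pool.Agent.Lib.MP_557161_ag.TW.ZB2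
import Pool.Agent.Lib.MP_557161_ag.TW.ZES
import Pool.Agent.Lib.MP_557161_ag.TW.ZM
import Pool.Agent.Lib.MP_557161_ag.TW.ZM2
import Pool.Agent.Lib.MP_557161_ag.TW.ZN
import Pool.Agent.Lib.MP_557161_ag.TW.ZO2
import Pool.Agent.Lib.MP_557161_ag.TW.ZO3
import Pool.Agent.Lib.MP_557161_ag.TW.FN

/-!
The conjecture of Tate for the twisted surfaces, assembled.
-/

namespace Pool.Agent.Lib.MP_557161_ag.HG.TW.P2

open Pool.Agent.Lib.MP_557161_ag.DL

theorem geo {K : Type} [Field K] [Base K] {p : ℕ} [Fact p.Prime] [CharP K p] [YP K] :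
    X1 K ∧ XG K ∧ XL K ∧ XI K p ∧ XF K p ∧ XB1 K p ∧ XB2 K p ∧ XB3 K p ∧ ZO K p ∧ ZR K p ∧
      XQ K p := by
  have : FW0 K := FW0_thm
  have : FWp K p := FWp_thm
  have : WA K := WA_thm
  have : WB K := WB_thm
  have : WC K := WC_thm
  have : WN K := WN_thm
  have : AD K := AD_thm
  have : DN K := DN_thm
  have : UP K := UP_thm p
  have : SE K := SE_thm
  have : KE K := KE_thm
  have : KN K := KN_thm
  have : CE K := CE_thm
  have : CP K := CP_thm
  have : SL K := SL_thm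
  have : RC K := RC_thm
  have : XU := XU_thm
  have : XJ := XJ_thm
  have : XC := XC_thm
  have : ZO2 := ZO2_thm
  have : X0 K := X0_thm
  have x1 : X1 K := X1_thm
  have : X2 K := X2_thm
  have : BD K := BD_thm
  have : XA K := XA_thm
  have xg : XG K := XG_thm
  have xf : XF K p := XF_thm
  have : XV K p := XV_thm
  have : XW K p := XW_thm
  have : XN K := XN_thm
  have : XB0 K p := XB0_thm
  have : YA K := YA_thm
  have : DS K := DS_thm
  have xl : XL K := XL_thm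
  have xi : XI K p := XI_thm
  have : YT K := YT_thm
  have : YD K := YD_thm
  have : YN K := YN_thm
  have : YU K := YU_thm
  have : YL K p := YL_thm
  have : YS K := YS_thm
  have : YW K := YW_thm p
  have : YQ K := YQ_thm p
  have : YZ K := YZ_thm
  have : ZS K p := ZS_thm
  have : TW.ALT K := TW.ALT_thm
  exact ⟨x1, xg, xl, xi, xf, XB1_thm, XB2_thm, XB3_thm, ZO_thm, ZR_thm, XQ_thm⟩

lemma KD.up {k : Type} [Field k] [Finite k] {g h : ℕ} {f D : Polynomial k} (H : KD g h f D) :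
    ∃ G : GD (AlgebraicClosure k), G.g = g ∧ G.h = h ∧ Up G f D := by
  let a := algebraMap k (AlgebraicClosure k)
  have n := fun u : Polynomial k => Polynomial.natDegree_map_eq_of_injective a.injective u
  have s : ∀ u : Polynomial k, Squarefree u → (u.map a).Separable := fun u e =>
    (PerfectField.separable_iff_squarefree.2 e).map
  have c : IsCoprime (f.map a) (D.map a) := H.cop.map (Polynomial.mapRingHom a)
  have t : (2 : AlgebraicClosure k) ≠ 0 := fun e =>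
    H.two (a.injective (by rw [map_ofNat, e, map_zero]))
  obtain ⟨G, e3, e4, e1, e2⟩ := XE_thm.ex t H.g0 H.h0 (s f H.sf) (s D H.sD) c
    (H.f1.trans (n f).ge) ((n f).trans_le H.f2) (H.D1.trans (n D).ge) ((n D).trans_le H.D2)
    (H.od.imp (n f).trans (n D).trans)
  subst e3 e4
  exact ⟨G, rfl, rfl, H, by rw [e1, Polynomial.homogenize_map], by
    rw [e2, Polynomial.homogenize_map]⟩

theorem final {k : Type} [Field k] [Finite k] [YP (AlgebraicClosure k)] {g h : ℕ}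
    {f D : Polynomial k} (H : KD g h f D) (L : ℕ → Type) [∀ m, Field (L m)] [∀ m, Algebra k (L m)]
    (hL : ∀ m, Module.finrank k (L m) = m + 1) :
    SmProj (kI g h f D) 2 ∧ ∃ ζ : ℂ → ℂ, IsZeta (kI g h f D) 2 L ζ ∧
    (Ar h f D ∨ ((-(4 + orb (f.homogenize (2 * g + 1)) (D.homogenize (2 * h + 1))) : ℤ) :
        WithTop ℤ) ≤ meromorphicOrderAt ζ 1 +
      meromorphicOrderAt ζ (1 + Real.pi * Complex.I / Real.log (Nat.card k)) →
    (∀ F : ∀ P : Var (kI g h f D) 1, Res (kI g h f D) P.1, ∃ ρ : ℕ,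
      Module.rank ℤ (Num (kI g h f D) 1 1 F) = ρ ∧
        meromorphicOrderAt ζ 1 = (-(ρ : ℤ) : ℤ)) ∧
    ([ZY] → TateAt (Nat.card k) 1 (upI (kI g h f D)))) := by
  have hb := T0.fbar k
  have : Fact (ringChar k).Prime := ⟨hb.prime⟩
  have := hb.char
  obtain ⟨_, _, _, _, _, _, _, _, _, _, _⟩ := geo (K := AlgebraicClosure k) (p := ringChar k)
  have : XU := XU_thm
  have : XJ := XJ_thm
  have : XM := XM_thm
  have : X0 (AlgebraicClosure k) := X0_thm
  have : XK k := XK_thm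
  have : XT := XT_thm
  have : XZ := XZ_thm
  have : ZA1 := ZA1_thm
  have : ZA := ZA_thm
  have : ZB := ZB_thm
  have : ZD := ZD_thm
  have : ZT := ZT_thm
  have : ZES := ZES_thm
  have : ZB2 := ZB2_thm
  have : ZM := ZM_thm
  have : ZM2 := ZM2_thm
  have : ZO3 := ZO3_thm
  have : ZN := ZN_thm
  obtain ⟨G, rfl, rfl, U⟩ := H.up
  have hI := Up.hI G.g G.h f D
  obtain ⟨ζ, h1, h2⟩ := zeta_dec (p := ringChar k) U L hL
  exact ⟨⟨hI, U.hs, U.hd, fun i P => nonempty_res hI P.2.2.1 P.2.2.2.1,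
    fun i n h P Q F => chi_eventually hI U.hs U.hd h P Q F⟩, ζ, h1, h2⟩

end Pool.Agent.Lib.MP_557161_ag.HG.TW.P2
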