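import Pool.Agent.Lib.MP_557161_ag.TW.YP1

/-!
The place of the blow-up of a rational point.
-/

namespace Pool.Agent.Lib.MP_557161_ag.HG.TW.P2

open Pool.Agent.Lib.MP_557161_ag.DL MvPolynomial

namespace YPa

variable {K : Type} [Field K] {G : GD K} {L M M₀ : Fld K} {α : L →ₐ[K] M} {α₀ : L →ₐ[K] M₀}
  {μ ν : Vr} {R : Vr → L}

lemma lin (G : GD K) (μ : Vr) (z : Vr → M) (c : M) :
    aeval (sh z μ c) (G.E 0) = aeval z (G.E 0) + c * aeval z (pderiv μ (G.E 0)) := by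
  rw [eqs0, eqs0]
  obtain ⟨s, i⟩ := μ
  fin_cases s <;> fin_cases i <;> simp [eqs, dt, pc, sh, pderiv_X] <;> ring

lemma card (h : μ ≠ ν) : Nat.card (Unit ⊕ {l : Vr // l ≠ μ ∧ l ≠ ν}) = 6 + 1 := by
  rw [Nat.card_eq_fintype_card]
  revert μ ν
  decide

lemma cramer {n : Fin 2 → Vr → M} (h : mnr n μ ν ≠ 0) {w : Vr → M} (hw : ∀ r, ∑ s, n r s * w s = 0)
    (q : M → Prop) (q0 : q 0) (qa : ∀ a b, q a → q b → q (a + b))
    (qm : ∀ r s a, q a → q (n r s * a)) (qn : ∀ a, q a → q (-a))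
    (qd : ∀ a, q a → q (a / mnr n μ ν)) (hq : ∀ s, s ≠ μ → s ≠ ν → q (w s)) (s : Vr) : q (w s) := by
  have e : μ ≠ ν := fun e => h (e ▸ sub_self _)
  have h1 : ∀ r, ∃ S, q S ∧ n r μ * w μ + (n r ν * w ν + S) = 0 := fun r =>
    ⟨∑ s ∈ (Finset.univ.erase μ).erase ν, n r s * w s, Finset.sum_induction _ q qa q0 fun s hs =>
      qm _ _ _ (hq s (Finset.ne_of_mem_erase (Finset.mem_of_mem_erase hs))
        (Finset.ne_of_mem_erase hs)), by
      rw [← hw r, ← Finset.add_sum_erase _ _ (Finset.mem_univ μ),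
        ← Finset.add_sum_erase _ _ (Finset.mem_erase.2 ⟨e.symm, Finset.mem_univ ν⟩)]⟩
  obtain ⟨S, a1, a2⟩ := h1 0
  obtain ⟨S', a3, a4⟩ := h1 1
  by_cases hμ : s = μ
  · rw [hμ, show w μ = (n 0 ν * S' + -(n 1 ν * S)) / mnr n μ ν from eq_div_of_mul_eq h (by
      unfold mnr
      linear_combination n 1 ν * a2 - n 0 ν * a4)]
    exact qd _ (qa _ _ (qm _ _ _ a3) (qn _ (qm _ _ _ a1)))
  by_cases hν : s = ν
  · rw [hν, show w ν = (n 1 μ * S + -(n 0 μ * S')) / mnr n μ ν from eq_div_of_mul_eq h (by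
      unfold mnr
      linear_combination n 0 μ * a4 - n 1 μ * a2)]
    exact qd _ (qa _ _ (qm _ _ _ a1) (qn _ (qm _ _ _ a3)))
  exact hq s hμ hν

lemma near {O₀ : Pl M₀} {h₀ : Pl.Triv α₀ O₀} {x : Vr → M₀}
    (rx : ∀ s, (Rel.ofPl O₀).r (x s) (h₀.hom (R s))) {β : M₀ →ₐ[K] M} {O : Pl M}
    (ov : Pl.Over β O₀ O) (ht : Pl.Triv (β.comp α₀) O) {Θ : M} (w1 : Θ ∈ O.O) (w2 : O.rd Θ = 0)
    (ν s : Vr) : (Rel.ofPl O).r (sh (fun s => β (x s)) ν Θ s) (ht.hom (R s)) :=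
  sh_rel (R := .ofPl O) (z' := fun s => ht.hom (R s)) (fun s => ⟨(ov _).1 (rx s).1, by
    rw [← ov.resHom_rd, (rx s).2, h₀.hom_apply, ov.resHom_rd, ht.hom_apply]
    rfl⟩) ν ⟨w1, w2⟩ s

lemma small {O : Pl M} {ht : Pl.Triv α O} {z : Vr → M}
    (rz : ∀ s, (Rel.ofPl O).r (z s) (ht.hom (R s))) {E A : MvPolynomial Vr K} (hE : aeval R E = 0)
    (hA : aeval R A ≠ 0) :
    aeval z A ≠ 0 ∧ ∀ c, aeval z E + c * aeval z A = 0 → (Rel.ofPl O).r c 0 := by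
  have ra : ∀ P, (Rel.ofPl O).r (aeval z P) (ht.hom (aeval R P)) := fun P =>
    aeval_mapV ht.hom R P ▸ Rel.aeval rz P
  have h1 := (map_ne_zero ht.hom).2 hA
  have h2 := Rel.ne_zero (ra A) h1
  refine ⟨h2, fun c e => ?_⟩
  rw [show c = -aeval z E / aeval z A from eq_div_of_mul_eq h2 (by linear_combination e)]
  simpa [hE] using Rel.div (Rel.neg (ra E)) (ra A) h1

lemma model [YA K] [XH K] {j : ℕ} {y : Vr → M} {t : M} (hy : G.GenC j α y t) (hR : G.Cn L R)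
    (hA : G.row L R 0 μ ≠ 0) (hm : mnr (G.row L R) μ ν ≠ 0)
    {T : Unit ⊕ {l : Vr // l ≠ μ ∧ l ≠ ν} → M₀} (top : gen α₀ T = ⊤) (gM : Good (j + 6 + 1) M₀)
    (t0 : T (.inl ()) ≠ 0) {O₀ : Dv M₀ (j + 6)} {h₀ : Pl.Triv α₀ O₀.1} {x : Vr → M₀}
    (rx : ∀ s, (Rel.ofPl O₀.1).r (x s) (h₀.hom (R s))) (xν : x ν = α₀ (R ν))
    (xl : ∀ l : {l : Vr // l ≠ μ ∧ l ≠ ν}, x l = α₀ (R l) + -T (.inl ()) * T (.inr l)) :
    ∃ (β : M₀ →ₐ[K] M) (Θ c : M) (g : Polynomial M₀), β.comp α₀ = α ∧ β (T (.inl ())) = t ∧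
      y = sh (sh (fun s => β (x s)) ν Θ) μ c ∧ Gen β Θ ∧ (∀ n, g.coeff n ∈ O₀.1.O) ∧
      O₀.1.rd (g.coeff 0) = 0 ∧ O₀.1.rd (g.coeff 1) ≠ 0 ∧
      ∀ f : Polynomial M₀, f.eval₂ β.toRingHom Θ = 0 ↔ g ∣ f := by
  have e : μ ≠ ν := fun e => hm (e ▸ sub_self _)
  obtain ⟨N, F, hF⟩ := elim (pderiv μ (G.E 0)) (G.E 0) (G.E 1) μ
  obtain ⟨f0, f1⟩ := der ν hF (hR.2 0) (hR.2 1) hA hm
  obtain ⟨h, p0, p1, p2, p3⟩ := poly x ν F
  have ra : ∀ P, O₀.1.rd (aeval x P) = h₀.hom (aeval R P) := fun P =>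
    (Rel.aeval rx P).2.trans (aeval_mapV h₀.hom _ P)
  obtain ⟨M', β, Θ, g, g1, g2, g3, g4, g5, g6⟩ := root O₀.1 O₀.2.1 h (p2 _ fun s => (rx s).1)
    (by rw [p0, ra, f0, map_zero]) (by rw [p1, ra]; exact (map_ne_zero _).2 f1)
  obtain ⟨O, ov, w1, w2, -⟩ := XH.hen O₀ Θ g gM g1 g2 g3 g4 g5
  have ht : Pl.Triv (β.comp α₀) O.1 := fun c => (ov _).1 (h₀ c)
  have rz := near rx ov ht w1 w2 ν
  set z := sh (fun s => β (x s)) ν Θ with ez
  obtain ⟨a1, a2⟩ := small rz (hR.2 0) hA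
  set c := -aeval z (G.E 0) / aeval z (pderiv μ (G.E 0)) with ec
  have hc : aeval z (G.E 0) + c * aeval z (pderiv μ (G.E 0)) = 0 := by
    rw [ec, div_mul_cancel₀ _ a1, add_neg_cancel]
  have hy' : G.GenC j (β.comp α₀) (sh z μ c) (β (T (.inl ()))) := by
    refine ⟨hy.gL, gM.of_fin (g1.fin fun e' => g4 ?_), ⟨?_, ?_⟩, top_unique fun m _ => ?_⟩
    · rw [e' g ((g5 g).2 dvd_rfl), Polynomial.coeff_zero, Pl.rd_zero]
    · exact G.Γ.nz_lift (R := .ofPl O.1) (x' := cw.map ht.hom R) (sh_rel rz μ (a2 c hc))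
        ((G.Γ.nz_map ht.hom.toRingHom).2 hR.1)
    · refine Fin.forall_fin_two.2 ⟨(lin G μ z c).trans hc, ?_⟩
      have := hF M' z c hc
      rw [ez, ← p3, (g5 h).2 g6] at this
      exact (mul_eq_zero.1 this.symm).resolve_left (pow_ne_zero _ a1)
    · set E := gen (β.comp α₀) (Sum.elim (sh z μ c) fun _ : Unit => β (T (.inl ())))
      have b0 : ∀ a, β (α₀ a) ∈ E := YP_gl (β.comp α₀) _
      have b1 : ∀ s, sh z μ c s ∈ E := fun s => YP_gr _ _ (Sum.inl s)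
      have b2 : β (T (.inl ())) ∈ E := YP_gr _ _ (Sum.inr ())
      have b3 : ∀ a, β a ∈ E := fun a => HN.YP_le (F := E.comap β) b0 (by
        rintro (_ | l)
        · exact b2
        · have := div_mem (sub_mem (b0 (R l)) (b1 l)) b2
          rw [sh_ne _ _ l.2.1, ez, sh_ne _ _ l.2.2, xl, map_add, map_mul, map_neg, neg_mul,
            ← sub_eq_add_neg, sub_sub_cancel, mul_div_cancel_left₀ _ ((map_ne_zero β).2 t0)] at this
          exact this) (top ▸ IntermediateField.mem_top)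
      have b4 : Θ ∈ E := by
        have := sub_mem (b1 ν) (b0 (R ν))
        rwa [sh_ne _ _ e.symm, ez, sh_self, xν, add_sub_cancel_left] at this
      have b5 : ∀ P : Polynomial M₀, P.eval₂ β.toRingHom Θ ∈ E := fun P => by
        rw [Polynomial.eval₂_eq_sum_range]
        exact sum_mem fun i _ => mul_mem (b3 _) (pow_mem b4 _)
      obtain ⟨P, Q, hQ, e'⟩ := g1 m
      exact eq_div_of_mul_eq hQ e' ▸ div_mem (b5 P) (b5 Q)
  obtain ⟨ρ, r1, r2, r3, r4⟩ := YA.uq hy' hy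
  have ev : ∀ f : Polynomial M₀, f.eval₂ (ρ.comp β).toRingHom (ρ Θ) = ρ (f.eval₂ β.toRingHom Θ) :=
    fun f => (Polynomial.hom_eval₂ f β.toRingHom ρ.toRingHom Θ).symm
  refine ⟨ρ.comp β, ρ Θ, ρ c, g, r1, r3, funext fun s => ?_, fun m => ?_, g2, g3, g4, fun f => ?_⟩
  · rw [← r2]
    simp only [sh, ez, map_add, map_mul, apply_ite ρ, map_one, map_zero, AlgHom.comp_apply]
  · obtain ⟨m, rfl⟩ := r4.2 m
    obtain ⟨P, Q, hQ, e'⟩ := g1 m
    exact ⟨P, Q, by rw [ev]; exact (map_ne_zero ρ).2 hQ, by rw [ev, ev, ← map_mul, e']⟩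
  · rw [ev, map_eq_zero, g5]

lemma tan {O : Pl M} (h : Pl.Triv α O) (hR : G.Cn L R) {w : Vr → M} {ρ : M} (h0 : ρ ≠ 0)
    (h1 : ρ ∈ O.O) (h2 : O.rd ρ = 0) (hw : ∀ s, w s ∈ O.O)
    (e : G.Cn M fun s => α (R s) + ρ * w s) (r : Fin 2) :
    ∑ s, h.hom (G.row L R r s) * O.rd (w s) = 0 :=
  HN.YP_tan h (hR.2 r) h0 h1 h2 hw (e.2 r)

lemma mnr_map (α : L →ₐ[K] M) (n : Fin 2 → Vr → L) :
    mnr (fun r s => α (n r s)) μ ν = α (mnr n μ ν) := by
  simp only [mnr, map_sub, map_mul]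

end YPa

open YPa in
theorem YP_thm {K : Type} [Field K] [FA1 K] [FA2 K] [X0 K] [YA K] [XH K] : YP K where
  pt {G j L M α y t} hy R hR v hv := by
    obtain ⟨μ, ν, hA, hm⟩ : ∃ μ ν, G.row L R 0 μ ≠ 0 ∧ mnr (G.row L R) μ ν ≠ 0 := by
      obtain ⟨μ, ν, h⟩ := X0.sm G L R hR
      by_cases e : G.row L R 0 μ = 0
      · refine ⟨ν, μ, fun e' => h ?_, fun e' => h ?_⟩
        · rw [mnr, e, e', zero_mul, zero_mul, sub_self]
        · unfold mnr at e' ⊢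
          linear_combination -e'
      · exact ⟨μ, ν, e, h⟩
    have e : μ ≠ ν := fun e => hm (e ▸ sub_self _)
    obtain ⟨M₀, α₀, T, hT⟩ : ∃ (M₀ : Fld K) (α₀ : L →ₐ[K] M₀)
        (T : Unit ⊕ {l : Vr // l ≠ μ ∧ l ≠ ν} → M₀), Free j α₀ T := ⟨_, _, _, FA1.fr_free _ hy.gL⟩
    have cT : j + Nat.card (Unit ⊕ {l : Vr // l ≠ μ ∧ l ≠ ν}) = j + 6 + 1 := by
      rw [card e, add_assoc]
    have t0 : T (.inl ()) ≠ 0 := map_zero α₀ ▸ (FA1.trans hT (.inl ())).ne 0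
    obtain ⟨O₀, h₀, z1, z2, z3, z4, z5⟩ := FA2.zero hT cT (.inl ())
    obtain ⟨x, xμ, xν, xl⟩ : ∃ x : Vr → M₀, x μ = α₀ (R μ) ∧ x ν = α₀ (R ν) ∧
        ∀ l : {l : Vr // l ≠ μ ∧ l ≠ ν}, x l = α₀ (R l) + -T (.inl ()) * T (.inr l) :=
      ⟨fun s => α₀ (R s) + if h : s ≠ μ ∧ s ≠ ν then -T (.inl ()) * T (.inr ⟨s, h⟩) else 0,
        by simp, by simp, fun l => by simp only [dif_pos l.2]⟩
    have rx : ∀ s, (Rel.ofPl O₀.1).r (x s) (h₀.hom (R s)) := fun s => by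
      have r0 : (Rel.ofPl O₀.1).r (α₀ (R s)) (h₀.hom (R s)) := ⟨h₀ _, (h₀.hom_apply _).symm⟩
      by_cases h1 : s = μ
      · rwa [h1, xμ, ← h1]
      by_cases h2 : s = ν
      · rwa [h2, xν, ← h2]
      rw [xl ⟨s, h1, h2⟩]
      simpa using (Rel.ofPl O₀.1).add r0
        ((Rel.ofPl O₀.1).mul (Rel.neg ⟨z1 (.inl ()), z3⟩) ⟨z1 (.inr ⟨s, h1, h2⟩), rfl⟩)
    obtain ⟨β, Θ, c, g, rfl, rfl, ey, g1, g2, g3, g4, g5⟩ :=
      model hy hR hA hm hT.top (cT ▸ hT.gM) t0 rx xν xl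
    have t1 := (map_ne_zero β).2 t0
    set ρ := -β (T (.inl ())) with eρ
    have ρ0 : ρ ≠ 0 := neg_ne_zero.2 t1
    have hD : ∀ s, y s = β (α₀ (R s)) + ρ * v s := fun s => by
      rw [hv, Pi.smul_apply, Pi.sub_apply, smul_eq_mul, eρ, neg_mul, mul_inv_cancel_left₀ t1]
      exact (sub_sub_cancel _ _).symm.trans (sub_eq_add_neg _ _)
    have hU : ∀ l : {l : Vr // l ≠ μ ∧ l ≠ ν}, β (T (.inr l)) = v l := fun l => by
      have := hD l
      rw [ey, sh_ne _ _ l.2.1, sh_ne _ _ l.2.2, xl, map_add, map_mul, map_neg] at this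
      exact mul_left_cancel₀ ρ0 (add_left_cancel this)
    have hΘ : Θ = ρ * v ν := by
      have := hD ν
      rw [ey, sh_ne _ _ e.symm, sh_self, xν] at this
      exact add_left_cancel this
    have hc : c = ρ * v μ := by
      have := hD μ
      rw [ey, sh_self, sh_ne _ _ e, xμ] at this
      exact add_left_cancel this
    obtain ⟨O, ov, w1, w2, w3, w4, w5⟩ := XH.hen O₀ Θ g (cT ▸ hT.gM) g1 g2 g3 g4 g5
    have ht : Pl.Triv (β.comp α₀) O.1 := fun c => (ov _).1 (h₀ c)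
    have w6 := (small (near rx ov ht w1 w2 ν) (hR.2 0) hA).2 c
      ((lin G μ _ c).symm.trans (ey ▸ hy.mem.2 0))
    have hρ : ∀ O' : Pl M, β (T (.inl ())) ∈ O'.O → O'.rd (β (T (.inl ()))) = 0 →
        ρ ∈ O'.O ∧ O'.rd ρ = 0 := fun O' a b => by
      rw [eρ, O'.rd_neg a, b, neg_zero]
      exact ⟨neg_mem a, rfl⟩
    have hH := hy.mem
    rw [funext hD] at hH
    obtain ⟨d1, d2⟩ := hρ O.1 ((ov _).1 (z1 (.inl ())))
      ((ov.resHom_rd _).symm.trans (by rw [z3, map_zero]))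
    have d3 : ∀ s, s ≠ μ → s ≠ ν → v s ∈ O.1.O := fun s h1 h2 =>
      (hU ⟨s, h1, h2⟩).subst (motive := (· ∈ O.1.O)) ((ov _).1 (z1 (.inr ⟨s, h1, h2⟩)))
    have d5 : IntV O.1 v := by
      by_contra n
      obtain ⟨k, e0, h2⟩ := exists_scale O.1 (x := v) fun h => n (h ▸ fun _ => zero_mem _)
      have h3 : v k ∉ O.1.O := fun h => n fun s => by simpa [e0] using mul_mem h (h2 s)
      have e1 : (v k)⁻¹ ∈ O.1.O := (O.1.O.mem_or_inv_mem _).resolve_left h3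
      have e2 : O.1.rd (v k)⁻¹ = 0 :=
        by_contra fun e' => h3 (inv_inv (v k) ▸ ((O.1.rd_ne_zero_iff e1).1 e').2)
      have h4 : (Rel.ofPl O.1).r (ρ * v k) 0 := by
        by_cases h1 : k = μ
        · rwa [h1, ← hc]
        by_cases h2 : k = ν
        · rw [h2, ← hΘ]
          exact ⟨w1, w2⟩
        exact absurd (d3 k h1 h2) h3
      have := cramer ((mnr_map ht.hom _).trans_ne ((map_ne_zero _).2 hm))
        (tan ht hR (mul_ne_zero ρ0 e0) h4.1 h4.2 h2 (by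
          simp only [Pi.smul_apply, smul_eq_mul, mul_assoc, mul_inv_cancel_left₀ e0]
          exact hH))
        (· = 0) rfl (fun a b h h' => by rw [h, h', add_zero]) (fun _ _ a h => by rw [h, mul_zero])
        (fun a h => by rw [h, neg_zero]) (fun a h => by rw [h, zero_div]) (fun s h1 h2 => by
          rw [Pi.smul_apply, smul_eq_mul, O.1.rd_mul e1 (d3 s h1 h2), e2, zero_mul]) k
      simp [e0] at this
    refine ⟨O, ht, (w3 _).trans z2, d5, top_unique fun z _ => ?_, fun r => ?_,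
      fun O' h' hO hne h1 h2 hv' => ?_⟩
    · obtain ⟨z, rfl⟩ := w4 z
      refine HN.YP_le (F := (gen ht.hom (rdV O.1 v)).comap ov.resHom) (fun c => ?_) ?_
        (z4.top ▸ IntermediateField.mem_top)
      · show ov.resHom (h₀.hom c) ∈ gen ht.hom (rdV O.1 v)
        rw [h₀.hom_apply, ov.resHom_rd]
        exact (ht.hom_apply c).subst (motive := (· ∈ gen ht.hom (rdV O.1 v))) (YP_gl _ _ c)
      · rintro ⟨_ | l, ha⟩
        · exact absurd rfl ha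
        · show ov.resHom (O₀.1.rd (T (.inr l))) ∈ gen ht.hom (rdV O.1 v)
          rw [ov.resHom_rd, hU]
          exact YP_gr _ _ l.1
    · exact (Finset.sum_congr rfl fun s _ => congrArg (· * _) (aeval_mapV ht.hom R _)).trans
        (tan ht hR ρ0 d1 d2 d5 hH r)
    · obtain ⟨q1, q2⟩ := hρ O' h1 h2
      have ov' := Pl.over_comap β O'
      set O₁ := Pl.comap β O'
      have h3 : O₁.rd (T (.inl ())) = 0 :=
        (map_eq_zero ov'.resHom).1 ((ov'.resHom_rd _).trans h2)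
      have h4 : O₁.O ≠ ⊤ := fun e => (O₁.rd_ne_zero_iff (x := T (.inl ())) h1).2
        ⟨t0, e ▸ ValuationSubring.mem_top _⟩ h3
      let F := gen (Pl.over_comap α₀ O₁).resHom fun a => O₁.rd (T a)
      let κ : O₁.res.sub F →ₐ[K] O'.res := ov'.resHom.comp F.val
      have k1 : ∀ c, h'.hom c ∈ κ.fieldRange := fun c =>
        ⟨⟨_, YP_gl _ _ ((Pl.comap α₀ O₁).rd c)⟩,
          (congrArg ov'.resHom ((Pl.over_comap α₀ O₁).resHom_rd c)).trans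
            ((ov'.resHom_rd _).trans (h'.hom_apply c).symm)⟩
      refine (HN.YP_tr (α := κ) (HN.YP_le k1 (cramer
        ((mnr_map h'.hom _).trans_ne ((map_ne_zero _).2 hm)) (tan h' hR ρ0 q1 q2 hv' hH)
        (· ∈ κ.fieldRange) (zero_mem _) (fun _ _ => add_mem) (fun _ _ _ => mul_mem (k1 _))
        (fun _ => neg_mem) (fun _ h => div_mem h (mnr_map h'.hom _ ▸ k1 _)) fun s s1 s2 =>
          ⟨⟨_, YP_gr _ _ (Sum.inr (⟨s, s1, s2⟩ : {l : Vr // l ≠ μ ∧ l ≠ ν}))⟩,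
            (ov'.resHom_rd (T (.inr ⟨s, s1, s2⟩))).trans
              (congrArg O'.rd (hU ⟨s, s1, s2⟩))⟩))).trans ?_
      by_cases e' : O₁.res.tr = (j + 6 : ℕ)
      · obtain ⟨m, h5, h6⟩ := z5 ⟨O₁, ov'.isDVR hO h4, e'⟩ (fun e'' => hne (w5 O' (e'' ▸ ov')
          (hΘ ▸ mul_mem q1 (hv' ν)) (by rw [hΘ, O'.rd_mul q1 (hv' ν), q2, zero_mul]))) (by
            rintro (_ | l)
            exacts [h1, (ov' _).2 ((hU l).symm.subst (motive := (· ∈ O'.O)) (hv' l))]) h3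
        exact h6.trans (Nat.cast_le.2 (by omega))
      · have h5 := Pl.tr_res_lt O₁ h4 (cT ▸ hT.gM.2).le
        rw [Nat.cast_add_one, Cardinal.lt_natCast_add_one_iff] at h5
        have h6 := h5.lt_of_ne e'
        rw [show j + 6 = j + 5 + 1 from rfl, Nat.cast_add_one,
          Cardinal.lt_natCast_add_one_iff] at h6
        exact (tr_le (L := O₁.res.sub F) F.val).trans h6

end Pool.Agent.Lib.MP_557161_ag.HG.TW.P2
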