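import Pool.Agent.Lib.MP_557161_ag.TW.All2
import Pool.Agent.Lib.MP_557161_ag.TW.YP
import Pool.Agent.Lib.MP_557161_ag.HG.XH

/-!
The place of the blow-up, without assumptions.
-/

namespace Pool.Agent.Lib.MP_557161_ag.HG.TW.P2

open Pool.Agent.Lib.MP_557161_ag.DL

instance yp {k : Type} [Field k] [Finite k] : YP (AlgebraicClosure k) := by
  have hb := T0.fbar k
  have : FW0 (AlgebraicClosure k) := FW0_thm
  have : WA (AlgebraicClosure k) := WA_thm
  have : WB (AlgebraicClosure k) := WB_thm
  have : XH (AlgebraicClosure k) := XH_thm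
  have : X0 (AlgebraicClosure k) := X0_thm
  have : X1 (AlgebraicClosure k) := X1_thm
  have : BD (AlgebraicClosure k) := BD_thm
  have : XA (AlgebraicClosure k) := XA_thm
  have : XG (AlgebraicClosure k) := XG_thm
  have : YA (AlgebraicClosure k) := YA_thm
  exact YP_thm

end Pool.Agent.Lib.MP_557161_ag.HG.TW.P2
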