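import Pool.Agent.Lib.MP_557161_ag.TW.All3
import Pool.Agent.Lib.MP_557161_ag.MC.ZAy
import Pool.Agent.Lib.MP_557161_ag.MC.GP
import Pool.Agent.Lib.MP_557161_ag.TU.Pts

/-!
The conjecture of Tate for the twisted surfaces in all degrees.
-/

namespace Pool.Agent.Lib.MP_557161_ag.HG.TW.P2

open Pool.Agent.Lib.MP_557161_ag.DL MvPolynomial
open XRa (inv_not inv_tp)
open MC (dsy ZAy GP)

namespace AllN

section Rel

variable {K : Type} [Field K] {p : ℕ} {G : GD K} {q : ℕ} {c₀ : ℂ} {AC : CRel G}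

open ZRt in
/-- The relation at an arbitrary eigenvalue, up to a power of the variable. -/
lemma rely [TW.ALT K] [XC] [XF K p] [XV K p] [XW K p] [ZS K p] (hC : ConL G p c₀ AC) (hq : 1 < q)
    (hF : G.Fr p q) {r : ℕ}
    (sd : ℕ → Bool) (E : Fin G.n ⊕ Fin G.n ≃ Tw r) (s1 : ∀ i, side sd r (E (Sum.inl i)) = true)
    (s2 : ∀ i, side sd r (E (Sum.inr i)) = false) (e : Tw r → ℕ) {β : ℂ} (hβ : β ≠ 0)
    (hne : dsy E (lamP (q : ℂ) (G.PP c₀ q)) (q : ℂ) β e ≠ 0) :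
    ∃ f : Polynomial ℂ, f.eval β ≠ 0 ∧
      ∀ φ : AF (Nat.card Bool) (G.UU.pi Bool), AntiP φ.a → KlS id φ.a → ∀ v : ℕ → ℂ,
      (∀ j, DV G q φ.a not (fun b => bif b then j else 0) (v j)) →
      ∀ t, (f.sum fun j a => a * v (j + t)) = 0 := by
  set lam := lamP (q : ℂ) (G.PP c₀ q) with hlam
  let c : Equiv.Perm (Fin G.n) → ℂ := fun π => (ev lam r (tp E π) e).1
  let x : Equiv.Perm (Fin G.n) → ℕ := fun π => (ev lam r (tp E π) e).2.1
  let y : Equiv.Perm (Fin G.n) → ℕ := fun π => (ev lam r (tp E π) e).2.2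
  let Y := ∑ π, y π
  have hY : ∀ π, y π ≤ Y := fun π =>
    Finset.single_le_sum (fun _ _ => Nat.zero_le _) (Finset.mem_univ π)
  refine ⟨∑ π, Polynomial.monomial (x π + (Y - y π))
    (((Equiv.Perm.sign π : ℤ) : ℂ) * (c π * (q : ℂ) ^ (2 * y π))), ?_, ?_⟩
  · refine fun h => mul_ne_zero (pow_ne_zero Y hβ) hne ?_
    rw [← h, Polynomial.eval_finsetSum, dsy, Finset.mul_sum]
    refine Finset.sum_congr rfl fun π _ => ?_
    have e1 : β ^ Y = β ^ (Y - y π) * β ^ y π := by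
      rw [← pow_add, Nat.sub_add_cancel (hY π)]
    have e2 : (q : ℂ) ^ (2 * y π) = β ^ y π * ((q : ℂ) ^ 2 / β) ^ y π := by
      rw [← mul_pow, mul_div_cancel₀ _ hβ, pow_mul]
    rw [Polynomial.eval_monomial, e1, e2]
    ring
  intro φ a1 a2 v hv t
  obtain ⟨φ', b0, b1, b2⟩ := XV.pull hF φ fun b => bif b then t + Y else 0
  obtain ⟨Φ, c1, c2, c3⟩ := iter hC hq hF φ' (b1 a1) (b2 _ a2) sd r
  obtain ⟨ψ, d0, d1, d2⟩ := XV.pull hF Φ e
  obtain ⟨L, P, hL, hP, hd⟩ := XW.gen (p := p) G (Fin G.n)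
  have h := alt E _ s1 s2 ψ (d1 c1) (d2 _ c2) L P P
  have hcard : Nat.card (Tw r) = 2 * Nat.card (Fin G.n) := by
    rw [← Nat.card_congr E, Nat.card_sum, two_mul]
  have key : ∀ π : Equiv.Perm (Fin G.n),
      ψ.a L (fun t => Sum.elim (fun i => P (π i)) P (E.symm t)) = Bridge.dg (xf L P) *
        (c π * ((q : ℂ) ^ (2 * y π) * v (x π + (Y - y π) + t)) / 2 ^ r) := fun π => by
    have e1 : DV G q φ'.a not (fun b => bif b then x π else y π)
        ((q : ℂ) ^ (2 * y π) * v (x π + (Y - y π) + t)) := fun L P g1 g2 g3 => by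
      rw [b0, cfg_cfg hF]
      refine (XW.shift hF φ inv_not _ _ true (y π) _ ?_ ?_ ?_).2 (hv _) L P g1 g2 g3
      · have := hY π
        show x π + (t + Y) = x π + (Y - y π) + t + y π
        omega
      · show y π + 0 = 0 + y π
        omega
      · rintro (_ | _) h h'
        exacts [absurd rfl h', absurd rfl h]
    have e2 : xf L (fun t => Sum.elim (fun i => P (π i)) P (E.symm t)) = xf L P := by
      refine congrArg (IntermediateField.adjoin K) (Set.Subset.antisymm ?_ ?_)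
      · rintro _ ⟨⟨t, k⟩, rfl⟩
        obtain ⟨i | i, rfl⟩ := E.surjective t
        · exact ⟨(π i, k), by simp⟩
        · exact ⟨(i, k), by simp⟩
      · rintro _ ⟨⟨i, k⟩, rfl⟩
        exact ⟨(E (Sum.inr i), k), by simp⟩
    rw [d0, ← e2]
    refine c3 _ e _ (inv_tp E π) e1 L _ (hcard ▸ hL) (fun t => ?_) fun t => ?_
    · obtain ⟨i | i, rfl⟩ := E.surjective t <;> simpa using hP _
    · obtain ⟨i | i, rfl⟩ := E.surjective t <;> simp [tp]
  have h0 : (Bridge.dg (xf L P) : ℂ) / 2 ^ r ≠ 0 :=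
    div_ne_zero (Nat.cast_ne_zero.2 hd) (pow_ne_zero _ two_ne_zero)
  refine (mul_eq_zero.1 ?_).resolve_left h0
  have e3 := map_sum (Polynomial.lsum (R := ℂ) fun j => LinearMap.mulRight ℂ (v (j + t)))
    (fun π => Polynomial.monomial (x π + (Y - y π))
      (((Equiv.Perm.sign π : ℤ) : ℂ) * (c π * (q : ℂ) ^ (2 * y π)))) Finset.univ
  simp only [Polynomial.lsum_apply, LinearMap.mulRight_apply] at e3
  rw [e3, ← h, Finset.mul_sum]
  refine Finset.sum_congr rfl fun π _ => ?_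
  rw [key, Polynomial.sum_monomial_index _ (fun j a => a * v (j + t)) (zero_mul _)]
  ring

lemma reln [TW.ALT K] [XC] [XF K p] [XV K p] [XW K p] [ZS K p] (hC : ConL G p c₀ AC) (hq : 1 < q)
    (hF : G.Fr p q) {n r : ℕ} (hn : n = G.n)
    (sd : ℕ → Bool) (E : Fin n ⊕ Fin n ≃ Tw r) (s1 : ∀ i, side sd r (E (Sum.inl i)) = true)
    (s2 : ∀ i, side sd r (E (Sum.inr i)) = false) (e : Tw r → ℕ) {β : ℂ} (hβ : β ≠ 0)
    (hne : dsy E (lamP (q : ℂ) (G.PP c₀ q)) (q : ℂ) β e ≠ 0) :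
    ∃ f : Polynomial ℂ, f.eval β ≠ 0 ∧
      ∀ φ : AF (Nat.card Bool) (G.UU.pi Bool), AntiP φ.a → KlS id φ.a → ∀ v : ℕ → ℂ,
      (∀ j, DV G q φ.a not (fun b => bif b then j else 0) (v j)) →
      ∀ t, (f.sum fun j a => a * v (j + t)) = 0 := by
  subst hn
  exact rely hC hq hF sd E s1 s2 e hβ hne

end Rel

lemma two_pow_dvd {q : ℕ} (oq : Odd q) (v : ℕ) : (2 : ℤ) ^ (v + 1) ∣ (q : ℤ) ^ 2 ^ v - 1 := by
  have o : Odd (q : ℤ) := (Int.odd_coe_nat q).2 oq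
  induction v with
  | zero => simpa using (o.sub_odd odd_one).two_dvd
  | succ v ih =>
    have e : (q : ℤ) ^ 2 ^ (v + 1) - 1 = ((q : ℤ) ^ 2 ^ v - 1) * ((q : ℤ) ^ 2 ^ v + 1) := by
      rw [pow_succ 2 v, pow_mul]; ring
    rw [e, pow_succ 2 (v + 1)]
    exact mul_dvd_mul ih (o.pow.add_one).two_dvd

/-- The values `q` and `q⁻¹` are not eigenvalues. -/
theorem no_root [ZB2] [ZM] {ι : Type} [Fintype ι] {dg : ι → ℕ} {q : ℕ} (hq : 1 < q) (oq : Odd q)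
    (h : ∀ i, 0 < dg i) {g h₀ : ℕ} (hg : ∑ i, dg i = 2 * g + 1)
    (co : ∀ i, Nat.Coprime (dg i) (2 * h₀ + 1)) {c : ℕ → ℤ}
    (hc : ∀ m v : ℕ, 0 < m → 2 ^ v ∣ m → (2 : ℤ) ^ (v + 1) ∣ c m) {PP : ℕ → ℂ}
    (hP : ∀ m, 0 < m → PP m = ((q : ℂ) ^ m) ^ 2 + (q : ℂ) ^ m + sN dg m * rN (2 * h₀ + 1) m -
      (sN dg m + rN (2 * h₀ + 1) m) * (q : ℂ) ^ m - c m) {σ : Polynomial ℂ →ₗ[ℂ] ℂ}
    (hσ : ∀ m : ℕ, σ (chC m) = PP m / (q : ℂ) ^ m - (q : ℂ) ^ m - (q : ℂ)⁻¹ ^ m)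
    (h4 : ∀ a, phi σ (2 * g * h₀) (chD a) = 0) {ν : ℂ →₀ ℤ} (ν0 : ν 0 = 0)
    (hν : ∀ m, 0 < m → PP m / (q : ℂ) ^ m = ν.sum fun z c => c * z ^ m) : False := by
  classical
  have q0 : (q : ℂ) ≠ 0 := Nat.cast_ne_zero.2 (by omega)
  obtain ⟨μ, hμ⟩ : ∃ μ : ℂ →₀ ℤ, μ = ν - .single q 1 - .single (q : ℂ)⁻¹ 1 := ⟨_, rfl⟩
  have μ0 : μ 0 = 0 := by simp [hμ, ν0, q0]
  have m1 : ∀ m : ℕ, 0 < m → σ (chC m) = μ.sum fun z c => c * z ^ m := fun m hm => by
    rw [hσ, hν m hm, hμ, Finsupp.sum_sub_index (by intros; push_cast; ring),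
      Finsupp.sum_sub_index (by intros; push_cast; ring), Finsupp.sum_single_index (by simp),
      Finsupp.sum_single_index (by simp), Int.cast_one, one_mul, one_mul]
  obtain ⟨k1, k2⟩ := ZB2.cnt σ _ h4 μ μ0 m1
  have e5 : ¬ (1 : ℂ) = -1 := by norm_num
  have k4 := ZM.mod2 q _ oq ⟨h₀, rfl⟩ dg h co (fun m => c m + ((q : ℤ) ^ m - 1) ^ 2)
    (fun m v hm hv => (hc m v hm hv).add (by
      obtain ⟨t, rfl⟩ := hv
      rw [pow_mul]
      exact Dvd.dvd.pow ((two_pow_dvd oq v).trans (sub_one_dvd_pow_sub_one _ _)) two_ne_zero))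
    (μ + .single 1 2) (by simp [μ0])
    (fun z z1 z2 => by simpa [Finsupp.single_apply, z1.symm] using k1 z z1 z2) fun m hm => by
      rw [Finsupp.sum_add_index' (by simp) (by intros; push_cast; ring),
        Finsupp.sum_single_index (by simp), ← m1 m hm, hσ, hP m hm, inv_pow]
      have := pow_ne_zero m q0
      push_cast
      field_simp
      ring
  rw [hg, Finsupp.sum_add_index' (by simp) (by simp), Finsupp.sum_single_index rfl] at k4
  simp only [Finsupp.add_apply, Finsupp.single_apply, if_true, e5, if_false] at k4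
  push_cast at k2 k4
  linarith

end AllN

section Fin

variable {k : Type} [Field k] [Finite k] {p : ℕ} [CharP k p] [XT] [XZ] [XJ] [XM] [XK k] [ZA] [ZB]
  [ZD] [ZT] [ZES] [ZB2] [ZM] [ZM2] [ZO3] [ZN] [ZAy] [GP] [XC] [XI (AlgebraicClosure k) p]
  [XF (AlgebraicClosure k) p] [XB1 (AlgebraicClosure k) p] [XB2 (AlgebraicClosure k) p]
  [XB3 (AlgebraicClosure k) p] [ZO (AlgebraicClosure k) p] [ZR (AlgebraicClosure k) p]
  [XQ (AlgebraicClosure k) p] [TW.ALT (AlgebraicClosure k)] [XV (AlgebraicClosure k) p]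
  [XW (AlgebraicClosure k) p] [ZS (AlgebraicClosure k) p]
  {G : GD (AlgebraicClosure k)} {f D : Polynomial k}

include p in
theorem decompN (H : Up G f D) (hA : Ar G.h f D) (L : ℕ → Type) [∀ m, Field (L m)]
    [∀ m, Algebra k (L m)] (hL : ∀ m, Module.finrank k (L m) = m + 1) (i : ℕ)
    (hi : i = 0 ∨ i = 2) : ∃ u : Polynomial ℚ, u.eval ((Nat.card k : ℚ) ^ i) ≠ 0 ∧
      ∀ t, (u.sum fun j a => a • (T0.sm (AlgebraicClosure k) (Up.hI _ _ f D) H.hs H.hd).grC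
        (Nat.card k ^ (j + t))) ∈
        RatB (upI (kI G.g G.h f D)) ⊔ ⨆ δ, ProdB (upI (kI G.g G.h f D)) δ := by
  have hq : 1 < Nat.card k := Finite.one_lt_card
  have q0 : (Nat.card k : ℂ) ≠ 0 := Nat.cast_ne_zero.2 (by omega)
  have hF := H.fr p
  have hI := Up.hI G.g G.h f D
  have hY : (T0.sm (AlgebraicClosure k) hI H.hs H.hd).I = G.I := H.upI_eq
  obtain ⟨c₀, AC, hC⟩ := ZO.ex (p := p) G
  obtain ⟨r, sd, E, h1, h2, h3⟩ := ZAy.frob (2 * G.g * G.h)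
  have key : ∃ e, dsy E (lamP (Nat.card k : ℂ) (G.PP c₀ (Nat.card k))) (Nat.card k : ℂ)
      ((Nat.card k : ℂ) ^ i) e ≠ 0 := by
    by_contra hB
    obtain ⟨σ, hσ⟩ := ZB.ex fun m => G.PP c₀ (Nat.card k) m / (Nat.card k : ℂ) ^ m
    obtain ⟨y, y0, y1, y2⟩ : ∃ y : ℂ, y ≠ 0 ∧ (Nat.card k : ℂ) * y = (Nat.card k : ℂ) ^ i ∧
        y + y⁻¹ = (Nat.card k : ℂ) + (Nat.card k : ℂ)⁻¹ := by
      rcases hi with rfl | rfl
      · exact ⟨(Nat.card k : ℂ)⁻¹, inv_ne_zero q0, by rw [mul_inv_cancel₀ q0, pow_zero],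
          by rw [inv_inv, add_comm]⟩
      · exact ⟨Nat.card k, q0, (pow_two _).symm, rfl⟩
    have h4 : ∀ a, phi (σ - Polynomial.leval ((Nat.card k : ℂ) + (Nat.card k : ℂ)⁻¹) :
        Polynomial ℂ →ₗ[ℂ] ℂ) (2 * G.g * G.h) (chD a) = 0 := fun a => by
      obtain ⟨e, he⟩ := h3 a
      have h5 := he _ _ _ σ q0 y0 hσ
      rw [y1, y2, by_contra fun h => hB ⟨e, h⟩] at h5
      exact (mul_eq_zero.1 h5.symm).resolve_left (mul_ne_zero (mul_ne_zero (by simp)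
        (Nat.cast_ne_zero.2 (Nat.factorial_ne_zero _))) (pow_ne_zero _ q0))
    have hσ' : ∀ m : ℕ, (σ - Polynomial.leval ((Nat.card k : ℂ) + (Nat.card k : ℂ)⁻¹) :
        Polynomial ℂ →ₗ[ℂ] ℂ) (chC m) = G.PP c₀ (Nat.card k) m / (Nat.card k : ℂ) ^ m -
          (Nat.card k : ℂ) ^ m - (Nat.card k : ℂ)⁻¹ ^ m := fun m => by
      rw [LinearMap.sub_apply, hσ, Polynomial.leval_apply, ZA_C q0, sub_sub]
    obtain ⟨ι, _, dg, a1, a2, a3, a4⟩ := ZN.sqf f _ H.kd.sf H.kd.f2 (Nat.succ_le_succ H.kd.f1)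
    obtain ⟨κ, _, eg, b1, b2, -, b4⟩ := ZN.sqf D _ H.kd.sD H.kd.D2 (Nat.succ_le_succ H.kd.D1)
    have hP : ∀ m, 0 < m → (G.fx (Nat.card k ^ m) false : ℂ) =
        FN0.AA (Nat.card k) (sN dg) (sN eg) m + G.PP c₀ (Nat.card k) m ∧
        G.PP c₀ (Nat.card k) m = ((Nat.card k : ℂ) ^ m) ^ 2 + (Nat.card k : ℂ) ^ m +
          sN dg m * sN eg m - (sN dg m + sN eg m) * (Nat.card k : ℂ) ^ m -
          ((G.fu (Nat.card k ^ m) true : ℤ) : ℂ) := fun m hm => by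
      have l := Nat.one_lt_pow hm.ne' hq
      have c1 := congrArg (Nat.cast : ℕ → ℂ) (XB1.cnt (p := p) l (XF.pow hF m) false)
      have c2 := congrArg (Nat.cast : ℕ → ℂ) (XB1.cnt (p := p) l (XF.pow hF m) true)
      have c3 := congrArg (Nat.cast : ℕ → ℂ) (XB2.cnt (p := p) l (XF.pow hF m))
      rw [← H.hP, ← H.hQ, a4 m hm, b4 m hm] at c1 c2 c3
      rw [GD.PP, if_neg hm.ne', FN0.AA]
      push_cast at c1 c2 c3 ⊢
      exact ⟨by linear_combination c1 / 2 + c2 / 2 + c3 / 2,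
        by linear_combination c1 / 2 - c2 / 2 + c3 / 2⟩
    have hN : ∀ m, (points (kI G.g G.h f D) (L m) : ℂ) =
        FN0.AA (Nat.card k) (sN dg) (sN eg) (m + 1) + G.PP c₀ (Nat.card k) (m + 1) := fun m => by
      rw [(XT.fixed hI H.hs H.hd (L m) m (hL m)).trans (XI.fix (p := p) G _ hY _ (XF.pow hF _))]
      exact (hP _ m.succ_pos).1
    obtain ⟨g, g0, hg⟩ := ZB.rc _ _ h4
    have h5 : Fn2.Rc fun m => G.PP c₀ (Nat.card k) (m + 1) / (Nat.card k : ℂ) ^ (m + 1) -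
        (Nat.card k : ℂ) ^ (m + 1) - (Nat.card k : ℂ)⁻¹ ^ (m + 1) :=
      ⟨g, g0, funext fun t => by
        rw [Fn2.aeval_sh, Pi.zero_apply, ← hg (t + 1 : ℕ)]
        exact Finset.sum_congr rfl fun j _ => by
          simp only [← Nat.cast_add, hσ', add_assoc]⟩
    have h6 := (h5.add (.geo q0)).add (.geo (inv_ne_zero q0))
    rw [show ((fun m => G.PP c₀ (Nat.card k) (m + 1) / (Nat.card k : ℂ) ^ (m + 1) -
        (Nat.card k : ℂ) ^ (m + 1) - (Nat.card k : ℂ)⁻¹ ^ (m + 1)) +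
        (fun m => (Nat.card k : ℂ) ^ (m + 1)) + fun m => (Nat.card k : ℂ)⁻¹ ^ (m + 1)) =
        fun m => G.PP c₀ (Nat.card k) (m + 1) / (Nat.card k : ℂ) ^ (m + 1) from
      funext fun m => by simp only [Pi.add_apply]; ring] at h6
    have h7 : Fn2.Rc fun m => G.PP c₀ (Nat.card k) (m + 1) := Fn2.Rc.scale q0 h6
    obtain ⟨g', g1, hg'⟩ := Fn2.Rc.rat (a := fun m => (points (kI G.g G.h f D) (L m) : ℚ)) (by
      simp only [Rat.cast_natCast, hN]
      exact (ZES.rc (FN0.es_AA hq a2 b2)).add h7)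
    obtain ⟨μ, μ0, hμ⟩ := ZD.rat hI L hL g' g1 hg'
    obtain ⟨ν, ν0, hν⟩ := FN0.ex hq a2 b2 μ0 fun m => (hN m).symm.trans (hμ m)
    obtain ⟨i1, i2, i3⟩ := hA
    refine AllN.no_root hq H.odd a2 a1 (h₀ := G.h) (fun i => ?_)
      (c := fun m => G.fu (Nat.card k ^ m) true)
      (fun m v hm hv => by exact_mod_cast XB3.dvd hF m v hm hv) (fun m hm => ?_) hσ' h4 ν0 hν
    · rcases a3 i with e | ⟨u, u1, u2, e⟩ <;> rw [e]
      exacts [Nat.coprime_one_left _, i3 u u1 u2]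
    · have e := ZN.irr D i1 m hm
      rw [i2, b4 m hm] at e
      rw [← e]
      exact (hP m hm).2
  obtain ⟨e, he⟩ := key
  obtain ⟨u, k1, k3⟩ := AllN.reln hC hq hF (by rw [TD.n]; ring) sd E h1 h2 e (pow_ne_zero _ q0) he
  obtain ⟨u, h4, h5⟩ := XZ.one (RatB (upI (kI G.g G.h f D)) ⊔ ⨆ δ, ProdB (upI (kI G.g G.h f D)) δ)
    (fun j => (T0.sm (AlgebraicClosure k) hI H.hs H.hd).grC (Nat.card k ^ j))
    {(Nat.card k : ℂ) ^ i} fun β hβ => by
      refine ⟨u, hβ ▸ k1, fun b hb t => ?_⟩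
      obtain ⟨φ, l1, l2, l3⟩ := XQ.brg (p := p) G _ hY _ hF b hb
      have h4 := k3 φ l1 l2 _ l3 t
      rw [Polynomial.sum_def] at h4 ⊢
      simp only [← mul_div_assoc, ← Finset.sum_div] at h4
      exact (div_eq_zero_iff.1 h4).resolve_right two_ne_zero
  have h6 : ∀ x : ℚ, u.eval x = 0 → Polynomial.aeval (x : ℂ) u = 0 := fun x h => by
    have h7 := Polynomial.aeval_algebraMap_apply ℂ x u
    rwa [Polynomial.coe_aeval_eq_eval, h, map_zero] at h7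
  exact ⟨u, fun h => h4 _ rfl (by simpa using h6 _ h), h5⟩

include p in
theorem zetaN (H : Up G f D) (hA : Ar G.h f D) (L : ℕ → Type) [∀ m, Field (L m)]
    [∀ m, Algebra k (L m)] (hL : ∀ m, Module.finrank k (L m) = m + 1) :
    ∃ ζ : ℂ → ℂ, IsZeta (kI G.g G.h f D) 2 L ζ ∧ TateOrd (kI G.g G.h f D) 2 ζ := by
  have hI := Up.hI G.g G.h f D
  obtain ⟨ν, h1, h2⟩ := decomp (p := p) H L hL
  obtain ⟨ζ, h3, h4⟩ := ZT.zeta hI H.hd L hL ν h1
  refine ⟨ζ, h3, fun i n h F => ?_, fun n hn => ?_⟩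
  · obtain ⟨u, h5, h6⟩ : ∃ u : Polynomial ℚ, u.eval ((Nat.card k : ℚ) ^ n) ≠ 0 ∧
        ∀ t, (u.sum fun j a => a • (T0.sm (AlgebraicClosure k) (Up.hI _ _ f D) H.hs H.hd).grC
          (Nat.card k ^ (j + t))) ∈
          RatB (upI (kI G.g G.h f D)) ⊔ ⨆ δ, ProdB (upI (kI G.g G.h f D)) δ := by
      by_cases e : n = 1
      · subst e
        exact h2 (.inl hA)
      · exact decompN (p := p) H hA L hL n (by omega)
    obtain ⟨ρ, h7, h8⟩ := ZT.tate hI H.hs H.hd u i n h h5 h6 L hL ν h1 F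
    exact ⟨ρ, h7, by rw [h4, Complex.cpow_natCast, ← h8]⟩
  · obtain ⟨C, hC⟩ := points_le hI H.hd
    rw [h4, Complex.cpow_natCast, GP.van ν C ((Nat.card k : ℝ) ^ 2) (by positivity)
      (fun m hm => ?_) _ ?_]
    · rfl
    · rw [norm_pow, Complex.norm_natCast]
      exact pow_lt_pow_right₀ (by exact_mod_cast (Finite.one_lt_card : 1 < Nat.card k)) hn
    · obtain ⟨m, rfl⟩ := Nat.exists_eq_succ_of_ne_zero hm.ne'
      have : Module.Finite k (L m) := Module.finite_of_finrank_eq_succ (hL m)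
      have : Finite (L m) := Module.finite_of_finite k
      have h := hC (L m)
      rw [Module.natCard_eq_pow_finrank (K := k), hL, pow_right_comm] at h
      rw [← h1, Complex.norm_natCast]
      exact_mod_cast h

end Fin

theorem finalN {k : Type} [Field k] [Finite k] {g h : ℕ} {f D : Polynomial k} (H : KD g h f D)
    (hA : Ar h f D) (L : ℕ → Type) [∀ m, Field (L m)] [∀ m, Algebra k (L m)]
    (hL : ∀ m, Module.finrank k (L m) = m + 1) :
    SmProj (kI g h f D) 2 ∧ ∃ ζ : ℂ → ℂ, IsZeta (kI g h f D) 2 L ζ ∧ TateOrd (kI g h f D) 2 ζ := by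
  refine ⟨(final H L hL).1, ?_⟩
  have hb := T0.fbar k
  have : Fact (ringChar k).Prime := ⟨hb.prime⟩
  have := hb.char
  obtain ⟨_, _, _, _, _, _, _, _, _, _, _⟩ := geo (K := AlgebraicClosure k) (p := ringChar k)
  have : XU := XU_thm
  have : XJ := XJ_thm
  have : XM := XM_thm
  have : X0 (AlgebraicClosure k) := X0_thm
  have : XK k := XK_thm
  have : XT := XT_thm
  have : XZ := XZ_thm
  have : XC := XC_thm
  have : ZA1 := ZA1_thm
  have : ZA := ZA_thm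
  have : ZB := ZB_thm
  have : ZD := ZD_thm
  have : ZT := ZT_thm
  have : ZES := ZES_thm
  have : ZB2 := ZB2_thm
  have : ZM := ZM_thm
  have : ZM2 := ZM2_thm
  have : ZO3 := ZO3_thm
  have : ZN := ZN_thm
  have : ZAy := MC.ZAy_thm
  have : GP := MC.GP_thm
  have : FW0 (AlgebraicClosure k) := FW0_thm
  have : XV (AlgebraicClosure k) (ringChar k) := XV_thm
  have : XW (AlgebraicClosure k) (ringChar k) := XW_thm
  have : ZS (AlgebraicClosure k) (ringChar k) := ZS_thm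
  have : TW.ALT (AlgebraicClosure k) := TW.ALT_thm
  obtain ⟨G, rfl, rfl, U⟩ := H.up
  exact zetaN (p := ringChar k) U hA L hL

end Pool.Agent.Lib.MP_557161_ag.HG.TW.P2
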