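import Pool.Agent.Lib.MP_557161_ag.TW.AllN

/-!
Tate classes on the twisted surfaces in all degrees.
-/

namespace Pool.Agent.Lib.MP_557161_ag.HG.TW.P2

open Pool.Agent.Lib.MP_557161_ag.DL MvPolynomial
open MC (ZAy GP)

theorem finalT {k : Type} [Field k] [Finite k] [ZY] {g h : ℕ} {f D : Polynomial k}
    (H : KD g h f D) (hA : Ar h f D) (L : ℕ → Type) [∀ m, Field (L m)] [∀ m, Algebra k (L m)]
    (hL : ∀ m, Module.finrank k (L m) = m + 1) (i : ℕ) (hi : i ≤ 2) :
    TateAt (Nat.card k) i (upI (kI g h f D)) := by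
  by_cases e : i = 1
  · obtain ⟨-, ζ, -, h4⟩ := final H L hL
    exact e ▸ (h4 (.inl hA)).2
  have hb := T0.fbar k
  have : Fact (ringChar k).Prime := ⟨hb.prime⟩
  have := hb.char
  obtain ⟨_, _, _, _, _, _, _, _, _, _, _⟩ := geo (K := AlgebraicClosure k) (p := ringChar k)
  have : XU := XU_thm
  have : XJ := XJ_thm
  have : XM := XM_thm
  have : X0 (AlgebraicClosure k) := X0_thm
  have : XK k := XK_thm
  have : XT := XT_thm
  have : XZ := XZ_thm
  have : XC := XC_thm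
  have : ZA1 := ZA1_thm
  have : ZA := ZA_thm
  have : ZB := ZB_thm
  have : ZD := ZD_thm
  have : ZT := ZT_thm
  have : ZES := ZES_thm
  have : ZB2 := ZB2_thm
  have : ZM := ZM_thm
  have : ZM2 := ZM2_thm
  have : ZO3 := ZO3_thm
  have : ZN := ZN_thm
  have : ZAy := MC.ZAy_thm
  have : GP := MC.GP_thm
  have : FW0 (AlgebraicClosure k) := FW0_thm
  have : XV (AlgebraicClosure k) (ringChar k) := XV_thm
  have : XW (AlgebraicClosure k) (ringChar k) := XW_thm
  have : ZS (AlgebraicClosure k) (ringChar k) := ZS_thm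
  have : TW.ALT (AlgebraicClosure k) := TW.ALT_thm
  obtain ⟨G, rfl, rfl, U⟩ := H.up
  obtain ⟨u, h5, h6⟩ := decompN (p := ringChar k) U hA L hL i (by omega)
  refine ZY.tate (Up.hI G.g G.h f D) U.hs U.hd ?_ ?_ u i h5 (h6 0)
  · rw [U.upI_eq]
    exact XJ.prime _ _ (X1.ne G).1 (X1.ne G).2
  · rw [U.upI_eq]
    obtain ⟨M, α, y, hy⟩ := XG.ex G (j := 0) (L := .base _) good_base
    have h7 := (X1.sec_co hy.mem).1
    obtain ⟨s, hs⟩ := Function.ne_iff.1 (XU.nz.2 h7.1)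
    exact ⟨s, fun h => hs ((aeval_X _ _).symm.trans (XL.zl h7 _ h))⟩

end Pool.Agent.Lib.MP_557161_ag.HG.TW.P2
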