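import Pool.Agent.Lib.MP_557161_ag.TW.StD

/-!
The rules for determinants and cofactor vectors.
-/

namespace Pool.Agent.Lib.MP_557161_ag.HG.TW

open Pool.Agent.Lib.MP_557161_ag.DL Matrix

namespace DAa

variable {L : Type} [Field L] {m n n' o τ α ι ι' : Type}

theorem dt_mul [Fintype m] [DecidableEq m] [Fintype n] [DecidableEq n] (e : m ≃ n) (e' : n ≃ o)
    (M : Matrix m n L) (N : Matrix n o L) : dt (e.trans e') (M * N) = dt e M * dt e' N := by
  rw [dt, dt, dt, ← submatrix_mul_equiv M N id e, det_mul,
    ← det_submatrix_equiv_self e (N.submatrix id e')]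
  rfl

variable [Fintype τ] [DecidableEq τ] [DecidableEq n] (e : Option τ ≃ n) (A : Matrix τ n L)

omit [DecidableEq n] in
theorem rc_cr (ξ : n → L) :
    dt e (rc ξ A) = cramer ((rc 0 A).submatrix id e)ᵀ (LinearMap.funLeft L L e ξ) none := by
  rw [cramer_transpose_apply, dt]
  congr 1
  ext i j
  cases i <;> simp [rc, updateRow_apply]

theorem cf_left (U : Matrix τ τ L) : cf e (U * A) = U.det • cf e A := by
  ext j
  have h : (rc (Pi.single j 1) (U * A)).submatrix id e = (fromBlocks U 0 0 1).submatrix
      (Equiv.optionEquivSumPUnit.{0} τ) (Equiv.optionEquivSumPUnit τ) *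
        (rc (Pi.single j 1) A).submatrix id e := by
    ext i k
    cases i <;> simp [rc, mul_apply, Fintype.sum_option]
  rw [cf, dt, h, det_mul, det_submatrix_equiv_self, det_fromBlocks_zero₂₁, det_one, mul_one]
  rfl

variable [Fintype n]

theorem dt_rc (ξ : n → L) : dt e (rc ξ A) = ξ ⬝ᵥ cf e A := by
  conv_lhs => rw [rc_cr, pi_eq_sum_univ' ξ]
  simp only [map_sum, map_smul, Finset.sum_apply, Pi.smul_apply, ← rc_cr]
  rfl

theorem mul_cf : A *ᵥ cf e A = 0 := by
  ext t
  exact (dt_rc e A (A t)).symm.trans (det_zero_of_row_eq (i := none) (j := some t) (by simp) rfl)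

theorem cf_prop (v : n → L) (h : A *ᵥ v = 0) (j k : n) : cf e A j * v k = cf e A k * v j := by
  by_cases h0 : v = 0
  · simp [h0]
  have : dt e (rc (Pi.single j (v k) - Pi.single k (v j)) A) = 0 := by
    refine exists_mulVec_eq_zero_iff.1 ⟨v ∘ e, fun z => h0 (funext fun i => ?_), ?_⟩
    · simpa using congrFun z (e.symm i)
    · rw [submatrix_mulVec_equiv, Function.comp_assoc, e.self_comp_symm, Function.comp_id]
      ext i
      cases i with
      | none =>
        change (Pi.single j (v k) - Pi.single k (v j)) ⬝ᵥ v = 0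
        rw [sub_dotProduct, single_dotProduct, single_dotProduct, mul_comm, sub_self]
      | some t => exact congrFun h t
  rw [dt_rc, sub_dotProduct, single_dotProduct, single_dotProduct] at this
  linear_combination this

theorem cf_right [Fintype n'] [DecidableEq n'] (e' : n ≃ n') (g : Matrix n n' L) :
    g *ᵥ cf (e.trans e') (A * g) = dt e' g • cf e A := by
  ext j
  have h : rc (g j) (A * g) = rc (Pi.single j 1) A * g := by
    ext i k
    cases i with
    | none => simp [rc, mul_apply, Pi.single_apply]
    | some t => rfl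
  exact (dt_rc _ _ (g j)).symm.trans (by rw [h, dt_mul, mul_comm]; rfl)

theorem cf_sq (g : Matrix n n L) : g *ᵥ cf e (A * g) = g.det • cf e A :=
  cf_right e A (Equiv.refl n) g

end DAa

open DAa

theorem DA_thm : DA where
  dt_mul := dt_mul
  dt_sign e e' := ⟨Equiv.Perm.sign (e.trans e'.symm), Int.units_coe_mul_self _, fun M => by
    rw [dt, dt, ← det_permute']
    congr 1
    ext i j
    simp⟩
  dt_sub e f g M := by
    rw [dt, dt, ← det_submatrix_equiv_self f (M.submatrix _ _)]
    congr 1
    ext i j
    simp
  dt_blk e e' A B C D := by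
    rw [dt, dt, dt, dt, ← det_fromBlocks_zero₂₁ _ (B.submatrix id e')]
    refine ⟨?_, ?_⟩
    · congr 1
      ext (i | i) (j | j) <;> rfl
    · rw [det_fromBlocks_zero₂₁, ← det_fromBlocks_zero₁₂ _ (C.submatrix id e)]
      congr 1
      ext (i | i) (j | j) <;> rfl
  iv_mul e M h := by
    have u := Ne.isUnit h
    have hM : M = (M.submatrix id e).submatrix id e.symm := by
      ext i j
      simp
    refine ⟨?_, ?_, ?_⟩
    · conv_lhs => rw [iv, hM]
      rw [submatrix_mul_equiv, ← hM, mul_nonsing_inv _ u]
      rfl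
    · have := submatrix_mul_equiv (M.submatrix id e)⁻¹ (M.submatrix id e) e.symm (Equiv.refl _)
        e.symm
      rw [nonsing_inv_mul _ u, submatrix_one_equiv] at this
      conv_lhs => rw [iv, hM]
      rw [← hM]
      exact (congrArg _ hM).trans this
    · exact (det_submatrix_equiv_self e.symm _).trans
        ((det_nonsing_inv _).trans (Ring.inverse_eq_inv _))
  dt_rc e ξ A := dt_rc e A ξ
  mul_cf e A := mul_cf e A
  cf_prop e A := cf_prop e A
  cf_left e U A := cf_left e A U
  cf_right e e' A g := cf_right e A e' g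
  wt_mul e a t φ H Θ G G' i := by
    have h := congrFun (cf_sq e (G * fromCols (φ * diagonal fun l => a l - a i) (H - a i • Θ))
      (fromBlocks (diagonal (Function.update t i 1)) 0 0 G')) (Sum.inl i)
    rw [cf_left, det_fromBlocks_zero₂₁, det_diagonal, Finset.prod_update_of_mem (Finset.mem_univ _),
      fromBlocks_mulVec, Sum.elim_inl, Pi.add_apply, mulVec_diagonal, Function.update_self,
      zero_mulVec, Matrix.mul_assoc, fromCols_mul_fromBlocks, mul_fromCols, Matrix.mul_zero,
      Matrix.mul_zero, add_zero, zero_add] at h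
    have e1 : G * φ * diagonal t * diagonal (fun l => a l - a i) =
        G * (φ * diagonal (fun l => a l - a i) * diagonal (Function.update t i 1)) := by
      rw [Matrix.mul_assoc, Matrix.mul_assoc, Matrix.mul_assoc, diagonal_mul_diagonal,
        diagonal_mul_diagonal]
      congr 3
      ext l
      by_cases q : l = i <;> simp [q, mul_comm]
    have e2 : G * H * G' - a i • (G * Θ * G') = G * ((H - a i • Θ) * G') := by
      simp only [Matrix.sub_mul, Matrix.mul_sub, Matrix.smul_mul, Matrix.mul_smul,
        Matrix.mul_assoc]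
    rw [wt, wt, e1, e2, ← Finset.sdiff_singleton_eq_erase]
    simp only [Pi.smul_apply, smul_eq_mul, Pi.zero_apply, Function.comp_apply] at h
    linear_combination h
  wt_abs e a φ H Θ ζ i := by
    have h := congrFun (cf_sq e (fromCols (φ * diagonal fun l => a l - a i) (H - a i • Θ))
      (fromBlocks 1 (ζ.updateRow i 0) 0 1)) (Sum.inl i)
    rw [det_fromBlocks_zero₂₁, det_one, det_one, fromBlocks_mulVec, Sum.elim_inl, Pi.add_apply,
      one_mulVec, fromCols_mul_fromBlocks, Matrix.mul_one, Matrix.mul_zero, add_zero,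
      Matrix.mul_one] at h
    have e1 : H + φ * diagonal a * ζ - a i • (Θ + φ * ζ) =
        φ * diagonal (fun l => a l - a i) * ζ.updateRow i 0 + (H - a i • Θ) := by
      have : diagonal (fun l => a l - a i) * ζ.updateRow i 0 = diagonal a * ζ - a i • ζ := by
        ext l k
        by_cases q : l = i <;> simp [q, sub_mul, updateRow_apply]
      rw [Matrix.mul_assoc, Matrix.mul_assoc, this, Matrix.mul_sub, Matrix.mul_smul, smul_add]
      abel
    rw [wt, wt, e1]
    simpa [mulVec] using h

end Pool.Agent.Lib.MP_557161_ag.HG.TW
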