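import Pool.Agent.Lib.MP_557161_ag.DL.Defs2

/-!
The minimal resolution of the double cover `z ^ 2 = (x 0 * y 1 - x 1 * y 0) P (x) Q (y)` of the
product of two projective lines, in a projective embedding.
-/

namespace Pool.Agent.Lib.MP_557161_ag.HG.TW.P2

open MvPolynomial

/-- The indices of the coordinates of the embedding. -/
abbrev Ix (g h : ℕ) : Type :=
  ((Fin g → Fin 2) ⊕ (Fin (h + 1) → Fin 2)) × ((Fin h → Fin 2) ⊕ (Fin (g + 1) → Fin 2)) ×
    Fin 2 × Fin 2

/-- The coordinates of the embedding: the products `T S x y`, where `T` is `t 1` times a monomial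
of degree `g` in `x` or `t 0` times a monomial of degree `h + 1` in `y`, and `S` is `s 1` times a
monomial of degree `h` in `y` or `s 0` times a monomial of degree `g + 1` in `x`. -/
def mon {R : Type} [CommRing R] {g h : ℕ} (x y t s : Fin 2 → R) (i : Ix g h) : R :=
  i.1.elim (fun m => t 1 * ∏ l, x (m l)) (fun m => t 0 * ∏ l, y (m l)) *
    i.2.1.elim (fun m => s 1 * ∏ l, y (m l)) (fun m => s 0 * ∏ l, x (m l)) * x i.2.2.1 * y i.2.2.2

variable {k : Type} [Field k]

/-- The polynomial ring in `z`, `x 0`, `x 1`, `y 0`, `y 1`. -/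
abbrev Rz (k : Type) [Field k] : Type := MvPolynomial (Option (Fin 2 ⊕ Fin 2)) k

/-- The variables `x`. -/
noncomputable def vx (i : Fin 2) : Rz k := X (some (Sum.inl i))

/-- The variables `y`. -/
noncomputable def vy (i : Fin 2) : Rz k := X (some (Sum.inr i))

/-- The coordinates of the embedding for `t = (P (x), z)` and `s = (Q (y), z)`. -/
noncomputable def twN (g h : ℕ) (P Q : MvPolynomial (Fin 2) k) : Ix g h → Rz k :=
  mon vx vy ![aeval vx P, X none] ![aeval vy Q, X none]

/-- The equation of the double cover. -/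
noncomputable def twF (P Q : MvPolynomial (Fin 2) k) : Rz k :=
  X none ^ 2 - (vx 0 * vy 1 - vx 1 * vy 0) * aeval vx P * aeval vy Q

/-- The homogeneous ideal of the closure of the image of the double cover, `P` and `Q` binary forms
of degrees `2 g + 1` and `2 h + 1`: the kernel of `k[N] → k[x, y, z] / (twF P Q)`. -/
noncomputable def twI (g h : ℕ) (P Q : MvPolynomial (Fin 2) k) : Ideal (MvPolynomial (Ix g h) k) :=
  (Ideal.span {twF P Q}).comap (aeval (R := k) (twN g h P Q))

end Pool.Agent.Lib.MP_557161_ag.HG.TW.P2
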