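import Pool.Agent.Lib.MP_557161_ag.HG.Rel

/-!
Linear algebra for the step from the node model to the cyclic model.
-/

namespace Pool.Agent.Lib.MP_557161_ag.HG.TW

open Matrix Polynomial Pool.Agent.Lib.MP_557161_ag.DL

variable {L : Type} [Field L]

/-- An onto matrix has a nonzero maximal minor. -/
lemma minor_of_onto {m n : Type} [Fintype m] [Fintype n] [DecidableEq m] (M : Matrix m n L)
    (h : ∀ v, ∃ x, M *ᵥ x = v) : ∃ f : m → n, (M.submatrix id f).det ≠ 0 := by
  classical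
  obtain ⟨κ, a, -, hs, hl⟩ := exists_linearIndependent' L (fun j : n => M.col j)
  have ht : ⊤ ≤ Submodule.span L (Set.range ((fun j : n => M.col j) ∘ a)) := by
    rw [hs]
    intro v _
    obtain ⟨x, rfl⟩ := h v
    have : M *ᵥ x = ∑ j, x j • M.col j := by
      ext i
      simp [mulVec, dotProduct, mul_comm]
    rw [this]
    exact Submodule.sum_mem _ fun j _ => Submodule.smul_mem _ _ (Submodule.subset_span ⟨j, rfl⟩)
  let B := Module.Basis.mk hl ht
  let e : κ ≃ m := B.indexEquiv (Pi.basisFun L m)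
  refine ⟨fun i => a (e.symm i), ?_⟩
  have h2 : LinearIndependent L (M.submatrix id fun i => a (e.symm i)).col :=
    hl.comp e.symm e.symm.injective
  exact ((isUnit_iff_isUnit_det _).1 (linearIndependent_cols_iff_isUnit.1 h2)).ne_zero

/-- A matrix with a nonzero maximal minor is onto. -/
lemma onto_of_minor {m n : Type} [Fintype m] [Fintype n] [DecidableEq m] (M : Matrix m n L)
    (f : m → n) (h : (M.submatrix id f).det ≠ 0) (v : m → L) : ∃ x, M *ᵥ x = v := by
  classical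
  set N := M.submatrix id f
  refine ⟨fun j => ∑ i, if f i = j then (N⁻¹ *ᵥ v) i else 0, ?_⟩
  have : N *ᵥ (N⁻¹ *ᵥ v) = v := by
    rw [mulVec_mulVec, mul_nonsing_inv _ (Ne.isUnit h), one_mulVec]
  conv_rhs => rw [← this]
  generalize N⁻¹ *ᵥ v = z
  ext i
  simp only [mulVec, dotProduct, Finset.mul_sum, mul_ite, mul_zero, N, submatrix_apply, id]
  rw [Finset.sum_comm]
  simp

/-- A polynomial row vector `ξ` with `ξ W = 0` and `ξ (I1 - y I0)` constant vanishes. -/
lemma top_coeff {ν A τ : Type} [Fintype ν] (W : Matrix ν A L) (I0 I1 : Matrix ν τ L)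
    (hoo : ∀ ξ : ν → L, ξ ᵥ* W = 0 → ξ ᵥ* I0 = 0 → ξ = 0) (ξ : ν → L[X]) (κ : τ → L)
    (h1 : ξ ᵥ* W.map C = 0)
    (h2 : ξ ᵥ* (I1.map C - (X : L[X]) • I0.map C) = fun t => C (κ t)) : ξ = 0 := by
  have st : ∀ d, (∀ s, (ξ s).coeff (d + 1) = 0) → ∀ s, (ξ s).coeff d = 0 := by
    intro d hd
    have := hoo (fun s => (ξ s).coeff d) ?_ ?_
    · exact congrFun this
    · ext i
      have := congrArg (coeff · d) (congrFun h1 i)
      simpa [vecMul, dotProduct, finsetSum_coeff, coeff_mul_C] using this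
    · ext t
      have := congrArg (coeff · (d + 1)) (congrFun h2 t)
      simp only [vecMul, dotProduct, finsetSum_coeff, Matrix.sub_apply, map_apply,
        Matrix.smul_apply, smul_eq_mul, mul_sub, coeff_sub, coeff_mul_C, hd, zero_mul,
        ← mul_assoc, coeff_mul_X, coeff_C_succ, zero_sub, Finset.sum_neg_distrib,
        neg_eq_zero] at this
      simpa [vecMul, dotProduct] using this
  obtain ⟨N, hN⟩ : ∃ N, ∀ s, (ξ s).natDegree < N :=
    ⟨Finset.univ.sup (fun s => (ξ s).natDegree) + 1, fun s =>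
      Nat.lt_succ_of_le (Finset.le_sup (f := fun s => (ξ s).natDegree) (Finset.mem_univ s))⟩
  have all : ∀ k d, N ≤ d + k → ∀ s, (ξ s).coeff d = 0 := by
    intro k
    induction k with
    | zero => exact fun d hd s => coeff_eq_zero_of_natDegree_lt ((hN s).trans_le hd)
    | succ k ih => exact fun d hd => st d (ih (d + 1) (by omega))
  ext s d
  simpa using all N d (by omega) s

/-- The rows of `u_1, .., u_(k+1)` are independent. -/
theorem u_inj {ν A τ ρ J : Type} [Fintype ν] [Fintype A] [Fintype τ] [Fintype ρ] [Fintype J]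
    [DecidableEq ν] [DecidableEq A]
    (hc : Fintype.card A + Fintype.card τ = Fintype.card ν + Fintype.card ρ)
    (a : A → L) (b : J → L) (hb : Function.Injective b) (hab : ∀ i j, a i ≠ b j) (j1 : J)
    (W : Matrix ν A L) (I0 I1 : Matrix ν τ L) (p0 : Matrix A ρ L) (u0 : Matrix τ ρ L)
    (p : J → Matrix A ρ L) (u : J → Matrix τ ρ L) (h0 : W * p0 + I0 * u0 = 0)
    (hj : ∀ j, W * diagonal (fun i => a i - b j) * p j + (I1 - b j • I0) * u j = 0)
    (hinj : ∀ x, p j1 *ᵥ x = 0 → u j1 *ᵥ x = 0 → x = 0)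
    (hoo : ∀ ξ : ν → L, ξ ᵥ* W = 0 → ξ ᵥ* I0 = 0 → ξ = 0) (hs : u0 + ∑ j, u j = 0)
    (hC : ∃ (R1 : Matrix A ν L[X]) (R2 : Matrix τ ν L[X]),
      W.map C * R1 + (I1.map C - (X : L[X]) • I0.map C) * R2 = 1)
    (κ : τ → L) (hκ : ∀ j, κ ᵥ* u j = 0) : κ = 0 := by
  classical
  obtain ⟨R1, R2, hR⟩ := hC
  set V : Matrix ν τ L[X] := I1.map C - (X : L[X]) • I0.map C with hV
  let D : J → L[X] := fun j => ∏ l ∈ Finset.univ.erase j, (C (b l) - X)
  let E : L[X] := ∏ l, (C (b l) - X)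
  have hDE : ∀ j, D j * (C (b j) - X) = E := fun j =>
    Finset.prod_erase_mul _ _ (Finset.mem_univ j)
  let P : Matrix A ρ L[X] := ∑ j, D j • (diagonal (fun i => C (a i) - X) * (p j).map C) -
    E • (p0 + ∑ j, p j).map C
  let U : Matrix τ ρ L[X] := ∑ j, D j • (u j).map C
  let c : ∀ {m n : Type}, Matrix m n L →+ Matrix m n L[X] :=
    (C : L →+* L[X]).toAddMonoidHom.mapMatrix
  have hc' : ∀ {m n : Type} (M : Matrix m n L), M.map C = c M := fun _ => rfl
  have k1 : ∀ j, W.map C * (diagonal (fun i => C (a i) - X) * (p j).map C) + V * (u j).map C =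
      (C (b j) - X) • (W * p j + I0 * u j).map C := by
    intro j
    have e1 : (diagonal fun i => C (a i) - X : Matrix A A L[X]) =
        (diagonal fun i => a i - b j).map C + (C (b j) - X) • 1 := by
      ext1 i l
      by_cases h : i = l <;> simp [h]
    have e2 : V = (I1 - b j • I0).map C + (C (b j) - X) • I0.map C := by
      ext1 i l
      simp [hV, sub_mul]
    have e3 := congrArg (fun M => M.map C) (hj j)
    simp only [hc' (_ + _), map_add] at e3 ⊢
    simp only [← hc', Matrix.map_mul, Matrix.map_zero _ C_0, Matrix.mul_assoc] at e3 ⊢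
    rw [e1, e2, Matrix.add_mul, Matrix.add_mul, Matrix.mul_add, Matrix.smul_mul, Matrix.smul_mul,
      Matrix.one_mul, Matrix.mul_smul, smul_add, add_add_add_comm, e3, zero_add]
  have k2 : W.map C * P + V * U = 0 := by
    have e1 : ∑ j, (W * p j + I0 * u j) = W * (p0 + ∑ j, p j) := by
      rw [Finset.sum_add_distrib, ← Matrix.mul_sum, ← Matrix.mul_sum,
        eq_neg_of_add_eq_zero_right hs, Matrix.mul_neg, Matrix.mul_add,
        eq_neg_of_add_eq_zero_left h0, add_comm]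
    simp only [P, U, Matrix.mul_sub, Matrix.mul_sum, Matrix.mul_smul]
    rw [sub_add_eq_add_sub, ← Finset.sum_add_distrib, ← Matrix.map_mul, ← e1, hc' (∑ _, _),
      map_sum, Finset.smul_sum, sub_eq_zero]
    refine Finset.sum_congr rfl fun j _ => ?_
    rw [← smul_add, k1, smul_smul, hDE, hc']
  have k3 : (fun t => C (κ t)) ᵥ* U = 0 := by
    ext1 l
    simp only [U, vecMul, dotProduct, Matrix.sum_apply, Matrix.smul_apply, map_apply, smul_eq_mul,
      Finset.mul_sum, Pi.zero_apply]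
    rw [Finset.sum_comm]
    refine Finset.sum_eq_zero fun j _ => ?_
    have := congrArg (fun z => D j * C z) (congrFun (hκ j) l)
    simp only [vecMul, dotProduct, map_sum, map_mul, Finset.mul_sum, Pi.zero_apply, map_zero,
      mul_zero] at this
    simpa only [mul_left_comm] using this
  let e : ν ⊕ ρ ≃ A ⊕ τ := Fintype.equivOfCardEq (by simp [hc])
  let Q := (fromBlocks R1 P R2 U).submatrix e id
  have hQ : Q.det ≠ 0 := by
    intro h
    let ev := evalRingHom (b j1)
    have h1 : (Q.map ev).det = 0 := by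
      rw [← RingHom.mapMatrix_apply, ← RingHom.map_det, h, map_zero]
    obtain ⟨v, hv, h2⟩ := exists_mulVec_eq_zero_iff.2 h1
    have h3 : fromBlocks (R1.map ev) (P.map ev) (R2.map ev) (U.map ev) *ᵥ v = 0 := by
      ext i
      obtain ⟨i, rfl⟩ := e.surjective i
      rw [← fromBlocks_map]
      exact congrFun h2 i
    rw [fromBlocks_mulVec] at h3
    have h4 : R1.map ev *ᵥ (v ∘ Sum.inl) + P.map ev *ᵥ (v ∘ Sum.inr) = 0 :=
      funext fun i => congrFun h3 (.inl i)
    have h5 : R2.map ev *ᵥ (v ∘ Sum.inl) + U.map ev *ᵥ (v ∘ Sum.inr) = 0 :=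
      funext fun i => congrFun h3 (.inr i)
    have h6 : (W.map C).map ev * R1.map ev + V.map ev * R2.map ev = 1 := by
      rw [← Matrix.map_mul, ← Matrix.map_mul, ← Matrix.map_add _ (map_add ev), hR,
        Matrix.map_one _ (map_zero ev) (map_one ev)]
    have h7 : (W.map C).map ev * P.map ev + V.map ev * U.map ev = 0 := by
      rw [← Matrix.map_mul, ← Matrix.map_mul, ← Matrix.map_add _ (map_add ev), k2,
        Matrix.map_zero _ (map_zero ev)]
    have h8 : v ∘ Sum.inl = 0 := by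
      have : (W.map C).map ev *ᵥ (R1.map ev *ᵥ (v ∘ Sum.inl) + P.map ev *ᵥ (v ∘ Sum.inr)) +
          V.map ev *ᵥ (R2.map ev *ᵥ (v ∘ Sum.inl) + U.map ev *ᵥ (v ∘ Sum.inr)) = 0 := by
        rw [h4, h5]; simp
      simp only [mulVec_add, mulVec_mulVec] at this
      rwa [add_add_add_comm, ← add_mulVec, ← add_mulVec, h6, h7, one_mulVec, zero_mulVec,
        add_zero] at this
    have d0 : ∀ j, j ≠ j1 → ev (D j) = 0 := fun j h => by
      rw [map_prod]
      exact Finset.prod_eq_zero (Finset.mem_erase.2 ⟨h.symm, Finset.mem_univ _⟩) (by simp [ev])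
    have d1 : ev (D j1) ≠ 0 := by
      rw [map_prod]
      refine Finset.prod_ne_zero_iff.2 fun l hl => ?_
      simpa [ev, sub_eq_zero] using hb.ne (Finset.mem_erase.1 hl).1
    have d2 : ev E = 0 := by rw [← hDE j1]; simp [ev]
    have eP : P.map ev = ev (D j1) • (diagonal (fun i => a i - b j1) * p j1) := by
      ext i l
      simp only [P, map_apply, Matrix.sub_apply, Matrix.sum_apply, Matrix.smul_apply, smul_eq_mul,
        map_sub, map_sum, map_mul, d2, zero_mul, sub_zero, diagonal_mul]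
      rw [Finset.sum_eq_single j1 (fun j _ h => by rw [d0 j h, zero_mul]) (by simp)]
      simp [ev]
    have eU : U.map ev = ev (D j1) • u j1 := by
      ext i l
      simp only [U, map_apply, Matrix.sum_apply, Matrix.smul_apply, smul_eq_mul, map_sum, map_mul]
      rw [Finset.sum_eq_single j1 (fun j _ h => by rw [d0 j h, zero_mul]) (by simp)]
      simp [ev]
    rw [h8, mulVec_zero, zero_add] at h4 h5
    rw [eP, smul_mulVec, smul_eq_zero, ← mulVec_mulVec] at h4
    rw [eU, smul_mulVec, smul_eq_zero] at h5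
    have h9 := hinj (v ∘ Sum.inr) (funext fun i => by
      have := congrFun (h4.resolve_left d1) i
      rw [mulVec_diagonal, Pi.zero_apply, mul_eq_zero, sub_eq_zero] at this
      exact this.resolve_left (hab _ _)) (h5.resolve_left d1)
    exact hv (funext fun i => i.casesOn (congrFun h8) (congrFun h9))
  let ξ : ν → L[X] := (fun t => C (κ t)) ᵥ* R2
  have hm : Sum.elim (-(ξ ᵥ* W.map C)) ((fun t => C (κ t)) - ξ ᵥ* V) ∘ e = 0 := by
    refine eq_zero_of_vecMul_eq_zero hQ ?_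
    have : Sum.elim (-(ξ ᵥ* W.map C)) ((fun t => C (κ t)) - ξ ᵥ* V) ᵥ* fromBlocks R1 P R2 U = 0 := by
      rw [vecMul_fromBlocks]
      simp only [Sum.elim_comp_inl, Sum.elim_comp_inr, neg_vecMul, sub_vecMul, vecMul_vecMul]
      have a1 : -(ξ ᵥ* (W.map C * R1)) + ((fun t => C (κ t)) ᵥ* R2 - ξ ᵥ* (V * R2)) = 0 := by
        rw [neg_add_eq_sub, sub_sub, add_comm, ← vecMul_add, hR, vecMul_one, sub_self]
      have a2 : -(ξ ᵥ* (W.map C * P)) + ((fun t => C (κ t)) ᵥ* U - ξ ᵥ* (V * U)) = 0 := by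
        rw [neg_add_eq_sub, sub_sub, add_comm, ← vecMul_add, k2, k3, vecMul_zero, sub_self]
      rw [a1, a2]
      exact funext fun i => i.casesOn (fun _ => rfl) fun _ => rfl
    ext1 l
    rw [← congrFun this l]
    exact e.sum_comp fun i => Sum.elim (-(ξ ᵥ* W.map C)) ((fun t => C (κ t)) - ξ ᵥ* V) i *
      fromBlocks R1 P R2 U i l
  have hm' : ∀ i, Sum.elim (-(ξ ᵥ* W.map C)) ((fun t => C (κ t)) - ξ ᵥ* V) i = 0 := fun i => by
    obtain ⟨i, rfl⟩ := e.surjective i
    exact congrFun hm i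
  have m2 : ξ ᵥ* V = fun t => C (κ t) := funext fun t => (sub_eq_zero.1 (hm' (.inr t))).symm
  have z := top_coeff W I0 I1 hoo ξ κ (funext fun i => neg_eq_zero.1 (hm' (.inl i))) m2
  ext t
  have := congrFun m2 t
  rw [z, zero_vecMul] at this
  exact C_eq_zero.1 this.symm

/-- A matrix with independent rows has a right inverse. -/
lemma rinv_of_inj {m n : Type} [Fintype m] [Fintype n] [DecidableEq m] (M : Matrix m n L)
    (h : ∀ v, v ᵥ* M = 0 → v = 0) : ∃ N : Matrix n m L, M * N = 1 := by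
  classical
  obtain ⟨g, hg⟩ := LinearMap.exists_leftInverse_of_injective M.vecMulLinear
    (LinearMap.ker_eq_bot'.2 h)
  refine ⟨LinearMap.toMatrixRight' g, ?_⟩
  ext i j
  have := congrFun (LinearMap.congr_fun hg (Pi.single i 1)) j
  rw [LinearMap.comp_apply, ← LinearMap.toMatrixRight'.symm_apply_apply g] at this
  simpa [LinearMap.toMatrixRight', Matrix.mul_apply, Matrix.one_apply, Pi.single_apply, vecMul,
    dotProduct, eq_comm] using this

lemma inj_iff_onto {m n : Type} [Fintype m] [Fintype n] (M : Matrix m n L) :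
    (∀ v, v ᵥ* M = 0 → v = 0) ↔ ∀ v, ∃ x, M *ᵥ x = v := by
  classical
  refine ⟨fun h v => ?_, fun h v hv => ?_⟩
  · obtain ⟨N, hN⟩ := rinv_of_inj M h
    exact ⟨N *ᵥ v, by rw [mulVec_mulVec, hN, one_mulVec]⟩
  · ext i
    obtain ⟨x, hx⟩ := h (Pi.single i 1)
    have := dotProduct_mulVec v M x
    rw [hx, hv] at this
    simpa using this

section
variable {K : Type} [Field K] {M M' : Fld K} {R : Rel M M'} {m n : Type} [Fintype m] [Fintype n]
  {A : Matrix m n M} {A' : Matrix m n M'}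

/-- Being onto is an open condition. -/
lemma rel_onto (h : R.m' A A') (h' : ∀ v, ∃ x, A' *ᵥ x = v) : ∀ v, ∃ x, A *ᵥ x = v := by
  classical
  obtain ⟨f, hf⟩ := minor_of_onto A' h'
  exact onto_of_minor A f (Rel.ne_zero (Rel.det fun i j => h i (f j)) hf)

/-- Independence of the rows is an open condition. -/
lemma rel_rows (h : R.m' A A') (h' : ∀ v, v ᵥ* A' = 0 → v = 0) : ∀ v, v ᵥ* A = 0 → v = 0 :=
  (inj_iff_onto A).2 (rel_onto h ((inj_iff_onto A').1 h'))

/-- Independence of the columns is an open condition. -/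
lemma rel_cols (h : R.m' A A') (h' : ∀ v, A' *ᵥ v = 0 → v = 0) : ∀ v, A *ᵥ v = 0 → v = 0 := by
  simp only [← vecMul_transpose] at h' ⊢
  exact rel_rows (R := R) (fun i j => h j i) h'

end

section
variable {ν A τ : Type} [Fintype ν]

/-- The pencil `[W | I1 - y I0]` is onto in degrees at most `N` (dual form). -/
def CC (N : ℕ) (W : Matrix ν A L) (I0 I1 : Matrix ν τ L) : Prop :=
  ∀ lam : Fin (N + 1) → ν → L, (∀ m, lam m ᵥ* W = 0) →
    (∀ m : Fin N, lam m.castSucc ᵥ* I1 = lam m.succ ᵥ* I0) → lam = 0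

/-- The matrix of the pencil in degrees at most `N`. -/
def ccM (N : ℕ) (W : Matrix ν A L) (I0 I1 : Matrix ν τ L) :
    Matrix (Fin (N + 1) × ν) (Fin (N + 1) × A ⊕ Fin N × τ) L := fun x =>
  Sum.elim (fun y => if x.1 = y.1 then W x.2 y.2 else 0) fun y =>
    (if x.1 = y.1.castSucc then I1 x.2 y.2 else 0) - if x.1 = y.1.succ then I0 x.2 y.2 else 0

lemma CC_iff {N : ℕ} {W : Matrix ν A L} {I0 I1 : Matrix ν τ L} :
    CC N W I0 I1 ↔ ∀ v, v ᵥ* ccM N W I0 I1 = 0 → v = 0 := by
  have e1 : ∀ (v : Fin (N + 1) × ν → L) m i, (v ᵥ* ccM N W I0 I1) (.inl (m, i)) =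
      ((fun s => v (m, s)) ᵥ* W) i := fun v m i => by
    simp only [vecMul, dotProduct, ccM, Fintype.sum_prod_type, Sum.elim_inl, mul_ite, mul_zero]
    rw [Finset.sum_comm]
    simp
  have e2 : ∀ (v : Fin (N + 1) × ν → L) m t, (v ᵥ* ccM N W I0 I1) (.inr (m, t)) =
      ((fun s => v (m.castSucc, s)) ᵥ* I1) t - ((fun s => v (m.succ, s)) ᵥ* I0) t := fun v m t => by
    simp only [vecMul, dotProduct, ccM, Fintype.sum_prod_type, Sum.elim_inr, mul_ite, mul_zero,
      mul_sub]
    rw [Finset.sum_comm]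
    simp
  refine ⟨fun h v hv => ?_, fun h lam h1 h2 => ?_⟩
  · have := h (fun m s => v (m, s)) (fun m => funext fun i => by rw [← e1, hv]; rfl)
      fun m => funext fun t => sub_eq_zero.1 (by rw [← e2, hv]; rfl)
    exact funext fun x => congrFun (congrFun this x.1) x.2
  · have := h (fun x => lam x.1 x.2) (funext fun y => by
      rcases y with ⟨m, i⟩ | ⟨m, t⟩
      · exact (e1 _ m i).trans (congrFun (h1 m) i)
      · exact (e2 _ m t).trans (sub_eq_zero.2 (congrFun (h2 m) t)))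
    exact funext fun m => funext fun s => congrFun this (m, s)

/-- The condition is open. -/
lemma CC.rel {K : Type} [Field K] {M M' : Fld K} {R : Rel M M'} [Fintype A] [Fintype τ] {N : ℕ}
    {W : Matrix ν A M} {I0 I1 : Matrix ν τ M} {W' : Matrix ν A M'} {I0' I1' : Matrix ν τ M'}
    (hW : R.m' W W') (h0 : R.m' I0 I0') (h1 : R.m' I1 I1') (h : CC N W' I0' I1') :
    CC N W I0 I1 := by
  refine CC_iff.2 (rel_rows (R := R) (fun x y => ?_) (CC_iff.1 h))
  rcases y with y | y
  exacts [Rel.ite _ (hW _ _) R.zero,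
    Rel.sub (Rel.ite _ (h1 _ _) R.zero) (Rel.ite _ (h0 _ _) R.zero)]

/-- The polynomial right inverse. -/
lemma CC.rinv [Fintype A] [Fintype τ] [DecidableEq ν] {N : ℕ} {W : Matrix ν A L}
    {I0 I1 : Matrix ν τ L} (h : CC N W I0 I1) :
    ∃ (R1 : Matrix A ν L[X]) (R2 : Matrix τ ν L[X]),
      W.map C * R1 + (I1.map C - (X : L[X]) • I0.map C) * R2 = 1 := by
  obtain ⟨Q, hQ⟩ := rinv_of_inj _ (CC_iff.1 h)
  refine ⟨fun i s => ∑ m : Fin (N + 1), X ^ m.1 * C (Q (.inl (m, i)) (0, s)),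
    fun t s => ∑ m : Fin N, X ^ m.1 * C (Q (.inr (m, t)) (0, s)), ?_⟩
  ext1 s s'
  have : ∑ m : Fin (N + 1), X ^ m.1 * C ((ccM N W I0 I1 * Q) (m, s) (0, s')) =
      (1 : Matrix ν ν L[X]) s s' := by
    rw [hQ, Finset.sum_eq_single 0 (fun m _ h => by simp [h]) (by simp)]
    by_cases e : s = s' <;> simp [e, one_apply]
  rw [← this]
  simp only [Matrix.add_apply, Matrix.mul_apply, map_apply, Matrix.sub_apply, Matrix.smul_apply,
    smul_eq_mul, Fintype.sum_sum_type, Fintype.sum_prod_type, ccM, Sum.elim_inl, Sum.elim_inr,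
    map_add, map_sum, mul_add, Finset.mul_sum, Finset.sum_add_distrib, sub_mul, ite_mul, zero_mul,
    map_sub, mul_sub, apply_ite C, map_zero, mul_ite, mul_zero, map_mul]
  congr 1
  · rw [Finset.sum_comm]
    refine Finset.sum_congr rfl fun m _ => ?_
    rw [Finset.sum_comm (s := Finset.univ (α := Fin (N + 1)))]
    refine Finset.sum_congr rfl fun i _ => ?_
    simp only [Finset.sum_ite_eq, Finset.mem_univ, if_true]
    ring
  · rw [Finset.sum_comm, Finset.sum_comm (s := Finset.univ (α := Fin (N + 1)))]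
    refine Finset.sum_congr rfl fun m _ => ?_
    rw [Finset.sum_comm (s := Finset.univ (α := Fin (N + 1)))]
    refine Finset.sum_congr rfl fun t _ => ?_
    simp only [Finset.sum_sub_distrib, Finset.sum_ite_eq', Finset.mem_univ, if_true,
      Fin.val_castSucc, Fin.val_succ]
    ring

/-- Change of the basis and column operations. -/
lemma CC.mul {N : ℕ} {W W' : Matrix ν A L} {I0 I1 I0' I1' : Matrix ν τ L} (h : CC N W I0 I1)
    (g : Matrix ν ν L) (hg : ∀ v, v ᵥ* g = 0 → v = 0)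
    (hW : ∀ v, v ᵥ* W' = 0 → v ᵥ* g ᵥ* W = 0 ∧ v ᵥ* I0' = v ᵥ* g ᵥ* I0 ∧ v ᵥ* I1' = v ᵥ* g ᵥ* I1) :
    CC N W' I0' I1' := fun lam h1 h2 => funext fun m => hg _ (congrFun
  (h (fun m => lam m ᵥ* g) (fun m => (hW _ (h1 m)).1) fun m => by
    rw [← (hW _ (h1 _)).2.1, ← (hW _ (h1 _)).2.2, h2]) m)

/-- A cyclic vector gives the condition. -/
lemma CC.of_cyc [DecidableEq ν] {N : ℕ} {W : Matrix ν A L} {I0 I1 : Matrix ν τ L}
    (Y : Matrix ν ν L) (e : ν → L)
    (hc : ∀ v, (∀ m ≤ N, v ᵥ* Y ^ m ⬝ᵥ e = 0) → v = 0) (he : ∀ v, v ᵥ* W = 0 → v ⬝ᵥ e = 0)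
    (hY : ∀ v v', v ᵥ* W = 0 → v' ᵥ* W = 0 → v ᵥ* I1 = v' ᵥ* I0 → v' = v ᵥ* Y) :
    CC N W I0 I1 := by
  intro lam h1 h2
  have e1 : ∀ m, lam m = lam 0 ᵥ* Y ^ m.1 := by
    intro m
    induction m using Fin.induction with
    | zero => simp
    | succ m ih => rw [hY _ _ (h1 _) (h1 _) (h2 m), ih, vecMul_vecMul, ← pow_succ]; rfl
  have e0 : lam 0 = 0 := hc _ fun m hm => by
    rw [← e1 ⟨m, Nat.lt_succ_of_le hm⟩]
    exact he _ (h1 _)
  exact funext fun m => by rw [e1, e0, zero_vecMul]; rfl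

end

theorem F4a {L A τ ν ρ β : Type} [Field L] [Fintype A] [DecidableEq A] [Fintype τ] [DecidableEq τ]
    [Fintype ν] [DecidableEq ν] [Fintype ρ] [DecidableEq ρ] [Fintype β] [DecidableEq β]
    (e : ν ⊕ ρ ≃ A ⊕ τ) (a : A → L) (b : β → L) (bi : Function.Injective b)
    (ab : ∀ i j, a i ≠ b j) (w : Matrix ν A L) (I0 I1 : Matrix ν τ L)
    (p : Option β → Matrix A ρ L) (u : Option β → Matrix τ ρ L)
    (h0 : w * p none + I0 * u none = 0)
    (h1 : ∀ j, w * Matrix.diagonal (fun i => a i - b j) * p (some j) +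
      (I1 - b j • I0) * u (some j) = 0) (hs : ∑ j, u j = 0) (j1 : β)
    (hinj : ∀ z, (p (some j1)).mulVec z = 0 → (u (some j1)).mulVec z = 0 → z = 0)
    (hsur : ∀ ξ, Matrix.vecMul ξ w = 0 → Matrix.vecMul ξ I0 = 0 → ξ = 0)
    (hV : ∃ (V1 : Matrix A ν (Polynomial L)) (V2 : Matrix τ ν (Polynomial L)),
      w.map Polynomial.C * V1 + (I1.map Polynomial.C -
        (Polynomial.X : Polynomial L) • I0.map Polynomial.C) * V2 = 1)
    (κ : τ → L) (hκ : ∀ j, Matrix.vecMul κ (u (some j)) = 0) : κ = 0 :=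
  u_inj (by simpa using (Fintype.card_congr e).symm) a b bi ab j1 w I0 I1 (p none) (u none)
    (fun j => p (some j)) (fun j => u (some j)) h0 h1 hinj hsur
    (by rwa [Fintype.sum_option] at hs) hV κ hκ

/-- Finitely many powers detect a cyclic vector. -/
lemma cyc_bound {ν : Type} [Fintype ν] [DecidableEq ν] (Y : Matrix ν ν L) (e : ν → L)
    (hc : Submodule.span L (Set.range fun j : ℕ => (Y ^ j) *ᵥ e) = ⊤) :
    ∃ N, ∀ v, (∀ m ≤ N, v ᵥ* Y ^ m ⬝ᵥ e = 0) → v = 0 := by
  choose c hc' using fun i : ν => Finsupp.mem_span_range_iff_exists_finsupp.1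
    (hc ▸ Submodule.mem_top : Pi.single i (1 : L) ∈ Submodule.span L
      (Set.range fun j : ℕ => (Y ^ j) *ᵥ e))
  refine ⟨Finset.univ.sup fun i => (c i).support.sup id, fun v hv => funext fun i => ?_⟩
  have := congrArg (v ⬝ᵥ ·) (hc' i)
  simp only [Finsupp.sum, dotProduct_sum, dotProduct_smul, dotProduct_single, mul_one,
    dotProduct_mulVec] at this
  rw [← this]
  refine Finset.sum_eq_zero fun m hm => ?_
  rw [hv m ((Finset.le_sup (f := id) hm).trans
    (Finset.le_sup (f := fun i => (c i).support.sup id) (Finset.mem_univ i))), smul_zero]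

theorem cycV {ν : Type} [Fintype ν] [DecidableEq ν] (g Y1 : Matrix ν ν L) (hg : g.det ≠ 0)
    (e0 : ν) (hc : Submodule.span L
      (Set.range fun j : ℕ => ((g⁻¹ * Y1) ^ j).mulVec (Pi.single e0 1)) = ⊤) :
    ∃ (v : ν → L[X]) (V : Matrix ν ν L[X]),
      vecMulVec (fun i => C (g i e0)) v + (Y1.map C - (X : L[X]) • g.map C) * V = 1 := by
  obtain ⟨N, hN⟩ := cyc_bound _ _ hc
  have h1 : CC N (of fun i (_ : Unit) => (Pi.single e0 1 : ν → L) i) 1 (g⁻¹ * Y1) :=
    CC.of_cyc _ _ hN (fun v hv => congrFun hv ()) fun v v' _ _ h => by rw [h, vecMul_one]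
  have h2 : CC N (of fun i (_ : Unit) => g i e0) g Y1 :=
    h1.mul g (fun v => eq_zero_of_vecMul_eq_zero hg) fun v hv => ⟨funext fun _ => by
      simpa [vecMul, dotProduct, Pi.single_apply] using congrFun hv (), by rw [vecMul_one], by
      rw [vecMul_vecMul, mul_nonsing_inv_cancel_left _ _ (Ne.isUnit hg)]⟩
  obtain ⟨R1, R2, h⟩ := h2.rinv
  refine ⟨R1 (), R2, ?_⟩
  rw [← h]
  congr 1
  ext1 i j
  simp [vecMulVec_apply, mul_apply]

end Pool.Agent.Lib.MP_557161_ag.HG.TW
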