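import Pool.Agent.Lib.MP_557161_ag.TW.StF

/-!
The evaluation of the space of pairs with a companion matrix, assembled.
-/

namespace Pool.Agent.Lib.MP_557161_ag.HG.TW

open Pool.Agent.Lib.MP_557161_ag.DL Matrix

variable {K : Type} [Field K] {p : ℕ} [V3 K p] [V4 K p] [V5 K p] [F1 K p] [F1b K p] [F2 K p]
  [F3 K p] [FZ1 K p] [FZ2 K p] [FZ3 K p] [OI K p]

lemma FO_cp {ρ σ : Type} [Fintype ρ] [DecidableEq ρ] [Fintype σ] [DecidableEq σ] (F : FD K ρ σ)
    (o : Option (Option σ × ρ) → ℕ) : Imp p (Pt K) (F.CP o) := by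
  obtain ⟨e⟩ : Nonempty (Option (Option σ × ρ) ⊕ ρ ≃ Option ρ ⊕ Option σ × ρ) :=
    ⟨Fintype.equivOfCardEq (by simp only [Fintype.card_sum, Fintype.card_option]; ring)⟩
  obtain ⟨e'⟩ : Nonempty (Option (Option σ × ρ) ≃ Option ρ ⊕ σ × ρ) :=
    ⟨Fintype.equivOfCardEq (by
      simp only [Fintype.card_sum, Fintype.card_option, Fintype.card_prod]; ring)⟩
  have h1 : Imp p (Pt K) (F.CR o) :=
    Imp.trans (OI.imp F.a F.b e' F.ha F.bi F.ab) (Imp.trans (FZ3.imp F e')
      (Imp.trans (FZ2.imp F e e') (Imp.trans (FZ1.imp F e) (Imp.trans (F3.imp F o e)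
        (F2.imp F o e)))))
  have ev : Even (Nat.card (Option (Option σ × ρ) ⊕ Option ρ)) := by
    obtain ⟨r, hr⟩ := F.ha.ev
    refine ⟨(Fintype.card σ + 1) * r + r + 1, ?_⟩
    simp only [Nat.card_eq_fintype_card, Fintype.card_sum, Fintype.card_option, Fintype.card_prod,
      hr]
    ring
  have h2 : Imp p ((GLw K (Option (Option σ × ρ))).prod (Gs K (Option ρ))) (Pt K) :=
    Imp.trans (V3.prodR _ (V5.gl _).2) (Imp.trans (V4.gsum _ _).2 (V4.gg _ ev).2)
  intro cc d
  exact Imp.trans h1 (Imp.trans (F1b.imp F o) (Imp.trans (V3.prodR _ (F1.imp F o))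
    (Imp.trans (V3.assoc _ _ _).1 (Imp.trans (V3.prodL _ h2) (V3.pt _).2))))

theorem FO_thm [F0 K p] : FO K p where
  imp T m hm := by
    obtain ⟨k, hk⟩ : ∃ k, k + 1 = 2 * T.h := ⟨2 * T.h - 1, by have := T.h0; omega⟩
    let eb : Option (Fin k) ≃ Fin (2 * T.h) := (finSuccEquiv k).symm.trans (finCongr hk)
    let F : FD K (Fin (2 * T.g)) (Fin k) :=
      ⟨fun i => i.elim 0 T.a, fun j => T.b (eb j),
        ⟨rfl, fun i j h => by
          cases i <;> cases j
          exacts [rfl, absurd h.symm (T.a0 _), absurd h (T.a0 _), congrArg some (T.ai h)],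
          by simp, ⟨⟨0, by have := T.g0; omega⟩⟩⟩,
        T.bi.comp eb.injective, fun i j => by
          cases i
          exacts [(T.b0 _).symm, T.ab _ _],
        ⟨T.h - 1, by have := T.h0; rw [Fintype.card_fin]; omega⟩⟩
    have hc : Fintype.card (Option (Fin k) × Fin (2 * T.g)) = m := by
      have h1 : m = 4 * T.g * T.h := Nat.succ.inj hm
      rw [Fintype.card_prod, Fintype.card_option, Fintype.card_fin, Fintype.card_fin, hk, h1]
      ring
    let o : Option (Option (Fin k) × Fin (2 * T.g)) ≃ Fin (m + 1) :=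
      (Fintype.equivFinOfCardEq hc).optionCongr.trans (finSuccEquiv m).symm
    intro cc d
    exact Imp.trans (FO_cp F fun x => (o x).1)
      (F0.imp F T m o (Equiv.refl _) eb rfl (fun _ => rfl) fun _ => rfl)

end Pool.Agent.Lib.MP_557161_ag.HG.TW
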