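import Pool.Agent.Lib.MP_557161_ag.HG.St1

/-!
Functionals vanish on a hypersurface that is moved by an action of the additive group.
-/

namespace Pool.Agent.Lib.MP_557161_ag.HG.TW

open Pool.Agent.Lib.MP_557161_ag.DL

variable {K : Type} [Field K] {c d : Cd} {j : ℕ}

/-- A reduction that is defined over the residue field of a nontrivial place of `L` has value
zero. -/
lemma Hyp_low {S : ASp K c} (Φ : AF j S) {L M : Fld K} {α : L →ₐ[K] M} (hL : Good j L) {O : Pl M}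
    (h : ¬ Pl.Triv α O) {x : c.X L} {z : c.X O.res}
    (e : c.lift (Rel.ofPl O).r (c.map α x) z) : Φ.a O.res z = 0 := by
  have h1 := (c.amb K).red_map (Pl.over_comap α O) (some x)
  have h2 : (c.amb K).red O ((c.amb K).map α (some x)) = some z := Cd.red_some e
  show Φ.v _ (some z) = 0
  rw [← h2, h1]
  exact Φ.low _ _ (Pl.tr_res_lt _ (fun h0 => h fun x =>
    (Pl.over_comap α O x).1 (h0 ▸ ValuationSubring.mem_top x)) hL.2.le)

theorem ahyp {S : ASp K c} (γ : ∀ L : Fld K, (Cd.one.prod c).X L → c.X L)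
    (hγ : Mp ((ASp.univ K .one).prod S) S γ)
    (h : ∀ (L : Fld K) (t : L) x, S.mem L x → γ L (0, x) = x ∧ γ L (-t, γ L (t, x)) = x)
    (ρ P : ∀ L : Fld K, c.X L → L) (hρ : Reg S .one ρ) (hP : Reg S .one P)
    (e : ∀ (L : Fld K) (t : L) x, S.mem L x →
      ρ L (γ L (t, x)) = ρ L x + t * P L x ∧ P L (γ L (t, x)) = P L x)
    (Φ : AF j S) (h0 : ∀ L x, S.mem L x → ρ L x = 0 → P L x = 0 → Φ.a L x = 0)
    (L : Fld K) (x : c.X L) (hx0 : ρ L x = 0) : Φ.a L x = 0 := by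
  by_contra hv
  have hL : Good j L := (Φ.supp _ _ hv).1
  have hx : S.mem L x := S.sp_some.1 (Φ.supp _ _ hv).2
  have hP0 : P L x ≠ 0 := fun e => hv (h0 L x hx hx0 e)
  obtain ⟨M, α, T, ht, hg⟩ : ∃ (M : Fld K) (α : L →ₐ[K] M) (T : M), Trans' α T ∧ Gen α T :=
    ⟨_, _, _, trans_rat L, gen_rat L⟩
  have hT0 : T ≠ 0 := fun h => ht.ne 0 (h.trans (map_zero _).symm)
  have hxM : S.mem M (c.map α x) := (S.map_iff α x).2 hx
  have hz : S.mem M (γ M (T, c.map α x)) := hγ.mem M (T, _) ⟨trivial, hxM⟩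
  have ePM : P M (c.map α x) = α (P L x) := hP.nat α hx
  have eρM : ρ M (c.map α x) = 0 := (hρ.nat α hx).trans (by
    show α (ρ L x) = 0
    rw [hx0, map_zero])
  have ef : ρ M (γ M (T, c.map α x)) = T * α (P L x) := by
    rw [(e M T _ hxM).1, eρM, zero_add, ePM]
  have eP : P M (γ M (T, c.map α x)) = α (P L x) := by rw [(e M T _ hxM).2, ePM]
  have hα0 : α (P L x) ≠ 0 := (map_ne_zero α).2 hP0
  have hf0 : T * α (P L x) ≠ 0 := mul_ne_zero hT0 hα0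
  have hinv : ∀ O : Pl M, (Rel.ofPl O).r T 0 → T⁻¹ ∉ O.O := fun O h h' =>
    (O.rd_ne_zero_iff h.1).2 ⟨hT0, h'⟩ h.2
  have H := (Φ.rat M (some (γ M (T, c.map α x))) _ (hL.succ ht hg) (S.sp_some.2 hz) hf0).2
  obtain ⟨O, hO, dO, o, s⟩ := Pl.exists_zero_place ht hg
  have r : (Rel.ofPl O).r T 0 := (Pl.ord_pos_iff dO hT0).1 (o ▸ one_pos)
  rw [finsum_eq_single _ ⟨O, dO, (Fin'.of_surj s).tr_eq.trans hL.2⟩] at H
  · have hx' : S.mem O.res (c.map hO.hom x) := (S.map_iff _ x).2 hx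
    have e1 := hγ.reg (Rel.ofPl O) (x := (T, c.map α x)) (x' := (0, c.map hO.hom x))
      ⟨trivial, hxM⟩ ⟨trivial, hx'⟩ ⟨r, Cd.lift_triv hO x⟩
    rw [(h _ 0 _ hx').1] at e1
    have e2 := Φ.ext hO.hom (some x) hL (hL.of_fin (Fin'.of_surj s))
    rw [deg_of_surj s, Nat.cast_one, one_mul] at e2
    have e3 : O.ord (T * α (P L x)) = 1 := by
      rw [Pl.ord_mul dO hT0 hα0, o, Pl.ord_eq_zero_of_mem hα0 (hO _)
        (by rw [← map_inv₀]; exact hO _), add_zero]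
    simp only [e3, Cd.red_some e1, Int.cast_one, one_mul] at H
    exact hv (e2.symm.trans H)
  · intro O' hne
    by_contra hn
    have hv' := right_ne_zero_of_mul hn
    have ho : O'.1.ord (T * α (P L x)) ≠ 0 := by exact_mod_cast left_ne_zero_of_mul hn
    obtain ⟨z', ez, hz'⟩ := (Φ.supp _ _ hv').2
    have lz := Cd.lift_of_red ez
    rw [ez] at hv'
    have r1 : (Rel.ofPl O'.1).r _ _ := hρ _ hz hz' lz
    have r2 : (Rel.ofPl O'.1).r _ _ := hP _ hz hz' lz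
    rw [ef] at r1
    rw [eP] at r2
    have h1 : ρ _ z' = 0 := r1.2.symm.trans ((Pl.ord_pos_iff O'.2.1 hf0).1
      (lt_of_le_of_ne ((Pl.ord_nonneg_iff O'.2.1).2 r1.1) ho.symm)).2
    have h2 : P _ z' ≠ 0 := fun e => hv' (h0 _ z' hz' h1 e)
    have r3 : (Rel.ofPl O'.1).r T 0 := by
      have := Rel.div r1 r2 h2
      rwa [mul_div_cancel_right₀ _ hα0, h1, zero_div] at this
    by_cases h' : Pl.Triv α O'.1
    · exact hne (Subtype.ext (Pl.zero_place_unique ht hg h' hO (hinv _ r3) (hinv _ r)))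
    have e1 := hγ.reg (Rel.ofPl O'.1) (x := (-T, γ M (T, c.map α x))) (x' := (0, z'))
      ⟨trivial, hz⟩ ⟨trivial, hz'⟩ ⟨by simpa using Rel.neg r3, lz⟩
    rw [(h M T _ hxM).2, (h _ 0 _ hz').1] at e1
    exact hv' (Hyp_low Φ hL h' e1)

variable {p : ℕ} {E : Ph K c} {W : ASp K d}

/-- The statement HYP2. -/
theorem hyp2 (γ : ∀ L : Fld K, (Cd.one.prod c).X L → c.X L)
    (hγ : Mp ((ASp.univ K .one).prod E.S) E.S γ)
    (h : ∀ (L : Fld K) (t : L) x, E.S.mem L x →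
      γ L (0, x) = x ∧ γ L (-t, γ L (t, x)) = x ∧ E.φ L (γ L (t, x)) = E.φ L x)
    (ρ P : ∀ L : Fld K, c.X L → L) (hρ : Reg E.S .one ρ) (hP : Reg E.S .one P)
    (e : ∀ (L : Fld K) (t : L) x, E.S.mem L x →
      ρ L (γ L (t, x)) = ρ L x + t * P L x ∧ P L (γ L (t, x)) = P L x)
    (Φ : NF p j E W)
    (h0 : ∀ L x y w, E.S.mem L x → ρ L x = 0 → P L x = 0 → Φ.b L x y w = 0)
    (L : Fld K) (x : c.X L) (y : L) (w : d.X L) (hx : ρ L x = 0) : Φ.b L x y w = 0 :=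
  ahyp (S := (E.tot p).prod W) (fun L z => ((γ L (z.1, z.2.1.1), z.2.1.2), z.2.2))
    ⟨fun _ _ R z z' m m' e => ⟨⟨hγ.reg R (x := (z.1, z.2.1.1)) (x' := (z'.1, z'.2.1.1))
        ⟨m.1, m.2.1.1.1⟩ ⟨m'.1, m'.2.1.1.1⟩ ⟨e.1, e.2.1.1⟩, e.2.1.2⟩, e.2.2⟩,
      fun L z m => ⟨⟨⟨hγ.mem L (z.1, z.2.1.1) ⟨m.1, m.2.1.1.1⟩, trivial⟩,
        m.2.1.2.trans (h L _ _ m.2.1.1.1).2.2.symm⟩, m.2.2⟩⟩
    (fun L t z m => ⟨Prod.ext (Prod.ext (h L t _ m.1.1.1).1 rfl) rfl,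
      Prod.ext (Prod.ext (h L t _ m.1.1.1).2.1 rfl) rfl⟩)
    (fun L z => ρ L z.1.1) (fun L z => P L z.1.1)
    (fun _ _ R _ _ m m' e => hρ R m.1.1.1 m'.1.1.1 e.1.1)
    (fun _ _ R _ _ m m' e => hP R m.1.1.1 m'.1.1.1 e.1.1)
    (fun L t z m => e L t _ m.1.1.1) Φ.toFe
    (fun L z m h1 h2 => h0 L z.1.1 z.1.2 z.2 m.1.1.1 h1 h2) L ((x, y), w) hx

/-- The statement HYP1: translations in the function `ρ`. -/
theorem hyp1 (γ : ∀ L : Fld K, (Cd.one.prod c).X L → c.X L)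
    (hγ : Mp ((ASp.univ K .one).prod E.S) E.S γ)
    (h : ∀ (L : Fld K) (t : L) x, E.S.mem L x →
      γ L (0, x) = x ∧ γ L (-t, γ L (t, x)) = x ∧ E.φ L (γ L (t, x)) = E.φ L x)
    (ρ : ∀ L : Fld K, c.X L → L) (hρ : Reg E.S .one ρ)
    (e : ∀ (L : Fld K) (t : L) x, E.S.mem L x → ρ L (γ L (t, x)) = ρ L x + t)
    (Φ : NF p j E W) (L : Fld K) (x : c.X L) (y : L) (w : d.X L) (hx : ρ L x = 0) :
    Φ.b L x y w = 0 :=
  hyp2 γ hγ h ρ (fun _ _ => 1) hρ (fun _ _ R _ _ _ _ _ => R.one)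
    (fun L t x m => ⟨by rw [e L t x m, mul_one], rfl⟩) Φ
    (fun _ _ _ _ _ _ h => absurd h one_ne_zero) L x y w hx

end Pool.Agent.Lib.MP_557161_ag.HG.TW
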