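import Pool.Agent.Lib.MP_557161_ag.HG.StZ

/-!
The surfaces `z ^ 2 = c (1 - x y) f (x) D (y)`, and the statement that links the two halves of the
proof.
-/

namespace Pool.Agent.Lib.MP_557161_ag.HG.TW

open Pool.Agent.Lib.MP_557161_ag.DL

variable {K : Type} [Field K]

/-- The data `f = ∏ (1 - a i x)` of degree `2 g`, `D = ∏ (y - b j)` of degree `2 h`, and `c`. -/
structure TD (K : Type) [Field K] where
  g : ℕ
  h : ℕ
  a : Fin (2 * g) → K
  b : Fin (2 * h) → K
  c : K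
  g0 : 0 < g
  h0 : 0 < h
  two : (2 : K) ≠ 0
  c0 : c ≠ 0
  a0 : ∀ i, a i ≠ 0
  b0 : ∀ j, b j ≠ 0
  ai : Function.Injective a
  bi : Function.Injective b
  ab : ∀ i j, a i ≠ b j

/-- The shape of points `((x, y), z)`. -/
abbrev xz : Cd := (Cd.vec (Fin 2)).prod .one

/-- The involution `z ↦ -z`. -/
def ngz (L : Fld K) (x : xz.X L) : xz.X L := (x.1, -x.2)

namespace TD

variable (T : TD K)

/-- The rank. -/
def n : ℕ := 4 * T.g * T.h + 1

/-- The branch function. -/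
noncomputable def om (L : Fld K) (x : Fin 2 → L) : L :=
  algebraMap K L T.c * (1 - x 0 * x 1) * (∏ i, (1 - algebraMap K L (T.a i) * x 0)) *
    ∏ j, (x 1 - algebraMap K L (T.b j))

lemma om_rel {M L : Fld K} (R : Rel M L) {x : Fin 2 → M} {x' : Fin 2 → L}
    (e : ∀ i, R.r (x i) (x' i)) : R.r (T.om M x) (T.om L x') :=
  R.mul (R.mul (R.mul (R.const _) (Rel.sub R.one (R.mul (e 0) (e 1))))
    (Rel.prod _ fun _ _ => Rel.sub R.one (R.mul (R.const _) (e 0))))
    (Rel.prod _ fun _ _ => Rel.sub (e 1) (R.const _))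

/-- The unramified part of the double cover. -/
noncomputable def UU : ASp K xz :=
  ((ASp.univ K xz).opn (fun _ x => x.2 ≠ 0) fun _ _ _ _ _ _ _ e h => Rel.ne_zero e.2 h).cl
    (fun L x => x.2 ^ 2 = T.om L x.1)
    fun _ _ R _ _ _ _ e h => Rel.eq (Rel.pow e.2 2) (T.om_rel R e.1) h

lemma UU_iff {L : Fld K} {x : xz.X L} : T.UU.mem L x ↔ x.2 ≠ 0 ∧ x.2 ^ 2 = T.om L x.1 :=
  ⟨fun h => ⟨h.1.2, h.2⟩, fun h => ⟨⟨trivial, h.1⟩, h.2⟩⟩

end TD

/-- The top exterior power of the motive of the double cover is a sum of products. -/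
class ALT (K : Type) [Field K] : Prop where
  alt : ∀ (T : TD K) (κ : Type) [Fintype κ] [DecidableEq κ], Nat.card κ = T.n → AltS T.UU ngz κ

end Pool.Agent.Lib.MP_557161_ag.HG.TW
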