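import Pool.Agent.Lib.MP_557161_ag.TW.StO

/-!
Absorption of the image of the transposed pencil.
-/

namespace Pool.Agent.Lib.MP_557161_ag.HG.TW

open Pool.Agent.Lib.MP_557161_ag.DL Matrix

namespace OA1a

variable {K : Type} [Field K] {p : ℕ} {ρ ι ι' : Type} [Fintype ρ] [DecidableEq ρ] [Fintype ι]
  [DecidableEq ι] [Fintype ι'] [DecidableEq ι'] (D : OD K ρ ι ι') (I : Option ρ → Prop)
  [DecidablePred I]

/-- The projection on top of the pencil. -/
def B (i : Option ρ) : Matrix (ρ ⊕ ι') ι K := fromRows D.π (D.J1 - D.a i • D.J0)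

/-- Extension by zero. -/
def ex {L : Type} [Field L] (z : Matrix {i // I i} ι' L) : Matrix (Option ρ) ι' L :=
  Matrix.of fun i j => if h : I i then z ⟨i, h⟩ j else 0

/-- The linear forms. -/
def ka (L : Fld K) (Ps : Matrix (Option ρ) ρ L) (ζ : Matrix (Option ρ) ι' L) :
    Matrix (Option ρ) ι L :=
  Ps * cm L D.π + (ζ * cm L D.J1 - diagonal (cv L D.a) * ζ * cm L D.J0)

variable {D I}

omit [DecidableEq ι] [DecidableEq ι'] [Fintype ι] in
lemma ka_row (L : Fld K) (Ps : Matrix (Option ρ) ρ L) (ζ : Matrix (Option ρ) ι' L)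
    (i : Option ρ) : ka D L Ps ζ i = Sum.elim (Ps i) (ζ i) ᵥ* cm L (B D i) := by
  ext x
  rw [ka, Matrix.add_apply, Matrix.sub_apply, Matrix.mul_assoc, diagonal_mul]
  simp only [mul_apply, vecMul, dotProduct, Fintype.sum_sum_type, B, cm, cv, Sum.elim_inl,
    Sum.elim_inr, map_apply, fromRows_apply_inl, fromRows_apply_inr, Matrix.sub_apply,
    Matrix.smul_apply, smul_eq_mul, map_sub, map_mul, Finset.mul_sum, ← Finset.sum_sub_distrib]
  congr 1
  exact Finset.sum_congr rfl fun _ _ => by ring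

omit [Fintype ρ] [DecidableEq ρ] [Fintype ι'] [DecidableEq ι'] in
lemma ex_rel {M L : Fld K} {R : Rel M L} {z : Matrix {i // I i} ι' M} {z' : Matrix {i // I i} ι' L}
    (h : R.m' z z') : R.m' (ex I z) (ex I z') := fun i j => by
  simp only [ex, of_apply]
  split_ifs
  exacts [h _ _, R.zero]

lemma cm_mul (L : Fld K) {m n o : Type} [Fintype n] (A : Matrix m n K) (A' : Matrix n o K) :
    cm L (A * A') = cm L A * cm L A' := Matrix.map_mul

lemma inv (L : Fld K) {m n : Type} [Fintype m] [Fintype n] [DecidableEq m] {A : Matrix m n K}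
    {A' : Matrix n m K} (h : A * A' = 1) (x : m → L) : x ᵥ* cm L A ᵥ* cm L A' = x := by
  rw [vecMul_vecMul, ← cm_mul, h, cm, Matrix.map_one _ (map_zero _) (map_one _), vecMul_one]

variable {ε : Matrix ι (Option ρ) K} {v : Matrix ρ (Option ρ) K}

omit [DecidablePred I] in
lemma exQ (h : D.Ker I ε v) : ∃ Q : Option ρ → Matrix ι (ρ ⊕ ι') K,
    ∀ i, I i → Q i * B D i = 1 ∧ B D i * Q i = 1 := by
  have : ∀ i, ∃ Q : Matrix ι (ρ ⊕ ι') K, I i → Q * B D i = 1 ∧ B D i * Q = 1 := fun i => by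
    by_cases hi : I i
    · obtain ⟨g, hg⟩ := (toLin' (B D i)).exists_leftInverse_of_injective
        (LinearMap.ker_eq_bot'.2 fun y hy => by
          rw [toLin'_apply, B, fromRows_mulVec] at hy
          exact h.k3 i hi y (funext fun l => congrFun hy (.inl l))
            (funext fun l => congrFun hy (.inr l)))
      have e : LinearMap.toMatrix' g * B D i = 1 := by
        rw [← LinearMap.toMatrix'_toLin' (B D i), ← LinearMap.toMatrix'_comp, hg,
          LinearMap.toMatrix'_id]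
      have c := Fintype.card_congr D.e
      simp only [Fintype.card_option, Fintype.card_sum] at c
      exact ⟨_, fun _ => ⟨e, (mul_eq_one_comm_of_equiv
        (Fintype.equivOfCardEq (by rw [Fintype.card_sum]; omega))).1 e⟩⟩
    · exact ⟨0, fun h => (hi h).elim⟩
  exact ⟨_, fun i => (this i).choose_spec⟩

omit [DecidablePred I] [DecidableEq ι] [DecidableEq ι'] in
lemma ka_eps (h : D.Ker I ε v) (L : Fld K) (Ps : Matrix (Option ρ) ρ L)
    (ζ : Matrix (Option ρ) ι' L) {i : Option ρ} (hi : I i) :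
    (ka D L Ps ζ * cm L ε) i i = (Ps * cm L v) i i := by
  have e : ∀ k, (B D i * ε) k i = Sum.elim (fun l => v l i) 0 k := fun k => by
    cases k with
    | inl l => exact congrFun (h.k2 i hi) l
    | inr l => exact congrFun (h.k1 i hi) l
  show (ka D L Ps ζ i ᵥ* cm L ε) i = _
  rw [ka_row, vecMul_vecMul, ← cm_mul]
  simp [vecMul, dotProduct, cm, e, mul_apply (M := Ps)]

lemma iso [DA] [V3 K p] (P : Matrix (Option ρ) ρ K) (h : D.Ker I ε v) :
    Imp p ((D.nat I P v).prod (Aff K (.mat {i // I i} ι'))) (D.rad I P ε) ∧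
      Imp p (D.rad I P ε) ((D.nat I P v).prod (Aff K (.mat {i // I i} ι'))) := by
  obtain ⟨Q, hQ⟩ := exQ h
  let zi : ∀ L : Fld K, Matrix (Option ρ) ι L → Matrix {i // I i} ι' L := fun L κ =>
    Matrix.of fun i j => (κ i.1 ᵥ* cm L (Q i.1)) (.inr j)
  let ps : ∀ L : Fld K, Matrix (Option ρ) ι L → Matrix (Option ρ) ρ L := fun L κ =>
    Matrix.of fun i l => if I i then (κ i ᵥ* cm L (Q i)) (.inl l) else cm L P i l
  have rq : ∀ {M L : Fld K} (R : Rel M L) {κ : Matrix (Option ρ) ι M} {κ' : Matrix (Option ρ) ι L},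
      R.m' κ κ' → ∀ i k, R.r ((κ i ᵥ* cm M (Q i)) k) ((κ' i ᵥ* cm L (Q i)) k) :=
    fun R _ _ e i k => Rel.dot (e i) fun x => R.rcm (Q i) x k
  have ex0 : ∀ (L : Fld K) (z : Matrix {i // I i} ι' L) i, ¬ I i → ex I z i = 0 :=
    fun L z i hi => funext fun j => dif_neg hi
  have k0 : ∀ (L : Fld K) (Ps : Matrix (Option ρ) ρ L) (z : Matrix {i // I i} ι' L) i, ¬ I i →
      (∀ l, Ps i l = cm L P i l) → ka D L Ps (ex I z) i = (cm L P * cm L D.π) i :=
    fun L Ps z i hi hP => by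
      rw [ka_row, ex0 L z i hi, funext hP, B, cm, cm, fromRows_map, sumElim_vecMul_fromRows,
        zero_vecMul, add_zero]
      rfl
  have fg : ∀ (L : Fld K) (κ : Matrix (Option ρ) ι L),
      (∀ i, ¬ I i → ∀ x, κ i x = (cm L P * cm L D.π) i x) →
      ka D L (ps L κ) (ex I (zi L κ)) = κ := fun L κ hκ => funext fun i => by
    by_cases hi : I i
    · rw [ka_row, ← inv L (hQ i hi).1 (κ i)]
      congr 1
      ext (l | l)
      · exact if_pos hi
      · exact dif_pos hi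
    · rw [k0 L _ _ i hi fun l => if_neg hi, funext (hκ i hi)]
  have mf : Mp ((D.nat I P v).prod (Aff K (.mat {i // I i} ι'))).S (D.rad I P ε).S
      fun L z => (ka D L z.1.1 (ex I z.2), z.1.2.1,
        z.1.2.2.1 + z.1.2.1 * diagonal (cv L D.a) * ex I z.2, z.1.2.2.2 + z.1.2.1 * ex I z.2) :=
    ⟨fun _ _ R _ _ _ _ e => ⟨Rel.madd (Rel.mmul e.1.1 (R.rcm _)) (Rel.msub
        (Rel.mmul (ex_rel e.2) (R.rcm _))
        (Rel.mmul (Rel.mmul (Rel.mdiag (R.rcv _)) (ex_rel e.2)) (R.rcm _))), e.1.2.1,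
        Rel.madd e.1.2.2.1 (Rel.mmul (Rel.mmul e.1.2.1 (Rel.mdiag (R.rcv _))) (ex_rel e.2)),
        Rel.madd e.1.2.2.2 (Rel.mmul e.1.2.1 (ex_rel e.2))⟩,
      fun L z m => ⟨trivial, fun i => ⟨fun hi => (ka_eps h L _ _ hi).trans ((m.1.2 i).1 hi),
        fun hi => congrFun (k0 L _ _ i hi ((m.1.2 i).2 hi))⟩⟩⟩
  refine V3.iso (h := fun _ _ => 1) (a := 1)
    (f' := fun L z => ((ps L z.1, z.2.1, z.2.2.1 - z.2.1 * diagonal (cv L D.a) * ex I (zi L z.1),
      z.2.2.2 - z.2.1 * ex I (zi L z.1)), zi L z.1))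
    ⟨⟨mf, ?_⟩, fun _ _ R _ _ _ _ _ => R.one, fun _ _ _ => one_ne_zero, one_ne_zero, ?_⟩
    ⟨mf, ⟨fun _ _ R _ _ _ _ e => ?_, fun L z m => ⟨⟨trivial, fun i => ⟨fun hi => ?_,
      fun hi l => if_neg hi⟩⟩, trivial⟩⟩, ?_, ?_⟩
  · rintro L ⟨⟨Ps, φ, H, Θ⟩, z⟩ -
    show ((H + φ * diagonal (cv L D.a) * ex I z) * cm L D.J0 - (Θ + φ * ex I z) * cm L D.J1).trace +
      (ka D L Ps (ex I z) * φ).trace =
      (H * cm L D.J0 - Θ * cm L D.J1).trace + (Ps * cm L D.π * φ).trace + 0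
    rw [ka, Matrix.add_mul, Matrix.add_mul, Matrix.add_mul, Matrix.sub_mul]
    simp only [trace_add, trace_sub]
    rw [trace_mul_comm (_ * cm L D.J1) φ, trace_mul_comm (_ * cm L D.J0) φ]
    simp only [Matrix.mul_assoc]
    ring
  · rintro L ⟨⟨Ps, φ, H, Θ⟩, z⟩ -
    show (∏ i, wt D.e (cv L D.a) φ H Θ i) * 1 = algebraMap K L 1 * ((∏ i, wt D.e (cv L D.a) φ
      (H + φ * diagonal (cv L D.a) * ex I z) (Θ + φ * ex I z) i) * 1 ^ 2)
    simp only [DA.wt_abs, map_one, one_pow, one_mul]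
  · have h1 : R.m' (zi _ _) (zi _ _) := fun i j => rq R e.1 i.1 (.inr j)
    exact ⟨⟨fun i l => Rel.ite _ (rq R e.1 i _) (R.rcm P i l), e.2.1,
      Rel.msub e.2.2.1 (Rel.mmul (Rel.mmul e.2.1 (Rel.mdiag (R.rcv _))) (ex_rel h1)),
      Rel.msub e.2.2.2 (Rel.mmul e.2.1 (ex_rel h1))⟩, h1⟩
  · refine (ka_eps h L _ (ex I (zi L z.1)) hi).symm.trans ?_
    rw [fg L _ fun i => (m.2 i).2]
    exact (m.2 i).1 hi
  · rintro L ⟨⟨Ps, φ, H, Θ⟩, z⟩ m
    have h1 : ∀ i, I i → ka D L Ps (ex I z) i ᵥ* cm L (Q i) = Sum.elim (Ps i) (ex I z i) :=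
      fun i hi => by rw [ka_row, inv L (hQ i hi).2]
    have h2 : zi L (ka D L Ps (ex I z)) = z := Matrix.ext fun i j =>
      (congrFun (h1 i.1 i.2) (.inr j)).trans (dif_pos i.2)
    have h3 : ps L (ka D L Ps (ex I z)) = Ps := Matrix.ext fun i l => by
      by_cases hi : I i
      · exact (if_pos hi).trans (congrFun (h1 i hi) (.inl l))
      · exact (if_neg hi).trans ((m.1.2 i).2 hi l).symm
    simp only [h2, h3, add_sub_cancel_right]
  · rintro L ⟨κ, φ, H, Θ⟩ m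
    simp only [fg L κ fun i => (m.2 i).2, sub_add_cancel]

end OA1a

theorem OA1_thm {K : Type} [Field K] {p : ℕ} (_h2 : (2 : K) ≠ 0) [DA] [V3 K p] : OA1 K p where
  imp D I P _ v h := by
    classical
    exact ⟨Imp.trans (OA1a.iso P h).2 (Imp.trans (V3.prodL _ (V3.aff _).2) (V3.pt _).2),
      Imp.trans (V3.pt _).1 (Imp.trans (V3.prodL _ (V3.aff _).1) (OA1a.iso P h).1)⟩

end Pool.Agent.Lib.MP_557161_ag.HG.TW
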