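import Pool.Agent.Lib.MP_557161_ag.TW.StO
import Pool.Agent.Lib.MP_557161_ag.TW.V5

/-!
The Radon transform.
-/

namespace Pool.Agent.Lib.MP_557161_ag.HG.TW

open Pool.Agent.Lib.MP_557161_ag.DL Matrix

variable {K : Type} [Field K] {p : ℕ} {ρ ι ι' : Type} [Fintype ρ] [DecidableEq ρ] [Fintype ι]
  [DecidableEq ι] [Fintype ι'] [DecidableEq ι']

lemma OA2_w [DA] (D : OD K ρ ι ι') (L : Fld K) (z : (oc ρ ι ι').X L) (t : Option ρ → L) :
    D.w L (z.1 * diagonal t, z.2) = (∏ i, ∏ l ∈ Finset.univ.erase i, t l) * D.w L z := by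
  rw [OD.w, OD.w, ← Finset.prod_mul_distrib]
  refine Finset.prod_congr rfl fun i _ => ?_
  simpa using DA.wt_mul D.e (cv L D.a) t z.1 z.2.1 z.2.2 1 1 i

omit [DecidableEq ρ] in
lemma OA2_prod [DecidableEq (Option ρ)] {L : Type} [Field L] (t : Option ρ → L)
    (h : ∀ i, t i ≠ 0) : ∏ i, ∏ l ∈ Finset.univ.erase i, t l = (∏ l, t l) ^ Fintype.card ρ := by
  refine mul_right_cancel₀ (Finset.prod_ne_zero_iff.2 fun i (_ : i ∈ Finset.univ) => h i) ?_
  rw [← Finset.prod_mul_distrib, ← pow_succ]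
  simp only [Finset.prod_erase_mul _ _ (Finset.mem_univ _), Finset.prod_const, Finset.card_univ,
    Fintype.card_option]

variable (I : Option ρ → Prop) [DecidablePred I]

/-- The scaling factors. -/
def OA2t {L : Type} [Field L] (μ : {i // I i} → L) (i : Option ρ) : L :=
  if h : I i then -μ ⟨i, h⟩ else 1

omit [Fintype ρ] [DecidableEq ρ] in
lemma OA2t_ne {L : Type} [Field L] {μ : {i // I i} → L} (h : ∀ i, μ i ≠ 0) (i : Option ρ) :
    OA2t I μ i ≠ 0 := by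
  rw [OA2t]
  split_ifs
  exacts [neg_ne_zero.2 (h _), one_ne_zero]

omit [Fintype ρ] [DecidableEq ρ] in
lemma OA2t_rel {M L : Fld K} (R : Rel M L) {μ : {i // I i} → M} {μ' : {i // I i} → L}
    (h : ∀ i, R.r (μ i) (μ' i)) (i : Option ρ) : R.r (OA2t I μ i) (OA2t I μ' i) := by
  rw [OA2t, OA2t]
  split_ifs
  exacts [Rel.neg (h _), R.one]

omit [DecidableEq ρ] in
lemma OA2_sum {L : Type} [Field L] (g : Option ρ → L) :
    ∑ i : {i // I i}, g i = ∑ i, if I i then g i else 0 := by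
  rw [← Finset.sum_filter]
  exact (Finset.sum_subtype _ (by simp) g).symm

variable [DA] [V3 K p] (D : OD K ρ ι ι') (P : Matrix (Option ρ) ρ K) (ε : Matrix ι (Option ρ) K)

lemma OA2_imp (ha : AH D.a) (hP : ∀ i, I i → ∀ l, P i l = 0) :
    Imp p (D.tee I P ε) (D.rad I P ε) ∧ Imp p (D.rad I P ε) (D.tee I P ε) := by
  have hQ : ∀ (L : Fld K) i, I i → ∀ x, (cm L P * cm L D.π) i x = 0 := fun L i hi x => by
    simp [mul_apply, cm, hP i hi]
  let X0 : WD K ((Cd.mat (Option ρ) ι).prod (oc ρ ι ι')) :=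
    mkW ((ASp.univ K _).cl (fun L z => ∀ i, ¬ I i → ∀ x, z.1 i x = (cm L P * cm L D.π) i x)
        fun _ _ R _ _ _ _ e h i hi x =>
          Rel.eq (e.1 i x) (Rel.mmul (R.rcm _) (R.rcm _) i x) (h i hi x))
      (fun L z => D.ph L z.2 + (z.1 * z.2.1).trace) (fun L z => D.w L z.2)
      (fun _ _ R _ _ _ _ e => R.add (D.ph_rel R e.2) (Rel.trace (Rel.mmul e.1 e.2.1)))
      fun _ _ R _ _ _ _ e => D.w_rel R e.2
  have h0 : Reg X0.S (.vec {i // I i}) fun L z i => (z.1 * cm L ε) i i :=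
    fun _ _ R _ _ _ _ e i => Rel.mmul e.1 (R.rcm ε) i i
  let X2 : WD K ((oc ρ ι ι').prod (.vec {i // I i})) :=
    mkW (.univ K _) (fun L z => D.ph L z.1 + (cm L P * cm L D.π * z.1.1).trace)
      (fun L z => D.w L z.1) (fun _ _ R _ _ _ _ e => R.add (D.ph_rel R e.1)
        (Rel.trace (Rel.mmul (Rel.mmul (R.rcm _) (R.rcm _)) e.1.1)))
      fun _ _ R _ _ _ _ e => D.w_rel R e.1
  have h2 : Reg X2.S (.vec ({i // I i} × ι)) fun L z a =>
      z.1.1 a.2 a.1 + z.2 a.1 * cm L ε a.2 a.1 :=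
    fun _ _ R _ _ _ _ e a => R.add (e.1.1 _ _) (R.mul (e.2 _) (R.rcm ε _ _))
  have hu : Reg (X2.zer _ h2).S .one fun _ z => ∏ i, z.2 i :=
    fun _ _ _ _ _ _ _ e => Rel.prod _ fun i _ => e.2 i
  have i1 : Imp p (X0.zer _ h0) (D.rad I P ε) ∧ Imp p (D.rad I P ε) (X0.zer _ h0) :=
    V5_iso (f := fun _ x => x) (f' := fun _ x => x)
      ⟨⟨Reg.id _, fun _ _ m => ⟨trivial, fun i => ⟨fun hi => m.2 ⟨i, hi⟩, m.1.2 i⟩⟩⟩,
        ⟨Reg.id _, fun _ _ m => ⟨⟨trivial, fun i => (m.2 i).2⟩, fun i => (m.2 i).1 i.2⟩⟩,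
        fun _ _ _ => rfl, fun _ _ _ => rfl⟩ fun _ _ _ => ⟨rfl, rfl⟩
  have i2 : Imp p (X0.lin _ h0) (X2.lin _ h2) ∧ Imp p (X2.lin _ h2) (X0.lin _ h0) := by
    refine V5_iso (f := fun _ x => ((x.1.2, x.2), fun a => x.1.1 a.1 a.2))
      (f' := fun L x => ((of fun i y => if h : I i then x.2 (⟨i, h⟩, y) else
        (cm L P * cm L D.π) i y, x.1.1), x.1.2))
      ⟨⟨fun _ _ _ _ _ _ _ e => ⟨⟨e.1.2, e.2⟩, fun _ => e.1.1 _ _⟩, fun _ _ _ => ⟨trivial, trivial⟩⟩,
        ⟨fun _ _ R _ _ _ _ e => ⟨⟨fun i y => ?_, e.1.1⟩, e.1.2⟩,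
          fun _ _ _ => ⟨⟨trivial, fun i hi _ => dif_neg hi⟩, trivial⟩⟩,
        fun _ x m => Prod.ext (Prod.ext (Matrix.ext fun i y => ?_) rfl) rfl,
        fun _ x _ => Prod.ext rfl (funext fun a => dif_pos a.1.2)⟩
      fun L ⟨⟨κ, z⟩, μ⟩ m => ⟨?_, rfl⟩
    · simp only [of_apply]
      split_ifs
      exacts [e.2 _, Rel.mmul (R.rcm _) (R.rcm _) _ _]
    · simp only [of_apply]
      split_ifs with h
      exacts [rfl, (m.1.2 i h y).symm]
    · change D.ph L z + (cm L P * cm L D.π * z.1).trace + ∑ a : {i // I i} × ι, κ a.1 a.2 *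
        (z.1 a.2 a.1 + μ a.1 * cm L ε a.2 a.1) =
        D.ph L z + (κ * z.1).trace + ∑ i, μ i * (κ * cm L ε) i i
      have e : (κ * z.1).trace = (cm L P * cm L D.π * z.1).trace +
          ∑ i : {i // I i}, (κ * z.1) i i := by
        rw [OA2_sum I fun i => (κ * z.1) i i, trace, trace, ← Finset.sum_add_distrib]
        refine Finset.sum_congr rfl fun i _ => ?_
        rw [diag_apply, diag_apply, mul_apply (M := cm L P * cm L D.π)]
        split_ifs with h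
        · simp [hQ L i h]
        · rw [add_zero, mul_apply]
          exact Finset.sum_congr rfl fun y _ => congrArg (· * _) (m.1.2 i h y)
      rw [e, Fintype.sum_prod_type, add_assoc, add_assoc, add_assoc, ← Finset.sum_add_distrib]
      simp only [mul_apply, mul_add, Finset.sum_add_distrib, Finset.mul_sum, mul_left_comm]
  have i3 : Imp p ((X2.zer _ h2).nz _ hu) (X2.zer _ h2) := by
    intro cc d
    refine V3.nz (X2.zer _ h2) _ hu fun L ⟨z, μ⟩ m h => ?_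
    obtain ⟨i, -, hi⟩ := Finset.prod_eq_zero_iff.1 h
    have := ha.ne
    obtain ⟨i', hi'⟩ := exists_ne i.1
    have e : z.1 * diagonal (Function.update (1 : Option ρ → L) i.1 0) = z.1 := by
      ext x l
      by_cases hl : l = i.1
      · have := m.2 (i, x)
        simp only [show μ i = 0 from hi, zero_mul, add_zero] at this
        simp [hl, this]
      · simp [hl]
    have := OA2_w D L z (Function.update 1 i.1 0)
    rw [e, Finset.prod_eq_zero (Finset.mem_univ i') (Finset.prod_eq_zero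
      (Finset.mem_erase.2 ⟨hi'.symm, Finset.mem_univ _⟩) (by simp)), zero_mul] at this
    exact this
  obtain ⟨s, hs⟩ := ha.ev
  have hτ : ∀ (L : Fld K) (φ : Matrix ι (Option ρ) L) (t : Option ρ → L), (∀ i, ¬ I i → t i = 1) →
      (cm L P * cm L D.π * (φ * diagonal t)).trace = (cm L P * cm L D.π * φ).trace :=
    fun L φ t ht => Finset.sum_congr rfl fun i _ => by
      rw [diag_apply, diag_apply, ← Matrix.mul_assoc, mul_diagonal]
      by_cases h : I i
      · simp [mul_apply (M := cm L P * cm L D.π), hQ L i h]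
      · rw [ht i h, mul_one]
  have hn : ∀ {L : Fld K} {x}, ((X2.zer _ h2).nz _ hu).S.mem L x → ∀ i, OA2t I x.2 i ≠ 0 :=
    fun m => OA2t_ne I fun i => Finset.prod_ne_zero_iff.1 m.2 i (Finset.mem_univ i)
  have hd : ∀ {L : Fld K} (φ : Matrix ι (Option ρ) L) {t : Option ρ → L}, (∀ i, t i ≠ 0) →
      φ * diagonal (fun i => (t i)⁻¹) * diagonal t = φ ∧
      φ * diagonal t * diagonal (fun i => (t i)⁻¹) = φ := fun φ t h =>
    ⟨Matrix.ext fun x i => by simp [h], Matrix.ext fun x i => by simp [h]⟩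
  have iso : Iso ((X2.zer _ h2).nz _ hu).S
      ((D.tee I P ε).prod (Tor K {i // I i} fun _ => True)).S
      (fun _ x => ((x.1.1 * diagonal fun i => (OA2t I x.2 i)⁻¹, x.1.2), x.2))
      fun _ x => ((x.1.1 * diagonal (OA2t I x.2), x.1.2), x.2) := by
    refine ⟨⟨fun _ _ R _ _ _ m e => ⟨⟨Rel.mmul e.1.1 (Rel.mdiag fun i =>
          R.inv (OA2t_rel I R e.2 i) (hn m i)), e.1.2⟩, e.2⟩,
        fun L x m => ⟨⟨trivial, fun i hi y => ?_⟩, trivial,
          fun i _ => Finset.prod_ne_zero_iff.1 m.2 i (Finset.mem_univ i)⟩⟩,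
      ⟨fun _ _ R _ _ _ _ e => ⟨⟨Rel.mmul e.1.1 (Rel.mdiag (OA2t_rel I R e.2)), e.1.2⟩, e.2⟩,
        fun L x m => ⟨⟨trivial, fun a => ?_⟩,
          Finset.prod_ne_zero_iff.2 fun i _ => m.2.2 i trivial⟩⟩,
      fun _ x m => Prod.ext (Prod.ext (hd _ (hn m)).1 rfl) rfl,
      fun _ x m => Prod.ext (Prod.ext (hd _ (OA2t_ne I fun i => m.2.2 i trivial)).2 rfl) rfl⟩
    · have e : x.1.1 y i + x.2 ⟨i, hi⟩ * cm L ε y i = 0 := m.1.2 (⟨i, hi⟩, y)
      have n := hn m i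
      change (x.1.1 * diagonal fun i => (OA2t I x.2 i)⁻¹ : Matrix _ _ L) y i = _
      rw [mul_diagonal, mul_inv_eq_iff_eq_mul₀ n, OA2t, dif_pos hi]
      linear_combination e
    · change (x.1.1 * diagonal (OA2t I x.2) : Matrix _ _ L) a.2 a.1 + x.2 a.1 * cm L ε a.2 a.1 = 0
      rw [mul_diagonal, OA2t, dif_pos a.1.2, m.1.2 a.1 a.1.2 a.2]
      ring
  have i4 := V3.iso (p := p) (X' := (X2.zer _ h2).nz _ hu)
    (X := (D.tee I P ε).prod (Tor K {i // I i} fun _ => True))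
    (h := fun _ x => (∏ i, OA2t I x.2 i) ^ s) (a := 1)
    ⟨⟨iso.mf, fun L x _ => (add_zero _).trans (congrArg (D.ph L x.1 + ·)
        (hτ L _ _ fun i hi => by rw [OA2t, dif_neg hi, inv_one]))⟩,
      fun _ _ R _ _ _ _ e => Rel.pow (Rel.prod _ fun i _ => OA2t_rel I R e.2 i) s,
      fun _ _ m => pow_ne_zero _ (Finset.prod_ne_zero_iff.2 fun i _ => hn m i), one_ne_zero,
      fun L x m => by
        have := OA2_w D L (x.1.1 * diagonal fun i => (OA2t I x.2 i)⁻¹, x.1.2) (OA2t I x.2)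
        rw [(hd _ (hn m)).1, OA2_prod _ (hn m), hs] at this
        refine this.trans ?_
        change _ = algebraMap K L 1 * (D.w L _ * 1 * ((∏ i, OA2t I x.2 i) ^ s) ^ 2)
        rw [map_one]
        ring⟩ iso
  exact ⟨Imp.trans (V3.pt _).1 (Imp.trans (V3.prodL _ (V3.tor _ _).1) (Imp.trans i4.2
      (Imp.trans i3 (Imp.trans (V3.lin X2 _ h2).1 (Imp.trans i2.2
      (Imp.trans (V3.lin X0 _ h0).2 i1.1)))))),
    Imp.trans i1.2 (Imp.trans (V3.lin X0 _ h0).1 (Imp.trans i2.1 (Imp.trans (V3.lin X2 _ h2).2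
      (Imp.trans (V3.opn _ _ _) (Imp.trans i4.1 (Imp.trans (V3.prodL _ (V3.tor _ _).2)
      (V3.pt _).2))))))⟩

theorem OA2_thm (_h2 : (2 : K) ≠ 0) : OA2 K p where
  imp D I P ε ha hP := by
    classical
    exact OA2_imp I D P ε ha hP

end Pool.Agent.Lib.MP_557161_ag.HG.TW
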