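import Pool.Agent.Lib.MP_557161_ag.TW.StO

/-!
The torus step: the diagonal torus moves the first linear form to the sum of the coordinates.
-/

namespace Pool.Agent.Lib.MP_557161_ag.HG.TW

open Pool.Agent.Lib.MP_557161_ag.DL Matrix

variable {K : Type} [Field K] {p : ℕ}

namespace OB2a

section Gen

variable {c : Cd} (X : WD K c) {κ : Type} [Fintype κ] (u : ∀ L : Fld K, c.X L → κ → L)
  (hu : Reg X.S (.vec κ) u)

/-- The coordinates of `u` in `s` do not vanish. -/
def op (s : Finset κ) : WD K c :=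
  X.opn (fun L x => ∀ l ∈ s, u L x l ≠ 0)
    fun _ _ R _ _ m m' e h l hl => Rel.ne_zero (hu R m m' e l) (h l hl)

/-- One coordinate of `u` vanishes. -/
def zl (l : κ) : WD K c :=
  X.cl (fun L x => u L x l = 0) fun _ _ R _ _ m m' e h => Rel.eq_zero (hu R m m' e l) h

lemma strat_all [V3 K p] (h : ∀ l, Dead p (zl X u hu l)) (s : Finset κ) :
    Imp p (op X u hu s) X := by
  classical
  induction s using Finset.induction_on with
  | empty =>
    intro cc d
    exact V3.sub X (op X u hu ∅) ⟨⟨⟨Reg.id _, fun _ _ m => m.1⟩, fun _ _ _ => rfl⟩,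
      fun _ _ _ => rfl⟩ fun _ _ m _ => ⟨m, fun _ hl => absurd hl (Finset.notMem_empty _)⟩
  | insert l s _ ih =>
    intro cc d
    have hq : ∀ ⦃M L : Fld K⦄ (R : Rel M L) ⦃x : c.X M⦄ ⦃x' : c.X L⦄, (op X u hu s).S.mem M x →
        (op X u hu s).S.mem L x' → c.lift R.r x x' → u M x l = 0 → u L x' l = 0 :=
      fun _ _ R _ _ m m' e h => Rel.eq_zero (hu R m.1 m'.1 e l) h
    refine Imp.trans (V3.strat (X := op X u hu s) (fun L x => u L x l = 0) hq ?_ ?_) ih
    · intro cc d C W _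
      exact V3.sub ((op X u hu s).cl _ hq) ((zl X u hu l).opn (fun L x => ∀ l ∈ s, u L x l ≠ 0)
        fun _ _ R _ _ m m' e h l hl => Rel.ne_zero (hu R m.1 m'.1 e l) (h l hl))
        ⟨⟨⟨Reg.id _, fun _ _ m => ⟨⟨m.1.1, m.2⟩, m.1.2⟩⟩, fun _ _ _ => rfl⟩, fun _ _ _ => rfl⟩
        (fun _ _ m _ => ⟨⟨m.1.1, m.2⟩, m.1.2⟩) C W (V3.opn _ _ _ C W (h l C W))
    · intro cc d
      exact V3.sub ((op X u hu s).cpl _ hq) (op X u hu (insert l s))
        ⟨⟨⟨Reg.id _, fun _ _ m => ⟨⟨m.1, fun k hk => m.2 k (Finset.mem_insert_of_mem hk)⟩,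
          m.2 l (Finset.mem_insert_self _ _)⟩⟩, fun _ _ _ => rfl⟩, fun _ _ _ => rfl⟩
        fun _ _ m _ => ⟨m.1.1, fun k hk => (Finset.mem_insert.1 hk).elim (fun e => e ▸ m.2)
          (m.1.2 k)⟩

end Gen

variable {ρ σ σ' : Type} [Fintype ρ] [DecidableEq ρ] [Fintype σ] [DecidableEq σ] [Fintype σ']
  [DecidableEq σ']

section Alg

variable {L : Type} [Field L]

/-- The torus acting on the second factor. -/
def dg (σ : Type) [DecidableEq σ] (u : ρ → L) : Matrix (σ × ρ) (σ × ρ) L := diagonal fun x => u x.2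

/-- The rescaling of the columns. -/
def ta (u : ρ → L) : Option ρ → L := fun i => i.elim 1 fun l => (u l)⁻¹

/-- The action of the torus. -/
def act (u : ρ → L) (z : (oc ρ (σ × ρ) (σ' × ρ)).X L) : (oc ρ (σ × ρ) (σ' × ρ)).X L :=
  (dg σ u * z.1 * diagonal (ta u), dg σ u * z.2.1 * dg σ' u⁻¹, dg σ u * z.2.2 * dg σ' u⁻¹)

lemma act_act {u v : ρ → L} (h : ∀ l, v l * u l = 1) (z : (oc ρ (σ × ρ) (σ' × ρ)).X L) :
    act v (act u z) = z := by
  have h1 : ∀ l, (u l)⁻¹ * (v l)⁻¹ = 1 := fun l => by rw [← mul_inv, mul_comm, h, inv_one]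
  have h2 : ∀ i, ta u i * ta v i = 1 := fun i => by
    cases i
    exacts [one_mul _, h1 _]
  have h3 : ∀ (H : Matrix (σ × ρ) (σ' × ρ) L),
      dg σ v * (dg σ u * H * dg σ' u⁻¹) * dg σ' v⁻¹ = H := fun H => by
    ext x y
    simp only [dg, diagonal_mul, mul_diagonal, Pi.inv_apply]
    linear_combination (H x y * ((u y.2)⁻¹ * (v y.2)⁻¹)) * h x.2 + H x y * h1 y.2
  refine Prod.ext ?_ (Prod.ext (h3 _) (h3 _))
  ext x i
  simp only [act, dg, diagonal_mul, mul_diagonal]
  linear_combination (z.1 x i * (ta u i * ta v i)) * h x.2 + z.1 x i * h2 i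

lemma act_one {u : ρ → L} (h : ∀ l, u l = 1) (z : (oc ρ (σ × ρ) (σ' × ρ)).X L) : act u z = z := by
  have h2 : ∀ i, ta u i = 1 := fun i => by
    cases i
    exacts [rfl, by simp [ta, h]]
  refine Prod.ext ?_ (Prod.ext ?_ ?_) <;> ext x y <;> simp [act, dg, h, h2]

omit [DecidableEq σ'] in
lemma det_dg (u : ρ → L) : (dg σ u).det = (∏ l, u l) ^ Fintype.card σ := by
  rw [dg, det_diagonal, Fintype.prod_prod_type]
  simp only [Finset.prod_const, Finset.card_univ]

lemma wt_act [DA] (e : Option (σ × ρ) ≃ Option ρ ⊕ σ' × ρ) (a : Option ρ → L)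
    (hc : Fintype.card σ = Fintype.card σ' + 1) {u : ρ → L} (h : ∀ l, u l ≠ 0)
    (z : (oc ρ (σ × ρ) (σ' × ρ)).X L) :
    ∏ i, wt e a (act u z).1 (act u z).2.1 (act u z).2.2 i =
      (∏ l, u l) * ∏ i, wt e a z.1 z.2.1 z.2.2 i := by
  have h0 : ∏ l, u l ≠ 0 := Finset.prod_ne_zero_iff.2 fun l _ => h l
  have h1 : (dg σ u).det * (dg σ' u⁻¹).det = ∏ l, u l := by
    rw [det_dg, det_dg, hc]
    simp only [Pi.inv_apply, Finset.prod_inv_distrib]
    rw [pow_succ', mul_assoc, ← mul_pow, mul_inv_cancel₀ h0, one_pow, mul_one]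
  have h2 : ∏ i, ta u i = (∏ l, u l)⁻¹ := by
    rw [Fintype.prod_option]
    simp [ta]
  have h3 : ∀ i, (∏ l, u l) * ∏ l ∈ Finset.univ.erase i, ta u l = (ta u i)⁻¹ := fun i => by
    have h4 := Finset.mul_prod_erase Finset.univ (ta u) (Finset.mem_univ i)
    rw [h2] at h4
    refine eq_inv_of_mul_eq_one_right ?_
    rw [mul_left_comm, h4, mul_inv_cancel₀ h0]
  simp only [act, DA.wt_mul, h1, h3]
  rw [Finset.prod_mul_distrib, Finset.prod_inv_distrib, h2, inv_inv]

end Alg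

variable (t : TM K σ σ') (a : Option ρ → K) (e : Option (σ × ρ) ≃ Option ρ ⊕ σ' × ρ)

lemma act_rel {M L : Fld K} (R : Rel M L) {u : ρ → M} {u' : ρ → L} (hu : ∀ l, R.r (u l) (u' l))
    (h0 : ∀ l, u' l ≠ 0) {z : (oc ρ (σ × ρ) (σ' × ρ)).X M} {z' : (oc ρ (σ × ρ) (σ' × ρ)).X L}
    (h : (oc ρ (σ × ρ) (σ' × ρ)).lift R.r z z') :
    (oc ρ (σ × ρ) (σ' × ρ)).lift R.r (act u z) (act u' z') := by
  have h1 : R.m' (dg σ u) (dg σ u') := Rel.mdiag fun x => hu x.2
  have h2 : R.m' (dg σ' u⁻¹) (dg σ' u'⁻¹) := Rel.mdiag fun x => R.inv (hu x.2) (h0 x.2)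
  have h3 : ∀ i, R.r (ta u i) (ta u' i) := fun i => by
    cases i
    exacts [R.one, R.inv (hu _) (h0 _)]
  exact ⟨Rel.mmul (Rel.mmul h1 h.1) (Rel.mdiag h3), Rel.mmul (Rel.mmul h1 h.2.1) h2,
    Rel.mmul (Rel.mmul h1 h.2.2) h2⟩

lemma ph_act {L : Fld K} {u : ρ → L} (h : ∀ l, u l ≠ 0) (z : (oc ρ (σ × ρ) (σ' × ρ)).X L) :
    (t.od a e).ph L (act u z) = (t.od a e).ph L z := by
  have h1 : ∀ (j : Matrix σ' σ K) (H : Matrix (σ × ρ) (σ' × ρ) L),
      (dg σ u * H * dg σ' u⁻¹ * cm L (kroneckerMap (· * ·) j (1 : Matrix ρ ρ K))).trace =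
        (H * cm L (kroneckerMap (· * ·) j (1 : Matrix ρ ρ K))).trace := fun j H => by
    have : dg σ' u⁻¹ * cm L (kroneckerMap (· * ·) j (1 : Matrix ρ ρ K)) * dg σ u =
        cm L (kroneckerMap (· * ·) j (1 : Matrix ρ ρ K)) := by
      ext x y
      simp only [dg, diagonal_mul, mul_diagonal, Pi.inv_apply, cm, map_apply, kroneckerMap_apply,
        one_apply]
      split_ifs with q
      · rw [q, mul_comm, ← mul_assoc, mul_inv_cancel₀ (h _), one_mul]
      · simp
    rw [Matrix.mul_assoc, Matrix.mul_assoc, trace_mul_comm, Matrix.mul_assoc, this]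
  simp only [OD.ph, trace_sub]
  exact congrArg₂ _ (h1 _ _) (h1 _ _)

lemma tr_act {L : Fld K} {u : ρ → L} {P Q : Matrix (Option ρ) ρ L}
    (h : ∀ i l, ta u i * P i l * u l = Q i l) (z : (oc ρ (σ × ρ) (σ' × ρ)).X L) :
    (P * cm L (t.od a e).π * (act u z).1).trace = (Q * cm L (t.od a e).π * z.1).trace := by
  have h1 : cm L (t.od a e).π * dg σ u = diagonal u * cm L (t.od a e).π := by
    ext l x
    simp only [dg, diagonal_mul, mul_diagonal, cm, map_apply, TM.od, of_apply]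
    split_ifs with q
    · rw [q, mul_comm]
    · simp
  have h2 : diagonal (ta u) * P * diagonal u = Q := by
    ext i l
    simp only [diagonal_mul, mul_diagonal, h]
  rw [← h2]
  simp only [act, ← Matrix.mul_assoc]
  rw [trace_mul_comm, Matrix.mul_assoc P, h1]
  simp only [← Matrix.mul_assoc]

variable (c : ρ → K)

/-- The space with a free first linear form. -/
noncomputable abbrev XX := (t.od a e).nat (· = none) (rc 0 1) (ccn c 0)

lemma mem_iff {L : Fld K} (z : ((Cd.mat (Option ρ) ρ).prod (oc ρ (σ × ρ) (σ' × ρ))).X L) :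
    (XX t a e c).S.mem L z ↔
      cv L c ⬝ᵥ z.1 none = 0 ∧ ∀ i l, z.1 (some i) l = if i = l then 1 else 0 := by
  have h1 : (z.1 * cm L (ccn c (0 : Matrix ρ ρ K))) none none = cv L c ⬝ᵥ z.1 none :=
    Finset.sum_congr rfl fun l _ => mul_comm _ _
  have h2 : ∀ i l, cm L (rc 0 (1 : Matrix ρ ρ K)) (some i) l = if i = l then 1 else 0 :=
    fun i l => by
      change algebraMap K L ((1 : Matrix ρ ρ K) i l) = _
      rw [one_apply]
      split_ifs
      exacts [map_one _, map_zero _]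
  constructor
  · rintro ⟨-, h⟩
    exact ⟨h1 ▸ (h none).1 rfl, fun i l => h2 i l ▸ (h (some i)).2 (by simp) l⟩
  · rintro ⟨h, h'⟩
    refine ⟨trivial, fun i => ?_⟩
    cases i with
    | none => exact ⟨fun _ => h1.trans h, fun q => absurd rfl q⟩
    | some i => exact ⟨fun q => by simp at q, fun _ l => (h' i l).trans (h2 i l).symm⟩

lemma reg_u : Reg (XX t a e c).S (.vec ρ) fun _ z => z.1 none := fun _ _ _ _ _ _ _ e => e.1 none

lemma dead [DA] [V3 K p] (hc : Fintype.card σ = Fintype.card σ' + 1) (l : ρ) :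
    Dead p (zl (XX t a e c) _ (reg_u t a e c) l) := by
  have h0 : ∀ {L : Fld K} {s : L}, s ≠ 0 → ∀ k, Function.update (1 : ρ → L) l s k ≠ 0 :=
    fun hs k => by
      rw [Function.update_apply]
      split_ifs
      exacts [hs, one_ne_zero]
  intro cc d
  refine V3.gm (X := zl (XX t a e c) _ (reg_u t a e c) l)
    (γ := fun L x => (x.2.1, act (Function.update 1 l x.1) x.2.2)) (k := 1)
    ⟨⟨fun M L R x x' _ m' h => ⟨h.2.1, act_rel R (fun k => ?_) (h0 m'.1) h.2.2⟩,
      fun L x m => m.2⟩, fun L x _ => ?_, fun L s x hs _ => ?_, fun L s x hs m => ?_,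
      fun L s x hs _ => ?_, odd_one⟩
  · rw [Function.update_apply, Function.update_apply]
    exact Rel.ite _ h.1 R.one
  · exact Prod.ext rfl (act_one (fun k => by simp [Function.update_apply]) _)
  · refine Prod.ext rfl (act_act (fun k => ?_) _)
    rw [Function.update_apply, Function.update_apply]
    split_ifs
    exacts [inv_mul_cancel₀ hs, one_mul _]
  · refine congrArg₂ _ (ph_act t a e (h0 hs) _) (tr_act t a e (fun i k => ?_) _)
    cases i with
    | none =>
      have : x.1 none l = 0 := m.2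
      rw [Function.update_apply]
      split_ifs with q
      · rw [q, this, mul_zero, zero_mul]
      · exact (mul_one _).trans (one_mul _)
    | some i =>
      rw [((mem_iff t a e c x).1 m.1).2]
      split_ifs with q
      · rw [q, mul_one]
        exact inv_mul_cancel₀ (h0 hs k)
      · rw [mul_zero, zero_mul]
  · refine (wt_act e _ hc (h0 hs) x.2).trans (congrArg₂ _ ?_ rfl)
    rw [Finset.prod_update_of_mem (Finset.mem_univ l), zpow_one]
    simp

end OB2a

open OB2a in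
theorem OB2_thm [DA] [V3 K p] : OB2 K p where
  imp {ρ σ σ'} _ _ _ _ _ _ t a e c _ hc := by
    intro cc d
    refine Imp.trans ?_ (strat_all (XX t a e c) _ (reg_u t a e c) (dead t a e c hc) Finset.univ)
    intro cc d
    have hm : ∀ {L : Fld K} {x}, (op (XX t a e c) _ (reg_u t a e c) Finset.univ).S.mem L x →
        ∀ l, x.1 none l ≠ 0 := fun m l => m.2 l (Finset.mem_univ l)
    have hf : Reg (op (XX t a e c) _ (reg_u t a e c) Finset.univ).S
        ((Cd.vec ρ).prod (oc ρ (σ × ρ) (σ' × ρ))) fun _ x => (x.1 none, act (x.1 none) x.2) :=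
      fun M L R x x' _ m' h => ⟨h.1 none, act_rel R (h.1 none) (hm m') h.2⟩
    have hj : ∀ L x, (op (XX t a e c) _ (reg_u t a e c) Finset.univ).S.mem L x →
        ((Jac c).prod (t.od a e).L0).S.mem L (x.1 none, act (x.1 none) x.2) := fun L x m =>
      ⟨⟨trivial, ((mem_iff t a e c x).1 m.1).1⟩, trivial, fun _ q => q.elim⟩
    refine V3.emb (X := (Jac c).prod (t.od a e).L0)
      (X' := op (XX t a e c) _ (reg_u t a e c) Finset.univ)
      (f := fun _ x => (x.1 none, act (x.1 none) x.2))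
      (f' := fun _ y => (rc y.1 1, act y.1⁻¹ y.2)) (h := fun _ x => (∏ l, x.1 none l)⁻¹) (a := 1)
      (((Jac c).prod (t.od a e).L0).S.opn (fun _ y => ∀ l, y.1 l ≠ 0)
        fun _ _ _ _ _ _ _ h q l => Rel.ne_zero (h.1 l) (q l))
      ⟨⟨⟨hf, hj⟩, fun L x m => ?_⟩, fun M L R x x' _ m' h => ?_, fun L x m => ?_, one_ne_zero,
        fun L x m => ?_⟩
      ⟨⟨hf, fun L x m => ⟨hj L x m, hm m⟩⟩, ⟨fun M L R y y' _ m' h => ?_, fun L y m => ?_⟩,
        fun L x m => ?_, fun L y m => ?_⟩ fun M O y y' m m' h => ?_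
    · refine (zero_add _).trans
        (congrArg₂ _ (ph_act t a e (hm m) _) (tr_act t a e (fun i k => ?_) _))
      cases i with
      | none =>
        change 1 * algebraMap K L 1 * _ = _
        rw [map_one, one_mul, one_mul]
      | some i =>
        rw [((mem_iff t a e c x).1 m.1).2]
        change (x.1 none i)⁻¹ * algebraMap K L ((1 : Matrix ρ ρ K) i k) * _ = _
        rw [one_apply]
        split_ifs with q
        · rw [q, map_one, mul_one]
          exact inv_mul_cancel₀ (hm m k)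
        · rw [map_zero, mul_zero, zero_mul]
    · exact R.inv (Rel.prod _ fun l _ => h.1 none l)
        (Finset.prod_ne_zero_iff.2 fun l _ => hm m' l)
    · exact inv_ne_zero (Finset.prod_ne_zero_iff.2 fun l _ => hm m l)
    · have h0 : ∏ l, x.1 none l ≠ 0 := Finset.prod_ne_zero_iff.2 fun l _ => hm m l
      have h1 : (t.od a e).w L (act (x.1 none) x.2) = (∏ l, x.1 none l) * (t.od a e).w L x.2 :=
        wt_act e _ hc (hm m) x.2
      change (t.od a e).w L x.2 = algebraMap K L 1 *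
        ((∏ l, x.1 none l) * (t.od a e).w L (act (x.1 none) x.2) * (∏ l, x.1 none l)⁻¹ ^ 2)
      rw [h1, map_one]
      field_simp
    · exact ⟨Rel.mrc h.1 Rel.mone, act_rel R (fun l => R.inv (h.1 l) (m'.2 l))
        (fun l => inv_ne_zero (m'.2 l)) h.2⟩
    · exact ⟨(mem_iff t a e c _).2 ⟨m.1.1.2, fun i l => one_apply⟩, fun l _ => m.2 l⟩
    · refine Prod.ext ?_ (act_act (fun l => inv_mul_cancel₀ (hm m l)) _)
      ext i l
      cases i with
      | none => rfl
      | some i => exact one_apply.trans (((mem_iff t a e c x).1 m.1).2 i l).symm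
    · exact Prod.ext rfl (act_act (fun l => mul_inv_cancel₀ (m.2 l)) _)
    · exact ⟨m, fun l => Rel.ne_zero (h.1 l) (m'.2 l)⟩

end Pool.Agent.Lib.MP_557161_ag.HG.TW
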