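import Pool.Agent.Lib.MP_557161_ag.TW.StO

/-!
The step with the general linear group.
-/

namespace Pool.Agent.Lib.MP_557161_ag.HG.TW

open Pool.Agent.Lib.MP_557161_ag.DL Matrix

namespace OB3

variable {K : Type} [Field K] {ρ σ σ' : Type} [Fintype ρ] [DecidableEq ρ] [Fintype σ]
  [DecidableEq σ] [Fintype σ'] [DecidableEq σ']

section
variable {L : Type} [Field L]

/-- The block diagonal matrix. -/
def kr (σ : Type) [DecidableEq σ] (γ : Matrix ρ ρ L) : Matrix (σ × ρ) (σ × ρ) L :=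
  kroneckerMap (· * ·) (1 : Matrix σ σ L) γ

/-- A vector with first entry `1`. -/
def ex (τ : ρ → L) : Option ρ → L := fun i => i.elim 1 τ

/-- The change of bases. -/
def act (γ δ : Matrix ρ ρ L) (τ : ρ → L) (z : (oc ρ (σ × ρ) (σ' × ρ)).X L) :
    (oc ρ (σ × ρ) (σ' × ρ)).X L :=
  (kr σ δ * z.1 * diagonal (ex τ), kr σ δ * z.2.1 * kr σ' γ, kr σ δ * z.2.2 * kr σ' γ)

/-- The linear forms. -/
def ps (γ : Matrix ρ ρ L) (τ : ρ → L) : Matrix (Option ρ) ρ L :=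
  rc ((fun _ => 1) ᵥ* γ) (diagonal τ * γ)

/-- The lower block. -/
def lo (P : Matrix (Option ρ) ρ L) : Matrix ρ ρ L := P.submatrix some id

/-- The coordinates of the first row. -/
noncomputable def nv (P : Matrix (Option ρ) ρ L) : ρ → L := P none ᵥ* (lo P)⁻¹

/-- The rescaled lower block. -/
noncomputable def ga (P : Matrix (Option ρ) ρ L) : Matrix ρ ρ L := diagonal (nv P) * lo P

omit [DecidableEq ρ] in
lemma kr_mul (γ δ : Matrix ρ ρ L) : kr σ γ * kr σ δ = kr σ (γ * δ) := by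
  rw [kr, kr, kr, ← mul_kronecker_mul, one_mul]

omit [Fintype ρ] [Fintype σ] in
lemma kr_one : kr σ (1 : Matrix ρ ρ L) = 1 := one_kronecker_one

lemma kr_det (γ : Matrix ρ ρ L) : (kr σ γ).det = γ.det ^ Fintype.card σ := by
  rw [kr, det_kronecker, det_one, one_pow, one_mul]

lemma ex_mul {τ τ' : ρ → L} (h : ∀ l, τ l * τ' l = 1) :
    diagonal (ex τ) * diagonal (ex τ') = 1 := by
  rw [diagonal_mul_diagonal, ← diagonal_one]
  congr 1
  funext i
  cases i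
  exacts [one_mul _, h _]

lemma act_act {γ δ : Matrix ρ ρ L} {τ τ' : ρ → L} (h : γ * δ = 1) (h' : ∀ l, τ l * τ' l = 1)
    (z : (oc ρ (σ × ρ) (σ' × ρ)).X L) : act δ γ τ' (act γ δ τ z) = z := by
  have a : ∀ {n : Type} (A : Matrix (σ × ρ) n L), kr σ γ * (kr σ δ * A) = A := fun A => by
    rw [← Matrix.mul_assoc, kr_mul, h, kr_one, Matrix.one_mul]
  simp only [act, Matrix.mul_assoc, a, kr_mul, h, kr_one, ex_mul h', Matrix.mul_one]

lemma ps_eq (γ : Matrix ρ ρ L) (τ : ρ → L) :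
    ps γ τ = diagonal (ex τ) * rc (fun _ => 1) (1 : Matrix ρ ρ L) * γ := by
  rw [Matrix.mul_assoc]
  ext (_ | i) j
  · rw [diagonal_mul]
    exact (one_mul _).symm
  · rw [diagonal_mul]
    exact (diagonal_mul _ _ _ _).trans (congrArg _ (congrFun (congrFun (Matrix.one_mul γ) i) j).symm)

lemma lo_det (γ : Matrix ρ ρ L) (τ : ρ → L) : (lo (ps γ τ)).det = (∏ l, τ l) * γ.det :=
  (det_mul (diagonal τ) γ).trans (by rw [det_diagonal])

lemma nv_ps {γ : Matrix ρ ρ L} {τ : ρ → L} (h : γ.det ≠ 0) (h' : ∀ l, τ l ≠ 0) :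
    nv (ps γ τ) = fun l => (τ l)⁻¹ := by
  have u : IsUnit (lo (ps γ τ)).det :=
    (lo_det γ τ ▸ mul_ne_zero (Finset.prod_ne_zero_iff.2 fun l _ => h' l) h).isUnit
  have : ps γ τ none = (fun l => (τ l)⁻¹) ᵥ* lo (ps γ τ) := by
    change (fun _ => 1) ᵥ* γ = _ ᵥ* (diagonal τ * γ)
    rw [← vecMul_vecMul]
    congr 1
    funext l
    rw [vecMul_diagonal, inv_mul_cancel₀ (h' l)]
  rw [nv, this, vecMul_vecMul, mul_nonsing_inv _ u, vecMul_one]

lemma ga_ps {γ : Matrix ρ ρ L} {τ : ρ → L} (h : γ.det ≠ 0) (h' : ∀ l, τ l ≠ 0) :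
    ga (ps γ τ) = γ := by
  rw [ga, nv_ps h h']
  change _ * (diagonal τ * γ) = γ
  rw [← Matrix.mul_assoc, diagonal_mul_diagonal]
  simp [h']

lemma one_ga {P : Matrix (Option ρ) ρ L} (h : (lo P).det ≠ 0) : (fun _ => 1) ᵥ* ga P = P none := by
  have : (fun _ => 1) ᵥ* diagonal (nv P) = nv P := funext fun l => by
    rw [vecMul_diagonal, one_mul]
  rw [ga, ← vecMul_vecMul, this, nv, vecMul_vecMul, nonsing_inv_mul _ h.isUnit, vecMul_one]

lemma ps_ga {P : Matrix (Option ρ) ρ L} (h : (lo P).det ≠ 0) (h' : ∀ l, nv P l ≠ 0) :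
    ps (ga P) (fun l => (nv P l)⁻¹) = P := by
  ext (_ | i) j
  · exact congrFun (one_ga h) j
  · change (diagonal (fun l => (nv P l)⁻¹) * (diagonal (nv P) * lo P) : Matrix ρ ρ L) i j =
      lo P i j
    rw [diagonal_mul, diagonal_mul, inv_mul_cancel_left₀ (h' i)]

lemma ga_det {P : Matrix (Option ρ) ρ L} (h : (lo P).det ≠ 0) (h' : ∀ l, nv P l ≠ 0) :
    (ga P).det ≠ 0 := by
  rw [ga, det_mul, det_diagonal]
  exact mul_ne_zero (Finset.prod_ne_zero_iff.2 fun l _ => h' l) h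

lemma frm_iff {P : Matrix (Option ρ) ρ L} :
    (∀ i, (P * frm L ρ) i i = 0) ↔ ∑ l, P none l = 0 ∧ ∀ l, P (some l) l = 0 := by
  rw [Option.forall]
  refine and_congr ?_ (forall_congr' fun l => ?_)
  · simp [mul_apply, frm, ccn]
  · simp [mul_apply, frm, ccn, one_apply]

lemma prod_ex (τ : ρ → L) :
    ∏ i, ∏ l ∈ Finset.univ.erase i, ex τ l = (∏ l, τ l) ^ Fintype.card ρ := by
  rw [Finset.prod_comm' (t' := Finset.univ) (s' := fun l => Finset.univ.erase l)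
    (by simp [eq_comm])]
  simp [Finset.prod_pow, ex]

end

section
variable (L : Fld K) (t : TM K σ σ') (a : Option ρ → K) (e : Option (σ × ρ) ≃ Option ρ ⊕ σ' × ρ)

omit [Fintype ρ] in
lemma cm_frm : cm L (frm K ρ) = frm L ρ := by
  ext i (_ | j) <;> simp [cm, frm, ccn, one_apply, apply_ite]

omit [Fintype ρ] in
lemma cm_rc : cm L (rc (fun _ => 1) (1 : Matrix ρ ρ K)) = rc (fun _ => 1) 1 := by
  ext (_ | i) j <;> simp [cm, rc, one_apply, apply_ite]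

lemma kr_cm (j : Matrix σ' σ K) (γ : Matrix ρ ρ L) :
    kr σ' γ * cm L (kroneckerMap (· * ·) j (1 : Matrix ρ ρ K)) =
      cm L (kroneckerMap (· * ·) j (1 : Matrix ρ ρ K)) * kr σ γ := by
  have : cm L (kroneckerMap (· * ·) j (1 : Matrix ρ ρ K)) =
      kroneckerMap (· * ·) (cm L j) (1 : Matrix ρ ρ L) := by
    ext x y
    by_cases h : x.2 = y.2 <;> simp [cm, kroneckerMap_apply, one_apply, h]
  rw [this, kr, kr, ← mul_kronecker_mul, ← mul_kronecker_mul]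
  simp

omit [Fintype σ'] [DecidableEq σ'] in
lemma pi_kr (γ : Matrix ρ ρ L) : cm L (t.od a e).π * kr σ γ = γ * cm L (t.od a e).π := by
  ext l ⟨s, l'⟩
  simp [cm, TM.od, kr, mul_apply, Fintype.sum_prod_type, one_apply, apply_ite, mul_comm]

variable {L}

lemma ph_act {γ δ : Matrix ρ ρ L} (h : γ * δ = 1) (τ : ρ → L) (z : (oc ρ (σ × ρ) (σ' × ρ)).X L) :
    (t.od a e).ph L (act γ δ τ z) = (t.od a e).ph L z := by
  have : ∀ (j : Matrix σ' σ K) (H : Matrix (σ × ρ) (σ' × ρ) L),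
      (kr σ δ * H * kr σ' γ * cm L (kroneckerMap (· * ·) j (1 : Matrix ρ ρ K))).trace =
        (H * cm L (kroneckerMap (· * ·) j (1 : Matrix ρ ρ K))).trace := fun j H => by
    rw [Matrix.mul_assoc, kr_cm, Matrix.mul_assoc, trace_mul_comm, Matrix.mul_assoc,
      Matrix.mul_assoc, kr_mul, h, kr_one, Matrix.mul_one]
  simp only [OD.ph, trace_sub]
  exact congrArg₂ _ (this _ _) (this _ _)

lemma ph_ps {γ δ : Matrix ρ ρ L} (h : γ * δ = 1) {τ τ' : ρ → L} (h' : ∀ l, τ' l * τ l = 1)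
    (z : (oc ρ (σ × ρ) (σ' × ρ)).X L) : (ps γ τ * cm L (t.od a e).π * (act γ δ τ' z).1).trace =
      (cm L (rc (fun _ => 1) (1 : Matrix ρ ρ K)) * cm L (t.od a e).π * z.1).trace := by
  rw [act, ← Matrix.mul_assoc, trace_mul_comm, ps_eq, cm_rc, ← Matrix.mul_assoc (_ * cm L _),
    Matrix.mul_assoc _ (cm L _), pi_kr, ← Matrix.mul_assoc _ δ, Matrix.mul_assoc _ γ, h,
    Matrix.mul_one]
  simp only [← Matrix.mul_assoc, ex_mul h', Matrix.one_mul]

lemma w_act [DA] (γ δ : Matrix ρ ρ L) (τ : ρ → L) (z : (oc ρ (σ × ρ) (σ' × ρ)).X L) :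
    (t.od a e).w L (act γ δ τ z) =
      (δ.det ^ Fintype.card σ * γ.det ^ Fintype.card σ') ^ (Fintype.card ρ + 1) *
        (∏ l, τ l) ^ Fintype.card ρ * (t.od a e).w L z := by
  simp only [OD.w, act, DA.wt_mul, Finset.prod_mul_distrib, prod_ex, kr_det, Finset.prod_const,
    Finset.card_univ, Fintype.card_option, mul_pow]

end

section
variable {M L : Fld K} {R : Rel M L} {γ δ : Matrix ρ ρ M} {γ' δ' : Matrix ρ ρ L} {τ : ρ → M}
  {τ' : ρ → L} {P : Matrix (Option ρ) ρ M} {P' : Matrix (Option ρ) ρ L}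

omit [Fintype ρ] [DecidableEq ρ] [Fintype σ] in
lemma kr_rel (h : R.m' γ γ') : R.m' (kr σ γ) (kr σ γ') := fun i j =>
  R.mul (Rel.mdiag (fun _ => R.one) i.1 j.1) (h _ _)

lemma act_rel (h : R.m' γ γ') (h' : R.m' δ δ') (ht : ∀ l, R.r (τ l) (τ' l))
    {z : (oc ρ (σ × ρ) (σ' × ρ)).X M} {z' : (oc ρ (σ × ρ) (σ' × ρ)).X L}
    (e : (oc ρ (σ × ρ) (σ' × ρ)).lift R.r z z') :
    (oc ρ (σ × ρ) (σ' × ρ)).lift R.r (act γ δ τ z) (act γ' δ' τ' z') :=
  ⟨Rel.mmul (Rel.mmul (kr_rel h') e.1) (Rel.mdiag fun i => by cases i; exacts [R.one, ht _]),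
    Rel.mmul (Rel.mmul (kr_rel h') e.2.1) (kr_rel h),
    Rel.mmul (Rel.mmul (kr_rel h') e.2.2) (kr_rel h)⟩

lemma ps_rel (h : R.m' γ γ') (ht : ∀ l, R.r (τ l) (τ' l)) : R.m' (ps γ τ) (ps γ' τ') :=
  Rel.mrc (fun j => Rel.dot (fun _ => R.one) fun i => h i j) (Rel.mmul (Rel.mdiag ht) h)

lemma nv_rel (h : R.m' P P') (h0 : (lo P').det ≠ 0) (l : ρ) : R.r (nv P l) (nv P' l) :=
  Rel.dot (h none) fun i => Rel.minv (Rel.msubm h _ _) h0 i l

lemma ga_rel (h : R.m' P P') (h0 : (lo P').det ≠ 0) : R.m' (ga P) (ga P') :=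
  Rel.mmul (Rel.mdiag (nv_rel h h0)) (Rel.msubm h _ _)

end

end OB3

open OB3 in
theorem OB3_thm {K : Type} [Field K] {p : ℕ} [DA] [V3 K p] : OB3 K p where
  imp {ρ σ σ'} _ _ _ _ _ _ t a e ha hc := by
    obtain ⟨k, hk⟩ := ha.ev
    let X₀ := ((t.od a e).L0.prod (D0 K ρ)).nz (fun _ x => x.2.det)
      fun _ _ _ _ _ _ _ e => Rel.det e.2
    have hq : ∀ ⦃M L : Fld K⦄ (R : Rel M L) ⦃x⦄ ⦃x'⦄, (t.od a e).N.S.mem M x →
        (t.od a e).N.S.mem L x' → Cd.lift _ R.r x x' →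
        ((lo x'.1).det ≠ 0 ∧ ∀ l, nv x'.1 l ≠ 0) → (lo x.1).det ≠ 0 ∧ ∀ l, nv x.1 l ≠ 0 :=
      fun _ _ _ _ _ _ _ e h => ⟨Rel.ne_zero (Rel.det (Rel.msubm e.1 _ _)) h.1,
        fun l => Rel.ne_zero (nv_rel e.1 h.1 l) (h.2 l)⟩
    have iso : Iso (X₀.prod (Tor K ρ fun _ => True)).S ((t.od a e).N.S.opn _ hq)
        (fun _ x => (ps x.1.2 x.2, act x.1.2 x.1.2⁻¹ (fun l => (x.2 l)⁻¹) x.1.1))
        fun _ x => ((act (ga x.1)⁻¹ (ga x.1) (fun l => (nv x.1 l)⁻¹) x.2, ga x.1),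
          fun l => (nv x.1 l)⁻¹) := by
      refine ⟨⟨fun _ _ R _ _ _ m e => ⟨ps_rel e.1.2 e.2, act_rel e.1.2 (Rel.minv e.1.2 m.1.2)
          (fun l => R.inv (e.2 l) (m.2.2 l trivial)) e.1.1⟩, fun L x m => ?_⟩,
        ⟨fun _ _ R _ _ _ m e => ⟨⟨act_rel (Rel.minv (ga_rel e.1 m.2.1) (ga_det m.2.1 m.2.2))
          (ga_rel e.1 m.2.1) (fun l => R.inv (nv_rel e.1 m.2.1 l) (m.2.2 l)) e.2,
          ga_rel e.1 m.2.1⟩, fun l => R.inv (nv_rel e.1 m.2.1 l) (m.2.2 l)⟩, fun L x m => ?_⟩,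
        fun L x m => ?_, fun L x m => ?_⟩
      · have h1 : ∀ l, x.2 l ≠ 0 := fun l => m.2.2 l trivial
        refine ⟨⟨trivial, fun i => ⟨fun _ => ?_, fun h => (h trivial).elim⟩⟩, ?_, fun l => ?_⟩
        · rw [cm_frm]
          refine frm_iff.2 ⟨?_, fun l => ?_⟩ i
          · refine Eq.trans ?_ (Finset.sum_comm.trans m.1.1.2.2.2)
            simp [ps, rc, vecMul, dotProduct]
          · exact (diagonal_mul _ _ _ _).trans (by rw [m.1.1.2.2.1 l, mul_zero])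
        · exact (lo_det _ _).trans_ne
            (mul_ne_zero (Finset.prod_ne_zero_iff.2 fun l _ => h1 l) m.1.2)
        · exact (congrFun (nv_ps m.1.2 h1) l).trans_ne (inv_ne_zero (h1 l))
      · have h1 := frm_iff.1 fun i => cm_frm (ρ := ρ) L ▸ (m.1.2 i).1 trivial
        refine ⟨⟨⟨⟨trivial, fun _ h => h.elim⟩, trivial, fun l => ?_, ?_⟩, ga_det m.2.1 m.2.2⟩,
          trivial, fun l _ => inv_ne_zero (m.2.2 l)⟩
        · exact (diagonal_mul _ _ _ _).trans ((congrArg _ (h1.2 l)).trans (mul_zero _))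
        · refine Finset.sum_comm.trans (Eq.trans ?_ h1.1)
          rw [← one_ga m.2.1]
          simp [vecMul, dotProduct]
      · have h1 : ∀ l, x.2 l ≠ 0 := fun l => m.2.2 l trivial
        simp only [ga_ps m.1.2 h1, nv_ps m.1.2 h1, inv_inv]
        rw [act_act (mul_nonsing_inv _ (IsUnit.mk0 _ m.1.2)) fun l => inv_mul_cancel₀ (h1 l)]
      · simp only [ps_ga m.2.1 m.2.2, inv_inv]
        rw [act_act (nonsing_inv_mul _ (IsUnit.mk0 _ (ga_det m.2.1 m.2.2)))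
          fun l => inv_mul_cancel₀ (m.2.2 l)]
    have i1 : Imp p (t.od a e).N (X₀.prod (Tor K ρ fun _ => True)) := by
      intro cc d
      refine V3.emb (X := (t.od a e).N) (X' := X₀.prod (Tor K ρ fun _ => True))
        (h := fun _ x => x.1.2.det ^ (k + 1) * (∏ l, x.2 l) ^ k) (a := 1) _
        ⟨⟨⟨iso.mf.reg, fun L x m => (iso.mf.mem L x m).1⟩, fun L x m => ?_⟩,
          fun _ _ R _ _ _ _ e => R.mul (Rel.pow (Rel.det e.1.2) _)
            (Rel.pow (Rel.prod _ fun l _ => e.2 l) _),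
          fun _ x m => mul_ne_zero (pow_ne_zero _ m.1.2)
            (pow_ne_zero _ (Finset.prod_ne_zero_iff.2 fun l _ => m.2.2 l trivial)),
          one_ne_zero, fun L x m => ?_⟩ iso
        fun _ O _ _ m m' e => ⟨m, hq _ m m'.1 e m'.2⟩
      · have u := mul_nonsing_inv _ (IsUnit.mk0 _ m.1.2)
        refine Eq.trans ?_ ((add_zero _).trans (add_zero _)).symm
        exact congrArg₂ _ (ph_act t a e u _ _)
          (ph_ps t a e u (fun l => inv_mul_cancel₀ (m.2.2 l trivial)) _)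
      · have h1 : ∏ l, x.2 l ≠ 0 := Finset.prod_ne_zero_iff.2 fun l _ => m.2.2 l trivial
        have h2 : x.1.2.det ≠ 0 := m.1.2
        change (t.od a e).w L x.1.1 * x.1.2.det * 1 = _ * ((t.od a e).w L (act _ _ _ _) * _)
        rw [w_act, det_nonsing_inv, Ring.inverse_eq_inv', Finset.prod_inv_distrib, hc, hk, map_one]
        simp only [mul_pow, inv_pow]
        field_simp
        ring
    intro cc d
    exact Imp.trans i1 (Imp.trans (V3.prodL _ (V3.tor _ _).2) (Imp.trans (V3.pt _).2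
      (V3.nz _ _ _ fun _ x _ h => (congrArg _ h).trans (mul_zero _))))

end Pool.Agent.Lib.MP_557161_ag.HG.TW
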