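import Pool.Agent.Lib.MP_557161_ag.TW.StO

/-!
The sum over matrices with zero diagonal and zero sum is a unit.
-/

namespace Pool.Agent.Lib.MP_557161_ag.HG.TW

open Pool.Agent.Lib.MP_557161_ag.DL Matrix

variable {K : Type} [Field K] {p : ℕ}

/-- Isomorphisms that preserve the phase, and the weight up to a square. -/
lemma ODD_iso [V3 K p] {c c' : Cd} {X : WD K c} {X' : WD K c'} {f : ∀ L : Fld K, c'.X L → c.X L}
    {f' : ∀ L : Fld K, c.X L → c'.X L} (hi : Iso X'.S X.S f f') (h : ∀ L : Fld K, c'.X L → L)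
    (rh : Reg X'.S .one h) (e : ∀ L x, X'.S.mem L x → h L x ≠ 0 ∧ X.φ L (f L x) = X'.φ L x ∧
      X'.g L x = X.g L (f L x) * h L x ^ 2) : Imp p X' X ∧ Imp p X X' :=
  V3.iso (h := h) (a := 1) ⟨⟨hi.mf, fun L x m => (e L x m).2.1⟩, rh, fun L x m => (e L x m).1,
    one_ne_zero, fun L x m => by rw [map_one, one_mul, (e L x m).2.2]⟩ hi

section
variable {ρ : Type} [Fintype ρ] [DecidableEq ρ]

/-- The matrix dual to the conditions. -/
def ODD_La {L : Type} [Field L] (x : Option ρ → L) : Matrix ρ ρ L :=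
  diagonal (fun l => x (some l)) + of fun _ _ => x none

/-- The conditions. -/
def ODD_f {L : Type} [Field L] (γ : Matrix ρ ρ L) (i : Option ρ) : L :=
  i.elim (∑ l, ∑ l', γ l l') fun l => γ l l

lemma ODD_det {L : Type} [Field L] (x : Option ρ → L) (h : ∀ i, x i ≠ 0) :
    (ODD_La x).det = (∏ i, x i) * ∑ i, (x i)⁻¹ := by
  have e : ODD_La x = diagonal (fun l => x (some l)) *
      (1 + replicateCol Unit (fun l => (x (some l))⁻¹) * replicateRow Unit fun _ => x none) := by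
    ext i j
    rw [Matrix.mul_add, Matrix.mul_one, ← Matrix.mul_assoc]
    simp [ODD_La, mul_apply, diagonal_apply, h]
  rw [e, det_mul, det_one_add_replicateCol_mul_replicateRow, det_diagonal, Fintype.prod_option,
    Fintype.sum_option, dotProduct, ← Finset.mul_sum]
  have := h none
  field_simp

lemma ODD_tr {L : Type} [Field L] (x : Option ρ → L) (γ : Matrix ρ ρ L) :
    ∑ i, x i * ODD_f γ i = (γ * ODD_La x).trace := by
  rw [Fintype.sum_option, ODD_La, Matrix.mul_add, trace_add, add_comm]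
  congr 1
  · simp [ODD_f, trace, mul_comm]
  · simp only [ODD_f, trace, diag_apply, mul_apply, of_apply, Option.elim_none, ← Finset.sum_mul]
    exact mul_comm _ _

omit [Fintype ρ] in
lemma ODD_La_rel {M L : Fld K} (R : Rel M L) {x : Option ρ → M} {x' : Option ρ → L}
    (e : ∀ i, R.r (x i) (x' i)) : R.m' (ODD_La x) (ODD_La x') :=
  Rel.madd (Rel.mdiag fun _ => e _) fun _ _ => e _

omit [DecidableEq ρ] in
lemma ODD_si_rel {M L : Fld K} (R : Rel M L) {x : Option ρ → M} {x' : Option ρ → L}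
    (e : ∀ i, R.r (x i) (x' i)) (h : ∀ i, True → x' i ≠ 0) :
    R.r (∑ i, (x i)⁻¹) (∑ i, (x' i)⁻¹) := Rel.sum _ fun i _ => R.inv (e i) (h i trivial)

variable (K ρ)

/-- The space of points `(x, s)` with phase `s ∑ 1 / x i` and weight `s ∏ x i`. -/
def ODD_Y : WD K ((Cd.vec (Option ρ)).prod (.vec Unit)) :=
  mkW ((torS K _ fun _ => True).prod (.univ K _)) (fun _ x => x.2 () * ∑ i, (x.1 i)⁻¹)
    (fun _ x => x.2 () * ∏ i, x.1 i)
    (fun _ _ R _ _ _ m e => R.mul (e.2 ()) (ODD_si_rel R e.1 m.1.2))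
    fun _ _ R _ _ _ _ e => R.mul (e.2 ()) (Rel.prod _ fun i _ => e.1 i)

omit [DecidableEq ρ] in
lemma ODD_hq : ∀ ⦃M L : Fld K⦄ (R : Rel M L) ⦃x x'⦄, (ODD_Y K ρ).S.mem M x →
    (ODD_Y K ρ).S.mem L x' → (Cd.prod _ _).lift R.r x x' → ∑ i, (x.1 i)⁻¹ = 0 →
    ∑ i, (x'.1 i)⁻¹ = 0 := fun _ _ R _ _ _ m e h => Rel.eq_zero (ODD_si_rel R e.1 m.1.2) h

variable [V3 K p]

omit [DecidableEq ρ] in
lemma ODD_1 : Imp p ((ODD_Y K ρ).cpl _ (ODD_hq K ρ)) (ODD_Y K ρ) := by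
  intro cc d
  refine V3.strat _ (ODD_hq K ρ) (Dead.imp ?_ _) (Imp.refl _ _)
  intro cc d
  refine V3.gm (X := (ODD_Y K ρ).cl _ (ODD_hq K ρ)) (γ := fun _ x => (x.2.1, fun _ => x.1 * x.2.2 ()))
    (k := 1) ⟨⟨fun _ _ R _ _ _ _ e => ⟨e.2.1, fun _ => R.mul e.1 (e.2.2 ())⟩,
      fun _ x m => ⟨⟨m.2.1.1, trivial⟩, m.2.2⟩⟩, fun _ x _ => ?_, fun _ t x h _ => ?_,
      fun _ t x _ m => ?_, fun _ t x _ _ => ?_, odd_one⟩
  · exact Prod.ext rfl (funext fun _ => one_mul _)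
  · exact Prod.ext rfl (funext fun _ => inv_mul_cancel_left₀ h _)
  · change t * x.2 () * ∑ i, (x.1 i)⁻¹ = x.2 () * ∑ i, (x.1 i)⁻¹
    rw [show ∑ i, (x.1 i)⁻¹ = 0 from m.2, mul_zero, mul_zero]
  · change t * x.2 () * ∏ i, x.1 i = t ^ (1 : ℤ) * (x.2 () * ∏ i, x.1 i)
    rw [zpow_one, mul_assoc]

omit [DecidableEq ρ] in
lemma ODD_2 (he : Even (Fintype.card ρ)) : Imp p (ODD_Y K ρ) (Gs K (Option ρ)) := by
  obtain ⟨k, hk⟩ := he
  let G := (Gs K (Option ρ)).nz (fun _ x => ∏ i, x i) (Gs K (Option ρ)).rg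
  let U := (ODD_Y K ρ).nz (fun _ x => x.2 ()) fun _ _ _ _ _ _ _ e => e.2 ()
  have hG : ∀ {L : Fld K} {x : Option ρ → L}, G.S.mem L x → ∀ i, x i ≠ 0 := fun m i =>
    Finset.prod_ne_zero_iff.1 m.2 i (Finset.mem_univ _)
  have i1 : Imp p (G.prod (Tor K Unit fun _ => True)) U ∧
      Imp p U (G.prod (Tor K Unit fun _ => True)) :=
    ODD_iso (f := fun _ x => (fun i => x.2 () / x.1 i, x.2))
      (f' := fun _ x => (fun i => x.2 () / x.1 i, x.2))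
      ⟨⟨fun _ _ R _ _ _ m e => ⟨fun i => Rel.div (e.2 ()) (e.1 i) (hG m.1 i), e.2⟩,
          fun _ _ m => ⟨⟨⟨trivial, fun i _ => div_ne_zero (m.2.2 () trivial) (hG m.1 i)⟩, trivial⟩,
            m.2.2 () trivial⟩⟩,
        ⟨fun _ _ R _ _ _ m e => ⟨fun i => Rel.div (e.2 ()) (e.1 i) (m.1.1.2 i trivial), e.2⟩,
          fun _ _ m => ⟨⟨trivial, Finset.prod_ne_zero_iff.2 fun i _ =>
            div_ne_zero m.2 (m.1.1.2 i trivial)⟩, trivial, fun _ _ => m.2⟩⟩,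
        fun _ x m => Prod.ext (funext fun i => div_div_cancel₀ (m.2.2 () trivial)) rfl,
        fun _ x m => Prod.ext (funext fun i => div_div_cancel₀ m.2) rfl⟩
      (fun _ x => (∏ i, x.1 i) / x.2 () ^ (k + 1))
      (fun _ _ R _ _ _ m e => Rel.div (Rel.prod _ fun i _ => e.1 i) (Rel.pow (e.2 ()) _)
        (pow_ne_zero _ (m.2.2 () trivial)))
      fun L x m => by
        have h1 : x.2 () ≠ 0 := m.2.2 () trivial
        have h2 : ∏ i, x.1 i ≠ 0 := m.1.2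
        refine ⟨div_ne_zero h2 (pow_ne_zero _ h1), ?_, ?_⟩
        · change x.2 () * ∑ i, (x.2 () / x.1 i)⁻¹ = ∑ i, x.1 i + 0
          rw [add_zero, Finset.mul_sum]
          exact Finset.sum_congr rfl fun i _ => by rw [inv_div, mul_div_cancel₀ _ h1]
        · change (∏ i, x.1 i) * 1 = x.2 () * (∏ i, x.2 () / x.1 i) * _
          rw [Finset.prod_div_distrib, Finset.prod_const, Finset.card_univ, Fintype.card_option, hk]
          field_simp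
          ring
  intro cc d
  exact Imp.trans (V3.opn _ _ _) (Imp.trans i1.2 (Imp.trans (V3.prodL _ (V3.tor _ _).2)
    (Imp.trans (V3.pt _).2 (V3.nz _ _ _ fun _ _ _ h => h))))

/-- All matrices, with the determinant as weight. -/
noncomputable def ODD_X : WD K (.mat ρ ρ) :=
  mkW (.univ K _) (fun _ _ => 0) (fun _ γ => γ.det) (fun _ _ R _ _ _ _ _ => R.zero)
    fun _ _ _ _ _ _ _ e => Rel.det e

omit [V3 K p] in
lemma ODD_hf : Reg (ODD_X K ρ).S (.vec (Option ρ)) fun _ γ => ODD_f γ := by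
  rintro _ _ R _ _ _ _ e (_ | l)
  exacts [Rel.sum _ fun l _ => Rel.sum _ fun l' _ => e l l', e l l]

lemma ODD_3 : Imp p (D0 K ρ) ((ODD_X K ρ).lin _ (ODD_hf K ρ)) := by
  intro cc d
  refine Imp.trans (V3.sub ((ODD_X K ρ).zer _ (ODD_hf K ρ)) (D0 K ρ)
    ⟨⟨⟨fun _ _ _ _ _ _ _ e => e, fun _ _ m => ⟨trivial, ?_⟩⟩, fun _ _ _ => rfl⟩, fun _ _ _ => rfl⟩
    fun _ _ m _ => ⟨trivial, fun l => m.2 (some l), m.2 none⟩) (V3.lin _ _ (ODD_hf K ρ)).1
  rintro (_ | l)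
  exacts [m.2.2, m.2.1 l]

lemma ODD_4 : Imp p (((ODD_X K ρ).lin _ (ODD_hf K ρ)).prod (Gs K Unit))
    ((GLw K ρ).prod ((ODD_Y K ρ).cpl _ (ODD_hq K ρ))) := by
  let U := (((ODD_X K ρ).lin _ (ODD_hf K ρ)).prod (Gs K Unit)).opn
    (fun _ x => (∀ i, True → x.1.2 i ≠ 0) ∧ ∑ i, (x.1.2 i)⁻¹ ≠ 0)
    fun _ _ R _ _ _ _ e h => ⟨fun i _ => Rel.ne_zero (e.1.2 i) (h.1 i trivial),
      Rel.ne_zero (ODD_si_rel R e.1.2 h.1) h.2⟩
  have hd : ∀ {L : Fld K} {x : Option ρ → L}, (∀ i, True → x i ≠ 0) → ∑ i, (x i)⁻¹ ≠ 0 →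
      (ODD_La x).det ≠ 0 := fun h h' => by
    rw [ODD_det _ fun i => h i trivial]
    exact mul_ne_zero (Finset.prod_ne_zero_iff.2 fun i _ => h i trivial) h'
  have i1 : Imp p ((GLw K ρ).prod ((ODD_Y K ρ).cpl _ (ODD_hq K ρ))) U ∧
      Imp p U ((GLw K ρ).prod ((ODD_Y K ρ).cpl _ (ODD_hq K ρ))) :=
    ODD_iso (f := fun _ x => ((x.1 * (ODD_La x.2.1)⁻¹, x.2.1), fun _ => x.2.2 () * ∑ i, (x.2.1 i)⁻¹))
      (f' := fun _ x => (x.1.1 * ODD_La x.1.2, x.1.2, fun _ => x.2 () / ∑ i, (x.1.2 i)⁻¹))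
      ⟨⟨fun _ _ R _ _ _ m e => ⟨⟨Rel.mmul e.1 (Rel.minv (ODD_La_rel R e.2.1) (hd m.2.1.1.2 m.2.2)),
            e.2.1⟩, fun _ => R.mul (e.2.2 ()) (ODD_si_rel R e.2.1 m.2.1.1.2)⟩,
          fun _ _ m => ⟨⟨⟨trivial, trivial⟩, trivial⟩, m.2.1.1.2, m.2.2⟩⟩,
        ⟨fun _ _ R _ _ _ m e => ⟨Rel.mmul e.1.1 (ODD_La_rel R e.1.2), e.1.2,
            fun _ => Rel.div (e.2 ()) (ODD_si_rel R e.1.2 m.2.1) m.2.2⟩,
          fun _ _ m => ⟨trivial, ⟨⟨trivial, m.2.1⟩, trivial⟩, m.2.2⟩⟩,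
        fun _ x m => Prod.ext (nonsing_inv_mul_cancel_right _ _ (hd m.2.1.1.2 m.2.2).isUnit)
          (Prod.ext rfl (funext fun _ => mul_div_cancel_right₀ _ m.2.2)),
        fun _ x m => Prod.ext (Prod.ext
          (mul_nonsing_inv_cancel_right _ _ (hd m.2.1 m.2.2).isUnit) rfl)
          (funext fun _ => div_mul_cancel₀ _ m.2.2)⟩
      (fun _ x => ∏ i, x.2.1 i) (fun _ _ R _ _ _ _ e => Rel.prod _ fun i _ => e.2.1 i)
      fun L x m => by
        have h1 : ∏ i, x.2.1 i ≠ 0 := Finset.prod_ne_zero_iff.2 fun i _ => m.2.1.1.2 i trivial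
        have h2 : ∑ i, (x.2.1 i)⁻¹ ≠ 0 := m.2.2
        refine ⟨h1, ?_, ?_⟩
        · change 0 + ∑ i, x.2.1 i * ODD_f (x.1 * (ODD_La x.2.1)⁻¹) i +
            ∑ _i : Unit, x.2.2 () * ∑ i, (x.2.1 i)⁻¹ = x.1.trace + x.2.2 () * ∑ i, (x.2.1 i)⁻¹
          rw [ODD_tr, nonsing_inv_mul_cancel_right _ _ (hd m.2.1.1.2 m.2.2).isUnit, zero_add,
            Fintype.sum_unique]
        · change x.1.det * (x.2.2 () * ∏ i, x.2.1 i) = (x.1 * (ODD_La x.2.1)⁻¹).det *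
            (∏ _i : Unit, x.2.2 () * ∑ i, (x.2.1 i)⁻¹) * _
          rw [det_mul, det_nonsing_inv, Ring.inverse_eq_inv', Finset.prod_const,
            Finset.card_univ, Fintype.card_unit, ODD_det _ fun i => m.2.1.1.2 i trivial]
          generalize ∑ i, (x.2.1 i)⁻¹ = s at h2
          field_simp
  intro cc d
  exact Imp.trans (V3.opn _ _ _) i1.2

end

theorem ODD_thm (_h2 : (2 : K) ≠ 0) [V3 K p] [V4 K p] [V5 K p] : ODD K p where
  imp ρ _ _ he := by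
    have a1 : Imp p (Pt K) ((Gs K Unit).prod (Gs K Unit)) :=
      Imp.trans (V4.gg (Unit ⊕ Unit) (by simp)).1 (V4.gsum _ _).1
    have a2 : Imp p (GLw K ρ) (Pt K) :=
      Imp.trans (V5.gl ρ).2 (V4.gg ρ (by rwa [Nat.card_eq_fintype_card])).2
    have a3 : Imp p ((Gs K (Option ρ)).prod (Gs K Unit)) (Pt K) :=
      Imp.trans (V4.gsum _ _).2 (V4.gg _ (by
        rw [Nat.card_eq_fintype_card, Fintype.card_sum, Fintype.card_option, Fintype.card_unit,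
          add_assoc]
        exact he.add even_two)).2
    have a4 : Imp p (((ODD_X K ρ).lin _ (ODD_hf K ρ)).prod (Gs K Unit)) (Gs K (Option ρ)) :=
      Imp.trans (ODD_4 K ρ) (Imp.trans (V3.prodR _ a2) (Imp.trans (V3.comm _ _)
        (Imp.trans (V3.pt _).2 (Imp.trans (ODD_1 K ρ) (ODD_2 K ρ he)))))
    intro cc d
    exact Imp.trans (ODD_3 K ρ) (Imp.trans (V3.pt _).1 (Imp.trans (V3.prodL _ a1)
      (Imp.trans (V3.assoc _ _ _).2 (Imp.trans (V3.prodR _ a4) a3))))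

end Pool.Agent.Lib.MP_557161_ag.HG.TW
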