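import Pool.Agent.Lib.MP_557161_ag.TW.StO

/-!
The evaluation of the node model: induction on the size of the moment model.
-/

namespace Pool.Agent.Lib.MP_557161_ag.HG.TW

open Pool.Agent.Lib.MP_557161_ag.DL Matrix

variable {K : Type} [Field K] {p : ℕ}

lemma OI_TN [OA1 K p] [OA2 K p] {ρ ι ι' : Type} [Fintype ρ] [DecidableEq ρ] [Fintype ι]
    [DecidableEq ι] [Fintype ι'] [DecidableEq ι'] (D : OD K ρ ι ι') (ε : Matrix ι (Option ρ) K)
    (h : AH D.a) (k : D.Ker (fun _ => True) ε (frm K ρ)) : Imp p (D.T ε) D.N :=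
  Imp.trans (OA2.imp D _ 0 ε h fun _ _ _ => rfl).1 (OA1.imp D _ 0 ε _ k).1

lemma OI_mom [V3 K p] [OJ K p] [ODD K p] [OA1 K p] [OA2 K p] [OKR K] [OR0 K p] [OR1 K p]
    [OR2 K p] [OB2 K p] [OB3 K p] [OT0 K p] {ρ : Type} [Fintype ρ] [DecidableEq ρ]
    (a : Option ρ → K) (h : AH a) (k : ℕ) :
    ∀ e, Imp p (Pt K) (((mom K k).od a e).T (momε a k)) := by
  induction k with
  | zero => exact fun e => OT0.imp a e h
  | succ k ih =>
    intro e''
    have e : Option (Fin (k + 1) × ρ) ≃ Option ρ ⊕ Fin k × ρ :=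
      Fintype.equivOfCardEq (by simp; ring)
    have e1 : Fin (k + 1) × ρ ≃ ρ ⊕ Fin k × ρ := Fintype.equivOfCardEq (by simp; ring)
    have e' : Option (ρ ⊕ Fin (k + 1) × ρ) ≃ Option ρ ⊕ (ρ ⊕ Fin k × ρ) :=
      Fintype.equivOfCardEq (by simp; ring)
    have hc : ∀ l, a (some l) ≠ 0 := fun l z => by simpa using h.ai (z.trans h.a0.symm)
    have hk : Fintype.card (Fin (k + 1)) = Fintype.card (Fin k) + 1 := by simp
    intro cc d
    exact Imp.trans (ih e) <| Imp.trans (OI_TN _ _ h (OKR.mom a k e)) <|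
      Imp.trans (OB3.imp _ a e h hk) <| Imp.trans (V3.prodL _ (ODD.imp ρ h.ev)) <|
      Imp.trans (V3.prodL _ (OJ.imp _ hc h.ev h.ne)) <| Imp.trans (V3.comm _ _) <|
      Imp.trans (OB2.imp _ a e _ h hk) <|
      Imp.trans (OA1.imp _ _ _ _ _ (OKR.mou a k e h.a0)).2 <|
      Imp.trans (OA2.imp ((mom K k).od a e) _ _ _ h fun _ hi _ => hi ▸ rfl).2 <|
      Imp.trans (OR2.imp ((mom K k).od a e) e1 _ h) <|
      Imp.trans (OR1.imp ((mom K k).od a e) e1 e' _ h) (OR0.imp a k e e' e'' h)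

theorem OI_thm [V3 K p] [OJ K p] [ODD K p] [OA1 K p] [OA2 K p] [OKR K] [ONM K p] [OR0 K p]
    [OR1 K p] [OR2 K p] [OB2 K p] [OB3 K p] [OT0 K p] : OI K p where
  imp := fun {ρ σ} _ _ _ _ a b e' h hb hab =>
    have e : Option (Fin (Fintype.card σ + 1) × ρ) ≃ Option ρ ⊕ Fin (Fintype.card σ) × ρ :=
      Fintype.equivOfCardEq (by simp; ring)
    Imp.trans (OI_mom a h _ e) <| Imp.trans (ONM.imp a b _ e e' rfl hb hab)
      (OI_TN _ _ h (OKR.nod a b e' hab))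

end Pool.Agent.Lib.MP_557161_ag.HG.TW
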