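import Pool.Agent.Lib.MP_557161_ag.TW.StO

/-!
The Jacobi sum is a unit.
-/

namespace Pool.Agent.Lib.MP_557161_ag.HG.TW

open Pool.Agent.Lib.MP_557161_ag.DL Matrix

variable {K : Type} [Field K] {p : ℕ}

namespace OJa

variable {ρ : Type} [Fintype ρ] (c : ρ → K)

/-- The affine space with the product of the coordinates as its weight. -/
def X0 (K : Type) [Field K] (ρ : Type) [Fintype ρ] : WD K (.vec ρ) :=
  mkW (.univ K _) (fun _ _ => 0) (fun _ u => ∏ l, u l) (fun _ _ R _ _ _ _ _ => R.zero)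
    fun _ _ _ _ _ _ _ e => Rel.prod _ fun l _ => e l

/-- The linear form. -/
def f0 (L : Fld K) (u : ρ → L) (_ : Unit) : L := cv L c ⬝ᵥ u

lemma f0_reg : Reg (X0 K ρ).S (.vec Unit) (f0 c) := fun _ _ R _ _ _ _ e _ => Rel.dot (R.rcv c) e

/-- The phase `s (c ⬝ u)`. -/
def B0 : WD K ((Cd.vec ρ).prod (.vec Unit)) := (X0 K ρ).lin (f0 c) (f0_reg c)

lemma q0_cl ⦃M L : Fld K⦄ (R : Rel M L) ⦃x : ((Cd.vec ρ).prod (.vec Unit)).X M⦄
    ⦃x' : ((Cd.vec ρ).prod (.vec Unit)).X L⦄ (_ : (B0 c).S.mem M x) (_ : (B0 c).S.mem L x')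
    (e : ((Cd.vec ρ).prod (.vec Unit)).lift R.r x x') (h : x.2 () = 0) : x'.2 () = 0 :=
  Rel.eq_zero (e.2 ()) h

lemma B0_φ (L : Fld K) (u : ρ → L) (s : Unit → L) :
    (B0 c).φ L (u, s) = s () * ∑ l, cv L c l * u l := by
  show (0 : L) + ∑ i, s i * (cv L c ⬝ᵥ u) = _
  rw [zero_add, Fintype.sum_unique]
  rfl

variable [V3 K p]

open scoped Classical in
lemma dead (k : ρ) : Dead p ((B0 c).cl (fun _ x => x.2 () = 0) (q0_cl c)) :=
  V3.gm (X := (B0 c).cl (fun _ x => x.2 () = 0) (q0_cl c))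
    (γ := fun _ x => (fun l => (if l = k then x.1 else 1) * x.2.1 l, x.2.2)) (k := 1)
    { mp := ⟨fun _ _ R _ _ _ _ e => ⟨fun l => R.mul (Rel.ite _ e.1 R.one) (e.2.1 l), e.2.2⟩,
        fun _ _ m => ⟨⟨trivial, trivial⟩, m.2.2⟩⟩
      one := fun _ x _ => Prod.ext (funext fun l => by
        show (if l = k then 1 else 1) * x.1 l = x.1 l
        rw [ite_self, one_mul]) rfl
      inv := fun _ t x h _ => Prod.ext (funext fun l => by
        show (if l = k then t⁻¹ else 1) * ((if l = k then t else 1) * x.1 l) = x.1 l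
        split_ifs
        · exact inv_mul_cancel_left₀ h _
        · rw [one_mul, one_mul]) rfl
      ph := fun L t x _ m => by
        have h : x.2 () = 0 := m.2
        refine (B0_φ c L _ x.2).trans (Eq.trans ?_ (B0_φ c L x.1 x.2).symm)
        rw [h, zero_mul, zero_mul]
      gg := fun _ t x _ _ => by
        show ∏ l, (if l = k then t else 1) * x.1 l = t ^ (1 : ℤ) * ∏ l, x.1 l
        rw [Finset.prod_mul_distrib, Finset.prod_ite_eq', if_pos (Finset.mem_univ _), zpow_one]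
      odd := odd_one }

lemma opn (hc : ∀ l, c l ≠ 0) {n : ℕ} (hn : Fintype.card ρ = n + n) :
    Imp p ((Gs K ρ).prod (Tor K Unit fun _ => True))
      ((B0 c).cpl (fun _ x => x.2 () = 0) (q0_cl c)) := by
  have c0 : ∀ (L : Fld K) l, cv L c l ≠ 0 := fun L l => (_root_.map_ne_zero _).2 (hc l)
  have i : Iso ((Gs K ρ).prod (Tor K Unit fun _ => True)).S
      ((B0 c).cpl (fun _ x => x.2 () = 0) (q0_cl c)).S
      (fun L x => (fun l => x.1 l / (x.2 () * cv L c l), x.2))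
      fun L x => (fun l => x.1 l * (x.2 () * cv L c l), x.2) :=
    ⟨⟨fun _ _ R _ _ _ m' e => ⟨fun l => Rel.div (e.1 l) (R.mul (e.2 ()) (R.rcv c l))
          (mul_ne_zero (m'.2.2 () trivial) (c0 _ l)), e.2⟩,
        fun _ _ m => ⟨⟨trivial, trivial⟩, m.2.2 () trivial⟩⟩,
      ⟨fun _ _ R _ _ _ _ e => ⟨fun l => R.mul (e.1 l) (R.mul (e.2 ()) (R.rcv c l)), e.2⟩,
        fun _ _ m => ⟨trivial, trivial, fun _ _ => m.2⟩⟩,
      fun _ x m => Prod.ext (funext fun l =>
        div_mul_cancel₀ (x.1 l) (mul_ne_zero (m.2.2 () trivial) (c0 _ l))) rfl,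
      fun _ x m => Prod.ext (funext fun l =>
        mul_div_cancel_right₀ (x.1 l) (mul_ne_zero m.2 (c0 _ l))) rfl⟩
  intro cc d
  exact (V3.iso (p := p) (X' := (Gs K ρ).prod (Tor K Unit fun _ => True))
    (X := (B0 c).cpl (fun _ x => x.2 () = 0) (q0_cl c)) (h := fun _ x => x.2 () ^ n) (a := ∏ l, c l)
    { toMp := i.mf
      ph := fun L x m => by
        have h : x.2 () ≠ 0 := m.2.2 () trivial
        refine (B0_φ c L _ x.2).trans ?_
        show _ = ∑ l, x.1 l + 0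
        rw [add_zero, Finset.mul_sum]
        refine Finset.sum_congr rfl fun l _ => ?_
        have := c0 L l
        field_simp
      rh := fun _ _ _ _ _ _ _ e => Rel.pow (e.2 ()) n
      h0 := fun _ _ m => pow_ne_zero n (m.2.2 () trivial)
      a0 := Finset.prod_ne_zero_iff.2 fun l _ => hc l
      gh := fun L x m => by
        have h : x.2 () ≠ 0 := m.2.2 () trivial
        show (∏ l, x.1 l) * 1 = algebraMap K L (∏ l, c l) *
          ((∏ l, x.1 l / (x.2 () * cv L c l)) * (x.2 () ^ n) ^ 2)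
        rw [map_prod, sq, ← pow_add, ← hn, ← Finset.card_univ, ← Finset.prod_const,
          ← Finset.prod_mul_distrib, ← Finset.prod_mul_distrib, mul_one]
        refine Finset.prod_congr rfl fun l _ => ?_
        have := c0 L l
        show _ = cv L c l * _
        field_simp } i).1

end OJa

open OJa in
theorem OJ_thm (_h2 : (2 : K) ≠ 0) [V3 K p] [V4 K p] : OJ K p where
  imp {ρ} _ c hc := fun ⟨n, hn⟩ ⟨k⟩ => by
    have h1 : Imp p (Pt K) ((Gs K ρ).prod (Tor K Unit fun _ => True)) :=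
      Imp.trans (V4.gg ρ ⟨n, Nat.card_eq_fintype_card.trans hn⟩).1
        (Imp.trans (V3.pt _).1 (V3.prodL _ (V3.tor _ _).1))
    have h2 : Imp p (Pt K) (B0 c) :=
      V3.strat _ (q0_cl c) (Dead.imp (dead c k) _) (Imp.trans h1 (opn c hc hn))
    have h3 : Imp p ((X0 K ρ).zer (f0 c) (f0_reg c)) (Jac c) :=
      V3.sub (Jac c) ((X0 K ρ).zer (f0 c) (f0_reg c)) ⟨⟨⟨fun _ _ _ _ _ _ _ e => e, fun _ _ m => ⟨trivial, m.2 ()⟩⟩, fun _ _ _ => rfl⟩,
        fun _ _ _ => rfl⟩ fun _ _ m _ => ⟨trivial, fun _ => m.2⟩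
    exact Imp.trans h2 (Imp.trans (V3.lin _ _ _).2 h3)

end Pool.Agent.Lib.MP_557161_ag.HG.TW
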