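import Pool.Agent.Lib.MP_557161_ag.TW.StO

/-!
The kernel vectors of the moment model and of the node model.
-/

namespace Pool.Agent.Lib.MP_557161_ag.HG.TW

open Pool.Agent.Lib.MP_557161_ag.DL Matrix

variable {K : Type} [Field K] {ρ σ σ' : Type} [Fintype ρ] [DecidableEq ρ]

namespace OKRa

variable (a : Option ρ → K) (c : K)

lemma pen [Fintype σ] (t : TM K σ σ') (e) (y : σ × ρ → K) (x : σ' × ρ) :
    (((t.od a e).J1 - c • (t.od a e).J0) *ᵥ y) x =
      ∑ m, (t.j1 x.1 m - c * t.j0 x.1 m) * y (m, x.2) := by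
  obtain ⟨x, l⟩ := x
  simp only [TM.od, mulVec, dotProduct, Fintype.sum_prod_type, Matrix.sub_apply, Matrix.smul_apply,
    kroneckerMap_apply, one_apply, smul_eq_mul]
  refine Finset.sum_congr rfl fun m _ => ?_
  rw [Finset.sum_eq_single l (fun b _ h => by simp [h.symm]) (by simp)]
  simp

lemma pi [Fintype σ] (t : TM K σ σ') (e) (y : σ × ρ → K) (l : ρ) :
    ((t.od a e).π *ᵥ y) l = ∑ m, t.π0 m * y (m, l) := by
  simp [TM.od, mulVec, dotProduct, Fintype.sum_prod_type]

variable {k : ℕ}

lemma pen_mom (e) (y : Fin (k + 1) × ρ → K) (x : Fin k × ρ) :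
    ((((mom K k).od a e).J1 - c • ((mom K k).od a e).J0) *ᵥ y) x =
      y (x.1.succ, x.2) - c * y (x.1.castSucc, x.2) := by
  simp [pen, mom, sub_mul, Finset.sum_sub_distrib]

lemma pi_mom (e) (y : Fin (k + 1) × ρ → K) (l : ρ) : (((mom K k).od a e).π *ᵥ y) l = y (0, l) := by
  simp [pi, mom]

lemma inj_mom (e) (y : Fin (k + 1) × ρ → K) (h : ((mom K k).od a e).π *ᵥ y = 0)
    (h' : (((mom K k).od a e).J1 - c • ((mom K k).od a e).J0) *ᵥ y = 0) : y = 0 := by
  ext ⟨m, l⟩
  induction m using Fin.induction with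
  | zero => exact (pi_mom a e y l).symm.trans (congrFun h l)
  | succ m ih =>
    have := (pen_mom a c e y (m, l)).symm.trans (congrFun h' _)
    rwa [ih, Pi.zero_apply, mul_zero, sub_zero] at this

variable [Fintype σ] [DecidableEq σ] (b : Option σ → K)

lemma pen_nod (e) (y : Option σ × ρ → K) (x : σ × ρ) :
    ((((nod b).od a e).J1 - c • ((nod b).od a e).J0) *ᵥ y) x =
      (b (some x.1) - c) * y (some x.1, x.2) - (b none - c) * y (none, x.2) := by
  rw [pen, Fintype.sum_option, Finset.sum_eq_single x.1 (fun s _ h => by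
    simp [nod, frm, ccn, one_apply, h.symm]) (by simp)]
  simp [nod, frm, ccn]
  ring

lemma pi_nod (e) (y : Option σ × ρ → K) (l : ρ) : (((nod b).od a e).π *ᵥ y) l = y (none, l) := by
  simp [pi, nod]

end OKRa

open OKRa in
theorem OKR_thm : OKR K where
  mom a k e :=
    ⟨fun i _ => funext fun x => (pen_mom a _ e _ x).trans (by
      simp [momε, TM.od, pow_succ']; ring), fun i _ => funext fun l => (pi_mom a e _ l).trans (by
      simp [momε]), fun i _ => inj_mom a _ e⟩
  mou a k e h :=
    ⟨fun i hi => funext fun x => (pen_mom a _ e _ x).trans (by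
      simp [momu, ccn, TM.od, hi, h]), fun i hi => funext fun l => (pi_mom a e _ l).trans (by
      simp [momu, ccn, hi]), fun i _ => inj_mom a _ e⟩
  nod a b e h := by
    have n : ∀ i j, b j - a i ≠ 0 := fun i j => sub_ne_zero.2 (h i j).symm
    refine ⟨fun i _ => funext fun x => (pen_nod a _ b e _ x).trans ?_,
      fun i _ => funext fun l => (pi_nod a b e _ l).trans ?_, fun i _ y h1 h2 => ?_⟩
    · have := n i (some x.1)
      have := n i none
      simp only [nodε, TM.od, of_apply, Pi.zero_apply]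
      field_simp
      ring
    · simp [nodε, n]
    · have z : ∀ l, y (none, l) = 0 := fun l => (pi_nod a b e y l).symm.trans (congrFun h1 l)
      ext ⟨_ | s, l⟩
      · exact z l
      · have := (pen_nod a _ b e y (s, l)).symm.trans (congrFun h2 _)
        rw [z, mul_zero, sub_zero] at this
        exact (mul_eq_zero.1 this).resolve_left (n i _)

end Pool.Agent.Lib.MP_557161_ag.HG.TW
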