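import Pool.Agent.Lib.MP_557161_ag.TW.StO

/-!
From the node model to the moment model.
-/

namespace Pool.Agent.Lib.MP_557161_ag.HG.TW

open Pool.Agent.Lib.MP_557161_ag.DL Matrix

namespace ONMa

variable {K : Type} [Field K]

/-- A weighted Vandermonde matrix is invertible. -/
lemma vdm_inv [DA] {τ : Type} [Fintype τ] [DecidableEq τ] {n : ℕ} (hn : Fintype.card τ = n)
    (c w : τ → K) (hc : Function.Injective c) (hw : ∀ j, w j ≠ 0) :
    ∃ Q : Matrix τ (Fin n) K, (Matrix.of fun (m : Fin n) j => w j * c j ^ m.1) * Q = 1 ∧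
      Q * (Matrix.of fun (m : Fin n) j => w j * c j ^ m.1) = 1 := by
  let f : Fin n ≃ τ := (Fintype.equivFinOfCardEq hn).symm
  have h : dt f (Matrix.of fun (m : Fin n) j => w j * c j ^ m.1) ≠ 0 := by
    have e : (Matrix.of fun (m : Fin n) j => w j * c j ^ m.1).submatrix id f =
        (vandermonde (c ∘ f))ᵀ * diagonal (w ∘ f) := by
      ext i j
      simp [mul_comm]
    rw [dt, e, det_mul, det_transpose, det_diagonal]
    exact mul_ne_zero (det_vandermonde_ne_zero_iff.2 (hc.comp f.injective))
      (Finset.prod_ne_zero_iff.2 fun i _ => hw _)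
  exact ⟨_, (DA.iv_mul f _ h).1, (DA.iv_mul f _ h).2.1⟩

variable {τ : Type} [Fintype τ] [DecidableEq τ]

/-- The nodal weights kill the low powers. -/
lemma sum_pow (b : τ → K) (hb : Function.Injective b) {m : ℕ} (hm : m + 1 < Fintype.card τ) :
    ∑ j, Lagrange.nodalWeight Finset.univ b j * b j ^ m = 0 := by
  have h := Lagrange.coeff_eq_sum (s := Finset.univ) (v := b) hb.injOn
    (P := Polynomial.X ^ m) (by
      rw [Polynomial.degree_X_pow, Finset.card_univ]
      exact_mod_cast (by omega : m < Fintype.card τ))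
  rw [Polynomial.coeff_X_pow, if_neg (by rw [Finset.card_univ]; omega)] at h
  rw [h]
  refine Finset.sum_congr rfl fun j _ => ?_
  rw [Lagrange.nodalWeight, Finset.prod_inv_distrib, Polynomial.eval_pow, Polynomial.eval_X,
    div_eq_mul_inv, mul_comm]

/-- The moments of a Cauchy vector. -/
lemma sum_cauchy (b : τ → K) (hb : Function.Injective b) (x : K) (hx : ∀ j, x ≠ b j) {m : ℕ}
    (hm : m < Fintype.card τ) :
    ∑ j, Lagrange.nodalWeight Finset.univ b j * b j ^ m * (b j - x)⁻¹ =
      x ^ m * ∑ j, Lagrange.nodalWeight Finset.univ b j * (b j - x)⁻¹ := by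
  induction m with
  | zero => simp
  | succ m ih =>
    have h0 := sum_pow b hb hm
    rw [pow_succ', mul_assoc, ← ih (by omega), Finset.mul_sum, ← sub_eq_zero,
      ← Finset.sum_sub_distrib, ← h0]
    refine Finset.sum_congr rfl fun j _ => ?_
    have : b j - x ≠ 0 := sub_ne_zero.2 (hx j).symm
    field_simp
    ring

lemma sum_ne (b : τ → K) (hb : Function.Injective b) (x : K) (hx : ∀ j, x ≠ b j) [Nonempty τ] :
    ∑ j, Lagrange.nodalWeight Finset.univ b j * (b j - x)⁻¹ ≠ 0 := by
  have h := Lagrange.sum_nodalWeight_mul_inv_sub_ne_zero (s := Finset.univ) (v := b) hb.injOn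
    (x := x) (fun j _ => hx j) Finset.univ_nonempty
  intro h0
  apply h
  rw [← neg_eq_zero, ← Finset.sum_neg_distrib, ← h0]
  refine Finset.sum_congr rfl fun j _ => ?_
  rw [← neg_sub (b j) x, inv_neg, mul_neg, neg_neg]

lemma kr_mul {ρ l m n : Type} [Fintype ρ] [DecidableEq ρ] [Fintype m] (A : Matrix l m K)
    (B : Matrix m n K) :
    kroneckerMap (· * ·) A (1 : Matrix ρ ρ K) * kroneckerMap (· * ·) B (1 : Matrix ρ ρ K) =
      kroneckerMap (· * ·) (A * B) (1 : Matrix ρ ρ K) := by
  have h := (mul_kronecker_mul A B (1 : Matrix ρ ρ K) (1 : Matrix ρ ρ K)).symm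
  rwa [Matrix.mul_one] at h

lemma kr_one {ρ m : Type} [DecidableEq ρ] [DecidableEq m] :
    kroneckerMap (· * ·) (1 : Matrix m m K) (1 : Matrix ρ ρ K) = 1 := one_kronecker_one

end ONMa

open ONMa in
theorem ONM_thm {K : Type} [Field K] {p : ℕ} [DA] [OTI K p] : ONM K p where
  imp := by
    intro ρ σ _ _ _ _ a b k e e' hk hb hab
    set lam : Option σ → K := Lagrange.nodalWeight Finset.univ b with hlam
    have hl : ∀ j, lam j ≠ 0 := fun j => Lagrange.nodalWeight_ne_zero hb.injOn (Finset.mem_univ j)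
    have hc : Fintype.card (Option σ) = k + 1 := by rw [Fintype.card_option, hk]
    obtain ⟨Q, hQ1, hQ2⟩ := vdm_inv hc b lam hb hl
    obtain ⟨Q', hQ1', hQ2'⟩ := vdm_inv hk (fun j => b (some j)) (fun j => lam (some j))
      (fun i j h => Option.some_injective _ (hb h)) fun j => hl _
    set P : Matrix (Fin (k + 1)) (Option σ) K := Matrix.of fun m j => lam j * b j ^ m.1 with hP
    set P' : Matrix (Fin k) σ K := Matrix.of fun m j => lam (some j) * b (some j) ^ m.1 with hP'
    have hf : ∀ (m : Fin k) j, (P' * frm K σ) m j = lam j * b j ^ m.1 := by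
      intro m j
      cases j with
      | none =>
        have h := sum_pow b hb (m := m.1) (by rw [hc]; omega)
        rw [Fintype.sum_option] at h
        simp only [Matrix.mul_apply, hP', frm, ccn, Matrix.of_apply, Option.elim, mul_neg, mul_one,
          Finset.sum_neg_distrib]
        rw [neg_eq_iff_add_eq_zero, add_comm]
        exact h
      | some j => simp [Matrix.mul_apply, hP', frm, ccn, Matrix.one_apply]
    have h0 : (mom K k).j0 * P = P' * (nod b).j0 := by
      ext m j
      show _ = (P' * frm K σ) m j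
      rw [hf]
      simp [mom, Matrix.mul_apply, hP]
    have h1 : (mom K k).j1 * P = P' * (nod b).j1 := by
      ext m j
      show _ = (P' * (frm K σ * diagonal b)) m j
      rw [← Matrix.mul_assoc, Matrix.mul_diagonal, hf]
      simp [mom, Matrix.mul_apply, hP, pow_succ, mul_assoc]
    let s : Option ρ → K := fun i => (b none - a i) * ∑ j, lam j * (b j - a i)⁻¹
    have hs : ∀ i, s i ≠ 0 := fun i =>
      mul_ne_zero (sub_ne_zero.2 (hab i none).symm) (sum_ne b hb (a i) (hab i))
    have hε : kroneckerMap (· * ·) P (1 : Matrix ρ ρ K) * nodε a b * diagonal (fun i => (s i)⁻¹) =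
        momε a k := by
      ext x i
      obtain ⟨m, l⟩ := x
      have h := sum_cauchy b hb (a i) (hab i) (m := m.1) (by rw [hc]; exact m.2)
      rw [Matrix.mul_diagonal, mul_inv_eq_iff_eq_mul₀ (hs i), Matrix.mul_apply,
        Fintype.sum_prod_type]
      simp only [kroneckerMap_apply, nodε, momε, Matrix.of_apply, Matrix.one_apply, mul_ite,
        ite_mul, mul_one, mul_zero, zero_mul, Finset.sum_ite_eq, Finset.mem_univ, if_true, hP, s]
      rw [← hlam] at h
      calc _ = (b none - a i) * frm K ρ l i * ∑ j, lam j * b j ^ m.1 * (b j - a i)⁻¹ := by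
            rw [Finset.mul_sum]
            refine Finset.sum_congr rfl fun j _ => ?_
            rw [div_eq_mul_inv]
            ring
        _ = _ := by
            rw [h]
            ring
    rw [← hε]
    intro cc d
    refine OTI.imp (p := p) ((nod b).od a e') ((mom K k).od a e) _ (kroneckerMap (· * ·) Q 1)
      (kroneckerMap (· * ·) P' 1) (kroneckerMap (· * ·) Q' 1) _ _ rfl ?_ ?_ ?_ ?_ ?_ ?_
      fun i => inv_ne_zero (hs i)
    · rw [kr_mul, hQ1, kr_one]
    · rw [kr_mul, hQ2, kr_one]
    · rw [kr_mul, hQ1', kr_one]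
    · rw [kr_mul, hQ2', kr_one]
    · show kroneckerMap _ _ _ * _ = _ * kroneckerMap _ _ _
      rw [kr_mul, kr_mul, h0]
    · show kroneckerMap _ _ _ * _ = _ * kroneckerMap _ _ _
      rw [kr_mul, kr_mul, h1]

end Pool.Agent.Lib.MP_557161_ag.HG.TW
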