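import Pool.Agent.Lib.MP_557161_ag.TW.StO

/-!
From the moment model to split coordinates.
-/

namespace Pool.Agent.Lib.MP_557161_ag.HG.TW

open Pool.Agent.Lib.MP_557161_ag.DL Matrix

variable {K : Type} [Field K] {p : ℕ} {ρ : Type} [Fintype ρ] [DecidableEq ρ]

lemma OR0_inv {κ ι : Type} [Fintype κ] [DecidableEq κ] [Fintype ι] [DecidableEq ι]
    (G : Matrix κ ι K) (hc : Fintype.card ι = Fintype.card κ)
    (h : ∀ t, G *ᵥ t = 0 → t = 0) : ∃ Gi : Matrix ι κ K, G * Gi = 1 ∧ Gi * G = 1 := by
  obtain ⟨g, hg⟩ := (Matrix.toLin' G).exists_leftInverse_of_injective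
    (LinearMap.ker_eq_bot'.2 fun t ht => h t (by simpa using ht))
  have h1 : LinearMap.toMatrix' g * G = 1 := by
    have := congrArg LinearMap.toMatrix' hg
    rwa [LinearMap.toMatrix'_comp, LinearMap.toMatrix'_toLin', LinearMap.toMatrix'_id] at this
  exact ⟨_, (Matrix.mul_eq_one_comm_of_equiv (Fintype.equivOfCardEq hc)).1 h1, h1⟩

lemma OR0_J0 (a : Option ρ → K) (k : ℕ) (e) (t : Fin (k + 1) × ρ → K) (x : Fin k × ρ) :
    (((mom K k).od a e).J0 *ᵥ t) x = t (x.1.castSucc, x.2) := by
  simp [TM.od, mom, mulVec, dotProduct, Fintype.sum_prod_type, Matrix.one_apply]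

lemma OR0_J1 (a : Option ρ → K) (k : ℕ) (e) (t : Fin (k + 1) × ρ → K) (x : Fin k × ρ) :
    (((mom K k).od a e).J1 *ᵥ t) x = t (x.1.succ, x.2) := by
  simp [TM.od, mom, mulVec, dotProduct, Fintype.sum_prod_type, Matrix.one_apply]

lemma OR0_pi (a : Option ρ → K) (k : ℕ) (e) (t : Fin (k + 1) × ρ → K) (l : ρ) :
    (((mom K k).od a e).π *ᵥ t) l = t (0, l) := by
  simp [TM.od, mom, mulVec, dotProduct, Fintype.sum_prod_type]

/-- The change of basis on the source. -/
def OR0_g (a : Option ρ → K) (k : ℕ) : (Fin (k + 2) × ρ → K) →ₗ[K] (ρ ⊕ Fin (k + 1) × ρ → K) where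
  toFun t := Sum.elim (fun l => (a (some l))⁻¹ * t (1, l))
    fun x => t (x.1.succ, x.2) - a (some x.2) * t (x.1.castSucc, x.2)
  map_add' s t := by
    funext x
    rcases x with l | x <;> simp <;> ring
  map_smul' c t := by
    funext x
    rcases x with l | x <;> simp <;> ring

/-- The change of basis on the target. -/
def OR0_h (a : Option ρ → K) (k : ℕ) : (Fin (k + 1) × ρ → K) →ₗ[K] (ρ ⊕ Fin k × ρ → K) where
  toFun t := Sum.elim (fun l => t (0, l))
    fun x => t (x.1.succ, x.2) - a (some x.2) * t (x.1.castSucc, x.2)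
  map_add' s t := by
    funext x
    rcases x with l | x
    · simp
    · simp; ring
  map_smul' c t := by
    funext x
    rcases x with l | x
    · simp
    · simp; ring

omit [Fintype ρ] [DecidableEq ρ] in
lemma OR0_rec (a : Option ρ → K) (k : ℕ) (t : Fin (k + 1) × ρ → K) (h0 : ∀ l, t (0, l) = 0)
    (h : ∀ (m : Fin k) l, t (m.succ, l) - a (some l) * t (m.castSucc, l) = 0) : t = 0 := by
  funext ⟨m, l⟩
  induction m using Fin.induction with
  | zero => exact h0 l
  | succ m ih =>
    have h1 := h m l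
    have h2 : t (m.castSucc, l) = 0 := ih
    rw [h2, mul_zero, sub_zero] at h1
    exact h1

theorem OR0_thm [OTI K p] : OR0 K p := by
  refine ⟨fun {ρ} _ _ a k e e' e'' ha => ?_⟩
  have hne : ∀ l, a (some l) ≠ 0 := fun l h => by
    have := ha.ai (h.trans ha.a0.symm)
    simp at this
  obtain ⟨Gi, h1, h2⟩ := OR0_inv (LinearMap.toMatrix' (OR0_g a k)) (by simp; ring) fun t ht => by
    rw [LinearMap.toMatrix'_mulVec] at ht
    have hr : ∀ (m : Fin (k + 1)) l, t (m.succ, l) - a (some l) * t (m.castSucc, l) = 0 :=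
      fun m l => congrFun ht (Sum.inr (m, l))
    refine OR0_rec a (k + 1) t (fun l => ?_) hr
    have h3 : (a (some l))⁻¹ * t (1, l) = 0 := congrFun ht (Sum.inl l)
    have h4 : t (1, l) - a (some l) * t (0, l) = 0 := hr 0 l
    have h5 : t (1, l) = 0 := by simpa [hne l] using h3
    rw [h5, zero_sub, neg_eq_zero] at h4
    simpa [hne l] using h4
  obtain ⟨Gi', h1', h2'⟩ := OR0_inv (LinearMap.toMatrix' (OR0_h a k)) (by simp; ring)
    fun t ht => by
      rw [LinearMap.toMatrix'_mulVec] at ht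
      exact OR0_rec a k t (fun l => congrFun ht (Sum.inl l)) fun m l => congrFun ht (Sum.inr (m, l))
  have hε : LinearMap.toMatrix' (OR0_g a k) * momε a (k + 1) *
      (diagonal fun _ => 1 : Matrix (Option ρ) (Option ρ) K) = splε (momu a k) := by
    rw [diagonal_one, Matrix.mul_one]
    ext x i
    have h3 : (LinearMap.toMatrix' (OR0_g a k) * momε a (k + 1)) x i =
        OR0_g a k (fun y => momε a (k + 1) y i) x := by
      rw [← LinearMap.toMatrix'_mulVec]; rfl
    rw [h3]
    rcases x with l | ⟨m, l⟩ <;> rcases i with _ | l'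
    · simp [OR0_g, momε, splε, frm, ccn, ha.a0]
    · by_cases hl : l = l'
      · subst hl
        simp [OR0_g, momε, splε, frm, ccn, hne l]
      · simp [OR0_g, momε, splε, frm, ccn, hl]
    · by_cases hm : m = 0
      · subst hm
        simp [OR0_g, momε, splε, frm, ccn, ha.a0, momu]
      · have : m.1 ≠ 0 := fun h => hm (Fin.ext h)
        simp [OR0_g, momε, splε, frm, ccn, ha.a0, momu, hm, this]
    · by_cases hl : l = l'
      · subst hl
        simp [OR0_g, momε, splε, frm, ccn, pow_succ, mul_comm]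
      · simp [OR0_g, momε, splε, frm, ccn, hl]
  rw [← hε]
  refine @OTI.imp K _ p _ _ _ _ _ _ _ _ _ _ _ _ _ _ _ _ ((mom K (k + 1)).od a e'')
    (((mom K k).od a e).spl e') _ Gi _ Gi' (fun _ => 1) (momε a (k + 1)) rfl h1 h2 h1' h2' ?_ ?_ fun _ => one_ne_zero
  · refine Matrix.ext_iff_mulVec.2 fun t => ?_
    rw [← mulVec_mulVec, ← mulVec_mulVec, LinearMap.toMatrix'_mulVec, LinearMap.toMatrix'_mulVec]
    funext x
    have ha' : ((mom K k).od a e).a = a := rfl
    rcases x with l | x
    · simp only [OD.spl, fromBlocks_mulVec, Sum.elim_inl, Pi.add_apply, one_mulVec, neg_mulVec,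
        Pi.neg_apply, ← mulVec_mulVec, mulVec_diagonal, OR0_pi, ha']
      simp only [OR0_g, OR0_h, LinearMap.coe_mk, AddHom.coe_mk, Function.comp_apply, Sum.elim_inl,
        Sum.elim_inr, OR0_J0]
      have := hne l
      simp only [Fin.succ_zero_eq_one]
      field_simp
      ring
    · simp only [OD.spl, fromBlocks_mulVec, Sum.elim_inr, zero_mulVec,
        zero_add, OR0_J0]
      simp only [OR0_g, OR0_h, LinearMap.coe_mk, AddHom.coe_mk, Function.comp_apply,
        Sum.elim_inr, OR0_J0, Fin.succ_castSucc]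
  · refine Matrix.ext_iff_mulVec.2 fun t => ?_
    rw [← mulVec_mulVec, ← mulVec_mulVec, LinearMap.toMatrix'_mulVec, LinearMap.toMatrix'_mulVec]
    funext x
    have ha' : ((mom K k).od a e).a = a := rfl
    rcases x with l | x
    · simp only [OD.spl, fromBlocks_mulVec, Sum.elim_inl, zero_mulVec,
        add_zero, mulVec_diagonal, ha']
      simp only [OR0_g, OR0_h, LinearMap.coe_mk, AddHom.coe_mk, Function.comp_apply, Sum.elim_inl,
        OR0_J1]
      have := hne l
      simp only [Fin.succ_zero_eq_one]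
      field_simp
    · simp only [OD.spl, fromBlocks_mulVec, Sum.elim_inr, zero_mulVec,
        zero_add, OR0_J1]
      simp only [OR0_g, OR0_h, LinearMap.coe_mk, AddHom.coe_mk, Function.comp_apply,
        Sum.elim_inr, OR0_J1, Fin.succ_castSucc]

end Pool.Agent.Lib.MP_557161_ag.HG.TW
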