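import Pool.Agent.Lib.MP_557161_ag.TW.StO

/-!
The reduction step, first half.
-/

namespace Pool.Agent.Lib.MP_557161_ag.HG.TW

open Pool.Agent.Lib.MP_557161_ag.DL Matrix

namespace OR1a

variable {K : Type} [Field K] {p : ℕ} {ρ ι ι' : Type}

/-- A regrouping of indices. -/
def eq1 (ρ ι : Type) : Option ρ ⊕ ι ≃ Option (ρ ⊕ ι) :=
  ⟨Sum.elim (Option.map Sum.inl) (some ∘ Sum.inr),
    fun o => o.elim (Sum.inl none) (Sum.elim (Sum.inl ∘ some) Sum.inr),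
    by rintro ((_ | _) | _) <;> rfl, by rintro (_ | _ | _) <;> rfl⟩

/-- A regrouping of indices. -/
def eq2 (ρ ι : Type) : ρ ⊕ Option ι ≃ Option (ρ ⊕ ι) :=
  ⟨Sum.elim (some ∘ Sum.inl) (Option.map Sum.inr),
    fun o => o.elim (Sum.inr none) (Sum.elim Sum.inl (Sum.inr ∘ some)),
    by rintro (_ | _ | _) <;> rfl, by rintro (_ | _ | _) <;> rfl⟩

/-- A regrouping of indices. -/
def eq3 (ρ ι : Type) : ρ ⊕ Option ι ≃ Option ρ ⊕ ι :=
  ⟨Sum.elim (Sum.inl ∘ some) fun o => o.elim (Sum.inl none) Sum.inr,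
    Sum.elim (fun o => o.elim (Sum.inr none) Sum.inl) (Sum.inr ∘ some),
    by rintro (_ | _ | _) <;> rfl, by rintro ((_ | _) | _) <;> rfl⟩

lemma eps_ne {ε : ℤ} (h : ε * ε = 1) : (ε : K) ≠ 0 := fun e => by
  have := congrArg (Int.cast : ℤ → K) h
  rw [Int.cast_mul, e, mul_zero, Int.cast_one] at this
  exact zero_ne_one this

variable [Fintype ρ] [DecidableEq ρ] [Fintype ι] [DecidableEq ι] [Fintype ι'] [DecidableEq ι']

/-- A determinant with a diagonal block. -/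
lemma dt_tri [DA] {m n m' n' : Type} [Fintype m] [DecidableEq m] [Fintype m'] [DecidableEq m']
    (E : m ≃ n) (e : m' ≃ n') {τ : Type} [Fintype τ] [DecidableEq τ] (f : τ ⊕ m' ≃ m)
    (g : τ ⊕ n' ≃ n) : ∃ ε : ℤ, ε * ε = 1 ∧ ∀ {L : Type} [Field L] (A : Matrix m n L) (d : τ → L)
      (B : Matrix m' n' L), (∀ i j, A (f (.inl i)) (g (.inl j)) = diagonal d i j) →
      (∀ i j, A (f (.inr i)) (g (.inl j)) = 0) → (∀ i j, A (f (.inr i)) (g (.inr j)) = B i j) →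
      dt E A = ε * ((∏ i, d i) * dt e B) := by
  obtain ⟨ε, h1, h2⟩ := DA.dt_sign E (f.symm.trans (((Equiv.refl τ).sumCongr e).trans g))
  refine ⟨ε, h1, fun A d B a b c => ?_⟩
  have : A.submatrix f g = fromBlocks (diagonal d) (A.submatrix f g).toBlocks₁₂ 0 B := by
    ext (i | i) (j | j)
    exacts [a i j, rfl, b i j, c i j]
  rw [h2, ← DA.dt_sub, this, (DA.dt_blk _ _ _ _ 0 _).1]
  simp [dt]

variable (D : OD K ρ ι ι') (e : ι ≃ ρ ⊕ ι') (e' : Option (ρ ⊕ ι) ≃ Option ρ ⊕ (ρ ⊕ ι'))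
  (u : ι → K)

/-- The rows of the upper part of the pencil. -/
def ze (L : Fld K) (H Θ : Matrix (ρ ⊕ ι) (ρ ⊕ ι') L) (y : ρ × (ρ ⊕ ι')) : L :=
  H (.inl y.1) y.2 - cv L D.a (some y.1) * Θ (.inl y.1) y.2

/-- The pairing of the rows with the cofactor vectors. -/
noncomputable def de (L : Fld K) (H Θ : Matrix ι (ρ ⊕ ι') L) (ζ : ρ × (ρ ⊕ ι') → L) (l : ρ) : L :=
  ∑ x, ζ (l, x) * D.zc e u L H Θ l (some x)

omit [Fintype ρ] [DecidableEq ρ] [Fintype ι] [DecidableEq ι] [Fintype ι'] [DecidableEq ι'] in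
lemma ze_rel {M L : Fld K} (R : Rel M L) {H Θ : Matrix (ρ ⊕ ι) (ρ ⊕ ι') M}
    {H' Θ' : Matrix (ρ ⊕ ι) (ρ ⊕ ι') L} (h : R.m' H H') (h' : R.m' Θ Θ') (y : ρ × (ρ ⊕ ι')) :
    R.r (ze D M H Θ y) (ze D L H' Θ' y) := Rel.sub (h _ _) (R.mul (R.rcv _ _) (h' _ _))

lemma de_rel {M L : Fld K} (R : Rel M L) {H Θ : Matrix ι (ρ ⊕ ι') M}
    {H' Θ' : Matrix ι (ρ ⊕ ι') L} {ζ : ρ × (ρ ⊕ ι') → M} {ζ' : ρ × (ρ ⊕ ι') → L} (h : R.m' H H')
    (h' : R.m' Θ Θ') (hz : ∀ y, R.r (ζ y) (ζ' y)) (l : ρ) :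
    R.r (de D e u M H Θ ζ l) (de D e u L H' Θ' ζ' l) :=
  Rel.sum _ fun _ _ => R.mul (hz _) (D.zc_rel e u R h h' l _)

lemma wt_none [DA] (ha : AH D.a) : ∃ c : K, c ≠ 0 ∧ ∀ (L : Fld K)
    (H Θ : Matrix (ρ ⊕ ι) (ρ ⊕ ι') L), wt e' (cv L D.a) (cm L (splε u)) H Θ none =
      algebraMap K L c * dt e (H.submatrix Sum.inr id) := by
  obtain ⟨ε, h1, h2⟩ := dt_tri e' e (eq1 ρ ι) (Equiv.refl _)
  refine ⟨ε * ∏ i : Option ρ, i.elim 1 fun l => D.a (some l), mul_ne_zero (eps_ne h1)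
    (Finset.prod_ne_zero_iff.2 ?_), fun L H Θ => ?_⟩
  · rintro (_ | l) -
    exacts [one_ne_zero, fun h => nomatch ha.ai (h.trans ha.a0.symm)]
  rw [wt, cf, h2 _ (cv L fun i : Option ρ => i.elim 1 fun l => D.a (some l))
    (H.submatrix Sum.inr id)]
  · simp [cv, mul_assoc]
  · rintro (_ | i) (_ | j) <;>
      simp [eq1, rc, cv, cm, splε, ccn, ha.a0, diagonal_apply, one_apply]
    split_ifs with h <;> simp [h]
  · rintro i (_ | j) <;> simp [eq1, rc, cv, cm, splε, ccn, ha.a0]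
  · intro i j
    simp [eq1, rc, cv, ha.a0]

lemma wt_some [DA] (ha : AH D.a) (l : ρ) : ∃ c : K, c ≠ 0 ∧ ∀ (L : Fld K)
    (H Θ : Matrix (ρ ⊕ ι) (ρ ⊕ ι') L), wt e' (cv L D.a) (cm L (splε u)) H Θ (some l) =
      algebraMap K L c * de D e u L (H.submatrix Sum.inr id) (Θ.submatrix Sum.inr id)
        (ze D L H Θ) l := by
  obtain ⟨ε, h1, h2⟩ := dt_tri e' e.optionCongr
    ((eq2 ρ ι).trans (Equiv.swap none (some (.inl l)))) (eq3 ρ (ρ ⊕ ι'))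
  refine ⟨ε * (∏ i, if i = l then 1 else D.a (some i) - D.a (some l)) * -D.a (some l),
    mul_ne_zero (mul_ne_zero (eps_ne h1) (Finset.prod_ne_zero_iff.2 fun i _ => ?_))
      (neg_ne_zero.2 fun h => nomatch ha.ai (h.trans ha.a0.symm)), fun L H Θ => ?_⟩
  · split_ifs with h
    exacts [one_ne_zero, sub_ne_zero.2 fun h' => h (Option.some.inj (ha.ai h'))]
  rw [wt, cf, h2 _ (cv L fun i => if i = l then 1 else D.a (some i) - D.a (some l))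
    (HMul.hMul (α := Matrix (Option ι) (Option (ρ ⊕ ι')) L)
      (β := Matrix (Option (ρ ⊕ ι')) (Option (ρ ⊕ ι')) L)
      (γ := Matrix (Option ι) (Option (ρ ⊕ ι')) L)
      (rc (fun o => o.elim 0 fun x => ze D L H Θ (l, x)) (ccn (cv L u) (H.submatrix Sum.inr id -
        cv L D.a (some l) • Θ.submatrix Sum.inr id)))
      (diagonal fun o => o.elim (-cv L D.a (some l)) fun _ => 1))]
  · rw [← e.optionCongr.trans_refl, DA.dt_mul, DA.dt_rc]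
    simp [cv, dt, de, OD.zc, dotProduct, Fintype.sum_option, Fintype.prod_option, mul_assoc,
      mul_comm]
    ring
  · intro i j
    by_cases h : i = l
    · subst h
      simp [eq2, eq3, rc, cv, diagonal_apply, Pi.single_apply, eq_comm]
    · simp [eq2, eq3, rc, cv, cm, splε, ccn, diagonal_apply, one_apply, Equiv.swap_apply_def, h]
      split_ifs with h <;> simp [h]
  · rintro (_ | i) j
    · simp [eq2, eq3, rc, cv, cm, splε, ccn, one_apply]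
      exact fun h => by simp [h]
    · simp [eq2, eq3, rc, cv, cm, splε, ccn, Equiv.swap_apply_def]
  · rintro (_ | i) (_ | j) <;>
      simp [eq2, eq3, rc, cv, cm, splε, ccn, ze, Equiv.swap_apply_def, ha.a0, Algebra.smul_def]

lemma w_eq [DA] (ha : AH D.a) : ∃ c : K, c ≠ 0 ∧ ∀ (L : Fld K)
    (z : (oc ρ (ρ ⊕ ι) (ρ ⊕ ι')).X L), ((D.spl e').T (splε u)).S.mem L z →
    ((D.spl e').T (splε u)).g L z = algebraMap K L c * (dt e (z.2.1.submatrix Sum.inr id) *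
      ∏ l, de D e u L (z.2.1.submatrix Sum.inr id) (z.2.2.submatrix Sum.inr id)
        (ze D L z.2.1 z.2.2) l) := by
  obtain ⟨c0, h0, h⟩ := wt_none D e e' u ha
  choose c h1 h2 using wt_some D e e' u ha
  refine ⟨c0 * ∏ l, c l, mul_ne_zero h0 (Finset.prod_ne_zero_iff.2 fun l _ => h1 l),
    fun L z m => ?_⟩
  have : z.1 = cm L (splε u) := Matrix.ext fun x i => m.2 i trivial x
  change ∏ i, wt e' (cv L D.a) z.1 z.2.1 z.2.2 i = _
  rw [this, Fintype.prod_option, h]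
  simp only [h2, Finset.prod_mul_distrib, map_mul, map_prod]
  ring

/-- The phase of the middle space. -/
def ph (L : Fld K) (H Θ : Matrix ι (ρ ⊕ ι') L) : L :=
  (H * cm L (fromRows (-((diagonal fun l => (D.a (some l))⁻¹) * D.π)) D.J0) -
    Θ * cm L (fromRows (0 : Matrix ρ ι K) D.J1)).trace

lemma ph_eq' (L : Fld K) (φ : Matrix (ρ ⊕ ι) (Option ρ) L) (H Θ : Matrix (ρ ⊕ ι) (ρ ⊕ ι') L) :
    (H * cm L (D.spl e').J0 - Θ * cm L (D.spl e').J1).trace + (cm L (0 : Matrix (Option ρ) ρ K) *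
      cm L (D.spl e').π * φ).trace = ph D L (H.submatrix Sum.inr id)
      (Θ.submatrix Sum.inr id) + ∑ l, ze D L H Θ (l, .inl l) := by
  simp only [ph, OD.spl, trace, diag_apply, Matrix.sub_apply, mul_apply, Fintype.sum_sum_type,
    cm, map_apply, fromBlocks_apply₁₁, fromBlocks_apply₁₂, fromBlocks_apply₂₁, fromBlocks_apply₂₂,
    fromRows_apply_inl, fromRows_apply_inr, submatrix_apply, id]
  simp [ze, cv, one_apply, diagonal_apply, apply_ite (algebraMap K L), add_comm, mul_comm]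

lemma ph_eq (L : Fld K) (z : (oc ρ (ρ ⊕ ι) (ρ ⊕ ι')).X L) :
    ((D.spl e').T (splε u)).φ L z = ph D L (z.2.1.submatrix Sum.inr id)
      (z.2.2.submatrix Sum.inr id) + ∑ l, ze D L z.2.1 z.2.2 (l, .inl l) :=
  ph_eq' D e' L z.1 z.2.1 z.2.2

/-- The middle space without the equations. -/
noncomputable def VR : WD K ((((Cd.mat ι (ρ ⊕ ι')).prod (.mat ι (ρ ⊕ ι'))).prod (.vec ρ)).prod
    (.mat ρ (ρ ⊕ ι'))) :=
  (mkW (.univ K (((Cd.mat ι (ρ ⊕ ι')).prod (.mat ι (ρ ⊕ ι'))).prod (.vec ρ)))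
    (fun L z => ph D L z.1.1 z.1.2) (fun _ z => (∏ l, z.2 l) * dt e z.1.1)
    (fun _ _ R _ _ _ _ h => Rel.trace
      (Rel.msub (Rel.mmul h.1.1 (R.rcm _)) (Rel.mmul h.1.2 (R.rcm _))))
    fun _ _ R _ _ _ _ h => R.mul (Rel.prod _ fun l _ => h.2 l) (Rel.rdt e h.1.1)).prod
    (Aff K (.mat ρ (ρ ⊕ ι')))

/-- The equations. -/
noncomputable def f (L : Fld K) (z : ((((Cd.mat ι (ρ ⊕ ι')).prod (.mat ι (ρ ⊕ ι'))).prod
    (.vec ρ)).prod (.mat ρ (ρ ⊕ ι'))).X L) (y : ρ × (ρ ⊕ ι')) : L :=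
  (if y.2 = .inl y.1 then 1 else 0) - z.1.2 y.1 * D.zc e u L z.1.1.1 z.1.1.2 y.1 (some y.2)

lemma hf : Reg (VR D e).S (.vec (ρ × (ρ ⊕ ι'))) (f D e u) := fun _ _ R _ _ _ _ h y =>
  Rel.sub (Rel.ite _ R.one R.zero) (R.mul (h.1.2 _) (D.zc_rel e u R h.1.1.1 h.1.1.2 _ _))

lemma zer [V3 K p] : Imp p ((D.ZR e u).prod (Aff K (.mat ρ (ρ ⊕ ι'))))
    ((VR D e).zer (f D e u) (hf D e u)) :=
  V3.sub ((VR D e).zer (f D e u) (hf D e u)) ((D.ZR e u).prod (Aff K (.mat ρ (ρ ⊕ ι'))))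
    ⟨⟨⟨Reg.id _, fun _ _ m => ⟨⟨trivial, trivial⟩, fun y =>
      sub_eq_zero.2 (m.1.2 y.1 y.2).symm⟩⟩, fun _ _ _ => rfl⟩, fun _ _ _ => rfl⟩
    fun _ _ m _ => ⟨⟨trivial, fun l x => (sub_eq_zero.1 (m.2 (l, x))).symm⟩, trivial⟩

lemma sum_f (L : Fld K) (z) (ζ : ρ × (ρ ⊕ ι') → L) : ∑ y, ζ y * f D e u L z y =
    ∑ l, ζ (l, .inl l) - ∑ l, z.1.2 l * de D e u L z.1.1.1 z.1.1.2 ζ l := by
  rw [Fintype.sum_prod_type, ← Finset.sum_sub_distrib]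
  refine Finset.sum_congr rfl fun l _ => ?_
  simp [f, de, mul_sub, Finset.mul_sum, mul_left_comm, -Fintype.sum_sum_type]

/-- The product of the pairings. -/
noncomputable def h (L : Fld K) (z : ((oc ρ (ρ ⊕ ι) (ρ ⊕ ι')).prod (.vec ρ)).X L) : L :=
  ∏ l, de D e u L (z.1.2.1.submatrix Sum.inr id) (z.1.2.2.submatrix Sum.inr id)
    (ze D L z.1.2.1 z.1.2.2) l

lemma hh (S : ASp K _) : Reg S .one (h D e u) := fun _ _ R _ _ _ _ h => Rel.prod _ fun l _ =>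
  de_rel D e u R (Rel.msubm h.1.2.1 _ _) (Rel.msubm h.1.2.2 _ _) (ze_rel D R h.1.2.1 h.1.2.2) l

lemma emb [DA] [V3 K p] (ha : AH D.a) : Imp p ((VR D e).lin (f D e u) (hf D e u))
    ((((D.spl e').T (splε u)).prod (Gs K ρ)).nz (h D e u) (hh D e u _)) := by
  obtain ⟨c, c0, hc⟩ := w_eq D e e' u ha
  have ho : ∀ ⦃M L : Fld K⦄ (R : Rel M L) ⦃x x'⦄, ((VR D e).lin (f D e u) (hf D e u)).S.mem M x →
      ((VR D e).lin (f D e u) (hf D e u)).S.mem L x' → Cd.lift _ R.r x x' →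
      ∏ l, de D e u L x'.1.1.1.1 x'.1.1.1.2 x'.2 l ≠ 0 →
      ∏ l, de D e u M x.1.1.1.1 x.1.1.1.2 x.2 l ≠ 0 := fun _ _ R _ _ _ _ q => Rel.ne_zero
    (Rel.prod _ fun l _ => de_rel D e u R q.1.1.1.1 q.1.1.1.2 q.2 l)
  have h0 : ∀ {L : Fld K} {g : ρ → L}, ∏ l, g l ≠ 0 → ∀ l, g l ≠ 0 := fun q l =>
    Finset.prod_ne_zero_iff.1 q l (Finset.mem_univ l)
  have hr : Reg ((((D.spl e').T (splε u)).prod (Gs K ρ)).nz (h D e u) (hh D e u _)).S
      (((((Cd.mat ι (ρ ⊕ ι')).prod (.mat ι (ρ ⊕ ι'))).prod (.vec ρ)).prod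
        (.mat ρ (ρ ⊕ ι'))).prod (.vec (ρ × (ρ ⊕ ι')))) fun L z =>
      ((((z.1.2.1.submatrix Sum.inr id, z.1.2.2.submatrix Sum.inr id), fun l => -z.2 l /
        de D e u L (z.1.2.1.submatrix Sum.inr id) (z.1.2.2.submatrix Sum.inr id)
          (ze D L z.1.2.1 z.1.2.2) l), z.1.2.2.submatrix Sum.inl id), ze D L z.1.2.1 z.1.2.2) :=
    fun _ _ R _ _ _ m q => ⟨⟨⟨⟨Rel.msubm q.1.2.1 _ _, Rel.msubm q.1.2.2 _ _⟩, fun l =>
      Rel.div (Rel.neg (q.2 l)) (de_rel D e u R (Rel.msubm q.1.2.1 _ _) (Rel.msubm q.1.2.2 _ _)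
        (ze_rel D R q.1.2.1 q.1.2.2) l) (h0 m.2 l)⟩, Rel.msubm q.1.2.2 _ _⟩,
      ze_rel D R q.1.2.1 q.1.2.2⟩
  have hz : ∀ (L : Fld K) (ζ : ρ × (ρ ⊕ ι') → L) (A : Matrix ρ (ρ ⊕ ι') L)
      (H Θ : Matrix ι (ρ ⊕ ι') L), ze D L (fromRows (Matrix.of fun l x =>
        ζ (l, x) + cv L D.a (some l) * A l x) H) (fromRows A Θ) = ζ := fun L ζ A H Θ =>
    funext fun y => add_sub_cancel_right _ _
  intro c1 c2
  refine V3.emb (p := p) (X := (VR D e).lin (f D e u) (hf D e u)) (h := h D e u)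
    (a := c * (-1) ^ Fintype.card ρ) (f' := fun L x =>
    ((cm L (splε u), fromRows (Matrix.of fun l y => x.2 (l, y) + cv L D.a (some l) * x.1.2 l y)
      x.1.1.1.1, fromRows x.1.2 x.1.1.1.2), fun l =>
        -(x.1.1.2 l * de D e u L x.1.1.1.1 x.1.1.1.2 x.2 l))) (ASp.opn _ _ ho)
    ⟨⟨⟨hr, fun _ _ _ => ⟨⟨trivial, trivial⟩, trivial⟩⟩, fun L z m => ?_⟩, hh D e u _,
      fun _ _ m => m.2, mul_ne_zero c0 (pow_ne_zero _ (neg_ne_zero.2 one_ne_zero)),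
      fun L z m => ?_⟩
    ⟨⟨hr, fun _ _ m => ⟨⟨⟨trivial, trivial⟩, trivial⟩, m.2⟩⟩, ⟨fun _ _ R _ _ _ _ q =>
      ⟨⟨R.rcm _, Rel.mrows (fun l y => R.add (q.2 _) (R.mul (R.rcv _ _) (q.1.2 _ _))) q.1.1.1.1,
        Rel.mrows q.1.2 q.1.1.1.2⟩, fun l => Rel.neg (R.mul (q.1.1.2 l)
          (de_rel D e u R q.1.1.1.1 q.1.1.1.2 q.2 l))⟩, fun L x m =>
      ⟨⟨⟨trivial, fun _ _ _ => rfl⟩, trivial⟩, ?_⟩⟩, fun L z m => ?_, fun L x m => ?_⟩
    fun M O x x' m m' q => ⟨m, ho _ m m'.1 q m'.2⟩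
  · change (ph D L _ _ + 0) + ∑ y, _ * f D e u L _ y =
      ((D.spl e').T (splε u)).φ L z.1 + ∑ l, z.2 l
    rw [sum_f, ph_eq, add_zero, add_assoc, sub_eq_add_neg, ← Finset.sum_neg_distrib]
    congr 2
    exact Finset.sum_congr rfl fun l _ => by rw [div_mul_cancel₀ _ (h0 m.2 l), neg_neg]
  · change ((D.spl e').T (splε u)).g L z.1 * ∏ l, z.2 l =
      _ * ((∏ l, -z.2 l / _) * dt e _ * 1 * h D e u L z ^ 2)
    have h1 : h D e u L z ≠ 0 := m.2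
    have h2 : ((-1 : L) ^ Fintype.card ρ) ^ 2 = 1 := by rw [← pow_mul, mul_comm, pow_mul]; simp
    rw [hc L _ m.1.1, Finset.prod_div_distrib, Finset.prod_neg, map_mul, map_pow, map_neg, map_one,
      Finset.card_univ]
    change _ * (_ * h D e u L z) * _ = _ * (_ / h D e u L z * _ * 1 * _)
    field_simp
    rw [h2, mul_one]
  · change ∏ l, de D e u L _ _ (ze D L _ _) l ≠ 0
    rw [hz]
    exact m.2
  · refine Prod.ext (Prod.ext (Matrix.ext fun x i => (m.1.1.2 i trivial x).symm)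
      (Prod.ext ?_ ?_)) (funext fun l => ?_)
    · ext (l | x) y
      exacts [sub_add_cancel _ _, rfl]
    · ext (l | x) y <;> rfl
    · change -(_ / _ * _) = _
      rw [div_mul_cancel₀ _ (h0 m.2 l), neg_neg]
  · refine Prod.ext (Prod.ext (Prod.ext rfl (funext fun l => ?_)) rfl) (hz _ _ _ _ _)
    change - -(_ * _) / de D e u L _ _ (ze D L _ _) l = _
    rw [hz, neg_neg]
    exact mul_div_cancel_right₀ _ (h0 m.2 l)

end OR1a

variable {K : Type} [Field K] {p : ℕ}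

theorem OR1_thm [DA] [V3 K p] [V4 K p] : OR1 K p where
  imp {ρ ι ι'} _ _ _ _ _ _ D e e' u ha := by
    obtain ⟨c, -, hc⟩ := OR1a.w_eq D e e' u ha
    refine Imp.trans (V3.pt _).1 (Imp.trans (V3.prodL _ (V3.aff _).1)
      (Imp.trans (OR1a.zer D e u) (Imp.trans (V3.lin _ _ _).1 (Imp.trans (OR1a.emb D e e' u ha)
      (Imp.trans (V3.nz _ _ _ fun L z m q => ?_) (Imp.trans (V3.prodL _
        (V4.gg ρ (Nat.card_eq_fintype_card (α := ρ) ▸ ha.ev)).2) (V3.pt _).2))))))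
    change ((D.spl e').T (splε u)).g L z.1 * _ = 0
    rw [hc L _ m.1]
    change _ * (_ * OR1a.h D e u L z) * _ = 0
    rw [q, mul_zero, mul_zero, zero_mul]

end Pool.Agent.Lib.MP_557161_ag.HG.TW
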