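import Pool.Agent.Lib.MP_557161_ag.TW.StO

/-!
The start of the induction: the space is one constant point.
-/

namespace Pool.Agent.Lib.MP_557161_ag.HG.TW

open Pool.Agent.Lib.MP_557161_ag.DL Matrix

variable {K : Type} [Field K] {p : ℕ}

/-- A space with one constant point and phase zero. -/
lemma OT0_point [V3 K p] {c : Cd} (X : WD K c) (x0 : c.X K)
    (hm : ∀ (L : Fld K) x, X.S.mem L x ↔ x = c.map (algebraMap K L) x0)
    (hp : ∀ (L : Fld K) x, X.S.mem L x → X.φ L x = 0) : Imp p (Pt K) X := by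
  have h0 : X.S.mem (Fld.base K) x0 := (hm _ _).2 (c.map_id x0).symm
  have hg : ∀ (L : Fld K) x, X.S.mem L x → X.g L x = algebraMap K L (X.g (Fld.base K) x0) := by
    intro L x m
    rw [(hm L x).1 m]
    exact X.rg.nat (M := Fld.base K) (Algebra.ofId K L) h0
  intro cc d
  by_cases hw : X.g (Fld.base K) x0 = 0
  · refine Dead.imp (V3.gm (γ := fun _ z => z.2) (k := 1) ?_) _
    exact ⟨⟨fun _ _ _ _ _ _ _ e => e.2, fun _ _ m => m.2⟩, fun _ _ _ => rfl, fun _ _ _ _ _ => rfl,
      fun _ _ _ _ _ => rfl, fun L t x _ m => by rw [hg L x m, hw, map_zero, mul_zero], odd_one⟩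
  · have i : Iso X.S (Pt K).S (fun _ _ => fun e => e.elim) fun L _ => c.map (algebraMap K L) x0 :=
      ⟨⟨fun _ _ _ _ _ _ _ _ e => e.elim, fun _ _ _ => trivial⟩,
        ⟨fun _ _ R _ _ _ _ _ => Cd.lift_const R x0, fun L _ _ => (hm L _).2 rfl⟩,
        fun L x m => ((hm L x).1 m).symm, fun _ _ _ => funext fun e => e.elim⟩
    exact (V3.iso (h := fun _ _ => 1) (a := X.g (Fld.base K) x0)
      { toMp := i.mf
        ph := fun L x m => (hp L x m).symm
        rh := fun _ _ R _ _ _ _ _ => R.one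
        h0 := fun _ _ _ => one_ne_zero
        a0 := hw
        gh := fun L x m => by
          rw [hg L x m, one_pow, mul_one]
          exact (mul_one _).symm } i).2

theorem OT0_thm [V3 K p] : OT0 K p := by
  refine ⟨fun {ρ} _ _ a e _ => ?_⟩
  intro cc d
  refine OT0_point _ (momε a 0, 0, 0) (fun L x => ⟨fun m => ?_, fun m => ?_⟩) fun L x _ => ?_
  · refine Prod.ext (Matrix.ext fun i j => m.2 j trivial i) (Prod.ext ?_ ?_) <;>
      exact Matrix.ext fun _ j => j.1.elim0
  · subst m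
    exact ⟨trivial, fun _ _ _ => rfl⟩
  · have h1 : ∀ (A : Matrix (Fin (0 + 1) × ρ) (Fin 0 × ρ) L)
        (B : Matrix (Fin 0 × ρ) (Fin (0 + 1) × ρ) L), A * B = 0 := fun A B =>
      Matrix.ext fun i j => (Matrix.mul_apply.trans (Finset.sum_eq_zero fun k _ => k.1.elim0))
    have h2 : cm L (0 : Matrix (Option ρ) ρ K) = 0 :=
      Matrix.ext fun _ _ => map_zero (algebraMap K L)
    show (x.2.1 * cm L ((mom K 0).od a e).J0 - x.2.2 * cm L ((mom K 0).od a e).J1).trace +
      (cm L (0 : Matrix (Option ρ) ρ K) * cm L ((mom K 0).od a e).π * x.1).trace = 0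
    rw [h1, h1, h2, Matrix.zero_mul, Matrix.zero_mul, sub_zero, trace_zero, trace_zero, add_zero]

end Pool.Agent.Lib.MP_557161_ag.HG.TW
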