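import Pool.Agent.Lib.MP_557161_ag.TW.StO

/-!
Constant changes of bases in the pencil spaces.
-/

namespace Pool.Agent.Lib.MP_557161_ag.HG.TW

open Pool.Agent.Lib.MP_557161_ag.DL Matrix

namespace OTIa

section
variable {F : Type} [Field F] {m n o τ τ' : Type}

/-- A scalar and a matrix on the diagonal. -/
def og (s : F) (G : Matrix τ τ' F) : Matrix (Option τ) (Option τ') F :=
  rc (fun j => j.elim s fun _ => 0) (ccn 0 G)

lemma og_rc [Fintype τ'] (s : F) (G : Matrix τ τ' F) (ξ : n → F) (A : Matrix τ' n F) :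
    og s G * rc ξ A = rc (s • ξ) (G * A) := by
  ext i j
  cases i <;> simp [og, rc, ccn, mul_apply, Fintype.sum_option]

lemma rc_mul [Fintype n] (ξ : n → F) (A : Matrix τ n F) (B : Matrix n o F) :
    rc ξ A * B = rc (ξ ᵥ* B) (A * B) := by
  ext i j
  cases i <;> rfl

lemma og_inv [Fintype τ'] [DecidableEq τ] {s : F} (h : s ≠ 0) {G : Matrix τ τ' F}
    {G' : Matrix τ' τ F} (e : G * G' = 1) : og s⁻¹ G * og s G' = 1 := by
  ext i j
  cases i <;> cases j <;> simp [og, rc, ccn, mul_apply, Fintype.sum_option, h]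
  rw [← mul_apply, e, one_apply, one_apply]
  simp

lemma dt_ne [h : DA] [Fintype m] [DecidableEq m] [Fintype n] [DecidableEq n] (e : m ≃ n)
    {A : Matrix m n F} {B : Matrix n m F} (hA : A * B = 1) : dt e A ≠ 0 := by
  have := h.dt_mul e e.symm A B
  rw [hA, Equiv.self_trans_symm] at this
  exact left_ne_zero_of_mul_eq_one (this.symm.trans (by simp [dt]))

end

variable {K : Type} [Field K] {m n o : Type} (L : Fld K)

lemma dt_cm [Fintype m] [DecidableEq m] (e : m ≃ n) (A : Matrix m n K) :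
    dt e (cm L A) = algebraMap K L (dt e A) := ((algebraMap K L).map_det _).symm

lemma cm_mul [Fintype n] (A : Matrix m n K) (B : Matrix n o K) :
    cm L (A * B) = cm L A * cm L B := Matrix.map_mul

lemma cm_one [DecidableEq n] : cm L (1 : Matrix n n K) = 1 :=
  Matrix.map_one _ (map_zero _) (map_one _)

lemma cm_diag [DecidableEq n] (t : n → K) : cm L (diagonal t) = diagonal (cv L t) :=
  diagonal_map (map_zero _)

lemma cm_og (s : K) (G : Matrix m n K) : cm L (og s G) = og (algebraMap K L s) (cm L G) := by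
  ext i j
  cases i <;> cases j <;> simp [og, rc, ccn, cm]

variable {ρ ι ι' κ κ' : Type} [Fintype ρ] [DecidableEq ρ] [Fintype ι] [DecidableEq ι] [Fintype ι']
  [DecidableEq ι'] [Fintype κ] [DecidableEq κ] [Fintype κ'] [DecidableEq κ']

lemma wt_ch [h : DA] (e : Option ι ≃ ρ ⊕ ι') (e' : Option κ ≃ ρ ⊕ κ') {G : Matrix κ ι K}
    {Gi : Matrix ι κ K} {G' : Matrix κ' ι' K} {Gi' : Matrix ι' κ' K} {t : ρ → K} (h1 : G * Gi = 1)
    (h2 : Gi * G = 1) (h3 : Gi' * G' = 1) (ht : ∀ i, t i ≠ 0) (i : ρ) :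
    ∃ c : K, c ≠ 0 ∧ ∀ (L : Fld K) (a : ρ → L) (φ : Matrix ι ρ L) (H Θ : Matrix ι ι' L),
      wt e' a (cm L G * φ * cm L (diagonal t)) (cm L G * H * cm L Gi') (cm L G * Θ * cm L Gi') i =
        algebraMap K L c * wt e a φ H Θ i := by
  let f : Option κ ≃ Option ι := (indexEquivOfInv h1 h2).optionCongr
  let g : ρ ⊕ ι' ≃ ρ ⊕ κ' := e.symm.trans (f.symm.trans e')
  have hb : fromBlocks (diagonal t) 0 0 Gi' * fromBlocks (diagonal fun l => (t l)⁻¹) 0 0 G' = 1 := by
    simp [fromBlocks_multiply, h3, ht]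
  refine ⟨dt f (og (t i)⁻¹ G) * dt g (fromBlocks (diagonal t) 0 0 Gi'),
    mul_ne_zero (dt_ne f (og_inv (ht i) h1)) (dt_ne g hb), fun L a φ H Θ => ?_⟩
  have he : (f.trans e).trans g = e' := by
    ext x
    simp [g]
  have hc : cm L (fromBlocks (diagonal t) 0 0 Gi') = fromBlocks (diagonal (cv L t)) 0 0 (cm L Gi') := by
    rw [← cm_diag]
    simp [cm, fromBlocks_map]
  rw [map_mul, ← dt_cm, ← dt_cm, mul_right_comm, wt, wt, cf, cf, ← h.dt_mul, ← h.dt_mul, he, cm_og,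
    og_rc, rc_mul, hc, cm_diag]
  congr 2
  · ext j
    have : algebraMap K L (t i) ≠ 0 := (map_ne_zero _).2 (ht i)
    rw [smul_vecMul, single_one_vecMul]
    cases j with
    | inl j =>
      by_cases hj : i = j
      · subst hj
        simp [cv, this]
      · simp [hj, Ne.symm hj]
    | inr j => simp
  · rw [mul_fromCols, fromCols_mul_fromBlocks]
    simp only [Matrix.mul_zero, add_zero, zero_add, Matrix.mul_assoc, diagonal_mul_diagonal,
      Matrix.mul_sub, Matrix.sub_mul, Matrix.mul_smul, Matrix.smul_mul, mul_comm]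

/-- The change of bases. -/
def ch (G : Matrix κ ι K) (t : Option ρ → K) (G' : Matrix ι' κ' K) (L : Fld K)
    (z : (oc ρ ι ι').X L) : (oc ρ κ κ').X L :=
  (cm L G * z.1 * cm L (diagonal t), cm L G * z.2.1 * cm L G', cm L G * z.2.2 * cm L G')

lemma ch_mp (D : OD K ρ ι ι') (D' : OD K ρ κ κ') (G : Matrix κ ι K) (t : Option ρ → K)
    (G' : Matrix ι' κ' K) {ε : Matrix ι (Option ρ) K} {ε' : Matrix κ (Option ρ) K}
    (h : ε' = G * ε * diagonal t) : Mp (D.T ε).S (D'.T ε').S (ch G t G') where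
  reg _ _ R _ _ _ _ e := ⟨Rel.mmul (Rel.mmul (R.rcm _) e.1) (R.rcm _),
    Rel.mmul (Rel.mmul (R.rcm _) e.2.1) (R.rcm _), Rel.mmul (Rel.mmul (R.rcm _) e.2.2) (R.rcm _)⟩
  mem L z m := ⟨trivial, fun i _ x => by
    have e : z.1 = cm L ε := Matrix.ext fun x i => m.2 i trivial x
    rw [h, cm_mul, cm_mul, ← e]
    rfl⟩

omit [DecidableEq κ] [DecidableEq κ'] in
lemma ch_ch {G : Matrix κ ι K} {Gi : Matrix ι κ K} {G' : Matrix κ' ι' K} {Gi' : Matrix ι' κ' K}
    {t t' : Option ρ → K} (h1 : Gi * G = 1) (h2 : Gi' * G' = 1) (h3 : diagonal t * diagonal t' = 1)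
    (z : (oc ρ ι ι').X L) : ch Gi t' G' L (ch G t Gi' L z) = z := by
  have k : ∀ {n n' : Type} [Fintype n] [Fintype n'] [DecidableEq n] (A : Matrix ι n L)
      (B : Matrix n n' K) (B' : Matrix n' n K), B * B' = 1 →
      cm L Gi * (cm L G * A * cm L B) * cm L B' = A := fun A B B' e => by
    rw [Matrix.mul_assoc (cm L G), ← Matrix.mul_assoc (cm L Gi), ← cm_mul, h1, cm_one,
      Matrix.one_mul, Matrix.mul_assoc, ← cm_mul, e, cm_one, Matrix.mul_one]
  exact Prod.ext (k _ _ _ h3) (Prod.ext (k _ _ _ h2) (k _ _ _ h2))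

end OTIa

variable {K : Type} [Field K] {p : ℕ}

open OTIa in
theorem OTI_thm [DA] [V3 K p] : OTI K p where
  imp {ρ ι ι' κ κ'} _ _ _ _ _ _ _ _ _ _ D D' G Gi G' Gi' t ε ha h1 h2 h3 h4 h5 h6 ht := by
    choose c c0 hc using wt_ch D.e D'.e h1 h2 h4 ht
    have d1 : diagonal t * diagonal (fun i => (t i)⁻¹) = 1 := by simp [ht]
    have d2 : diagonal (fun i => (t i)⁻¹) * diagonal t = 1 := by simp [ht]
    have p0 : ∏ i, c i ≠ 0 := Finset.prod_ne_zero_iff.2 fun i _ => c0 i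
    have m1 := ch_mp D D' G t Gi' (ε := ε) rfl
    have m2 := ch_mp D' D Gi (fun i => (t i)⁻¹) G' (ε := G * ε * diagonal t) (ε' := ε) (by
      rw [Matrix.mul_assoc G, ← Matrix.mul_assoc Gi, h2, Matrix.one_mul, Matrix.mul_assoc, d1,
        Matrix.mul_one])
    intro cc d
    refine (V3.iso (h := fun _ _ => 1) (a := (∏ i, c i)⁻¹)
      ⟨⟨m1, fun L z _ => ?_⟩, fun _ _ R _ _ _ _ _ => R.one, fun _ _ _ => one_ne_zero, inv_ne_zero p0,
        fun L z _ => ?_⟩
      ⟨m1, m2, fun L z _ => ch_ch L h2 h4 d1 z, fun L z _ => ch_ch L h1 h3 d2 z⟩).2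
    · have k : ∀ (A : Matrix ι ι' L) (J : Matrix ι' ι K) (J' : Matrix κ' κ K), J' * G = G' * J →
          (cm L G * A * cm L Gi' * cm L J').trace = (A * cm L J).trace := fun A J J' e => by
        rw [Matrix.mul_assoc, Matrix.mul_assoc, trace_mul_comm, Matrix.mul_assoc, ← cm_mul,
          ← cm_mul, Matrix.mul_assoc, e, ← Matrix.mul_assoc, h4, Matrix.one_mul]
      have z0 : ∀ {m : Type} [Fintype m] (A : Matrix ρ m L) (B : Matrix m (Option ρ) L),
          (cm L (0 : Matrix (Option ρ) ρ K) * A * B).trace = 0 := fun A B => by simp [cm]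
      refine congrArg₂ (· + ·) ?_ ((z0 _ _).trans (z0 _ _).symm)
      exact (trace_sub _ _).trans
        ((congrArg₂ (· - ·) (k _ _ _ h5) (k _ _ _ h6)).trans (trace_sub _ _).symm)
    · change ∏ i, wt D.e (cv L D.a) z.1 z.2.1 z.2.2 i = _ * ((∏ i, wt D'.e (cv L D'.a)
        (cm L G * z.1 * cm L (diagonal t)) (cm L G * z.2.1 * cm L Gi')
        (cm L G * z.2.2 * cm L Gi') i) * 1 ^ 2)
      simp only [hc, ha, Finset.prod_mul_distrib, ← map_prod]
      rw [one_pow, mul_one, ← mul_assoc, ← map_mul, inv_mul_cancel₀ p0, map_one, one_mul]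

end Pool.Agent.Lib.MP_557161_ag.HG.TW
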