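import Pool.Agent.Lib.MP_557161_ag.TW.DA
import Pool.Agent.Lib.MP_557161_ag.TW.OJ
import Pool.Agent.Lib.MP_557161_ag.TW.ODD
import Pool.Agent.Lib.MP_557161_ag.TW.OA1
import Pool.Agent.Lib.MP_557161_ag.TW.OA2
import Pool.Agent.Lib.MP_557161_ag.TW.OTI
import Pool.Agent.Lib.MP_557161_ag.TW.OKR
import Pool.Agent.Lib.MP_557161_ag.TW.ONM
import Pool.Agent.Lib.MP_557161_ag.TW.OR0
import Pool.Agent.Lib.MP_557161_ag.TW.OR1
import Pool.Agent.Lib.MP_557161_ag.TW.OR2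
import Pool.Agent.Lib.MP_557161_ag.TW.OB2
import Pool.Agent.Lib.MP_557161_ag.TW.OB3
import Pool.Agent.Lib.MP_557161_ag.TW.OT0
import Pool.Agent.Lib.MP_557161_ag.TW.OI

/-!
The evaluation of the node model from the general tools.
-/

namespace Pool.Agent.Lib.MP_557161_ag.HG.TW

theorem OI_all {K : Type} [Field K] {p : ℕ} (h2 : (2 : K) ≠ 0) [V3 K p] [V4 K p] [V5 K p] :
    OI K p :=
  haveI : DA := DA_thm
  haveI : OJ K p := OJ_thm h2
  haveI : ODD K p := ODD_thm h2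
  haveI : OA1 K p := OA1_thm h2
  haveI : OA2 K p := OA2_thm h2
  haveI : OTI K p := OTI_thm
  haveI : OKR K := OKR_thm
  haveI : ONM K p := ONM_thm
  haveI : OR0 K p := OR0_thm
  haveI : OR1 K p := OR1_thm
  haveI : OR2 K p := OR2_thm h2
  haveI : OB2 K p := OB2_thm
  haveI : OB3 K p := OB3_thm
  haveI : OT0 K p := OT0_thm
  OI_thm

end Pool.Agent.Lib.MP_557161_ag.HG.TW
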