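import Pool.Agent.Lib.MP_557161_ag.TW.StO

/-!
The reduction step, second half.
-/

namespace Pool.Agent.Lib.MP_557161_ag.HG.TW

open Pool.Agent.Lib.MP_557161_ag.DL Matrix

namespace OR2a

variable {K : Type} [Field K] {ρ ι ι' : Type}

/-- Regrouping of the columns. -/
def eo (ρ ι' : Type) : Option ρ ⊕ ι' ≃ Option (ρ ⊕ ι') where
  toFun := Sum.elim (Option.map Sum.inl) fun y => some (.inr y)
  invFun o := o.elim (.inl none) (Sum.elim (fun l => .inl (some l)) .inr)
  left_inv := by rintro ((_ | l) | y) <;> rfl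
  right_inv := by rintro (_ | l | y) <;> rfl

lemma cf_re [hD : DA] {τ n n' : Type} [Fintype τ] [DecidableEq τ] [DecidableEq n] [DecidableEq n']
    (e₁ : Option τ ≃ n) (e₂ : Option τ ≃ n') (e' : n ≃ n') : ∃ ε : ℤ, ε * ε = 1 ∧
    ∀ {L : Type} [Field L] (B : Matrix τ n' L) (j : n),
      cf e₁ (B.submatrix id e') j = ε * cf e₂ B (e' j) := by
  obtain ⟨ε, h1, h2⟩ := hD.dt_sign (e₁.trans e') e₂
  refine ⟨ε, h1, fun {L} _ B j => ?_⟩
  rw [cf, cf, ← h2]
  have : rc (Pi.single j 1) (B.submatrix id e') = (rc (Pi.single (e' j) 1) B).submatrix id e' := by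
    ext (_ | i) k
    · simp [rc, Pi.single_apply]
    · rfl
  rw [this]
  rfl

lemma cf_none {L : Type} [Field L] {τ n : Type} [Fintype τ] [DecidableEq τ] [DecidableEq n]
    (e : τ ≃ n) (v : τ → L) (B : Matrix τ n L) : cf e.optionCongr (ccn v B) none = dt e B := by
  rw [cf, dt, dt, ← det_submatrix_equiv_self (Equiv.optionEquivSumPUnit.{0, 0} τ).symm]
  have : ((rc (Pi.single none 1) (ccn v B)).submatrix id e.optionCongr).submatrix
      (Equiv.optionEquivSumPUnit.{0, 0} τ).symm (Equiv.optionEquivSumPUnit.{0, 0} τ).symm =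
      fromBlocks (B.submatrix id e) (Matrix.of fun i _ => v i) 0 1 := by
    ext (i | i) (j | j) <;> simp [rc, ccn]
  rw [this, det_fromBlocks_zero₂₁, det_one, mul_one]

lemma cast_ne {ε : ℤ} (h : ε * ε = 1) : (ε : K) ≠ 0 := fun e => by
  have := congrArg (Int.cast : ℤ → K) h
  rw [Int.cast_mul, e, mul_zero, Int.cast_one] at this
  exact zero_ne_one this

variable [Fintype ρ] [DecidableEq ρ] [Fintype ι] [DecidableEq ι] [Fintype ι'] [DecidableEq ι']
  (D : OD K ρ ι ι') (e : ι ≃ ρ ⊕ ι') (u : ι → K)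

/-- The first matrix. -/
def HH (L : Fld K) (φ : Matrix ι (Option ρ) L) (H : Matrix ι ι' L) : Matrix ι (ρ ⊕ ι') L :=
  fromCols (Matrix.of fun x l => -(φ x (some l) * cv L D.a (some l))) H

/-- The second matrix. -/
def TT (L : Fld K) (φ : Matrix ι (Option ρ) L) (Θ : Matrix ι ι' L) (μ : ρ → L) :
    Matrix ι (ρ ⊕ ι') L :=
  fromCols (Matrix.of fun x l => cv L u x * μ l - φ x (some l)) Θ

variable {D}

lemma a_ne (ha : AH D.a) (l : ρ) : D.a (some l) ≠ 0 := fun h =>
  Option.some_ne_none l (ha.ai (h.trans ha.a0.symm))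

lemma cv_ne (ha : AH D.a) (L : Fld K) (l : ρ) : cv L D.a (some l) ≠ 0 :=
  (map_ne_zero _).2 (a_ne ha l)

lemma cv_none (ha : AH D.a) (L : Fld K) : cv L D.a none = 0 := by rw [cv, ha.a0, map_zero]

variable [hD : DA]

lemma w0 (ha : AH D.a) : ∃ c : K, c ≠ 0 ∧ ∀ (L : Fld K) (φ : Matrix ι (Option ρ) L)
    (H Θ : Matrix ι ι' L),
    wt D.e (cv L D.a) φ H Θ none = algebraMap K L c * dt e (HH D L φ H) := by
  obtain ⟨ε, h1, h2⟩ := cf_re D.e e.optionCongr (eo ρ ι')
  let d : ρ ⊕ ι' → K := Sum.elim (fun _ => -1) fun _ => 1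
  refine ⟨ε * ∏ j, d j, mul_ne_zero (cast_ne h1) (Finset.prod_ne_zero_iff.2 ?_),
    fun L φ H Θ => ?_⟩
  · rintro (j | j) - <;> simp [d]
  have : fromCols (φ * diagonal fun l => cv L D.a l - cv L D.a none) (H - cv L D.a none • Θ) =
      (ccn 0 (HH D L φ H * diagonal (cv L d))).submatrix id (eo ρ ι') := by
    ext x ((_ | l) | y) <;> simp [ccn, eo, HH, d, cv, ha.a0]
  rw [wt, this, h2]
  change _ * cf _ _ none = _
  have k := hD.dt_mul e (Equiv.refl _) (HH D L φ H) (diagonal (cv L d))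
  rw [Equiv.trans_refl] at k
  rw [cf_none, k, map_mul, map_intCast, map_prod]
  simp only [dt, Equiv.coe_refl, submatrix_id_id, det_diagonal, cv]
  ring

lemma w1 (ha : AH D.a) (l : ρ) : ∃ c : K, c ≠ 0 ∧ ∀ (L : Fld K) (φ : Matrix ι (Option ρ) L)
    (H Θ : Matrix ι ι' L) (μ : ρ → L), (∀ x, φ x none = cv L u x) →
    wt D.e (cv L D.a) φ H Θ (some l) =
      algebraMap K L c * D.zc e u L (HH D L φ H) (TT u L φ Θ μ) l (some (.inl l)) := by
  obtain ⟨ε, h1, h2⟩ := cf_re D.e e.optionCongr (eo ρ ι')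
  let d : Option ρ ⊕ ι' → K :=
    Sum.elim (fun o => o.elim (-(D.a (some l))⁻¹) fun _ => -1) fun _ => 1
  have d0 : ∏ j, d j ≠ 0 := Finset.prod_ne_zero_iff.2 (by
    rintro ((_ | j) | j) - <;> simp [d, a_ne ha])
  refine ⟨-ε / ∏ j, d j, div_ne_zero (neg_ne_zero.2 (cast_ne h1)) d0, fun L φ H Θ μ hφ => ?_⟩
  let ν : Option ρ ⊕ ι' → L := Sum.elim (fun o => o.elim 0 fun m => -μ m) fun _ => 0
  let g : Matrix (Option ρ ⊕ ι') (Option ρ ⊕ ι') L :=
    (1 + vecMulVec (Pi.single (Sum.inl none) 1) ν) * diagonal (cv L d)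
  have a0 := cv_ne ha L l
  have g1 : dt (Equiv.refl _) g = algebraMap K L (∏ j, d j) := by
    simp only [dt, Equiv.coe_refl, submatrix_id_id, g, det_mul, det_diagonal, map_prod, cv]
    rw [vecMulVec_eq Unit, det_one_add_replicateCol_mul_replicateRow]
    simp [ν]
  have g2 : fromCols (φ * diagonal fun m => cv L D.a m - cv L D.a (some l))
      (H - cv L D.a (some l) • Θ) * g = (ccn (cv L u) (HH D L φ H -
        cv L D.a (some l) • TT u L φ Θ μ)).submatrix id (eo ρ ι') := by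
    ext x j
    simp only [g]
    rw [← Matrix.mul_assoc, mul_diagonal, Matrix.mul_add, Matrix.mul_one, Matrix.add_apply,
      mul_vecMulVec, vecMulVec_apply, mulVec_single_one]
    have c1 : cv L d (.inl none) = -(cv L D.a (some l))⁻¹ := by simp [cv, d]
    have c2 : ∀ m, cv L d (.inl (some m)) = -1 := fun m => by simp [cv, d]
    have c3 : ∀ y, cv L d (.inr y) = 1 := fun m => by simp [cv, d]
    rcases j with (_ | m) | y
    · simp [c1, ν, ccn, eo, hφ, cv_none ha, a0]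
    · simp [c2, ν, ccn, eo, hφ, cv_none ha, HH, TT]
      ring
    · simp [c3, ν, ccn, eo, HH, TT]
  have k := congrFun (hD.cf_right D.e (Equiv.refl _) (fromCols (φ * diagonal fun m =>
    cv L D.a m - cv L D.a (some l)) (H - cv L D.a (some l) • Θ)) g) (.inl (some l))
  rw [Equiv.trans_refl, g2, g1, Pi.smul_apply, smul_eq_mul] at k
  simp only [g] at k
  rw [← mulVec_mulVec, add_mulVec, one_mulVec, Pi.add_apply, mulVec_diagonal, h2,
    vecMulVec_mulVec] at k
  have c2 : cv L d (.inl (some l)) = -1 := by simp [cv, d]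
  have d1 : algebraMap K L (∏ j, d j) ≠ 0 := (map_ne_zero _).2 d0
  rw [wt, map_div₀, map_neg, map_intCast, div_mul_eq_mul_div, eq_div_iff d1, mul_comm, ← k, c2]
  simp [OD.zc, eo]

lemma ww (ha : AH D.a) : ∃ c : K, c ≠ 0 ∧ ∀ (L : Fld K) (φ : Matrix ι (Option ρ) L)
    (H Θ : Matrix ι ι' L) (μ : ρ → L), (∀ x, φ x none = cv L u x) →
    D.w L (φ, H, Θ) = algebraMap K L c * (dt e (HH D L φ H) *
      ∏ l, D.zc e u L (HH D L φ H) (TT u L φ Θ μ) l (some (.inl l))) := by
  obtain ⟨c, c0, h⟩ := w0 e ha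
  choose c' c0' h' using w1 e u ha
  refine ⟨c * ∏ l, c' l, mul_ne_zero c0 (Finset.prod_ne_zero_iff.2 fun l _ => c0' l),
    fun L φ H Θ μ hφ => ?_⟩
  simp only [OD.w, Fintype.prod_option, h, h' _ L φ H Θ μ hφ, Finset.prod_mul_distrib, map_mul,
    map_prod]
  ring

lemma ker (ha : AH D.a) {L : Fld K} (φ : Matrix ι (Option ρ) L) (H Θ : Matrix ι ι' L) (μ : ρ → L)
    (l : ρ) (j : Option (ρ ⊕ ι')) : D.zc e u L (HH D L φ H) (TT u L φ Θ μ) l j =
      D.zc e u L (HH D L φ H) (TT u L φ Θ μ) l (some (.inl l)) *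
        j.elim (cv L D.a (some l) * μ l) fun x => if x = .inl l then 1 else 0 := by
  have := hD.cf_prop e.optionCongr (ccn (cv L u) (HH D L φ H - cv L D.a (some l) • TT u L φ Θ μ))
    (fun j => j.elim (cv L D.a (some l) * μ l) fun x => if x = .inl l then 1 else 0) (by
      ext x
      simp [mulVec, dotProduct, Fintype.sum_option, ccn, HH, TT]
      ring) j (some (.inl l))
  simpa [OD.zc] using this

variable (D)

/-- The shape of the middle space. -/
abbrev zsh (ρ ι ι' : Type) [Finite ρ] [Finite ι] [Finite ι'] : Cd :=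
  ((Cd.mat ι (ρ ⊕ ι')).prod (.mat ι (ρ ⊕ ι'))).prod (.vec ρ)

/-- The embedding. -/
noncomputable def ff (L : Fld K) (z : (zsh ρ ι ι').X L) : ((oc ρ ι ι').prod (.vec ρ)).X L :=
  ((ccn (cv L u) (Matrix.of fun x l => -(z.1.1 x (.inl l) * cv L (fun l => (D.a (some l))⁻¹) l)),
    z.1.1.submatrix id .inr, z.1.2.submatrix id .inr),
    fun l => z.2 l * D.zc e u L z.1.1 z.1.2 l none * cv L (fun l => (D.a (some l))⁻¹) l)

/-- The cofactor that defines the image. -/
noncomputable def zz (L : Fld K) (z : ((oc ρ ι ι').prod (.vec ρ)).X L) (l : ρ) : L :=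
  D.zc e u L (HH D L z.1.1 z.1.2.1) (TT u L z.1.1 z.1.2.2 z.2) l (some (.inl l))

/-- The inverse. -/
noncomputable def gg (L : Fld K) (z : ((oc ρ ι ι').prod (.vec ρ)).X L) : (zsh ρ ι ι').X L :=
  ((HH D L z.1.1 z.1.2.1, TT u L z.1.1 z.1.2.2 z.2), fun l => (zz D e u L z l)⁻¹)

section
variable {M L : Fld K} (R : Rel M L) {z : ((oc ρ ι ι').prod (.vec ρ)).X M}
  {z' : ((oc ρ ι ι').prod (.vec ρ)).X L} (h : ((oc ρ ι ι').prod (.vec ρ)).lift R.r z z')
include h

omit hD in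
lemma rH : R.m' (HH D M z.1.1 z.1.2.1) (HH D L z'.1.1 z'.1.2.1) :=
  Rel.mcols (fun x l => Rel.neg (R.mul (h.1.1 x _) (R.rcv _ _))) h.1.2.1

omit hD in
lemma rT : R.m' (TT u M z.1.1 z.1.2.2 z.2) (TT u L z'.1.1 z'.1.2.2 z'.2) :=
  Rel.mcols (fun x l => Rel.sub (R.mul (R.rcv _ _) (h.2 l)) (h.1.1 x _)) h.1.2.2

omit hD in
lemma rz (l : ρ) : R.r (zz D e u M z l) (zz D e u L z' l) :=
  D.zc_rel e u R (rH D R h) (rT u R h) l _

end

/-- The image. -/
noncomputable def UU : ASp K ((oc ρ ι ι').prod (.vec ρ)) :=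
  ((D.M u).prod (Aff K (.vec ρ))).S.opn (fun L z => ∀ l, zz D e u L z l ≠ 0)
    fun _ _ R _ _ _ _ h q l => Rel.ne_zero (rz D e u R h l) (q l)

variable {D}

omit hD in
lemma cv_inv (L : Fld K) (l : ρ) :
    cv L (fun l => (D.a (some l))⁻¹) l = (cv L D.a (some l))⁻¹ := map_inv₀ _ _

omit hD in
lemma h_ff (ha : AH D.a) (L : Fld K) (z : (zsh ρ ι ι').X L) :
    HH D L (ff D e u L z).1.1 (ff D e u L z).1.2.1 = z.1.1 := by
  ext x (l | y)
  · simp [HH, ff, ccn, cv_inv, cv_ne ha]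
  · rfl

lemma t_ff (ha : AH D.a) {L : Fld K} {z : (zsh ρ ι ι').X L} (m : (D.ZR e u).S.mem L z) :
    TT u L (ff D e u L z).1.1 (ff D e u L z).1.2.2 (ff D e u L z).2 = z.1.2 := by
  ext x (l | y)
  · have k := congrFun (hD.mul_cf e.optionCongr
      (ccn (cv L u) (z.1.1 - cv L D.a (some l) • z.1.2))) x
    have k' := congrArg (z.2 l * ·) k
    have q : ∀ y, z.2 l * cf e.optionCongr (ccn (cv L u) (z.1.1 - cv L D.a (some l) • z.1.2))
        (some y) = if y = Sum.inl l then 1 else 0 := m.2 l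
    simp only [mulVec, dotProduct, Fintype.sum_option, mul_add, Finset.mul_sum, mul_left_comm (z.2 l),
      q, mul_ite, mul_one, mul_zero, Finset.sum_ite_eq', Finset.mem_univ, if_true,
      Pi.zero_apply] at k'
    have a0 := cv_ne ha L l
    change cv L u x * (z.2 l * D.zc e u L z.1.1 z.1.2 l none) +
      (z.1.1 x (.inl l) - cv L D.a (some l) * z.1.2 x (.inl l)) = 0 at k'
    change cv L u x * (z.2 l * D.zc e u L z.1.1 z.1.2 l none * _) - -(z.1.1 x (.inl l) * _) = _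
    rw [cv_inv]
    field_simp
    linear_combination k'
  · rfl

lemma g_ff (ha : AH D.a) {L : Fld K} {z : (zsh ρ ι ι').X L} (m : (D.ZR e u).S.mem L z) (l : ρ) :
    z.2 l * zz D e u L (ff D e u L z) l = 1 := by
  rw [zz, h_ff e u ha, t_ff e u ha m]
  exact (m.2 l _).trans (if_pos rfl)

omit hD in
lemma reg_f : Reg (D.ZR e u).S _ (ff D e u) := fun _ _ R _ _ _ _ h =>
  ⟨⟨Rel.mccn (R.rcv u) fun x l => Rel.neg (R.mul (h.1.1 x _) (R.rcv _ l)), Rel.msubm h.1.1 _ _,
    Rel.msubm h.1.2 _ _⟩,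
    fun l => R.mul (R.mul (h.2 l) (D.zc_rel e u R h.1.1 h.1.2 l _)) (R.rcv _ l)⟩

omit hD in
lemma mem_f (L : Fld K) (z : (zsh ρ ι ι').X L) :
    ((D.M u).prod (Aff K (.vec ρ))).S.mem L (ff D e u L z) :=
  ⟨⟨trivial, by rintro _ rfl x; rfl⟩, trivial⟩

lemma iso (ha : AH D.a) : Iso (D.ZR e u).S (UU D e u) (ff D e u) (gg D e u) where
  mf := ⟨reg_f e u, fun L z m => ⟨mem_f e u L z, fun l =>
    right_ne_zero_of_mul_eq_one (g_ff e u ha m l)⟩⟩
  mg := ⟨fun _ _ R _ _ _ m' h => ⟨⟨rH D R h, rT u R h⟩, fun l => R.inv (rz D e u R h l) (m'.2 l)⟩,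
    fun L z m => ⟨trivial, fun l x => by
      have := m.2 l
      simp only [gg]
      rw [ker e u ha, ← mul_assoc]
      change (zz D e u L z l)⁻¹ * zz D e u L z l * _ = _
      rw [inv_mul_cancel₀ this, one_mul]
      rfl⟩⟩
  gf L z m := by
    refine Prod.ext (Prod.ext (h_ff e u ha L z) (t_ff e u ha m)) (funext fun l => ?_)
    exact (eq_inv_of_mul_eq_one_left (g_ff e u ha m l)).symm
  fg L z m := by
    refine Prod.ext (Prod.ext ?_ (Prod.ext rfl rfl)) (funext fun l => ?_)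
    · ext x (_ | l)
      · exact (m.1.1.2 none rfl x).symm
      · simp [ff, gg, HH, ccn, cv_inv, cv_ne ha]
    · have := m.2 l
      have a0 := cv_ne ha L l
      simp only [ff, gg]
      rw [ker e u ha, cv_inv]
      change (zz D e u L z l)⁻¹ * (zz D e u L z l * (cv L D.a (some l) * z.2 l)) * _ = _
      field_simp

omit hD in
lemma ph_f (L : Fld K) (z : (zsh ρ ι ι').X L) :
    ((D.M u).prod (Aff K (.vec ρ))).φ L (ff D e u L z) = (D.ZR e u).φ L z := by
  change D.ph L (ff D e u L z).1 + 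
    (cm L (rc 0 (1 : Matrix ρ ρ K)) * cm L D.π * (ff D e u L z).1.1).trace + 0 =
    (z.1.1 * cm L (fromRows (-((diagonal fun l => (D.a (some l))⁻¹) * D.π)) D.J0) -
      z.1.2 * cm L (fromRows (0 : Matrix ρ ι K) D.J1)).trace
  have k : cm L (rc 0 (1 : Matrix ρ ρ K)) * cm L D.π = rc 0 (cm L D.π) := by
    ext (_ | l) x <;> simp [cm, rc, mul_apply, one_apply]
  have k' : ∀ A : Matrix ι (ρ ⊕ ι') L, A * cm L (fromRows (0 : Matrix ρ ι K) D.J1) =
      A.submatrix id Sum.inr * cm L D.J1 := fun A => by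
    ext x y
    simp [cm, mul_apply, Fintype.sum_sum_type]
  rw [k, k']
  simp only [OD.ph, ff, trace, diag_apply, Matrix.sub_apply, mul_apply, Fintype.sum_sum_type,
    Fintype.sum_option, rc, ccn, of_apply, Option.elim, cm, cv, map_apply, fromRows_apply_inl,
    fromRows_apply_inr, Matrix.neg_apply, diagonal_apply, ite_mul, zero_mul, Finset.sum_ite_eq,
    Finset.mem_univ, if_true, Matrix.zero_apply, map_zero, mul_zero, Finset.sum_const_zero, zero_add,
    add_zero, submatrix_apply, id, Pi.zero_apply, map_neg, map_mul, Finset.sum_sub_distrib,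
    Finset.sum_add_distrib]
  rw [Finset.sum_comm (s := (Finset.univ : Finset ρ))]
  simp only [mul_neg, mul_comm, mul_left_comm]
  ring

end OR2a

variable {K : Type} [Field K] {p : ℕ}

open OR2a in
theorem OR2_thm (_h2 : (2 : K) ≠ 0) [DA] [h3 : V3 K p] : OR2 K p where
  imp {ρ ι ι'} _ _ _ _ _ _ D e u ha := by
    obtain ⟨c, c0, hc⟩ := ww e u ha
    have w : WMp (D.ZR e u) ((D.M u).prod (Aff K (.vec ρ))) (ff D e u) (fun _ z => ∏ l, z.2 l) c⁻¹ :=
      { reg := reg_f e u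
        mem := fun L z _ => mem_f e u L z
        ph := fun L z _ => ph_f e u L z
        rh := fun _ _ _ _ _ _ _ h => Rel.prod _ fun l _ => h.2 l
        h0 := fun L z m => Finset.prod_ne_zero_iff.2 fun l _ =>
          left_ne_zero_of_mul_eq_one (g_ff e u ha m l)
        a0 := inv_ne_zero c0
        gh := fun L z m => by
          have k := hc L (ff D e u L z).1.1 (ff D e u L z).1.2.1 (ff D e u L z).1.2.2
            (ff D e u L z).2 fun _ => rfl
          have k' : (∏ l, z.2 l) * ∏ l, zz D e u L (ff D e u L z) l = 1 := by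
            rw [← Finset.prod_mul_distrib]
            exact Finset.prod_eq_one fun l _ => g_ff e u ha m l
          have c1 : algebraMap K L c ≠ 0 := (map_ne_zero _).2 c0
          change (∏ l, z.2 l) * dt e z.1.1 =
            _ * (D.w L (ff D e u L z).1 * 1 * (∏ l, z.2 l) ^ 2)
          rw [k, map_inv₀]
          change _ = _ * (_ * (dt e (HH D L _ _) * ∏ l, zz D e u L (ff D e u L z) l) * 1 * _)
          rw [h_ff e u ha]
          field_simp
          linear_combination (-(dt e z.1.1) * ∏ l, z.2 l) * k' }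
    intro cc d
    exact Imp.trans (h3.pt _).1 (Imp.trans (h3.prodL _ (h3.aff (.vec ρ)).1)
      (h3.emb (UU D e u) w (iso e u ha) fun M O x x' m m' l =>
        ⟨m, fun i => Rel.ne_zero (rz D e u _ l i) (m'.2 i)⟩))

end Pool.Agent.Lib.MP_557161_ag.HG.TW
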