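import Pool.Agent.Lib.MP_557161_ag.TW.Wd

/-!
Tools for the computation of divisors on the space of two by two matrices.
-/

namespace Pool.Agent.Lib.MP_557161_ag.HG.TW

open Pool.Agent.Lib.MP_557161_ag.DL Matrix

namespace S2x

variable {K : Type} [Field K] {c d : Cd} {p i j : ℕ} {L M N : Fld K}

lemma gα (α : L →ₐ[K] M) {κ : Type} (T : κ → M) (a : L) : α a ∈ gen α T :=
  IntermediateField.subset_adjoin _ _ (Or.inl ⟨a, rfl⟩)

lemma gT (α : L →ₐ[K] M) {κ : Type} (T : κ → M) (a : κ) : T a ∈ gen α T :=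
  IntermediateField.subset_adjoin _ _ (Or.inr ⟨a, rfl⟩)

lemma grd (α : L →ₐ[K] M) (O : Pl M) {κ : Type} (t : κ → O.res) (a : L) :
    O.rd (α a) ∈ gen (Pl.over_comap α O).resHom t := by
  rw [← (Pl.over_comap α O).resHom_rd]; exact gα _ _ _

lemma all_rd (α : L →ₐ[K] M) (O : Pl M) {κ : Type} (t : κ → O.res) (x : c.X L) :
    c.all (· ∈ gen (Pl.over_comap α O).resHom t) (c.map O.rd (c.map α x)) :=
  (c.all_iff _ _).2 fun a => by rw [c.co_map, c.co_map]; exact grd α O t _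

lemma hasS_add {β : Type} {f g : β → ℂ} {a b : ℂ} (h : HasS f a) (h' : HasS g b) :
    HasS (fun x => f x + g x) (a + b) :=
  ⟨(h.1.union h'.1).subset (Function.support_add f g), by
    rw [finsum_add_distrib h.1 h'.1, h.2, h'.2]⟩

lemma hasS_eq {β : Type} {f : β → ℂ} {a b : ℂ} (h : HasS f a) (h' : HasS f b) : a = b :=
  h.2.symm.trans h'.2

lemma root_mem {O : Pl M} {a b : M} (h1 : a + b ∈ O.O) (h2 : a * b ∈ O.O) : a ∈ O.O := by
  by_contra h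
  have h3 := (O.O.mem_or_inv_mem a).resolve_left h
  have h0 : a ≠ 0 := fun e => h (e ▸ zero_mem _)
  by_cases hb : b ∈ O.O
  · exact h (by simpa using sub_mem h1 hb)
  · exact hb (by simpa [mul_assoc, mul_comm a b, h0] using mul_mem h2 h3)

/-- Only the zero place contributes. -/
lemma zsum [FA2 K] {α : L →ₐ[K] M} {κ : Type} [Finite κ] {T : κ → M} (hT : Free i α T)
    (hc : i + Nat.card κ = j + 1) (s : κ) (h0 : T s ≠ 0) (G : Dv M j → ℂ)
    (hG : ∀ O, G O ≠ 0 → (∀ a, T a ∈ O.1.O) ∧ (O.1.rd (T s) = 0 → ∀ m, m < j →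
      ¬ (O.1.res.sub (gen (Pl.over_comap α O.1).resHom fun a => O.1.rd (T a))).tr ≤ m)) :
    ∃ (O : Dv M j) (h : Pl.Triv α O.1), (∀ a, T a ∈ O.1.O) ∧ O.1.rd (T s) = 0 ∧
      Free i h.hom (fun a : {a // a ≠ s} => O.1.rd (T a)) ∧
      HasS (fun O' => (O'.1.ord (T s) : ℂ) * G O') (G O) := by
  obtain ⟨O, h, h1, h2, h3, h4, h5⟩ := FA2.zero hT hc s
  have key : ∀ O', O' ≠ O → (O'.1.ord (T s) : ℂ) * G O' = 0 := fun O' hne => by
    by_contra hn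
    obtain ⟨g1, g2⟩ := hG O' (right_ne_zero_of_mul hn)
    have ho : O'.1.ord (T s) ≠ 0 := by exact_mod_cast left_ne_zero_of_mul hn
    have hr := ((Pl.ord_pos_iff O'.2.1 h0).1
      (lt_of_le_of_ne ((Pl.ord_nonneg_iff O'.2.1).2 (g1 s)) ho.symm)).2
    obtain ⟨m, hm, hm'⟩ := h5 O' hne g1 hr
    exact g2 hr m hm hm'
  refine ⟨O, h, h1, h3, h4, (Set.finite_singleton O).subset fun O' hO' => ?_, ?_⟩
  · by_contra hne
    exact hO' (key O' hne)
  · rw [finsum_eq_single _ O key, h2, Int.cast_one, one_mul]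

variable {E : WD K c} {W : ASp K d}

/-- The value at the reduction of a point. -/
noncomputable def G (Φ : ANF p j E W) (z : c.X M) (v y : M) (w : d.X M) (O : Pl M) : ℂ :=
  rv (c := ((c.prod .one).prod .one).prod d) Φ.toPre.a O (((z, v), y), w)

variable (Φ : ANF p j E W) {z : c.X M} {v y : M} {w : d.X M} {O : Pl M}

lemma G_ne (h : G Φ z v y w O ≠ 0) : c.all (· ∈ O.O) z ∧ v ∈ O.O ∧ y ∈ O.O ∧ d.all (· ∈ O.O) w ∧
    Φ.e O.res (c.map O.rd z) (O.rd v) (O.rd y) (d.map O.rd w) ≠ 0 := by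
  unfold G rv at h
  split_ifs at h with h1
  · exact ⟨h1.1.1.1, h1.1.1.2, h1.1.2, h1.2, h⟩
  · exact absurd rfl h

lemma G_eq {z' : c.X O.res} {v' y' : O.res} {w' : d.X O.res} (hz : c.lift (Rel.ofPl O).r z z')
    (hv : (Rel.ofPl O).r v v') (hy : (Rel.ofPl O).r y y') (hw : d.lift (Rel.ofPl O).r w w') :
    G Φ z v y w O = Φ.e O.res z' v' y' w' := by
  obtain ⟨h1, rfl⟩ := (Cd.lift_pl O).1 hz
  obtain ⟨h2, rfl⟩ := (Cd.lift_pl O).1 hw
  obtain ⟨h3, rfl⟩ := hv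
  obtain ⟨h4, rfl⟩ := hy
  exact if_pos ⟨⟨⟨h1, h3⟩, h4⟩, h2⟩

lemma drop [FA3 K] (α : L →ₐ[K] M) {v y : L} {w : d.X L} {κ : Type} (t : κ → O.res)
    (h : G Φ z (α v) (α y) (d.map α w) O ≠ 0)
    (hz : c.all (· ∈ gen (Pl.over_comap α O).resHom t) (c.map O.rd z)) (m : ℕ) (hm : m < j) :
    ¬ (O.res.sub (gen (Pl.over_comap α O).resHom t)).tr ≤ m := fun e =>
  (G_ne Φ h).2.2.2.2 (FA3.low' (c := ((c.prod .one).prod .one).prod d) Φ.toPre
    (x := (((c.map O.rd z, O.rd (α v)), O.rd (α y)), d.map O.rd (d.map α w)))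
    ⟨_, ⟨⟨⟨hz, grd α O t v⟩, grd α O t y⟩, all_rd α O t w⟩, e⟩ hm)

lemma drop' [FA1 K] [FA2 K] [FA3 K] (α : L →ₐ[K] M) {v y : L} {w : d.X L} {κ : Type} [Finite κ]
    (t : κ → O.res) (hL : Good i L) (hc : i + Nat.card κ < j)
    (hz : c.all (· ∈ gen (Pl.over_comap α O).resHom t) (c.map O.rd z)) :
    G Φ z (α v) (α y) (d.map α w) O = 0 := by
  by_contra h
  refine drop Φ α t h hz _ hc ((FA1.tr_gen _ t).trans ?_)
  push_cast
  exact add_le_add (FA2.res_le α O hL.2.le) le_rfl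

/-- The divisor of the difference of the phases. -/
lemma core [V1 K p] [FC6 K p] (hM : Good (j + 1) M) (hz : E.S.mem M z) (hw : W.mem M w) {u e : M}
    (hu : u ≠ 0) (he : e ≠ 0) (hφ : E.φ M z + E.g M z * v ^ 2 - (y ^ p - y) = u * e)
    (h : ∀ O : Dv M j, G Φ z v y w O.1 ≠ 0 → u ∈ O.1.O ∧ O.1.rd u ≠ 0 ∧ e ∈ O.1.O) :
    HasS (fun O : Dv M j => (O.1.ord e : ℂ) * G Φ z v y w O.1) 0 := by
  have H := FC6.asdiv Φ.toNF M (z, v) y w hM ⟨hz, trivial⟩ hw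
    (fun e0 => mul_ne_zero hu he (hφ.symm.trans e0))
  refine (congrArg (HasS · 0) (funext fun O => ?_)).mp H
  show (if 0 < O.1.ord (E.φ M z + E.g M z * v ^ 2 - (y ^ p - y)) then
    (O.1.ord (E.φ M z + E.g M z * v ^ 2 - (y ^ p - y)) : ℂ) * G Φ z v y w O.1 else 0) = _
  by_cases hG : G Φ z v y w O.1 = 0
  · simp [hG]
  obtain ⟨h1, h2, h3⟩ := h O hG
  rw [hφ, Pl.ord_mul O.2.1 hu he,
    Pl.ord_eq_zero_of_mem hu h1 ((O.1.rd_ne_zero_iff h1).1 h2).2, zero_add]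
  split_ifs with h4
  · rfl
  · rw [le_antisymm (not_lt.1 h4) ((Pl.ord_nonneg_iff O.2.1).2 h3), Int.cast_zero, zero_mul]

/-- Generic values do not depend on the field of rational functions. -/
lemma transp [FA1 K] {α : L →ₐ[K] M} {β : L →ₐ[K] N} {κ : Type} [Finite κ] {T : κ → M}
    {U : κ → N} (hT : Free i α T) (hU : Free i β U) (hc : i + Nat.card κ = j) :
    ∃ ρ : M →ₐ[K] N, (∀ a, ρ (α a) = β a) ∧ (∀ a, ρ (T a) = U a) ∧
      ∀ z v y w, Φ.e N (c.map ρ z) (ρ v) (ρ y) (d.map ρ w) = Φ.e M z v y w := by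
  obtain ⟨ρ, h1, h2, h3⟩ := FA1.lift hT hU (AlgHom.id K L)
  refine ⟨ρ, fun a => DFunLike.congr_fun h1 a, h2, fun z v y w => ?_⟩
  have := Φ.ext ρ (some (((z, v), y), w)) (hc ▸ hT.gM) (hc ▸ hU.gM)
  rw [h3 rfl, deg_of_surj (ι := AlgHom.id K L) Function.surjective_id, Nat.cast_one,
    one_mul] at this
  exact this

end S2x

end Pool.Agent.Lib.MP_557161_ag.HG.TW
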