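import Pool.Agent.Lib.MP_557161_ag.TW.S21

/-!
The relation between the two triangular forms of a two by two matrix.
-/

namespace Pool.Agent.Lib.MP_557161_ag.HG.TW

open Pool.Agent.Lib.MP_557161_ag.DL Matrix

namespace S2x

variable {K : Type} [Field K] {cc c d : Cd} {p i j : ℕ} {L M N : Fld K}

lemma de_eq {F : Type} [Field F] (b1 n b2 : F) (X : Matrix (Fin 2) (Fin 2) F) :
    (1 - !![b1, n; 0, b2] * X).det =
      1 - (b1 * X 0 0 + n * X 1 0 + b2 * X 1 1) + b1 * b2 * X.det := by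
  simp [det_fin_two, vecMul, dotProduct, Fin.sum_univ_two]
  ring

/-- The matrix with eigenvalues `a1, a2` and first row `(P, Q)`. -/
def XX {F : Type} [Field F] (a1 a2 P Q : F) : Matrix (Fin 2) (Fin 2) F :=
  !![P, Q; -((P - a1) * (P - a2)) / Q, a1 + a2 - P]

lemma XX_tr {F : Type} [Field F] (a1 a2 P Q : F) : (XX a1 a2 P Q).trace = a1 + a2 := by
  simp [XX, trace_fin_two]

lemma XX_det {F : Type} [Field F] (a1 a2 P : F) {Q : F} (h : Q ≠ 0) :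
    (XX a1 a2 P Q).det = a1 * a2 := by
  simp only [XX, det_fin_two_of]
  field_simp
  ring

lemma XX_rel {R : Rel M N} {a1 a2 P Q : M} {a1' a2' P' Q' : N} (h1 : R.r a1 a1') (h2 : R.r a2 a2')
    (h3 : R.r P P') (h4 : R.r Q Q') (h0 : Q' ≠ 0) : R.m' (XX a1 a2 P Q) (XX a1' a2' P' Q') := by
  intro a b
  fin_cases a <;> fin_cases b
  exacts [h3, h4, Rel.div (Rel.neg (R.mul (Rel.sub h3 h1) (Rel.sub h3 h2))) h4 h0,
    Rel.sub (R.add h1 h2) h3]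

/-- Reduction into a subfield. -/
noncomputable def RF (O : Pl M) (F : IntermediateField K O.res) : Rel M O.res :=
  (Rel.ofPl O).comp (Rel.ofSub F)

lemma RF_mk {O : Pl M} {F : IntermediateField K O.res} {a : M} (h : a ∈ O.O) (h' : O.rd a ∈ F) :
    (RF O F).r a (O.rd a) := ⟨_, ⟨h, rfl⟩, h', rfl⟩

lemma RF_mem {O : Pl M} {F : IntermediateField K O.res} {a : M} {a' : O.res}
    (h : (RF O F).r a a') : O.rd a ∈ F := by
  obtain ⟨b, ⟨-, rfl⟩, h, -⟩ := h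
  exact h

lemma RF_zero {O : Pl M} (F : IntermediateField K O.res) {a : M} (h : a ∈ O.O) (h' : O.rd a = 0) :
    (RF O F).r a 0 := h' ▸ RF_mk h (h' ▸ zero_mem F)

lemma eig_mem {O : Pl M} {a1 a2 P Q : M} (hQ : Q ≠ 0) (h : ∀ a b, XX a1 a2 P Q a b ∈ O.O) :
    a1 ∈ O.O ∧ a2 ∈ O.O := by
  have r : (Rel.ofPl O).m' (XX a1 a2 P Q) ((XX a1 a2 P Q).map O.rd) := fun a b => ⟨h a b, rfl⟩
  have h1 := (Rel.trace r).1
  have h2 := (Rel.det r).1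
  rw [XX_tr] at h1
  rw [XX_det _ _ _ hQ] at h2
  exact ⟨root_mem h1 h2, root_mem (add_comm a1 a2 ▸ h1) (mul_comm a1 a2 ▸ h2)⟩

/-- If the upper right entry reduces to zero, the first entry reduces to an eigenvalue. -/
lemma P_mem {O : Pl M} {a1 a2 P Q : M} (hQ : Q ≠ 0) (h : ∀ a b, XX a1 a2 P Q a b ∈ O.O)
    (h0 : O.rd Q = 0) {F : IntermediateField K O.res} (h1 : O.rd a1 ∈ F) (h2 : O.rd a2 ∈ F) :
    O.rd P ∈ F := by
  obtain ⟨m1, m2⟩ := eig_mem hQ h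
  have rP : (Rel.ofPl O).r P (O.rd P) := ⟨h 0 0, rfl⟩
  have e := Rel.eq ((Rel.ofPl O).mul (a := Q) ⟨h 0 1, h0⟩ (b := XX a1 a2 P Q 1 0) ⟨h 1 0, rfl⟩)
    (Rel.neg ((Rel.ofPl O).mul (Rel.sub rP ⟨m1, rfl⟩) (Rel.sub rP ⟨m2, rfl⟩)))
    (mul_div_cancel₀ _ hQ)
  rw [zero_mul, zero_eq_neg, mul_eq_zero, sub_eq_zero, sub_eq_zero] at e
  rcases e with e | e <;> rwa [e]

lemma free2 [FA1 K] (L : Fld K) (hL : Good i L) (n : ℕ) :
    ∃ (M : Fld K) (α : L →ₐ[K] M) (T : Fin n → M), Free i α T := ⟨_, _, _, FA1.fr_free _ hL⟩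

lemma free_ne [FA1 K] {α : L →ₐ[K] M} {κ : Type} [Finite κ] {T : κ → M} (h : Free i α T) (a : κ)
    (b : L) : T a ≠ α b := (FA1.trans h a).ne b

lemma ord_unit {O : Pl M} {a : M} (h : a ∈ O.O) (h' : O.rd a ≠ 0) : O.ord a = 0 :=
  Pl.ord_eq_zero_of_mem ((O.rd_ne_zero_iff h).1 h').1 h ((O.rd_ne_zero_iff h).1 h').2

lemma rd_of_ord {O : Dv M j} {a : M} (h : a ∈ O.1.O) (h' : O.1.ord a ≠ 0) :
    O.1.rd a = 0 := not_not.1 fun e => h' (ord_unit h e)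

lemma card_ne {n : ℕ} (s : Fin (n + 1)) : Nat.card {a : Fin (n + 1) // a ≠ s} = n := by
  simp [Nat.card_eq_fintype_card, Fintype.card_subtype_compl]

end S2x

open S2x

variable {K : Type} [Field K] {cc d : Cd} {p i : ℕ}

/-- The hypotheses on a space of two by two matrices over a context. -/
structure Q2 (E : WD K (cc.prod (.mat (Fin 2) (Fin 2)))) (S0 : ASp K cc)
    (φ0 y1 ν y2 : ∀ L : Fld K, cc.X L → L) (u : ∀ L : Fld K, cc.X L → L → L → L) : Prop where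
  hS : ∀ L z, E.S.mem L z ↔ S0.mem L z.1
  hφ : ∀ L z, S0.mem L z.1 → E.φ L z = φ0 L z.1
  hg : ∀ L z, S0.mem L z.1 → E.g L z =
    u L z.1 z.2.trace z.2.det * (1 - !![y1 L z.1, ν L z.1; 0, y2 L z.1] * z.2).det
  rφ : Reg S0 .one φ0
  r1 : Reg S0 .one y1
  rν : Reg S0 .one ν
  r2 : Reg S0 .one y2
  ru : ∀ ⦃M L : Fld K⦄ (R : Rel M L) ⦃x : cc.X M⦄ ⦃x' : cc.X L⦄ ⦃s t : M⦄ ⦃s' t' : L⦄, S0.mem M x →
    S0.mem L x' → cc.lift R.r x x' → R.r s s' → R.r t t' → R.r (u M x s t) (u L x' s' t')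

namespace Q2

variable {E : WD K (cc.prod (.mat (Fin 2) (Fin 2)))} {S0 : ASp K cc}
  {φ0 y1 ν y2 : ∀ L : Fld K, cc.X L → L} {u : ∀ L : Fld K, cc.X L → L → L → L}
  (H : Q2 E S0 φ0 y1 ν y2 u) {W : ASp K d} {j : ℕ} (Φ : ANF p j E W) [V1 K p] {M : Fld K}

include H

/-- The divisor of `e`. -/
lemma div [FC6 K p] (hM : Good (j + 1) M) {x : cc.X M} (hx : S0.mem M x) {a1 a2 P Q v y : M}
    {w : d.X M} (hw : W.mem M w) (hQ : Q ≠ 0) (hv : v ≠ 0) (hu : u M x (a1 + a2) (a1 * a2) ≠ 0)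
    (hy : y ^ p - y = φ0 M x + u M x (a1 + a2) (a1 * a2) *
      ((1 - a1 * y1 M x) * (1 - a2 * y2 M x)) * v ^ 2) {e : M} (he : e ≠ 0)
    (ee : e = (P - a1) * (y1 M x - y2 M x) + ν M x * XX a1 a2 P Q 1 0) :
    HasS (fun O : Dv M j => (O.1.ord e : ℂ) * G Φ (x, XX a1 a2 P Q) v y w O.1) 0 ∧
      ∀ O : Pl M, G Φ (x, XX a1 a2 P Q) v y w O ≠ 0 → e ∈ O.O ∧ y1 M x ∈ O.O ∧ y2 M x ∈ O.O := by
  have key : ∀ O : Pl M, G Φ (x, XX a1 a2 P Q) v y w O ≠ 0 →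
      (-(u M x (a1 + a2) (a1 * a2) * v ^ 2) ∈ O.O ∧
        O.rd (-(u M x (a1 + a2) (a1 * a2) * v ^ 2)) ≠ 0 ∧ e ∈ O.O) ∧
        y1 M x ∈ O.O ∧ y2 M x ∈ O.O := by
    intro O h
    obtain ⟨h1, h2, -, -, h5⟩ := G_ne Φ h
    obtain ⟨-, m, -, -, g0, v0⟩ := V1.mem Φ h5
    have m' := (H.hS _ _).1 m
    have lx : cc.lift (Rel.ofPl O).r x (cc.map O.rd x) := (Cd.lift_pl O).2 ⟨h1.1, rfl⟩
    have r : (Rel.ofPl O).m' (XX a1 a2 P Q) ((XX a1 a2 P Q).map O.rd) := fun a b => ⟨h1.2 a b, rfl⟩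
    have ru := H.ru _ hx m' lx (Rel.trace r) (Rel.det r)
    rw [XX_tr, XX_det _ _ _ hQ] at ru
    rw [H.hg _ _ m'] at g0
    have r3 := Rel.neg ((Rel.ofPl O).mul ru (Rel.pow (R := Rel.ofPl O) ⟨h2, rfl⟩ 2))
    have m1 := (H.r1 _ hx m' lx).1
    have m2 := (H.r2 _ hx m' lx).1
    refine ⟨⟨r3.1, r3.2 ▸ neg_ne_zero.2 (mul_ne_zero (left_ne_zero_of_mul g0) (pow_ne_zero _ v0)),
      ?_⟩, m1, m2⟩
    rw [ee]
    exact add_mem (mul_mem (sub_mem (h1.2 0 0) (eig_mem hQ h1.2).1) (sub_mem m1 m2))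
      (mul_mem (H.rν _ hx m' lx).1 (h1.2 1 0))
  refine ⟨core Φ hM ((H.hS _ _).2 hx) hw (neg_ne_zero.2 (mul_ne_zero hu (pow_ne_zero 2 hv))) he ?_
    fun O h => (key O.1 h).1, fun O h => ⟨(key O h).1.2.2, (key O h).2⟩⟩
  rw [H.hφ _ _ hx, H.hg _ _ hx, hy, de_eq, ee]
  simp only [XX_tr, XX_det _ _ _ hQ]
  simp only [XX, of_apply, cons_val', cons_val_zero, cons_val_one, cons_val_fin_one]
  ring

/-- What a nonzero value gives. -/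
lemma cond {x : cc.X M} {X : Matrix (Fin 2) (Fin 2) M} {a1 a2 v y : M} {w : d.X M}
    (h : Φ.e M (x, X) v y w ≠ 0) (ht : X.trace = a1 + a2) (hd : X.det = a1 * a2)
    (he : (X 0 0 - a1) * (y1 M x - y2 M x) + ν M x * X 1 0 = 0) :
    S0.mem M x ∧ W.mem M w ∧ v ≠ 0 ∧ u M x (a1 + a2) (a1 * a2) ≠ 0 ∧
      y ^ p - y = φ0 M x + u M x (a1 + a2) (a1 * a2) *
        ((1 - a1 * y1 M x) * (1 - a2 * y2 M x)) * v ^ 2 := by
  obtain ⟨-, m, h1, h2, g0, v0⟩ := V1.mem Φ h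
  have m' := (H.hS _ _).1 m
  rw [H.hg _ _ m'] at g0 h1
  rw [H.hφ _ _ m', de_eq] at h1
  simp only [ht, hd] at g0 h1
  refine ⟨m', h2, v0, left_ne_zero_of_mul g0, ?_⟩
  rw [trace_fin_two] at ht
  rw [h1]
  linear_combination (-(u M x (a1 + a2) (a1 * a2)) * v ^ 2) * he -
    (u M x (a1 + a2) (a1 * a2) * v ^ 2 * y2 M x) * ht

end Q2

end Pool.Agent.Lib.MP_557161_ag.HG.TW
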