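import Pool.Agent.Lib.MP_557161_ag.TW.S22

/-!
The two relations on the space of two by two matrices.
-/

namespace Pool.Agent.Lib.MP_557161_ag.HG.TW

open Pool.Agent.Lib.MP_557161_ag.DL Matrix S2x

variable {K : Type} [Field K] {cc d : Cd} {p i : ℕ}

namespace S2x

/-- The conditions at the diagonal point. -/
def CL (p : ℕ) (S0 : ASp K cc) (W : ASp K d) (φ0 y1 y2 : ∀ L : Fld K, cc.X L → L)
    (u : ∀ L : Fld K, cc.X L → L → L → L) (M : Fld K) (x : cc.X M) (a1 a2 v y : M) (w : d.X M) :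
    Prop :=
  S0.mem M x ∧ W.mem M w ∧ v ≠ 0 ∧ u M x (a1 + a2) (a1 * a2) ≠ 0 ∧
    y ^ p - y = φ0 M x + u M x (a1 + a2) (a1 * a2) *
      ((1 - a1 * y1 M x) * (1 - a2 * y2 M x)) * v ^ 2

lemma CL_map {S0 : ASp K cc} {W : ASp K d} {φ0 y1 y2 : ∀ L : Fld K, cc.X L → L}
    {u : ∀ L : Fld K, cc.X L → L → L → L} (rφ : Reg S0 .one φ0) (r1 : Reg S0 .one y1)
    (r2 : Reg S0 .one y2)
    (ru : ∀ ⦃M L : Fld K⦄ (R : Rel M L) ⦃x : cc.X M⦄ ⦃x' : cc.X L⦄ ⦃s t : M⦄ ⦃s' t' : L⦄,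
      S0.mem M x → S0.mem L x' → cc.lift R.r x x' → R.r s s' → R.r t t' →
      R.r (u M x s t) (u L x' s' t'))
    {L M : Fld K} (α : L →ₐ[K] M) (x : cc.X L) (a1 a2 v y : L) (w : d.X L) :
    CL p S0 W φ0 y1 y2 u M (cc.map α x) (α a1) (α a2) (α v) (α y) (d.map α w) ↔
      CL p S0 W φ0 y1 y2 u L x a1 a2 v y w := by
  unfold CL
  rw [S0.map_iff, W.map_iff, map_ne_zero]
  refine and_congr_right fun hx => ?_
  have e0 : φ0 M (cc.map α x) = α (φ0 L x) := rφ.nat α hx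
  have e1 : y1 M (cc.map α x) = α (y1 L x) := r1.nat α hx
  have e2 : y2 M (cc.map α x) = α (y2 L x) := r2.nat α hx
  have e3 : α (u L x (a1 + a2) (a1 * a2)) = u M (cc.map α x) (α a1 + α a2) (α a1 * α a2) :=
    ru (Rel.ofHom α) hx ((S0.map_iff α x).2 hx) ((Cd.lift_hom α).2 rfl) (map_add α _ _)
      (map_mul α _ _)
  rw [e0, e1, e2, ← e3, map_ne_zero, ← α.injective.eq_iff (a := y ^ p - y)]
  simp

end S2x

variable {W : ASp K d} [FA1 K] [FA2 K] [FA3 K] [V1 K p] [FC6 K p]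

open Classical in
theorem S2x.relb {E : WD K (cc.prod (.mat (Fin 2) (Fin 2)))} {S0 : ASp K cc}
    {φ0 y1 y2 : ∀ L : Fld K, cc.X L → L} {u : ∀ L : Fld K, cc.X L → L → L → L}
    (H : Q2 E S0 φ0 y1 (fun _ _ => 1) y2 u) (Φ : ANF p (i + 1) E W) {L N : Fld K}
    {β : L →ₐ[K] N} {U : N} (hU : Free i β fun _ : Unit => U) (x : cc.X L) (x1 x2 v y : L)
    (w : d.X L) (hd : y1 L x ≠ y2 L x) :
    Φ.e N (cc.map β x, !![β x1, U; 0, β x2]) (β v) (β y) (d.map β w) +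
      Φ.e N (cc.map β x, !![β x2 + U * β (y1 L x - y2 L x), U;
        β (y1 L x - y2 L x) * (β x1 - β x2 - U * β (y1 L x - y2 L x)),
        β x1 - U * β (y1 L x - y2 L x)]) (β v) (β y) (d.map β w) = 0 := by
  set δ := y1 L x - y2 L x with hδ
  have δ0 : δ ≠ 0 := sub_ne_zero.2 hd
  have hm : ∀ {N : Fld K} (β : L →ₐ[K] N), S0.mem L x →
      y1 N (cc.map β x) - y2 N (cc.map β x) = β δ := fun β hx => by
    rw [hδ, map_sub]; exact congrArg₂ _ (H.r1.nat β hx) (H.r2.nat β hx)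
  by_cases hC : CL p S0 W φ0 y1 y2 u L x x1 x2 v y w
  swap
  · have : ∀ X : Matrix (Fin 2) (Fin 2) N, X.trace = β x1 + β x2 → X.det = β x1 * β x2 →
        (X 0 0 - β x1) * β δ + X 1 0 = 0 → Φ.e N (cc.map β x, X) (β v) (β y) (d.map β w) = 0 := by
      intro X h1 h2 h3
      by_contra h
      have hx := (S0.map_iff β x).1 ((H.hS _ _).1 (V1.mem Φ h).2.1)
      exact hC ((CL_map H.rφ H.r1 H.r2 H.ru β x x1 x2 v y w).1
        (H.cond Φ h h1 h2 (by rw [hm β hx, one_mul]; exact h3)))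
    rw [this, this, add_zero]
    · simp [trace_fin_two]; ring
    · simp [det_fin_two]; ring
    · simp; ring
    · simp [trace_fin_two]
    · simp [det_fin_two]
    · simp
  have hx := hC.1
  obtain ⟨M, α, T, hT⟩ := free2 L hU.gL 2
  obtain ⟨c1, c2, c3, c4, c5⟩ := (CL_map H.rφ H.r1 H.r2 H.ru α x x1 x2 v y w).2 hC
  have hQ : T 1 ≠ 0 := fun e => free_ne hT 1 0 (e.trans (map_zero _).symm)
  have hM : Good (i + 1 + 1) M := by simpa [add_assoc] using hT.gM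
  have hT1 : Free i α ![T 0 - α x1, T 1] := FA1.of_gen hT rfl fun a => by
    fin_cases a
    · simpa using add_mem (gT α ![T 0 - α x1, T 1] 0) (gα α _ x1)
    · exact gT α ![T 0 - α x1, T 1] 1
  have hT2 : Free i α ![α δ * T 1 - (T 0 - α x2), T 1] := FA1.of_gen hT rfl fun a => by
    fin_cases a
    · simpa using add_mem (sub_mem (mul_mem (gα α _ δ) (gT α ![α δ * T 1 - (T 0 - α x2), T 1] 1))
        (gT α ![α δ * T 1 - (T 0 - α x2), T 1] 0)) (gα α _ x2)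
    · exact gT α ![α δ * T 1 - (T 0 - α x2), T 1] 1
  have n1 : T 0 - α x1 ≠ 0 := fun e => free_ne hT1 0 0 (e.trans (map_zero _).symm)
  have n2 : α δ * T 1 - (T 0 - α x2) ≠ 0 := fun e => free_ne hT2 0 0 (e.trans (map_zero _).symm)
  have ee : (T 0 - α x1) * (α δ * T 1 - (T 0 - α x2)) / T 1 =
      (T 0 - α x1) * α δ + XX (α x1) (α x2) (T 0) (T 1) 1 0 := by
    simp only [XX, of_apply, cons_val', cons_val_zero, cons_val_one, cons_val_fin_one]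
    field_simp
    ring
  obtain ⟨D, D'⟩ := H.div Φ hM c1 c2 hQ c3 c4 c5 (div_ne_zero (mul_ne_zero n1 n2) hQ)
    (by rw [hm α hx, one_mul]; exact ee)
  set z : (cc.prod (.mat (Fin 2) (Fin 2))).X M := (cc.map α x, XX (α x1) (α x2) (T 0) (T 1))
  let G' : Dv M (i + 1) → ℂ := fun O =>
    if O.1.rd (T 1) ≠ 0 then G Φ z (α v) (α y) (d.map α w) O.1 else 0
  have hG' : ∀ O, G' O ≠ 0 → O.1.rd (T 1) ≠ 0 ∧ G Φ z (α v) (α y) (d.map α w) O.1 ≠ 0 := by
    intro O h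
    by_cases e : O.1.rd (T 1) ≠ 0
    · exact ⟨e, by simpa only [G', if_pos e] using h⟩
    · exact absurd (if_neg e) h
  have mδ : ∀ O : Pl M, G Φ z (α v) (α y) (d.map α w) O ≠ 0 → α δ ∈ O.O := fun O h =>
    hm α hx ▸ sub_mem (D' O h).2.1 (D' O h).2.2
  have hall : ∀ (O : Pl M) {κ : Type} (t : κ → O.res), G Φ z (α v) (α y) (d.map α w) O ≠ 0 →
      O.rd (T 1) ≠ 0 → O.rd (T 0) ∈ gen (Pl.over_comap α O).resHom t →
      O.rd (T 1) ∈ gen (Pl.over_comap α O).resHom t →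
      (cc.prod (.mat (Fin 2) (Fin 2))).all (· ∈ gen (Pl.over_comap α O).resHom t)
        ((cc.prod (.mat (Fin 2) (Fin 2))).map O.rd z) := fun O _ t h h0 h1 h2 => by
    have m := (G_ne Φ h).1.2
    exact ⟨all_rd α O t x, fun a b => RF_mem (XX_rel (RF_mk (eig_mem hQ m).1 (grd α O t _))
      (RF_mk (eig_mem hQ m).2 (grd α O t _)) (RF_mk (m 0 0) h1) (RF_mk (m 0 1) h2) h0 a b)⟩
  have split : ∀ O : Dv M (i + 1),
      (O.1.ord ((T 0 - α x1) * (α δ * T 1 - (T 0 - α x2)) / T 1) : ℂ) *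
        G Φ z (α v) (α y) (d.map α w) O.1 =
      (O.1.ord (T 0 - α x1) : ℂ) * G' O + (O.1.ord (α δ * T 1 - (T 0 - α x2)) : ℂ) * G' O := by
    intro O
    by_cases h : G Φ z (α v) (α y) (d.map α w) O.1 = 0
    · simp [G', h]
    have m := (G_ne Φ h).1.2
    by_cases e : O.1.rd (T 1) ≠ 0
    · simp only [G', if_pos e]
      rw [div_eq_mul_inv, Pl.ord_mul O.2.1 (mul_ne_zero n1 n2) (inv_ne_zero hQ), Pl.ord_inv O.2.1,
        ord_unit (a := T 1) (m 0 1) e, Pl.ord_mul O.2.1 n1 n2]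
      push_cast
      ring
    simp only [G', if_neg e, mul_zero, add_zero]
    by_contra hn
    have e0 := rd_of_ord (D' _ h).1 (by exact_mod_cast left_ne_zero_of_mul hn)
    refine h (drop' Φ α (κ := Empty) Empty.elim hU.gL (by simp) ⟨all_rd α _ _ x, ?_⟩)
    have e1 := not_not.1 e
    have rP := RF_mk (a := T 0) (m 0 0) (P_mem hQ m e1 (grd α O.1 (κ := Empty) Empty.elim _) (grd α _ _ _))
    have r1 := RF_mk (eig_mem hQ m).1 (grd α O.1 (κ := Empty) Empty.elim x1)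
    have r2 := RF_mk (eig_mem hQ m).2 (grd α O.1 (κ := Empty) Empty.elim x2)
    have r3 := Rel.sub (RF_zero _ (D' _ h).1 e0) ((RF _ _).mul (Rel.sub rP r1)
      (RF_mk (mδ _ h) (grd α O.1 (κ := Empty) Empty.elim δ)))
    intro a b
    fin_cases a <;> fin_cases b
    · exact RF_mem rP
    · exact RF_mem (RF_zero _ (m 0 1) e1)
    · refine RF_mem (a := XX (α x1) (α x2) (T 0) (T 1) 1 0) (by
        rwa [ee, add_sub_cancel_left] at r3)
    · exact RF_mem (Rel.sub ((RF _ _).add r1 r2) rP)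
  obtain ⟨O1, t1, a1, a2, a3, a4⟩ := zsum hT1 (by simp [add_assoc]) 0 n1 G' fun O h => by
    obtain ⟨h0, h⟩ := hG' O h
    have m := (G_ne Φ h).1.2
    have m0 : T 0 - α x1 ∈ O.1.O := sub_mem (m 0 0) (eig_mem hQ m).1
    refine ⟨fun a => by fin_cases a; exacts [m0, m 0 1], fun _ => drop Φ α _ h
      (hall _ _ h h0 ?_ (gT _ (fun a => O.1.rd (![T 0 - α x1, T 1] a)) 1))⟩
    simpa using RF_mem ((RF _ _).add (RF_mk m0 (gT _ (fun a => O.1.rd (![T 0 - α x1, T 1] a)) 0))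
      (RF_mk (eig_mem hQ m).1 (grd α _ _ x1)))
  obtain ⟨O2, t2, b1, b2, b3, b4⟩ := zsum hT2 (by simp [add_assoc]) 0 n2 G' fun O h => by
    obtain ⟨h0, h⟩ := hG' O h
    have m := (G_ne Φ h).1.2
    have m0 : α δ * T 1 - (T 0 - α x2) ∈ O.1.O :=
      sub_mem (mul_mem (mδ _ h) (m 0 1)) (sub_mem (m 0 0) (eig_mem hQ m).2)
    have g1 := gT (Pl.over_comap α O.1).resHom
      (fun a => O.1.rd (![α δ * T 1 - (T 0 - α x2), T 1] a))
    refine ⟨fun a => by fin_cases a; exacts [m0, m 0 1], fun _ => drop Φ α _ h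
      (hall _ _ h h0 ?_ (g1 1))⟩
    simpa using RF_mem ((RF _ _).add (Rel.sub ((RF _ _).mul (RF_mk (mδ _ h) (grd α _ _ δ))
      (RF_mk (a := T 1) (m 0 1) (g1 1))) (RF_mk m0 (g1 0)))
      (RF_mk (eig_mem hQ m).2 (grd α _ _ x2)))
  have fin : G' O1 + G' O2 = 0 :=
    hasS_eq (hasS_add a4 b4) ((congrArg (HasS · 0) (funext split)).mp D)
  have val : ∀ (O : Dv M (i + 1)) (t : Pl.Triv α O.1) (s : M), (∀ a, ![s, T 1] a ∈ O.1.O) →
      Free i t.hom (fun a : {a : Fin 2 // a ≠ 0} => O.1.rd (![s, T 1] a.1)) → ∃ ρ : N →ₐ[K] O.1.res,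
      (∀ a, (Rel.ofPl O.1).r (α a) (ρ (β a))) ∧ (Rel.ofPl O.1).r (T 1) (ρ U) ∧ ρ U ≠ 0 ∧
      ∀ X : Matrix (Fin 2) (Fin 2) N, (Rel.ofPl O.1).m' (XX (α x1) (α x2) (T 0) (T 1)) (X.map ρ) →
        G' O = Φ.e N (cc.map β x, X) (β v) (β y) (d.map β w) := fun O t s h1 h2 => by
    have h3 : Free i t.hom fun _ : Unit => O.1.rd (T 1) :=
      FA1.of_gen h2 (by rw [card_ne]; simp) fun a => by
        obtain ⟨a, ha⟩ := a
        fin_cases a
        · exact absurd rfl ha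
        · exact gT t.hom (fun _ : Unit => O.1.rd (T 1)) ()
    obtain ⟨ρ, r1, r2, r3⟩ := transp Φ hU h3 (by simp)
    have r4 : ∀ a, (Rel.ofPl O.1).r (α a) (ρ (β a)) := fun a => ⟨t a, by rw [r1, t.hom_apply]⟩
    have r5 : O.1.rd (T 1) ≠ 0 := fun e => free_ne h3 () 0 (e.trans (map_zero _).symm)
    have r6 : ∀ {c : Cd} (x : c.X L), c.lift (Rel.ofPl O.1).r (c.map α x) (c.map ρ (c.map β x)) :=
      fun {c} x => (c.lift_iff _ _ _).2 fun a => by simp only [c.co_map]; exact r4 _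
    refine ⟨ρ, r4, ⟨h1 1, (r2 ()).symm⟩, (r2 ()).symm ▸ r5, fun X hX => ?_⟩
    rw [← r3]
    exact (if_pos r5).trans (G_eq Φ ⟨r6 x, hX⟩ (r4 v) (r4 y) (r6 w))
  obtain ⟨ρ, r1, r2, r3, r4⟩ := val O1 t1 _ a1 a3
  obtain ⟨ρ', s1, s2, s3, s4⟩ := val O2 t2 _ b1 b3
  rw [← r4, ← s4, fin]
  · have h := (Rel.ofPl O2.1).add (Rel.sub ((Rel.ofPl O2.1).mul (s1 δ) s2) ⟨b1 0, b2⟩) (s1 x2)
    have h' := XX_rel (s1 x1) (s1 x2) (show (Rel.ofPl O2.1).r (T 0) _ by simpa using h) s2 s3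
    convert h' using 1
    ext a b
    fin_cases a <;> fin_cases b <;> simp [XX]
    · ring
    · field_simp
      ring
    · ring
  · have h := (Rel.ofPl O1.1).add ⟨a1 0, a2⟩ (r1 x1)
    have h' := XX_rel (r1 x1) (r1 x2) (show (Rel.ofPl O1.1).r (T 0) _ by simpa using h) r2 r3
    convert h' using 1
    ext a b
    fin_cases a <;> fin_cases b <;> simp [XX]

end Pool.Agent.Lib.MP_557161_ag.HG.TW
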