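import Pool.Agent.Lib.MP_557161_ag.TW.S23

/-!
The relation for a second matrix with equal eigenvalues.
-/

namespace Pool.Agent.Lib.MP_557161_ag.HG.TW

open Pool.Agent.Lib.MP_557161_ag.DL Matrix S2x

variable {K : Type} [Field K] {cc d : Cd} {p i : ℕ}
variable {W : ASp K d} [FA1 K] [FA2 K] [FA3 K] [V1 K p] [FC6 K p]

open Classical in
theorem S2x.rela {E : WD K ((cc.prod .one).prod (.mat (Fin 2) (Fin 2)))} {S0 : ASp K cc}
    {φ0 y0 : ∀ L : Fld K, cc.X L → L} {u : ∀ L : Fld K, cc.X L → L → L → L}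
    (H : Q2 E (S0.prod (.univ K .one)) (fun L z => φ0 L z.1) (fun L z => y0 L z.1) (fun _ z => z.2)
      (fun L z => y0 L z.1) fun L z => u L z.1) (Φ : ANF p (i + 2) E W) {L N : Fld K}
    {β : L →ₐ[K] N} {U : Fin 2 → N} (hU : Free i β U) (x : cc.X L) (x1 x2 v y : L) (w : d.X L) :
    Φ.e N ((cc.map β x, 0), XX (β x1) (β x2) (U 0) (U 1)) (β v) (β y) (d.map β w) +
      Φ.e N ((cc.map β x, U 1), !![β x1, U 0; 0, β x2]) (β v) (β y) (d.map β w) +
      Φ.e N ((cc.map β x, U 1), !![β x2, U 0; 0, β x1]) (β v) (β y) (d.map β w) = 0 := by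
  have CM : ∀ {M : Fld K} (α : L →ₐ[K] M),
      CL p S0 W φ0 y0 y0 u M (cc.map α x) (α x1) (α x2) (α v) (α y) (d.map α w) ↔
      CL p S0 W φ0 y0 y0 u L x x1 x2 v y w := fun α => CL_map
    (fun _ _ R z z' m m' e => H.rφ R (x := (z, 0)) (x' := (z', 0)) ⟨m, trivial⟩ ⟨m', trivial⟩
      ⟨e, R.zero⟩)
    (fun _ _ R z z' m m' e => H.r1 R (x := (z, 0)) (x' := (z', 0)) ⟨m, trivial⟩ ⟨m', trivial⟩
      ⟨e, R.zero⟩)
    (fun _ _ R z z' m m' e => H.r1 R (x := (z, 0)) (x' := (z', 0)) ⟨m, trivial⟩ ⟨m', trivial⟩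
      ⟨e, R.zero⟩)
    (fun _ _ R z z' _ _ _ _ m m' e e1 e2 => H.ru R (x := (z, 0)) (x' := (z', 0)) ⟨m, trivial⟩
      ⟨m', trivial⟩ ⟨e, R.zero⟩ e1 e2) α x x1 x2 v y w
  by_cases hC : CL p S0 W φ0 y0 y0 u L x x1 x2 v y w
  swap
  · have : ∀ (n : N) (X : Matrix (Fin 2) (Fin 2) N), X.trace = β x1 + β x2 → X.det = β x1 * β x2 →
        n * X 1 0 = 0 → Φ.e N ((cc.map β x, n), X) (β v) (β y) (d.map β w) = 0 := by
      intro n X h1 h2 h3
      by_contra h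
      obtain ⟨c1, c2⟩ := H.cond Φ h h1 h2 (by rw [sub_self, mul_zero, zero_add]; exact h3)
      exact hC ((CM β).1 ⟨c1.1, c2⟩)
    rw [this, this, this, add_zero, add_zero]
    · simp [trace_fin_two, add_comm]
    · simp [det_fin_two, mul_comm]
    · simp
    · simp [trace_fin_two]
    · simp [det_fin_two]
    · simp
    · exact XX_tr _ _ _ _
    · exact XX_det _ _ _ fun e => free_ne hU 1 0 (e.trans (map_zero _).symm)
    · simp
  obtain ⟨M, α, T, hT⟩ := free2 L hU.gL 3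
  obtain ⟨c1, c2, c3, c4, c5⟩ := (CM α).2 hC
  have nT : ∀ a, T a ≠ 0 := fun a e => free_ne hT a 0 (e.trans (map_zero _).symm)
  have hQ := nT 1
  have hM : Good (i + 2 + 1) M := by simpa [add_assoc] using hT.gM
  have hT1 : ∀ t : L, Free i α ![T 0 - α t, T 1, T 2] := fun t => FA1.of_gen hT rfl fun a => by
    fin_cases a
    · simpa using add_mem (gT α ![T 0 - α t, T 1, T 2] 0) (gα α _ t)
    · exact gT α ![T 0 - α t, T 1, T 2] 1
    · exact gT α ![T 0 - α t, T 1, T 2] 2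
  have n1 : ∀ t : L, T 0 - α t ≠ 0 := fun t => sub_ne_zero.2 (free_ne hT 0 t)
  have ee : T 2 * (T 0 - α x1) * (T 0 - α x2) * (-T 1)⁻¹ =
      T 2 * XX (α x1) (α x2) (T 0) (T 1) 1 0 := by
    simp only [XX, of_apply, cons_val', cons_val_zero, cons_val_one, cons_val_fin_one]
    field_simp
  have n3 := mul_ne_zero (mul_ne_zero (nT 2) (n1 x1)) (n1 x2)
  have n4 := inv_ne_zero (neg_ne_zero.2 hQ)
  obtain ⟨D, D'⟩ := H.div Φ hM (x := (cc.map α x, T 2)) (P := T 0) ⟨c1, trivial⟩ c2 hQ c3 c4 c5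
    (mul_ne_zero n3 n4) (ee.trans (by simp))
  set z : ((cc.prod .one).prod (.mat (Fin 2) (Fin 2))).X M :=
    ((cc.map α x, T 2), XX (α x1) (α x2) (T 0) (T 1))
  let G' : Dv M (i + 2) → ℂ := fun O =>
    if O.1.rd (T 1) ≠ 0 then G Φ z (α v) (α y) (d.map α w) O.1 else 0
  have hG' : ∀ O, G' O ≠ 0 → O.1.rd (T 1) ≠ 0 ∧ G Φ z (α v) (α y) (d.map α w) O.1 ≠ 0 := by
    intro O h
    by_cases e : O.1.rd (T 1) ≠ 0
    · exact ⟨e, by simpa only [G', if_pos e] using h⟩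
    · exact absurd (if_neg e) h
  have hall : ∀ (O : Pl M) {κ : Type} (t : κ → O.res), G Φ z (α v) (α y) (d.map α w) O ≠ 0 →
      O.rd (T 1) ≠ 0 → O.rd (T 0) ∈ gen (Pl.over_comap α O).resHom t →
      O.rd (T 1) ∈ gen (Pl.over_comap α O).resHom t →
      O.rd (T 2) ∈ gen (Pl.over_comap α O).resHom t →
      ((cc.prod .one).prod (.mat (Fin 2) (Fin 2))).all (· ∈ gen (Pl.over_comap α O).resHom t)
        (((cc.prod .one).prod (.mat (Fin 2) (Fin 2))).map O.rd z) := fun O _ t h h0 h1 h2 h3 => by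
    have m := (G_ne Φ h).1.2
    exact ⟨⟨all_rd α O t x, h3⟩, fun a b => RF_mem (XX_rel (RF_mk (eig_mem hQ m).1 (grd α O t _))
      (RF_mk (eig_mem hQ m).2 (grd α O t _)) (RF_mk (m 0 0) h1) (RF_mk (m 0 1) h2) h0 a b)⟩
  have split : ∀ O : Dv M (i + 2),
      (O.1.ord (T 2 * (T 0 - α x1) * (T 0 - α x2) * (-T 1)⁻¹) : ℂ) *
        G Φ z (α v) (α y) (d.map α w) O.1 = (O.1.ord (T 2) : ℂ) * G' O +
      (O.1.ord (T 0 - α x1) : ℂ) * G' O + (O.1.ord (T 0 - α x2) : ℂ) * G' O := by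
    intro O
    by_cases h : G Φ z (α v) (α y) (d.map α w) O.1 = 0
    · simp [G', h]
    have m := (G_ne Φ h).1.2
    have m2 : T 2 ∈ O.1.O := (G_ne Φ h).1.1.2
    by_cases e : O.1.rd (T 1) ≠ 0
    · simp only [G', if_pos e]
      rw [Pl.ord_mul O.2.1 n3 n4, Pl.ord_inv O.2.1,
        ord_unit (a := -T 1) (neg_mem (m 0 1)) (by
          rw [O.1.rd_neg (x := T 1) (m 0 1)]; exact neg_ne_zero.2 e),
        Pl.ord_mul O.2.1 (mul_ne_zero (nT 2) (n1 x1)) (n1 x2), Pl.ord_mul O.2.1 (nT 2) (n1 x1)]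
      push_cast
      ring
    simp only [G', if_neg e, mul_zero, add_zero]
    by_contra hn
    have e0 := rd_of_ord (D' _ h).1 (by exact_mod_cast left_ne_zero_of_mul hn)
    have e1 := not_not.1 e
    have key : ∀ t : Unit → O.1.res, O.1.rd (T 2) ∈ gen (Pl.over_comap α O.1).resHom t →
        O.1.rd (XX (α x1) (α x2) (T 0) (T 1) 1 0) ∈ gen (Pl.over_comap α O.1).resHom t → False := by
      intro t h1 h2
      refine h (drop' Φ α t hU.gL (by simp) ⟨⟨all_rd α _ _ x, h1⟩, ?_⟩)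
      have rP := RF_mk (a := T 0) (m 0 0) (P_mem hQ m e1 (grd α O.1 t _) (grd α _ _ _))
      have r1 := RF_mk (eig_mem hQ m).1 (grd α O.1 t x1)
      have r2 := RF_mk (eig_mem hQ m).2 (grd α O.1 t x2)
      intro a b
      fin_cases a <;> fin_cases b
      exacts [RF_mem rP, RF_mem (RF_zero _ (m 0 1) e1), h2,
        RF_mem (Rel.sub ((RF _ _).add r1 r2) rP)]
    rw [ee, O.1.rd_mul m2 (m 1 0), mul_eq_zero] at e0
    rcases e0 with e0 | e0
    · exact key (fun _ => O.1.rd (XX (α x1) (α x2) (T 0) (T 1) 1 0)) (e0 ▸ zero_mem _)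
        (gT _ (fun _ : Unit => O.1.rd (XX (α x1) (α x2) (T 0) (T 1) 1 0)) ())
    · exact key (fun _ => O.1.rd (T 2)) (gT _ (fun _ : Unit => O.1.rd (T 2)) ())
        ((show O.1.rd (XX (α x1) (α x2) (T 0) (T 1) 1 0) = 0 from e0) ▸ zero_mem _)
  have val : ∀ (O : Dv M (i + 2)) (t : Pl.Triv α O.1) (f : Fin 2 → M), (∀ a, f a ∈ O.1.O) →
      Free i t.hom (fun a => O.1.rd (f a)) → O.1.rd (T 1) ≠ 0 → ∃ ρ : N →ₐ[K] O.1.res,
      (∀ a, (Rel.ofPl O.1).r (α a) (ρ (β a))) ∧ (∀ a, (Rel.ofPl O.1).r (f a) (ρ (U a))) ∧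
      ∀ (n : N) (X : Matrix (Fin 2) (Fin 2) N), (Rel.ofPl O.1).r (T 2) (ρ n) →
        (Rel.ofPl O.1).m' (XX (α x1) (α x2) (T 0) (T 1)) (X.map ρ) →
        G' O = Φ.e N ((cc.map β x, n), X) (β v) (β y) (d.map β w) := fun O t f h1 h3 r5 => by
    obtain ⟨ρ, r1, r2, r3⟩ := transp Φ hU h3 (by simp)
    have r4 : ∀ a, (Rel.ofPl O.1).r (α a) (ρ (β a)) := fun a => ⟨t a, by rw [r1, t.hom_apply]⟩
    have r6 : ∀ {c : Cd} (x : c.X L), c.lift (Rel.ofPl O.1).r (c.map α x) (c.map ρ (c.map β x)) :=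
      fun {c} x => (c.lift_iff _ _ _).2 fun a => by simp only [c.co_map]; exact r4 _
    refine ⟨ρ, r4, fun a => ⟨h1 a, (r2 a).symm⟩, fun n X hn hX => ?_⟩
    rw [← r3]
    exact (if_pos r5).trans (G_eq Φ ⟨⟨r6 x, hn⟩, hX⟩ (r4 v) (r4 y) (r6 w))
  have U0 : ∀ a, U a ≠ 0 := fun a e => free_ne hU a 0 (e.trans (map_zero _).symm)
  have tri : ∀ t : L, (t = x1 ∨ t = x2) → HasS (fun O : Dv M (i + 2) =>
      (O.1.ord (T 0 - α t) : ℂ) * G' O) (Φ.e N ((cc.map β x, U 1),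
        !![β t, U 0; 0, β x1 + β x2 - β t]) (β v) (β y) (d.map β w)) := by
    intro t ht
    obtain ⟨O, t1, a1, a2, a3, a4⟩ := zsum (hT1 t) (by simp [add_assoc]) 0 (n1 t) G' fun O h => by
      obtain ⟨h0, h⟩ := hG' O h
      have m := (G_ne Φ h).1.2
      have m2 : T 2 ∈ O.1.O := (G_ne Φ h).1.1.2
      have m1 : α t ∈ O.1.O := by
        rcases ht with rfl | rfl
        exacts [(eig_mem hQ m).1, (eig_mem hQ m).2]
      have m0 : T 0 - α t ∈ O.1.O := sub_mem (m 0 0) m1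
      have g1 := gT (Pl.over_comap α O.1).resHom (fun a => O.1.rd (![T 0 - α t, T 1, T 2] a))
      refine ⟨fun a => by fin_cases a; exacts [m0, m 0 1, m2], fun _ => drop Φ α _ h
        (hall _ _ h h0 ?_ (g1 1) (g1 2))⟩
      simpa using RF_mem ((RF _ _).add (RF_mk m0 (g1 0)) (RF_mk m1 (grd α _ _ t)))
    have h3 : Free i t1.hom fun a => O.1.rd (![T 1, T 2] a) :=
      FA1.of_gen a3 (by rw [card_ne]; simp) fun a => by
        obtain ⟨a, ha⟩ := a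
        fin_cases a
        · exact absurd rfl ha
        · exact gT t1.hom (fun a => O.1.rd (![T 1, T 2] a)) 0
        · exact gT t1.hom (fun a => O.1.rd (![T 1, T 2] a)) 1
    obtain ⟨ρ, r1, r2, r4⟩ := val O t1 _ (fun a => by fin_cases a; exacts [a1 1, a1 2]) h3
      fun e => free_ne h3 0 0 (e.trans (map_zero _).symm)
    rw [← r4 _ _ (r2 1)]
    · exact a4
    have h := (Rel.ofPl O.1).add ⟨a1 0, a2⟩ (r1 t)
    have h' := XX_rel (r1 x1) (r1 x2) (show (Rel.ofPl O.1).r (T 0) (ρ (β t)) by simpa using h)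
      (r2 0) ((map_ne_zero ρ).2 (U0 0))
    refine (congrArg _ ?_).mp h'
    ext a b
    rcases ht with rfl | rfl <;> fin_cases a <;> fin_cases b <;> simp [XX]
  obtain ⟨O, t1, a1, a2, a3, a4⟩ := zsum hT (by simp [add_assoc]) 2 (nT 2) G' fun O h => by
    obtain ⟨h0, h⟩ := hG' O h
    have m := (G_ne Φ h).1.2
    have m2 : T 2 ∈ O.1.O := (G_ne Φ h).1.1.2
    exact ⟨fun a => by fin_cases a; exacts [m 0 0, m 0 1, m2], fun _ => drop Φ α _ h
      (hall _ _ h h0 (gT _ (fun a => O.1.rd (T a)) 0) (gT _ (fun a => O.1.rd (T a)) 1)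
        (gT _ (fun a => O.1.rd (T a)) 2))⟩
  have h3 : Free i t1.hom fun a => O.1.rd (![T 0, T 1] a) :=
    FA1.of_gen a3 (by rw [card_ne]; simp) fun a => by
      obtain ⟨a, ha⟩ := a
      fin_cases a
      · exact gT t1.hom (fun a => O.1.rd (![T 0, T 1] a)) 0
      · exact gT t1.hom (fun a => O.1.rd (![T 0, T 1] a)) 1
      · exact absurd rfl ha
  obtain ⟨ρ, r1, r2, r4⟩ := val O t1 _ (fun a => by fin_cases a; exacts [a1 0, a1 1]) h3
    fun e => free_ne h3 1 0 (e.trans (map_zero _).symm)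
  have fin := hasS_eq (hasS_add (hasS_add a4 (tri x1 (Or.inl rfl))) (tri x2 (Or.inr rfl)))
    ((congrArg (HasS · 0) (funext split)).mp D)
  rw [add_sub_cancel_left, add_sub_cancel_right] at fin
  rw [← r4 0 _ ⟨a1 2, a2.trans (map_zero ρ).symm⟩, fin]
  have h' := XX_rel (r1 x1) (r1 x2) (r2 0) (r2 1) ((map_ne_zero ρ).2 (U0 1))
  refine (congrArg _ ?_).mp h'
  ext a b
  fin_cases a <;> fin_cases b <;> simp [XX]

end Pool.Agent.Lib.MP_557161_ag.HG.TW
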