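import Pool.Agent.Lib.MP_557161_ag.TW.StS

/-!
Vanishing for a scalar second matrix of size two.
-/

namespace Pool.Agent.Lib.MP_557161_ag.HG.TW

open Pool.Agent.Lib.MP_557161_ag.DL Matrix

namespace SAa

section
variable {F : Type} [Field F]

lemma det2 (a : F) (X : Matrix (Fin 2) (Fin 2) F) :
    (1 - a • X).det = 1 - a * X.trace + a ^ 2 * X.det := by
  simp [det_fin_two, trace_fin_two]
  ring

lemma det3 (y ν : F) (X : Matrix (Fin 2) (Fin 2) F) :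
    (1 - !![y, ν; 0, y] * X).det = 1 - y * X.trace + y ^ 2 * X.det - ν * X 1 0 := by
  simp [det_fin_two, trace_fin_two, vecMul, dotProduct, Fin.sum_univ_two]
  ring

/-- The matrix with given trace, determinant and first column. -/
def mx (τ δ a b : F) : Matrix (Fin 2) (Fin 2) F := !![a, (a * (τ - a) - δ) / b; b, τ - a]

lemma mx_tr (τ δ a b : F) : (mx τ δ a b).trace = τ := by simp [mx, trace_fin_two]

lemma mx_det (τ δ a : F) {b : F} (h : b ≠ 0) : (mx τ δ a b).det = δ := by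
  rw [mx, det_fin_two_of, div_mul_cancel₀ _ h]
  ring

lemma mx_eq {X : Matrix (Fin 2) (Fin 2) F} (h : X 1 0 ≠ 0) :
    mx X.trace X.det (X 0 0) (X 1 0) = X := by
  ext i j
  fin_cases i <;> fin_cases j <;> simp [mx, det_fin_two, trace_fin_two]
  field_simp

lemma mx_gx (x₁ x₂ : F) {a b : F} (h₁ : a - x₁ ≠ 0) (h₂ : a - x₂ ≠ 0) (h : b ≠ 0) :
    mx (x₁ + x₂) (x₁ * x₂) a b = gx x₁ x₂ a (-((a - x₁) * (a - x₂)) / b) := by
  ext i j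
  fin_cases i <;> fin_cases j <;> simp [mx, gx]
  · congr 1
    ring
  · field_simp

end

variable {K : Type} [Field K] {p : ℕ} {c cc d : Cd}

lemma rel_mx {M L : Fld K} {R : Rel M L} {τ δ a b : M} {τ' δ' a' b' : L} (h1 : R.r τ τ')
    (h2 : R.r δ δ') (h3 : R.r a a') (h4 : R.r b b') (h : b' ≠ 0) :
    R.m' (mx τ δ a b) (mx τ' δ' a' b') := fun i j => by
  fin_cases i <;> fin_cases j
  exacts [h3, Rel.div (Rel.sub (R.mul h3 (Rel.sub h1 h3)) h2) h4 h, h4, Rel.sub h1 h3]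

lemma roots (h2 : (2 : K) ≠ 0) (L : Fld K) (τ δ : L) : ∃ (L' : Fld K) (ι : L →ₐ[K] L')
    (x₁ x₂ : L'), Fin' ι ∧ ι τ = x₁ + x₂ ∧ ι δ = x₁ * x₂ := by
  obtain ⟨s₀, h₀⟩ := IsAlgClosed.exists_eq_mul_self (k := AlgebraicClosure L)
    (L.toCl (τ ^ 2 - 4 * δ))
  obtain ⟨L', ι, κ, h1, h3, h4⟩ := exists_fin_sub L {s₀}
  obtain ⟨s, rfl⟩ := h4 s₀ (by simp)
  have e : ι (τ ^ 2 - 4 * δ) = s * s := κ.injective (by
    show κ _ = κ _
    rw [map_mul κ, ← h₀, ← h3]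
    rfl)
  have t : (2 : L') ≠ 0 := by
    rw [← map_ofNat (algebraMap K L') 2]
    exact (map_ne_zero _).2 h2
  rw [map_sub, map_pow, map_mul, map_ofNat] at e
  refine ⟨L', ι, (ι τ + s) / 2, (ι τ - s) / 2, h1, by field_simp; ring, ?_⟩
  field_simp
  linear_combination -e

lemma clo [V1 K p] {E : WD K c} {W : ASp K d} {j : ℕ} (Φ : ANF p j E W)
    (q : ∀ L : Fld K, c.X L → Prop) (h) : ∃ Φ' : ANF p j (E.cl q h) W,
      ∀ L x v y w, E.S.mem L x → q L x → Φ'.e L x v y w = Φ.e L x v y w := by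
  obtain ⟨Φ', e⟩ := V1.pull (E' := E.cl q h) (f := fun _ x => x)
    ⟨⟨⟨Reg.id _, fun _ _ m => m.1⟩, fun _ _ _ => rfl⟩, fun _ _ _ => rfl⟩
    (fun M O x z _ hx hz e => ⟨z, ⟨hz, h _ hx.1 hz e hx.2⟩, e⟩) Φ
  exact ⟨Φ', fun L x v y w a b => e L x v y w ⟨a, b⟩⟩

variable (T : TD K) (C : WD K cc) {W : ASp K d} (y : ∀ L : Fld K, cc.X L → L)
  (h : Reg C.S .one y)

lemma tri [V1 K p] [V2 K p] {i : ℕ} (Ψ : ANF p i (T.Qa C y h) W) (L : Fld K) (c : cc.X L)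
    (X : Matrix (Fin 2) (Fin 2) L) (v s : L) (w : d.X L) (hX : X 1 0 = 0) :
    Ψ.e L ((c, 0), X) v s w = 0 := by
  by_contra e
  obtain ⟨Φ, hΦ⟩ := clo Ψ (fun _ z => z.2 1 0 = 0)
    fun _ _ _ _ _ _ _ e h => Rel.eq_zero (e.2 1 0) h
  refine e ((hΦ L _ v s w (V1.mem Ψ e).2.1 hX).symm.trans ?_)
  refine V2.hyp (c := (cc.prod .one).prod (sq 2)) (E := (T.Qa C y h).cl _ _) (fun _ z =>
    ((z.2.1.1, z.2.1.2 + z.1), z.2.2)) (fun _ z => z.1.2) (fun _ _ => 1)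
    ⟨fun _ _ R _ _ _ _ e => ⟨⟨e.2.1.1, R.add e.2.1.2 e.1⟩, e.2.2⟩,
      fun _ _ m => ⟨⟨⟨m.2.1.1.1, trivial⟩, trivial⟩, m.2.2⟩⟩
    (fun _ _ _ _ _ _ _ e => e.1.2) (fun _ _ R _ _ _ _ _ => R.one) (fun L t z m => ?_) Φ
    (fun _ _ _ _ _ _ h => absurd h one_ne_zero) L _ v s w rfl
  refine ⟨by simp, by simp, rfl, ?_, by simp, rfl⟩
  have m0 : z.2 1 0 = 0 := m.2
  change (C.g L z.1.1 * 1) * (T.fm L z.2 * (1 - !![y L z.1.1, z.1.2 + t; 0, y L z.1.1] * z.2).det) =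
    (C.g L z.1.1 * 1) * (T.fm L z.2 * (1 - !![y L z.1.1, z.1.2; 0, y L z.1.1] * z.2).det)
  rw [det3, det3, m0, mul_zero, mul_zero]

/-- The context with a trace and a determinant. -/
noncomputable def Cx : WD K (cc.prod (Cd.one.prod .one)) :=
  C.ext (C.S.prod (.univ K _)) (fun _ _ h => h.1) (fun _ _ => 0)
    (fun L z => (∏ l, (1 - algebraMap K L (T.a l) * z.2.1 + algebraMap K L (T.a l) ^ 2 * z.2.2)) *
      (1 - y L z.1 * z.2.1 + y L z.1 ^ 2 * z.2.2))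
    (fun _ _ R _ _ _ _ _ => R.zero)
    fun _ _ R _ _ m m' e => R.mul (Rel.prod _ fun _ _ => R.add (Rel.sub R.one
      (R.mul (R.const _) e.2.1)) (R.mul (Rel.pow (R.const _) 2) e.2.2))
      (R.add (Rel.sub R.one (R.mul (h R m.1 m'.1 e.1) e.2.1))
        (R.mul (Rel.pow (h R m.1 m'.1 e.1) 2) e.2.2))

lemma chart [V1 K p] [V2 K p] {i : ℕ} (Ψ : ANF p i (T.Qa C y h) W) :
    ∃ Φ : ANF p i ((Cx T C y h).prod (Tor K (Fin 2) (· = 1))) W,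
      ∀ (L : Fld K) c (τ δ : L) (t : Fin 2 → L) v s w, C.S.mem L c → t 1 ≠ 0 →
        Φ.e L ((c, τ, δ), t) v s w = Ψ.e L ((c, 0), mx τ δ (t 0) (t 1)) v s w := by
  obtain ⟨Ψ₀, h₀⟩ := clo Ψ (fun _ z => z.1.2 = 0) fun _ _ _ _ _ _ _ e h => Rel.eq_zero e.1.2 h
  have r : Reg ((Cx T C y h).prod (Tor K (Fin 2) (· = 1))).S ((cc.prod .one).prod (sq 2))
      fun _ z => ((z.1.1, 0), mx z.1.2.1 z.1.2.2 (z.2 0) (z.2 1)) :=
    fun _ _ R _ _ _ m' e => ⟨⟨e.1.1, R.zero⟩, rel_mx e.1.2.1 e.1.2.2 (e.2 0) (e.2 1) (m'.2.2 1 rfl)⟩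
  refine (V1.rst (c := (cc.prod .one).prod (sq 2)) (E := (T.Qa C y h).cl _ _)
    (E' := (Cx T C y h).prod (Tor K (Fin 2) (· = 1)))
    (f := fun _ z => ((z.1.1, 0), mx z.1.2.1 z.1.2.2 (z.2 0) (z.2 1)))
    (f' := fun _ z => ((z.1.1, z.2.trace, z.2.det), ![z.2 0 0, z.2 1 0]))
    ((((T.Qa C y h).S.cl (fun _ z => z.1.2 = 0)
      fun _ _ _ _ _ _ _ e h => Rel.eq_zero e.1.2 h)).opn (fun _ z => z.2 1 0 ≠ 0)
      fun _ _ _ _ _ _ _ e h => Rel.ne_zero (e.2 1 0) h)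
    ⟨⟨⟨r, fun _ _ m => ⟨⟨⟨m.1.1, trivial⟩, trivial⟩, rfl⟩⟩, fun _ _ _ => rfl⟩, fun L z m => ?_⟩
    ⟨⟨r, fun _ _ m => ⟨⟨⟨⟨m.1.1, trivial⟩, trivial⟩, rfl⟩, m.2.2 1 rfl⟩⟩,
      ⟨fun _ _ _ _ _ _ _ e => ⟨⟨e.1.1, Rel.trace e.2, Rel.det e.2⟩, fun a => ?_⟩,
        fun _ _ m => ⟨⟨m.1.1.1.1, trivial⟩, trivial, fun a ha => by subst ha; exact m.2⟩⟩,
      fun L z m => ?_, fun L z m => ?_⟩ Ψ₀ fun L z v s w e => ?_).imp
    fun Φ hΦ L c τ δ t v s w m ht => (hΦ L _ v s w ⟨⟨m, trivial⟩, trivial,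
      fun a ha => ha ▸ ht⟩).trans (h₀ L _ v s w ⟨⟨m, trivial⟩, trivial⟩ rfl)
  · have m0 : z.2 1 ≠ 0 := m.2.2 1 rfl
    change (C.g L z.1.1 * 1) * ((∏ l, (1 - algebraMap K L (T.a l) •
      mx z.1.2.1 z.1.2.2 (z.2 0) (z.2 1)).det) * (1 - !![y L z.1.1, 0; 0, y L z.1.1] *
      mx z.1.2.1 z.1.2.2 (z.2 0) (z.2 1)).det) = (C.g L z.1.1 * ((∏ l, (1 - algebraMap K L (T.a l) *
      z.1.2.1 + algebraMap K L (T.a l) ^ 2 * z.1.2.2)) * (1 - y L z.1.1 * z.1.2.1 +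
      y L z.1.1 ^ 2 * z.1.2.2))) * 1
    simp only [det2, det3, mx_tr, mx_det _ _ _ m0, zero_mul, sub_zero, mul_one]
  · fin_cases a
    exacts [e.2 0 0, e.2 1 0]
  · have m0 : z.2 1 ≠ 0 := m.2.2 1 rfl
    refine Prod.ext (Prod.ext rfl (Prod.ext (mx_tr _ _ _ _) (mx_det _ _ _ m0))) (funext fun a => ?_)
    fin_cases a <;> rfl
  · exact Prod.ext (Prod.ext rfl m.1.2.symm) (mx_eq m.2)
  · have m := (V1.mem Ψ₀ e).2.1
    refine ⟨m, fun h0 => e ((h₀ L z v s w m.1 m.2).trans ?_)⟩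
    obtain ⟨⟨c, ν⟩, X⟩ := z
    obtain rfl : ν = 0 := m.2
    exact tri T C y h Ψ L c X v s w h0

end SAa

variable {K : Type} [Field K] [Base K] {p : ℕ} [Fact p.Prime] [CharP K p] [FW0 K] [FWp K p]

open SAa in
theorem SA_thm (h2 : (2 : K) ≠ 0) [V1 K p] [V2 K p] [S2a K p] : SA K p where
  van T cc d C W y h i Ψ H L c X v s w := by
    by_cases hX : X 1 0 = 0
    · exact tri T C y h Ψ L c X v s w hX
    by_contra e
    obtain ⟨Φ, hΦ⟩ := chart T C y h Ψ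
    refine e ?_
    rw [← mx_eq hX]
    refine (hΦ L c X.trace X.det ![X 0 0, X 1 0] v s w (V1.mem Ψ e).2.1.1.1 hX).symm.trans ?_
    refine V2.up _ Φ (fun _ _ => True) (fun _ _ _ _ _ _ _ _ h => h) ?_ L _ _ v s w trivial
    rintro j L M α t ⟨c, τ, δ⟩ v s w hi ht m -
    have c2 : Nat.card (Fin 2) = 2 := by simp
    obtain ⟨L', ι, x₁, x₂, hι, e1, e2⟩ := roots h2 L τ δ
    obtain ⟨M', α', t', ht'⟩ : ∃ (M' : Fld K) (α' : L' →ₐ[K] M') (t' : Fin 2 → M'), Free j α' t' :=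
      ⟨_, _, _, FA1.fr_free (Fin 2) (ht.gL.of_fin hι)⟩
    obtain ⟨ρ, hρ, hρ', -⟩ := FA1.lift ht ht' ι
    have a : ∀ x, ρ (α x) = α' (ι x) := fun x => congrArg (fun f : L →ₐ[K] M' => f x) hρ
    have n : ∀ (k : Fin 2) (x : L'), t' k - α' x ≠ 0 := fun k x h0 =>
      Polynomial.X_sub_C_ne_zero x (FA1.trans ht' k _ (by
        rw [Polynomial.eval₂_sub, Polynomial.eval₂_X, Polynomial.eval₂_C]; exact h0))
    have n1 : t' 1 ≠ 0 := by simpa using n 1 0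
    have hm := V1.map Φ ρ ((cc.map α c, α τ, α δ), t) (α v) (α s) (d.map α w) (hi ▸ ht.gM)
      (hi ▸ ht'.gM)
    refine (mul_eq_zero.1 (hm.1.symm.trans ?_)).resolve_left hm.2
    have m' : C.S.mem L' (cc.map ι c) := (C.S.map_iff ι c).2 m.1
    refine (hΦ M' _ _ _ _ _ _ _ ((C.S.map_iff ρ _).2 ((C.S.map_iff α c).2 m.1))
      ((hρ' 1).trans_ne n1)).trans ?_
    have f : Free j α' ![t' 0, -((t' 0 - α' x₁) * (t' 0 - α' x₂)) / t' 1] := by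
      refine FA1.of_gen ht' rfl fun k => ?_
      generalize hU : ![t' 0, -((t' 0 - α' x₁) * (t' 0 - α' x₂)) / t' 1] = U
      have l : ∀ x, α' x ∈ gen α' U := fun x => IntermediateField.subset_adjoin _ _ (.inl ⟨x, rfl⟩)
      have r : ∀ k, U k ∈ gen α' U := fun k => IntermediateField.subset_adjoin _ _ (.inr ⟨k, rfl⟩)
      have u0 : t' 0 = U 0 := by rw [← hU]; rfl
      have u1 : t' 1 = -((U 0 - α' x₁) * (U 0 - α' x₂)) / U 1 := by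
        have := n 0 x₁
        have := n 0 x₂
        rw [← hU]
        change _ = -((t' 0 - α' x₁) * (t' 0 - α' x₂)) / (-((t' 0 - α' x₁) * (t' 0 - α' x₂)) / t' 1)
        field_simp
      fin_cases k
      · exact u0 ▸ r 0
      · exact u1 ▸ div_mem (neg_mem (mul_mem (sub_mem (r 0) (l _)) (sub_mem (r 0) (l _)))) (r 1)
    rw [c2] at hi
    subst hi
    have k1 := S2a.rel T C y h Ψ L' M' α' _ (cc.map ι c) x₁ x₂ (ι v) (ι s) (d.map ι w) f m'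
    rw [add_assoc, H j L' M' α' _ (cc.map ι c) x₁ x₂ (ι v) (ι s) (d.map ι w) rfl f m',
      add_zero] at k1
    simp only [Cd.map_map, a, hρ', e1, e2, map_add, map_mul] at k1 ⊢
    rw [mx_gx _ _ (n 0 x₁) (n 0 x₂) n1]
    exact k1

end Pool.Agent.Lib.MP_557161_ag.HG.TW
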