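import Pool.Agent.Lib.MP_557161_ag.TW.StY
import Pool.Agent.Lib.MP_557161_ag.TW.StZ2

/-!
The number of fixed points of Frobenius on the surface: statements.
-/

namespace Pool.Agent.Lib.MP_557161_ag.HG.TW.P2

open Pool.Agent.Lib.MP_557161_ag.DL MvPolynomial

/-- The vectors `(t 0 ^ Q, ± t 1 ^ Q)` and `t` are proportional. -/
def Fz {K : Type} [Field K] (Q : ℕ) (ε : Bool) (t : Fin 2 → K) : Prop :=
  t 0 ^ Q * t 1 = (bif ε then -1 else 1) * t 1 ^ Q * t 0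

/-- Normalised representatives of the fixed points. -/
def GD.NF {K : Type} [Field K] (G : GD K) (Q : ℕ) (ε : Bool) (w : Vr → K) : Prop :=
  (∀ s, Nm (pc w s)) ∧ (∀ r, aeval w (G.E r) = 0) ∧
    (∀ i, w (0, i) ^ Q = w (0, i) ∧ w (1, i) ^ Q = w (1, i)) ∧ Fz Q ε (pc w 2) ∧ Fz Q ε (pc w 3)

variable (K : Type) [Field K] (p : ℕ)

/-- Normal forms. -/
class XB0 : Prop where
  fx : ∀ {G : GD K} {Q : ℕ}, G.Fr p Q → ∀ ε, G.fx Q ε = Nat.card {w : Vr → K // G.NF Q ε w}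
  fu : ∀ {G : GD K} {Q : ℕ}, G.Fr p Q → ∀ ε,
    G.fu Q ε = Nat.card {w : Vr → K // G.NF Q ε w ∧ G.bd (.base K) w ≠ 0}

/-- The boundary. -/
class XB1 : Prop where
  cnt : ∀ {G : GD K} {Q : ℕ}, 1 < Q → G.Fr p Q → ∀ ε, G.fx Q ε + rt Q G.FP * rt Q G.FQ =
    G.fu Q ε + Q + 1 + Q * (rt Q G.FP * rt Q G.FQ + 2 * rt Q G.FP + 2 * rt Q G.FQ)

/-- The unramified part. -/
class XB2 : Prop where
  cnt : ∀ {G : GD K} {Q : ℕ}, 1 < Q → G.Fr p Q →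
    G.fu Q false + G.fu Q true + 2 * (rt Q G.FP + rt Q G.FQ) * Q =
      2 * (Q ^ 2 + Q + rt Q G.FP * rt Q G.FQ)

/-- The points that a power of Frobenius sends to their image under the involution. -/
class XB3 : Prop where
  uu : ∀ {G : GD K} {Q : ℕ}, G.Fr p Q → ∀ ε, G.fu Q ε =
    Nat.card {A : xz.X (Fld.base K) // G.UU.mem _ A ∧ G.frb Q _ A = sg ε _ A}
  dvd : ∀ {G : GD K} {q : ℕ}, G.Fr p q → ∀ m v : ℕ, 0 < m → 2 ^ v ∣ m →
    2 ^ (v + 1) ∣ G.fu (q ^ m) true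

end Pool.Agent.Lib.MP_557161_ag.HG.TW.P2
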