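import Pool.Agent.Lib.MP_557161_ag.TW.Wd

/-!
Determinants of matrices whose rows and columns have different index types, cofactor vectors, and
the weights of the pencil spaces.
-/

namespace Pool.Agent.Lib.MP_557161_ag.HG.TW

open Pool.Agent.Lib.MP_557161_ag.DL Matrix

section Alg

variable {L : Type} [Field L] {m n τ α ι ι' : Type}

/-- The determinant, the columns being matched with the rows by `e`. -/
noncomputable def dt [Fintype m] [DecidableEq m] (e : m ≃ n) (M : Matrix m n L) : L :=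
  (M.submatrix id e).det

/-- The inverse. -/
noncomputable def iv [Fintype m] [DecidableEq m] (e : m ≃ n) (M : Matrix m n L) : Matrix n m L :=
  ((M.submatrix id e)⁻¹).submatrix e.symm id

/-- A row on top of a matrix. -/
def rc (ξ : n → L) (A : Matrix τ n L) : Matrix (Option τ) n L :=
  Matrix.of fun i j => i.elim (ξ j) fun t => A t j

/-- A column in front of a matrix. -/
def ccn (v : m → L) (A : Matrix m τ L) : Matrix m (Option τ) L :=
  Matrix.of fun i j => j.elim (v i) fun t => A i t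

/-- The cofactor vector of a matrix with one more column than rows. -/
noncomputable def cf [Fintype τ] [DecidableEq τ] [DecidableEq n] (e : Option τ ≃ n)
    (A : Matrix τ n L) : n → L := fun j => dt e (rc (Pi.single j 1) A)

/-- The determinant of the columns `(a l - a i) φ l`, `l ≠ i`, and `H - a i Θ`. -/
noncomputable def wt [Fintype ι] [DecidableEq ι] [Fintype α] [DecidableEq α] [DecidableEq ι']
    (e : Option ι ≃ α ⊕ ι') (a : α → L) (φ : Matrix ι α L) (H Θ : Matrix ι ι' L) (i : α) : L :=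
  cf e (fromCols (φ * diagonal fun l => a l - a i) (H - a i • Θ)) (Sum.inl i)

/-- The Krylov matrix of the first basis vector. -/
noncomputable def kry [Fintype τ] [DecidableEq τ] (o : Option τ → ℕ)
    (Y : Matrix (Option τ) (Option τ) L) : Matrix (Option τ) (Option τ) L :=
  Matrix.of fun i k => (Y ^ o k *ᵥ Pi.single none 1) i

/-- The frame: the basis vectors and minus their sum. -/
def frm (L : Type) [Field L] (ρ : Type) [DecidableEq ρ] : Matrix ρ (Option ρ) L :=
  ccn (fun _ => -1) 1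

end Alg

/-- The rules for `dt`, `iv`, `cf`, `wt`. -/
class DA : Prop where
  dt_mul : ∀ {L : Type} [Field L] {m n o : Type} [Fintype m] [DecidableEq m] [Fintype n]
    [DecidableEq n] (e : m ≃ n) (e' : n ≃ o) (M : Matrix m n L) (N : Matrix n o L),
    dt (e.trans e') (M * N) = dt e M * dt e' N
  dt_sign : ∀ {m n : Type} [Fintype m] [DecidableEq m] (e e' : m ≃ n), ∃ ε : ℤ, ε * ε = 1 ∧
    ∀ {L : Type} [Field L] (M : Matrix m n L), dt e M = ε * dt e' M
  dt_sub : ∀ {L : Type} [Field L] {m n m' n' : Type} [Fintype m] [DecidableEq m] [Fintype m']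
    [DecidableEq m'] (e : m' ≃ n') (f : m' ≃ m) (g : n' ≃ n) (M : Matrix m n L),
    dt e (M.submatrix f g) = dt (f.symm.trans (e.trans g)) M
  dt_blk : ∀ {L : Type} [Field L] {m n m' n' : Type} [Fintype m] [DecidableEq m] [Fintype m']
    [DecidableEq m'] (e : m ≃ n) (e' : m' ≃ n') (A : Matrix m n L) (B : Matrix m n' L)
    (C : Matrix m' n L) (D : Matrix m' n' L),
    dt (e.sumCongr e') (fromBlocks A B 0 D) = dt e A * dt e' D ∧
      dt (e.sumCongr e') (fromBlocks A 0 C D) = dt e A * dt e' D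
  iv_mul : ∀ {L : Type} [Field L] {m n : Type} [Fintype m] [DecidableEq m] [Fintype n]
    [DecidableEq n] (e : m ≃ n) (M : Matrix m n L), dt e M ≠ 0 →
    M * iv e M = 1 ∧ iv e M * M = 1 ∧ dt e.symm (iv e M) = (dt e M)⁻¹
  dt_rc : ∀ {L : Type} [Field L] {τ n : Type} [Fintype τ] [DecidableEq τ] [Fintype n]
    [DecidableEq n] (e : Option τ ≃ n) (ξ : n → L) (A : Matrix τ n L),
    dt e (rc ξ A) = ξ ⬝ᵥ cf e A
  mul_cf : ∀ {L : Type} [Field L] {τ n : Type} [Fintype τ] [DecidableEq τ] [Fintype n]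
    [DecidableEq n] (e : Option τ ≃ n) (A : Matrix τ n L), A *ᵥ cf e A = 0
  cf_prop : ∀ {L : Type} [Field L] {τ n : Type} [Fintype τ] [DecidableEq τ] [Fintype n]
    [DecidableEq n] (e : Option τ ≃ n) (A : Matrix τ n L) (v : n → L), A *ᵥ v = 0 →
    ∀ j k, cf e A j * v k = cf e A k * v j
  cf_left : ∀ {L : Type} [Field L] {τ n : Type} [Fintype τ] [DecidableEq τ] [DecidableEq n]
    (e : Option τ ≃ n) (U : Matrix τ τ L) (A : Matrix τ n L), cf e (U * A) = U.det • cf e A
  cf_right : ∀ {L : Type} [Field L] {τ n n' : Type} [Fintype τ] [DecidableEq τ] [Fintype n]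
    [DecidableEq n] [Fintype n'] [DecidableEq n'] (e : Option τ ≃ n) (e' : n ≃ n')
    (A : Matrix τ n L) (g : Matrix n n' L), g *ᵥ cf (e.trans e') (A * g) = dt e' g • cf e A
  wt_mul : ∀ {L : Type} [Field L] {ι α ι' : Type} [Fintype ι] [DecidableEq ι] [Fintype α]
    [DecidableEq α] [Fintype ι'] [DecidableEq ι'] (e : Option ι ≃ α ⊕ ι') (a t : α → L)
    (φ : Matrix ι α L) (H Θ : Matrix ι ι' L) (G : Matrix ι ι L) (G' : Matrix ι' ι' L) (i : α),
    wt e a (G * φ * diagonal t) (G * H * G') (G * Θ * G') i =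
      G.det * G'.det * (∏ l ∈ Finset.univ.erase i, t l) * wt e a φ H Θ i
  wt_abs : ∀ {L : Type} [Field L] {ι α ι' : Type} [Fintype ι] [DecidableEq ι] [Fintype α]
    [DecidableEq α] [Fintype ι'] [DecidableEq ι'] (e : Option ι ≃ α ⊕ ι') (a : α → L)
    (φ : Matrix ι α L) (H Θ : Matrix ι ι' L) (ζ : Matrix α ι' L) (i : α),
    wt e a φ (H + φ * diagonal a * ζ) (Θ + φ * ζ) i = wt e a φ H Θ i

variable {K : Type} [Field K]

/-- A constant vector. -/
def cv (L : Fld K) {m : Type} (a : m → K) : m → L := fun i => algebraMap K L (a i)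

/-- A constant matrix. -/
def cm (L : Fld K) {m n : Type} (A : Matrix m n K) : Matrix m n L := A.map (algebraMap K L)

end Pool.Agent.Lib.MP_557161_ag.HG.TW

namespace Pool.Agent.Lib.MP_557161_ag.HG.Rel

open Pool.Agent.Lib.MP_557161_ag.DL Matrix TW

variable {K : Type} [Field K] {M L : Fld K} {R : Rel M L} {m n m' n' τ α ι ι' : Type}

lemma rcv (R : Rel M L) (a : m → K) (i : m) : R.r (cv M a i) (cv L a i) := R.const _
lemma rcm (R : Rel M L) (A : Matrix m n K) : R.m' (cm M A) (cm L A) := fun _ _ => R.const _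
lemma vsingle [DecidableEq m] (j : m) {a : M} {a' : L} (h : R.r a a') (i : m) :
    R.r ((Pi.single j a : m → M) i) ((Pi.single j a' : m → L) i) := by
  simp only [Pi.single_apply]
  exact ite _ h R.zero
lemma msubm {A : Matrix m n M} {A' : Matrix m n L} (h : R.m' A A') (f : m' → m) (g : n' → n) :
    R.m' (A.submatrix f g) (A'.submatrix f g) := fun _ _ => h _ _
lemma mcols {A : Matrix m n M} {A' : Matrix m n L} {B : Matrix m n' M} {B' : Matrix m n' L}
    (h : R.m' A A') (h' : R.m' B B') : R.m' (fromCols A B) (fromCols A' B') := fun i j => by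
  cases j
  exacts [h _ _, h' _ _]
lemma mrows {A : Matrix m n M} {A' : Matrix m n L} {B : Matrix m' n M} {B' : Matrix m' n L}
    (h : R.m' A A') (h' : R.m' B B') : R.m' (fromRows A B) (fromRows A' B') := fun i j => by
  cases i
  exacts [h _ _, h' _ _]
lemma msum {σ : Type} (s : Finset σ) {f : σ → Matrix m n M} {f' : σ → Matrix m n L}
    (h : ∀ i ∈ s, R.m' (f i) (f' i)) : R.m' (∑ i ∈ s, f i) (∑ i ∈ s, f' i) := fun i j => by
  rw [Matrix.sum_apply, Matrix.sum_apply]
  exact sum _ fun k hk => h k hk i j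
lemma mrc {ξ : n → M} {ξ' : n → L} {A : Matrix τ n M} {A' : Matrix τ n L}
    (h : ∀ i, R.r (ξ i) (ξ' i)) (h' : R.m' A A') : R.m' (rc ξ A) (rc ξ' A') := fun i j => by
  cases i
  exacts [h _, h' _ _]
lemma mccn {v : m → M} {v' : m → L} {A : Matrix m τ M} {A' : Matrix m τ L}
    (h : ∀ i, R.r (v i) (v' i)) (h' : R.m' A A') : R.m' (ccn v A) (ccn v' A') := fun i j => by
  cases j
  exacts [h _, h' _ _]
lemma mfrm (R : Rel M L) (ρ : Type) [DecidableEq ρ] : R.m' (frm M ρ) (frm L ρ) :=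
  mccn (fun _ => neg R.one) mone
lemma dot [Fintype n] {x y : n → M} {x' y' : n → L} (h : ∀ i, R.r (x i) (x' i))
    (h' : ∀ i, R.r (y i) (y' i)) : R.r (x ⬝ᵥ y) (x' ⬝ᵥ y') := sum _ fun i _ => R.mul (h i) (h' i)
lemma rdt [Fintype m] [DecidableEq m] (e : m ≃ n) {A : Matrix m n M} {A' : Matrix m n L}
    (h : R.m' A A') : R.r (dt e A) (dt e A') := det (msubm h _ _)
lemma miv [Fintype m] [DecidableEq m] (e : m ≃ n) {A : Matrix m n M} {A' : Matrix m n L}
    (h : R.m' A A') (h0 : dt e A' ≠ 0) : R.m' (iv e A) (iv e A') :=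
  msubm (minv (msubm h _ _) h0) _ _
lemma rcf [Fintype τ] [DecidableEq τ] [DecidableEq n] (e : Option τ ≃ n) {A : Matrix τ n M}
    {A' : Matrix τ n L} (h : R.m' A A') (j : n) : R.r (cf e A j) (cf e A' j) :=
  rdt e (mrc (vsingle j R.one) h)
lemma rwt [Fintype ι] [DecidableEq ι] [Fintype α] [DecidableEq α] [DecidableEq ι']
    (e : Option ι ≃ α ⊕ ι') {a : α → M} {a' : α → L} {φ : Matrix ι α M} {φ' : Matrix ι α L}
    {H Θ : Matrix ι ι' M} {H' Θ' : Matrix ι ι' L} (ha : ∀ i, R.r (a i) (a' i)) (h : R.m' φ φ')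
    (h1 : R.m' H H') (h2 : R.m' Θ Θ') (i : α) : R.r (wt e a φ H Θ i) (wt e a' φ' H' Θ' i) :=
  rcf e (mcols (mmul h (mdiag fun l => sub (ha l) (ha i))) (msub h1 (msmul (ha i) h2))) _
lemma mkry [Fintype τ] [DecidableEq τ] (o : Option τ → ℕ) {Y : Matrix (Option τ) (Option τ) M}
    {Y' : Matrix (Option τ) (Option τ) L} (h : R.m' Y Y') : R.m' (kry o Y) (kry o Y') :=
  fun i k => mulVec (mpow h (o k)) (vsingle none R.one) i

end Pool.Agent.Lib.MP_557161_ag.HG.Rel
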