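import Pool.Agent.Lib.MP_557161_ag.TW.StO
import Pool.Agent.Lib.MP_557161_ag.TW.StS

/-!
From pairs of matrices to the node model: definitions and the statements of the steps.
-/

namespace Pool.Agent.Lib.MP_557161_ag.HG.TW

open Pool.Agent.Lib.MP_557161_ag.DL Matrix

variable {K : Type} [Field K] {ρ σ τ : Type}

/-- The points `a` and the nodes `b`. -/
structure FD (K : Type) [Field K] (ρ σ : Type) [Fintype ρ] [Fintype σ] where
  a : Option ρ → K
  b : Option σ → K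
  ha : AH a
  bi : Function.Injective b
  ab : ∀ i j, a i ≠ b j
  od : Odd (Fintype.card σ)

/-- Square matrices of size `Option τ`. -/
abbrev nn (τ : Type) [Finite τ] : Cd := .mat (Option τ) (Option τ)

/-- The shape of points `((η, θ), s)`. -/
abbrev ec (ρ τ : Type) [Finite ρ] [Finite τ] : Cd :=
  ((Cd.mat τ (Option τ)).prod (.mat τ (Option τ))).prod (.vec (Option ρ))

/-- The shape of points `(((η, θ), s), (I0, I1))`. -/
abbrev ic (ρ τ : Type) [Finite ρ] [Finite τ] : Cd :=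
  (ec ρ τ).prod ((Cd.mat (Option τ) τ).prod (.mat (Option τ) τ))

/-- The shape of points `(z, (d, c))`. -/
abbrev sc (ρ τ : Type) [Finite ρ] [Finite τ] : Cd :=
  (ic ρ τ).prod ((Cd.vec (Option ρ)).prod (.mat ρ τ))

/-- A product of matrix Gauss sums. -/
noncomputable def GLs (K : Type) [Field K] (β ρ : Type) [Fintype β] [Fintype ρ] [DecidableEq ρ] :
    WD K (.pi β (.mat ρ ρ)) :=
  mkW (.univ K _) (fun _ h => ∑ j, (h j).trace) (fun _ h => ∏ j, (h j).det)
    (fun _ _ _ _ _ _ _ e => Rel.sum _ fun j _ => Rel.trace (e j))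
    fun _ _ _ _ _ _ _ e => Rel.prod _ fun j _ => Rel.det (e j)

section Alg

variable {L : Type} [Field L] [DecidableEq ρ]

/-- The linear forms with parameters `d` and `c`. -/
def phm [Fintype ρ] (d : Option ρ → L) (c : Matrix ρ τ L) : Matrix ρ (Option ρ ⊕ τ) L :=
  fromCols (frm L ρ * diagonal d) c

/-- The upper part of a basis of the kernel of `phm d c`. -/
def khm [Fintype ρ] (d : Option ρ → L) (c : Matrix ρ τ L) : Matrix (Option ρ) (Option τ) L :=
  (diagonal fun i => (d i)⁻¹) * ccn (fun _ => 1) (rc 0 (-c))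

/-- The blocks `u j`, `j` a finite node, side by side. -/
def umx (u : Option (Option σ) → Matrix τ ρ L) : Matrix τ (Option σ × ρ) L :=
  Matrix.of fun t x => u (some x.1) t x.2

/-- The standard blocks, and minus their sum. -/
def ubm (L : Type) [Field L] [DecidableEq σ] (j : Option (Option σ)) :
    Matrix (Option σ × ρ) ρ L :=
  Matrix.of fun t l => j.elim (if t.2 = l then -1 else 0) fun j => if t = (j, l) then 1 else 0

/-- Left inverses of the standard blocks. -/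
def usm (L : Type) [Field L] [DecidableEq σ] (j : Option (Option σ)) :
    Matrix ρ (Option σ × ρ) L :=
  Matrix.of fun l t => j.elim (if t = (none, l) then -1 else 0) fun j => if t = (j, l) then 1 else 0

end Alg

section Rl

variable {M L : Fld K} {R : Rel M L} [DecidableEq ρ]

lemma rel_phm [Fintype ρ] {d : Option ρ → M} {d' : Option ρ → L} {c : Matrix ρ τ M}
    {c' : Matrix ρ τ L} (h : ∀ i, R.r (d i) (d' i)) (h' : R.m' c c') :
    R.m' (phm d c) (phm d' c') := Rel.mcols (Rel.mmul (R.mfrm ρ) (Rel.mdiag h)) h'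

lemma rel_khm [Fintype ρ] {d : Option ρ → M} {d' : Option ρ → L} {c : Matrix ρ τ M}
    {c' : Matrix ρ τ L} (h : ∀ i, R.r (d i) (d' i)) (h' : R.m' c c') (h0 : ∀ i, d' i ≠ 0) :
    R.m' (khm d c) (khm d' c') :=
  Rel.mmul (Rel.mdiag fun i => R.inv (h i) (h0 i))
    (Rel.mccn (fun _ => R.one) (Rel.mrc (fun _ => R.zero) (Rel.mneg h')))

omit [DecidableEq ρ] in
lemma rel_umx {u : Option (Option σ) → Matrix τ ρ M} {u' : Option (Option σ) → Matrix τ ρ L}
    (h : ∀ j, R.m' (u j) (u' j)) : R.m' (umx u) (umx u') := fun t x => h _ t x.2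

lemma rel_ubm (R : Rel M L) [DecidableEq σ] (j : Option (Option σ)) :
    R.m' (ubm (ρ := ρ) M j) (ubm L j) := fun _ _ => by
  cases j
  exacts [Rel.ite _ (Rel.neg R.one) R.zero, Rel.ite _ R.one R.zero]

lemma rel_usm (R : Rel M L) [DecidableEq σ] (j : Option (Option σ)) :
    R.m' (usm (ρ := ρ) M j) (usm L j) := fun _ _ => by
  cases j
  exacts [Rel.ite _ (Rel.neg R.one) R.zero, Rel.ite _ R.one R.zero]

end Rl

namespace FD

variable [Fintype ρ] [DecidableEq ρ] [Fintype σ] [DecidableEq σ] [Fintype τ] [DecidableEq τ]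
  (F : FD K ρ σ)

/-- The determinant of the node polynomial at `Y`. -/
noncomputable def dm (L : Fld K) (Y : (nn τ).X L) : L := ∏ j, (Y - cv L F.b j • 1).det

/-- The matrix with the columns `s i` times the cofactor vector of `η - a i θ`. -/
noncomputable def wm (L : Fld K) (z : (ec ρ τ).X L) : Matrix (Option τ) (Option ρ) L :=
  Matrix.of fun x i => z.2 i * cf (Equiv.refl _) (z.1.1 - cv L F.a i • z.1.2) x

/-- The pencil at infinity and at the nodes. -/
noncomputable def io (L : Fld K) (z : (ic ρ τ).X L) (j : Option (Option σ)) :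
    Matrix (Option τ) (Option ρ ⊕ τ) L :=
  j.elim (fromCols (F.wm L z.1) z.2.1) fun j =>
    fromCols (F.wm L z.1 * diagonal fun i => cv L F.a i - cv L F.b j) (z.2.2 - cv L F.b j • z.2.1)

/-- The phase. -/
def ph (L : Fld K) (z : (ic ρ τ).X L) : L := (z.1.1.1 * z.2.1 - z.1.1.2 * z.2.2).trace

/-- The gauge matrix. -/
noncomputable def g0 (L : Fld K) (z : (ic ρ τ).X L) (d : Option ρ → L) (c : Matrix ρ τ L) :
    Matrix (Option τ) (Option τ) L := F.wm L z.1 * khm d c + ccn 0 z.2.1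

/-- The gauge matrix times the second matrix. -/
noncomputable def g1 (L : Fld K) (z : (ic ρ τ).X L) (d : Option ρ → L) (c : Matrix ρ τ L) :
    Matrix (Option τ) (Option τ) L :=
  F.wm L z.1 * diagonal (cv L F.a) * khm d c + ccn 0 z.2.2

section

variable {M L : Fld K} (R : Rel M L)

omit [DecidableEq ρ] [DecidableEq σ] in
lemma dm_rel {Y : (nn τ).X M} {Y' : (nn τ).X L} (h : R.m' Y Y') : R.r (F.dm M Y) (F.dm L Y') :=
  Rel.prod _ fun j _ => Rel.det (Rel.msub h (Rel.msmul (R.rcv _ j) Rel.mone))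

omit [DecidableEq ρ] [DecidableEq σ] in
lemma wm_rel {z : (ec ρ τ).X M} {z' : (ec ρ τ).X L} (h : (ec ρ τ).lift R.r z z') :
    R.m' (F.wm M z) (F.wm L z') := fun x i =>
  R.mul (h.2 i) (Rel.rcf _ (Rel.msub h.1.1 (Rel.msmul (R.rcv _ i) h.1.2)) x)

variable {z : (ic ρ τ).X M} {z' : (ic ρ τ).X L} (h : (ic ρ τ).lift R.r z z')
include h

omit [DecidableEq σ] in
lemma io_rel (j : Option (Option σ)) : R.m' (F.io M z j) (F.io L z' j) := by
  cases j with
  | none => exact Rel.mcols (F.wm_rel R h.1) h.2.1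
  | some j =>
    exact Rel.mcols (Rel.mmul (F.wm_rel R h.1) (Rel.mdiag fun i => Rel.sub (R.rcv _ i) (R.rcv _ j)))
      (Rel.msub h.2.2 (Rel.msmul (R.rcv _ j) h.2.1))

omit [DecidableEq ρ] [DecidableEq τ] in
lemma ph_rel : R.r (ph M z) (ph L z') :=
  Rel.trace (Rel.msub (Rel.mmul h.1.1.1 h.2.1) (Rel.mmul h.1.1.2 h.2.2))

variable {d : Option ρ → M} {d' : Option ρ → L} {c : Matrix ρ τ M} {c' : Matrix ρ τ L}
  (h1 : ∀ i, R.r (d i) (d' i)) (h2 : R.m' c c') (h0 : ∀ i, d' i ≠ 0)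
include h1 h2 h0

omit [DecidableEq σ] in
lemma g0_rel : R.m' (F.g0 M z d c) (F.g0 L z' d' c') :=
  Rel.madd (Rel.mmul (F.wm_rel R h.1) (rel_khm h1 h2 h0)) (Rel.mccn (fun _ => R.zero) h.2.1)

omit [DecidableEq σ] in
lemma g1_rel : R.m' (F.g1 M z d c) (F.g1 L z' d' c') :=
  Rel.madd (Rel.mmul (Rel.mmul (F.wm_rel R h.1) (Rel.mdiag (R.rcv _))) (rel_khm h1 h2 h0))
    (Rel.mccn (fun _ => R.zero) h.2.2)

end

variable (o : Option τ → ℕ)

/-- Pairs `(X, Y)` with a cyclic first basis vector. -/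
noncomputable def CP : WD K ((nn τ).prod (nn τ)) :=
  mkW ((ASp.univ K _).opn (fun _ z => (kry o z.2).det ≠ 0)
      fun _ _ _ _ _ _ _ e h => Rel.ne_zero (Rel.det (Rel.mkry o e.2)) h) (fun _ _ => 0)
    (fun L z => (∏ l, (1 - cv L F.a (some l) • z.1).det) * (1 - z.2 * z.1).det * F.dm L z.2)
    (fun _ _ R _ _ _ _ _ => R.zero) fun _ _ R _ _ _ _ e => R.mul (R.mul
      (Rel.prod _ fun _ _ => Rel.det (Rel.msub Rel.mone (Rel.msmul (R.rcv _ _) e.1)))
      (Rel.det (Rel.msub Rel.mone (Rel.mmul e.2 e.1)))) (F.dm_rel R e.2)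

/-- Triples `((X0, X1), Y)`. -/
noncomputable def CF : WD K (((nn τ).prod (nn τ)).prod (nn τ)) :=
  mkW ((ASp.univ K _).opn (fun _ z => (kry o z.2).det ≠ 0)
      fun _ _ _ _ _ _ _ e h => Rel.ne_zero (Rel.det (Rel.mkry o e.2)) h)
    (fun _ z => (z.1.1 - z.2 * z.1.2).trace)
    (fun L z => (∏ i, (z.1.1 - cv L F.a i • z.1.2).det) * F.dm L z.2)
    (fun _ _ _ _ _ _ _ e => Rel.trace (Rel.msub e.1.1 (Rel.mmul e.2 e.1.2)))
    fun _ _ R _ _ _ _ e => R.mul
      (Rel.prod _ fun _ _ => Rel.det (Rel.msub e.1.1 (Rel.msmul (R.rcv _ _) e.1.2)))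
      (F.dm_rel R e.2)

/-- Points `(((η, θ), s), Y)` after the transform in the first rows. -/
noncomputable def CR : WD K ((ec ρ τ).prod (nn τ)) :=
  mkW (((ASp.univ K ((ec ρ τ).prod (nn τ))).opn (fun _ z => (kry o z.2).det ≠ 0)
      fun _ _ _ _ _ _ _ e h => Rel.ne_zero (Rel.det (Rel.mkry o e.2)) h).cl
      (fun L z => ∀ x, (F.wm L z.1 *ᵥ fun _ => 1) x = (1 : Matrix _ _ L) x none ∧
        (F.wm L z.1 *ᵥ cv L F.a) x = z.2 x none)
      fun _ _ R _ _ _ _ e h x =>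
        ⟨Rel.eq (Rel.mulVec (F.wm_rel R e.1) (fun _ => R.one) x) (Rel.mone x none) (h x).1,
          Rel.eq (Rel.mulVec (F.wm_rel R e.1) (R.rcv _) x) (e.2 x none) (h x).2⟩)
    (fun L z => ph L (z.1, (1 : Matrix _ _ L).submatrix id some, z.2.submatrix id some))
    (fun L z => (∏ i, z.1.2 i) * F.dm L z.2)
    (fun _ _ R _ _ _ _ e => ph_rel R ⟨e.1, Rel.msubm Rel.mone _ _, Rel.msubm e.2 _ _⟩)
    fun _ _ R _ _ _ _ e => R.mul (Rel.prod _ fun i _ => e.1.2 i) (F.dm_rel R e.2)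

variable (e : Option τ ⊕ ρ ≃ Option ρ ⊕ τ)

/-- Points `((((η, θ), s), (I0, I1)), (d, c))` with free pencils and free linear forms. -/
noncomputable def SR : WD K (sc ρ τ) :=
  mkW ((((ASp.univ K (sc ρ τ)).opn (fun _ z => ∀ i, z.2.1 i ≠ 0)
      fun _ _ _ _ _ _ _ h q i => Rel.ne_zero (h.2.1 i) (q i)).opn
      (fun L z => (F.g0 L z.1 z.2.1 z.2.2).det ≠ 0)
      fun _ _ R _ _ _ m h q => Rel.ne_zero (Rel.det (F.g0_rel R h.1 h.2.1 h.2.2 m.2)) q).opn
      (fun L z => (kry o ((F.g0 L z.1 z.2.1 z.2.2)⁻¹ * F.g1 L z.1 z.2.1 z.2.2)).det ≠ 0)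
      fun _ _ R _ _ _ m h q => Rel.ne_zero (Rel.det (Rel.mkry o (Rel.mmul
        (Rel.minv (F.g0_rel R h.1 h.2.1 h.2.2 m.1.2) m.2) (F.g1_rel R h.1 h.2.1 h.2.2 m.1.2)))) q)
    (fun L z => ph L z.1)
    (fun L z => (∏ i, z.1.1.2 i) * ∏ j, dt e (fromRows (F.io L z.1 j) (phm z.2.1 z.2.2)))
    (fun _ _ R _ _ _ _ h => ph_rel R h.1)
    fun _ _ R _ _ _ _ h => R.mul (Rel.prod _ fun i _ => h.1.1.2 i)
      (Rel.prod _ fun j _ => Rel.rdt e (Rel.mrows (F.io_rel R h.1 j) (rel_phm h.2.1 h.2.2)))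

end FD

/-- The shape of the upper parts of the kernels. -/
abbrev pc (ρ σ : Type) [Finite ρ] [Finite σ] : Cd := .pi (Option (Option σ)) (.mat (Option ρ) ρ)

/-- The shape of points `((z, p), (u, Z))`. -/
abbrev zc (ρ σ : Type) [Finite ρ] [Finite σ] : Cd :=
  ((ic ρ (Option σ × ρ)).prod (pc ρ σ)).prod
    ((Cd.pi (Option (Option σ)) (.mat (Option σ × ρ) ρ)).prod
      (.pi (Option (Option σ)) (.mat (Option ρ ⊕ Option σ × ρ) (Option (Option σ × ρ)))))

namespace FD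

variable [Fintype ρ] [DecidableEq ρ] [Fintype σ] [DecidableEq σ] (F : FD K ρ σ)
  (e : Option (Option σ × ρ) ⊕ ρ ≃ Option ρ ⊕ Option σ × ρ)

/-- Points `((z, p), (u, Z))`: the kernel of the pencil at `j` is `[p j; u j]`, and `Z j` is a
right inverse. -/
noncomputable def ZZ : WD K (zc ρ σ) :=
  mkW (((ASp.univ K (zc ρ σ)).opn (fun _ z => (umx z.2.1).det ≠ 0)
      fun _ _ _ _ _ _ _ h q => Rel.ne_zero (Rel.det (rel_umx h.2.1)) q).cl
      (fun L z => (∀ j, F.io L z.1.1 j * z.2.2 j = 1 ∧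
        F.io L z.1.1 j * fromRows (z.1.2 j) (z.2.1 j) = 0) ∧ ∑ j, z.2.1 j = 0 ∧
        ∀ i, ((∑ j, z.1.2 j) * frm L ρ) i i = 0)
      fun _ _ R _ _ _ _ h q => ⟨fun j =>
        ⟨Rel.meq (Rel.mmul (F.io_rel R h.1.1 j) (h.2.2 j)) Rel.mone (q.1 j).1,
          Rel.meq (Rel.mmul (F.io_rel R h.1.1 j) (Rel.mrows (h.1.2 j) (h.2.1 j))) Rel.mzero
            (q.1 j).2⟩, Rel.meq (Rel.msum _ fun j _ => h.2.1 j) Rel.mzero q.2.1,
        fun i => Rel.eq_zero (Rel.mmul (Rel.msum _ fun j _ => h.1.2 j) (R.mfrm ρ) i i) (q.2.2 i)⟩)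
    (fun L z => ph L z.1.1)
    (fun _ z => (∏ i, z.1.1.1.2 i) *
      ∏ j, dt e.symm (fromCols (z.2.2 j) (fromRows (z.1.2 j) (z.2.1 j))))
    (fun _ _ R _ _ _ _ h => ph_rel R h.1.1)
    fun _ _ R _ _ _ _ h => R.mul (Rel.prod _ fun i _ => h.1.1.1.2 i)
      (Rel.prod _ fun j _ => Rel.rdt _ (Rel.mcols (h.2.2 j) (Rel.mrows (h.1.2 j) (h.2.1 j))))

/-- Points `(z, p)`: the lower parts of the kernels are the standard blocks. -/
noncomputable def ZX : WD K ((ic ρ (Option σ × ρ)).prod (pc ρ σ)) :=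
  mkW ((ASp.univ K _).cl
      (fun L z => (∀ j, F.io L z.1 j * fromRows (z.2 j) (ubm L j) = 0) ∧
        ∀ i, ((∑ j, z.2 j) * frm L ρ) i i = 0)
      fun _ _ R _ _ _ _ h q => ⟨fun j =>
        Rel.meq (Rel.mmul (F.io_rel R h.1 j) (Rel.mrows (h.2 j) (rel_ubm R j))) Rel.mzero (q.1 j),
        fun i => Rel.eq_zero (Rel.mmul (Rel.msum _ fun j _ => h.2 j) (R.mfrm ρ) i i) (q.2 i)⟩)
    (fun L z => ph L z.1)
    (fun L z => (∏ i, z.1.1.2 i) * ∏ j, dt e (fromRows (F.io L z.1 j) (fromCols 0 (usm L j))))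
    (fun _ _ R _ _ _ _ h => ph_rel R h.1)
    fun _ _ R _ _ _ _ h => R.mul (Rel.prod _ fun i _ => h.1.1.2 i)
      (Rel.prod _ fun j _ => Rel.rdt e
        (Rel.mrows (F.io_rel R h.1 j) (Rel.mcols Rel.mzero (rel_usm R j))))

variable (e' : Option (Option σ × ρ) ≃ Option ρ ⊕ σ × ρ)

/-- The constants of the node model. -/
abbrev nd : OD K ρ (Option σ × ρ) (σ × ρ) := (nod F.b).od F.a e'

/-- Points `(((η, θ), s), (T, Ps))`. -/
noncomputable def ZW : WD K ((ec ρ (Option σ × ρ)).prod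
    ((Cd.mat (Option (Option σ × ρ)) (σ × ρ)).prod (.mat (Option ρ) ρ))) :=
  mkW ((ASp.univ K _).cl (fun L z => ∀ i, (z.2.2 * frm L ρ) i i = 0)
      fun _ _ R _ _ _ _ h q i => Rel.eq_zero (Rel.mmul h.2.2 (R.mfrm ρ) i i) (q i))
    (fun L z => ph L (z.1,
      F.wm L z.1 * z.2.2 * cm L (F.nd e').π + z.2.1 * cm L (F.nd e').J0,
      cv L F.b none • (F.wm L z.1 * z.2.2 * cm L (F.nd e').π) + z.2.1 * cm L (F.nd e').J1))
    (fun L z => (∏ i, z.1.2 i) * dt e' (fromCols (F.wm L z.1) z.2.1))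
    (fun _ _ R _ _ _ _ h => ph_rel R ⟨h.1,
      Rel.madd (Rel.mmul (Rel.mmul (F.wm_rel R h.1) h.2.2) (R.rcm _)) (Rel.mmul h.2.1 (R.rcm _)),
      Rel.madd (Rel.msmul (R.rcv _ _) (Rel.mmul (Rel.mmul (F.wm_rel R h.1) h.2.2) (R.rcm _)))
        (Rel.mmul h.2.1 (R.rcm _))⟩)
    fun _ _ R _ _ _ _ h => R.mul (Rel.prod _ fun i _ => h.1.2 i)
      (Rel.rdt e' (Rel.mcols (F.wm_rel R h.1) h.2.1))

end FD

/-- From companion matrices to matrices with a cyclic vector. -/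
class F0 (K : Type) [Field K] (p : ℕ) : Prop where
  imp : ∀ {ρ σ τ : Type} [Fintype ρ] [DecidableEq ρ] [Fintype σ] [DecidableEq σ] [Fintype τ]
    [DecidableEq τ] (F : FD K ρ σ) (T : TD K) (m : ℕ) (o : Option τ ≃ Fin (m + 1))
    (ea : ρ ≃ Fin (2 * T.g)) (eb : Option σ ≃ Fin (2 * T.h)), o none = 0 →
    (∀ l, F.a (some l) = T.a (ea l)) → (∀ j, F.b j = T.b (eb j)) →
    Imp p (F.CP fun x => (o x).1) (T.CX m)

/-- The matrix Gauss sum makes the middle determinant a phase. -/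
class F1 (K : Type) [Field K] (p : ℕ) : Prop where
  imp : ∀ {ρ σ τ : Type} [Fintype ρ] [DecidableEq ρ] [Fintype σ] [DecidableEq σ] [Fintype τ]
    [DecidableEq τ] (F : FD K ρ σ) (o : Option τ → ℕ),
    Imp p (F.CF o) ((F.CP o).prod (GLw K (Option τ)))

/-- The transform in the first rows. -/
class F1b (K : Type) [Field K] (p : ℕ) : Prop where
  imp : ∀ {ρ σ τ : Type} [Fintype ρ] [DecidableEq ρ] [Fintype σ] [DecidableEq σ] [Fintype τ]
    [DecidableEq τ] (F : FD K ρ σ) (o : Option τ → ℕ),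
    Imp p (F.CR o) ((F.CF o).prod (Gs K (Option ρ)))

/-- Removal of the gauge. -/
class F2 (K : Type) [Field K] (p : ℕ) : Prop where
  imp : ∀ {ρ σ τ : Type} [Fintype ρ] [DecidableEq ρ] [Fintype σ] [DecidableEq σ] [Fintype τ]
    [DecidableEq τ] (F : FD K ρ σ) (o : Option τ → ℕ) (e), Imp p (F.SR o e) (F.CR o)

/-- Products of matrix Gauss sums of even size are units. -/
class FG (K : Type) [Field K] (p : ℕ) : Prop where
  imp : ∀ (β ρ : Type) [Fintype β] [Fintype ρ] [DecidableEq ρ], Even (Fintype.card ρ) →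
    Imp p (GLs K β ρ) (Pt K)

/-- The lower parts of the kernels span. -/
class F4 (K : Type) [Field K] : Prop where
  det : ∀ {ρ σ : Type} [Fintype ρ] [DecidableEq ρ] [Fintype σ] [DecidableEq σ] (F : FD K ρ σ)
    (o : Option (Option σ × ρ) → ℕ) (e) (L : Fld K) (z : (sc ρ (Option σ × ρ)).X L)
    (p : (pc ρ σ).X L)
    (u : Option (Option σ) → Matrix (Option σ × ρ) ρ L), (F.SR o e).S.mem L z →
    (∀ j, F.io L z.1 j * fromRows (p j) (u j) = 0) → ∑ j, u j = 0 →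
    dt e (fromRows (F.io L z.1 (some none)) (phm z.2.1 z.2.2)) ≠ 0 →
    (phm z.2.1 z.2.2 * fromRows (p (some none)) (u (some none))).det ≠ 0 → (umx u).det ≠ 0

/-- The transform in the linear forms. -/
class F3 (K : Type) [Field K] (p : ℕ) : Prop where
  imp : ∀ {ρ σ : Type} [Fintype ρ] [DecidableEq ρ] [Fintype σ] [DecidableEq σ] (F : FD K ρ σ)
    (o : Option (Option σ × ρ) → ℕ) (e), Imp p (F.ZZ e) (F.SR o e)

/-- Normalisation of the lower parts of the kernels. -/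
class FZ1 (K : Type) [Field K] (p : ℕ) : Prop where
  imp : ∀ {ρ σ : Type} [Fintype ρ] [DecidableEq ρ] [Fintype σ] [DecidableEq σ] (F : FD K ρ σ) (e),
    Imp p (F.ZX e) (F.ZZ e)

/-- Absorption of the upper parts of the kernels. -/
class FZ2 (K : Type) [Field K] (p : ℕ) : Prop where
  imp : ∀ {ρ σ : Type} [Fintype ρ] [DecidableEq ρ] [Fintype σ] [DecidableEq σ] (F : FD K ρ σ)
    (e e'), Imp p (F.ZW e') (F.ZX e)

/-- The passage to the node model. -/
class FZ3 (K : Type) [Field K] (p : ℕ) : Prop where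
  imp : ∀ {ρ σ : Type} [Fintype ρ] [DecidableEq ρ] [Fintype σ] [DecidableEq σ] (F : FD K ρ σ) (e'),
    Imp p (F.nd e').N (F.ZW e')

end Pool.Agent.Lib.MP_557161_ag.HG.TW
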