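import Pool.Agent.Lib.MP_557161_ag.TW.StD

/-!
The pencil spaces and the statements of the steps that evaluate them.
-/

namespace Pool.Agent.Lib.MP_557161_ag.HG.TW

open Pool.Agent.Lib.MP_557161_ag.DL Matrix

variable {K : Type} [Field K] {ρ ι ι' σ σ' : Type}

/-- The hypotheses on the points `a`. -/
structure AH [Fintype ρ] (a : Option ρ → K) : Prop where
  a0 : a none = 0
  ai : Function.Injective a
  ev : Even (Fintype.card ρ)
  ne : Nonempty ρ

/-- The constants of a pencil space. -/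
structure OD (K : Type) [Field K] (ρ ι ι' : Type) where
  a : Option ρ → K
  J0 : Matrix ι' ι K
  J1 : Matrix ι' ι K
  π : Matrix ρ ι K
  e : Option ι ≃ Option ρ ⊕ ι'

/-- The shape of triples `(φ, H, Θ)`. -/
abbrev oc (ρ ι ι' : Type) [Finite ρ] [Finite ι] [Finite ι'] : Cd :=
  (Cd.mat ι (Option ρ)).prod ((Cd.mat ι ι').prod (.mat ι ι'))

namespace OD

variable [Fintype ρ] [DecidableEq ρ] [Fintype ι] [DecidableEq ι] [Fintype ι'] [DecidableEq ι']
  (D : OD K ρ ι ι')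

/-- The phase. -/
def ph (L : Fld K) (z : (oc ρ ι ι').X L) : L := (z.2.1 * cm L D.J0 - z.2.2 * cm L D.J1).trace

/-- The weight. -/
noncomputable def w (L : Fld K) (z : (oc ρ ι ι').X L) : L :=
  ∏ i, wt D.e (cv L D.a) z.1 z.2.1 z.2.2 i

omit [DecidableEq ρ] [DecidableEq ι] [DecidableEq ι'] in
lemma ph_rel {M L : Fld K} (R : Rel M L) {z : (oc ρ ι ι').X M} {z' : (oc ρ ι ι').X L}
    (h : (oc ρ ι ι').lift R.r z z') : R.r (D.ph M z) (D.ph L z') :=
  Rel.trace (Rel.msub (Rel.mmul h.2.1 (R.rcm _)) (Rel.mmul h.2.2 (R.rcm _)))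

omit [Fintype ι'] in
lemma w_rel [Fintype ι'] {M L : Fld K} (R : Rel M L) {z : (oc ρ ι ι').X M}
    {z' : (oc ρ ι ι').X L} (h : (oc ρ ι ι').lift R.r z z') : R.r (D.w M z) (D.w L z') :=
  Rel.prod _ fun i _ => Rel.rwt D.e (R.rcv _) h.1 h.2.1 h.2.2 i

variable (I : Option ρ → Prop) (P : Matrix (Option ρ) ρ K)

/-- The columns of `φ` in `I` are those of `ε`; constant linear forms on the columns. -/
noncomputable def tee (ε : Matrix ι (Option ρ) K) : WD K (oc ρ ι ι') :=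
  mkW ((ASp.univ K _).cl (fun L z => ∀ i, I i → ∀ x, z.1 x i = cm L ε x i)
      fun _ _ R _ _ _ _ e h i hi x => Rel.eq (e.1 x i) (R.rcm ε x i) (h i hi x))
    (fun L z => D.ph L z + (cm L P * cm L D.π * z.1).trace) D.w
    (fun _ _ R _ _ _ _ e => R.add (D.ph_rel R e)
      (Rel.trace (Rel.mmul (Rel.mmul (R.rcm _) (R.rcm _)) e.1)))
    fun _ _ R _ _ _ _ e => D.w_rel R e

/-- The linear forms `κ i`, `i ∈ I`, are free in the annihilator of `ε i`. -/
noncomputable def rad (ε : Matrix ι (Option ρ) K) :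
    WD K ((Cd.mat (Option ρ) ι).prod (oc ρ ι ι')) :=
  mkW ((ASp.univ K _).cl (fun L z => ∀ i, (I i → (z.1 * cm L ε) i i = 0) ∧
        (¬ I i → ∀ x, z.1 i x = (cm L P * cm L D.π) i x))
      fun _ _ R _ _ _ _ e h i =>
        ⟨fun hi => Rel.eq_zero (Rel.mmul e.1 (R.rcm ε) i i) ((h i).1 hi),
          fun hi x => Rel.eq (e.1 i x) (Rel.mmul (R.rcm _) (R.rcm _) i x) ((h i).2 hi x)⟩)
    (fun L z => D.ph L z.2 + (z.1 * z.2.1).trace) (fun L z => D.w L z.2)
    (fun _ _ R _ _ _ _ e => R.add (D.ph_rel R e.2) (Rel.trace (Rel.mmul e.1 e.2.1)))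
    fun _ _ R _ _ _ _ e => D.w_rel R e.2

/-- The linear forms are `Ps i π`, with `Ps i`, `i ∈ I`, free in the annihilator of `v i`. -/
noncomputable def nat (v : Matrix ρ (Option ρ) K) :
    WD K ((Cd.mat (Option ρ) ρ).prod (oc ρ ι ι')) :=
  mkW ((ASp.univ K _).cl (fun L z => ∀ i, (I i → (z.1 * cm L v) i i = 0) ∧
        (¬ I i → ∀ l, z.1 i l = cm L P i l))
      fun _ _ R _ _ _ _ e h i =>
        ⟨fun hi => Rel.eq_zero (Rel.mmul e.1 (R.rcm v) i i) ((h i).1 hi),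
          fun hi l => Rel.eq (e.1 i l) (R.rcm P i l) ((h i).2 hi l)⟩)
    (fun L z => D.ph L z.2 + (z.1 * cm L D.π * z.2.1).trace) (fun L z => D.w L z.2)
    (fun _ _ R _ _ _ _ e => R.add (D.ph_rel R e.2)
      (Rel.trace (Rel.mmul (Rel.mmul e.1 (R.rcm _)) e.2.1)))
    fun _ _ R _ _ _ _ e => D.w_rel R e.2

/-- All columns are fixed. -/
noncomputable abbrev T (ε : Matrix ι (Option ρ) K) : WD K (oc ρ ι ι') :=
  D.tee (fun _ => True) 0 ε

/-- All linear forms are free. -/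
noncomputable abbrev N : WD K ((Cd.mat (Option ρ) ρ).prod (oc ρ ι ι')) :=
  D.nat (fun _ => True) 0 (frm K ρ)

/-- The linear forms are the sum of the coordinates and the coordinates. -/
noncomputable abbrev L0 : WD K (oc ρ ι ι') := D.tee (fun _ => False) (rc (fun _ => 1) 1) 0

/-- The first column is `u`, the other linear forms are the coordinates. -/
noncomputable abbrev M (u : ι → K) : WD K (oc ρ ι ι') :=
  D.tee (· = none) (rc 0 1) (ccn u 0)

/-- The vector `ε i` spans the kernel of the pencil at `a i` and projects to `v i`. -/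
structure Ker (ε : Matrix ι (Option ρ) K) (v : Matrix ρ (Option ρ) K) : Prop where
  k1 : ∀ i, I i → (D.J1 - D.a i • D.J0) *ᵥ (fun x => ε x i) = 0
  k2 : ∀ i, I i → D.π *ᵥ (fun x => ε x i) = fun l => v l i
  k3 : ∀ i, I i → ∀ y : ι → K, D.π *ᵥ y = 0 → (D.J1 - D.a i • D.J0) *ᵥ y = 0 → y = 0

/-- The pencil one step larger, in split coordinates. -/
def spl (e : Option (ρ ⊕ ι) ≃ Option ρ ⊕ (ρ ⊕ ι')) : OD K ρ (ρ ⊕ ι) (ρ ⊕ ι') :=
  ⟨D.a, fromBlocks 1 (-((diagonal fun l => (D.a (some l))⁻¹) * D.π)) 0 D.J0,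
    fromBlocks (diagonal fun l => D.a (some l)) 0 0 D.J1, 0, e⟩

/-- The cofactor vector of `[u | H - a l Θ]`. -/
noncomputable def zc (e : ι ≃ ρ ⊕ ι') (u : ι → K) (L : Fld K) (H Θ : Matrix ι (ρ ⊕ ι') L) (l : ρ) :
    Option (ρ ⊕ ι') → L :=
  cf e.optionCongr (ccn (cv L u) (H - cv L D.a (some l) • Θ))

omit [Fintype ρ] [Fintype ι'] in
lemma zc_rel (e : ι ≃ ρ ⊕ ι') (u : ι → K) {M L : Fld K} (R : Rel M L) {H Θ : Matrix ι (ρ ⊕ ι') M}
    {H' Θ' : Matrix ι (ρ ⊕ ι') L} (h : R.m' H H') (h' : R.m' Θ Θ') (l : ρ) (x : Option (ρ ⊕ ι')) :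
    R.r (D.zc e u M H Θ l x) (D.zc e u L H' Θ' l x) :=
  Rel.rcf _ (Rel.mccn (R.rcv u) (Rel.msub h (Rel.msmul (R.rcv _ _) h'))) x

/-- The space in the middle of the reduction step: points `((H, Θ), s)`. -/
noncomputable def ZR (e : ι ≃ ρ ⊕ ι') (u : ι → K) :
    WD K (((Cd.mat ι (ρ ⊕ ι')).prod (.mat ι (ρ ⊕ ι'))).prod (.vec ρ)) :=
  mkW ((ASp.univ K _).cl (fun L z => ∀ l x, z.2 l * D.zc e u L z.1.1 z.1.2 l (some x) =
        if x = Sum.inl l then 1 else 0)
      fun _ _ R _ _ _ _ h q l x => Rel.eq (R.mul (h.2 l) (D.zc_rel e u R h.1.1 h.1.2 l _))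
        (Rel.ite _ R.one R.zero) (q l x))
    (fun L z => (z.1.1 * cm L (fromRows (-((diagonal fun l => (D.a (some l))⁻¹) * D.π)) D.J0) -
      z.1.2 * cm L (fromRows 0 D.J1)).trace)
    (fun _ z => (∏ l, z.2 l) * dt e z.1.1)
    (fun _ _ R _ _ _ _ h => Rel.trace
      (Rel.msub (Rel.mmul h.1.1 (R.rcm _)) (Rel.mmul h.1.2 (R.rcm _))))
    fun _ _ R _ _ _ _ h => R.mul (Rel.prod _ fun l _ => h.2 l) (Rel.rdt e h.1.1)

end OD

/-- The kernel vectors in split coordinates. -/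
def splε [DecidableEq ρ] (u : ι → K) : Matrix (ρ ⊕ ι) (Option ρ) K :=
  fromRows (ccn 0 1) (ccn u 0)

/-- A small pencil with a linear form. -/
structure TM (K : Type) [Field K] (σ σ' : Type) where
  j0 : Matrix σ' σ K
  j1 : Matrix σ' σ K
  π0 : σ → K

/-- The small pencil tensored with the space of rank `ρ`. -/
def TM.od [DecidableEq ρ] (t : TM K σ σ') (a : Option ρ → K)
    (e : Option (σ × ρ) ≃ Option ρ ⊕ σ' × ρ) : OD K ρ (σ × ρ) (σ' × ρ) :=
  ⟨a, kroneckerMap (· * ·) t.j0 (1 : Matrix ρ ρ K), kroneckerMap (· * ·) t.j1 (1 : Matrix ρ ρ K),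
    Matrix.of fun l x => if x.2 = l then t.π0 x.1 else 0, e⟩

/-- The moment model. -/
def mom (K : Type) [Field K] (k : ℕ) : TM K (Fin (k + 1)) (Fin k) :=
  ⟨Matrix.of fun m m' => if m' = m.castSucc then 1 else 0,
    Matrix.of fun m m' => if m' = m.succ then 1 else 0, fun m => if m = 0 then 1 else 0⟩

/-- The kernel vectors of the moment model. -/
def momε [DecidableEq ρ] (a : Option ρ → K) (k : ℕ) : Matrix (Fin (k + 1) × ρ) (Option ρ) K :=
  Matrix.of fun x i => a i ^ x.1.1 * frm K ρ x.2 i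

/-- The kernel vector of the moment model that remains after a reduction step. -/
def momu (a : Option ρ → K) (k : ℕ) : Fin (k + 1) × ρ → K :=
  fun x => if x.1 = 0 then a (some x.2) else 0

/-- The node model. -/
def nod [Fintype σ] [DecidableEq σ] (b : Option σ → K) : TM K (Option σ) σ :=
  ⟨frm K σ, frm K σ * diagonal b, Pi.single none 1⟩

/-- The kernel vectors of the node model. -/
def nodε [DecidableEq ρ] (a : Option ρ → K) (b : Option σ → K) :
    Matrix (Option σ × ρ) (Option ρ) K :=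
  Matrix.of fun x i => (b none - a i) / (b x.1 - a i) * frm K ρ x.2 i

/-- A hyperplane with the product of the coordinates as weight. -/
def Jac [Fintype ρ] (c : ρ → K) : WD K (.vec ρ) :=
  mkW ((ASp.univ K _).cl (fun L u => cv L c ⬝ᵥ u = 0)
      fun _ _ R _ _ _ _ e h => Rel.eq_zero (Rel.dot (R.rcv c) e) h)
    (fun _ _ => 0) (fun _ u => ∏ l, u l) (fun _ _ R _ _ _ _ _ => R.zero)
    fun _ _ _ _ _ _ _ e => Rel.prod _ fun l _ => e l

/-- Matrices with zero diagonal and zero sum, with the determinant as weight. -/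
noncomputable def D0 (K : Type) [Field K] (ρ : Type) [Fintype ρ] [DecidableEq ρ] :
    WD K (.mat ρ ρ) :=
  mkW ((ASp.univ K _).cl (fun _ γ => (∀ l, γ l l = 0) ∧ ∑ l, ∑ l', γ l l' = 0)
      fun _ _ _ _ _ _ _ e h => ⟨fun l => Rel.eq_zero (e l l) (h.1 l),
        Rel.eq_zero (Rel.sum _ fun l _ => Rel.sum _ fun l' _ => e l l') h.2⟩)
    (fun _ _ => 0) (fun _ γ => γ.det) (fun _ _ R _ _ _ _ _ => R.zero)
    fun _ _ _ _ _ _ _ e => Rel.det e

/-- The Jacobi sum is a unit. -/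
class OJ (K : Type) [Field K] (p : ℕ) : Prop where
  imp : ∀ {ρ : Type} [Fintype ρ] (c : ρ → K), (∀ l, c l ≠ 0) → Even (Fintype.card ρ) →
    Nonempty ρ → Imp p (Pt K) (Jac c)

/-- The sum over matrices with zero diagonal is a unit. -/
class ODD (K : Type) [Field K] (p : ℕ) : Prop where
  imp : ∀ (ρ : Type) [Fintype ρ] [DecidableEq ρ], Even (Fintype.card ρ) → Imp p (D0 K ρ) (Pt K)

/-- Absorption of the image of the transposed pencil. -/
class OA1 (K : Type) [Field K] (p : ℕ) : Prop where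
  imp : ∀ {ρ ι ι' : Type} [Fintype ρ] [DecidableEq ρ] [Fintype ι] [DecidableEq ι] [Fintype ι']
    [DecidableEq ι'] (D : OD K ρ ι ι') (I : Option ρ → Prop) (P : Matrix (Option ρ) ρ K)
    (ε : Matrix ι (Option ρ) K) (v : Matrix ρ (Option ρ) K), D.Ker I ε v →
    Imp p (D.rad I P ε) (D.nat I P v) ∧ Imp p (D.nat I P v) (D.rad I P ε)

/-- The Radon transform. -/
class OA2 (K : Type) [Field K] (p : ℕ) : Prop where
  imp : ∀ {ρ ι ι' : Type} [Fintype ρ] [DecidableEq ρ] [Fintype ι] [DecidableEq ι] [Fintype ι']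
    [DecidableEq ι'] (D : OD K ρ ι ι') (I : Option ρ → Prop) (P : Matrix (Option ρ) ρ K)
    (ε : Matrix ι (Option ρ) K), AH D.a → (∀ i, I i → ∀ l, P i l = 0) →
    Imp p (D.tee I P ε) (D.rad I P ε) ∧ Imp p (D.rad I P ε) (D.tee I P ε)

/-- Constant changes of bases. -/
class OTI (K : Type) [Field K] (p : ℕ) : Prop where
  imp : ∀ {ρ ι ι' κ κ' : Type} [Fintype ρ] [DecidableEq ρ] [Fintype ι] [DecidableEq ι] [Fintype ι']
    [DecidableEq ι'] [Fintype κ] [DecidableEq κ] [Fintype κ'] [DecidableEq κ'] (D : OD K ρ ι ι')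
    (D' : OD K ρ κ κ') (G : Matrix κ ι K) (Gi : Matrix ι κ K) (G' : Matrix κ' ι' K)
    (Gi' : Matrix ι' κ' K) (t : Option ρ → K) (ε : Matrix ι (Option ρ) K), D'.a = D.a →
    G * Gi = 1 → Gi * G = 1 → G' * Gi' = 1 → Gi' * G' = 1 → D'.J0 * G = G' * D.J0 →
    D'.J1 * G = G' * D.J1 → (∀ i, t i ≠ 0) → Imp p (D'.T (G * ε * diagonal t)) (D.T ε)

/-- The kernel vectors of the models. -/
class OKR (K : Type) [Field K] : Prop where
  mom : ∀ {ρ : Type} [Fintype ρ] [DecidableEq ρ] (a : Option ρ → K) (k : ℕ) (e),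
    ((mom K k).od a e).Ker (fun _ => True) (momε a k) (frm K ρ)
  mou : ∀ {ρ : Type} [Fintype ρ] [DecidableEq ρ] (a : Option ρ → K) (k : ℕ) (e), a none = 0 →
    ((TW.mom K k).od a e).Ker (· = none) (ccn (momu a k) 0) (ccn (fun l => a (some l)) 0)
  nod : ∀ {ρ σ : Type} [Fintype ρ] [DecidableEq ρ] [Fintype σ] [DecidableEq σ] (a : Option ρ → K)
    (b : Option σ → K) (e), (∀ i j, a i ≠ b j) →
    ((nod b).od a e).Ker (fun _ => True) (nodε a b) (frm K ρ)

/-- From the node model to the moment model. -/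
class ONM (K : Type) [Field K] (p : ℕ) : Prop where
  imp : ∀ {ρ σ : Type} [Fintype ρ] [DecidableEq ρ] [Fintype σ] [DecidableEq σ] (a : Option ρ → K)
    (b : Option σ → K) (k : ℕ) (e e'), Fintype.card σ = k → Function.Injective b →
    (∀ i j, a i ≠ b j) →
    Imp p (((mom K k).od a e).T (momε a k)) (((nod b).od a e').T (nodε a b))

/-- From the moment model to split coordinates. -/
class OR0 (K : Type) [Field K] (p : ℕ) : Prop where
  imp : ∀ {ρ : Type} [Fintype ρ] [DecidableEq ρ] (a : Option ρ → K) (k : ℕ) (e e' e''), AH a →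
    Imp p ((((mom K k).od a e).spl e').T (splε (momu a k)))
      (((mom K (k + 1)).od a e'').T (momε a (k + 1)))

/-- The reduction step, first half. -/
class OR1 (K : Type) [Field K] (p : ℕ) : Prop where
  imp : ∀ {ρ ι ι' : Type} [Fintype ρ] [DecidableEq ρ] [Fintype ι] [DecidableEq ι] [Fintype ι']
    [DecidableEq ι'] (D : OD K ρ ι ι') (e : ι ≃ ρ ⊕ ι') (e') (u : ι → K), AH D.a →
    Imp p (D.ZR e u) ((D.spl e').T (splε u))

/-- The reduction step, second half. -/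
class OR2 (K : Type) [Field K] (p : ℕ) : Prop where
  imp : ∀ {ρ ι ι' : Type} [Fintype ρ] [DecidableEq ρ] [Fintype ι] [DecidableEq ι] [Fintype ι']
    [DecidableEq ι'] (D : OD K ρ ι ι') (e : ι ≃ ρ ⊕ ι') (u : ι → K), AH D.a →
    Imp p (D.M u) (D.ZR e u)

/-- The torus step. -/
class OB2 (K : Type) [Field K] (p : ℕ) : Prop where
  imp : ∀ {ρ σ σ' : Type} [Fintype ρ] [DecidableEq ρ] [Fintype σ] [DecidableEq σ] [Fintype σ']
    [DecidableEq σ'] (t : TM K σ σ') (a : Option ρ → K) (e) (c : ρ → K), AH a →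
    Fintype.card σ = Fintype.card σ' + 1 →
    Imp p ((Jac c).prod (t.od a e).L0) ((t.od a e).nat (· = none) (rc 0 1) (ccn c 0))

/-- The step with the general linear group. -/
class OB3 (K : Type) [Field K] (p : ℕ) : Prop where
  imp : ∀ {ρ σ σ' : Type} [Fintype ρ] [DecidableEq ρ] [Fintype σ] [DecidableEq σ] [Fintype σ']
    [DecidableEq σ'] (t : TM K σ σ') (a : Option ρ → K) (e), AH a →
    Fintype.card σ = Fintype.card σ' + 1 →
    Imp p (t.od a e).N ((t.od a e).L0.prod (D0 K ρ))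

/-- The start of the induction. -/
class OT0 (K : Type) [Field K] (p : ℕ) : Prop where
  imp : ∀ {ρ : Type} [Fintype ρ] [DecidableEq ρ] (a : Option ρ → K) (e), AH a →
    Imp p (Pt K) (((mom K 0).od a e).T (momε a 0))

/-- The evaluation of the node model. -/
class OI (K : Type) [Field K] (p : ℕ) : Prop where
  imp : ∀ {ρ σ : Type} [Fintype ρ] [DecidableEq ρ] [Fintype σ] [DecidableEq σ] (a : Option ρ → K)
    (b : Option σ → K) (e), AH a → Function.Injective b → (∀ i j, a i ≠ b j) →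
    Imp p (Pt K) ((nod b).od a e).N

end Pool.Agent.Lib.MP_557161_ag.HG.TW
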