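import Pool.Agent.Lib.MP_557161_ag.TW.Itf
import Pool.Agent.Lib.MP_557161_ag.TW.StW
import Pool.Agent.Lib.MP_557161_ag.TW.Defs

/-!
The surface as a quotient by a torus: points, Frobenius, contraction laws, diagrams; statements.
-/

namespace Pool.Agent.Lib.MP_557161_ag.HG.TW.P2

open Pool.Agent.Lib.MP_557161_ag.DL MvPolynomial
open Pool.Agent.Lib.MP_60ec62_ag.DL (Cyc)

/-- The homogeneous coordinates `x, y, t, s`. -/
abbrev Vr : Type := Tr × Fin 2

/-- The shape of points `(x, y, t, s)`. -/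
abbrev cw : Cd := .vec Vr

section Ring

variable {R : Type} {g h : ℕ}

/-- The pair of coordinates number `s`. -/
def pc (w : Vr → R) (s : Tr) : Fin 2 → R := fun i => w (s, i)

/-- The point with given pairs of coordinates. -/
def mk4 (x y t s : Fin 2 → R) : Vr → R := fun l => ![x, y, t, s] l.1 l.2

/-- The inverse of the embedding on the chart `s`. -/
def unp (s : Ix g h) (N : Ix g h → R) : Vr → R :=
  mk4 (fun i => N (s.1, s.2.1, i, s.2.2.2)) (fun j => N (s.1, s.2.1, s.2.2.1, j))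
    ![N (.inr fun _ => s.2.2.2, s.2), N (.inl fun _ => s.2.2.1, s.2)]
    ![N (s.1, .inr fun _ => s.2.2.1, s.2.2), N (s.1, .inl fun _ => s.2.2.2, s.2.2)]

variable [CommRing R]

/-- The embedding. -/
def nu (g h : ℕ) (w : Vr → R) : Ix g h → R := mon (pc w 0) (pc w 1) (pc w 2) (pc w 3)

/-- The first factor of a coordinate of the embedding. -/
def tm (w : Vr → R) (i : (Fin g → Fin 2) ⊕ (Fin (h + 1) → Fin 2)) : R :=
  i.elim (fun m => w (2, 1) * ∏ l, w (0, m l)) fun m => w (2, 0) * ∏ l, w (1, m l)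

/-- The second factor of a coordinate of the embedding. -/
def sm (w : Vr → R) (i : (Fin h → Fin 2) ⊕ (Fin (g + 1) → Fin 2)) : R :=
  i.elim (fun m => w (3, 1) * ∏ l, w (1, m l)) fun m => w (3, 0) * ∏ l, w (0, m l)

lemma nu_eq (w : Vr → R) (s : Ix g h) :
    nu g h w s = tm w s.1 * sm w s.2.1 * w (0, s.2.2.1) * w (1, s.2.2.2) := rfl

/-- The point is normalised for the chart `s`. -/
def Nrm (s : Ix g h) (w : Vr → R) : Prop :=
  w (0, s.2.2.1) = 1 ∧ w (1, s.2.2.2) = 1 ∧ tm w s.1 = 1 ∧ sm w s.2.1 = 1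

/-- The determinant of two vectors. -/
def dt (x y : Fin 2 → R) : R := x 0 * y 1 - x 1 * y 0

/-- The two equations of the surface. -/
noncomputable def eqs (P Q : MvPolynomial (Fin 2) R) : Fin 2 → MvPolynomial Vr R :=
  ![X (2, 1) * X (3, 1) - dt (pc X 0) (pc X 1) * X (2, 0) * X (3, 0),
    X (2, 1) * X (3, 0) * rename (Prod.mk 0) P - X (3, 1) * X (2, 0) * rename (Prod.mk 1) Q]

variable {S : Type} [CommRing S] [Algebra R S] (P Q : MvPolynomial (Fin 2) R) (w : Vr → S)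

lemma eqs0 : aeval w (eqs P Q 0) =
    w (2, 1) * w (3, 1) - dt (pc w 0) (pc w 1) * w (2, 0) * w (3, 0) := by
  simp [eqs, dt, pc]

lemma eqs1 : aeval w (eqs P Q 1) =
    w (2, 1) * w (3, 0) * aeval (pc w 0) P - w (3, 1) * w (2, 0) * aeval (pc w 1) Q := by
  simp only [eqs, Matrix.cons_val_one, Matrix.cons_val_zero, map_sub, map_mul, aeval_X,
    aeval_rename]
  rfl

end Ring

/-- The weights of the coordinates. -/
def wv (g h : ℕ) (l : Vr) : Tr → ℤ :=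
  (![![![1, 0, 0, 0], ![1, 0, 0, 0]], ![![0, 1, 0, 0], ![0, 1, 0, 0]],
    ![![g, 0, 1, 0], ![0, h + 1, 1, 0]], ![![0, h, 0, 1], ![g + 1, 0, 0, 1]]] :
      Tr → Fin 2 → Tr → ℤ) l.1 l.2

/-- The weights of the equations. -/
def wγ (g h : ℕ) : Fin 2 → Tr → ℤ := ![![g + 1, h + 1, 1, 1], ![2 * g + 1, 2 * h + 1, 1, 1]]

/-- The weight of the coordinates of the embedding. -/
def wν (g h : ℕ) : Tr → ℤ := ![2 * g + 2, 2 * h + 2, 1, 1]

lemma wv_tri (g h : ℕ) (l : Vr) : wv g h l l.1 = 1 ∧ ∀ s', l.1 < s' → wv g h l s' = 0 := by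
  obtain ⟨s, i⟩ := l
  fin_cases s <;> fin_cases i <;> refine ⟨rfl, fun s' e => ?_⟩ <;> fin_cases s' <;>
    first | rfl | exact absurd e (by decide)

/-- The action of the torus. -/
abbrev Γw (g h : ℕ) : Wt cw := .tor (wv g h) Prod.fst (wv_tri g h)

lemma aeval_scl {σ k L : Type} [CommRing k] [Field L] [Algebra k L] {ω : σ → Tr → ℤ} {n : Tr → ℤ}
    {f : MvPolynomial σ k} (hf : f.IsWeightedHomogeneous ω n) {a : Tr → L} (h0 : Un a)
    (w : σ → L) : aeval (fun l => wt a (ω l) * w l) f = wt a n * aeval w f := by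
  have e : ∀ d : σ →₀ ℕ, wt a (Finsupp.weight ω d) = d.prod fun l m => wt a (ω l) ^ m := fun d => by
    induction d using Finsupp.induction_linear with
    | zero => simp
    | add d d' h h' =>
      rw [map_add, wt_add h0, h, h', Finsupp.prod_add_index' (by simp) fun _ _ _ => pow_add _ _ _]
    | single l m =>
      rw [Finsupp.weight_single, Finsupp.prod_single_index (by simp), ← pow_wt]
      simp only [wt, Pi.smul_apply, Pi.pow_apply, nsmul_eq_mul, zpow_mul, zpow_natCast]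
  induction hf using IsWeightedHomogeneous.induction_on with
  | zero => simp
  | add p q _ _ hp hq => rw [map_add, map_add, hp, hq, mul_add]
  | monomial d r hd =>
    rw [aeval_monomial, aeval_monomial, ← hd, e]
    simp only [mul_pow, Finsupp.prod_mul]
    ring

lemma rename_hom {k : Type} [CommRing k] {g h n : ℕ} {P : MvPolynomial (Fin 2) k}
    (hP : P.IsHomogeneous n) (s : Tr) (e : wv g h (s, 1) = wv g h (s, 0)) :
    (rename (Prod.mk s) P).IsWeightedHomogeneous (wv g h) (n • wv g h (s, 0)) := by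
  induction hP using IsWeightedHomogeneous.induction_on with
  | zero => rw [map_zero]; exact isWeightedHomogeneous_zero _ _ _
  | add p q _ _ hp hq => rw [map_add]; exact hp.add hq
  | monomial d r hd =>
    rw [rename_monomial]
    refine isWeightedHomogeneous_monomial _ _ _ ?_
    rw [← hd, Finsupp.weight_apply, Finsupp.weight_apply,
      Finsupp.sum_mapDomain_index (by simp) fun _ _ _ => add_smul _ _ _,
      Finsupp.sum_fintype _ _ (by simp), Finsupp.sum_fintype _ _ (by simp)]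
    simp [Fin.sum_univ_two, e, add_smul]

lemma eqs_hom {k : Type} [CommRing k] {g h : ℕ} {P Q : MvPolynomial (Fin 2) k}
    (hP : P.IsHomogeneous (2 * g + 1)) (hQ : Q.IsHomogeneous (2 * h + 1)) (r : Fin 2) :
    (eqs P Q r).IsWeightedHomogeneous (wv g h) (wγ g h r) := by
  have x := fun l => isWeightedHomogeneous_X k (wv g h) l
  have c : ∀ {f : MvPolynomial Vr k} {m n : Tr → ℤ}, f.IsWeightedHomogeneous (wv g h) m →
      m = n → f.IsWeightedHomogeneous (wv g h) n := fun h e => e ▸ h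
  fin_cases r
  · refine (c ((x _).mul (x _)) ?_).sub (c ((((c ((x _).mul (x _)) ?_).sub
      (c (n := ![1, 1, 0, 0]) ((x _).mul (x _)) ?_)).mul (x _)).mul (x _)) ?_) <;> funext s <;>
      fin_cases s <;> simp [wv, wγ] <;> ring
  · refine (c (((x _).mul (x _)).mul (rename_hom hP 0 rfl)) ?_).sub
      (c (((x _).mul (x _)).mul (rename_hom hQ 1 rfl)) ?_) <;> funext s <;>
      fin_cases s <;> simp [wv, wγ] <;> ring

section Defs

variable {K : Type} [Field K] {c d d' : Cd}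

/-- The identity or the involution `z ↦ -z`. -/
def sg (ε : Bool) (L : Fld K) (y : xz.X L) : xz.X L := bif ε then ngz L y else y

/-- The exponents of the action `t 1 ↦ τ * t 1`, `s 1 ↦ τ⁻¹ * s 1`. -/
def gex (l : Vr) : ℤ := (![![0, 0], ![0, 0], ![0, 1], ![0, -1]] : Tr → Fin 2 → ℤ) l.1 l.2

/-- The action `t 1 ↦ τ * t 1`, `s 1 ↦ τ⁻¹ * s 1`. -/
def gam {L : Type} [Field L] (τ : L) (w : Vr → L) : Vr → L := fun l => τ ^ gex l * w l

/-- The identity or the involution of the surface. -/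
def sw {L : Type} [Field L] (ε : Bool) (w : Vr → L) : Vr → L := bif ε then gam (-1) w else w

/-- The map `w ↦ w ^ Q`, or its composition with the involution. -/
def gg {L : Type} [Field L] (Q : ℕ) (ε : Bool) (w : Vr → L) : Vr → L := sw ε fun l => w l ^ Q

/-- The data of the twist, and a basis `β, α` of the plane. -/
structure GD (K : Type) [Field K] extends TD K where
  α : Fin 2 → K
  β : Fin 2 → K
  c1 : K
  c2 : K
  det : dt β α = 1
  cc : c1 * c2 = c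

namespace GD

variable (G : GD K)

/-- The linear form that vanishes at `α`. -/
noncomputable def uu : MvPolynomial (Fin 2) K := X 0 * C (G.α 1) - X 1 * C (G.α 0)

/-- The linear form that vanishes at `β`. -/
noncomputable def vv : MvPolynomial (Fin 2) K := C (G.β 0) * X 1 - C (G.β 1) * X 0

/-- The first binary form. -/
noncomputable def FP : MvPolynomial (Fin 2) K := C G.c1 * G.uu * ∏ i, (G.uu - C (G.a i) * G.vv)

/-- The second binary form. -/
noncomputable def FQ : MvPolynomial (Fin 2) K := C G.c2 * G.vv * ∏ j, (G.uu - C (G.b j) * G.vv)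

lemma hom_uu : G.uu.IsHomogeneous 1 :=
  ((isHomogeneous_X K 0).mul (isHomogeneous_C _ _)).sub
    ((isHomogeneous_X K 1).mul (isHomogeneous_C _ _))

lemma hom_vv : G.vv.IsHomogeneous 1 :=
  ((isHomogeneous_C _ _).mul (isHomogeneous_X K 1)).sub
    ((isHomogeneous_C _ _).mul (isHomogeneous_X K 0))

lemma hom_lin {n : ℕ} (a : Fin n → K) : (∏ i, (G.uu - C (a i) * G.vv)).IsHomogeneous n := by
  simpa using IsHomogeneous.prod Finset.univ (fun i => G.uu - C (a i) * G.vv) (fun _ => 1)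
    fun _ _ => G.hom_uu.sub (G.hom_vv.C_mul _)

lemma homP : G.FP.IsHomogeneous (2 * G.g + 1) :=
  add_comm 1 (2 * G.g) ▸ (G.hom_uu.C_mul _).mul (G.hom_lin _)

lemma homQ : G.FQ.IsHomogeneous (2 * G.h + 1) :=
  add_comm 1 (2 * G.h) ▸ (G.hom_vv.C_mul _).mul (G.hom_lin _)

/-- The weights. -/
abbrev Γ : Wt cw := Γw G.g G.h

/-- The equations. -/
noncomputable abbrev E : Fin 2 → MvPolynomial Vr K := eqs G.FP G.FQ

/-- The coordinates of the embedding. -/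
abbrev σ : Type := Ix G.g G.h

/-- The ideal of the surface. -/
noncomputable abbrev I : Ideal (MvPolynomial G.σ K) := twI G.g G.h G.FP G.FQ

/-- The embedding. -/
abbrev ν {R : Type} [CommRing R] (w : Vr → R) : G.σ → R := nu G.g G.h w

lemma homE (r : Fin 2) : (G.E r).IsWeightedHomogeneous (wv G.g G.h) (wγ G.g G.h r) :=
  eqs_hom G.homP G.homQ r

/-- Points of the torsor over the surface. -/
def Cn (L : Fld K) (w : Vr → L) : Prop := G.Γ.nz w ∧ ∀ r, aeval w (G.E r) = 0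

/-- The torsor over the surface. -/
noncomputable def CC : QS K G.Γ where
  S := (((ASp.univ K cw).opn (fun _ w => G.Γ.nz w) fun _ _ _ _ _ _ _ e h => G.Γ.nz_lift e h).cl
    (fun _ w => ∀ r, aeval w (G.E r) = 0) fun _ _ _ _ _ _ _ e h r =>
      Rel.eq_zero (Rel.aeval e _) (h r)).copy G.Cn
        fun _ _ => ⟨fun h => ⟨⟨trivial, h.1⟩, h.2⟩, fun h => ⟨h.1.2, h.2⟩⟩
  inv _ _ w h0 h := ⟨(G.Γ.nz_scl h0).2 h.1,
    fun r => (aeval_scl (G.homE r) h0 w).trans (mul_eq_zero_of_right _ (h.2 r))⟩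
  nz _ _ h := h.1

/-- The equation of the boundary. -/
noncomputable def bd (L : Fld K) (w : Vr → L) : L := w (2, 1) * w (3, 0) * aeval (pc w 0) G.FP

lemma hom_bd : Hom G.CC (wγ G.g G.h 1) G.bd where
  reg _ _ R _ _ _ _ e := R.mul (R.mul (e _) (e _)) (Rel.aeval (fun _ => e _) _)
  hom L a w h0 _ := by
    have x := fun l => isWeightedHomogeneous_X K (wv G.g G.h) l
    have h := aeval_scl (((x (2, 1)).mul (x (3, 0))).mul (rename_hom G.homP 0 rfl)) h0 w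
    simp only [map_mul, aeval_X, aeval_rename] at h
    refine h.trans (congrArg (wt a · * _) (funext fun s => ?_))
    fin_cases s <;> simp [wv, wγ]
    ring

/-- Points over the unramified part. -/
def Co (L : Fld K) (w : Vr → L) : Prop := G.Cn L w ∧ G.bd L w ≠ 0

/-- The torsor over the unramified part. -/
noncomputable def CO : QS K G.Γ :=
  G.CC.sub ((G.CC.S.opn (fun L w => G.bd L w ≠ 0) fun _ _ R _ _ m m' e h =>
    Rel.ne_zero (G.hom_bd.reg R m m' e) h).copy G.Co fun _ _ => Iff.rfl) (fun _ _ m => m.1)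
    fun L a w h0 m => ⟨G.CC.inv L a w h0 m.1,
      (G.hom_bd.hom L a w h0 m.1).trans_ne (mul_ne_zero (wt_ne h0 _) m.2)⟩

/-- The torsor over the boundary. -/
noncomputable abbrev BO : QS K G.Γ := G.CC.zer G.hom_bd

/-- The gradients of the equations. -/
noncomputable def row (L : Fld K) (w : Vr → L) (r : Fin 2) (l : Vr) : L :=
  aeval w (pderiv l (G.E r))

/-- The section over the unramified part. -/
noncomputable def sec (L : Fld K) (A : xz.X L) : Vr → L :=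
  mk4 (fun i => algebraMap K L (G.β i) + A.1 0 * algebraMap K L (G.α i))
    (fun i => algebraMap K L (G.α i) + A.1 1 * algebraMap K L (G.β i))
    ![1, A.2 / aeval (fun i => algebraMap K L (G.β i) + A.1 0 * algebraMap K L (G.α i)) G.FP]
    ![1, A.2 / aeval (fun i => algebraMap K L (G.α i) + A.1 1 * algebraMap K L (G.β i)) G.FQ]

/-- The projection to the unramified part. -/
noncomputable def pr (L : Fld K) (w : Vr → L) : xz.X L :=
  (![aeval (pc w 0) G.vv / aeval (pc w 0) G.uu, aeval (pc w 1) G.uu / aeval (pc w 1) G.vv],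
    aeval (pc w 0) G.FP * w (2, 1) /
      (w (2, 0) * aeval (pc w 0) G.uu ^ (G.g + 1) * aeval (pc w 1) G.vv ^ (G.h + 1)))

/-- The element of the torus that moves a point into the section. -/
noncomputable def ns (L : Fld K) (w : Vr → L) : Tr → L :=
  ![(aeval (pc w 0) G.uu)⁻¹, (aeval (pc w 1) G.vv)⁻¹, aeval (pc w 0) G.uu ^ G.g / w (2, 0),
    aeval (pc w 1) G.vv ^ G.h / w (3, 0)]

/-- `Q` is a power of the characteristic and the surface is defined over the field with `Q`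
elements. -/
def Fr (p Q : ℕ) : Prop :=
  (∃ f, Q = p ^ f) ∧ (∀ m, coeff m G.FP ^ Q = coeff m G.FP) ∧ ∀ m, coeff m G.FQ ^ Q = coeff m G.FQ

open Classical in
/-- Frobenius on the unramified part. -/
noncomputable def frb (Q : ℕ) (L : Fld K) (A : xz.X L) : xz.X L :=
  if G.UU.mem L A then G.pr L fun l => G.sec L A l ^ Q else A

/-- The number of fixed points of Frobenius, or of its composition with the involution. -/
noncomputable def fx (Q : ℕ) (ε : Bool) : ℕ :=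
  Nat.card {E : (G.Γ.amb K).pt (.base K) // ∃ w, G.Cn (.base K) w ∧ E = G.Γ.pt w ∧
    E = G.Γ.pt (gg Q ε w)}

/-- The number of fixed points in the unramified part. -/
noncomputable def fu (Q : ℕ) (ε : Bool) : ℕ :=
  Nat.card {E : (G.Γ.amb K).pt (.base K) // ∃ w, G.Co (.base K) w ∧ E = G.Γ.pt w ∧
    E = G.Γ.pt (gg Q ε w)}

/-- The trace of the powers of Frobenius on the anti-invariant part; `c` for the identity. -/
noncomputable def PP (c : ℂ) (q m : ℕ) : ℂ :=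
  if m = 0 then c else ((G.fx (q ^ m) false : ℂ) - G.fx (q ^ m) true) / 2

/-- `y` is a generic point of the double cover over `L`, and `M` is its function field. -/
structure GenU (j : ℕ) {L M : Fld K} (α : L →ₐ[K] M) (y : xz.X M) : Prop where
  gL : Good j L
  gM : Good (j + 2) M
  mem : G.UU.mem M y
  top : gen α (xz.co y) = ⊤

end GD

/-- The type of relations between functionals on `W` and on `U × U × W`. -/
abbrev CRel (G : GD K) : Type 1 :=
  ∀ ⦃d : Cd⦄ ⦃W : ASp K d⦄ ⦃j : ℕ⦄, AF j W → AF (j + 2) ((G.UU.prod G.UU).prod W) → Prop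

/-- The laws of the contraction with the diagonal. -/
structure ConL (G : GD K) (p : ℕ) (c₀ : ℂ) (AC : CRel G) : Prop where
  ex : ∀ {d : Cd} {W : ASp K d} {j : ℕ} (φ : AF j W), ∃ Φ, AC φ Φ
  anti : ∀ {d : Cd} {W : ASp K d} {j : ℕ} {φ : AF j W} {Φ}, AC φ Φ → ∀ (L : Fld K)
    (A B : xz.X L) (w : d.X L), Φ.a L ((ngz L A, B), w) = -Φ.a L ((A, B), w) ∧
      Φ.a L ((A, ngz L B), w) = -Φ.a L ((A, B), w)
  nat : ∀ {d d' : Cd} {W : ASp K d} {W' : ASp K d'} {j : ℕ} {φ : AF j W} {φ' : AF j W'} {Φ Φ'},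
    AC φ Φ → AC φ' Φ' → ∀ {g : ∀ L : Fld K, d'.X L → d.X L}, Mp W' W g → Pro W' W g → ∀ χ : ℂ,
    (∀ L w, W'.mem L w → φ'.a L w = χ * φ.a L (g L w)) →
    ∀ (L : Fld K) (A B : xz.X L) (w : d'.X L), W'.mem L w →
      Φ'.a L ((A, B), w) = χ * Φ.a L ((A, B), g L w)
  kills : ∀ {d : Cd} {W : ASp K d} {j : ℕ} {φ : AF j W} {Φ}, AC φ Φ → ∀ q : d.ι → Prop,
    KlP d q j φ.a → KlP ((xz.prod xz).prod d) (Sum.elim (fun _ => True) q) (j + 2) Φ.a
  unit : ∀ {c d : Cd} {S : ASp K c} {W : ASp K d} {j : ℕ} {φ : AF j W} {Φ}, AC φ Φ →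
    ∀ {g : ∀ L : Fld K, (xz.prod c).X L → d.X L}, Mp (G.UU.prod S) W g → Pro (G.UU.prod S) W g →
    ∀ {L M : Fld K} {α : L →ₐ[K] M} {y : xz.X M}, G.GenU j α y →
    ∀ (R : xz.X L) (u : c.X L), G.UU.mem L R → S.mem L u →
      Φ.a M ((xz.map α R, y), g M (y, c.map α u)) =
        (φ.a L (g L (R, u)) - φ.a L (g L (ngz L R, u))) / 2
  loop : ∀ {d : Cd} {W : ASp K d} {j : ℕ} {φ : AF j W} {Φ}, AC φ Φ → ∀ {Q : ℕ}, 1 < Q → G.Fr p Q →
    ∀ {L M : Fld K} {α : L →ₐ[K] M} {y : xz.X M}, G.GenU j α y → ∀ w : d.X L, W.mem L w →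
      Φ.a M ((G.frb Q M y, y), d.map α w) = ((G.fx Q false : ℂ) - G.fx Q true) / 2 * φ.a L w ∧
      Φ.a M ((y, G.frb Q M y), d.map α w) = ((G.fx Q false : ℂ) - G.fx Q true) / 2 * φ.a L w
  diag : ∀ {d : Cd} {W : ASp K d} {j : ℕ} {φ : AF j W} {Φ}, AC φ Φ →
    ∀ {L M : Fld K} {α : L →ₐ[K] M} {y : xz.X M}, G.GenU j α y → ∀ w : d.X L, W.mem L w →
      Φ.a M ((y, y), d.map α w) = c₀ * φ.a L w

section Diagrams

variable {T : Type}

/-- The point with coordinates the Frobenius images of `P`. -/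
noncomputable def cfg (G : GD K) (q : ℕ) (e : T → ℕ) (L : Fld K) (P : T → xz.X L) : T → xz.X L :=
  fun i => G.frb (q ^ e i) L (P i)

/-- The field generated by the coordinates in the plane. -/
noncomputable def xf (L : Fld K) (P : T → xz.X L) : IntermediateField K L :=
  IntermediateField.adjoin K (Set.range fun s : T × Fin 2 => (P s.1).1 s.2)

/-- The normalised value of `a` on the product of graphs of Frobenius given by `τ` and `e`. -/
def DV (G : GD K) (q : ℕ) (a : ∀ L : Fld K, (T → xz.X L) → ℂ) (τ : T → T) (e : T → ℕ)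
    (v : ℂ) : Prop :=
  ∀ (L : Fld K) (P : T → xz.X L), Good (Nat.card T) L → (∀ i, G.UU.mem L (P i)) →
    (∀ i, P (τ i) = P i) → a L (cfg G q e L P) = Bridge.dg (xf L P) * v

/-- The functional changes sign under the involution of every factor. -/
def AntiP [DecidableEq T] (a : ∀ L : Fld K, (T → xz.X L) → ℂ) : Prop :=
  ∀ (i : T) (L : Fld K) (x : T → xz.X L), a L (Function.update x i (ngz L (x i))) = -a L x

/-- The functional vanishes on exterior products for the partition `sd` of the factors. -/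
def KlS [Finite T] (sd : T → Bool) (a : ∀ L : Fld K, (T → xz.X L) → ℂ) : Prop :=
  KlP (Cd.pi T xz) (fun s => sd s.1 = true) (Nat.card T) a

end Diagrams

end Defs

/-- The embedding and its inverse. -/
class XU : Prop where
  ring : ∀ {k R : Type} [Field k] [CommRing R] [Algebra k R] {g h : ℕ}
    {P Q : MvPolynomial (Fin 2) k}, P.IsHomogeneous (2 * g + 1) → Q.IsHomogeneous (2 * h + 1) →
    ∀ (s : Ix g h) (N : Ix g h → R), (∀ F ∈ twI g h P Q, aeval N F = 0) → N s = 1 →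
      (∀ r, aeval (unp s N) (eqs P Q r) = 0) ∧ nu g h (unp s N) = N ∧ Nrm s (unp s N)
  back : ∀ {R : Type} [CommRing R] {g h : ℕ} (s : Ix g h) (w : Vr → R), Nrm s w →
    unp s (nu g h w) = w
  map : ∀ {R S : Type} [CommRing R] [CommRing S] (f : R →+* S) (g h : ℕ) (w : Vr → R),
    (fun s => f (nu g h w s)) = nu g h fun l => f (w l)
  pow : ∀ {R : Type} [CommRing R] (g h Q : ℕ) (w : Vr → R),
    (nu g h fun l => w l ^ Q) = fun s => nu g h w s ^ Q
  nz : ∀ {L : Type} [Field L] {g h : ℕ} {w : Vr → L}, nu g h w ≠ 0 ↔ (Γw g h).nz w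
  scl : ∀ {L : Type} [Field L] (g h : ℕ) {a : Tr → L} (w : Vr → L), Un a →
    nu g h ((Γw g h).scl a w) = wt a (wν g h) • nu g h w
  nrm : ∀ {L : Type} [Field L] {g h : ℕ} {w : Vr → L} {s : Ix g h}, nu g h w s ≠ 0 →
    ∃ a, Un a ∧ Nrm s ((Γw g h).scl a w)
  inj : ∀ {L : Type} [Field L] {g h : ℕ} {w w' : Vr → L} {c : L}, (Γw g h).nz w → c ≠ 0 →
    nu g h w' = c • nu g h w → (Γw g h).pt w = (Γw g h).pt w'
  rel : ∀ {K : Type} [Field K] {M L : Fld K} (R : Rel M L) (g h : ℕ) {w : Vr → M} {w' : Vr → L},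
    (∀ l, R.r (w l) (w' l)) → ∀ s, R.r (nu g h w s) (nu g h w' s)

/-- The ideal of the surface. -/
class XJ : Prop where
  hom : ∀ {k : Type} [Field k] {g h : ℕ} {P Q : MvPolynomial (Fin 2) k},
    P.IsHomogeneous (2 * g + 1) → Q.IsHomogeneous (2 * h + 1) → Homog (twI g h P Q)
  up : ∀ {k : Type} [Field k] (g h : ℕ) (P Q : MvPolynomial (Fin 2) k),
    upI (twI g h P Q) = twI g h (MvPolynomial.map (algebraMap k (AlgebraicClosure k)) P)
      (MvPolynomial.map (algebraMap k (AlgebraicClosure k)) Q)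
  prime : ∀ {k : Type} [Field k] (g h : ℕ) {P Q : MvPolynomial (Fin 2) k}, P ≠ 0 → Q ≠ 0 →
    (twI g h P Q).IsPrime

/-- The dimension of the surface. -/
class XM : Prop where
  dim : ∀ {k : Type} [Field k] {g h : ℕ} {P Q : MvPolynomial (Fin 2) k},
    P.IsHomogeneous (2 * g + 1) → Q.IsHomogeneous (2 * h + 1) → P ≠ 0 → Q ≠ 0 →
    ringKrullDim (MvPolynomial (Ix g h) k ⧸ twI g h P Q) = (2 + 1 : ℕ)

/-- The surface is smooth. -/
class XK (k : Type) [Field k] : Prop where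
  smooth : ∀ (G : GD (AlgebraicClosure k)) {P Q : MvPolynomial (Fin 2) k},
    MvPolynomial.map (algebraMap k (AlgebraicClosure k)) P = G.FP →
    MvPolynomial.map (algebraMap k (AlgebraicClosure k)) Q = G.FQ →
    ∀ s, Algebra.Smooth k (Chart (twI G.g G.h P Q) s)

section Geo

variable (K : Type) [Field K]

/-- The normal form of the two binary forms. -/
class XE : Prop where
  ex : ∀ {g h : ℕ} {f D : Polynomial K}, (2 : K) ≠ 0 → 0 < g → 0 < h → f.Separable → D.Separable →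
    IsCoprime f D → 2 * g ≤ f.natDegree → f.natDegree ≤ 2 * g + 1 → 2 * h ≤ D.natDegree →
    D.natDegree ≤ 2 * h + 1 → f.natDegree = 2 * g + 1 ∨ D.natDegree = 2 * h + 1 →
    ∃ G : GD K, G.g = g ∧ G.h = h ∧ G.FP = f.homogenize (2 * g + 1) ∧
      G.FQ = D.homogenize (2 * h + 1)

/-- The gradients of the equations are independent. -/
class X0 : Prop where
  sm : ∀ (G : GD K) (L : Fld K) (w : Vr → L), G.Cn L w → ∃ μ ν, mnr (G.row L w) μ ν ≠ 0

/-- The section and the projection. -/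
class X1 : Prop where
  co : ∀ {G : GD K} {L : Fld K} {w : Vr → L}, G.Co L w → (∀ i, w (2, i) ≠ 0 ∧ w (3, i) ≠ 0) ∧
    dt (pc w 0) (pc w 1) ≠ 0 ∧ aeval (pc w 0) G.FP ≠ 0 ∧ aeval (pc w 1) G.FQ ≠ 0 ∧
    aeval (pc w 0) G.uu ≠ 0 ∧ aeval (pc w 1) G.vv ≠ 0
  ne : ∀ G : GD K, G.FP ≠ 0 ∧ G.FQ ≠ 0
  om : ∀ (G : GD K) (L : Fld K) (A : xz.X L), dt (pc (G.sec L A) 0) (pc (G.sec L A) 1) *
    aeval (pc (G.sec L A) 0) G.FP * aeval (pc (G.sec L A) 1) G.FQ = G.om L A.1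
  uv : ∀ (G : GD K) (L : Fld K) (A : xz.X L),
    aeval (pc (G.sec L A) 0) G.uu = 1 ∧ aeval (pc (G.sec L A) 0) G.vv = A.1 0 ∧
    aeval (pc (G.sec L A) 1) G.uu = A.1 1 ∧ aeval (pc (G.sec L A) 1) G.vv = 1
  sec_co : ∀ {G : GD K} {L : Fld K} {A : xz.X L}, G.UU.mem L A → G.Co L (G.sec L A)
  pr_uu : ∀ {G : GD K} {L : Fld K} {w : Vr → L}, G.Co L w → G.UU.mem L (G.pr L w)
  pr_sec : ∀ {G : GD K} {L : Fld K} {A : xz.X L}, G.UU.mem L A → G.pr L (G.sec L A) = A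
  sec_pr : ∀ {G : GD K} {L : Fld K} {w : Vr → L}, G.Co L w →
    Un (G.ns L w) ∧ G.sec L (G.pr L w) = G.Γ.scl (G.ns L w) w
  pr_scl : ∀ (G : GD K) {L : Fld K} {a : Tr → L} (w : Vr → L), Un a →
    G.pr L (G.Γ.scl a w) = G.pr L w
  sec_rel : ∀ {G : GD K} {M L : Fld K} (R : Rel M L) {A : xz.X M} {A' : xz.X L}, G.UU.mem L A' →
    xz.lift R.r A A' → cw.lift R.r (G.sec M A) (G.sec L A')
  pr_rel : ∀ {G : GD K} {M L : Fld K} (R : Rel M L) {w : Vr → M} {w' : Vr → L}, G.Co L w' →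
    cw.lift R.r w w' → xz.lift R.r (G.pr M w) (G.pr L w') ∧ ∀ s, R.r (G.ns M w s) (G.ns L w' s)
  sec_map : ∀ (G : GD K) {L M : Fld K} (α : L →ₐ[K] M) (A : xz.X L),
    cw.map α (G.sec L A) = G.sec M (xz.map α A)
  pr_map : ∀ (G : GD K) {L M : Fld K} (α : L →ₐ[K] M) (w : Vr → L),
    xz.map α (G.pr L w) = G.pr M (cw.map α w)
  sec_mem : ∀ (G : GD K) {L : Fld K} {F : IntermediateField K L} {A : xz.X L},
    (∀ i, xz.co A i ∈ F) → ∀ l, G.sec L A l ∈ F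
  pr_mem : ∀ (G : GD K) {L : Fld K} {F : IntermediateField K L} {w : Vr → L}, (∀ l, w l ∈ F) →
    (∀ i, xz.co (G.pr L w) i ∈ F) ∧ ∀ s, G.ns L w s ∈ F

/-- The involution. -/
class X2 : Prop where
  gam_one : ∀ {L : Fld K} (w : Vr → L), gam 1 w = w
  gam_gam : ∀ {L : Fld K} (τ τ' : L) (w : Vr → L), gam τ (gam τ' w) = gam (τ * τ') w
  gam_scl : ∀ (G : GD K) {L : Fld K} (τ : L) (a : Tr → L) (w : Vr → L),
    gam τ (G.Γ.scl a w) = G.Γ.scl a (gam τ w)
  gam_rel : ∀ {M L : Fld K} (R : Rel M L) {τ : M} {τ' : L} {w : Vr → M} {w' : Vr → L}, R.r τ τ' →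
    τ' ≠ 0 → cw.lift R.r w w' → cw.lift R.r (gam τ w) (gam τ' w')
  gam_bo : ∀ {G : GD K} {L : Fld K} {τ : L} {w : Vr → L}, τ ≠ 0 → G.BO.mem L w →
    G.BO.mem L (gam τ w)
  sw_sw : ∀ {L : Fld K} (ε : Bool) (w : Vr → L), sw ε (sw ε w) = w
  sw_scl : ∀ (G : GD K) {L : Fld K} (ε : Bool) (a : Tr → L) (w : Vr → L),
    sw ε (G.Γ.scl a w) = G.Γ.scl a (sw ε w)
  sw_rel : ∀ {M L : Fld K} (R : Rel M L) (ε : Bool) {w : Vr → M} {w' : Vr → L},
    cw.lift R.r w w' → cw.lift R.r (sw ε w) (sw ε w')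
  sw_map : ∀ {L M : Fld K} (α : L →ₐ[K] M) (ε : Bool) (w : Vr → L),
    cw.map α (sw ε w) = sw ε (cw.map α w)
  sw_cn : ∀ {G : GD K} {L : Fld K} (ε : Bool) {w : Vr → L}, G.Cn L (sw ε w) ↔ G.Cn L w
  sw_co : ∀ {G : GD K} {L : Fld K} (ε : Bool) {w : Vr → L}, G.Co L (sw ε w) ↔ G.Co L w
  sec_sg : ∀ (G : GD K) {L : Fld K} (ε : Bool) (A : xz.X L),
    G.sec L (sg ε L A) = sw ε (G.sec L A)
  pr_sw : ∀ (G : GD K) {L : Fld K} (ε : Bool) (w : Vr → L), G.pr L (sw ε w) = sg ε L (G.pr L w)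
  sg_sg : ∀ (ε : Bool) (L : Fld K) (A : xz.X L), sg ε L (sg ε L A) = A
  sg_uu : ∀ {G : GD K} {L : Fld K} (ε : Bool) {A : xz.X L}, G.UU.mem L (sg ε L A) ↔ G.UU.mem L A
  sg_rel : ∀ {M L : Fld K} (R : Rel M L) (ε : Bool) {A : xz.X M} {A' : xz.X L},
    xz.lift R.r A A' → xz.lift R.r (sg ε M A) (sg ε L A')
  sg_map : ∀ {L M : Fld K} (α : L →ₐ[K] M) (ε : Bool) (A : xz.X L),
    xz.map α (sg ε L A) = sg ε M (xz.map α A)
  ne : ∀ {G : GD K} {L : Fld K} {A : xz.X L}, G.UU.mem L A → ngz L A ≠ A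

/-- The boundary is a union of rational curves. -/
class BD : Prop where
  cov : ∀ {G : GD K} {L : Fld K} {w : Vr → L}, G.BO.mem L w →
    ∃ γ : ∀ L : Fld K, Cd.one.X L → cw.X L, Mp (ASp.univ K .one) G.CC.S γ ∧
      ∃ (τ : L) (a : Tr → L), Un a ∧ w = G.Γ.scl a (γ L τ)

/-- The branch function is not a square. -/
class XA : Prop where
  nsq : ∀ (G : GD K) {j : ℕ} {L M : Fld K} {α : L →ₐ[K] M} {x : Fin 2 → M}, Free j α x →
    ∀ z : M, z ^ 2 ≠ G.om M x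

/-- Generic points of the double cover. -/
class XG : Prop where
  ex : ∀ (G : GD K) {j : ℕ} {L : Fld K}, Good j L →
    ∃ (M : Fld K) (α : L →ₐ[K] M) (y : xz.X M), G.GenU j α y
  neg : ∀ {G : GD K} {j : ℕ} {L M : Fld K} {α : L →ₐ[K] M} {y : xz.X M}, G.GenU j α y →
    ∀ ε, G.GenU j α (sg ε M y)
  chart : ∀ {G : GD K} {j : ℕ} {L M : Fld K} {α : L →ₐ[K] M} {y : xz.X M}, G.GenU j α y →
    ∃ (M₀ : Fld K) (α₀ : L →ₐ[K] M₀) (β : M₀ →ₐ[K] M) (x : Fin 2 → M₀),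
      β.comp α₀ = α ∧ (∀ i, β (x i) = y.1 i) ∧ Free j α₀ x ∧ deg β = 2 ∧ Gen β y.2
  iso : ∀ {G : GD K} {j j' : ℕ} {L M L' M' : Fld K} {α : L →ₐ[K] M} {α' : L' →ₐ[K] M'} {y : xz.X M}
    {y' : xz.X M'}, G.GenU j α y → G.GenU j' α' y' → ∀ ι : L →ₐ[K] L',
    ∃ ρ : M →ₐ[K] M', ρ.comp α = α'.comp ι ∧ xz.map ρ y = y' ∧ (j = j' → deg ρ = deg ι)
  dgr : ∀ {G : GD K} {j : ℕ} {L M : Fld K} {α : L →ₐ[K] M} {y : xz.X M}, G.GenU j α y →
    ∀ s : Set L, Bridge.dg (IntermediateField.adjoin K (α '' s ∪ Set.range y.1)) =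
      2 * Bridge.dg (IntermediateField.adjoin K s)

/-- The unramified part is dense. -/
class DS : Prop where
  den : ∀ (G : GD K) (f : MvPolynomial Vr K), (∀ (L : Fld K) w, G.Co L w → aeval w f = 0) →
    ∀ (L : Fld K) w, G.Cn L w → aeval w f = 0

/-- The zero locus of the ideal. -/
class XL : Prop where
  zl : ∀ {G : GD K} {L : Fld K} {w : Vr → L}, G.Cn L w → G.ν w ∈ zeroLocus L G.I
  srj : ∀ {G : GD K} {L : Fld K} {N : G.σ → L}, N ∈ zeroLocus L G.I → N ≠ 0 →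
    ∃ w, G.Cn L w ∧ G.ν w = N

/-- The generic point of the zero locus. -/
class XN : Prop where
  ker : ∀ {G : GD K} {j : ℕ} {L M : Fld K} {α : L →ₐ[K] M} {y : xz.X M}, G.GenU j α y →
    ∀ {f : MvPolynomial G.σ K} {n : ℕ}, f.IsHomogeneous n → aeval (G.ν (G.sec M y)) f = 0 →
      f ∈ G.I
  ff : ∀ {G : GD K} {M : Fld K} {α : Fld.base K →ₐ[K] M} {y : xz.X M}, G.GenU 0 α y →
    ∀ u : G.σ → M, Bridge.FF u (G.ν (G.sec M y)) = ⊤

/-- Frobenius. -/
class XF (p : ℕ) : Prop where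
  pow : ∀ {G : GD K} {q : ℕ}, G.Fr p q → ∀ m, G.Fr p (q ^ m)
  gg_cn : ∀ {G : GD K} {Q : ℕ}, G.Fr p Q → ∀ {L : Fld K} (ε : Bool) {w : Vr → L},
    G.Cn L (gg Q ε w) ↔ G.Cn L w
  gg_co : ∀ {G : GD K} {Q : ℕ}, G.Fr p Q → ∀ {L : Fld K} (ε : Bool) {w : Vr → L},
    G.Co L (gg Q ε w) ↔ G.Co L w
  gg_scl : ∀ (G : GD K) (Q : ℕ) (ε : Bool) {L : Fld K} (a : Tr → L) (w : Vr → L),
    gg Q ε (G.Γ.scl a w) = G.Γ.scl (a ^ Q) (gg Q ε w)
  gg_rel : ∀ (Q : ℕ) (ε : Bool) {M L : Fld K} (R : Rel M L) {w : Vr → M} {w' : Vr → L},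
    cw.lift R.r w w' → cw.lift R.r (gg Q ε w) (gg Q ε w')
  gg_map : ∀ (Q : ℕ) (ε : Bool) {L M : Fld K} (α : L →ₐ[K] M) (w : Vr → L),
    cw.map α (gg Q ε w) = gg Q ε (cw.map α w)
  form : ∀ {G : GD K} {Q : ℕ}, G.Fr p Q → ∀ {L : Fld K} (x : Fin 2 → L),
    aeval (fun i => x i ^ Q) G.FP = aeval x G.FP ^ Q ∧
      aeval (fun i => x i ^ Q) G.FQ = aeval x G.FQ ^ Q
  mem : ∀ {G : GD K} {Q : ℕ}, G.Fr p Q → ∀ {L : Fld K} {A : xz.X L},
    G.UU.mem L (G.frb Q L A) ↔ G.UU.mem L A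
  map : ∀ (G : GD K) (Q : ℕ) {L M : Fld K} (α : L →ₐ[K] M) (A : xz.X L),
    xz.map α (G.frb Q L A) = G.frb Q M (xz.map α A)
  one : ∀ (G : GD K) (L : Fld K) (A : xz.X L), G.frb 1 L A = A
  mul : ∀ {G : GD K} {Q Q' : ℕ}, G.Fr p Q → G.Fr p Q' → ∀ (L : Fld K) (A : xz.X L),
    G.frb Q L (G.frb Q' L A) = G.frb (Q * Q') L A
  sg : ∀ {G : GD K} {Q : ℕ}, G.Fr p Q → ∀ (ε : Bool) (L : Fld K) (A : xz.X L),
    G.frb Q L (sg ε L A) = sg ε L (G.frb Q L A)
  sec : ∀ {G : GD K} {Q : ℕ}, G.Fr p Q → ∀ (ε : Bool) {L : Fld K} {A : xz.X L}, G.UU.mem L A →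
    ∃ a, Un a ∧ G.sec L (P2.sg ε L (G.frb Q L A)) = G.Γ.scl a (gg Q ε (G.sec L A))
  pr : ∀ {G : GD K} {Q : ℕ}, G.Fr p Q → ∀ (ε : Bool) {L : Fld K} {w : Vr → L}, G.Co L w →
    G.pr L (gg Q ε w) = P2.sg ε L (G.frb Q L (G.pr L w))
  mob : ∀ {G : GD K} {Q : ℕ}, G.Fr p Q → ∀ {L : Fld K} {A : xz.X L}, G.UU.mem L A →
    ∀ (F : IntermediateField K L) (i : Fin 2), (G.frb Q L A).1 i ∈ F ↔ A.1 i ^ Q ∈ F
  all : ∀ {G : GD K} {Q : ℕ}, G.Fr p Q → ∀ {L : Fld K} {A : xz.X L}, G.UU.mem L A →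
    ∀ F : IntermediateField K L, (∀ i, xz.co (G.frb Q L A) i ∈ F) ↔ ∀ i, xz.co A i ^ Q ∈ F
  mp : ∀ {G : GD K} {Q : ℕ}, G.Fr p Q → Mp G.UU G.UU (G.frb Q) ∧ Pro G.UU G.UU (G.frb Q) ∧
    Srj G.UU G.UU (G.frb Q) ∧ ∀ L : Fld K, Function.Injective (G.frb Q L)

/-- Fixed points and the graph of Frobenius. -/
class XI (p : ℕ) : Prop where
  fix : ∀ (G : GD K) (Y : Sm K G.σ), Y.I = G.I → ∀ Q, G.Fr p Q → Y.fixed Q = G.fx Q false
  gr : ∀ (G : GD K) (Y : Sm K G.σ), Y.I = G.I → ∀ Q, G.Fr p Q → ∀ {M : Fld K}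
    {α : Fld.base K →ₐ[K] M} {y : xz.X M}, G.GenU 0 α y →
    Y.grC Q = Finsupp.single (Bridge.PP (G.ν (G.sec M (G.frb Q M y))) (G.ν (G.sec M y))) 1

/-- Frobenius and functionals. -/
class XV (p : ℕ) : Prop where
  pull : ∀ {G : GD K} {q : ℕ}, G.Fr p q → ∀ {T : Type} [Finite T] [DecidableEq T] {j : ℕ}
    (φ : AF j (G.UU.pi T)) (e : T → ℕ), ∃ ψ : AF j (G.UU.pi T),
      (∀ L x, ψ.a L x = φ.a L (cfg G q e L x)) ∧ (AntiP φ.a → AntiP ψ.a) ∧
      ∀ sd : T → Bool, KlS sd φ.a → KlS sd ψ.a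
  desc : ∀ {G : GD K} {q : ℕ}, G.Fr p q → ∀ {T : Type} [Finite T] [DecidableEq T] {j : ℕ}
    (φ : AF j (G.UU.pi T)) (e : T → ℕ), ∃ ψ : AF j (G.UU.pi T),
      (∀ L x, φ.a L x = ψ.a L (cfg G q e L x)) ∧ (AntiP φ.a → AntiP ψ.a) ∧
      ∀ sd : T → Bool, KlS sd φ.a → KlS sd ψ.a

/-- Normalised values. -/
class XW (p : ℕ) : Prop where
  shift : ∀ {G : GD K} {q : ℕ}, G.Fr p q → ∀ {T : Type} [Finite T]
    (φ : AF (Nat.card T) (G.UU.pi T)) {τ : T → T}, Inv τ →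
    ∀ (e e' : T → ℕ) (i : T) (m : ℕ) (v : ℂ),
    e' i = e i + m → e' (τ i) = e (τ i) + m → (∀ t, t ≠ i → t ≠ τ i → e' t = e t) →
    (DV G q φ.a τ e' ((q : ℂ) ^ (2 * m) * v) ↔ DV G q φ.a τ e v)
  val : ∀ {G : GD K} {q : ℕ}, G.Fr p q → ∀ φ : AF (Nat.card Bool) (G.UU.pi Bool),
    AntiP φ.a → ∀ e : Bool → ℕ, ∃ v, DV G q φ.a not e v
  gen : ∀ (G : GD K) (κ : Type) [Finite κ], ∃ (L : Fld K) (P : κ → xz.X L),
    Good (2 * Nat.card κ) L ∧ (∀ i, G.UU.mem L (P i)) ∧ Bridge.dg (xf L P) ≠ 0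

/-- The contraction with the diagonal exists. -/
class ZO (p : ℕ) : Prop where
  ex : ∀ G : GD K, ∃ (c₀ : ℂ) (AC : CRel G), ConL G p c₀ AC

open Classical in
/-- One contraction. -/
class ZS (p : ℕ) : Prop where
  step : ∀ {G : GD K} {c₀ : ℂ} {AC : CRel G}, ConL G p c₀ AC → ∀ {q : ℕ}, 1 < q → G.Fr p q →
    ∀ {T : Type} [Finite T] [DecidableEq T] (φ : AF (Nat.card T) (G.UU.pi T)), AntiP φ.a →
    ∃ Φ : AF (Nat.card (Option (Option T))) (G.UU.pi (Option (Option T))), AntiP Φ.a ∧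
      (∀ (sd : T → Bool) (s : Bool), KlS sd φ.a →
        KlS (fun t : Option (Option T) => (Option.bind t id).elim s sd) Φ.a) ∧
      ∀ (τ : Option (Option T) → Option (Option T)) (e : Option (Option T) → ℕ) (v : ℂ), Inv τ →
        DV G q φ.a (rτ τ) (re τ e) v →
        DV G q Φ.a τ e ((if Lp τ then lamP q (G.PP c₀ q) (e none) (e (some none)) else 1) * v / 2)

/-- The relation between the graphs of the powers of Frobenius. -/
class ZR (p : ℕ) : Prop where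
  rel : ∀ {G : GD K} {c₀ : ℂ} {AC : CRel G}, ConL G p c₀ AC → ∀ {q : ℕ}, 1 < q → G.Fr p q →
    ∀ {n r : ℕ}, n = G.n → ∀ (sd : ℕ → Bool) (E : Fin n ⊕ Fin n ≃ Tw r),
    (∀ i, side sd r (E (Sum.inl i)) = true) → (∀ i, side sd r (E (Sum.inr i)) = false) →
    ∀ e : Tw r → ℕ, dsum E (lamP q (G.PP c₀ q)) q e ≠ 0 →
    ∃ f : Polynomial ℂ, f.eval (q : ℂ) ≠ 0 ∧ f.eval 0 ≠ 0 ∧
      ∀ φ : AF (Nat.card Bool) (G.UU.pi Bool), AntiP φ.a → KlS id φ.a → ∀ v : ℕ → ℂ,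
      (∀ j, DV G q φ.a not (fun b => bif b then j else 0) (v j)) →
      ∀ t, (f.sum fun j a => a * v (j + t)) = 0

/-- From linear forms on cycles to functionals. -/
class XQ [Base K] (p : ℕ) : Prop where
  brg : ∀ (G : GD K) (Y : Sm K G.σ), Y.I = G.I → ∀ q, G.Fr p q →
    ∀ b : Cyc (MvPolynomial (G.σ ⊕ G.σ) K) →ₗ[ℚ] ℚ,
    RatB Y.I ⊔ ⨆ δ, ProdB Y.I δ ≤ LinearMap.ker b →
    ∃ φ : AF (Nat.card Bool) (G.UU.pi Bool), AntiP φ.a ∧ KlS id φ.a ∧
      ∀ j, DV G q φ.a not (fun b => bif b then j else 0) ((b (Y.grC (q ^ j)) : ℂ) / 2)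

end Geo

end Pool.Agent.Lib.MP_557161_ag.HG.TW.P2
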