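import Pool.Agent.Lib.MP_557161_ag.TW.StZ2

/-!
The congruence modulo two for arbitrary orbits, and the number of orbits of the square of a
permutation: statements.
-/

namespace Pool.Agent.Lib.MP_557161_ag.HG.TW.P2

open Pool.Agent.Lib.MP_557161_ag.DL

/-- The congruence modulo two, for arbitrary orbits. -/
class ZM2 : Prop where
  tot : ∀ q : ℕ, Odd q → ∀ {ι κ : Type} [Fintype ι] [Fintype κ] (dg : ι → ℕ) (eg : κ → ℕ),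
    (∀ i, 0 < dg i) → (∀ j, 0 < eg j) → ∀ c : ℕ → ℤ,
    (∀ m v : ℕ, 0 < m → 2 ^ v ∣ m → (2 : ℤ) ^ (v + 1) ∣ c m) → ∀ ν : ℂ →₀ ℤ, ν 0 = 0 →
    (∀ z, z ≠ 1 → z ≠ -1 → 0 ≤ ν z) →
    (∀ m : ℕ, 0 < m → ((q : ℂ) ^ m) ^ 2 + (q : ℂ) ^ m + sN dg m * sN eg m -
      (sN dg m + sN eg m) * (q : ℂ) ^ m - c m = (q : ℂ) ^ m * ν.sum fun z c => c * z ^ m) →
    (((∑ i, dg i : ℕ) : ℤ) - 1) * ((∑ j, eg j : ℕ) - 1) + 1 ≤ ν.sum fun _ c => c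

/-- The multiplicities of `1` and `-1` count the orbits of the square. -/
class ZO3 : Prop where
  orb : ∀ {α : Type} [Finite α] (F : α → α), Function.Injective F → ∃ τ : ℂ →₀ ℤ, τ 0 = 0 ∧
    (∀ m : ℕ, 0 < m → (Nat.card {x // F^[m] x = x} : ℂ) = τ.sum fun z c => c * z ^ m) ∧
    τ 1 + τ (-1) = Nat.card (Quot fun x y : α => y = F (F x))
  uq : ∀ ν ν' : ℂ →₀ ℤ, ν 0 = 0 → ν' 0 = 0 →
    (∀ m : ℕ, 0 < m → (ν.sum fun z c => (c : ℂ) * z ^ m) = ν'.sum fun z c => c * z ^ m) → ν = ν'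

end Pool.Agent.Lib.MP_557161_ag.HG.TW.P2
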