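import Pool.Agent.Lib.MP_557161_ag.TW.Wd
import Pool.Agent.Lib.MP_557161_ag.TW.Hyp

/-!
Generic fibres of products with tori and affine spaces.
-/

namespace Pool.Agent.Lib.MP_557161_ag.HG.TW

open Pool.Agent.Lib.MP_557161_ag.DL Matrix

namespace V2a

variable {K : Type} [Field K] {p : ℕ} {c d : Cd} {E : WD K c} {W : ASp K d}

theorem hyp (γ : ∀ L : Fld K, (Cd.one.prod c).X L → c.X L)
    (ρ P : ∀ L : Fld K, c.X L → L) (hγ : Mp ((ASp.univ K .one).prod E.S) E.S γ)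
    (hρ : Reg E.S .one ρ) (hP : Reg E.S .one P)
    (h : ∀ (L : Fld K) (t : L) x, E.S.mem L x → γ L (0, x) = x ∧
      γ L (-t, γ L (t, x)) = x ∧ E.φ L (γ L (t, x)) = E.φ L x ∧ E.g L (γ L (t, x)) = E.g L x ∧
      ρ L (γ L (t, x)) = ρ L x + t * P L x ∧ P L (γ L (t, x)) = P L x)
    {j : ℕ} (Φ : ANF p j E W) (h0 : ∀ L x v y w, ρ L x = 0 → P L x = 0 → Φ.e L x v y w = 0)
    (L : Fld K) (x : c.X L) (v y : L) (w : d.X L) (hx : ρ L x = 0) : Φ.e L x v y w = 0 :=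
  hyp2 (E := E.v) (fun L z => (γ L (z.1, z.2.1), z.2.2))
    ⟨fun _ _ R z z' m m' e => ⟨hγ.reg R (x := (z.1, z.2.1)) (x' := (z'.1, z'.2.1))
        ⟨m.1, m.2.1⟩ ⟨m'.1, m'.2.1⟩ ⟨e.1, e.2.1⟩, e.2.2⟩,
      fun L z m => ⟨hγ.mem L (z.1, z.2.1) ⟨m.1, m.2.1⟩, trivial⟩⟩
    (fun L t z m => ⟨Prod.ext (h L t _ m.1).1 rfl, Prod.ext (h L t _ m.1).2.1 rfl, by
      change E.φ L (γ L (t, z.1)) + E.g L (γ L (t, z.1)) * z.2 ^ 2 = E.φ L z.1 + E.g L z.1 * z.2 ^ 2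
      rw [(h L t _ m.1).2.2.1, (h L t _ m.1).2.2.2.1]⟩)
    (fun L z => ρ L z.1) (fun L z => P L z.1)
    (fun _ _ R _ _ m m' e => hρ R m.1 m'.1 e.1) (fun _ _ R _ _ m m' e => hP R m.1 m'.1 e.1)
    (fun L t z m => (h L t _ m.1).2.2.2.2) Φ.toNF
    (fun L z y w _ h1 h2 => h0 L z.1 z.2 y w h1 h2) L (x, v) y w hx

variable {κ : Type} [Finite κ]

theorem ph (q : κ → Prop) (L : Fld K) (x : c.X L) (T : κ → L) (v : L) :
    (E.prod (Tor K κ q)).v.φ L ((x, T), v) = E.v.φ L (x, v) := by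
  change E.φ L x + 0 + E.g L x * 1 * v ^ 2 = E.φ L x + E.g L x * v ^ 2
  rw [add_zero, mul_one]

theorem weq (q : κ → Prop) :
    WEq (E.prod (Tor K κ q)) (E.prod (Tor K κ fun _ => False)) fun _ x => x :=
  ⟨⟨⟨Reg.id _, fun _ _ m => ⟨m.1, trivial, fun _ h => h.elim⟩⟩, fun _ _ _ => rfl⟩,
    fun _ _ _ => rfl⟩

/-- The torus variables become the last coordinates. -/
theorem regroup [V1 K p] (q : κ → Prop) {i : ℕ} (Ψ : ANF p i (E.prod (Tor K κ q)) W) :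
    ∃ Θ : AF i (((E.v.tot p).prod W).prod (.univ K (.vec κ))),
      ∀ L x v y w T, Θ.a L ((((x, v), y), w), T) = Ψ.e L (x, T) v y w := by
  obtain ⟨Ψ', h'⟩ := V1.ext (weq (E := E) q) (fun M O x x' m m' e =>
    ⟨m.1, trivial, fun a ha => Rel.ne_zero (e.2 a) (m'.2.2 a ha)⟩) Ψ
  have hg : Mp (((E.v.tot p).prod W).prod (.univ K (.vec κ)))
      (((E.prod (Tor K κ fun _ => False)).v.tot p).prod W)
      fun _ X => ((((X.1.1.1.1, X.2), X.1.1.1.2), X.1.1.2), X.1.2) :=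
    ⟨fun _ _ _ _ _ _ _ e => ⟨⟨⟨⟨e.1.1.1.1, e.2⟩, e.1.1.1.2⟩, e.1.1.2⟩, e.1.2⟩, fun L X m =>
      ⟨⟨⟨⟨⟨m.1.1.1.1.1, trivial, fun _ h => h.elim⟩, trivial⟩, trivial⟩,
        m.1.1.2.trans (ph _ L _ _ _).symm⟩, m.1.2⟩⟩
  have hp : Pro (((E.v.tot p).prod W).prod (.univ K (.vec κ)))
      (((E.prod (Tor K κ fun _ => False)).v.tot p).prod W)
      fun _ X => ((((X.1.1.1.1, X.2), X.1.1.1.2), X.1.1.2), X.1.2) := fun M O X z _ m m' e =>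
    ⟨((((z.1.1.1.1, z.1.1.2), z.1.2), z.2), z.1.1.1.2),
      ⟨⟨⟨⟨⟨m'.1.1.1.1.1, trivial⟩, trivial⟩, m'.1.2.trans (ph _ _ _ _ _)⟩, m'.2⟩, trivial⟩,
      ⟨⟨⟨e.1.1.1.1, e.1.1.2⟩, e.1.2⟩, e.2⟩, e.1.1.1.2⟩
  refine ⟨Ψ'.toFe.pull hg.mor (hp.mor hg), fun L x v y w T => ?_⟩
  rw [← h']
  by_cases h : (((E.v.tot p).prod W).prod (.univ K (.vec κ))).mem L ((((x, v), y), w), T)
  · exact Fe.pull_of_mem _ _ _ ((ASp.sp_some _).2 h)
  · have e1 : Ψ'.e L (x, T) v y w = 0 := by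
      by_contra h0
      obtain ⟨-, h1, h2, h3, -⟩ := V1.mem Ψ' h0
      exact h ⟨⟨⟨⟨⟨h1.1, trivial⟩, trivial⟩, h2.trans (ph (fun _ => False) L x T v)⟩, h3⟩, trivial⟩
    rw [e1]
    by_contra h0
    exact h ((ASp.sp_some _).1 (Pre.supp _ L _ h0).2)

theorem down [FA1 K] [FA3 K] [FC2 K p] [V1 K p] (q : κ → Prop) {j : ℕ}
    (Ψ : ANF p (j + Nat.card κ) (E.prod (Tor K κ q)) W) : ∃ Φ : ANF p j E W,
      ∀ (L M : Fld K) (α : L →ₐ[K] M) (T : κ → M) x v y w, Free j α T →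
        Ψ.e M (c.map α x, T) (α v) (α y) (d.map α w) = Φ.e L x v y w := by
  obtain ⟨Θ, hΘ⟩ := regroup q Ψ
  obtain ⟨Φ, hΦ⟩ := FC2.down (p := p) Θ
  have val : ∀ (L M : Fld K) (α : L →ₐ[K] M) (T : κ → M) x v y w, Free j α T →
      Φ.a L (((x, v), y), w) = Ψ.e M (c.map α x, T) (α v) (α y) (d.map α w) := by
    intro L M α T x v y w hT
    rw [← hΘ M _ _ _ _ T]
    by_cases h : ((E.v.tot p).prod W).mem L (((x, v), y), w)
    · exact (hΦ L M α T (((x, v), y), w) hT h).symm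
    · have e1 : Φ.a L (((x, v), y), w) = 0 := by
        by_contra h0
        exact h ((ASp.sp_some _).1 (Φ.supp L _ h0).2)
      rw [e1, eq_comm]
      by_contra h0
      have m' := ((ASp.sp_some _).1 (Θ.supp M _ h0).2).1
      exact h ((((E.v.tot p).prod W).map_iff α (((x, v), y), w)).1 m')
  have sup : ∀ (L : Fld K) x v y w, ¬ Good j L → Φ.a L (((x, v), y), w) = 0 :=
    fun L x v y w h => not_not.1 fun h0 => h (Φ.supp L _ h0).1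
  let Φ' : NF p j E.v W := ⟨Φ, fun L x y w => by
      by_cases h : Good j L
      · rw [← Ψ.nt (fr L κ) ((c.map (frα L κ) x.1, frT L κ), frα L κ x.2) (frα L κ y)
          (d.map (frα L κ) w)]
        refine Finset.sum_congr rfl fun a _ => ?_
        have := val L _ _ _ x.1 x.2 (y + a) w (FA1.fr_free κ h)
        rwa [map_add, map_natCast] at this
      · exact Finset.sum_eq_zero fun a _ => sup L x.1 x.2 _ w h,
    fun L x y w m₁ m₂ h1 h2 h3 => by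
      by_cases g1 : Good j L
      · refine (val L _ _ _ x.1 x.2 y w (FA1.fr_free κ g1)).trans
          (Ψ.kills _ _ _ _ (m₁ + Nat.card κ) m₂ ?_ ((FA3.dm_map _).2 h2) (by omega))
        exact FA3.dm_reg (S := .univ K ((c.prod .one).prod (.vec κ)))
          (d := (c.prod (.vec κ)).prod .one)
          (f := fun _ X => ((X.1.1, X.2), X.1.2)) (fun _ _ _ _ _ _ _ e => ⟨⟨e.1.1, e.2⟩, e.1.2⟩)
          (x := ((c.prod .one).map (frα L κ) x, frT L κ)) trivial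
          (FA3.dm_pair ((FA3.dm_map _).2 h1) (FA3.dm_vec _))
      · exact sup L x.1 x.2 y w g1⟩
  refine ⟨⟨Φ', fun L x v y w => ?_⟩, fun L M α T x v y w hT => (val L M α T x v y w hT).symm⟩
  change Φ.a L (((x, -v), y), w) = -Φ.a L (((x, v), y), w)
  by_cases h : Good j L
  · rw [val L _ _ _ x (-v) y w (FA1.fr_free κ h), val L _ _ _ x v y w (FA1.fr_free κ h), map_neg]
    exact Ψ.anti _ _ _ _ _
  · rw [sup L x _ y w h, sup L x _ y w h, neg_zero]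

theorem up [FC2 K p] [V1 K p] (q : κ → Prop) {i : ℕ}
    (Ψ : ANF p i (E.prod (Tor K κ q)) W) (Z : ∀ L : Fld K, c.X L → Prop)
    (hZ : ∀ ⦃M L : Fld K⦄ (R : Rel M L) ⦃x : c.X M⦄ ⦃x' : c.X L⦄, E.S.mem M x → E.S.mem L x' →
      c.lift R.r x x' → Z M x → Z L x')
    (h : ∀ (j : ℕ) (L M : Fld K) (α : L →ₐ[K] M) (T : κ → M) x v y w, i = j + Nat.card κ →
      Free j α T → E.S.mem L x → Z L x → Ψ.e M (c.map α x, T) (α v) (α y) (d.map α w) = 0)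
    (L : Fld K) (x : c.X L) (t : κ → L) (v y : L) (w : d.X L) (hx : Z L x) :
    Ψ.e L (x, t) v y w = 0 := by
  obtain ⟨Ψ₁, h₁⟩ := V1.pull (E := E.prod (Tor K κ q)) (E' := (E.cl Z hZ).prod (Tor K κ q))
    (f := fun _ X => X) ⟨⟨⟨Reg.id _, fun _ _ m => ⟨m.1.1, m.2⟩⟩, fun _ _ _ => rfl⟩,
      fun _ _ _ => rfl⟩
    (fun M O X z _ m m' e => ⟨z, ⟨⟨m'.1, hZ _ m.1.1 m'.1 e.1 m.1.2⟩, m'.2⟩, e⟩) Ψ
  obtain ⟨Θ, hΘ⟩ := regroup q Ψ₁
  have h0 := FC2.up (p := p) Θ fun j L M α T X e hT m => by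
    refine (hΘ M _ _ _ _ T).trans (not_not.1 fun hn => hn ?_)
    exact (h₁ M _ _ _ _ (V1.mem Ψ₁ hn).2.1).trans
      (h j L M α T X.1.1.1 X.1.1.2 X.1.2 X.2 e hT m.1.1.1.1.1 m.1.1.1.1.2)
  by_contra hn
  have m := (V1.mem Ψ hn).2.1
  exact hn ((h₁ L (x, t) v y w ⟨⟨m.1, hx⟩, m.2⟩).symm.trans ((hΘ L x v y w t).symm.trans (h0 L _)))

/-- The lift to the product with an affine space. -/
theorem lift0 [FC1 K p] [FC5 K p] [V1 K p] {j : ℕ} (Φ : ANF p j E W) :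
    ∃ Ψ : ANF p (j + Nat.card κ) (E.prod (Tor K κ fun _ => False)) W,
      ∀ (L M : Fld K) (α : L →ₐ[K] M) (T : κ → M) x v y w, Free j α T →
        Ψ.e M (c.map α x, T) (α v) (α y) (d.map α w) = Φ.e L x v y w := by
  have := Fintype.ofFinite κ
  have hf : Reg E.v.S (.vec κ) fun L _ _ => (0 : L) := fun _ _ R _ _ _ _ _ _ => R.zero
  obtain ⟨Φ₀, h₀⟩ := FC1.res (E := E.v) (E' := E.v.zer _ hf)
    ⟨⟨Reg.id _, fun _ _ m => m.1⟩, fun _ _ _ => rfl⟩ Φ.toNF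
    fun L x y w h => ⟨(FC1.mem Φ.toNF h).2.1, fun _ => rfl⟩
  obtain ⟨Ψ₀, h₁, h₂⟩ := FC5.s5 _ hf Φ₀
  have ng : Mp E.v.S E.v.S fun _ X => (X.1, -X.2) :=
    ⟨fun _ _ _ _ _ _ _ e => ⟨e.1, Rel.neg e.2⟩, fun _ _ m => ⟨m.1, trivial⟩⟩
  have h₃ := h₂ (fun _ X => (X.1, -X.2)) (fun _ X => (X.1, -X.2)) 1 (-1)
    ⟨ng, ng, fun _ _ _ => Prod.ext rfl (neg_neg _), fun _ _ _ => Prod.ext rfl (neg_neg _)⟩
    (fun L x _ => ⟨by
      change E.φ L x.1 + E.g L x.1 * (-x.2) ^ 2 = E.φ L x.1 + E.g L x.1 * x.2 ^ 2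
      rw [neg_sq], fun _ => rfl⟩)
    (fun L x y w _ => by
      rw [h₀, h₀, neg_one_mul]
      exact Φ.anti L x.1 x.2 y w)
  have hm : Mp (E.prod (Tor K κ fun _ => False)).v.S (E.v.lin _ hf).S
      fun _ X => ((X.1.1, X.2), X.1.2) :=
    ⟨fun _ _ _ _ _ _ _ e => ⟨⟨e.1.1, e.2⟩, e.1.2⟩, fun _ _ m => ⟨⟨m.1.1, trivial⟩, trivial⟩⟩
  obtain ⟨Ψ₁, h₄⟩ := FC1.pull (E := E.v.lin _ hf) (E' := (E.prod (Tor K κ fun _ => False)).v)
    ⟨hm, fun L X _ => by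
      rw [show X = ((X.1.1, X.1.2), X.2) from rfl, ph]
      change E.v.φ L _ + ∑ i, X.1.2 i * 0 = _
      simp⟩
    (Pro.of_left (g := fun _ X => ((X.1.1, X.2), X.1.2))
      ⟨fun _ _ _ _ _ _ _ e => ⟨⟨e.1.1, e.2⟩, e.1.2⟩,
        fun _ _ m => ⟨⟨m.1.1, trivial, fun _ h => h.elim⟩, trivial⟩⟩ hm fun _ _ _ => rfl) Ψ₀
  let Ψ₂ : ANF p (j + Nat.card κ) (E.prod (Tor K κ fun _ => False)) W := ⟨Ψ₁, fun L x v y w => by
    by_cases m : (E.prod (Tor K κ fun _ => False)).S.mem L x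
    · rw [h₄ L (x, -v) y w ⟨m, trivial⟩, h₄ L (x, v) y w ⟨m, trivial⟩]
      exact (h₃ L ((x.1, v), x.2) y w ⟨⟨m.1, trivial⟩, trivial⟩).trans (neg_one_mul _)
    · rw [not_not.1 fun h => m (FC1.mem Ψ₁ (x := (x, -v)) h).2.1.1,
        not_not.1 fun h => m (FC1.mem Ψ₁ (x := (x, v)) h).2.1.1, neg_zero]⟩
  obtain ⟨Ψ₃, h₅⟩ := V1.comb ((-1) ^ Nat.card κ) 0 Ψ₂ Ψ₂
  refine ⟨Ψ₃, fun L M α T x v y w hT => ?_⟩
  rw [h₅, zero_mul, add_zero]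
  by_cases m : E.S.mem L x
  · have e := h₁ L M α T (x, v) y w hT ⟨⟨m, trivial⟩, fun _ => rfl⟩
    have e' : Ψ₂.e M (c.map α x, T) (α v) (α y) (d.map α w) = _ :=
      (h₄ M ((c.map α x, T), α v) (α y) (d.map α w)
        ⟨⟨(E.S.map_iff α x).2 m, trivial, fun _ h => h.elim⟩, trivial⟩).trans e
    rw [e', h₀, ← mul_assoc, ← mul_pow, neg_mul_neg, one_mul, one_pow, one_mul]
  · rw [not_not.1 fun h => m (V1.mem Φ h).2.1,
      not_not.1 fun h => m ((E.S.map_iff α x).1 (V1.mem Ψ₂ h).2.1.1), mul_zero]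

theorem lift [FC1 K p] [FC5 K p] [V1 K p] (q : κ → Prop) {j : ℕ} (Φ : ANF p j E W) :
    ∃ Ψ : ANF p (j + Nat.card κ) (E.prod (Tor K κ q)) W,
      ∀ (L M : Fld K) (α : L →ₐ[K] M) (T : κ → M) x v y w, Free j α T →
        Ψ.e M (c.map α x, T) (α v) (α y) (d.map α w) = Φ.e L x v y w := by
  classical
  obtain ⟨Ψ₀, h₀⟩ := lift0 (κ := κ) Φ
  obtain ⟨Ψ, h⟩ := V1.res (weq (E := E) q) Ψ₀ fun L x v y w hn =>
    ⟨(V1.mem Ψ₀ hn).2.1.1, trivial, fun a _ ha => hn (hyp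
      (E := E.prod (Tor K κ fun _ => False))
      (fun _ X => (X.2.1, fun i => X.2.2 i + if i = a then X.1 else 0)) (fun _ X => X.2 a)
      (fun _ _ => 1)
      ⟨fun _ _ R _ _ _ _ e => ⟨e.2.1, fun i => R.add (e.2.2 i) (Rel.ite _ e.1 R.zero)⟩,
        fun _ _ m => ⟨m.2.1, trivial, fun _ h => h.elim⟩⟩
      (fun _ _ _ _ _ _ _ e => e.2 a) (fun _ _ R _ _ _ _ _ => R.one)
      (fun L t X _ => ⟨by simp, Prod.ext rfl (funext fun i => by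
        dsimp only
        split_ifs <;> ring), rfl, rfl, by simp, rfl⟩)
      Ψ₀ (fun _ _ _ _ _ _ h => absurd h one_ne_zero) L x v y w ha)⟩
  exact ⟨Ψ, fun L M α T x v y w hT => (h _ _ _ _ _).trans (h₀ L M α T x v y w hT)⟩

end V2a

end Pool.Agent.Lib.MP_557161_ag.HG.TW
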