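import Pool.Agent.Lib.MP_557161_ag.TW.Wd

/-!
Stationary phase, tori and affine spaces for odd functionals.
-/

namespace Pool.Agent.Lib.MP_557161_ag.HG.TW.V3l

open Pool.Agent.Lib.MP_557161_ag.DL

variable {K : Type} [Field K] {p : ℕ} {c c' cc d : Cd} {W : ASp K d} [v1 : V1 K p]

theorem av_of {E : WD K c} {E' : WD K c'} {f : ∀ L : Fld K, c'.X L → c.X L}
    {f' : ∀ L : Fld K, c.X L → c'.X L} (i : Iso E'.S E.S f f')
    (e : ∀ L x, E'.S.mem L x → E.φ L (f L x) = E'.φ L x ∧ E.g L (f L x) = E'.g L x) :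
    AV p E' W ↔ AV p E W := by
  have k : ∀ {c c' : Cd} {E : WD K c} {E' : WD K c'} {f : ∀ L : Fld K, c'.X L → c.X L}
      {f' : ∀ L : Fld K, c.X L → c'.X L}, Iso E'.S E.S f f' → WEq E' E f → AV p E' W → AV p E W :=
    fun i e h j Φ L x v y w => by
      obtain ⟨Φ', e'⟩ := v1.pull e i.pro Φ
      by_contra h0
      have m := (v1.mem Φ h0).2.1
      exact h0 (by rw [← i.fg L x m, ← e' L _ v y w (i.mg.mem L x m), h])
  refine ⟨k i ⟨⟨i.mf, fun L x m => (e L x m).1⟩, fun L x m => (e L x m).2⟩,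
    k i.symm ⟨⟨i.mg, fun L x m => ?_⟩, fun L x m => ?_⟩⟩
  · rw [← (e L _ (i.mg.mem L x m)).1, i.fg L x m]
  · rw [← (e L _ (i.mg.mem L x m)).2, i.fg L x m]

section
variable {E : WD K c} {κ : Type} [Fintype κ] (f : ∀ L : Fld K, c.X L → κ → L)
  (hf : Reg E.S (.vec κ) f)

omit v1

include hf in
lemma hF : Reg E.v.S (.vec κ) fun L x => f L x.1 := fun _ _ R _ _ m m' e => hf R m.1 m'.1 e.1

/-- The exchange of the last two coordinates. -/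
def sw (c d e : Cd) (L : Fld K) (x : ((c.prod d).prod e).X L) : ((c.prod e).prod d).X L :=
  ((x.1.1, x.2), x.1.2)

lemma iso : Iso (E.lin f hf).v.S (E.v.lin _ (hF f hf)).S (sw c (.vec κ) .one)
    (sw c .one (.vec κ)) where
  mf := ⟨fun _ _ _ _ _ _ _ l => ⟨⟨l.1.1, l.2⟩, l.1.2⟩, fun _ _ m => ⟨⟨m.1.1, trivial⟩, trivial⟩⟩
  mg := ⟨fun _ _ _ _ _ _ _ l => ⟨⟨l.1.1, l.2⟩, l.1.2⟩, fun _ _ m => ⟨⟨m.1.1, trivial⟩, trivial⟩⟩
  gf _ _ _ := rfl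
  fg _ _ _ := rfl

lemma isz : Iso (E.v.zer _ (hF f hf)).S (E.zer f hf).v.S (fun _ x => x) fun _ x => x where
  mf := ⟨Reg.id _, fun _ _ m => ⟨⟨m.1.1, m.2⟩, trivial⟩⟩
  mg := ⟨Reg.id _, fun _ _ m => ⟨⟨m.1.1, trivial⟩, m.1.2⟩⟩
  gf _ _ _ := rfl
  fg _ _ _ := rfl

include v1

theorem lin_zer [a1 : FA1 K] [h1 : FC1 K p] [h5 : FC5 K p] (h : AV p (E.lin f hf) W) :
    AV p (E.zer f hf) W := by
  intro j Φ L x v y w
  obtain ⟨Φ₁, e₁⟩ := h1.pull ⟨(isz f hf).mf, fun _ _ _ => rfl⟩ (isz f hf).pro Φ.toNF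
  obtain ⟨Ψ, e₃, e₄⟩ := h5.s5 _ (hF f hf) Φ₁
  obtain ⟨Ψ', e₅⟩ := h1.pull ⟨(iso f hf).mf, fun L x _ => add_right_comm _ _ _⟩ (iso f hf).pro Ψ
  have n : Mp E.v.S E.v.S fun _ x => (x.1, -x.2) :=
    ⟨fun _ _ _ _ _ _ _ e => ⟨e.1, Rel.neg e.2⟩, fun _ _ m => m⟩
  have e₆ := e₄ _ _ 1 (-1) ⟨n, n, fun _ x _ => Prod.ext rfl (neg_neg x.2),
    fun _ x _ => Prod.ext rfl (neg_neg x.2)⟩
    (fun L x _ => ⟨congrArg (fun s => E.φ L x.1 + E.g L x.1 * s) (neg_sq x.2), fun i => rfl⟩)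
    fun L x y w m => by
      rw [e₁ L _ y w m, e₁ L (x.1, -x.2) y w m, neg_one_mul]
      exact Φ.anti L x.1 x.2 y w
  have e₇ := h _ ⟨Ψ', fun L x v y w => by
    by_cases m : E.S.mem L x.1
    · rw [e₅ L _ y w ⟨⟨m, trivial⟩, trivial⟩, e₅ L _ y w ⟨⟨m, trivial⟩, trivial⟩]
      exact (e₆ L ((x.1, v), x.2) y w ⟨⟨m, trivial⟩, trivial⟩).trans (neg_one_mul _)
    · have : ∀ v, Ψ'.b L (x, v) y w = 0 := fun v => by_contra fun e => m (h1.mem Ψ' e).2.1.1.1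
      rw [this, this, neg_zero]⟩
  by_contra h0
  obtain ⟨g, m, -⟩ := v1.mem Φ h0
  have m' : (E.v.zer _ (hF f hf)).S.mem L (x, v) := ⟨⟨m.1, trivial⟩, m.2⟩
  have := (e₃ L _ _ _ (x, v) y w (a1.fr_free κ g) m').symm.trans
    ((e₅ _ ((c.map (frα L κ) x, frT L κ), frα L κ v) _ _
      ⟨⟨(E.S.map_iff _ x).2 m.1, trivial⟩, trivial⟩).symm.trans (e₇ _ _ _ _ _))
  rw [e₁ L _ y w m'] at this
  exact h0 ((mul_eq_zero.1 this).resolve_left (pow_ne_zero _ (by norm_num)))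

theorem zer_lin [h1 : FC1 K p] [h4 : FC4 K p] [v2 : V2 K p] (h : AV p (E.zer f hf) W) :
    AV p (E.lin f hf) W := by
  intro i Ψ L x v y w
  obtain ⟨Ψ', e⟩ := h1.pull (E' := E.v.lin _ (hF f hf))
    ⟨(iso f hf).mg, fun L x _ => add_right_comm _ _ _⟩ (iso f hf).symm.pro Ψ.toNF
  by_contra h0
  refine h0 ((e L ((x.1, v), x.2) y w ⟨⟨(v1.mem Ψ h0).2.1.1, trivial⟩, trivial⟩).symm.trans
    (h4.uniq _ (hF f hf) Ψ' (fun j L M α T x y w hj hT m => ?_) _ _ _ _))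
  subst hj
  obtain ⟨Θ, e'⟩ := v1.pull (E := E.lin f hf) (E' := (E.zer f hf).prod (Tor K κ fun _ => False))
    (f := fun _ x => x)
    ⟨⟨⟨Reg.id _, fun _ _ m => ⟨m.1.1, trivial⟩⟩, fun L x m => congrArg (E.φ L x.1 + ·)
      (Finset.sum_eq_zero fun i _ => mul_eq_zero_of_right _ (m.1.2 i))⟩,
      fun _ _ _ => (mul_one _).symm⟩
    (fun M O x z _ m m' e => ⟨z, ⟨⟨m'.1, fun i => Rel.eq_zero (hf _ m.1.1 m'.1 e.1 i) (m.1.2 i)⟩,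
      trivial, fun _ => False.elim⟩, e⟩) Ψ
  obtain ⟨Φ, e''⟩ := v2.down _ Θ
  have m' := ((E.zer f hf).S.map_iff α x.1).2 ⟨m.1.1, m.2⟩
  exact (e M _ _ _ ⟨⟨m'.1, trivial⟩, trivial⟩).trans
    ((e' M (_, T) _ _ _ ⟨m', trivial, fun _ => False.elim⟩).symm.trans
      ((e'' L M α T x.1 x.2 y w hT).trans (h _ _ _ _ _ _ _)))

end

theorem lin [FA1 K] [FC1 K p] [FC4 K p] [FC5 K p] [V2 K p] {c : Cd} (X : WD K c) {κ : Type}
    [Fintype κ] (f : ∀ L : Fld K, c.X L → κ → L) (hf : Reg X.S (.vec κ) f) :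
    Imp p (X.zer f hf) (X.lin f hf) ∧ Imp p (X.lin f hf) (X.zer f hf) := by
  have k : ∀ {cc d : Cd} (C : WD K cc) (W : ASp K d),
      AV p (C.prod (X.zer f hf)) W ↔ AV p (C.prod (X.lin f hf)) W := fun {cc d} C W => by
    have hf' : Reg (C.prod X).S (.vec κ) fun L x => f L x.2 :=
      fun _ _ R _ _ m m' e => hf R m.2 m'.2 e.2
    refine (av_of (E := (C.prod X).zer _ hf') (E' := C.prod (X.zer f hf)) (f := fun _ x => x)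
      (f' := fun _ x => x)
      ⟨⟨Reg.id _, fun _ _ m => ⟨⟨m.1, m.2.1⟩, m.2.2⟩⟩, ⟨Reg.id _, fun _ _ m => ⟨m.1.1, m.1.2, m.2⟩⟩,
        fun _ _ _ => rfl, fun _ _ _ => rfl⟩ fun _ _ _ => ⟨rfl, rfl⟩).trans
      (Iff.trans ⟨zer_lin _ hf', lin_zer _ hf'⟩ (av_of (E := C.prod (X.lin f hf))
        (E' := (C.prod X).lin _ hf') (f := fun _ x => (x.1.1, x.1.2, x.2))
        (f' := fun _ x => ((x.1, x.2.1), x.2.2))
        ⟨⟨fun _ _ _ _ _ _ _ e => ⟨e.1.1, e.1.2, e.2⟩, fun _ _ m => ⟨m.1.1, m.1.2, trivial⟩⟩,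
          ⟨fun _ _ _ _ _ _ _ e => ⟨⟨e.1, e.2.1⟩, e.2.2⟩, fun _ _ m => ⟨⟨m.1, m.2.1⟩, trivial⟩⟩,
          fun _ _ _ => rfl, fun _ _ _ => rfl⟩ fun _ _ _ => ⟨(add_assoc _ _ _).symm, rfl⟩))
  exact ⟨fun C W => (k C W).1, fun C W => (k C W).2⟩

theorem av_pt (C : WD K cc) : AV p (C.prod (Pt K)) W ↔ AV p C W :=
  av_of (f := fun _ x => x.1) (f' := fun _ x => (x, Empty.elim))
    ⟨⟨fun _ _ _ _ _ _ _ e => e.1, fun _ _ m => m.1⟩,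
      ⟨fun _ _ _ _ _ _ _ e => ⟨e, fun i => i.elim⟩, fun _ _ m => ⟨m, trivial⟩⟩,
      fun _ _ _ => Prod.ext rfl (funext fun i => i.elim), fun _ _ _ => rfl⟩
    fun _ _ _ => ⟨(add_zero _).symm, (mul_one _).symm⟩

theorem av_tor [a1 : FA1 K] [v2 : V2 K p] (C : WD K cc) (κ : Type) [Finite κ] (q : κ → Prop) :
    AV p C W ↔ AV p (C.prod (Tor K κ q)) W := by
  refine ⟨fun h i Ψ L x v y w => v2.up q Ψ (fun _ _ => True) (fun _ _ _ _ _ _ _ _ _ => trivial)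
    (fun j L M α T x v y w e hT _ _ => ?_) L x.1 x.2 v y w trivial, fun h j Φ L x v y w => ?_⟩
  · subst e
    obtain ⟨Φ, e⟩ := v2.down q Ψ
    exact (e L M α T x v y w hT).trans (h _ _ _ _ _ _ _)
  · obtain ⟨Ψ, e⟩ := v2.lift q Φ
    by_contra h0
    exact h0 ((e L _ _ _ x v y w (a1.fr_free κ (v1.mem Φ h0).1)).symm.trans (h _ _ _ _ _ _ _))

theorem tor [FA1 K] [V2 K p] (κ : Type) [Finite κ] (q : κ → Prop) :
    Imp p (Pt K) (Tor K κ q) ∧ Imp p (Tor K κ q) (Pt K) :=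
  ⟨fun C _ h => (av_tor C κ q).1 ((av_pt C).1 h), fun C _ h => (av_pt C).2 ((av_tor C κ q).2 h)⟩

theorem aff [FA1 K] [V2 K p] (d : Cd) : Imp p (Pt K) (Aff K d) ∧ Imp p (Aff K d) (Pt K) := by
  have k : ∀ {cc d' : Cd} (C : WD K cc) (W : ASp K d'),
      AV p (C.prod (Aff K d)) W ↔ AV p (C.prod (Tor K d.ι fun _ => False)) W := fun C W =>
    av_of (f := fun _ x => (x.1, d.co x.2)) (f' := fun _ x => (x.1, d.mk' x.2))
      ⟨⟨fun _ _ _ _ _ _ _ e => ⟨e.1, (d.lift_iff _ _ _).1 e.2⟩,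
          fun _ _ m => ⟨m.1, trivial, fun _ => False.elim⟩⟩,
        ⟨fun _ _ _ _ _ _ _ e => ⟨e.1, (d.lift_iff _ _ _).2 fun i => by
          rw [d.co_mk, d.co_mk]; exact e.2 i⟩, fun _ _ m => ⟨m.1, trivial⟩⟩,
        fun _ _ _ => Prod.ext rfl (d.inj (d.co_mk _)), fun _ _ _ => Prod.ext rfl (d.co_mk _)⟩
      fun _ _ _ => ⟨rfl, rfl⟩
  exact ⟨fun C W h => (k C W).2 ((tor _ _).1 C W h), fun C W h => (tor _ _).2 C W ((k C W).1 h)⟩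

end Pool.Agent.Lib.MP_557161_ag.HG.TW.V3l
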