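import Pool.Agent.Lib.MP_557161_ag.TW.Itf

/-!
Spaces with a phase and a weight, functionals that are odd in the auxiliary variable, and the
statements of the general tools.
-/

namespace Pool.Agent.Lib.MP_557161_ag.HG.TW

open Pool.Agent.Lib.MP_557161_ag.DL Matrix

variable {K : Type} [Field K] {c c' d cc : Cd}

/-- A space with a phase and a weight; the weight may vanish. -/
structure WD (K : Type) [Field K] (c : Cd) extends Ph K c where
  g : ∀ L : Fld K, c.X L → L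
  rg : Reg S .one g

namespace WD

variable (E : WD K c)

/-- The phase `φ + g v ^ 2`. -/
def v : Ph K (c.prod .one) where
  S := E.S.prod (.univ K .one)
  φ L x := E.φ L x.1 + E.g L x.1 * x.2 ^ 2
  reg _ _ R _ _ m m' e :=
    R.add (E.reg R m.1 m'.1 e.1) (R.mul (E.rg R m.1 m'.1 e.1) (Rel.pow e.2 2))

/-- The product. -/
def prod (E' : WD K d) : WD K (c.prod d) where
  S := E.S.prod E'.S
  φ L x := E.φ L x.1 + E'.φ L x.2
  reg _ _ R _ _ m m' e := R.add (E.reg R m.1 m'.1 e.1) (E'.reg R m.2 m'.2 e.2)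
  g L x := E.g L x.1 * E'.g L x.2
  rg _ _ R _ _ m m' e := R.mul (E.rg R m.1 m'.1 e.1) (E'.rg R m.2 m'.2 e.2)

/-- The restriction to a subspace. -/
def res (S' : ASp K c) (h : ∀ L x, S'.mem L x → E.S.mem L x) : WD K c :=
  ⟨E.toPh.res S' h, E.g, E.rg.mono h⟩

/-- A closed subspace. -/
def cl (q : ∀ L : Fld K, c.X L → Prop)
    (h : ∀ ⦃M L : Fld K⦄ (R : Rel M L) ⦃x : c.X M⦄ ⦃x' : c.X L⦄, E.S.mem M x → E.S.mem L x' →
      c.lift R.r x x' → q M x → q L x') : WD K c := E.res (E.S.cl q h) fun _ _ m => m.1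

/-- An open subspace. -/
def opn (q : ∀ L : Fld K, c.X L → Prop)
    (h : ∀ ⦃M L : Fld K⦄ (R : Rel M L) ⦃x : c.X M⦄ ⦃x' : c.X L⦄, E.S.mem M x → E.S.mem L x' →
      c.lift R.r x x' → q L x' → q M x) : WD K c := E.res (E.S.opn q h) fun _ _ m => m.1

/-- The complement of a closed subspace. -/
def cpl (q : ∀ L : Fld K, c.X L → Prop)
    (h : ∀ ⦃M L : Fld K⦄ (R : Rel M L) ⦃x : c.X M⦄ ⦃x' : c.X L⦄, E.S.mem M x → E.S.mem L x' →
      c.lift R.r x x' → q M x → q L x') : WD K c :=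
  E.opn (fun L x => ¬ q L x) fun _ _ R _ _ m m' e h' hq => h' (h R m m' e hq)

/-- The open subspace on which `u` does not vanish. -/
def nz (u : ∀ L : Fld K, c.X L → L) (hu : Reg E.S .one u) : WD K c :=
  E.opn (fun L x => u L x ≠ 0) fun _ _ R _ _ m m' e h => Rel.ne_zero (hu R m m' e) h

/-- A subspace of the product with an affine space, with an additional phase `ψ` and an additional
factor `h`. -/
def ext (T : ASp K (c.prod d)) (hT : ∀ L x, T.mem L x → E.S.mem L x.1)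
    (ψ h : ∀ L : Fld K, (c.prod d).X L → L) (hψ : Reg T .one ψ) (hh : Reg T .one h) :
    WD K (c.prod d) where
  S := T
  φ L x := E.φ L x.1 + ψ L x
  reg _ _ R _ _ m m' e := R.add (E.reg R (hT _ _ m) (hT _ _ m') e.1) (hψ R m m' e)
  g L x := E.g L x.1 * h L x
  rg _ _ R _ _ m m' e := R.mul (E.rg R (hT _ _ m) (hT _ _ m') e.1) (hh R m m' e)

variable {κ : Type} [Fintype κ] (f : ∀ L : Fld K, c.X L → κ → L) (hf : Reg E.S (.vec κ) f)

/-- The zero set of `f`. -/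
def zer : WD K c := ⟨E.toPh.zer f hf, E.g, E.rg.mono fun _ _ h => h.1⟩

/-- The product with an affine space, with a phase that is linear in the new variables. -/
def lin : WD K (c.prod (.vec κ)) :=
  ⟨E.toPh.lin f hf, fun L x => E.g L x.1, fun _ _ R _ _ m m' e => E.rg R m.1 m'.1 e.1⟩

/-- The product with an affine space, with a weight that is affine in the new variables. -/
def wlin : WD K (c.prod (.vec κ)) where
  S := E.S.prod (.univ K _)
  φ L x := E.φ L x.1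
  reg _ _ R _ _ m m' e := E.reg R m.1 m'.1 e.1
  g L x := E.g L x.1 + ∑ i, x.2 i * f L x.1 i
  rg _ _ R _ _ m m' e := R.add (E.rg R m.1 m'.1 e.1)
    (Rel.sum _ fun i _ => R.mul (e.2 i) (hf R m.1 m'.1 e.1 i))

end WD

/-- A space given by a set, a phase and a weight. -/
def mkW (S : ASp K c) (φ g : ∀ L : Fld K, c.X L → L) (hφ : Reg S .one φ) (hg : Reg S .one g) :
    WD K c := ⟨⟨S, φ, hφ⟩, g, hg⟩

/-- A set with phase `0` and weight `1`. -/
def triv (S : ASp K c) : WD K c :=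
  mkW S (fun _ _ => 0) (fun _ _ => 1) (fun _ _ R _ _ _ _ _ => R.zero) fun _ _ R _ _ _ _ _ => R.one

/-- The point. -/
def Pt (K : Type) [Field K] : WD K (.vec Empty) := triv (.univ K _)

/-- The coordinates with `q i` are invertible. -/
def torS (K : Type) [Field K] (κ : Type) [Finite κ] (q : κ → Prop) : ASp K (.vec κ) :=
  (ASp.univ K (.vec κ)).opn (fun _ x => ∀ i, q i → x i ≠ 0)
    fun _ _ _ _ _ _ _ e h i hi => Rel.ne_zero (e i) (h i hi)

/-- The product of a torus and an affine space. -/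
def Tor (K : Type) [Field K] (κ : Type) [Finite κ] (q : κ → Prop) : WD K (.vec κ) :=
  triv (torS K κ q)

/-- A product of Gauss sums. -/
def Gs (K : Type) [Field K] (κ : Type) [Fintype κ] : WD K (.vec κ) :=
  mkW (.univ K _) (fun _ x => ∑ i, x i) (fun _ x => ∏ i, x i)
    (fun _ _ _ _ _ _ _ e => Rel.sum _ fun i _ => e i) fun _ _ _ _ _ _ _ e => Rel.prod _ fun i _ => e i

/-- The matrix Gauss sum. -/
noncomputable def GLw (K : Type) [Field K] (m : Type) [Fintype m] [DecidableEq m] :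
    WD K (.mat m m) :=
  mkW (.univ K _) (fun _ x => x.trace) (fun _ x => x.det)
    (fun _ _ _ _ _ _ _ e => Rel.trace e) fun _ _ _ _ _ _ _ e => Rel.det e

/-- The invertible matrices. -/
noncomputable def GLo (K : Type) [Field K] (m : Type) [Fintype m] [DecidableEq m] :
    WD K (.mat m m) :=
  triv ((ASp.univ K (.mat m m)).opn (fun _ x => x.det ≠ 0)
    fun _ _ _ _ _ _ _ e h => Rel.ne_zero (Rel.det e) h)

/-- The affine space of a shape. -/
def Aff (K : Type) [Field K] (d : Cd) : WD K d := triv (.univ K d)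

/-- Functionals that are odd in the variable `v`. -/
structure ANF (p j : ℕ) (E : WD K c) (W : ASp K d) extends NF p j E.v W where
  anti : ∀ (L : Fld K) (x : c.X L) (v y : L) (w : d.X L),
    toNF.b L (x, -v) y w = -toNF.b L (x, v) y w

/-- The value of the functional. -/
abbrev ANF.e {p j : ℕ} {E : WD K c} {W : ASp K d} (Φ : ANF p j E W) (L : Fld K) (x : c.X L)
    (v y : L) (w : d.X L) : ℂ := Φ.toNF.b L (x, v) y w

/-- All odd functionals vanish. -/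
def AV (p : ℕ) (E : WD K c) (W : ASp K d) : Prop :=
  ∀ (j : ℕ) (Φ : ANF p j E W) (L : Fld K) (x : c.X L) (v y : L) (w : d.X L), Φ.e L x v y w = 0

/-- Vanishing for `X'` implies vanishing for `X`, in every context. -/
def Imp (p : ℕ) (X' : WD K c') (X : WD K c) : Prop :=
  ∀ {cc d : Cd} (C : WD K cc) (W : ASp K d), AV p (C.prod X') W → AV p (C.prod X) W

/-- Vanishing in every context. -/
def Dead (p : ℕ) (X : WD K c) : Prop :=
  ∀ {cc d : Cd} (C : WD K cc) (W : ASp K d), AV p (C.prod X) W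

lemma Imp.refl (p : ℕ) (X : WD K c) : Imp p X X := fun _ _ h => h

lemma Imp.trans {p : ℕ} {X₁ : WD K c} {X₂ : WD K c'} {X₃ : WD K d} (h : Imp p X₁ X₂)
    (h' : Imp p X₂ X₃) : Imp p X₁ X₃ := fun C W e => h' C W (h C W e)

lemma Dead.imp {p : ℕ} {X : WD K c} (h : Dead p X) (X' : WD K c') : Imp p X' X :=
  fun C W _ => h C W

/-- Maps that preserve the phase and the weight. -/
structure WEq (E' : WD K c') (E : WD K c) (f : ∀ L : Fld K, c'.X L → c.X L) : Prop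
    extends PMp E'.toPh E.toPh f where
  gg : ∀ L x, E'.S.mem L x → E.g L (f L x) = E'.g L x

/-- Maps that preserve the phase, and the weight up to a constant and the square of a unit. -/
structure WMp (E' : WD K c') (E : WD K c) (f : ∀ L : Fld K, c'.X L → c.X L)
    (h : ∀ L : Fld K, c'.X L → L) (a : K) : Prop extends PMp E'.toPh E.toPh f where
  rh : Reg E'.S .one h
  h0 : ∀ L x, E'.S.mem L x → h L x ≠ 0
  a0 : a ≠ 0
  gh : ∀ L x, E'.S.mem L x → E'.g L x = algebraMap K L a * (E.g L (f L x) * h L x ^ 2)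

/-- An action of the multiplicative group that rescales the weight by an odd power. -/
structure GmAct (E : WD K c) (γ : ∀ L : Fld K, (Cd.one.prod c).X L → c.X L) (k : ℤ) : Prop where
  mp : Mp ((ASp.gm K).prod E.S) E.S γ
  one : ∀ L x, E.S.mem L x → γ L (1, x) = x
  inv : ∀ (L : Fld K) (t : L) x, t ≠ 0 → E.S.mem L x → γ L (t⁻¹, γ L (t, x)) = x
  ph : ∀ (L : Fld K) (t : L) x, t ≠ 0 → E.S.mem L x → E.φ L (γ L (t, x)) = E.φ L x
  gg : ∀ (L : Fld K) (t : L) x, t ≠ 0 → E.S.mem L x → E.g L (γ L (t, x)) = t ^ k * E.g L x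
  odd : Odd k

/-- An action of the additive group that translates the phase. -/
structure GaAct (E : WD K c) (γ : ∀ L : Fld K, (Cd.one.prod c).X L → c.X L) : Prop where
  mp : Mp ((ASp.univ K .one).prod E.S) E.S γ
  zero : ∀ L x, E.S.mem L x → γ L (0, x) = x
  inv : ∀ (L : Fld K) (t : L) x, E.S.mem L x → γ L (-t, γ L (t, x)) = x
  ph : ∀ (L : Fld K) (t : L) x, E.S.mem L x → E.φ L (γ L (t, x)) = E.φ L x + t
  gg : ∀ (L : Fld K) (t : L) x, E.S.mem L x → E.g L (γ L (t, x)) = E.g L x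

/-- Basic operations on odd functionals. -/
class V1 (K : Type) [Field K] (p : ℕ) : Prop where
  mem : ∀ {c d : Cd} {E : WD K c} {W : ASp K d} {j : ℕ} (Φ : ANF p j E W) {L : Fld K} {x : c.X L}
    {v y : L} {w : d.X L}, Φ.e L x v y w ≠ 0 → Good j L ∧ E.S.mem L x ∧
      y ^ p - y = E.φ L x + E.g L x * v ^ 2 ∧ W.mem L w ∧ E.g L x ≠ 0 ∧ v ≠ 0
  map : ∀ {c d : Cd} {E : WD K c} {W : ASp K d} {j : ℕ} (Φ : ANF p j E W) {L L' : Fld K}
    (ι : L →ₐ[K] L') x v y w, Good j L → Good j L' →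
    (Φ.e L' (c.map ι x) (ι v) (ι y) (d.map ι w) = deg ι * Φ.e L x v y w ∧ (deg ι : ℂ) ≠ 0)
  pull : ∀ {c c' d : Cd} {E : WD K c} {E' : WD K c'} {W : ASp K d}
    {f : ∀ L : Fld K, c'.X L → c.X L}, WEq E' E f → Pro E'.S E.S f → ∀ {j : ℕ} (Φ : ANF p j E W),
    ∃ Φ' : ANF p j E' W, ∀ L x v y w, E'.S.mem L x → Φ'.e L x v y w = Φ.e L (f L x) v y w
  res : ∀ {c d : Cd} {E E' : WD K c} {W : ASp K d}, WEq E' E (fun _ x => x) →
    ∀ {j : ℕ} (Φ : ANF p j E W), (∀ L x v y w, Φ.e L x v y w ≠ 0 → E'.S.mem L x) →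
    ∃ Φ' : ANF p j E' W, ∀ L x v y w, Φ'.e L x v y w = Φ.e L x v y w
  ext : ∀ {c d : Cd} {E E' : WD K c} {W : ASp K d}, WEq E' E (fun _ x => x) → AOpn E'.S E.S →
    ∀ {j : ℕ} (Φ' : ANF p j E' W), ∃ Φ : ANF p j E W, ∀ L x v y w, Φ.e L x v y w = Φ'.e L x v y w
  emb : ∀ {c c' d : Cd} {E : WD K c} {E' : WD K c'} {W : ASp K d}
    {f : ∀ L : Fld K, c'.X L → c.X L} {f' : ∀ L : Fld K, c.X L → c'.X L} (U : ASp K c),
    WEq E' E f → Iso E'.S U f f' → AOpn U E.S → ∀ {j : ℕ} (Φ' : ANF p j E' W),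
    ∃ Φ : ANF p j E W, (∀ L x v y w, E'.S.mem L x → Φ.e L (f L x) v y w = Φ'.e L x v y w) ∧
      ∀ L x v y w, Φ.e L x v y w ≠ 0 → U.mem L x
  rst : ∀ {c c' d : Cd} {E : WD K c} {E' : WD K c'} {W : ASp K d}
    {f : ∀ L : Fld K, c'.X L → c.X L} {f' : ∀ L : Fld K, c.X L → c'.X L} (U : ASp K c),
    WEq E' E f → Iso E'.S U f f' → ∀ {j : ℕ} (Φ : ANF p j E W),
    (∀ L x v y w, Φ.e L x v y w ≠ 0 → U.mem L x) →
    ∃ Φ' : ANF p j E' W, ∀ L x v y w, E'.S.mem L x → Φ'.e L x v y w = Φ.e L (f L x) v y w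
  comb : ∀ {c d : Cd} {E : WD K c} {W : ASp K d} {j : ℕ} (a b : ℂ) (Φ Ψ : ANF p j E W),
    ∃ Θ : ANF p j E W, ∀ L x v y w, Θ.e L x v y w = a * Φ.e L x v y w + b * Ψ.e L x v y w
  desc : ∀ {c c' d : Cd} {E : WD K c} {E' : WD K c'} {W : ASp K d}
    {f : ∀ L : Fld K, c'.X L → c.X L}, WEq E' E f → Pro E'.S E.S f → Srj E'.S E.S f →
    ∀ {j : ℕ} (Φ' : ANF p j E' W), (∀ L x x' v y w, E'.S.mem L x → E'.S.mem L x' →
      f L x = f L x' → Φ'.e L x v y w = Φ'.e L x' v y w) →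
    ∃ Φ : ANF p j E W, ∀ L x v y w, E'.S.mem L x → Φ.e L (f L x) v y w = Φ'.e L x v y w
  gm : ∀ {c d : Cd} {E : WD K c} (W : ASp K d) {γ : ∀ L : Fld K, (Cd.one.prod c).X L → c.X L}
    {k : ℤ}, GmAct E γ k → AV p E W
  ga : ∀ {c d : Cd} {E : WD K c} (W : ASp K d) {γ : ∀ L : Fld K, (Cd.one.prod c).X L → c.X L},
    GaAct E γ → AV p E W
  strat : ∀ {c d : Cd} {E : WD K c} {W : ASp K d} (q : ∀ L : Fld K, c.X L → Prop) (h) {j : ℕ}
    (Φ : ANF p j E W), (∀ L x v y w, q L x → Φ.e L x v y w = 0) → AV p (E.cpl q h) W →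
    ∀ L x v y w, Φ.e L x v y w = 0

/-- Generic fibres of products with tori and affine spaces; weights that are affine. -/
class V2 (K : Type) [Field K] (p : ℕ) : Prop where
  hyp : ∀ {c d : Cd} {E : WD K c} {W : ASp K d} (γ : ∀ L : Fld K, (Cd.one.prod c).X L → c.X L)
    (ρ P : ∀ L : Fld K, c.X L → L), Mp ((ASp.univ K .one).prod E.S) E.S γ → Reg E.S .one ρ →
    Reg E.S .one P → (∀ (L : Fld K) (t : L) x, E.S.mem L x → γ L (0, x) = x ∧
      γ L (-t, γ L (t, x)) = x ∧ E.φ L (γ L (t, x)) = E.φ L x ∧ E.g L (γ L (t, x)) = E.g L x ∧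
      ρ L (γ L (t, x)) = ρ L x + t * P L x ∧ P L (γ L (t, x)) = P L x) →
    ∀ {j : ℕ} (Φ : ANF p j E W), (∀ L x v y w, ρ L x = 0 → P L x = 0 → Φ.e L x v y w = 0) →
    ∀ L x v y w, ρ L x = 0 → Φ.e L x v y w = 0
  lift : ∀ {c d : Cd} {E : WD K c} {W : ASp K d} {κ : Type} [Finite κ] (q : κ → Prop) {j : ℕ}
    (Φ : ANF p j E W), ∃ Ψ : ANF p (j + Nat.card κ) (E.prod (Tor K κ q)) W,
      ∀ (L M : Fld K) (α : L →ₐ[K] M) (T : κ → M) x v y w, Free j α T →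
        Ψ.e M (c.map α x, T) (α v) (α y) (d.map α w) = Φ.e L x v y w
  down : ∀ {c d : Cd} {E : WD K c} {W : ASp K d} {κ : Type} [Finite κ] (q : κ → Prop) {j : ℕ}
    (Ψ : ANF p (j + Nat.card κ) (E.prod (Tor K κ q)) W), ∃ Φ : ANF p j E W,
      ∀ (L M : Fld K) (α : L →ₐ[K] M) (T : κ → M) x v y w, Free j α T →
        Ψ.e M (c.map α x, T) (α v) (α y) (d.map α w) = Φ.e L x v y w
  up : ∀ {c d : Cd} {E : WD K c} {W : ASp K d} {κ : Type} [Finite κ] (q : κ → Prop) {i : ℕ}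
    (Ψ : ANF p i (E.prod (Tor K κ q)) W) (Z : ∀ L : Fld K, c.X L → Prop),
    (∀ ⦃M L : Fld K⦄ (R : Rel M L) ⦃x : c.X M⦄ ⦃x' : c.X L⦄, E.S.mem M x → E.S.mem L x' →
      c.lift R.r x x' → Z M x → Z L x') →
    (∀ (j : ℕ) (L M : Fld K) (α : L →ₐ[K] M) (T : κ → M) x v y w, i = j + Nat.card κ →
      Free j α T → E.S.mem L x → Z L x → Ψ.e M (c.map α x, T) (α v) (α y) (d.map α w) = 0) →
    ∀ L x t v y w, Z L x → Ψ.e L (x, t) v y w = 0
  ws5 : ∀ {c d : Cd} {E : WD K c} {W : ASp K d} {κ : Type} [Fintype κ]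
    (f : ∀ L : Fld K, c.X L → κ → L) (hf : Reg E.S (.vec κ) f) {j : ℕ}
    (Φ : ANF p j (E.zer f hf) W), ∃ Ψ : ANF p (j + Nat.card κ) (E.wlin f hf) W,
      ∀ (L M : Fld K) (α : L →ₐ[K] M) (T : κ → M) x v y w, Free j α T → (E.zer f hf).S.mem L x →
        Ψ.e M (c.map α x, T) (α v) (α y) (d.map α w) = (-1) ^ Nat.card κ * Φ.e L x v y w
  wuniq : ∀ {c d : Cd} {E : WD K c} {W : ASp K d} {κ : Type} [Fintype κ]
    (f : ∀ L : Fld K, c.X L → κ → L) (hf : Reg E.S (.vec κ) f) {i : ℕ}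
    (Ψ : ANF p i (E.wlin f hf) W),
    (∀ (j : ℕ) (L M : Fld K) (α : L →ₐ[K] M) (T : κ → M) x v y w, i = j + Nat.card κ →
      Free j α T → (E.zer f hf).S.mem L x → Ψ.e M (c.map α x, T) (α v) (α y) (d.map α w) = 0) →
    ∀ L x v y w, Ψ.e L x v y w = 0

/-- Implications between spaces. -/
class V3 (K : Type) [Field K] (p : ℕ) : Prop where
  img : ∀ {c c' : Cd} {X : WD K c} {X' : WD K c'} {f : ∀ L : Fld K, c'.X L → c.X L}
    {h : ∀ L : Fld K, c'.X L → L} {a : K}, WMp X' X f h a → Pro X'.S X.S f → Srj X'.S X.S f →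
    Imp p X' X
  iso : ∀ {c c' : Cd} {X : WD K c} {X' : WD K c'} {f : ∀ L : Fld K, c'.X L → c.X L}
    {f' : ∀ L : Fld K, c.X L → c'.X L} {h : ∀ L : Fld K, c'.X L → L} {a : K}, WMp X' X f h a →
    Iso X'.S X.S f f' → Imp p X' X ∧ Imp p X X'
  emb : ∀ {c c' : Cd} {X : WD K c} {X' : WD K c'} {f : ∀ L : Fld K, c'.X L → c.X L}
    {f' : ∀ L : Fld K, c.X L → c'.X L} {h : ∀ L : Fld K, c'.X L → L} {a : K} (U : ASp K c),
    WMp X' X f h a → Iso X'.S U f f' → AOpn U X.S → Imp p X X'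
  opn : ∀ {c : Cd} (X : WD K c) (q : ∀ L : Fld K, c.X L → Prop) (h), Imp p X (X.opn q h)
  strat : ∀ {c c' : Cd} {X : WD K c} {P : WD K c'} (q : ∀ L : Fld K, c.X L → Prop) (h),
    Imp p P (X.cl q h) → Imp p P (X.cpl q h) → Imp p P X
  nz : ∀ {c : Cd} (X : WD K c) (u : ∀ L : Fld K, c.X L → L) (hu : Reg X.S .one u),
    (∀ L x, X.S.mem L x → u L x = 0 → X.g L x = 0) → Imp p (X.nz u hu) X
  sub : ∀ {c : Cd} (X X' : WD K c), WEq X' X (fun _ x => x) →
    (∀ L x, X.S.mem L x → X.g L x ≠ 0 → X'.S.mem L x) → Imp p X' X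
  gm : ∀ {c : Cd} {X : WD K c} {γ : ∀ L : Fld K, (Cd.one.prod c).X L → c.X L} {k : ℤ},
    GmAct X γ k → Dead p X
  ga : ∀ {c : Cd} {X : WD K c} {γ : ∀ L : Fld K, (Cd.one.prod c).X L → c.X L},
    GaAct X γ → Dead p X
  lin : ∀ {c : Cd} (X : WD K c) {κ : Type} [Fintype κ] (f : ∀ L : Fld K, c.X L → κ → L)
    (hf : Reg X.S (.vec κ) f), Imp p (X.zer f hf) (X.lin f hf) ∧ Imp p (X.lin f hf) (X.zer f hf)
  prodL : ∀ {c c' d : Cd} {X : WD K c} {X' : WD K c'} (Y : WD K d), Imp p X' X →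
    Imp p (Y.prod X') (Y.prod X)
  prodR : ∀ {c c' d : Cd} {X : WD K c} {X' : WD K c'} (Y : WD K d), Imp p X' X →
    Imp p (X'.prod Y) (X.prod Y)
  comm : ∀ {c d : Cd} (X : WD K c) (Y : WD K d), Imp p (X.prod Y) (Y.prod X)
  assoc : ∀ {c c' d : Cd} (X : WD K c) (Y : WD K c') (Z : WD K d),
    Imp p ((X.prod Y).prod Z) (X.prod (Y.prod Z)) ∧ Imp p (X.prod (Y.prod Z)) ((X.prod Y).prod Z)
  pt : ∀ {c : Cd} (X : WD K c), Imp p X (X.prod (Pt K)) ∧ Imp p (X.prod (Pt K)) X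
  tor : ∀ (κ : Type) [Finite κ] (q : κ → Prop), Imp p (Pt K) (Tor K κ q) ∧ Imp p (Tor K κ q) (Pt K)
  aff : ∀ d : Cd, Imp p (Pt K) (Aff K d) ∧ Imp p (Aff K d) (Pt K)

/-- Gauss sums and general linear groups. -/
class V4 (K : Type) [Field K] (p : ℕ) : Prop where
  gg : ∀ (κ : Type) [Fintype κ], Even (Nat.card κ) → Imp p (Pt K) (Gs K κ) ∧ Imp p (Gs K κ) (Pt K)
  gsum : ∀ (κ κ' : Type) [Fintype κ] [Fintype κ'],
    Imp p (Gs K (κ ⊕ κ')) ((Gs K κ).prod (Gs K κ')) ∧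
      Imp p ((Gs K κ).prod (Gs K κ')) (Gs K (κ ⊕ κ'))
  base : ∀ {d : Cd} (W : ASp K d), AV p ((Gs K Unit).prod (Pt K)) W

/-- The matrix Gauss sum and the general linear group. -/
class V5 (K : Type) [Field K] (p : ℕ) : Prop where
  gl : ∀ (m : Type) [Fintype m] [DecidableEq m],
    Imp p (Gs K m) (GLw K m) ∧ Imp p (GLw K m) (Gs K m)
  glo : ∀ (m : Type) [Fintype m] [DecidableEq m],
    Imp p (Pt K) (GLo K m) ∧ Imp p (GLo K m) (Pt K)

end Pool.Agent.Lib.MP_557161_ag.HG.TW
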