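import Pool.Agent.Lib.MP_557161_ag.TW.StY

/-! The gradients of the equations of the surface are independent. -/

namespace Pool.Agent.Lib.MP_557161_ag.HG.TW.P2

open Pool.Agent.Lib.MP_557161_ag.DL MvPolynomial

namespace X0a

lemma core {L : Type} [Field L] {x0 x1 y0 y1 t0 t1 s0 s1 P Q P0 P1 Q0 Q1 : L} (two : (2 : L) ≠ 0)
    (hx : x0 ≠ 0 ∨ x1 ≠ 0) (hy : y0 ≠ 0 ∨ y1 ≠ 0) (ht : t0 ≠ 0 ∨ t1 ≠ 0) (hs : s0 ≠ 0 ∨ s1 ≠ 0)
    (hP : P = 0 → P0 ≠ 0 ∨ P1 ≠ 0) (hQ : Q = 0 → Q0 ≠ 0 ∨ Q1 ≠ 0)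
    (hd : x0 * y1 - x1 * y0 = 0 → P = 0 → Q = 0 → False)
    (e0 : t1 * s1 - (x0 * y1 - x1 * y0) * t0 * s0 = 0) (e1 : t1 * s0 * P - s1 * t0 * Q = 0)
    (m : s1 * -(t0 * Q) - t1 * (s0 * P) = 0)
    (a0 : s1 * (t1 * s0 * P0) - -(y1 * t0 * s0) * (s0 * P) = 0)
    (a1 : s1 * (t1 * s0 * P1) - (y0 * t0 * s0) * (s0 * P) = 0)
    (b0 : s1 * -(s1 * t0 * Q0) - (x1 * t0 * s0) * (s0 * P) = 0)
    (b1 : s1 * -(s1 * t0 * Q1) - -(x0 * t0 * s0) * (s0 * P) = 0)
    (c0 : t1 * (t1 * s0 * P0) - -(y1 * t0 * s0) * -(t0 * Q) = 0)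
    (c1 : t1 * (t1 * s0 * P1) - (y0 * t0 * s0) * -(t0 * Q) = 0)
    (d0 : t1 * -(s1 * t0 * Q0) - (x1 * t0 * s0) * -(t0 * Q) = 0)
    (d1 : t1 * -(s1 * t0 * Q1) - -(x0 * t0 * s0) * -(t0 * Q) = 0) : False := by
  have h1 : s1 * t0 * Q = 0 := mul_left_cancel₀ two (by linear_combination -m - e1)
  have h2 : t1 * s0 * P = 0 := by linear_combination e1 + h1
  have z : ∀ {a b c : L}, a ≠ 0 ∨ b ≠ 0 → a * c = 0 → b * c = 0 → c = 0 := fun h k k' =>
    h.elim (fun h => (mul_eq_zero.1 k).resolve_left h) fun h => (mul_eq_zero.1 k').resolve_left h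
  by_cases k1 : t1 = 0
  · subst k1
    have k0 : t0 ≠ 0 := by simpa using ht
    by_cases l0 : s0 = 0
    · subst l0
      have l1 : s1 ≠ 0 := by simpa using hs
      have := z (c := s1 * s1 * t0) (hQ (by simpa [k0, l1] using h1)) (by linear_combination -b0)
        (by linear_combination -b1)
      simp [k0, l1] at this
    · have := z (c := t0 * s0 * s0 * P) hy (by linear_combination -a1) (by linear_combination a0)
      have h3 := z (c := t0 * s0 * t0 * Q) hy (by linear_combination c1) (by linear_combination -c0)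
      exact hd (by simpa [k0, l0] using e0) (by simpa [k0, l0] using this)
        (by simpa [k0, l0] using h3)
  · by_cases l0 : s0 = 0
    · subst l0
      exact mul_ne_zero k1 (by simpa using hs) (by linear_combination e0)
    have q : P = 0 := by simpa [k1, l0] using h2
    by_cases l1 : s1 = 0
    · subst l1
      by_cases k0 : t0 = 0
      · subst k0
        have := z (c := t1 * t1 * s0) (hP q) (by linear_combination c0) (by linear_combination c1)
        simp [k1, l0] at this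
      · have := z (c := t0 * s0 * t0 * Q) hx (by linear_combination -d1) (by linear_combination d0)
        exact hd (by simpa [k0, l0] using e0) q (by simpa [k0, l0] using this)
    · subst q
      have := z (c := s1 * t1 * s0) (hP rfl) (by linear_combination a0) (by linear_combination a1)
      simp [k1, l0, l1] at this

lemma lin2 {L : Type} [Field L] {p q p' q' U V U' V' : L} (h : p * q' - p' * q ≠ 0)
    (e : p * U - q * V = 0) (e' : p' * U' - q' * V' = 0) (d : U * V' - V * U' = 0)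
    (n : U ≠ 0 ∨ V ≠ 0) (n' : U' ≠ 0 ∨ V' ≠ 0) : False := by
  have h1 : U * U' = 0 :=
    mul_left_cancel₀ h (by linear_combination q' * U' * e - q * U * e' - q * q' * d)
  have h2 : U * V' = 0 :=
    mul_left_cancel₀ h (by linear_combination q' * V' * e - q * V * e' - p' * q * d)
  have h3 : V * U' = 0 := by linear_combination h2 - d
  have h4 : V * V' = 0 :=
    mul_left_cancel₀ h (by linear_combination p' * V' * e - p * V * e' - p * p' * d)
  rcases n with n | n <;> rcases n' with n' | n'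
  exacts [mul_ne_zero n n' h1, mul_ne_zero n n' h2, mul_ne_zero n n' h3, mul_ne_zero n n' h4]

variable {K : Type} [Field K] (G : GD K) {L : Type} [Field L] [Algebra K L]

/-- A linear form. -/
noncomputable def lf (z : K × K) : MvPolynomial (Fin 2) K := C z.1 * G.uu - C z.2 * G.vv

/-- The determinant of two linear forms. -/
def cr (z z' : K × K) : K := z.1 * z'.2 - z'.1 * z.2

lemma uv_ne {x : Fin 2 → L} (hx : x 0 ≠ 0 ∨ x 1 ≠ 0) :
    aeval x G.uu ≠ 0 ∨ aeval x G.vv ≠ 0 := by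
  by_contra h
  have d := congrArg (algebraMap K L) G.det
  simp only [not_or, not_not, GD.uu, GD.vv, map_sub, map_mul, aeval_X, aeval_C, dt, map_one] at h d
  rcases hx with k | k
  · exact k (by linear_combination (algebraMap K L (G.β 0)) * h.1 +
      (algebraMap K L (G.α 0)) * h.2 - x 0 * d)
  · exact k (by linear_combination (algebraMap K L (G.β 1)) * h.1 +
      (algebraMap K L (G.α 1)) * h.2 - x 1 * d)

lemma two_roots {z z' : K × K} (h : cr z z' ≠ 0) {x y : Fin 2 → L} (hx : x 0 ≠ 0 ∨ x 1 ≠ 0)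
    (hy : y 0 ≠ 0 ∨ y 1 ≠ 0) (d : x 0 * y 1 - x 1 * y 0 = 0) (e : aeval x (lf G z) = 0)
    (e' : aeval y (lf G z') = 0) : False := by
  have h' := (map_ne_zero (algebraMap K L)).2 h
  simp only [lf, cr, map_sub, map_mul, aeval_C] at e e' h'
  refine lin2 h' e e' ?_ (uv_ne G hx) (uv_ne G hy)
  simp only [GD.uu, GD.vv, map_sub, map_mul, aeval_X, aeval_C]
  linear_combination (algebraMap K L (G.β 0) * algebraMap K L (G.α 1) -
    algebraMap K L (G.β 1) * algebraMap K L (G.α 0)) * d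

lemma grad {z : K × K} (h : z.1 ≠ 0 ∨ z.2 ≠ 0) (x : Fin 2 → L) :
    aeval x (pderiv 0 (lf G z)) ≠ 0 ∨ aeval x (pderiv 1 (lf G z)) ≠ 0 := by
  by_contra k
  have d := G.det
  have e0 : pderiv 0 (lf G z) = C (z.1 * G.α 1 + z.2 * G.β 1) := by
    simp [lf, GD.uu, GD.vv, pderiv_X]
  have e1 : pderiv 1 (lf G z) = C (-(z.1 * G.α 0 + z.2 * G.β 0)) := by
    simp [lf, GD.uu, GD.vv, pderiv_X]
    ring
  simp only [e0, e1, aeval_C, not_or, not_not, map_eq_zero, dt] at k d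
  rcases h with h | h
  · exact h (by linear_combination G.β 0 * k.1 + G.β 1 * k.2 - z.1 * d)
  · exact h (by linear_combination -G.α 0 * k.1 - G.α 1 * k.2 - z.2 * d)

lemma simple {ι : Type} [Fintype ι] {c : K} (hc : c ≠ 0) {z : ι → K × K}
    (h : ∀ i j, i ≠ j → cr (z i) (z j) ≠ 0) (h0 : ∀ i, (z i).1 ≠ 0 ∨ (z i).2 ≠ 0) {x : Fin 2 → L}
    (hx : x 0 ≠ 0 ∨ x 1 ≠ 0) (e : aeval x (C c * ∏ i, lf G (z i)) = 0) :
    aeval x (pderiv 0 (C c * ∏ i, lf G (z i))) ≠ 0 ∨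
      aeval x (pderiv 1 (C c * ∏ i, lf G (z i))) ≠ 0 := by
  classical
  have hc' := (map_ne_zero (algebraMap K L)).2 hc
  rw [map_mul, aeval_C, map_prod, mul_eq_zero, Finset.prod_eq_zero_iff] at e
  obtain ⟨i, hi, e⟩ := e.resolve_left hc'
  have n : aeval x (∏ j ∈ Finset.univ.erase i, lf G (z j)) ≠ 0 := by
    rw [map_prod]
    exact Finset.prod_ne_zero_iff.2 fun j hj e' =>
      two_roots G (h j i (Finset.ne_of_mem_erase hj)) hx hx (by ring) e' e
  simp only [← Finset.mul_prod_erase _ _ hi, pderiv_mul, pderiv_C, map_mul, map_add, e, aeval_C,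
    zero_mul, add_zero, zero_add]
  exact (grad G (h0 i) x).imp (fun k => mul_ne_zero hc' (mul_ne_zero k n))
    fun k => mul_ne_zero hc' (mul_ne_zero k n)

/-- The factors of the first form. -/
def zP (o : Option (Fin (2 * G.g))) : K × K := o.elim (1, 0) fun i => (1, G.a i)

/-- The factors of the second form. -/
def zQ (o : Option (Fin (2 * G.h))) : K × K := o.elim (0, -1) fun i => (1, G.b i)

lemma FP_eq : G.FP = C G.c1 * ∏ o, lf G (zP G o) := by
  simp [Fintype.prod_option, GD.FP, lf, zP, mul_assoc]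

lemma FQ_eq : G.FQ = C G.c2 * ∏ o, lf G (zQ G o) := by
  simp [Fintype.prod_option, GD.FQ, lf, zQ, mul_assoc]

lemma c1_ne : G.c1 ≠ 0 := left_ne_zero_of_mul (G.cc ▸ G.c0)

lemma c2_ne : G.c2 ≠ 0 := right_ne_zero_of_mul (G.cc ▸ G.c0)

lemma simP {x : Fin 2 → L} (hx : x 0 ≠ 0 ∨ x 1 ≠ 0) (e : aeval x G.FP = 0) :
    aeval x (pderiv 0 G.FP) ≠ 0 ∨ aeval x (pderiv 1 G.FP) ≠ 0 := by
  rw [FP_eq] at e ⊢
  refine simple G (c1_ne G) (fun i j n => ?_) (fun i => ?_) hx e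
  · cases i <;> cases j <;> simp [cr, zP, G.a0, sub_eq_zero, G.ai.eq_iff] at n ⊢
    exact Ne.symm n
  · cases i <;> simp [zP]

lemma simQ {x : Fin 2 → L} (hx : x 0 ≠ 0 ∨ x 1 ≠ 0) (e : aeval x G.FQ = 0) :
    aeval x (pderiv 0 G.FQ) ≠ 0 ∨ aeval x (pderiv 1 G.FQ) ≠ 0 := by
  rw [FQ_eq] at e ⊢
  refine simple G (c2_ne G) (fun i j n => ?_) (fun i => ?_) hx e
  · cases i <;> cases j <;> simp [cr, zQ, sub_eq_zero, G.bi.eq_iff] at n ⊢
    exact Ne.symm n
  · cases i <;> simp [zQ]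

lemma nocom {x y : Fin 2 → L} (hx : x 0 ≠ 0 ∨ x 1 ≠ 0) (hy : y 0 ≠ 0 ∨ y 1 ≠ 0)
    (d : x 0 * y 1 - x 1 * y 0 = 0) (e : aeval x G.FP = 0) (e' : aeval y G.FQ = 0) : False := by
  rw [FP_eq, map_mul, aeval_C, map_prod, mul_eq_zero, Finset.prod_eq_zero_iff] at e
  rw [FQ_eq, map_mul, aeval_C, map_prod, mul_eq_zero, Finset.prod_eq_zero_iff] at e'
  obtain ⟨i, -, e⟩ := e.resolve_left ((map_ne_zero _).2 (c1_ne G))
  obtain ⟨j, -, e'⟩ := e'.resolve_left ((map_ne_zero _).2 (c2_ne G))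
  refine two_roots G ?_ hx hy d e e'
  cases i <;> cases j <;> simp [cr, zP, zQ, G.b0, sub_eq_zero, (G.ab _ _).symm]

lemma pd_ne {s s' : Tr} (h : s ≠ s') (i : Fin 2) (P : MvPolynomial (Fin 2) K) :
    pderiv (s', i) (rename (Prod.mk s) P) = 0 := by
  induction P using MvPolynomial.induction_on with
  | C a => simp
  | add p q hp hq => simp [hp, hq]
  | mul_X p j hp => simp [hp, pderiv_X, h]

lemma pd_eq (s : Tr) (i : Fin 2) (P : MvPolynomial (Fin 2) K) :
    pderiv (s, i) (rename (Prod.mk s) P) = rename (Prod.mk s) (pderiv i P) :=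
  pderiv_rename (Prod.mk_right_injective s) i P

end X0a

open X0a in
theorem X0_thm {K : Type} [Field K] : X0 K where
  sm G L w h := by
    by_contra hn
    simp only [not_exists, not_not, mnr] at hn
    have nz : ∀ s, w (s, 0) ≠ 0 ∨ w (s, 1) ≠ 0 := fun s => by
      obtain ⟨⟨s', i⟩, rfl, k⟩ := G.Γ.nz_iff.1 h.1 s
      fin_cases i
      exacts [Or.inl k, Or.inr k]
    have two : (2 : L) ≠ 0 := by simpa only [map_ofNat] using (map_ne_zero (algebraMap K L)).2 G.two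
    have p : ∀ s, (w ∘ Prod.mk s) = pc w s := fun _ => rfl
    have r : G.row L w 0 (2, 1) = w (3, 1) ∧ G.row L w 0 (3, 1) = w (2, 1) ∧
        G.row L w 0 (0, 0) = -(w (1, 1) * w (2, 0) * w (3, 0)) ∧
        G.row L w 0 (0, 1) = w (1, 0) * w (2, 0) * w (3, 0) ∧
        G.row L w 0 (1, 0) = w (0, 1) * w (2, 0) * w (3, 0) ∧
        G.row L w 0 (1, 1) = -(w (0, 0) * w (2, 0) * w (3, 0)) := by
      simp [GD.row, eqs, dt, pc, pderiv_X, mul_comm, mul_left_comm]
    have r' : G.row L w 1 (2, 1) = w (3, 0) * aeval (pc w 0) G.FP ∧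
        G.row L w 1 (3, 1) = -(w (2, 0) * aeval (pc w 1) G.FQ) ∧
        (∀ i, G.row L w 1 (0, i) = w (2, 1) * w (3, 0) * aeval (pc w 0) (pderiv i G.FP)) ∧
        ∀ i, G.row L w 1 (1, i) = -(w (3, 1) * w (2, 0) * aeval (pc w 1) (pderiv i G.FQ)) := by
      simp [GD.row, eqs, pderiv_X, pd_ne, pd_eq, aeval_rename, p, mul_comm, mul_left_comm]
    refine core two (nz 0) (nz 1) (nz 2) (nz 3) (simP G (x := pc w 0) (nz 0))
      (simQ G (x := pc w 1) (nz 1)) (nocom G (x := pc w 0) (y := pc w 1) (nz 0) (nz 1))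
      ((eqs0 _ _ w).symm.trans (h.2 0)) ((eqs1 _ _ w).symm.trans (h.2 1)) ?_ ?_ ?_ ?_ ?_ ?_ ?_ ?_ ?_
    · simpa only [r, r'] using hn (2, 1) (3, 1)
    · simpa only [r, r'] using hn (2, 1) (0, 0)
    · simpa only [r, r'] using hn (2, 1) (0, 1)
    · simpa only [r, r'] using hn (2, 1) (1, 0)
    · simpa only [r, r'] using hn (2, 1) (1, 1)
    · simpa only [r, r'] using hn (3, 1) (0, 0)
    · simpa only [r, r'] using hn (3, 1) (0, 1)
    · simpa only [r, r'] using hn (3, 1) (1, 0)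
    · simpa only [r, r'] using hn (3, 1) (1, 1)

end Pool.Agent.Lib.MP_557161_ag.HG.TW.P2
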