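import Pool.Agent.Lib.MP_557161_ag.TW.StY

/-!
The ideal of the surface.
-/

namespace Pool.Agent.Lib.MP_557161_ag.HG.TW.P2

open Pool.Agent.Lib.MP_557161_ag.DL MvPolynomial

namespace XJa

variable {k : Type} [Field k] {g h : ℕ} {P Q : MvPolynomial (Fin 2) k} {B B' : Type} [CommRing B]
  [Algebra k B] [CommRing B']

omit [Algebra k B] in
theorem map_mon (π : B →+* B') (x y : Fin 2 → B) (a b c d : B) (i : Ix g h) :
    π (mon x y ![a, b] ![c, d] i) =
      mon (fun l => π (x l)) (fun l => π (y l)) ![π a, π b] ![π c, π d] i := by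
  obtain ⟨m | m, n | n, i, j⟩ := i <;> simp [mon]

variable (g h P Q) in
/-- The coordinates of the point `(x, y, z)`. -/
noncomputable def vp (x y : Fin 2 → B) (z : B) : Ix g h → B := mon x y ![aeval x P, z] ![aeval y Q, z]

/-- The point `(x, y, z)`. -/
def pt (x y : Fin 2 → B) (z : B) (s : Option (Fin 2 ⊕ Fin 2)) : B := s.elim z (Sum.elim x y)

theorem map_vp [Algebra k B'] (π : B →ₐ[k] B') (x y : Fin 2 → B) (z : B) (s : Ix g h) :
    π (vp g h P Q x y z s) = vp g h P Q (fun i => π (x i)) (fun i => π (y i)) (π z) s := by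
  rw [vp, vp, ← comp_aeval_apply, ← comp_aeval_apply]
  exact map_mon π.toRingHom _ _ _ _ _ _ s

theorem aeval_twN (x y : Fin 2 → B) (z : B) (f : MvPolynomial (Ix g h) k) :
    aeval (pt x y z) (aeval (twN g h P Q) f) = aeval (vp g h P Q x y z) f := by
  rw [comp_aeval_apply]
  congr 2
  funext s
  refine (map_vp (aeval (pt x y z)) vx vy (X none) s).trans ?_
  simp only [vx, vy, aeval_X]
  rfl

theorem aeval_twF (x y : Fin 2 → B) (z : B) :
    aeval (pt x y z) (twF P Q) = z ^ 2 - dt x y * aeval x P * aeval y Q := by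
  simp only [twF, map_sub, map_mul, map_pow, comp_aeval_apply, vx, vy, aeval_X]
  rfl

theorem vp_mem {x y : Fin 2 → B} {z : B} (e : z ^ 2 = dt x y * aeval x P * aeval y Q) {f}
    (hf : f ∈ twI g h P Q) : aeval (vp g h P Q x y z) f = 0 := by
  obtain ⟨a, ha⟩ := Ideal.mem_span_singleton'.1 (Ideal.mem_comap.1 hf)
  rw [← aeval_twN, ← ha, map_mul, aeval_twF, e, sub_self, mul_zero]

theorem mem_of {f} (e : ∀ (B : Type) [CommRing B] [Algebra k B] (x y : Fin 2 → B) (z : B),
    z ^ 2 = dt x y * aeval x P * aeval y Q → aeval (vp g h P Q x y z) f = 0) :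
    f ∈ twI g h P Q := by
  let J : Ideal (Rz k) := Ideal.span {twF P Q}
  have e1 : aeval (pt (fun i => Ideal.Quotient.mk J (vx i)) (fun i => Ideal.Quotient.mk J (vy i))
      (Ideal.Quotient.mk J (X none))) = Ideal.Quotient.mkₐ k J :=
    algHom_ext fun s => by rcases s with _ | s | s <;> exact aeval_X _ _
  have := e _ (fun i => Ideal.Quotient.mk J (vx i)) (fun i => Ideal.Quotient.mk J (vy i))
    (Ideal.Quotient.mk J (X none)) (by
      rw [← sub_eq_zero, ← aeval_twF, e1]
      exact Ideal.Quotient.eq_zero_iff_mem.2 (Ideal.subset_span rfl))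
  rw [← aeval_twN, e1] at this
  exact Ideal.mem_comap.2 ((Ideal.Quotient.eq_zero_iff_mem (I := J)).1 this)

theorem aeval_smul {σ : Type} {f : MvPolynomial σ k} {n : ℕ} (hf : f.IsHomogeneous n) (c : B)
    (x : σ → B) : aeval (c • x) f = c ^ n * aeval x f := by
  rw [aeval_def, aeval_def, eval₂_eq, eval₂_eq, Finset.mul_sum]
  refine Finset.sum_congr rfl fun d hd => ?_
  simp only [Pi.smul_apply, smul_eq_mul, mul_pow, Finset.prod_mul_distrib,
    Finset.prod_pow_eq_pow_sum]
  rw [← hf.degree_eq_sum_deg_support hd]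
  ring

theorem vp_smul (hP : P.IsHomogeneous (2 * g + 1)) (hQ : Q.IsHomogeneous (2 * h + 1)) (c : B)
    (x y : Fin 2 → B) (z : B) : vp g h P Q (c • x) (c • y) (c ^ (g + h + 2) * z) =
      c ^ (3 * g + 3 * h + 6) • vp g h P Q x y z := funext fun s => by
  obtain ⟨m | m, n | n, i, j⟩ := s <;>
    simp [vp, mon, aeval_smul hP, aeval_smul hQ, Finset.prod_mul_distrib] <;> ring

theorem hom (hP : P.IsHomogeneous (2 * g + 1)) (hQ : Q.IsHomogeneous (2 * h + 1)) :
    Homog (twI g h P Q) := by
  intro f hf n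
  refine mem_of fun B _ _ x y z e => ?_
  let π : B →ₐ[k] Polynomial B := Polynomial.CAlgHom
  have h1 := vp_mem (x := (Polynomial.X : Polynomial B) • fun i => π (x i))
    (y := (Polynomial.X : Polynomial B) • fun i => π (y i))
    (z := Polynomial.X ^ (g + h + 2) * π z) (by
      have := congrArg π e
      simp only [map_pow, map_mul, map_sub, dt, comp_aeval_apply] at this
      simp only [aeval_smul hP, aeval_smul hQ, mul_pow, this, dt, Pi.smul_apply, smul_eq_mul]
      ring) hf
  rw [vp_smul hP hQ, ← sum_homogeneousComponent f, map_sum] at h1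
  have h2 : ∀ i, aeval ((Polynomial.X : Polynomial B) ^ (3 * g + 3 * h + 6) •
      vp g h P Q (fun i => π (x i)) (fun i => π (y i)) (π z)) (homogeneousComponent i f) =
      Polynomial.monomial ((3 * g + 3 * h + 6) * i)
        (aeval (vp g h P Q x y z) (homogeneousComponent i f)) := fun i => by
    rw [aeval_smul (homogeneousComponent_isHomogeneous i f), ← funext (map_vp π x y z),
      ← pow_mul, ← Polynomial.C_mul_X_pow_eq_monomial, mul_comm, ← comp_aeval_apply]
    rfl
  have h3 := congrArg (Polynomial.coeff · ((3 * g + 3 * h + 6) * n)) h1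
  simp only [h2, Polynomial.finsetSum_coeff, Polynomial.coeff_monomial,
    Nat.mul_right_inj (Nat.succ_ne_zero _), Finset.sum_ite_eq', Polynomial.coeff_zero] at h3
  split_ifs at h3 with h4
  · exact h3
  · rw [homogeneousComponent_eq_zero _ _ (by simpa using h4), map_zero]

section Up

variable {K : Type} [Field K] [Algebra k K]

theorem co_C {σ : Type} (φ : K →ₗ[k] k) (c : K) :
    T0.co φ (C c : MvPolynomial σ K) = C (φ c) := by
  classical
  ext m
  rw [T0.coeff_co, coeff_C, coeff_C]
  split_ifs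
  exacts [rfl, map_zero φ]

theorem up_aeval {σ τ : Type} (x : σ → MvPolynomial τ k) (f : MvPolynomial σ k) :
    T0.up K (aeval x f) = aeval (fun i => T0.up K (x i)) (T0.up K f) := by
  induction f using MvPolynomial.induction_on with
  | C c => simp
  | add f g hf hg => simp only [map_add, hf, hg]
  | mul_X f s hf => simp only [map_mul, hf, map_X, aeval_X]

theorem co_aeval {σ τ : Type} (x : σ → MvPolynomial τ k) (φ : K →ₗ[k] k) (f : MvPolynomial σ K) :
    T0.co φ (aeval (fun i => T0.up K (x i)) f) = aeval x (T0.co φ f) := by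
  induction f using MvPolynomial.induction_on' with
  | monomial m c =>
    rw [show monomial m c = T0.up K (monomial m (1 : k)) * C c by
      rw [map_monomial, map_one, mul_comm, C_mul_monomial, mul_one], map_mul, ← up_aeval, algHom_C,
      algebraMap_eq, T0.co_mul, T0.co_mul, co_C, co_C, map_mul, algHom_C, algebraMap_eq]
  | add f g hf hg => simp only [map_add, hf, hg]

theorem up (g h : ℕ) (P Q : MvPolynomial (Fin 2) k) :
    (twI g h P Q).map (T0.up K) = twI g h (T0.up K P) (T0.up K Q) := by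
  ext f
  have e1 : Ideal.span {twF (T0.up K P) (T0.up K Q)} = (Ideal.span {twF P Q}).map (T0.up K) := by
    rw [Ideal.map_span, Set.image_singleton]
    simp only [twF, map_sub, map_mul, map_pow, up_aeval, vx, vy, map_X]
    rfl
  have e2 : twN g h (T0.up K P) (T0.up K Q) = fun s => T0.up K (twN g h P Q s) := by
    simp only [twN, map_mon, up_aeval, vx, vy, map_X]
    rfl
  simp only [twI, T0.mem_up, e1, e2, Ideal.mem_comap, co_aeval]

end Up

theorem not_sq (hP : P ≠ 0) (hQ : Q ≠ 0) (a : MvPolynomial (Fin 2 ⊕ Fin 2) k) :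
    a ^ 2 ≠ dt (fun i => X (.inl i)) (fun i => X (.inr i)) *
      (aeval (fun i => X (.inl i)) P * aeval (fun i => X (.inr i)) Q) := fun e => by
  let φ : MvPolynomial (Fin 2 ⊕ Fin 2) k →ₐ[k] MvPolynomial (Fin 2) k := aeval (Sum.elim X X)
  have h0 : φ (dt (fun i => X (.inl i)) (fun i => X (.inr i))) = 0 := by simp [φ, dt, mul_comm]
  have h1 : φ a = 0 := pow_eq_zero_iff two_ne_zero |>.1 (by rw [← map_pow, e, map_mul, h0, zero_mul])
  have h2 := congrArg (fun f => φ (pderiv (.inr 1) f)) e
  simp only [sq, Derivation.leibniz _ a, Derivation.leibniz _ (dt _ _), smul_eq_mul, map_add,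
    map_mul, h0, h1, zero_mul, add_zero, zero_add, comp_aeval_apply] at h2
  simp [φ, dt, hP, hQ, pderiv_X] at h2

theorem prime_twF (hP : P ≠ 0) (hQ : Q ≠ 0) : Prime (twF P Q) := by
  set D : MvPolynomial (Fin 2 ⊕ Fin 2) k := dt (fun i => X (.inl i)) (fun i => X (.inr i)) *
    (aeval (fun i => X (.inl i)) P * aeval (fun i => X (.inr i)) Q) with hD
  let f : Polynomial (MvPolynomial (Fin 2 ⊕ Fin 2) k) := Polynomial.X ^ 2 - Polynomial.C D
  have hm : f.Monic := Polynomial.monic_X_pow_sub_C D two_ne_zero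
  have hn : f.natDegree = 2 := Polynomial.natDegree_X_pow_sub_C
  have hp : Prime f := ((hm.irreducible_iff_roots_eq_zero_of_degree_le_three hn.ge
    (by omega)).2 (Multiset.eq_zero_of_forall_notMem fun a ha => not_sq hP hQ a (hD ▸ by
      simpa [f, sub_eq_zero] using (Polynomial.mem_roots hm.ne_zero).1 ha))).prime
  refine (MulEquiv.prime_iff (optionEquivLeft k (Fin 2 ⊕ Fin 2))).1 ?_
  convert hp using 1
  have e1 := comp_aeval_apply (R := k) (φ := (optionEquivLeft k (Fin 2 ⊕ Fin 2)).toAlgHom)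
    (σ := Fin 2)
  have e2 := comp_aeval_apply (R := k) (σ := Fin 2)
    (φ := Polynomial.CAlgHom (R := k) (A := MvPolynomial (Fin 2 ⊕ Fin 2) k))
  simp only [AlgEquiv.toAlgHom_apply, Polynomial.CAlgHom_apply] at e1 e2
  simp only [f, hD, twF, dt, map_sub, map_mul, map_pow, e1, e2, vx, vy, optionEquivLeft_X_some,
    optionEquivLeft_X_none, mul_assoc]

end XJa

theorem XJ_thm : XJ :=
  ⟨XJa.hom, XJa.up, fun _ _ _ _ hP hQ =>
    have := (Ideal.span_singleton_prime (XJa.prime_twF hP hQ).ne_zero).2 (XJa.prime_twF hP hQ)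
    Ideal.comap_isPrime _ _⟩

end Pool.Agent.Lib.MP_557161_ag.HG.TW.P2
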