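import Pool.Agent.Lib.MP_557161_ag.TW.StV

/-!
The specialisation to the normal cone of the diagonal.
-/

namespace Pool.Agent.Lib.MP_557161_ag.HG.TW.P2

open Pool.Agent.Lib.MP_557161_ag.DL MvPolynomial

namespace YDa

variable {K : Type} [Field K] {d : Cd} {G : GD K}

/-- The value of an equation of the deformation space. -/
noncomputable abbrev ev (H : MvPolynomial ((Vr ⊕ Vr) ⊕ Unit) K)
    {L : Fld K} (y v : Vr → L) (t : L) : L :=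
  aeval (Sum.elim (Sum.elim y v) fun _ => t) H

lemma ev_rel (H : MvPolynomial ((Vr ⊕ Vr) ⊕ Unit) K) {M L : Fld K} {R : Rel M L} {y v : Vr → M}
    {y' v' : Vr → L} {t : M} {t' : L} (e : ∀ l, R.r (y l) (y' l)) (e' : ∀ l, R.r (v l) (v' l))
    (e'' : R.r t t') : R.r (ev H y v t) (ev H y' v' t') :=
  Rel.aeval (by
    rintro ((μ | μ) | μ)
    exacts [e μ, e' μ, e'']) H

lemma scl_add {L : Fld K} (a : Tr → L) (y v : Vr → L) (t : L) :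
    G.Γ.scl a y + t • G.Γ.scl a v = G.Γ.scl a (y + t • v) := funext fun l => by
  show wt a (wv G.g G.h l) * y l + t * (wt a (wv G.g G.h l) * v l) =
    wt a (wv G.g G.h l) * (y l + t * v l)
  ring

variable {H : Fin 2 → MvPolynomial ((Vr ⊕ Vr) ⊕ Unit) K}
  (hH : ∀ (r : Fin 2) (L : Fld K) (y v : Vr → L) (t : L),
    t * ev (H r) y v t = aeval (y + t • v) (G.E r) - aeval y (G.E r) ∧
    ev (H r) y v 0 = ∑ μ, G.row L y r μ * v μ ∧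
    ∀ a : Tr → L, Un a → ev (H r) (G.Γ.scl a y) (G.Γ.scl a v) t =
      wt a (wγ G.g G.h r) * ev (H r) y v t) (W : ASp K d)

variable (G) in
/-- The ambient space. -/
noncomputable def AA : QS K (G.ΓJ d) :=
  ((G.B1 W).pu (.vec (wv G.g G.h))).pu (.triv .one)

include hH

/-- The deformation space. -/
noncomputable def DD : QS K (G.ΓJ d) :=
  (AA G W).sub (((AA G W).S.cl (fun _ x => ∀ r, ev (H r) x.1.1.1 x.1.2 x.2 = 0)
    fun _ _ _ _ _ _ _ e h r => Rel.eq_zero (ev_rel _ e.1.1.1 e.1.2 e.2) (h r)).opn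
      (fun _ x => G.Γ.nz (x.1.1.1 + x.2 • x.1.2)) fun _ _ R _ _ _ _ e h =>
        G.Γ.nz_lift (R := R) (fun l => R.add (e.1.1.1 l) (R.mul e.2 (e.1.2 l))) h)
    (fun _ _ m => m.1.1) fun L a x h0 m => ⟨⟨(AA G W).inv L a x h0 m.1.1, fun r =>
      ((hH r L x.1.1.1 x.1.2 x.2).2.2 a h0).trans (mul_eq_zero_of_right _ (m.1.2 r))⟩,
      (congrArg G.Γ.nz (scl_add a x.1.1.1 x.1.2 x.2)).mpr ((G.Γ.nz_scl h0).2 m.2)⟩

lemma hs : Hom (DD hH W) 0 fun _ x => x.2 :=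
  ⟨fun _ _ _ _ _ _ _ e => e.2, fun _ _ _ _ _ => by rw [wt_zero, one_mul]⟩

/-- The open part of the deformation space. -/
noncomputable def DU : QS K (G.ΓJ d) :=
  (DD hH W).sub ((DD hH W).S.opn (fun _ x => x.2 ≠ 0) fun _ _ _ _ _ _ _ e h => Rel.ne_zero e.2 h)
    (fun _ _ m => m.1) fun L a x h0 m => ⟨(DD hH W).inv L a x h0 m.1, m.2⟩

variable [X0 K]

lemma mem0 {L : Fld K} {x : ((cw.prod d).prod cw).X L} :
    ((DD hH W).zer (hs hH W)).mem L (x, 0) ↔ (G.kb W).tot.mem L x := by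
  have e : ∀ r, ev (H r) x.1.1 x.2 0 = ∑ μ, G.row L x.1.1 r μ * x.2 μ :=
    fun r => (hH r L x.1.1 x.2 0).2.1
  refine ⟨fun m => ⟨m.1.1.1.1, fun r => (e r).symm.trans (m.1.1.2 r)⟩,
    fun m => ⟨⟨⟨⟨m.1, trivial⟩, fun r => (e r).trans (m.2 r)⟩, ?_⟩, rfl⟩⟩
  show G.Γ.nz (x.1.1 + (0 : L) • x.2)
  rw [zero_smul, add_zero]
  exact m.1.1.1.1

lemma mem1 {L : Fld K} {x : (((cw.prod d).prod cw).prod .one).X L}
    (m : ((DD hH W).zer (hs hH W)).mem L x) : (G.kb W).tot.mem L x.1 := by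
  obtain ⟨x, t⟩ := x
  obtain rfl : t = 0 := m.2
  exact (mem0 hH W).1 m

variable [WB K]

lemma term {j : ℕ} {θ : Pre j (G.kb W).tot.sp} {θ' : Pre j ((DD hH W).zer (hs hH W)).sp}
    (h : ∀ L x, ((DD hH W).zer (hs hH W)).mem L x → θ'.qq L x = θ.qq L x.1)
    {M : Fld K} {O : Pl M} (o : O.IsDVR) (x : ((cw.prod d).prod cw).X M)
    {t : M} (h0 : t ≠ 0) :
    (O.ord t : ℂ) * θ'.rr O (x, t) = if 0 < O.ord t then (O.ord t : ℂ) * θ.rr O x else 0 := by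
  have A : θ'.rr O (x, t) ≠ 0 → 0 < O.ord t ∧ θ'.rr O (x, t) = θ.rr O x := by
    intro h1
    obtain ⟨u, x', hu, e, m, e'⟩ := WB.r_ne θ' h1
    refine ⟨(Pl.ord_pos_iff o h0).2 ⟨e.2.1, e.2.2.trans m.2⟩, ?_⟩
    rw [e', h _ _ m]
    exact (WB.r_eq θ (Wt.nm_un hu) e.1 (QS.nz _ _ _ (mem1 hH W m))).symm
  split_ifs with h1
  · congr 1
    by_cases h2 : θ.rr O x = 0
    · by_contra h3
      exact h3 (A (h2 ▸ h3)).2
    · obtain ⟨u, x', hu, e, m, e'⟩ := WB.r_ne θ h2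
      have m' := (mem0 hH W).2 m
      rw [e', WB.r_eq θ' (x := (x, t)) (x' := (x', 0)) (Wt.nm_un hu)
        ⟨e, (Pl.ord_pos_iff o h0).1 h1⟩ (QS.nz _ _ _ m'), h _ _ m']
  · by_contra h2
    exact h1 (A (right_ne_zero_of_mul h2)).1

lemma ex [WC K] {j : ℕ} (θ : QF j (G.kb W).tot) : ∃ Ψ, G.IsDf θ Ψ := by
  have hf : Mp ((DD hH W).zer (hs hH W)).S (G.kb W).tot.S fun _ x => x.1 :=
    ⟨fun _ _ _ _ _ _ _ e => e.1, fun _ _ m => mem1 hH W m⟩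
  have hg : Mp (G.kb W).tot.S ((DD hH W).zer (hs hH W)).S fun _ x => (x, 0) :=
    ⟨fun _ _ R _ _ _ _ e => ⟨e, R.zero⟩, fun _ _ m => (mem0 hH W).2 m⟩
  obtain ⟨φ, hφ⟩ := WB.pull (S := (DD hH W).zer (hs hH W)) ⟨hf, fun _ _ _ _ _ => rfl⟩
    (Pro.of_left hg hf fun _ _ m => Prod.ext rfl m.2.symm) θ
  obtain ⟨ψ, hψ⟩ := WC.cart (hs hH W) φ
  obtain ⟨ψ', hψ'⟩ := WB.res (DU hH W).sp ψ (fun _ _ ⟨x, m, e⟩ => ⟨x, m.1, e⟩) fun L y h => by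
    obtain ⟨x, rfl⟩ := Wt.pt_surj _ y
    obtain ⟨g, m⟩ := WB.mem ψ.toPre h
    refine ⟨x, ⟨m, fun h0 => h ?_⟩, rfl⟩
    have := (hψ L x 1 g m one_ne_zero fun h1 => absurd h0 h1).2
    rw [← show _ = ψ.v L _ from this]
    refine finsum_eq_zero_of_forall_eq_zero fun O => ?_
    rw [Wt.ow_zero, Pl.ord_eq_zero_of_mem one_ne_zero (one_mem _)
      (by rw [inv_one]; exact one_mem _), Int.cast_zero, zero_mul]
  have hf' : Mp (G.JT W).S (DU hH W).S fun _ x =>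
      ((x.1.1, x.2⁻¹ • (x.1.2 - x.1.1.1)), x.2) := by
    refine ⟨fun _ _ R _ _ _ m' e => ⟨⟨e.1.1, fun μ => R.mul (R.inv e.2 m'.2)
      (Rel.sub (e.1.2 μ) (e.1.1.1 μ))⟩, e.2⟩, fun L x m => ?_⟩
    have q : x.1.1.1 + x.2 • x.2⁻¹ • (x.1.2 - x.1.1.1) = x.1.2 := by
      rw [smul_inv_smul₀ m.2, add_sub_cancel]
    refine ⟨⟨⟨⟨⟨m.1.1, trivial⟩, trivial⟩, fun r => ?_⟩, ?_⟩, m.2⟩
    · have := (hH r L x.1.1.1 (x.2⁻¹ • (x.1.2 - x.1.1.1)) x.2).1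
      rw [q, m.1.2.2 r, m.1.1.1.2 r, sub_self] at this
      exact (mul_eq_zero.1 this).resolve_left m.2
    · show G.Γ.nz (x.1.1.1 + x.2 • x.2⁻¹ • (x.1.2 - x.1.1.1))
      rw [q]
      exact m.1.2.1
  have hg' : Mp (DU hH W).S (G.JT W).S fun _ x => ((x.1.1, x.1.1.1 + x.2 • x.1.2), x.2) := by
    refine ⟨fun _ _ R _ _ _ _ e => ⟨⟨e.1.1, fun i => R.add (e.1.1.1 i) (R.mul e.2 (e.1.2 _))⟩, e.2⟩,
      fun L x m => ⟨⟨m.1.1.1.1.1, m.1.2, fun r => ?_⟩, m.2⟩⟩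
    have := (hH r L x.1.1.1 x.1.2 x.2).1
    rw [show ev (H r) x.1.1.1 x.1.2 x.2 = 0 from m.1.1.2 r, mul_zero, m.1.1.1.1.1.1.2 r,
      sub_zero] at this
    exact this.symm
  obtain ⟨Ψ, hΨ⟩ := WB.pull (S := G.JT W) (T := DU hH W) ⟨hf', fun L a x _ _ =>
    Prod.ext (Prod.ext rfl (funext fun μ => by
      show x.2⁻¹ * (wt a (wv G.g G.h μ) * x.1.2 μ - wt a (wv G.g G.h μ) * x.1.1.1 μ) =
        wt a (wv G.g G.h μ) * (x.2⁻¹ * (x.1.2 μ - x.1.1.1 μ))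
      ring)) rfl⟩
    (Pro.of_left hg' hf' fun L x m => Prod.ext (Prod.ext rfl (by
      show x.1.1.1 + x.2 • x.2⁻¹ • (x.1.2 - x.1.1.1) = x.1.2
      rw [smul_inv_smul₀ m.2, add_sub_cancel])) rfl) ψ'
  refine ⟨Ψ, fun M y' y w t g m1 m2 m3 t0 => ?_⟩
  have m : (G.JT W).mem M (((y', w), y), t) := ⟨⟨⟨m1, m2⟩, m3⟩, t0⟩
  have := hψ M _ t g (hf'.mem M _ m).1 t0 fun _ => rfl
  simp only [Wt.ow_zero] at this
  rw [funext fun O : Dv M j => term hH W hφ O.2.1 _ t0] at this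
  exact ⟨this.1, this.2.trans ((hΨ M _ m).trans (hψ' M _)).symm⟩

end YDa

theorem YD_thm {K : Type} [Field K] [X0 K] [WB K] [WC K] [YA K] : YD K where
  ex G _ W _ θ := by
    choose H hH using YA.taylor G
    exact YDa.ex hH W θ

end Pool.Agent.Lib.MP_557161_ag.HG.TW.P2
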